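import Mathlib

namespace Pool.Agent.H2.AG1

open Real Set

/-- `[g]_ω ≤ L` on `[0, 1]` for `ω(t) = √t`. -/
def Hol (g : ℝ → ℝ) (L : ℝ) : Prop :=
  ∀ x ∈ Icc (0 : ℝ) 1, ∀ y ∈ Icc (0 : ℝ) 1, |g x - g y| ≤ L * √|x - y|

noncomputable def φ (x : ℝ) : ℝ := |x - round x|

theorem φ_eq (x : ℝ) (m : ℤ) (h : |x - m| ≤ 1 / 2) : φ x = |x - m| := by
  refine le_antisymm (round_le x m) ?_
  by_cases e : round x = m
  · rw [φ, e]
  · have : (1 : ℝ) ≤ |(round x : ℝ) - m| := by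
      have : (1 : ℤ) ≤ |round x - m| := Int.one_le_abs (sub_ne_zero.2 e)
      exact_mod_cast this
    have t := abs_sub_le (round x : ℝ) x m
    rw [abs_sub_comm (round x : ℝ) x] at t
    unfold φ; linarith

theorem φ_lip (x y : ℝ) : |φ x - φ y| ≤ |x - y| := by
  have a := (round_le x (round y)).trans (abs_sub_le x y (round y))
  have b := (round_le y (round x)).trans (abs_sub_le y x (round x))
  rw [abs_sub_comm y x] at b
  rw [abs_le]; unfold φ; constructor <;> linarith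

theorem φ_lin (j : ℤ) (s : ℝ) (h0 : 0 ≤ s) (h1 : s ≤ 1 / 2) :
    φ (j / 2 + s) = if Even j then s else 1 / 2 - s := by
  split_ifs with h
  · obtain ⟨m, rfl⟩ := h
    have e : ((m + m : ℤ) : ℝ) / 2 + s - m = s := by push_cast; ring
    rw [φ_eq _ m (by rw [e, abs_of_nonneg h0]; exact h1), e, abs_of_nonneg h0]
  · obtain ⟨m, rfl⟩ := Int.not_even_iff_odd.1 h
    have e : ((2 * m + 1 : ℤ) : ℝ) / 2 + s - (m + 1 : ℤ) = -(1 / 2 - s) := by push_cast; ring
    rw [φ_eq _ (m + 1) (by rw [e, abs_neg, abs_of_nonneg (by linarith)]; linarith), e, abs_neg,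
      abs_of_nonneg (by linarith)]

noncomputable def T (x : ℝ) : ℝ := ∑' n : ℕ, (1 / 2) ^ n * φ (4 ^ n * x)

theorem φ_nn (x : ℝ) : 0 ≤ φ x := abs_nonneg _

theorem tb (x : ℝ) (n : ℕ) : (1 / 2 : ℝ) ^ n * φ (4 ^ n * x) ≤ (1 / 2) ^ n * (1 / 2) :=
  mul_le_mul_of_nonneg_left (abs_sub_round _) (by positivity)

theorem sm (x : ℝ) : Summable fun n : ℕ => (1 / 2 : ℝ) ^ n * φ (4 ^ n * x) :=
  Summable.of_nonneg_of_le (fun n => mul_nonneg (by positivity) (φ_nn _)) (tb x)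
    (summable_geometric_two.mul_right _)

theorem T_nn (x : ℝ) : 0 ≤ T x := tsum_nonneg fun n => mul_nonneg (by positivity) (φ_nn _)

theorem T_le (x : ℝ) : T x ≤ 1 := by
  have := hasSum_le (tb x) (sm x).hasSum (hasSum_geometric_two.mul_right (1 / 2))
  unfold T; linarith

theorem T_eq (x : ℝ) : T x = φ x + T (4 * x) / 2 := by
  rw [T, (sm x).tsum_eq_zero_add, T, ← tsum_div_const]
  simp only [pow_zero, one_mul]
  congr 2; funext n; rw [pow_succ, pow_succ, mul_assoc (4 ^ n : ℝ)]; ring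

theorem T_int (m : ℤ) : T m = 0 := by
  have : ∀ n : ℕ, φ (4 ^ n * m) = 0 := fun n => by
    rw [φ_eq _ (4 ^ n * m) (by simp)]; simp
  simp [T, this]

theorem T_hol (n : ℕ) : ∀ x y : ℝ, (1 / 4) ^ (n + 1) ≤ |x - y| → |x - y| ≤ 1 →
    |T x - T y| ≤ 4 * √|x - y| - |x - y| := by
  have base : ∀ x y : ℝ, 1 / 4 ≤ |x - y| → |x - y| ≤ 1 →
      |T x - T y| ≤ 4 * √|x - y| - |x - y| := fun x y h0 h1 => by
    have : 1 / 2 ≤ √|x - y| := Real.le_sqrt_of_sq_le (by linarith)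
    rw [abs_le]; constructor <;> linarith [T_nn x, T_nn y, T_le x, T_le y]
  induction n with
  | zero => intro x y h; exact base x y (by simpa using h)
  | succ n ih =>
    intro x y h0 h1
    rcases le_total (1 / 4) |x - y| with h | h
    · exact base x y h h1
    have e : |4 * x - 4 * y| = 4 * |x - y| := by rw [← mul_sub, abs_mul]; norm_num
    have := ih (4 * x) (4 * y) (by rw [e]; rw [pow_succ] at h0; linarith) (by rw [e]; linarith)
    rw [e, show √(4 * |x - y|) = 2 * √|x - y| by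
      rw [Real.sqrt_mul (by norm_num), show (4 : ℝ) = 2 ^ 2 by norm_num, Real.sqrt_sq (by norm_num)]]
      at this
    have l := φ_lip x y
    rw [T_eq x, T_eq y]
    rw [abs_le] at this l ⊢
    constructor <;> linarith [this.1, this.2, l.1, l.2]

theorem T_Hol : Hol T 4 := by
  intro x hx y hy
  rcases eq_or_ne x y with rfl | hne
  · simp
  have p : 0 < |x - y| := abs_pos.2 (sub_ne_zero.2 hne)
  have h1 : |x - y| ≤ 1 := by rw [abs_le]; constructor <;> linarith [hx.1, hx.2, hy.1, hy.2]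
  obtain ⟨n, hn, _⟩ := exists_nat_pow_near_of_lt_one p h1 (by norm_num : (0 : ℝ) < 1 / 4) (by norm_num)
  linarith [T_hol n x y hn.le h1]

theorem T_sec (n : ℕ) : ∀ k : ℤ, T ((k + 1 / 2) * (1 / 4) ^ n) -
    (T (k * (1 / 4) ^ n) + T ((k + 1) * (1 / 4) ^ n)) / 2 = (1 / 2) ^ n / 2 := by
  induction n with
  | zero =>
    intro k
    have a := T_int (k + 1)
    have b := T_int (4 * k + 2)
    have c := φ_eq (k + 1 / 2) k (by norm_num [abs_of_pos])
    push_cast at a b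
    simp only [pow_zero, mul_one]
    rw [T_eq, show 4 * ((k : ℝ) + 1 / 2) = 4 * k + 2 by ring, a, b, c, T_int]
    norm_num [abs_of_pos]
  | succ n ih =>
    intro k
    have N0 : (0 : ℤ) < 2 * 4 ^ n := by positivity
    have hk : (k : ℝ) = 2 * 4 ^ n * (k / (2 * 4 ^ n) : ℤ) + (k % (2 * 4 ^ n) : ℤ) := by
      exact_mod_cast (Int.mul_ediv_add_emod k (2 * 4 ^ n)).symm
    have r0 : (0 : ℝ) ≤ (k % (2 * 4 ^ n) : ℤ) := by exact_mod_cast Int.emod_nonneg k N0.ne'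
    have r1 : ((k % (2 * 4 ^ n) : ℤ) : ℝ) + 1 ≤ 2 * 4 ^ n := by
      exact_mod_cast Int.emod_lt_of_pos k N0
    set j := k / (2 * 4 ^ n)
    set r : ℝ := ((k % (2 * 4 ^ n) : ℤ) : ℝ)
    have p : (0 : ℝ) < 4 ^ n := by positivity
    have L : ∀ t : ℝ, 0 ≤ t → t ≤ 1 → φ ((k + t) * (1 / 4) ^ (n + 1)) =
        if Even j then (r + t) / (4 * 4 ^ n) else 1 / 2 - (r + t) / (4 * 4 ^ n) := fun t h0 h1 => by
      rw [← φ_lin j _ (by positivity) (by rw [div_le_iff₀ (by positivity)]; linarith), hk]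
      congr 1; rw [one_div_pow, pow_succ]; field_simp; ring
    have e : ∀ t : ℝ, 4 * (t * (1 / 4) ^ (n + 1)) = t * (1 / 4) ^ n := fun t => by ring
    have L0 := L 0 le_rfl zero_le_one
    rw [add_zero (k : ℝ)] at L0
    rw [T_eq, T_eq (k * _), T_eq ((k + 1) * _), e, e, e, L (1 / 2) (by norm_num) (by norm_num), L0,
      L 1 zero_le_one le_rfl]
    have := ih k
    split_ifs <;> linear_combination this / 2

theorem osc {f : ℝ → ℝ} (hf : Hol (f - T) (1 / 4)) {u v : ℝ} (hu : 0 ≤ u) (huv : u < v) (hv : v ≤ 1) :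
    ∃ p ∈ Icc u v, ∃ q ∈ Icc u v, √(v - u) / 12 ≤ f p - f q := by
  obtain ⟨n, h1, h2⟩ := exists_nat_pow_near_of_lt_one (x := (v - u) / 2) (by linarith) (by linarith)
    (by norm_num : (0 : ℝ) < 1 / 4) (by norm_num)
  set h : ℝ := (1 / 4) ^ (n + 1) with hh
  set q : ℝ := (1 / 2) ^ (n + 1) with hq
  have hqq : h = q ^ 2 := by rw [hh, hq, ← pow_mul, mul_comm, pow_mul]; norm_num
  have q0 : 0 < q := by positivity
  have h0 : 0 < h := by positivity
  have k1 := Int.le_ceil (u / h)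
  have k2 := Int.ceil_lt_add_one (u / h)
  set k := ⌈u / h⌉
  rw [div_le_iff₀ h0] at k1
  have k3 : k * h < u + h := by
    have := mul_lt_mul_of_pos_right k2 h0
    rwa [add_mul, div_mul_cancel₀ _ h0.ne', one_mul] at this
  have s := T_sec (n + 1) k
  rw [← hh, ← hq] at s
  have mA : (k : ℝ) * h ∈ Icc u v := ⟨k1, by linarith⟩
  have mB : ((k : ℝ) + 1) * h ∈ Icc u v := ⟨by linarith, by linarith⟩
  have mM : ((k : ℝ) + 1 / 2) * h ∈ Icc u v := ⟨by linarith, by linarith⟩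
  have sub : Icc u v ⊆ Icc 0 1 := Icc_subset_Icc hu hv
  have sq : ∀ x : ℝ, |x| ≤ h → √|x| ≤ q := fun x hx =>
    Real.sqrt_le_iff.2 ⟨q0.le, by rw [← hqq]; exact hx⟩
  have a := hf _ (sub mM) _ (sub mA)
  have b := hf _ (sub mM) _ (sub mB)
  have a' := sq (((k : ℝ) + 1 / 2) * h - k * h) (by rw [abs_le]; constructor <;> linarith)
  have b' := sq (((k : ℝ) + 1 / 2) * h - (k + 1) * h) (by rw [abs_le]; constructor <;> linarith)
  simp only [Pi.sub_apply, abs_le] at a b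
  have l : √(v - u) ≤ 3 * q := by
    refine Real.sqrt_le_iff.2 ⟨by positivity, ?_⟩
    have : h = (1 / 4) ^ n * (1 / 4) := by rw [hh, pow_succ]
    nlinarith
  rcases le_total (f (k * h)) (f ((k + 1) * h)) with c | c
  · exact ⟨_, mM, _, mA, by linarith [a.1, b.1]⟩
  · exact ⟨_, mM, _, mB, by linarith [a.1, b.1]⟩

theorem hol5 {f : ℝ → ℝ} (hf : Hol (f - T) (1 / 4)) : Hol f 5 := fun x hx y hy => by
  have a := hf x hx y hy
  have b := T_Hol x hx y hy
  simp only [Pi.sub_apply, abs_le] at a b ⊢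
  constructor <;> linarith [a.1, a.2, b.1, b.2, Real.sqrt_nonneg |x - y|]

/-- cell index -/
noncomputable def ix (a s x : ℝ) : ℕ := ⌊(x - a) / (s / 160000)⌋₊

theorem ix_spec {a s x : ℝ} (hs : 0 < s) (h0 : a ≤ x) (h1 : x < a + s) :
    ix a s x < 160000 ∧ a + ix a s x * (s / 160000) ≤ x ∧
      x < a + ix a s x * (s / 160000) + s / 160000 := by
  have p : 0 < s / 160000 := by positivity
  have n : 0 ≤ (x - a) / (s / 160000) := div_nonneg (by linarith) p.le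
  have a1 := Nat.floor_le n
  have a2 := Nat.lt_floor_add_one ((x - a) / (s / 160000))
  rw [le_div_iff₀ p] at a1
  rw [div_lt_iff₀ p] at a2
  refine ⟨(Nat.floor_lt n).2 (by rw [div_lt_iff₀ p]; push_cast; linarith), ?_, ?_⟩ <;> unfold ix <;>
    linarith

theorem porous {f : ℝ → ℝ} (hf : Hol (f - T) (1 / 4)) (a b s : ℝ) (hs : 0 < s) :
    ∃ i < 160000, ∃ j < 160000, ∀ x ∈ Icc (0 : ℝ) 1, a ≤ x → x < a + s → b ≤ f x → f x < b + s →
      ¬ (ix a s x = i ∧ ix b s (f x) = j) := by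
  by_contra hc
  push Not at hc
  have H := hol5 hf
  set t := √s with ht
  have t0 : 0 < t := Real.sqrt_pos.2 hs
  have ts : t ^ 2 = s := Real.sq_sqrt hs.le
  have near : ∀ x ∈ Icc (0 : ℝ) 1, ∀ y ∈ Icc (0 : ℝ) 1, a ≤ x → x < a + s → a ≤ y → y < a + s →
      ix a s x = ix a s y → f x - f y ≤ t / 80 := fun x hx y hy x0 x1 y0 y1 e => by
    have X := ix_spec hs x0 x1
    have Y := ix_spec hs y0 y1
    rw [e] at X
    have : √|x - y| ≤ t / 400 := Real.sqrt_le_iff.2 ⟨by positivity, by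
      rw [abs_le]; constructor <;> nlinarith [X.2.1, X.2.2, Y.2.1, Y.2.2]⟩
    linarith [le_abs_self (f x - f y), H x hx y hy]
  obtain ⟨x1, m1, a1, b1, c1, d1, e1, f1⟩ := hc 0 (by norm_num) 0 (by norm_num)
  obtain ⟨x2, m2, a2, b2, c2, d2, e2, f2⟩ := hc 0 (by norm_num) 159999 (by norm_num)
  obtain ⟨x3, m3, a3, b3, c3, d3, e3, f3⟩ := hc 159999 (by norm_num) 0 (by norm_num)
  have A1 := (ix_spec hs a1 b1).2.2
  have A3 := (ix_spec hs a3 b3).2.1
  have C1 := (ix_spec hs c1 d1).2.2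
  have C2 := (ix_spec hs c2 d2).2.1
  rw [e1] at A1; rw [e3] at A3; rw [f1] at C1; rw [f2] at C2
  push_cast at A1 A3 C1 C2
  have small : s ≤ t / 40 := by linarith [near x2 m2 x1 m1 a2 b2 a1 b1 (e2.trans e1.symm)]
  obtain ⟨p, hp, q, hq, big⟩ := osc hf m1.1 (show x1 < x3 by linarith) m3.2
  have sub : Icc x1 x3 ⊆ Icc 0 1 := Icc_subset_Icc m1.1 m3.2
  have lo : 9 / 10 * t ≤ √(x3 - x1) := Real.le_sqrt_of_sq_le (by nlinarith)
  obtain ⟨p', mp, ap, bp, cp, dp, ep, _⟩ := hc _ (ix_spec hs (a1.trans hp.1) (hp.2.trans_lt b3)).1 0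
    (by norm_num)
  obtain ⟨q', mq, aq, bq, cq, dq, eq, _⟩ := hc _ (ix_spec hs (a1.trans hq.1) (hq.2.trans_lt b3)).1 0
    (by norm_num)
  have n1 := near p (sub hp) p' mp (a1.trans hp.1) (hp.2.trans_lt b3) ap bp ep.symm
  have n2 := near q' mq q (sub hq) aq bq (a1.trans hq.1) (hq.2.trans_lt b3) eq
  linarith

end Pool.Agent.H2.AG1
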