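import Mathlib
import Pool.Agent.H2.AG1

namespace Pool.Agent.H2.AG2

open Real Set Metric Pool.Agent.H2.AG1

abbrev E2 := EuclideanSpace ℝ (Fin 2)

/-- The graph of `f` over `[0, 1]` in the Euclidean plane. -/
def graph (f : ℝ → ℝ) : Set E2 := {p | p 0 ∈ Icc (0 : ℝ) 1 ∧ p 1 = f (p 0)}

/-- `N_r(A) ≤ b`: every finite family of pairwise disjoint closed `r`-balls centred in `A` has at
most `b` members. -/
def PackLE (r : ℝ) (A : Set E2) (b : ℝ) : Prop :=
  ∀ S : Finset E2, (S : Set E2) ⊆ A →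
    (S : Set E2).Pairwise (fun p q => Disjoint (closedBall p r) (closedBall q r)) → (S.card : ℝ) ≤ b

theorem count {f : ℝ → ℝ} (hf : Hol (f - T) (1 / 4)) (r : ℝ) (hr : 0 < r) (k : ℕ) :
    ∀ (a b s : ℝ) (S : Finset E2), 0 < s → s ≤ 160000 ^ k * (r / 2) →
      (∀ p ∈ S, p ∈ graph f ∧ a ≤ p 0 ∧ p 0 < a + s ∧ b ≤ p 1 ∧ p 1 < b + s) →
      (S : Set E2).Pairwise (fun p q => Disjoint (closedBall p r) (closedBall q r)) →
      S.card ≤ (160000 ^ 2 - 1) ^ k := by
  induction k with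
  | zero =>
    intro a b s S hs h1 h2 h3
    rw [pow_zero, Finset.card_le_one]
    intro p hp q hq
    by_contra hne
    refine Set.disjoint_left.1 (h3 hp hq hne) (mem_closedBall_self hr.le) ?_
    obtain ⟨_, p1, p2, p3, p4⟩ := h2 p hp
    obtain ⟨_, q1, q2, q3, q4⟩ := h2 q hq
    rw [mem_closedBall, EuclideanSpace.dist_eq, Fin.sum_univ_two, Real.dist_eq, Real.dist_eq, sq_abs,
      sq_abs]
    rw [pow_zero, one_mul] at h1
    have a1 : (p 0 - q 0) ^ 2 ≤ (r / 2) ^ 2 := sq_le_sq' (by linarith) (by linarith)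
    have a2 : (p 1 - q 1) ^ 2 ≤ (r / 2) ^ 2 := sq_le_sq' (by linarith) (by linarith)
    exact Real.sqrt_le_iff.2 ⟨hr.le, by nlinarith⟩
  | succ k ih =>
    intro a b s S hs h1 h2 h3
    classical
    obtain ⟨i, hi, j, hj, hij⟩ := porous hf a b s hs
    obtain ⟨t, ht, hm⟩ : ∃ t : Finset (ℕ × ℕ), t.card = 160000 ^ 2 - 1 ∧
        ∀ c : ℕ × ℕ, c ≠ (i, j) → c.1 < 160000 → c.2 < 160000 → c ∈ t := by
      generalize 160000 = B at hi hj
      refine ⟨(Finset.range B ×ˢ Finset.range B).erase (i, j), ?_, fun c h1 h2 h3 =>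
        Finset.mem_erase.2 ⟨h1, Finset.mem_product.2 ⟨Finset.mem_range.2 h2, Finset.mem_range.2 h3⟩⟩⟩
      rw [Finset.card_erase_of_mem
        (Finset.mem_product.2 ⟨Finset.mem_range.2 hi, Finset.mem_range.2 hj⟩),
        Finset.card_product, Finset.card_range, sq]
    have := Finset.card_le_mul_card_image_of_maps_to (s := S)
      (f := fun p : E2 => (ix a s (p 0), ix b s (p 1)))
      (t := t) (fun p hp => by
        obtain ⟨g, p1, p2, p3, p4⟩ := h2 p hp
        refine hm _ (fun e => ?_) (ix_spec hs p1 p2).1 (ix_spec hs p3 p4).1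
        rw [g.2] at p3 p4 e
        exact hij _ g.1 p1 p2 p3 p4 (Prod.ext_iff.1 e)) ((160000 ^ 2 - 1) ^ k) fun c _ => by
        refine ih (a + c.1 * (s / 160000)) (b + c.2 * (s / 160000)) (s / 160000) _ (by positivity)
          (by rw [pow_succ] at h1; linarith) (fun p hp => ?_)
          (h3.mono (by simp only [Finset.coe_filter]; exact fun p hp => hp.1))
        obtain ⟨hp, e⟩ := Finset.mem_filter.1 hp
        obtain ⟨g, p1, p2, p3, p4⟩ := h2 p hp
        rw [← e]
        exact ⟨g, (ix_spec hs p1 p2).2.1, (ix_spec hs p1 p2).2.2, (ix_spec hs p3 p4).2.1,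
          (ix_spec hs p3 p4).2.2⟩
    rwa [ht, ← pow_succ] at this

noncomputable def β : ℝ := Real.logb 160000 (160000 ^ 2 - 1)

theorem β_lt : β < 2 := by
  rw [β, Real.logb_lt_iff_lt_rpow (by norm_num) (by norm_num)]; norm_num

theorem β_pos : 0 < β := Real.logb_pos (by norm_num) (by norm_num)

theorem main {f : ℝ → ℝ} (hf : Hol (f - T) (1 / 4)) (r R : ℝ) (hr : 0 < r) (hR : r < R) (x : E2) :
    PackLE r (ball x R ∩ graph f) ((1280000 : ℝ) ^ β * (R / r) ^ β) := by
  intro S hS hP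
  have q : 1 ≤ 8 * (R / r) := by
    have : 1 < R / r := (one_lt_div hr).2 hR
    linarith
  obtain ⟨n, h1, h2⟩ := exists_nat_pow_near q (by norm_num : (1 : ℝ) < 160000)
  have c := count hf r hr (n + 1) (x 0 - 2 * R) (x 1 - 2 * R) (4 * R) S (by linarith) (by
    rw [← mul_div_assoc, div_lt_iff₀ hr] at h2; linarith) (fun p hp => by
      obtain ⟨b, g⟩ := hS hp
      have d0 := (PiLp.dist_apply_le p x 0).trans_lt (mem_ball.1 b)
      have d1 := (PiLp.dist_apply_le p x 1).trans_lt (mem_ball.1 b)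
      rw [Real.dist_eq, abs_lt] at d0 d1
      exact ⟨g, by linarith, by linarith, by linarith, by linarith⟩) hP
  have c' : (S.card : ℝ) ≤ (160000 ^ 2 - 1) ^ (n + 1) := by
    have : (S.card : ℝ) ≤ (((160000 ^ 2 - 1) ^ (n + 1) : ℕ) : ℝ) := by exact_mod_cast c
    rw [Nat.cast_pow] at this
    convert this using 2; norm_num
  have e : ((160000 : ℝ) ^ 2 - 1) ^ (n + 1) = ((160000 : ℝ) ^ (n + 1)) ^ β := by
    rw [← Real.rpow_natCast (160000 : ℝ) (n + 1), ← Real.rpow_mul (by norm_num), mul_comm,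
      Real.rpow_mul (by norm_num), β, Real.rpow_logb (by norm_num) (by norm_num) (by norm_num),
      Real.rpow_natCast]
  rw [← Real.mul_rpow (by norm_num) (by linarith)]
  refine c'.trans (e.le.trans (Real.rpow_le_rpow (by positivity) ?_ β_pos.le))
  rw [pow_succ]; linarith

end Pool.Agent.H2.AG2
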