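import Pool.Agent.H2.CM3

open MvPolynomial Pool.Agent.Lead.POG RingTheory.Sequence Pool.Agent.H2.Pdim

namespace Pool.Agent.H2.CM

lemma reg_iff {R : Type} [CommRing R] (I : Ideal R) (a b : R) :
    IsWeaklyRegular (R ⧸ I) [a, b] ↔
      (∀ g, a * g ∈ I → g ∈ I) ∧ ∀ g h, b * g - a * h ∈ I → ∃ k, g - a * k ∈ I := by
  rw [isWeaklyRegular_cons_iff, isWeaklyRegular_singleton_iff,
    isSMulRegular_quotient_iff_mem_of_smul_mem, isSMulRegular_quotient_iff_mem_of_smul_mem]
  refine and_congr Iff.rfl ⟨fun H g h hg => ?_, fun H y hy => ?_⟩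
  · obtain ⟨z, -, hz⟩ := (Submodule.mem_smul_pointwise_iff_exists _ _ _).1
      (H (I.mkQ g) ((Submodule.mem_smul_pointwise_iff_exists _ _ _).2 ⟨I.mkQ h, trivial, by
        rw [← map_smul, ← map_smul, eq_comm]; exact (Submodule.Quotient.eq _).2 hg⟩))
    obtain ⟨k, rfl⟩ := I.mkQ_surjective z
    rw [← map_smul, eq_comm] at hz
    exact ⟨k, (Submodule.Quotient.eq _).1 hz⟩
  · obtain ⟨g, rfl⟩ := I.mkQ_surjective y
    obtain ⟨z, -, hz⟩ := (Submodule.mem_smul_pointwise_iff_exists _ _ _).1 hy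
    obtain ⟨h, rfl⟩ := I.mkQ_surjective z
    rw [← map_smul, ← map_smul, eq_comm] at hz
    obtain ⟨k, hk⟩ := H g h ((Submodule.Quotient.eq _).1 hz)
    exact (Submodule.mem_smul_pointwise_iff_exists _ _ _).2 ⟨I.mkQ k, trivial, by
      rw [← map_smul, eq_comm]; exact (Submodule.Quotient.eq _).2 hk⟩

variable {K : Type} [Field K] {n k : ℕ}

lemma lin_mem_m (u : Fin 4 → K) :
    lin u ∈ Ideal.span (Set.range (MvPolynomial.X : Fin 4 → MvPolynomial (Fin 4) K)) :=
  Ideal.sum_mem _ fun i _ => Ideal.mul_mem_left _ _ (Ideal.subset_span ⟨i, rfl⟩)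

lemma cc_m {f : MvPolynomial (Fin 4) K}
    (h : f ∈ Ideal.span (Set.range (MvPolynomial.X : Fin 4 → MvPolynomial (Fin 4) K))) :
    constantCoeff f = 0 := by
  have : Ideal.span (Set.range (MvPolynomial.X : Fin 4 → MvPolynomial (Fin 4) K)) ≤
      RingHom.ker constantCoeff := by
    rw [Ideal.span_le]
    rintro _ ⟨i, rfl⟩
    simp
  exact this h

lemma pair_le_m (u v : Fin 4 → K) : Ideal.span {lin u, lin v} ≤
    Ideal.span (Set.range (MvPolynomial.X : Fin 4 → MvPolynomial (Fin 4) K)) := by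
  rw [Ideal.span_le]
  rintro _ (rfl | rfl) <;> exact lin_mem_m _

variable {a : Fin n → Fin 4 → K} {X : Fin k → Fin 3 → Fin n} {r : Fin k → Fin 3 → K}
  {s t : Fin 4 → K}

lemma rho_const (x : Fin k) (c : Fin n → K) (p : MvPolynomial (Fin 4) K) :
    rho X r x (fun i => p * C (c i)) =
      p * C (r x 0 * c (X x 0) + r x 1 * c (X x 1) + r x 2 * c (X x 2)) := by
  simp only [rho, map_add, map_mul]; ring

theorem Data.cm [CharZero K] (D : Data a X r s t) (c : Fin k → Fin n → K)
    (hc : ∀ x y, r y 0 * c x (X y 0) + r y 1 * c x (X y 1) + r y 2 * c x (X y 2) =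
      if y = x then 1 else 0) : IsCM (topPart (jac a)) := by
  rw [D.top_eq]
  have G := D.good0
  have GX := fun x => good2 (D.st _ _ (D.inj x).1) (lines a) ⟨_, _, (D.inj x).1, rfl⟩
  have hle : ∀ f ∈ Jp a X r, f ∈ LinearMap.range (cb a) := fun f ⟨g, e, _⟩ => ⟨g, e.symm⟩
  refine ⟨[lin s, lin t], ?_, ⟨(reg_iff _ _ _).2 ⟨fun g hg => ?_, fun g h hg => ?_⟩, ?_⟩, ?_⟩
  · intro p hp
    simp only [List.mem_cons, List.not_mem_nil, or_false] at hp
    rcases hp with rfl | rfl <;> exact lin_mem_m _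
  · obtain ⟨γ, rfl⟩ := G.r1 g (hle _ hg)
    refine ⟨γ, rfl, fun x => (GX x).r1 _ ?_⟩
    have := D.wd (lin s • γ) (by rwa [map_smul]) x
    rwa [rho_smul] at this
  · obtain ⟨q, γ, hγ⟩ := G.r2 g h (hle _ hg)
    obtain ⟨η, hη⟩ := G.r1 (h - lin t * q) (by
      have := sub_mem (Submodule.smul_mem _ (lin t) (LinearMap.mem_range_self (cb a) γ)) (hle _ hg)
      rw [hγ, smul_eq_mul] at this
      convert this using 1; ring)
    have h1 : cb a (lin t • γ - lin s • η) ∈ Jp a X r := by
      rw [map_sub, map_smul, map_smul, hγ, hη, smul_eq_mul, smul_eq_mul]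
      convert hg using 1; ring
    have h2 : ∀ x, ∃ z, rho X r x γ - lin s * z ∈ IX a X x := fun x => by
      have := D.wd _ h1 x
      rw [rho_sub, rho_smul, rho_smul] at this
      exact (GX x).r2 _ _ this
    choose z hz using h2
    let κ : Fin n → MvPolynomial (Fin 4) K := ∑ x, fun i => z x * C (c x i)
    have hκ : ∀ y, rho X r y κ = z y := by
      intro y
      have e : rho X r y κ = ∑ x, rho X r y fun i => z x * C (c x i) := by
        simp only [rho, κ, Finset.sum_apply, Finset.mul_sum, Finset.sum_add_distrib]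
      rw [e]
      simp only [rho_const, hc]
      rw [Finset.sum_eq_single y (fun x _ hx => by simp [hx.symm]) (by simp)]
      simp
    refine ⟨q + cb a κ, γ - lin s • κ, ?_, fun x => ?_⟩
    · rw [map_sub, map_smul, hγ, smul_eq_mul]; ring
    · rw [rho_sub, rho_smul, hκ]; exact hz x
  · intro h
    obtain ⟨i, j, hij⟩ := D.two
    let ε : (MvPolynomial (Fin 4) K ⧸ Jp a X r) →+* K := Ideal.Quotient.lift _ constantCoeff
      fun f hf => cc_m (pair_le_m _ _ (D.le_line i j hij hf))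
    have h1 : ∀ y ∈ (Ideal.ofList [lin s, lin t] • ⊤ : Submodule (MvPolynomial (Fin 4) K)
        (MvPolynomial (Fin 4) K ⧸ Jp a X r)), ε y = 0 := by
      intro y hy
      refine Submodule.smul_induction_on hy (fun p hp y _ => ?_) fun x y hx hy => ?_
      · have : p ∈ Ideal.span {lin s, lin t} := by
          convert hp
          ext; simp
        obtain ⟨y, rfl⟩ := Ideal.Quotient.mk_surjective y
        change constantCoeff (p * y) = 0
        rw [map_mul, cc_m (pair_le_m _ _ this), zero_mul]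
      · rw [map_add, hx, hy, add_zero]
    have := h1 1 (h ▸ trivial)
    simp at this
  · rw [D.dim]; rfl

theorem Data.not_cm [CharZero K] (D : Data a X r s t) (x0 : Fin k)
    (hsum : ∀ g, ∑ x, rho X r x g = 0) (c : Fin k → Fin n → K)
    (hc : ∀ x y, r y 0 * c x (X y 0) + r y 1 * c x (X y 1) + r y 2 * c x (X y 2) =
      (if y = x0 then 1 else 0) - if y = x then 1 else 0)
    (hin : ∀ i, ∃ x m, X x m = i) (i1 i2 i3 i4 : Fin n) (h4 : d4 (a i1) (a i2) (a i3) (a i4) ≠ 0) :
    ¬ IsCM (topPart (jac a)) := by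
  rw [D.top_eq]
  rintro ⟨rs, hm, hreg, hlen⟩
  rw [D.dim] at hlen
  obtain ⟨p, q, rfl⟩ := List.length_eq_two.1 (by exact_mod_cast hlen)
  obtain ⟨r1, r2⟩ := (reg_iff _ _ _).1 hreg.toIsWeaklyRegular
  let E : Ideal (MvPolynomial (Fin 4) K) :=
    { carrier := {z | ∃ g, ∀ y, rho X r y g - z * (if y = x0 then 1 else 0) ∈ IX a X y}
      add_mem' := by
        rintro z z' ⟨g, hg⟩ ⟨g', hg'⟩
        refine ⟨g + g', fun y => ?_⟩
        have := add_mem (hg y) (hg' y)
        rw [rho_add]; convert this using 1; ring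
      zero_mem' := ⟨0, fun y => by simp [rho]⟩
      smul_mem' := by
        rintro w z ⟨g, hg⟩
        refine ⟨w • g, fun y => ?_⟩
        have := Ideal.mul_mem_left _ w (hg y)
        rw [rho_smul, smul_eq_mul]; convert this using 1; ring }
  have hl : ∀ i, lin (a i) ∈ E := by
    intro i
    obtain ⟨x, m, rfl⟩ := hin i
    refine ⟨fun i => lin (a (X x m)) * C (c x i), fun y => ?_⟩
    rw [rho_const, hc]
    by_cases h : y = x
    · subst h
      have := neg_mem (D.memIX y m)
      convert this using 1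
      split_ifs <;> simp_all
    · split_ifs <;> simp
  have hE : ∀ z ∈ Ideal.span (Set.range (MvPolynomial.X : Fin 4 → MvPolynomial (Fin 4) K)),
      z ∈ E := by
    have h1 : Ideal.span {lin (a i1), lin (a i2), lin (a i3), lin (a i4)} ≤ E := by
      rw [Ideal.span_le]
      rintro _ (rfl | rfl | rfl | rfl) <;> exact hl _
    have h2 : Ideal.span (Set.range (MvPolynomial.X : Fin 4 → MvPolynomial (Fin 4) K)) ≤ E := by
      rw [Ideal.span_le]
      rintro _ ⟨i, rfl⟩
      exact h1 ((p4 h4).2 i)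
    exact h2
  have cross : ∀ z z' g g', (∀ y, rho X r y g - z * (if y = x0 then 1 else 0) ∈ IX a X y) →
      (∀ y, rho X r y g' - z' * (if y = x0 then 1 else 0) ∈ IX a X y) →
      z' * cb a g - z * cb a g' ∈ Jp a X r := by
    intro z z' g g' hg hg'
    refine ⟨z' • g - z • g', by simp, fun y => ?_⟩
    have := sub_mem (Ideal.mul_mem_left _ z' (hg y)) (Ideal.mul_mem_left _ z (hg' y))
    rw [rho_sub, rho_smul, rho_smul]; convert this using 1; ring
  obtain ⟨gp, hgp⟩ := hE p (hm p (by simp))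
  obtain ⟨gq, hgq⟩ := hE q (hm q (by simp))
  obtain ⟨w, hw⟩ := r2 _ _ (cross p q gp gq hgp hgq)
  have h5 : ∀ z g, (∀ y, rho X r y g - z * (if y = x0 then 1 else 0) ∈ IX a X y) →
      cb a g - z * w ∈ Jp a X r := by
    intro z g hg
    refine r1 _ ?_
    have := add_mem (cross z p g gp hg hgp) (Ideal.mul_mem_left _ z hw)
    convert this using 1; ring
  obtain ⟨h, rfl⟩ := D.good0.un w (by
    rintro _ ⟨i, j, hij, rfl⟩
    obtain ⟨g, hg⟩ := hE _ (lin_mem_m s)
    obtain ⟨g', e, -⟩ := h5 _ g hg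
    exact ⟨lin s, (p2 (D.st i j hij)).2.1, g - g', by rw [map_sub, ← e]; ring⟩)
  have h6 : ∀ y, (if y = x0 then 1 else 0) - rho X r y h ∈ IX a X y := by
    intro y
    obtain ⟨g, hg⟩ := hE _ (lin_mem_m s)
    have h7 := D.wd (g - lin s • h) (by rw [map_sub, map_smul]; exact h5 _ g hg) y
    rw [rho_sub, rho_smul] at h7
    have h8 : lin s * ((if y = x0 then 1 else 0) - rho X r y h) ∈ IX a X y := by
      have := sub_mem h7 (hg y)
      convert this using 1; ring
    exact ((p2 (D.st _ _ (D.inj y).1)).1.mem_or_mem h8).resolve_left (p2 (D.st _ _ (D.inj y).1)).2.1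
  have h9 := cc_m (Ideal.sum_mem _ fun y (_ : y ∈ Finset.univ) => pair_le_m _ _ (h6 y))
  rw [Finset.sum_sub_distrib, hsum] at h9
  simp at h9

lemma le_iff_span (a : Fin n → Fin 4 → K) (T : Set (Fin n)) (j : Fin n) :
    (⨅ i ∈ T, hyp (a i)) ≤ hyp (a j) ↔ a j ∈ Submodule.span K (a '' T) := by
  constructor
  · intro h
    let L : (Fin 4 → K) →ₗ[K] (Fin 4 → K) →ₗ[K] K :=
      (Fintype.bilinearCombination K K : (Fin 4 → K) →ₗ[K] (Fin 4 → K) →ₗ[K] K)
    have hL : Function.Injective L := by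
      rw [injective_iff_map_eq_zero]
      intro u hu
      funext i
      have := LinearMap.congr_fun hu (Pi.single i 1)
      simpa [L, Fintype.linearCombination_apply, Pi.single_apply] using this
    have h1 := FiniteDimensional.mem_span_of_iInf_ker_le_ker (L := fun i : T => L (a i))
      (K := L (a j)) (by rw [iInf_subtype'] at h; exact h)
    have e : Set.range (fun i : T => L (a i)) = L '' (a '' T) := by
      ext y; simp
    rw [e, ← Submodule.map_span] at h1
    obtain ⟨y, hy, e⟩ := h1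
    exact hL e ▸ hy
  · intro h v hv
    simp only [Submodule.mem_iInf, mem_hyp] at hv
    rw [mem_hyp]
    refine Submodule.span_induction (p := fun u _ => ∑ i, u i * v i = 0) ?_ ?_ ?_ ?_ h
    · rintro _ ⟨i, hi, rfl⟩; exact hv i hi
    · simp
    · intro x y _ _ hx hy; simp [add_mul, Finset.sum_add_distrib, hx, hy]
    · intro c x _ hx; simp [mul_assoc, ← Finset.mul_sum, hx]

lemma indep_transfer (a b : Fin n → Fin 4 → K) (ha : Submodule.span K (Set.range a) = ⊤)
    (h : ∀ i j, i < j → ∀ l, j < l → ∀ m, l < m → d4 (a i) (a j) (a l) (a m) ≠ 0 →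
      d4 (b i) (b j) (b l) (b m) ≠ 0) (T : Set (Fin n)) (hT : LinearIndepOn K a T) :
    LinearIndepOn K b T := by
  classical
  obtain ⟨B, -, hTB, hsp, hB⟩ := exists_linearIndepOn_extension hT (Set.subset_univ T)
  have hc : B.toFinset.card = 4 := by
    have h1 := finrank_span_eq_card hB
    have h2 : Submodule.span K (Set.range fun x : B => a x) = ⊤ := by
      rw [eq_top_iff, ← ha, Submodule.span_le, ← Set.image_eq_range]
      simpa using hsp
    rw [h2] at h1
    simpa using h1.symm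
  let σ := B.toFinset.orderEmbOfFin hc
  have hr : Set.range σ = B := by simp [σ]
  have e : ∀ c : Fin n → Fin 4 → K, Matrix.of ![c (σ 0), c (σ 1), c (σ 2), c (σ 3)] =
      Matrix.of fun i => c (σ i) := by
    intro c; ext i j; fin_cases i <;> rfl
  have key : ∀ c : Fin n → Fin 4 → K, LinearIndepOn K c B ↔
      d4 (c (σ 0)) (c (σ 1)) (c (σ 2)) (c (σ 3)) ≠ 0 := by
    intro c
    rw [← det_eq, e, ← isUnit_iff_ne_zero, ← Matrix.isUnit_iff_isUnit_det,
      ← Matrix.linearIndependent_rows_iff_isUnit, ← hr, linearIndepOn_range_iff σ.injective]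
    rfl
  exact ((key b).2 (h _ _ (σ.strictMono (by decide)) _ (σ.strictMono (by decide)) _
    (σ.strictMono (by decide)) ((key a).1 hB))).mono hTB

lemma span_transfer (a b : Fin n → Fin 4 → K)
    (h1 : ∀ T, LinearIndepOn K a T → LinearIndepOn K b T)
    (h2 : ∀ T, LinearIndepOn K b T → LinearIndepOn K a T) (T : Set (Fin n)) (j : Fin n)
    (h : a j ∈ Submodule.span K (a '' T)) : b j ∈ Submodule.span K (b '' T) := by
  by_contra hn
  obtain ⟨B, hBT, -, hsp, hB⟩ := exists_linearIndepOn_extension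
    (linearIndepOn_empty K a) (Set.empty_subset T)
  have hb : b j ∉ Submodule.span K (b '' B) := fun hh =>
    hn (Submodule.span_mono (Set.image_mono hBT) hh)
  have hj : j ∉ B := fun hh => hb (Submodule.subset_span ⟨j, hh, rfl⟩)
  have h3 := h2 _ ((linearIndepOn_insert hj).2 ⟨h1 B hB, hb⟩)
  exact ((linearIndepOn_insert hj).1 h3).2 (Submodule.span_le.2 hsp h)

lemma span_top (a : Fin n → Fin 4 → K) (i1 i2 i3 i4 : Fin n)
    (h4 : d4 (a i1) (a i2) (a i3) (a i4) ≠ 0) : Submodule.span K (Set.range a) = ⊤ := by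
  have h : LinearIndependent K (Matrix.of ![a i1, a i2, a i3, a i4]).row := by
    rw [Matrix.linearIndependent_rows_iff_isUnit, Matrix.isUnit_iff_isUnit_det, isUnit_iff_ne_zero,
      det_eq]
    exact h4
  rw [eq_top_iff, ← h.span_eq_top_of_card_eq_finrank' (by simp)]
  refine Submodule.span_mono ?_
  rintro _ ⟨i, rfl⟩
  fin_cases i
  exacts [⟨i1, rfl⟩, ⟨i2, rfl⟩, ⟨i3, rfl⟩, ⟨i4, rfl⟩]

theorem lat_iso4 (a b : Fin n → Fin 4 → K) (i1 i2 i3 i4 : Fin n)
    (ha : d4 (a i1) (a i2) (a i3) (a i4) ≠ 0) (hb : d4 (b i1) (b i2) (b i3) (b i4) ≠ 0)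
    (h : ∀ i j, i < j → ∀ l, j < l → ∀ m, l < m → (d4 (a i) (a j) (a l) (a m) = 0 ↔
      d4 (b i) (b j) (b l) (b m) = 0)) : Nonempty (lattice a ≃o lattice b) := by
  have h1 := indep_transfer a b (span_top a _ _ _ _ ha)
    fun i j hij l hl m hm hh => mt (h i j hij l hl m hm).2 hh
  have h2 := indep_transfer b a (span_top b _ _ _ _ hb)
    fun i j hij l hl m hm hh => mt (h i j hij l hl m hm).1 hh
  apply lattice_iso
  intro T j
  rw [le_iff_span, le_iff_span]
  exact ⟨span_transfer a b h1 h2 T j, span_transfer b a h2 h1 T j⟩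

end Pool.Agent.H2.CM
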