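import Mathlib

open MvPolynomial

namespace Pool.Agent.H2.Sph

variable {n d : ℕ}

/-- `Δ` is a simplicial complex with vertex set `[n]`. -/
def IsComplex (Δ : Set (Finset (Fin n))) : Prop :=
  (∀ v, {v} ∈ Δ) ∧ ∀ F ∈ Δ, ∀ G, G ⊆ F → G ∈ Δ

/-- The geometric realization: points of the standard simplex whose support is a face. -/
def realization (Δ : Set (Finset (Fin n))) : Set (Fin n → ℝ) :=
  {t | (∀ v, 0 ≤ t v) ∧ ∑ v, t v = 1 ∧ ∃ F ∈ Δ, ∀ v, v ∈ F ↔ t v ≠ 0}

/-- A simplicial `(d-1)`-sphere: the realization is homeomorphic to the unit sphere of `ℝ^d`. -/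
def IsSphere (d : ℕ) (Δ : Set (Finset (Fin n))) : Prop :=
  IsComplex Δ ∧ Nonempty (realization Δ ≃ₜ Metric.sphere (0 : EuclideanSpace ℝ (Fin d)) 1)

/-- A proper colouring of the graph of `Δ` with `d` colours. -/
def IsColoring (Δ : Set (Finset (Fin n))) (c : Fin n → Fin d) : Prop :=
  ∀ u v, u ≠ v → {u, v} ∈ Δ → c u ≠ c v

/-- The Stanley-Reisner ideal. -/
noncomputable def srIdeal (K : Type) [Field K] (Δ : Set (Finset (Fin n))) :
    Ideal (MvPolynomial (Fin n) K) :=
  Ideal.span {m | ∃ F : Finset (Fin n), F ∉ Δ ∧ m = ∏ v ∈ F, X v}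

/-- The coloured linear forms. -/
noncomputable def theta (K : Type) [Field K] (c : Fin n → Fin d) (i : Fin d) :
    MvPolynomial (Fin n) K :=
  ∑ v ∈ Finset.univ.filter (fun v => c v = i), X v

/-- The ideal `I_Δ + (Θ)` for the coloured system of parameters. -/
noncomputable def colIdeal (K : Type) [Field K] (Δ : Set (Finset (Fin n))) (c : Fin n → Fin d) :
    Ideal (MvPolynomial (Fin n) K) :=
  srIdeal K Δ ⊔ Ideal.span (Set.range (theta K c))

variable {K : Type} [Field K]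

/-- Multiplication by `g` from degree `i` to degree `j` of `S / J` is injective or surjective. -/
def MaxRank (J : Ideal (MvPolynomial (Fin n) K)) (g : MvPolynomial (Fin n) K) (i j : ℕ) : Prop :=
  (∀ f : MvPolynomial (Fin n) K, f.IsHomogeneous i → g * f ∈ J → f ∈ J) ∨
  (∀ h : MvPolynomial (Fin n) K, h.IsHomogeneous j →
    ∃ f : MvPolynomial (Fin n) K, f.IsHomogeneous i ∧ h - g * f ∈ J)

/-- The weak Lefschetz property of `S / J`. -/
def WLP (J : Ideal (MvPolynomial (Fin n) K)) : Prop :=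
  ∃ l : MvPolynomial (Fin n) K, l.IsHomogeneous 1 ∧ ∀ i, MaxRank J l i (i + 1)

/-- The strong Lefschetz property of `S / J`. -/
def SLP (J : Ideal (MvPolynomial (Fin n) K)) : Prop :=
  ∃ l : MvPolynomial (Fin n) K, l.IsHomogeneous 1 ∧ ∀ i k, 1 ≤ k → MaxRank J (l ^ k) i (i + k)

end Pool.Agent.H2.Sph
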