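import Pool.Agent.H2.AcmDefs
import Pool.Agent.H2.SphDefs
import Pool.Agent.H2.CM4

open MvPolynomial RingTheory.Sequence

namespace Pool.Agent.H2.Acm

variable {K : Type} [Field K]

abbrev R (K : Type) [Field K] := MvPolynomial (Fin 5) K

noncomputable def mn {B : Type} [CommRing B] (y : Fin 5 → B) (i j : Fin 4) : B :=
  y i.castSucc ^ 5 * y j.succ - y j.castSucc ^ 5 * y i.succ

abbrev Pr := {p : Fin 4 × Fin 4 // p.1 < p.2}

noncomputable def J (K : Type) [Field K] : Ideal (R K) :=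
  Ideal.span (Set.range fun p : Pr => mn X p.1.1 p.1.2)

lemma mn_mem (i j : Fin 4) : mn X i j ∈ J K := by
  rcases lt_trichotomy i j with h | rfl | h
  · exact Ideal.subset_span ⟨⟨(i, j), h⟩, rfl⟩
  · simp [mn]
  · rw [show (mn X i j : R K) = - mn X j i by simp [mn]]
    exact neg_mem (Ideal.subset_span ⟨⟨(j, i), h⟩, rfl⟩)

def al : Fin 5 → ℕ := ![0, 1, 6, 31, 156]

noncomputable def phi (K : Type) [Field K] : R K →ₐ[K] MvPolynomial (Fin 2) K :=
  aeval fun i => X 0 ^ (156 - al i) * X 1 ^ al i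

lemma phi_X (i : Fin 5) : phi K (X i) = X 0 ^ (156 - al i) * X 1 ^ al i := aeval_X _ _

lemma J_le : ∀ f ∈ J K, phi K f = 0 := by
  have : J K ≤ RingHom.ker (phi K) := by
    rw [J, Ideal.span_le]
    rintro _ ⟨⟨⟨i, j⟩, -⟩, rfl⟩
    simp only [SetLike.mem_coe, RingHom.mem_ker, mn, map_sub, map_mul, map_pow, phi_X]
    fin_cases i <;> fin_cases j <;> simp [al] <;> ring
  exact this

noncomputable def m5 (p a b c q : ℕ) : R K := X 0 ^ p * X 1 ^ a * X 2 ^ b * X 3 ^ c * X 4 ^ q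

lemma mono_eq (d : Fin 5 →₀ ℕ) (r : K) :
    (monomial d r : R K) = r • m5 (d 0) (d 1) (d 2) (d 3) (d 4) := by
  rw [monomial_eq, Finsupp.prod_fintype _ _ (by simp), Fin.prod_univ_five, smul_eq_C_mul, m5]

def Std (d : Fin 5 →₀ ℕ) : Prop := d 1 ≤ 5 ∧ d 1 + 6 * d 2 ≤ 30 ∧ d 1 + 6 * d 2 + 31 * d 3 ≤ 155

def W (K : Type) [Field K] : Submodule K (R K) where
  carrier := {g | ∀ d, ¬ Std d → coeff d g = 0}
  add_mem' := fun {f g} hf hg d hd => by rw [coeff_add, hf d hd, hg d hd, add_zero]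
  zero_mem' := fun d _ => coeff_zero d
  smul_mem' := fun c g hg d hd => by rw [coeff_smul, hg d hd, smul_zero]

lemma m5_W {p a b c q : ℕ} (h : a ≤ 5 ∧ a + 6 * b ≤ 30 ∧ a + 6 * b + 31 * c ≤ 155) :
    m5 p a b c q ∈ W K := by
  have := mono_eq (Finsupp.equivFunOnFinite.symm ![p, a, b, c, q]) (1 : K)
  simp only [Finsupp.equivFunOnFinite_symm_apply_apply, one_smul] at this
  intro d hd
  erw [← this]
  rw [coeff_monomial, if_neg]
  rintro rfl
  exact hd h

def Red (f : R K) : Prop := ∃ g ∈ W K, f - g ∈ J K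

lemma Red.step {u v : R K} (w : R K) (i j : Fin 4) (h : u - v = w * mn X i j) (hv : Red v) :
    Red u := by
  obtain ⟨g, hg, h1⟩ := hv
  refine ⟨g, hg, ?_⟩
  rw [show u - g = (u - v) + (v - g) by ring, h]
  exact add_mem (Ideal.mul_mem_left _ _ (mn_mem i j)) h1

lemma red_m5 (n : ℕ) : ∀ p a b c q, 6 * a + 7 * b + 6 * c = n → Red (m5 p a b c q : R K) := by
  induction n using Nat.strong_induction_on with
  | _ n ih =>
  intro p a b c q hn
  by_cases h : a ≤ 5 ∧ a + 6 * b ≤ 30 ∧ a + 6 * b + 31 * c ≤ 155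
  · exact ⟨_, m5_W h, by rw [sub_self]; exact zero_mem _⟩
  have : 6 ≤ a ∨ 6 ≤ b ∨ 6 ≤ c ∨ (1 ≤ a ∧ 5 ≤ b) ∨ (1 ≤ a ∧ 5 ≤ c) ∨ (1 ≤ b ∧ 5 ≤ c) := by omega
  rcases this with h | h | h | ⟨h, h'⟩ | ⟨h, h'⟩ | ⟨h, h'⟩
  · obtain ⟨a, rfl⟩ := Nat.exists_eq_add_of_le h
    exact Red.step (m5 p a b c q) 1 0 (by simp [m5, mn]; ring)
      (ih _ (by omega) (p + 5) a (b + 1) c q rfl)
  · obtain ⟨b, rfl⟩ := Nat.exists_eq_add_of_le h
    exact Red.step (m5 p a b c q) 2 1 (by simp [m5, mn]; ring)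
      (ih _ (by omega) p (a + 5) b (c + 1) q rfl)
  · obtain ⟨c, rfl⟩ := Nat.exists_eq_add_of_le h
    exact Red.step (m5 p a b c q) 3 2 (by simp [m5, mn]; ring)
      (ih _ (by omega) p a (b + 5) c (q + 1) rfl)
  · obtain ⟨a, rfl⟩ := Nat.exists_eq_add_of_le h
    obtain ⟨b, rfl⟩ := Nat.exists_eq_add_of_le h'
    exact Red.step (m5 p a b c q) 2 0 (by simp [m5, mn]; ring)
      (ih _ (by omega) (p + 5) a b (c + 1) q rfl)
  · obtain ⟨a, rfl⟩ := Nat.exists_eq_add_of_le h
    obtain ⟨c, rfl⟩ := Nat.exists_eq_add_of_le h'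
    exact Red.step (m5 p a b c q) 3 0 (by simp [m5, mn]; ring)
      (ih _ (by omega) (p + 5) a b c (q + 1) rfl)
  · obtain ⟨b, rfl⟩ := Nat.exists_eq_add_of_le h
    obtain ⟨c, rfl⟩ := Nat.exists_eq_add_of_le h'
    exact Red.step (m5 p a b c q) 3 1 (by simp [m5, mn]; ring)
      (ih _ (by omega) p (a + 5) b c (q + 1) rfl)

lemma red (f : R K) : Red f := by
  induction f using MvPolynomial.induction_on' with
  | monomial d r =>
    obtain ⟨g, hg, h⟩ := red_m5 (K := K) _ (d 0) (d 1) (d 2) (d 3) (d 4) rfl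
    refine ⟨r • g, Submodule.smul_mem _ _ hg, ?_⟩
    rw [mono_eq, ← smul_sub, smul_eq_C_mul]
    exact Ideal.mul_mem_left _ _ h
  | add p q hp hq =>
    obtain ⟨g, hg, h⟩ := hp
    obtain ⟨g', hg', h'⟩ := hq
    exact ⟨g + g', add_mem hg hg', by
      rw [show p + q - (g + g') = (p - g) + (q - g') by ring]; exact add_mem h h'⟩

noncomputable def psi (d : Fin 5 →₀ ℕ) : Fin 2 →₀ ℕ :=
  Finsupp.single 0 (156 * d 0 + 155 * d 1 + 150 * d 2 + 125 * d 3) +
    Finsupp.single 1 (d 1 + 6 * d 2 + 31 * d 3 + 156 * d 4)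

lemma phi_mono (d : Fin 5 →₀ ℕ) (r : K) : phi K (monomial d r) = monomial (psi d) r := by
  rw [mono_eq, psi, monomial_add_single, ← C_mul_X_pow_eq_monomial, map_smul, smul_eq_C_mul]
  simp only [m5, map_mul, map_pow, phi_X]
  simp [al]
  ring

lemma W_inj {g : R K} (hg : g ∈ W K) (h : phi K g = 0) : g = 0 := by
  ext d0
  by_cases h0 : Std d0
  swap
  · exact hg d0 h0
  have h1 := congrArg (coeff (psi d0)) h
  conv_lhs at h1 => rw [g.as_sum, map_sum, coeff_sum]
  simp only [phi_mono, coeff_monomial] at h1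
  rw [Finset.sum_eq_single d0, if_pos rfl] at h1
  · exact h1
  · intro d hd hne
    rw [if_neg]
    intro e
    have hs : Std d := by
      by_contra hs
      exact mem_support_iff.1 hd (hg d hs)
    have e0 := DFunLike.congr_fun e 0
    have e1 := DFunLike.congr_fun e 1
    simp [psi] at e0 e1
    unfold Std at hs h0
    apply hne
    have k4 : d 4 = d0 4 := by omega
    have k3 : d 3 = d0 3 := by omega
    have k2 : d 2 = d0 2 := by omega
    have k1 : d 1 = d0 1 := by omega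
    have k0 : d 0 = d0 0 := by omega
    ext i
    fin_cases i <;> assumption
  · intro hd
    rw [if_pos rfl]
    exact notMem_support_iff.1 hd

lemma mem_J (f : R K) : f ∈ J K ↔ phi K f = 0 := by
  refine ⟨J_le f, fun h => ?_⟩
  obtain ⟨g, hg, h1⟩ := red f
  have h2 := J_le _ h1
  rw [map_sub, h, zero_sub, neg_eq_zero] at h2
  rwa [W_inj hg h2, sub_zero] at h1

lemma J_prime : (J K).IsPrime := by
  rw [show J K = RingHom.ker (phi K) from Ideal.ext mem_J]
  exact RingHom.ker_isPrime _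

lemma X_nmem (i : Fin 5) : X i ∉ J K := by
  rw [mem_J, phi_X]
  exact mul_ne_zero (pow_ne_zero _ (X_ne_zero _)) (pow_ne_zero _ (X_ne_zero _))

lemma X_W {g : R K} (hg : g ∈ W K) (i : Fin 5) (hi : i = 0 ∨ i = 4) : X i * g ∈ W K := by
  intro d hd
  rw [coeff_X_mul']
  split_ifs
  · refine hg _ fun hs => hd ?_
    rcases hi with rfl | rfl <;> simpa [Std] using hs
  · rfl

lemma J_le_m : ∀ f ∈ J K, constantCoeff f = 0 := by
  have : J K ≤ RingHom.ker (constantCoeff : R K →+* K) := by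
    rw [J, Ideal.span_le]
    rintro _ ⟨⟨⟨i, j⟩, -⟩, rfl⟩
    simp [mn]
  exact this

lemma reg04 : IsRegular (R K ⧸ J K) [(X 0 : R K), X 4] := by
  refine ⟨(CM.reg_iff _ _ _).2 ⟨fun g hg => (J_prime.mem_or_mem hg).resolve_left (X_nmem 0),
    fun g h hg => ?_⟩, ?_⟩
  · obtain ⟨g', hg', h1⟩ := red g
    obtain ⟨h', hh', h2⟩ := red h
    have h3 : X 4 * g' - X 0 * h' = 0 := by
      refine W_inj (sub_mem (X_W hg' 4 (by simp)) (X_W hh' 0 (by simp))) (J_le _ ?_)
      rw [show X 4 * g' - X 0 * h' = (X 4 * g - X 0 * h) - X 4 * (g - g') + X 0 * (h - h') by ring]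
      exact add_mem (sub_mem hg (Ideal.mul_mem_left _ _ h1)) (Ideal.mul_mem_left _ _ h2)
    rcases (X_prime (i := (0 : Fin 5)) (R := K)).dvd_or_dvd (⟨h', sub_eq_zero.1 h3⟩ : X 0 ∣ X 4 * g')
      with h4 | ⟨k, hk⟩
    · rw [X_dvd_X] at h4; exact absurd h4 (by decide)
    · exact ⟨k, hk ▸ h1⟩
  · intro e
    have h1 : (J K).mkQ 1 ∈ Ideal.ofList [(X 0 : R K), X 4] • (⊤ : Submodule (R K) (R K ⧸ J K)) :=
      e ▸ Submodule.mem_top
    rw [← LinearMap.range_eq_top.2 (J K).mkQ_surjective, LinearMap.range_eq_map,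
      ← Submodule.map_smul''] at h1
    obtain ⟨y, hy, h2⟩ := h1
    have h3 := J_le_m _ ((Submodule.Quotient.eq _).1 h2)
    have h4 : Ideal.ofList [(X 0 : R K), X 4] • (⊤ : Submodule (R K) (R K)) ≤
        RingHom.ker (constantCoeff : R K →+* K) := by
      rw [Ideal.smul_eq_mul, Ideal.mul_top, Ideal.ofList, Ideal.span_le]
      intro x hx
      simp only [List.mem_cons, List.not_mem_nil, or_false, Set.mem_setOf_eq] at hx
      rcases hx with rfl | rfl <;> simp
    have h5 : constantCoeff y = 0 := h4 hy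
    simp [h5] at h3

lemma dim_le : ringKrullDim (R K ⧸ J K) ≤ 2 := by
  let f : MvPolynomial (Fin 2) K →ₐ[K] R K ⧸ J K :=
    aeval ![Ideal.Quotient.mk _ (X 0), Ideal.Quotient.mk _ (X 4)]
  letI := f.toRingHom.toAlgebra
  have ha : ∀ p, algebraMap (MvPolynomial (Fin 2) K) (R K ⧸ J K) p = f p := fun _ => rfl
  have hi : Algebra.IsIntegral (MvPolynomial (Fin 2) K) (R K ⧸ J K) := by
    constructor
    intro x
    obtain ⟨p, rfl⟩ := Ideal.Quotient.mk_surjective x
    induction p using MvPolynomial.induction_on with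
    | C a =>
      have : Ideal.Quotient.mk (J K) (C a) = algebraMap (MvPolynomial (Fin 2) K) _ (C a) := by
        rw [ha, ← algebraMap_eq, ← algebraMap_eq, AlgHom.commutes]; rfl
      rw [this]; exact isIntegral_algebraMap
    | add p q hp hq => rw [map_add]; exact hp.add hq
    | mul_X p i hp =>
      rw [map_mul]
      refine hp.mul (IsIntegral.of_pow (n := 156) (by norm_num) ?_)
      have : Ideal.Quotient.mk (J K) (X i) ^ 156 =
          algebraMap (MvPolynomial (Fin 2) K) _ (X 0 ^ (156 - al i) * X 1 ^ al i) := by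
        rw [ha]
        simp only [f, map_mul, map_pow, aeval_X, Matrix.cons_val_zero, Matrix.cons_val_one]
        rw [← map_pow, ← map_pow, ← map_pow, ← map_mul, Ideal.Quotient.eq, mem_J]
        simp only [map_sub, map_mul, map_pow, phi_X]
        fin_cases i <;> simp [al] <;> ring
      rw [this]; exact isIntegral_algebraMap
  have h1 : ringKrullDim (R K ⧸ J K) ≤ ringKrullDim (MvPolynomial (Fin 2) K) :=
    Order.krullDim_le_of_strictMono
      (PrimeSpectrum.comap (algebraMap (MvPolynomial (Fin 2) K) (R K ⧸ J K)))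
      fun P Q h => Ideal.IsIntegral.comap_lt_comap (R := MvPolynomial (Fin 2) K) h
  rw [MvPolynomial.ringKrullDim_of_isNoetherianRing, ringKrullDim_eq_zero_of_field] at h1
  simpa using h1

lemma dim_eq : ringKrullDim (R K ⧸ J K) = 2 := by
  refine le_antisymm dim_le ?_
  let g : R K →ₐ[K] Polynomial K := aeval fun i => if i = 0 then Polynomial.X else 0
  have h1 : J K ≤ RingHom.ker g := by
    rw [J, Ideal.span_le]
    rintro _ ⟨⟨⟨i, j⟩, -⟩, rfl⟩
    simp [mn, g, Fin.succ_ne_zero]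
  have h2 : RingHom.ker g ≤ RingHom.ker (constantCoeff : R K →+* K) := by
    intro p hp
    have e : (constantCoeff : R K →+* K) = (Polynomial.evalRingHom 0).comp g.toRingHom := by
      ext i
      · simp [g]
      · by_cases hi : i = 0 <;> simp [g, hi]
    rw [RingHom.mem_ker, e, RingHom.comp_apply]
    erw [(RingHom.mem_ker).1 hp]
    simp
  have := J_prime (K := K)
  rw [ringKrullDim_quotient]
  let P0 : PrimeSpectrum.zeroLocus (R := R K) (J K) := ⟨⟨J K, J_prime⟩, le_rfl (a := (J K : Set (R K)))⟩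
  let P1 : PrimeSpectrum.zeroLocus (R := R K) (J K) := ⟨⟨RingHom.ker g, RingHom.ker_isPrime _⟩, h1⟩
  let P2 : PrimeSpectrum.zeroLocus (R := R K) (J K) :=
    ⟨⟨RingHom.ker (constantCoeff : R K →+* K), RingHom.ker_isPrime _⟩, h1.trans h2⟩
  have l1 : P0 < P1 := lt_of_le_of_ne h1 fun e => X_nmem (K := K) 1 (by
    have : J K = RingHom.ker g := congrArg (fun P => P.1.asIdeal) e
    rw [this]; simp [g])
  have l2 : P1 < P2 := lt_of_le_of_ne h2 fun e => by
    have h3 : RingHom.ker g = RingHom.ker (constantCoeff : R K →+* K) :=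
      congrArg (fun P => P.1.asIdeal) e
    have h4 : X 0 ∈ RingHom.ker g := by rw [h3]; simp
    simp [g] at h4
  exact Order.le_krullDim_iff.2 ⟨LTSeries.mk 2 ![P0, P1, P2] (Fin.strictMono_iff_lt_succ.2 fun i => by
    fin_cases i
    · exact l1
    · exact l2), rfl⟩

end Pool.Agent.H2.Acm
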