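import Mathlib

open MvPolynomial

namespace Pool.Agent.H2.Acm

/-- The graded ring `R / I` is Cohen-Macaulay: the ideal `(x_0, ..., x_4)` contains an
`R / I`-regular sequence whose length is the Krull dimension of `R / I`. -/
def IsCM {K : Type} [Field K] (I : Ideal (MvPolynomial (Fin 5) K)) : Prop :=
  ∃ rs : List (MvPolynomial (Fin 5) K),
    (∀ r ∈ rs, r ∈ Ideal.span (Set.range (X : Fin 5 → MvPolynomial (Fin 5) K))) ∧
    RingTheory.Sequence.IsRegular (MvPolynomial (Fin 5) K ⧸ I) rs ∧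
    (rs.length : WithBot ℕ∞) = ringKrullDim (MvPolynomial (Fin 5) K ⧸ I)

end Pool.Agent.H2.Acm
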