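import Mathlib

/-!
Avalanche complexes of parallel sandpile dynamics on digraphs: definitions, and the realisation of
an arbitrary finite simplicial complex up to homotopy equivalence.
-/

namespace Pool.Agent.H2.Aval

open Finset Classical

section defs
variable {W : Type} [Fintype W]

/-- out-degree in the digraph with arc relation `adj` -/
noncomputable def outdeg (adj : W → W → Prop) (v : W) : ℕ := (univ.filter fun w => adj v w).card

/-- the firing set of a configuration: the unstable non-sink vertices -/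
noncomputable def fire (adj : W → W → Prop) (c : W → ℕ) : Finset W :=
  univ.filter fun v => outdeg adj v ≠ 0 ∧ outdeg adj v ≤ c v

/-- one step of parallel firing -/
noncomputable def step (adj : W → W → Prop) (c : W → ℕ) : W → ℕ := fun v =>
  c v - (if v ∈ fire adj c then outdeg adj v else 0) + ((fire adj c).filter fun u => adj u v).card

/-- the simplices of the avalanche complex: nonempty subsets of the firing sets `σ_t`, `t ≥ 0` -/
def avalanche (adj : W → W → Prop) (c0 : W → ℕ) : Set (Finset W) :=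
  {s | s.Nonempty ∧ ∃ t : ℕ, s ⊆ fire adj ((step adj)^[t] c0)}

/-- geometric realisation of a finite simplicial complex given by its set of simplices `K`:
barycentric coordinate vectors whose support is a simplex, as a subspace of `W → ℝ` -/
def geom (K : Set (Finset W)) : Set (W → ℝ) :=
  {x | (∀ v, 0 ≤ x v) ∧ ∑ v, x v = 1 ∧ (univ.filter fun v => x v ≠ 0) ∈ K}

/-- `K` is (the set of simplices of) an abstract simplicial complex -/
def IsComplex (K : Set (Finset W)) : Prop :=
  (∀ s ∈ K, s.Nonempty) ∧ ∀ s ∈ K, ∀ t : Finset W, t ⊆ s → t.Nonempty → t ∈ K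

lemma supp_nonempty {x : W → ℝ} (h : ∑ v, x v = 1) : (univ.filter fun v => x v ≠ 0).Nonempty := by
  by_contra hne
  rw [not_nonempty_iff_eq_empty, filter_eq_empty_iff] at hne
  rw [sum_eq_zero fun v hv => by simpa using hne hv] at h
  exact zero_ne_one h

lemma mem_geom {K : Set (Finset W)} (hK : IsComplex K) {x : W → ℝ} :
    x ∈ geom K ↔ (∀ v, 0 ≤ x v) ∧ ∑ v, x v = 1 ∧ ∃ s ∈ K, ∀ v, x v ≠ 0 → v ∈ s := by
  constructor
  · rintro ⟨h1, h2, h3⟩
    exact ⟨h1, h2, _, h3, fun v hv => by simpa using hv⟩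
  · rintro ⟨h1, h2, s, hs, h3⟩
    exact ⟨h1, h2, hK.2 s hs _ (fun v hv => h3 v (by simpa using hv)) (supp_nonempty h2)⟩

end defs

section build
variable {V : Type} [Fintype V] (m : ℕ) (τ : ℕ → Finset V)

/-- the clock digraph -/
def cadj : Option (V ⊕ Fin m) → Option (V ⊕ Fin m) → Prop
  | none, _ => False
  | some _, none => True
  | some (Sum.inl _), some _ => False
  | some (Sum.inr t), some (Sum.inl v) => v ∈ τ (t.val + 1)
  | some (Sum.inr t), some (Sum.inr s) => s.val = t.val + 1

lemma cadj_irrefl (w : Option (V ⊕ Fin m)) : ¬ cadj m τ w w := by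
  rcases w with _ | v | t <;> simp [cadj]

lemma cadj_conn : (SimpleGraph.fromRel (cadj m τ)).Connected := by
  have h : ∀ w, (SimpleGraph.fromRel (cadj m τ)).Reachable w none := by
    intro w
    rcases w with _ | w
    · rfl
    · exact SimpleGraph.Adj.reachable (by simp [SimpleGraph.fromRel_adj, cadj])
  exact ⟨fun a b => (h a).trans (h b).symm⟩

lemma outdeg_none : outdeg (cadj m τ) none = 0 := by simp [outdeg, cadj]

lemma outdeg_inl (v : V) : outdeg (cadj m τ) (some (Sum.inl v)) = 1 := by
  unfold outdeg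
  rw [card_eq_one]
  refine ⟨none, ?_⟩
  ext w
  rcases w with _ | w <;> simp [cadj]

lemma outdeg_inr (t : Fin m) : 0 < outdeg (cadj m τ) (some (Sum.inr t)) :=
  card_pos.mpr ⟨none, by simp [cadj]⟩

/-- the state at time `t` -/
def Inv (t : ℕ) (c : Option (V ⊕ Fin m) → ℕ) : Prop :=
  (∀ v, c (some (Sum.inl v)) = if v ∈ τ t then 1 else 0) ∧
  ∀ s : Fin m, c (some (Sum.inr s)) = if s.val < t then 0 else
    if s.val = t then outdeg (cadj m τ) (some (Sum.inr s))
    else outdeg (cadj m τ) (some (Sum.inr s)) - 1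

variable {m τ}

lemma fire_none (c : Option (V ⊕ Fin m) → ℕ) : none ∉ fire (cadj m τ) c := by
  simp [fire, outdeg_none]

lemma fire_inl {t c} (h : Inv m τ t c) (v : V) :
    some (Sum.inl v) ∈ fire (cadj m τ) c ↔ v ∈ τ t := by
  simp only [fire, mem_filter, mem_univ, true_and, outdeg_inl, h.1]
  split_ifs with hv <;> simp [hv]

lemma fire_inr {t c} (h : Inv m τ t c) (s : Fin m) :
    some (Sum.inr s) ∈ fire (cadj m τ) c ↔ s.val = t := by
  simp only [fire, mem_filter, mem_univ, true_and, h.2]
  have := outdeg_inr m τ s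
  split_ifs with h1 h2 <;> omega

lemma card_in {t c} (h : Inv m τ t c) (w : V ⊕ Fin m) :
    ((fire (cadj m τ) c).filter fun u => cadj m τ u (some w)).card =
      if ∃ s : Fin m, s.val = t ∧ cadj m τ (some (Sum.inr s)) (some w) then 1 else 0 := by
  split_ifs with hs
  · obtain ⟨s, hs, hw⟩ := hs
    rw [card_eq_one]
    refine ⟨some (Sum.inr s), ?_⟩
    ext u
    rcases u with _ | v | s'
    · simp [cadj]
    · simp [cadj]
    · simp only [mem_filter, fire_inr h, mem_singleton, Option.some.injEq, Sum.inr.injEq]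
      constructor
      · rintro ⟨h1, -⟩
        exact Fin.ext (h1.trans hs.symm)
      · rintro rfl
        exact ⟨hs, hw⟩
  · rw [card_eq_zero, filter_eq_empty_iff]
    intro u hu
    rcases u with _ | v | s'
    · simp [cadj]
    · simp [cadj]
    · exact fun hw => hs ⟨s', (fire_inr h s').mp hu, hw⟩

lemma inv_step (hτ : ∀ t, m ≤ t → τ t = ∅) {t c} (h : Inv m τ t c) :
    Inv m τ (t + 1) (step (cadj m τ) c) := by
  constructor
  · intro v
    unfold step
    rw [card_in h]
    simp only [fire_inl h, outdeg_inl, h.1, cadj]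
    have e : (∃ s : Fin m, s.val = t ∧ v ∈ τ (s.val + 1)) ↔ v ∈ τ (t + 1) := by
      constructor
      · rintro ⟨s, rfl, hs⟩; exact hs
      · intro hv
        have : t < m := by
          by_contra hlt
          rw [hτ (t + 1) (by omega)] at hv
          simp at hv
        exact ⟨⟨t, this⟩, rfl, hv⟩
    simp only [e]
    split_ifs <;> rfl
  · intro s
    unfold step
    rw [card_in h]
    simp only [fire_inr h, h.2, cadj]
    have e : (∃ s' : Fin m, s'.val = t ∧ s.val = s'.val + 1) ↔ s.val = t + 1 := by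
      constructor
      · rintro ⟨s', rfl, hs⟩; exact hs
      · intro hv
        exact ⟨⟨t, by have := s.2; omega⟩, rfl, hv⟩
    simp only [e]
    have := outdeg_inr m τ s
    split_ifs <;> omega

variable (m τ) in
/-- the starting configuration -/
noncomputable def c0 : Option (V ⊕ Fin m) → ℕ
  | none => 0
  | some (Sum.inl v) => if v ∈ τ 0 then 1 else 0
  | some (Sum.inr s) => if s.val = 0 then outdeg (cadj m τ) (some (Sum.inr s))
      else outdeg (cadj m τ) (some (Sum.inr s)) - 1

lemma inv_iter (hτ : ∀ t, m ≤ t → τ t = ∅) (t : ℕ) :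
    Inv m τ t ((step (cadj m τ))^[t] (c0 m τ)) := by
  induction t with
  | zero => exact ⟨fun v => rfl, fun s => by simp [c0]⟩
  | succ t ih => rw [Function.iterate_succ_apply']; exact inv_step hτ ih

lemma mem_geom_aval (hτ : ∀ t, m ≤ t → τ t = ∅) {x : Option (V ⊕ Fin m) → ℝ} :
    x ∈ geom (avalanche (cadj m τ) (c0 m τ)) ↔ (∀ w, 0 ≤ x w) ∧ ∑ w, x w = 1 ∧
      ∃ t : Fin m, x none = 0 ∧ (∀ v, x (some (Sum.inl v)) ≠ 0 → v ∈ τ t.val) ∧
        ∀ s, x (some (Sum.inr s)) ≠ 0 → s = t := by
  constructor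
  · rintro ⟨h1, h2, ⟨w, hw⟩, t, ht⟩
    have hI := inv_iter hτ t
    have hm : ∀ u, x u ≠ 0 → u ∈ fire (cadj m τ) ((step (cadj m τ))^[t] (c0 m τ)) :=
      fun u hu => ht (by simpa using hu)
    have htm : t < m := by
      have := ht hw
      rcases w with _ | v | s
      · exact absurd this (fire_none _)
      · rw [fire_inl hI] at this
        by_contra hlt
        rw [hτ t (by omega)] at this
        simp at this
      · rw [fire_inr hI] at this
        exact this ▸ s.2
    refine ⟨h1, h2, ⟨t, htm⟩, ?_, fun v hv => (fire_inl hI v).mp (hm _ hv),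
      fun s hs => Fin.ext ((fire_inr hI s).mp (hm _ hs))⟩
    by_contra h0
    exact fire_none _ (hm _ h0)
  · rintro ⟨h1, h2, t, h3, h4, h5⟩
    refine ⟨h1, h2, supp_nonempty h2, t.val, fun w hw => ?_⟩
    have hI := inv_iter hτ t.val
    have hw' : x w ≠ 0 := by simpa using hw
    rcases w with _ | v | s
    · exact absurd h3 hw'
    · exact (fire_inl hI v).mpr (h4 v hw')
    · exact (fire_inr hI s).mpr (congrArg Fin.val (h5 s hw'))

/-- inclusion of coordinates -/
def inc (m : ℕ) (y : V → ℝ) : Option (V ⊕ Fin m) → ℝ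
  | none => 0
  | some (Sum.inl v) => y v
  | some (Sum.inr _) => 0

/-- retraction of coordinates: the weight of clock vertex `t` is moved to `b t` -/
noncomputable def ret (b : Fin m → V) (x : Option (V ⊕ Fin m) → ℝ) : V → ℝ :=
  fun v => x (some (Sum.inl v)) + ∑ t, if b t = v then x (some (Sum.inr t)) else 0

omit [Fintype V] in
lemma inc_cont : Continuous (inc (V := V) m) := by
  refine continuous_pi fun w => ?_
  rcases w with _ | v | s
  · exact continuous_const
  · exact continuous_apply v
  · exact continuous_const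

omit [Fintype V] in
lemma ret_cont (b : Fin m → V) : Continuous (ret b) := by
  refine continuous_pi fun v => (continuous_apply _).add (continuous_finsetSum _ fun t _ => ?_)
  split_ifs
  · exact continuous_apply _
  · exact continuous_const

omit [Fintype V] in
lemma ret_inc (b : Fin m → V) (y : V → ℝ) : ret b (inc m y) = y := by
  funext v; simp [ret, inc]

lemma sum_inc (y : V → ℝ) : ∑ w, inc m y w = ∑ v, y v := by
  simp [Fintype.sum_option, Fintype.sum_sum_type, inc]

lemma sum_ret (b : Fin m → V) (x : Option (V ⊕ Fin m) → ℝ) (h : x none = 0) :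
    ∑ v, ret b x v = ∑ w, x w := by
  simp only [ret, sum_add_distrib, Fintype.sum_option, Fintype.sum_sum_type, h, zero_add]
  rw [sum_comm]
  simp

omit [Fintype V] in
lemma ret_nonneg (b : Fin m → V) {x : Option (V ⊕ Fin m) → ℝ} (h : ∀ w, 0 ≤ x w) (v : V) :
    0 ≤ ret b x v :=
  add_nonneg (h _) (sum_nonneg fun t _ => by split_ifs; exacts [h _, le_rfl])

omit [Fintype V] in
lemma ret_supp {b : Fin m → V} (hb : ∀ t : Fin m, b t ∈ τ t.val) {x : Option (V ⊕ Fin m) → ℝ}
    {t : Fin m} (h4 : ∀ v, x (some (Sum.inl v)) ≠ 0 → v ∈ τ t.val)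
    (h5 : ∀ s, x (some (Sum.inr s)) ≠ 0 → s = t) (v : V) (hv : ret b x v ≠ 0) : v ∈ τ t.val := by
  by_contra hn
  apply hv
  have e1 : x (some (Sum.inl v)) = 0 := by
    by_contra h; exact hn (h4 v h)
  rw [ret, e1, zero_add]
  refine sum_eq_zero fun s _ => ?_
  split_ifs with hs
  · by_contra h
    rw [h5 s h] at hs
    exact hn (hs ▸ hb t)
  · rfl

end build

/-- Every finite simplicial complex is homotopy equivalent to the avalanche complex of a
weakly connected loopless digraph. -/
theorem realise {V : Type} [Fintype V] (K : Set (Finset V)) (hK : IsComplex K) :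
    ∃ (W : Type) (_ : Fintype W) (adj : W → W → Prop) (c : W → ℕ), (∀ w, ¬ adj w w) ∧
      (SimpleGraph.fromRel adj).Connected ∧
      Nonempty (ContinuousMap.HomotopyEquiv (geom (avalanche adj c)) (geom K)) := by
  obtain ⟨m, ⟨e⟩⟩ := Finite.exists_equiv_fin K
  let τ : ℕ → Finset V := fun t => if h : t < m then (e.symm ⟨t, h⟩).1 else ∅
  have hτ : ∀ t, m ≤ t → τ t = ∅ := fun t ht => dif_neg (by omega)
  have hτK : ∀ t : Fin m, τ t.val ∈ K := fun t => by
    simp only [τ, dif_pos t.2]; exact (e.symm t).2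
  have hsur : ∀ s ∈ K, ∃ t : Fin m, τ t.val = s := fun s hs =>
    ⟨e ⟨s, hs⟩, by simp only [τ, dif_pos (e ⟨s, hs⟩).2]; simp⟩
  choose b hb using fun t : Fin m => hK.1 _ (hτK t)
  refine ⟨Option (V ⊕ Fin m), inferInstance, cadj m τ, c0 m τ, cadj_irrefl m τ, cadj_conn m τ, ?_⟩
  have hr : ∀ x ∈ geom (avalanche (cadj m τ) (c0 m τ)), ret b x ∈ geom K := by
    intro x hx
    obtain ⟨h1, h2, t, h3, h4, h5⟩ := (mem_geom_aval hτ).mp hx
    exact (mem_geom hK).mpr ⟨ret_nonneg b h1, (sum_ret b x h3).trans h2, _, hτK t,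
      ret_supp hb h4 h5⟩
  have hi : ∀ y ∈ geom K, inc m y ∈ geom (avalanche (cadj m τ) (c0 m τ)) := by
    intro y hy
    obtain ⟨h1, h2, s, hs, h3⟩ := (mem_geom hK).mp hy
    obtain ⟨t, rfl⟩ := hsur s hs
    refine (mem_geom_aval hτ).mpr ⟨fun w => ?_, (sum_inc y).trans h2, t, rfl, h3,
      fun s hs => absurd rfl hs⟩
    rcases w with _ | v | s
    exacts [le_rfl, h1 v, le_rfl]
  have hH : ∀ (u : unitInterval), ∀ x ∈ geom (avalanche (cadj m τ) (c0 m τ)),
      (1 - u.1) • inc m (ret b x) + u.1 • x ∈ geom (avalanche (cadj m τ) (c0 m τ)) := by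
    intro u x hx
    obtain ⟨h1, h2, t, h3, h4, h5⟩ := (mem_geom_aval hτ).mp hx
    obtain ⟨g1, g2, -⟩ := hi _ (hr x hx)
    refine (mem_geom_aval hτ).mpr ⟨fun w => ?_, ?_, t, ?_, fun v hv => ?_, fun s hs => ?_⟩
    · exact add_nonneg (mul_nonneg (sub_nonneg.mpr u.2.2) (g1 w)) (mul_nonneg u.2.1 (h1 w))
    · simp only [Pi.add_apply, Pi.smul_apply, smul_eq_mul, sum_add_distrib, ← mul_sum, h2, g2]
      ring
    · simp [inc, h3]
    · by_contra hn
      apply hv
      have e1 : x (some (Sum.inl v)) = 0 := by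
        by_contra h; exact hn (h4 v h)
      have e2 : ret b x v = 0 := by
        by_contra h; exact hn (ret_supp hb h4 h5 v h)
      simp [inc, e1, e2]
    · apply h5 s
      intro h
      apply hs
      simp [inc, h]
  let R : C(geom (avalanche (cadj m τ) (c0 m τ)), geom K) :=
    ⟨fun x => ⟨ret b x.1, hr _ x.2⟩, ((ret_cont b).comp continuous_subtype_val).subtype_mk _⟩
  let I : C(geom K, geom (avalanche (cadj m τ) (c0 m τ))) :=
    ⟨fun y => ⟨inc m y.1, hi _ y.2⟩, (inc_cont.comp continuous_subtype_val).subtype_mk _⟩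
  refine ⟨⟨R, I, ⟨?_⟩, ?_⟩⟩
  · refine ⟨⟨fun p => ⟨(1 - p.1.1) • inc m (ret b p.2.1) + p.1.1 • p.2.1, hH p.1 _ p.2.2⟩, ?_⟩,
      fun x => ?_, fun x => ?_⟩
    · refine Continuous.subtype_mk ?_ _
      have c1 : Continuous fun p : unitInterval × geom (avalanche (cadj m τ) (c0 m τ)) =>
          inc m (ret b p.2.1) :=
        inc_cont.comp ((ret_cont b).comp (continuous_subtype_val.comp continuous_snd))
      fun_prop
    · exact Subtype.ext (by simp [R, I])
    · exact Subtype.ext (by simp)
  · have : R.comp I = ContinuousMap.id _ := by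
      ext1 y
      exact Subtype.ext (ret_inc b y.1)
    rw [this]

end Pool.Agent.H2.Aval
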