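import Mathlib

namespace Pool.Agent.H2.BT

open Polynomial

section ring
variable {A : Type*} [Ring A]

def sm (x : A) : A := 1 + x + x ^ 2 + x ^ 3 + x ^ 4

lemma mul_sm (a x : A) : a * sm x = a + a * x ^ 1 + a * x ^ 2 + a * x ^ 3 + a * x ^ 4 := by
  unfold sm; noncomm_ring

lemma sm_mul {x : A} (h : x ^ 5 = 1) : sm x * x = sm x := by
  have : sm x * x = x + x ^ 2 + x ^ 3 + x ^ 4 + x ^ 5 := by unfold sm; noncomm_ring
  rw [this, h]; unfold sm; abel

lemma comm_sm {x y : A} (h : Commute x y) : Commute x (sm y) :=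
  ((((Commute.one_right x).add_right h).add_right (h.pow_right 2)).add_right
    (h.pow_right 3)).add_right (h.pow_right 4)

lemma sm_pow {x : A} (h : x ^ 5 = 1) (c : ℕ) : sm x * x ^ c = sm x := by
  induction c with
  | zero => simp
  | succ c ih => rw [pow_succ, ← mul_assoc, ih, sm_mul h]

lemma sm_sq {x : A} (h : x ^ 5 = 1) : sm x * sm x = 5 * sm x := by
  rw [mul_sm]
  simp only [sm_pow h]
  noncomm_ring

lemma sm_of_pow {z : A} (h : z ^ 5 = 1) :
    sm (z ^ 2) = sm z ∧ sm (z ^ 3) = sm z ∧ sm (z ^ 4) = sm z := by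
  have e : ∀ n, z ^ (n + 5) = z ^ n := fun n => by rw [pow_add, h, mul_one]
  unfold sm
  simp only [← pow_mul, Nat.reduceMul]
  rw [e 1, e 3, e 4, e 7, e 2, e 11, e 6, e 1, pow_one]
  exact ⟨by abel, by abel, by abel⟩

lemma heis {x y z : A} (hx : x ^ 5 = 1) (hz : z ^ 5 = 1) (h : y * x = x * y * z)
    (zx : Commute z x) (zy : Commute z y) :
    sm x * sm y * sm x = 5 * sm x - sm z * sm x + sm z * (sm x * sm y) := by
  have key : ∀ b : ℕ, sm x * y ^ b * sm x = sm x * y ^ b * sm (z ^ b) := fun b => by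
    have h1 : y ^ b * x = x * y ^ b * z ^ b := by
      induction b with
      | zero => simp
      | succ b ih =>
        rw [pow_succ, mul_assoc, h, ← mul_assoc, ← mul_assoc, ih, pow_succ,
          mul_assoc _ (z ^ b) y, (zy.pow_left b).eq]
        noncomm_ring
    have h2 : ∀ c : ℕ, sm x * y ^ b * x ^ c = sm x * y ^ b * (z ^ b) ^ c := fun c => by
      induction c with
      | zero => simp
      | succ c ih =>
        rw [pow_succ, ← mul_assoc, ih, mul_assoc, ((zx.pow_left b).pow_left c).eq, ← mul_assoc,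
          mul_assoc (sm x), h1, ← mul_assoc, ← mul_assoc, sm_mul hx, pow_succ']
        noncomm_ring
    rw [mul_sm (sm x * y ^ b) x, mul_sm _ (z ^ b)]
    simp only [h2]
  obtain ⟨z2, z3, z4⟩ := sm_of_pow hz
  have c1 := (comm_sm (comm_sm zx).symm).eq
  have c2 : sm x * sm y * sm z = sm z * (sm x * sm y) :=
    ((comm_sm (comm_sm zx).symm).mul_left (comm_sm (comm_sm zy).symm)).eq
  rw [← c2, ← c1, mul_sm (sm x) y]
  simp only [add_mul, key, z2, z3, z4, pow_one z, sm_sq hx]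
  abel

lemma quint {X Y Z : A} (hX : X * X = 5 * X) (hY : Y * Y = 5 * Y) (zx : X * Z = Z * X)
    (zy : Y * Z = Z * Y) (h1 : X * Y * X = 5 * X - Z * X + Z * (X * Y))
    (h2 : Y * X * Y = 5 * Y - Z * Y + Z * (Y * X)) (h3 : Z * (Y * X) = Z * (X * Y)) :
    (X + Y) * ((X + Y - 5) ^ 2 - 5) * ((X + Y - 5) * (X + Y - 10)) = 0 := by
  have e1 : (X + Y) * ((X + Y - 5) ^ 2 - 5) = Z * (2 * (X * Y) - X - Y) := by
    have : (X + Y) * ((X + Y - 5) ^ 2 - 5) = X * X * X + X * X * Y + X * Y * X + X * (Y * Y) +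
      Y * (X * X) + Y * X * Y + Y * Y * X + Y * Y * Y - 10 * (X * X + X * Y + Y * X + Y * Y) +
      20 * (X + Y) := by noncomm_ring
    rw [this, h1, h2, h3, hX, hY, mul_assoc 5 X X, mul_assoc 5 Y Y, hX, hY]
    noncomm_ring
  have a1 : ∀ a, X * (X * a) = 5 * (X * a) := fun a => by rw [← mul_assoc, hX, mul_assoc]
  have a2 : ∀ a, Y * (Y * a) = 5 * (Y * a) := fun a => by rw [← mul_assoc, hY, mul_assoc]
  have a3 : ∀ a, Z * (Y * (X * a)) = Z * (X * (Y * a)) := fun a => by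
    have := congrArg (· * a) h3
    simpa only [mul_assoc] using this
  have a4 : ∀ a, Z * (X * (Y * (X * a))) = 5 * (Z * (X * (Y * a))) := fun a => by
    rw [← mul_assoc Z X, ← zx, mul_assoc, a3, ← mul_assoc X Z, zx, mul_assoc, a1]
    noncomm_ring
  have a5 := a4 1
  simp only [mul_one] at a5
  have : Z * (2 * (X * Y) - X - Y) * ((X + Y - 5) * (X + Y - 10)) =
      2 * (Z * (X * (Y * (X * X))) + Z * (X * (Y * (X * Y))) + Z * (X * (Y * (Y * X))) +
        Z * (X * (Y * (Y * Y)))) - 30 * (Z * (X * (Y * X)) + Z * (X * (Y * Y))) +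
        100 * (Z * (X * Y)) - (Z * (X * (X * X)) + Z * (X * (X * Y)) + Z * (X * (Y * X)) +
        Z * (X * (Y * Y)) + Z * (Y * (X * X)) + Z * (Y * (X * Y)) + Z * (Y * (Y * X)) +
        Z * (Y * (Y * Y))) + 15 * (Z * (X * X) + Z * (X * Y) + Z * (Y * X) + Z * (Y * Y)) -
        50 * (Z * X + Z * Y) := by noncomm_ring
  have n5 : ∀ a b : A, a * (5 * b) = 5 * (a * b) := fun a b => by noncomm_ring
  rw [e1, this]
  simp only [a1, a2, a3, a4, a5, hX, hY, h3, n5]
  noncomm_ring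

end ring

section cstar
variable {A : Type*} [CStarAlgebra A] [PartialOrder A] [StarOrderedRing A]

lemma star_sm {x : A} (h : x ^ 5 = 1) (hs : star x * x = 1) : star (sm x) = sm x := by
  have : star x = x ^ 4 := by
    rw [← mul_one (star x), ← h, pow_succ', ← mul_assoc, hs, one_mul]
  rw [← (sm_of_pow h).2.2]
  conv_lhs => rw [(sm_of_pow h).2.2]
  simp [sm, this]

lemma poly_nonneg {a : A} (ha : IsSelfAdjoint a) (f g : ℝ[X]) (hf : aeval a f = 0)
    (h : ∀ t, f.eval t = 0 → 0 ≤ g.eval t) : 0 ≤ aeval a g := by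
  rw [← cfc_polynomial g a]
  refine cfc_nonneg fun t ht => h t ?_
  rw [← cfc_polynomial f a, ← cfc_zero ℝ a, cfc_eq_cfc_iff_eqOn] at hf
  exact hf ht

lemma pair_gap {x y z : A} (hx : x ^ 5 = 1) (hy : y ^ 5 = 1) (hz : z ^ 5 = 1)
    (sx : star x * x = 1) (sy : star y * y = 1) (sz : star z * z = 1)
    (h : y * x = x * y * z) (zx : Commute z x) (zy : Commute z y) :
    0 ≤ 4 * (10 - (sm x + sm y)) ^ 2 - 11 * (10 - (sm x + sm y)) := by
  have h1 := heis hx hz h zx zy
  have h' : x * y = y * x * z ^ 4 := by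
    rw [h, mul_assoc _ z, ← pow_succ', hz, mul_one]
  have h2 := heis hy (z := z ^ 4) (by rw [← pow_mul, mul_comm, pow_mul, hz, one_pow]) h'
    (zy.pow_left 4) (zx.pow_left 4)
  rw [(sm_of_pow hz).2.2] at h2
  have c1 := (comm_sm (comm_sm zx).symm).eq
  have c2 := (comm_sm (comm_sm zy).symm).eq
  have s1 := star_sm hx sx
  have s2 := star_sm hy sy
  have s3 := star_sm hz sz
  have h3 : sm z * (sm y * sm x) = sm z * (sm x * sm y) := by
    have := congrArg star h1
    simp only [star_mul, star_add, star_sub, s1, s2, s3, star_ofNat] at this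
    have c3 : sm y * sm x * sm z = sm z * (sm y * sm x) := by
      rw [mul_assoc, c1, ← mul_assoc, c2, mul_assoc]
    rw [c3, ← mul_assoc (sm x), h1, c1] at this
    rw [← sub_eq_zero, ← neg_eq_zero, ← sub_eq_zero.2 this]
    noncomm_ring
  have q := quint (sm_sq hx) (sm_sq hy) c1 c2 h1 h2 h3
  have := poly_nonneg (a := sm x + sm y) (by rw [IsSelfAdjoint, star_add, s1, s2])
    (X * ((X - 5) ^ 2 - 5) * ((X - 5) * (X - 10))) (4 * (10 - X) ^ 2 - 11 * (10 - X))
    (by simpa only [map_mul, map_sub, map_pow, aeval_X, map_ofNat] using q) fun t ht => by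
      simp only [eval_mul, eval_sub, eval_pow, eval_X, eval_ofNat, mul_eq_zero] at ht ⊢
      rcases ht with (h | h) | h | h <;> nlinarith [sq_nonneg (t - 7)]
  simpa only [map_mul, map_sub, map_pow, aeval_X, map_ofNat] using this

lemma gap_iff {a : A} (ha : IsSelfAdjoint a) (c : ℝ) :
    0 ≤ a * a - c • a ↔ ∀ t ∈ spectrum ℝ a, 0 ≤ t * t - c * t := by
  rw [← cfc_nonneg_iff (fun t : ℝ => t * t - c * t) a, cfc_sub .., cfc_mul .., cfc_id' ..,
    cfc_const_mul_id ..]

lemma q_nonneg {x : A} (hx : x ^ 5 = 1) (sx : star x * x = 1) :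
    star (5 - sm x) * (5 - sm x) = 5 * (5 - sm x) := by
  have : (5 - sm x) * (5 - sm x) = 5 * 5 - 10 * sm x + sm x * sm x := by noncomm_ring
  rw [star_sub, star_sm hx sx, star_ofNat, this, sm_sq hx]
  noncomm_ring

lemma nonneg_of_mul {a : A} (n : ℕ) [n.AtLeastTwo] (h : 0 ≤ (ofNat(n) : A) * a) : 0 ≤ a := by
  have h0 : (0 : ℝ) < n := by have := Nat.AtLeastTwo.prop (n := n); positivity
  have : a = (n : ℝ)⁻¹ • ((ofNat(n) : A) * a) := by
    rw [← Nat.cast_ofNat (R := A), ← nsmul_eq_mul, ← Nat.cast_smul_eq_nsmul ℝ, smul_smul]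
    exact (one_smul ℝ a).symm.trans (by rw [← inv_mul_cancel₀ h0.ne']; rfl)
  rw [this]
  exact smul_nonneg (by positivity) h

/-- Three order five unitaries, each cyclically consecutive pair satisfying Heisenberg
relations. -/
structure Tri (x : Fin 3 → A) : Prop where
  pow : ∀ i, x i ^ 5 = 1
  uni : ∀ i, star (x i) * x i = 1
  rel : ∀ i, ∃ z : A, z ^ 5 = 1 ∧ star z * z = 1 ∧ x (i + 1) * x i = x i * x (i + 1) * z ∧
    Commute z (x i) ∧ Commute z (x (i + 1))

noncomputable def lap (x : Fin 3 → A) : A := 15 - sm (x 0) - sm (x 1) - sm (x 2)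

lemma Tri.q {x : Fin 3 → A} (h : Tri x) (i) : 0 ≤ 5 - sm (x i) :=
  nonneg_of_mul 5 (by rw [← q_nonneg (h.pow i) (h.uni i)]; exact star_mul_self_nonneg _)

lemma lap_eq (x : Fin 3 → A) : lap x = (5 - sm (x 0)) + (5 - sm (x 1)) + (5 - sm (x 2)) := by
  rw [lap, show (15 : A) = 5 + 5 + 5 by norm_num]; abel

lemma Tri.nonneg {x : Fin 3 → A} (h : Tri x) : 0 ≤ lap x := by
  rw [lap_eq]
  exact add_nonneg (add_nonneg (h.q 0) (h.q 1)) (h.q 2)

lemma Tri.gap {x : Fin 3 → A} (h : Tri x) : 0 ≤ lap x * lap x - (1 / 2 : ℝ) • lap x := by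
  have key : ∀ i, 0 ≤ 4 * (10 - (sm (x i) + sm (x (i + 1)))) ^ 2 -
      11 * (10 - (sm (x i) + sm (x (i + 1)))) := fun i => by
    obtain ⟨z, h1, h2, h3, h4, h5⟩ := h.rel i
    exact pair_gap (h.pow _) (h.pow _) h1 (h.uni _) (h.uni _) h2 h3 h4 h5
  have := add_nonneg (add_nonneg (key 0) (key 1)) (key 2)
  refine nonneg_of_mul 4 (this.trans_eq ?_)
  have e : (4 : A) * (1 / 2 : ℝ) • lap x = 2 * lap x := by
    rw [mul_smul_comm, show (4 : A) * lap x = (2 : ℝ) • (2 * lap x) by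
      rw [two_smul]; noncomm_ring, smul_smul]
    simp
  rw [mul_sub 4 (lap x * lap x), e]
  have h0 := sm_sq (h.pow 0)
  have h1 := sm_sq (h.pow 1)
  have h2 := sm_sq (h.pow 2)
  simp only [Fin.isValue, Fin.reduceAdd, lap]
  generalize sm (x 0) = X at *
  generalize sm (x 1) = Y at *
  generalize sm (x 2) = Z at *
  rw [← sub_eq_zero, ← show 4 * (X * X - 5 * X) + 4 * (Y * Y - 5 * Y) + 4 * (Z * Z - 5 * Z) = 0 by
    simp [h0, h1, h2], show (10 : A) = (10 : ℤ) • 1 by simp, show (15 : A) = (15 : ℤ) • 1 by simp]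
  noncomm_ring

lemma Tri.fix {x : Fin 3 → A} (h : Tri x) {T r : A} (hT : 0 ≤ T) (hr : (lap x + T) * r = 0)
    (i) : x i * r = r := by
  have p : ∀ i, 0 ≤ star r * (5 - sm (x i)) * r := fun i => star_left_conjugate_nonneg (h.q i) r
  have pT := star_left_conjugate_nonneg hT r
  have e : star r * (5 - sm (x 0)) * r + star r * (5 - sm (x 1)) * r +
      star r * (5 - sm (x 2)) * r + star r * T * r = 0 := by
    rw [← mul_zero (star r), ← hr, lap_eq]; noncomm_ring
  have z : star r * (5 - sm (x i)) * r = 0 := by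
    have p0 := p 0; have p1 := p 1; have p2 := p 2
    refine le_antisymm (e ▸ ?_) (p i)
    fin_cases i
    · exact le_add_of_le_of_nonneg (le_add_of_le_of_nonneg (le_add_of_nonneg_right p1) p2) pT
    · exact le_add_of_le_of_nonneg (le_add_of_le_of_nonneg (le_add_of_nonneg_left p0) p2) pT
    · exact le_add_of_le_of_nonneg (le_add_of_nonneg_left (add_nonneg p0 p1)) pT
  have z2 : (5 - sm (x i)) * r = 0 := by
    rw [← CStarRing.star_mul_self_eq_zero_iff, star_mul, mul_assoc, ← mul_assoc (star (5 - _)),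
      q_nonneg (h.pow i) (h.uni i), ← mul_zero (5 : A), ← z]
    noncomm_ring
  have z3 : 5 * (x i * r - r) = 0 := by
    have a := congrArg (x i * ·) z2
    have b : x i * sm (x i) = sm (x i) := by
      rw [(comm_sm (Commute.refl (x i))).eq, sm_mul (h.pow i)]
    simp only [sub_mul, mul_sub, ← mul_assoc, b, mul_zero] at a z2
    rw [← sub_self (0 : A)]
    nth_rewrite 1 [← a]
    rw [← z2]
    noncomm_ring
  rw [← sub_eq_zero]
  exact le_antisymm (neg_nonneg.1 (nonneg_of_mul 5 (by rw [mul_neg, z3, neg_zero])))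
    (nonneg_of_mul 5 z3.ge)

lemma Tri.perturb {x : Fin 3 → A} (h : Tri x) {E : A} (hE : 0 ≤ E)
    (hk : ∀ r : A, (∀ i, x i * r = r) → E * r = 0) :
    spectrum ℂ (lap x + E) ⊆ {z : ℂ | z = 0 ∨ (z.im = 0 ∧ (1 / 2 : ℝ) ≤ z.re)} := by
  have sD : IsSelfAdjoint (lap x) := h.nonneg.isSelfAdjoint
  have g : ∀ t ∈ spectrum ℝ (lap x), t = 0 ∨ 1 / 2 ≤ t := fun t ht => by
    have h1 := (gap_iff sD _).1 h.gap t ht
    have h2 := spectrum_nonneg_of_nonneg h.nonneg ht
    by_contra hc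
    push Not at hc
    nlinarith [mul_pos (h2.lt_of_ne hc.1.symm) (sub_pos.2 hc.2)]
  set r : A := cfc (fun t : ℝ => max (1 / 2 - t) 0) (lap x) with hr
  have r0 : 0 ≤ r := cfc_nonneg fun t _ => le_max_right _ _
  have r1 : lap x * r = 0 := by
    nth_rewrite 1 [← cfc_id' ℝ (lap x)]
    rw [hr, ← cfc_mul .., ← cfc_const_zero ℝ (lap x)]
    refine cfc_congr fun t ht => ?_
    rcases g t ht with rfl | h
    · simp
    · simp only [max_eq_right (sub_nonpos.2 h), mul_zero]
  have r2 : r * r = (1 / 2 : ℝ) • r := by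
    rw [hr, ← cfc_mul .., ← cfc_const_mul ..]
    refine cfc_congr fun t ht => ?_
    rcases g t ht with rfl | h
    · simp
    · simp only [max_eq_right (sub_nonpos.2 h), mul_zero]
  have r3 : 0 ≤ lap x + r - algebraMap ℝ A (1 / 2) := by
    nth_rewrite 1 [← cfc_id' ℝ (lap x)]
    rw [hr, ← cfc_add .., ← cfc_const (1 / 2 : ℝ) (lap x), ← cfc_sub ..]
    exact cfc_nonneg fun t _ => by linarith [le_max_left (1 / 2 - t) 0]
  have r4 : (lap x + E) * r = 0 := by
    rw [add_mul, r1, hk r (h.fix le_rfl (by rwa [add_zero])), add_zero]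
  have L0 : 0 ≤ lap x + E := add_nonneg h.nonneg hE
  have r5 : r * (lap x + E) = 0 := by
    simpa only [star_mul, L0.isSelfAdjoint.star_eq, r0.isSelfAdjoint.star_eq, star_zero] using
      congrArg star r4
  have m : 0 ≤ (lap x + E + r) * (lap x + E + r - algebraMap ℝ A (1 / 2)) :=
    Commute.mul_nonneg (add_nonneg L0 r0) ((add_nonneg r3 hE).trans_eq (by abel))
      ((Commute.refl _).sub_right (Algebra.commutes _ _).symm)
  have m2 : 0 ≤ (lap x + E) * (lap x + E) - (1 / 2 : ℝ) • (lap x + E) := by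
    refine m.trans_eq ?_
    generalize lap x + E = L at *
    rw [mul_sub, ← Algebra.commutes, ← Algebra.smul_def, add_mul, mul_add, mul_add, r4, r5, r2,
      smul_add]
    abel
  intro z hz
  have hz' := L0.isSelfAdjoint.mem_spectrum_eq_re hz
  have hr : z.re ∈ spectrum ℝ (lap x + E) :=
    spectrum.of_algebraMap_mem ℂ (by rw [hz'] at hz; exact hz)
  have h1 := (gap_iff L0.isSelfAdjoint _).1 m2 _ hr
  have h2 := spectrum_nonneg_of_nonneg L0 hr
  rcases h2.eq_or_lt with h3 | h3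
  · left; rw [hz', ← h3]; simp
  · right
    exact ⟨by rw [hz']; simp, by nlinarith⟩

lemma pseudo_inv {L : A} (L0 : 0 ≤ L) {c : ℝ} (hc : 0 < c)
    (h : spectrum ℂ L ⊆ {z : ℂ | z = 0 ∨ (z.im = 0 ∧ c ≤ z.re)}) :
    ∃ R : A, ‖R‖ ≤ c⁻¹ ∧ L * (1 - R * L) = 0 := by
  have sL := L0.isSelfAdjoint
  have hf : Continuous fun t : ℝ => (max t c)⁻¹ :=
    Continuous.inv₀ (by fun_prop) fun t => (hc.trans_le (le_max_right _ _)).ne'
  refine ⟨cfc (fun t : ℝ => (max t c)⁻¹) L, norm_cfc_le (by positivity) fun t _ => ?_, ?_⟩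
  · rw [Real.norm_of_nonneg (by positivity)]
    exact inv_anti₀ hc (le_max_right _ _)
  · have : L * (1 - cfc (fun t : ℝ => (max t c)⁻¹) L * L) =
        cfc (fun t : ℝ => t * (1 - (max t c)⁻¹ * t)) L := by
      rw [cfc_mul _ _ L (by fun_prop) (by fun_prop), cfc_sub _ _ L (by fun_prop) (by fun_prop),
        cfc_mul _ _ L hf.continuousOn (by fun_prop), cfc_id' .., cfc_const_one ..]
    rw [this, ← cfc_const_zero ℝ L]
    refine cfc_congr fun t ht => ?_
    rcases h (spectrum.algebraMap_mem ℂ ht) with h | h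
    · simp_all
    · have : c ≤ t := by simpa using h.2
      simp [max_eq_left this, inv_mul_cancel₀ (hc.trans_le this).ne']

end cstar

lemma bessel {H : Type*} [NormedAddCommGroup H] [InnerProductSpace ℂ H] (N : ℕ) (d : ℕ → H)
    (h : H) (t : ℝ) (ho : ∀ n < N, ∀ m < N, n ≠ m → inner ℂ (d n) (d m) = 0)
    (hn : ∀ n < N, inner ℂ (d n) (d n) = (2 * t : ℂ)) (hi : ∀ n < N, inner ℂ (d n) h = t) :
    N * t ≤ 2 * ‖h‖ ^ 2 := by
  have e1 : inner ℂ (∑ n ∈ Finset.range N, d n) h = (N * t : ℝ) := by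
    rw [sum_inner, Finset.sum_congr rfl fun n hn => hi n (Finset.mem_range.1 hn)]; simp
  have e2 : inner ℂ (∑ n ∈ Finset.range N, d n) (∑ n ∈ Finset.range N, d n) = (2 * N * t : ℝ) := by
    rw [sum_inner, Finset.sum_congr rfl fun n hn' => (inner_sum ..).trans
      ((Finset.sum_eq_single_of_mem n hn' fun m hm hne => ho n (Finset.mem_range.1 hn') m
        (Finset.mem_range.1 hm) hne.symm).trans (hn n (Finset.mem_range.1 hn')))]
    simp; ring
  generalize ∑ n ∈ Finset.range N, d n = s at *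
  have e3 := norm_sub_sq (𝕜 := ℂ) s ((2 : ℂ) • h)
  rw [inner_smul_right, e1, ← inner_self_eq_norm_sq (𝕜 := ℂ) s, e2, norm_smul] at e3
  simp at e3
  nlinarith [sq_nonneg ‖s - (2 : ℂ) • h‖]

end Pool.Agent.H2.BT
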