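import Pool.Agent.H2.BT1

namespace Pool.Agent.H2.BT

section rep
variable {H : Type*} [NormedAddCommGroup H] [InnerProductSpace ℂ H] [CompleteSpace H]
  {W : Type*} [Group W] (u : W →* (H →L[ℂ] H)) (hu : ∀ w, star (u w) = u w⁻¹)
  {σ : W} (hσ : σ * σ = 1)

/-- Relations between three group elements. -/
def Rel (x : Fin 3 → W) : Prop :=
  ∀ i, x i ^ 5 = 1 ∧ ∃ z : W, z ^ 5 = 1 ∧ x (i + 1) * x i = x i * x (i + 1) * z ∧
    Commute z (x i) ∧ Commute z (x (i + 1))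

def gen (x : Fin 3 → W) (σ : W) : Option (Fin 3 × Fin 4) → W
  | none => σ
  | some (j, a) => x j ^ (a.1 + 1)

lemma sum_gen (x : Fin 3 → W) (σ : W) :
    ∑ i, (1 - u (gen x σ i)) = lap (fun j => u (x j)) + (1 - u σ) := by
  simp only [Fintype.sum_option, Fintype.sum_prod_type, Fin.sum_univ_three, Fin.sum_univ_four,
    gen, map_pow, lap, sm, show (15 : H →L[ℂ] H) = (15 : ℕ) • 1 by simp]
  simp only [Fin.val_zero, Fin.val_one, Fin.val_two, show (3 : Fin 4).1 = 3 from rfl,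
    zero_add, pow_one, Nat.reduceAdd]
  abel

lemma inv_closure {x : Fin 3 → W} {f : H} (h : ∀ i, u (x i) f = f) {w : W}
    (hw : w ∈ Subgroup.closure (Set.range x)) : u w f = f := by
  induction hw using Subgroup.closure_induction with
  | mem w hw => obtain ⟨i, rfl⟩ := hw; exact h i
  | one => simp
  | mul a b _ _ ha hb => rw [map_mul, ContinuousLinearMap.mul_apply, hb, ha]
  | inv a _ ha =>
    nth_rewrite 1 [← ha]
    rw [← ContinuousLinearMap.mul_apply, ← map_mul, inv_mul_cancel, map_one]; rfl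

include hu in
lemma tri {x : Fin 3 → W} (hx : Rel x) : Tri fun j => u (x j) where
  pow i := by rw [← map_pow, (hx i).1, map_one]
  uni i := by rw [hu, ← map_mul, inv_mul_cancel, map_one]
  rel i := by
    obtain ⟨z, h1, h2, h3, h4⟩ := (hx i).2
    exact ⟨u z, by rw [← map_pow, h1, map_one], by rw [hu, ← map_mul, inv_mul_cancel, map_one],
      by rw [← map_mul, h2, map_mul, map_mul], h3.map u, h4.map u⟩

include hu hσ in
lemma E_sq : star (1 - u σ) = 1 - u σ ∧ (1 - u σ) * (1 - u σ) = 2 * (1 - u σ) := by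
  refine ⟨by rw [star_sub, star_one, hu, inv_eq_of_mul_eq_one_right hσ], ?_⟩
  have : (1 - u σ) * (1 - u σ) = 1 - 2 * u σ + u σ * u σ := by noncomm_ring
  rw [this, ← map_mul, hσ, map_one]; noncomm_ring

include hu hσ in
lemma E_nonneg : 0 ≤ 1 - u σ := nonneg_of_mul 2 (by
  rw [← (E_sq u hu hσ).2]
  nth_rewrite 1 [← (E_sq u hu hσ).1]
  exact star_mul_self_nonneg _)

lemma inner_star (a : H →L[ℂ] H) (p q : H) : inner ℂ (a p) q = inner ℂ p (star a q) := by
  rw [ContinuousLinearMap.star_eq_adjoint, ContinuousLinearMap.adjoint_inner_right]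

include hu hσ in
lemma bes (g : ℕ → W) (N : ℕ) (f h : H)
    (ho : ∀ n < N, ∀ m < N, n ≠ m → ((1 - u σ) * u ((g n)⁻¹ * g m) * (1 - u σ)) f = 0)
    (hi : ∀ n < N, inner ℂ ((1 - u σ) f) (u (g n)⁻¹ h) = inner ℂ ((1 - u σ) f) f) :
    N * ‖(1 - u σ) f‖ ^ 2 ≤ 4 * ‖h‖ ^ 2 := by
  obtain ⟨s1, s2⟩ := E_sq u hu hσ
  generalize 1 - u σ = E at *
  have e : ∀ n m, inner ℂ (u (g n) (E f)) (u (g m) (E f)) =
      inner ℂ f ((E * u ((g n)⁻¹ * g m) * E) f) := fun n m => by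
    rw [inner_star, inner_star, hu, s1, map_mul]; rfl
  have e1 : inner ℂ (E f) (E f) = 2 * inner ℂ (E f) f := by
    rw [← inner_conj_symm, inner_star, s1, ← ContinuousLinearMap.mul_apply, s2,
      inner_conj_symm, two_mul, two_mul, ContinuousLinearMap.add_apply, inner_add_left]
  have e2 := inner_self_eq_norm_sq_to_K (𝕜 := ℂ) (E f)
  have := bessel N (fun n => u (g n) (E f)) h (‖E f‖ ^ 2 / 2)
    (fun n hn m hm hne => by rw [e, ho n hn m hm hne, inner_zero_right])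
    (fun n _ => by
      rw [inner_star, hu, ← ContinuousLinearMap.mul_apply (u _), ← map_mul, inv_mul_cancel,
        map_one, ContinuousLinearMap.one_apply, e2]
      push_cast; ring_nf; rfl)
    (fun n hn => by
      rw [inner_star, hu, hi n hn]
      push_cast
      rw [eq_div_iff two_ne_zero, mul_comm, ← e1, e2]; rfl)
  linarith

include hu hσ in
lemma rep_gap {x : Fin 3 → W} (hx : Rel x) (g : ℕ → W)
    (hg : ∀ n, g n ∈ Subgroup.closure (Set.range x))
    (ho : ∀ n m, n ≠ m → (1 - u σ) * u ((g n)⁻¹ * g m) * (1 - u σ) = 0) :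
    spectrum ℂ (∑ i, (1 - u (gen x σ i))) ⊆
      {z : ℂ | z = 0 ∨ (z.im = 0 ∧ (1 / 2 : ℝ) ≤ z.re)} := by
  rw [sum_gen]
  refine (tri u hu hx).perturb (E_nonneg u hu hσ) fun r hr => ContinuousLinearMap.ext fun η => ?_
  have h1 : ∀ i, u (x i) (r η) = r η := fun i => congr($(hr i) η)
  by_contra h
  have h2 : 0 < ‖(1 - u σ) (r η)‖ ^ 2 := pow_pos (norm_pos_iff.2 h) 2
  obtain ⟨N, hN⟩ := exists_nat_gt (4 * ‖r η‖ ^ 2 / ‖(1 - u σ) (r η)‖ ^ 2)
  have := bes u hu hσ g N (r η) (r η) (fun n _ m _ hne => by rw [ho n m hne]; rfl)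
    fun n _ => by rw [inv_closure u h1 (inv_mem (hg n))]
  rw [div_lt_iff₀ h2] at hN
  linarith

include hu hσ in
lemma rep_nogap {x : Fin 3 → W} (hx : Rel x) (g : ℕ → W)
    (hg : ∀ n, g n ∈ Subgroup.closure (Set.range x))
    (hf : ∀ N : ℕ, ∃ f : H, (∀ i, u (x i) f = f) ∧ (1 - u σ) f ≠ 0 ∧ ∀ n < N, ∀ m < N, n ≠ m →
      ((1 - u σ) * u ((g n)⁻¹ * g m) * (1 - u σ)) f = 0) :
    ¬ ∃ c : ℝ, 0 < c ∧ spectrum ℂ (∑ i, (1 - u (gen x σ i))) ⊆
      {z : ℂ | z = 0 ∨ (z.im = 0 ∧ c ≤ z.re)} := by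
  rintro ⟨c, hc, h⟩
  rw [sum_gen] at h
  have T := tri u hu hx
  have L0 := add_nonneg T.nonneg (E_nonneg u hu hσ)
  obtain ⟨R, hR, hK⟩ := pseudo_inv L0 hc h
  obtain ⟨N, hN⟩ := exists_nat_gt (4 * c⁻¹ ^ 2)
  obtain ⟨f, f1, f2, f3⟩ := hf N
  have k1 := T.fix (E_nonneg u hu hσ) hK
  have l1 : (lap (fun j => u (x j)) + (1 - u σ)) f = (1 - u σ) f := by
    rw [← sum_gen, ContinuousLinearMap.sum_apply, Fintype.sum_option, Finset.sum_eq_zero, add_zero]
    · rfl
    · rintro ⟨j, a⟩ -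
      rw [ContinuousLinearMap.sub_apply, gen, inv_closure u f1
        (pow_mem (Subgroup.subset_closure (Set.mem_range_self j)) _)]
      exact sub_self _
  have sL := L0.isSelfAdjoint.star_eq
  generalize lap (fun j => u (x j)) + (1 - u σ) = L at *
  have := bes u hu hσ g N f (R (L f)) f3 fun n _ => by
    have e : R (L f) = f - (1 - R * L) f := by simp
    rw [e, map_sub, inv_closure u f1 (inv_mem (hg n)),
      inv_closure u (f := (1 - R * L) f) (fun i => congr($(k1 i) f)) (inv_mem (hg n)), inner_sub_right, ← l1,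
      inner_star L f ((1 - R * L) f), sL, ← ContinuousLinearMap.mul_apply, hK]
    simp
  have h2 : 0 < ‖(1 - u σ) f‖ ^ 2 := pow_pos (norm_pos_iff.2 f2) 2
  have h3 : ‖R (L f)‖ ≤ c⁻¹ * ‖(1 - u σ) f‖ := by
    rw [l1]
    exact (R.le_opNorm _).trans (by gcongr)
  have h4 : ‖R (L f)‖ ^ 2 ≤ (c⁻¹ * ‖(1 - u σ) f‖) ^ 2 := by gcongr
  nlinarith

end rep

noncomputable abbrev l2 := lp (fun _ : ℕ => ℂ) 2

noncomputable abbrev dl (x : ℕ) : l2 := lp.single 2 x (1 : ℂ)

noncomputable def b0 : HilbertBasis ℕ ℂ l2 := HilbertBasis.ofRepr (LinearIsometryEquiv.refl ℂ _)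

lemma b0_apply (i : ℕ) : b0 i = dl i := (b0.repr_symm_single i).symm

noncomputable def bp (p : Equiv.Perm ℕ) : HilbertBasis ℕ ℂ l2 :=
  HilbertBasis.mk (b0.orthonormal.comp p p.injective) (by
    rw [p.surjective.range_comp, b0.dense_span])

lemma ext_dl {S T : l2 →L[ℂ] l2} (h : ∀ i, S (dl i) = T (dl i)) : S = T :=
  lp.ext_continuousLinearMap (by simp) fun i => by ext1; exact h i

noncomputable def U0 (p : Equiv.Perm ℕ) : l2 →L[ℂ] l2 :=
  (bp p).repr.symm.toContinuousLinearEquiv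

lemma U0_dl (p : Equiv.Perm ℕ) (i : ℕ) : U0 p (dl i) = dl (p i) := by
  refine ((bp p).repr_symm_single i).trans ?_
  rw [bp, HilbertBasis.coe_mk, Function.comp_apply, b0_apply]

noncomputable def U : Equiv.Perm ℕ →* (l2 →L[ℂ] l2) where
  toFun := U0
  map_one' := ext_dl fun i => U0_dl 1 i
  map_mul' p q := ext_dl fun i => by
    rw [ContinuousLinearMap.mul_apply, U0_dl, U0_dl, U0_dl]; rfl

lemma U_dl (p : Equiv.Perm ℕ) (i : ℕ) : U p (dl i) = dl (p i) := U0_dl p i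

lemma U_star (p : Equiv.Perm ℕ) : star (U p) = U p⁻¹ := by
  rw [ContinuousLinearMap.star_eq_adjoint, eq_comm, ContinuousLinearMap.eq_adjoint_iff]
  intro a b
  rw [← (bp p).repr.symm.inner_map_map]
  congr 1
  change (U p * U p⁻¹) a = a
  rw [← map_mul, mul_inv_cancel, map_one]; rfl

lemma inner_dl (y x : ℕ) : inner ℂ (dl y) (dl x) = if y = x then 1 else 0 := by
  rw [← b0_apply, ← b0_apply]
  exact orthonormal_iff_ite.1 b0.orthonormal y x

end Pool.Agent.H2.BT
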