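import Pool.Agent.H2.BT2

namespace Pool.Agent.H2.BT

open Equiv

lemma gen_inv {W : Type*} [Group W] {x : Fin 3 → W} (hx : Rel x) {σ : W} (hσ : σ * σ = 1) (i) :
    ∃ j, gen x σ j * gen x σ i = 1 := by
  rcases i with _ | ⟨j, a⟩
  · exact ⟨none, hσ⟩
  · refine ⟨some (j, a.rev), ?_⟩
    rw [gen, gen, ← pow_add, ← (hx j).1, Fin.val_rev]
    congr 1
    omega

section
variable (G : SimpleGraph ℕ)

def PS : Submodule ℂ (l2 →L[ℂ] l2) where
  carrier := {T | ∃ R : ℕ, ∀ x y : ℕ, inner ℂ (dl y) (T (dl x)) ≠ 0 → G.edist x y ≤ (R : ℕ∞)}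
  zero_mem' := ⟨0, fun x y h => by simp at h⟩
  add_mem' := by
    rintro S T ⟨R, hR⟩ ⟨R', hR'⟩
    refine ⟨R + R', fun x y h => ?_⟩
    rw [ContinuousLinearMap.add_apply, inner_add_right] at h
    by_cases h1 : inner ℂ (dl y) (S (dl x)) = 0
    · exact (hR' x y (by simpa [h1] using h)).trans (by simp)
    · exact (hR x y h1).trans (by simp)
  smul_mem' := by
    rintro c T ⟨R, hR⟩
    refine ⟨R, fun x y h => hR x y fun h' => h ?_⟩
    rw [ContinuousLinearMap.smul_apply, inner_smul_right, h', mul_zero]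

def WS : Subgroup (Perm ℕ) where
  carrier := {p | ∃ R : ℕ, ∀ v, G.edist v (p v) ≤ (R : ℕ∞)}
  one_mem' := ⟨0, fun v => by simp⟩
  mul_mem' := by
    rintro p q ⟨R, hR⟩ ⟨R', hR'⟩
    refine ⟨R' + R, fun v => (G.edist_triangle (v := q v)).trans ?_⟩
    push_cast
    exact add_le_add (hR' v) (hR (q v))
  inv_mem' := by
    rintro p ⟨R, hR⟩
    exact ⟨R, fun v => by simpa [G.edist_comm] using hR (p⁻¹ v)⟩

noncomputable def VV (w : WS G) : PS G :=
  ⟨U w, w.2.imp fun R hR x y h => by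
    rw [U_dl, inner_dl] at h
    obtain rfl : y = w.1 x := by simpa using h
    exact hR x⟩

end

lemma ghost_dl {σ k : Perm ℕ} {v : ℕ}
    (h : σ v = v ∨ (σ (k v) = k v ∧ σ (k (σ v)) = k (σ v))) :
    ((1 - U σ) * U k * (1 - U σ)) (dl v) = 0 := by
  simp only [mul_apply_eq_comp, ContinuousLinearMap.sub_apply, ContinuousLinearMap.one_apply,
    map_sub, U_dl]
  rcases h with h | ⟨h1, h2⟩
  · simp [h]
  · simp [h1, h2]

theorem boundary (G : SimpleGraph ℕ) (x : Fin 3 → Perm ℕ) (σ : Perm ℕ) (g : ℕ → Perm ℕ)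
    (hx : Rel x) (hσ : σ * σ = 1) (hg : ∀ n, g n ∈ Subgroup.closure (Set.range x))
    (hW : ∀ i, gen x σ i ∈ WS G)
    (gh : ∀ n m, n ≠ m → ∃ F : Finset ℕ, ∀ v ∉ F, σ v = v ∨
      (σ (((g n)⁻¹ * g m) v) = ((g n)⁻¹ * g m) v ∧
        σ (((g n)⁻¹ * g m) (σ v)) = ((g n)⁻¹ * g m) (σ v)))
    (H : Type) [NormedAddCommGroup H] [InnerProductSpace ℂ H] [CompleteSpace H]
    (π : (l2 →L[ℂ] l2) → (H →L[ℂ] H))
    (h1 : ∀ S ∈ PS G, ∀ T ∈ PS G, π (S + T) = π S + π T ∧ π (S * T) = π S * π T)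
    (h2 : ∀ a : ℂ, ∀ T ∈ PS G, π (a • T) = a • π T) (h3 : ∀ T ∈ PS G, π (star T) = star (π T))
    (h4 : ∀ T ∈ PS G, (∃ F : Finset ℕ, ∀ v ∉ F, T (dl v) = 0) → π T = 0) :
    spectrum ℂ (π (∑ i, (1 - U (gen x σ i)))) ⊆
      {z : ℂ | z = 0 ∨ (z.im = 0 ∧ (1 / 2 : ℝ) ≤ z.re)} := by
  let p : PS G →ₗ[ℂ] (H →L[ℂ] H) :=
    ⟨⟨fun T => π T, fun S T => (h1 _ S.2 _ T.2).1⟩, fun a T => h2 a _ T.2⟩
  have m : ∀ a b : WS G, p (VV G (a * b)) = p (VV G a) * p (VV G b) := fun a b =>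
    (congrArg π (map_mul U a.1 b.1)).trans (h1 _ (VV G a).2 _ (VV G b).2).2
  have st : ∀ a : WS G, star (p (VV G a)) = p (VV G a⁻¹) := fun a =>
    (h3 _ (VV G a).2).symm.trans (congrArg π (U_star a.1))
  let u : WS G →* (H →L[ℂ] H) :=
    ⟨⟨fun w => p (VV G w) + (1 - p (VV G 1)), by simp⟩, fun a b => by
      simp only [mul_add, add_mul, mul_sub, sub_mul, ← m, mul_one, one_mul]; abel⟩
  have hu : ∀ w, star (u w) = u w⁻¹ := fun w => by
    simp only [u, MonoidHom.coe_mk, OneHom.coe_mk, star_add, star_sub, st, star_one, inv_one]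
  let x' : Fin 3 → WS G := fun j => ⟨x j, by simpa [gen] using hW (some (j, 0))⟩
  let σ' : WS G := ⟨σ, hW none⟩
  have hx' : Rel x' := fun i => by
    obtain ⟨a, z, z1, z2, z3, z4⟩ := hx i
    have e : ((x' i * x' (i + 1))⁻¹ * (x' (i + 1) * x' i)).1 = z := by
      change (x i * x (i + 1))⁻¹ * (x (i + 1) * x i) = z
      rw [z2, inv_mul_cancel_left]
    refine ⟨Subtype.ext a, ⟨z, e ▸ Subtype.prop _⟩, Subtype.ext z1, Subtype.ext z2,
      Subtype.ext z3, Subtype.ext z4⟩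
  have : ∀ n, ∃ w ∈ Subgroup.closure (Set.range x'), (WS G).subtype w = g n := fun n => by
    rw [← Subgroup.mem_map, MonoidHom.map_closure, ← Set.range_comp]
    exact hg n
  choose g' g1 g2 using this
  have e : ∀ i, (gen x' σ' i).1 = gen x σ i := by rintro (_ | ⟨j, a⟩) <;> rfl
  have := rep_gap u hu (σ := σ') (Subtype.ext hσ) hx' g' g1 fun n m hne => by
    obtain ⟨F, hF⟩ := gh n m hne
    set k := (g' n)⁻¹ * g' m
    have hk : k.1 = (g n)⁻¹ * g m := by rw [← g2, ← g2]; rfl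
    have := h4 _ (VV G k - VV G (σ' * k) - VV G (k * σ') + VV G (σ' * k * σ')).2 ⟨F, fun v hv => by
      rw [← ghost_dl (hF v hv), ← hk]
      simp only [mul_sub, sub_mul, ← map_mul, mul_one, one_mul]
      simp [VV, σ']
      abel⟩
    change p _ = 0 at this
    simp only [mul_sub, sub_mul, ← map_mul, mul_one, one_mul]
    rw [← this, map_add, map_sub, map_sub]
    simp only [u, MonoidHom.coe_mk, OneHom.coe_mk]
    abel
  convert this using 2
  have : ∑ i, (1 - U (gen x σ i)) = (∑ i, (VV G 1 - VV G (gen x' σ' i)) : PS G) := by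
    simp [VV, e]
  rw [this]
  change p _ = _
  rw [map_sum]
  refine Finset.sum_congr rfl fun i _ => ?_
  simp only [u, MonoidHom.coe_mk, OneHom.coe_mk, map_sub]
  abel

theorem nogap (x : Fin 3 → Perm ℕ) (σ : Perm ℕ) (g : ℕ → Perm ℕ)
    (hx : Rel x) (hσ : σ * σ = 1) (hg : ∀ n, g n ∈ Subgroup.closure (Set.range x))
    (gh : ∀ n m, n ≠ m → ∃ F : Finset ℕ, ∀ v ∉ F, σ v = v ∨
      (σ (((g n)⁻¹ * g m) v) = ((g n)⁻¹ * g m) v ∧
        σ (((g n)⁻¹ * g m) (σ v)) = ((g n)⁻¹ * g m) (σ v)))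
    (cut : ∀ F : Finset ℕ, ∃ (C : Finset ℕ) (a : ℕ), a ∈ C ∧ a ∉ F ∧ σ a ≠ a ∧
      (∀ v ∈ C, v ≠ a → σ v = v) ∧ ∀ j v, v ∈ C ↔ x j v ∈ C) :
    ¬ ∃ c : ℝ, 0 < c ∧ spectrum ℂ (∑ i, (1 - U (gen x σ i))) ⊆
      {z : ℂ | z = 0 ∨ (z.im = 0 ∧ c ≤ z.re)} := by
  refine rep_nogap U U_star hσ hx g hg fun N => ?_
  choose! F hF using gh
  obtain ⟨C, a, a1, a2, a3, a4, a5⟩ :=
    cut ((Finset.range N ×ˢ Finset.range N).biUnion fun q => F q.1 q.2)
  have e : (1 - U σ) (∑ v ∈ C, dl v) = (1 - U σ) (dl a) := by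
    rw [map_sum, Finset.sum_eq_single_of_mem a a1 fun v hv hne => by
      simp [U_dl, a4 v hv hne]]
  refine ⟨∑ v ∈ C, dl v, fun j => ?_, fun h => ?_, fun n hn m hm hne => ?_⟩
  · rw [map_sum]
    exact Finset.sum_equiv (x j) (a5 j) fun v _ => U_dl _ _
  · have := congrArg (inner ℂ (dl a)) h
    rw [e] at this
    simp [U_dl, inner_sub_right, inner_dl, a3.symm] at this
  · rw [mul_apply_eq_comp, e, ← mul_apply_eq_comp]
    refine ghost_dl (hF n m hne a fun h => a2 ?_)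
    exact Finset.mem_biUnion.2 ⟨(n, m), by simp [hn, hm], h⟩

section
variable {I : Type} [Fintype I] (s : I → Perm ℕ)

def gr : SimpleGraph ℕ := SimpleGraph.fromRel fun a b => ∃ i, b = s i a

variable {s} (hs : ∀ i, ∃ j, s j * s i = 1)
  (inj : ∀ v i j, s i v = s j v → s i v ≠ v → i = j)

include hs in
lemma gr_adj (a b : ℕ) : (gr s).Adj a b ↔ a ≠ b ∧ ∃ i, b = s i a := by
  rw [gr, SimpleGraph.fromRel_adj]
  refine and_congr_right fun _ => or_iff_left_of_imp ?_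
  rintro ⟨i, rfl⟩
  obtain ⟨j, hj⟩ := hs i
  exact ⟨j, congr($hj b).symm⟩

include hs in
lemma gr_nb (a : ℕ) : (gr s).neighborSet a =
    (fun i => s i a) '' (Finset.univ.filter fun i => a ≠ s i a : Finset I) := by
  ext b
  simp only [SimpleGraph.mem_neighborSet, gr_adj hs, Set.mem_image, Finset.mem_coe,
    Finset.mem_filter, Finset.mem_univ, true_and]
  exact ⟨fun ⟨h, i, e⟩ => ⟨i, e ▸ h, e.symm⟩, fun ⟨i, h, e⟩ => ⟨e ▸ h, i, e.symm⟩⟩

lemma entry (a b : ℕ) : inner ℂ (dl b) ((∑ i, (1 - U (s i))) (dl a)) =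
    ∑ i, ((if b = a then 1 else 0) - if b = s i a then 1 else 0 : ℂ) := by
  simp only [ContinuousLinearMap.sum_apply, inner_sum, ContinuousLinearMap.sub_apply,
    ContinuousLinearMap.one_apply, U_dl, inner_sub_right, inner_dl]

include hs inj in
lemma entry_diag (a : ℕ) : inner ℂ (dl a) ((∑ i, (1 - U (s i))) (dl a)) =
    (((gr s).neighborSet a).ncard : ℂ) := by
  rw [entry, gr_nb hs, Set.InjOn.ncard_image, Set.ncard_coe_finset, Finset.card_filter]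
  · push_cast
    exact Finset.sum_congr rfl fun i _ => by
      by_cases h : a = s i a
      · rw [if_pos rfl, if_pos h, if_neg (not_not.2 h), sub_self]
      · rw [if_pos rfl, if_neg h, if_pos h, sub_zero]
  · intro i hi j _ h
    exact inj a i j h (Finset.mem_filter.1 hi).2.symm

include hs inj in
lemma entry_adj (a b : ℕ) (h : (gr s).Adj a b) :
    inner ℂ (dl b) ((∑ i, (1 - U (s i))) (dl a)) = -1 := by
  obtain ⟨h, i, rfl⟩ := (gr_adj hs _ _).1 h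
  rw [entry, Finset.sum_eq_single_of_mem i (Finset.mem_univ _) fun j _ hj => by
    rw [if_neg h.symm, if_neg fun e => hj (inj a i j e h.symm).symm, sub_zero]]
  simp [h.symm]

include hs in
lemma entry_off (a b : ℕ) (h : a ≠ b) (h' : ¬ (gr s).Adj a b) :
    inner ℂ (dl b) ((∑ i, (1 - U (s i))) (dl a)) = 0 := by
  rw [entry]
  refine Finset.sum_eq_zero fun i _ => ?_
  rw [if_neg h.symm, if_neg fun e => h' ((gr_adj hs _ _).2 ⟨h, i, e⟩), sub_zero]

include hs in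
lemma mem_WS (i : I) : s i ∈ WS (gr s) := ⟨1, fun v => by
  by_cases h : v = s i v
  · rw [← h]; simp
  · exact (SimpleGraph.edist_eq_one_iff_adj.2 ((gr_adj hs _ _).2 ⟨h, i, rfl⟩)).le⟩

include hs in
lemma reach_lev (l : ℕ → ℕ) (hl : ∀ i v, l (s i v) = l v) {a b : ℕ} (h : (gr s).Reachable a b) :
    l b = l a := by
  obtain ⟨w⟩ := h
  induction w with
  | nil => rfl
  | cons h _ ih =>
    obtain ⟨-, i, rfl⟩ := (gr_adj hs _ _).1 h
    rw [ih, hl]

end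

end Pool.Agent.H2.BT
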