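import Pool.Agent.H2.BT3

namespace Pool.Agent.H2.BT

open Equiv Matrix

section
variable {R : Type} [CommRing R]

def E {i j : Fin 3} (h : i ≠ j) (a : R) : SpecialLinearGroup (Fin 3) R :=
  ⟨transvection i j a, det_transvection_of_ne i j h a⟩

variable {i j k : Fin 3} (hij : i ≠ j) (hjk : j ≠ k) (hik : i ≠ k)

lemma E_mul (a b : R) : E hij a * E hij b = E hij (a + b) :=
  Subtype.ext (transvection_mul_transvection_same i j hij a b)

lemma E_zero : E hij (0 : R) = 1 := Subtype.ext (transvection_zero i j)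

lemma E_pow (a : R) (n : ℕ) : E hij a ^ n = E hij (n * a) := by
  induction n with
  | zero => simp [E_zero]
  | succ n ih => rw [pow_succ, ih, E_mul]; push_cast; ring_nf

lemma E_inv (a : R) : (E hij a)⁻¹ = E hij (-a) :=
  inv_eq_of_mul_eq_one_right (by rw [E_mul, add_neg_cancel, E_zero])

lemma E_rel (a b : R) : E hjk b * E hij a = E hij a * E hjk b * E hik (-(a * b)) := by
  apply Subtype.ext
  simp [E, transvection, mul_add, add_mul, hij.symm, hjk.symm, hik.symm, ← single_neg]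
  abel

lemma E_c1 (a b : R) : Commute (E hik a) (E hij b) := by
  apply Subtype.ext
  simp [E, transvection, mul_add, add_mul, hij.symm, hik.symm]
  abel

lemma E_c2 (a b : R) : Commute (E hik a) (E hjk b) := by
  apply Subtype.ext
  simp [E, transvection, mul_add, add_mul, hjk.symm, hik.symm]
  abel

lemma E_mem {Γ : Subgroup (SpecialLinearGroup (Fin 3) R)} {a b : R} (h1 : E hij a ∈ Γ)
    (h2 : E hjk b ∈ Γ) : E hik (a * b) ∈ Γ := by
  have := mul_mem h2 h1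
  rwa [E_rel hij hjk hik, Γ.mul_mem_cancel_left (mul_mem h1 h2), ← E_inv, inv_mem_iff] at this

lemma E_map {S : Type} [CommRing S] (f : R →+* S) (a : R) :
    SpecialLinearGroup.map f (E hij a) = E hij (f a) := by
  ext p q
  simp [E, transvection, one_apply, single, apply_ite f]

lemma E_entry (a : R) : (E hij a).1 i j = a := by simp [E, transvection, hij]

lemma n1 : ∀ i : Fin 3, i ≠ i + 1 := by decide

def xx (t : R) (i : Fin 3) : SpecialLinearGroup (Fin 3) R := E (n1 i) (![1, 1, t] i)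

lemma xx_rel (h5 : (5 : R) = 0) (t : R) : Rel (xx t) := fun i => by
  have n2 : i ≠ i + 1 + 1 := by revert i; decide
  exact ⟨by rw [xx, E_pow]; simp [h5, E_zero], _, by rw [E_pow]; simp [h5, E_zero],
    E_rel (n1 i) (n1 (i + 1)) n2 _ _, E_c1 _ _ _ _, E_c2 _ _ _ _⟩

lemma xx_mem (t : R) (n : ℕ) : E (n1 0) (t ^ n) ∈ Subgroup.closure (Set.range (xx t)) := by
  have h : ∀ i, xx t i ∈ Subgroup.closure (Set.range (xx t)) := fun i =>
    Subgroup.subset_closure ⟨i, rfl⟩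
  induction n with
  | zero => rw [pow_zero]; exact h 0
  | succ n ih =>
    have h1 := E_mem (n1 0) (n1 1) (by decide) (h 0) (h 1)
    have h2 := E_mem (n1 2) (n1 0) (by decide) (h 2) ih
    have h3 := E_mem _ _ (n1 0) h1 h2
    convert h3 using 2
    simp [pow_succ']

end

instance : Fact (Nat.Prime 5) := ⟨by norm_num⟩

abbrev K (i : ℕ) := GaloisField 5 (i + 1)

lemma ex_t (i : ℕ) : ∃ t : K i, t ≠ 0 ∧ ∀ n ≤ i, ∀ m ≤ i, t ^ n = t ^ m → n = m := by
  obtain ⟨g, hg⟩ := IsCyclic.exists_ofOrder_eq_natCard (α := (K i)ˣ)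
  rw [Nat.card_units, GaloisField.card _ _ (by omega)] at hg
  have := Nat.lt_pow_self (n := i + 1) (show 1 < 5 by omega)
  refine ⟨g, g.ne_zero, fun n hn m hm h => pow_injOn_Iio_orderOf (x := g) ?_ ?_ (Units.ext ?_)⟩
  · rw [Set.mem_Iio]; omega
  · rw [Set.mem_Iio]; omega
  · simpa using h

noncomputable def tt (i : ℕ) : K i := (ex_t i).choose

abbrev Γ := SpecialLinearGroup (Fin 3) (∀ i, K i)

abbrev V := Σ i : ℕ, Bool × SpecialLinearGroup (Fin 3) (K i)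

noncomputable abbrev φ (i : ℕ) : Γ →* SpecialLinearGroup (Fin 3) (K i) :=
  SpecialLinearGroup.map (Pi.evalRingHom K i)

noncomputable instance : MulAction Γ V where
  smul γ v := ⟨v.1, v.2.1, φ v.1 γ * v.2.2⟩
  one_smul v := by change Sigma.mk _ _ = _; simp
  mul_smul a b v := by change Sigma.mk _ _ = Sigma.mk _ _; simp only [map_mul, mul_assoc]; rfl

open Classical in
noncomputable def sw : Perm V := Function.Involutive.toPerm
  (fun v => ⟨v.1, if v.2.2 = 1 then !v.2.1 else v.2.1, v.2.2⟩) fun ⟨i, b, w⟩ => by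
    by_cases h : w = 1 <;> simp [h]

open Classical in
lemma sw_mk (i b h) : sw ⟨i, b, h⟩ = ⟨i, if h = 1 then !b else b, h⟩ := rfl

instance : Infinite V := Infinite.of_injective (fun i : ℕ => (⟨i, true, 1⟩ : V)) fun _ _ h =>
  congrArg Sigma.fst h

noncomputable def ee : V ≃ ℕ := nonempty_equiv_of_countable.some

noncomputable def ρ : Γ →* Perm ℕ := ee.permCongrHom.toMonoidHom.comp (MulAction.toPermHom Γ V)

noncomputable def σ0 : Perm ℕ := ee.permCongr sw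

lemma ρ_mk (γ : Γ) (i b h) : ρ γ (ee ⟨i, b, h⟩) = ee ⟨i, b, φ i γ * h⟩ := by
  simp [ρ]; rfl

open Classical in
lemma σ_mk (i b h) : σ0 (ee ⟨i, b, h⟩) = ee ⟨i, if h = 1 then !b else b, h⟩ := by
  simp [σ0, sw_mk]

lemma ex_mk (v : ℕ) : ∃ i b h, v = ee ⟨i, b, h⟩ := by
  obtain ⟨⟨i, b, h⟩, rfl⟩ := ee.surjective v
  exact ⟨i, b, h, rfl⟩

noncomputable def x0 (j : Fin 3) : Perm ℕ := ρ (xx tt j)

noncomputable def g0 (n : ℕ) : Perm ℕ := ρ (E (n1 0) (tt ^ n))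

lemma x0_rel : Rel x0 := fun i => by
  obtain ⟨a, z, z1, z2, z3, z4⟩ :=
    xx_rel (R := ∀ i, K i) (funext fun i => CharP.cast_eq_zero (K i) 5) tt i
  exact ⟨by rw [x0, ← map_pow, a, map_one], ρ z, by rw [← map_pow, z1, map_one],
    by rw [x0, x0, ← map_mul, z2, map_mul, map_mul], z3.map ρ, z4.map ρ⟩

lemma σ_sq : σ0 * σ0 = 1 := Equiv.ext fun v => by
  obtain ⟨i, b, h, rfl⟩ := ex_mk v
  by_cases e : h = 1 <;> simp [σ_mk, e]

lemma g0_mem (n : ℕ) : g0 n ∈ Subgroup.closure (Set.range x0) := by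
  have := Subgroup.mem_map_of_mem ρ (xx_mem tt n)
  rwa [MonoidHom.map_closure, ← Set.range_comp] at this

lemma gen_mk (j : Fin 3) (a : Fin 4) (i b h) : gen x0 σ0 (some (j, a)) (ee ⟨i, b, h⟩) =
    ee ⟨i, b, E (n1 j) ((a.1 + 1 : ℕ) * ![1, 1, tt i] j) * h⟩ := by
  rw [gen, x0, ← map_pow, ρ_mk, map_pow, xx, E_map, E_pow]
  fin_cases j <;> rfl

lemma gen_inj (v : ℕ) (p q) (h : gen x0 σ0 p v = gen x0 σ0 q v) (h' : gen x0 σ0 p v ≠ v) :
    p = q := by
  obtain ⟨i, b, w, rfl⟩ := ex_mk v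
  have k : ∀ j a, gen x0 σ0 (some (j, a)) (ee ⟨i, b, w⟩) = σ0 (ee ⟨i, b, w⟩) →
      σ0 (ee ⟨i, b, w⟩) = ee ⟨i, b, w⟩ := fun j a e => by
    rw [gen_mk, σ_mk] at e
    by_cases hw : w = 1 <;> simp_all [σ_mk]
  rcases p with _ | ⟨j, a⟩ <;> rcases q with _ | ⟨j', a'⟩
  · rfl
  · exact absurd (k _ _ h.symm) h'
  · exact absurd (h.trans (k _ _ h)) h'
  rw [gen_mk, gen_mk] at h
  have h1 : E (n1 j) (((a.1 + 1 : ℕ) : K i) * ![1, 1, tt i] j) =
      E (n1 j') ((a'.1 + 1 : ℕ) * ![1, 1, tt i] j') := by simpa using h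
  have c : ∀ j : Fin 3, (![1, 1, tt i] j : K i) ≠ 0 := fun j => by
    fin_cases j <;> simp [tt, (ex_t i).choose_spec.1]
  have h2 := congrArg (fun m => m.1 j (j + 1)) h1
  by_cases e : j = j'
  · subst e
    simp only [E_entry] at h2
    have := (CharP.natCast_eq_natCast (K i) 5).1 (mul_right_cancel₀ (c j) h2)
    unfold Nat.ModEq at this
    rw [show a = a' by ext; omega]
  · have h3 : ((a.1 + 1 : ℕ) : K i) ≠ 0 := by
      rw [Ne, CharP.cast_eq_zero_iff (K i) 5]; omega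
    refine absurd (h2 ▸ E_entry (n1 j) _).symm (mul_ne_zero h3 (c j) <| ·.trans ?_)
    simp [E, transvection, n1 j, Ne.symm e]

noncomputable def lev (v : ℕ) : ℕ := (ee.symm v).1

lemma lev_mk (i b h) : lev (ee ⟨i, b, h⟩) = i := by simp [lev]

lemma lev_gen (p v) : lev (gen x0 σ0 p v) = lev v := by
  obtain ⟨i, b, w, rfl⟩ := ex_mk v
  rcases p with _ | ⟨j, a⟩
  · rw [gen, σ_mk, lev_mk, lev_mk]
  · rw [gen_mk, lev_mk, lev_mk]

lemma lev_fin (k : ℕ) : {v | lev v ≤ k}.Finite := by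
  refine ((Set.finite_le_nat k).biUnion fun i _ => Set.finite_range
    fun q : Bool × SpecialLinearGroup (Fin 3) (K i) => ee ⟨i, q⟩).subset fun v hv => ?_
  obtain ⟨i, b, w, rfl⟩ := ex_mk v
  exact Set.mem_biUnion (x := i) (by simpa [lev_mk] using hv) ⟨(b, w), rfl⟩

lemma g0_gh (n m : ℕ) (h : n ≠ m) : ∃ F : Finset ℕ, ∀ v ∉ F, σ0 v = v ∨
    (σ0 (((g0 n)⁻¹ * g0 m) v) = ((g0 n)⁻¹ * g0 m) v ∧
      σ0 (((g0 n)⁻¹ * g0 m) (σ0 v)) = ((g0 n)⁻¹ * g0 m) (σ0 v)) := by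
  refine ⟨(lev_fin (n + m)).toFinset, fun v hv => ?_⟩
  obtain ⟨i, b, w, rfl⟩ := ex_mk v
  have hi : n + m < i := by simpa [lev_mk] using hv
  by_cases hw : w = 1
  · have : φ i ((E (n1 0) (tt ^ n))⁻¹ * E (n1 0) (tt ^ m)) ≠ 1 := fun e => by
      rw [map_mul, map_inv, inv_mul_eq_one, E_map, E_map] at e
      have := congrArg (fun m => m.1 0 (0 + 1)) e
      simp only [E_entry] at this
      exact h ((ex_t i).choose_spec.2 n (by omega) m (by omega) this)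
    right
    simp only [g0, ← map_inv, ← map_mul, σ_mk, ρ_mk, hw, mul_one, if_neg this, and_self]
  · left
    rw [σ_mk, if_neg hw]

lemma x0_cut (F : Finset ℕ) : ∃ (C : Finset ℕ) (a : ℕ), a ∈ C ∧ a ∉ F ∧ σ0 a ≠ a ∧
    (∀ v ∈ C, v ≠ a → σ0 v = v) ∧ ∀ j v, v ∈ C ↔ x0 j v ∈ C := by
  obtain ⟨i, hi⟩ := Infinite.exists_notMem_finset (F.image lev)
  refine ⟨(Set.finite_range fun w => ee ⟨i, true, w⟩).toFinset, ee ⟨i, true, 1⟩, by simp,
    fun h => hi (Finset.mem_image.2 ⟨_, h, lev_mk _ _ _⟩), by simp [σ_mk], fun v hv hne => ?_,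
    fun j v => ?_⟩
  · obtain ⟨w, rfl⟩ := (Set.Finite.mem_toFinset _).1 hv
    rw [σ_mk, if_neg fun e => hne (by rw [e])]
  · simp only [Set.Finite.mem_toFinset, Set.mem_range]
    refine ⟨fun ⟨w, e⟩ => ⟨_, e ▸ (ρ_mk _ _ _ _).symm⟩, fun ⟨w, e⟩ =>
      ⟨(φ i (xx tt j))⁻¹ * w, (x0 j).injective ?_⟩⟩
    rw [← e, x0, ρ_mk, mul_inv_cancel_left]

end Pool.Agent.H2.BT
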