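import Pool.Agent.H2.BT4

namespace Pool.Agent.H2.BT

open Equiv

lemma spec_of_gap {A : Type*} [CStarAlgebra A] [PartialOrder A] [StarOrderedRing A] {L : A}
    (L0 : 0 ≤ L) {c : ℝ} (m2 : 0 ≤ L * L - c • L) :
    spectrum ℂ L ⊆ {z : ℂ | z = 0 ∨ (z.im = 0 ∧ c ≤ z.re)} := by
  intro z hz
  have hz' := L0.isSelfAdjoint.mem_spectrum_eq_re hz
  have hr : z.re ∈ spectrum ℝ L := spectrum.of_algebraMap_mem ℂ (by rw [hz'] at hz; exact hz)
  have h1 := (gap_iff L0.isSelfAdjoint _).1 m2 _ hr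
  rcases (spectrum_nonneg_of_nonneg L0 hr).eq_or_lt with h3 | h3
  · left; rw [hz', ← h3]; simp
  · right
    exact ⟨by rw [hz']; simp, by nlinarith⟩

lemma nogapN {H : Type*} [NormedAddCommGroup H] [InnerProductSpace ℂ H] [CompleteSpace H]
    {W : Type*} [Group W] (u : W →* (H →L[ℂ] H)) (hu : ∀ w, star (u w) = u w⁻¹)
    {σ : W} (hσ : σ * σ = 1) {x : Fin 3 → W} (hx : Rel x) (g : ℕ → W)
    (hg : ∀ n, g n ∈ Subgroup.closure (Set.range x)) {c : ℝ} (hc : 0 < c) {N : ℕ}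
    (hN : 4 * c⁻¹ ^ 2 < N) (f : H) (f1 : ∀ i, u (x i) f = f) (f2 : (1 - u σ) f ≠ 0)
    (f3 : ∀ n < N, ∀ m < N, n ≠ m → ((1 - u σ) * u ((g n)⁻¹ * g m) * (1 - u σ)) f = 0) :
    ¬ 0 ≤ (∑ i, (1 - u (gen x σ i))) * (∑ i, (1 - u (gen x σ i))) -
      c • ∑ i, (1 - u (gen x σ i)) := by
  intro h
  have l1 : (∑ i, (1 - u (gen x σ i))) f = (1 - u σ) f := by
    rw [ContinuousLinearMap.sum_apply, Fintype.sum_option, Finset.sum_eq_zero, add_zero]
    · rfl
    · rintro ⟨j, a⟩ -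
      rw [sub_apply, gen, inv_closure u f1
        (pow_mem (Subgroup.subset_closure (Set.mem_range_self j)) _)]
      exact sub_self _
  rw [sum_gen] at h l1
  have T := tri u hu hx
  have L0 := add_nonneg T.nonneg (E_nonneg u hu hσ)
  obtain ⟨R, hR, hK⟩ := pseudo_inv L0 hc (spec_of_gap L0 h)
  have k1 := T.fix (E_nonneg u hu hσ) hK
  have sL := L0.isSelfAdjoint.star_eq
  generalize lap (fun j => u (x j)) + (1 - u σ) = L at *
  have := bes u hu hσ g N f (R (L f)) f3 fun n _ => by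
    have e : R (L f) = f - (1 - R * L) f := by simp
    rw [e, map_sub, inv_closure u f1 (inv_mem (hg n)),
      inv_closure u (f := (1 - R * L) f) (fun i => congr($(k1 i) f)) (inv_mem (hg n)),
      inner_sub_right, ← l1, inner_star L f ((1 - R * L) f), sL, ← mul_apply_eq_comp, hK]
    simp
  have h2 : 0 < ‖(1 - u σ) f‖ ^ 2 := pow_pos (norm_pos_iff.2 f2) 2
  have h3 : ‖R (L f)‖ ≤ c⁻¹ * ‖(1 - u σ) f‖ := by
    rw [l1]
    exact (R.le_opNorm _).trans (by gcongr)
  have h4 : ‖R (L f)‖ ^ 2 ≤ (c⁻¹ * ‖(1 - u σ) f‖) ^ 2 := by gcongr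
  nlinarith

noncomputable def qq (A : Finset ℕ) : l2 →L[ℂ] l2 := ∑ v ∈ A, (innerSL ℂ (dl v)).smulRight (dl v)

lemma qq_dl (A : Finset ℕ) (y : ℕ) : qq A (dl y) = if y ∈ A then dl y else 0 := by
  simp only [qq, ContinuousLinearMap.sum_apply, ContinuousLinearMap.smulRight_apply,
    innerSL_apply_apply, inner_dl, ite_smul, one_smul, zero_smul, Finset.sum_ite_eq']

lemma inner_qq (A : Finset ℕ) (x : ℕ) (f : l2) :
    inner ℂ (dl x) (qq A f) = if x ∈ A then inner ℂ (dl x) f else 0 := by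
  simp only [qq, ContinuousLinearMap.sum_apply, ContinuousLinearMap.smulRight_apply,
    innerSL_apply_apply, inner_sum, inner_smul_right, inner_dl, mul_ite, mul_one, mul_zero,
    Finset.sum_ite_eq]

lemma ext_ent {S T : l2 →L[ℂ] l2}
    (h : ∀ x y, inner ℂ (dl x) (S (dl y)) = inner ℂ (dl x) (T (dl y))) : S = T :=
  ext_dl fun y => b0.repr.injective (lp.ext (funext fun x => by
    rw [b0.repr_apply_apply, b0.repr_apply_apply, b0_apply, h]))

noncomputable def tw (A B : Finset ℕ) : (l2 →L[ℂ] l2) →ₗ[ℂ] (l2 →L[ℂ] l2) :=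
  LinearMap.id - (2 : ℂ) • (LinearMap.mulLeftRight ℂ (qq A, qq B) +
    LinearMap.mulLeftRight ℂ (qq B, qq A))

def sg (A B : Finset ℕ) (x y : ℕ) : ℂ := if (x ∈ A ∧ y ∈ B) ∨ (x ∈ B ∧ y ∈ A) then -1 else 1

lemma tw_ent {A B : Finset ℕ} (h : ∀ v ∈ A, v ∉ B) (T : l2 →L[ℂ] l2) (x y : ℕ) :
    inner ℂ (dl x) (tw A B T (dl y)) = sg A B x y * inner ℂ (dl x) (T (dl y)) := by
  have h1 := h x
  have h2 := h y
  simp only [tw, LinearMap.sub_apply, LinearMap.smul_apply, LinearMap.add_apply,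
    LinearMap.mulLeftRight_apply, LinearMap.id_apply, sub_apply, smul_apply, add_apply,
    mul_apply_eq_comp, inner_sub_right, inner_smul_right, inner_add_right, inner_qq, qq_dl, sg]
  by_cases a : x ∈ A <;> by_cases b : x ∈ B <;> by_cases c : y ∈ A <;> by_cases d : y ∈ B <;>
    simp_all <;> ring

lemma tw_mul {A B : Finset ℕ} (h : ∀ v ∈ A, v ∉ B) (T : l2 →L[ℂ] l2)
    (hT : ∀ z x y, inner ℂ (dl z) (T (dl x)) ≠ 0 → inner ℂ (dl z) (T (dl y)) ≠ 0 →
      sg A B z x * sg A B z y = sg A B x y) :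
    star (tw A B T) * tw A B T = tw A B (star T * T) := by
  refine ext_ent fun x y => ?_
  rw [tw_ent h, mul_apply_eq_comp, mul_apply_eq_comp, ← inner_star, ← inner_star]
  refine (b0.hasSum_inner_mul_inner _ _).unique (HasSum.congr_fun
    ((b0.hasSum_inner_mul_inner (T (dl x)) (T (dl y))).mul_left (sg A B x y)) fun z => ?_)
  have s : (starRingEnd ℂ) (sg A B z x) = sg A B z x := by unfold sg; split_ifs <;> simp
  rw [b0_apply, ← inner_conj_symm (tw A B T _), ← inner_conj_symm (T _), tw_ent h, tw_ent h,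
    map_mul, s]
  by_cases a : inner ℂ (dl z) (T (dl x)) = 0
  · simp [a]
  by_cases b : inner ℂ (dl z) (T (dl y)) = 0
  · simp [b]
  rw [← hT z x y a b]; ring

lemma tw_star {A B : Finset ℕ} (h : ∀ v ∈ A, v ∉ B) (T : l2 →L[ℂ] l2) :
    star (tw A B T) = tw A B (star T) := by
  refine ext_ent fun x y => ?_
  have s : (starRingEnd ℂ) (sg A B y x) = sg A B x y := by
    unfold sg; simp only [and_comm (a := y ∈ A), and_comm (a := y ∈ B), or_comm]
    split_ifs <;> simp
  rw [tw_ent h, ← inner_star, ← inner_star, ← inner_conj_symm (tw A B T _),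
    ← inner_conj_symm (T _), tw_ent h, map_mul, s]

noncomputable def QL (G : SimpleGraph ℕ) (A : Finset ℕ) (T : PS G) : PS G :=
  ⟨qq A * T, T.2.imp fun R hR x y h => hR x y fun e => h (by
    rw [mul_apply_eq_comp, inner_qq, e, ite_self])⟩

theorem geomT (G : SimpleGraph ℕ) (x : Fin 3 → Perm ℕ) (σ : Perm ℕ) (g : ℕ → Perm ℕ)
    (l : ℕ → ℕ) (hx : Rel x) (hσ : σ * σ = 1) (hg : ∀ n, g n ∈ Subgroup.closure (Set.range x))
    (hW : ∀ i, gen x σ i ∈ WS G) (hl : ∀ v, l (σ v) = l v) (fin : ∀ k, {v | l v ≤ k}.Finite)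
    (orb : ∀ v, ∃ γ ∈ Subgroup.closure (Set.range x), γ (σ v) = v)
    (gh : ∀ n m, n ≠ m → ∃ k, ∀ v, k < l v → σ v ≠ v →
      l (((g n)⁻¹ * g m) v) = l v ∧ σ (((g n)⁻¹ * g m) v) = ((g n)⁻¹ * g m) v)
    (H : Type) [NormedAddCommGroup H] [InnerProductSpace ℂ H] [CompleteSpace H]
    (π : (l2 →L[ℂ] l2) → (H →L[ℂ] H))
    (h1 : ∀ S ∈ PS G, ∀ T ∈ PS G, π (S + T) = π S + π T ∧ π (S * T) = π S * π T)
    (h2 : ∀ a : ℂ, ∀ T ∈ PS G, π (a • T) = a • π T) (h3 : ∀ T ∈ PS G, π (star T) = star (π T))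
    (h4 : π 1 = 1) :
    spectrum ℂ (π (∑ i, (1 - U (gen x σ i)))) ⊆
      {z : ℂ | z = 0 ∨ (z.im = 0 ∧ (1 / 2 : ℝ) ≤ z.re)} := by
  let p : PS G →ₗ[ℂ] (H →L[ℂ] H) :=
    ⟨⟨fun T => π T, fun S T => (h1 _ S.2 _ T.2).1⟩, fun a T => h2 a _ T.2⟩
  let u : WS G →* (H →L[ℂ] H) :=
    ⟨⟨fun w => p (VV G w), (congrArg π (map_one U)).trans h4⟩, fun a b =>
      (congrArg π (map_mul U a.1 b.1)).trans (h1 _ (VV G a).2 _ (VV G b).2).2⟩
  have up : ∀ w, u w = p (VV G w) := fun _ => rfl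
  have hu : ∀ w, star (u w) = u w⁻¹ := fun a =>
    (h3 _ (VV G a).2).symm.trans (congrArg π (U_star a.1))
  let x' : Fin 3 → WS G := fun j => ⟨x j, by simpa [gen] using hW (some (j, 0))⟩
  let σ' : WS G := ⟨σ, hW none⟩
  have hx' : Rel x' := fun i => by
    obtain ⟨a, z, z1, z2, z3, z4⟩ := hx i
    have e : ((x' i * x' (i + 1))⁻¹ * (x' (i + 1) * x' i)).1 = z := by
      change (x i * x (i + 1))⁻¹ * (x (i + 1) * x i) = z
      rw [z2, inv_mul_cancel_left]
    refine ⟨Subtype.ext a, ⟨z, e ▸ Subtype.prop _⟩, Subtype.ext z1, Subtype.ext z2,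
      Subtype.ext z3, Subtype.ext z4⟩
  have lift : ∀ γ ∈ Subgroup.closure (Set.range x),
      ∃ w ∈ Subgroup.closure (Set.range x'), (WS G).subtype w = γ := fun γ h => by
    rw [← Subgroup.mem_map, MonoidHom.map_closure, ← Set.range_comp]
    exact h
  choose g' g1 g2 using fun n => lift _ (hg n)
  have orb' : ∀ v, ∃ w ∈ Subgroup.closure (Set.range x'), w.1 (σ v) = v := fun v => by
    obtain ⟨γ, a, b⟩ := orb v
    obtain ⟨w, c, rfl⟩ := lift γ a
    exact ⟨w, c, b⟩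
  choose γ γ1 γ2 using orb'
  have e : ∀ i, (gen x' σ' i).1 = gen x σ i := by rintro (_ | ⟨j, a⟩) <;> rfl
  have : π (∑ i, (1 - U (gen x σ i))) = ∑ i, (1 - u (gen x' σ' i)) := by
    have : ∑ i, (1 - U (gen x σ i)) = (∑ i, (VV G 1 - VV G (gen x' σ' i)) : PS G) := by
      simp [VV, e]
    rw [this]
    change p _ = _
    simp only [map_sum, map_sub, ← up, map_one]
  rw [this, sum_gen]
  have ss : ∀ v, σ (σ v) = v := fun v => congr($hσ v)
  refine (tri u hu hx').perturb (E_nonneg u hu (Subtype.ext hσ)) fun r hr =>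
    ContinuousLinearMap.ext fun η => ?_
  have r1 : ∀ i, u (x' i) (r η) = r η := fun i => congr($(hr i) η)
  by_contra h
  have r2 : 0 < ‖(1 - u σ') (r η)‖ ^ 2 := pow_pos (norm_pos_iff.2 h) 2
  obtain ⟨N, hN⟩ := exists_nat_gt (4 * ‖r η‖ ^ 2 / ‖(1 - u σ') (r η)‖ ^ 2)
  choose! k0 hk0 using gh
  set k := (Finset.range N ×ˢ Finset.range N).sup fun q => k0 q.1 q.2
  have iv : Function.Involutive fun v => if l v ≤ k then v else σ v := fun v => by
    by_cases a : l v ≤ k <;> simp [a, hl, ss]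
  let s : WS G := ⟨iv.toPerm _, (hW none).imp fun R hR v => by
    change G.edist v (if _ then _ else _) ≤ _
    split_ifs
    · simp
    · exact hR v⟩
  have sa : ∀ v, s.1 v = if l v ≤ k then v else σ v := fun _ => rfl
  have key : (1 - u σ') (r η) = (1 - u s) (r η) := by
    have e : VV G s - VV G σ' =
        ∑ v ∈ (fin k).toFinset, (QL G {v} (VV G 1) - QL G {v} (VV G (γ v))) := by
      refine Subtype.ext (ext_ent fun a b => ?_)
      have : a = (γ a).1 b ↔ a = σ b := by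
        constructor
        · intro c
          rw [(γ a).1.injective (c.symm.trans (γ2 a).symm), ss]
        · intro c
          rw [← ss b, ← c, γ2]
      simp only [VV, QL, Submodule.coe_sub, Submodule.coe_sum, σ', sub_apply, U_dl,
        ContinuousLinearMap.sum_apply, inner_sum, inner_sub_right, mul_apply_eq_comp, inner_qq,
        inner_dl, Finset.mem_singleton, Finset.sum_sub_distrib, Finset.sum_ite_eq,
        Set.Finite.mem_toFinset, Set.mem_setOf_eq, sa, this, OneMemClass.coe_one, Perm.one_apply]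
      have n : l a ≠ l b → a ≠ b ∧ a ≠ σ b := fun h => ⟨fun e => h (e ▸ rfl), fun e => h (e ▸ hl b)⟩
      by_cases c : l a ≤ k <;> by_cases d : l b ≤ k
      · simp only [if_pos c, if_pos d]
      · simp only [if_pos c, if_neg d, if_neg (n (by omega)).1, if_neg (n (by omega)).2]
      · simp only [if_neg c, if_pos d, if_neg (n (by omega)).1, if_neg (n (by omega)).2]
      · simp only [if_neg c, if_neg d, sub_self]
    have m : ∀ v w, p (QL G {v} (VV G w)) = p (QL G {v} (VV G 1)) * u w := fun v w =>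
      (congrArg π (by simp [QL, VV])).trans (h1 _ (QL G {v} (VV G 1)).2 _ (VV G w).2).2
    have := congrArg (fun T => p T (r η)) e
    simp only [map_sub, map_sum, ← up, ContinuousLinearMap.sum_apply, sub_apply] at this ⊢
    rw [Finset.sum_eq_zero fun v _ => by
      rw [m v (γ v), mul_apply_eq_comp, inv_closure u r1 (γ1 v), sub_self], sub_eq_zero] at this
    rw [this]
  have hs : s * s = 1 := Subtype.ext (Equiv.ext iv)
  have := bes u hu hs g' N (r η) (r η) (fun n hn m hm hne => by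
    set κ := (g' n)⁻¹ * g' m
    have hk : κ.1 = (g n)⁻¹ * g m := by rw [← g2, ← g2]; rfl
    have b : k0 n m ≤ k := Finset.le_sup (f := fun q : ℕ × ℕ => k0 q.1 q.2)
      (b := (n, m)) (by simp [hn, hm])
    have z : VV G κ - VV G (s * κ) - VV G (κ * s) + VV G (s * κ * s) = 0 :=
      Subtype.ext (ext_dl fun v => by
        have : s.1 v = v ∨ (s.1 (κ.1 v) = κ.1 v ∧ s.1 (κ.1 (s.1 v)) = κ.1 (s.1 v)) := by
          by_cases c : l v ≤ k
          · left; simp [sa, c]
          by_cases d : σ v = v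
          · left; simp [sa, d]
          have a1 := hk0 n m hne v (by omega) d
          have a2 := hk0 n m hne (σ v) (by rw [hl]; omega) (by rw [ss]; exact Ne.symm d)
          right
          simp only [sa, hk, a1.2, if_neg c, a2.2, ite_self, and_self]
        rw [show (0 : PS G).1 (dl v) = 0 from rfl, ← ghost_dl this]
        simp only [mul_sub, sub_mul, ← map_mul, mul_one, one_mul]
        simp [VV]
        abel)
    have := congrArg p z
    simp only [mul_sub, sub_mul, ← map_mul, mul_one, one_mul]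
    simp only [map_add, map_sub, ← up, map_zero] at this
    rw [show u κ - u (s * κ) - (u (κ * s) - u (s * κ * s)) = 0 by rw [← this]; abel]
    rfl) fun n _ => by rw [inv_closure u r1 (inv_mem (g1 n))]
  rw [div_lt_iff₀ r2, key] at hN
  linarith

end Pool.Agent.H2.BT
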