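import Pool.Agent.H2.BT5

namespace Pool.Agent.H2.BT

open Equiv Pointwise

noncomputable instance decPerm : DecidableEq (Perm ℕ) := Classical.decEq _

noncomputable def SS (x : Fin 3 → Perm ℕ) : Finset (Perm ℕ) := Finset.univ.image (gen x 1)

def near (x : Fin 3 → Perm ℕ) (R a b : ℕ) : Prop := ∃ w ∈ SS x ^ R, w a = b

section
variable {x : Fin 3 → Perm ℕ} {R R' a b c : ℕ}

lemma gen_mem (i) : gen x 1 i ∈ SS x := Finset.mem_image_of_mem _ (Finset.mem_univ i)

lemma near.mono (h : near x R a b) (hR : R ≤ R') : near x R' a b :=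
  h.imp fun _ h => ⟨Finset.pow_subset_pow_right (gen_mem none) hR h.1, h.2⟩

lemma near.refl (R a : ℕ) : near x R a a := ⟨1, Finset.one_mem_pow (gen_mem none), rfl⟩

lemma near.trans (h : near x R a b) (h' : near x R' b c) : near x (R + R') a c := by
  obtain ⟨w, h1, rfl⟩ := h
  obtain ⟨w', h2, rfl⟩ := h'
  exact ⟨w' * w, by rw [add_comm, pow_add]; exact Finset.mul_mem_mul h2 h1, rfl⟩

lemma SS_inv (hx : Rel x) {w : Perm ℕ} (h : w ∈ SS x ^ R) : w⁻¹ ∈ SS x ^ R := by
  have : (SS x)⁻¹ ⊆ SS x := fun w hw => by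
    obtain ⟨i, -, e⟩ := Finset.mem_image.1 (Finset.mem_inv'.1 hw)
    obtain ⟨j, hj⟩ := gen_inv hx (one_mul 1) i
    rw [e, mul_inv_eq_one] at hj
    exact hj ▸ gen_mem j
  exact Finset.pow_subset_pow_left this (by rw [inv_pow]; exact Finset.inv_mem_inv h)

lemma near.symm (hx : Rel x) (h : near x R a b) : near x R b a := by
  obtain ⟨w, h1, rfl⟩ := h
  exact ⟨w⁻¹, SS_inv hx h1, by simp⟩

lemma closure_SS (hx : Rel x) {w : Perm ℕ} (h : w ∈ Subgroup.closure (Set.range x)) :
    ∃ R : ℕ, w ∈ SS x ^ R := by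
  induction h using Subgroup.closure_induction with
  | mem w hw => obtain ⟨j, rfl⟩ := hw; exact ⟨1, by simpa [gen] using gen_mem (some (j, 0))⟩
  | one => exact ⟨0, by simp⟩
  | mul a b _ _ ha hb =>
    obtain ⟨R, ha⟩ := ha
    obtain ⟨R', hb⟩ := hb
    exact ⟨R + R', by rw [pow_add]; exact Finset.mul_mem_mul ha hb⟩
  | inv a _ ha => exact ha.imp fun R => SS_inv hx

variable {σ : Perm ℕ} {l : ℕ → ℕ}

lemma near.lev (hl : ∀ i v, l (gen x σ i v) = l v) (h : near x R a b) : l b = l a := by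
  obtain ⟨w, h, rfl⟩ := h
  obtain ⟨f, rfl⟩ := Finset.mem_pow.1 h
  let M : Submonoid (Perm ℕ) := ⟨⟨{w | ∀ v, l (w v) = l v}, fun ha hb v => (ha _).trans (hb v)⟩,
    fun _ => rfl⟩
  refine list_prod_mem (S := M) (fun w hw => ?_) a
  obtain ⟨k, rfl⟩ := List.mem_ofFn.1 hw
  obtain ⟨i, -, e⟩ := Finset.mem_image.1 (f k).2
  rw [← e]
  rcases i with _ | i
  · exact fun _ => rfl
  · exact hl (some i)

lemma walk_near (hx : Rel x) (hσ : σ * σ = 1) (hl : ∀ i v, l (gen x σ i v) = l v)
    (ha : ∀ v, l v = l a → σ v ≠ v → v = a ∨ v = σ a) {z y : ℕ} (hz : l z = l a)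
    (h : (gr (gen x σ)).edist z y ≤ R) : near x R z y ∨
      ((near x R z a ∨ near x R z (σ a)) ∧ (near x R y a ∨ near x R y (σ a))) := by
  obtain ⟨p, hp⟩ := SimpleGraph.exists_walk_of_edist_ne_top (ne_top_of_le_ne_top (by simp) h)
  have hp' : p.length ≤ R := by rw [← hp] at h; exact_mod_cast h
  clear hp h
  induction p generalizing R with
  | nil => exact .inl (.refl _ _)
  | @cons z w y h p ih =>
    obtain ⟨h1, i, rfl⟩ := (gr_adj (gen_inv hx hσ) _ _).1 h
    obtain ⟨R, rfl⟩ : ∃ R', R = 1 + R' := ⟨R - 1, by simp at hp'; omega⟩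
    have ih := ih ((hl i z).trans hz) (R := R) (by simp at hp'; omega)
    have m : ∀ {u v}, near x R u v → near x (1 + R) u v := fun h => h.mono (by omega)
    rcases i with _ | i
    · have h2 := ha z hz h1.symm
      have h3 := ha (σ z) ((hl none z).trans hz) (by rw [show σ (σ z) = z from congr($hσ z)]; exact h1)
      refine .inr ⟨h2.imp (fun e => by rw [← e]; exact .refl _ _)
        (fun e => by rw [← e]; exact .refl _ _), ?_⟩
      rcases ih with ih | ih
      · exact h3.imp (fun e => by rw [← e]; exact m (ih.symm hx))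
          (fun e => by rw [← e]; exact m (ih.symm hx))
      · exact ih.2.imp m m
    · have n : near x 1 z (gen x σ (some i) z) := 
        ⟨gen x 1 (some i), by rw [pow_one]; exact gen_mem _, rfl⟩
      exact ih.imp n.trans fun h => ⟨h.1.imp n.trans n.trans, h.2.imp m m⟩

noncomputable def ball (x : Fin 3 → Perm ℕ) (R a : ℕ) : Finset ℕ := (SS x ^ R).image (· a)

lemma mem_ball : b ∈ ball x R a ↔ near x R a b := Finset.mem_image

lemma cross (hx : Rel x) (far : ¬ near x (6 * R) a b) {u v : ℕ} (h : near x (2 * R) u v) :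
    ¬ (u ∈ ball x (2 * R) a ∧ v ∈ ball x (2 * R) b) ∧
      ¬ (u ∈ ball x (2 * R) b ∧ v ∈ ball x (2 * R) a) := by
  simp only [mem_ball]
  exact ⟨fun c => far (((c.1.trans h).trans (c.2.symm hx)).mono (by omega)),
    fun c => far (((c.2.trans (h.symm hx)).trans (c.1.symm hx)).mono (by omega))⟩

lemma sg_one (hx : Rel x) (far : ¬ near x (6 * R) a b) {u v : ℕ} (h : near x (2 * R) u v) :
    sg (ball x (2 * R) a) (ball x (2 * R) b) u v = 1 := if_neg (not_or.2 (cross hx far h))

lemma sg_mul (hx : Rel x) (hσ : σ * σ = 1) (hl : ∀ i v, l (gen x σ i v) = l v)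
    (ha : ∀ v, l v = l a → σ v ≠ v → v = a ∨ v = σ a) (far : ¬ near x (6 * R) a (σ a))
    {z u v : ℕ} (hu : (gr (gen x σ)).edist z u ≤ R) (hv : (gr (gen x σ)).edist z v ≤ R) :
    sg (ball x (2 * R) a) (ball x (2 * R) (σ a)) z u *
      sg (ball x (2 * R) a) (ball x (2 * R) (σ a)) z v =
      sg (ball x (2 * R) a) (ball x (2 * R) (σ a)) u v := by
  by_cases hz : l z = l a
  swap
  · have k : ∀ w, l w = l z → w ∉ ball x (2 * R) a ∧ w ∉ ball x (2 * R) (σ a) := fun w hw =>
      ⟨fun h => hz (hw ▸ (mem_ball.1 h).lev hl),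
        fun h => hz (hw ▸ ((mem_ball.1 h).lev hl).trans (hl none a))⟩
    have := k u (reach_lev (gen_inv hx hσ) l hl
      (SimpleGraph.reachable_of_edist_ne_top (ne_top_of_le_ne_top (by simp) hu)))
    simp [sg, k z rfl, this]
  have h1 := walk_near hx hσ hl ha hz hu
  have h2 := walk_near hx hσ hl ha hz hv
  by_cases c : near x R z a ∨ near x R z (σ a)
  · have k : ∀ {w}, near x R z w ∨ ((near x R z a ∨ near x R z (σ a)) ∧
        (near x R w a ∨ near x R w (σ a))) →
        w ∈ ball x (2 * R) a ∨ w ∈ ball x (2 * R) (σ a) := fun h => by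
      simp only [mem_ball]
      rcases h with h | h
      · exact c.imp (fun c => ((c.symm hx).trans h).mono (by omega))
          fun c => ((c.symm hx).trans h).mono (by omega)
      · exact h.2.imp (fun c => (c.symm hx).mono (by omega)) fun c => (c.symm hx).mono (by omega)
    have d := fun w => (cross hx far (near.refl _ w)).1
    have dz := d z; have du := d u; have dv := d v
    rcases k (.inl (.refl R z)) with e | e <;> rcases k h1 with f | f <;>
      rcases k h2 with g | g <;> simp_all [sg]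
  · have h1 := h1.resolve_right fun h => c h.1
    have h2 := h2.resolve_right fun h => c h.1
    rw [sg_one hx far (h1.mono (by omega)), sg_one hx far (h2.mono (by omega)),
      sg_one hx far (((h1.symm hx).trans h2).mono (by omega)), mul_one]

end

lemma tw_U {A B : Finset ℕ} (h : ∀ v ∈ A, v ∉ B) (p : Perm ℕ) (v : ℕ) :
    tw A B (U p) (dl v) = sg A B (p v) v • dl (p v) :=
  b0.repr.injective (lp.ext (funext fun x => by
    rw [b0.repr_apply_apply, b0.repr_apply_apply, b0_apply, tw_ent h, inner_smul_right, U_dl,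
      inner_dl]
    split_ifs with e
    · rw [e]
    · simp))

noncomputable def UU : Perm ℕ →* unitary (l2 →L[ℂ] l2) := U.codRestrict _ fun p =>
  ⟨by rw [U_star, ← map_mul, inv_mul_cancel, map_one],
    by rw [U_star, ← map_mul, mul_inv_cancel, map_one]⟩

theorem noSOS (x : Fin 3 → Perm ℕ) (σ : Perm ℕ) (g : ℕ → Perm ℕ)
    (l : ℕ → ℕ) (hx : Rel x) (hσ : σ * σ = 1) (hg : ∀ n, g n ∈ Subgroup.closure (Set.range x))
    (hl : ∀ i v, l (gen x σ i v) = l v) (fin : ∀ k, {v | l v ≤ k}.Finite)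
    (gh : ∀ n m, n ≠ m → ∃ k, ∀ v, k < l v → σ v ≠ v →
      l (((g n)⁻¹ * g m) v) = l v ∧ σ (((g n)⁻¹ * g m) v) = ((g n)⁻¹ * g m) v)
    (far : ∀ R k, ∃ a, k < l a ∧ σ a ≠ a ∧ ¬ near x R a (σ a) ∧
      ∀ v, l v = l a → σ v ≠ v → v = a ∨ v = σ a) :
    ¬ ∃ c : ℝ, 0 < c ∧ ∃ (n : ℕ) (ξ : Fin n → l2 →L[ℂ] l2), (∀ k, ξ k ∈ PS (gr (gen x σ))) ∧
      (∑ i, (1 - U (gen x σ i))) * (∑ i, (1 - U (gen x σ i))) - c • ∑ i, (1 - U (gen x σ i)) =
        ∑ k, star (ξ k) * ξ k := by
  rintro ⟨c, hc, n, ξ, hξ, e⟩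
  choose R0 hR0 using hξ
  obtain ⟨N, hN⟩ := exists_nat_gt (4 * c⁻¹ ^ 2)
  choose! k0 hk0 using gh
  set R := Finset.univ.sup R0 + 1 with hR
  obtain ⟨a, a1, a2, a3, a4⟩ :=
    far (6 * R) ((Finset.range N ×ˢ Finset.range N).sup fun q => k0 q.1 q.2)
  have ss : ∀ v, σ (σ v) = v := fun v => congr($hσ v)
  have hs := gen_inv hx hσ
  have sm := fun z u v => sg_mul hx hσ hl a4 a3 (z := z) (u := u) (v := v)
  have s1 := fun u v => sg_one hx a3 (u := u) (v := v)
  have dj : ∀ v ∈ ball x (2 * R) a, v ∉ ball x (2 * R) (σ a) := fun v h h' =>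
    (cross hx a3 (near.refl _ v)).1 ⟨h, h'⟩
  have aA : a ∈ ball x (2 * R) a := mem_ball.2 (.refl _ _)
  have bB : σ a ∈ ball x (2 * R) (σ a) := mem_ball.2 (.refl _ _)
  generalize ball x (2 * R) a = A at *
  generalize ball x (2 * R) (σ a) = B at *
  have tm : ∀ T : l2 →L[ℂ] l2, (∀ x' y : ℕ, inner ℂ (dl y) (T (dl x')) ≠ 0 →
      (gr (gen x σ)).edist x' y ≤ R) → star (tw A B T) * tw A B T = tw A B (star T * T) :=
    fun T hT => tw_mul dj T fun z u v h1 h2 => sm z u v
      (SimpleGraph.edist_comm ▸ hT _ _ h1) (SimpleGraph.edist_comm ▸ hT _ _ h2)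
  have t1 : ∀ i, tw A B (U (gen x 1 i)) = U (gen x 1 i) := fun i => ext_dl fun v => by
    rw [tw_U dj, s1 _ _ (near.symm hx (near.mono ⟨_, by simpa using gen_mem i, rfl⟩
      (show 1 ≤ 2 * R by omega))), one_smul, U_dl]
  have t0 : tw A B 1 = 1 := by simpa [gen] using t1 none
  have one : ∀ u v : ℕ, u = v ∨ (gr (gen x σ)).Adj u v → (gr (gen x σ)).edist u v ≤ R :=
    fun u v h => (SimpleGraph.edist_le_one_iff_adj_or_eq.2 h.symm).trans (by simp [hR])
  have σi : σ⁻¹ = σ := inv_eq_of_mul_eq_one_right hσ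
  have st : star (tw A B (U σ)) = tw A B (U σ) := by rw [tw_star dj, U_star, σi]
  have sq : star (tw A B (U σ)) * tw A B (U σ) = 1 := by
    rw [tm, U_star, ← map_mul, inv_mul_cancel, map_one, t0]
    intro u v h
    rw [U_dl, inner_dl] at h
    obtain rfl : v = σ u := by simpa using h
    exact one _ _ ((eq_or_ne u (σ u)).imp_right fun h => (gr_adj hs _ _).2 ⟨h, none, rfl⟩)
  let σ' : unitary (l2 →L[ℂ] l2) := ⟨tw A B (U σ), sq, by rw [st] at sq ⊢; exact sq⟩
  have hx' : Rel fun j => UU (x j) := fun i => by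
    obtain ⟨a, z, z1, z2, z3, z4⟩ := hx i
    exact ⟨by rw [← map_pow, a, map_one], UU z, by rw [← map_pow, z1, map_one],
      by rw [← map_mul, z2, map_mul, map_mul], z3.map UU, z4.map UU⟩
  have E0 : ∀ v, σ v = v → (1 - tw A B (U σ)) (dl v) = 0 := fun v h => by
    rw [sub_apply, tw_U dj, h, s1 _ _ (.refl _ _), one_smul]; exact sub_self _
  set C := ((fin (l a)).subset (show {v | l v = l a} ⊆ _ from fun v h => le_of_eq h)).toFinset
  have mC : ∀ v, v ∈ C ↔ l v = l a := fun v => Set.Finite.mem_toFinset _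
  have Ef : (1 - tw A B (U σ)) (∑ v ∈ C, dl v) = (2 : ℂ) • (dl a + dl (σ a)) := by
    rw [map_sum, ← Finset.sum_subset (s₁ := {a, σ a}), Finset.sum_pair a2.symm]
    · simp only [sub_apply, tw_U dj, ss, sg, aA, bB, one_apply_eq_self, and_self, or_true, true_or,
        if_true]
      module
    · intro v hv
      rcases (by simpa using hv : v = a ∨ v = σ a) with rfl | rfl
      exacts [(mC _).2 rfl, (mC _).2 (hl none a)]
    · intro v hv h
      exact E0 v (not_not.1 fun h' => h (by simpa using a4 v ((mC v).1 hv) h'))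
  refine nogapN (unitary _).subtype (fun w => rfl) (σ := σ') (Subtype.ext (by rw [st] at sq; exact sq)) hx'
    (fun n => UU (g n)) (fun n => ?_) hc hN (∑ v ∈ C, dl v) (fun j => ?_) (fun h => ?_)
    (fun n hn m hm hne => ?_) ?_
  · have := Subgroup.mem_map_of_mem UU (hg n)
    rwa [MonoidHom.map_closure, ← Set.range_comp] at this
  · rw [map_sum]
    refine Finset.sum_equiv (x j) (fun v => ?_) fun v _ => U_dl _ _
    rw [mC, mC, ← hl (some (j, 0)) v]; simp [gen]
  · have := congrArg (inner ℂ (dl a)) (Ef.symm.trans h)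
    simp [inner_add_right, inner_dl, a2.symm] at this
  · have b : k0 n m ≤ _ := Finset.le_sup (f := fun q : ℕ × ℕ => k0 q.1 q.2)
      (show (n, m) ∈ Finset.range N ×ˢ Finset.range N by simp [hn, hm])
    have b1 := E0 _ (hk0 n m hne a (by omega) a2).2
    have b2 := E0 _ (hk0 n m hne (σ a) (by rw [show l (σ a) = l a from hl none a]; omega)
      (by rw [ss]; exact a2.symm)).2
    rw [← map_inv, ← map_mul]
    change (1 - tw A B (U σ)) (U _ ((1 - tw A B (U σ)) _)) = 0
    rw [Ef, map_smul, map_add, U_dl, U_dl, map_smul, map_add, b1, b2, add_zero, smul_zero]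
  · have eL : ∑ i, (1 - (unitary _).subtype (gen (fun j => UU (x j)) σ' i)) =
        tw A B (∑ i, (1 - U (gen x σ i))) := by
      rw [map_sum]
      refine Finset.sum_congr rfl fun i _ => ?_
      rw [map_sub, t0]
      rcases i with _ | ⟨j, b⟩
      · rfl
      · rw [show gen x σ (some (j, b)) = gen x 1 (some (j, b)) from rfl, t1, gen, gen, ← map_pow]
        rfl
    have sL : star (∑ i, (1 - U (gen x σ i))) = ∑ i, (1 - U (gen x σ i)) := by
      rw [sum_gen]
      exact (add_nonneg (tri U U_star hx).nonneg (E_nonneg U U_star hσ)).isSelfAdjoint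
    have := tm (∑ i, (1 - U (gen x σ i))) fun u v h => one u v (by
      by_contra! h'
      exact h (entry_off hs u v h'.1 h'.2))
    rw [tw_star dj, sL] at this
    rw [eL, this, ← LinearMap.map_smul_of_tower, ← map_sub, e, map_sum]
    refine Finset.sum_nonneg fun k _ => ?_
    rw [← tm _ fun u v h => (hR0 k u v h).trans (Nat.cast_le.2
      ((Finset.le_sup (Finset.mem_univ k)).trans (Nat.le_succ _)))]
    exact star_mul_self_nonneg _

end Pool.Agent.H2.BT
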