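import Pool.Agent.H2.BT6

namespace Pool.Agent.H2.BT

open Equiv Matrix Pointwise

noncomputable def aa (i : ℕ) : ℕ := ee ⟨i, true, 1⟩

lemma g0_aa (n i : ℕ) : g0 n (aa i) = ee ⟨i, true, E (n1 0) (tt i ^ n)⟩ := by
  rw [g0, aa, ρ_mk, E_map, mul_one]; rfl

lemma g0_inj {i n m : ℕ} (hn : n ≤ i) (hm : m ≤ i) (h : g0 n (aa i) = g0 m (aa i)) : n = m := by
  rw [g0_aa, g0_aa] at h
  have h1 : E (n1 0) (tt i ^ n) = E (n1 0) (tt i ^ m) := by simpa using h
  have := congrArg (fun m => m.1 0 (0 + 1)) h1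
  simp only [E_entry] at this
  exact (ex_t i).choose_spec.2 n hn m hm this

lemma ex_b (i : ℕ) : ∃ γ ∈ Subgroup.closure (Set.range x0), lev (γ (aa i)) = i ∧
    (γ (aa i) = aa i ∨ ¬ near x0 1 (aa i) (γ (aa i))) ∧
    ∀ R, 13 ^ (R + 1) ≤ i → ¬ near x0 R (aa i) (γ (aa i)) := by
  by_cases hi : i < 13
  · refine ⟨1, one_mem _, lev_mk _ _ _, .inl rfl, fun R h => ?_⟩
    have := Nat.one_le_pow R 13 (by omega)
    omega
  have h1 : (ball x0 (Nat.log 13 i) (aa i)).card < (Finset.range (i + 1)).card := by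
    refine Finset.card_image_le.trans_lt (Finset.card_pow_le.trans_lt ?_)
    have : (SS x0).card ≤ 13 := Finset.card_image_le.trans (by simp)
    refine (Nat.pow_le_pow_left this _).trans_lt ?_
    rw [Finset.card_range]
    exact Nat.lt_succ_of_le (Nat.pow_log_le_self 13 (by omega))
  have : ∃ n, g0 n (aa i) ∉ ball x0 (Nat.log 13 i) (aa i) := by
    by_contra! h
    obtain ⟨n, hn, m, hm, e, e'⟩ := Finset.exists_ne_map_eq_of_card_lt_of_maps_to h1
      (f := fun n => g0 n (aa i)) fun n _ => h n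
    exact e (g0_inj (by simpa [Nat.lt_succ_iff] using hn) (by simpa [Nat.lt_succ_iff] using hm) e')
  obtain ⟨n, hn⟩ := this
  have k : ∀ R, 13 ^ R ≤ i → ¬ near x0 R (aa i) (g0 n (aa i)) := fun R h h' =>
    hn (mem_ball.2 (h'.mono (Nat.le_log_of_pow_le (by omega) h)))
  exact ⟨g0 n, g0_mem n, by rw [g0_aa, lev_mk], .inr (k 1 (by omega)), fun R h =>
    k R ((Nat.pow_le_pow_right (by omega) (by omega)).trans h)⟩

noncomputable def bb (i : ℕ) : ℕ := (ex_b i).choose (aa i)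

lemma lev_aa (i : ℕ) : lev (aa i) = i := lev_mk _ _ _

lemma lev_bb (i : ℕ) : lev (bb i) = i := (ex_b i).choose_spec.2.1

lemma lev_sw (v : ℕ) : lev (swap (aa (lev v)) (bb (lev v)) v) = lev v := by
  rw [swap_apply_def]
  split_ifs
  exacts [lev_bb _, lev_aa _, rfl]

noncomputable def σ1 : Perm ℕ := Function.Involutive.toPerm
  (fun v => swap (aa (lev v)) (bb (lev v)) v) fun v => by simp only [lev_sw, swap_apply_self]

lemma σ1_apply (v : ℕ) : σ1 v = swap (aa (lev v)) (bb (lev v)) v := rfl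

lemma σ1_sq : σ1 * σ1 = 1 := Equiv.ext fun v => by
  simp only [Perm.mul_apply, σ1_apply, lev_sw, swap_apply_self, Perm.one_apply]

lemma σ1_cases (v : ℕ) : σ1 v = v ∨ (v = aa (lev v) ∧ σ1 v = bb (lev v)) ∨
    (v = bb (lev v) ∧ σ1 v = aa (lev v)) := by
  rw [σ1_apply, swap_apply_def]
  split_ifs <;> tauto

lemma lev_gen1 (p v) : lev (gen x0 σ1 p v) = lev v := by
  rcases p with _ | p
  · exact lev_sw v
  · exact lev_gen (some p) v

lemma gen_inj1 (v : ℕ) (p q) (h : gen x0 σ1 p v = gen x0 σ1 q v) (h' : gen x0 σ1 p v ≠ v) :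
    p = q := by
  have k : ∀ p, gen x0 σ1 (some p) v = σ1 v → σ1 v = v := fun p e => by
    have n : near x0 1 v (σ1 v) := ⟨gen x0 1 (some p), by rw [pow_one]; exact gen_mem _, e⟩
    have b : bb (lev v) = aa (lev v) ∨ ¬ near x0 1 (aa (lev v)) (bb (lev v)) :=
      (ex_b (lev v)).choose_spec.2.2.1
    rcases σ1_cases v with c | c | c
    · exact c
    · rw [c.2]
      exact (b.resolve_right (not_not.2 (c.1 ▸ c.2 ▸ n))).trans c.1.symm
    · rw [c.2]
      exact (b.resolve_right (not_not.2 (c.1 ▸ c.2 ▸ n.symm x0_rel))).symm.trans c.1.symm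
  rcases p with _ | p <;> rcases q with _ | q
  · rfl
  · exact absurd (k _ h.symm) h'
  · exact absurd (h.trans (k _ h)) h'
  · exact gen_inj v (some p) (some q) h h'

lemma orb1 (v : ℕ) : ∃ γ ∈ Subgroup.closure (Set.range x0), γ (σ1 v) = v := by
  have h := (ex_b (lev v)).choose_spec.1
  rcases σ1_cases v with c | c | c
  · exact ⟨1, one_mem _, c⟩
  · exact ⟨_, inv_mem h, by rw [c.2, Perm.inv_eq_iff_eq]; exact congrArg _ c.1.symm⟩
  · exact ⟨_, h, by rw [c.2]; exact c.1.symm⟩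

lemma gh1 (n m : ℕ) (h : n ≠ m) : ∃ k, ∀ v, k < lev v → σ1 v ≠ v →
    lev (((g0 n)⁻¹ * g0 m) v) = lev v ∧ σ1 (((g0 n)⁻¹ * g0 m) v) = ((g0 n)⁻¹ * g0 m) v := by
  obtain ⟨R, hR⟩ := closure_SS x0_rel (mul_mem (inv_mem (g0_mem n)) (g0_mem m))
  refine ⟨13 ^ (R + 1) + n + m, fun v hv hs => ?_⟩
  have n1' : near x0 R v (((g0 n)⁻¹ * g0 m) v) := ⟨_, hR, rfl⟩
  have l1 := n1'.lev lev_gen1
  have far : ¬ near x0 R (aa (lev v)) (bb (lev v)) :=
    (ex_b (lev v)).choose_spec.2.2.2 R (by omega)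
  have ne : ((g0 n)⁻¹ * g0 m) v ≠ v := by
    obtain ⟨i, b, w, rfl⟩ := ex_mk v
    rw [lev_mk] at hv
    rw [g0, g0, ← map_inv, ← map_mul, ρ_mk, map_mul, map_inv, E_map, E_map]
    intro e
    have e : E (n1 0) (tt i ^ n) = E (n1 0) (tt i ^ m) := by simpa [inv_mul_eq_one] using e
    have := congrArg (fun m => m.1 0 (0 + 1)) e
    simp only [E_entry] at this
    generalize 13 ^ (R + 1) = t at hv
    exact h ((ex_t i).choose_spec.2 n (by omega) m (by omega) this)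
  refine ⟨l1, ?_⟩
  generalize ((g0 n)⁻¹ * g0 m) v = w at *
  rcases σ1_cases w with d | d | d
  · exact d
  all_goals
    rw [l1] at d
    rcases σ1_cases v with c | c | c
    · exact absurd c hs
  · exact absurd (d.1.trans c.1.symm) ne
  · exact absurd (c.1 ▸ d.1 ▸ n1'.symm x0_rel) far
  · exact absurd (c.1 ▸ d.1 ▸ n1') far
  · exact absurd (d.1.trans c.1.symm) ne

lemma far1 (R k : ℕ) : ∃ a, k < lev a ∧ σ1 a ≠ a ∧ ¬ near x0 R a (σ1 a) ∧
    ∀ v, lev v = lev a → σ1 v ≠ v → v = a ∨ v = σ1 a := by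
  set i := 13 ^ (R + 1) + k + 1
  have far : ¬ near x0 R (aa i) (bb i) := (ex_b i).choose_spec.2.2.2 R (by omega)
  have e : σ1 (aa i) = bb i := by rw [σ1_apply, lev_aa, swap_apply_left]
  refine ⟨aa i, by rw [lev_aa]; exact Nat.lt_succ_of_le (Nat.le_add_left _ _), fun h => far ?_, e ▸ far, fun v hv hs => ?_⟩
  · rw [← e, h]; exact .refl _ _
  · rw [lev_aa] at hv
    rw [e, ← hv]
    exact ((σ1_cases v).resolve_left hs).imp And.left And.left

lemma lev_card (i : ℕ) : i ≤ (lev ⁻¹' {i}).ncard := by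
  have := Set.ncard_le_ncard_of_injOn (s := (Finset.range i : Set ℕ)) (t := lev ⁻¹' {i})
    (fun n => g0 n (aa i)) (fun n _ => by simp [g0_aa, lev_mk])
    (fun n hn m hm e => g0_inj (Finset.mem_range.1 hn).le (Finset.mem_range.1 hm).le e)
    ((lev_fin i).subset fun v h => le_of_eq h)
  simpa using this

end Pool.Agent.H2.BT
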