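import Mathlib

set_option autoImplicit false

open Filter Topology Set MeasureTheory Asymptotics

namespace Pool.Agent.H2.Barnes

noncomputable def Dfun (x : ℝ) : ℝ := dslope (fun y : ℝ => 1 - Real.exp (-y)) 0 x

noncomputable def hfun (α x : ℝ) : ℝ := (α * Dfun x * Dfun (α * x))⁻¹

noncomputable def Ffun (α x : ℝ) : ℝ := ((1 - Real.exp (-x)) * (1 - Real.exp (-(α * x))))⁻¹

lemma Dfun_of_ne {x : ℝ} (hx : x ≠ 0) : Dfun x = (1 - Real.exp (-x)) / x := by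
  unfold Dfun
  rw [dslope_of_ne _ hx, slope_def_field]
  simp

lemma Dfun_zero : Dfun 0 = 1 := by
  unfold Dfun
  rw [dslope_same]
  have : HasDerivAt (fun y : ℝ => 1 - Real.exp (-y)) (0 - Real.exp (-0) * (-1)) 0 :=
    (hasDerivAt_const _ _).sub ((hasDerivAt_neg (0:ℝ)).exp)
  rw [this.deriv]; simp

lemma Dfun_analytic : AnalyticAt ℝ Dfun 0 := by
  have h : AnalyticAt ℝ (fun y : ℝ => 1 - Real.exp (-y)) 0 := by fun_prop
  obtain ⟨p, hp⟩ := h
  exact ⟨_, hp.has_fpower_series_dslope_fslope⟩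

lemma hfun_analytic {α : ℝ} (hα : 0 < α) : AnalyticAt ℝ (hfun α) 0 := by
  have h1 : AnalyticAt ℝ (fun x : ℝ => Dfun (α * x)) 0 := by
    have : AnalyticAt ℝ Dfun ((fun x : ℝ => α * x) 0) := by simpa using Dfun_analytic
    exact this.comp (by fun_prop)
  have h2 : AnalyticAt ℝ (fun x : ℝ => α * Dfun x * Dfun (α * x)) 0 :=
    (analyticAt_const.mul Dfun_analytic).mul h1
  refine h2.inv ?_
  simp [Dfun_zero, hα.ne']

lemma hfun_eq {α x : ℝ} (hα : 0 < α) (hx : 0 < x) : hfun α x = Ffun α x * x ^ 2 := by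
  unfold hfun Ffun
  have h1 : 1 - Real.exp (-x) ≠ 0 := by
    have : Real.exp (-x) < 1 := Real.exp_lt_one_iff.2 (by linarith)
    linarith
  have h2 : 1 - Real.exp (-(α * x)) ≠ 0 := by
    have : Real.exp (-(α * x)) < 1 := Real.exp_lt_one_iff.2 (by nlinarith [mul_pos hα hx])
    linarith
  rw [Dfun_of_ne hx.ne', Dfun_of_ne (mul_pos hα hx).ne']
  field_simp

lemma exists_coeffs {α : ℝ} (hα : 0 < α) : ∃ c : ℕ → ℝ, ∀ N : ℕ,
    (fun x : ℝ => hfun α x - ∑ j ∈ Finset.range N, c j * x ^ j) =O[𝓝 0] fun x => ‖x‖ ^ N := by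
  obtain ⟨p, hp⟩ := hfun_analytic hα
  refine ⟨fun j => p.coeff j, fun N => ?_⟩
  have := hp.isBigO_sub_partialSum_pow N
  refine this.congr_left fun x => ?_
  simp [FormalMultilinearSeries.partialSum, mul_comm]

noncomputable def gR (α : ℝ) (c : ℕ → ℝ) (N : ℕ) (x : ℝ) : ℝ :=
  Real.exp (-x) * (Ffun α x - (∑ j ∈ Finset.range N, c j * x ^ j) / x ^ 2)

noncomputable def gC (α : ℝ) (c : ℕ → ℝ) (N : ℕ) (x : ℝ) : ℂ := (gR α c N x : ℂ)

lemma Ffun_contOn {α : ℝ} (hα : 0 < α) : ContinuousOn (Ffun α) (Ioi 0) := by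
  unfold Ffun
  refine ContinuousOn.inv₀ (by fun_prop) fun x hx => ?_
  have hx : 0 < x := hx
  have h1 : Real.exp (-x) < 1 := Real.exp_lt_one_iff.2 (by linarith)
  have h2 : Real.exp (-(α * x)) < 1 := Real.exp_lt_one_iff.2 (by nlinarith [mul_pos hα hx])
  exact (mul_pos (by linarith) (by linarith)).ne'

lemma gC_contOn {α : ℝ} (hα : 0 < α) (c : ℕ → ℝ) (N : ℕ) : ContinuousOn (gC α c N) (Ioi 0) := by
  unfold gC gR
  refine Complex.continuous_ofReal.comp_continuousOn ?_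
  refine ContinuousOn.mul (by fun_prop) ((Ffun_contOn hα).sub ?_)
  refine ContinuousOn.div (by fun_prop) (by fun_prop) fun x hx => ?_
  have hx : 0 < x := hx
  positivity

lemma gC_locInt {α : ℝ} (hα : 0 < α) (c : ℕ → ℝ) (N : ℕ) :
    LocallyIntegrableOn (gC α c N) (Ioi 0) :=
  (gC_contOn hα c N).locallyIntegrableOn measurableSet_Ioi

lemma Ffun_tendsto {α : ℝ} (hα : 0 < α) : Tendsto (Ffun α) atTop (𝓝 1) := by
  unfold Ffun
  have h1 : Tendsto (fun x : ℝ => Real.exp (-x)) atTop (𝓝 0) := Real.tendsto_exp_neg_atTop_nhds_zero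
  have h2 : Tendsto (fun x : ℝ => Real.exp (-(α * x))) atTop (𝓝 0) :=
    h1.comp (tendsto_id.const_mul_atTop hα)
  have := ((h1.const_sub 1).mul (h2.const_sub 1)).inv₀ (by norm_num)
  simpa using this

lemma gC_top {α : ℝ} (hα : 0 < α) (c : ℕ → ℝ) (N : ℕ) :
    gC α c N =O[atTop] fun t => Real.exp (-(1/2) * t) := by
  have h1 : (Ffun α) =O[atTop] fun t => Real.exp ((1/2) * t) := by
    have a1 : (Ffun α) =O[atTop] fun _ => (1:ℝ) := (Ffun_tendsto hα).isBigO_one ℝ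
    have a2 := (isLittleO_pow_exp_pos_mul_atTop 0 (b := 1/2) (by norm_num)).isBigO
    simp only [pow_zero] at a2
    exact a1.trans a2
  have h2 : (fun x : ℝ => (∑ j ∈ Finset.range N, c j * x ^ j)) =O[atTop]
      fun t => Real.exp ((1/2) * t) := by
    exact IsBigO.fun_sum (A := fun (j : ℕ) (x : ℝ) => c j * x ^ j) fun j _ =>
      ((isLittleO_pow_exp_pos_mul_atTop j (b := 1/2) (by norm_num)).isBigO).const_mul_left _
  have h3 : (fun x : ℝ => (x ^ 2)⁻¹) =O[atTop] fun _ => (1:ℝ) := by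
    have : Tendsto (fun x : ℝ => (x ^ 2)⁻¹) atTop (𝓝 0) :=
      tendsto_inv_atTop_zero.comp (tendsto_pow_atTop (by norm_num))
    exact this.isBigO_one ℝ
  have h4 := h2.mul h3
  simp only [mul_one] at h4
  have h5 := (isBigO_refl (fun x : ℝ => Real.exp (-x)) atTop).mul (h1.sub h4)
  have h6 : gR α c N =O[atTop] fun t => Real.exp (-(1/2) * t) := by
    refine h5.congr (fun x => ?_) (fun x => ?_)
    · simp [gR, div_eq_mul_inv]
    · rw [← Real.exp_add]; congr 1; ring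
  exact (Complex.isBigO_ofReal_left).2 h6

lemma gC_bot {α : ℝ} (hα : 0 < α) {c : ℕ → ℝ} (N : ℕ)
    (hc : (fun x : ℝ => hfun α x - ∑ j ∈ Finset.range N, c j * x ^ j) =O[𝓝 0] fun x => ‖x‖ ^ N) :
    gC α c N =O[𝓝[>] 0] (· ^ (-(2 - (N:ℝ)))) := by
  have h1 : (fun x : ℝ => Real.exp (-x)) =O[𝓝[>] 0] fun _ => (1:ℝ) := by
    have : Tendsto (fun x : ℝ => Real.exp (-x)) (𝓝[>] 0) (𝓝 (Real.exp (-0))) :=
      ((by fun_prop : Continuous fun x : ℝ => Real.exp (-x)).tendsto 0).mono_left nhdsWithin_le_nhds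
    exact this.isBigO_one ℝ
  have h2 := (hc.mono (nhdsWithin_le_nhds (s := Ioi 0))).mul
    (isBigO_refl (fun x : ℝ => (x ^ 2)⁻¹) (𝓝[>] 0))
  have h3 := h1.mul h2
  have h4 : gR α c N =O[𝓝[>] 0] (· ^ (-(2 - (N:ℝ)))) := by
    refine h3.congr' ?_ ?_
    · filter_upwards [self_mem_nhdsWithin] with x hx
      have hx : 0 < x := hx
      rw [hfun_eq hα hx, gR]
      field_simp
    · filter_upwards [self_mem_nhdsWithin] with x hx
      have hx : 0 < x := hx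
      rw [Real.norm_of_nonneg hx.le, neg_sub, Real.rpow_sub hx, Real.rpow_natCast]
      simp [div_eq_mul_inv]
  exact (Complex.isBigO_ofReal_left).2 h4

def GoodCoeffs (α : ℝ) (c : ℕ → ℝ) : Prop := ∀ N : ℕ,
    (fun x : ℝ => hfun α x - ∑ j ∈ Finset.range N, c j * x ^ j) =O[𝓝 0] fun x => ‖x‖ ^ N

lemma G_conv {α : ℝ} (hα : 0 < α) {c : ℕ → ℝ} (hc : GoodCoeffs α c) (N : ℕ) {s : ℂ}
    (hs : 2 - (N:ℝ) < s.re) : MellinConvergent (gC α c N) s :=
  mellinConvergent_of_isBigO_rpow_exp (by norm_num : (0:ℝ) < 1/2) (gC_locInt hα c N)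
    (gC_top hα c N) (gC_bot hα N (hc N)) hs

lemma G_diff {α : ℝ} (hα : 0 < α) {c : ℕ → ℝ} (hc : GoodCoeffs α c) (N : ℕ) {s : ℂ}
    (hs : 2 - (N:ℝ) < s.re) : DifferentiableAt ℂ (mellin (gC α c N)) s :=
  mellin_differentiableAt_of_isBigO_rpow_exp (by norm_num : (0:ℝ) < 1/2) (gC_locInt hα c N)
    (gC_top hα c N) (gC_bot hα N (hc N)) hs

noncomputable def Pfun (j : ℕ) (s : ℂ) : ℂ :=
  (ascPochhammer ℂ j).eval (s - 2) / ((s - 2) * (s - 1))

lemma Gamma_ratio (j : ℕ) {s : ℂ} (h1 : s ≠ 1) (h2 : s ≠ 2) (hs : 2 - (j:ℝ) < s.re) :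
    Complex.Gamma (s - 2 + j) * (Complex.Gamma s)⁻¹ = Pfun j s := by
  have h1' : s - 1 ≠ 0 := sub_ne_zero.2 h1
  have h2' : s - 2 ≠ 0 := sub_ne_zero.2 h2
  by_cases h : ∀ k : ℕ, s - 2 ≠ -k
  · have a1 := Complex.Gamma_add_nat_div_Gamma_eq (n := j) (s - 2) h
    have a2 := Complex.Gamma_add_nat_div_Gamma_eq (n := 2) (s - 2) h
    have a3 := Complex.Gamma_ne_zero h
    have a4 : (ascPochhammer ℂ 2).eval (s - 2) = (s - 2) * (s - 1) := by
      simp [ascPochhammer_succ_right]; left; ring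
    have a5 : s - 2 + ((2:ℕ):ℂ) = s := by push_cast; ring
    rw [a4, a5, div_eq_iff a3] at a2
    rw [div_eq_iff a3] at a1
    rw [a1, a2, Pfun]
    field_simp
  · push Not at h
    obtain ⟨k, hk⟩ := h
    have hk2 : 2 ≤ k := by
      by_contra hlt
      have : k = 0 ∨ k = 1 := by omega
      rcases this with rfl | rfl
      · apply h2'; simpa using hk
      · apply h1'; linear_combination (norm := (push_cast; ring1)) hk
    obtain ⟨m, rfl⟩ := Nat.exists_eq_add_of_le hk2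
    have hs' : s = -(m:ℂ) := by linear_combination (norm := (push_cast; ring1)) hk
    have hj : 2 + m < j := by
      rw [hs'] at hs
      simp at hs
      have : ((2 + m : ℕ) : ℝ) < j := by push_cast; linarith
      exact_mod_cast this
    have : (ascPochhammer ℂ j).eval (s - 2) = 0 :=
      (ascPochhammer_eval_eq_zero_iff j _).2 ⟨2 + m, hj, by rw [hk]; simp⟩
    rw [Pfun, this, hs', Complex.Gamma_neg_nat_eq_zero]
    simp

noncomputable def ZN (α : ℝ) (c : ℕ → ℝ) (N : ℕ) (s : ℂ) : ℂ :=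
  mellin (gC α c N) s * (Complex.Gamma s)⁻¹ + ∑ j ∈ Finset.range N, (c j : ℂ) * Pfun j s

lemma hasMellin_mono (j : ℕ) {s : ℂ} (hs : 2 - (j:ℝ) < s.re) :
    HasMellin (fun x : ℝ => ((Real.exp (-x) * (x ^ j / x ^ 2) : ℝ) : ℂ)) s
      (Complex.Gamma (s - 2 + j)) := by
  have hre : 0 < (s - 2 + j).re := by simp; linarith
  have key : ∀ x ∈ Ioi (0:ℝ), (x:ℂ) ^ (s - 1) • ((Real.exp (-x) * (x ^ j / x ^ 2) : ℝ) : ℂ)
      = ((Real.exp (-x) : ℝ) : ℂ) * (x:ℂ) ^ (s - 2 + j - 1) := by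
    intro x hx
    have hx0 : (x:ℂ) ≠ 0 := Complex.ofReal_ne_zero.2 (ne_of_gt hx)
    have : s - 2 + j - 1 = (s - 1) + j - ((2:ℕ):ℂ) := by push_cast; ring
    rw [this, Complex.cpow_sub _ ((2:ℕ):ℂ) hx0, Complex.cpow_add _ _ hx0, Complex.cpow_natCast,
      Complex.cpow_natCast, smul_eq_mul]
    push_cast
    ring
  constructor
  · exact (Complex.GammaIntegral_convergent hre).congr_fun (fun x hx => (key x hx).symm)
      measurableSet_Ioi
  · rw [Complex.Gamma_eq_integral hre, Complex.GammaIntegral, mellin]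
    exact setIntegral_congr_fun measurableSet_Ioi key

lemma ZN_succ {α : ℝ} (hα : 0 < α) {c : ℕ → ℝ} (hc : GoodCoeffs α c) (N : ℕ) {s : ℂ}
    (h1 : s ≠ 1) (h2 : s ≠ 2) (hs : 2 - (N:ℝ) < s.re) : ZN α c (N+1) s = ZN α c N s := by
  have hm := hasMellin_mono N hs
  have hm2 := hasMellin_const_smul hm.1 (c N : ℂ)
  have h3 := hasMellin_sub (G_conv hα hc N hs) hm2.1
  have h4 : gC α c (N+1) = fun x => gC α c N x -
      (c N : ℂ) • ((Real.exp (-x) * (x ^ N / x ^ 2) : ℝ) : ℂ) := by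
    funext x
    simp only [gC, gR, Finset.sum_range_succ, smul_eq_mul]
    push_cast
    ring
  rw [ZN, ZN, h4, h3.2, hm2.2, hm.2, Finset.sum_range_succ, ← Gamma_ratio N h1 h2 hs, smul_eq_mul]
  ring

lemma ZN_add {α : ℝ} (hα : 0 < α) {c : ℕ → ℝ} (hc : GoodCoeffs α c) (N k : ℕ) {s : ℂ}
    (h1 : s ≠ 1) (h2 : s ≠ 2) (hs : 2 - (N:ℝ) < s.re) : ZN α c (N+k) s = ZN α c N s := by
  induction k with
  | zero => rfl
  | succ k ih =>
    rw [← add_assoc, ZN_succ hα hc (N+k) h1 h2 (by push_cast; linarith [(Nat.cast_nonneg k : (0:ℝ) ≤ k)]), ih]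

lemma ZN_eq {α : ℝ} (hα : 0 < α) {c : ℕ → ℝ} (hc : GoodCoeffs α c) (N M : ℕ) {s : ℂ}
    (h1 : s ≠ 1) (h2 : s ≠ 2) (hs : 2 - (N:ℝ) < s.re) (hs' : 2 - (M:ℝ) < s.re) :
    ZN α c M s = ZN α c N s := by
  rw [← ZN_add hα hc N M h1 h2 hs, ← ZN_add hα hc M N h1 h2 hs', add_comm]

noncomputable def Zfun (α : ℝ) (c : ℕ → ℝ) (s : ℂ) : ℂ := ZN α c ⌈3 - s.re⌉₊ s

lemma Zfun_eq {α : ℝ} (hα : 0 < α) {c : ℕ → ℝ} (hc : GoodCoeffs α c) (N : ℕ) {s : ℂ}
    (h1 : s ≠ 1) (h2 : s ≠ 2) (hs : 2 - (N:ℝ) < s.re) : Zfun α c s = ZN α c N s :=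
  ZN_eq hα hc N _ h1 h2 hs (by have := Nat.le_ceil (3 - s.re); linarith)

lemma ZN_diff {α : ℝ} (hα : 0 < α) {c : ℕ → ℝ} (hc : GoodCoeffs α c) (N : ℕ) {s : ℂ}
    (h1 : s ≠ 1) (h2 : s ≠ 2) (hs : 2 - (N:ℝ) < s.re) : DifferentiableAt ℂ (ZN α c N) s := by
  unfold ZN
  refine ((G_diff hα hc N hs).mul (Complex.differentiable_one_div_Gamma s)).add ?_
  refine DifferentiableAt.fun_sum fun j _ => (differentiableAt_const _).mul ?_
  unfold Pfun
  refine DifferentiableAt.div ?_ (by fun_prop)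
    (mul_ne_zero (sub_ne_zero.2 h2) (sub_ne_zero.2 h1))
  exact ((ascPochhammer ℂ j).differentiable _).comp s (by fun_prop : DifferentiableAt ℂ (fun s : ℂ => s - 2) s)

lemma Zfun_diff {α : ℝ} (hα : 0 < α) {c : ℕ → ℝ} (hc : GoodCoeffs α c) {s : ℂ}
    (h1 : s ≠ 1) (h2 : s ≠ 2) : DifferentiableAt ℂ (Zfun α c) s := by
  set N := ⌈3 - s.re⌉₊ with hN
  have hs : 2 - (N:ℝ) < s.re := by have := Nat.le_ceil (3 - s.re); linarith
  refine (ZN_diff hα hc N h1 h2 hs).congr_of_eventuallyEq ?_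
  have e1 : ∀ᶠ z : ℂ in 𝓝 s, z ≠ 1 := eventually_ne_nhds h1
  have e2 : ∀ᶠ z : ℂ in 𝓝 s, z ≠ 2 := eventually_ne_nhds h2
  have e3 : ∀ᶠ z : ℂ in 𝓝 s, 2 - (N:ℝ) < z.re :=
    (isOpen_lt continuous_const Complex.continuous_re).mem_nhds hs
  filter_upwards [e1, e2, e3] with z a b d using Zfun_eq hα hc N a b d

lemma summable_series {α σ : ℝ} (hα : 0 < α) (hσ : 2 < σ) :
    Summable fun p : ℕ × ℕ => 1 / (1 + (p.1:ℝ) + p.2 * α) ^ σ := by
  have hs1 : Summable fun n : ℕ => 1 / ((n:ℝ) + 1) ^ (σ / 2) := by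
    have := (summable_nat_add_iff 1).2 (Real.summable_one_div_nat_rpow.2 (by linarith : 1 < σ / 2))
    simpa using this
  have hs2 := hs1.mul_of_nonneg hs1 (fun n => by positivity) (fun n => by positivity)
  set β := min 1 α with hβ
  have hβ0 : 0 < β := lt_min one_pos hα
  refine Summable.of_nonneg_of_le (fun p => by positivity) (fun p => ?_)
    (hs2.mul_left (1 / β ^ (σ / 2)))
  have hm : (0:ℝ) ≤ p.1 := Nat.cast_nonneg _
  have hn : (0:ℝ) ≤ p.2 := Nat.cast_nonneg _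
  have hnα : 0 ≤ (p.2:ℝ) * α := by positivity
  have key : β * (((p.1:ℝ) + 1) * ((p.2:ℝ) + 1)) ≤ (1 + (p.1:ℝ) + p.2 * α) ^ (2:ℝ) := by
    have b1 : β ≤ 1 := min_le_left _ _
    have b2 : β ≤ α := min_le_right _ _
    have b3 : β * ((p.2:ℝ) + 1) ≤ 1 + p.1 + p.2 * α := by nlinarith
    rw [Real.rpow_two]
    calc β * (((p.1:ℝ) + 1) * ((p.2:ℝ) + 1)) = ((p.1:ℝ) + 1) * (β * ((p.2:ℝ) + 1)) := by ring
      _ ≤ (1 + (p.1:ℝ) + p.2 * α) * (1 + (p.1:ℝ) + p.2 * α) := by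
        apply mul_le_mul (by linarith) b3 (by positivity) (by positivity)
      _ = _ := by ring
  have k2 : (β * (((p.1:ℝ) + 1) * ((p.2:ℝ) + 1))) ^ (σ / 2) ≤ (1 + (p.1:ℝ) + p.2 * α) ^ σ := by
    have := Real.rpow_le_rpow (by positivity) key (by linarith : 0 ≤ σ / 2)
    rwa [← Real.rpow_mul (by positivity), show 2 * (σ / 2) = σ by ring] at this
  rw [Real.mul_rpow hβ0.le (by positivity), Real.mul_rpow (by positivity) (by positivity)] at k2
  rw [one_div_mul_one_div, one_div_mul_one_div]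
  exact one_div_le_one_div_of_le (by positivity) k2

lemma hasSum_Zfun {α : ℝ} (hα : 0 < α) {c : ℕ → ℝ} (hc : GoodCoeffs α c) {s : ℂ}
    (hs : 2 < s.re) :
    HasSum (fun p : ℕ × ℕ => (((1 + (p.1:ℝ) + p.2 * α : ℝ)) : ℂ) ^ (-s)) (Zfun α c s) := by
  have h1 : s ≠ 1 := by rintro rfl; norm_num at hs
  have h2 : s ≠ 2 := by rintro rfl; norm_num at hs
  rw [Zfun_eq hα hc 0 h1 h2 (by simpa using hs)]
  have hG := Complex.Gamma_ne_zero_of_re_pos (by linarith : 0 < s.re)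
  have key := hasSum_mellin (a := fun _ : ℕ × ℕ => (1:ℂ))
    (p := fun p : ℕ × ℕ => 1 + (p.1:ℝ) + p.2 * α) (F := gC α c 0) (s := s)
    (fun p => Or.inr (by positivity)) (by linarith) ?_ (by simpa using summable_series hα hs)
  · have := key.mul_right (Complex.Gamma s)⁻¹
    simp only [ZN, Finset.range_zero, Finset.sum_empty, add_zero]
    refine this.congr_fun fun p => ?_
    rw [Complex.cpow_neg]
    field_simp
  · intro t ht
    have ht : 0 < t := ht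
    have e1 : Real.exp (-t) < 1 := Real.exp_lt_one_iff.2 (by linarith)
    have e2 : Real.exp (-(α * t)) < 1 := Real.exp_lt_one_iff.2 (by nlinarith [mul_pos hα ht])
    have g1 := hasSum_geometric_of_lt_one (Real.exp_pos _).le e1
    have g2 := hasSum_geometric_of_lt_one (Real.exp_pos _).le e2
    have g3 := (g1.mul g2 (g1.summable.mul_of_nonneg g2.summable
      (fun n => by positivity) (fun n => by positivity))).mul_left (Real.exp (-t))
    have g4 := Complex.hasSum_ofReal.2 g3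
    have e3 : gC α c 0 t = ((Real.exp (-t) * ((1 - Real.exp (-t))⁻¹ *
        (1 - Real.exp (-(α * t)))⁻¹) : ℝ) : ℂ) := by
      simp only [gC, gR, Ffun, Finset.range_zero, Finset.sum_empty, zero_div, sub_zero, mul_inv]
    rw [e3]
    refine g4.congr_fun fun p => ?_
    rw [one_mul, ← Real.exp_nat_mul, ← Real.exp_nat_mul, ← Real.exp_add, ← Real.exp_add]
    congr 2; ring

end Pool.Agent.H2.Barnes
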