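import Mathlib
import Pool.Agent.H2.BarnesCont

set_option autoImplicit false

open Filter Topology Set MeasureTheory Asymptotics Complex

namespace Pool.Agent.H2.Barnes

lemma norm_Gamma_sq {t : ℝ} (ht : 0 < t) :
    ‖Complex.Gamma (1 + t * I)‖ ^ 2 = Real.pi * t / Real.sinh (Real.pi * t) := by
  have h0 : (t * I : ℂ) ≠ 0 := mul_ne_zero (Complex.ofReal_ne_zero.2 ht.ne') Complex.I_ne_zero
  have h1 := Complex.Gamma_mul_Gamma_one_sub (t * I)
  have h2 : Complex.Gamma (1 + t * I) = t * I * Complex.Gamma (t * I) := by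
    rw [add_comm, Complex.Gamma_add_one _ h0]
  have h3 : Complex.Gamma (1 - t * I) = (starRingEnd ℂ) (Complex.Gamma (1 + t * I)) := by
    rw [← Complex.Gamma_conj]; simp [sub_eq_add_neg]
  have h4 : Complex.sin (Real.pi * (t * I)) = (Real.sinh (Real.pi * t) : ℂ) * I := by
    rw [← mul_assoc, Complex.sin_mul_I]; simp
  have hs : 0 < Real.sinh (Real.pi * t) := Real.sinh_pos_iff.2 (by positivity)
  have h5 : Complex.Gamma (1 + t * I) * (starRingEnd ℂ) (Complex.Gamma (1 + t * I)) =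
      ((Real.pi * t / Real.sinh (Real.pi * t) : ℝ) : ℂ) := by
    rw [← h3]
    conv_lhs => rw [h2]
    rw [mul_assoc, h1, h4]
    have : ((Real.sinh (Real.pi * t) : ℝ) : ℂ) ≠ 0 := Complex.ofReal_ne_zero.2 hs.ne'
    rw [Complex.ofReal_div, Complex.ofReal_mul]
    field_simp
  rw [Complex.mul_conj, Complex.normSq_eq_norm_sq] at h5
  exact_mod_cast h5

lemma norm_Gamma_le {t : ℝ} (ht : 1 ≤ t) :
    ‖Complex.Gamma (1 + t * I)‖ ≤ 4 * √t * Real.exp (-(Real.pi / 2 * t)) := by
  have ht0 : 0 < t := by linarith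
  have h1 := norm_Gamma_sq ht0
  have hpi := Real.pi_gt_three
  have hpi4 := Real.pi_le_four
  have hy : 3 ≤ Real.pi * t := by nlinarith
  have h2 : Real.exp (Real.pi * t) / 4 ≤ Real.sinh (Real.pi * t) := by
    rw [Real.sinh_eq]
    have a1 : Real.exp (-(Real.pi * t)) ≤ 1 := Real.exp_le_one_iff.2 (by linarith)
    have a2 : 4 ≤ Real.exp (Real.pi * t) := by
      have := Real.add_one_le_exp (Real.pi * t); linarith
    linarith
  have he := Real.exp_pos (Real.pi * t)
  refine abs_le_of_sq_le_sq' ?_ (by positivity) |>.2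
  rw [h1, mul_pow, mul_pow, Real.sq_sqrt ht0.le, ← Real.exp_nat_mul]
  have : ((2:ℕ):ℝ) * -(Real.pi / 2 * t) = -(Real.pi * t) := by push_cast; ring
  rw [this, Real.exp_neg]
  calc Real.pi * t / Real.sinh (Real.pi * t) ≤ Real.pi * t / (Real.exp (Real.pi * t) / 4) :=
        div_le_div_of_nonneg_left (by positivity) (by positivity) h2
    _ = (4 * Real.pi) * t * (Real.exp (Real.pi * t))⁻¹ := by field_simp
    _ ≤ 4 ^ 2 * t * (Real.exp (Real.pi * t))⁻¹ := by gcongr; linarith

lemma integrable_weight {φ : ℝ → ℝ} (hφ : Continuous φ) (h0 : ∀ t, 0 ≤ φ t)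
    (hO : (fun T => ∫ t in (1:ℝ)..T, φ t) =O[atTop] fun T => T ^ (5/4 : ℝ)) :
    IntegrableOn (fun t => φ t * t ^ (-(11/8) : ℝ)) (Ioi 1) := by
  set Φ : ℝ → ℝ := fun T => ∫ t in (1:ℝ)..T, φ t with hΦ
  have hd : ∀ T, HasDerivAt Φ (φ T) T := fun T => (hφ.integral_hasStrictDerivAt 1 T).hasDerivAt
  have hΦc : Continuous Φ := continuous_iff_continuousAt.2 fun T => (hd T).continuousAt
  set k : ℝ → ℝ := fun t => Φ t * (max t 1) ^ (-(19/8) : ℝ) with hk
  have hkc : Continuous k := by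
    refine hΦc.mul (Continuous.rpow_const (by fun_prop) fun x => Or.inl ?_)
    have : (1:ℝ) ≤ max x 1 := le_max_right _ _
    linarith
  have hkO : k =O[atTop] fun t : ℝ => t ^ (-(9/8) : ℝ) := by
    have := hO.mul (isBigO_refl (fun t : ℝ => t ^ (-(19/8) : ℝ)) atTop)
    refine this.congr' ?_ ?_
    · filter_upwards [eventually_ge_atTop 1] with t ht
      simp [hk, max_eq_left ht]
    · filter_upwards [eventually_gt_atTop 0] with t ht
      rw [← Real.rpow_add ht]; norm_num
  have hki : IntegrableOn k (Ioi 1) := by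
    have : IntegrableOn k (Ici 1) :=
      (hkc.continuousOn.locallyIntegrableOn measurableSet_Ici).integrableOn_of_isBigO_atTop hkO
        ⟨Ioi 1, Ioi_mem_atTop 1, integrableOn_Ioi_rpow_of_lt (by norm_num) one_pos⟩
    exact this.mono_set Ioi_subset_Ici_self
  have hlim1 : Tendsto (fun T => Φ T * T ^ (-(11/8) : ℝ)) atTop (𝓝 0) := by
    have := hO.mul (isBigO_refl (fun t : ℝ => t ^ (-(11/8) : ℝ)) atTop)
    refine this.trans_tendsto ?_
    refine (tendsto_rpow_neg_atTop (by norm_num : (0:ℝ) < 1/8)).congr' ?_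
    filter_upwards [eventually_gt_atTop 0] with t ht
    rw [← Real.rpow_add ht]; norm_num
  have hlim2 := (intervalIntegral_tendsto_integral_Ioi 1 hki tendsto_id).const_mul (11/8 : ℝ)
  refine integrableOn_Ioi_deriv_of_nonneg'
    (g := fun T => Φ T * T ^ (-(11/8) : ℝ) + (11/8 : ℝ) * ∫ t in (1:ℝ)..T, k t) ?_ ?_
    (hlim1.add hlim2)
  · intro x hx
    have hx1 : 1 ≤ x := hx
    have hx0 : 0 < x := by linarith
    have d1 := (hd x).mul (Real.hasDerivAt_rpow_const (p := -(11/8)) (Or.inl hx0.ne'))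
    have d2 := ((hkc.integral_hasStrictDerivAt 1 x).hasDerivAt).const_mul (11/8 : ℝ)
    refine (d1.add d2).congr_deriv ?_
    simp only [hk, max_eq_left hx1]
    have : (-(11/8) - 1 : ℝ) = -(19/8) := by norm_num
    rw [this]; ring
  · intro x hx
    have hx0 : 0 < x := by have : 1 < x := hx; linarith
    exact mul_nonneg (h0 x) (by positivity)

lemma rpow_exp_le {y : ℝ} (hy : 0 < y) : Real.exp (-y) ≤ 2 * y ^ (-(15/8) : ℝ) := by
  have h1 : y ^ (15/8 : ℝ) ≤ 1 + y ^ 2 := by
    rcases le_total y 1 with h | h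
    · have := Real.rpow_le_one hy.le h (by norm_num : (0:ℝ) ≤ 15/8)
      nlinarith
    · have := Real.rpow_le_rpow_of_exponent_le h (by norm_num : (15/8:ℝ) ≤ 2)
      rw [Real.rpow_two] at this
      linarith
  have h2 := Real.quadratic_le_exp_of_nonneg hy.le
  have h3 : y ^ (15/8 : ℝ) ≤ 2 * Real.exp y := by nlinarith
  have h4 : 0 < y ^ (15/8 : ℝ) := by positivity
  rw [Real.rpow_neg hy.le, Real.exp_neg]
  have he := Real.exp_pos y
  rw [← div_eq_mul_inv, inv_eq_one_div, div_le_div_iff₀ he h4]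
  linarith


lemma G_eq {α : ℝ} (hα : 0 < α) {c : ℕ → ℝ} (hc : GoodCoeffs α c) {t : ℝ} (ht : 1 ≤ t) :
    ‖mellin (gC α c 2) (1 + t * I)‖ ≤
      ‖Complex.Gamma (1 + t * I)‖ * (‖Zfun α c (1 + t * I)‖ + (|c 0| + |c 1|)) := by
  set s : ℂ := 1 + t * I with hs
  have him : s.im = t := by simp [hs]
  have hre : s.re = 1 := by simp [hs]
  have h1 : s ≠ 1 := by intro h; rw [h] at him; simp at him; linarith
  have h2 : s ≠ 2 := by intro h; rw [h] at him; simp at him; linarith
  have hG := Complex.Gamma_ne_zero_of_re_pos (by rw [hre]; norm_num : 0 < s.re)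
  have hZ := Zfun_eq hα hc 2 h1 h2 (by rw [hre]; norm_num)
  have n1 : 1 ≤ ‖s - 1‖ := by
    have := Complex.abs_im_le_norm (s - 1)
    simp only [Complex.sub_im, him, Complex.one_im, sub_zero] at this
    exact le_trans ht ((le_abs_self t).trans this)
  have n2 : 1 ≤ ‖s - 2‖ := by
    have := Complex.abs_im_le_norm (s - 2)
    have e : (s - 2).im = t := by simp [him]
    rw [e] at this
    exact le_trans ht ((le_abs_self t).trans this)
  have p0 : ‖Pfun 0 s‖ ≤ 1 := by
    simp only [Pfun, ascPochhammer_zero, Polynomial.eval_one, norm_div, norm_one, norm_mul]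
    rw [div_le_one (by positivity)]
    nlinarith
  have p1 : ‖Pfun 1 s‖ ≤ 1 := by
    simp only [Pfun, ascPochhammer_one, Polynomial.eval_X, norm_div, norm_mul]
    rw [div_le_one (by positivity)]
    nlinarith
  have e : mellin (gC α c 2) s = Complex.Gamma s *
      (Zfun α c s - ((c 0 : ℂ) * Pfun 0 s + (c 1 : ℂ) * Pfun 1 s)) := by
    rw [hZ, ZN]
    simp only [Finset.sum_range_succ, Finset.range_zero, Finset.sum_empty, zero_add]
    field_simp
    ring
  rw [e, norm_mul]
  gcongr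
  refine (norm_sub_le _ _).trans ?_
  gcongr
  refine (norm_add_le _ _).trans ?_
  rw [norm_mul, norm_mul, Complex.norm_real, Complex.norm_real, Real.norm_eq_abs, Real.norm_eq_abs]
  have := abs_nonneg (c 0)
  have := abs_nonneg (c 1)
  nlinarith

lemma G_even (α : ℝ) (c : ℕ → ℝ) (t : ℝ) :
    ‖mellin (gC α c 2) (1 + (|t| : ℝ) * I)‖ = ‖mellin (gC α c 2) (1 + t * I)‖ := by
  rcases abs_choice t with h | h
  · rw [h]
  · rw [h, ← Complex.norm_conj (mellin (gC α c 2) (1 + t * I))]
    congr 1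
    rw [mellin, mellin, ← integral_conj]
    refine setIntegral_congr_fun measurableSet_Ioi fun x hx => ?_
    have hx : 0 < x := hx
    simp only [smul_eq_mul, map_mul, gC, Complex.conj_ofReal]
    congr 1
    have harg : (x : ℂ).arg ≠ Real.pi := by
      rw [Complex.arg_ofReal_of_nonneg hx.le]; exact Real.pi_pos.ne
    have := Complex.cpow_conj (x : ℂ) (1 + t * I - 1) harg
    rw [Complex.conj_ofReal] at this
    rw [← this]
    congr 1
    simp

lemma G_cont {α : ℝ} (hα : 0 < α) {c : ℕ → ℝ} (hc : GoodCoeffs α c) :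
    Continuous fun t : ℝ => mellin (gC α c 2) (1 + t * I) := by
  refine continuous_iff_continuousAt.2 fun t => ?_
  have := (G_diff hα hc 2 (s := 1 + t * I) (by simp)).continuousAt
  exact ContinuousAt.comp (f := fun t : ℝ => (1 + t * I : ℂ)) this (by fun_prop)

lemma Z_cont {α : ℝ} (hα : 0 < α) {c : ℕ → ℝ} (hc : GoodCoeffs α c) :
    Continuous fun t : ℝ => Zfun α c (1 + (max t 1 : ℝ) * I) := by
  refine continuous_iff_continuousAt.2 fun t => ?_
  have hm : (1:ℝ) ≤ max t 1 := le_max_right _ _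
  have him : (1 + (max t 1 : ℝ) * I : ℂ).im = max t 1 := by simp
  have := (Zfun_diff hα hc (s := 1 + (max t 1 : ℝ) * I)
    (by intro h; rw [h] at him; simp only [Complex.one_im] at him; linarith)
    (by intro h; rw [h] at him; have : (2:ℂ).im = 0 := by simp
        linarith)).continuousAt
  exact ContinuousAt.comp (f := fun t : ℝ => (1 + (max t 1 : ℝ) * I : ℂ)) this (by fun_prop)

lemma integrable_abs {f : ℝ → ℝ} (hf : IntegrableOn f (Ioi 0)) : Integrable fun x => f |x| := by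
  have h1 : IntegrableOn (fun x => f |x|) (Ioi 0) :=
    hf.congr_fun (fun x hx => by rw [abs_of_pos hx]) measurableSet_Ioi
  have int_Iic : IntegrableOn (fun x ↦ f |x|) (Iic 0) := by
    rw [← Measure.map_neg_eq_self (volume : Measure ℝ)]
    let m : MeasurableEmbedding fun x : ℝ => -x := (Homeomorph.neg ℝ).measurableEmbedding
    rw [m.integrableOn_map_iff]
    simp_rw [Function.comp_def, abs_neg, neg_preimage, neg_Iic, neg_zero]
    exact Iff.mpr integrableOn_Ici_iff_integrableOn_Ioi h1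
  have := int_Iic.union h1
  rwa [Iic_union_Ioi, integrableOn_univ] at this

lemma exists_majorant {α : ℝ} (hα : 0 < α) {c : ℕ → ℝ} (hc : GoodCoeffs α c)
    (hO : (fun T => ∫ t in (1:ℝ)..T, ‖Zfun α c (1 + t * I)‖ ^ 2) =O[atTop]
      fun T => T ^ (5/4 : ℝ)) :
    ∃ m : ℝ → ℝ, Integrable m ∧ ∀ η : ℝ, 0 < η → η ≤ 1 → ∀ t : ℝ,
      ‖mellin (gC α c 2) (1 + t * I)‖ * Real.exp ((Real.pi / 2 - η) * |t|) ≤
        η ^ (-(15/8) : ℝ) * m t := by
  set φ : ℝ → ℝ := fun t => ‖Zfun α c (1 + (max t 1 : ℝ) * I)‖ ^ 2 with hφ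
  have hφc : Continuous φ := (Z_cont hα hc).norm.pow 2
  have hφO : (fun T => ∫ t in (1:ℝ)..T, φ t) =O[atTop] fun T => T ^ (5/4 : ℝ) := by
    refine hO.congr' ?_ EventuallyEq.rfl
    filter_upwards [eventually_ge_atTop 1] with T hT
    refine intervalIntegral.integral_congr fun t ht => ?_
    rw [uIcc_of_le hT] at ht
    simp [hφ, max_eq_left ht.1]
  have i1 := integrable_weight hφc (fun t => by positivity) hφO
  have i2 : IntegrableOn (fun t : ℝ => t ^ (-(11/8) : ℝ)) (Ioi 1) :=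
    integrableOn_Ioi_rpow_of_lt (by norm_num) one_pos
  set K := |c 0| + |c 1| with hK
  have hK0 : 0 ≤ K := by positivity
  have i3 : IntegrableOn (fun t : ℝ => 8 * (φ t * t ^ (-(11/8) : ℝ) +
      (1 + K) * t ^ (-(11/8) : ℝ))) (Ioi 1) := (i1.add (i2.const_mul _)).const_mul 8
  obtain ⟨B, hB⟩ := isCompact_Icc.exists_bound_of_continuousOn
    ((G_cont hα hc).continuousOn (s := Icc (0:ℝ) 1))
  have hB0 : 0 ≤ B := (norm_nonneg _).trans (hB 0 ⟨le_rfl, zero_le_one⟩)
  set f : ℝ → ℝ := fun t => if t ≤ 1 then B * Real.exp 2 else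
    8 * (φ t * t ^ (-(11/8) : ℝ) + (1 + K) * t ^ (-(11/8) : ℝ)) with hf
  have hfi : IntegrableOn f (Ioi 0) := by
    rw [← Ioc_union_Ioi_eq_Ioi (zero_le_one' ℝ)]
    refine IntegrableOn.union ?_ ?_
    · refine (integrableOn_const (C := B * Real.exp 2) (by simp)).congr_fun
        (fun x hx => ?_) measurableSet_Ioc
      simp [hf, hx.2]
    · refine i3.congr_fun (fun x hx => ?_) measurableSet_Ioi
      have : ¬ x ≤ 1 := not_le.2 hx
      simp only [hf, if_neg this]
  refine ⟨fun t => f |t|, integrable_abs hfi, fun η h0 h1 t => ?_⟩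
  rw [← G_even]
  beta_reduce
  have ht := abs_nonneg t
  generalize |t| = u at ht ⊢
  have hpi := Real.pi_le_four
  have hpi0 := Real.pi_pos
  by_cases hu : u ≤ 1
  · simp only [hf, if_pos hu]
    have a1 : 1 ≤ η ^ (-(15/8) : ℝ) :=
      Real.one_le_rpow_of_pos_of_le_one_of_nonpos h0 h1 (by norm_num)
    have a2 : Real.exp ((Real.pi / 2 - η) * u) ≤ Real.exp 2 :=
      Real.exp_le_exp.2 (by nlinarith)
    calc _ ≤ B * Real.exp 2 := mul_le_mul (hB u ⟨ht, hu⟩) a2 (by positivity) hB0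
      _ ≤ _ := le_mul_of_one_le_left (by positivity) a1
  · simp only [hf, if_neg hu]
    have hu1 : 1 ≤ u := (not_le.1 hu).le
    have hu0 : 0 < u := by linarith
    have a1 := G_eq hα hc hu1
    have a2 := norm_Gamma_le hu1
    have a3 := rpow_exp_le (mul_pos h0 hu0)
    have a4 : φ u = ‖Zfun α c (1 + u * I)‖ ^ 2 := by simp [hφ, max_eq_left hu1]
    have a5 : ‖Zfun α c (1 + u * I)‖ + K ≤ φ u + (1 + K) := by
      rw [a4]; nlinarith [sq_nonneg (‖Zfun α c (1 + u * I)‖ - 1)]
    have a6 : √u * u ^ (-(15/8) : ℝ) = u ^ (-(11/8) : ℝ) := by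
      rw [Real.sqrt_eq_rpow, ← Real.rpow_add hu0]; norm_num
    rw [Real.mul_rpow h0.le hu0.le] at a3
    calc _ ≤ (4 * √u * Real.exp (-(Real.pi / 2 * u)) * (φ u + (1 + K))) *
          Real.exp ((Real.pi / 2 - η) * u) := by
          gcongr
          exact a1.trans (mul_le_mul a2 a5 (by positivity) (by positivity))
      _ = 4 * √u * (φ u + (1 + K)) * Real.exp (-(η * u)) := by
          have : Real.exp (-(η * u)) =
              Real.exp (-(Real.pi / 2 * u)) * Real.exp ((Real.pi / 2 - η) * u) := by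
            rw [← Real.exp_add]; congr 1; ring
          rw [this]; ring
      _ ≤ 4 * √u * (φ u + (1 + K)) * (2 * (η ^ (-(15/8) : ℝ) * u ^ (-(15/8) : ℝ))) := by
          have : 0 ≤ φ u := by positivity
          gcongr
      _ = _ := by rw [← a6]; ring


noncomputable def Phi (G : ℝ → ℂ) (z : ℂ) : ℂ := ∫ t : ℝ, Complex.exp (-(1 + t * I) * z) * G t

lemma norm_kernel (t : ℝ) (z : ℂ) :
    ‖Complex.exp (-(1 + t * I) * z)‖ = Real.exp (-z.re + t * z.im) := by
  rw [Complex.norm_exp]; congr 1; simp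

lemma Phi_diff {G : ℝ → ℂ} (hG : Continuous G)
    (hi : ∀ θ : ℝ, θ < Real.pi / 2 → Integrable fun t => ‖G t‖ * Real.exp (θ * |t|))
    {z : ℂ} (hz : |z.im| < Real.pi / 2) : DifferentiableAt ℂ (Phi G) z := by
  set ε := (Real.pi / 2 - |z.im|) / 3 with hε
  have hε0 : 0 < ε := by rw [hε]; linarith
  have hb : ∀ w ∈ Metric.ball z ε, ∀ t : ℝ,
      ‖Complex.exp (-(1 + t * I) * w)‖ ≤
        Real.exp (-z.re + ε) * Real.exp ((|z.im| + ε) * |t|) := by
    intro w hw t
    rw [norm_kernel, ← Real.exp_add]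
    rw [Metric.mem_ball, dist_eq_norm] at hw
    have r1 := (Complex.abs_re_le_norm (w - z)).trans hw.le
    have r2 := (Complex.abs_im_le_norm (w - z)).trans hw.le
    rw [Complex.sub_re] at r1
    rw [Complex.sub_im] at r2
    have r3 : |w.im| ≤ |z.im| + ε := by
      have := abs_add_le (w.im - z.im) z.im
      simp only [sub_add_cancel] at this
      linarith
    have r4 : t * w.im ≤ (|z.im| + ε) * |t| := by
      calc t * w.im ≤ |t * w.im| := le_abs_self _
        _ = |w.im| * |t| := by rw [abs_mul, mul_comm]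
        _ ≤ _ := mul_le_mul_of_nonneg_right r3 (abs_nonneg t)
    have := (abs_le.1 r1).1
    exact Real.exp_le_exp.2 (by linarith)
  have key := hasDerivAt_integral_of_dominated_loc_of_deriv_le (μ := (volume : Measure ℝ))
    (F := fun (w : ℂ) (t : ℝ) => Complex.exp (-(1 + t * I) * w) * G t)
    (F' := fun (w : ℂ) (t : ℝ) => (Complex.exp (-(1 + t * I) * w) * (-(1 + t * I))) * G t)
    (x₀ := z) (s := Metric.ball z ε)
    (bound := fun t => (Real.exp (-z.re + ε) * (1 + 1 / ε)) *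
      (‖G t‖ * Real.exp ((|z.im| + 2 * ε) * |t|)))
    (Metric.ball_mem_nhds z hε0) ?_ ?_ ?_ ?_ ?_ ?_
  · exact key.2.differentiableAt
  · exact Eventually.of_forall fun w => (by fun_prop : Continuous _).aestronglyMeasurable
  · refine ((hi (|z.im| + ε) (by rw [hε]; linarith)).const_mul (Real.exp (-z.re + ε))).mono'
      (by fun_prop : Continuous _).aestronglyMeasurable (Eventually.of_forall fun t => ?_)
    rw [norm_mul]
    have := hb z (Metric.mem_ball_self hε0) t
    calc _ ≤ (Real.exp (-z.re + ε) * Real.exp ((|z.im| + ε) * |t|)) * ‖G t‖ := by gcongr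
      _ = _ := by ring
  · exact (by fun_prop : Continuous _).aestronglyMeasurable
  · refine Eventually.of_forall fun t w hw => ?_
    rw [norm_mul, norm_mul]
    have a1 := hb w hw t
    have a2 : ‖-(1 + (t:ℂ) * I)‖ ≤ (1 + 1 / ε) * Real.exp (ε * |t|) := by
      rw [norm_neg]
      refine (norm_add_le _ _).trans ?_
      rw [norm_one, norm_mul, Complex.norm_I, mul_one, Complex.norm_real, Real.norm_eq_abs]
      have b1 := Real.add_one_le_exp (ε * |t|)
      have b2 := abs_nonneg t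
      have b3 : 0 ≤ ε * |t| := by positivity
      calc 1 + |t| ≤ (1 + 1 / ε) * (ε * |t| + 1) := by
            have : (1 + 1 / ε) * (ε * |t| + 1) = 1 + |t| + (ε * |t| + 1 / ε) := by
              field_simp; ring
            rw [this]
            have : 0 ≤ ε * |t| + 1 / ε := by positivity
            linarith
        _ ≤ _ := by gcongr
    calc _ ≤ (Real.exp (-z.re + ε) * Real.exp ((|z.im| + ε) * |t|)) *
          ((1 + 1 / ε) * Real.exp (ε * |t|)) * ‖G t‖ := by gcongr
      _ = _ := by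
          have : Real.exp ((|z.im| + 2 * ε) * |t|) =
              Real.exp ((|z.im| + ε) * |t|) * Real.exp (ε * |t|) := by
            rw [← Real.exp_add]; congr 1; ring
          rw [this]; ring
  · exact (hi _ (by rw [hε]; linarith)).const_mul _
  · refine Eventually.of_forall fun t w _ => ?_
    have := ((hasDerivAt_id w).const_mul (-(1 + (t:ℂ) * I))).cexp.mul_const (G t)
    simpa using this

noncomputable def gz (α : ℝ) (c : ℕ → ℝ) (x : ℂ) : ℂ :=
  Complex.exp (-x) * (((1 - Complex.exp (-x)) * (1 - Complex.exp (-(α * x))))⁻¹ -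
    ((c 0 : ℂ) + (c 1 : ℂ) * x) / x ^ 2)

lemma gz_real (α : ℝ) (c : ℕ → ℝ) (x : ℝ) : gz α c x = gC α c 2 x := by
  simp [gz, gC, gR, Ffun, Finset.sum_range_succ]

lemma one_sub_exp_ne {w : ℂ} (hw : 0 < w.re) : 1 - Complex.exp (-w) ≠ 0 := by
  intro h
  have h1 : Complex.exp (-w) = 1 := by linear_combination -h
  have h2 := Complex.norm_exp (-w)
  rw [h1, norm_one] at h2
  have : Real.exp (-w).re < 1 := Real.exp_lt_one_iff.2 (by simpa using hw)
  linarith

lemma gz_diff {α : ℝ} (hα : 0 < α) (c : ℕ → ℝ) {x : ℂ} (hx : 0 < x.re) :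
    DifferentiableAt ℂ (gz α c) x := by
  have h0 : x ≠ 0 := by rintro rfl; simp at hx
  have h1 := one_sub_exp_ne hx
  have h2 := one_sub_exp_ne (w := α * x) (by simpa using mul_pos hα hx)
  unfold gz
  refine DifferentiableAt.mul (by fun_prop) (DifferentiableAt.sub ?_ ?_)
  · exact DifferentiableAt.inv (by fun_prop) (mul_ne_zero h1 h2)
  · exact DifferentiableAt.div (by fun_prop) (by fun_prop) (pow_ne_zero _ h0)

lemma Phi_eq {α : ℝ} (hα : 0 < α) {c : ℕ → ℝ} (hc : GoodCoeffs α c)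
    (hi : ∀ θ : ℝ, θ < Real.pi / 2 →
      Integrable fun t : ℝ => ‖mellin (gC α c 2) (1 + t * I)‖ * Real.exp (θ * |t|))
    {z : ℂ} (hz : |z.im| < Real.pi / 2) :
    Phi (fun t : ℝ => mellin (gC α c 2) (1 + t * I)) z =
      (2 * Real.pi : ℝ) * gz α c (Complex.exp z) := by
  set S : Set ℂ := {z | |z.im| < Real.pi / 2} with hS
  have hSo : IsOpen S := isOpen_lt (by fun_prop) continuous_const
  have hSc : Convex ℝ S := by
    have : S = Complex.imLm ⁻¹' Ioo (-(Real.pi / 2)) (Real.pi / 2) := by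
      ext w; simp [hS, abs_lt]
    rw [this]
    exact (convex_Ioo _ _).linear_preimage _
  have hX : AnalyticOnNhd ℂ (Phi (fun t : ℝ => mellin (gC α c 2) (1 + t * I))) S :=
    DifferentiableOn.analyticOnNhd
      (fun w hw => (Phi_diff (G_cont hα hc) hi hw).differentiableWithinAt) hSo
  have hY : AnalyticOnNhd ℂ (fun z => ((2 * Real.pi : ℝ) : ℂ) * gz α c (Complex.exp z)) S := by
    refine DifferentiableOn.analyticOnNhd (fun w hw => ?_) hSo
    have hw : |w.im| < Real.pi / 2 := hw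
    have : 0 < (Complex.exp w).re := by
      rw [Complex.exp_re]
      exact mul_pos (Real.exp_pos _) (Real.cos_pos_of_mem_Ioo (abs_lt.1 hw))
    exact (((gz_diff hα c this).comp w Complex.differentiableAt_exp).const_mul
      _).differentiableWithinAt
  have hreal : ∀ y : ℝ, Phi (fun t : ℝ => mellin (gC α c 2) (1 + t * I)) y =
      ((2 * Real.pi : ℝ) : ℂ) * gz α c (Complex.exp y) := by
    intro y
    have hv : Complex.VerticalIntegrable (mellin (gC α c 2)) 1 := by
      have := hi 0 (by positivity)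
      simp only [zero_mul, Real.exp_zero, mul_one] at this
      have h2 := (integrable_norm_iff (G_cont hα hc).aestronglyMeasurable).1 this
      simpa [Complex.VerticalIntegrable] using h2
    have h := mellinInv_mellin_eq 1 (gC α c 2) (Real.exp_pos y)
      (G_conv hα hc 2 (by simp)) hv
      ((gC_contOn hα c 2).continuousAt (Ioi_mem_nhds (Real.exp_pos y)))
    rw [← Complex.ofReal_exp, gz_real, ← h, mellinInv, Phi]
    have hpi : ((2 * Real.pi : ℝ) : ℂ) ≠ 0 := Complex.ofReal_ne_zero.2 (by positivity)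
    rw [Complex.real_smul, ← mul_assoc, Complex.ofReal_div, Complex.ofReal_one,
      mul_one_div_cancel hpi, one_mul]
    refine integral_congr_ae (Eventually.of_forall fun t => ?_)
    simp only [smul_eq_mul]
    congr 1
    rw [Complex.cpow_def_of_ne_zero (Complex.ofReal_ne_zero.2 (Real.exp_pos y).ne'),
      ← Complex.ofReal_log (Real.exp_pos y).le, Real.log_exp, mul_comm]
  refine AnalyticOnNhd.eqOn_of_preconnected_of_frequently_eq hX hY hSc.isPreconnected
    (z₀ := ((0:ℝ) : ℂ)) (by simp [hS, Real.pi_pos]) ?_ hz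
  have h_real : ∃ᶠ (x : ℝ) in 𝓝[≠] 0, Phi (fun t : ℝ => mellin (gC α c 2) (1 + t * I)) x =
      ((2 * Real.pi : ℝ) : ℂ) * gz α c (Complex.exp x) := .of_forall hreal
  rw [frequently_iff_seq_forall] at h_real ⊢
  obtain ⟨xs, hx_tendsto, hx_eq⟩ := h_real
  refine ⟨fun n ↦ xs n, ?_, fun n ↦ hx_eq n⟩
  rw [tendsto_nhdsWithin_iff] at hx_tendsto ⊢
  constructor
  · rw [tendsto_ofReal_iff]
    exact hx_tendsto.1
  · simpa using hx_tendsto.2


lemma norm_one_sub_exp_le {w : ℂ} (hw : 0 ≤ w.re) : ‖1 - Complex.exp (-w)‖ ≤ 2 * ‖w‖ := by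
  rcases le_total ‖w‖ 1 with h | h
  · have := Complex.norm_exp_sub_one_le (x := -w) (by simpa using h)
    rwa [norm_sub_rev, norm_neg] at this
  · refine (norm_sub_le _ _).trans ?_
    rw [norm_one, Complex.norm_exp]
    have : Real.exp (-w).re ≤ 1 := Real.exp_le_one_iff.2 (by simpa using hw)
    linarith

lemma gz_lower {α : ℝ} (hα : 0 < α) (c : ℕ → ℝ) {q : ℕ} {p : ℤ} {δ κ : ℝ} (hq : 1 ≤ q)
    (hδ : 0 < δ) (hδκ : δ ≤ 16 * κ) (hκ : κ ≤ 1) (hp : |q * α - p| ≤ κ) :
    Real.exp (-16) * ((32 * κ * (2 * (16 * α + 8) * κ))⁻¹ - (|c 0| + |c 1|)) ≤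
      ‖gz α c (δ + 2 * Real.pi * q * I)‖ := by
  set x : ℂ := δ + 2 * Real.pi * q * I with hx
  have hκ0 : 0 < κ := by linarith
  have hre : x.re = δ := by simp [hx]
  have him : x.im = 2 * Real.pi * q := by simp [hx]
  have hq' : (1:ℝ) ≤ q := by exact_mod_cast hq
  have hpi := Real.pi_gt_three
  have hpi4 := Real.pi_le_four
  have hx1 : 1 ≤ ‖x‖ := by
    have := Complex.abs_im_le_norm x
    rw [him] at this
    have h2 := le_abs_self (2 * Real.pi * q)
    nlinarith
  have e1 : Complex.exp (-x) = Complex.exp (-(δ:ℂ)) := by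
    have : -x = -(δ:ℂ) + ((-(q:ℤ) : ℤ) : ℂ) * (2 * Real.pi * I) := by
      rw [hx]; push_cast; ring
    rw [this, Complex.exp_add, Complex.exp_int_mul_two_pi_mul_I, mul_one]
  set w : ℂ := ((α * δ : ℝ) : ℂ) + ((2 * Real.pi * (q * α - p) : ℝ) : ℂ) * I with hw
  have e2 : Complex.exp (-(α * x)) = Complex.exp (-w) := by
    have : -(α * x) = -w + ((-p : ℤ) : ℂ) * (2 * Real.pi * I) := by
      rw [hx, hw]; push_cast; ring
    rw [this, Complex.exp_add, Complex.exp_int_mul_two_pi_mul_I, mul_one]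
  have n1 : ‖1 - Complex.exp (-x)‖ ≤ 32 * κ := by
    rw [e1]
    refine (norm_one_sub_exp_le (by simpa using hδ.le)).trans ?_
    rw [Complex.norm_real, Real.norm_of_nonneg hδ.le]
    linarith
  have n2 : ‖1 - Complex.exp (-(α * x))‖ ≤ 2 * (16 * α + 8) * κ := by
    rw [e2]
    have hwre : w.re = α * δ := by
      rw [hw, Complex.add_re, Complex.ofReal_re, Complex.re_ofReal_mul]; simp
    refine (norm_one_sub_exp_le (by rw [hwre]; positivity)).trans ?_
    have : ‖w‖ ≤ α * δ + 2 * Real.pi * |q * α - p| := by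
      refine (norm_add_le _ _).trans ?_
      rw [norm_mul, Complex.norm_I, mul_one, Complex.norm_real, Complex.norm_real,
        Real.norm_of_nonneg (by positivity), Real.norm_eq_abs, abs_mul,
        abs_of_pos (by positivity : 0 < 2 * Real.pi)]
    have a1 : α * δ ≤ α * (16 * κ) := by gcongr
    have a2 : 2 * Real.pi * |q * α - p| ≤ 2 * 4 * κ := by gcongr
    nlinarith
  have z1 := one_sub_exp_ne (w := x) (by rw [hre]; exact hδ)
  have z2 := one_sub_exp_ne (w := α * x) (by simpa [hre] using mul_pos hα hδ)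
  have n3 : (32 * κ * (2 * (16 * α + 8) * κ))⁻¹ ≤
      ‖((1 - Complex.exp (-x)) * (1 - Complex.exp (-(α * x))))⁻¹‖ := by
    rw [norm_inv, norm_mul]
    refine inv_anti₀ (mul_pos (norm_pos_iff.2 z1) (norm_pos_iff.2 z2)) ?_
    gcongr
  have n4 : ‖((c 0 : ℂ) + (c 1 : ℂ) * x) / x ^ 2‖ ≤ |c 0| + |c 1| := by
    rw [norm_div, norm_pow, div_le_iff₀ (by positivity)]
    refine (norm_add_le _ _).trans ?_
    rw [norm_mul, Complex.norm_real, Complex.norm_real, Real.norm_eq_abs, Real.norm_eq_abs]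
    have := abs_nonneg (c 0)
    have := abs_nonneg (c 1)
    have b1 : 1 ≤ ‖x‖ ^ 2 := by nlinarith
    have b2 : ‖x‖ ≤ ‖x‖ ^ 2 := by nlinarith
    nlinarith
  have n5 : Real.exp (-16) ≤ ‖Complex.exp (-x)‖ := by
    rw [Complex.norm_exp]
    exact Real.exp_le_exp.2 (by simp [hre]; linarith)
  rw [gz, norm_mul]
  have n6 := norm_sub_norm_le ((1 - Complex.exp (-x)) * (1 - Complex.exp (-(α * x))))⁻¹
    (((c 0 : ℂ) + (c 1 : ℂ) * x) / x ^ 2)
  calc _ ≤ Real.exp (-16) * ‖((1 - Complex.exp (-x)) * (1 - Complex.exp (-(α * x))))⁻¹ -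
        (((c 0 : ℂ) + (c 1 : ℂ) * x) / x ^ 2)‖ := by
        gcongr; linarith
    _ ≤ _ := by gcongr

theorem not_bigO {α : ℝ} (hα : 0 < α) (hL : Liouville α) {c : ℕ → ℝ} (hc : GoodCoeffs α c) :
    ¬ (fun T => ∫ t in (1:ℝ)..T, ‖Zfun α c (1 + t * I)‖ ^ 2) =O[atTop]
      fun T => T ^ (5/4 : ℝ) := by
  intro hO
  obtain ⟨m, hm, hb⟩ := exists_majorant hα hc hO
  have hi : ∀ θ : ℝ, θ < Real.pi / 2 →
      Integrable fun t : ℝ => ‖mellin (gC α c 2) (1 + t * I)‖ * Real.exp (θ * |t|) := by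
    intro θ hθ
    set η := min 1 (Real.pi / 2 - θ) with hη
    have h0 : 0 < η := lt_min one_pos (by linarith)
    have h1 : η ≤ Real.pi / 2 - θ := min_le_right _ _
    have hGc := G_cont hα hc
    refine (hm.const_mul (η ^ (-(15/8) : ℝ))).mono'
      (by fun_prop : Continuous _).aestronglyMeasurable (Eventually.of_forall fun t => ?_)
    rw [Real.norm_of_nonneg (by positivity)]
    refine le_trans ?_ (hb η h0 (min_le_left _ _) t)
    have := abs_nonneg t
    gcongr
    linarith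
  set M := ∫ t, m t with hM
  set K := |c 0| + |c 1| with hK
  have hK0 : 0 ≤ K := by positivity
  set A := 64 * (16 * α + 8) with hA
  have hA0 : 0 < A := by positivity
  have hfr := (hL.frequently_exists_num 24).and_eventually
    ((eventually_ge_atTop 1).and
      (tendsto_natCast_atTop_atTop.eventually_gt_atTop (A * (Real.exp 16 * |M| + K))))
  obtain ⟨q, ⟨p, -, hp⟩, hq, hqA⟩ := hfr.exists
  have hq' : (1:ℝ) ≤ q := by exact_mod_cast hq
  have hq0 : (0:ℝ) < q := by linarith
  set η : ℝ := 1 / (q:ℝ) ^ 24 with hη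
  have h0 : 0 < η := by positivity
  have hκ : q * η = 1 / (q:ℝ) ^ 23 := by rw [hη]; field_simp
  have hκ1 : q * η ≤ 1 := by
    rw [hκ, div_le_one (by positivity)]; exact one_le_pow₀ hq'
  have h1 : η ≤ 1 := by nlinarith
  have hpi := Real.pi_gt_three
  have hpi4 := Real.pi_le_four
  have hcos : 1 / 2 ≤ Real.cos η := by
    have := Real.one_sub_sq_div_two_le_cos (x := η)
    nlinarith
  have hcos1 := Real.cos_le_one η
  have hsin : Real.sin η ≤ η := Real.sin_le h0.le
  have hsin0 : 0 < Real.sin η := Real.sin_pos_of_pos_of_lt_pi h0 (by linarith)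
  set R : ℝ := 2 * Real.pi * q / Real.cos η with hR
  have hR1 : 1 ≤ R := by
    rw [hR, le_div_iff₀ (by linarith)]; nlinarith
  set z : ℂ := (Real.log R : ℝ) + ((Real.pi / 2 - η : ℝ) : ℂ) * I with hz
  have hzre : z.re = Real.log R := by
    rw [hz, Complex.add_re, Complex.ofReal_re, Complex.re_ofReal_mul]; simp
  have hzim : z.im = Real.pi / 2 - η := by
    rw [hz, Complex.add_im, Complex.ofReal_im, Complex.im_ofReal_mul]; simp
  have hexp : Complex.exp z = (R * Real.sin η : ℝ) + 2 * Real.pi * q * I := by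
    apply Complex.ext
    · rw [Complex.exp_re, hzre, hzim, Real.exp_log (by linarith), Real.cos_pi_div_two_sub]
      generalize R * Real.sin η = u
      simp
    · rw [Complex.exp_im, hzre, hzim, Real.exp_log (by linarith), Real.sin_pi_div_two_sub]
      have : R * Real.cos η = 2 * Real.pi * q := by rw [hR]; field_simp
      rw [this]; simp
  have hδ : R * Real.sin η ≤ 16 * (q * η) := by
    have : R ≤ 16 * q := by
      rw [hR, div_le_iff₀ (by linarith)]; nlinarith
    calc R * Real.sin η ≤ 16 * q * η := by gcongr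
      _ = _ := by ring
  have hp' : |q * α - p| ≤ q * η := by
    have : q * α - p = q * (α - p / q) := by field_simp
    rw [this, abs_mul, abs_of_pos hq0]
    gcongr
  have low := gz_lower hα c hq (mul_pos (by linarith) hsin0) hδ hκ1 hp'
  rw [← hexp] at low
  have hzS : |z.im| < Real.pi / 2 := by rw [hzim, abs_lt]; constructor <;> linarith
  have hPhi := Phi_eq hα hc hi hzS
  have up : ‖Phi (fun t : ℝ => mellin (gC α c 2) (1 + t * I)) z‖ ≤ η ^ (-(15/8) : ℝ) * M := by
    rw [hM, ← integral_const_mul]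
    refine norm_integral_le_of_norm_le (hm.const_mul _) (Eventually.of_forall fun t => ?_)
    refine le_trans ?_ (hb η h0 h1 t)
    rw [norm_mul, norm_kernel, mul_comm, hzre, hzim]
    have := Real.log_nonneg hR1
    have a2 : t * (Real.pi / 2 - η) ≤ (Real.pi / 2 - η) * |t| := by
      rw [mul_comm]; exact mul_le_mul_of_nonneg_left (le_abs_self t) (by linarith)
    gcongr
    linarith
  have hη45 : η ^ (-(15/8) : ℝ) = (q:ℝ) ^ 45 := by
    rw [hη, one_div, ← Real.rpow_natCast, ← Real.rpow_neg hq0.le, ← Real.rpow_mul hq0.le,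
      ← Real.rpow_natCast]
    norm_num
  rw [hPhi, norm_mul, Complex.norm_real, Real.norm_of_nonneg (by positivity), hη45] at up
  have up2 : ‖gz α c (Complex.exp z)‖ ≤ (q:ℝ) ^ 45 * |M| := by
    have a1 : (q:ℝ) ^ 45 * M ≤ (q:ℝ) ^ 45 * |M| := by gcongr; exact le_abs_self M
    have a2 := norm_nonneg (gz α c (Complex.exp z))
    nlinarith
  have e : (32 * (q * η) * (2 * (16 * α + 8) * (q * η)))⁻¹ = (q:ℝ) ^ 46 / A := by
    rw [hκ, hA]; field_simp; ring
  rw [e] at low
  have f1 : (q:ℝ) ^ 46 / A - K ≤ Real.exp 16 * ((q:ℝ) ^ 45 * |M|) := by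
    have := mul_le_mul_of_nonneg_left (low.trans up2) (Real.exp_pos 16).le
    rwa [← mul_assoc, ← Real.exp_add, add_neg_cancel, Real.exp_zero, one_mul] at this
  have f2 : (1:ℝ) ≤ (q:ℝ) ^ 45 := one_le_pow₀ hq'
  have f3 : (q:ℝ) ^ 46 ≤ (q:ℝ) ^ 45 * (A * (Real.exp 16 * |M| + K)) := by
    rw [sub_le_iff_le_add, div_le_iff₀ hA0] at f1
    have : K * A ≤ (q:ℝ) ^ 45 * (K * A) := le_mul_of_one_le_left (by positivity) f2
    nlinarith
  have f4 : (q:ℝ) ^ 45 * (A * (Real.exp 16 * |M| + K)) < (q:ℝ) ^ 45 * q := by gcongr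
  rw [← pow_succ] at f4
  exact absurd (f3.trans_lt f4) (lt_irrefl _)

end Pool.Agent.H2.Barnes
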