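import Mathlib

namespace Pool.Agent.H2.Beam0

open Finset

/-- The nonzero integer points of the circle `x² - a x + y² + a y = 0`. -/
def A (a : ℝ) : Set (ℤ × ℤ) :=
  {p | (p.1 : ℝ) ^ 2 - a * p.1 + (p.2 : ℝ) ^ 2 + a * p.2 = 0 ∧ p ≠ (0, 0)}

/-- The graph `G(a₁, a₂)`. -/
def G (a₁ a₂ : ℝ) : SimpleGraph ↥(A a₁ ∪ A a₂) where
  Adj p q := p ≠ q ∧ (p.1.1 = q.1.1 ∨ p.1.2 = q.1.2)
  symm := ⟨fun _ _ h => ⟨h.1.symm, h.2.imp Eq.symm Eq.symm⟩⟩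
  loopless := ⟨fun _ h => h.1 rfl⟩

theorem inj1 {a : ℝ} (ha : ∀ n : ℤ, a ≠ n) {p q : ℤ × ℤ} (hp : p ∈ A a) (hq : q ∈ A a)
    (h : p.1 = q.1) : p = q := by
  by_contra hne
  have h2 : (p.2 : ℝ) - q.2 ≠ 0 := by
    intro e; exact hne (Prod.ext h (by exact_mod_cast sub_eq_zero.1 e))
  have e1 := hp.1; have e2 := hq.1
  rw [h] at e1
  have : ((p.2 : ℝ) - q.2) * (p.2 + q.2 + a) = 0 := by linear_combination e1 - e2
  exact ha (-(p.2 + q.2)) (by push_cast; linarith [(mul_eq_zero.1 this).resolve_left h2])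

theorem inj2 {a : ℝ} (ha : ∀ n : ℤ, a ≠ n) {p q : ℤ × ℤ} (hp : p ∈ A a) (hq : q ∈ A a)
    (h : p.2 = q.2) : p = q := by
  by_contra hne
  have h2 : (p.1 : ℝ) - q.1 ≠ 0 := by
    intro e; exact hne (Prod.ext (by exact_mod_cast sub_eq_zero.1 e) h)
  have e1 := hp.1; have e2 := hq.1
  rw [h] at e1
  have : ((p.1 : ℝ) - q.1) * (p.1 + q.1 - a) = 0 := by linear_combination e1 - e2
  exact ha (p.1 + q.1) (by push_cast; linarith [(mul_eq_zero.1 this).resolve_left h2])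

theorem sum_eq {S T : Finset (ℤ × ℤ)} (π : ℤ × ℤ → ℤ) (hS : Set.InjOn π S) (hT : Set.InjOn π T)
    (h1 : ∀ p ∈ S, ∃ q ∈ T, π q = π p) (h2 : ∀ p ∈ T, ∃ q ∈ S, π q = π p) (f : ℤ → ℝ) :
    ∑ p ∈ S, f (π p) = ∑ p ∈ T, f (π p) := by
  rw [← Finset.sum_image hS, ← Finset.sum_image hT]
  congr 1
  ext n; simp only [Finset.mem_image]
  constructor
  · rintro ⟨p, hp, rfl⟩; exact h1 p hp
  · rintro ⟨p, hp, rfl⟩; exact h2 p hp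

theorem core {a₁ a₂ : ℝ} (hne : a₁ ≠ a₂) (h₁ : ∀ n : ℤ, a₁ ≠ n) (h₂ : ∀ n : ℤ, a₂ ≠ n)
    (S : Finset (ℤ × ℤ)) (hS : ∀ p ∈ S, p ∈ A a₁ ∪ A a₂)
    (hx : ∀ p ∈ S, ∃ q ∈ S, q ≠ p ∧ q.1 = p.1) (hy : ∀ p ∈ S, ∃ q ∈ S, q ≠ p ∧ q.2 = p.2) :
    S = ∅ := by
  classical
  set S1 := S.filter (· ∈ A a₁)
  set S2 := S.filter (· ∈ A a₂)
  have m1 : ∀ p, p ∈ S1 ↔ p ∈ S ∧ p ∈ A a₁ := fun p => Finset.mem_filter
  have m2 : ∀ p, p ∈ S2 ↔ p ∈ S ∧ p ∈ A a₂ := fun p => Finset.mem_filter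
  have X := sum_eq (S := S1) (T := S2) Prod.fst
    (fun p hp q hq => inj1 h₁ ((m1 p).1 hp).2 ((m1 q).1 hq).2)
    (fun p hp q hq => inj1 h₂ ((m2 p).1 hp).2 ((m2 q).1 hq).2)
    (fun p hp => by
      obtain ⟨q, hq, hqp, e⟩ := hx p ((m1 p).1 hp).1
      exact ⟨q, (m2 q).2 ⟨hq, (hS q hq).resolve_left fun h => hqp (inj1 h₁ h ((m1 p).1 hp).2 e)⟩, e⟩)
    (fun p hp => by
      obtain ⟨q, hq, hqp, e⟩ := hx p ((m2 p).1 hp).1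
      exact ⟨q, (m1 q).2 ⟨hq, (hS q hq).resolve_right fun h => hqp (inj1 h₂ h ((m2 p).1 hp).2 e)⟩, e⟩)
  have Y := sum_eq (S := S1) (T := S2) Prod.snd
    (fun p hp q hq => inj2 h₁ ((m1 p).1 hp).2 ((m1 q).1 hq).2)
    (fun p hp q hq => inj2 h₂ ((m2 p).1 hp).2 ((m2 q).1 hq).2)
    (fun p hp => by
      obtain ⟨q, hq, hqp, e⟩ := hy p ((m1 p).1 hp).1
      exact ⟨q, (m2 q).2 ⟨hq, (hS q hq).resolve_left fun h => hqp (inj2 h₁ h ((m1 p).1 hp).2 e)⟩, e⟩)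
    (fun p hp => by
      obtain ⟨q, hq, hqp, e⟩ := hy p ((m2 p).1 hp).1
      exact ⟨q, (m1 q).2 ⟨hq, (hS q hq).resolve_right fun h => hqp (inj2 h₂ h ((m2 p).1 hp).2 e)⟩, e⟩)
  have E : ∀ (a : ℝ) (T : Finset (ℤ × ℤ)), (∀ p ∈ T, p ∈ A a) →
      ∑ p ∈ T, (p.1 : ℝ) ^ 2 + ∑ p ∈ T, (p.2 : ℝ) ^ 2 =
        a * (∑ p ∈ T, (p.1 : ℝ) - ∑ p ∈ T, (p.2 : ℝ)) := fun a T hT => by
    rw [← Finset.sum_add_distrib, ← Finset.sum_sub_distrib, Finset.mul_sum]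
    exact Finset.sum_congr rfl fun p hp => by linarith [(hT p hp).1]
  have E1 := E a₁ S1 fun p hp => ((m1 p).1 hp).2
  have E2 := E a₂ S2 fun p hp => ((m2 p).1 hp).2
  rw [← X (fun n => (n : ℝ) ^ 2), ← Y (fun n => (n : ℝ) ^ 2), ← X (fun n => (n : ℝ)),
    ← Y (fun n => (n : ℝ))] at E2
  have z : ∑ p ∈ S1, (p.1 : ℝ) - ∑ p ∈ S1, (p.2 : ℝ) = 0 := by
    have : (a₁ - a₂) * (∑ p ∈ S1, (p.1 : ℝ) - ∑ p ∈ S1, (p.2 : ℝ)) = 0 := by linarith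
    exact (mul_eq_zero.1 this).resolve_left (sub_ne_zero.2 hne)
  rw [z, mul_zero, ← Finset.sum_add_distrib,
    Finset.sum_eq_zero_iff_of_nonneg fun p _ => by positivity] at E1
  have e1 : ∀ p, p ∉ S1 := fun p hp => by
    have := E1 p hp
    have a : (p.1 : ℝ) = 0 := by nlinarith [sq_nonneg (p.1 : ℝ), sq_nonneg (p.2 : ℝ)]
    have b : (p.2 : ℝ) = 0 := by nlinarith [sq_nonneg (p.1 : ℝ), sq_nonneg (p.2 : ℝ)]
    exact ((m1 p).1 hp).2.2 (Prod.ext (by exact_mod_cast a) (by exact_mod_cast b))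
  refine Finset.eq_empty_of_forall_notMem fun p hp => ?_
  have hp2 := (hS p hp).resolve_left fun h => e1 p ((m1 p).2 ⟨hp, h⟩)
  obtain ⟨q, hq, hqp, e⟩ := hx p hp
  have hq2 := (hS q hq).resolve_left fun h => e1 q ((m1 q).2 ⟨hq, h⟩)
  exact hqp (inj1 h₂ hq2 hp2 e)

theorem three {a₁ a₂ : ℝ} (π : ℤ × ℤ → ℤ)
    (i1 : ∀ {p q}, p ∈ A a₁ → q ∈ A a₁ → π p = π q → p = q)
    (i2 : ∀ {p q}, p ∈ A a₂ → q ∈ A a₂ → π p = π q → p = q) (u v w : ↥(A a₁ ∪ A a₂))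
    (h1 : u ≠ v) (h2 : u ≠ w) (h3 : v ≠ w) (e1 : π u = π v) (e2 : π u = π w) : False := by
  rcases u.2 with a | a <;> rcases v.2 with b | b <;> rcases w.2 with c | c
  all_goals first
    | exact h1 (Subtype.ext (i1 a b e1)) | exact h1 (Subtype.ext (i2 a b e1))
    | exact h2 (Subtype.ext (i1 a c e2)) | exact h2 (Subtype.ext (i2 a c e2))
    | exact h3 (Subtype.ext (i1 b c (e1.symm.trans e2)))
    | exact h3 (Subtype.ext (i2 b c (e1.symm.trans e2)))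

theorem acyclic (a₁ a₂ : ℝ) (hne : a₁ ≠ a₂) (h₁ : ∀ n : ℤ, a₁ ≠ n) (h₂ : ∀ n : ℤ, a₂ ≠ n) :
    (G a₁ a₂).IsAcyclic := by
  classical
  intro v c hc
  have key : ∀ u ∈ c.support, (∃ w ∈ c.support, w ≠ u ∧ w.1.1 = u.1.1) ∧
      (∃ w ∈ c.support, w ≠ u ∧ w.1.2 = u.1.2) := fun u hu => by
    obtain ⟨w1, w2, hw, e⟩ := Set.ncard_eq_two.1 (hc.ncard_neighborSet_toSubgraph_eq_two hu)
    have a1 : c.toSubgraph.Adj u w1 := by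
      have : w1 ∈ c.toSubgraph.neighborSet u := by rw [e]; simp
      exact this
    have a2 : c.toSubgraph.Adj u w2 := by
      have : w2 ∈ c.toSubgraph.neighborSet u := by rw [e]; simp
      exact this
    have s1 := (c.mem_verts_toSubgraph).1 a1.snd_mem
    have s2 := (c.mem_verts_toSubgraph).1 a2.snd_mem
    obtain ⟨n1, b1 | b1⟩ := a1.adj_sub <;> obtain ⟨n2, b2 | b2⟩ := a2.adj_sub
    · exact (three Prod.fst (inj1 h₁) (inj1 h₂) u w1 w2 n1 n2 hw b1 b2).elim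
    · exact ⟨⟨w1, s1, n1.symm, b1.symm⟩, ⟨w2, s2, n2.symm, b2.symm⟩⟩
    · exact ⟨⟨w2, s2, n2.symm, b2.symm⟩, ⟨w1, s1, n1.symm, b1.symm⟩⟩
    · exact (three Prod.snd (inj2 h₁) (inj2 h₂) u w1 w2 n1 n2 hw b1 b2).elim
  have := core hne h₁ h₂ (c.support.toFinset.image Subtype.val) ?_ ?_ ?_
  · have hv : v.1 ∈ c.support.toFinset.image Subtype.val :=
      Finset.mem_image_of_mem _ (List.mem_toFinset.2 c.start_mem_support)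
    rw [this] at hv; simp at hv
  all_goals
    intro p hp
    obtain ⟨u, hu, rfl⟩ := Finset.mem_image.1 hp
  · exact u.2
  · obtain ⟨w, hw, n, e⟩ := (key u (List.mem_toFinset.1 hu)).1
    exact ⟨w, Finset.mem_image_of_mem _ (List.mem_toFinset.2 hw), fun h => n (Subtype.ext h), e⟩
  · obtain ⟨w, hw, n, e⟩ := (key u (List.mem_toFinset.1 hu)).2
    exact ⟨w, Finset.mem_image_of_mem _ (List.mem_toFinset.2 hw), fun h => n (Subtype.ext h), e⟩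

end Pool.Agent.H2.Beam0
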