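import Mathlib

namespace Pool.Agent.H2.Bog

open MvPolynomial

attribute [local instance] MvPolynomial.gradedAlgebra

variable {σ K : Type} [Field K]

abbrev Hom (P : Ideal (MvPolynomial σ K)) : Prop := P.IsHomogeneous (homogeneousSubmodule σ K)

noncomputable def mm (σ K : Type) [Field K] : Ideal (MvPolynomial σ K) :=
  RingHom.ker (constantCoeff : MvPolynomial σ K →+* K)

lemma mm_max : (mm σ K).IsMaximal :=
  RingHom.ker_isMaximal_of_surjective _ (fun a => ⟨C a, by simp⟩)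

lemma mm_le {W : Ideal (MvPolynomial σ K)} (h : ∀ i, X i ∈ W) : mm σ K ≤ W := by
  have key : ∀ f : MvPolynomial σ K, f - C (constantCoeff f) ∈ W := by
    intro f
    induction f using MvPolynomial.induction_on with
    | C a => simp
    | add p q hp hq =>
      have := W.add_mem hp hq
      rw [map_add, map_add]
      convert this using 1
      ring
    | mul_X p i _ =>
      simpa using W.mul_mem_left p (h i)
  intro f hf
  have := key f
  rw [show constantCoeff f = 0 from hf] at this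
  simpa using this

lemma X_mem_mm (i : σ) : (X i : MvPolynomial σ K) ∈ mm σ K := by
  simp [mm, RingHom.mem_ker]

lemma hom_le_mm {P : Ideal (MvPolynomial σ K)} (hP : Hom P) (h : P ≠ ⊤) : P ≤ mm σ K := by
  intro f hf
  have h1 := homogeneousComponent_mem_of_mem hP hf 0
  rw [homogeneousComponent_zero] at h1
  by_contra hne
  have h2 : coeff 0 f ≠ 0 := hne
  exact h (P.eq_top_of_isUnit_mem h1 ((IsUnit.mk0 _ h2).map C))

lemma lin_mem_mm {l : MvPolynomial σ K} (hl : l.IsHomogeneous 1) : l ∈ mm σ K := by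
  show coeff 0 l = 0
  exact hl.coeff_eq_zero (by simp)

def D (P : Ideal (MvPolynomial σ K)) (n : ℕ) : Prop :=
  ∃ s : LTSeries (PrimeSpectrum (MvPolynomial σ K)),
    s.length = n ∧ P ≤ s.head.asIdeal ∧ s.last.asIdeal = mm σ K

lemma D.not_le {P : Ideal (MvPolynomial σ K)} {n : ℕ} (h : D P (n+1)) : ¬ mm σ K ≤ P := by
  obtain ⟨s, h1, h2, h3⟩ := h
  intro h4
  have : s.head < s.last := s.strictMono (show (0 : Fin (s.length+1)) < Fin.last _ from by
    rw [Fin.lt_def]; simp [h1])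
  have h5 : s.head.asIdeal < s.last.asIdeal := this
  rw [h3] at h5
  exact h5.not_ge (h4.trans h2)

lemma D_one {P : Ideal (MvPolynomial σ K)} [hp : P.IsPrime] (h1 : P ≤ mm σ K)
    (h2 : ¬ mm σ K ≤ P) : D P 1 := by
  have h : (⟨P, hp⟩ : PrimeSpectrum _) < ⟨mm σ K, mm_max.isPrime⟩ := lt_of_le_not_ge h1 h2
  refine ⟨(RelSeries.singleton _ (⟨P, hp⟩ : PrimeSpectrum _)).snoc ⟨mm σ K, mm_max.isPrime⟩
    (by exact h), rfl, ?_, ?_⟩
  · rw [RelSeries.head_snoc]; exact le_rfl
  · rw [RelSeries.last_snoc]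

lemma hom_min {I Q : Ideal (MvPolynomial σ K)} (hI : Hom I) (hQ : Q ∈ I.minimalPrimes) :
    Hom Q := by
  have h1 : (Q.homogeneousCore (homogeneousSubmodule σ K)).toIdeal.IsPrime :=
    hQ.1.1.homogeneousCore
  have h2 : I ≤ (Q.homogeneousCore (homogeneousSubmodule σ K)).toIdeal := by
    rw [← hI.toIdeal_homogeneousCore_eq_self]
    exact Ideal.homogeneousCore_mono _ hQ.1.2
  have h3 := Ideal.toIdeal_homogeneousCore_le (homogeneousSubmodule σ K) Q
  have h4 : Q = (Q.homogeneousCore (homogeneousSubmodule σ K)).toIdeal :=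
    le_antisymm (hQ.2 ⟨h1, h2⟩ h3) h3
  rw [h4]
  exact HomogeneousIdeal.isHomogeneous _

lemma hom_span_lin {l : MvPolynomial σ K} (hl : l.IsHomogeneous 1) : Hom (Ideal.span {l}) :=
  Ideal.homogeneous_span _ _ (by
    rintro x rfl
    exact ⟨1, hl⟩)

variable [Finite σ]

lemma cut {P : Ideal (MvPolynomial σ K)} {n : ℕ} (h : D P (n+2)) {l : MvPolynomial σ K}
    (hl : l.IsHomogeneous 1) : ∃ Q ∈ (P ⊔ Ideal.span {l}).minimalPrimes, D Q (n+1) := by
  obtain ⟨s, h1, h2, h3⟩ := h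
  obtain ⟨q, hq1, hq2, hq3, hq4⟩ :=
    PrimeSpectrum.exist_ltSeries_mem_one_of_mem_last s (x := l) (h3 ▸ lin_mem_mm hl)
  have hlen : q.length ≠ 0 := by omega
  have hle : P ⊔ Ideal.span {l} ≤ (q 1).asIdeal := by
    refine sup_le ?_ ((Ideal.span_singleton_le_iff_mem _).2 hq1)
    refine h2.trans ?_
    rw [hq3]
    exact q.monotone (Fin.zero_le _)
  obtain ⟨Q, hQ, hQle⟩ := Ideal.exists_minimalPrimes_le hle
  refine ⟨Q, hQ, q.tail hlen, by simp; omega, ?_, ?_⟩
  · rwa [RelSeries.head_tail]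
  · rw [RelSeries.last_tail, ← hq4, h3]

lemma cut_not_le {P P' Q : Ideal (MvPolynomial σ K)} [hp : P.IsPrime] {l : MvPolynomial σ K}
    (hQ : Q ∈ (P ⊔ Ideal.span {l}).minimalPrimes) (hQm : ¬ mm σ K ≤ Q) (hne : ¬ P' ≤ P)
    (hl : ∀ W ∈ (P ⊔ P').minimalPrimes, ¬ mm σ K ≤ W → l ∉ W) : ¬ P' ≤ Q := by
  intro hle
  have := hQ.1.1
  have hPQ : P ≤ Q := le_sup_left.trans hQ.1.2
  have hlQ : l ∈ Q := (le_sup_right.trans hQ.1.2) (Ideal.mem_span_singleton_self l)
  obtain ⟨W, hW, hWQ⟩ := Ideal.exists_minimalPrimes_le (sup_le hPQ hle)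
  have hlW := hl W hW (fun h => hQm (h.trans hWQ))
  have h1 : (⟨P, hp⟩ : PrimeSpectrum _) < ⟨W, hW.1.1⟩ :=
    lt_of_le_not_ge (le_sup_left.trans hW.1.2) (fun h => hne ((le_sup_right.trans hW.1.2).trans h))
  have h2 : (⟨W, hW.1.1⟩ : PrimeSpectrum _) < ⟨Q, hQ.1.1⟩ :=
    lt_of_le_not_ge hWQ (fun h => hlW (h hlQ))
  obtain ⟨q, hq1, hq2, hq3⟩ := PrimeSpectrum.exist_mem_one_of_mem_two h1 h2 hlQ
  have : Q ≤ q.asIdeal := hQ.2 ⟨q.2, sup_le hq2.le ((Ideal.span_singleton_le_iff_mem _).2 hq1)⟩ hq3.le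
  exact hq3.not_ge this

omit [Finite σ] in
lemma avoid [Infinite K] (V : Submodule K (MvPolynomial σ K))
    (S : Set (Ideal (MvPolynomial σ K))) (hS : S.Finite) (h : ∀ W ∈ S, ∃ x ∈ V, x ∉ W) :
    ∃ l ∈ V, ∀ W ∈ S, l ∉ W := by
  have := hS.to_subtype
  obtain ⟨x, hx⟩ := Submodule.exists_forall_notMem_of_forall_ne_top
    (fun W : S => ((W.1.restrictScalars K).comap V.subtype)) (by
      intro W hW
      obtain ⟨x, hx, hx2⟩ := h W.1 W.2
      have : (⟨x, hx⟩ : V) ∈ ((W.1.restrictScalars K).comap V.subtype) := by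
        rw [hW]; trivial
      exact hx2 this)
  exact ⟨x.1, x.2, fun W hW => hx ⟨W, hW⟩⟩

/-- the point substitution -/
noncomputable def psi (c : σ → K) (a : σ) : MvPolynomial σ K →ₐ[K] MvPolynomial σ K :=
  aeval (fun j => C (c j) * X a)

omit [Finite σ] in
lemma psi_hom (c : σ → K) (a : σ) {g : MvPolynomial σ K} {n : ℕ} (hg : g.IsHomogeneous n) :
    psi c a g = C (eval c g) * X a ^ n := by
  classical
  conv_lhs => rw [g.as_sum]
  rw [map_sum, eval_eq, map_sum, Finset.sum_mul]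
  refine Finset.sum_congr rfl fun d hd => ?_
  have hdeg : ∑ i ∈ d.support, d i = n := by
    have := hg (mem_support_iff.1 hd)
    rw [← this]
    simp [Finsupp.weight_apply, Finsupp.sum]
  rw [psi, aeval_monomial, Finsupp.prod]
  simp only [mul_pow, Finset.prod_mul_distrib, Finset.prod_pow_eq_pow_sum, hdeg, map_mul, map_prod,
    map_pow, algebraMap_eq]
  ring

omit [Finite σ] in
lemma ker_psi_le (c : σ → K) (a : σ) {W : Ideal (MvPolynomial σ K)}
    (h : ∀ j, X j - C (c j) * X a ∈ W) : RingHom.ker (psi c a) ≤ W := by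
  have key : ∀ f : MvPolynomial σ K, f - psi c a f ∈ W := by
    intro f
    induction f using MvPolynomial.induction_on with
    | C b => simp [psi]
    | add p q hp hq =>
      have := W.add_mem hp hq
      rw [map_add]
      convert this using 1
      ring
    | mul_X p i hp =>
      have h1 := W.add_mem (W.mul_mem_right (X i) hp) (W.mul_mem_left (psi c a p) (h i))
      rw [map_mul]
      have : psi c a (X i) = C (c i) * X a := by simp [psi]
      rw [this]
      convert h1 using 1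
      ring
  intro f hf
  have := key f
  rw [show psi c a f = 0 from hf] at this
  simpa using this

end Pool.Agent.H2.Bog
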