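import Pool.Agent.H2.Bog1

namespace Pool.Agent.H2.Bog

open MvPolynomial Module

attribute [local instance] MvPolynomial.gradedAlgebra

variable {σ K : Type} [Field K]

lemma sub_psi_mem (c : σ → K) (a : σ) {W : Ideal (MvPolynomial σ K)}
    (h : ∀ j, X j - C (c j) * X a ∈ W) (f : MvPolynomial σ K) : f - psi c a f ∈ W := by
  induction f using MvPolynomial.induction_on with
  | C b => simp [psi]
  | add p q hp hq =>
    have := W.add_mem hp hq
    rw [map_add]
    convert this using 1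
    ring
  | mul_X p i hp =>
    have h1 := W.add_mem (W.mul_mem_right (X i) hp) (W.mul_mem_left (psi c a p) (h i))
    rw [map_mul]
    have : psi c a (X i) = C (c i) * X a := by simp [psi]
    rw [this]
    convert h1 using 1
    ring

lemma eval_scale (v : σ → K) (a : σ) (t : K) {g : MvPolynomial σ K} {n : ℕ}
    (hg : g.IsHomogeneous n) : eval (fun j => v j * t) g = eval v g * t ^ n := by
  have h := congrArg (eval (fun _ => t)) (psi_hom v a hg)
  have h2 : ∀ f : MvPolynomial σ K, eval (fun _ => t) (psi v a f) = eval (fun j => v j * t) f := by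
    intro f
    induction f using MvPolynomial.induction_on with
    | C b => simp [psi]
    | add p q hp hq => simp [hp, hq]
    | mul_X p i hp =>
      rw [map_mul, map_mul, map_mul, hp]
      simp [psi]
  rw [h2] at h
  simpa using h

lemma exists_hom_not_mem {P P' : Ideal (MvPolynomial σ K)} (h : Hom P') (hn : ¬ P' ≤ P) :
    ∃ g n, g ∈ P' ∧ g ∉ P ∧ g.IsHomogeneous n := by
  by_contra hc
  push Not at hc
  apply hn
  intro f hf
  rw [← sum_homogeneousComponent f]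
  refine P.sum_mem fun n _ => ?_
  by_contra h2
  exact hc _ n (homogeneousComponent_mem_of_mem h hf n) h2 (homogeneousComponent_isHomogeneous n f)

lemma lin_hom (c : σ → K) (a j : σ) :
    (X j - C (c j) * X a : MvPolynomial σ K).IsHomogeneous 1 :=
  (isHomogeneous_X K j).sub ((isHomogeneous_X K a).C_mul _)

variable [Finite σ]

lemma point [IsAlgClosed K] {P0 : Ideal (MvPolynomial σ K)} [hp : P0.IsPrime] (hh : Hom P0)
    (hm : ¬ mm σ K ≤ P0) (P : ℕ → Ideal (MvPolynomial σ K)) (s : ℕ)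
    (hP : ∀ j < s, Hom (P j) ∧ ¬ P j ≤ P0) :
    ∃ V : Ideal (MvPolynomial σ K), V.IsPrime ∧ Hom V ∧ P0 ≤ V ∧ ¬ mm σ K ≤ V ∧
      (∀ j < s, ¬ P j ≤ V) ∧
      ∀ W : Ideal (MvPolynomial σ K), W.IsPrime → (∃ j < s, P j ≤ W) → ¬ mm σ K ≤ W →
        ∃ x, x.IsHomogeneous 1 ∧ x ∈ V ∧ x ∉ W := by
  classical
  obtain ⟨a, ha⟩ : ∃ a, (X a : MvPolynomial σ K) ∉ P0 := by
    by_contra hc
    push Not at hc
    exact hm (mm_le hc)
  have hg : ∀ j : Fin s, ∃ g n, g ∈ P j ∧ g ∉ P0 ∧ g.IsHomogeneous n := fun j =>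
    exists_hom_not_mem (hP j j.2).1 (hP j j.2).2
  choose g n hg1 hg2 hg3 using hg
  have hprod : X a * ∏ j, g j ∉ P0 := by
    intro h
    rcases hp.mem_or_mem h with h | h
    · exact ha h
    · obtain ⟨j, -, hj⟩ := Ideal.IsPrime.prod_mem_iff.1 h
      exact hg2 j hj
  rw [← IsPrime.vanishingIdeal_zeroLocus (K := K) P0, mem_vanishingIdeal_iff] at hprod
  push Not at hprod
  obtain ⟨v, hv, hv2⟩ := hprod
  rw [mem_zeroLocus_iff] at hv
  simp only [map_mul, map_prod, aeval_X, ne_eq, mul_eq_zero, not_or, Finset.prod_eq_zero_iff,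
    Finset.mem_univ, true_and, not_exists] at hv2
  obtain ⟨hva, hvg⟩ := hv2
  let c : σ → K := fun j => v j * (v a)⁻¹
  have hca : c a = 1 := mul_inv_cancel₀ hva
  have hc : ∀ {f : MvPolynomial σ K} {d : ℕ}, f.IsHomogeneous d →
      psi c a f = C (eval v f * (v a)⁻¹ ^ d) * X a ^ d := by
    intro f d hf
    rw [psi_hom c a hf, eval_scale v a _ hf]
  have hker : (RingHom.ker (psi c a)).IsPrime := RingHom.ker_isPrime _
  let V := ((RingHom.ker (psi c a)).homogeneousCore (homogeneousSubmodule σ K)).toIdeal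
  have hVle : V ≤ RingHom.ker (psi c a) := Ideal.toIdeal_homogeneousCore_le _ _
  have hlin : ∀ j, X j - C (c j) * X a ∈ V := by
    intro j
    refine Ideal.mem_homogeneousCore_of_homogeneous_of_mem ⟨1, lin_hom c a j⟩ ?_
    simp [RingHom.mem_ker, psi, hca]
  have hgne : ∀ j, eval v (g j) * (v a)⁻¹ ^ n j ≠ 0 := fun j =>
    mul_ne_zero (by simpa [aeval_eq_eval] using hvg j) (pow_ne_zero _ (inv_ne_zero hva))
  refine ⟨V, hker.homogeneousCore, HomogeneousIdeal.isHomogeneous _, ?_, ?_, ?_, ?_⟩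
  · have : P0 ≤ RingHom.ker (psi c a) := by
      intro f hf
      rw [← sum_homogeneousComponent f]
      refine Ideal.sum_mem _ fun d _ => ?_
      rw [RingHom.mem_ker, hc (homogeneousComponent_isHomogeneous d f)]
      have := hv _ (homogeneousComponent_mem_of_mem hh hf d)
      rw [aeval_eq_eval] at this
      simp [this]
    rw [← hh.toIdeal_homogeneousCore_eq_self]
    exact Ideal.homogeneousCore_mono _ this
  · intro h
    have := hVle (h (X_mem_mm a))
    simp [RingHom.mem_ker, psi, hca] at this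
  · intro j hj h
    have := hVle (h (hg1 ⟨j, hj⟩))
    rw [RingHom.mem_ker, hc (hg3 _)] at this
    rcases mul_eq_zero.1 this with h | h
    · exact hgne _ (C_eq_zero.1 h)
    · exact pow_ne_zero _ (X_ne_zero a) h
  · rintro W hW ⟨j, hj, hjW⟩ hmW
    by_contra hcon
    push Not at hcon
    have hlinW : ∀ j, X j - C (c j) * X a ∈ W := fun j => hcon _ (lin_hom c a j) (hlin j)
    have h1 := sub_psi_mem c a hlinW (g ⟨j, hj⟩)
    have h2 : psi c a (g ⟨j, hj⟩) ∈ W := by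
      have := W.sub_mem (hjW (hg1 ⟨j, hj⟩)) h1
      simpa using this
    rw [hc (hg3 _)] at h2
    have h3 : (X a : MvPolynomial σ K) ∈ W := by
      rcases hW.mem_or_mem h2 with h | h
      · exact absurd (W.eq_top_of_isUnit_mem h ((IsUnit.mk0 _ (hgne _)).map C)) hW.ne_top
      · exact hW.mem_of_pow_mem _ h
    refine hmW (mm_le fun i => ?_)
    have := W.add_mem (hlinW i) (W.mul_mem_left (C (c i)) h3)
    simpa using this

lemma step [Infinite K] (P : ℕ → Ideal (MvPolynomial σ K)) (k : ℕ → ℕ) (a s : ℕ) (has : a ≤ s)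
    (hP : ∀ j < s, (P j).IsPrime ∧ Hom (P j) ∧ D (P j) (k j + 1))
    (hinc : ∀ i < s, ∀ j < s, i ≠ j → ¬ P i ≤ P j) (hk : ∀ j < a, 1 ≤ k j)
    (V : Ideal (MvPolynomial σ K))
    (hV : ∀ W : Ideal (MvPolynomial σ K), W.IsPrime → (∃ j < s, P j ≤ W) → ¬ mm σ K ≤ W →
        ∃ x, x.IsHomogeneous 1 ∧ x ∈ V ∧ x ∉ W) :
    ∃ l : MvPolynomial σ K, l.IsHomogeneous 1 ∧ l ∈ V ∧ (∀ j < s, l ∉ P j) ∧
      ∃ Q : ℕ → Ideal (MvPolynomial σ K), ∀ i < a, (Q i).IsPrime ∧ Hom (Q i) ∧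
        D (Q i) (k i - 1 + 1) ∧ P i ≤ Q i ∧ l ∈ Q i ∧ ∀ j < a, j ≠ i → ¬ P j ≤ Q i := by
  let S : Set (Ideal (MvPolynomial σ K)) := (P '' {j | j < s}) ∪
    ⋃ i ∈ {j | j < a}, ⋃ j ∈ {j | j < a}, {W | W ∈ (P i ⊔ P j).minimalPrimes ∧ ¬ mm σ K ≤ W}
  have hS : S.Finite := by
    refine ((Set.finite_lt_nat s).image _).union ?_
    refine (Set.finite_lt_nat a).biUnion fun i _ => (Set.finite_lt_nat a).biUnion fun j _ => ?_
    exact (Ideal.finite_minimalPrimes_of_isNoetherianRing _ (P i ⊔ P j)).subset fun W hW => hW.1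
  obtain ⟨l, hl, hlS⟩ := avoid (homogeneousSubmodule σ K 1 ⊓ V.restrictScalars K) S hS (by
    intro W hW
    have : W.IsPrime ∧ (∃ j < s, P j ≤ W) ∧ ¬ mm σ K ≤ W := by
      rcases hW with ⟨j, hj, rfl⟩ | hW
      · exact ⟨(hP j hj).1, ⟨j, hj, le_rfl⟩, (hP j hj).2.2.not_le⟩
      · simp only [Set.mem_iUnion] at hW
        obtain ⟨i, hi, j, hj, h1, h2⟩ := hW
        exact ⟨h1.1.1, ⟨i, lt_of_lt_of_le hi has, le_sup_left.trans h1.1.2⟩, h2⟩
    obtain ⟨x, h1, h2, h3⟩ := hV W this.1 this.2.1 this.2.2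
    exact ⟨x, ⟨h1, h2⟩, h3⟩)
  have hl1 : l.IsHomogeneous 1 := hl.1
  refine ⟨l, hl1, hl.2, fun j hj => hlS _ (Or.inl ⟨j, hj, rfl⟩), ?_⟩
  have hQ : ∀ i, ∃ Q : Ideal (MvPolynomial σ K), i < a →
      Q ∈ (P i ⊔ Ideal.span {l}).minimalPrimes ∧ D Q (k i - 1 + 1) := by
    intro i
    by_cases hi : i < a
    · have h1 := (hP i (by omega)).2.2
      have h2 := hk i hi
      rw [show k i + 1 = (k i - 1) + 2 by omega] at h1
      obtain ⟨Q, hQ1, hQ2⟩ := cut h1 hl1
      exact ⟨Q, fun _ => ⟨hQ1, hQ2⟩⟩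
    · exact ⟨⊥, fun h => absurd h hi⟩
  choose Q hQ using hQ
  refine ⟨Q, fun i hi => ?_⟩
  obtain ⟨h1, h2⟩ := hQ i hi
  have := (hP i (by omega)).1
  refine ⟨h1.1.1, hom_min ((hP i (by omega)).2.1.sup (hom_span_lin hl1)) h1, h2,
    le_sup_left.trans h1.1.2, (le_sup_right.trans h1.1.2) (Ideal.mem_span_singleton_self l), ?_⟩
  intro j hj hji
  refine cut_not_le h1 h2.not_le (hinc j (by omega) i (by omega) hji) ?_
  intro W hW hWm
  refine hlS W (Or.inr ?_)
  simp only [Set.mem_iUnion]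
  exact ⟨i, hi, j, hj, hW, hWm⟩

def G (P : ℕ → Ideal (MvPolynomial σ K)) (s e N : ℕ) : Prop :=
  ∃ U : Submodule K (MvPolynomial σ K), U ≤ homogeneousSubmodule σ K e ∧ N ≤ finrank K U ∧
    ∀ u ∈ U, (∀ j < s, u ∈ P j) → u = 0

lemma fin_of_le {U : Submodule K (MvPolynomial σ K)} {e : ℕ}
    (h : U ≤ homogeneousSubmodule σ K e) : Module.Finite K U := by
  have : Module.Finite K (homogeneousSubmodule σ K e) :=
    Module.Finite.iff_fg.2 (homogeneousSubmodule_fg σ K e)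
  exact Submodule.finiteDimensional_of_le h

lemma glue {P Q : ℕ → Ideal (MvPolynomial σ K)} {s s' t e N1 N2 : ℕ} (hs : s' ≤ s)
    {l : MvPolynomial σ K} (hl : l.IsHomogeneous 1) (hl0 : l ≠ 0)
    (hP : ∀ j < s', (P j).IsPrime ∧ l ∉ P j)
    (hPQ : ∀ j < t, l ∈ Q j ∧ ∃ i < s, P i ≤ Q j)
    (h1 : G P s' e N1) (h2 : G Q t (e+1) N2) : G P s (e+1) (N1 + N2) := by
  obtain ⟨U1, a1, b1, c1⟩ := h1
  obtain ⟨U2, a2, b2, c2⟩ := h2
  let L : MvPolynomial σ K →ₗ[K] MvPolynomial σ K := LinearMap.mulLeft K l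
  have hL : Function.Injective L := mul_right_injective₀ hl0
  have a1' : U1.map L ≤ homogeneousSubmodule σ K (e+1) := by
    rintro _ ⟨u, hu, rfl⟩
    have := hl.mul (a1 hu)
    rwa [add_comm] at this
  have := fin_of_le a1'
  have := fin_of_le a2
  have hdis : U1.map L ⊓ U2 = ⊥ := by
    rw [eq_bot_iff]
    rintro _ ⟨⟨u, hu, rfl⟩, h⟩
    exact c2 _ h fun j hj => (Q j).mul_mem_right u (hPQ j hj).1
  refine ⟨U1.map L ⊔ U2, sup_le a1' a2, ?_, ?_⟩
  · have h3 := Submodule.finrank_sup_add_finrank_inf_eq (U1.map L) U2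
    rw [hdis, finrank_bot, ← (Submodule.equivMapOfInjective L hL U1).finrank_eq] at h3
    omega
  · intro x hx hxP
    obtain ⟨_, ⟨u, hu, rfl⟩, w, hw, rfl⟩ := Submodule.mem_sup.1 hx
    have hw0 : w = 0 := by
      refine c2 w hw fun j hj => ?_
      obtain ⟨h3, i, hi, h4⟩ := hPQ j hj
      have := (Q j).sub_mem (h4 (hxP i hi)) ((Q j).mul_mem_right u h3)
      simpa [L] using this
    have hu0 : u = 0 := by
      refine c1 u hu fun j hj => ?_
      have := hxP j (by omega)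
      rw [hw0, add_zero] at this
      exact ((hP j hj).1.mem_or_mem this).resolve_left (hP j hj).2
    simp [hu0, hw0]

end Pool.Agent.H2.Bog
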