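import Pool.Agent.H2.Bog2

namespace Pool.Agent.H2.Bog

open MvPolynomial Module Finset

attribute [local instance] MvPolynomial.gradedAlgebra

variable {σ K : Type} [Field K]

def T (k j e : ℕ) : ℕ := if j ≤ e then (k + (e - j)).choose k else 0

def F (k : ℕ → ℕ) (s e : ℕ) : ℕ := ∑ j ∈ range s, T (k j) j e

lemma T_rec {k j e : ℕ} (hk : 1 ≤ k) : T k j (e+1) ≤ T k j e + T (k-1) j (e+1) := by
  obtain ⟨k, rfl⟩ : ∃ k', k = k' + 1 := ⟨k - 1, by omega⟩
  unfold T
  by_cases h : j ≤ e
  · rw [if_pos (by omega), if_pos h, if_pos (by omega)]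
    rw [show k + 1 + (e + 1 - j) = (k + 1 + (e - j)) + 1 by omega, Nat.choose_succ_succ,
      show k + 1 - 1 + (e + 1 - j) = k + 1 + (e - j) by omega]
    simp only [Nat.add_sub_cancel, Nat.succ_eq_add_one]
    omega
  · by_cases h2 : j ≤ e + 1
    · rw [if_pos h2, if_neg h, if_pos h2, show e + 1 - j = 0 by omega]
      simp
    · rw [if_neg h2]; omega

lemma T_zero (j e : ℕ) : T 0 j e = if j ≤ e then 1 else 0 := by simp [T]

lemma sum_zero_shift (a n e : ℕ) :
    ∑ j ∈ Ico a (a + n + 1), T 0 j (e+1) ≤ ∑ j ∈ Ico a (a + n), T 0 j e + T 0 a (e+1) := by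
  induction n with
  | zero => simp
  | succ n ih =>
    have e1 := Finset.sum_Ico_succ_top (a := a) (b := a + n + 1) (by omega) (fun j => T 0 j (e+1))
    have e2 := Finset.sum_Ico_succ_top (a := a) (b := a + n) (by omega) (fun j => T 0 j e)
    rw [show a + (n+1) = a + n + 1 by omega, e1, e2]
    have : T 0 (a + n + 1) (e+1) = T 0 (a+n) e := by simp [T_zero]
    omega

def Conf (P : ℕ → Ideal (MvPolynomial σ K)) (k : ℕ → ℕ) (s : ℕ) : Prop :=
  (∀ j < s, (P j).IsPrime ∧ Hom (P j) ∧ D (P j) (k j + 1)) ∧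
  (∀ i < s, ∀ j < s, i ≠ j → ¬ P i ≤ P j) ∧ (∀ i j, i ≤ j → j < s → k j ≤ k i)

lemma Conf.mono {P : ℕ → Ideal (MvPolynomial σ K)} {k : ℕ → ℕ} {s t : ℕ} (h : Conf P k s)
    (ht : t ≤ s) : Conf P k t :=
  ⟨fun j hj => h.1 j (by omega), fun i hi j hj => h.2.1 i (by omega) j (by omega),
    fun i j hij hj => h.2.2 i j hij (by omega)⟩

variable [Finite σ]

lemma G_one {P : ℕ → Ideal (MvPolynomial σ K)} {s : ℕ} (e : ℕ) (hs : 0 < s)
    (hp : (P 0).IsPrime) (hm : ¬ mm σ K ≤ P 0) : G P s e 1 := by
  obtain ⟨a, ha⟩ : ∃ a, (X a : MvPolynomial σ K) ∉ P 0 := by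
    by_contra hc
    push Not at hc
    exact hm (mm_le hc)
  have h0 : (X a : MvPolynomial σ K) ^ e ≠ 0 := pow_ne_zero _ (X_ne_zero a)
  refine ⟨K ∙ (X a ^ e), ?_, by rw [finrank_span_singleton h0], ?_⟩
  · rw [Submodule.span_singleton_le_iff_mem]
    simpa using isHomogeneous_X_pow (R := K) a e
  · intro u hu huP
    obtain ⟨c, rfl⟩ := Submodule.mem_span_singleton.1 hu
    by_contra hc
    have hc0 : c ≠ 0 := by rintro rfl; simp at hc
    have h1 := huP 0 hs
    rw [smul_eq_C_mul] at h1
    rcases hp.mem_or_mem h1 with h | h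
    · exact hp.ne_top ((P 0).eq_top_of_isUnit_mem h ((IsUnit.mk0 _ hc0).map C))
    · exact ha (hp.mem_of_pow_mem _ h)

lemma G.mono {P : ℕ → Ideal (MvPolynomial σ K)} {s e N M : ℕ} (h : G P s e N) (hM : M ≤ N) :
    G P s e M := by
  obtain ⟨U, a, b, c⟩ := h
  exact ⟨U, a, hM.trans b, c⟩

theorem main [IsAlgClosed K] (n : ℕ) : ∀ (e s : ℕ) (P : ℕ → Ideal (MvPolynomial σ K))
    (k : ℕ → ℕ), e + ∑ j ∈ range s, (k j + 1) ≤ n → Conf P k s → G P s e (F k s e) := by
  induction n with
  | zero =>
    intro e s P k hn hC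
    have : s = 0 := by
      rcases s with _ | s
      · rfl
      · rw [sum_range_succ] at hn; omega
    subst this
    exact ⟨⊥, bot_le, by simp [F], by simp⟩
  | succ n ih =>
    intro e s P k hn hC
    rcases s with _ | s
    · exact ⟨⊥, bot_le, by simp [F], by simp⟩
    have hP0 := hC.1 0 (by omega)
    rcases e with _ | e
    · refine (G_one 0 (by omega) hP0.1 hP0.2.2.not_le).mono ?_
      rw [F, sum_range_succ']
      have : ∀ j, T (k (j+1)) (j+1) 0 = 0 := fun j => by simp [T]
      simp [this, T]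
    by_cases hks : 1 ≤ k s
    · -- all components have positive dimension
      have hk : ∀ j < s + 1, 1 ≤ k j := fun j hj => hks.trans (hC.2.2 j s (by omega) (by omega))
      obtain ⟨l, hl, -, hlP, Q, hQ⟩ := step P k (s+1) (s+1) le_rfl hC.1 hC.2.1 hk ⊤ (by
        intro W _ _ hm
        by_contra hc
        push Not at hc
        exact hm (mm_le fun i => hc _ (isHomogeneous_X K i) trivial))
      have hl0 : l ≠ 0 := by
        rintro rfl
        exact hlP 0 (by omega) (P 0).zero_mem
      have h1 := ih e (s+1) P k (by omega) hC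
      have h2 := ih (e+1) (s+1) Q (fun j => k j - 1) (by
        have : ∑ j ∈ range (s+1), (k j - 1 + 1) + 1 ≤ ∑ j ∈ range (s+1), (k j + 1) := by
          rw [sum_range_succ, sum_range_succ]
          have : ∑ j ∈ range s, (k j - 1 + 1) ≤ ∑ j ∈ range s, (k j + 1) :=
            sum_le_sum fun j _ => by omega
          omega
        omega)
        ⟨fun j hj => ⟨(hQ j hj).1, (hQ j hj).2.1, (hQ j hj).2.2.1⟩,
          fun i hi j hj hij h => (hQ j hj).2.2.2.2.2 i hi hij ((hQ i hi).2.2.2.1.trans h),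
          fun i j hij hj => Nat.sub_le_sub_right (hC.2.2 i j hij hj) 1⟩
      refine (glue le_rfl hl hl0 (fun j hj => ⟨(hC.1 j hj).1, hlP j hj⟩)
        (fun j hj => ⟨(hQ j hj).2.2.2.2.1, j, hj, (hQ j hj).2.2.2.1⟩) h1 h2).mono ?_
      rw [F, F, F, ← sum_add_distrib]
      exact sum_le_sum fun j hj => T_rec (hk j (mem_range.1 hj))
    · have hks0 : k s = 0 := by omega
      by_cases hs0 : s = 0
      · subst hs0
        refine (G_one _ (by omega) hP0.1 hP0.2.2.not_le).mono ?_
        simp [F, hks0, T]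
      have hex : ∃ a, k a = 0 := ⟨s, hks0⟩
      let a := Nat.find hex
      have has : a ≤ s := Nat.find_min' hex hks0
      have hka : ∀ j < a, 1 ≤ k j := fun j hj => by
        have := Nat.find_min hex hj
        omega
      have hka0 : ∀ j, a ≤ j → j ≤ s → k j = 0 := fun j h1 h2 => by
        have h3 := hC.2.2 a j h1 (by omega)
        have h4 : k a = 0 := Nat.find_spec hex
        omega
      have hPs := hC.1 s (by omega)
      have := hPs.1
      obtain ⟨V, v1, v2, v3, v4, v5, v6⟩ := point hPs.2.1 hPs.2.2.not_le P s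
        (fun j hj => ⟨(hC.1 j (by omega)).2.1, hC.2.1 j (by omega) s (by omega) (by omega)⟩)
      have hC' := hC.mono (Nat.le_succ s)
      obtain ⟨l, hl, hlV, hlP, Q, hQ⟩ := step P k a s has hC'.1 hC'.2.1 hka V v6
      have hl0 : l ≠ 0 := by
        rintro rfl
        exact hlP 0 (by omega) (P 0).zero_mem
      have h1 := ih e s P k (by rw [sum_range_succ] at hn; omega) hC'
      let Q' : ℕ → Ideal (MvPolynomial σ K) := fun j => if j < a then Q j else V
      let k' : ℕ → ℕ := fun j => k j - 1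
      have hQ1 : ∀ j < a, Q' j = Q j := fun j hj => if_pos hj
      have hQ2 : Q' a = V := if_neg (lt_irrefl a)
      have hk'a : k' a = 0 := by simp [k', hka0 a le_rfl has]
      have h2 := ih (e+1) (a+1) Q' k' (by
        have e1 : ∑ j ∈ range a, (k' j + 1) = ∑ j ∈ range a, k j :=
          sum_congr rfl fun j hj => by
            have := hka j (mem_range.1 hj)
            simp only [k']; omega
        have e2 : ∑ j ∈ range a, k j ≤ ∑ j ∈ range (s+1), k j :=
          sum_le_sum_of_subset (range_subset_range.2 (by omega))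
        rw [sum_add_distrib] at hn
        rw [sum_range_succ, e1, hk'a]
        simp only [sum_const, card_range, smul_eq_mul, mul_one] at hn
        omega) (by
        refine ⟨fun j hj => ?_, fun i hi j hj hij h => ?_,
          fun i j hij hj => Nat.sub_le_sub_right (hC.2.2 i j hij (by omega)) 1⟩
        · by_cases hja : j < a
          · rw [hQ1 j hja]
            exact ⟨(hQ j hja).1, (hQ j hja).2.1, (hQ j hja).2.2.1⟩
          · obtain rfl : j = a := by omega
            rw [hQ2, hk'a]
            exact ⟨v1, v2, D_one (hom_le_mm v2 v1.ne_top) v4⟩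
        · by_cases hia : i < a <;> by_cases hja : j < a
          · rw [hQ1 i hia, hQ1 j hja] at h
            exact (hQ j hja).2.2.2.2.2 i hia hij ((hQ i hia).2.2.2.1.trans h)
          · obtain rfl : j = a := by omega
            rw [hQ1 i hia, hQ2] at h
            exact v5 i (by omega) ((hQ i hia).2.2.2.1.trans h)
          · obtain rfl : i = a := by omega
            rw [hQ1 j hja, hQ2] at h
            obtain ⟨x, -, x2, x3⟩ := v6 (Q j) (hQ j hja).1 ⟨j, by omega, (hQ j hja).2.2.2.1⟩
              (hQ j hja).2.2.1.not_le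
            exact x3 (h x2)
          · omega)
      refine (glue (Nat.le_succ s) hl hl0 (fun j hj => ⟨(hC'.1 j hj).1, hlP j hj⟩)
        (fun j hj => ?_) h1 h2).mono ?_
      · by_cases hja : j < a
        · rw [hQ1 j hja]
          exact ⟨(hQ j hja).2.2.2.2.1, j, by omega, (hQ j hja).2.2.2.1⟩
        · obtain rfl : j = a := by omega
          rw [hQ2]
          exact ⟨hlV, s, by omega, v3⟩
      · obtain ⟨m, hm⟩ : ∃ m, s = a + m := ⟨s - a, by omega⟩
        have e1 : ∀ (t e' : ℕ), a ≤ t → t ≤ s + 1 → F k t e' =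
            ∑ j ∈ range a, T (k j) j e' + ∑ j ∈ Ico a t, T 0 j e' := by
          intro t e' h1 h2
          rw [F, ← sum_range_add_sum_Ico _ h1]
          congr 1
          exact sum_congr rfl fun j hj => by
            rw [hka0 j (mem_Ico.1 hj).1 (by have := (mem_Ico.1 hj).2; omega)]
        rw [e1 (s+1) _ (by omega) le_rfl, e1 s _ has (by omega), F, sum_range_succ, hk'a]
        have e2 := sum_zero_shift a m e
        rw [← hm] at e2
        have e3 : ∑ j ∈ range a, T (k j) j (e+1) ≤
            ∑ j ∈ range a, T (k j) j e + ∑ j ∈ range a, T (k' j) j (e+1) := by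
          rw [← sum_add_distrib]
          exact sum_le_sum fun j hj => T_rec (hka j (mem_range.1 hj))
        omega

end Pool.Agent.H2.Bog
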