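import Mathlib

namespace Pool.Agent.H2.Bog

open MvPolynomial

attribute [local instance] MvPolynomial.gradedAlgebra

/-- Projective `m`-space over `K` as a scheme-theoretic space: homogeneous primes of
`K[x_0,...,x_m]` not containing the irrelevant ideal, ordered by inclusion. -/
abbrev PP (m : ℕ) (K : Type) [Field K] : Type :=
  ProjectiveSpectrum (homogeneousSubmodule (Fin (m+1)) K)

/-- `x` is (the generic point of) an irreducible component over `K` of `V(F_1,...,F_r)`. -/
def IsComponent {m r : ℕ} {K : Type} [Field K] (F : Fin r → MvPolynomial (Fin (m+1)) K)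
    (x : PP m K) : Prop :=
  Minimal (fun y : PP m K => ∀ j, F j ∈ y.asHomogeneousIdeal) x

/-- The dim-type: entry `i : Fin m` is the number of irreducible components of codimension
`i+1`, i.e. of dimension `m-(i+1)`; the dimension of the component `x` is the supremum of the
lengths of chains of irreducible closed subsets of it (`Order.coheight`). -/
noncomputable def dimType {m r : ℕ} {K : Type} [Field K]
    (F : Fin r → MvPolynomial (Fin (m+1)) K) : Fin m → ℕ :=
  fun i => Set.ncard {x : PP m K | IsComponent F x ∧ Order.coheight x = ((m - (i + 1) : ℕ) : ℕ∞)}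

/-- `Λ(d,m)`: exponent vectors of the monomials of degree `d` in `m+1` variables. -/
def Lam (d m : ℕ) : Finset (Fin (m+1) → ℕ) := Finset.Nat.antidiagonalTuple (m+1) d

/-- The position of `ν` in `Λ(d,m)` listed in descending lexicographic order. -/
noncomputable def pos (d m : ℕ) (ν : Fin (m+1) → ℕ) : ℕ :=
  ((Lam d m).filter (fun μ => toLex ν ≤ toLex μ)).card

/-- The dim-types (in lexicographic order) of the members of the family `X_r`. -/
def types (K : Type) [Field K] (d m r : ℕ) : Set (Lex (Fin m → ℕ)) :=
  {a | ∃ F : Fin r → MvPolynomial (Fin (m+1)) K,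
    LinearIndependent K F ∧ (∀ j, (F j).IsHomogeneous d) ∧ a = toLex (dimType F)}

end Pool.Agent.H2.Bog
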