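import Pool.Agent.H2.Bog3
import Pool.Agent.H2.BogDefs

namespace Pool.Agent.H2.Bog

open MvPolynomial Module Finset

attribute [local instance] MvPolynomial.gradedAlgebra MvPolynomial.algebraMvPolynomial

variable {K : Type} [Field K] {m : ℕ}

lemma irr_iff {σ : Type} (f : MvPolynomial σ K) :
    f ∈ HomogeneousIdeal.irrelevant (homogeneousSubmodule σ K) ↔ f ∈ mm σ K := by
  rw [HomogeneousIdeal.mem_irrelevant_iff, GradedRing.proj_apply]
  have : ((DirectSum.decompose (homogeneousSubmodule σ K) f) 0 : MvPolynomial σ K) =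
      homogeneousComponent 0 f := decomposition.decompose'_apply f 0
  rw [this, homogeneousComponent_zero, C_eq_zero]
  rfl

noncomputable def toSpec (x : PP m K) : PrimeSpectrum (MvPolynomial (Fin (m+1)) K) :=
  ⟨x.asHomogeneousIdeal.toIdeal, x.isPrime⟩

lemma toSpec_le {x y : PP m K} : toSpec x ≤ toSpec y ↔ x ≤ y := Iff.rfl

lemma toSpec_strictMono : StrictMono (toSpec : PP m K → _) := fun _ _ h =>
  lt_of_le_not_ge (toSpec_le.2 h.le) (fun h' => h.not_ge (toSpec_le.1 h'))

lemma not_mm_le (x : PP m K) : ¬ mm (Fin (m+1)) K ≤ x.asHomogeneousIdeal.toIdeal := fun h =>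
  x.not_irrelevant_le fun f hf => h ((irr_iff f).1 hf)

lemma toSpec_lt (x : PP m K) : toSpec x < ⟨mm (Fin (m+1)) K, mm_max.isPrime⟩ :=
  lt_of_le_not_ge (hom_le_mm x.asHomogeneousIdeal.isHomogeneous x.isPrime.ne_top) (not_mm_le x)

lemma series_ext (p : LTSeries (PP m K)) :
    ∃ s : LTSeries (PrimeSpectrum (MvPolynomial (Fin (m+1)) K)), s.length = p.length + 1 ∧
      s.head = toSpec p.head ∧ s.last.asIdeal = mm _ K := by
  refine ⟨(p.map toSpec toSpec_strictMono).snoc ⟨mm _ K, mm_max.isPrime⟩ (by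
    rw [LTSeries.last_map]; exact toSpec_lt _), by simp, ?_, ?_⟩
  · rw [RelSeries.head_snoc, LTSeries.head_map]
  · rw [RelSeries.last_snoc]

lemma base_change (x : PP m K) {k : ℕ} (hx : Order.coheight x = k) :
    ∃ P : Ideal (MvPolynomial (Fin (m+1)) (AlgebraicClosure K)), P.IsPrime ∧ Hom P ∧ D P (k+1) ∧
      ∀ f, map (algebraMap K (AlgebraicClosure K)) f ∈ P ↔ f ∈ x.asHomogeneousIdeal.toIdeal := by
  obtain ⟨p, hp1, hp2⟩ := Order.exists_series_of_coheight_eq_coe x hx
  obtain ⟨s, hs1, hs2, hs3⟩ := series_ext p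
  have hinj : Function.Injective (map (σ := Fin (m+1)) (algebraMap K (AlgebraicClosure K))) :=
    map_injective _ (algebraMap K (AlgebraicClosure K)).injective
  obtain ⟨Q, -, hQ, hQc⟩ := Ideal.exists_ideal_over_prime_of_isIntegral
    (S := MvPolynomial (Fin (m+1)) (AlgebraicClosure K)) s.head.asIdeal ⊥ (by
      intro f hf
      have : f = 0 := hinj (by simpa using hf)
      simp [this])
  have : Q.LiesOver s.head.asIdeal := ⟨hQc.symm⟩
  obtain ⟨L, hL1, hL2, hL3⟩ := Ideal.exists_ltSeries_of_hasGoingUp s Q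
  have hlast : PrimeSpectrum.comap (algebraMap _ _) L.last = s.last := by
    have h1 := congrArg List.getLast? hL3
    rw [List.getLast?_map, List.getLast?_eq_some_getLast (RelSeries.toList_ne_nil L),
      List.getLast?_eq_some_getLast (RelSeries.toList_ne_nil s), RelSeries.getLast_toList,
      RelSeries.getLast_toList] at h1
    simpa using h1
  have hmem : ∀ f, map (algebraMap K (AlgebraicClosure K)) f ∈ Q ↔
      f ∈ x.asHomogeneousIdeal.toIdeal := by
    intro f
    have : s.head.asIdeal = x.asHomogeneousIdeal.toIdeal := by rw [hs2, hp1]; rfl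
    rw [← this, ← hQc]
    rfl
  have hle := Ideal.toIdeal_homogeneousCore_le (homogeneousSubmodule (Fin (m+1)) _) Q
  refine ⟨(Q.homogeneousCore (homogeneousSubmodule _ _)).toIdeal, hQ.homogeneousCore,
    HomogeneousIdeal.isHomogeneous _, ⟨L, by omega, by rw [hL2]; exact hle, ?_⟩, ?_⟩
  · refine (mm_max.eq_of_le L.last.2.ne_top (mm_le fun i => ?_)).symm
    have h1 : (X i : MvPolynomial (Fin (m+1)) K) ∈ s.last.asIdeal := hs3 ▸ X_mem_mm i
    rw [← hlast] at h1
    simpa using h1
  · intro f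
    refine ⟨fun h => (hmem f).1 (hle h), fun h => ?_⟩
    rw [← sum_homogeneousComponent f, map_sum]
    refine Ideal.sum_mem _ fun n _ => ?_
    refine Ideal.mem_homogeneousCore_of_homogeneous_of_mem
      ⟨n, (homogeneousComponent_isHomogeneous n f).map _⟩ ((hmem _).2 ?_)
    exact homogeneousComponent_mem_of_mem x.asHomogeneousIdeal.isHomogeneous h n

lemma linInd_map {L : Type} [Field L] [Algebra K L] {σ : Type} {r : ℕ}
    {F : Fin r → MvPolynomial σ K} (h : LinearIndependent K F) :
    LinearIndependent L (fun j => map (algebraMap K L) (F j)) := by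
  rw [Fintype.linearIndependent_iff] at h ⊢
  intro g hg j
  rw [← Module.forall_dual_apply_eq_zero_iff K]
  intro φ
  refine h (fun j => φ (g j)) ?_ j
  ext μ
  have h1 := congrArg (fun p => φ (coeff μ p)) hg
  simp only [coeff_sum, coeff_smul, coeff_map, smul_eq_mul, coeff_zero, map_zero, map_sum] at h1 ⊢
  rw [← h1]
  refine sum_congr rfl fun j _ => ?_
  rw [mul_comm (g j), ← Algebra.smul_def, map_smul, smul_eq_mul, mul_comm]

lemma finrank_hom_le (d : ℕ) :
    finrank K (homogeneousSubmodule (Fin (m+1)) K d) ≤ (Lam d m).card := by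
  classical
  let b : Lam d m → MvPolynomial (Fin (m+1)) K :=
    fun μ => monomial (Finsupp.equivFunOnFinite.symm μ.1) 1
  have h1 : homogeneousSubmodule (Fin (m+1)) K d ≤ Submodule.span K (Set.range b) := by
    intro f hf
    rw [f.as_sum]
    refine Submodule.sum_mem _ fun μ hμ => ?_
    have hdeg : ∑ i, μ i = d := by
      have := hf (mem_support_iff.1 hμ)
      rw [← this]
      simp [Finsupp.weight_apply, Finsupp.sum_fintype]
    have : monomial μ (coeff μ f) = coeff μ f • b ⟨μ, Finset.Nat.mem_antidiagonalTuple.2 hdeg⟩ := by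
      simp [b, smul_monomial]
    rw [this]
    exact Submodule.smul_mem _ _ (Submodule.subset_span ⟨_, rfl⟩)
  have := Module.Finite.span_of_finite K (Set.finite_range b)
  refine (Submodule.finrank_mono h1).trans ?_
  simpa [Set.finrank] using finrank_range_le_card (R := K) b

theorem bound {r d s : ℕ} {F : Fin r → MvPolynomial (Fin (m+1)) K} (hF : LinearIndependent K F)
    (hd : ∀ j, (F j).IsHomogeneous d) (x : ℕ → PP m K) (k : ℕ → ℕ)
    (hx : ∀ j < s, IsComponent F (x j) ∧ Order.coheight (x j) = k j)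
    (hinj : ∀ i < s, ∀ j < s, i ≠ j → x i ≠ x j) (hk : ∀ i j, i ≤ j → j < s → k j ≤ k i) :
    r + Bog.F k s d ≤ (Lam d m).card := by
  have h1 : ∀ j, ∃ P : Ideal (MvPolynomial (Fin (m+1)) (AlgebraicClosure K)), j < s →
      P.IsPrime ∧ Hom P ∧ D P (k j + 1) ∧ ∀ f, map (algebraMap K (AlgebraicClosure K)) f ∈ P ↔
        f ∈ (x j).asHomogeneousIdeal.toIdeal := by
    intro j
    by_cases hj : j < s
    · obtain ⟨P, hP⟩ := base_change (x j) (hx j hj).2
      exact ⟨P, fun _ => hP⟩
    · exact ⟨⊥, fun h => absurd h hj⟩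
  choose P hP using h1
  have hC : Conf P k s := by
    refine ⟨fun j hj => ⟨(hP j hj).1, (hP j hj).2.1, (hP j hj).2.2.1⟩, ?_, hk⟩
    intro i hi j hj hij h
    have h2 : x i ≤ x j := fun f hf =>
      ((hP j hj).2.2.2 f).1 (h (((hP i hi).2.2.2 f).2 hf))
    exact hinj i hi j hj hij (le_antisymm h2 ((hx j hj).1.2 (hx i hi).1.1 h2))
  obtain ⟨U, hU1, hU2, hU3⟩ := main _ d s P k le_rfl hC
  have hF' := linInd_map (L := AlgebraicClosure K) hF
  let W := Submodule.span (AlgebraicClosure K)
    (Set.range fun j => map (algebraMap K (AlgebraicClosure K)) (F j))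
  have hW1 : W ≤ homogeneousSubmodule _ _ d := by
    rw [Submodule.span_le]
    rintro _ ⟨j, rfl⟩
    exact (hd j).map _
  have hW2 : finrank (AlgebraicClosure K) W = r := by simpa using finrank_span_eq_card hF'
  have hdis : W ⊓ U = ⊥ := by
    rw [eq_bot_iff]
    rintro u ⟨hu1, hu2⟩
    refine hU3 u hu2 fun j hj => ?_
    have : W ≤ (P j).restrictScalars _ := by
      rw [Submodule.span_le]
      rintro _ ⟨i, rfl⟩
      exact ((hP j hj).2.2.2 _).2 ((hx j hj).1.1 i)
    exact this hu1
  have := fin_of_le hW1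
  have := fin_of_le hU1
  have := fin_of_le (le_refl (homogeneousSubmodule (Fin (m+1)) (AlgebraicClosure K) d))
  have h3 := Submodule.finrank_sup_add_finrank_inf_eq W U
  have h4 := Submodule.finrank_mono (sup_le hW1 hU1)
  have h5 := finrank_hom_le (K := AlgebraicClosure K) (m := m) d
  rw [hdis, finrank_bot] at h3
  omega

end Pool.Agent.H2.Bog
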