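import Pool.Agent.H2.Bog4

namespace Pool.Agent.H2.Bog

open MvPolynomial Module Finset

attribute [local instance] MvPolynomial.gradedAlgebra

lemma enum {α : Type} [Nonempty α] (dim : α → ℕ∞) (S : α → Prop) (m : ℕ) (a : ℕ → ℕ) (p : ℕ)
    (hp : p ≤ m) (h : ∀ i < p, a i ≤ Set.ncard {x | S x ∧ dim x = ((m - (i+1) : ℕ) : ℕ∞)}) :
    ∃ (x : ℕ → α) (k : ℕ → ℕ),
      (∀ j < ∑ i ∈ range p, a i, S (x j) ∧ dim (x j) = k j ∧ m - p ≤ k j) ∧
      (∀ i < ∑ i ∈ range p, a i, ∀ j < ∑ i ∈ range p, a i, i ≠ j → x i ≠ x j) ∧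
      (∀ i j, i ≤ j → j < ∑ i ∈ range p, a i → k j ≤ k i) ∧
      ∀ e, F k (∑ i ∈ range p, a i) e =
        ∑ i ∈ range p, ∑ t ∈ range (a i), T (m - (i+1)) (∑ j ∈ range i, a j + t) e := by
  classical
  induction p with
  | zero => exact ⟨fun _ => Classical.arbitrary α, fun _ => 0, by simp, by simp, by simp,
      by simp [F]⟩
  | succ p ih =>
    obtain ⟨x, k, h1, h2, h3, h4⟩ := ih (by omega) (fun i hi => h i (by omega))
    obtain ⟨y, hy1, hy2⟩ : ∃ y : ℕ → α,
        (∀ t < a p, S (y t) ∧ dim (y t) = ((m - (p+1) : ℕ) : ℕ∞)) ∧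
        ∀ t < a p, ∀ t' < a p, y t = y t' → t = t' := by
      obtain ⟨B, hB1, hB2⟩ := Set.exists_subset_card_eq (h p (by omega))
      by_cases h0 : a p = 0
      · exact ⟨fun _ => Classical.arbitrary α, by simp [h0], by simp [h0]⟩
      have hfin : B.Finite := Set.finite_of_ncard_ne_zero (by omega)
      have hc : hfin.toFinset.card = a p := by rw [← hB2, Set.ncard_eq_toFinset_card B hfin]
      let e := (hfin.toFinset.equivFinOfCardEq hc).symm
      refine ⟨fun t => if ht : t < a p then (e ⟨t, ht⟩).1 else Classical.arbitrary α, ?_, ?_⟩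
      · intro t ht
        simp only [dif_pos ht]
        exact hB1 (hfin.mem_toFinset.1 (e ⟨t, ht⟩).2)
      · intro t ht t' ht' he
        simp only [dif_pos ht, dif_pos ht'] at he
        simpa using e.injective (Subtype.ext he)
    set s := ∑ i ∈ range p, a i with hs
    rw [sum_range_succ, ← hs]
    refine ⟨fun j => if j < s then x j else y (j - s), fun j => if j < s then k j else m - (p+1),
      ?_, ?_, ?_, ?_⟩
    · intro j hj
      by_cases hjs : j < s
      · simp only [if_pos hjs]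
        obtain ⟨b1, b2, b3⟩ := h1 j hjs
        exact ⟨b1, b2, by omega⟩
      · simp only [if_neg hjs]
        exact ⟨(hy1 _ (by omega)).1, (hy1 _ (by omega)).2, le_rfl⟩
    · have key : ∀ i < s, ∀ t < a p, x i ≠ y t := by
        intro i hi t ht he
        obtain ⟨-, b2, b3⟩ := h1 i hi
        have := (hy1 t ht).2
        rw [← he, b2] at this
        have : k i = m - (p+1) := by exact_mod_cast this
        omega
      intro i hi j hj hij
      by_cases his : i < s <;> by_cases hjs : j < s <;> simp only [his, hjs, if_true, if_false]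
      · exact h2 i his j hjs hij
      · exact key i his _ (by omega)
      · exact (key j hjs _ (by omega)).symm
      · intro he
        have := hy2 _ (by omega) _ (by omega) he
        omega
    · intro i j hij hj
      by_cases his : i < s <;> by_cases hjs : j < s <;> simp only [his, hjs, if_true, if_false]
      · exact h3 i j hij hjs
      · have := (h1 i his).2.2
        omega
      · omega
      · exact le_rfl
    · intro e
      rw [sum_range_succ, ← h4 e, F, F, sum_range_add, ← hs]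
      congr 1
      · exact sum_congr rfl fun j hj => by rw [if_pos (mem_range.1 hj)]
      · exact sum_congr rfl fun j _ => by rw [if_neg (by omega)]

/-- extension by zero -/
def ext {m : ℕ} (μ : Fin (m+1) → ℕ) (j : ℕ) : ℕ := if h : j < m + 1 then μ ⟨j, h⟩ else 0

lemma ext_val {m : ℕ} (μ : Fin (m+1) → ℕ) (j : Fin (m+1)) : ext μ j = μ j := by
  simp [ext, j.2]

lemma sum_ext {m d : ℕ} {μ : Fin (m+1) → ℕ} (h : μ ∈ Lam d m) :
    ∑ j ∈ range (m+1), ext μ j = d := by
  rw [sum_range, ← Finset.Nat.mem_antidiagonalTuple.1 h]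
  exact sum_congr rfl fun j _ => ext_val μ j

def Cl (d m : ℕ) (a : ℕ → ℕ) (i t : ℕ) : Finset (Fin (m+1) → ℕ) :=
  (Lam d m).filter (fun μ => (∀ j < i, ext μ j = a j) ∧ ext μ i = t)

lemma card_Cl (d m : ℕ) (a : ℕ → ℕ) (i t : ℕ) (hi : i < m) :
    (Cl d m a i t).card ≤ T (m - (i+1)) (∑ j ∈ range i, a j + t) d := by
  classical
  have hsum : ∀ μ ∈ Cl d m a i t,
      ∑ j ∈ range i, a j + t + ∑ j ∈ Ico (i+1) (m+1), ext μ j = d := by
    intro μ hμ
    obtain ⟨h1, h2, h3⟩ := mem_filter.1 hμ
    rw [← sum_ext h1, ← sum_range_add_sum_Ico _ (show i + 1 ≤ m + 1 by omega), sum_range_succ, h3]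
    congr 2
    exact sum_congr rfl fun j hj => (h2 j (mem_range.1 hj)).symm
  unfold T
  split_ifs with h
  · set n := d - (∑ j ∈ range i, a j + t) with hn
    have hc := card_finsuppAntidiag_nat_eq_choose (s := Ico (i+1) (m+1)) n
    rw [Nat.card_Ico, show m + 1 - (i + 1) + n - 1 = m - (i+1) + n by omega,
      ← Nat.choose_symm_add] at hc
    rw [← hc]
    refine card_le_card_of_injOn
      (fun μ => Finsupp.indicator (Ico (i+1) (m+1)) (fun j _ => ext μ j)) ?_ ?_
    · intro μ hμ
      rw [mem_coe, mem_finsuppAntidiag]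
      refine ⟨?_, Finsupp.support_indicator_subset _ _⟩
      have := hsum μ hμ
      rw [sum_congr rfl (g := fun j => ext μ j) fun j hj => Finsupp.indicator_of_mem hj _]
      omega
    · intro μ hμ μ' hμ' he
      obtain ⟨-, h2, h3⟩ := mem_filter.1 hμ
      obtain ⟨-, h2', h3'⟩ := mem_filter.1 hμ'
      funext j
      rw [← ext_val μ, ← ext_val μ']
      rcases lt_trichotomy j.val i with hj | hj | hj
      · rw [h2 j hj, h2' j hj]
      · rw [hj, h3, h3']
      · have hm : j.val ∈ Ico (i+1) (m+1) := mem_Ico.2 ⟨hj, j.2⟩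
        have := DFunLike.congr_fun he j.val
        simpa only [Finsupp.indicator_of_mem hm] using this
  · rw [Nat.le_zero, card_eq_zero, eq_empty_iff_forall_notMem]
    intro μ hμ
    have := hsum μ hμ
    omega

lemma cover (d m : ℕ) (ν : Fin (m+1) → ℕ) (i0 : ℕ) (hi : i0 < m) (a : ℕ → ℕ)
    (ha : ∀ j < i0, a j = ext ν j) (ha0 : a i0 = ext ν i0 + 1) :
    ((Lam d m).filter (fun μ => toLex μ ≤ toLex ν)).card ≤
      ∑ i ∈ range (i0+1), ∑ t ∈ range (a i), T (m - (i+1)) (∑ j ∈ range i, a j + t) d := by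
  classical
  have h1 : (Lam d m).filter (fun μ => toLex μ ≤ toLex ν) ⊆
      (range (i0+1)).biUnion fun i => (range (a i)).biUnion fun t => Cl d m a i t := by
    intro μ hμ
    obtain ⟨h1, h2⟩ := mem_filter.1 hμ
    have hex : ∃ i, i = i0 ∨ ext μ i ≠ ext ν i := ⟨i0, Or.inl rfl⟩
    let i := Nat.find hex
    have hii : i ≤ i0 := Nat.find_min' hex (Or.inl rfl)
    have hlt : ∀ j < i, ext μ j = ext ν j := fun j hj => by
      have := Nat.find_min hex hj
      tauto
    have hle : ext μ i ≤ ext ν i := by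
      have := Pi.apply_le_of_toLex (i := (⟨i, by omega⟩ : Fin (m+1))) h2 (fun j hj => by
        rw [← ext_val μ, ← ext_val ν]; exact hlt j hj)
      rwa [← ext_val μ, ← ext_val ν] at this
    simp only [mem_biUnion, mem_range]
    refine ⟨i, by omega, ext μ i, ?_, mem_filter.2 ⟨h1, fun j hj => ?_, rfl⟩⟩
    · by_cases h : i = i0
      · rw [h] at hle ⊢; omega
      · have : ext μ i ≠ ext ν i := (Nat.find_spec hex).resolve_left h
        rw [ha i (by omega)]; omega
    · rw [hlt j hj, ha j (by omega)]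
  refine (card_le_card h1).trans (card_biUnion_le.trans (sum_le_sum fun i hi => ?_))
  refine card_biUnion_le.trans (sum_le_sum fun t _ => card_Cl d m a i t ?_)
  have := mem_range.1 hi
  omega

theorem upper {K : Type} [Field K] {d m : ℕ} {ν : Fin (m+1) → ℕ} (hν : ν ∈ Lam d m)
    {F : Fin (pos d m ν) → MvPolynomial (Fin (m+1)) K} (hF : LinearIndependent K F)
    (hd : ∀ j, (F j).IsHomogeneous d) :
    toLex (dimType F) ≤ toLex (fun i : Fin m => ν i.castSucc) := by
  classical
  by_contra hc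
  obtain ⟨i0, h1, h2⟩ : ∃ i0 : Fin m, (∀ j < i0, ν j.castSucc = dimType F j) ∧
    ν i0.castSucc < dimType F i0 := lt_of_not_ge hc
  let a : ℕ → ℕ := fun j => if j = i0.val then ext ν j + 1 else ext ν j
  have ha : ∀ j < i0.val, a j = ext ν j := fun j hj => if_neg (by omega)
  have ha0 : a i0 = ext ν i0 + 1 := if_pos rfl
  have e0 : ext ν i0 = ν i0.castSucc := ext_val ν i0.castSucc
  have : Nonempty (PP m K) := by
    obtain ⟨x, -⟩ := Set.nonempty_of_ncard_ne_zero (show dimType F i0 ≠ 0 by omega)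
    exact ⟨x⟩
  obtain ⟨x, k, b1, b2, b3, b4⟩ := enum Order.coheight (IsComponent F) m a (i0.val + 1) i0.2 (by
    intro i hi
    by_cases h : i = i0.val
    · subst h
      rw [ha0, e0]
      exact h2
    · have hi' : i < i0.val := by omega
      rw [ha i hi']
      have := h1 ⟨i, by omega⟩ hi'
      exact le_of_eq ((ext_val ν (Fin.castSucc ⟨i, by omega⟩)).trans this))
  have h3 := bound hF hd x k (fun j hj => ⟨(b1 j hj).1, (b1 j hj).2.1⟩) b2 b3
  have h4 := cover d m ν i0 i0.2 a ha ha0
  rw [← b4] at h4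
  have h5 : (Lam d m).card + 1 ≤ pos d m ν +
      ((Lam d m).filter (fun μ => toLex μ ≤ toLex ν)).card := by
    rw [pos, ← card_union_add_card_inter]
    refine add_le_add (card_le_card fun μ hμ => ?_) (card_pos.2 ⟨ν, by simp [hν]⟩)
    simp only [mem_union, mem_filter, hμ, true_and]
    exact le_total _ _
  omega

end Pool.Agent.H2.Bog
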