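import Pool.Agent.H2.Bog5

namespace Pool.Agent.H2.Bog

open MvPolynomial Module Finset

attribute [local instance] MvPolynomial.gradedAlgebra

variable {K : Type} [Field K] {m : ℕ}

noncomputable def lin (j : Fin (m+1)) (β : K) : MvPolynomial (Fin (m+1)) K :=
  X j - C β * X (Fin.last m)

lemma lin_hom' (j : Fin (m+1)) (β : K) : (lin j β).IsHomogeneous 1 :=
  (isHomogeneous_X K j).sub ((isHomogeneous_X K _).C_mul _)

noncomputable def LI (c : ℕ → K) (i : ℕ) : Ideal (MvPolynomial (Fin (m+1)) K) :=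
  Ideal.span {f | ∃ j : Fin (m+1), j.val < i ∧ f = lin j (c j)}

noncomputable def phi (c : ℕ → K) (i : ℕ) :
    MvPolynomial (Fin (m+1)) K →ₐ[K] MvPolynomial (Fin (m+1)) K :=
  aeval (fun j => if j.val < i then C (c j) * X (Fin.last m) else X j)

lemma phi_X (c : ℕ → K) (i : ℕ) (j : Fin (m+1)) :
    phi c i (X j) = if j.val < i then C (c j) * X (Fin.last m) else X j := by simp [phi]

lemma phi_last (c : ℕ → K) {i : ℕ} (hi : i ≤ m) : phi c i (X (Fin.last m)) = X (Fin.last m) := by
  rw [phi_X, if_neg (by simp; omega)]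

lemma phi_lin (c : ℕ → K) {i : ℕ} (hi : i ≤ m) (j : Fin (m+1)) (β : K) :
    phi c i (lin j β) = if j.val < i then C (c j - β) * X (Fin.last m) else lin j β := by
  rw [lin, map_sub, map_mul, phi_last c hi, phi_X]
  split_ifs
  · simp [sub_mul]
  · simp

lemma lin_mem (c : ℕ → K) {i : ℕ} {j : Fin (m+1)} (hj : j.val < i) : lin j (c j) ∈ LI c i :=
  Ideal.subset_span ⟨j, hj, rfl⟩

lemma LI_eq (c : ℕ → K) {i : ℕ} (hi : i ≤ m) : LI (m := m) c i = RingHom.ker (phi c i) := by
  apply le_antisymm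
  · rw [LI, Ideal.span_le]
    rintro _ ⟨j, hj, rfl⟩
    simp [RingHom.mem_ker, phi_lin c hi, hj]
  · have key : ∀ f : MvPolynomial (Fin (m+1)) K, f - phi c i f ∈ LI c i := by
      intro f
      induction f using MvPolynomial.induction_on with
      | C b => simp [phi]
      | add p q hp hq =>
        have := (LI c i).add_mem hp hq
        rw [map_add]
        convert this using 1
        ring
      | mul_X p j hp =>
        have h0 : X j - phi c i (X j) ∈ LI c i := by
          rw [phi_X]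
          split_ifs with h
          · exact lin_mem c h
          · simp
        have h1 := (LI c i).add_mem ((LI c i).mul_mem_right (X j) hp)
          ((LI c i).mul_mem_left (phi c i p) h0)
        rw [map_mul]
        convert h1 using 1
        ring
    intro f hf
    have := key f
    rw [show phi c i f = 0 from hf] at this
    simpa using this

lemma lin_ne {j : Fin (m+1)} (hj : j.val < m) (β : K) : lin j β ≠ 0 := by
  intro h
  have := congrArg (eval (fun i => if i = j then (1:K) else 0)) h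
  have hne : Fin.last m ≠ j := by
    intro h'
    rw [← h'] at hj
    simp at hj
  simp [lin, hne] at this

lemma lin_mem_iff (c : ℕ → K) {i : ℕ} (hi : i ≤ m) {j : Fin (m+1)} (hj : j.val < m) (β : K) :
    lin j β ∈ LI c i ↔ j.val < i ∧ β = c j := by
  rw [LI_eq c hi, RingHom.mem_ker, phi_lin c hi]
  split_ifs with h
  · simp only [mul_eq_zero, C_eq_zero, X_ne_zero, or_false, h, true_and, sub_eq_zero]
    exact eq_comm
  · simp [h, lin_ne hj]

noncomputable def pt (c : ℕ → K) (i : ℕ) (hi : i ≤ m) : PP m K where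
  asHomogeneousIdeal := ⟨LI c i, Ideal.homogeneous_span _ _ (by
    rintro _ ⟨j, -, rfl⟩
    exact ⟨1, lin_hom' _ _⟩)⟩
  isPrime := by
    show (LI c i).IsPrime
    rw [LI_eq c hi]
    exact RingHom.ker_isPrime _
  not_irrelevant_le := by
    intro h
    have : (X (Fin.last m) : MvPolynomial (Fin (m+1)) K) ∈ LI c i :=
      h ((irr_iff _).2 (X_mem_mm _))
    rw [LI_eq c hi, RingHom.mem_ker, phi_last c hi] at this
    exact X_ne_zero _ this

lemma mem_pt (c : ℕ → K) (i : ℕ) (hi : i ≤ m) (f : MvPolynomial (Fin (m+1)) K) :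
    f ∈ (pt c i hi).asHomogeneousIdeal ↔ f ∈ LI c i := Iff.rfl

lemma pt_le {c : ℕ → K} {i : ℕ} {hi : i ≤ m} {y : PP m K}
    (h : ∀ j : Fin (m+1), j.val < i → lin j (c j) ∈ y.asHomogeneousIdeal) : pt c i hi ≤ y := by
  show LI c i ≤ y.asHomogeneousIdeal.toIdeal
  rw [LI, Ideal.span_le]
  rintro _ ⟨j, hj, rfl⟩
  exact h j hj

lemma pt_lt (c : ℕ → K) (i : ℕ) (hi : i + 1 ≤ m) : pt c i (by omega) < pt c (i+1) hi := by
  refine lt_of_le_not_ge (pt_le fun j hj => lin_mem c (by omega)) fun h => ?_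
  have h1 : lin (⟨i, by omega⟩ : Fin (m+1)) (c i) ∈ LI c i :=
    h (lin_mem c (j := ⟨i, by omega⟩) (Nat.lt_succ_self i))
  rw [lin_mem_iff c (by omega) (by simp; omega)] at h1
  simp at h1

lemma coheight_pt (c : ℕ → K) (i : ℕ) (hi : i ≤ m) :
    Order.coheight (pt c i hi) = ((m - i : ℕ) : ℕ∞) := by
  apply le_antisymm
  · have h1 : ∀ j (hj : j ≤ m), (j : ℕ∞) ≤ Order.height (toSpec (pt c j hj)) := by
      intro j
      induction j with
      | zero => simp
      | succ j ih =>
        intro hj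
        have := Order.height_add_one_le (toSpec_strictMono (pt_lt c j hj))
        push_cast
        exact (add_le_add (ih (by omega)) le_rfl).trans this
    refine Order.coheight_le fun p hp => ?_
    obtain ⟨s, hs1, hs2, -⟩ := series_ext p
    have h2 : ((s.length : ℕ) : ℕ∞) ≤ Order.coheight (toSpec (pt c i hi)) :=
      Order.length_le_coheight (by rw [hs2, hp])
    have h3 : ringKrullDim (MvPolynomial (Fin (m+1)) K) = (m + 1 : ℕ) := by
      rw [MvPolynomial.ringKrullDim_of_isNoetherianRing, ringKrullDim_eq_zero_of_field]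
      simp
    have : Nonempty (PrimeSpectrum (MvPolynomial (Fin (m+1)) K)) := ⟨toSpec (pt c i hi)⟩
    rw [ringKrullDim, Order.krullDim_eq_iSup_height_add_coheight_of_nonempty] at h3
    have h4 : (⨆ a : PrimeSpectrum (MvPolynomial (Fin (m+1)) K),
      Order.height a + Order.coheight a) = ((m + 1 : ℕ) : ℕ∞) := by exact_mod_cast h3
    have h5 := le_iSup (fun a : PrimeSpectrum (MvPolynomial (Fin (m+1)) K) =>
      Order.height a + Order.coheight a) (toSpec (pt c i hi))
    rw [h4] at h5
    have h6 := (add_le_add (h1 i hi) h2).trans h5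
    have h7 : i + s.length ≤ m + 1 := by exact_mod_cast h6
    exact_mod_cast (show p.length ≤ m - i by omega)
  · have h1 : ∀ n j (hj : j ≤ m), j + n = m → (n : ℕ∞) ≤ Order.coheight (pt c j hj) := by
      intro n
      induction n with
      | zero => simp
      | succ n ih =>
        intro j hj h
        have := Order.coheight_add_one_le (pt_lt (m := m) c j (by omega))
        push_cast
        exact (add_le_add (ih (j+1) (by omega) (by omega)) le_rfl).trans this
    exact h1 _ i hi (by omega)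

noncomputable def FF (b : ℕ → K) (μ : Fin (m+1) → ℕ) : MvPolynomial (Fin (m+1)) K :=
  X (Fin.last m) ^ μ (Fin.last m) * ∏ i : Fin m, ∏ t ∈ range (μ i.castSucc), lin i.castSucc (b t)

lemma sum_Lam {d : ℕ} {μ : Fin (m+1) → ℕ} (h : μ ∈ Lam d m) :
    ∑ i : Fin m, μ i.castSucc + μ (Fin.last m) = d := by
  rw [← Fin.sum_univ_castSucc]
  exact Finset.Nat.mem_antidiagonalTuple.1 h

lemma le_of_Lam {d : ℕ} {μ : Fin (m+1) → ℕ} (h : μ ∈ Lam d m) (j : Fin (m+1)) : μ j ≤ d := by
  rw [← Finset.Nat.mem_antidiagonalTuple.1 h]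
  exact single_le_sum (fun _ _ => Nat.zero_le _) (mem_univ j)

lemma FF_hom (b : ℕ → K) {d : ℕ} {μ : Fin (m+1) → ℕ} (h : μ ∈ Lam d m) :
    (FF b μ).IsHomogeneous d := by
  rw [← sum_Lam h, add_comm (∑ i : Fin m, μ i.castSucc)]
  refine (isHomogeneous_X_pow _ _).mul (IsHomogeneous.prod _ _ _ fun i _ => ?_)
  have := IsHomogeneous.prod (range (μ i.castSucc)) (fun t => lin i.castSucc (b t)) (fun _ => 1)
    (fun t _ => lin_hom' _ _)
  simpa using this

lemma FF_mem {b : ℕ → K} {μ : Fin (m+1) → ℕ} {P : Ideal (MvPolynomial (Fin (m+1)) K)}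
    {i : Fin m} {t : ℕ} (ht : t < μ i.castSucc) (h : lin i.castSucc (b t) ∈ P) : FF b μ ∈ P := by
  refine P.mul_mem_left _ (Ideal.mem_of_dvd P ?_ h)
  exact (dvd_prod_of_mem (fun t => lin i.castSucc (b t)) (mem_range.2 ht)).trans
    (dvd_prod_of_mem (fun i : Fin m => ∏ t ∈ range (μ i.castSucc), lin i.castSucc (b t))
      (mem_univ i))

lemma of_FF_mem {b : ℕ → K} {μ : Fin (m+1) → ℕ} {P : Ideal (MvPolynomial (Fin (m+1)) K)}
    [hP : P.IsPrime] (h : FF b μ ∈ P) : (X (Fin.last m) ∈ P ∧ μ (Fin.last m) ≠ 0) ∨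
      ∃ i : Fin m, ∃ t < μ i.castSucc, lin i.castSucc (b t) ∈ P := by
  rcases hP.mem_or_mem h with h | h
  · left
    refine ⟨hP.mem_of_pow_mem _ h, fun h0 => ?_⟩
    rw [h0, pow_zero] at h
    exact hP.ne_top ((Ideal.eq_top_iff_one P).2 h)
  · right
    obtain ⟨i, -, hi⟩ := Ideal.IsPrime.prod_mem_iff.1 h
    obtain ⟨t, ht, h2⟩ := Ideal.IsPrime.prod_mem_iff.1 hi
    exact ⟨i, t, mem_range.1 ht, h2⟩

lemma FF_indep {b : ℕ → K} {d : ℕ} (hb : ∀ s ≤ d, ∀ t ≤ d, b s = b t → s = t) {ι : Type}
    [Fintype ι] (e : ι → Fin (m+1) → ℕ) (he : Function.Injective e) (hL : ∀ j, e j ∈ Lam d m) :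
    LinearIndependent K (fun j => FF b (e j)) := by
  classical
  rw [Fintype.linearIndependent_iff]
  intro g hg
  by_contra hc
  push Not at hc
  obtain ⟨j0, hj0, hmax⟩ := exists_max_image (univ.filter fun j => g j ≠ 0)
    (fun j => e j (Fin.last m)) (by
      obtain ⟨j, hj⟩ := hc
      exact ⟨j, by simpa using hj⟩)
  let v : Fin (m+1) → K := fun i => if i = Fin.last m then 1 else b (e j0 i)
  have hv : ∀ μ, eval v (FF b μ) =
      ∏ i : Fin m, ∏ t ∈ range (μ i.castSucc), (b (e j0 i.castSucc) - b t) := by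
    intro μ
    simp [FF, lin, v, (Fin.castSucc_lt_last _).ne]
  have h1 := congrArg (eval v) hg
  rw [map_sum, map_zero, sum_eq_single j0] at h1
  · rw [smul_eval, hv] at h1
    rcases mul_eq_zero.1 h1 with h | h
    · exact (mem_filter.1 hj0).2 h
    · obtain ⟨i, -, h⟩ := prod_eq_zero_iff.1 h
      obtain ⟨t, ht, h⟩ := prod_eq_zero_iff.1 h
      have h2 := le_of_Lam (hL j0) i.castSucc
      have h3 := mem_range.1 ht
      have := hb _ h2 t (by omega) (sub_eq_zero.1 h)
      omega
  · intro j _ hj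
    rw [smul_eval, hv]
    by_contra hne
    have hg0 : g j ≠ 0 := left_ne_zero_of_mul hne
    have h2 : ∀ i : Fin m, e j i.castSucc ≤ e j0 i.castSucc := by
      intro i
      by_contra h
      exact right_ne_zero_of_mul hne (prod_eq_zero (mem_univ i)
        (prod_eq_zero (mem_range.2 (not_le.1 h)) (sub_self _)))
    have h3 := hmax j (by simpa using hg0)
    have h4 := sum_Lam (hL j)
    have h5 := sum_Lam (hL j0)
    have h6 := sum_le_sum fun i (_ : i ∈ univ) => h2 i
    have h7 := (sum_eq_sum_iff_of_le fun i (_ : i ∈ univ) => h2 i).1 (by omega)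
    apply hj
    apply he
    funext i
    induction i using Fin.lastCases with
    | last => omega
    | cast i => exact h7 i (mem_univ i)
  · simp

end Pool.Agent.H2.Bog
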