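import Pool.Agent.H2.Bog6

namespace Pool.Agent.H2.Bog

open MvPolynomial Module Finset

attribute [local instance] MvPolynomial.gradedAlgebra

variable {K : Type} [Field K] {m : ℕ}

def cc (b : ℕ → K) (ν : Fin (m+1) → ℕ) (i t : ℕ) : ℕ → K :=
  fun j => if j = i then b t else b (ext ν j)

noncomputable def comp (b : ℕ → K) (ν : Fin (m+1) → ℕ) (i : Fin m) (t : ℕ) : PP m K :=
  pt (cc b ν i t) (i + 1) i.2

lemma lex_cases {μ ν : Fin (m+1) → ℕ} (h : toLex ν ≤ toLex μ) (i : Fin (m+1)) :
    ν i ≤ μ i ∨ ∃ j < i, ν j < μ j := by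
  rcases h.eq_or_lt with h | ⟨j, h1, h2⟩
  · left
    exact le_of_eq (congrFun h i)
  · rcases lt_trichotomy j i with hj | hj | hj
    · exact Or.inr ⟨j, hj, h2⟩
    · exact Or.inl (hj ▸ le_of_lt h2)
    · exact Or.inl (le_of_eq (h1 i hj))

lemma FF_mem_comp (b : ℕ → K) {ν μ : Fin (m+1) → ℕ} (h : toLex ν ≤ toLex μ) (i : Fin m) {t : ℕ}
    (ht : t < ν i.castSucc) : FF b μ ∈ (comp b ν i t).asHomogeneousIdeal := by
  show FF b μ ∈ LI (cc b ν i t) (i+1)
  rcases lex_cases h i.castSucc with h1 | ⟨j, hj, h1⟩
  · refine FF_mem (i := i) (t := t) (by omega) ?_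
    have := lin_mem (cc b ν i t) (i := i + 1) (j := i.castSucc) (by simp)
    simpa [cc] using this
  · have hj' : j.val < i.val := hj
    obtain ⟨j, rfl⟩ : ∃ j' : Fin m, j = j'.castSucc := ⟨⟨j.val, by omega⟩, rfl⟩
    refine FF_mem (i := j) (t := ν j.castSucc) h1 ?_
    have := lin_mem (cc b ν i t) (i := i + 1) (j := j.castSucc) (by omega)
    rwa [cc, if_neg (by omega), ext_val] at this

lemma comp_le {b : ℕ → K} {d : ℕ} (hb : ∀ s ≤ d, ∀ t ≤ d, b s = b t → s = t)
    {ν : Fin (m+1) → ℕ} (hν : ν ∈ Lam d m) {i i' : Fin m} {t t' : ℕ} (ht : t < ν i.castSucc)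
    (ht' : t' < ν i'.castSucc) (h : comp b ν i t ≤ comp b ν i' t') : i = i' ∧ t = t' := by
  have h1 : lin i.castSucc (cc b ν i t i) ∈ LI (cc b ν i' t') (i' + 1) :=
    h (lin_mem (cc b ν i t) (i := i + 1) (j := i.castSucc) (by simp))
  rw [lin_mem_iff _ i'.2 (by simp)] at h1
  obtain ⟨h2, h3⟩ := h1
  have e1 := le_of_Lam hν i.castSucc
  have e2 := le_of_Lam hν i'.castSucc
  by_cases hii : i = i'
  · subst hii
    simp only [cc, Fin.val_castSucc, if_true] at h3
    exact ⟨rfl, hb _ (by omega) _ (by omega) h3⟩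
  · exfalso
    have hne : i.val ≠ i'.val := fun h => hii (Fin.ext h)
    have e3 : ext ν i = ν i.castSucc := ext_val ν i.castSucc
    simp only [cc, Fin.val_castSucc, if_true, if_neg hne, e3] at h3
    have := hb _ (by omega) _ e1 h3
    omega

lemma comp_le_of {b : ℕ → K} {ν : Fin (m+1) → ℕ} {y : PP m K} {i : Fin m} {t : ℕ}
    (h1 : ∀ j : Fin m, j < i → lin j.castSucc (b (ν j.castSucc)) ∈ y.asHomogeneousIdeal)
    (h2 : lin i.castSucc (b t) ∈ y.asHomogeneousIdeal) : comp b ν i t ≤ y := by
  refine pt_le fun j hj => ?_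
  by_cases hji : j.val = i.val
  · obtain rfl : j = i.castSucc := Fin.ext hji
    simpa [cc] using h2
  · obtain ⟨j, rfl⟩ : ∃ j' : Fin m, j = j'.castSucc := ⟨⟨j.val, by omega⟩, rfl⟩
    rw [cc, if_neg hji, ext_val]
    refine h1 j ?_
    simp only [Fin.val_castSucc] at hj hji
    exact Fin.lt_def.2 (by omega)

lemma exists_comp_le {b : ℕ → K} {d : ℕ} (hb : ∀ s ≤ d, ∀ t ≤ d, b s = b t → s = t)
    {ν : Fin (m+1) → ℕ} (hν : ν ∈ Lam d m) (y : PP m K)
    (hy : ∀ μ ∈ Lam d m, toLex ν ≤ toLex μ → FF b μ ∈ y.asHomogeneousIdeal) :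
    ∃ i : Fin m, ∃ t < ν i.castSucc, comp b ν i t ≤ y := by
  classical
  set P := y.asHomogeneousIdeal.toIdeal with hP
  have hPp : P.IsPrime := y.isPrime
  by_contra hc
  push Not at hc
  by_cases hL : (X (Fin.last m) : MvPolynomial (Fin (m+1)) K) ∈ P
  · have hiff : ∀ (j : Fin (m+1)) β, lin j β ∈ P ↔ X j ∈ P := by
      intro j β
      refine ⟨fun h => ?_, fun h => P.sub_mem h (P.mul_mem_left _ hL)⟩
      have := P.add_mem h (P.mul_mem_left (C β) hL)
      simpa [lin] using this
    have key : ∀ n, ∀ i : Fin m, i.val = n →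
        (X i.castSucc : MvPolynomial (Fin (m+1)) K) ∈ P ∧ ν i.castSucc = 0 := by
      intro n
      induction n using Nat.strong_induction_on with
      | _ n ih =>
        intro i hi
        have h0 : ∀ j : Fin m, j < i →
            (X j.castSucc : MvPolynomial (Fin (m+1)) K) ∈ P ∧ ν j.castSucc = 0 :=
          fun j hj => ih j (hi ▸ hj) j rfl
        have hX : (X i.castSucc : MvPolynomial (Fin (m+1)) K) ∈ P := by
          have hμ : (Pi.single i.castSucc d : Fin (m+1) → ℕ) ∈ Lam d m :=
            Finset.Nat.mem_antidiagonalTuple.2 (by simp)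
          have hlex : toLex ν ≤ toLex (Pi.single i.castSucc d : Fin (m+1) → ℕ) := by
            by_contra hlt
            obtain ⟨j, h1, h2⟩ := lt_of_not_ge hlt
            simp only [Pi.toLex_apply] at h1 h2
            rcases lt_trichotomy j i.castSucc with hj | hj | hj
            · have hj' : j.val < i.val := hj
              obtain ⟨j, rfl⟩ : ∃ j' : Fin m, j = j'.castSucc := ⟨⟨j.val, by omega⟩, rfl⟩
              have := (h0 j hj').2
              omega
            · subst hj
              have := le_of_Lam hν i.castSucc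
              simp at h2
              omega
            · have h3 := h1 _ hj
              simp only [Pi.single_eq_same] at h3
              have h4 := Finset.Nat.mem_antidiagonalTuple.1 hν
              have h5 := add_le_sum (s := univ) (f := ν) (fun _ _ => Nat.zero_le _)
                (mem_univ i.castSucc) (mem_univ j) hj.ne
              omega
          rcases of_FF_mem (P := P) (hy _ hμ hlex) with ⟨-, h⟩ | ⟨j, t, ht, h⟩
          · exact (h (by simp [(Fin.castSucc_lt_last i).ne'])).elim
          · by_cases hji : j = i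
            · subst hji
              exact (hiff _ _).1 h
            · rw [Pi.single_eq_of_ne (fun h => hji (Fin.castSucc_injective _ h))] at ht
              omega
        refine ⟨hX, ?_⟩
        by_contra hne
        exact hc i 0 (Nat.pos_of_ne_zero hne)
          (comp_le_of (fun j hj => (hiff _ _).2 (h0 j hj).1) ((hiff _ _).2 hX))
    refine not_mm_le y (mm_le fun j => ?_)
    induction j using Fin.lastCases with
    | last => exact hL
    | cast j => exact (key _ j rfl).1
  · have huniq : ∀ (j : Fin (m+1)) s t, s ≤ d → t ≤ d → lin j (b s) ∈ P → lin j (b t) ∈ P →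
        s = t := by
      intro j s t hs ht h1 h2
      by_contra hne
      have h3 : b t - b s ≠ 0 := fun h => hne (hb _ ht _ hs (sub_eq_zero.1 h)).symm
      have h4 : C (b t - b s) * X (Fin.last m) ∈ P := by
        have := P.sub_mem h1 h2
        convert this using 1
        simp only [lin, map_sub]
        ring
      rcases hPp.mem_or_mem h4 with h | h
      · exact hPp.ne_top (P.eq_top_of_isUnit_mem h ((IsUnit.mk0 _ h3).map C))
      · exact hL h
    have key : ∀ n, ∀ i : Fin m, i.val = n → lin i.castSucc (b (ν i.castSucc)) ∈ P ∨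
        ∀ j, i.castSucc < j → ν j = 0 := by
      intro n
      induction n using Nat.strong_induction_on with
      | _ n ih =>
        intro i hi
        by_contra hcon
        push Not at hcon
        obtain ⟨hn1, j0, hj0, hj1⟩ := hcon
        have h0 : ∀ j : Fin m, j < i → lin j.castSucc (b (ν j.castSucc)) ∈ P := by
          intro j hj
          refine (ih j (hi ▸ hj) j rfl).resolve_right fun h => hj1 (h j0 ?_)
          exact (Fin.castSucc_lt_castSucc_iff.2 hj).trans hj0
        let A : Fin (m+1) → ℕ := fun j => if j ≤ i.castSucc then ν j else 0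
        have hA : ∑ j, A j + 1 ≤ d := by
          rw [← Finset.Nat.mem_antidiagonalTuple.1 hν]
          refine Nat.succ_le_of_lt (sum_lt_sum (fun j _ => ?_) ⟨j0, mem_univ _, ?_⟩)
          · simp only [A]; split_ifs <;> omega
          · simp only [A]; rw [if_neg (not_le.2 hj0)]; omega
        let μ : Fin (m+1) → ℕ := A + Pi.single i.castSucc 1 +
          Pi.single (Fin.last m) (d - (∑ j, A j + 1))
        have hμ : μ ∈ Lam d m := by
          refine Finset.Nat.mem_antidiagonalTuple.2 ?_
          simp only [μ, Pi.add_apply, sum_add_distrib, sum_pi_single', mem_univ, if_true]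
          omega
        have hμ1 : ∀ j : Fin m, μ j.castSucc =
            (if j ≤ i then ν j.castSucc else 0) + (if j = i then 1 else 0) := by
          intro j
          simp [μ, A, Pi.single_apply, (Fin.castSucc_lt_last j).ne]
        have hlex : toLex ν ≤ toLex μ := by
          refine le_of_lt ⟨i.castSucc, fun j hj => ?_, ?_⟩
          · have hj' : j.val < i.val := hj
            obtain ⟨j, rfl⟩ : ∃ j' : Fin m, j = j'.castSucc := ⟨⟨j.val, by omega⟩, rfl⟩
            have hj2 : j < i := hj'
            simp [hμ1, hj2.le, hj2.ne]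
          · simp [hμ1]
        rcases of_FF_mem (P := P) (hy _ hμ hlex) with ⟨h, -⟩ | ⟨j, t, ht, h⟩
        · exact hL h
        · rw [hμ1] at ht
          rcases lt_trichotomy j i with hj | hj | hj
          · simp only [hj.le, hj.ne, if_true, if_false, add_zero] at ht
            have := le_of_Lam hν j.castSucc
            have := huniq _ _ _ (by omega) this h (h0 j hj)
            omega
          · subst hj
            simp only [le_refl, if_true] at ht
            by_cases h2 : t = ν j.castSucc
            · exact hn1 (h2 ▸ h)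
            · exact hc j t (by omega) (comp_le_of h0 h)
          · simp [not_le.2 hj, hj.ne'] at ht
    rcases of_FF_mem (P := P) (hy _ hν le_rfl) with ⟨h, -⟩ | ⟨j, t, ht, h⟩
    · exact hL h
    · refine hc j t ht (comp_le_of (fun i hi => ?_) h)
      refine (key _ i rfl).resolve_right fun h2 => ?_
      have := h2 j.castSucc (Fin.castSucc_lt_castSucc_iff.2 hi)
      omega

theorem exists_type {b : ℕ → K} {d : ℕ} (hb : ∀ s ≤ d, ∀ t ≤ d, b s = b t → s = t)
    {ν : Fin (m+1) → ℕ} (hν : ν ∈ Lam d m) :
    toLex (fun i : Fin m => ν i.castSucc) ∈ types K d m (pos d m ν) := by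
  classical
  let S := (Lam d m).filter (fun μ => toLex ν ≤ toLex μ)
  let e : Fin (pos d m ν) ≃ S := (S.equivFinOfCardEq (by unfold pos; congr)).symm
  have he : ∀ j, (e j).1 ∈ Lam d m ∧ toLex ν ≤ toLex (e j).1 := fun j => mem_filter.1 (e j).2
  refine ⟨fun j => FF b (e j).1, FF_indep hb (fun j => (e j).1)
    (Subtype.val_injective.comp e.injective) (fun j => (he j).1),
    fun j => FF_hom b (he j).1, ?_⟩
  congr 1
  funext i
  have hall : ∀ y : PP m K, (∀ j, FF b (e j).1 ∈ y.asHomogeneousIdeal) →
      ∃ i : Fin m, ∃ t < ν i.castSucc, comp b ν i t ≤ y := by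
    intro y hy
    refine exists_comp_le hb hν y fun μ h1 h2 => ?_
    have := hy (e.symm ⟨μ, mem_filter.2 ⟨h1, h2⟩⟩)
    simpa using this
  have hmem : ∀ i : Fin m, ∀ t < ν i.castSucc, ∀ j,
      FF b (e j).1 ∈ (comp b ν i t).asHomogeneousIdeal :=
    fun i t ht j => FF_mem_comp b (he j).2 i ht
  have hset : {x : PP m K | IsComponent (fun j => FF b (e j).1) x ∧
      Order.coheight x = ((m - (i + 1) : ℕ) : ℕ∞)} = comp b ν i '' (range (ν i.castSucc)) := by
    ext x
    constructor
    · rintro ⟨h1, h2⟩
      obtain ⟨i', t, ht, hle⟩ := hall x h1.1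
      have hx : x = comp b ν i' t := le_antisymm (h1.2 (hmem i' t ht) hle) hle
      rw [hx, comp, coheight_pt] at h2
      have h3 : m - (i' + 1) = m - (i + 1) := by exact_mod_cast h2
      obtain rfl : i' = i := Fin.ext (by have := i.2; have := i'.2; omega)
      exact ⟨t, by simpa using ht, hx.symm⟩
    · rintro ⟨t, ht, rfl⟩
      have ht : t < ν i.castSucc := by simpa using ht
      refine ⟨⟨hmem i t ht, fun y hy hle => ?_⟩, coheight_pt _ _ _⟩
      obtain ⟨i', t', ht', hle'⟩ := hall y hy
      obtain ⟨rfl, rfl⟩ := comp_le hb hν ht' ht (hle'.trans hle)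
      exact hle'
  rw [dimType, hset, Set.InjOn.ncard_image, Set.ncard_coe_finset, card_range]
  intro t ht t' ht' h
  exact (comp_le hb hν (by simpa using ht) (by simpa using ht') h.le).2

end Pool.Agent.H2.Bog
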