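import Mathlib

namespace Pool.Agent.H2.Box1

open Real Set Finset Filter Topology

structure Good (f f' : ℝ → ℝ) : Prop where
  der : ∀ t, HasDerivAt f (f' t) t
  one : f 0 = 1
  pos : ∀ t, 0 ≤ t → 0 < f t
  mono : MonotoneOn (fun t => -f' t / f t) (Ici 0)
  nn : 0 ≤ -f' 0 / f 0

theorem mono_of_der {F F' : ℝ → ℝ} {b : ℝ} (h : ∀ t, 0 ≤ t → t ≤ b → HasDerivAt F (F' t) t)
    (hp : ∀ t, 0 ≤ t → t ≤ b → 0 ≤ F' t) : MonotoneOn F (Icc 0 b) := by
  refine monotoneOn_of_deriv_nonneg (convex_Icc 0 b)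
    (fun t ht => (h t ht.1 ht.2).continuousAt.continuousWithinAt) (fun t ht => ?_) (fun t ht => ?_)
  · have := interior_subset ht
    exact (h t this.1 this.2).differentiableAt.differentiableWithinAt
  · have := interior_subset ht
    rw [(h t this.1 this.2).deriv]; exact hp t this.1 this.2

theorem step {f f' g : ℝ → ℝ} {l : ℝ} (hl : 0 < l) (hf : Good f f')
    (hg : ∀ t, HasDerivAt g (l * (f t - g t)) t) (g0 : g 0 = 1) :
    Good g (fun t => l * (f t - g t)) ∧ ∀ t, 0 ≤ t → f t ≤ g t := by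
  have ex : ∀ t, HasDerivAt (fun t => exp (l * t)) (exp (l * t) * l) t := fun t => by
    simpa using ((hasDerivAt_id t).const_mul l).exp
  have gpos : ∀ t, 0 ≤ t → 0 < g t := fun b hb => by
    have := mono_of_der (b := b) (F := fun t => exp (l * t) * g t)
      (F' := fun t => exp (l * t) * l * g t + exp (l * t) * (l * (f t - g t)))
      (fun t _ _ => (ex t).mul (hg t)) (fun t h0 _ => by
        have := hf.pos t h0
        have : 0 < exp (l * t) * l * f t := by positivity
        nlinarith) ⟨le_rfl, hb⟩ ⟨hb, le_rfl⟩ hb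
    simp only [mul_zero, exp_zero, g0, mul_one] at this
    exact (mul_pos_iff_of_pos_left (exp_pos (l * b))).1 (by linarith)
  have cmp : ∀ b, 0 ≤ b → 0 ≤ (-f' b / f b - l) * g b + l * f b := fun b hb => by
    set H := -f' b / f b with hH
    have := mono_of_der (b := b) (F := fun t => exp (l * t) * ((H - l) * g t + l * f t))
      (F' := fun t => exp (l * t) * l * ((H - l) * g t + l * f t) +
        exp (l * t) * ((H - l) * (l * (f t - g t)) + l * f' t))
      (fun t _ _ => (ex t).mul (((hg t).const_mul _).add ((hf.der t).const_mul _))) (fun t h0 h1 => by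
        have p := hf.pos t h0
        have q : -f' t / f t ≤ H := hf.mono h0 hb h1
        rw [div_le_iff₀ p] at q
        have : 0 ≤ exp (l * t) * l * (H * f t + f' t) :=
          mul_nonneg (by positivity) (by linarith)
        nlinarith) ⟨le_rfl, hb⟩ ⟨hb, le_rfl⟩ hb
    simp only [mul_zero, exp_zero, g0, mul_one, hf.one, one_mul] at this
    have h0 : 0 ≤ H := hf.nn.trans (hf.mono (le_refl (0 : ℝ)) hb hb)
    exact nonneg_of_mul_nonneg_right (by linarith : 0 ≤ exp (l * b) * _) (exp_pos _) |> fun h => h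
  have hm : MonotoneOn (fun t => -(l * (f t - g t)) / g t) (Ici 0) := fun x hx y hy hxy => by
    have := mono_of_der (b := y) (F := fun t => -(l * (f t - g t)) / g t)
      (F' := fun t => (-(l * (f' t - l * (f t - g t))) * g t -
        -(l * (f t - g t)) * (l * (f t - g t))) / g t ^ 2)
      (fun t h0 _ => ((((hf.der t).sub (hg t)).const_mul l).neg).div (hg t) (gpos t h0).ne')
      (fun t h0 _ => by
        have p := hf.pos t h0
        have c := mul_nonneg (mul_pos hl p).le (cmp t h0)
        apply div_nonneg _ (sq_nonneg _)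
        have e : l * f t * ((-f' t / f t - l) * g t + l * f t) =
          l * ((-f' t - l * f t) * g t + l * f t * f t) := by field_simp
        nlinarith)
    exact this ⟨hx, hxy⟩ ⟨hy, le_rfl⟩ hxy
  have n0 : 0 ≤ -(l * (f 0 - g 0)) / g 0 := by simp [g0, hf.one]
  refine ⟨⟨hg, g0, gpos, hm, n0⟩, fun t ht => ?_⟩
  have := n0.trans (hm (le_refl (0 : ℝ)) ht ht)
  rw [le_div_iff₀ (gpos t ht)] at this
  nlinarith

theorem Good.le_one {f f' : ℝ → ℝ} (hf : Good f f') (b : ℝ) (hb : 0 ≤ b) : f b ≤ 1 := by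
  have := mono_of_der (b := b) (F := fun t => -f t) (F' := fun t => -f' t)
    (fun t _ _ => (hf.der t).neg) (fun t h0 _ => by
      have := hf.nn.trans (hf.mono (le_refl (0 : ℝ)) h0 h0)
      rw [le_div_iff₀ (hf.pos t h0)] at this; linarith) ⟨le_rfl, hb⟩ ⟨hb, le_rfl⟩ hb
  simp only [hf.one] at this; linarith

theorem Good.concave {f f' : ℝ → ℝ} (hf : Good f f') :
    ConcaveOn ℝ (Ici 0) (fun t => log (f t)) := by
  have d : ∀ t, 0 ≤ t → HasDerivAt (fun t => log (f t)) (f' t / f t) t :=
    fun t ht => (hf.der t).log (hf.pos t ht).ne'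
  refine AntitoneOn.concaveOn_of_deriv (convex_Ici 0)
    (fun t ht => (d t ht).continuousAt.continuousWithinAt)
    (fun t ht => (d t (interior_subset ht)).differentiableAt.differentiableWithinAt) ?_
  intro x hx y hy hxy
  have hx' : 0 ≤ x := interior_subset hx
  have hy' : 0 ≤ y := interior_subset hy
  rw [(d x hx').deriv, (d y hy').deriv]
  have := hf.mono hx' hy' hxy
  simp only [neg_div] at this; linarith

noncomputable def rho (n N : ℕ) : ℝ := ∏ j ∈ range n, ((N : ℝ) - 1 - j) / (N + 1 + j)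

noncomputable def kap (k : ℕ) : ℝ := ∏ i ∈ range k, (2 * (i : ℝ) + 3) ^ 2 / (4 * (i + 1) * (i + 2))

noncomputable def lam (n : ℕ) : ℝ := (2 * (n : ℝ) + 1) ^ 2 * π ^ 2 / 8

noncomputable def cf (n k : ℕ) : ℝ := (-1) ^ n / (2 * (n : ℝ) + 1) * kap k * rho n (k + 1)

noncomputable def SN (k : ℕ) (t : ℝ) : ℝ := ∑ n ∈ range (k + 1), cf n k * exp (-(lam n * t))

theorem rho_zero (n N : ℕ) (h0 : 0 < N) (h : N ≤ n) : rho n N = 0 := by
  refine Finset.prod_eq_zero (i := N - 1) (mem_range.2 (by omega)) ?_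
  rw [Nat.cast_sub h0]; simp

theorem rho_rec (n N : ℕ) :
    rho n (N + 1) * ((N - n) * (N + n + 1)) = rho n N * (N * (N + 1)) := by
  induction n with
  | zero => simp [rho]
  | succ n ih =>
    simp only [rho, prod_range_succ] at ih ⊢
    push_cast at ih ⊢
    have a : (N : ℝ) + 1 + 1 + n ≠ 0 := by positivity
    have b : (N : ℝ) + 1 + n ≠ 0 := by positivity
    rw [mul_right_comm (∏ j ∈ range n, ((N : ℝ) - 1 - j) / (N + 1 + j)), ← ih]
    field_simp
    ring

theorem rho_sum (M k : ℕ) : (∑ n ∈ range k, (-1) ^ n * (2 * (n : ℝ) + 1) * rho n M) * (M - 1) =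
    (-1) ^ (k + 1) * rho k M * (k * (M + k)) := by
  induction k with
  | zero => simp
  | succ k ih =>
    rw [sum_range_succ, add_mul, ih]
    simp only [rho, prod_range_succ]
    push_cast
    have b : (M : ℝ) + 1 + k ≠ 0 := by positivity
    field_simp
    ring

theorem cf_rec (n k : ℕ) : cf n (k + 1) * (lam (k + 1) - lam n) = cf n k * lam (k + 1) := by
  have := rho_rec n (k + 1)
  simp only [cf, kap, lam, prod_range_succ]
  push_cast at this ⊢
  field_simp
  linear_combination 4 * (2 * (k : ℝ) + 3) ^ 2 * this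

theorem lam_pos (n : ℕ) : 0 < lam n := by unfold lam; positivity

theorem SN_der (k : ℕ) (t : ℝ) :
    HasDerivAt (SN (k + 1)) (lam (k + 1) * (SN k t - SN (k + 1) t)) t := by
  have : HasDerivAt (SN (k + 1))
      (∑ n ∈ range (k + 1 + 1), cf n (k + 1) * (exp (-(lam n * t)) * -lam n)) t := by
    unfold SN
    refine HasDerivAt.fun_sum fun n _ => HasDerivAt.const_mul _ ?_
    simpa using ((hasDerivAt_id t).const_mul (lam n)).neg.exp
  convert this using 1
  have e : SN k t = ∑ n ∈ range (k + 1 + 1), cf n k * exp (-(lam n * t)) := by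
    rw [sum_range_succ, cf, rho_zero (k + 1) (k + 1) (by omega) le_rfl]; simp [SN]
  rw [e, SN, ← sum_sub_distrib, mul_sum]
  refine sum_congr rfl fun n _ => ?_
  linear_combination -exp (-(lam n * t)) * cf_rec n k

theorem SN_zero (k : ℕ) : SN k 0 = 1 := by
  induction k with
  | zero => simp [SN, cf, kap, rho]
  | succ k ih =>
    have e : SN k 0 = ∑ n ∈ range (k + 1 + 1), cf n k := by
      rw [sum_range_succ, cf, rho_zero (k + 1) (k + 1) (by omega) le_rfl]; simp [SN]
    have z := rho_sum (k + 1 + 1) (k + 1 + 1)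
    rw [rho_zero (k + 1 + 1) (k + 1 + 1) (by omega) le_rfl, mul_zero, zero_mul] at z
    have z' := (mul_eq_zero.1 z).resolve_right (by
      push_cast; have : (0 : ℝ) ≤ k := by positivity
      intro h; linarith)
    have : lam (k + 1) * (SN (k + 1) 0 - SN k 0) = kap (k + 1) * (π ^ 2 / 8) *
        ∑ n ∈ range (k + 1 + 1), (-1) ^ n * (2 * (n : ℝ) + 1) * rho n (k + 1 + 1) := by
      rw [e, SN, ← sum_sub_distrib, mul_sum, mul_sum]
      refine sum_congr rfl fun n _ => ?_
      have h : cf n (k + 1) * lam n = kap (k + 1) * (π ^ 2 / 8) *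
          ((-1) ^ n * (2 * (n : ℝ) + 1) * rho n (k + 1 + 1)) := by
        simp only [cf, lam]; field_simp
      simp only [mul_zero, neg_zero, exp_zero, mul_one]
      linear_combination cf_rec n k + h
    rw [z', mul_zero] at this
    have := (mul_eq_zero.1 this).resolve_left (lam_pos _).ne'
    linarith

theorem SN_good (k : ℕ) : (∃ f', Good (SN k) f') ∧ ∀ t, 0 ≤ t → exp (-(lam 0 * t)) ≤ SN k t := by
  induction k with
  | zero =>
    have e : SN 0 = fun t => exp (-(lam 0 * t)) := by funext t; simp [SN, cf, kap, rho]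
    rw [e]
    refine ⟨⟨fun t => exp (-(lam 0 * t)) * -lam 0, fun t => ?_, by simp, fun t _ => exp_pos _,
      fun x _ y _ _ => ?_, ?_⟩, fun _ _ => le_rfl⟩
    · simpa using ((hasDerivAt_id t).const_mul (lam 0)).neg.exp
    · apply le_of_eq; field_simp
    · simpa using (lam_pos 0).le
  | succ k ih =>
    obtain ⟨⟨f', hf⟩, h2⟩ := ih
    have := step (lam_pos (k + 1)) hf (SN_der k) (SN_zero _)
    exact ⟨⟨_, this.1⟩, fun t ht => (h2 t ht).trans (this.2 t ht)⟩

end Pool.Agent.H2.Box1
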