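import Mathlib
import Pool.Agent.H2.Box1

namespace Pool.Agent.H2.Box2

open Real Set Finset Filter Topology Pool.Agent.H2.Box1

/-- The survival function `P_0(τ_I > t)` of Brownian motion in `I = (-1, 1)`, as its
eigenfunction series. -/
noncomputable def S (t : ℝ) : ℝ :=
  4 / π * ∑' n : ℕ, (-1) ^ n / (2 * (n : ℝ) + 1) * exp (-((2 * (n : ℝ) + 1) ^ 2 * π ^ 2 * t / 8))

theorem kap_W (k : ℕ) : kap k * Wallis.W k = (2 * k + 1) / (k + 1) := by
  induction k with
  | zero => simp [kap, Wallis.W]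
  | succ k ih =>
    rw [Wallis.W_succ, kap, prod_range_succ, ← kap, mul_mul_mul_comm, ih]
    push_cast; field_simp; ring

theorem kap_pos (k : ℕ) : 0 < kap k := prod_pos fun i _ => by positivity

theorem kap_lim : Tendsto kap atTop (𝓝 (4 / π)) := by
  have h1 : Tendsto (fun k : ℕ => (2 * (k : ℝ) + 1) / (k + 1)) atTop (𝓝 2) := by
    have := (tendsto_one_div_add_atTop_nhds_zero_nat (𝕜 := ℝ)).const_sub 2
    rw [sub_zero] at this
    refine this.congr fun k => ?_
    field_simp; ring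
  have := h1.div Wallis.tendsto_W_nhds_pi_div_two (by positivity)
  rw [show (2 : ℝ) / (π / 2) = 4 / π by field_simp; norm_num] at this
  refine this.congr fun k => ?_
  simp only [Pi.div_apply]
  rw [← kap_W, mul_div_assoc, div_self (Wallis.W_pos k).ne', mul_one]

theorem rho_lim (n : ℕ) : Tendsto (fun k : ℕ => rho n (k + 1)) atTop (𝓝 1) := by
  have : Tendsto (fun k : ℕ => rho n (k + 1)) atTop (𝓝 (∏ _j ∈ range n, 1)) := by
    refine tendsto_finset_prod _ fun j _ => ?_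
    have h0 : Tendsto (fun k : ℕ => ((k : ℝ) + (2 + j))⁻¹) atTop (𝓝 0) :=
      tendsto_inv_atTop_zero.comp (tendsto_atTop_add_const_right _ _ tendsto_natCast_atTop_atTop)
    have := (h0.const_mul (2 + 2 * (j : ℝ))).const_sub 1
    rw [mul_zero, sub_zero] at this
    refine this.congr fun k => ?_
    push_cast; field_simp; ring
  simpa using this

theorem rho_abs (n N : ℕ) : |rho n N| ≤ 1 := by
  rw [rho, Finset.abs_prod]
  refine prod_le_one (fun _ _ => abs_nonneg _) fun j _ => ?_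
  have a : (0 : ℝ) ≤ N := by positivity
  have b : (0 : ℝ) ≤ j := by positivity
  rw [abs_div, div_le_one (by positivity), abs_of_pos (by positivity : (0 : ℝ) < N + 1 + j), abs_le]
  constructor <;> linarith

theorem lam_ge (n : ℕ) (t : ℝ) (ht : 0 ≤ t) :
    exp (-(lam n * t)) ≤ exp (-(lam 0 * t)) * exp (-(π ^ 2 * t)) ^ n := by
  rw [← exp_nat_mul, ← exp_add, exp_le_exp]
  have : (n : ℝ) ≤ n ^ 2 := by exact_mod_cast Nat.le_self_pow two_ne_zero n
  have h := mul_nonneg (mul_nonneg (sq_nonneg π) ht) (sub_nonneg.2 this)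
  simp only [lam]; push_cast; nlinarith

theorem x_lt (t : ℝ) (ht : 0 < t) : exp (-(π ^ 2 * t)) < 1 :=
  by
  rw [← exp_zero]; exact exp_lt_exp.2 (neg_lt_zero.2 (by positivity))

theorem sgn_abs (n : ℕ) : |(-1) ^ n / (2 * (n : ℝ) + 1)| ≤ 1 := by
  rw [abs_div, abs_pow, abs_neg, abs_one, one_pow, abs_of_pos (by positivity),
    div_le_one (by positivity)]
  have : (0 : ℝ) ≤ n := by positivity
  linarith

theorem S_eq (t : ℝ) :
    S t = 4 / π * ∑' n : ℕ, (-1) ^ n / (2 * (n : ℝ) + 1) * exp (-(lam n * t)) := by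
  unfold S lam; congr 2; funext n; congr 3; ring

theorem SN_lim (t : ℝ) (ht : 0 < t) : Tendsto (fun k => SN k t) atTop (𝓝 (S t)) := by
  have h := tendsto_tsum_of_dominated_convergence (𝓕 := atTop)
    (f := fun k n : ℕ => (-1) ^ n / (2 * (n : ℝ) + 1) * exp (-(lam n * t)) * rho n (k + 1))
    (g := fun n : ℕ => (-1) ^ n / (2 * (n : ℝ) + 1) * exp (-(lam n * t)))
    (bound := fun n => exp (-(lam 0 * t)) * exp (-(π ^ 2 * t)) ^ n)
    ((summable_geometric_of_lt_one (exp_pos _).le (x_lt t ht)).mul_left _)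
    (fun n => by simpa using (rho_lim n).const_mul ((-1) ^ n / (2 * (n : ℝ) + 1) * exp (-(lam n * t))))
    (Eventually.of_forall fun k n => by
      rw [norm_eq_abs, abs_mul, abs_mul, abs_of_pos (exp_pos _)]
      calc _ ≤ 1 * exp (-(lam n * t)) * 1 := by
            gcongr
            · exact sgn_abs n
            · exact rho_abs _ _
        _ ≤ _ := by simpa using lam_ge n t ht.le)
  rw [S_eq]
  refine (kap_lim.mul h).congr fun k => ?_
  rw [tsum_eq_sum (s := range (k + 1)) fun n hn => by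
    rw [rho_zero n (k + 1) (by omega) (by simpa using hn), mul_zero], SN, mul_sum]
  refine sum_congr rfl fun n _ => ?_
  rw [cf]; ring

theorem S_ge (t : ℝ) (ht : 0 < t) : exp (-(lam 0 * t)) ≤ S t :=
  ge_of_tendsto' (SN_lim t ht) fun k => (SN_good k).2 t ht.le

theorem S_pos (t : ℝ) (ht : 0 < t) : 0 < S t := (exp_pos _).trans_le (S_ge t ht)

theorem S_le (t : ℝ) (ht : 0 < t) : S t ≤ 1 :=
  le_of_tendsto' (SN_lim t ht) fun k => by
    obtain ⟨f', hf⟩ := (SN_good k).1; exact hf.le_one t ht.le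

theorem S_concave : ConcaveOn ℝ (Ioi 0) (fun t => log (S t)) := by
  refine ⟨convex_Ioi 0, fun x hx y hy a b ha hb hab => ?_⟩
  have hz : a • x + b • y ∈ Ioi (0 : ℝ) := convex_Ioi 0 hx hy ha hb hab
  have L : ∀ t, 0 < t → Tendsto (fun k => log (SN k t)) atTop (𝓝 (log (S t))) :=
    fun t ht => (SN_lim t ht).log (S_pos t ht).ne'
  refine le_of_tendsto_of_tendsto' (((L x hx).const_smul a).add ((L y hy).const_smul b)) (L _ hz)
    fun k => ?_
  obtain ⟨f', hf⟩ := (SN_good k).1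
  exact hf.concave.2 (Ioi_subset_Ici_self hx) (Ioi_subset_Ici_self hy) ha hb hab

theorem S_cont : ContinuousOn S (Ioi 0) :=
  (S_concave.continuousOn isOpen_Ioi).rexp.congr fun t ht => (exp_log (S_pos t ht)).symm

theorem S_two (t : ℝ) (ht : 0 < t) (hx : exp (-(π ^ 2 * t)) ≤ 1 / 12) :
    4 / π * exp (-(lam 0 * t)) * (1 - exp (-(π ^ 2 * t))) ≤ S t ∧
      S t ≤ 4 / π * exp (-(lam 0 * t)) * (1 - exp (-(π ^ 2 * t)) / 6) := by
  set x := exp (-(π ^ 2 * t)) with hxd
  set E := exp (-(lam 0 * t)) with hE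
  have x0 : 0 < x := exp_pos _
  have E0 : 0 < E := exp_pos _
  have bd : ∀ n : ℕ, ‖(-1) ^ n / (2 * (n : ℝ) + 1) * exp (-(lam n * t))‖ ≤ E * x ^ n := fun n => by
    rw [norm_eq_abs, abs_mul, abs_of_pos (exp_pos _)]
    calc _ ≤ 1 * exp (-(lam n * t)) := by gcongr; exact sgn_abs n
      _ ≤ _ := by simpa using lam_ge n t ht.le
  have g := summable_geometric_of_lt_one x0.le (x_lt t ht)
  have sm := Summable.of_norm_bounded (g.mul_left E) bd
  have tl : ‖∑' n : ℕ, (-1) ^ (n + 2) / (2 * ((n + 2 : ℕ) : ℝ) + 1) * exp (-(lam (n + 2) * t))‖ ≤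
      E * x ^ 2 * (1 - x)⁻¹ :=
    tsum_of_norm_bounded ((hasSum_geometric_of_lt_one x0.le (x_lt t ht)).mul_left (E * x ^ 2))
      fun n => (bd (n + 2)).trans (le_of_eq (by ring))
  have e1 : exp (-(lam 1 * t)) = E * x := by
    rw [hE, hxd, ← exp_add]; congr 1; simp only [lam]; push_cast; ring
  have i2 : (1 - x)⁻¹ ≤ 2 := by rw [inv_le_comm₀ (by linarith) (by norm_num)]; linarith
  have tl2 : E * x ^ 2 * (1 - x)⁻¹ ≤ E * x / 6 := by
    have : E * x ^ 2 * (1 - x)⁻¹ ≤ E * x ^ 2 * 2 := by gcongr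
    nlinarith [mul_pos E0 x0]
  rw [S_eq, ← sm.sum_add_tsum_nat_add 2, mul_assoc, mul_assoc]
  simp only [sum_range_succ, sum_range_zero, e1]
  rw [norm_eq_abs, abs_le] at tl
  have p4 : 0 < 4 / π := by positivity
  constructor <;> apply mul_le_mul_of_nonneg_left _ p4.le <;> norm_num at tl ⊢ <;>
    nlinarith [mul_pos E0 x0]

end Pool.Agent.H2.Box2
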