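import Mathlib

namespace Pool.Agent.H2.Box

/-- `G` is a box space of graphs with pieces `l ⁻¹' {i}`. -/
def IsBox (G : SimpleGraph ℕ) (l : ℕ → ℕ) : Prop :=
  (∃ D : ℕ, ∀ x : ℕ, (G.neighborSet x).Finite ∧ (G.neighborSet x).ncard ≤ D) ∧
    (∀ x y, G.Adj x y → l x = l y) ∧ (∀ i, (l ⁻¹' {i}).Finite) ∧
    Filter.Tendsto (fun i => (l ⁻¹' {i}).ncard) Filter.atTop Filter.atTop

section
variable {A B : Type} [Ring A] [Algebra ℂ A] [Star A] [Ring B] [Algebra ℂ B] [Star B]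

/-- `π` is a unital `*`-representation of the elements satisfying `P`. -/
def IsRep (P : A → Prop) (π : A → B) : Prop :=
  (∀ S, P S → ∀ T, P T → π (S + T) = π S + π T ∧ π (S * T) = π S * π T) ∧
    (∀ (a : ℂ) T, P T → π (a • T) = a • π T) ∧ (∀ T, P T → π (star T) = star (π T)) ∧ π 1 = 1

/-- The spectrum lies in `{0} ∪ [c, ∞)`. -/
def Gap (c : ℝ) (T : B) : Prop := spectrum ℂ T ⊆ {z : ℂ | z = 0 ∨ (z.im = 0 ∧ c ≤ z.re)}

/-- One spectral gap for `L` in all Hilbert space representations. -/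
def GapAll (P : A → Prop) (L : A) : Prop :=
  ∃ c : ℝ, 0 < c ∧ ∀ (H : Type) [NormedAddCommGroup H] [InnerProductSpace ℂ H] [CompleteSpace H]
    (π : A → (H →L[ℂ] H)), IsRep P π → Gap c (π L)

/-- For some `c > 0`, `L ^ 2 - c L` is a sum of squares of elements satisfying `P`. -/
def SOSGap (P : A → Prop) (L : A) : Prop :=
  ∃ c : ℝ, 0 < c ∧ ∃ (n : ℕ) (ξ : Fin n → A), (∀ k, P (ξ k)) ∧
    L * L - (c : ℂ) • L = ∑ k, star (ξ k) * ξ k

end

variable {E : Type} [NormedAddCommGroup E] [InnerProductSpace ℂ E] (b : HilbertBasis ℕ ℂ E)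

/-- The matrix entry `⟨b y, T (b x)⟩`. -/
noncomputable def ent (T : E →L[ℂ] E) (x y : ℕ) : ℂ := inner ℂ (b y) (T (b x))

/-- `L` is the Laplacian of `G`. -/
def IsLap (G : SimpleGraph ℕ) (L : E →L[ℂ] E) : Prop :=
  (∀ x, ent b L x x = ((G.neighborSet x).ncard : ℂ)) ∧ (∀ x y, G.Adj x y → ent b L x y = -1) ∧
    ∀ x y, x ≠ y → ¬ G.Adj x y → ent b L x y = 0

/-- Operators of finite propagation. -/
def FinProp (G : SimpleGraph ℕ) (T : E →L[ℂ] E) : Prop :=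
  ∃ R : ℕ, ∀ x y : ℕ, ent b T x y ≠ 0 → G.edist x y ≤ (R : ℕ∞)

end Pool.Agent.H2.Box
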