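import Pool.Agent.H7.Rewire1

/-! Graphs of bounded degree with no short odd closed walk, no small mod 3 cycle and small
independence number. -/

set_option autoImplicit false

namespace Pool.Agent.H2.CE

open SimpleGraph Finset Pool.Agent.H11.Girth Pool.Agent.H7.Erdos
open Pool.Agent.H7.Rewire (NoOdd noOdd_add_edge)

section chains

variable {V : Type} [Fintype V] [DecidableEq V]

def bd (b : V × V → ZMod 3) (x : V) : ZMod 3 := ∑ y, b (x, y)

def dl (u v : V) : V × V → ZMod 3 := fun p => (if p = (u, v) then 1 else 0) - (if p = (v, u) then 1 else 0)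

def Anti (b : V × V → ZMod 3) : Prop := ∀ x y, b (x, y) = - b (y, x)

def On (G : SimpleGraph V) (b : V × V → ZMod 3) : Prop := ∀ x y, b (x, y) ≠ 0 → G.Adj x y

open Classical in
noncomputable def supp (b : V × V → ZMod 3) : Finset V := univ.filter (fun x => ∃ y, b (x, y) ≠ 0)

def Pn (G : SimpleGraph V) (g : ℕ) : Prop :=
  ∀ b : V × V → ZMod 3, Anti b → On G b → (∀ x, bd b x = 0) → (supp b).card ≤ g → b = 0

lemma z3 {a : ZMod 3} (h : a = -a) : a = 0 := by revert a; decide

omit [DecidableEq V] in
lemma mem_supp {b : V × V → ZMod 3} {x : V} : x ∈ supp b ↔ ∃ y, b (x, y) ≠ 0 := by simp [supp]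

def sg {b : V × V → ZMod 3} (h : Anti b) : SimpleGraph V where
  Adj x y := b (x, y) ≠ 0
  symm := ⟨fun x y hxy h' => hxy (by rw [h x y, h', neg_zero])⟩
  loopless := ⟨fun x hx => hx (z3 (h x x))⟩

lemma bd_dl (u v x : V) : bd (dl u v) x = (if x = u then 1 else 0) - (if x = v then 1 else 0) := by
  simp only [bd, dl, sum_sub_distrib, Prod.mk.injEq]
  congr 1 <;> split_ifs with h <;> simp [h]

omit [Fintype V] in
lemma dl_swap (u v : V) : dl v u = - dl u v := by
  ext p; simp [dl]

omit [Fintype V] in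
lemma anti_dl (u v : V) : Anti (dl u v) := by
  intro x y
  simp only [dl, Prod.mk.injEq, neg_sub, and_comm]

omit [DecidableEq V] in
lemma comp_sum {b : V × V → ZMod 3} (h : Anti b) (u : V) [DecidablePred ((sg h).Reachable u)] :
    ∑ x ∈ univ.filter ((sg h).Reachable u), bd b x = 0 := by
  set C := univ.filter ((sg h).Reachable u) with hC
  have e : ∑ x ∈ C, bd b x = ∑ x ∈ C, ∑ y ∈ C, b (x, y) := by
    refine sum_congr rfl fun x hx => (sum_subset (subset_univ _) fun y _ hy => ?_).symm
    by_contra hb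
    simp only [hC, mem_filter, mem_univ, true_and] at hx hy
    exact hy (hx.trans (Adj.reachable (G := sg h) hb))
  rw [e]
  apply z3
  conv_lhs => rw [sum_comm]
  rw [← sum_neg_distrib]
  refine sum_congr rfl fun x _ => ?_
  rw [← sum_neg_distrib]
  exact sum_congr rfl fun y _ => h y x

lemma reach {G : SimpleGraph V} {b : V × V → ZMod 3} (h : Anti b) (hG : On G b) {u x : V}
    (hr : (sg h).Reachable u x) : ∃ p : G.Walk u x, p.length ≤ (supp b).card := by
  obtain ⟨p, hp⟩ := hr.exists_isPath
  have hs : ∀ {a c : V} (q : (sg h).Walk a c), ∀ z ∈ q.support, z = a ∨ z ∈ supp b := by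
    intro a c q
    induction q with
    | nil => simp
    | cons hab q ih =>
      intro z hz
      rw [Walk.support_cons, List.mem_cons] at hz
      rcases hz with rfl | hz
      · exact .inl rfl
      · rcases ih z hz with rfl | hz
        · exact .inr (mem_supp.2 ⟨_, hab.symm⟩)
        · exact .inr hz
  refine ⟨p.mapLe (G' := G) (fun x y hxy => hG x y hxy), ?_⟩
  have h1 : p.support.toFinset ⊆ insert u (supp b) := fun z hz => by
    simpa using hs p z (List.mem_toFinset.1 hz)
  have h2 := card_le_card h1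
  rw [List.toFinset_card_of_nodup hp.support_nodup, Walk.length_support] at h2
  have := card_insert_le u (supp b)
  simp only [Walk.mapLe, Walk.length_map]
  omega

lemma reach_of {b : V × V → ZMod 3} (h : Anti b) {u v : V} {t : ZMod 3} (ht : t ≠ 0)
    (hb : ∀ x, bd b x = t * ((if x = u then 1 else 0) - (if x = v then 1 else 0))) :
    (sg h).Reachable u v := by
  classical
  by_contra hr
  have := comp_sum h u
  simp only [hb, ← mul_sum, sum_sub_distrib, sum_ite_eq', mem_filter, mem_univ, true_and,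
    Reachable.refl, if_true, hr, if_false] at this
  simp [ht] at this

lemma pn_add_edge {G : SimpleGraph V} {g : ℕ} {u v : V} (h : Pn G g) (huv : u ≠ v)
    (hfar : ∀ p : G.Walk u v, g < p.length) : Pn (G ⊔ edge u v) g := by
  intro b ha ho hb hs
  set t := b (u, v) with ht
  set b' : V × V → ZMod 3 := fun p => b p - t * dl u v p with hb'
  have key : ∀ x y, b' (x, y) ≠ 0 → b (x, y) ≠ 0 ∧ G.Adj x y := by
    intro x y hxy
    by_cases h1 : (x, y) = (u, v)
    · refine absurd ?_ hxy
      have : (u, v) ≠ (v, u) := fun e => huv (congrArg Prod.fst e)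
      simp [hb', h1, dl, this, ht]
    by_cases h2 : (x, y) = (v, u)
    · refine absurd ?_ hxy
      have : (v, u) ≠ (u, v) := fun e => huv (congrArg Prod.snd e)
      simp [hb', h2, dl, this, ht, ha v u]
    have e : b' (x, y) = b (x, y) := by simp [hb', dl, h1, h2]
    rw [e] at hxy
    refine ⟨hxy, (ho x y hxy).resolve_right fun he => ?_⟩
    rcases ((edge_adj u v x y).1 he).1 with ⟨rfl, rfl⟩ | ⟨rfl, rfl⟩
    · exact h1 rfl
    · exact h2 rfl
  have ha' : Anti b' := fun x y => by
    simp only [hb']; rw [ha x y, anti_dl u v x y]; ring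
  have ho' : On G b' := fun x y hxy => (key x y hxy).2
  have hs' : (supp b').card ≤ g := (card_le_card fun x hx => by
    obtain ⟨y, hy⟩ := mem_supp.1 hx
    exact mem_supp.2 ⟨y, (key x y hy).1⟩).trans hs
  have hd : ∀ x, bd b' x = -t * ((if x = u then 1 else 0) - (if x = v then 1 else 0)) := by
    intro x
    rw [← bd_dl]
    have := hb x
    simp only [bd, hb', sum_sub_distrib, ← mul_sum] at this ⊢
    rw [this]; ring
  by_cases h0 : t = 0
  · have : b' = b := by ext p; simp [hb', h0]
    rw [this] at ho'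
    exact h b ha ho' hb hs
  · obtain ⟨p, hp⟩ := reach ha' ho' (reach_of ha' (neg_ne_zero.2 h0) hd)
    have := hfar p
    omega

lemma loc {G : SimpleGraph V} {g : ℕ} (h : Pn G g) {b : V × V → ZMod 3} (ha : Anti b)
    (ho : On G b) {u v : V}
    (hb : ∀ x, bd b x = (if x = u then 1 else 0) - (if x = v then 1 else 0))
    (hs : (supp b).card ≤ g) {x : V} (hx : x = v ∨ x ∈ supp b) :
    ∃ p : G.Walk u x, p.length ≤ (supp b).card := by
  classical
  have hv : (sg ha).Reachable u v := reach_of ha one_ne_zero fun x => by rw [hb, one_mul]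
  refine reach ha ho (hx.elim (fun e => e ▸ hv) fun hx => ?_)
  by_contra hr
  set b' : V × V → ZMod 3 := fun p => if (sg ha).Reachable u p.1 then 0 else b p with hb'
  have k : ∀ x y, b' (x, y) ≠ 0 → b (x, y) ≠ 0 := fun x y hxy h0 => hxy (by simp [hb', h0])
  have : b' = 0 := by
    refine h b' (fun x y => ?_) (fun x y hxy => ho x y (k x y hxy)) (fun x => ?_)
      ((card_le_card fun x hx => ?_).trans hs)
    · simp only [hb']
      by_cases e : b (x, y) = 0
      · have e' : b (y, x) = 0 := by rw [ha y x, e, neg_zero]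
        simp [e, e']
      · have r : (sg ha).Reachable x y := Adj.reachable (G := sg ha) e
        by_cases h1 : (sg ha).Reachable u x
        · simp [h1, h1.trans r]
        · have h2 : ¬ (sg ha).Reachable u y := fun h2 => h1 (h2.trans r.symm)
          simp [h1, h2, ha x y]
    · by_cases h1 : (sg ha).Reachable u x
      · simp [bd, hb', h1]
      · have h2 : x ≠ u := fun e => h1 (e ▸ Reachable.refl _)
        have h3 : x ≠ v := fun e => h1 (e ▸ hv)
        have := hb x
        simp only [h2, h3, if_false, sub_zero] at this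
        simpa [bd, hb', h1] using this
    · obtain ⟨y, hy⟩ := mem_supp.1 hx
      exact mem_supp.2 ⟨y, k x y hy⟩
  obtain ⟨y, hy⟩ := mem_supp.1 hx
  have := congrFun this (x, y)
  simp [hb', hr, hy] at this

end chains

open Classical in
noncomputable def inds {n : ℕ} (G : SimpleGraph (Fin n)) : Finset (Finset (Fin n)) :=
  univ.filter (fun S => n ≤ 12 * S.card ∧ ∀ u ∈ S, ∀ v ∈ S, ¬ G.Adj u v)

theorem mem_inds {n : ℕ} {G : SimpleGraph (Fin n)} {S : Finset (Fin n)} :
    S ∈ inds G ↔ n ≤ 12 * S.card ∧ ∀ u ∈ S, ∀ v ∈ S, ¬ G.Adj u v := by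
  simp [inds]

theorem step (g B n : ℕ) (hB : B = (60000 + 1) ^ g) (hn : n = 48 * B)
    (G : SimpleGraph (Fin n)) (hd : ∀ v, (G.neighborSet v).ncard ≤ 60000)
    (hs : ∑ v, (G.neighborSet v).ncard ≤ 2304 * n) (hN : (inds G).Nonempty) :
    ∃ u v, u ≠ v ∧ (G.neighborSet u).ncard < 60000 ∧ (G.neighborSet v).ncard < 60000 ∧
      (∀ p : G.Walk v u, g ≤ p.length) ∧
      (inds G).card ≤ 1152 * ((inds G).filter (fun S => u ∈ S ∧ v ∈ S)).card := by
  classical
  have hdeg : ∀ v, (G.neighborSet v).ncard = G.degree v := by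
    intro v
    rw [← card_neighborSet_eq_degree, Set.ncard_eq_toFinset_card', Set.toFinset_card]
  have hd' : ∀ v, G.degree v ≤ 60000 := fun v => hdeg v ▸ hd v
  choose Ball hB1 hB2 using fun u => ball_bound G 60000 hd' u g
  set U := univ.filter (fun v => (G.neighborSet v).ncard < 60000) with hU
  set W := univ.filter (fun v => ¬ (G.neighborSet v).ncard < 60000) with hW
  have hWc : W.card ≤ 2 * B := by
    have h1 : W.card * 60000 ≤ ∑ v, (G.neighborSet v).ncard := by
      calc _ = ∑ _v ∈ W, 60000 := by simp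
        _ ≤ ∑ v ∈ W, (G.neighborSet v).ncard := sum_le_sum (fun v hv => by simpa [hW] using hv)
        _ ≤ _ := sum_le_sum_of_subset (subset_univ _)
    omega
  set A : Finset (Fin n × Fin n) := (U ×ˢ U).filter (fun p => p.2 ∉ Ball p.1) with hA
  have hc : ∀ S ∈ inds G, 2 * B * B ≤ (A.filter (fun p => p.1 ∈ S ∧ p.2 ∈ S)).card := by
    intro S hS
    set F := S \ W with hF
    have hj : 2 * B ≤ F.card := by
      have := le_card_sdiff W S
      have := (mem_inds.1 hS).1
      rw [hF]; omega
    have hsub : (F.sigma (fun u => F \ Ball u)).card ≤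
        (A.filter (fun p => p.1 ∈ S ∧ p.2 ∈ S)).card := by
      apply card_le_card_of_injOn (fun x => (x.1, x.2))
      · intro x hx
        simp only [coe_sigma, Set.mem_sigma_iff, mem_coe, mem_sdiff, hF, hW, mem_filter, mem_univ,
          true_and, not_not] at hx
        simp only [hA, hU, coe_filter, mem_filter, mem_product, Set.mem_ofPred_eq, mem_univ, true_and]
        exact ⟨⟨⟨hx.1.2, hx.2.1.2⟩, hx.2.2⟩, hx.1.1, hx.2.1.1⟩
      · rintro ⟨a, b⟩ _ ⟨a', b'⟩ _ h
        simp only [Prod.mk.injEq] at h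
        obtain ⟨rfl, rfl⟩ := h
        rfl
    refine le_trans ?_ hsub
    rw [card_sigma]
    calc 2 * B * B ≤ F.card * B := Nat.mul_le_mul_right _ hj
      _ = ∑ _u ∈ F, B := by simp
      _ ≤ _ := sum_le_sum (fun u _ => by
          have := le_card_sdiff (Ball u) F
          have := hB1 u
          omega)
  have hsum : (inds G).card * (2 * B * B) ≤
      ∑ p ∈ A, ((inds G).filter (fun S => p.1 ∈ S ∧ p.2 ∈ S)).card := by
    calc _ = ∑ _c ∈ inds G, 2 * B * B := by simp
      _ ≤ ∑ S ∈ inds G, (A.filter (fun p => p.1 ∈ S ∧ p.2 ∈ S)).card := sum_le_sum hc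
      _ = _ := by
        simp only [card_filter]
        exact sum_comm
  have hBpos : 0 < B := by rw [hB]; positivity
  have hAne : A.Nonempty := by
    obtain ⟨c, hc'⟩ := hN
    have := hc c hc'
    have h2 : 0 < (A.filter (fun p => p.1 ∈ c ∧ p.2 ∈ c)).card :=
      lt_of_lt_of_le (by positivity) this
    exact (card_pos.1 h2).mono (filter_subset _ _)
  have hAc : A.card ≤ n * n := by
    have := card_le_univ A
    simpa using this
  obtain ⟨p, hp, hle⟩ := exists_le_of_sum_le (s := A)
    (f := fun _ => (inds G).card * (2 * B * B))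
    (g := fun p => n * n * ((inds G).filter (fun S => p.1 ∈ S ∧ p.2 ∈ S)).card) hAne (by
      rw [sum_const, smul_eq_mul, ← mul_sum]
      exact Nat.mul_le_mul hAc hsum)
  simp only [hA, hU, mem_filter, mem_product, mem_univ, true_and] at hp
  refine ⟨p.1, p.2, fun h => hp.2 (hB2 _ _ (h ▸ Walk.nil) (by
      have : ∀ (x y : Fin n) (e : x = y), (e ▸ (Walk.nil : G.Walk x x) : G.Walk y x).length = 0 := by
        intro x y e; subst e; rfl
      rw [this]; omega)), hp.1.1, hp.1.2, fun w => ?_, ?_⟩
  · by_contra hlt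
    exact hp.2 (hB2 _ _ w (by omega))
  · apply Nat.le_of_mul_le_mul_right _ (show 0 < 2 * B * B by positivity)
    refine hle.trans (le_of_eq ?_)
    have : n * n = 1152 * (2 * B * B) := by rw [hn]; ring
    rw [this]; ring

theorem exists_base (g : ℕ) : ∃ (n : ℕ) (G : SimpleGraph (Fin n)),
    (∀ v, (G.neighborSet v).ncard ≤ 60000) ∧ NoOdd G (g + 1) ∧ Pn G g ∧
    ∀ S : Finset (Fin n), (∀ u ∈ S, ∀ v ∈ S, ¬ G.Adj u v) → 12 * S.card < n := by
  classical
  set B := (60000 + 1) ^ (g + 1) with hB
  have hB0 : 0 < B := by positivity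
  obtain ⟨n, hn⟩ : ∃ n, n = 48 * B := ⟨_, rfl⟩
  have key : ∀ m, m ≤ 1152 * n → ∃ G : SimpleGraph (Fin n), NoOdd G (g + 1) ∧ Pn G g ∧
      (∀ v, (G.neighborSet v).ncard ≤ 60000) ∧
      ∑ v, (G.neighborSet v).ncard ≤ 2 * m ∧
      (inds G).card * 1152 ^ m ≤ 2 ^ n * 1151 ^ m := by
    intro m
    induction m with
    | zero =>
      intro _
      refine ⟨⊥, fun x p _ => ?_, fun b _ ho _ _ => ?_, by simp, by simp, ?_⟩
      · cases p with
        | nil => rfl
        | cons h _ => exact h.elim
      · ext ⟨x, y⟩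
        by_contra h
        exact ho x y h
      · have := card_le_univ (inds (⊥ : SimpleGraph (Fin n)))
        simpa using this
    | succ m ih =>
      intro hm
      obtain ⟨G, h1, h0, h2, h3, h4⟩ := ih (by omega)
      rcases (inds G).eq_empty_or_nonempty with he | hne
      · exact ⟨G, h1, h0, h2, by omega, by simp [he]⟩
      obtain ⟨u, v, huv, hu, hv, hfar, hc⟩ := step (g + 1) B n hB hn G h2 (by omega) hne
      refine ⟨G ⊔ edge v u, noOdd_add_edge h1 hfar, pn_add_edge h0 huv.symm hfar, fun x => ?_,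
        ?_, ?_⟩
      · have := ncard_sup_edge G v u x
        have := h2 x
        by_cases hx : x = v
        · subst hx; simp [huv.symm] at *; omega
        · by_cases hx' : x = u
          · subst hx'; simp [hx] at *; omega
          · simp [hx, hx'] at *; omega
      · have := sum_le_sum (s := univ) (fun x _ => ncard_sup_edge G v u x)
        simp only [sum_add_distrib, sum_ite_eq', mem_univ, if_true] at this
        omega
      · have hsub : inds (G ⊔ edge v u) ⊆ (inds G).filter (fun S => ¬ (u ∈ S ∧ v ∈ S)) := by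
          intro S hS
          rw [mem_inds] at hS
          rw [mem_filter, mem_inds]
          exact ⟨⟨hS.1, fun a ha b hb hab => hS.2 a ha b hb (Or.inl hab)⟩,
            fun h => hS.2 u h.1 v h.2 (Or.inr (by simp [edge_adj, huv]))⟩
        have h5 := card_le_card hsub
        have h6 := card_filter_add_card_filter_not (s := inds G) (fun S => u ∈ S ∧ v ∈ S)
        have h7 : (inds (G ⊔ edge v u)).card * 1152 ≤ (inds G).card * 1151 := by omega
        calc _ = (inds (G ⊔ edge v u)).card * 1152 * 1152 ^ m := by ring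
          _ ≤ (inds G).card * 1151 * 1152 ^ m := Nat.mul_le_mul_right _ h7
          _ = (inds G).card * 1152 ^ m * 1151 := by ring
          _ ≤ 2 ^ n * 1151 ^ m * 1151 := Nat.mul_le_mul_right _ h4
          _ = _ := by ring
  obtain ⟨G, h1, h0, h2, -, h4⟩ := key _ le_rfl
  refine ⟨n, G, h2, h1, h0, fun S hS => ?_⟩
  by_contra hlt
  have hpos : 0 < (inds G).card := card_pos.2 ⟨S, mem_inds.2 ⟨not_lt.1 hlt, hS⟩⟩
  have hb : 2 * 1151 ^ 1152 < 1152 ^ 1152 := by decide +kernel
  have hb2 : 2 ^ n * 1151 ^ (1152 * n) < 1152 ^ (1152 * n) := by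
    have := Nat.pow_lt_pow_left hb (show n ≠ 0 by clear * - hn hB0; omega)
    rwa [mul_pow, ← pow_mul, ← pow_mul] at this
  have hb5 : 1152 ^ (1152 * n) ≤ (inds G).card * 1152 ^ (1152 * n) :=
    Nat.le_mul_of_pos_left _ hpos
  exact absurd (hb5.trans h4) (not_le.2 hb2)

end Pool.Agent.H2.CE
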