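import Mathlib

/-! Random sign rounding, the cube map and Parseval's identity. -/

set_option autoImplicit false

namespace Pool.Agent.H2.CE

open Finset

section signs

variable {ι : Type} [DecidableEq ι]

def sS (T : Finset ι) (a : ι → ℝ) (s : Finset ι) : ℝ := ∑ i ∈ T, if i ∈ s then a i else -a i

lemma sS_add (T : Finset ι) (a b : ι → ℝ) (s : Finset ι) :
    sS T (fun i => a i + b i) s = sS T a s + sS T b s := by
  simp only [sS, ← sum_add_distrib]
  refine sum_congr rfl fun i _ => ?_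
  split_ifs <;> ring

lemma moments (a : ι → ℝ) (T : Finset ι) :
    ∑ s ∈ T.powerset, sS T a s ^ 2 = 2 ^ T.card * ∑ i ∈ T, a i ^ 2 ∧
    ∑ s ∈ T.powerset, sS T a s ^ 4 ≤ 3 * 2 ^ T.card * (∑ i ∈ T, a i ^ 2) ^ 2 := by
  induction T using Finset.induction_on with
  | empty => simp [sS]
  | insert j T hj ih =>
    have e1 : ∀ s ∈ T.powerset, sS (insert j T) a s = sS T a s - a j := fun s hs => by
      have : j ∉ s := fun h => hj (mem_powerset.1 hs h)
      simp only [sS, sum_insert hj, this, if_false]; ring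
    have e2 : ∀ s ∈ T.powerset, sS (insert j T) a (insert j s) = sS T a s + a j := fun s _ => by
      simp only [sS, sum_insert hj, mem_insert_self, if_true]
      rw [add_comm]
      congr 1
      refine sum_congr rfl fun i hi => ?_
      have : i ≠ j := fun e => hj (e ▸ hi)
      simp [this]
    rw [sum_powerset_insert hj, sum_powerset_insert hj, sum_insert hj, card_insert_of_notMem hj,
      ← sum_add_distrib, ← sum_add_distrib]
    have f2 : ∑ s ∈ T.powerset, (sS (insert j T) a s ^ 2 + sS (insert j T) a (insert j s) ^ 2) =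
        ∑ s ∈ T.powerset, (2 * sS T a s ^ 2 + 2 * a j ^ 2) :=
      sum_congr rfl fun s hs => by rw [e1 s hs, e2 s hs]; ring
    have f4 : ∑ s ∈ T.powerset, (sS (insert j T) a s ^ 4 + sS (insert j T) a (insert j s) ^ 4) =
        ∑ s ∈ T.powerset, (2 * sS T a s ^ 4 + (12 * a j ^ 2 * sS T a s ^ 2 + 2 * a j ^ 4)) :=
      sum_congr rfl fun s hs => by rw [e1 s hs, e2 s hs]; ring
    rw [f2, f4]
    simp only [sum_add_distrib, ← mul_sum, sum_const, card_powerset, nsmul_eq_mul, ih.1]
    push_cast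
    refine ⟨by ring, ?_⟩
    have h1 : (0 : ℝ) ≤ 2 ^ T.card * a j ^ 4 := by positivity
    rw [pow_succ (2 : ℝ) T.card]
    nlinarith [ih.2]

end signs

lemma rounding {V ι : Type} [Fintype V] [Fintype ι] (G : SimpleGraph V) (D : ℕ)
    (hD : ∀ v, (G.neighborSet v).ncard ≤ D)
    (hI : ∀ S : Finset V, (∀ u ∈ S, ∀ v ∈ S, ¬ G.Adj u v) → 12 * S.card < Fintype.card V)
    (η : V → ι → ℝ) (M ε : ℝ) (hM : 0 < M) (hε0 : 0 ≤ ε) (h1 : ∀ v, M ^ 2 ≤ ∑ i, η v i ^ 2)
    (h2 : ∀ v w, G.Adj v w → ∑ i, (η v i + η w i) ^ 2 ≤ ε) (hε : 30 * D * ε ≤ M ^ 2) : False := by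
  classical
  set q : V → ℝ := fun v => ∑ i, η v i ^ 2 with hq
  have hq0 : ∀ v, 0 < q v := fun v => lt_of_lt_of_le (by positivity) (h1 v)
  set S : Finset ι → V → ℝ := fun s v => sS univ (η v) s with hS
  set R : Finset ι → V → ℝ := fun s v => ∑ w ∈ G.neighborFinset v, (S s v + S s w) ^ 2 / M ^ 2
    with hR
  set φ : Finset ι → V → ℝ := fun s v =>
    (33 / 4 * (S s v ^ 2 / q v) - S s v ^ 4 / q v ^ 2 - 2) / 16 with hφ
  have key : ∀ s, ∑ v, (φ s v - R s v) ≤ (Fintype.card V : ℝ) / 6 := by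
    intro s
    set P := univ.filter (fun v => M / 2 ≤ S s v ∧ ∀ w, G.Adj v w → (S s v + S s w) ^ 2 < M ^ 2)
      with hP
    set Q := univ.filter (fun v => S s v ≤ -(M / 2) ∧ ∀ w, G.Adj v w → (S s v + S s w) ^ 2 < M ^ 2)
      with hQ
    have hP' : (12 * P.card : ℝ) < Fintype.card V := by
      exact_mod_cast hI P fun u hu v hv h => by
        simp only [hP, mem_filter, mem_univ, true_and] at hu hv
        nlinarith [hu.2 v h, hu.1, hv.1]
    have hQ' : (12 * Q.card : ℝ) < Fintype.card V := by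
      exact_mod_cast hI Q fun u hu v hv h => by
        simp only [hQ, mem_filter, mem_univ, true_and] at hu hv
        nlinarith [hu.2 v h, hu.1, hv.1]
    have hv : ∀ v, φ s v - R s v ≤ (if v ∈ P then 1 else 0) + (if v ∈ Q then 1 else 0) := by
      intro v
      have hR0 : 0 ≤ R s v := sum_nonneg fun w _ => by positivity
      set t := S s v ^ 2 / q v with ht
      have e : φ s v = (33 / 4 * t - t ^ 2 - 2) / 16 := by
        simp only [hφ, ht, div_pow, ← pow_mul]
      have hφ1 : φ s v ≤ 1 := by rw [e]; nlinarith [sq_nonneg (t - 33 / 8)]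
      have hi : (0 : ℝ) ≤ if v ∈ P then 1 else 0 := by split_ifs <;> norm_num
      have hj : (0 : ℝ) ≤ if v ∈ Q then 1 else 0 := by split_ifs <;> norm_num
      by_cases c1 : ∀ w, G.Adj v w → (S s v + S s w) ^ 2 < M ^ 2
      · by_cases c2 : M / 2 ≤ S s v
        · have : v ∈ P := by simp only [hP, mem_filter, mem_univ, true_and]; exact ⟨c2, c1⟩
          rw [if_pos this]; linarith
        by_cases c3 : S s v ≤ -(M / 2)
        · have : v ∈ Q := by simp only [hQ, mem_filter, mem_univ, true_and]; exact ⟨c3, c1⟩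
          rw [if_pos this]; linarith
        have h3 : t ≤ 1 / 4 := by
          rw [ht, div_le_iff₀ (hq0 v)]
          nlinarith [h1 v]
        have : φ s v ≤ 0 := by rw [e]; nlinarith
        linarith
      · push Not at c1
        obtain ⟨w, hw, c1⟩ := c1
        have : 1 ≤ R s v := le_trans ((one_le_div (by positivity)).2 c1)
          (single_le_sum (f := fun w => (S s v + S s w) ^ 2 / M ^ 2) (fun w _ => by positivity)
            (by simpa using hw))
        linarith
    have := sum_le_sum (s := univ) fun v _ => hv v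
    simp only [sum_add_distrib, sum_ite_mem, univ_inter, sum_const, nsmul_eq_mul, mul_one] at this
    linarith
  set K : ℝ := 2 ^ Fintype.card ι with hK
  have hK0 : 0 < K := by positivity
  have m2 : ∀ a : ι → ℝ, ∑ s, sS univ a s ^ 2 = K * ∑ i, a i ^ 2 := fun a => by
    simpa using (moments a univ).1
  have m4 : ∀ a : ι → ℝ, ∑ s, sS univ a s ^ 4 ≤ 3 * K * (∑ i, a i ^ 2) ^ 2 := fun a => by
    simpa using (moments a univ).2
  have low : ∀ v, K * (13 / 64 - 1 / 30) ≤ ∑ s, (φ s v - R s v) := by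
    intro v
    have a1 : ∑ s, S s v ^ 2 / q v = K := by
      rw [← sum_div, m2]; exact mul_div_cancel_right₀ _ (hq0 v).ne'
    have a2 : ∑ s, S s v ^ 4 / q v ^ 2 ≤ 3 * K := by
      rw [← sum_div, div_le_iff₀ (pow_pos (hq0 v) 2)]; exact m4 _
    have a3 : ∑ s, R s v ≤ K / 30 := by
      simp only [hR]
      rw [sum_comm]
      have : ∀ w ∈ G.neighborFinset v, ∑ s, (S s v + S s w) ^ 2 / M ^ 2 ≤ K * ε / M ^ 2 := by
        intro w hw
        rw [← sum_div]
        simp only [hS, ← sS_add]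
        rw [m2]
        gcongr
        exact h2 v w (by simpa using hw)
      refine (sum_le_card_nsmul _ _ _ this).trans ?_
      have hd : ((G.neighborFinset v).card : ℝ) ≤ D := by
        have := hD v
        rw [Set.ncard_eq_toFinset_card'] at this
        exact_mod_cast this
      rw [nsmul_eq_mul]
      calc _ ≤ D * (K * ε / M ^ 2) := by gcongr
        _ = K / 30 * (30 * D * ε / M ^ 2) := by ring
        _ ≤ K / 30 * 1 := by gcongr; exact (div_le_one (by positivity)).2 hε
        _ = _ := mul_one _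
    simp only [hφ, sum_sub_distrib, ← sum_div, ← mul_sum, sum_const, card_univ, Fintype.card_finset,
      nsmul_eq_mul] at a1 a2 ⊢
    push_cast
    rw [a1]
    linarith
  have t1 := sum_le_sum (s := univ) fun s _ => key s
  have t2 := sum_le_sum (s := univ) fun v _ => low v
  rw [sum_comm] at t2
  simp only [sum_const, card_univ, Fintype.card_finset, nsmul_eq_mul] at t1 t2
  push_cast at t1
  have hN : (0 : ℝ) < Fintype.card V := by
    have := hI ∅ (by simp)
    exact_mod_cast (by omega : 0 < Fintype.card V)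
  nlinarith [mul_pos hN hK0]

noncomputable def cube (z : ℂ) : ℂ := ‖z‖ * Complex.exp (z.arg * Complex.I) ^ 3

lemma norm_cube (z : ℂ) : ‖cube z‖ = ‖z‖ := by
  simp [cube, Complex.norm_exp_ofReal_mul_I]

lemma cube_aux (r s : ℝ) (hr : 0 ≤ r) (hs : 0 ≤ s) (α β : ℂ) (hα : ‖α‖ = 1) (hβ : ‖β‖ = 1) :
    ‖r * α ^ 3 - s * β ^ 3‖ ≤ 7 * ‖r * α - s * β‖ := by
  have h1 : |r - s| ≤ ‖r * α - s * β‖ := by
    simpa [hα, hβ, abs_of_nonneg hr, abs_of_nonneg hs] using abs_norm_sub_norm_le (r * α) (s * β)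
  have h2 : ∀ γ : ℂ, ‖γ‖ = 1 → ‖((r : ℂ) - s) * γ‖ = |r - s| := fun γ h => by
    rw [norm_mul, h, mul_one, ← Complex.ofReal_sub, Complex.norm_real, Real.norm_eq_abs]
  have h3 : ‖s * (α - β)‖ ≤ 2 * ‖r * α - s * β‖ := by
    have := norm_sub_le (r * α - s * β) (((r : ℂ) - s) * α)
    rw [h2 α hα, show r * α - s * β - ((r : ℂ) - s) * α = s * (α - β) by ring] at this
    linarith
  have h4 : ‖α ^ 2 + α * β + β ^ 2‖ ≤ 3 := by
    have := norm_add₃_le (a := α ^ 2) (b := α * β) (c := β ^ 2)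
    simp only [norm_pow, norm_mul, hα, hβ] at this
    linarith
  have h5 := norm_add_le (((r : ℂ) - s) * α ^ 3) (s * (α - β) * (α ^ 2 + α * β + β ^ 2))
  rw [h2 _ (by simp [hα]), norm_mul (s * (α - β)),
    show ((r : ℂ) - s) * α ^ 3 + s * (α - β) * (α ^ 2 + α * β + β ^ 2) = r * α ^ 3 - s * β ^ 3 by
      ring] at h5
  nlinarith [norm_nonneg (s * (α - β)), norm_nonneg (α ^ 2 + α * β + β ^ 2)]

lemma cube_add (a b ω : ℂ) (h1 : ‖ω‖ = 1) (h3 : ω ^ 3 = 1) :
    ‖cube a + cube b‖ ≤ 7 * ‖a + ω * b‖ := by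
  have := cube_aux ‖a‖ ‖b‖ (norm_nonneg _) (norm_nonneg _) (Complex.exp (a.arg * Complex.I))
    (-(ω * Complex.exp (b.arg * Complex.I))) (Complex.norm_exp_ofReal_mul_I _)
    (by simp [h1, Complex.norm_exp_ofReal_mul_I])
  convert this using 3
  · simp only [cube]
    linear_combination (-(‖b‖ : ℂ) * Complex.exp (b.arg * Complex.I) ^ 3) * h3
  · have ea := Complex.norm_mul_exp_arg_mul_I a
    have eb := Complex.norm_mul_exp_arg_mul_I b
    linear_combination -ea - ω * eb

lemma parseval {A : Type} [AddCommGroup A] [Fintype A] (f : A → ℝ) :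
    ∑ χ : AddChar A ℂ, ‖∑ c, (f c : ℂ) * χ c‖ ^ 2 = Fintype.card A * ∑ c, f c ^ 2 := by
  classical
  have e : ∀ χ : AddChar A ℂ, ((‖∑ c, (f c : ℂ) * χ c‖ ^ 2 : ℝ) : ℂ) =
      ∑ c, ∑ c', (f c : ℂ) * f c' * χ (c - c') := by
    intro χ
    rw [← Complex.normSq_eq_norm_sq, ← Complex.mul_conj, map_sum, sum_mul_sum]
    refine sum_congr rfl fun c _ => sum_congr rfl fun c' _ => ?_
    rw [sub_eq_add_neg, AddChar.map_add_eq_mul, AddChar.map_neg_eq_conj, map_mul,
      Complex.conj_ofReal]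
    ring
  apply Complex.ofReal_injective
  rw [Complex.ofReal_sum]
  simp only [e]
  rw [sum_comm]
  push_cast
  rw [mul_sum]
  refine sum_congr rfl fun c _ => ?_
  rw [sum_comm]
  simp only [← mul_sum, AddChar.sum_apply_eq_ite, sub_eq_zero, mul_ite, mul_zero, sum_ite_eq,
    mem_univ, if_true]
  ring

end Pool.Agent.H2.CE
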