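import Pool.Agent.H2.CE1
import Pool.Agent.H2.CE2

/-! The covering graphs: spectral obstruction and the wall map. -/

set_option autoImplicit false

namespace Pool.Agent.H2.CE

open Finset SimpleGraph Pool.Agent.H11.Girth
open Pool.Agent.H7.Rewire (NoOdd)

universe u

variable {V : Type} [Fintype V] [DecidableEq V]

abbrev Pt (V : Type) := V × (V × V → ZMod 3) × Bool

def cov (G : SimpleGraph V) : SimpleGraph (Pt V) where
  Adj x y := G.Adj x.1 y.1 ∧ y.2.1 = x.2.1 + dl x.1 y.1 ∧ y.2.2 = !x.2.2
  symm := ⟨fun x y h => ⟨h.1.symm, by rw [h.2.1, dl_swap x.1 y.1]; simp, by rw [h.2.2]; simp⟩⟩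
  loopless := ⟨fun x h => G.irrefl h.1⟩

omit [Fintype V] in
lemma cov_walk {G : SimpleGraph V} {x y : Pt V} (p : (cov G).Walk x y) :
    ∃ q : G.Walk x.1 y.1, q.length = p.length ∧ (y.2.2 = x.2.2 ↔ p.length % 2 = 0) := by
  induction p with
  | nil => exact ⟨.nil, rfl, by simp⟩
  | @cons x z y h p ih =>
    obtain ⟨q, h1, h2⟩ := ih
    refine ⟨.cons h.1 q, by simp [h1], ?_⟩
    rw [h.2.2] at h2
    rw [Walk.length_cons]
    cases hx : x.2.2 <;> cases hy : y.2.2 <;> simp [hx, hy] at h2 ⊢ <;> omega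

omit [Fintype V] in
lemma cov_far {G : SimpleGraph V} {g : ℕ} (h : NoOdd G g) (v : V) (c : V × V → ZMod 3)
    (p : (cov G).Walk (v, c, true) (v, c, false)) : g < p.length := by
  obtain ⟨q, h1, h2⟩ := cov_walk p
  by_contra hl
  have := h v q (by omega)
  simp [← h1, this] at h2

lemma fin_copy {H : Type u} [NormedAddCommGroup H] [InnerProductSpace ℝ H] {P : Type} [Finite P]
    (a : P → H) : ∃ (k : ℕ) (a' : P → EuclideanSpace ℝ (Fin k)),
      ∀ p q, ‖a' p - a' q‖ = ‖a p - a q‖ := by
  set W := Submodule.span ℝ (Set.range a)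
  haveI : FiniteDimensional ℝ W := FiniteDimensional.span_of_finite ℝ (Set.finite_range a)
  refine ⟨_, fun p => (stdOrthonormalBasis ℝ W).repr ⟨a p, Submodule.subset_span ⟨p, rfl⟩⟩,
    fun p q => ?_⟩
  rw [← map_sub, LinearIsometryEquiv.norm_map]
  rfl

lemma no_emb {H : Type u} [NormedAddCommGroup H] [InnerProductSpace ℝ H] (G : SimpleGraph V)
    (D : ℕ) (hD : ∀ v, (G.neighborSet v).ncard ≤ D)
    (hI : ∀ S : Finset V, (∀ u ∈ S, ∀ v ∈ S, ¬ G.Adj u v) → 12 * S.card < Fintype.card V)
    (a : Pt V → H) (L M : ℝ) (hM : 0 < M) (h1 : ∀ x y, (cov G).Adj x y → ‖a x - a y‖ ≤ L)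
    (h2 : ∀ v c, M ≤ ‖a (v, c, true) - a (v, c, false)‖) (h3 : 5880 * D * L ^ 2 ≤ M ^ 2) :
    False := by
  obtain ⟨k, a', ha⟩ := fin_copy a
  simp only [← ha] at h1 h2
  set u : V → (V × V → ZMod 3) → EuclideanSpace ℝ (Fin k) :=
    fun v c => a' (v, c, true) - a' (v, c, false) with hu
  set F : V → Fin k → AddChar (V × V → ZMod 3) ℂ → ℂ := fun v j χ => ∑ c, (u v c j : ℂ) * χ c
    with hF
  set K : ℝ := (Fintype.card (V × V → ZMod 3) : ℝ) with hK
  have hK0 : 0 < K := Nat.cast_pos.2 Fintype.card_pos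
  have par : ∀ w : (V × V → ZMod 3) → EuclideanSpace ℝ (Fin k),
      ∑ j, ∑ χ : AddChar (V × V → ZMod 3) ℂ, ‖∑ c, (w c j : ℂ) * χ c‖ ^ 2 = K * ∑ c, ‖w c‖ ^ 2 := by
    intro w
    simp only [parseval, ← mul_sum, EuclideanSpace.real_norm_sq_eq]
    rw [sum_comm]
  have sq : ∀ z : ℂ, z.re ^ 2 + z.im ^ 2 = ‖z‖ ^ 2 := fun z => by
    rw [← Complex.normSq_eq_norm_sq, Complex.normSq_apply]; ring
  refine rounding (ι := Fin k × AddChar (V × V → ZMod 3) ℂ × Bool) G D hD hI
    (fun v i => if i.2.2 then (cube (F v i.1 i.2.1)).re else (cube (F v i.1 i.2.1)).im)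
    (K * M) (196 * K ^ 2 * L ^ 2) (by positivity) (by positivity) (fun v => ?_) (fun v w h => ?_)
    (by nlinarith [sq_pos_of_pos hK0])
  · simp only [Fintype.sum_prod_type, Fintype.sum_bool, if_true, Bool.false_eq_true, if_false, sq,
      norm_cube, hF, par]
    have := card_nsmul_le_sum univ (fun c => ‖u v c‖ ^ 2) (M ^ 2)
      (fun c _ => pow_le_pow_left₀ hM.le (h2 v c) 2)
    rw [nsmul_eq_mul, card_univ, ← hK] at this
    nlinarith
  · simp only [Fintype.sum_prod_type, Fintype.sum_bool, if_true, Bool.false_eq_true, if_false,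
      ← Complex.add_re, ← Complex.add_im, sq]
    set g : (V × V → ZMod 3) → EuclideanSpace ℝ (Fin k) := fun c => u v c + u w (c + dl v w)
      with hg
    have e : ∀ j χ, ‖cube (F v j χ) + cube (F w j χ)‖ ^ 2 ≤ 49 * ‖∑ c, (g c j : ℂ) * χ c‖ ^ 2 := by
      intro j χ
      have h4 := cube_add (F v j χ) (F w j χ) (χ (-dl v w)) (AddChar.norm_apply _ _) (by
        rw [← AddChar.map_nsmul_eq_pow]
        have : 3 • -dl v w = 0 := by
          ext p
          have : ∀ z : ZMod 3, 3 • z = 0 := by decide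
          exact this _
        rw [this, AddChar.map_zero_eq_one])
      have e2 : F v j χ + χ (-dl v w) * F w j χ = ∑ c, (g c j : ℂ) * χ c := by
        simp only [hF, hg, PiLp.add_apply, Complex.ofReal_add, add_mul, sum_add_distrib, mul_sum]
        congr 1
        rw [← Equiv.sum_comp (Equiv.addRight (dl v w))]
        refine sum_congr rfl fun c _ => ?_
        simp only [Equiv.coe_addRight]
        rw [mul_left_comm, ← AddChar.map_add_eq_mul]
        congr 2
        abel
      rw [e2] at h4
      nlinarith [norm_nonneg (cube (F v j χ) + cube (F w j χ))]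
    refine (sum_le_sum fun j _ => sum_le_sum fun χ _ => e j χ).trans ?_
    simp only [← mul_sum, par]
    have e3 : ∀ c, ‖g c‖ ^ 2 ≤ (2 * L) ^ 2 := fun c => by
      refine pow_le_pow_left₀ (norm_nonneg _) ?_ 2
      have b1 := h1 (v, c, true) (w, c + dl v w, false) ⟨h, rfl, rfl⟩
      have b2 := h1 (v, c, false) (w, c + dl v w, true) ⟨h, rfl, rfl⟩
      have := norm_sub_le (a' (v, c, true) - a' (w, c + dl v w, false))
        (a' (v, c, false) - a' (w, c + dl v w, true))
      rw [show a' (v, c, true) - a' (w, c + dl v w, false) -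
        (a' (v, c, false) - a' (w, c + dl v w, true)) = g c by simp only [hg, hu]; abel] at this
      linarith
    have := sum_le_card_nsmul univ (fun c => ‖g c‖ ^ 2) _ (fun c _ => e3 c)
    rw [nsmul_eq_mul, card_univ, ← hK] at this
    nlinarith

open Classical in
noncomputable def lab (G : SimpleGraph V) (x : Pt V) : (V → ZMod 3) × (V × V → ZMod 3) :=
  (fun y => bd x.2.1 y + if y = x.1 then 1 else 0,
    fun p => if G.Adj p.1 p.2 then x.2.1 p + x.2.1 p.swap else x.2.1 p)

abbrev Eu (V : Type) [Fintype V] :=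
  EuclideanSpace ℝ (((V × V) × ZMod 3) ⊕ ((V → ZMod 3) × (V × V → ZMod 3)))

noncomputable def wall (G : SimpleGraph V) (n : ℕ) (x : Pt V) : Eu V :=
  WithLp.toLp 2 (Sum.elim (fun e => if x.2.1 e.1 = e.2 then 1 else 0)
    (fun κ => if lab G x = κ then n else 0))

lemma ind_sq {α : Type} [Fintype α] [DecidableEq α] (a b : α) (t : ℝ) :
    ∑ j, ((if a = j then t else 0) - if b = j then t else 0) ^ 2 = if a = b then 0 else 2 * t ^ 2 := by
  split_ifs with h
  · simp [h]
  · have : ∀ j, ((if a = j then t else 0) - if b = j then t else 0) ^ 2 =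
        (if a = j then t ^ 2 else 0) + if b = j then t ^ 2 else 0 := fun j => by
      split_ifs with h1 h2
      · exact absurd (h1.trans h2.symm) h
      all_goals simp
    simp only [this, sum_add_distrib, sum_ite_eq, mem_univ, if_true]
    ring

lemma wall_sq (G : SimpleGraph V) (n : ℕ) (x y : Pt V) : ‖wall G n x - wall G n y‖ ^ 2 =
    2 * (univ.filter fun e => x.2.1 e ≠ y.2.1 e).card +
      if lab G x = lab G y then 0 else 2 * (n : ℝ) ^ 2 := by
  rw [EuclideanSpace.real_norm_sq_eq, Fintype.sum_sum_type, Fintype.sum_prod_type]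
  simp only [wall, PiLp.sub_apply, Sum.elim_inl, Sum.elim_inr, ind_sq]
  congr 1
  rw [card_filter]
  push_cast
  rw [mul_sum]
  refine sum_congr rfl fun e _ => ?_
  split_ifs <;> simp_all

lemma le_wall (G : SimpleGraph V) (n : ℕ) (x : Pt V) : n ≤ ‖wall G n x‖ := by
  simpa [wall] using PiLp.norm_apply_le (wall G n x) (.inr (lab G x))

lemma wall_adj {G : SimpleGraph V} (n : ℕ) {x y : Pt V} (h : (cov G).Adj x y) :
    ‖wall G n x - wall G n y‖ ≤ 2 := by
  obtain ⟨h1, h2, -⟩ := h
  have e : lab G x = lab G y := by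
    refine Prod.ext (funext fun z => ?_) (funext fun p => ?_)
    · have := bd_dl x.1 y.1 z
      simp only [lab, h2, bd, Pi.add_apply, sum_add_distrib] at this ⊢
      rw [this]; ring
    · simp only [lab, h2, Pi.add_apply]
      split_ifs with h3
      · have := anti_dl x.1 y.1 p.1 p.2
        simp only [Prod.swap]
        linear_combination -this
      · have a1 : p ≠ (x.1, y.1) := fun e => h3 (by rw [e]; exact h1)
        have a2 : p ≠ (y.1, x.1) := fun e => h3 (by rw [e]; exact h1.symm)
        simp [dl, a1, a2]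
  have c : (univ.filter fun e => x.2.1 e ≠ y.2.1 e).card ≤ 2 := by
    refine (card_le_card (t := {(x.1, y.1), (y.1, x.1)}) fun p hp => ?_).trans card_le_two
    by_contra h3
    simp only [mem_insert, mem_singleton, not_or] at h3
    simp [h2, dl, h3.1, h3.2] at hp
  have := wall_sq G n x y
  rw [if_pos e] at this
  have c' : ((univ.filter fun e => x.2.1 e ≠ y.2.1 e).card : ℝ) ≤ 2 := by exact_mod_cast c
  nlinarith [norm_nonneg (wall G n x - wall G n y)]

lemma wall_ball {G : SimpleGraph V} {D n R : ℕ} (hD : ∀ v, (G.neighborSet v).ncard ≤ D)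
    (hP : Pn G n) (hR : R < n) (x : Pt V) :
    {y | ‖wall G n x - wall G n y‖ ^ 2 ≤ R}.ncard ≤
      (D + 1) ^ R * (3 ^ ((D + 1) ^ R * (D + 1) ^ R) * 2) := by
  classical
  have hd' : ∀ v, G.degree v ≤ D := fun v => by
    have := hD v
    rwa [Set.ncard_eq_toFinset_card', Set.toFinset_card, card_neighborSet_eq_degree] at this
  obtain ⟨B, hB1, hB2⟩ := ball_bound G D hd' x.1 R
  set T : Finset (Pt V) := B ×ˢ
    (Fintype.piFinset fun e => if e ∈ B ×ˢ B then univ else {x.2.1 e}) ×ˢ univ with hT
  have h1 : {y | ‖wall G n x - wall G n y‖ ^ 2 ≤ R} ⊆ T := by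
    intro y hy
    have hy : ‖wall G n x - wall G n y‖ ^ 2 ≤ R := hy
    rw [wall_sq] at hy
    have hn : (R : ℝ) + 1 ≤ n := by exact_mod_cast hR
    have e : lab G x = lab G y := by
      by_contra e
      rw [if_neg e] at hy
      have : (0 : ℝ) ≤ (univ.filter fun e => x.2.1 e ≠ y.2.1 e).card := by positivity
      have : (0 : ℝ) ≤ R := by positivity
      nlinarith
    rw [if_pos e] at hy
    have c : (univ.filter fun e => x.2.1 e ≠ y.2.1 e).card ≤ R := by
      have : (0 : ℝ) ≤ (univ.filter fun e => x.2.1 e ≠ y.2.1 e).card := by positivity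
      exact_mod_cast (by linarith : ((univ.filter fun e => x.2.1 e ≠ y.2.1 e).card : ℝ) ≤ R)
    set b : V × V → ZMod 3 := y.2.1 - x.2.1 with hb
    have e2 := fun u v => congrFun (congrArg Prod.snd e) (u, v)
    simp only [lab, Prod.swap] at e2
    have ho : On G b := fun u v h => by
      by_contra h3
      have := e2 u v
      simp only [h3, if_false] at this
      simp [hb, this] at h
    have ha : Anti b := fun u v => by
      by_cases h3 : G.Adj u v
      · have := e2 u v
        simp only [h3, if_true] at this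
        simp only [hb, Pi.sub_apply]
        linear_combination -this
      · have a1 : b (u, v) = 0 := by by_contra h; exact h3 (ho u v h)
        have a2 : b (v, u) = 0 := by by_contra h; exact h3 (ho v u h).symm
        simp [a1, a2]
    have hd : ∀ z, bd b z = (if z = x.1 then 1 else 0) - (if z = y.1 then 1 else 0) := fun z => by
      have := congrFun (congrArg Prod.fst e) z
      simp only [lab, bd] at this
      simp only [bd, hb, Pi.sub_apply, sum_sub_distrib]
      linear_combination -this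
    have hs : (supp b).card ≤ R := by
      refine le_trans (card_le_card (t := (univ.filter fun e => x.2.1 e ≠ y.2.1 e).image Prod.fst)
        fun z hz => ?_) (card_image_le.trans c)
      obtain ⟨w, hw⟩ := mem_supp.1 hz
      refine mem_image.2 ⟨(z, w), ?_, rfl⟩
      exact mem_filter.2 ⟨mem_univ _, fun h => hw (by simp [hb, h])⟩
    have hB : ∀ z, z = y.1 ∨ z ∈ supp b → z ∈ B := fun z hz => by
      obtain ⟨p, hp⟩ := loc hP ha ho hd (hs.trans hR.le) hz
      exact hB2 z p.reverse (by rw [Walk.length_reverse]; omega)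
    simp only [hT, coe_product, Set.mem_prod, mem_coe, Fintype.mem_piFinset, mem_univ, and_true]
    refine ⟨hB _ (.inl rfl), fun p => ?_⟩
    split_ifs with h3
    · exact mem_univ _
    · by_contra h4
      have h5 : b (p.1, p.2) ≠ 0 := by simpa [hb, sub_eq_zero] using h4
      refine h3 (mem_product.2 ⟨hB _ (.inr (mem_supp.2 ⟨_, h5⟩)), hB _ (.inr (mem_supp.2 ⟨p.1, ?_⟩))⟩)
      rw [ha]; simpa using h5
  refine (Set.ncard_le_ncard h1).trans ?_
  rw [Set.ncard_coe_finset, hT, card_product, card_product, Fintype.card_piFinset]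
  simp only [apply_ite card, card_univ, ZMod.card, card_singleton, Fintype.card_bool,
    prod_ite_mem, univ_inter, prod_const, card_product]
  gcongr
  norm_num

end Pool.Agent.H2.CE
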