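import Mathlib

set_option autoImplicit false

namespace Pool.Agent.H2.CE

universe u

/-- uniformly locally finite metric space -/
def ULF (X : Type) [MetricSpace X] : Prop :=
  ∀ r : ℝ, 0 < r → ∃ N : ℕ, ∀ x : X, (Metric.closedBall x r).encard ≤ N

/-- coarse map -/
def IsCoarse {X Y : Type} [MetricSpace X] [MetricSpace Y] (f : X → Y) : Prop :=
  ∀ r : ℝ, 0 < r → ∃ s : ℝ, 0 < s ∧ ∀ x x', dist x x' ≤ r → dist (f x) (f x') ≤ s

/-- uniformly finite-to-one map -/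
def UFin {X Y : Type} (f : X → Y) : Prop := ∃ N : ℕ, ∀ y, (f ⁻¹' {y}).encard ≤ N

/-- `X` coarsely embeds into a Hilbert space over `𝕜` -/
def CoarseEmb (𝕜 : Type) [RCLike 𝕜] (X : Type) [MetricSpace X] : Prop :=
  ∃ (H : Type u) (_ : NormedAddCommGroup H) (_ : InnerProductSpace 𝕜 H) (_ : CompleteSpace H)
    (g : X → H) (ρ₁ ρ₂ : NNReal → NNReal), Filter.Tendsto ρ₁ Filter.atTop Filter.atTop ∧
      ∀ x x', ρ₁ (nndist x x') ≤ ‖g x - g x'‖₊ ∧ ‖g x - g x'‖₊ ≤ ρ₂ (nndist x x')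

end Pool.Agent.H2.CE
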