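import Pool.Agent.H2.CE3
import Pool.Agent.H2.CEDefs

/-! The two metric spaces. -/

set_option autoImplicit false

namespace Pool.Agent.H2.CE

open Finset SimpleGraph Filter
open Pool.Agent.H7.Rewire (NoOdd)

universe u

noncomputable def NN (n : ℕ) : ℕ := (exists_base n).choose

noncomputable def GG (n : ℕ) : SimpleGraph (Fin (NN n)) := (exists_base n).choose_spec.choose

lemma GG_spec (n : ℕ) : (∀ v, ((GG n).neighborSet v).ncard ≤ 60000) ∧ NoOdd (GG n) (n + 1) ∧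
    Pn (GG n) n ∧ ∀ S : Finset (Fin (NN n)), (∀ u ∈ S, ∀ v ∈ S, ¬ (GG n).Adj u v) →
      12 * S.card < NN n := (exists_base n).choose_spec.choose_spec

abbrev ZZ : Type := Σ n, Pt (Fin (NN n))

abbrev HH : Type := lp (fun n => Eu (Fin (NN n))) 2

noncomputable def ff (x : ZZ) : HH := lp.single 2 x.1 (wall (GG x.1) x.1 x.2)

lemma ff_same (n : ℕ) (a b : Pt (Fin (NN n))) :
    ‖ff ⟨n, a⟩ - ff ⟨n, b⟩‖ = ‖wall (GG n) n a - wall (GG n) n b‖ := by
  simp only [ff]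
  rw [← lp.single_sub, lp.norm_single (by norm_num)]

lemma ff_ne {x y : ZZ} (h : y.1 ≠ x.1) : y.1 ≤ ‖ff x - ff y‖ := by
  have := lp.norm_apply_le_norm (by norm_num) (ff x - ff y) y.1
  simp only [ff, lp.coeFn_sub, Pi.sub_apply, lp.single_apply_self, lp.single_apply_ne _ _ _ h,
    zero_sub, norm_neg] at this
  exact (le_wall _ _ _).trans this

lemma fin_lev (m : ℕ) : {x : ZZ | x.1 ≤ m}.Finite :=
  (Set.Finite.biUnion (Set.finite_Iic m) fun n _ =>
    Set.finite_range (Sigma.mk (β := fun n => Pt (Fin (NN n))) n)).subset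
      fun x hx => Set.mem_biUnion hx ⟨x.2, rfl⟩

def near (l : ℕ) (x y : ZZ) : Prop :=
  ∃ n a b, x = ⟨n, a⟩ ∧ y = ⟨n, b⟩ ∧ ∃ p : (cov (GG n)).Walk a b, p.length ≤ l

def Rel (l : ℕ) (x y : ZZ) : Prop := near l x y ∨ x.1 + y.1 + 2 ≤ l

lemma Rel.trans {l l' : ℕ} {x y z : ZZ} (h : Rel l x y) (h' : Rel l' y z) : Rel (l + l') x z := by
  rcases h with ⟨n, a, b, rfl, rfl, p, hp⟩ | h <;> rcases h' with ⟨m, c, d, e, rfl, q, hq⟩ | h'
  · cases e
    exact .inl ⟨_, _, _, rfl, rfl, p.append q, by rw [Walk.length_append]; omega⟩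
  · exact .inr (by simp only at h' ⊢; omega)
  · subst e
    exact .inr (by simp only at h ⊢; omega)
  · exact .inr (by omega)

lemma Rel.symm {l : ℕ} {x y : ZZ} (h : Rel l x y) : Rel l y x := by
  rcases h with ⟨n, a, b, rfl, rfl, p, hp⟩ | h
  · exact .inl ⟨_, _, _, rfl, rfl, p.reverse, by rwa [Walk.length_reverse]⟩
  · exact .inr (by omega)

lemma Rel.mono {l l' : ℕ} {x y : ZZ} (h : Rel l x y) (hl : l ≤ l') : Rel l' x y := by
  rcases h with ⟨n, a, b, rfl, rfl, p, hp⟩ | h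
  · exact .inl ⟨_, _, _, rfl, rfl, p, hp.trans hl⟩
  · exact .inr (h.trans hl)

lemma Rel.ex (x y : ZZ) : ∃ l, Rel l x y := ⟨_, .inr le_rfl⟩

open Classical in
noncomputable def dd (x y : ZZ) : ℕ := Nat.find (Rel.ex x y)

open Classical in
lemma dd_le {l : ℕ} {x y : ZZ} : dd x y ≤ l ↔ Rel l x y :=
  (Nat.find_le_iff _ _).trans ⟨fun ⟨_, h, h'⟩ => h'.mono h, fun h => ⟨_, le_rfl, h⟩⟩

def XX : Type := ZZ

def YY : Type := ZZ

noncomputable instance : MetricSpace XX where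
  dist x y := dd x y
  dist_self x := by
    simpa using dd_le.2 (.inl (⟨x.1, x.2, x.2, rfl, rfl, .nil, le_rfl⟩ : near 0 x x))
  dist_comm x y := by
    have : ∀ x y : ZZ, dd x y ≤ dd y x := fun x y => dd_le.2 (dd_le.1 le_rfl).symm
    rw [le_antisymm (this x y) (this y x)]
  dist_triangle x y z := by exact_mod_cast dd_le.2 ((dd_le.1 le_rfl).trans (dd_le.1 le_rfl))
  eq_of_dist_eq_zero {x y} h := by
    obtain ⟨n, a, b, rfl, rfl, p, hp⟩ :=
      (dd_le.1 (Nat.cast_eq_zero.1 h).le).resolve_right (by omega)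
    rw [p.eq_of_length_eq_zero (by omega)]

open Classical in
noncomputable instance : MetricSpace YY where
  dist x y := ‖ff x - ff y‖ + if x = y then 0 else 1
  dist_self x := by simp
  dist_comm x y := by rw [norm_sub_rev]; simp only [eq_comm]
  dist_triangle x y z := by
    have := norm_sub_le_norm_sub_add_norm_sub (ff x) (ff y) (ff z)
    by_cases h1 : x = y
    · simp [h1]
    · by_cases h2 : y = z
      · simp [h2]
      · simp only [h1, h2, if_false]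
        split_ifs <;> linarith
  eq_of_dist_eq_zero {x y} h := by
    by_contra c
    simp only [c, if_false] at h
    linarith [norm_nonneg (ff x - ff y)]

lemma distY (x y : YY) : ‖ff x - ff y‖ ≤ dist x y ∧ dist x y ≤ ‖ff x - ff y‖ + 1 := by
  classical
  have : dist x y = ‖ff x - ff y‖ + if x = y then 0 else 1 := by congr
  rw [this]
  split_ifs <;> simp

def ii (x : XX) : YY := x

lemma coarse : IsCoarse ii := by
  intro r hr
  obtain ⟨C, hC⟩ := ((fin_lev ⌈r⌉₊).image fun x => ‖ff x‖).bddAbove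
  refine ⟨2 * ⌈r⌉₊ + 2 * |C| + 1, by positivity, fun x y h => (distY _ _).2.trans ?_⟩
  have hC0 := abs_nonneg C
  rcases dd_le.1 (Nat.cast_le.1 (h.trans (Nat.le_ceil r))) with ⟨n, a, b, rfl, rfl, p, hp⟩ | h
  · have : ∀ {a b : Pt (Fin (NN n))} (p : (cov (GG n)).Walk a b),
        ‖wall (GG n) n a - wall (GG n) n b‖ ≤ 2 * p.length := by
      intro a b p
      induction p with
      | nil => simp
      | @cons a c b h p ih =>
        have := norm_sub_le_norm_sub_add_norm_sub (wall (GG n) n a) (wall (GG n) n c)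
          (wall (GG n) n b)
        have := wall_adj n h
        rw [Walk.length_cons]; push_cast; linarith
    have h1 := this p
    have h2 : (p.length : ℝ) ≤ ⌈r⌉₊ := by exact_mod_cast hp
    rw [← ff_same] at h1
    have : ‖ff (ii ⟨n, a⟩) - ff (ii ⟨n, b⟩)‖ ≤ 2 * p.length := h1
    linarith
  · have h1 : ‖ff x‖ ≤ C := hC ⟨x, by simp only [Set.mem_setOf_eq]; omega, rfl⟩
    have h2 : ‖ff y‖ ≤ C := hC ⟨y, by simp only [Set.mem_setOf_eq]; omega, rfl⟩
    have h3 : ‖ff (ii x) - ff (ii y)‖ ≤ ‖ff x‖ + ‖ff y‖ := norm_sub_le _ _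
    have := le_abs_self C
    have : (0 : ℝ) ≤ ⌈r⌉₊ := by positivity
    linarith

lemma ulfY : ULF YY := by
  intro r hr
  set R := ⌈r ^ 2⌉₊ + ⌈r⌉₊ with hR
  refine ⟨(fin_lev R).toFinset.card +
    (60000 + 1) ^ R * (3 ^ ((60000 + 1) ^ R * (60000 + 1) ^ R) * 2), fun x => ?_⟩
  obtain ⟨n, a⟩ := x
  have hs : Metric.closedBall (α := YY) ⟨n, a⟩ r ⊆ ({x : ZZ | x.1 ≤ R} ∪
      Sigma.mk n '' {b | R < n ∧ ‖wall (GG n) n a - wall (GG n) n b‖ ^ 2 ≤ R} : Set ZZ) := by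
    rintro ⟨m, b⟩ hy
    have h1 : ‖ff ⟨n, a⟩ - ff ⟨m, b⟩‖ ≤ r := (distY _ _).1.trans (Metric.mem_closedBall'.1 hy)
    by_cases h2 : m ≤ R
    · exact .inl h2
    have hc := Nat.le_ceil r
    have h3 : m = n := by
      by_contra h3
      have : (m : ℝ) ≤ ⌈r⌉₊ := ((ff_ne (x := ⟨n, a⟩) (y := ⟨m, b⟩) h3).trans h1).trans hc
      have : m ≤ ⌈r⌉₊ := by exact_mod_cast this
      omega
    subst h3
    refine .inr ⟨b, ⟨not_le.1 h2, ?_⟩, rfl⟩
    rw [ff_same] at h1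
    have := pow_le_pow_left₀ (norm_nonneg _) h1 2
    have := Nat.le_ceil (r ^ 2)
    rw [hR]; push_cast; linarith
  refine (Set.encard_le_encard hs).trans ((Set.encard_union_le _ _).trans ?_)
  push_cast
  refine add_le_add (fin_lev R).encard_eq_coe_toFinset_card.le ((Set.encard_image_le _ _).trans ?_)
  rw [← (Set.toFinite _).cast_ncard_eq]
  by_cases h : R < n
  · simp only [h, true_and]
    exact_mod_cast wall_ball (GG_spec n).1 (GG_spec n).2.2.1 h a
  · simp [h]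

lemma ulfX : ULF XX := by
  intro r hr
  obtain ⟨s, hs, h⟩ := coarse r hr
  obtain ⟨N, hN⟩ := ulfY s hs
  exact ⟨N, fun x => le_trans (Set.encard_le_encard fun y hy => h y x hy) (hN (ii x))⟩

lemma embY : CoarseEmb.{0} ℝ YY := by
  refine ⟨HH, inferInstance, inferInstance, inferInstance, ff, fun t => t - 1, id, ?_,
    fun x y => ⟨?_, (distY x y).1⟩⟩
  · exact tendsto_atTop.2 fun b => (eventually_ge_atTop (b + 1)).mono fun t ht =>
      le_tsub_of_add_le_right ht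
  · exact tsub_le_iff_right.2 (distY x y).2

lemma not_embX (𝕜 : Type) [RCLike 𝕜] : ¬ CoarseEmb.{u} 𝕜 XX := by
  rintro ⟨H, _, _, _, g, ρ₁, ρ₂, h1, h2⟩
  letI := InnerProductSpace.rclikeToReal 𝕜 H
  obtain ⟨t, ht⟩ := eventually_atTop.1 (tendsto_atTop.1 h1 (20000 * ρ₂ 1 + 1))
  set n := ⌈t⌉₊ with hn
  refine no_emb (GG n) 60000 (GG_spec n).1 (by simpa using (GG_spec n).2.2.2)
    (fun a => g ⟨n, a⟩) (ρ₂ 1) (20000 * ρ₂ 1 + 1) (by positivity) (fun a b h => ?_)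
    (fun v c => ?_) (by push_cast; nlinarith [(ρ₂ 1).coe_nonneg])
  · have e1 : dd ⟨n, a⟩ ⟨n, b⟩ ≤ 1 := dd_le.2 (.inl ⟨n, a, b, rfl, rfl, h.toWalk, le_rfl⟩)
    have e2 : dd ⟨n, a⟩ ⟨n, b⟩ ≠ 0 := fun e => by
      have : (⟨n, a⟩ : XX) = ⟨n, b⟩ := eq_of_dist_eq_zero (γ := XX) (Nat.cast_eq_zero.2 e)
      cases this
      exact h.ne rfl
    have e3 : nndist (α := XX) ⟨n, a⟩ ⟨n, b⟩ = 1 := NNReal.eq (by
      show (dd ⟨n, a⟩ ⟨n, b⟩ : ℝ) = 1
      exact_mod_cast (by omega : dd ⟨n, a⟩ ⟨n, b⟩ = 1))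
    have := (h2 ⟨n, a⟩ ⟨n, b⟩).2
    rw [e3] at this
    exact this
  · have e1 : n < dd ⟨n, v, c, true⟩ ⟨n, v, c, false⟩ := by
      by_contra e
      rcases dd_le.1 (not_lt.1 e) with ⟨m, a, b, ea, eb, p, hp⟩ | h
      · cases ea
        cases eb
        have := cov_far (GG_spec _).2.1 v c p
        omega
      · simp only at h; omega
    have e2 : t ≤ nndist (α := XX) ⟨n, v, c, true⟩ ⟨n, v, c, false⟩ := by
      refine (Nat.le_ceil t).trans (NNReal.coe_le_coe.1 ?_)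
      show (n : ℝ) ≤ (dd ⟨n, v, c, true⟩ ⟨n, v, c, false⟩ : ℝ)
      exact_mod_cast e1.le
    exact (ht _ e2).trans (h2 _ _).1

end Pool.Agent.H2.CE
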