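import Mathlib

namespace Pool.Agent.H2.CI

/-- Chvatal functions -/
inductive Ch : (ℤ → ℤ) → Prop
  | lin (a : ℤ) : Ch fun x => a * x
  | add {f g} : Ch f → Ch g → Ch fun x => f x + g x
  | div {f} (c : ℕ) : 0 < c → Ch f → Ch fun x => f x / c

lemma Ch.cast {f g : ℤ → ℤ} (h : Ch f) (e : ∀ x, g x = f x) : Ch g := (funext e : g = f) ▸ h

lemma Ch.smul {f : ℤ → ℤ} (h : Ch f) (n : ℕ) : Ch fun x => n * f x := by
  induction n with
  | zero => exact (Ch.lin 0).cast (by simp)
  | succ n ih => exact (ih.add h).cast fun x => by push_cast; ring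

lemma Ch.zero {f : ℤ → ℤ} (h : Ch f) : f 0 = 0 := by
  induction h <;> simp [*]

lemma Ch.sup {f : ℤ → ℤ} (h : Ch f) (x y : ℤ) : f x + f y ≤ f (x + y) := by
  induction h with
  | lin a => simp [mul_add]
  | add _ _ h1 h2 => simp only; omega
  | @div f c hc _ ih =>
    have hc' : (0 : ℤ) < c := by omega
    rw [Int.le_ediv_iff_mul_le hc', add_mul]
    have := Int.ediv_mul_le (f x) hc'.ne'
    have := Int.ediv_mul_le (f y) hc'.ne'
    simp only
    omega

lemma Ch.lift {f g : ℤ → ℤ} (hf : Ch f) (hg : Ch g) (a : ℤ) :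
    ∃ N0 : ℕ, ∀ N : ℕ, N0 ≤ N → Ch fun x => f (x - a * g x) + N * g x := by
  induction hf with
  | lin b =>
    refine ⟨(b * a).toNat, fun N hN => ((Ch.lin b).add (hg.smul (N - b * a).toNat)).cast fun x => ?_⟩
    rw [Int.toNat_of_nonneg (by omega)]; ring
  | add _ _ h1 h2 =>
    obtain ⟨N1, h1⟩ := h1
    obtain ⟨N2, h2⟩ := h2
    refine ⟨N1 + N2, fun N hN => ((h1 N1 le_rfl).add (h2 (N - N1) (by omega))).cast fun x => ?_⟩
    rw [Nat.cast_sub (by omega)]; ring
  | div c hc _ ih =>
    obtain ⟨N1, h1⟩ := ih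
    refine ⟨N1, fun N hN => ((h1 (c * N) (by nlinarith)).div c hc).cast fun x => ?_⟩
    push_cast
    rw [mul_assoc, Int.add_mul_ediv_left _ _ (by omega)]

lemma Ch.mono {f : ℤ → ℤ} (h : Ch f) {a N : ℤ} (hN : -f (-a) ≤ N) (x : ℤ) (u : ℕ) :
    f x ≤ f (x - a * u) + N * u := by
  induction u with
  | zero => simp
  | succ u ih =>
    have := h.sup (x - a * u) (-a)
    rw [show x - a * ((u + 1 : ℕ) : ℤ) = x - a * u + -a by push_cast; ring]
    push_cast
    linarith

lemma sep (A : Finset ℤ) (hA : ∀ a ∈ A, 0 < a) : ∀ y, y ∉ AddSubmonoid.closure (A : Set ℤ) →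
    ∃ f, Ch f ∧ (∀ a ∈ A, 0 ≤ f a) ∧ f y < 0 := by
  induction A using Finset.induction_on with
  | empty =>
    intro y hy
    have : y ≠ 0 := by simpa using hy
    exact ⟨_, Ch.lin (-y), by simp, by simpa using this⟩
  | insert a A _ ih =>
    intro y hy
    have ih := ih fun b hb => hA b (by simp [hb])
    have key : ∀ k : ℕ, (∃ g, Ch g ∧ (∀ b ∈ A, 0 ≤ g b) ∧ 1 ≤ g a ∧ g y < k) →
        ∃ g, Ch g ∧ (∀ b ∈ A, 0 ≤ g b) ∧ 1 ≤ g a ∧ g y < 0 := by
      intro k
      induction k with
      | zero => exact id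
      | succ k ik =>
        rintro ⟨g, hg, h1, h2, h3⟩
        apply ik
        by_cases e : g y < k
        · exact ⟨g, hg, h1, h2, e⟩
        have e : g y = k := by omega
        obtain ⟨f, hf, f1, f2⟩ := ih (y - a * k) fun h => hy (by
          have h1 := AddSubmonoid.closure_mono
            (show (A : Set ℤ) ⊆ ↑(insert a A) by simp) h
          have h2 := nsmul_mem (AddSubmonoid.subset_closure
            (show a ∈ (↑(insert a A) : Set ℤ) by simp)) k
          convert add_mem h1 h2 using 1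
          simp; ring)
        obtain ⟨N0, hN⟩ := hf.lift hg a
        set N : ℕ := N0 + (-f (-a)).toNat + 1 with hN'
        have N0' : (0 : ℤ) < N := by omega
        refine ⟨_, (hN N (by omega)).div N (by omega), fun b hb => Int.ediv_nonneg ?_ N0'.le,
          ?_, ?_⟩
        · have := hf.mono (a := a) (N := N) (by omega) b (g b).toNat
          rw [Int.toNat_of_nonneg (h1 b hb)] at this
          exact (f1 b hb).trans this
        · have := hf.mono (a := a) (N := N) (by omega) 0 (g a - 1).toNat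
          rw [Int.toNat_of_nonneg (by omega), hf.zero,
            show 0 - a * (g a - 1) = a - a * g a by ring] at this
          rw [Int.le_ediv_iff_mul_le N0']
          linarith
        · rw [Int.ediv_lt_iff_lt_mul N0', e]
          linarith
    obtain ⟨g, hg, h1, h2, h3⟩ := key (y.toNat + 1) ⟨_, Ch.lin 1,
      fun b hb => by have := hA b (by simp [hb]); omega,
      by have := hA a (by simp); omega, by omega⟩
    exact ⟨g, hg, fun b hb => by
      rcases Finset.mem_insert.1 hb with rfl | hb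
      exacts [by omega, h1 b hb], h3⟩

lemma seps (A : Finset ℤ) (hA : ∀ a ∈ A, 0 < a) (Y : Finset ℤ)
    (hY : ∀ y ∈ Y, y ∉ AddSubmonoid.closure (A : Set ℤ)) :
    ∃ f, Ch f ∧ (∀ a ∈ A, 0 ≤ f a) ∧ ∀ y ∈ Y, f y < 0 := by
  induction Y using Finset.induction_on with
  | empty => exact ⟨_, Ch.lin 0, by simp, by simp⟩
  | insert q Y _ ih =>
    obtain ⟨f, hf, f1, f2⟩ := ih fun y hy => hY y (by simp [hy])
    obtain ⟨g, hg, g1, g2⟩ := sep A hA q (hY q (by simp))
    set M : ℕ := (f q).toNat + Y.sup (fun y => (g y).toNat) + 1 with hM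
    have M0 : (0 : ℤ) < M := by omega
    have neg : ∀ z : ℤ, z < 0 → z / M < 0 := fun z h => Int.ediv_neg_of_neg_of_pos h M0
    have le : ∀ z : ℤ, z < M → z / M < 1 := fun z h => by rwa [Int.ediv_lt_iff_lt_mul M0, one_mul]
    refine ⟨_, (hf.div M (by omega)).add (hg.div M (by omega)), fun a ha =>
      add_nonneg (Int.ediv_nonneg (f1 a ha) M0.le) (Int.ediv_nonneg (g1 a ha) M0.le),
      fun y hy => ?_⟩
    rcases Finset.mem_insert.1 hy with rfl | hy
    · have := neg _ g2
      have := le (f y) (by omega)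
      omega
    · have := neg _ (f2 y hy)
      have := Finset.le_sup (f := fun y => (g y).toNat) hy
      have := le (g y) (by omega)
      omega

end Pool.Agent.H2.CI
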