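import Pool.Agent.H2.CIDefs
import Pool.Agent.H2.CI1

namespace Pool.Agent.H2.CI

variable {e : ℕ}

/-- sums of two nonzero elements -/
def D (g : Fin e → ℕ) (n : ℕ) : Prop := ∃ a b, 0 < phi g a ∧ 0 < phi g b ∧ n = phi g a + phi g b

def glue (g : Fin e → ℕ) (p n : ℕ) : Fin (e + 1) → ℕ := Fin.cons n fun i => p * g i

inductive Free : (e : ℕ) → (Fin e → ℕ) → Prop
  | base : Free 1 fun _ => 1
  | step {e g} (p n : ℕ) : Free e g → 2 ≤ p → D g n → Nat.Coprime p n → Free (e + 1) (glue g p n)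

def In (g : Fin e → ℕ) (z : ℤ) : Prop := ∃ a, (phi g a : ℤ) = z

lemma phi_glue (g : Fin e → ℕ) (p n r : ℕ) (a : Fin e → ℕ) :
    phi (glue g p n) (Fin.cons r a) = r * n + p * phi g a := by
  simp [phi, glue, Fin.sum_univ_succ, Finset.mul_sum, mul_left_comm]

lemma D.mem {g : Fin e → ℕ} {n : ℕ} (h : D g n) : ∃ b, phi g b = n := by
  obtain ⟨a, b, -, -, rfl⟩ := h
  exact ⟨a + b, map_add _ _ _⟩

lemma in_glue {g : Fin e → ℕ} {p n : ℕ} (hn : D g n) (hc : Nat.Coprime p n) (y : ℤ) {r : ℕ}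
    (hr : r < p) : In (glue g p n) (p * y + r * n) ↔ In g y := by
  constructor
  · rintro ⟨a, ha⟩
    rw [← Fin.cons_self_tail a, phi_glue] at ha
    push_cast at ha
    obtain ⟨b, hb⟩ := hn.mem
    obtain ⟨t, ht⟩ : (p : ℤ) ∣ a 0 - r := by
      refine (Nat.isCoprime_iff_coprime.2 hc).dvd_of_dvd_mul_right
        ⟨y - phi g (Fin.tail a), by linarith⟩
    have t0 : 0 ≤ t := by
      by_contra h
      have : (p : ℤ) * t ≤ p * (-1) := mul_le_mul_of_nonneg_left (by omega) (by omega)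
      omega
    lift t to ℕ using t0
    refine ⟨Fin.tail a + t • b, ?_⟩
    rw [map_add, map_nsmul, hb]
    refine mul_left_cancel₀ (show (p : ℤ) ≠ 0 by omega) ?_
    simp only [smul_eq_mul]
    push_cast
    linear_combination ha - n * ht
  · rintro ⟨a, rfl⟩
    exact ⟨Fin.cons r a, by rw [phi_glue]; push_cast; ring⟩

lemma D.glue {g : Fin e → ℕ} {m : ℕ} (h : D g m) {p : ℕ} (hp : 2 ≤ p) (n : ℕ) :
    D (glue g p n) (p * m) := by
  obtain ⟨a, b, ha, hb, rfl⟩ := h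
  refine ⟨Fin.cons 0 a, Fin.cons 0 b, ?_, ?_, ?_⟩ <;> simp only [phi_glue]
  · positivity
  · positivity
  · ring

lemma D.pos {g : Fin e → ℕ} {n : ℕ} (h : D g n) : 0 < n := by
  obtain ⟨a, b, ha, -, rfl⟩ := h
  omega

def R (B : ℕ) (g : Fin e → ℕ) (ψ : ℤ → ℤ) : Prop :=
  ∃ (e' : ℕ) (g' : Fin e' → ℕ) (d : ℤ), Free e' g' ∧
    ∀ x : ℤ, 1 ≤ x → x ≤ B → (In g' (d * x) ↔ In g (ψ x))

abbrev Pr := (e : ℕ) → (Fin e → ℕ) → (ℤ → ℤ) → Prop

def Closed (P : Pr) : Prop :=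
  (∀ e g ψ (a : ℤ), P e g ψ → P e g fun x => ψ x + a * x) ∧
    ∀ e g ψ p n, 2 ≤ p → P e g ψ → P (e + 1) (glue g p n) fun x => p * ψ x

def Real (B : ℕ) (P : Pr) : Prop := ∀ e g ψ, Free e g → P e g ψ → R B g ψ

def ext (u : ℤ → ℤ) (P : Pr) : Pr :=
  fun e g φ => ∃ n ψ, D g n ∧ P e g ψ ∧ ∀ x, φ x = ψ x + n * u x

lemma Closed.ext {P : Pr} (h : Closed P) (u : ℤ → ℤ) : Closed (ext u P) := by
  constructor
  · rintro e g φ a ⟨n, ψ, h1, h2, h3⟩
    exact ⟨n, _, h1, h.1 _ _ _ a h2, fun x => by simp only [h3]; ring⟩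
  · rintro e g φ p m hp ⟨n, ψ, h1, h2, h3⟩
    exact ⟨_, _, h1.glue hp m, h.2 _ _ _ p m hp h2, fun x => by simp only [h3]; push_cast; ring⟩

lemma real_ext (B : ℕ) {u : ℤ → ℤ} (hu : Ch u) :
    ∀ P, Closed P → Real B P → Real B (ext u P) := by
  induction hu with
  | lin a =>
    rintro P hP hR e g φ hg ⟨n, ψ, h1, h2, h3⟩
    have := hR _ _ _ hg (hP.1 _ _ _ (n * a) h2)
    convert this using 2
    rw [h3]; ring
  | @add u v _ _ iu iv =>
    rintro P hP hR e g φ hg ⟨n, ψ, h1, h2, h3⟩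
    exact iu _ (hP.ext v) (iv P hP hR) e g φ hg
      ⟨n, _, h1, ⟨n, ψ, h1, h2, fun _ => rfl⟩, fun x => by rw [h3]; ring⟩
  | @div w c hc _ ih =>
    rintro P hP hR e g φ hg ⟨n, ψ, h1, h2, h3⟩
    have n0 := h1.pos
    obtain ⟨M, hM⟩ : ∃ M : ℕ, ∀ x : ℤ, 1 ≤ x → x ≤ B → |w x| ≤ M :=
      ⟨(Finset.Icc (1 : ℤ) B).sup fun x => (w x).natAbs, fun x h1 h2 => by
        have := Finset.le_sup (f := fun x => (w x).natAbs) (Finset.mem_Icc.2 ⟨h1, h2⟩)
        rw [← Int.natCast_natAbs]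
        exact_mod_cast this⟩
    set t : ℕ := M + c * M * B + 3 with ht
    obtain ⟨p, hp⟩ : ∃ p : ℕ, p + 1 = c * (n * t) := ⟨c * (n * t) - 1, by
      have : 0 < c * (n * t) := by positivity
      omega⟩
    have k1 : t ≤ n * t := Nat.le_mul_of_pos_left _ n0
    have k2 : n * t ≤ c * (n * t) := Nat.le_mul_of_pos_left _ hc
    have hp2 : 2 ≤ p := by omega
    have hco : Nat.Coprime p n := by
      rw [← Nat.isCoprime_iff_coprime]
      exact ⟨-1, c * t, by have := congrArg (Nat.cast : ℕ → ℤ) hp; push_cast at this; linarith⟩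
    obtain ⟨e', g', d, hg', H⟩ := ih P hP hR _ _
      (fun x => (p * ψ x + (n * M : ℤ) * x) + (n * t * n : ℕ) * w x) (hg.step p n hp2 h1 hco)
      ⟨n * t * n, _, ⟨Fin.cons 1 0, Fin.cons (n * t - 1) 0, by simp [phi_glue, n0],
        by simp [phi_glue, n0]; omega, by
          simp only [phi_glue, map_zero, mul_zero, add_zero, ← add_mul]; congr 1; omega⟩,
        hP.1 _ _ _ _ (hP.2 _ _ _ p n hp2 h2), fun _ => rfl⟩
    refine ⟨e', g', d, hg', fun x x1 x2 => (H x x1 x2).trans ?_⟩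
    have hw := abs_le.1 (hM x x1 x2)
    have c0 : (0 : ℤ) < c := by omega
    have s1 := Int.emod_nonneg (w x) c0.ne'
    have s2 := Int.emod_lt_of_pos (w x) c0
    have s3 := Int.emod_add_mul_ediv (w x) c
    set q := w x / c
    set s := w x % c
    have hp' : (p : ℤ) + 1 = c * (n * t) := by exact_mod_cast hp
    have b1 : (M : ℤ) ≤ c * (M * x) := by
      have : (M : ℤ) * 1 ≤ M * x := mul_le_mul_of_nonneg_left x1 (by omega)
      nlinarith
    have b2 : (c : ℤ) * (M * x) ≤ c * M * B := by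
      rw [mul_assoc]; gcongr
    have b3 : 0 ≤ q + M * x := by
      by_contra h
      have : (c : ℤ) * (q + M * x) ≤ c * (-1) := mul_le_mul_of_nonneg_left (by omega) c0.le
      nlinarith
    have k1' : (t : ℤ) ≤ n * t := by exact_mod_cast k1
    have ht' : (t : ℤ) = M + c * M * B + 3 := by exact_mod_cast ht
    have b4 : q + M * x + n * t * s < p := by
      have : (n * t : ℤ) * s ≤ n * t * (c - 1) := mul_le_mul_of_nonneg_left (by omega) (by omega)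
      have : (q + M * x) * 1 ≤ (q + M * x) * c := mul_le_mul_of_nonneg_left c0 b3
      nlinarith
    have b5 : 0 ≤ q + M * x + n * t * s := by positivity
    have := in_glue h1 hco (φ x) (r := (q + M * x + n * t * s).toNat) (by omega)
    rw [Int.toNat_of_nonneg b5] at this
    convert this using 2
    rw [h3]
    push_cast
    linear_combination (-(n * t * n) : ℤ) * s3 - n * q * hp'

theorem realize (B : ℕ) {f : ℤ → ℤ} (hf : Ch f) :
    ∃ (e : ℕ) (g : Fin e → ℕ) (d : ℤ), Free e g ∧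
      ∀ x : ℤ, 1 ≤ x → x ≤ B → (In g (d * x) ↔ 0 ≤ f x) := by
  obtain ⟨e, g, d, hg, H⟩ := real_ext B hf (fun _ _ ψ => ∃ a : ℤ, ∀ x, ψ x = a * x)
    ⟨fun _ _ _ b ⟨a, h⟩ => ⟨a + b, fun x => by simp only [h]; ring⟩,
      fun _ _ _ p _ _ ⟨a, h⟩ => ⟨p * a, fun x => by simp only [h]; ring⟩⟩
    (fun e g ψ hg ⟨a, h⟩ => ⟨e, g, a, hg, fun x _ _ => by rw [h]⟩) 1 _ (fun x => 2 * f x) .base
    ⟨2, fun _ => 0, ⟨1, 1, by simp [phi], by simp [phi], by simp [phi]⟩, ⟨0, by simp⟩, by simp⟩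
  refine ⟨e, g, d, hg, fun x h1 h2 => (H x h1 h2).trans ⟨fun ⟨a, h⟩ => by simp only at h; omega, fun h => ?_⟩⟩
  exact ⟨fun _ => (2 * f x).toNat, by simp [phi]; omega⟩

end Pool.Agent.H2.CI
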