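import Pool.Agent.H2.CI2

namespace Pool.Agent.H2.CI

variable {e : ℕ}

lemma phi_single (g : Fin e → ℕ) (i : Fin e) : phi g (Pi.single i 1) = g i := by
  simp [phi, Pi.single_apply]

lemma Free.cof {g : Fin e → ℕ} (h : Free e g) : ∃ B : ℕ, ∀ z : ℤ, B ≤ z → In g z := by
  induction h with
  | base => exact ⟨0, fun z hz => ⟨fun _ => z.toNat, by simp [phi]; omega⟩⟩
  | @step e g p n _ hp hn hc ih =>
    obtain ⟨B, hB⟩ := ih
    refine ⟨p * B + p * n, fun z hz => ?_⟩
    obtain ⟨u, v, h⟩ := Nat.isCoprime_iff_coprime.2 hc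
    have p0 : (0 : ℤ) < p := by omega
    have s1 := Int.emod_nonneg (z * v) p0.ne'
    have s2 := Int.emod_lt_of_pos (z * v) p0
    have s3 := Int.emod_add_mul_ediv (z * v) p
    set r := z * v % p
    have e : z = p * (z * u + z * v / p * n) + r * n := by linear_combination (-z) * h - n * s3
    have := (in_glue hn hc (z * u + z * v / p * n) (r := r.toNat) (by omega)).2 (hB _ (by
      push_cast at hz
      have : r * n ≤ p * n := mul_le_mul_of_nonneg_right s2.le (by omega)
      exact le_of_mul_le_mul_left (by linarith) p0))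
    rwa [Int.toNat_of_nonneg s1, ← e] at this

lemma Free.uniq {g : Fin e → ℕ} (h : Free e g) :
    (∀ i, 0 < g i) ∧ ∀ i a, phi g a = g i → a = Pi.single i 1 := by
  induction h with
  | base => exact ⟨by simp, fun i a h => by ext j; fin_cases i; fin_cases j; simpa [phi] using h⟩
  | @step e g p n _ hp hn hc ih =>
    have n0 := hn.pos
    have z : ∀ a, phi g a = 0 → a = 0 := fun a h => funext fun i => by
      have := Finset.sum_eq_zero_iff.1 (show ∑ j, a j * g j = 0 from h) i (Finset.mem_univ _)
      exact (Nat.mul_eq_zero.1 this).resolve_right (ih.1 i).ne'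
    refine ⟨fun i => Fin.cases n0 (fun i => Nat.mul_pos (by omega) (ih.1 i)) i, fun i a h => ?_⟩
    rw [← Fin.cons_self_tail a, phi_glue] at h
    rw [← Fin.cons_self_tail a]
    generalize a 0 = r at h ⊢
    generalize Fin.tail a = a at h ⊢
    induction i using Fin.cases with
    | zero =>
      replace h : r * n + p * phi g a = n := h
      rcases r with _ | r
      · have := hc.eq_one_of_dvd ⟨phi g a, by omega⟩
        omega
      · have h1 : r * n = 0 ∧ p * phi g a = 0 := by rw [add_mul] at h; omega
        obtain rfl : r = 0 := by simpa [n0.ne'] using h1.1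
        obtain rfl := z a (by simpa [show p ≠ 0 by omega] using h1.2)
        ext j; induction j using Fin.cases <;> simp
    | succ i =>
      replace h : r * n + p * phi g a = p * g i := h
      obtain ⟨t, rfl⟩ : p ∣ r := hc.dvd_of_dvd_mul_right
        ((Nat.dvd_add_left (dvd_mul_right p _)).1 (h ▸ dvd_mul_right p _))
      obtain ⟨b, b', hb, hb', rfl⟩ := hn
      have h1 := ih.2 i (a + t • (b + b')) (Nat.eq_of_mul_eq_mul_left (show 0 < p by omega) (by
        rw [map_add, map_nsmul, map_add, ← h, smul_eq_mul]; ring))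
      have s : ∀ c, 0 < phi g c → 1 ≤ ∑ j, c j := fun c hc => by
        by_contra e
        obtain rfl : c = 0 := funext fun j =>
          Finset.sum_eq_zero_iff.1 (show ∑ j, c j = 0 by omega) j (Finset.mem_univ _)
        simp at hc
      have h2 := congrArg (fun c : Fin e → ℕ => ∑ j, c j) h1
      simp only [Pi.add_apply, Pi.smul_apply, smul_eq_mul, Finset.sum_add_distrib,
        ← Finset.mul_sum, Finset.sum_pi_single', Finset.mem_univ, if_true] at h2
      have := s b hb
      have := s b' hb'
      obtain rfl : t = 0 := by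
        by_contra e
        have : 1 * 2 ≤ t * (∑ j, b j + ∑ j, b' j) := Nat.mul_le_mul (by omega) (by omega)
        omega
      obtain rfl : a = Pi.single i 1 := by simpa using h1
      ext j; induction j using Fin.cases <;> simp [Pi.single_apply]

lemma mem_clos {g : Fin e → ℕ} {B : Set ℕ} (hB : B ⊆ Set.range g) {x : ℕ}
    (hx : x ∈ AddSubmonoid.closure B) : ∃ a, phi g a = x ∧ ∀ i, g i ∉ B → a i = 0 ∨
      ∃ j, j ≠ i ∧ g j = g i := by
  induction hx using AddSubmonoid.closure_induction with
  | mem x hx =>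
    obtain ⟨j, rfl⟩ := hB hx
    refine ⟨_, phi_single g j, fun i hi => .inl (Pi.single_eq_of_ne ?_ _)⟩
    rintro rfl
    exact hi hx
  | zero => exact ⟨0, map_zero _, fun _ _ => .inl rfl⟩
  | add x y _ _ h1 h2 =>
    obtain ⟨a, rfl, ha⟩ := h1
    obtain ⟨b, rfl, hb⟩ := h2
    refine ⟨a + b, map_add _ _ _, fun i hi => ?_⟩
    rcases ha i hi with h | h
    · exact (hb i hi).imp_left fun h' => by simp [h, h']
    · exact .inr h

lemma mem_iff {g : Fin e → ℕ} {x : ℕ} : x ∈ AddSubmonoid.closure (Set.range g) ↔ In g x := by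
  refine ⟨fun h => ?_, fun ⟨a, h⟩ => ?_⟩
  · obtain ⟨a, rfl, -⟩ := mem_clos subset_rfl h
    exact ⟨a, rfl⟩
  · obtain rfl : phi g a = x := by exact_mod_cast h
    have : ∀ i, g i ∈ AddSubmonoid.closure (Set.range g) := fun i =>
      AddSubmonoid.subset_closure (Set.mem_range_self i)
    show ∑ i, a i * g i ∈ _
    exact sum_mem fun i _ => nsmul_mem (this i) (a i)

lemma Free.min {g : Fin e → ℕ} (h : Free e g) : IsMinGen (AddSubmonoid.closure (Set.range g)) g := by
  have inj : Function.Injective g := fun i j hij => by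
    have := congrFun (h.uniq.2 j _ ((phi_single g i).trans hij)) i
    by_contra ne
    simp [ne] at this
  refine ⟨inj, rfl, fun B hB e => ?_⟩
  obtain ⟨_, ⟨i, rfl⟩, hi⟩ := Set.exists_of_ssubset hB
  obtain ⟨a, h1, h2⟩ := mem_clos hB.subset (e ▸ AddSubmonoid.subset_closure ⟨i, rfl⟩ :
    g i ∈ AddSubmonoid.closure B)
  rcases h2 i hi with h2 | ⟨j, h2, h3⟩
  · simp [h.uniq.2 i a h1] at h2
  · exact h2 (inj h3)

def c0 (e : ℕ) : (Fin e → ℕ) →+ (Fin (e + 1) → ℕ) where
  toFun a := Fin.cons 0 a
  map_zero' := by ext j; induction j using Fin.cases <;> simp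
  map_add' a b := by ext j; induction j using Fin.cases <;> simp

lemma Free.pres {g : Fin e → ℕ} (h : Free e g) : ∃ σ : Finset ((Fin e → ℕ) × (Fin e → ℕ)),
    σ.card + 1 = e ∧ addConGen (fun a b => (a, b) ∈ σ) = AddCon.ker (phi g) := by
  classical
  induction h with
  | base =>
    refine ⟨∅, rfl, le_antisymm (AddCon.addConGen_le.2 fun a b h => by simp at h) fun a b h => ?_⟩
    obtain rfl : a = b := by
      ext j; fin_cases j; simpa [phi, AddCon.ker_rel] using h
    exact AddCon.refl _ _
  | @step e g p n _ hp hn hc ih =>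
    obtain ⟨σ, h1, h2⟩ := ih
    obtain ⟨b, hb⟩ := hn.mem
    have inj : Function.Injective (c0 e) := fun a b h => by simpa [c0] using h
    refine ⟨insert (Fin.cons p 0, c0 e b) (σ.image (Prod.map (c0 e) (c0 e))), ?_,
      le_antisymm (AddCon.addConGen_le.2 fun x y h => ?_) fun x y h => ?_⟩
    · rw [Finset.card_insert_of_notMem, Finset.card_image_of_injective _ (inj.prodMap inj), h1]
      simp only [Finset.mem_image, not_exists, not_and]
      intro x _ e
      have := congrFun (congrArg Prod.fst e) 0
      simp [c0] at this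
      omega
    · rw [AddCon.ker_rel]
      rcases Finset.mem_insert.1 h with h | h
      · obtain ⟨rfl, rfl⟩ := Prod.mk.inj h
        simp [c0, phi_glue, hb]
      · obtain ⟨z, hz, h⟩ := Finset.mem_image.1 h
        obtain ⟨rfl, rfl⟩ := Prod.mk.inj h
        have : AddCon.ker (phi g) z.1 z.2 := h2 ▸ AddConGen.Rel.of _ _ hz
        simp [c0, phi_glue, (AddCon.ker_rel _).1 this]
    · set C := addConGen fun x y => (x, y) ∈
        insert (Fin.cons p 0, c0 e b) (σ.image (Prod.map (c0 e) (c0 e))) with hC
      have k1 : ∀ a a', phi g a = phi g a' → C (c0 e a) (c0 e a') := fun a a' h => by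
        have : AddCon.ker (phi g) ≤ C.comap (c0 e) (map_add _) := by
          rw [← h2]
          exact AddCon.addConGen_le.2 fun a a' h => AddConGen.Rel.of _ _
            (Finset.mem_insert_of_mem (Finset.mem_image.2 ⟨_, h, rfl⟩))
        exact this h
      have k2 : ∀ r a, C (Fin.cons r a) (Fin.cons (r % p) (a + (r / p) • b)) := fun r a => by
        have := C.add (C.refl (Fin.cons (r % p) a)) (C.nsmul (r / p)
          (show C (Fin.cons p 0) (c0 e b) from AddConGen.Rel.of _ _ (Finset.mem_insert_self _ _)))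
        convert this using 1 <;> ext j <;> induction j using Fin.cases <;>
          simp [c0, Nat.mod_add_div']
      rw [AddCon.ker_rel, ← Fin.cons_self_tail x, ← Fin.cons_self_tail y, phi_glue, phi_glue] at h
      rw [← Fin.cons_self_tail x, ← Fin.cons_self_tail y]
      generalize x 0 = r at h ⊢
      generalize Fin.tail x = a at h ⊢
      generalize y 0 = r' at h ⊢
      generalize Fin.tail y = a' at h ⊢
      have e1 : r % p = r' % p := Nat.ModEq.cancel_right_of_coprime (c := n) hc (by
        have := congrArg (· % p) h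
        simpa [Nat.ModEq] using this)
      have e2 : phi g (a + (r / p) • b) = phi g (a' + (r' / p) • b) := by
        refine Nat.eq_of_mul_eq_mul_left (show 0 < p by omega) ?_
        simp only [map_add, map_nsmul, hb, smul_eq_mul]
        have s := Nat.mod_add_div r p
        have s' := Nat.mod_add_div r' p
        rw [← e1] at s'
        generalize r % p = m at s s'
        generalize r / p = q at s ⊢
        generalize r' / p = q' at s' ⊢
        subst s s'
        linarith
      refine C.trans (k2 r a) (C.trans ?_ (C.symm (k2 r' a')))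
      have := C.add (C.refl (Fin.cons (r % p) 0)) (k1 _ _ e2)
      rw [← e1]
      convert this using 1 <;> ext j <;> induction j using Fin.cases <;> simp [c0]

theorem main (T : AddSubmonoid ℕ) (hT : IsNum T) :
    ∃ (S : AddSubmonoid ℕ) (d : ℕ), IsNum S ∧ IsCI S ∧ 1 ≤ d ∧ ∀ x, x ∈ T ↔ d * x ∈ S := by
  classical
  have fr : ∀ {e} {g : Fin e → ℕ}, Free e g → IsNum (AddSubmonoid.closure (Set.range g)) ∧
      IsCI (AddSubmonoid.closure (Set.range g)) := fun h => by
    refine ⟨?_, _, _, h.min, h.pres⟩
    obtain ⟨B, hB⟩ := h.cof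
    refine (Set.finite_lt_nat B).subset fun x hx => ?_
    by_contra e
    exact hx (mem_iff.2 (hB _ (by simpa using e)))
  obtain ⟨F, hF⟩ := hT.bddAbove
  have big : ∀ x, F < x → x ∈ T := fun x hx => by
    by_contra e
    exact absurd (hF e) (by omega)
  let A : Finset ℤ := ((Finset.Icc 1 (2 * F + 2)).filter (· ∈ T)).image Nat.cast
  obtain ⟨f, hf, f1, f2⟩ := seps A (by simp [A]; omega) (hT.toFinset.image Nat.cast) (by
    have : AddSubmonoid.closure (A : Set ℤ) ≤ T.map (Nat.castAddMonoidHom ℤ) := by
      rw [AddSubmonoid.closure_le]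
      intro a ha
      obtain ⟨x, hx, rfl⟩ := Finset.mem_image.1 ha
      exact ⟨x, (Finset.mem_filter.1 hx).2, rfl⟩
    intro y hy h
    obtain ⟨x, hx, rfl⟩ := Finset.mem_image.1 hy
    obtain ⟨x', h1, h2⟩ := this h
    obtain rfl : x' = x := by simpa using h2
    exact hT.mem_toFinset.1 hx h1)
  obtain ⟨e, g, d, hg, H⟩ := realize (2 * F + 2) hf
  have pos : ∀ x, 1 ≤ x → x ≤ 2 * F + 2 → x ∈ T → In g (d * x) := fun x h1 h2 h3 =>
    (H x (by omega) (by omega)).2 (f1 _ (Finset.mem_image_of_mem _ (by simp [*])))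
  have neg : ∀ x, x ∉ T → ¬ In g (d * x) := fun x hx h => by
    have : x ≠ 0 := fun e => hx (e ▸ zero_mem T)
    have := hF hx
    exact absurd ((H x (by omega) (by omega)).1 h)
      (not_le.2 (f2 _ (Finset.mem_image_of_mem _ (hT.mem_toFinset.2 hx))))
  have d0 : 0 ≤ d := by
    obtain ⟨a, ha⟩ := pos (F + 1) (by omega) (by omega) (big _ (by omega))
    by_contra h
    have : d * ((F + 1 : ℕ) : ℤ) < 0 := mul_neg_of_neg_of_pos (by omega) (by omega)
    omega
  lift d to ℕ using d0
  rcases d with _ | d
  · refine ⟨_, 1, (fr .base).1, (fr .base).2, le_rfl, fun x => ⟨fun _ =>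
      mem_iff.2 ⟨fun _ => x, by simp [phi]⟩, fun _ => ?_⟩⟩
    by_contra h
    exact neg x h ⟨0, by simp⟩
  refine ⟨_, d + 1, (fr hg).1, (fr hg).2, by omega, fun x => ⟨fun hx => ?_, fun h => ?_⟩⟩
  · induction x using Nat.strong_induction_on with
    | _ x ih =>
      by_cases h : x ≤ 2 * F + 2
      · rcases x with _ | x
        · exact zero_mem _
        · exact mem_iff.2 (by simpa using pos _ (by omega) h hx)
      · have := add_mem (ih (x - (F + 1)) (by omega) (big _ (by omega)))
          (ih (F + 1) (by omega) (big _ (by omega)))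
        rwa [← mul_add, Nat.sub_add_cancel (by omega)] at this
  · by_contra e
    exact neg x e (by simpa using mem_iff.1 h)

end Pool.Agent.H2.CI
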