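import Mathlib

namespace Pool.Agent.H2.CI

/-- Numerical semigroups: submonoids of `ℕ` with finite complement. -/
def IsNum (S : AddSubmonoid ℕ) : Prop := ((S : Set ℕ)ᶜ).Finite

/-- The factorization map `a ↦ ∑ a_i g_i`. -/
def phi {e : ℕ} (g : Fin e → ℕ) : (Fin e → ℕ) →+ ℕ where
  toFun a := ∑ i, a i * g i
  map_zero' := by simp
  map_add' a b := by simp [add_mul, Finset.sum_add_distrib]

/-- `g` lists, without repetition, the minimal generating set of `S`. -/
def IsMinGen (S : AddSubmonoid ℕ) {e : ℕ} (g : Fin e → ℕ) : Prop :=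
  Function.Injective g ∧ AddSubmonoid.closure (Set.range g) = S ∧
    ∀ B ⊂ Set.range g, AddSubmonoid.closure B ≠ S

/-- Complete intersections: the kernel congruence of the factorization map of the `e` minimal
generators is generated by `e - 1` pairs. -/
def IsCI (S : AddSubmonoid ℕ) : Prop :=
  ∃ (e : ℕ) (g : Fin e → ℕ), IsMinGen S g ∧
    ∃ σ : Finset ((Fin e → ℕ) × (Fin e → ℕ)), σ.card + 1 = e ∧
      addConGen (fun a b => (a, b) ∈ σ) = AddCon.ker (phi g)

end Pool.Agent.H2.CI
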