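import Mathlib

namespace Pool.Agent.H2.CM

variable {R : Type} [CommRing R]

/-- `s, t` is weakly regular on `R / I`, and `I` is unmixed with respect to the primes in `A`. -/
structure Good (s t : R) (A : Set (Ideal R)) (I : Ideal R) : Prop where
  r1 : ∀ g, s * g ∈ I → g ∈ I
  r2 : ∀ g h, t * g - s * h ∈ I → ∃ k, g - s * k ∈ I
  un : ∀ g, (∀ P ∈ A, ∃ u ∉ P, u * g ∈ I) → g ∈ I

variable {s t : R} {A : Set (Ideal R)}

lemma Good.top : Good s t A ⊤ := ⟨fun _ _ => trivial, fun _ _ _ => ⟨0, trivial⟩, fun _ _ => trivial⟩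

lemma Good.colon {I I1 I2 : Ideal R} (l : R) (h1 : ∀ g, l * g ∈ I ↔ g ∈ I1)
    (h2 : ∀ g, g ∈ I2 ↔ ∃ k, g - l * k ∈ I) (G1 : Good s t A I1) (G2 : Good s t A I2) :
    Good s t A I := by
  have hle : ∀ g ∈ I, g ∈ I2 := fun g hg => (h2 g).2 ⟨0, by simpa using hg⟩
  refine ⟨fun g hg => ?_, fun g h hg => ?_, fun g hg => ?_⟩
  · obtain ⟨k, hk⟩ := (h2 g).1 (G2.r1 g (hle _ hg))
    have a1 : l * (s * k) ∈ I := by
      have := sub_mem hg (I.mul_mem_left s hk)
      convert this using 1; ring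
    have a2 := (h1 k).2 (G1.r1 k ((h1 _).1 a1))
    simpa using add_mem hk a2
  · obtain ⟨k, hk⟩ := G2.r2 g h (hle _ hg)
    obtain ⟨k1, hk1⟩ := (h2 _).1 hk
    have a1 : t * (l * k1) - s * (h - t * k) ∈ I := by
      have := sub_mem hg (I.mul_mem_left t hk1)
      convert this using 1; ring
    have a2 : s * (h - t * k) ∈ I2 := by
      refine (h2 _).2 ⟨t * k1, ?_⟩
      have := neg_mem a1
      convert this using 1; ring
    obtain ⟨k2, hk2⟩ := (h2 _).1 (G2.r1 _ a2)
    have a3 : l * (t * k1 - s * k2) ∈ I := by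
      have := add_mem a1 (I.mul_mem_left s hk2)
      convert this using 1; ring
    obtain ⟨k3, hk3⟩ := G1.r2 _ _ ((h1 _).1 a3)
    refine ⟨k + l * k3, ?_⟩
    have := add_mem hk1 ((h1 _).2 hk3)
    convert this using 1; ring
  · obtain ⟨k, hk⟩ := (h2 g).1 (G2.un g fun P hP => by
      obtain ⟨u, hu, h⟩ := hg P hP
      exact ⟨u, hu, hle _ h⟩)
    have a2 := (h1 k).2 (G1.un k fun P hP => by
      obtain ⟨u, hu, h⟩ := hg P hP
      refine ⟨u, hu, (h1 _).1 ?_⟩
      have := sub_mem h (I.mul_mem_left u hk)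
      convert this using 1; ring)
    simpa using add_mem hk a2

variable {ι : Type} [DecidableEq ι] (l : ι → R)

/-- the ideal generated by the product and the products with one factor omitted -/
def I0 (T : Finset ι) : Ideal R where
  carrier := {f | ∃ (g0 : R) (g : ι → R), f = g0 * ∏ b ∈ T, l b +
    ∑ a ∈ T, g a * ∏ b ∈ T.erase a, l b}
  add_mem' := by
    rintro _ _ ⟨g0, g, rfl⟩ ⟨h0, h, rfl⟩
    exact ⟨g0 + h0, g + h, by simp only [Pi.add_apply, add_mul, Finset.sum_add_distrib]; ring⟩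
  zero_mem' := ⟨0, 0, by simp⟩
  smul_mem' := by
    rintro c _ ⟨g0, g, rfl⟩
    exact ⟨c * g0, fun a => c * g a, by simp only [smul_eq_mul, mul_add, Finset.mul_sum, mul_assoc]⟩

lemma mem_insert {T : Finset ι} {a : ι} (ha : a ∉ T) (f : R) :
    f ∈ I0 l (insert a T) ↔ ∃ h ∈ I0 l T, ∃ k, f = l a * h + k * ∏ b ∈ T, l b := by
  have e : ∀ g : ι → R, ∑ c ∈ T, g c * ∏ b ∈ (insert a T).erase c, l b =
      l a * ∑ c ∈ T, g c * ∏ b ∈ T.erase c, l b := by
    intro g
    rw [Finset.mul_sum]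
    refine Finset.sum_congr rfl fun c hc => ?_
    have hne : a ≠ c := fun h => ha (h ▸ hc)
    rw [Finset.erase_insert_of_ne hne, Finset.prod_insert (by simp [ha])]
    ring
  constructor
  · rintro ⟨g0, g, rfl⟩
    refine ⟨_, ⟨g0, g, rfl⟩, g a, ?_⟩
    rw [Finset.prod_insert ha, Finset.sum_insert ha, Finset.erase_insert ha, e]
    ring
  · rintro ⟨_, ⟨g0, g, rfl⟩, k, rfl⟩
    refine ⟨g0, Function.update g a k, ?_⟩
    rw [Finset.prod_insert ha, Finset.sum_insert ha, Finset.erase_insert ha, e,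
      Function.update_self]
    have : ∑ c ∈ T, Function.update g a k c * ∏ b ∈ T.erase c, l b =
        ∑ c ∈ T, g c * ∏ b ∈ T.erase c, l b :=
      Finset.sum_congr rfl fun c hc => by
        rw [Function.update_of_ne (fun h : c = a => ha (h ▸ hc))]
    rw [this]; ring

variable [IsDomain R] (hp : ∀ a, Prime (l a)) (hnd : ∀ a b, a ≠ b → ¬ l a ∣ l b)
  (hG : ∀ a b, a ≠ b → Good s t A (Ideal.span {l a, l b}))
include hp hnd

lemma not_dvd_prod {T : Finset ι} {a : ι} (ha : a ∉ T) : ¬ l a ∣ ∏ b ∈ T, l b := by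
  intro h
  obtain ⟨b, hb, h⟩ := (Prime.dvd_finsetProd_iff (hp a) _).1 h
  exact hnd a b (fun e => ha (e ▸ hb)) h

include hG

lemma good_pair (a : ι) (T : Finset ι) (ha : a ∉ T) :
    Good s t A (Ideal.span {l a, ∏ b ∈ T, l b}) := by
  induction T using Finset.induction_on with
  | empty =>
    have : Ideal.span {l a, ∏ b ∈ (∅ : Finset ι), l b} = ⊤ :=
      (Ideal.eq_top_iff_one _).2 (Ideal.subset_span (by simp))
    rw [this]; exact Good.top
  | insert b T hb ih =>
    have hab : a ≠ b := fun h => ha (by simp [h])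
    rw [Finset.prod_insert hb]
    refine Good.colon (l b) (fun g => ?_) (fun g => ?_) (ih fun h => ha (by simp [h])) (hG a b hab)
    · simp only [Ideal.mem_span_pair]
      constructor
      · rintro ⟨x, y, h⟩
        have : l b ∣ x * l a := ⟨g - y * ∏ b ∈ T, l b, by linear_combination h⟩
        obtain ⟨z, rfl⟩ := ((hp b).dvd_or_dvd this).resolve_right (hnd b a hab.symm)
        exact ⟨z, y, mul_left_cancel₀ (hp b).ne_zero (by linear_combination h)⟩
      · rintro ⟨x, y, rfl⟩
        exact ⟨l b * x, y, by ring⟩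
    · simp only [Ideal.mem_span_pair]
      constructor
      · rintro ⟨x, y, rfl⟩
        exact ⟨y, x, 0, by ring⟩
      · rintro ⟨k, x, y, h⟩
        exact ⟨x, k + y * ∏ b ∈ T, l b, by linear_combination h⟩

lemma good_I0 (T : Finset ι) : Good s t A (I0 l T) := by
  induction T using Finset.induction_on with
  | empty =>
    have : I0 l (∅ : Finset ι) = ⊤ := (Ideal.eq_top_iff_one _).2 ⟨1, 0, by simp⟩
    rw [this]; exact Good.top
  | insert a T ha ih =>
    refine Good.colon (l a) (fun g => ?_) (fun g => ?_) ih (good_pair l hp hnd hG a T ha)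
    · rw [mem_insert l ha]
      constructor
      · rintro ⟨h, hh, k, e⟩
        have : l a ∣ k * ∏ b ∈ T, l b := ⟨g - h, by linear_combination -e⟩
        obtain ⟨z, rfl⟩ := ((hp a).dvd_or_dvd this).resolve_right (not_dvd_prod l hp hnd ha)
        have e2 : g = h + z * ∏ b ∈ T, l b :=
          mul_left_cancel₀ (hp a).ne_zero (by linear_combination e)
        rw [e2]
        exact add_mem hh ⟨z, 0, by simp⟩
      · intro hg
        exact ⟨g, hg, 0, by simp⟩
    · simp only [mem_insert l ha, Ideal.mem_span_pair]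
      constructor
      · rintro ⟨x, y, rfl⟩
        exact ⟨x, 0, zero_mem _, y, by ring⟩
      · rintro ⟨k, h, -, y, e⟩
        exact ⟨k + h, y, by linear_combination -e⟩

end Pool.Agent.H2.CM
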