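import Pool.Agent.H2.PDDefs

open MvPolynomial Pool.Agent.Lead.POG

namespace Pool.Agent.H2.CM

variable {K : Type} [Field K] {d : ℕ}

/-- The Jacobian ideal of the product `F` of the linear forms. -/
noncomputable def jac (a : Fin d → Fin 4 → K) : Ideal (MvPolynomial (Fin 4) K) :=
  Ideal.span (Set.range fun i : Fin 4 => pderiv i (∏ j, lin (a j)))

/-- The intersection of the ideals `J R_P ∩ R` over all primes `P` of height two containing `J`.
For `J` of height two these are its primary components of height two. -/
noncomputable def topPart {R : Type} [CommRing R] (J : Ideal R) : Ideal R :=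
  ⨅ (P : PrimeSpectrum R) (_ : J ≤ P.asIdeal ∧ P.asIdeal.height = 2),
    (J.map (algebraMap R (Localization.AtPrime P.asIdeal))).comap
      (algebraMap R (Localization.AtPrime P.asIdeal))

/-- The graded ring `R / I` is Cohen-Macaulay: the ideal `(x_0, ..., x_3)` contains an
`R / I`-regular sequence whose length is the Krull dimension of `R / I`. -/
def IsCM (I : Ideal (MvPolynomial (Fin 4) K)) : Prop :=
  ∃ rs : List (MvPolynomial (Fin 4) K),
    (∀ r ∈ rs, r ∈ Ideal.span (Set.range (X : Fin 4 → MvPolynomial (Fin 4) K))) ∧
    RingTheory.Sequence.IsRegular (MvPolynomial (Fin 4) K ⧸ I) rs ∧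
    (rs.length : WithBot ℕ∞) = ringKrullDim (MvPolynomial (Fin 4) K ⧸ I)

end Pool.Agent.H2.CM
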