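import Pool.Agent.H2.CM1
import Pool.Agent.H2.CMDefs
import Pool.Agent.Lead.POG2

open MvPolynomial Pool.Agent.Lead.POG

namespace Pool.Agent.H2.CM

variable {K : Type} [Field K]

/-- determinant of four vectors -/
def d4 {R : Type} [CommRing R] (u v w z : Fin 4 → R) : R :=
  (u 0 * v 1 - u 1 * v 0) * (w 2 * z 3 - w 3 * z 2) - (u 0 * v 2 - u 2 * v 0) * (w 1 * z 3 - w 3 * z 1)
  + (u 0 * v 3 - u 3 * v 0) * (w 1 * z 2 - w 2 * z 1)
  + (u 1 * v 2 - u 2 * v 1) * (w 0 * z 3 - w 3 * z 0)
  - (u 1 * v 3 - u 3 * v 1) * (w 0 * z 2 - w 2 * z 0)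
  + (u 2 * v 3 - u 3 * v 2) * (w 0 * z 1 - w 1 * z 0)

lemma det_eq (u v w z : Fin 4 → K) : (Matrix.of ![u, v, w, z]).det = d4 u v w z := by
  simp [Matrix.det_succ_row_zero, Fin.sum_univ_succ, d4, Fin.succAbove]
  ring

lemma aeval_lin (M : Matrix (Fin 4) (Fin 4) K) (a : Fin 4 → K) :
    aeval (fun i => lin (M i)) (lin a) = lin (Matrix.vecMul a M) := by
  simp only [lin, map_sum, map_mul, aeval_C, aeval_X, algebraMap_eq, Matrix.vecMul, dotProduct,
    Finset.mul_sum, Finset.sum_mul, Matrix.transpose_apply, mul_assoc]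
  exact Finset.sum_comm

lemma lin_one (i : Fin 4) : lin ((1 : Matrix (Fin 4) (Fin 4) K) i) = X i := by
  simp [lin, Matrix.one_apply]

lemma comp_lin (M N : Matrix (Fin 4) (Fin 4) K) (h : N * M = 1) (i : Fin 4) :
    aeval (fun i => lin (M i)) (lin (N i)) = X i := by
  rw [aeval_lin, ← lin_one, ← h]
  rfl

lemma exists_kappa (M : Matrix (Fin 4) (Fin 4) K) (hM : M.det ≠ 0) (A : Finset (Fin 4)) :
    ∃ κ : MvPolynomial (Fin 4) K →ₐ[K] MvPolynomial (Fin 4) K,
      (∀ p, p ∈ Ideal.span ((fun i => lin (M i)) '' A) ↔ κ p = 0) ∧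
      (∀ j ∉ A, κ (lin (M j)) = lin (M j)) ∧ (A = Finset.univ → ∀ i, κ (X i) = 0) := by
  have hu : IsUnit M.det := isUnit_iff_ne_zero.2 hM
  let φ : MvPolynomial (Fin 4) K →ₐ[K] MvPolynomial (Fin 4) K := aeval fun i => lin (M i)
  let ψ : MvPolynomial (Fin 4) K →ₐ[K] MvPolynomial (Fin 4) K := aeval fun i => lin (M⁻¹ i)
  let k : MvPolynomial (Fin 4) K →ₐ[K] MvPolynomial (Fin 4) K :=
    aeval fun i => if i ∈ A then 0 else X i
  have h1 : ∀ p, φ (ψ p) = p := by
    have : φ.comp ψ = AlgHom.id K _ := by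
      ext1 i
      simp only [AlgHom.comp_apply, ψ, aeval_X, AlgHom.id_apply]
      exact comp_lin M M⁻¹ (Matrix.nonsing_inv_mul M hu) i
    exact fun p => AlgHom.congr_fun this p
  have h2 : ∀ i, ψ (lin (M i)) = X i := comp_lin M⁻¹ M (Matrix.mul_nonsing_inv M hu)
  have h3 : ∀ q, φ q - φ (k q) ∈ Ideal.span ((fun i => lin (M i)) '' A) := by
    intro q
    induction q using MvPolynomial.induction_on with
    | C r => simp [k]
    | add p q hp hq =>
      have := add_mem hp hq
      simp only [map_add]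
      convert this using 1; ring
    | mul_X p j hp =>
      have e : φ (p * X j) - φ (k (p * X j)) =
          (φ p - φ (k p)) * lin (M j) + φ (k p) * (if j ∈ A then lin (M j) else 0) := by
        simp only [map_mul, k, φ, aeval_X]
        split_ifs <;> simp <;> ring
      rw [e]
      refine add_mem (Ideal.mul_mem_right _ _ hp) (Ideal.mul_mem_left _ _ ?_)
      split_ifs with h
      · exact Ideal.subset_span ⟨j, h, rfl⟩
      · exact zero_mem _
  refine ⟨φ.comp (k.comp ψ), fun p => ⟨fun hp => ?_, fun hp => ?_⟩, fun j hj => ?_, fun hA i => ?_⟩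
  · have : Ideal.span ((fun i => lin (M i)) '' A) ≤ RingHom.ker (φ.comp (k.comp ψ)) := by
      rw [Ideal.span_le]
      rintro _ ⟨i, hi, rfl⟩
      have hi' : i ∈ A := hi
      simp only [SetLike.mem_coe, RingHom.mem_ker, AlgHom.comp_apply, h2]
      simp [k, hi']
    exact this hp
  · have := h3 (ψ p)
    simp only [AlgHom.comp_apply] at hp
    rwa [h1, hp, sub_zero] at this
  · simp only [AlgHom.comp_apply, h2]
    simp [k, φ, hj]
  · simp only [AlgHom.comp_apply, ψ, aeval_X]
    simp [lin, k, hA]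

lemma sp_prime (M : Matrix (Fin 4) (Fin 4) K) (hM : M.det ≠ 0) (A : Finset (Fin 4)) :
    (Ideal.span ((fun i => lin (M i)) '' A)).IsPrime ∧
      ∀ j ∉ A, lin (M j) ∉ Ideal.span ((fun i => lin (M i)) '' A) := by
  obtain ⟨κ, h1, h2, -⟩ := exists_kappa M hM A
  have e : Ideal.span ((fun i => lin (M i)) '' A) = RingHom.ker κ := Ideal.ext h1
  refine ⟨e ▸ RingHom.ker_isPrime κ, fun j hj h => ?_⟩
  rw [h1, h2 j hj] at h
  refine lin_ne_zero _ (fun h0 => hM ?_) h
  exact Matrix.det_eq_zero_of_row_eq_zero j fun k => congrFun h0 k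

section four
variable {u v s t : Fin 4 → K} (h : d4 u v s t ≠ 0)
include h

lemma p1 : (Ideal.span {lin u}).IsPrime ∧ lin u ≠ 0 ∧ lin v ∉ Ideal.span {lin u} := by
  have := sp_prime (Matrix.of ![u, v, s, t]) (by rwa [det_eq]) {0}
  have h0 := (sp_prime (Matrix.of ![u, v, s, t]) (by rwa [det_eq]) ∅).2 0 (by simp)
  simp only [Finset.coe_singleton, Set.image_singleton] at this
  have h1 : lin (Matrix.of ![u, v, s, t] 0) ≠ 0 := by simpa using h0
  exact ⟨this.1, h1, this.2 1 (by decide)⟩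

lemma p2 : (Ideal.span {lin u, lin v}).IsPrime ∧ lin s ∉ Ideal.span {lin u, lin v} ∧
    lin t ∉ Ideal.span {lin u, lin v} := by
  have := sp_prime (Matrix.of ![u, v, s, t]) (by rwa [det_eq]) {0, 1}
  simp only [Finset.coe_insert, Finset.coe_singleton, Set.image_insert_eq,
    Set.image_singleton] at this
  exact ⟨this.1, this.2 2 (by decide), this.2 3 (by decide)⟩

lemma p3 : (Ideal.span {lin u, lin v, lin s}).IsPrime ∧
    lin t ∉ Ideal.span {lin u, lin v, lin s} := by
  have := sp_prime (Matrix.of ![u, v, s, t]) (by rwa [det_eq]) {0, 1, 2}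
  simp only [Finset.coe_insert, Finset.coe_singleton, Set.image_insert_eq,
    Set.image_singleton] at this
  exact ⟨this.1, this.2 3 (by decide)⟩

lemma p4 : (Ideal.span {lin u, lin v, lin s, lin t}).IsPrime ∧
    ∀ i, X i ∈ Ideal.span {lin u, lin v, lin s, lin t} := by
  have := sp_prime (Matrix.of ![u, v, s, t]) (by rwa [det_eq]) {0, 1, 2, 3}
  obtain ⟨κ, h1, -, h3⟩ := exists_kappa (Matrix.of ![u, v, s, t]) (by rwa [det_eq]) {0, 1, 2, 3}
  simp only [Finset.coe_insert, Finset.coe_singleton, Set.image_insert_eq,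
    Set.image_singleton] at this h1
  exact ⟨this.1, fun i => (h1 _).2 (h3 (by decide) i)⟩

lemma ht2 : (Ideal.span {lin u, lin v}).height = 2 := by
  classical
  have a1 := p1 h
  have a2 := p2 h
  apply le_antisymm
  · have := Ideal.height_le_card_of_mem_minimalPrimes_span_finset
      (p := Ideal.span {lin u, lin v}) (s := {lin u, lin v}) (by
        have := a2.1
        simp [Ideal.minimalPrimes_eq_subsingleton_self])
    exact this.trans (by exact_mod_cast Finset.card_le_two)
  · have := a1.1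
    have := a2.1
    have b1 : (⊥ : Ideal (MvPolynomial (Fin 4) K)) < Ideal.span {lin u} :=
      bot_lt_iff_ne_bot.2 (by simpa using a1.2.1)
    have b2 : Ideal.span {lin u} < Ideal.span {lin u, lin v} :=
      lt_of_le_of_ne (Ideal.span_mono (by simp)) fun e =>
        a1.2.2 (e ▸ Ideal.subset_span (by simp))
    have c1 := Ideal.height_add_one_le_of_lt_of_isPrime b1
    have c2 := Ideal.height_add_one_le_of_lt_of_isPrime b2
    rw [Ideal.height_bot, zero_add] at c1
    calc (2 : ℕ∞) = 1 + 1 := rfl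
      _ ≤ _ := by gcongr
      _ ≤ _ := c2

lemma dual : ∃ w1 w2 : Fin 4 → K, ∑ i, u i * w1 i = 1 ∧ ∑ i, v i * w1 i = 0 ∧
    ∑ i, u i * w2 i = 0 ∧ ∑ i, v i * w2 i = 1 := by
  have hu : IsUnit (Matrix.of ![u, v, s, t]).det := isUnit_iff_ne_zero.2 (by rwa [det_eq])
  have e := Matrix.mul_nonsing_inv _ hu
  refine ⟨fun i => (Matrix.of ![u, v, s, t])⁻¹ i 0, fun i => (Matrix.of ![u, v, s, t])⁻¹ i 1,
    ?_, ?_, ?_, ?_⟩
  · simpa [Matrix.mul_apply] using congrFun (congrFun e 0) 0
  · simpa [Matrix.mul_apply] using congrFun (congrFun e 1) 0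
  · simpa [Matrix.mul_apply] using congrFun (congrFun e 0) 1
  · simpa [Matrix.mul_apply] using congrFun (congrFun e 1) 1

lemma good2 (A : Set (Ideal (MvPolynomial (Fin 4) K))) (hA : Ideal.span {lin u, lin v} ∈ A) :
    Good (lin s) (lin t) A (Ideal.span {lin u, lin v}) := by
  obtain ⟨a1, a2, a3⟩ := p2 h
  obtain ⟨b1, b2⟩ := p3 h
  refine ⟨fun g hg => (a1.mem_or_mem hg).resolve_left a2, fun g k hg => ?_, fun g hg => ?_⟩
  · obtain ⟨x, y, e⟩ := Ideal.mem_span_pair.1 hg
    have : lin t * g ∈ Ideal.span {lin u, lin v, lin s} := by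
      have e2 : lin t * g = x * lin u + (y * lin v + k * lin s) := by linear_combination -e
      rw [e2]
      refine add_mem ?_ (add_mem ?_ ?_) <;>
        exact Ideal.mul_mem_left _ _ (Ideal.subset_span (by simp))
    obtain ⟨x', z, hz, e3⟩ := Ideal.mem_span_insert.1 ((b1.mem_or_mem this).resolve_left b2)
    obtain ⟨y', k', rfl⟩ := Ideal.mem_span_pair.1 hz
    exact ⟨k', Ideal.mem_span_pair.2 ⟨x', y', by linear_combination -e3⟩⟩
  · obtain ⟨w, hw, hg⟩ := hg _ hA
    exact (a1.mem_or_mem hg).resolve_left hw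

lemma dim2 (I : Ideal (MvPolynomial (Fin 4) K)) (hI : I ≤ Ideal.span {lin u, lin v})
    (hh : ∀ P : Ideal (MvPolynomial (Fin 4) K), P.IsPrime → I ≤ P → 2 ≤ P.height) :
    ringKrullDim (MvPolynomial (Fin 4) K ⧸ I) = 2 := by
  rw [ringKrullDim_quotient]
  apply le_antisymm
  · rw [Order.krullDim]
    refine iSup_le fun p => ?_
    have key : ∀ n (hn : n ≤ p.length), (2 + n : ℕ∞) ≤ (p ⟨n, by omega⟩).1.asIdeal.height := by
      intro n
      induction n with
      | zero => intro hn; simpa using hh _ (p ⟨0, by omega⟩).1.2 (p ⟨0, by omega⟩).2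
      | succ n ih =>
        intro hn
        have hlt : (p ⟨n, by omega⟩).1.asIdeal < (p ⟨n + 1, by omega⟩).1.asIdeal :=
          p.strictMono (by simp [Fin.lt_def])
        have := Ideal.height_add_one_le_of_lt_of_isPrime hlt
        calc (2 + (n + 1 : ℕ) : ℕ∞) = 2 + n + 1 := by push_cast; ring
          _ ≤ _ := by gcongr; exact ih (by omega)
          _ ≤ _ := this
    have h1 := key p.length le_rfl
    have h2 := Ideal.height_le_ringKrullDim_of_isPrime
      (I := (p ⟨p.length, by omega⟩).1.asIdeal)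
    rw [MvPolynomial.ringKrullDim_of_isNoetherianRing, ringKrullDim_eq_zero_of_field] at h2
    have h3 : ((2 + p.length : ℕ∞) : WithBot ℕ∞) ≤ 0 + (Nat.card (Fin 4) : ℕ) :=
      le_trans (by exact_mod_cast h1) h2
    simp only [Nat.card_eq_fintype_card, Fintype.card_fin, zero_add] at h3
    have h4' : (2 + p.length : ℕ∞) ≤ 4 := WithBot.coe_le_coe.1 h3
    have h4 : 2 + p.length ≤ 4 := by exact_mod_cast h4'
    have h5 : p.length ≤ 2 := by omega
    exact_mod_cast h5
  · have l1 : Ideal.span {lin u, lin v} ≤ Ideal.span {lin u, lin v, lin s} :=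
      Ideal.span_mono (by intro x hx; simp at hx ⊢; tauto)
    have l2 : Ideal.span {lin u, lin v, lin s} ≤ Ideal.span {lin u, lin v, lin s, lin t} :=
      Ideal.span_mono (by intro x hx; simp at hx ⊢; tauto)
    let q0 : PrimeSpectrum.zeroLocus (I : Set (MvPolynomial (Fin 4) K)) := ⟨⟨_, (p2 h).1⟩, hI⟩
    let q1 : PrimeSpectrum.zeroLocus (I : Set (MvPolynomial (Fin 4) K)) :=
      ⟨⟨_, (p3 h).1⟩, hI.trans l1⟩
    let q2 : PrimeSpectrum.zeroLocus (I : Set (MvPolynomial (Fin 4) K)) :=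
      ⟨⟨_, (p4 h).1⟩, (hI.trans l1).trans l2⟩
    have m1 : q0 < q1 := lt_of_le_of_ne l1 fun e => (p2 h).2.1 (by
      have : Ideal.span {lin u, lin v} = Ideal.span {lin u, lin v, lin s} :=
        congrArg (fun q => q.1.asIdeal) e
      rw [this]; exact Ideal.subset_span (by simp))
    have m2 : q1 < q2 := lt_of_le_of_ne l2 fun e => (p3 h).2 (by
      have : Ideal.span {lin u, lin v, lin s} = Ideal.span {lin u, lin v, lin s, lin t} :=
        congrArg (fun q => q.1.asIdeal) e
      rw [this]; exact Ideal.subset_span (by simp))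
    let c : LTSeries (PrimeSpectrum.zeroLocus (I : Set (MvPolynomial (Fin 4) K))) :=
      LTSeries.mk 2 ![q0, q1, q2] (Fin.strictMono_iff_lt_succ.2 fun i => by
        fin_cases i
        exacts [m1, m2])
    exact Order.LTSeries.length_le_krullDim c

end four

end Pool.Agent.H2.CM
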