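import Pool.Agent.H2.CM2

open MvPolynomial Pool.Agent.Lead.POG

namespace Pool.Agent.H2.CM

variable {K : Type} [Field K] {n k : ℕ}

/-- arrangements with triple lines `X`, relations `r`, and a system of parameters `s, t` -/
structure Data (a : Fin n → Fin 4 → K) (X : Fin k → Fin 3 → Fin n) (r : Fin k → Fin 3 → K)
    (s t : Fin 4 → K) : Prop where
  st : ∀ i j, i ≠ j → d4 (a i) (a j) s t ≠ 0
  inj : ∀ x, X x 0 ≠ X x 1 ∧ X x 0 ≠ X x 2 ∧ X x 1 ≠ X x 2
  rel : ∀ x i, r x 0 * a (X x 0) i + r x 1 * a (X x 1) i + r x 2 * a (X x 2) i = 0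
  rne : ∀ x m, r x m ≠ 0
  out : ∀ x c, (∃ m, X x m = c) ∨ d4 (a (X x 0)) (a (X x 1)) (a c) s ≠ 0 ∨
    d4 (a (X x 0)) (a (X x 1)) (a c) t ≠ 0
  dbl : ∀ i j, i ≠ j → (∃ x m m', X x m = i ∧ X x m' = j) ∨
    ∀ c, c = i ∨ c = j ∨ d4 (a i) (a j) (a c) s ≠ 0 ∨ d4 (a i) (a j) (a c) t ≠ 0
  two : ∃ i j : Fin n, i ≠ j

variable (a : Fin n → Fin 4 → K) (X : Fin k → Fin 3 → Fin n) (r : Fin k → Fin 3 → K)

/-- product with one factor omitted -/
noncomputable def Fc (c : Fin n) : MvPolynomial (Fin 4) K :=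
  ∏ b ∈ Finset.univ.erase c, lin (a b)

/-- ideal of a triple line -/
noncomputable def IX (x : Fin k) : Ideal (MvPolynomial (Fin 4) K) :=
  Ideal.span {lin (a (X x 0)), lin (a (X x 1))}

/-- a relation applied to a coefficient vector -/
noncomputable def rho (x : Fin k) (g : Fin n → MvPolynomial (Fin 4) K) : MvPolynomial (Fin 4) K :=
  C (r x 0) * g (X x 0) + C (r x 1) * g (X x 1) + C (r x 2) * g (X x 2)

lemma rho_add (x : Fin k) (g h : Fin n → MvPolynomial (Fin 4) K) :
    rho X r x (g + h) = rho X r x g + rho X r x h := by simp only [rho, Pi.add_apply]; ring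

lemma rho_sub (x : Fin k) (g h : Fin n → MvPolynomial (Fin 4) K) :
    rho X r x (g - h) = rho X r x g - rho X r x h := by simp only [rho, Pi.sub_apply]; ring

lemma rho_smul (x : Fin k) (c : MvPolynomial (Fin 4) K) (g : Fin n → MvPolynomial (Fin 4) K) :
    rho X r x (c • g) = c * rho X r x g := by simp only [rho, Pi.smul_apply, smul_eq_mul]; ring

/-- combination of the products -/
noncomputable def cb : (Fin n → MvPolynomial (Fin 4) K) →ₗ[MvPolynomial (Fin 4) K]
    MvPolynomial (Fin 4) K := Fintype.linearCombination _ (Fc a)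

lemma cb_apply (g : Fin n → MvPolynomial (Fin 4) K) : cb a g = ∑ c, g c * Fc a c := by
  simp [cb, Fintype.linearCombination_apply]

/-- explicit form of the top-dimensional part -/
def Jp : Ideal (MvPolynomial (Fin 4) K) where
  carrier := {f | ∃ g, f = cb a g ∧ ∀ x, rho X r x g ∈ IX a X x}
  add_mem' := by
    rintro _ _ ⟨g, rfl, hg⟩ ⟨h, rfl, hh⟩
    exact ⟨g + h, by rw [map_add], fun x => by rw [rho_add]; exact add_mem (hg x) (hh x)⟩
  zero_mem' := ⟨0, by simp, fun x => by simp [rho]⟩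
  smul_mem' := by
    rintro c _ ⟨g, rfl, hg⟩
    exact ⟨c • g, by rw [map_smul], fun x => by
      rw [rho_smul]; exact Ideal.mul_mem_left _ _ (hg x)⟩

lemma lin_Fc (c : Fin n) : lin (a c) * Fc a c = ∏ j, lin (a j) :=
  Finset.mul_prod_erase _ (fun j => lin (a j)) (Finset.mem_univ c)

lemma pderiv_F (i : Fin 4) : pderiv i (∏ j, lin (a j)) = ∑ c, C (a c i) * Fc a c := by
  have key : ∀ T : Finset (Fin n), pderiv i (∏ j ∈ T, lin (a j)) =
      ∑ c ∈ T, (∏ b ∈ T.erase c, lin (a b)) • pderiv i (lin (a c)) := by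
    intro T
    induction T using Finset.induction_on with
    | empty => simp
    | insert j T hj ih =>
      rw [Finset.prod_insert hj, Derivation.leibniz, ih, Finset.sum_insert hj,
        Finset.erase_insert hj, add_comm, Finset.smul_sum]
      congr 1
      refine Finset.sum_congr rfl fun c hc => ?_
      have hne : j ≠ c := fun h => hj (h ▸ hc)
      rw [Finset.erase_insert_of_ne hne, Finset.prod_insert (by simp [hj]), mul_smul]
  rw [key]
  refine Finset.sum_congr rfl fun c _ => ?_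
  have : pderiv i (lin (a c)) = C (a c i) := by
    simp [lin, pderiv_X, Pi.single_apply]
  rw [this, smul_eq_mul, mul_comm, Fc]

lemma dir_mem (w : Fin 4 → K) : ∑ c, C (∑ i, a c i * w i) * Fc a c ∈ jac a := by
  have : ∑ c, C (∑ i, a c i * w i) * Fc a c = ∑ i, C (w i) * pderiv i (∏ j, lin (a j)) := by
    simp only [pderiv_F, map_sum, map_mul, Finset.sum_mul, Finset.mul_sum]
    rw [Finset.sum_comm]
    exact Finset.sum_congr rfl fun _ _ => Finset.sum_congr rfl fun _ _ => by ring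
  rw [this]
  exact Ideal.sum_mem _ fun i _ => Ideal.mul_mem_left _ _ (Ideal.subset_span ⟨i, rfl⟩)

lemma F_mem [CharZero K] (hn : ∃ i j : Fin n, i ≠ j) : ∏ j, lin (a j) ∈ jac a := by
  have h1 : ∑ i, MvPolynomial.X i * pderiv i (∏ j, lin (a j)) = (n : MvPolynomial (Fin 4) K) *
      ∏ j, lin (a j) := by
    simp only [pderiv_F, Finset.mul_sum]
    rw [Finset.sum_comm]
    have : ∀ c, ∑ i, MvPolynomial.X i * (C (a c i) * Fc a c) = ∏ j, lin (a j) := by
      intro c
      rw [← lin_Fc a c, lin, Finset.sum_mul]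
      exact Finset.sum_congr rfl fun _ _ => by ring
    simp [this]
  have h2 : (n : MvPolynomial (Fin 4) K) * ∏ j, lin (a j) ∈ jac a :=
    h1 ▸ Ideal.sum_mem _ fun i _ => Ideal.mul_mem_left _ _ (Ideal.subset_span ⟨i, rfl⟩)
  obtain ⟨i, -, -⟩ := hn
  have hn0 : (n : K) ≠ 0 := Nat.cast_ne_zero.2 (by have := i.2; omega)
  have := Ideal.mul_mem_left _ (C (n : K)⁻¹) h2
  rwa [← mul_assoc, ← map_natCast C, ← map_mul, inv_mul_cancel₀ hn0, map_one, one_mul] at this

lemma red (T : Finset (Fin n)) (hF : ∏ j, lin (a j) ∈ jac a) (g : Fin n → MvPolynomial (Fin 4) K) :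
    (∏ c ∈ Finset.univ \ T, lin (a c)) * ∑ c, g c * Fc a c -
      ∑ c ∈ T, g c * ((∏ c ∈ Finset.univ \ T, lin (a c)) * Fc a c) ∈ jac a := by
  rw [← Finset.sum_sdiff (Finset.subset_univ T), mul_add, Finset.mul_sum, Finset.mul_sum]
  have e : ∑ c ∈ T, (∏ c ∈ Finset.univ \ T, lin (a c)) * (g c * Fc a c) =
      ∑ c ∈ T, g c * ((∏ c ∈ Finset.univ \ T, lin (a c)) * Fc a c) :=
    Finset.sum_congr rfl fun _ _ => by ring
  rw [e, add_sub_cancel_right]
  refine Ideal.sum_mem _ fun c hc => ?_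
  rw [← Finset.mul_prod_erase _ (fun j => lin (a j)) hc]
  have := Ideal.mul_mem_left _ (g c * ∏ b ∈ (Finset.univ \ T).erase c, lin (a b)) hF
  rw [← lin_Fc a c] at this
  convert this using 1; ring

variable {a X r} {s t : Fin 4 → K} (D : Data a X r s t)
include D

lemma Data.prime (c : Fin n) : Prime (lin (a c)) := by
  obtain ⟨i, j, hij⟩ := D.two
  obtain ⟨b, hb⟩ : ∃ b, c ≠ b := by
    by_cases h : c = i
    · exact ⟨j, h ▸ hij⟩
    · exact ⟨i, h⟩
  have := p1 (D.st c b hb)
  exact (Ideal.span_singleton_prime this.2.1).1 this.1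

lemma Data.nd (b c : Fin n) (h : b ≠ c) : ¬ lin (a b) ∣ lin (a c) :=
  fun e => (p1 (D.st b c h)).2.2 (Ideal.mem_span_singleton.2 e)

/-- the primes of the lines -/
def lines (a : Fin n → Fin 4 → K) : Set (Ideal (MvPolynomial (Fin 4) K)) :=
  {P | ∃ i j, i ≠ j ∧ P = Ideal.span {lin (a i), lin (a j)}}

lemma Data.good0 : Good (lin s) (lin t) (lines a) (LinearMap.range (cb a)) := by
  have := good_I0 (s := lin s) (t := lin t) (A := lines a) (fun c => lin (a c)) D.prime D.nd
    (fun i j h => good2 (D.st i j h) _ ⟨i, j, h, rfl⟩) Finset.univ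
  convert this
  ext f
  constructor
  · rintro ⟨g, rfl⟩
    exact ⟨0, g, by simp [cb_apply, Fc]⟩
  · rintro ⟨g0, g, rfl⟩
    obtain ⟨i, -, -⟩ := D.two
    refine ⟨g + Pi.single i (g0 * lin (a i)), ?_⟩
    have e : cb a (Pi.single i (g0 * lin (a i))) = g0 * lin (a i) * Fc a i := by
      rw [cb_apply, Finset.sum_eq_single i (by intro b _ hb; simp [hb]) (by simp)]
      simp
    rw [map_add, e, cb_apply, ← lin_Fc a i]
    simp only [Fc]
    ring

lemma Data.linrel (x : Fin k) : C (r x 0) * lin (a (X x 0)) + C (r x 1) * lin (a (X x 1)) +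
    C (r x 2) * lin (a (X x 2)) = 0 := by
  simp only [lin, Finset.mul_sum, ← Finset.sum_add_distrib]
  refine Finset.sum_eq_zero fun i _ => ?_
  have := congrArg (fun z => (C z : MvPolynomial (Fin 4) K) * MvPolynomial.X i) (D.rel x i)
  simp only [map_add, map_mul, map_zero] at this
  linear_combination this

lemma cancel_C {I : Ideal (MvPolynomial (Fin 4) K)} {c : K} (hc : c ≠ 0)
    {f : MvPolynomial (Fin 4) K} (h : C c * f ∈ I) : f ∈ I := by
  have := I.mul_mem_left (C c⁻¹) h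
  rwa [← mul_assoc, ← map_mul, inv_mul_cancel₀ hc, map_one, one_mul] at this

lemma Data.mem3 (I : Ideal (MvPolynomial (Fin 4) K)) (x : Fin k) (m m' : Fin 3) (h : m ≠ m')
    (h1 : lin (a (X x m)) ∈ I) (h2 : lin (a (X x m')) ∈ I) (j : Fin 3) : lin (a (X x j)) ∈ I := by
  have e := D.linrel x
  have k0 : lin (a (X x 1)) ∈ I → lin (a (X x 2)) ∈ I → lin (a (X x 0)) ∈ I := fun p q =>
    cancel_C D (D.rne x 0) (by
      rw [show C (r x 0) * lin (a (X x 0)) = -(C (r x 1) * lin (a (X x 1))) -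
        C (r x 2) * lin (a (X x 2)) by linear_combination e]
      exact sub_mem (neg_mem (I.mul_mem_left _ p)) (I.mul_mem_left _ q))
  have k1 : lin (a (X x 0)) ∈ I → lin (a (X x 2)) ∈ I → lin (a (X x 1)) ∈ I := fun p q =>
    cancel_C D (D.rne x 1) (by
      rw [show C (r x 1) * lin (a (X x 1)) = -(C (r x 0) * lin (a (X x 0))) -
        C (r x 2) * lin (a (X x 2)) by linear_combination e]
      exact sub_mem (neg_mem (I.mul_mem_left _ p)) (I.mul_mem_left _ q))
  have k2 : lin (a (X x 0)) ∈ I → lin (a (X x 1)) ∈ I → lin (a (X x 2)) ∈ I := fun p q =>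
    cancel_C D (D.rne x 2) (by
      rw [show C (r x 2) * lin (a (X x 2)) = -(C (r x 0) * lin (a (X x 0))) -
        C (r x 1) * lin (a (X x 1)) by linear_combination e]
      exact sub_mem (neg_mem (I.mul_mem_left _ p)) (I.mul_mem_left _ q))
  fin_cases m <;> fin_cases m' <;> fin_cases j <;> simp_all

lemma Data.memIX (x : Fin k) (j : Fin 3) : lin (a (X x j)) ∈ IX a X x :=
  D.mem3 _ x 0 1 (by decide) (Ideal.subset_span (by simp)) (Ideal.subset_span (by simp)) j

lemma Data.wd (g : Fin n → MvPolynomial (Fin 4) K) (hg : cb a g ∈ Jp a X r) (x : Fin k) :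
    rho X r x g ∈ IX a X x := by
  obtain ⟨g', e, hg'⟩ := hg
  have h0 : cb a (g - g') = 0 := by rw [map_sub, e, sub_self]
  have h1 : ∀ c, lin (a c) ∣ (g - g') c := by
    intro c
    rw [cb_apply, ← Finset.add_sum_erase _ _ (Finset.mem_univ c)] at h0
    have h2 : lin (a c) ∣ ∑ b ∈ Finset.univ.erase c, (g - g') b * Fc a b :=
      Finset.dvd_sum fun b hb => Dvd.dvd.mul_left (Finset.dvd_prod_of_mem (fun j => lin (a j))
        (by simpa using (Finset.ne_of_mem_erase hb).symm)) _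
    have h3 : lin (a c) ∣ (g - g') c * Fc a c := by
      rw [eq_neg_of_add_eq_zero_left h0]; exact h2.neg_right
    exact ((D.prime c).dvd_or_dvd h3).resolve_right
      (not_dvd_prod (fun c => lin (a c)) D.prime D.nd (by simp))
  have h4 : ∀ j, (g - g') (X x j) ∈ IX a X x := fun j => by
    obtain ⟨q, hq⟩ := h1 (X x j)
    rw [hq]; exact Ideal.mul_mem_right _ _ (D.memIX x j)
  have h5 : rho X r x (g - g') ∈ IX a X x :=
    add_mem (add_mem (Ideal.mul_mem_left _ _ (h4 0)) (Ideal.mul_mem_left _ _ (h4 1)))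
      (Ideal.mul_mem_left _ _ (h4 2))
  rw [rho_sub] at h5
  simpa using add_mem h5 (hg' x)

lemma Data.jac_le : jac a ≤ Jp a X r := by
  rw [jac, Ideal.span_le]
  rintro _ ⟨i, rfl⟩
  refine ⟨fun c => C (a c i), by simp only [pderiv_F, cb_apply], fun x => ?_⟩
  simp only [rho, ← map_mul, ← map_add, D.rel x i, map_zero, zero_mem]

lemma Data.le_line (i j : Fin n) (h : i ≠ j) : Jp a X r ≤ Ideal.span {lin (a i), lin (a j)} := by
  rintro _ ⟨g, rfl, -⟩
  rw [cb_apply]
  refine Ideal.sum_mem _ fun c _ => Ideal.mul_mem_left _ _ ?_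
  by_cases hc : i = c
  · exact Ideal.mem_of_dvd _ (Finset.dvd_prod_of_mem (fun j => lin (a j))
      (by simpa [← hc] using h.symm : j ∈ _)) (Ideal.subset_span (by simp))
  · exact Ideal.mem_of_dvd _ (Finset.dvd_prod_of_mem (fun j => lin (a j))
      (by simpa using hc : i ∈ _)) (Ideal.subset_span (by simp))

lemma Data.two_mem [CharZero K] (P : Ideal (MvPolynomial (Fin 4) K)) (hP : P.IsPrime)
    (h : jac a ≤ P) : ∃ i j, i ≠ j ∧ Ideal.span {lin (a i), lin (a j)} ≤ P := by
  obtain ⟨i, -, hi⟩ := Ideal.IsPrime.prod_mem_iff.1 (h (F_mem a D.two))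
  obtain ⟨b, hb⟩ : ∃ b, i ≠ b := by
    obtain ⟨i', j, hij⟩ := D.two
    by_cases h : i = i'
    · exact ⟨j, h ▸ hij⟩
    · exact ⟨i', h⟩
  obtain ⟨w, -, hw, -⟩ := dual (D.st i b hb)
  have h1 := h (dir_mem a w)
  rw [← Finset.add_sum_erase _ _ (Finset.mem_univ i), hw, map_one, one_mul] at h1
  have h2 : ∑ c ∈ Finset.univ.erase i, C (∑ i, a c i * w i) * Fc a c ∈ P :=
    Ideal.sum_mem _ fun c hc => Ideal.mul_mem_left _ _ (Ideal.mem_of_dvd _
      (Finset.dvd_prod_of_mem (fun j => lin (a j))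
        (by simpa using (Finset.ne_of_mem_erase hc).symm : i ∈ _)) hi)
  have h3 : Fc a i ∈ P := by simpa using sub_mem h1 h2
  obtain ⟨j, hj, hj'⟩ := Ideal.IsPrime.prod_mem_iff.1 h3
  refine ⟨i, j, (Finset.ne_of_mem_erase hj).symm, Ideal.span_le.2 ?_⟩
  rintro _ (rfl | rfl)
  exacts [hi, hj']

lemma Data.dim [CharZero K] : ringKrullDim (MvPolynomial (Fin 4) K ⧸ Jp a X r) = 2 := by
  obtain ⟨i, j, h⟩ := D.two
  refine dim2 (D.st i j h) _ (D.le_line i j h) fun P hP hle => ?_
  obtain ⟨i, j, h, hle⟩ := D.two_mem P hP (D.jac_le.trans hle)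
  exact ht2 (D.st i j h) ▸ Ideal.height_mono hle

lemma Data.unm (f : MvPolynomial (Fin 4) K) (hf : ∀ P ∈ lines a, ∃ u ∉ P, u * f ∈ Jp a X r) :
    f ∈ Jp a X r := by
  obtain ⟨g, rfl⟩ := D.good0.un f fun P hP => by
    obtain ⟨u, hu, g, e, -⟩ := hf P hP
    exact ⟨u, hu, g, e.symm⟩
  refine ⟨g, rfl, fun x => ?_⟩
  obtain ⟨u, hu, h⟩ := hf (IX a X x) ⟨_, _, (D.inj x).1, rfl⟩
  have := D.wd (u • g) (by rwa [map_smul]) x
  rw [rho_smul] at this
  exact ((p2 (D.st _ _ (D.inj x).1)).1.mem_or_mem this).resolve_left hu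

lemma Data.loc [CharZero K] (i j : Fin n) (hij : i ≠ j) (f : MvPolynomial (Fin 4) K)
    (hf : f ∈ Jp a X r) : ∃ u ∉ Ideal.span {lin (a i), lin (a j)}, u * f ∈ jac a := by
  obtain ⟨g, rfl, hg⟩ := hf
  have hF := F_mem a D.two
  have hP := (p2 (D.st i j hij)).1
  rcases D.dbl i j hij with ⟨x, m, m', rfl, rfl⟩ | hd
  · have hm : m ≠ m' := fun e => hij (e ▸ rfl)
    have hPX : Ideal.span {lin (a (X x m)), lin (a (X x m'))} ≤ IX a X x := by
      rw [Ideal.span_le]
      rintro _ (rfl | rfl) <;> exact D.memIX x _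
    obtain ⟨i01, i02, i12⟩ := D.inj x
    refine ⟨∏ c ∈ Finset.univ \ {X x 0, X x 1, X x 2}, lin (a c), fun h => ?_, ?_⟩
    · obtain ⟨c, hc, h⟩ := Ideal.IsPrime.prod_mem_iff.1 h
      rcases D.out x c with ⟨m, rfl⟩ | h' | h'
      · fin_cases m <;> simp at hc
      · exact (p2 h').2.1 (hPX h)
      · exact (p2 h').2.1 (hPX h)
    · obtain ⟨w1, w2, e1, e2, e3, e4⟩ := dual (D.st _ _ i01)
      have sumrel : ∀ w : Fin 4 → K, r x 0 * ∑ i, a (X x 0) i * w i + r x 1 * ∑ i, a (X x 1) i * w i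
          + r x 2 * ∑ i, a (X x 2) i * w i = 0 := by
        intro w
        simp only [Finset.mul_sum, ← Finset.sum_add_distrib]
        exact Finset.sum_eq_zero fun i _ => by linear_combination w i * D.rel x i
      have s1 := congrArg (C : K → MvPolynomial (Fin 4) K) (sumrel w1)
      have s2 := congrArg (C : K → MvPolynomial (Fin 4) K) (sumrel w2)
      have a0 := red a {X x 0, X x 1, X x 2} hF g
      have a1 := sub_mem ((jac a).mul_mem_left (∏ c ∈ Finset.univ \ {X x 0, X x 1, X x 2},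
        lin (a c)) (dir_mem a w1)) (red a {X x 0, X x 1, X x 2} hF fun c => C (∑ i, a c i * w1 i))
      have a2 := sub_mem ((jac a).mul_mem_left (∏ c ∈ Finset.univ \ {X x 0, X x 1, X x 2},
        lin (a c)) (dir_mem a w2)) (red a {X x 0, X x 1, X x 2} hF fun c => C (∑ i, a c i * w2 i))
      rw [sub_sub_cancel] at a1 a2
      rw [Finset.sum_insert (by simp [i01, i02]), Finset.sum_pair i12] at a0 a1 a2
      rw [e1, e2] at a1 s1
      rw [e3, e4] at a2 s2
      simp only [map_add, map_mul (C : K →+* MvPolynomial (Fin 4) K) (r x _), map_one,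
        map_zero] at s1 s2 a1 a2
      rw [← cb_apply] at a0
      have f0 := lin_Fc a (X x 0)
      have f1 := lin_Fc a (X x 1)
      obtain ⟨α, β, hαβ⟩ := Ideal.mem_span_pair.1 (hg x)
      rw [rho] at hαβ
      generalize (∏ c ∈ Finset.univ \ {X x 0, X x 1, X x 2}, lin (a c)) = u at *
      generalize C (∑ i, a (X x 2) i * w1 i) = z1 at *
      generalize C (∑ i, a (X x 2) i * w2 i) = z2 at *
      have b0 : lin (a (X x 0)) * (u * Fc a (X x 2)) ∈ jac a := by
        refine cancel_C D (D.rne x 0) ?_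
        have := sub_mem ((jac a).mul_mem_left (C (r x 2) * u) hF)
          ((jac a).mul_mem_left (C (r x 2) * lin (a (X x 0))) a1)
        convert this using 1
        linear_combination (lin (a (X x 0)) * (u * Fc a (X x 2))) * s1 + C (r x 2) * u * f0
      have b1 : lin (a (X x 1)) * (u * Fc a (X x 2)) ∈ jac a := by
        refine cancel_C D (D.rne x 1) ?_
        have := sub_mem ((jac a).mul_mem_left (C (r x 2) * u) hF)
          ((jac a).mul_mem_left (C (r x 2) * lin (a (X x 1))) a2)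
        convert this using 1
        linear_combination (lin (a (X x 1)) * (u * Fc a (X x 2))) * s2 + C (r x 2) * u * f1
      refine cancel_C D (D.rne x 2) ?_
      have := add_mem (add_mem ((jac a).mul_mem_left (C (r x 2)) a0)
        (add_mem ((jac a).mul_mem_left (C (r x 2) * g (X x 0)) a1)
          ((jac a).mul_mem_left (C (r x 2) * g (X x 1)) a2)))
        (add_mem ((jac a).mul_mem_left α b0) ((jac a).mul_mem_left β b1))
      convert this using 1
      linear_combination -(g (X x 0) * (u * Fc a (X x 2))) * s1 -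
        (g (X x 1) * (u * Fc a (X x 2))) * s2 - (u * Fc a (X x 2)) * hαβ
  · refine ⟨∏ c ∈ Finset.univ \ {i, j}, lin (a c), fun h => ?_, ?_⟩
    · obtain ⟨c, hc, h⟩ := Ideal.IsPrime.prod_mem_iff.1 h
      rcases hd c with rfl | rfl | h' | h'
      · simp at hc
      · simp at hc
      · exact (p2 h').2.1 h
      · exact (p2 h').2.1 h
    · obtain ⟨w1, w2, e1, e2, e3, e4⟩ := dual (D.st _ _ hij)
      have a0 := red a {i, j} hF g
      have a1 := sub_mem ((jac a).mul_mem_left (∏ c ∈ Finset.univ \ {i, j},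
        lin (a c)) (dir_mem a w1)) (red a {i, j} hF fun c => C (∑ i, a c i * w1 i))
      have a2 := sub_mem ((jac a).mul_mem_left (∏ c ∈ Finset.univ \ {i, j},
        lin (a c)) (dir_mem a w2)) (red a {i, j} hF fun c => C (∑ i, a c i * w2 i))
      rw [sub_sub_cancel] at a1 a2
      rw [Finset.sum_pair hij] at a0 a1 a2
      rw [e1, e2] at a1
      rw [e3, e4] at a2
      rw [← cb_apply] at a0
      have := add_mem a0 (add_mem ((jac a).mul_mem_left (g i) a1) ((jac a).mul_mem_left (g j) a2))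
      convert this using 1
      simp only [map_one, map_zero]
      ring

theorem Data.top_eq [CharZero K] : topPart (jac a) = Jp a X r := by
  ext f
  have key : ∀ P : PrimeSpectrum (MvPolynomial (Fin 4) K),
      algebraMap _ (Localization.AtPrime P.asIdeal) f ∈
        (jac a).map (algebraMap _ (Localization.AtPrime P.asIdeal)) ↔
      ∃ u ∉ P.asIdeal, u * f ∈ jac a := fun P =>
    IsLocalization.algebraMap_mem_map_algebraMap_iff P.asIdeal.primeCompl _ _ _
  simp only [topPart, Ideal.mem_iInf, Ideal.mem_comap, key]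
  constructor
  · intro h
    refine D.unm f ?_
    rintro _ ⟨i, j, hij, rfl⟩
    obtain ⟨u, hu, h⟩ := h ⟨_, (p2 (D.st i j hij)).1⟩
      ⟨D.jac_le.trans (D.le_line i j hij), ht2 (D.st i j hij)⟩
    exact ⟨u, hu, D.jac_le h⟩
  · rintro hf P ⟨h1, h2⟩
    obtain ⟨i, j, hij, hle⟩ := D.two_mem P.asIdeal P.2 h1
    have := (p2 (D.st i j hij)).1
    have e := Ideal.eq_of_le_of_height_le _ hle (by rw [h2, ht2 (D.st i j hij)])
    obtain ⟨u, hu, h⟩ := D.loc i j hij f hf
    exact ⟨u, fun hh => hu (e ▸ hh), h⟩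

end Pool.Agent.H2.CM
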