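import Pool.Agent.H2.CM4

open MvPolynomial Pool.Agent.Lead.POG Pool.Agent.H2.Pdim

namespace Pool.Agent.H2.CM

variable {K : Type} [Field K] {n k : ℕ}

/-- integer vectors over `K` -/
def c4 (K : Type) [Field K] {m : ℕ} (v : Fin m → ℤ) : Fin m → K := fun i => (v i : K)

lemma d4_c4 [CharZero K] (u v w z : Fin 4 → ℤ) :
    d4 (c4 K u) (c4 K v) (c4 K w) (c4 K z) = 0 ↔ d4 u v w z = 0 := by
  have : d4 (c4 K u) (c4 K v) (c4 K w) (c4 K z) = ((d4 u v w z : ℤ) : K) := by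
    simp [d4, c4]
  rw [this, Int.cast_eq_zero]

lemma data_of [CharZero K] (a : Fin n → Fin 4 → ℤ) (X : Fin k → Fin 3 → Fin n)
    (r : Fin k → Fin 3 → ℤ) (s t : Fin 4 → ℤ)
    (st : ∀ i j, i ≠ j → d4 (a i) (a j) s t ≠ 0)
    (inj : ∀ x, X x 0 ≠ X x 1 ∧ X x 0 ≠ X x 2 ∧ X x 1 ≠ X x 2)
    (rel : ∀ x i, r x 0 * a (X x 0) i + r x 1 * a (X x 1) i + r x 2 * a (X x 2) i = 0)
    (rne : ∀ x m, r x m ≠ 0)
    (out : ∀ x c, (∃ m, X x m = c) ∨ d4 (a (X x 0)) (a (X x 1)) (a c) s ≠ 0 ∨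
      d4 (a (X x 0)) (a (X x 1)) (a c) t ≠ 0)
    (dbl : ∀ i j, i ≠ j → (∃ x m m', X x m = i ∧ X x m' = j) ∨
      ∀ c, c = i ∨ c = j ∨ d4 (a i) (a j) (a c) s ≠ 0 ∨ d4 (a i) (a j) (a c) t ≠ 0)
    (two : ∃ i j : Fin n, i ≠ j) :
    Data (fun i => c4 K (a i)) X (fun x => c4 K (r x)) (c4 K s) (c4 K t) where
  st := by simpa only [ne_eq, d4_c4] using st
  inj := inj
  rel := fun x i => by simp only [c4]; exact_mod_cast rel x i
  rne := fun x m => by simp only [c4]; exact_mod_cast rne x m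
  out := by simpa only [ne_eq, d4_c4] using out
  dbl := by simpa only [ne_eq, d4_c4] using dbl
  two := two

lemma Data.isArr {a : Fin n → Fin 4 → K} {X : Fin k → Fin 3 → Fin n} {r : Fin k → Fin 3 → K}
    {s t : Fin 4 → K} (D : Data a X r s t) : IsArr a := by
  have h0 : ∀ j, a j ≠ 0 := fun j h => (D.prime j).ne_zero (by simp [lin, h])
  refine ⟨h0, fun i j h => ?_⟩
  by_contra hij
  obtain ⟨c, hc⟩ := prop_of_hyp_le (a j) (a i) (h0 i) (le_of_eq h)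
  refine D.nd i j hij ⟨C c, ?_⟩
  rw [hc]
  simp [lin, Finset.mul_sum, mul_assoc, mul_comm, mul_left_comm]

/-- stars of the vertices of the Petersen graph -/
def pX : Fin 10 → Fin 3 → Fin 15 :=
  ![![0, 4, 5],
    ![0, 1, 6],
    ![1, 2, 7],
    ![2, 3, 8],
    ![3, 4, 9],
    ![5, 10, 13],
    ![6, 11, 14],
    ![7, 10, 12],
    ![8, 11, 13],
    ![9, 12, 14]]

/-- first arrangement -/
def aF : Fin 15 → Fin 4 → ℤ :=
  ![![12, -12, -6, 7],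
    ![-10, 8, 4, -3],
    ![12, -13, -8, 0],
    ![-13, 3, 6, -8],
    ![6, -5, -6, 3],
    ![0, 2, -6, -1],
    ![-1, 2, 1, -2],
    ![-2, 5, 4, 3],
    ![1, 10, 2, 8],
    ![7, 2, 0, 5],
    ![-2, 2, 2, 1],
    ![-1, -1, -2, -2],
    ![-2, -1, 0, -1],
    ![-1, 2, -2, 0],
    ![-1, 1, 0, -2]]

/-- second arrangement -/
def aG : Fin 15 → Fin 4 → ℤ :=
  ![![1, 0, 3, -1],
    ![1, -2, 2, 2],
    ![-3, -3, 1, -1],
    ![1, -4, -1, -2],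
    ![1, -3, 1, -3],
    ![0, -3, -2, -2],
    ![0, 2, 1, -3],
    ![4, 1, 1, 3],
    ![-4, 1, 2, 1],
    ![0, -1, -2, 1],
    ![-2, -3, 0, -3],
    ![2, -1, 0, -2],
    ![2, -2, 1, 0],
    ![-2, 0, 2, -1],
    ![2, -3, -1, 1]]

/-- relations of the first arrangement -/
def rF : Fin 10 → Fin 3 → ℤ :=
  ![![1, -2, 1],
    ![1, 1, 2],
    ![1, 1, 1],
    ![1, 1, 1],
    ![1, 1, 1],
    ![1, 1, -2],
    ![2, 1, -3],
    ![1, -2, 1],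
    ![-1, -4, 3],
    ![1, 3, 1]]

/-- relations of the second arrangement -/
def rG : Fin 10 → Fin 3 → ℤ :=
  ![![1, -1, 1],
    ![-1, 1, 1],
    ![-1, 1, 1],
    ![-1, 1, 1],
    ![-1, 1, 1],
    ![-1, 1, -1],
    ![-1, 1, -1],
    ![-1, -1, 1],
    ![-1, -1, 1],
    ![-1, -1, 1]]

/-- right inverse -/
def cF : Fin 10 → Fin 15 → ℤ :=
  ![![-2, 2, -2, 2, -2, 0, 0, 0, 0, 0, 0, 0, 0, 0, 0],
    ![4, -2, 2, -2, 2, 0, 0, 0, 0, 0, 0, 0, 0, 0, 0],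
    ![-4, 4, -2, 2, -2, 0, 0, 0, 0, 0, 0, 0, 0, 0, 0],
    ![4, -4, 4, -2, 2, 0, 0, 0, 0, 0, 0, 0, 0, 0, 0],
    ![-4, 4, -4, 4, -2, 0, 0, 0, 0, 0, 0, 0, 0, 0, 0],
    ![2, -2, 2, -2, 2, 2, 0, 0, 0, 0, 0, 0, 0, 0, 0],
    ![-4, 2, -2, 2, -2, 0, 1, 0, 0, 0, 0, 0, 0, 0, 0],
    ![4, -4, 2, -2, 2, 0, 0, 2, 0, 0, 0, 0, 0, 0, 0],
    ![4, -4, 4, -2, 2, 0, 0, 0, -2, 0, 0, 0, 0, 0, 0],
    ![4, -4, 4, -4, 2, 0, 0, 0, 0, 2, 0, 0, 0, 0, 0]]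

/-- path flows -/
def cG : Fin 10 → Fin 15 → ℤ :=
  ![![0, 0, 0, 0, 0, 0, 0, 0, 0, 0, 0, 0, 0, 0, 0],
    ![1, 0, 0, 0, 0, 0, 0, 0, 0, 0, 0, 0, 0, 0, 0],
    ![1, 1, 0, 0, 0, 0, 0, 0, 0, 0, 0, 0, 0, 0, 0],
    ![1, 1, 1, 0, 0, 0, 0, 0, 0, 0, 0, 0, 0, 0, 0],
    ![1, 1, 1, 1, 0, 0, 0, 0, 0, 0, 0, 0, 0, 0, 0],
    ![0, 0, 0, 0, 0, 1, 0, 0, 0, 0, 0, 0, 0, 0, 0],
    ![1, 0, 0, 0, 0, 0, 1, 0, 0, 0, 0, 0, 0, 0, 0],
    ![1, 1, 0, 0, 0, 0, 0, 1, 0, 0, 0, 0, 0, 0, 0],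
    ![1, 1, 1, 0, 0, 0, 0, 0, 1, 0, 0, 0, 0, 0, 0],
    ![1, 1, 1, 1, 0, 0, 0, 0, 0, 1, 0, 0, 0, 0, 0]]

lemma dataF [CharZero K] : Data (fun i => c4 K (aF i)) pX (fun x => c4 K (rF x))
    (c4 K ![0, 3, 2, 0]) (c4 K ![-3, -1, 3, -3]) :=
  data_of _ _ _ _ _ (by decide +kernel) (by decide +kernel) (by decide +kernel) (by decide +kernel)
    (by decide +kernel) (by decide +kernel) ⟨0, 1, by decide⟩

lemma dataG [CharZero K] : Data (fun i => c4 K (aG i)) pX (fun x => c4 K (rG x))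
    (c4 K ![0, 3, 2, 0]) (c4 K ![-3, -1, 3, -3]) :=
  data_of _ _ _ _ _ (by decide +kernel) (by decide +kernel) (by decide +kernel) (by decide +kernel)
    (by decide +kernel) (by decide +kernel) ⟨0, 1, by decide⟩

theorem cmF [CharZero K] : IsCM (topPart (jac fun i => c4 K (aF i))) := by
  refine dataF.cm (fun x i => (cF x i : K) / 2) fun x y => ?_
  have h : ∀ x y, rF y 0 * cF x (pX y 0) + rF y 1 * cF x (pX y 1) + rF y 2 * cF x (pX y 2) =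
      if y = x then 2 else 0 := by decide +kernel
  have h2 := congrArg (fun z : ℤ => (z : K) / 2) (h x y)
  simp only [c4]
  push_cast at h2
  split_ifs at h2 ⊢
  · linear_combination h2
  · linear_combination h2

theorem not_cmG [CharZero K] : ¬ IsCM (topPart (jac fun i => c4 K (aG i))) := by
  refine dataG.not_cm 0 (fun g => ?_) (fun x i => (cG x i : K)) (fun x y => ?_) (by decide +kernel)
    0 1 2 3 (by rw [ne_eq, d4_c4]; decide +kernel)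
  · simp [rho, c4, rG, pX, Fin.sum_univ_succ]
    ring
  · have h : ∀ x y, rG y 0 * cG x (pX y 0) + rG y 1 * cG x (pX y 1) + rG y 2 * cG x (pX y 2) =
      (if y = 0 then 1 else 0) - if y = x then 1 else 0 := by decide +kernel
    simp only [c4]
    exact_mod_cast h x y

theorem isoFG [CharZero K] :
    Nonempty (lattice (fun i => c4 K (aF i)) ≃o lattice fun i => c4 K (aG i)) := by
  refine lat_iso4 _ _ 0 1 2 3 (by rw [ne_eq, d4_c4]; decide +kernel)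
    (by rw [ne_eq, d4_c4]; decide +kernel) ?_
  simp only [d4_c4]
  decide +kernel

end Pool.Agent.H2.CM
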