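import Mathlib

/-! Product expectations on finite cubes, clue, clue profile, noise correlation. -/

namespace Pool.Agent.H2.Clue

open Finset

/-- Bernoulli weights: `true` has probability `p` -/
def bern (p : ℝ) (b : Bool) : ℝ := if b then p else 1 - p

section Defs
variable {V : Type} [Fintype V] [DecidableEq V]

/-- expectation of `G` when the coordinates are i.i.d. Bernoulli(`p`) -/
def PE (p : ℝ) (G : (V → Bool) → ℝ) : ℝ := ∑ ξ : V → Bool, (∏ i, bern p (ξ i)) * G ξ

/-- `ω` on the set `U` (given by its indicator), `η` off `U` -/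
def mix (U ω η : V → Bool) : V → Bool := fun i => if U i then ω i else η i

/-- variance -/
def Var (p : ℝ) (g : (V → Bool) → ℝ) : ℝ := PE p (fun ω => g ω ^ 2) - PE p g ^ 2

/-- `E[f | F_U]` -/
def condE (p : ℝ) (f : (V → Bool) → ℝ) (U : V → Bool) (ω : V → Bool) : ℝ :=
  PE p fun η => f (mix U ω η)

/-- `clue(f | U)` -/
noncomputable def clue (p : ℝ) (f : (V → Bool) → ℝ) (U : V → Bool) : ℝ :=
  Var p (condE p f U) / Var p f

/-- `E[clue(f | B^δ)]` -/
noncomputable def Eclue (p : ℝ) (f : (V → Bool) → ℝ) (δ : ℝ) : ℝ := PE δ fun U => clue p f U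

/-- the clue profile `cp_f(s)` -/
noncomputable def cp (p : ℝ) (f : (V → Bool) → ℝ) (s : ℝ) : ℝ :=
  sInf {u | ∃ U : V → Bool,
    ((univ.filter fun i => U i = true).card : ℝ) / Fintype.card V ≤ u ∧ s ≤ clue p f U}

/-- `E[f(ω) f(ω^ε)] - E[f]^2`; `R` is the set of resampled coordinates -/
def noiseCov (p : ℝ) (f : (V → Bool) → ℝ) (ε : ℝ) : ℝ :=
  (PE ε fun R => PE p fun ω => PE p fun η => f ω * f (mix R η ω)) - PE p f ^ 2

lemma PE_prod (p : ℝ) (φ : V → Bool → ℝ) :
    PE p (fun ξ => ∏ i, φ i (ξ i)) = ∏ i, (p * φ i true + (1 - p) * φ i false) := by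
  unfold PE
  have := Finset.prod_univ_sum (fun _ : V => (univ : Finset Bool)) fun i b => bern p b * φ i b
  simp only [Fintype.piFinset_univ, prod_mul_distrib] at this
  rw [← this]
  simp [bern]

lemma PE_const (p c : ℝ) : PE p (fun _ : V → Bool => c) = c := by
  have := PE_prod (V := V) p fun _ _ => 1
  simp only [prod_const_one, mul_one, add_sub_cancel] at this
  unfold PE at this ⊢
  simp only [mul_one] at this
  rw [← sum_mul, this, one_mul]

lemma PE_add (p : ℝ) (F G : (V → Bool) → ℝ) : PE p (fun ξ => F ξ + G ξ) = PE p F + PE p G := by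
  simp [PE, mul_add, sum_add_distrib]

lemma PE_sub (p : ℝ) (F G : (V → Bool) → ℝ) : PE p (fun ξ => F ξ - G ξ) = PE p F - PE p G := by
  simp [PE, mul_sub, sum_sub_distrib]

lemma PE_mul (p c : ℝ) (F : (V → Bool) → ℝ) : PE p (fun ξ => c * F ξ) = c * PE p F := by
  simp only [PE, mul_sum]
  exact sum_congr rfl fun _ _ => by ring

lemma PE_mono {p : ℝ} (h0 : 0 ≤ p) (h1 : p ≤ 1) {F G : (V → Bool) → ℝ} (h : ∀ ξ, F ξ ≤ G ξ) :
    PE p F ≤ PE p G := by
  refine sum_le_sum fun ξ _ => mul_le_mul_of_nonneg_left (h ξ) (prod_nonneg fun i _ => ?_)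
  unfold bern; split_ifs <;> linarith

lemma Var_nonneg {p : ℝ} (h0 : 0 ≤ p) (h1 : p ≤ 1) (g : (V → Bool) → ℝ) : 0 ≤ Var p g := by
  have h := PE_mono h0 h1 (F := fun _ => 0)
    (G := fun ξ => g ξ ^ 2 - (2 * PE p g) * g ξ + PE p g ^ 2) fun ξ => by nlinarith [sq_nonneg (g ξ - PE p g)]
  rw [PE_const, PE_add, PE_sub, PE_mul, PE_const] at h
  unfold Var
  linarith

lemma Var_affine (p : ℝ) (g : (V → Bool) → ℝ) : Var p (fun ω => 1 - 2 * g ω) = 4 * Var p g := by
  unfold Var
  have : (fun ω => (1 - 2 * g ω) ^ 2) = fun ω => 1 - 4 * g ω + 4 * g ω ^ 2 := by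
    funext ω; ring
  rw [this, PE_add, PE_sub, PE_sub, PE_mul, PE_mul, PE_mul, PE_const]
  ring

/-- indicator that all coordinates are `true` -/
def AND (x : V → Bool) : ℝ := ∏ i, if x i then 1 else 0

lemma AND_eq (x : V → Bool) : AND x = if ∀ i, x i = true then 1 else 0 := by
  unfold AND
  split_ifs with h
  · simp [h]
  · push Not at h
    obtain ⟨i, hi⟩ := h
    exact prod_eq_zero (mem_univ i) (by simp [hi])

lemma PE_AND : PE (1 / 2) (AND (V := V)) = (1 / 2) ^ Fintype.card V := by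
  have := PE_prod (V := V) (1 / 2) fun _ b => if b then 1 else 0
  refine this.trans ?_
  simp

lemma cond_AND (U x : V → Bool) : PE (1 / 2) (fun η => AND (mix U x η)) =
    ∏ i, if U i then (if x i then 1 else 0) else (1 / 2 : ℝ) := by
  have := PE_prod (V := V) (1 / 2) fun i b => if (if U i then x i else b) then 1 else 0
  refine this.trans (prod_congr rfl fun i _ => ?_)
  cases U i <;> cases x i <;> norm_num

lemma PE_cond_AND (U : V → Bool) :
    PE (1 / 2) (fun x => PE (1 / 2) fun η => AND (mix U x η)) = (1 / 2) ^ Fintype.card V := by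
  simp only [cond_AND]
  rw [PE_prod (1 / 2) fun i b => if U i then (if b then 1 else 0) else (1 / 2 : ℝ),
    ← card_univ, ← prod_const]
  refine prod_congr rfl fun i _ => ?_
  cases U i <;> norm_num

omit [Fintype V] [DecidableEq V] in
lemma mix_swap (R ω η : V → Bool) : mix (fun i => !R i) ω η = mix R η ω := by
  funext i; unfold mix; cases h : R i <;> simp [h]

lemma noise_AND1 (ε : ℝ) : (PE ε fun R : V → Bool => PE (1 / 2) fun ω => PE (1 / 2) fun η =>
    AND (mix R η ω)) = (1 / 2) ^ Fintype.card V := by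
  have h : ∀ R : V → Bool, (PE (1 / 2) fun ω => PE (1 / 2) fun η => AND (mix R η ω)) =
      (1 / 2) ^ Fintype.card V := fun R => by
    simpa only [mix_swap] using PE_cond_AND fun i => !R i
  simp only [h, PE_const]

lemma noise_AND2 (ε : ℝ) : (PE ε fun R : V → Bool => PE (1 / 2) fun ω => PE (1 / 2) fun η =>
    AND ω * AND (mix R η ω)) = (1 / 2 - ε / 4) ^ Fintype.card V := by
  have h : ∀ R ω : V → Bool, (PE (1 / 2) fun η => AND (mix R η ω)) =
      ∏ i, if (!R i) then (if ω i then 1 else 0) else (1 / 2 : ℝ) := fun R ω => by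
    simpa only [mix_swap] using cond_AND (fun i => !R i) ω
  simp only [PE_mul, h]
  unfold AND
  simp only [← prod_mul_distrib]
  have h2 : ∀ R : V → Bool, PE (1 / 2) (fun ω : V → Bool => ∏ i, ((if ω i then 1 else 0) *
      if (!R i) then (if ω i then 1 else 0) else (1 / 2 : ℝ))) =
      ∏ i, if R i then (1 / 4 : ℝ) else 1 / 2 := by
    intro R
    rw [PE_prod (1 / 2) fun i b => ((if b then 1 else 0) *
      if (!R i) then (if b then 1 else 0) else (1 / 2 : ℝ))]
    refine prod_congr rfl fun i _ => ?_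
    cases R i <;> norm_num
  simp only [h2]
  rw [PE_prod ε fun _ b => if b then (1 / 4 : ℝ) else 1 / 2, ← card_univ, ← prod_const]
  refine prod_congr rfl fun i _ => ?_
  simp; ring

lemma noise_block (ε : ℝ) : (PE ε fun R : V → Bool => PE (1 / 2) fun ω => PE (1 / 2) fun η =>
    (1 - AND ω) * (1 - AND (mix R η ω))) =
    1 - 2 * (1 / 2) ^ Fintype.card V + (1 / 2 - ε / 4) ^ Fintype.card V := by
  have : ∀ R ω η : V → Bool, (1 - AND ω) * (1 - AND (mix R η ω)) =
      1 - AND ω - AND (mix R η ω) + AND ω * AND (mix R η ω) := by intros; ring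
  simp only [this, PE_add, PE_sub, PE_const, noise_AND1, noise_AND2, PE_AND]
  ring

end Defs

lemma PE_sigma {J : Type} [Fintype J] [DecidableEq J] {K : J → Type} [∀ j, Fintype (K j)]
    [∀ j, DecidableEq (K j)] (p : ℝ) (F : ∀ j, (K j → Bool) → ℝ) :
    PE p (fun ξ : (Σ j, K j) → Bool => ∏ j, F j fun a => ξ ⟨j, a⟩) = ∏ j, PE p (F j) := by
  unfold PE
  rw [Finset.prod_univ_sum, Fintype.piFinset_univ]
  refine Fintype.sum_equiv (Equiv.piCurry fun _ _ => Bool) _ _ fun ξ => ?_
  rw [prod_mul_distrib, Fintype.prod_sigma]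
  rfl

lemma abs_prod_sub {J : Type*} (s : Finset J) (a b : J → ℝ) (ha : ∀ j, 0 ≤ a j)
    (hab : ∀ j, a j ≤ b j) (hb : ∀ j, b j ≤ 1) :
    0 ≤ ∏ j ∈ s, b j - ∏ j ∈ s, a j ∧ ∏ j ∈ s, b j - ∏ j ∈ s, a j ≤ ∑ j ∈ s, (b j - a j) := by
  classical
  induction s using Finset.induction_on with
  | empty => simp
  | insert x s hx ih =>
    rw [prod_insert hx, prod_insert hx, sum_insert hx]
    have h1 : 0 ≤ ∏ j ∈ s, a j := prod_nonneg fun j _ => ha j
    have h2 : ∏ j ∈ s, b j ≤ 1 := prod_le_one (fun j _ => (ha j).trans (hab j)) fun j _ => hb j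
    have := ha x; have := hab x; have := hb x
    constructor <;> nlinarith [ih.1, ih.2]

end Pool.Agent.H2.Clue
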