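import Mathlib

namespace Pool.Agent.H2.Cov

open scoped symmDiff

def ty (i : ℕ) : ℤ := (Nat.log 4 i % 3 : ℕ)

def act (n : ℕ) (s : ℤ) (i : ℕ) : Prop :=
  i < n ∧ 2 ^ i ∣ s ∧ ¬ 2 ^ (i + 1) ∣ s ∧ s / 2 ^ n % 3 = ty i

lemma act.shift {n : ℕ} {s : ℤ} {i : ℕ} (h : act n s i) (w : ℤ) : act n (s + 2 ^ n * (3 * w)) i := by
  obtain ⟨h1, h2, h3, h4⟩ := h
  have d : ∀ j ≤ n, (2 : ℤ) ^ j ∣ 2 ^ n * (3 * w) := fun j hj => (pow_dvd_pow 2 hj).mul_right _
  refine ⟨h1, h2.add (d _ h1.le), fun h => h3 ((dvd_add_left (d _ h1)).1 h), ?_⟩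
  rw [Int.add_mul_ediv_left _ _ (by positivity)]
  omega

lemma act.uniq {n : ℕ} {s : ℤ} {i j : ℕ} (h : act n s i) (h' : act n s j) : i = j := by
  by_contra c
  rcases lt_or_gt_of_ne c with c | c
  · exact h.2.2.1 ((pow_dvd_pow 2 c).trans h'.2.1)
  · exact h'.2.2.1 ((pow_dvd_pow 2 c).trans h.2.1)

@[ext] structure Z (c : ℕ) : Type where
  n : ℕ
  t : ℤ
  φ : Finset ℕ
  h0 : 0 ≤ t
  h1 : t < 2 ^ n * (3 * (c + 1))
  h2 : φ ⊆ Finset.range n

variable {c : ℕ}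

def near (l : ℕ) (v w : Z c) : Prop :=
  v.n = w.n ∧ ∃ j k : ℤ, w.t = v.t + j + 2 ^ v.n * (3 * (c + 1)) * k ∧ |j| ≤ l ∧
    ∀ i ∈ v.φ ∆ w.φ, ∃ s, act v.n s i ∧ |s - v.t| + |s - v.t - j| < l

lemma near.refl (l : ℕ) (v : Z c) : near l v v := ⟨rfl, 0, 0, by simp, by simp, by simp⟩

lemma near.symm {l : ℕ} {v w : Z c} (h : near l v w) : near l w v := by
  obtain ⟨e, j, k, h1, h2, h3⟩ := h
  refine ⟨e.symm, -j, -k, by rw [h1, e]; ring, by rwa [abs_neg], fun i hi => ?_⟩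
  obtain ⟨s, a, b⟩ := h3 i (symmDiff_comm v.φ w.φ ▸ hi)
  refine ⟨_, e ▸ a.shift ((c + 1) * k), ?_⟩
  rw [h1, ← e, add_comm]
  convert b using 3 <;> ring

lemma near.trans {l l' : ℕ} {u v w : Z c} (h : near l u v) (h' : near l' v w) :
    near (l + l') u w := by
  obtain ⟨e, j, k, h1, h2, h3⟩ := h
  obtain ⟨e', j', k', h1', h2', h3'⟩ := h'
  refine ⟨e.trans e', j + j', k + k', by rw [h1', h1, e]; ring,
    (abs_add_le _ _).trans (by push_cast; omega), fun i hi => ?_⟩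
  rcases Finset.mem_union.1 (symmDiff_triangle u.φ v.φ w.φ hi) with hi | hi
  · obtain ⟨s, a, b⟩ := h3 i hi
    refine ⟨s, a, ?_⟩
    have := abs_sub (s - u.t - j) j'
    rw [show s - u.t - (j + j') = s - u.t - j - j' by ring]
    push_cast; omega
  · obtain ⟨s, a, b⟩ := h3' i hi
    refine ⟨_, e ▸ a.shift (-((c + 1) * k)), ?_⟩
    have := abs_add_le (s - v.t) j
    rw [show s + 2 ^ u.n * (3 * -((c + 1) * k)) - u.t = s - v.t + j by rw [h1]; ring,
      show s - v.t + j - (j + j') = s - v.t - j' by ring]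
    push_cast; omega

lemma near.mono {l l' : ℕ} {v w : Z c} (h : near l v w) (hl : l ≤ l') : near l' v w := by
  simpa [hl] using h.trans (near.refl (l' - l) w)

lemma pos_eq {M a b k : ℤ} (ha : 0 ≤ a) (ha' : a < M) (hb : 0 ≤ b) (hb' : b < M)
    (h : b = a + M * k) : b = a := by
  have : k = 0 := by
    by_contra c
    rcases lt_or_gt_of_ne c with c | c <;> nlinarith
  simp [h, this]

lemma near.zero {v w : Z c} (h : near 0 v w) : v = w := by
  obtain ⟨e, j, k, h1, h2, h3⟩ := h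
  obtain rfl : j = 0 := by simpa using h2
  refine Z.ext e (pos_eq v.h0 v.h1 w.h0 (e ▸ w.h1) (by simpa using h1)).symm ?_
  rw [← symmDiff_eq_bot, Finset.bot_eq_empty, Finset.eq_empty_iff_forall_notMem]
  intro i hi
  obtain ⟨s, -, b⟩ := h3 i hi
  have := abs_nonneg (s - v.t)
  simp at b; omega

def R (l : ℕ) (v w : Z c) : Prop := near l v w ∨ v.n + w.n + 2 ≤ l

lemma R.trans {l l' : ℕ} {u v w : Z c} (h : R l u v) (h' : R l' v w) : R (l + l') u w := by
  rcases h with h | h <;> rcases h' with h' | h'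
  · exact .inl (h.trans h')
  · exact .inr (by have := h.1; omega)
  · exact .inr (by have := h'.1; omega)
  · exact .inr (by omega)

lemma R.ex (v w : Z c) : ∃ l, R l v w := ⟨_, .inr le_rfl⟩

open Classical in
noncomputable def d (v w : Z c) : ℕ := Nat.find (R.ex v w)

open Classical in
lemma d_le {l : ℕ} {v w : Z c} : d v w ≤ l ↔ R l v w :=
  (Nat.find_le_iff _ _).trans ⟨fun ⟨_, h, h'⟩ => h'.imp (·.mono h) (·.trans h), fun h => ⟨_, le_rfl, h⟩⟩

noncomputable instance : MetricSpace (Z c) where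
  dist v w := d v w
  dist_self v := by simpa using d_le.2 (.inl (near.refl 0 v))
  dist_comm v w := by
    have : ∀ v w : Z c, d v w ≤ d w v := fun v w =>
      d_le.2 ((d_le.1 le_rfl).imp near.symm fun h => by omega)
    rw [le_antisymm (this v w) (this w v)]
  dist_triangle u v w := by exact_mod_cast d_le.2 ((d_le.1 le_rfl).trans (d_le.1 le_rfl))
  eq_of_dist_eq_zero {v w} h :=
    ((d_le.1 (Nat.cast_eq_zero.1 h).le).resolve_right (by omega)).zero

lemma dist_le {r : ℝ} {v w : Z c} (h : dist v w ≤ r) : R ⌈r⌉₊ v w :=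
  d_le.1 (Nat.cast_le.1 (h.trans (Nat.le_ceil r)))

lemma near.dist_le {l : ℕ} {v w : Z c} (h : near l v w) : dist v w ≤ l :=
  Nat.cast_le.2 (d_le.2 (.inl h))

def mk (c n : ℕ) (t : ℤ) (φ : Finset ℕ) : Z c :=
  ⟨n, t % (2 ^ n * (3 * (c + 1))), φ ∩ Finset.range n, Int.emod_nonneg _ (by positivity),
    Int.emod_lt_of_pos _ (by positivity), Finset.inter_subset_right⟩

lemma mk_t (n : ℕ) (t : ℤ) (φ : Finset ℕ) : ∃ k, (mk c n t φ).t = t + 2 ^ n * (3 * (c + 1)) * k :=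
  ⟨-(t / (2 ^ n * (3 * (c + 1)))), (Int.emod_def _ _).trans (by ring)⟩

lemma fin_lev (m : ℕ) : {v : Z c | v.n < m}.Finite := by
  refine (((Finset.range m ×ˢ Finset.Ico (0 : ℤ) (2 ^ m * (3 * (c + 1))) ×ˢ
    (Finset.range m).powerset).finite_toSet.preimage
    (f := fun v : Z c => (v.n, v.t, v.φ)) fun v _ w _ h => ?_).subset fun v hv => ?_)
  · simp only [Prod.mk.injEq] at h
    exact Z.ext h.1 h.2.1 h.2.2
  · have hv : v.n < m := hv
    simp only [Set.mem_preimage, Finset.mem_coe, Finset.mem_product, Finset.mem_range,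
      Finset.mem_Ico, Finset.mem_powerset]
    exact ⟨hv, ⟨v.h0, v.h1.trans_le (by gcongr; norm_num)⟩,
      v.h2.trans (Finset.range_subset_range.2 hv.le)⟩

lemma one_big (n : ℕ) (t : ℤ) {l J : ℕ} (h : 2 * l < 2 ^ J) :
    ∃ i0, ∀ s i, |s - t| ≤ l → act n s i → i < J ∨ i = i0 := by
  by_cases e : ∃ s i, |s - t| ≤ l ∧ act n s i ∧ J ≤ i
  · obtain ⟨s, i, h1, h2, h3⟩ := e
    refine ⟨i, fun s' i' h1' h2' => (lt_or_ge i' J).imp_right fun h3' => ?_⟩
    have : s' - s = 0 := Int.eq_zero_of_abs_lt_dvd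
      (((pow_dvd_pow 2 h3').trans h2'.2.1).sub ((pow_dvd_pow 2 h3).trans h2.2.1)) (by
        have : ((2 * l : ℕ) : ℤ) < (2 ^ J : ℕ) := by exact_mod_cast h
        push_cast at this
        rw [abs_le] at h1 h1'
        rw [abs_lt]
        omega)
    obtain rfl : s' = s := by omega
    exact h2'.uniq h2
  · exact ⟨0, fun s i h1 h2 => .inl (not_le.1 fun h3 => e ⟨s, i, h1, h2, h3⟩)⟩

lemma ball_card (v : Z c) (l : ℕ) (Λ : Finset ℕ) (h : ∀ s i, |s - v.t| ≤ l → act v.n s i → i ∈ Λ) :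
    ∃ B : Finset (Z c), B.card ≤ (2 * l + 1) * 2 ^ Λ.card ∧ ∀ w, near l v w → w ∈ B := by
  classical
  refine ⟨(Finset.Icc (-l : ℤ) l ×ˢ Λ.powerset).image fun q => mk c v.n (v.t + q.1) (v.φ ∆ q.2),
    Finset.card_image_le.trans (by simp; omega), ?_⟩
  rintro w ⟨e, j, k, h1, h2, h3⟩
  refine Finset.mem_image.2 ⟨(j, v.φ ∆ w.φ), Finset.mem_product.2
    ⟨Finset.mem_Icc.2 (abs_le.1 h2), Finset.mem_powerset.2 fun i hi => ?_⟩, ?_⟩
  · obtain ⟨s, a, b⟩ := h3 i hi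
    exact h s i (by have := abs_nonneg (s - v.t - j); omega) a
  · obtain ⟨k', hk⟩ := mk_t (c := c) v.n (v.t + j) (v.φ ∆ (v.φ ∆ w.φ))
    refine Z.ext e (pos_eq (M := 2 ^ v.n * (3 * (c + 1))) w.h0 (e ▸ w.h1) (mk ..).h0 (mk ..).h1
      (k := k' - k) ?_) ?_
    · rw [hk, h1]; ring
    · simp only [mk, symmDiff_symmDiff_cancel_left, e]
      exact Finset.inter_eq_left.2 w.h2

lemma ulf (r : ℝ) : ∃ N : ℕ, ∀ x : Z c, ∃ B : Finset (Z c), B.card ≤ N ∧
    ∀ y, dist x y ≤ r → y ∈ B := by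
  classical
  set l := ⌈r⌉₊
  refine ⟨(2 * l + 1) * 2 ^ (2 * l + 1) + (fin_lev (c := c) l).toFinset.card, fun x => ?_⟩
  obtain ⟨i0, h⟩ := one_big x.n x.t (l := l) (J := 2 * l) Nat.lt_two_pow_self
  obtain ⟨B, h1, h2⟩ := ball_card x l (insert i0 (Finset.range (2 * l))) fun s i a b => by
    simpa [or_comm] using h s i a b
  refine ⟨B ∪ (fin_lev (c := c) l).toFinset, (Finset.card_union_le _ _).trans ?_, fun y hy => ?_⟩
  · gcongr
    refine h1.trans ?_
    gcongr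
    · norm_num
    · exact (Finset.card_insert_le _ _).trans (by simp)
  · rcases dist_le hy with h | h
    · exact Finset.mem_union_left _ (h2 y h)
    · exact Finset.mem_union_right _ ((Set.Finite.mem_toFinset _).2 (show y.n < l by omega))

lemma ulf' (r : ℝ) : ∃ N : ℕ, ∀ x : Z c,
    (Metric.closedBall x r).Finite ∧ (Metric.closedBall x r).ncard ≤ N :=
  (ulf r).imp fun N h x => by
    obtain ⟨B, h1, h2⟩ := h x
    have : Metric.closedBall x r ⊆ B := fun y hy => h2 y (Metric.mem_closedBall'.1 hy)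
    exact ⟨B.finite_toSet.subset this, (Set.ncard_le_ncard this B.finite_toSet).trans
      (by simpa using h1)⟩

end Pool.Agent.H2.Cov
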