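import Pool.Agent.H2.Cov1

namespace Pool.Agent.H2.Cov

open scoped symmDiff

lemma mk_near {c n l : ℕ} {t t' : ℤ} {φ ψ : Finset ℕ} (h1 : |t' - t| ≤ l)
    (h2 : ∀ i ∈ φ ∆ ψ, ∃ s, act n s i ∧ |s - t| + |s - t'| < l) :
    near l (mk c n t φ) (mk c n t' ψ) := by
  obtain ⟨k, hk⟩ := mk_t (c := c) n t φ
  obtain ⟨k', hk'⟩ := mk_t (c := c) n t' ψ
  refine ⟨rfl, t' - t, k' - k, by rw [hk, hk']; simp only [mk]; ring, h1, fun i hi => ?_⟩
  obtain ⟨s, a, b⟩ := h2 i (by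
    simp only [mk, Finset.mem_symmDiff, Finset.mem_inter] at hi ⊢; tauto)
  refine ⟨_, a.shift ((c + 1) * k), ?_⟩
  rw [hk]
  convert b using 3 <;> ring

variable {f : Z 0 → Z 1} {C k : ℕ}

lemma chain (hC : ∀ x x', near 2 x x' → dist (f x) (f x') ≤ C) (n : ℕ) (t : ℤ) (u : ℕ) :
    ∀ ψ : Finset ℕ, (∀ i ∈ ψ, ∃ s, act n s i ∧ t ≤ s ∧ s < t + u) →
      dist (f (mk 0 n t ∅)) (f (mk 0 n (t + u) ψ)) ≤ (C * u : ℕ) := by
  classical
  induction u with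
  | zero =>
    intro ψ h
    rw [Finset.eq_empty_of_forall_notMem (s := ψ) fun i hi => by
      obtain ⟨s, -, a⟩ := h i hi; omega]
    simp
  | succ u ih =>
    intro ψ h
    refine (dist_triangle _ (f (mk 0 n (t + u)
      (ψ.filter fun i => ∃ s, act n s i ∧ t ≤ s ∧ s < t + u))) _).trans ?_
    rw [Nat.mul_succ, Nat.cast_add (C * u)]
    refine add_le_add (ih _ fun i hi => (Finset.mem_filter.1 hi).2) (hC _ _ (mk_near ?_ ?_))
    · simp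
    · intro i hi
      simp only [Finset.mem_symmDiff, Finset.mem_filter] at hi
      obtain ⟨s, a, b⟩ := h i (by tauto)
      obtain rfl : s = t + u := by
        by_contra c
        have : ∃ s, act n s i ∧ t ≤ s ∧ s < t + u := ⟨s, a, b.1, by push_cast at b; omega⟩
        rcases hi with h' | h'
        exacts [h'.2 h'.1.1, h'.2 ⟨h'.1, this⟩]
      exact ⟨_, a, by simp⟩

lemma zone {M s z : ℤ} (hM : 0 < M) (h1 : z * M ≤ s) (h2 : s < (z + 1) * M) : s / M = z :=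
  le_antisymm (Int.lt_add_one_iff.1 (Int.ediv_lt_of_lt_mul hM h2)) (Int.le_ediv_of_mul_le hM h1)

lemma deep (hC : ∀ x x', near 2 x x' → dist (f x) (f x') ≤ C)
    (hk : ∀ y, (f ⁻¹' {y}).Finite ∧ (f ⁻¹' {y}).ncard ≤ k) {n p q : ℕ} {z t : ℤ}
    (hz : 0 ≤ z ∧ z < 3) (hp : ∀ i ∈ Finset.Ico p q, ty i = z) (hq : q ≤ n)
    (hpq : 2 * p + 2 * C + 5 + k < q) (h1 : z * 2 ^ n ≤ t) (h2 : t + 2 * 2 ^ q ≤ (z + 1) * 2 ^ n)
    (hl : C * (2 * 2 ^ q) ≤ (f (mk 0 n t ∅)).n) :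
    ∃ s, |s - (f (mk 0 n t ∅)).t| ≤ (C * (2 * 2 ^ q) : ℕ) ∧ s / 2 ^ (f (mk 0 n t ∅)).n % 3 = z := by
  classical
  by_contra! hc
  set y := f (mk 0 n t ∅) with hy
  have c2 : C < 2 ^ C := Nat.lt_two_pow_self
  have k2 : k < 2 ^ k := Nat.lt_two_pow_self
  have hJ : 2 * (C * (2 * 2 ^ q)) < 2 ^ (q + C + 2) := by
    rw [pow_add, pow_add]; nlinarith [Nat.two_pow_pos q]
  obtain ⟨i0, hi⟩ := one_big y.n y.t hJ
  obtain ⟨B, b1, b2⟩ := ball_card y _ (insert i0 (Finset.range p ∪ Finset.Ico q (q + C + 2)))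
    fun s i a b => by
      have h3 : i ∉ Finset.Ico p q := fun h => hc s a (b.2.2.2.trans (hp i h))
      have := hi s i a b
      simp only [Finset.mem_insert, Finset.mem_union, Finset.mem_range, Finset.mem_Ico] at h3 ⊢
      omega
  have b3 : B.card ≤ 2 ^ (q + C + 2) * 2 ^ (p + C + 3) := b1.trans (Nat.mul_le_mul hJ
    (Nat.pow_le_pow_right two_pos ((Finset.card_insert_le _ _).trans (Nat.succ_le_succ
      ((Finset.card_union_le _ _).trans (by simp; omega))))))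
  set P := (Finset.Ico (2 ^ q) (2 * 2 ^ q) ×ˢ (Finset.Ico p q).powerset).image
    fun a : ℕ × Finset ℕ => mk 0 n (t + a.1) a.2
  have M0 : (0 : ℤ) < 2 ^ n := by positivity
  have p1 : P.card = 2 ^ q * 2 ^ (q - p) := by
    rw [Finset.card_image_of_injOn]
    · simp [two_mul]
    rintro ⟨u, φ⟩ h ⟨u', φ'⟩ h' e
    simp only [Finset.coe_product, Set.mem_prod, Finset.mem_coe, Finset.mem_Ico,
      Finset.mem_powerset] at h h'
    have k : ∀ u : ℕ, u < 2 * 2 ^ q → (t + u) % (2 ^ n * (3 * ((0 : ℕ) + 1))) = t + u :=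
      fun u h => Int.emod_eq_of_lt (by nlinarith) (by zify at h; push_cast; nlinarith)
    have k' : ∀ φ ⊆ Finset.Ico p q, φ ∩ Finset.range n = φ := fun φ h =>
      Finset.inter_eq_left.2 fun i hi => by
        have := Finset.mem_Ico.1 (h hi); rw [Finset.mem_range]; omega
    have e1 := congrArg Z.t e
    have e2 := congrArg Z.φ e
    simp only [mk, k u h.1.2, k u' h'.1.2, k' φ h.2, k' φ' h'.2] at e1 e2
    exact Prod.ext (by simpa using e1) e2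
  have p2 : P.image f ⊆ B := by
    simp only [P, Finset.image_image, Finset.image_subset_iff, Finset.mem_product,
      Finset.mem_Ico, Finset.mem_powerset]
    rintro ⟨u, φ⟩ ⟨h, h'⟩
    have := chain hC n t u φ fun i hi => by
      have i1 := Finset.mem_Ico.1 (h' hi)
      have i2 : (2 : ℤ) ^ (i + 1) ≤ 2 ^ q := pow_le_pow_right₀ one_le_two i1.2
      have i3 := Int.emod_nonneg (2 ^ i - t) (b := 2 ^ (i + 1)) (by positivity)
      have i4 := Int.emod_lt_of_pos (2 ^ i - t) (b := 2 ^ (i + 1)) (by positivity)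
      have i5 : t + (2 ^ i - t) % 2 ^ (i + 1) = 2 ^ i * (1 - 2 * ((2 ^ i - t) / 2 ^ (i + 1))) := by
        rw [Int.emod_def]; ring
      have i6 := h.1
      zify at i6
      refine ⟨t + (2 ^ i - t) % 2 ^ (i + 1), ⟨by omega, i5 ▸ dvd_mul_right _ _, ?_, ?_⟩,
        by omega, by omega⟩
      · rw [i5, pow_succ, mul_dvd_mul_iff_left (by positivity)]
        omega
      · rw [zone (z := z) M0 (by omega) (by omega), hp i (h' hi)]
        omega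
    have h3 := dist_le (this.trans (Nat.cast_le.2 (Nat.mul_le_mul_left C h.2.le)))
    rw [Nat.ceil_natCast] at h3
    exact b2 _ (h3.resolve_right (by rw [← hy]; omega))
  have p3 := Finset.card_le_mul_card_image (f := f) P k fun y _ => by
    rw [← Set.ncard_coe_finset]
    exact (Set.ncard_le_ncard (fun x hx => (Finset.mem_filter.1 hx).2) (hk y).1).trans (hk y).2
  rw [p1] at p3
  have p4 := p3.trans (Nat.mul_le_mul k2.le ((Finset.card_le_card p2).trans b3))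
  simp only [← pow_add] at p4
  have := (Nat.pow_le_pow_iff_right one_lt_two).1 p4
  clear * - this hpq
  omega

lemma cmp {L D s s' a a' j w : ℤ} (hL : 3 * D < L) (hj : |j| ≤ D) (e : s' = s + j + L * 6 * w)
    (h1 : a * L - D ≤ s) (h2 : s < (a + 1) * L + D) (h3 : a' * L - D ≤ s')
    (h4 : s' < (a' + 1) * L + D) : a' - 6 * w ≤ a + 1 ∧ a ≤ a' - 6 * w + 1 := by
  rw [abs_le] at hj
  constructor <;> by_contra! c
  · nlinarith [mul_le_mul_of_nonneg_right (show a + 2 ≤ a' - 6 * w by omega) (show 0 ≤ L by omega)]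
  · nlinarith [mul_le_mul_of_nonneg_right (show a' - 6 * w + 2 ≤ a by omega) (show 0 ≤ L by omega)]

theorem no_map (f : Z 0 → Z 1) (hf : ∃ s : ℝ, ∀ x x', dist x x' ≤ 2 → dist (f x) (f x') ≤ s)
    (hk : ∃ k : ℕ, ∀ y, (f ⁻¹' {y}).Finite ∧ (f ⁻¹' {y}).ncard ≤ k) : False := by
  obtain ⟨s0, hs⟩ := hf
  obtain ⟨k, hk⟩ := hk
  obtain ⟨C, hC⟩ : ∃ C : ℕ, ∀ x x', near 2 x x' → dist (f x) (f x') ≤ C := ⟨⌈s0⌉₊, fun x x' h =>
    (hs x x' (by exact_mod_cast h.dist_le)).trans (Nat.le_ceil _)⟩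
  obtain ⟨e, he⟩ : ∃ e, e = C + k + 3 := ⟨_, rfl⟩
  obtain ⟨Q, hQ⟩ : ∃ Q, 4 ^ (3 * e + 3) ≤ Q := ⟨_, le_rfl⟩
  obtain ⟨D, hD⟩ : ∃ D, D = C * (2 * 2 ^ Q) := ⟨_, rfl⟩
  obtain ⟨n0, hn0⟩ := (((fin_lev (c := 1) (6 * D + 1)).preimage' (f := f)
    fun y _ => (hk y).1).image Z.n).bddAbove
  obtain ⟨n, hn⟩ : ∃ n, n = n0 + Q + 1 := ⟨_, rfl⟩
  have lev : ∀ t, 6 * D < (f (mk 0 n t ∅)).n := fun t => by
    by_contra c
    have : n ≤ n0 := hn0 ⟨mk 0 n t ∅, Nat.lt_succ_of_le (not_lt.1 c), rfl⟩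
    omega
  have st : ∀ (t : ℤ) (u : ℕ), u ≤ 2 * 2 ^ Q → near D (f (mk 0 n t ∅)) (f (mk 0 n (t + u) ∅)) :=
    fun t u hu => by
      have := dist_le ((chain hC n t u ∅ (by simp)).trans
        (Nat.cast_le.2 (Nat.mul_le_mul_left C hu)))
      rw [Nat.ceil_natCast, ← hD] at this
      exact this.resolve_right (by have := lev t; omega)
  have Q1 : 1 ≤ 2 * 2 ^ Q := by have := Nat.two_pow_pos Q; omega
  have hm : ∀ u : ℕ, (f (mk 0 n u ∅)).n = (f (mk 0 n 0 ∅)).n := fun u => by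
    induction u with
    | zero => rfl
    | succ u ih => rw [← ih, (st u 1 Q1).1]; simp
  obtain ⟨m, hm0⟩ : ∃ m, (f (mk 0 n 0 ∅)).n = m := ⟨_, rfl⟩
  rw [hm0] at hm
  have hL : 3 * (2 * D : ℤ) < 2 ^ m := by
    have : 6 * D < 2 ^ m := (hm0 ▸ lev 0).trans Nat.lt_two_pow_self
    zify at this; omega
  obtain ⟨T, hT⟩ : ∃ T : ℕ → ℤ → Prop, ∀ u a, T u a ↔ ∃ s w : ℤ,
      s = (f (mk 0 n u ∅)).t + 2 ^ m * 6 * w ∧
      a * 2 ^ m - 2 * D ≤ s ∧ s < (a + 1) * 2 ^ m + 2 * D := ⟨_, fun _ _ => Iff.rfl⟩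
  have Qn : (2 : ℤ) * 2 ^ Q ≤ 2 ^ n := by
    rw [← pow_succ']; exact pow_le_pow_right₀ one_le_two (by omega)
  have ex : ∀ (z u : ℕ), z < 3 → z * 2 ^ n ≤ u → u ≤ (z + 1) * 2 ^ n →
      ∃ a : ℤ, a % 3 = z ∧ T u a :=
    fun z u hz h1 h2 => by
      zify at h1 h2
      obtain ⟨t, v, t1, t2, t3, rfl⟩ : ∃ t v : ℕ, (z : ℤ) * 2 ^ n ≤ t ∧
          (t : ℤ) + 2 * 2 ^ Q ≤ (z + 1) * 2 ^ n ∧ v ≤ 2 * 2 ^ Q ∧ u = t + v := by
        by_cases c : (u : ℤ) + 2 * 2 ^ Q ≤ (z + 1) * 2 ^ n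
        · exact ⟨u, 0, h1, c, by omega, rfl⟩
        · obtain ⟨t, ht⟩ : ∃ t : ℕ, (t : ℤ) = (z + 1) * 2 ^ n - 2 * 2 ^ Q :=
            ⟨_, Int.toNat_of_nonneg (by nlinarith)⟩
          exact ⟨t, u - t, by linarith, by linarith, by zify [show t ≤ u by omega]; omega, by omega⟩
      have q1 : 4 ^ (3 * e + z + 1) ≤ Q := (Nat.pow_le_pow_right (by omega) (by omega)).trans hQ
      have q2 : 2 ^ 4 ^ (3 * e + z + 1) ≤ 2 ^ Q := Nat.pow_le_pow_right two_pos q1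
      have q3 : C * (2 * 2 ^ 4 ^ (3 * e + z + 1)) ≤ D := by rw [hD]; gcongr
      have q4 : 3 * e + z < 4 ^ (3 * e + z) := Nat.lt_pow_self (by omega)
      obtain ⟨s, s1, s2⟩ := deep hC hk (n := n) (p := 4 ^ (3 * e + z)) (q := 4 ^ (3 * e + z + 1))
        (z := z) (t := t) (by omega) (fun i hi => by
          rw [ty, Nat.log_eq_of_pow_le_of_lt_pow (Finset.mem_Ico.1 hi).1 (Finset.mem_Ico.1 hi).2]
          omega) (by omega) (by omega) t1 (by zify at q2; omega) (by have := lev t; omega)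
      obtain ⟨-, j, w, j1, j2, -⟩ := st t v t3
      rw [hm] at s2 j1
      have a1 := Int.ediv_mul_le s (b := 2 ^ m) (by positivity)
      have a2 := Int.lt_ediv_add_one_mul_self s (b := 2 ^ m) (by positivity)
      rw [abs_le] at s1 j2
      zify at q3
      refine ⟨_, s2, (hT _ _).2 ⟨(f (mk 0 n t ∅)).t + j, -w, by push_cast at j1 ⊢; rw [j1]; ring, ?_, ?_⟩⟩ <;>
        push_cast at s1 <;> omega
  have cp : ∀ (u : ℕ) (v : ℕ) (a a' : ℤ), v ≤ 1 → T u a → T (u + v) a' →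
      ∃ w, a' - 6 * w ≤ a + 1 ∧ a ≤ a' - 6 * w + 1 := by
    intro u v a a' hv h h'
    obtain ⟨s, w, s1, s2, s3⟩ := (hT _ _).1 h
    obtain ⟨s', w', s1', s2', s3'⟩ := (hT _ _).1 h'
    obtain ⟨-, j, w0, j1, j2, -⟩ := st u v (by omega)
    rw [hm] at j1
    exact ⟨w0 + w' - w, cmp hL (j := j) (by omega) (by
      push_cast at j1 s1'; rw [s1', j1, s1]; ring) s2 s3 s2' s3'⟩
  have run : ∀ (z : ℕ) (a : ℤ), z < 3 → a % 3 = z → T (z * 2 ^ n) a → ∀ v ≤ 2 ^ n,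
      ∃ a', a' % 6 = a % 6 ∧ T (z * 2 ^ n + v) a' := fun z a hz ha h v hv => by
    induction v with
    | zero => exact ⟨a, rfl, h⟩
    | succ v ih =>
      obtain ⟨a1, h1, h2⟩ := ih (by omega)
      obtain ⟨a2, h3, h4⟩ := ex z (z * 2 ^ n + v + 1) hz (by omega) (by rw [add_mul]; omega)
      obtain ⟨w, hw⟩ := cp _ 1 _ _ le_rfl h2 h4
      exact ⟨a2, by omega, h4⟩
  obtain ⟨a0, e0, t0⟩ := ex 0 (0 * 2 ^ n) (by omega) le_rfl (by omega)
  obtain ⟨a1, e1, t1⟩ := ex 1 (1 * 2 ^ n) (by omega) le_rfl (by omega)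
  obtain ⟨a2, e2, t2⟩ := ex 2 (2 * 2 ^ n) (by omega) le_rfl (by omega)
  obtain ⟨b0, f0, u0⟩ := run 0 a0 (by omega) e0 t0 _ le_rfl
  obtain ⟨b1, f1, u1⟩ := run 1 a1 (by omega) e1 t1 _ le_rfl
  obtain ⟨b2, f2, u2⟩ := run 2 a2 (by omega) e2 t2 _ le_rfl
  obtain ⟨w0, g0⟩ := cp _ 0 _ a1 (by omega) u0 (by convert t1 using 1; omega)
  obtain ⟨w1, g1⟩ := cp _ 0 _ a2 (by omega) u1 (by convert t2 using 1; omega)
  have : mk 0 n ((2 * 2 ^ n + 2 ^ n + 0 : ℕ) : ℤ) ∅ = mk 0 n ((0 * 2 ^ n : ℕ) : ℤ) ∅ :=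
    Z.ext rfl (by
      simp only [mk]
      rw [show ((2 * 2 ^ n + 2 ^ n + 0 : ℕ) : ℤ) = 2 ^ n * (3 * ((0 : ℕ) + 1)) by push_cast; ring]
      simp) rfl
  obtain ⟨w2, g2⟩ := cp _ 0 _ a0 (by omega) u2 (by simpa only [hT, this] using t0)
  push_cast at e0 e1 e2
  omega

end Pool.Agent.H2.Cov
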