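import Pool.Agent.H2.Cov2

namespace Pool.Agent.H2.Cov

open Classical Real ContinuousLinearMap

noncomputable abbrev H (X : Type) := lp (fun _ : X => ℂ) 2

noncomputable abbrev dl {X : Type} (x : X) : H X := lp.single 2 x 1

lemma ext_dl {X F : Type} [NormedAddCommGroup F] [NormedSpace ℂ F] {S T : H X →L[ℂ] F}
    (h : ∀ x, S (dl x) = T (dl x)) : S = T :=
  lp.ext_continuousLinearMap (by norm_num) fun x => ContinuousLinearMap.ext_ring (h x)

lemma inner_dl {X : Type} (x : X) (f : H X) : inner ℂ (dl x) f = f x := by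
  simp [lp.inner_single_left]

lemma schur {Y : Type} (B : Y → Finset Y) {N : ℕ} (hB : ∀ y, (B y).card ≤ N) (m : Y → Y → ℂ)
    {δ : ℝ} (h0 : 0 ≤ δ) (h1 : ∀ y y', ‖m y y'‖ ≤ δ) (h2 : ∀ y y', m y y' ≠ 0 → y' ∈ B y ∧ y ∈ B y') :
    ∃ E : H Y →L[ℂ] H Y, ‖E‖ ≤ N * δ ∧ ∀ y y', E (dl y) y' = m y' y := by
  have key : ∀ (f : H Y) (s : Finset Y), ∑ y ∈ s, ‖∑ y' ∈ B y, m y y' * f y'‖ ^ (2 : ENNReal).toReal ≤
      (N * δ * ‖f‖) ^ (2 : ENNReal).toReal := fun f s => by
    have k := lp.sum_rpow_le_norm_rpow (by norm_num) f (s.biUnion B)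
    simp only [ENNReal.toReal_ofNat, rpow_two] at k ⊢
    calc _ ≤ ∑ y ∈ s, N * ∑ y' ∈ s.biUnion B, ‖m y y'‖ ^ 2 * ‖f y'‖ ^ 2 := by
          refine Finset.sum_le_sum fun y hy => ?_
          refine (pow_le_pow_left₀ (norm_nonneg _) (norm_sum_le _ _) 2).trans
            (sq_sum_le_card_mul_sum_sq.trans (mul_le_mul (Nat.cast_le.2 (hB y)) ?_
              (by positivity) (by positivity)))
          simp only [norm_mul, mul_pow]
          exact Finset.sum_le_sum_of_subset_of_nonneg (Finset.subset_biUnion_of_mem B hy)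
            fun _ _ _ => by positivity
      _ = N * ∑ y' ∈ s.biUnion B, (∑ y ∈ s, ‖m y y'‖ ^ 2) * ‖f y'‖ ^ 2 := by
          rw [← Finset.mul_sum, Finset.sum_comm]; simp only [Finset.sum_mul]
      _ ≤ N * ∑ y' ∈ s.biUnion B, (N * δ ^ 2) * ‖f y'‖ ^ 2 := by
          gcongr with y' _
          rw [← Finset.sum_subset (s₁ := s ∩ B y') Finset.inter_subset_left fun y a b => by
            have : m y y' = 0 := by
              by_contra c
              exact b (Finset.mem_inter.2 ⟨a, (h2 _ _ c).2⟩)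
            simp [this]]
          refine (Finset.sum_le_card_nsmul _ _ (δ ^ 2) fun y _ =>
            pow_le_pow_left₀ (norm_nonneg _) (h1 _ _) 2).trans ?_
          rw [nsmul_eq_mul]
          gcongr
          exact (Finset.card_le_card Finset.inter_subset_right).trans (hB _)
      _ ≤ _ := by
          rw [← Finset.mul_sum, ← mul_assoc, mul_pow, mul_pow, sq (N : ℝ), mul_assoc (N : ℝ) N]
          gcongr
  let E : H Y →ₗ[ℂ] H Y :=
    { toFun f := ⟨fun y => ∑ y' ∈ B y, m y y' * f y', memℓp_gen' (key f)⟩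
      map_add' f g := lp.ext (funext fun y => by
        simp [mul_add, Finset.sum_add_distrib])
      map_smul' z f := lp.ext (funext fun y => by
        simp [Finset.mul_sum, mul_left_comm]) }
  refine ⟨E.mkContinuous (N * δ) fun f =>
    lp.norm_le_of_forall_sum_le (by norm_num) (by positivity) (key f),
    E.mkContinuous_norm_le (by positivity) _, fun y y' => ?_⟩
  show ∑ z ∈ B y', m y' z * dl y z = _
  simp only [lp.single_apply, Pi.single_apply, mul_ite, mul_one, mul_zero, Finset.sum_ite_eq']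
  split_ifs with h
  · rfl
  · by_contra c
    exact h (h2 _ _ (Ne.symm c)).1

def FP (X : Type) [MetricSpace X] : Set (H X →L[ℂ] H X) :=
  {T | ∃ r : ℝ, ∀ x x' : X, r < dist x x' → T (dl x) x' = 0}

lemma approx {Y : Type} [MetricSpace Y] (B : Y → Finset Y) {N : ℕ} (hB : ∀ y, (B y).card ≤ N)
    {S : H Y →L[ℂ] H Y} (h2 : ∀ y y', S (dl y) y' ≠ 0 → y' ∈ B y ∧ y ∈ B y')
    (h1 : ∀ δ > 0, ∃ r : ℝ, ∀ y y', r < dist y y' → ‖S (dl y) y'‖ ≤ δ) : S ∈ closure (FP Y) := by
  refine Metric.mem_closure_iff.2 fun ε hε => ?_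
  obtain ⟨r, hr⟩ := h1 (ε / (N + 1)) (by positivity)
  obtain ⟨E, e1, e2⟩ := schur B hB (fun y' y => if r < dist y y' then S (dl y) y' else 0)
    (δ := ε / (N + 1)) (by positivity) (fun y' y => by
      split_ifs with h
      · exact hr _ _ h
      · rw [norm_zero]; positivity) fun y' y h => (h2 y y' fun c => h (by simp [c])).symm
  refine ⟨S - E, ⟨r, fun y y' h => by simp [e2, h]⟩, ?_⟩
  rw [dist_eq_norm, sub_sub_cancel]
  refine e1.trans_lt ?_
  rw [mul_div_assoc', div_lt_iff₀ (by positivity)]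
  linarith

def pr (y : Z 1) : Z 0 := mk 0 y.n y.t y.φ

def L0 (x : Z 0) : Z 1 := ⟨x.n, x.t, x.φ, x.h0, x.h1.trans (by gcongr; norm_num), x.h2⟩

def L1 (x : Z 0) : Z 1 := ⟨x.n, x.t + 2 ^ x.n * 3, x.φ, by have := x.h0; positivity,
  by have := x.h1; push_cast at *; linarith, x.h2⟩

lemma pr_L0 (x : Z 0) : pr (L0 x) = x :=
  Z.ext rfl (Int.emod_eq_of_lt x.h0 x.h1) (Finset.inter_eq_left.2 x.h2)

lemma pr_L1 (x : Z 0) : pr (L1 x) = x :=
  Z.ext rfl (by
    have := Int.emod_eq_of_lt x.h0 x.h1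
    simpa [pr, mk, L1] using this) (Finset.inter_eq_left.2 x.h2)

lemma L_ne (x : Z 0) : L0 x ≠ L1 x := fun h => by
  have := congrArg Z.t h
  simp [L0, L1] at this

lemma lift (y : Z 1) : y = L0 (pr y) ∨ y = L1 (pr y) := by
  have h0 := y.h0
  have h1 := y.h1
  have e := (Finset.inter_eq_left.2 y.h2).symm
  push_cast at h1
  by_cases h : y.t < 2 ^ y.n * 3
  · exact .inl (Z.ext rfl (Int.emod_eq_of_lt h0 (by simpa using h)).symm e)
  · refine .inr (Z.ext rfl ?_ e)
    have := Int.emod_eq_of_lt (a := y.t - 2 ^ y.n * 3) (b := 2 ^ y.n * 3) (by omega) (by omega)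
    simp only [Int.sub_emod_right] at this
    simp [pr, mk, L1, this]

noncomputable def ang (y : Z 1) : ℝ := π / 6 * (y.t / 2 ^ y.n)

lemma ang_L1 (x : Z 0) : ang (L1 x) = ang (L0 x) + π / 2 := by
  simp only [ang, L0, L1]; push_cast; field_simp; ring

noncomputable def vv (θ : ℝ) (x : Z 0) : H (Z 1) :=
  (cos (ang (L0 x) - θ) : ℂ) • dl (L0 x) + (cos (ang (L1 x) - θ) : ℂ) • dl (L1 x)

lemma vv_apply (θ : ℝ) (x : Z 0) (y : Z 1) :
    vv θ x y = if pr y = x then (cos (ang y - θ) : ℂ) else 0 := by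
  simp only [vv, lp.coeFn_add, lp.coeFn_smul, Pi.add_apply, Pi.smul_apply, lp.single_apply,
    Pi.single_apply, smul_eq_mul, mul_ite, mul_one, mul_zero]
  by_cases h : pr y = x
  · subst h
    rcases lift y with h | h
    · rw [if_pos h, if_neg fun c => L_ne _ (h.symm.trans c), ← h]; simp
    · rw [if_pos h, if_neg fun c => L_ne _ (c.symm.trans h), ← h]; simp
  · rw [if_neg h, if_neg fun c => h (by rw [c, pr_L0]), if_neg fun c => h (by rw [c, pr_L1]),
      add_zero]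

lemma inner_vv (θ θ' : ℝ) (x x' : Z 0) :
    inner ℂ (vv θ x) (vv θ' x') = if x = x' then (cos (θ - θ') : ℂ) else 0 := by
  rw [vv.eq_1 θ]
  simp only [inner_add_left, inner_smul_left, inner_dl, vv_apply, pr_L0, pr_L1, Complex.conj_ofReal]
  split_ifs
  · rw [ang_L1, add_sub_right_comm, add_sub_right_comm, cos_add_pi_div_two, cos_add_pi_div_two,
      show θ - θ' = (ang (L0 x) - θ') - (ang (L0 x) - θ) by ring, cos_sub (_ - θ')]
    push_cast; ring
  · simp

lemma on_vv (θ : ℝ) : Orthonormal ℂ (vv θ) := orthonormal_iff_ite.2 fun x x' => by simp [inner_vv]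

noncomputable def V (θ : ℝ) : H (Z 0) →L[ℂ] H (Z 1) :=
  (on_vv θ).orthogonalFamily.linearIsometry.toContinuousLinearMap

lemma V_dl (θ : ℝ) (x : Z 0) : V θ (dl x) = vv θ x :=
  ((on_vv θ).orthogonalFamily.linearIsometry_apply_single 1).trans (by simp)

lemma VV (θ θ' : ℝ) (f : H (Z 0)) : adjoint (V θ) (V θ' f) = (cos (θ - θ') : ℂ) • f := by
  have : adjoint (V θ) ∘L V θ' = (cos (θ - θ') : ℂ) • 1 := ext_dl fun x' => lp.ext (funext fun x => by
    rw [← inner_dl, comp_apply, adjoint_inner_right, V_dl, V_dl, inner_vv]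
    simp [lp.single_apply, Pi.single_apply])
  exact congrArg (· f) this

lemma adj_dl (θ : ℝ) (y : Z 1) : adjoint (V θ) (dl y) = (cos (ang y - θ) : ℂ) • dl (pr y) :=
  lp.ext (funext fun x => by
    rw [← inner_dl, adjoint_inner_right, V_dl, ← inner_conj_symm, inner_dl, vv_apply]
    simp only [lp.coeFn_smul, Pi.smul_apply, lp.single_apply, Pi.single_apply, eq_comm (a := x)]
    split_ifs <;> simp [-Complex.ofReal_cos])

noncomputable def Ph (T : H (Z 0) →L[ℂ] H (Z 0)) : H (Z 1) →L[ℂ] H (Z 1) :=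
  V 0 ∘L T ∘L adjoint (V 0) + V (π / 2) ∘L T ∘L adjoint (V (π / 2))

lemma Ph_add (S T) : Ph (S + T) = Ph S + Ph T := by ext1; simp [Ph]; abel
lemma Ph_smul (z : ℂ) (T) : Ph (z • T) = z • Ph T := by ext1; simp [Ph]
lemma Ph_mul (S T) : Ph (S * T) = Ph S * Ph T := by ext1; simp [Ph, VV]
lemma Ph_star (T) : Ph (star T) = star (Ph T) := by
  simp [Ph, star_eq_adjoint, adjoint_comp, comp_assoc]
lemma Ph_inj : Function.Injective Ph := fun S T h => by
  ext1 f
  simpa [Ph, VV] using congrArg (fun A => adjoint (V 0) (A (V 0 f))) h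
lemma Ph_cont : Continuous Ph := by unfold Ph; fun_prop
lemma Ph_cpt {T : H (Z 0) →L[ℂ] H (Z 0)} (h : IsCompactOperator T) : IsCompactOperator (Ph T) :=
  ((h.comp_clm (adjoint (V 0))).clm_comp (V 0)).add
    ((h.comp_clm (adjoint (V (π / 2)))).clm_comp (V (π / 2)))

lemma Ph_ent (T) (y y' : Z 1) :
    Ph T (dl y) y' = (cos (ang y' - ang y) : ℂ) * T (dl (pr y)) (pr y') := by
  rw [← inner_dl]
  simp only [Ph, add_apply, comp_apply, inner_add_right, ← adjoint_inner_left (V _), adj_dl, map_smul,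
    inner_smul_left, inner_smul_right, inner_dl, Complex.conj_ofReal, sub_zero, cos_sub_pi_div_two]
  rw [cos_sub]; push_cast; ring

lemma dich {l : ℕ} {y y' : Z 1} (h : near l (pr y) (pr y')) :
    near l y y' ∨ |cos (ang y' - ang y)| ≤ l / 2 ^ y.n := by
  obtain ⟨e, j, k, h1, h2, h3⟩ := h
  have e : y.n = y'.n := e
  obtain ⟨a, ha⟩ := mk_t (c := 0) y.n y.t y.φ
  obtain ⟨b, hb⟩ := mk_t (c := 0) y'.n y'.t y'.φ
  have p1 : (pr y).φ = y.φ := Finset.inter_eq_left.2 y.h2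
  have p2 : (pr y').φ = y'.φ := Finset.inter_eq_left.2 y'.h2
  rw [p1, p2] at h3
  rw [pr, pr, ha, hb, ← e] at h1
  simp only [mk, Nat.cast_zero, zero_add, mul_one] at h1
  rcases Int.even_or_odd' (a + k - b) with ⟨w, hw | hw⟩
  · refine .inl ⟨e, j, w, by push_cast; linear_combination h1 + 2 ^ y.n * 3 * hw, h2, fun i hi => ?_⟩
    obtain ⟨s, s1, s2⟩ := h3 i hi
    refine ⟨_, s1.shift (-a), ?_⟩
    rw [pr, ha] at s2
    convert s2 using 3 <;> simp only [pr, mk] <;> push_cast <;> ring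
  · right
    have : (y'.t : ℝ) = y.t + j + 2 ^ y.n * 3 * (2 * w + 1) := by
      exact_mod_cast (by linear_combination h1 + 2 ^ y.n * 3 * hw :
        y'.t = y.t + j + 2 ^ y.n * 3 * (2 * w + 1))
    rw [show ang y' - ang y = π / 6 * (j / 2 ^ y.n) + π / 2 + w * π by
      rw [ang, ang, this, ← e]; field_simp; ring, cos_add_int_mul_pi, cos_add_pi_div_two,
      abs_mul, abs_zpow, abs_neg, abs_one, one_zpow, one_mul, abs_neg]
    refine abs_sin_le_abs.trans ?_
    rw [abs_mul, abs_div (j : ℝ), abs_of_pos (by positivity : 0 < π / 6), abs_pow, abs_two]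
    refine (mul_le_of_le_one_left (by positivity) (by linarith [pi_le_four])).trans ?_
    gcongr
    exact_mod_cast h2

lemma Ph_FP {T} (h : T ∈ FP (Z 0)) : Ph T ∈ closure (FP (Z 1)) := by
  obtain ⟨r, hr⟩ := h
  obtain ⟨N, hN⟩ := ulf (c := 0) r
  choose B b1 b2 using hN
  have k : ∀ y y', Ph T (dl y) y' ≠ 0 → dist (pr y) (pr y') ≤ r := fun y y' h =>
    not_lt.1 fun c => h (by rw [Ph_ent, hr _ _ c, mul_zero])
  have m : ∀ y y', dist (pr y) (pr y') ≤ r → y' ∈ (B (pr y)).image L0 ∪ (B (pr y)).image L1 :=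
    fun y y' h => Finset.mem_union.2 ((lift y').imp
      (fun e => Finset.mem_image.2 ⟨_, b2 _ _ h, e.symm⟩)
      fun e => Finset.mem_image.2 ⟨_, b2 _ _ h, e.symm⟩)
  refine approx (fun y => (B (pr y)).image L0 ∪ (B (pr y)).image L1) (N := N + N)
    (fun y => (Finset.card_union_le _ _).trans (add_le_add (Finset.card_image_le.trans (b1 _))
      (Finset.card_image_le.trans (b1 _))))
    (fun y y' h => ⟨m _ _ (k _ _ h), m _ _ (dist_comm (pr y) _ ▸ k _ _ h)⟩) fun δ hδ => ?_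
  obtain ⟨n0, hn⟩ := pow_unbounded_of_one_lt ((⌈r⌉₊ : ℝ) * ‖T‖ / δ) one_lt_two
  refine ⟨(⌈r⌉₊ + (2 * n0 + 2) : ℕ), fun y y' h => ?_⟩
  have nR : ¬ R (⌈r⌉₊ + (2 * n0 + 2)) y y' := fun c => h.not_ge (Nat.cast_le.2 (d_le.2 c))
  by_cases c : Ph T (dl y) y' = 0
  · rw [c, norm_zero]; exact hδ.le
  have h1 := (dist_le (k _ _ c)).resolve_right fun c' => nR (.inr (c'.trans (Nat.le_add_right _ _)))
  have h2 := (dich h1).resolve_left fun c' => nR (.inl (c'.mono (Nat.le_add_right _ _)))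
  have h3 : n0 ≤ y.n := by
    by_contra c'
    have : y.n = y'.n := h1.1
    exact nR (.inr (by omega))
  have h4 : ‖T (dl (pr y)) (pr y')‖ ≤ ‖T‖ := (lp.norm_apply_le_norm two_ne_zero _ _).trans
    ((T.le_opNorm _).trans (by simp [lp.norm_single]))
  rw [Ph_ent, norm_mul, Complex.norm_real, norm_eq_abs]
  refine (mul_le_mul h2 h4 (norm_nonneg _) (by positivity)).trans ?_
  rw [div_lt_iff₀ hδ] at hn
  rw [div_mul_eq_mul_div, div_le_iff₀ (by positivity)]
  have : (2 : ℝ) ^ n0 ≤ 2 ^ y.n := pow_le_pow_right₀ one_le_two h3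
  nlinarith

end Pool.Agent.H2.Cov
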