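import Mathlib

set_option autoImplicit false

namespace Pool.Agent.H2.Dbl

open Set Filter Topology MeasureTheory

lemma int_nat (m : ℕ) : ∀ (j : ℕ) (Q : ℝ → ℝ), ContDiff ℝ m Q →
    ContDiff ℝ m (fun y : ℝ => ∫ s in (0:ℝ)..1, s ^ j * Q (s * y)) := by
  induction m with
  | zero =>
    intro j Q hQ
    have hc : Continuous Q := hQ.continuous
    rw [Nat.cast_zero, contDiff_zero]
    exact intervalIntegral.continuous_parametric_intervalIntegral_of_continuous'
      (f := fun y s => s ^ j * Q (s * y)) (by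
        change Continuous fun p : ℝ × ℝ => p.2 ^ j * Q (p.2 * p.1)
        fun_prop) 0 1
  | succ m ih =>
    intro j Q hQ
    have hc : Continuous Q := hQ.continuous
    rw [Nat.cast_succ, contDiff_succ_iff_deriv] at hQ
    obtain ⟨hd, -, hQ'⟩ := hQ
    have hc' : Continuous (deriv Q) := hQ'.continuous
    have key : ∀ y₀ : ℝ, HasDerivAt (fun y : ℝ => ∫ s in (0:ℝ)..1, s ^ j * Q (s * y))
        (∫ s in (0:ℝ)..1, s ^ (j+1) * deriv Q (s * y₀)) y₀ := by
      intro y₀
      obtain ⟨C, hC⟩ := (isCompact_Icc (a := -(|y₀| + 1)) (b := |y₀| + 1)).exists_bound_of_continuousOn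
        hc'.continuousOn
      refine (intervalIntegral.hasDerivAt_integral_of_dominated_loc_of_deriv_le
        (F := fun y s => s ^ j * Q (s * y)) (F' := fun y s => s ^ (j+1) * deriv Q (s * y))
        (bound := fun _ => C) (Metric.ball_mem_nhds y₀ one_pos) ?_ ?_ ?_ ?_ ?_ ?_).2
      · exact Eventually.of_forall fun y => Continuous.aestronglyMeasurable (by fun_prop)
      · exact Continuous.intervalIntegrable (by fun_prop) _ _
      · exact Continuous.aestronglyMeasurable (by fun_prop)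
      · refine Eventually.of_forall fun t ht x hx => ?_
        rw [uIoc_of_le zero_le_one] at ht
        have h1 : |x| ≤ |y₀| + 1 := by
          have := mem_ball_iff_norm.1 hx
          rw [Real.norm_eq_abs] at this
          have h2 := abs_sub_abs_le_abs_sub x y₀
          linarith
        have h2 : |t * x| ≤ |y₀| + 1 := by
          rw [abs_mul, abs_of_pos ht.1]
          nlinarith [abs_nonneg x, ht.1, ht.2]
        have h3 := hC (t * x) (abs_le.1 h2)
        rw [norm_mul]
        have h4 : ‖t ^ (j+1)‖ ≤ 1 := by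
          rw [norm_pow, Real.norm_eq_abs, abs_of_pos ht.1]
          exact pow_le_one₀ ht.1.le ht.2
        nlinarith [norm_nonneg (t ^ (j+1)), norm_nonneg (deriv Q (t * x))]
      · exact intervalIntegrable_const
      · refine Eventually.of_forall fun t _ x _ => ?_
        have h1 : HasDerivAt (fun x => Q (t * x)) (deriv Q (t * x) * t) x := by
          have := (hd (t * x)).hasDerivAt.comp x ((hasDerivAt_id x).const_mul t)
          exact this.congr_deriv (by ring)
        exact (h1.const_mul (t ^ j)).congr_deriv (by ring)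
    rw [Nat.cast_succ, contDiff_succ_iff_deriv]
    refine ⟨fun y => (key y).differentiableAt, by simp, ?_⟩
    have : deriv (fun y : ℝ => ∫ s in (0:ℝ)..1, s ^ j * Q (s * y)) =
        fun y : ℝ => ∫ s in (0:ℝ)..1, s ^ (j+1) * deriv Q (s * y) := funext fun y => (key y).deriv
    rw [this]
    exact ih (j+1) _ hQ'

lemma int_enat (m : ℕ∞) (Q : ℝ → ℝ) (hQ : ContDiff ℝ m Q) :
    ContDiff ℝ m (fun y : ℝ => ∫ s in (0:ℝ)..1, s ^ 1 * Q (s * y)) := by
  rw [contDiff_iff_forall_nat_le] at hQ ⊢
  exact fun n hn => int_nat n 1 Q (hQ n hn)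

lemma extend (m : ℕ∞) (Q : ℝ → ℝ) (hQ : ∀ y ∈ Ioo (-1:ℝ) 1, ContDiffAt ℝ m Q y) :
    ∃ P : ℝ → ℝ, ContDiff ℝ m P ∧ ∀ y, |y| ≤ 1/4 → P y = Q y := by
  let b : ContDiffBump (0:ℝ) := ⟨1/4, 1/2, by norm_num, by norm_num⟩
  refine ⟨fun y => b y * Q y, ?_, ?_⟩
  · rw [contDiff_iff_contDiffAt]
    intro y
    by_cases hy : y ∈ Ioo (-1:ℝ) 1
    · exact (b.contDiff.contDiffAt).mul (hQ y hy)
    · have h1 : (1/2 : ℝ) < |y| := by
        rw [mem_Ioo, not_and_or, not_lt, not_lt] at hy
        rcases hy with h | h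
        · rw [abs_of_neg (by linarith)]; linarith
        · rw [abs_of_pos (by linarith)]; linarith
      have h2 : ∀ᶠ z in 𝓝 y, (1/2 : ℝ) < |z| :=
        continuous_abs.continuousAt.eventually (lt_mem_nhds h1)
      refine (contDiffAt_const (c := (0:ℝ))).congr_of_eventuallyEq ?_
      filter_upwards [h2] with z hz
      have : b z = 0 := b.zero_of_le_dist (by
        rw [dist_zero_right, Real.norm_eq_abs]; exact hz.le)
      simp [this]
  · intro y hy
    have : b y = 1 := b.one_of_mem_closedBall (by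
      rw [mem_closedBall_zero_iff, Real.norm_eq_abs]; exact hy)
    simp [this]

lemma key (m : ℕ∞) (R Q : ℝ → ℝ) (hQ : ∀ y ∈ Ioo (-1:ℝ) 1, ContDiffAt ℝ m Q y)
    (hR : ∀ y ∈ Ioo (-1:ℝ) 1, HasDerivAt R (2 * y * Q y) y) (h0 : R 0 = 0)
    (hpos : ∀ y ∈ Ioo (-1:ℝ) 1, 0 ≤ R y) (hQ0 : Q 0 ≠ 0) :
    ContDiffAt ℝ ((m : WithTop ℕ∞) + 1) (fun y : ℝ => (SignType.sign y : ℝ) * √(R y)) 0 := by
  obtain ⟨P, hP, hPQ⟩ := extend m Q hQ
  have hPc : Continuous P := hP.continuous
  set H : ℝ → ℝ := fun y => 2 * ∫ s in (0:ℝ)..1, s ^ 1 * P (s * y) with hH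
  have hHm : ContDiff ℝ m H := contDiff_const.mul (int_enat m P hP)
  have hHc : Continuous H := hHm.continuous
  have hH0 : H 0 = Q 0 := by
    simp only [hH, mul_zero]
    rw [intervalIntegral.integral_mul_const, integral_pow, hPQ 0 (by simp)]
    norm_num
    ring
  have hRH : ∀ y, |y| ≤ 1/4 → R y = y ^ 2 * H y := by
    intro y hy
    have hs : ∀ s ∈ uIcc (0:ℝ) 1, |s * y| ≤ 1/4 := by
      intro s hs
      rw [uIcc_of_le zero_le_one] at hs
      rw [abs_mul, abs_of_nonneg hs.1]
      nlinarith [abs_nonneg y, hs.1, hs.2]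
    have h1 : ∀ s ∈ uIcc (0:ℝ) 1, HasDerivAt (fun s => R (s * y)) (2 * y ^ 2 * (s ^ 1 * P (s * y))) s := by
      intro s hs'
      have h2 := abs_le.1 (hs s hs')
      have h3 := (hR (s * y) ⟨by linarith, by linarith⟩).comp s ((hasDerivAt_id s).mul_const y)
      rw [hPQ _ (hs s hs')]
      exact h3.congr_deriv (by ring)
    have h2 := intervalIntegral.integral_eq_sub_of_hasDerivAt h1
      (Continuous.intervalIntegrable (by fun_prop) _ _)
    rw [intervalIntegral.integral_const_mul] at h2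
    simp only [one_mul, zero_mul, h0, sub_zero] at h2
    rw [← h2, hH]
    ring
  have hH0' : 0 < H 0 := by
    have h1 : 0 ≤ H 0 := by
      have h2 : ∀ᶠ y in 𝓝[≠] (0:ℝ), 0 ≤ H y := by
        have h3 : ∀ᶠ y in 𝓝 (0:ℝ), |y| < 1/4 :=
          continuous_abs.continuousAt.eventually (gt_mem_nhds (by simp))
        filter_upwards [nhdsWithin_le_nhds h3, self_mem_nhdsWithin] with y hy hy0
        have h4 := abs_lt.1 hy
        have h5 := hpos y ⟨by linarith, by linarith⟩
        rw [hRH y hy.le] at h5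
        have h6 : 0 < y ^ 2 := by
          have : y ≠ 0 := hy0
          positivity
        exact nonneg_of_mul_nonneg_right (by linarith) h6 |> fun h => h
      exact ge_of_tendsto (hHc.continuousAt.tendsto.mono_left nhdsWithin_le_nhds) h2
    exact lt_of_le_of_ne h1 (by rw [hH0]; exact hQ0.symm)
  set U : Set ℝ := {y | |y| < 1/4 ∧ 0 < H y} with hU
  have hUo : IsOpen U :=
    (isOpen_lt continuous_abs continuous_const).inter (isOpen_lt continuous_const hHc)
  have hU0 : (0:ℝ) ∈ U := ⟨by simp, hH0'⟩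
  have hY : ∀ y ∈ U, (SignType.sign y : ℝ) * √(R y) = y * √(H y) := by
    intro y hy
    rw [hRH y hy.1.le, Real.sqrt_mul (sq_nonneg y), Real.sqrt_sq_eq_abs, ← mul_assoc,
      sign_mul_abs]
  have hD : ∀ y ∈ U, HasDerivAt (fun y : ℝ => y * √(H y)) (P y / √(H y)) y := by
    intro y hy
    have hsq : 0 < √(H y) := Real.sqrt_pos.2 hy.2
    have h4 := abs_lt.1 hy.1
    by_cases hy0 : y = 0
    · subst hy0
      rw [hasDerivAt_iff_tendsto_slope]
      have h1 : P 0 / √(H 0) = √(H 0) := by
        rw [hPQ 0 (by simp), ← hH0, div_eq_iff hsq.ne', Real.mul_self_sqrt hH0'.le]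
      rw [h1]
      have h2 : Tendsto (fun y => √(H y)) (𝓝[≠] 0) (𝓝 (√(H 0))) :=
        (hHc.sqrt.continuousAt.tendsto).mono_left nhdsWithin_le_nhds
      refine h2.congr' ?_
      filter_upwards [self_mem_nhdsWithin] with z hz
      have : z ≠ 0 := hz
      rw [slope_def_field]
      field_simp
      simp
    · have h1 : HasDerivAt (fun z => R z / z ^ 2) ((2 * y * Q y * y ^ 2 - R y * (2 * y)) / (y ^ 2) ^ 2) y := by
        have := (hR y ⟨by linarith, by linarith⟩).div (hasDerivAt_pow 2 y) (by positivity)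
        exact this.congr_deriv (by simp)
      have h2 : HasDerivAt H ((2 * y * Q y * y ^ 2 - R y * (2 * y)) / (y ^ 2) ^ 2) y := by
        refine h1.congr_of_eventuallyEq ?_
        filter_upwards [hUo.mem_nhds hy, isOpen_ne.mem_nhds hy0] with z hz hz0
        rw [hRH z hz.1.le]
        field_simp
      have h3 := (hasDerivAt_id y).mul (h2.sqrt hy.2.ne')
      refine h3.congr_deriv ?_
      rw [hPQ y hy.1.le, hRH y hy.1.le]
      have h5 : √(H y) * √(H y) = H y := Real.mul_self_sqrt hy.2.le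
      simp only [id]
      field_simp
      rw [sq (√(H y)), h5]
      ring
  have hmain : ContDiffOn ℝ ((m : WithTop ℕ∞) + 1) (fun y : ℝ => y * √(H y)) U := by
    rw [contDiffOn_succ_iff_deriv_of_isOpen hUo]
    refine ⟨fun y hy => (hD y hy).differentiableAt.differentiableWithinAt, by simp, ?_⟩
    have : ContDiffOn ℝ m (fun y => P y / √(H y)) U :=
      hP.contDiffOn.div (hHm.contDiffOn.sqrt fun y hy => hy.2.ne')
        fun y hy => (Real.sqrt_pos.2 hy.2).ne'
    exact this.congr fun y hy => (hD y hy).deriv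
  refine (hmain.contDiffAt (hUo.mem_nhds hU0)).congr_of_eventuallyEq ?_
  filter_upwards [hUo.mem_nhds hU0] with y hy
  exact hY y hy

end Pool.Agent.H2.Dbl
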