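import Mathlib
import Pool.Agent.H2.Dbl1

set_option autoImplicit false

namespace Pool.Agent.H2.Dbl

open Set Filter Topology WithLp
open scoped Manifold

def C : Type := {p : ℝ × ℝ // p.1 ^ 2 + p.2 ^ 2 = 1}

instance : TopologicalSpace C := instTopologicalSpaceSubtype
instance : T2Space C := inferInstanceAs (T2Space {p : ℝ × ℝ // p.1 ^ 2 + p.2 ^ 2 = 1})

lemma C.cont : Continuous (fun p : C => p.1) := continuous_subtype_val

lemma C.fst_mem (p : C) : p.1.1 ∈ Icc (-1:ℝ) 1 := by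
  have := p.2
  constructor <;> nlinarith [sq_nonneg p.1.2]

lemma C.snd_mem (p : C) : p.1.2 ∈ Icc (-1:ℝ) 1 := by
  have := p.2
  constructor <;> nlinarith [sq_nonneg p.1.1]

noncomputable def up (s : ℝ) (hs : s ^ 2 = 1) (x : Icc (-1:ℝ) 1) : C :=
  ⟨(x.1, s * √(1 - x.1 ^ 2)), by
    have h : 0 ≤ 1 - x.1 ^ 2 := by nlinarith [x.2.1, x.2.2]
    simp only [mul_pow, hs, Real.sq_sqrt h]
    ring⟩

lemma up_cont (s : ℝ) (hs : s ^ 2 = 1) : Continuous (up s hs) :=
  Continuous.subtype_mk (by fun_prop) _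

lemma snd_eq (p : C) (s : ℝ) (hs : s ^ 2 = 1) (h : 0 ≤ s * p.1.2) :
    p.1.2 = s * √(1 - p.1.1 ^ 2) := by
  have h1 : 1 - p.1.1 ^ 2 = (s * p.1.2) ^ 2 := by
    rw [mul_pow, hs]; linarith [p.2]
  rw [h1, Real.sqrt_sq h, ← mul_assoc, ← sq, hs, one_mul]

lemma fst_eq (p : C) (s : ℝ) (hs : s ^ 2 = 1) (h : 0 ≤ s * p.1.1) :
    p.1.1 = s * √(1 - p.1.2 ^ 2) := by
  have h1 : 1 - p.1.2 ^ 2 = (s * p.1.1) ^ 2 := by
    rw [mul_pow, hs]; linarith [p.2]
  rw [h1, Real.sqrt_sq h, ← mul_assoc, ← sq, hs, one_mul]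

lemma univ_eq : (univ : Set C) = range (up 1 (by norm_num)) ∪ range (up (-1) (by norm_num)) := by
  symm
  rw [eq_univ_iff_forall]
  intro p
  rcases le_total 0 p.1.2 with h | h
  · left
    refine ⟨⟨p.1.1, p.fst_mem⟩, Subtype.ext (Prod.ext rfl ?_)⟩
    exact (snd_eq p 1 (by norm_num) (by linarith)).symm
  · right
    refine ⟨⟨p.1.1, p.fst_mem⟩, Subtype.ext (Prod.ext rfl ?_)⟩
    exact (snd_eq p (-1) (by norm_num) (by linarith)).symm

instance : CompactSpace C :=
  ⟨by rw [univ_eq]; exact (isCompact_range (up_cont _ _)).union (isCompact_range (up_cont _ _))⟩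

instance : ConnectedSpace C := by
  have : ConnectedSpace (Icc (-1:ℝ) 1) :=
    isConnected_iff_connectedSpace.1 (isConnected_Icc (by norm_num))
  rw [connectedSpace_iff_univ, univ_eq]
  refine IsConnected.union ?_ (isConnected_range (up_cont _ _)) (isConnected_range (up_cont _ _))
  refine ⟨up 1 (by norm_num) ⟨1, by norm_num⟩, mem_range_self _, ⟨1, by norm_num⟩, ?_⟩
  refine Subtype.ext (Prod.ext rfl ?_)
  simp [up]

noncomputable def ch (s : ℝ) (hs : s ^ 2 = 1) : OpenPartialHomeomorph C (EuclideanHalfSpace 1) where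
  source := {p | 0 < s * p.1.2}
  target := {z | 0 < z.val 0 ∧ z.val 0 < 2}
  toFun p := ⟨toLp 2 fun _ => p.1.1 + 1, by have := p.fst_mem.1; simp only; linarith⟩
  invFun z := up s hs ⟨min (z.val 0 - 1) 1, by
    have := z.2
    refine ⟨le_min (by linarith) (by norm_num), min_le_right _ _⟩⟩
  map_source' := by
    intro p hp
    have h1 : p.1.2 ≠ 0 := by
      intro h; simp [h] at hp
    have h2 : 0 < p.1.2 ^ 2 := by positivity
    have := p.2
    constructor <;> simp only <;> nlinarith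
  map_target' := by
    intro z hz
    have h1 : min (z.val 0 - 1) 1 = z.val 0 - 1 := min_eq_left (by linarith [hz.2])
    simp only [mem_ofPred_eq, up, h1]
    rw [← mul_assoc, ← sq, hs, one_mul]
    exact Real.sqrt_pos.2 (by nlinarith [hz.1, hz.2])
  left_inv' := by
    intro p hp
    have h1 : min (p.1.1 + 1 - 1) 1 = p.1.1 := by
      rw [add_sub_cancel_right]; exact min_eq_left p.fst_mem.2
    refine Subtype.ext (Prod.ext h1 ?_)
    simp only [up, h1]
    exact (snd_eq p s hs (le_of_lt hp)).symm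
  right_inv' := by
    intro z hz
    have h1 : min (z.val 0 - 1) 1 = z.val 0 - 1 := min_eq_left (by linarith [hz.2])
    refine Subtype.ext ?_
    ext i
    rw [Subsingleton.elim i 0]
    simp only [up, h1]
    ring
  open_source := isOpen_lt continuous_const (by have := C.cont; fun_prop)
  open_target := by
    have h : Continuous fun z : EuclideanHalfSpace 1 => z.val 0 :=
      (@PiLp.continuous_apply 2 (Fin 1) (fun _ => ℝ) _ 0).comp continuous_subtype_val
    exact (isOpen_lt continuous_const h).inter (isOpen_lt h continuous_const)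
  continuousOn_toFun := by
    refine Continuous.continuousOn (Continuous.subtype_mk ?_ _)
    have := C.cont
    fun_prop
  continuousOn_invFun := by
    refine Continuous.continuousOn ((up_cont s hs).comp (Continuous.subtype_mk ?_ _))
    have h : Continuous fun z : EuclideanHalfSpace 1 => z.val 0 :=
      (@PiLp.continuous_apply 2 (Fin 1) (fun _ => ℝ) _ 0).comp continuous_subtype_val
    fun_prop

def sw0 (p : C) : C :=
  ⟨p.1.swap, by have := p.2; simp only [Prod.fst_swap, Prod.snd_swap]; linarith⟩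

lemma sw0_cont : Continuous sw0 :=
  Topology.IsInducing.subtypeVal.continuous_iff.2 (continuous_swap.comp C.cont)

def sw : C ≃ₜ C where
  toFun := sw0
  invFun := sw0
  left_inv _ := rfl
  right_inv _ := rfl
  continuous_toFun := sw0_cont
  continuous_invFun := sw0_cont

/-- good charts -/
def Good (e : OpenPartialHomeomorph C (EuclideanHalfSpace 1)) : Prop :=
  (∃ L : ℝ × ℝ → EuclideanSpace ℝ (Fin 1), ContDiff ℝ (⊤ : ℕ∞) L ∧ ∀ p, (e p).val = L p.1) ∧
  ∀ z ∈ e.target, ContDiffAt ℝ (⊤ : ℕ∞) (fun w => (e.symm ((𝓡∂ 1).symm w)).1) z.val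

lemma good_ch (s : ℝ) (hs : s ^ 2 = 1) : Good (ch s hs) := by
  refine ⟨⟨fun q => toLp 2 fun _ => q.1 + 1, contDiff_euclidean.2 fun i => by fun_prop,
    fun p => rfl⟩, ?_⟩
  intro z hz
  have h : ContDiff ℝ (⊤ : ℕ∞) fun w : EuclideanSpace ℝ (Fin 1) => w 0 := by fun_prop
  have h1 : ContDiffAt ℝ (⊤ : ℕ∞)
      (fun w : EuclideanSpace ℝ (Fin 1) => (w 0 - 1, s * √(1 - (w 0 - 1) ^ 2))) z.val := by
    refine (h.sub contDiff_const).contDiffAt.prodMk (contDiffAt_const.mul (ContDiffAt.sqrt ?_ ?_))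
    · exact (contDiff_const.sub ((h.sub contDiff_const).pow 2)).contDiffAt
    · nlinarith [hz.1, hz.2]
  refine h1.congr_of_eventuallyEq ?_
  have h2 : ∀ᶠ w : EuclideanSpace ℝ (Fin 1) in 𝓝 z.val, 0 < w 0 :=
    h.continuous.continuousAt.eventually (lt_mem_nhds hz.1)
  have h3 : ∀ᶠ w : EuclideanSpace ℝ (Fin 1) in 𝓝 z.val, w 0 < 2 :=
    h.continuous.continuousAt.eventually (gt_mem_nhds hz.2)
  filter_upwards [h2, h3] with w hw hw'
  have h4 : ((𝓡∂ 1).symm w).val 0 = w 0 := by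
    rw [modelWithCornersEuclideanHalfSpace_symm_apply]
    simp [hw.le]
  have h5 : min (((𝓡∂ 1).symm w).val 0 - 1) 1 = w 0 - 1 := by
    rw [h4]; exact min_eq_left (by linarith)
  change (min (((𝓡∂ 1).symm w).val 0 - 1) 1, s * √(1 - (min (((𝓡∂ 1).symm w).val 0 - 1) 1) ^ 2)) = _
  rw [h5]

lemma good_sw {e : OpenPartialHomeomorph C (EuclideanHalfSpace 1)} (he : Good e) :
    Good (sw.toOpenPartialHomeomorph.trans e) := by
  obtain ⟨⟨L, hL, hL'⟩, h2⟩ := he
  have hsw : ContDiff ℝ (⊤ : ℕ∞) (Prod.swap : ℝ × ℝ → ℝ × ℝ) := contDiff_snd.prodMk contDiff_fst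
  refine ⟨⟨L ∘ Prod.swap, hL.comp hsw, fun p => hL' (sw p)⟩, ?_⟩
  intro z hz
  exact hsw.contDiffAt.comp z.val (h2 z hz.1)

lemma exists_good (p : C) : ∃ e, Good e ∧ p ∈ e.source := by
  rcases lt_trichotomy p.1.2 0 with h | h | h
  · exact ⟨ch (-1) (by norm_num), good_ch _ _, by change 0 < (-1) * p.1.2; linarith⟩
  · have h1 : p.1.1 ≠ 0 := by
      intro h1
      have := p.2
      rw [h, h1] at this
      norm_num at this
    rcases lt_or_gt_of_ne h1 with h2 | h2
    · exact ⟨_, good_sw (good_ch (-1) (by norm_num)), mem_univ _,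
        by change 0 < (-1) * p.1.1; linarith⟩
    · exact ⟨_, good_sw (good_ch 1 (by norm_num)), mem_univ _,
        by change 0 < 1 * p.1.1; linarith⟩
  · exact ⟨ch 1 (by norm_num), good_ch _ _, by change 0 < 1 * p.1.2; linarith⟩

noncomputable instance : ChartedSpace (EuclideanHalfSpace 1) C where
  atlas := {e | Good e}
  chartAt p := (exists_good p).choose
  mem_chart_source p := (exists_good p).choose_spec.2
  chart_mem_atlas p := (exists_good p).choose_spec.1

instance : IsManifold (𝓡∂ 1) (⊤ : ℕ∞) C := by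
  apply isManifold_of_contDiffOn
  intro e e' he he'
  obtain ⟨⟨L, hL, hL'⟩, -⟩ := he'
  rintro _ ⟨hz, ⟨z, rfl⟩⟩
  have h1 : z ∈ e.target := by
    have := hz.1
    rwa [ModelWithCorners.left_inv] at this
  have h2 := hL.contDiffAt.comp z.val (he.2 z h1)
  have h3 : ((𝓡∂ 1) ∘ (e.symm ≫ₕ e') ∘ (𝓡∂ 1).symm) =
      L ∘ fun w => (e.symm ((𝓡∂ 1).symm w)).1 := by
    funext w
    exact hL' _
  rw [h3]
  exact h2.contDiffWithinAt

lemma val_smooth : ContMDiff (𝓡∂ 1) 𝓘(ℝ, ℝ × ℝ) (⊤ : ℕ∞) (fun p : C => p.1) := by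
  intro p
  rw [contMDiffAt_iff_source, contMDiffWithinAt_iff_contDiffWithinAt]
  have h := (chart_mem_atlas (EuclideanHalfSpace 1) p).2 _ (mem_chart_target _ p)
  exact h.contDiffWithinAt

lemma into_C {k : ℕ∞} {g : C → C} {p : C}
    (h : ContMDiffAt (𝓡∂ 1) 𝓘(ℝ, ℝ × ℝ) k (fun q => (g q).1) p) :
    ContMDiffAt (𝓡∂ 1) (𝓡∂ 1) k g p := by
  rw [contMDiffAt_iff_target]
  refine ⟨(Topology.IsInducing.subtypeVal.continuousAt_iff).2 h.continuousAt, ?_⟩
  obtain ⟨L, hL, hL'⟩ := (chart_mem_atlas (EuclideanHalfSpace 1) (g p)).1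
  have h3 : extChartAt (𝓡∂ 1) (g p) ∘ g = L ∘ fun q => (g q).1 := by
    funext q
    exact hL' _
  rw [h3]
  exact (hL.of_le (by exact_mod_cast le_top)).contDiffAt.comp_contMDiffAt h

end Pool.Agent.H2.Dbl
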