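import Mathlib
import Pool.Agent.H2.Dbl2

set_option autoImplicit false

namespace Pool.Agent.H2.Dbl

open Set Filter Topology WithLp
open scoped Manifold

instance fct : Fact ((-1:ℝ) < 1) := ⟨by norm_num⟩

abbrev J : Type := Icc (-1:ℝ) 1

def E (f : J → J) : Prop := ∀ x : J, x.1 ^ 2 = 1 ↔ (f x).1 ^ 2 = 1

lemma ends {f g : J → J} (hf : Continuous f) (hfg : ∀ x, f (g x) = x) (hgf : ∀ x, g (f x) = x)
    (x : J) (hx : x.1 ^ 2 = 1) : (f x).1 ^ 2 = 1 := by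
  have : Fact ((-1:ℝ) ≤ 1) := ⟨by norm_num⟩
  have hi : Function.Injective f := fun a b h => by rw [← hgf a, h, hgf]
  have hb : ((⊥ : J) : ℝ) = -1 := rfl
  have ht : ((⊤ : J) : ℝ) = 1 := rfl
  have hx' : x = ⊤ ∨ x = ⊥ := by
    rcases sq_eq_one_iff.1 hx with h | h
    · exact Or.inl (Subtype.ext h)
    · exact Or.inr (Subtype.ext h)
  have key : f x = ⊤ ∨ f x = ⊥ := by
    rcases hf.strictMono_of_inj_boundedOrder' hi with h | h <;> rcases hx' with rfl | rfl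
    · left; exact top_le_iff.1 (by simpa [hfg] using h.monotone (le_top (a := g ⊤)))
    · right; exact le_bot_iff.1 (by simpa [hfg] using h.monotone (bot_le (a := g ⊥)))
    · right; exact le_bot_iff.1 (by simpa [hfg] using h.antitone (le_top (a := g ⊥)))
    · left; exact top_le_iff.1 (by simpa [hfg] using h.antitone (bot_le (a := g ⊤)))
  rcases key with h | h <;> rw [h]
  · rw [ht]; norm_num
  · rw [hb]; norm_num

lemma mkE {f g : J → J} (hf : Continuous f) (hg : Continuous g) (hfg : ∀ x, f (g x) = x)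
    (hgf : ∀ x, g (f x) = x) : E f := fun x =>
  ⟨ends hf hfg hgf x, fun h => by simpa [hgf] using ends hg hgf hfg (f x) h⟩

lemma J.nn (x : J) : 0 ≤ 1 - x.1 ^ 2 := by nlinarith [x.2.1, x.2.2]

def C.x (p : C) : J := ⟨p.1.1, p.fst_mem⟩

lemma C.snd_zero (p : C) : p.1.2 = 0 ↔ p.x.1 ^ 2 = 1 := by
  have := p.2
  change _ ↔ p.1.1 ^ 2 = 1
  constructor
  · intro h; rw [h] at this; linarith
  · intro h; exact pow_eq_zero_iff (two_ne_zero) |>.1 (by linarith)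

noncomputable def lift (f : J → J) (hf : E f) (p : C) : C :=
  ⟨((f p.x).1, (SignType.sign p.1.2 : ℝ) * √(1 - (f p.x).1 ^ 2)), by
    simp only [mul_pow, Real.sq_sqrt (J.nn _)]
    rcases lt_trichotomy p.1.2 0 with h | h | h
    · simp [sign_neg h]
    · have := (hf _).1 (p.snd_zero.1 h)
      simp [this]
    · simp [sign_pos h]⟩

lemma lift_x (f : J → J) (hf : E f) (p : C) : (lift f hf p).x = f p.x := rfl

lemma lift_sign (f : J → J) (hf : E f) (p : C) :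
    SignType.sign (lift f hf p).1.2 = SignType.sign p.1.2 := by
  change SignType.sign ((SignType.sign p.1.2 : ℝ) * √(1 - (f p.x).1 ^ 2)) = _
  by_cases h : p.1.2 = 0
  · simp [h]
  · have h1 : (f p.x).1 ^ 2 ≠ 1 := fun h1 => h (p.snd_zero.2 ((hf _).2 h1))
    have h2 : 0 < √(1 - (f p.x).1 ^ 2) :=
      Real.sqrt_pos.2 (lt_of_le_of_ne (J.nn _) (by intro h; apply h1; linarith))
    rw [sign_mul, sign_pos h2, mul_one]
    rcases lt_or_gt_of_ne h with h3 | h3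
    · simp [sign_neg h3]
    · simp [sign_pos h3]

lemma lift_id (f : J → J) (hf : E f) (h : ∀ x, f x = x) (p : C) : lift f hf p = p := by
  refine Subtype.ext (Prod.ext (congrArg Subtype.val (h p.x)) ?_)
  change (SignType.sign p.1.2 : ℝ) * √(1 - (f p.x).1 ^ 2) = _
  have h1 : 1 - p.x.1 ^ 2 = p.1.2 ^ 2 := by
    change 1 - p.1.1 ^ 2 = _
    linarith [p.2]
  rw [h, h1, Real.sqrt_sq_eq_abs, sign_mul_abs]

lemma lift_comp (f g h : J → J) (hf : E f) (hg : E g) (hh : E h) (e : ∀ x, h x = f (g x)) (p : C) :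
    lift h hh p = lift f hf (lift g hg p) := by
  refine Subtype.ext (Prod.ext (congrArg Subtype.val (e p.x)) ?_)
  change (SignType.sign p.1.2 : ℝ) * √(1 - (h p.x).1 ^ 2) =
    (SignType.sign (lift g hg p).1.2 : ℝ) * √(1 - (f (g p.x)).1 ^ 2)
  rw [lift_sign, e]

noncomputable def re (f : J → J) (x : ℝ) : ℝ := (f (projIcc (-1) 1 fct.out.le x)).1

lemma re_val (f : J → J) (x : J) : re f x.1 = (f x).1 := by simp [re]

lemma re_mem (f : J → J) (x : ℝ) : re f x ∈ Icc (-1:ℝ) 1 := (f _).2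

lemma re_smooth {k : WithTop ℕ∞} {f : J → J} (hf : ContMDiff (𝓡∂ 1) (𝓡∂ 1) k f) :
    ContDiffOn ℝ k (re f) (Icc (-1) 1) :=
  contMDiffOn_iff_contDiffOn.1
    (contMDiff_subtypeVal_Icc.comp_contMDiffOn (contMDiffOn_comp_projIcc_iff.2 hf))

lemma deriv_ne {f g : J → J} (hf : DifferentiableOn ℝ (re f) (Icc (-1) 1))
    (hg : DifferentiableOn ℝ (re g) (Icc (-1) 1)) (hgf : ∀ x, g (f x) = x) {x : ℝ}
    (hx : x ∈ Icc (-1:ℝ) 1) : derivWithin (re f) (Icc (-1) 1) x ≠ 0 := by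
  intro h0
  have hu : UniqueDiffOn ℝ (Icc (-1:ℝ) 1) := uniqueDiffOn_Icc (by norm_num)
  have h1 := ((hg _ (re_mem f x)).hasDerivWithinAt).comp x (hf x hx).hasDerivWithinAt
    (fun y _ => re_mem f y)
  rw [h0, mul_zero] at h1
  have h2 : HasDerivWithinAt (re g ∘ re f) 1 (Icc (-1) 1) x := by
    refine (hasDerivWithinAt_id x _).congr (fun y hy => ?_) ?_
    · exact (congrArg (re g) (re_val f ⟨y, hy⟩)).trans ((re_val g _).trans (by rw [hgf]; rfl))
    · exact (congrArg (re g) (re_val f ⟨x, hx⟩)).trans ((re_val g _).trans (by rw [hgf]; rfl))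
  exact zero_ne_one ((hu x hx).eq_deriv _ h1 h2)

lemma corner (m : ℕ∞) (F : ℝ → ℝ) (hF : ContDiffOn ℝ ((m : WithTop ℕ∞) + 1) F (Icc (-1) 1))
    (hm : ∀ x, F x ∈ Icc (-1:ℝ) 1) (s : ℝ) (hs : s ^ 2 = 1) (h1 : F s ^ 2 = 1)
    (hd : derivWithin F (Icc (-1) 1) s ≠ 0) :
    ContDiffAt ℝ ((m : WithTop ℕ∞) + 1)
      (fun y : ℝ => (SignType.sign y : ℝ) * √(1 - F (s * √(1 - y ^ 2)) ^ 2)) 0 := by
  have hu : UniqueDiffOn ℝ (Icc (-1:ℝ) 1) := uniqueDiffOn_Icc (by norm_num)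
  have hF0 : ContDiffOn ℝ m F (Icc (-1) 1) := hF.of_le le_self_add
  obtain ⟨hFd, -, hD⟩ := (contDiffOn_succ_iff_derivWithin hu).1 hF
  have hc : ∀ y : ℝ, s * √(1 - y ^ 2) ∈ Icc (-1:ℝ) 1 := by
    intro y
    have h2 : √(1 - y ^ 2) ≤ 1 := Real.sqrt_le_one.2 (by nlinarith [sq_nonneg y])
    have h3 := Real.sqrt_nonneg (1 - y ^ 2)
    rcases sq_eq_one_iff.1 hs with rfl | rfl <;> constructor <;> linarith
  have hpos : ∀ y ∈ Ioo (-1:ℝ) 1, 0 < 1 - y ^ 2 := fun y hy => by nlinarith [hy.1, hy.2]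
  have hsq : ContDiffOn ℝ m (fun y : ℝ => √(1 - y ^ 2)) (Ioo (-1) 1) :=
    ContDiffOn.sqrt (by fun_prop) fun y hy => (hpos y hy).ne'
  have hcs : ContDiffOn ℝ m (fun y : ℝ => s * √(1 - y ^ 2)) (Ioo (-1) 1) :=
    contDiffOn_const.mul hsq
  refine key m (fun y => 1 - F (s * √(1 - y ^ 2)) ^ 2)
    (fun y => s * F (s * √(1 - y ^ 2)) * derivWithin F (Icc (-1) 1) (s * √(1 - y ^ 2)) /
      √(1 - y ^ 2)) ?_ ?_ (by simp [h1]) ?_ ?_
  · intro y hy
    refine ContDiffOn.contDiffAt ?_ (isOpen_Ioo.mem_nhds hy)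
    exact ((contDiffOn_const.mul (hF0.comp hcs fun z _ => hc z)).mul
      (hD.comp hcs fun z _ => hc z)).div hsq fun z hz => (Real.sqrt_pos.2 (hpos z hz)).ne'
  · intro y hy
    have h2 : HasDerivAt (fun y : ℝ => 1 - y ^ 2) (-(2 * y)) y :=
      ((hasDerivAt_pow 2 y).const_sub 1).congr_deriv (by simp)
    have h3 := (h2.sqrt (hpos y hy).ne').const_mul s
    have h4 := (hFd _ (hc y)).hasDerivWithinAt.comp_hasDerivAt y h3 (Eventually.of_forall hc)
    have h5 := (h4.pow 2).const_sub 1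
    refine h5.congr_deriv ?_
    have h6 := (Real.sqrt_pos.2 (hpos y hy)).ne'
    simp only [Function.comp]
    field_simp
    simp
    ring
  · intro y _
    have := hm (s * √(1 - y ^ 2))
    nlinarith [this.1, this.2]
  · have h2 : s ≠ 0 := by rintro rfl; norm_num at hs
    have h3 : F s ≠ 0 := by intro h; rw [h] at h1; norm_num at h1
    simp [h2, h3, hd]

lemma lift_smooth (m : ℕ∞) {f g : J → J} (hE : E f)
    (hf : ContMDiff (𝓡∂ 1) (𝓡∂ 1) ((m + 1 : ℕ∞) : WithTop ℕ∞) f)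
    (hg : ContMDiff (𝓡∂ 1) (𝓡∂ 1) ((m + 1 : ℕ∞) : WithTop ℕ∞) g) (hgf : ∀ x, g (f x) = x) :
    ContMDiff (𝓡∂ 1) (𝓡∂ 1) ((m + 1 : ℕ∞) : WithTop ℕ∞) (lift f hE) := by
  intro p
  apply into_C
  have hv : ContMDiff (𝓡∂ 1) 𝓘(ℝ, ℝ × ℝ) ((m + 1 : ℕ∞) : WithTop ℕ∞) (fun p : C => p.1) :=
    val_smooth.of_le (by exact_mod_cast le_top)
  have hx : ContMDiff (𝓡∂ 1) 𝓘(ℝ, ℝ) ((m + 1 : ℕ∞) : WithTop ℕ∞) (fun p : C => p.1.1) :=
    contDiff_fst.comp_contMDiff hv
  have hy : ContMDiff (𝓡∂ 1) 𝓘(ℝ, ℝ) ((m + 1 : ℕ∞) : WithTop ℕ∞) (fun p : C => p.1.2) :=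
    contDiff_snd.comp_contMDiff hv
  have hF := re_smooth hf
  have hG := re_smooth hg
  have h1 : ContMDiff (𝓡∂ 1) 𝓘(ℝ, ℝ) ((m + 1 : ℕ∞) : WithTop ℕ∞) (fun p : C => (f p.x).1) := by
    have := hF.contMDiffOn.comp_contMDiff hx fun q => q.fst_mem
    refine this.congr fun q => (re_val f q.x).symm
  refine ContMDiffAt.prodMk_space (h1 p) ?_
  change ContMDiffAt (𝓡∂ 1) 𝓘(ℝ, ℝ) _
    (fun q : C => (SignType.sign q.1.2 : ℝ) * √(1 - (f q.x).1 ^ 2)) p
  by_cases h : p.1.2 = 0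
  · have hs : p.1.1 ^ 2 = 1 := p.snd_zero.1 h
    have hne : ((m + 1 : ℕ∞) : WithTop ℕ∞) ≠ 0 := by simp
    have h2 := corner m (re f) hF (re_mem f) p.1.1 hs
      (by rw [show p.1.1 = p.x.1 from rfl, re_val]; exact (hE _).1 hs)
      (deriv_ne (hF.differentiableOn hne) (hG.differentiableOn hne) hgf p.fst_mem)
    rw [← h] at h2
    have h3 := ContDiffAt.comp_contMDiffAt (f := fun q : C => q.1.2) h2 (hy p)
    refine h3.congr_of_eventuallyEq ?_
    have h4 : ∀ᶠ q : C in 𝓝 p, 0 < p.1.1 * q.1.1 :=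
      (continuous_const.mul hx.continuous).continuousAt.eventually
        (lt_mem_nhds (by nlinarith : (0:ℝ) < p.1.1 * p.1.1))
    filter_upwards [h4] with q hq
    simp only [Function.comp]
    rw [← fst_eq q p.1.1 hs hq.le, ← re_val f q.x]
    rfl
  · have h2 : (f p.x).1 ^ 2 ≠ 1 := fun h1 => h (p.snd_zero.2 ((hE _).2 h1))
    have h3 : ContDiffAt ℝ ((m + 1 : ℕ∞) : WithTop ℕ∞)
        (fun t : ℝ => (SignType.sign p.1.2 : ℝ) * √(1 - t ^ 2)) (f p.x).1 :=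
      contDiffAt_const.mul (ContDiffAt.sqrt (by fun_prop) (by intro h; apply h2; linarith))
    have h4 := ContDiffAt.comp_contMDiffAt (f := fun q : C => (f q.x).1) h3 (h1 p)
    refine h4.congr_of_eventuallyEq ?_
    have h5 : ∀ᶠ q : C in 𝓝 p, SignType.sign q.1.2 = SignType.sign p.1.2 := by
      rcases lt_or_gt_of_ne h with h6 | h6
      · filter_upwards [hy.continuous.continuousAt.eventually (gt_mem_nhds h6)] with q hq
        rw [sign_neg hq, sign_neg h6]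
      · filter_upwards [hy.continuous.continuousAt.eventually (lt_mem_nhds h6)] with q hq
        rw [sign_pos hq, sign_pos h6]
    filter_upwards [h5] with q hq
    simp only [Function.comp, hq]

lemma not_homeo (e : J ≃ₜ C) : False := by
  let a : C → C := fun p => ⟨-p.1, by have := p.2; simp only [Prod.fst_neg, Prod.snd_neg]; linarith⟩
  have ha : Continuous a := Topology.IsInducing.subtypeVal.continuous_iff.2 C.cont.neg
  have hc : Continuous (re (fun x => e.symm (a (e x)))) := by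
    unfold re
    exact continuous_subtype_val.comp (e.symm.continuous.comp (ha.comp (e.continuous.comp
      continuous_projIcc)))
  obtain ⟨c, hc1, hc2⟩ := exists_mem_Icc_isFixedPt_of_mapsTo hc.continuousOn
    (show (-1:ℝ) ≤ 1 by norm_num) (fun x _ => re_mem _ x)
  have h1 : e.symm (a (e ⟨c, hc1⟩)) = ⟨c, hc1⟩ :=
    Subtype.ext ((re_val (fun x => e.symm (a (e x))) ⟨c, hc1⟩).symm.trans hc2)
  have h2 : a (e ⟨c, hc1⟩) = e ⟨c, hc1⟩ := by rw [← e.apply_symm_apply (a _), h1]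
  set p := e ⟨c, hc1⟩
  have h3 : -p.1 = p.1 := congrArg Subtype.val h2
  have h4 : -p.1.1 = p.1.1 := congrArg Prod.fst h3
  have h5 : -p.1.2 = p.1.2 := congrArg Prod.snd h3
  have h6 := p.2
  have h7 : p.1.1 = 0 := by linarith
  have h8 : p.1.2 = 0 := by linarith
  rw [h7, h8] at h6
  norm_num at h6

theorem double (k : ℕ∞) (hk : 1 ≤ k) (G : Type) [Group G] (ρ : G →* Equiv.Perm J)
    (hi : Function.Injective ρ) (hs : ∀ g : G, ContMDiff (𝓡∂ 1) (𝓡∂ 1) (k : WithTop ℕ∞) (ρ g)) :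
    ∃ σ : G →* Equiv.Perm C, Function.Injective σ ∧
      ∀ g : G, ContMDiff (𝓡∂ 1) (𝓡∂ 1) (k : WithTop ℕ∞) (σ g) := by
  obtain ⟨m, rfl⟩ : ∃ m, k = m + 1 := by
    obtain ⟨m, hm⟩ := exists_add_of_le hk
    exact ⟨m, by rw [hm, add_comm]⟩
  have h1 : ∀ g x, ρ g⁻¹ (ρ g x) = x := fun g x => by simp
  have h2 : ∀ g x, ρ g (ρ g⁻¹ x) = x := fun g x => by simp
  have hE : ∀ g, E (ρ g) := fun g => mkE (hs g).continuous (hs g⁻¹).continuous (h2 g) (h1 g)
  let φ : G →* Function.End C :=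
    { toFun := fun g => lift (ρ g) (hE g)
      map_one' := funext fun p => lift_id _ (hE 1) (by simp) p
      map_mul' := fun a b => funext fun p => lift_comp _ _ _ (hE a) (hE b) (hE (a * b)) (by simp) p }
  refine ⟨φ.toHomPerm, fun a b hab => hi ?_, fun g => lift_smooth m (hE g) (hs g) (hs g⁻¹) (h1 g)⟩
  ext1 x
  have := congrArg (fun e : Equiv.Perm C => (e (up 1 (by norm_num) x)).x) hab
  exact this

end Pool.Agent.H2.Dbl
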