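import Mathlib

namespace Pool.Agent.H2.E8a

open Finset

def pairL : List (Fin 2 → Fin 8) := [![0, 1], ![0, 2], ![0, 3], ![0, 4], ![0, 5], ![0, 6], ![0, 7], ![1, 2], ![1, 3], ![1, 4], ![1, 5], ![1, 6], ![1, 7], ![2, 3], ![2, 4], ![2, 5], ![2, 6], ![2, 7], ![3, 4], ![3, 5], ![3, 6], ![3, 7], ![4, 5], ![4, 6], ![4, 7], ![5, 6], ![5, 7], ![6, 7]]
def quadL : List (Fin 4 → Fin 8) := [![0, 1, 2, 3], ![0, 1, 2, 4], ![0, 1, 2, 5], ![0, 1, 2, 6], ![0, 1, 2, 7], ![0, 1, 3, 4], ![0, 1, 3, 5], ![0, 1, 3, 6], ![0, 1, 3, 7], ![0, 1, 4, 5], ![0, 1, 4, 6], ![0, 1, 4, 7], ![0, 1, 5, 6], ![0, 1, 5, 7], ![0, 1, 6, 7], ![0, 2, 3, 4], ![0, 2, 3, 5], ![0, 2, 3, 6], ![0, 2, 3, 7], ![0, 2, 4, 5], ![0, 2, 4, 6], ![0, 2, 4, 7], ![0, 2, 5, 6], ![0, 2, 5, 7], ![0,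 2, 6, 7], ![0, 3, 4, 5], ![0, 3, 4, 6], ![0, 3, 4, 7], ![0, 3, 5, 6], ![0, 3, 5, 7], ![0, 3, 6, 7], ![0, 4, 5, 6], ![0, 4, 5, 7], ![0, 4, 6, 7], ![0, 5, 6, 7], ![1, 2, 3, 4], ![1, 2, 3, 5], ![1, 2, 3, 6], ![1, 2, 3, 7], ![1, 2, 4, 5], ![1, 2, 4, 6], ![1, 2, 4, 7], ![1, 2, 5, 6], ![1, 2, 5, 7], ![1, 2, 6, 7], ![1, 3, 4, 5], ![1, 3, 4, 6], ![1, 3, 4, 7], ![1, 3, 5, 6], ![1, 3, 5, 7], ![1, 3, 6, 7], ![1, 4, 5, 6], ![1, 4, 5, 7], ![1, 4, 6, 7], ![1, 5, 6, 7], ![2, 3, 4, 5], ![2, 3, 4, 6], ![2, 3, 4, 7], ![2, 3, 5, 6], ![2, 3, 5, 7], ![2, 3, 6, 7], ![2, 4, 5, 6], ![2, 4, 5, 7], ![2, 4, 6, 7], ![2, 5, 6, 7], ![3, 4, 5, 6], ![3, 4, 5, 7], ![3, 4, 6, 7], ![3, 5, 6, 7], ![4, 5, 6, 7]]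
def pair (a : Fin 28) : Fin 2 → Fin 8 := pairL.getD a ![0, 0]
def quad (t : Fin 70) : Fin 4 → Fin 8 := quadL.getD t ![0, 0, 0, 0]
def pairN : List (List ℕ) := [[0, 1], [0, 2], [0, 3], [0, 4], [0, 5], [0, 6], [0, 7], [1, 2], [1, 3], [1, 4], [1, 5], [1, 6], [1, 7], [2, 3], [2, 4], [2, 5], [2, 6], [2, 7], [3, 4], [3, 5], [3, 6], [3, 7], [4, 5], [4, 6], [4, 7], [5, 6], [5, 7], [6, 7]]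
def quadN : List (List ℕ) := [[0, 1, 2, 3], [0, 1, 2, 4], [0, 1, 2, 5], [0, 1, 2, 6], [0, 1, 2, 7], [0, 1, 3, 4], [0, 1, 3, 5], [0, 1, 3, 6], [0, 1, 3, 7], [0, 1, 4, 5], [0, 1, 4, 6], [0, 1, 4, 7], [0, 1, 5, 6], [0, 1, 5, 7], [0, 1, 6, 7], [0, 2, 3, 4], [0, 2, 3, 5], [0, 2, 3, 6], [0, 2, 3, 7], [0, 2, 4, 5], [0, 2, 4, 6], [0, 2, 4, 7], [0, 2, 5, 6], [0, 2, 5, 7], [0, 2, 6, 7], [0, 3, 4, 5], [0, 3, 4, 6], [0, 3, 4, 7], [0, 3, 5, 6], [0, 3, 5, 7], [0, 3, 6, 7], [0, 4, 5, 6], [0, 4, 5, 7], [0, 4, 6, 7], [0, 5, 6, 7], [1, 2, 3, 4], [1, 2, 3, 5], [1, 2, 3, 6], [1, 2, 3, 7], [1, 2, 4, 5], [1, 2, 4, 6], [1, 2, 4, 7], [1, 2, 5, 6], [1, 2, 5, 7], [1, 2, 6, 7], [1, 3, 4, 5], [1, 3, 4, 6], [1, 3, 4, 7], [1, 3, 5, 6], [1, 3, 5, 7], [1, 3, 6, 7], [1,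 4, 5, 6], [1, 4, 5, 7], [1, 4, 6, 7], [1, 5, 6, 7], [2, 3, 4, 5], [2, 3, 4, 6], [2, 3, 4, 7], [2, 3, 5, 6], [2, 3, 5, 7], [2, 3, 6, 7], [2, 4, 5, 6], [2, 4, 5, 7], [2, 4, 6, 7], [2, 5, 6, 7], [3, 4, 5, 6], [3, 4, 5, 7], [3, 4, 6, 7], [3, 5, 6, 7], [4, 5, 6, 7]]
def WL : List ℤ := [0, 0, -1, -2, 0, 0, 0, -1, 2, -1, -1, -1, 0, 0, 1, -2, -1, 1, -1, 0, 0, -1, -1, 1, -2, 2, 0, -1, 1, 0, 0, 0, -1, -2, 0, -1, 1, -1, 0, 0, 0, 2, 0, -2, -1, 0, 2, 0, -1, 1, 1, 0, -1, 0, 1, -1, 0, 1, 1, -1, 0, -1, -1, 0, 1, -2, 1, -1, 1, 2]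
def GrL : List (List ℤ) :=
  [[0, 0, 0, 0, 0, 0, 0, 0, 0, 0, 0, 0, 0, 2, -1, -1, -1, -2, 1, 0, -1, 1, 0, 1, 1, 1, 0, -1],
   [0, 0, 0, 0, 0, 0, 0, 0, -2, 1, 1, 1, 2, 0, 0, 0, 0, 0, -1, 0, 1, 0, -1, 1, 1, 0, 2, 0],
   [0, 0, 0, 0, 0, 0, 0, 2, 0, -1, 0, 1, -1, 0, 1, 0, -1, 0, 0, 0, 0, 0, -1, 2, 0, 2, 0, 0],
   [0, 0, 0, 0, 0, 0, 0, -1, 1, 0, 0, -1, -1, -1, 0, 1, -1, -1, 0, 1, -2, 0, 0, 0, 0, 0, -1, -1],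
   [0, 0, 0, 0, 0, 0, 0, -1, 0, 0, 0, -1, 0, 0, -1, 0, 0, -2, -1, 0, -2, 0, 0, 0, 1, 0, 0, -1],
   [0, 0, 0, 0, 0, 0, 0, -1, -1, 1, 1, 0, 1, 1, 1, 0, 0, 0, 2, 2, 0, 0, 0, 0, 1, 0, 1, 0],
   [0, 0, 0, 0, 0, 0, 0, -2, 1, 1, 0, -1, 0, 0, 1, 2, 0, 0, 0, 0, 0, 0, -1, -1, 0, -1, 0, 0],
   [0, 0, 2, -1, -1, -1, -2, 0, 0, 0, 0, 0, 0, 0, 0, 0, 0, 0, 0, 2, -1, 0, 0, 0, 1, -1, 0, 2],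
   [0, -2, 0, 1, 0, -1, 1, 0, 0, 0, 0, 0, 0, 0, 0, -2, 1, 0, 0, 0, 0, 0, 2, 1, 1, 1, 0, 0],
   [0, 1, -1, 0, 0, 1, 1, 0, 0, 0, 0, 0, 0, 0, 0, 0, 0, -1, 0, -2, -1, -1, 0, 0, 0, -1, -1, -1],
   [0, 1, 0, 0, 0, 1, 0, 0, 0, 0, 0, 0, 0, 2, 0, 0, 1, 0, 2, 0, -1, 0, 0, 1, 1, 0, 0, 2],
   [0, 1, 1, -1, -1, 0, -1, 0, 0, 0, 0, 0, 0, -1, 0, -1, 0, -2, 1, 1, 0, 0, -1, 0, 1, 0, -2, 0],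
   [0, 2, -1, -1, 0, 1, 0, 0, 0, 0, 0, 0, 0, 0, 1, 0, 2, 0, 1, 0, 0, 0, -1, -1, 0, 2, 0, 0],
   [2, 0, 0, -1, 0, 1, 0, 0, 0, 0, 2, -1, 0, 0, 0, 0, 0, 0, 0, 0, 0, 0, 1, 0, 0, -1, 1, -1],
   [-1, 0, 1, 0, -1, 1, 1, 0, 0, 0, 0, 0, 1, 0, 0, 0, 0, 0, 0, -1, 0, 0, 0, 0, 0, -2, -1, 0],
   [-1, 0, 0, 1, 0, 0, 2, 0, -2, 0, 0, -1, 0, 0, 0, 0, 0, 0, 1, 0, 1, -1, 0, 2, 1, 0, 0, 0],
   [-1, 0, -1, -1, 0, 0, 0, 0, 1, 0, 1, 0, 2, 0, 0, 0, 0, 0, 0, -1, 0, 1, -2, 0, 0, 0, 0, 0],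
   [-2, 0, 0, -1, -2, 0, 0, 0, 0, -1, 0, -2, 0, 0, 0, 0, 0, 0, 0, 1, -1, 0, -1, 0, 0, 0, 0, 0],
   [1, -1, 0, 0, -1, 2, 0, 0, 0, 0, 2, 1, 1, 0, 0, 1, 0, 0, 0, 0, 0, 0, 0, 0, 0, 0, 2, -1],
   [0, 0, 0, 1, 0, 2, 0, 2, 0, -2, 0, 1, 0, 0, -1, 0, -1, 1, 0, 0, 0, 0, 0, 0, -2, 0, 0, 0],
   [-1, 1, 0, -2, -2, 0, 0, -1, 0, -1, -1, 0, 0, 0, 0, 1, 0, -1, 0, 0, 0, 0, 0, 0, 1, 0, 0, 0],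
   [1, 0, 0, 0, 0, 0, 0, 0, 0, -1, 0, 0, 0, 0, 0, -1, 1, 0, 0, 0, 0, 0, 2, -1, 0, 0, 0, 0],
   [0, -1, -1, 0, 0, 0, -1, 0, 2, 0, 0, -1, -1, 1, 0, 0, -2, -1, 0, 0, 0, 2, 0, 0, 0, 0, 0, 0],
   [1, 1, 2, 0, 0, 0, -1, 0, 1, 0, 1, 0, -1, 0, 0, 2, 0, 0, 0, 0, 0, -1, 0, 0, 0, 0, 0, 0],
   [1, 1, 0, 0, 1, 1, 0, 1, 1, 0, 1, 1, 0, 0, 0, 1, 0, 0, 0, -2, 1, 0, 0, 0, 0, 0, 0, 0],
   [1, 0, 2, 0, 0, 0, -1, -1, 1, -1, 0, 0, 2, -1, -2, 0, 0, 0, 0, 0, 0, 0, 0, 0, 0, 0, 0, 0],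
   [0, 2, 0, -1, 0, 1, 0, 0, 0, -1, 0, -2, 0, 1, -1, 0, 0, 0, 2, 0, 0, 0, 0, 0, 0, 0, 0, 0],
   [-1, 0, 0, -1, -1, 0, 0, 2, 0, -1, 2, 0, 0, -1, 0, 0, 0, 0, -1, 0, 0, 0, 0, 0, 0, 0, 0, 0]]
def PL : List (List ℤ) :=
  [[-20, -29, -2, 25, -39, 34, -96, -4, 0, 1, 0, 0, 1, 0, 0, 2, 0, -2, -2, 4, 4, -9, 12, -9, -24, 6, 36, -38],
   [-15, 13, -3, -9, 13, -16, 11, -29, 0, 1, 1, -2, 2, 0, 0, 2, 0, -2, 1, -1, 0, -4, -3, -7, 9, -18, -9, 10],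
   [44, -37, 9, 39, -29, 37, -28, 34, 1, -1, -1, 1, -2, 2, 0, -3, 0, -1, -1, 1, 2, -9, 14, -12, -11, -9, 38, -42],
   [-50, 74, -8, -67, 73, -79, 108, -77, 0, 1, 2, -4, 2, -1, 0, 2, 0, 1, 5, -7, -6, 11, -24, 6, 43, -28, -74, 74],
   [52, -40, 3, 45, -37, 42, -39, 54, 0, -2, -2, 4, 0, 1, -1, -3, 1, -1, -4, 5, 3, -9, 12, -3, -17, 6, 43, -45],
   [58, -26, 10, 26, -20, 30, -5, 47, 0, -1, -1, 1, -2, 1, 0, -2, 0, 1, 3, -3, 3, -2, 6, -1, -7, 1, 27, -34],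
   [1, -86, 3, 82, -88, 85, -164, 40, 1, 0, -2, 3, 0, 3, 0, -1, 0, -6, -12, 15, 3, -20, 35, -23, -51, 14, 87, -85],
   [-94, -14, -11, 5, -34, 18, -152, -63, 0, 0, 0, 0, 1, 0, 1, -2, 0, -3, -4, 5, 1, -9, 11, -7, -26, 3, 25, -34],
   [-28, -35, -6, 30, -41, 34, -117, -6, 0, 0, 0, 0, 1, 0, 1, 0, 0, -3, -5, 7, 3, -14, 13, -9, -28, 6, 42, -44],
   [-24, -24, -4, 20, -34, 29, -105, -15, 0, 0, 0, 0, 0, 0, 1, -1, 0, -2, -1, 2, 4, -11, 10, -6, -21, 0, 35, -43],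
   [59, 20, 7, -13, 32, -21, 103, 27, 0, 0, 1, -1, 0, -1, 0, 1, 0, 3, 6, -7, 0, 6, -12, 5, 24, -12, -22, 22],
   [22, 1, 4, 1, 9, -5, 42, 17, 0, 0, 0, 0, 0, 0, 0, 0, 0, 0, 0, 0, -1, 2, -1, -1, 6, -2, -6, 11],
   [-63, -10, -8, 4, -28, 16, -114, -41, 0, 0, 0, 0, 1, 0, 0, 0, 0, -2, -2, 2, 1, -4, 6, -2, -19, 6, 19, -30],
   [-3, 0, 2, -3, -3, 3, -10, 1, 0, 0, 0, 0, 0, 0, 0, 0, 0, 1, 2, -2, 0, 4, -1, 3, -2, 5, 0, -5],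
   [6, 2, 1, -1, 2, -1, -1, -5, 0, 0, 0, 0, 0, 0, 0, -1, 0, 0, 2, -3, 1, -2, -1, -1, 3, -8, 2, -6],
   [-79, 26, -8, -32, 13, -25, -23, -54, 0, 0, 0, 0, 0, 0, 0, -1, 0, 0, -2, 1, -5, 10, -5, 8, 2, 10, -29, 26],
   [-59, 13, -8, -17, 5, -15, -33, -42, 0, 0, 0, 0, 0, 0, 0, -1, 0, 0, -3, 2, -3, 1, -2, 2, -2, 3, -13, 12],
   [77, 1, 17, 3, 14, 4, 73, 33, 0, -1, 1, -2, -1, 0, 1, -1, 0, 4, 11, -11, 3, 3, -3, -5, 17, -24, 1, -10],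
   [-33, 32, -8, -31, 33, -38, 56, -21, 0, 0, 0, 0, 0, -1, 0, 0, 0, 1, -4, 3, -5, 8, -10, 10, 14, 8, -40, 51],
   [-36, -35, -2, 29, -46, 38, -125, -15, 0, 0, -1, 1, 1, 1, 0, -1, 0, -4, -3, 5, 3, -12, 16, -12, -29, 3, 43, -48],
   [-7, 0, -2, -1, -2, 0, -14, -4, 0, 0, 0, 0, 0, 0, 0, 0, 0, 0, 0, 0, 0, 0, -1, 2, -2, 2, 1, -4],
   [-18, 37, 2, -34, 42, -41, 77, -37, 1, 0, 0, -1, -1, 1, 0, -3, 0, 1, 3, -5, -5, 7, -9, 0, 26, -21, -41, 41],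
   [-31, 17, -5, -18, 11, -16, -4, -27, 0, 0, 0, 0, 0, 0, 0, -1, 0, 0, 0, -1, -2, 4, -5, 6, 5, 1, -16, 12],
   [-24, -2, 0, -3, -7, 2, -44, -21, 0, 0, 0, 0, 0, 0, 0, -1, 0, 0, 2, -3, 0, -1, 0, -1, -5, -2, 6, -15],
   [44, 14, 13, -10, 24, -11, 70, 5, 0, -1, 1, -2, 0, 0, 1, -2, 0, 3, 10, -10, 1, 5, -5, -5, 21, -28, -12, 3],
   [28, 0, 2, 3, 1, 4, 19, 18, 0, 0, 0, 0, -1, 0, 0, 0, 0, 1, 2, -2, 1, 2, -2, 4, 4, 0, 1, -5],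
   [-31, 2, -5, 0, 4, -11, -1, -26, 0, 1, 0, -1, 2, 1, -1, 2, 0, -5, -5, 5, -2, -5, 3, -10, 1, -7, -5, 16],
   [3, -9, -3, 12, -10, 7, 7, 19, 0, 1, -1, 2, 1, 1, -2, 3, 0, -4, -6, 7, -1, 0, 4, 0, -6, 15, 3, 9]]
def QL : List (List ℤ) :=
  [[-28, 29, 35, 14, 0, -18, -17, -8, 19, 5, -58, 12, -9, 78, 31, -4, 5, -35, 1, -13, -60, -18, -60, 9, 20, 26, -27, 14],
   [9, 40, 9, -12, 0, 23, -9, 8, 16, -21, -1, -8, -4, -7, -9, 12, -6, -7, 11, -9, -25, 0, 7, 10, 5, -3, -15, 8],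
   [-29, 56, 45, 9, 0, -8, -23, 1, 30, -10, -61, 2, -18, 85, 43, 12, -1, -38, 10, -16, -68, -22, -77, 12, 20, 30, -37, 20],
   [-29, 66, 43, 4, 0, -1, -25, 0, 37, -19, -60, -6, -16, 77, 39, 19, -7, -48, 6, -19, -81, -18, -82, 14, 24, 32, -40, 17],
   [10, 45, 11, -13, 0, 25, -10, 11, 20, -26, -2, -11, -7, -7, -2, 17, -8, -4, 15, -10, -22, -1, 3, 11, 4, -2, -17, 11],
   [-2, 12, 2, -3, 0, 5, -2, 7, 5, -10, -1, -6, -3, 1, 6, 7, -5, 0, 3, -2, -2, 0, -10, 1, -2, 3, -4, 2],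
   [38, -11, -35, -23, 0, 33, 15, 17, -16, -17, 66, -15, 8, -93, -43, 7, -8, 42, 8, 10, 60, 20, 79, -4, -23, -33, 23, -10],
   [2, -38, -15, 6, 0, -12, 10, -10, -14, 17, 14, 4, 7, -15, -4, -8, 5, 8, -11, 9, 25, 5, 12, -9, -4, -5, 17, -10],
   [0, 1, 0, -1, 0, 0, 0, 1, -1, 0, 1, 0, 1, 0, -2, -1, -1, 1, 1, 0, 2, 1, 1, 0, -1, -1, 0, 0],
   [1, 0, 0, 0, 0, 0, 0, 0, 1, -1, 0, 0, -1, 0, 2, 1, 0, 0, 0, 0, 0, 0, 0, 0, 0, 1, 0, 0],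
   [-1, -5, 0, 2, 0, -2, 0, -1, 0, 1, 1, 1, 0, 0, 1, 1, 0, -3, -6, 0, -1, 0, -2, -3, 0, -1, 1, -2],
   [0, 2, 0, -1, 0, 0, 0, 0, 0, 1, -1, 0, 0, 0, -1, -1, 1, 1, 2, -1, 0, 0, 1, 2, 1, 0, -1, 2],
   [-1, 2, 0, -1, 0, 0, 0, 1, 1, -3, 1, -3, -1, 0, 3, 3, -2, 0, 0, 1, 1, 0, -3, -1, -1, 1, 0, -1],
   [-1, 4, -1, -2, 0, 3, 0, 1, -1, 0, 2, -3, 0, 0, -5, 0, 0, -3, -1, -1, -3, 1, 0, 0, 1, -1, 0, -1],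
   [-4, 2, -4, -3, 0, -1, 2, 1, -5, 3, 2, -2, 2, 0, -6, -3, 0, 1, 1, 1, 2, 2, -1, 1, -1, 2, 2, -2],
   [1, -2, 1, 2, 0, -1, 0, -2, 1, 2, -3, 2, 0, 1, 2, -1, 1, 1, 1, -1, 0, -1, 1, 1, 1, -1, -1, 2],
   [4, -5, 0, 2, 1, -2, 0, -5, 2, 5, -2, 4, 0, 0, 2, 0, 3, 3, 1, -1, 1, 0, 4, 1, 1, -1, 1, 2],
   [0, 0, 0, 0, 0, 0, 0, -1, 0, 0, 0, -1, 0, 0, -1, 0, 0, -2, -1, 0, -2, 0, 0, 0, 1, 0, 0, -1],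
   [-6, -20, -8, 5, 0, -9, 4, -7, -4, 6, 1, -1, 5, -3, 0, -3, -2, -7, -14, 3, 1, 4, -8, -5, 1, 3, 7, -9],
   [4, 17, 8, -3, 0, 7, -4, 8, 3, -6, -3, 2, -5, 5, -2, 0, 1, 5, 11, -3, -3, -4, 7, 5, -1, -2, -7, 8],
   [14, -1, -6, -8, 0, 8, 4, 1, -4, 0, 23, -8, -3, -24, -4, 10, 2, 16, 10, 7, 27, 2, 20, -2, -5, -9, 8, 0],
   [-6, 3, 4, 3, 0, -3, -2, 2, -1, 2, -11, 6, 1, 14, -1, -8, 1, -5, -1, -4, -10, -2, -6, 2, 2, 3, -4, 2],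
   [13, -28, -10, 3, 0, -4, 6, -15, -6, 14, 12, 7, 7, -22, -12, -7, 7, 6, -6, 5, 12, 4, 31, -3, 2, -11, 11, -5],
   [-17, -2, 7, 9, 0, -12, -2, 2, 2, 0, -17, 0, -4, 27, 22, 2, -4, -10, -7, -1, -7, -5, -37, -4, 0, 12, -4, -1],
   [-7, -65, -18, 16, 0, -31, 15, -19, -24, 35, 10, 10, 9, -2, 4, -17, 11, 8, -19, 15, 35, 3, 2, -15, -4, 0, 26, -15],
   [27, 24, -8, -20, 0, 31, 0, 10, 5, -20, 30, -12, 0, -48, -27, 12, -5, 16, 15, -1, 10, 8, 47, 7, -5, -18, 0, 3],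
   [48, -29, -54, -27, 0, 41, 24, 25, -30, -18, 90, -15, 16, -127, -66, -2, -11, 57, 3, 13, 84, 30, 111, -8, -34, -47, 36, -18],
   [-52, 2, 35, 30, 0, -44, -14, -16, 12, 21, -76, 17, -7, 110, 52, -12, 6, -49, -17, -10, -63, -21, -102, 0, 22, 41, -22, 6]]
def RL : List (List ℤ) :=
  [[-27, 47, -1, -48, 51, -52, 76, -34, 1, 0, 0, -1, -1, -1, 1, -4, 0, 4, 4, -6, -6, 14, -17, 13, 27, -7, -52, 48],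
   [2, 14, 17, -9, 12, -10, 4, -65, 0, 1, 2, -5, 4, 2, -2, 2, 0, -5, 17, -20, 3, -1, -2, -28, 24, -65, 2, -29],
   [25, -25, 12, 21, -23, 28, -57, 5, 0, 0, 0, 0, -1, 0, 1, -4, 0, 0, 8, -8, 4, -6, 7, -10, -8, -18, 35, -54],
   [19, -28, 0, 24, -27, 30, -49, 35, 0, -1, -1, 2, -2, -1, 2, -3, 0, 2, -3, 5, 3, -8, 9, 3, -20, 16, 30, -27],
   [0, 0, 0, 0, 0, 0, 0, 0, 0, 0, 0, 0, 0, 0, 0, 0, 0, 1, 0, 0, 0, 0, 0, 0, 0, 0, 0, 0],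
   [-28, 47, 3, -42, 46, -48, 73, -57, 0, 0, 0, -2, 3, 0, -1, -1, 0, -2, 7, -9, -3, 8, -12, -4, 31, -31, -44, 41],
   [-11, 7, -4, -8, 7, -9, 22, 5, 0, 0, 0, 0, 0, 0, 0, 2, 0, 0, -4, 4, -2, 4, -2, 6, 0, 15, -14, 24],
   [-17, 16, 10, -20, 15, -14, 37, -37, 0, 1, 0, -1, 1, 1, -2, 1, -1, -5, 8, -7, 2, 1, 2, -15, 10, -19, -16, 25],
   [8, -5, 4, 8, -2, 6, -23, -12, 1, -1, 0, 0, -1, 1, 1, -5, 0, 2, 3, -4, -1, -4, 2, -6, 5, -24, 12, -30],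
   [20, -23, -6, 19, -23, 23, -41, 51, -1, 0, 1, 1, 0, -3, 2, 3, 0, 5, -6, 6, 2, 0, 0, 14, -20, 35, 21, -18],
   [-55, 58, -4, -56, 57, -66, 119, -38, 0, 1, -1, 1, 2, 1, -3, 2, 0, -2, -3, 1, -11, 23, -17, 12, 30, 10, -76, 90],
   [22, -10, -2, 5, -10, 14, -28, 23, 0, 0, 0, 1, -3, -3, 2, -2, -1, 4, 2, -1, 6, -8, 0, 7, -12, 10, 17, -15],
   [0, 8, -11, -3, 5, -7, 12, 6, -1, 1, 0, 0, 0, -1, 0, 2, 0, 0, -5, 5, 1, -3, -4, 7, 0, 9, -7, 16],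
   [71, -91, 15, 83, -92, 102, -172, 63, 0, 0, 0, 0, 0, 0, 1, 0, 0, 0, 5, -3, 14, -24, 27, -22, -48, -2, 110, -127],
   [19, -57, 16, 46, -49, 57, -88, 35, 2, -2, -1, 1, -5, 3, 2, -6, -1, 2, -2, 0, -1, -4, 22, -12, -27, 4, 52, -66],
   [-20, 5, 9, -3, 8, -10, 15, -23, 1, -1, -1, 1, 0, 3, -1, -3, 0, 0, 0, -3, -8, 10, 2, -7, 12, -17, -12, -2],
   [11, -5, 0, 1, -4, 6, -16, 18, 0, -1, 1, 0, 0, -2, 1, 0, 0, 3, 1, -2, 1, 2, -4, 7, -5, 11, 6, -11],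
   [-32, 34, 7, -47, 40, -38, 76, -26, 0, 1, 1, -3, -3, 0, 1, 1, -2, 3, 5, -7, -5, 16, -10, 6, 16, 8, -49, 57],
   [-8, 16, 13, -24, 21, -17, 24, -30, 0, 1, 2, -6, -1, 0, 1, 1, -1, 1, 11, -14, -1, 10, -7, -6, 15, -19, -17, 3],
   [-10, 1, 0, -3, 1, -4, 13, 8, 0, 0, -1, 0, -1, 1, -1, 1, 0, -1, -3, 3, -4, 7, -1, 5, -1, 15, -10, 13],
   [-52, 31, 5, -47, 39, -42, 97, -10, 0, 2, 0, -1, -3, 1, 0, 2, -2, 1, -3, 1, -10, 27, -7, 12, 10, 35, -63, 84],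
   [-14, 18, -8, -13, 16, -19, 35, -10, 0, 1, 0, 0, 1, 0, -1, 2, 0, 0, -4, 4, -2, 2, -5, 4, 8, 3, -21, 30],
   [-43, 96, -12, -97, 98, -102, 156, -55, 0, 1, 1, -2, 0, -3, 1, -1, 0, 4, 7, -8, -6, 20, -37, 31, 47, 2, -102, 111],
   [6, 6, 1, -5, 7, -5, 0, -14, 0, 0, 2, -3, 0, -1, 1, 1, 0, 1, 5, -5, 2, -2, -4, -3, 7, -15, 0, -8],
   [20, -14, -4, 19, -14, 15, -40, 15, 0, -1, 1, 0, 1, -1, 1, -1, 1, 1, -1, 1, 2, -5, 0, 2, -5, -4, 22, -34],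
   [22, -38, 2, 39, -39, 41, -64, 23, 1, -1, 0, -1, -1, 1, -1, 2, 0, -1, -2, 3, 3, -9, 12, -11, -18, 0, 41, -47],
   [-17, 10, -7, -11, 10, -14, 33, 11, 0, 0, -1, 1, 0, 0, -1, 2, 0, 1, -7, 7, -4, 8, -4, 11, 0, 26, -22, 36],
   [8, -1, 9, -5, 3, 3, -12, -10, 0, 0, 2, -2, -1, -1, 2, -2, -1, 2, 8, -9, 2, 0, -1, -5, 3, -15, 6, -18]]
def ent (A : List (List ℤ)) (i j : ℕ) : ℤ := (A.getD i []).getD j 0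

def c (x y : ℕ) : ℤ := if x < y then 1 else if x = y then 0 else -1

def sg : List ℕ → ℤ
  | [] => 1
  | x :: l => if (l.map (c x)).prod = 0 then 0 else (l.map (c x)).prod * sg l

abbrev I := Fin 8 ⊕ Fin 2 × Fin 10

def idx : I → ℕ
  | .inl r => r
  | .inr (s, k) => 8 + 2 * k + s

def M : Matrix I I ℤ :=
  Matrix.fromBlocks CartanMatrix.E₈ 0 0 (Matrix.blockDiagonal fun _ : Fin 10 => !![0, 1; 1, 0])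

theorem h1 : ∀ a b : Fin 28, ∑ t : Fin 70, (if WL.getD t 0 = 0 then 0 else
    WL.getD t 0 * sg (pairN.getD a [] ++ pairN.getD b [] ++ quadN.getD t [])) = ent GrL a b := by
  decide +kernel

theorem h2 : ∀ (a : Fin 28) (j : I), ∑ b : Fin 28, ent GrL a b * ent PL b (idx j) = ent RL a (idx j) := by
  decide +kernel

theorem h3 : ∀ i j : I, ∑ a : Fin 28, ent PL a (idx i) * ent RL a (idx j) = M i j := by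
  decide +kernel

theorem h4 : ∀ a b : Fin 28, ∑ i : I, ent QL (idx i) a * ent PL b (idx i) = if a = b then 1 else 0 := by
  decide +kernel

theorem h5 : ∀ a : Fin 28, List.ofFn (fun i => (pair a i : ℕ)) = pairN.getD a [] := by
  decide +kernel

theorem h6 : ∀ t : Fin 70, List.ofFn (fun i => (quad t i : ℕ)) = quadN.getD t [] := by
  decide +kernel

theorem h7 : ∀ x y : Fin 8, x < y → ∃ a, pair a 0 = x ∧ pair a 1 = y := by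
  decide +kernel

end Pool.Agent.H2.E8a
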