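import Mathlib

/-! Harborth's bound for `(ℤ/2^k)^d` together with the structure of the extremal sequences. -/

namespace Pool.Agent.H2.Egz

open Multiset

variable {d : ℕ}

abbrev V (d : ℕ) := Fin d → ℤ
abbrev E (d : ℕ) := Fin d → ZMod 2

def par (x : V d) : E d := fun i => (x i : ZMod 2)

def Free (n : ℕ) (A : Multiset (V d)) : Prop :=
  ∀ B ≤ A, card B = n → ¬ ∀ i, (n : ℤ) ∣ B.sum i

lemma par_eq_iff {x y : V d} : par x = par y ↔ ∀ i, (2 : ℤ) ∣ x i - y i := by
  unfold par
  rw [funext_iff]
  refine forall_congr' fun i => ?_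
  rw [eq_comm, ZMod.intCast_eq_intCast_iff_dvd_sub]
  simp

lemma le_map {α β : Type*} (f : α → β) (P : Multiset α) :
    ∀ B ≤ P.map f, ∃ Q ≤ P, Q.map f = B := by
  classical
  induction P using Multiset.induction_on with
  | empty => intro B h; exact ⟨0, le_rfl, by simpa [eq_comm] using h⟩
  | cons a P ih =>
    intro B h
    rw [map_cons] at h
    by_cases ha : f a ∈ B
    · obtain ⟨Q, hQ, e⟩ := ih (B.erase (f a)) (erase_le_iff_le_cons.2 h)
      exact ⟨a ::ₘ Q, cons_le_cons a hQ, by rw [map_cons, e, cons_erase ha]⟩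
    · obtain ⟨Q, hQ, e⟩ := ih B ((le_cons_of_notMem ha).1 h)
      exact ⟨Q, hQ.trans (le_cons_self _ _), e⟩

lemma exists_le_card {α : Type*} (A : Multiset α) {n : ℕ} (h : n ≤ card A) :
    ∃ B ≤ A, card B = n := by
  have : 0 < card (powersetCard n A) := by rw [card_powersetCard]; exact Nat.choose_pos h
  obtain ⟨B, hB⟩ := card_pos_iff_exists_mem.1 this
  exact ⟨B, mem_powersetCard.1 hB⟩

lemma pairing (A : Multiset (V d)) : ∃ (P : Multiset (V d × V d)) (T : Multiset (V d)),
    A = P.map Prod.fst + P.map Prod.snd + T ∧ (∀ p ∈ P, par p.1 = par p.2) ∧ (T.map par).Nodup := by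
  classical
  induction A using Multiset.induction_on with
  | empty => exact ⟨0, 0, by simp, by simp, by simp⟩
  | cons a A ih =>
    obtain ⟨P, T, rfl, hP, hT⟩ := ih
    by_cases h : par a ∈ T.map par
    · obtain ⟨b, hb, e⟩ := mem_map.1 h
      obtain ⟨T, rfl⟩ := exists_cons_of_mem hb
      refine ⟨(a, b) ::ₘ P, T, ?_, ?_, ?_⟩
      · rw [map_cons, map_cons]; simp only [← singleton_add]; abel
      · intro p hp
        rcases mem_cons.1 hp with rfl | hp
        · exact e.symm
        · exact hP p hp
      · rw [map_cons] at hT; exact (nodup_cons.1 hT).2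
    · refine ⟨P, a ::ₘ T, ?_, hP, ?_⟩
      · simp only [← singleton_add]; abel
      · rw [map_cons]; exact nodup_cons.2 ⟨h, hT⟩

def half (p : V d × V d) : V d := fun i => (p.1 i + p.2 i) / 2

lemma two_half {p : V d × V d} (h : par p.1 = par p.2) (i : Fin d) :
    2 * half p i = p.1 i + p.2 i := by
  have := par_eq_iff.1 h i
  unfold half
  omega

lemma sum_half (Q : Multiset (V d × V d)) (h : ∀ p ∈ Q, par p.1 = par p.2) (i : Fin d) :
    (Q.map Prod.fst + Q.map Prod.snd).sum i = 2 * (Q.map half).sum i := by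
  induction Q using Multiset.induction_on with
  | empty => simp
  | cons a Q ih =>
    have h1 := ih fun p hp => h p (mem_cons_of_mem hp)
    have h2 := two_half (h a (mem_cons_self _ _)) i
    simp only [map_cons, sum_add, sum_cons, Pi.add_apply] at h1 ⊢
    linarith

lemma Free.half {m : ℕ} {P : Multiset (V d × V d)} {T : Multiset (V d)}
    (h : Free (2 * m) (P.map Prod.fst + P.map Prod.snd + T)) (hP : ∀ p ∈ P, par p.1 = par p.2) :
    Free m (P.map half) := by
  intro B hB hc hs
  obtain ⟨Q, hQ, rfl⟩ := le_map _ _ B hB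
  refine h (Q.map Prod.fst + Q.map Prod.snd)
    ((add_le_add (map_le_map hQ) (map_le_map hQ)).trans (le_add_right _ _)) ?_ fun i => ?_
  · simp at hc ⊢; omega
  · rw [sum_half Q fun p hp => hP p (mem_of_le hQ hp)]
    push_cast
    exact mul_dvd_mul_left 2 (hs i)

lemma card_E : Fintype.card (E d) = 2 ^ d := by simp [ZMod.card]

lemma card_T {T : Multiset (V d)} (hT : (T.map par).Nodup) : card T ≤ 2 ^ d := by
  have : card (T.map par) ≤ Fintype.card (E d) :=
    Finset.card_le_univ (⟨T.map par, hT⟩ : Finset (E d))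
  rwa [card_map, card_E] at this

lemma cover_T {T : Multiset (V d)} (hT : (T.map par).Nodup) (hc : card T = 2 ^ d) (ε : E d) :
    ∃ z ∈ T, par z = ε := by
  have : (⟨T.map par, hT⟩ : Finset (E d)) = Finset.univ :=
    Finset.eq_univ_of_card _ (by rw [card_E, ← hc]; exact card_map _ _)
  have h : ε ∈ (⟨T.map par, hT⟩ : Finset (E d)) := this ▸ Finset.mem_univ _
  exact mem_map.1 h

lemma sum_dvd {n : ℤ} {x : V d} (B : Multiset (V d)) (h : ∀ y ∈ B, ∀ i, n ∣ y i - x i) (i : Fin d) :
    n ∣ B.sum i - card B * x i := by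
  induction B using Multiset.induction_on with
  | empty => simp
  | cons a B ih =>
    have h1 := ih fun p hp => h p (mem_cons_of_mem hp)
    have h2 := h a (mem_cons_self _ _) i
    simp only [sum_cons, Pi.add_apply, card_cons]
    rw [show a i + B.sum i - ((card B + 1 : ℕ) : ℤ) * x i =
      (B.sum i - card B * x i) + (a i - x i) by push_cast; ring]
    exact dvd_add h1 h2

theorem harb (k : ℕ) : ∀ A : Multiset (V d), Free (2 ^ k) A →
    card A ≤ (2 ^ k - 1) * 2 ^ d ∧ (card A = (2 ^ k - 1) * 2 ^ d →
      (∀ x ∈ A, ∀ y ∈ A, par x = par y → ∀ i, ((2 ^ k : ℕ) : ℤ) ∣ x i - y i) ∧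
      ∀ ε, count ε (A.map par) = 2 ^ k - 1) := by
  classical
  induction k with
  | zero =>
    intro A hA
    have : A = 0 := by
      by_contra h
      obtain ⟨x, hx⟩ := exists_mem_of_ne_zero h
      exact hA {x} (by simpa using hx) (by simp) (by simp)
    subst this
    simp
  | succ k ih =>
    intro A hA
    rw [pow_succ'] at hA ⊢
    obtain ⟨m, hm⟩ : ∃ m, 2 ^ k = m + 1 := ⟨2 ^ k - 1, by have := Nat.one_le_two_pow (n := k); omega⟩
    have e1 : (2 * 2 ^ k - 1) * 2 ^ d = 2 * ((2 ^ k - 1) * 2 ^ d) + 2 ^ d := by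
      rw [hm, show 2 * (m + 1) - 1 = 2 * m + 1 by omega]; simp; ring
    have hc : ∀ (P : Multiset (V d × V d)) (T : Multiset (V d)),
        card (P.map Prod.fst + P.map Prod.snd + T) = 2 * card (P.map half) + card T := by
      intro P T; simp; ring
    constructor
    · obtain ⟨P, T, rfl, hP, hT⟩ := pairing A
      have h1 := (ih _ (hA.half hP)).1
      have h2 := card_T hT
      rw [hc, e1]; omega
    intro hcard
    have hcong : ∀ x ∈ A, ∀ y ∈ A, par x = par y → ∀ i, ((2 * 2 ^ k : ℕ) : ℤ) ∣ x i - y i := by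
      intro x hx y hy hxy
      by_cases hne : x = y
      · subst hne; simp
      obtain ⟨A1, rfl⟩ := exists_cons_of_mem hx
      obtain ⟨A0, rfl⟩ := exists_cons_of_mem ((mem_cons.1 hy).resolve_left (Ne.symm hne))
      obtain ⟨P, T, rfl, hP, hT⟩ := pairing A0
      have hP' : ∀ a b : V d, par a = par b → ∀ p ∈ (a, b) ::ₘ P, par p.1 = par p.2 := by
        intro a b hab p hp
        rcases mem_cons.1 hp with rfl | hp
        · exact hab
        · exact hP p hp
      have d0 : x ::ₘ y ::ₘ (P.map Prod.fst + P.map Prod.snd + T) =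
          ((x, y) ::ₘ P).map Prod.fst + ((x, y) ::ₘ P).map Prod.snd + T := by
        rw [map_cons, map_cons]; simp only [← singleton_add]; abel
      have h1 := (ih _ ((d0 ▸ hA).half (hP' x y hxy))).1
      have h2 := card_T hT
      have h3 := hcard
      rw [d0, hc, e1] at h3
      have hTc : card T = 2 ^ d := by omega
      have hPc : card (((x, y) ::ₘ P).map half) = (2 ^ k - 1) * 2 ^ d := by omega
      obtain ⟨z, hz, hzx⟩ := cover_T hT hTc (par x)
      obtain ⟨T, rfl⟩ := exists_cons_of_mem hz
      have d1 : x ::ₘ y ::ₘ (P.map Prod.fst + P.map Prod.snd + z ::ₘ T) =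
          ((x, z) ::ₘ P).map Prod.fst + ((x, z) ::ₘ P).map Prod.snd + y ::ₘ T := by
        rw [map_cons, map_cons]; simp only [← singleton_add]; abel
      have d2 : x ::ₘ y ::ₘ (P.map Prod.fst + P.map Prod.snd + z ::ₘ T) =
          ((y, z) ::ₘ P).map Prod.fst + ((y, z) ::ₘ P).map Prod.snd + x ::ₘ T := by
        rw [map_cons, map_cons]; simp only [← singleton_add]; abel
      have hxz : par x = par z := hzx.symm
      have hyz : par y = par z := hxy.symm.trans hxz
      have s1 := (ih _ ((d1 ▸ hA).half (hP' x z hxz))).2 (by simpa using hPc)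
      have s2 := (ih _ ((d2 ▸ hA).half (hP' y z hyz))).2 (by simpa using hPc)
      have hpar : par (half (x, z)) = par (half (y, z)) := by
        have a1 := s1.2 (par (half (x, z)))
        have a2 := s2.2 (par (half (x, z)))
        simp only [map_cons, count_cons, if_true] at a1 a2
        by_contra hc'
        rw [if_neg hc'] at a2
        omega
      have hdiv : ∀ i, ((2 ^ k : ℕ) : ℤ) ∣ half (x, z) i - half (y, z) i := by
        by_cases hw : par (half (x, z)) ∈ (P.map half).map par
        · obtain ⟨w, hw, e⟩ := mem_map.1 hw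
          intro i
          have b1 := s1.1 (half (x, z)) (by simp) w (by rw [map_cons]; exact mem_cons_of_mem hw)
            e.symm i
          have b2 := s2.1 (half (y, z)) (by simp) w (by rw [map_cons]; exact mem_cons_of_mem hw)
            (hpar.symm.trans e.symm) i
          rw [show half (x, z) i - half (y, z) i =
            (half (x, z) i - w i) - (half (y, z) i - w i) by ring]
          exact dvd_sub b1 b2
        · have a1 := s1.2 (par (half (x, z)))
          rw [map_cons, map_cons, count_cons_self, count_eq_zero_of_notMem hw] at a1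
          rw [show 2 ^ k = 2 by omega]
          exact par_eq_iff.1 hpar
      intro i
      have t1 := two_half (p := (x, z)) hxz i
      have t2 := two_half (p := (y, z)) hyz i
      have := mul_dvd_mul_left 2 (hdiv i)
      push_cast at this ⊢
      simp only at t1 t2
      rwa [show x i - y i = 2 * (half (x, z) i - half (y, z) i) by linarith]
    refine ⟨hcong, ?_⟩
    have hle : ∀ ε, count ε (A.map par) ≤ 2 * 2 ^ k - 1 := by
      intro ε
      by_contra hlt
      rw [count_map] at hlt
      obtain ⟨B, hB, hBc⟩ := exists_le_card (A.filter fun a => ε = par a) (n := 2 * 2 ^ k) (by omega)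
      obtain ⟨x, hx⟩ := card_pos_iff_exists_mem.1 (show 0 < card B by omega)
      refine hA B (hB.trans (filter_le _ _)) hBc fun i => ?_
      have hx' := mem_filter.1 (mem_of_le hB hx)
      have := sum_dvd (n := ((2 * 2 ^ k : ℕ) : ℤ)) (x := x) B (fun y hy => by
        have hy' := mem_filter.1 (mem_of_le hB hy)
        exact hcong y hy'.1 x hx'.1 (hy'.2.symm.trans hx'.2)) i
      rw [hBc] at this
      exact (dvd_sub_left (dvd_mul_right _ _)).1 this
    have hsum : ∑ ε : E d, count ε (A.map par) = ∑ _ε : E d, (2 * 2 ^ k - 1) := by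
      rw [sum_count_eq_card (by simp), card_map, hcard, Finset.sum_const, Finset.card_univ, card_E]
      simp [mul_comm]
    intro ε
    exact (Finset.sum_eq_sum_iff_of_le fun ε _ => hle ε).1 hsum ε (Finset.mem_univ _)

lemma repr_sum (t : E d → V d) (ht : ∀ ε, par (t ε) = ε) (j : ℕ) : ∀ g : V d,
    ∃ c : E d → ℕ, ∑ ε, c ε = 2 ^ j - 1 ∧ ∀ i, (2 ^ j : ℤ) ∣ ∑ ε, c ε * t ε i - g i := by
  classical
  induction j with
  | zero => intro g; exact ⟨0, by simp, by simp⟩
  | succ j ih =>
    intro g
    have h := par_eq_iff.1 (ht (par g)).symm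
    obtain ⟨c, h1, h2⟩ := ih fun i => (g i - t (par g) i) / 2
    refine ⟨fun ε => 2 * c ε + if ε = par g then 1 else 0, ?_, fun i => ?_⟩
    · rw [Finset.sum_add_distrib, ← Finset.mul_sum, h1]
      have := Nat.one_le_two_pow (n := j)
      simp [pow_succ]; omega
    · have e : ∑ ε, ((2 * c ε + if ε = par g then 1 else 0 : ℕ) : ℤ) * t ε i =
          2 * ∑ ε, (c ε : ℤ) * t ε i + t (par g) i := by
        push_cast
        simp only [add_mul, Finset.sum_add_distrib, Finset.mul_sum, mul_assoc, ite_mul]
        simp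
      rw [e, pow_succ']
      have := mul_dvd_mul_left 2 (h2 i)
      have h3 := Int.mul_ediv_cancel' (h i)
      rwa [show 2 * ∑ ε, (c ε : ℤ) * t ε i + t (par g) i - g i =
        2 * (∑ ε, (c ε : ℤ) * t ε i - (g i - t (par g) i) / 2) by linarith]

end Pool.Agent.H2.Egz
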