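import Mathlib

set_option autoImplicit false

namespace Pool.Agent.H2.FIMod

open Filter Topology Function

universe u v

/-- tensor powers of a free ultrafilter -/
noncomputable def UU : (M : ℕ) → Ultrafilter (Fin M → ℕ)
  | 0 => pure Fin.elim0
  | M + 1 => (hyperfilter ℕ).bind fun x => (UU M).map (Fin.cons x)

lemma mem_UU {M : ℕ} {s : Set (Fin (M + 1) → ℕ)} :
    s ∈ UU (M + 1) ↔ {x | {y | (Fin.cons x y : Fin (M + 1) → ℕ) ∈ s} ∈ UU M} ∈ hyperfilter ℕ :=
  Iff.rfl

lemma UU_mono (M : ℕ) : ∀ x, {y | StrictMono y ∧ ∀ i, x < y i} ∈ UU M := by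
  induction M with
  | zero => intro x; exact ⟨fun i => i.elim0, fun i => i.elim0⟩
  | succ M ih =>
    intro x
    rw [mem_UU]
    filter_upwards [Nat.hyperfilter_le_atTop (eventually_gt_atTop x)] with z hz
    filter_upwards [ih z] with y hy
    refine ⟨Fin.strictMono_iff_lt_succ.2 fun i => ?_, fun i => ?_⟩
    · cases M with
      | zero => exact i.elim0
      | succ M =>
        induction i using Fin.cases with
        | zero => simpa using hy.2 0
        | succ i => simpa [← Fin.succ_castSucc] using hy.1 i.castSucc_lt_succ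
    · induction i using Fin.cases with
      | zero => simpa using hz
      | succ i => simpa using hz.trans (hy.2 i)

lemma UU_map (M : ℕ) : ∀ (s : ℕ) (e : Fin s → Fin M), StrictMono e → (UU M).map (· ∘ e) = UU s := by
  have zero : ∀ F G : Ultrafilter (Fin 0 → ℕ), F = G := by
    intro F G
    obtain ⟨a, rfl⟩ := F.eq_pure_of_finite
    obtain ⟨b, rfl⟩ := G.eq_pure_of_finite
    rw [Subsingleton.elim a b]
  induction M with
  | zero =>
    intro s e _
    cases s with
    | zero => exact zero _ _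
    | succ s => exact (e 0).elim0
  | succ M ih =>
    intro s e he
    cases s with
    | zero => exact zero _ _
    | succ s =>
      by_cases h : e 0 = 0
      · have ne : ∀ i : Fin s, e i.succ ≠ 0 := fun i => (h ▸ he (Fin.succ_pos i)).ne'
        have := ih s (fun i => (e i.succ).pred (ne i)) fun i j hij =>
          Fin.pred_lt_pred_iff.2 (he (Fin.succ_lt_succ_iff.2 hij))
        ext t
        rw [Ultrafilter.mem_map, mem_UU, mem_UU, ← this]
        have e2 : ∀ (x : ℕ) (y : Fin M → ℕ), (Fin.cons x y : Fin (M + 1) → ℕ) ∘ e =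
            Fin.cons x (y ∘ fun i => (e i.succ).pred (ne i)) := by
          intro x y
          funext i
          induction i using Fin.cases with
          | zero => simp [h]
          | succ i =>
            simp only [comp, Fin.cons_succ]
            conv_lhs => rw [← Fin.succ_pred (e i.succ) (ne i), Fin.cons_succ]
        simp only [Set.mem_preimage, e2, Ultrafilter.mem_map, Set.preimage_setOf_eq]
      · have ne : ∀ i, e i ≠ 0 := fun i k => h (le_antisymm (k ▸ he.monotone (Fin.zero_le i))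
          (Fin.zero_le _))
        have := ih (s + 1) (fun i => (e i).pred (ne i)) fun i j hij =>
          Fin.pred_lt_pred_iff.2 (he hij)
        ext t
        rw [Ultrafilter.mem_map, mem_UU, ← this]
        have e2 : ∀ (x : ℕ) (y : Fin M → ℕ), (Fin.cons x y : Fin (M + 1) → ℕ) ∘ e =
            y ∘ fun i => (e i).pred (ne i) := by
          intro x y
          funext i
          simp only [comp]
          conv_lhs => rw [← Fin.succ_pred (e i) (ne i), Fin.cons_succ]
        simp only [Set.mem_preimage, e2, Ultrafilter.mem_map]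
        exact eventually_const

lemma UU_type {m M M' : ℕ} {h : Fin m → Fin M} {h' : Fin m → Fin M'} (hi : Injective h)
    (o : ∀ i j, h i < h j → h' i < h' j) : (UU M).map (· ∘ h) = (UU M').map (· ∘ h') := by
  have a1 : StrictMono (h ∘ Tuple.sort h) :=
    (Tuple.monotone_sort h).strictMono_of_injective (hi.comp (Tuple.sort h).injective)
  have a2 : StrictMono (h' ∘ Tuple.sort h) := fun i j hij => o _ _ (a1 hij)
  have := congrArg (Ultrafilter.map (· ∘ (Tuple.sort h).symm))
    ((UU_map M m _ a1).trans (UU_map M' m _ a2).symm)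
  rw [Ultrafilter.map_map, Ultrafilter.map_map] at this
  convert this using 2 <;> funext y i <;> simp

/-- a bound for an injection -/
def bd {m : ℕ} (h : Fin m ↪ ℕ) : ℕ := ∑ i, h i + 1

lemma lt_bd {m : ℕ} (h : Fin m ↪ ℕ) (i : Fin m) : h i < bd h :=
  Nat.lt_succ_of_le (Finset.single_le_sum (f := h) (fun _ _ => Nat.zero_le _) (Finset.mem_univ i))

/-- corestriction -/
def cod {m : ℕ} (h : Fin m ↪ ℕ) (M : ℕ) (hM : ∀ i, h i < M) : Fin m ↪ Fin M :=
  ⟨fun i => ⟨h i, hM i⟩, fun _ _ e => h.injective (congrArg Fin.val e)⟩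

/-- the ultrafilter of tuples with the order type of `h` -/
noncomputable def OO {m : ℕ} (h : Fin m ↪ ℕ) : Ultrafilter (Fin m → ℕ) :=
  (UU (bd h)).map (· ∘ cod h _ (lt_bd h))

lemma OO_type {m : ℕ} {h h' : Fin m ↪ ℕ} (o : ∀ i j, h i < h j → h' i < h' j) : OO h = OO h' :=
  UU_type (cod h _ _).injective o

lemma OO_comp {m m' : ℕ} (f : Fin m ↪ Fin m') (h : Fin m' ↪ ℕ) :
    OO (f.trans h) = (OO h).map (· ∘ f) := by
  rw [OO, OO, Ultrafilter.map_map]
  exact UU_type (h' := cod h _ (lt_bd h) ∘ f) (cod _ _ _).injective fun _ _ e => e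

lemma OO_inj {m : ℕ} (h : Fin m ↪ ℕ) : {z | Injective z} ∈ OO h := by
  rw [OO, Ultrafilter.mem_map]
  filter_upwards [UU_mono (bd h) 0] with y hy
  exact hy.1.injective.comp (cod h _ _).injective

/-- same type over the first `a` points -/
def Same (a : ℕ) {m : ℕ} (h h' : Fin m → ℕ) : Prop :=
  (∀ i, h i < a ∨ h' i < a → h i = h' i) ∧ ∀ i j, a ≤ h i → h i < h j → h' i < h' j

lemma Same.order {a m : ℕ} {h h' : Fin m → ℕ} (s : Same a h h') (i j : Fin m) (e : h i < h j) :
    h' i < h' j := by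
  by_cases c : a ≤ h i
  · exact s.2 i j c e
  · have a1 := s.1 i (Or.inl (by omega))
    have a2 := s.1 j
    omega

/-- an FI-module, unbundled -/
structure Act (k : Type u) [Field k] (V : ℕ → Type v) [∀ n, AddCommGroup (V n)]
    [∀ n, Module k (V n)] where
  mp : ∀ {m n : ℕ}, (Fin m ↪ Fin n) → V m →ₗ[k] V n
  mp_id : ∀ (n : ℕ) (x : V n), mp (Embedding.refl _) x = x
  mp_comp : ∀ {l m n : ℕ} (f : Fin l ↪ Fin m) (g : Fin m ↪ Fin n) (x : V l),
    mp (f.trans g) x = mp g (mp f x)

variable {k : Type u} [Field k] {V : ℕ → Type v} [∀ n, AddCommGroup (V n)] [∀ n, Module k (V n)]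
  (A : Act k V)

/-- standard transition maps -/
def std (i j : ℕ) (h : i ≤ j) : V i →ₗ[k] V j := A.mp (Fin.castLEEmb h)

instance : DirectedSystem V fun i j h => std A i j h where
  map_self _ x := A.mp_id _ x
  map_map _ _ _ _ _ x := (A.mp_comp _ _ x).symm

/-- the value on a countable set -/
abbrev WW := Module.DirectLimit V (std A)

noncomputable def act {m : ℕ} (h : Fin m ↪ ℕ) : V m →ₗ[k] WW A :=
  Module.DirectLimit.of k ℕ V (std A) (bd h) ∘ₗ A.mp (cod h _ (lt_bd h))

lemma act_eq {m : ℕ} (h : Fin m ↪ ℕ) (M : ℕ) (hM : ∀ i, h i < M) (x : V m) :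
    act A h x = Module.DirectLimit.of k ℕ V (std A) M (A.mp (cod h M hM) x) := by
  rw [act, LinearMap.comp_apply, ← Module.DirectLimit.of_f (hij := le_max_left (bd h) M),
    ← Module.DirectLimit.of_f (i := M) (hij := le_max_right (bd h) M), std, std, ← A.mp_comp,
    ← A.mp_comp]
  rfl

lemma act_comp {m m' : ℕ} (f : Fin m ↪ Fin m') (h : Fin m' ↪ ℕ) (x : V m) :
    act A (f.trans h) x = act A h (A.mp f x) := by
  rw [act_eq A _ (bd h) fun i => lt_bd h (f i), act, LinearMap.comp_apply, ← A.mp_comp]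
  rfl

open Classical in
noncomputable def act' {m : ℕ} (z : Fin m → ℕ) : V m →ₗ[k] WW A :=
  if hz : Injective z then act A ⟨z, hz⟩ else 0

/-- move the points beyond `a` -/
def mv (a : ℕ) {m : ℕ} (h : Fin m ↪ ℕ) (z : Fin m → ℕ) : Fin m → ℕ :=
  fun i => if h i < a then h i else a + z i

lemma mv_inj (a : ℕ) {m : ℕ} (h : Fin m ↪ ℕ) {z : Fin m → ℕ} (hz : Injective z) :
    Injective (mv a h z) := by
  intro i j e
  simp only [mv] at e
  split_ifs at e
  · exact h.injective e
  · omega
  · omega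
  · exact hz (by omega)

/-- averaging a character -/
noncomputable def av (χ : WW A →+ UnitAddCircle) (a : ℕ) {m : ℕ} (h : Fin m ↪ ℕ) :
    V m →+ UnitAddCircle :=
  AddMonoidHom.mk' (fun x => ((OO h).map fun z => χ (act' A (mv a h z) x)).lim) fun x y => by
    refine tendsto_nhds_unique (l := (OO h).toFilter) (f := fun z => χ (act' A (mv a h z) (x + y)))
      (Ultrafilter.le_nhds_lim ((OO h).map fun z => χ (act' A (mv a h z) (x + y)))) ?_
    simp only [map_add]
    exact Tendsto.add (Ultrafilter.le_nhds_lim ((OO h).map fun z => χ (act' A (mv a h z) x)))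
      (Ultrafilter.le_nhds_lim ((OO h).map fun z => χ (act' A (mv a h z) y)))

lemma av_same (χ : WW A →+ UnitAddCircle) {a m : ℕ} {h h' : Fin m ↪ ℕ} (s : Same a h h')
    (x : V m) : av A χ a h x = av A χ a h' x := by
  have e : mv a h = mv a h' := by
    funext z i
    have := s.1 i
    simp only [mv]
    split_ifs <;> omega
  simp only [av, AddMonoidHom.mk'_apply, OO_type s.order, e]

lemma av_comp (χ : WW A →+ UnitAddCircle) (a : ℕ) {m m' : ℕ} (f : Fin m ↪ Fin m') (h : Fin m' ↪ ℕ)
    (x : V m) : av A χ a (f.trans h) x = av A χ a h (A.mp f x) := by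
  simp only [av, AddMonoidHom.mk'_apply, OO_comp, Ultrafilter.map_map]
  congr 1
  refine Ultrafilter.coe_injective (Filter.map_congr ?_)
  filter_upwards [OO_inj h] with z hz
  have a1 := mv_inj a h hz
  have a2 := mv_inj a (f.trans h) (hz.comp f.injective)
  simp only [comp, act', dif_pos a1]
  rw [dif_pos a2, ← act_comp]
  rfl

/-- the module of symbols -/
abbrev BB (V : ℕ → Type v) [∀ n, AddCommGroup (V n)] :=
  DirectSum (Σ m, Fin m ↪ ℕ) fun p => V p.1

open Classical in
noncomputable def sy (k : Type u) [Field k] [∀ n, Module k (V n)] {m : ℕ} (h : Fin m ↪ ℕ) :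
    V m →ₗ[k] BB V := DirectSum.lof k (Σ m, Fin m ↪ ℕ) (fun p => V p.1) ⟨m, h⟩

/-- the relations -/
def rel (a : ℕ) : Set (BB V) :=
  {b | (∃ (m m' : ℕ) (f : Fin m ↪ Fin m') (h : Fin m' ↪ ℕ) (x : V m),
      b = sy k (f.trans h) x - sy k h (A.mp f x)) ∨
    ∃ (m : ℕ) (h h' : Fin m ↪ ℕ) (x : V m), Same a h h' ∧ b = sy k h x - sy k h' x}

/-- coinvariants -/
abbrev FF (a : ℕ) := BB V ⧸ Submodule.span k (rel A a)

noncomputable def cl (a : ℕ) {m : ℕ} (h : Fin m ↪ ℕ) : V m →ₗ[k] FF A a :=
  (Submodule.span k (rel A a)).mkQ ∘ₗ sy k h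

lemma cl_comp (a : ℕ) {m m' : ℕ} (f : Fin m ↪ Fin m') (h : Fin m' ↪ ℕ) (x : V m) :
    cl A a (f.trans h) x = cl A a h (A.mp f x) :=
  (Submodule.Quotient.eq _).2 (Submodule.subset_span (Or.inl ⟨_, _, f, h, x, rfl⟩))

lemma cl_same {a m : ℕ} {h h' : Fin m ↪ ℕ} (s : Same a h h') (x : V m) :
    cl A a h x = cl A a h' x :=
  (Submodule.Quotient.eq _).2 (Submodule.subset_span (Or.inr ⟨_, h, h', x, s, rfl⟩))

lemma exists_char {B : Type v} [AddCommGroup B] {b : B} (hb : b ≠ 0) :
    ∃ χ : B →+ UnitAddCircle, χ b ≠ 0 := by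
  obtain ⟨c, hc⟩ := CharacterModule.exists_character_apply_ne_zero_of_ne_zero hb
  let j : AddCircle (1 : ℚ) →+ UnitAddCircle := QuotientAddGroup.map _ _
    (Rat.castHom ℝ).toAddMonoidHom (by
      rintro _ ⟨n, rfl⟩
      exact ⟨n, by simp⟩)
  refine ⟨j.comp c, fun e => hc ?_⟩
  change j (c b) = 0 at e
  obtain ⟨q, hq⟩ := QuotientAddGroup.mk_surjective (c b)
  rw [← hq] at e ⊢
  obtain ⟨n, hn⟩ := (QuotientAddGroup.eq_zero_iff (q : ℝ)).1 e
  refine (QuotientAddGroup.eq_zero_iff q).2 ⟨n, ?_⟩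
  simp only [zsmul_eq_mul, mul_one] at hn ⊢
  exact_mod_cast hn

open Classical in
lemma cl_ne_zero (tf : ∀ {m n : ℕ} (f : Fin m ↪ Fin n), Injective (A.mp f)) {a : ℕ} {x : V a}
    (hx : x ≠ 0) : cl A a Fin.valEmbedding x ≠ 0 := by
  have h0 : act A Fin.valEmbedding x ≠ 0 := by
    intro e
    obtain ⟨j, hj, e2⟩ := Module.DirectLimit.of.zero_exact e
    exact hx (tf _ ((tf _ (e2.trans (map_zero _).symm)).trans (map_zero _).symm))
  obtain ⟨χ, hχ⟩ := exists_char h0
  let L : BB V →+ UnitAddCircle := DirectSum.toAddMonoid fun p => av A χ a p.2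
  have hL : ∀ {m : ℕ} (h : Fin m ↪ ℕ) (y : V m), L (sy k h y) = av A χ a h y := fun h y =>
    DirectSum.toAddMonoid_of (fun p : Σ m, Fin m ↪ ℕ => av A χ a p.2) ⟨_, h⟩ y
  have key : ∀ b ∈ Submodule.span k (rel A a), ∀ c : k, L (c • b) = 0 := by
    intro b hb
    induction hb using Submodule.span_induction with
    | mem b hb =>
      intro c
      rcases hb with ⟨m, m', f, h, y, rfl⟩ | ⟨m, h, h', y, s, rfl⟩
      · rw [smul_sub, ← map_smul, ← map_smul, ← map_smul, map_sub, hL, hL, av_comp, sub_self]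
      · rw [smul_sub, ← map_smul, ← map_smul, map_sub, hL, hL, av_same A χ s, sub_self]
    | zero => simp
    | add b b' _ _ h1 h2 => intro c; rw [smul_add, map_add, h1, h2, add_zero]
    | smul c' b _ h => intro c; rw [smul_smul, h]
  intro e
  have := key _ ((Submodule.Quotient.mk_eq_zero _).1 e) 1
  rw [one_smul, hL] at this
  refine hχ (tendsto_nhds_unique (l := (OO (Fin.valEmbedding (n := a))).toFilter)
    tendsto_const_nhds ?_)
  have e2 : ∀ z, act' A (mv a Fin.valEmbedding z) x = act A Fin.valEmbedding x := by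
    intro z
    have : mv a Fin.valEmbedding z = Fin.valEmbedding := funext fun i => by simp [mv]
    rw [this, act', dif_pos Fin.valEmbedding.injective]
    rfl
  rw [← this]
  exact Tendsto.congr (fun z => congrArg χ (e2 z))
    (Ultrafilter.le_nhds_lim ((OO _).map fun z => χ (act' A (mv a Fin.valEmbedding z) x)))

open Classical in
lemma exists_tr {a b : ℕ} (e : ℕ ↪ ℕ) (h1 : ∀ x, e x < b → x < a)
    (h2 : ∀ x y, b ≤ e x → e x < e y → (x < a ∧ y < a) ∨ (x < a ∧ a ≤ y ∧ ∀ z, a ≤ z → e x < e z) ∨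
      (a ≤ x ∧ x < y ∧ ∀ z w, a ≤ z → z < w → e z < e w)) :
    ∃ T : FF A a →ₗ[k] FF A b, ∀ {m : ℕ} (h : Fin m ↪ ℕ) (x : V m),
      T (cl A a h x) = cl A b (h.trans e) x := by
  let L : BB V →ₗ[k] FF A b := DirectSum.toModule k _ _ fun p => cl A b (p.2.trans e)
  have hL : ∀ {m : ℕ} (h : Fin m ↪ ℕ) (y : V m), L (sy k h y) = cl A b (h.trans e) y := fun h y =>
    DirectSum.toModule_lof k (φ := fun p : Σ m, Fin m ↪ ℕ => cl A b (p.2.trans e)) ⟨_, h⟩ y
  refine ⟨(Submodule.span k (rel A a)).liftQ L (Submodule.span_le.2 ?_), fun h x => hL h x⟩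
  rintro _ (⟨m, m', f, h, y, rfl⟩ | ⟨m, h, h', y, s, rfl⟩)
  · rw [SetLike.mem_coe, LinearMap.mem_ker, map_sub, hL, hL, ← cl_comp, sub_eq_zero]; rfl
  · rw [SetLike.mem_coe, LinearMap.mem_ker, map_sub, hL, hL, sub_eq_zero]
    refine cl_same A ⟨fun i hi => ?_, fun i j hi hij => ?_⟩ y
    · exact congrArg e (s.1 i (hi.imp (h1 _) (h1 _)))
    · show e (h' i) < e (h' j)
      have si := s.1 i
      have sj := s.1 j
      rcases h2 _ _ hi hij with c | c | c
      · rw [← si (Or.inl c.1), ← sj (Or.inl c.2)]; exact hij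
      · rw [← si (Or.inl c.1)]; exact c.2.2 _ (by omega)
      · exact c.2.2 _ _ (by omega) (s.2 i j c.1 c.2.1)

lemma exists_small (N : ℕ) {m : ℕ} (g : Fin m ↪ ℕ) :
    ∃ g0 : Fin m ↪ Fin (N + m), Same N g (g0.trans Fin.valEmbedding) := by
  classical
  let r : Fin m → ℕ := fun i => if g i < N then g i else N + (Finset.univ.filter (g · < g i)).card
  have mono : ∀ i j, g i < g j → r i < r j := by
    intro i j hij
    have : (Finset.univ.filter (g · < g i)).card < (Finset.univ.filter (g · < g j)).card :=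
      Finset.card_lt_card ⟨fun l hl => by simp at hl ⊢; omega, fun hs => by
        have := hs (Finset.mem_filter.2 ⟨Finset.mem_univ i, hij⟩)
        simp at this⟩
    simp only [r]
    split_ifs <;> omega
  have bd : ∀ i, r i < N + m := by
    intro i
    have : (Finset.univ.filter (g · < g i)).card < (Finset.univ : Finset (Fin m)).card :=
      Finset.card_lt_card ⟨Finset.filter_subset _ _, fun hs => by
        have := hs (Finset.mem_univ i)
        simp at this⟩
    simp only [r, Finset.card_univ, Fintype.card_fin] at *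
    split_ifs <;> omega
  refine ⟨⟨fun i => ⟨r i, bd i⟩, fun i j e => ?_⟩, fun i hi => ?_, fun i j _ e => mono i j e⟩
  · have e' : r i = r j := congrArg Fin.val e
    rcases lt_trichotomy (g i) (g j) with c | c | c
    · exact absurd e' (mono _ _ c).ne
    · exact g.injective c
    · exact absurd e' (mono _ _ c).ne'
  · change g i < N ∨ r i < N at hi
    show g i = r i
    simp only [r] at *
    split_ifs at * <;> omega

end Pool.Agent.H2.FIMod
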