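import Mathlib

set_option autoImplicit false

namespace Pool.Agent.H2.FIMod

open CategoryTheory

universe u v

/-- the object `[n]` of the category FI -/
structure FI where
  n : ℕ

instance : Category FI where
  Hom a b := Fin a.n ↪ Fin b.n
  id _ := Function.Embedding.refl _
  comp f g := f.trans g

variable {k : Type u} [Field k]

/-- every transition map is injective -/
def TorsionFree (V : FI ⥤ ModuleCat.{v} k) : Prop :=
  ∀ (a b : FI) (f : a ⟶ b), Function.Injective (V.map f).hom

/-- a family of subspaces closed under the transition maps -/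
def IsSub (V : FI ⥤ ModuleCat.{v} k) (p : ∀ a : FI, Submodule k (V.obj a)) : Prop :=
  ∀ (a b : FI) (f : a ⟶ b), ∀ x ∈ p a, (V.map f).hom x ∈ p b

/-- nonzero, and not the direct sum of two nonzero submodules -/
def Indec (V : FI ⥤ ModuleCat.{v} k) : Prop :=
  (∃ (a : FI) (x : V.obj a), x ≠ 0) ∧
    ∀ p q : ∀ a : FI, Submodule k (V.obj a), IsSub V p → IsSub V q → (∀ a, IsCompl (p a) (q a)) →
      (∀ a, p a = ⊥) ∨ ∀ a, q a = ⊥

end Pool.Agent.H2.FIMod
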