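import Pool.Agent.H2.FI1
import Pool.Agent.H2.FIDefs

set_option autoImplicit false

namespace Pool.Agent.H2.FIMod

open Function

universe u v

variable {k : Type u} [Field k] {V : ℕ → Type v} [∀ n, AddCommGroup (V n)] [∀ n, Module k (V n)]
  (A : Act k V)

/-- closed under transition maps -/
def Stable (p : ∀ n, Submodule k (V n)) : Prop :=
  ∀ (m n : ℕ) (f : Fin m ↪ Fin n), ∀ x ∈ p m, A.mp f x ∈ p n

/-- the image of a submodule in the coinvariants -/
def Fb (a : ℕ) (p : ∀ n, Submodule k (V n)) : Submodule k (FF A a) :=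
  Submodule.span k {z | ∃ (m : ℕ) (h : Fin m ↪ ℕ), ∃ x ∈ p m, z = cl A a h x}

lemma mem_Fb {a m : ℕ} {p : ∀ n, Submodule k (V n)} (h : Fin m ↪ ℕ) {x : V m} (hx : x ∈ p m) :
    cl A a h x ∈ Fb A a p := Submodule.subset_span ⟨m, h, x, hx, rfl⟩

lemma Fb_mono (a : ℕ) {p q : ∀ n, Submodule k (V n)} (h : p ≤ q) : Fb A a p ≤ Fb A a q :=
  Submodule.span_mono fun _ ⟨m, g, x, hx, e⟩ => ⟨m, g, x, h m hx, e⟩

lemma Fb_ne {a : ℕ} {p : ∀ n, Submodule k (V n)} (h : Fb A a p ≠ ⊥) :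
    ∃ (m : ℕ) (g : Fin m ↪ ℕ), ∃ x ∈ p m, cl A a g x ≠ 0 := by
  by_contra hc
  push Not at hc
  exact h (Submodule.span_eq_bot.2 (by rintro _ ⟨m, g, x, hx, rfl⟩; exact hc m g x hx))

/-- the submodule generated by one element -/
def gen {n : ℕ} (x : V n) : ∀ m, Submodule k (V m) :=
  fun m => Submodule.span k (Set.range fun f : Fin n ↪ Fin m => A.mp f x)

lemma gen_stable {n : ℕ} (x : V n) : Stable A (gen A x) := by
  intro m l f y hy
  refine (Submodule.span_le (p := (gen A x l).comap (A.mp f))).2 ?_ hy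
  rintro _ ⟨g, rfl⟩
  exact Submodule.subset_span ⟨g.trans f, A.mp_comp _ _ _⟩

lemma Fb_gen (N : ℕ) {n : ℕ} (x : V n) : Fb A N (gen A x) ≤ Submodule.span k
    (Set.range fun g : Fin n ↪ Fin (N + n) => cl A N (g.trans Fin.valEmbedding) x) := by
  refine Submodule.span_le.2 ?_
  rintro _ ⟨m, h, y, hy, rfl⟩
  refine Submodule.mem_comap.1 ((Submodule.span_le (p := Submodule.comap (cl A N h) _)).2 ?_ hy)
  rintro _ ⟨f, rfl⟩
  obtain ⟨g, hg⟩ := exists_small N (f.trans h)
  refine Submodule.subset_span ⟨g, ?_⟩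
  dsimp only
  rw [← cl_comp, cl_same A hg]

lemma skip_zero {a : ℕ} {p : ∀ n, Submodule k (V n)} (h0 : Fb A a p = ⊥) {m j : ℕ} (hj : j ≤ a)
    (h : Fin m ↪ ℕ) (hh : ∀ i, h i ≠ j) {x : V m} (hx : x ∈ p m) : cl A (a + 1) h x = 0 := by
  let e : ℕ ↪ ℕ := ⟨fun i => if i < j then i else i + 1, fun s t e => by
    dsimp only at e; split_ifs at e <;> omega⟩
  have he : ∀ i, e i = if i < j then i else i + 1 := fun _ => rfl
  obtain ⟨T, hT⟩ := exists_tr A (a := a) (b := a + 1) e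
    (fun s hs => by rw [he] at hs; split_ifs at hs <;> omega)
    (fun s t h1 h2 => Or.inr (Or.inr (by
      rw [he] at h1
      rw [he, he] at h2
      refine ⟨by split_ifs at h1 <;> omega, by split_ifs at h2 <;> omega, fun z w _ hw => ?_⟩
      rw [he, he]; split_ifs <;> omega)))
  let h' : Fin m ↪ ℕ := ⟨fun i => if h i < j then h i else h i - 1, fun s t e => h.injective (by
    have := hh s
    have := hh t
    dsimp only at e; split_ifs at e <;> omega)⟩
  have e2 : h'.trans e = h := by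
    ext i
    have := hh i
    show e (if h i < j then h i else h i - 1) = h i
    rw [he]; split_ifs <;> omega
  have := mem_Fb A (a := a) h' hx
  rw [h0, Submodule.mem_bot] at this
  rw [← e2, ← hT, this, map_zero]

lemma choose_le {a : ℕ} {p : ∀ n, Submodule k (V n)} (h0 : Fb A a p = ⊥)
    (h1 : Fb A (a + 1) p ≠ ⊥) {n : ℕ} {x : V n} (hp : p ≤ gen A x) (N : ℕ) :
    N.choose (a + 1) ≤ (N + n) ^ n := by
  classical
  obtain ⟨m, g, y, hy, hz⟩ := Fb_ne A h1
  have key : ∀ S : (Finset.range N).powersetCard (a + 1), ∃ ψ ρ : ℕ ↪ ℕ,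
      (∀ i, i < a + 1 → ψ i ∈ S.1 ∧ ρ (ψ i) = i) ∧ (∀ i, a + 1 ≤ i → ψ i = N + i) ∧
      (∀ b ∈ S.1, ρ b < a + 1) ∧ ∀ b, b ∉ S.1 → ρ b = a + 1 + b := by
    rintro ⟨S, hS⟩
    obtain ⟨s1, s2⟩ := Finset.mem_powersetCard.1 hS
    have s3 : ∀ b ∈ S, b < N := fun b hb => Finset.mem_range.1 (s1 hb)
    let E := S.equivFinOfCardEq s2
    refine ⟨⟨fun i => if h : i < a + 1 then E.symm ⟨i, h⟩ else N + i, fun s t e => ?_⟩,
      ⟨fun b => if h : b ∈ S then E ⟨b, h⟩ else a + 1 + b, fun s t e => ?_⟩, fun i hi => ?_,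
      fun i hi => ?_, fun b hb => ?_, fun b hb => ?_⟩
    · dsimp only at e
      split_ifs at e with c d d
      · exact congrArg Fin.val (E.symm.injective (Subtype.ext e))
      · have := s3 _ (E.symm ⟨s, c⟩).2; omega
      · have := s3 _ (E.symm ⟨t, d⟩).2; omega
      · omega
    · dsimp only at e
      split_ifs at e with c d d
      · exact congrArg Subtype.val (E.injective (Fin.ext e))
      · have := (E ⟨s, c⟩).2; omega
      · have := (E ⟨t, d⟩).2; omega
      · omega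
    · simp only [Embedding.coeFn_mk, dif_pos hi, dif_pos (E.symm ⟨i, hi⟩).2]
      exact ⟨(E.symm ⟨i, hi⟩).2, by simp⟩
    · simp only [Embedding.coeFn_mk, dif_neg (not_lt.2 hi)]
    · simp only [Embedding.coeFn_mk, dif_pos hb]; exact (E ⟨b, hb⟩).2
    · simp [hb]
  choose ψ ρ k1 k2 k3 k4 using key
  have lt : ∀ S : (Finset.range N).powersetCard (a + 1), ∀ b ∈ S.1, b < N := fun S b hb =>
    Finset.mem_range.1 ((Finset.mem_powersetCard.1 S.2).1 hb)
  have li : LinearIndependent k fun S => cl A N (g.trans (ψ S)) y := by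
    refine linearIndependent_iff'.2 fun s c hc S hS => ?_
    obtain ⟨T, hT⟩ := exists_tr A (a := N) (b := a + 1) (ρ S)
      (fun b hb => by
        by_cases c : b ∈ S.1
        · exact lt S b c
        · rw [k4 S b c] at hb; omega)
      (fun s t h1 h2 => by
        have c1 : s ∉ S.1 := fun c => by have := k3 S s c; omega
        have c2 : t ∉ S.1 := fun c => by have := k3 S t c; omega
        have c3 : ∀ z, N ≤ z → ρ S z = a + 1 + z := fun z hz =>
          k4 S z fun c => by have := lt S z c; omega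
        rw [k4 S s c1, k4 S t c2] at h2
        by_cases d1 : s < N
        · by_cases d2 : t < N
          · exact Or.inl ⟨d1, d2⟩
          · exact Or.inr (Or.inl ⟨d1, by omega, fun z hz => by rw [k4 S s c1, c3 z hz]; omega⟩)
        · exact Or.inr (Or.inr ⟨by omega, by omega, fun z w hz hw => by
            rw [c3 z hz, c3 w (by omega)]; omega⟩))
    have big : ∀ S' i, a + 1 ≤ i → ρ S (ψ S' i) = a + 1 + (N + i) := fun S' i hi => by
      rw [k2 S' i hi, k4 S _ fun c => by have := lt S _ c; omega]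
    have := congrArg T hc
    rw [map_sum, map_zero, Finset.sum_eq_single S _ (fun h => absurd hS h), map_smul, hT] at this
    · refine (smul_eq_zero.1 this).resolve_right ?_
      rw [← cl_same A (h := g)]
      · exact hz
      refine ⟨fun i hi => ?_, fun i j hi hij => ?_⟩
      · change _ ∨ ρ S (ψ S (g i)) < _ at hi
        show g i = ρ S (ψ S (g i))
        by_cases c : g i < a + 1
        · exact (k1 S _ c).2.symm
        · have := big S (g i) (by omega); omega
      · show ρ S (ψ S (g i)) < ρ S (ψ S (g j))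
        rw [big S _ hi, big S _ (by omega)]; omega
    · intro S' _ hne
      obtain ⟨b, hb, hb'⟩ : ∃ b ∈ S.1, b ∉ S'.1 := by
        by_contra hc
        push Not at hc
        refine hne (Subtype.ext (Finset.eq_of_subset_of_card_le hc ?_).symm)
        rw [(Finset.mem_powersetCard.1 S.2).2, (Finset.mem_powersetCard.1 S'.2).2]
      rw [map_smul, hT, skip_zero A h0 (j := ρ S b) (Nat.lt_succ_iff.1 (k3 S b hb)) _ _ hy,
        smul_zero]
      intro i e
      have e' : ψ S' (g i) = b := (ρ S).injective e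
      by_cases c : g i < a + 1
      · exact hb' (e' ▸ (k1 S' _ c).1)
      · have := k2 S' (g i) (by omega)
        have := lt S b hb
        omega
  have := linearIndependent_le_span_aux' _ li
    (Set.range fun g : Fin n ↪ Fin (N + n) => cl A N (g.trans Fin.valEmbedding) x) (by
      rintro _ ⟨S, rfl⟩
      exact Fb_gen A N x (mem_Fb A _ (hp m hy)))
  rw [Fintype.card_coe, Finset.card_powersetCard, Finset.card_range] at this
  refine this.trans ((Fintype.card_range_le _).trans ?_)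
  rw [Fintype.card_embedding_eq, Fintype.card_fin, Fintype.card_fin]
  exact Nat.descFactorial_le_pow _ _

lemma deg_le {a n : ℕ} (h : ∀ N : ℕ, N.choose (a + 1) ≤ (N + n) ^ n) : a + 1 ≤ n := by
  by_contra hc
  obtain ⟨t, ht⟩ : ∃ t, t = (a + 1).factorial * 2 ^ n + a + n + 1 := ⟨_, rfl⟩
  have h1 := Nat.pow_le_choose (α := ℚ) (a + 1) (t + a)
  rw [show t + a + 1 - (a + 1) = t by omega, div_le_iff₀ (by positivity)] at h1
  have h2 : t ^ (a + 1) ≤ (t + a).choose (a + 1) * (a + 1).factorial := by exact_mod_cast h1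
  have h3 : (t + a + n) ^ n ≤ (2 * t) ^ n := Nat.pow_le_pow_left (by omega) _
  have h4 : t ^ (n + 1) ≤ t ^ (a + 1) := Nat.pow_le_pow_right (by omega) (by omega)
  have h5 := Nat.mul_le_mul_right (a + 1).factorial ((h (t + a)).trans h3)
  have h6 : t ^ n * t ≤ t ^ n * ((a + 1).factorial * 2 ^ n) := by
    calc t ^ n * t = t ^ (n + 1) := (pow_succ _ _).symm
      _ ≤ (2 * t) ^ n * (a + 1).factorial := h4.trans (h2.trans h5)
      _ = _ := by rw [mul_pow]; ring
  have := Nat.le_of_mul_le_mul_left h6 (Nat.pow_pos (by omega))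
  omega

theorem finite_of_uniform (tf : ∀ {m n : ℕ} (f : Fin m ↪ Fin n), Injective (A.mp f))
    (un : ∀ p q, Stable A p → Stable A q → p ≠ ⊥ → q ≠ ⊥ → p ⊓ q ≠ ⊥) {n : ℕ} {x : V n}
    (hx : x ≠ 0) (m : ℕ) : Module.Finite k (V m) := by
  classical
  let Good : (∀ n, Submodule k (V n)) → Prop := fun p => Stable A p ∧ p ≠ ⊥ ∧ p ≤ gen A x
  let Mn : ℕ → (∀ n, Submodule k (V n)) → Prop := fun a p => Fb A a p ≠ ⊥ ∧ ∀ b < a, Fb A b p = ⊥
  have ex : ∀ p, Good p → ∃ a, Mn a p := by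
    intro p hp
    have : ∃ a, Fb A a p ≠ ⊥ := by
      obtain ⟨a, ha⟩ := Function.ne_iff.1 hp.2.1
      obtain ⟨y, hy, hy0⟩ := Submodule.exists_mem_ne_zero_of_ne_bot ha
      exact ⟨a, fun e => cl_ne_zero A tf hy0 (by
        have := mem_Fb A (a := a) Fin.valEmbedding hy
        rwa [e, Submodule.mem_bot] at this)⟩
    exact ⟨Nat.find this, Nat.find_spec this, fun b hb => not_not.1 (Nat.find_min this hb)⟩
  have bd : ∀ a, (∃ p, Good p ∧ Mn a p) → a ≤ n := by
    rintro a ⟨p, hp, hm⟩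
    cases a with
    | zero => omega
    | succ a => exact deg_le (choose_le A (hm.2 a (by omega)) hm.1 hp.2.2)
  have g0 : Good (gen A x) := ⟨gen_stable A x, Function.ne_iff.2 ⟨n, fun e => hx (by
    have : x ∈ gen A x n := Submodule.subset_span ⟨Embedding.refl _, A.mp_id _ _⟩
    rwa [e] at this)⟩, le_rfl⟩
  obtain ⟨a0, ha0⟩ := ex _ g0
  obtain ⟨a, ha, hmax⟩ : ∃ a, (∃ p, Good p ∧ Mn a p) ∧ ∀ b, (∃ p, Good p ∧ Mn b p) → b ≤ a :=
    ⟨Nat.findGreatest (fun a => ∃ p, Good p ∧ Mn a p) n,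
      Nat.findGreatest_spec (P := fun a => ∃ p, Good p ∧ Mn a p) (bd a0 ⟨_, g0, ha0⟩) ⟨_, g0, ha0⟩,
      fun b hb => Nat.le_findGreatest (bd b hb) hb⟩
  have ex2 : ∃ d, ∃ p, (Good p ∧ Mn a p) ∧ Module.finrank k (Fb A a p) = d := by
    obtain ⟨p, hp⟩ := ha
    exact ⟨_, p, hp, rfl⟩
  obtain ⟨U, ⟨hU, hUm⟩, hd⟩ := Nat.find_spec ex2
  have fin : FiniteDimensional k (Fb A a U) := by
    have := FiniteDimensional.span_of_finite k (Set.finite_range
      fun g : Fin n ↪ Fin (a + n) => cl A a (g.trans Fin.valEmbedding) x)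
    exact Submodule.finiteDimensional_of_le ((Fb_mono A a hU.2.2).trans (Fb_gen A a x))
  obtain ⟨l, g, y, hy, hz⟩ := Fb_ne A hUm.1
  obtain ⟨φ, hφ⟩ : ∃ φ : Module.Dual k (FF A a), φ (cl A a g y) ≠ 0 := by
    by_contra hc
    push Not at hc
    exact hz ((Module.forall_dual_apply_eq_zero_iff k _).1 hc)
  let K : ∀ n, Submodule k (V n) := fun n => ⨅ h : Fin n ↪ ℕ, LinearMap.ker (φ ∘ₗ cl A a h)
  have mK : ∀ {n} {z : V n}, z ∈ K n ↔ ∀ h, φ (cl A a h z) = 0 := by simp [K]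
  have sK : Stable A K := fun s t f z hz => mK.2 fun h => by rw [← cl_comp]; exact mK.1 hz _
  have K0 : K = ⊥ := by
    by_contra hK
    have g1 : Good (K ⊓ U) := ⟨fun s t f z hz => ⟨sK _ _ f z hz.1, hU.1 _ _ f z hz.2⟩,
      un _ _ sK hU.1 hK hU.2.1, inf_le_right.trans hU.2.2⟩
    obtain ⟨b, hb⟩ := ex _ g1
    have b1 := hmax b ⟨_, g1, hb⟩
    have b2 : b = a := le_antisymm b1 (not_lt.1 fun c =>
      hb.1 (le_bot_iff.1 (hUm.2 b c ▸ Fb_mono A b inf_le_right)))
    subst b2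
    have b3 := Nat.find_min' ex2 ⟨_, ⟨g1, hb⟩, rfl⟩
    have b4 := Submodule.eq_of_le_of_finrank_le (Fb_mono A b (inf_le_right (a := K) (b := U)))
      (hd ▸ b3)
    have b5 : Fb A b (K ⊓ U) ≤ LinearMap.ker φ := Submodule.span_le.2 (by
      rintro _ ⟨s, h, z, hz, rfl⟩
      exact mK.1 hz.1 h)
    exact hφ (b5 (b4 ▸ mem_Fb A g hy))
  refine Module.Finite.of_injective (LinearMap.pi fun g : Fin m ↪ Fin (a + m) =>
    φ ∘ₗ cl A a (g.trans Fin.valEmbedding)) ((injective_iff_map_eq_zero _).2 fun z hz => ?_)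
  have : z ∈ K m := mK.2 fun h => by
    obtain ⟨g, hg⟩ := exists_small a h
    rw [cl_same A hg]
    exact congrFun hz g
  rwa [K0] at this

lemma exists_max {p q : ∀ n, Submodule k (V n)} (hq : Stable A q) (h : q ⊓ p = ⊥) :
    ∃ c, q ≤ c ∧ Maximal (fun c => Stable A c ∧ c ⊓ p = ⊥) c := by
  refine zorn_le_nonempty₀ {c | Stable A c ∧ c ⊓ p = ⊥} (fun ch hch hc y hy => ?_) q ⟨hq, h⟩
  haveI : Nonempty ch := ⟨⟨y, hy⟩⟩
  have mem : ∀ n (z : V n), z ∈ (⨆ c : ch, c.1 n) ↔ ∃ c : ch, z ∈ c.1 n := fun n z =>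
    Submodule.mem_iSup_of_directed _ fun c d => by
      rcases hc.total c.2 d.2 with e | e
      · exact ⟨d, e n, le_rfl⟩
      · exact ⟨c, le_rfl, e n⟩
  refine ⟨fun n => ⨆ c : ch, c.1 n, ⟨fun s t f z hz => ?_, funext fun n => ?_⟩,
    fun c hc n => le_iSup (fun c : ch => c.1 n) ⟨c, hc⟩⟩
  · obtain ⟨c, hc⟩ := (mem _ _).1 hz
    exact (mem _ _).2 ⟨c, (hch c.2).1 _ _ f z hc⟩
  · refine le_bot_iff.1 fun z hz => ?_
    obtain ⟨c, hc⟩ := (mem _ _).1 hz.1
    exact (congrFun (hch c.2).2 n).le ⟨hc, hz.2⟩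

lemma uniform_of (inj : ∀ c d, Stable A c → Stable A d → c ⊓ d = ⊥ →
      ∃ π : ∀ n, V n →ₗ[k] V n, (∀ (m n : ℕ) (f : Fin m ↪ Fin n) z, π n (A.mp f z) = A.mp f (π m z)) ∧
        (∀ n, ∀ z ∈ c n, π n z = 0) ∧ ∀ n, ∀ z ∈ d n, π n z = z)
    (ind : ∀ c d, Stable A c → Stable A d → (∀ n, IsCompl (c n) (d n)) → c = ⊥ ∨ d = ⊥)
    (p q : ∀ n, Submodule k (V n)) (hp : Stable A p) (hq : Stable A q) (p0 : p ≠ ⊥) (q0 : q ≠ ⊥) :
    p ⊓ q ≠ ⊥ := by
  intro h
  obtain ⟨c, c1, c2⟩ := exists_max A hp h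
  obtain ⟨d, d1, d2⟩ := exists_max A hq (inf_comm c q ▸ c2.1.2)
  have cd : c ⊓ d = ⊥ := inf_comm d c ▸ d2.1.2
  obtain ⟨π, n1, n2, n3⟩ := inj c d c2.1.1 d2.1.1 cd
  have z0 : ∀ n (z : V n), z ∈ c n → z ∈ d n → z = 0 := fun n z h1 h2 =>
    (congrFun cd n).le ⟨h1, h2⟩
  have a1 : ∀ n z, π n z ∈ c n → z ∈ c n := by
    have := c2.2 (y := fun n => (c n).comap (π n)) ⟨fun s t f z hz => by
        rw [Submodule.mem_comap, n1]; exact c2.1.1 _ _ f _ hz,
      funext fun n => le_bot_iff.1 fun z hz => z0 n z (n3 n z (d1 n hz.2) ▸ hz.1) (d1 n hz.2)⟩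
      fun n z hz => by rw [Submodule.mem_comap, n2 n z hz]; exact zero_mem _
    exact fun n z hz => this n hz
  have a2 : ∀ n z, π n z ∈ d n := by
    have := d2.2 (y := fun n => d n ⊔ LinearMap.range (π n)) ⟨fun s t f z hz => by
        obtain ⟨y, hy, _, ⟨w, rfl⟩, rfl⟩ := Submodule.mem_sup.1 hz
        rw [map_add, ← n1]
        exact Submodule.add_mem_sup (d2.1.1 _ _ f y hy) ⟨_, rfl⟩,
      funext fun n => le_bot_iff.1 fun z hz => by
        obtain ⟨y, hy, _, ⟨w, rfl⟩, e⟩ := Submodule.mem_sup.1 hz.1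
        have e2 : π n (y + w) = z := by rw [map_add, n3 n y hy, e]
        rw [Submodule.mem_bot, ← e2]
        exact n2 n _ (a1 n _ (e2 ▸ hz.2))⟩ fun n => le_sup_left
    exact fun n z => this n (Submodule.mem_sup_right ⟨z, rfl⟩)
  rcases ind c d c2.1.1 d2.1.1 (fun n => ⟨disjoint_iff.2 (congrFun cd n), codisjoint_iff.2
    (top_le_iff.1 fun z _ => Submodule.mem_sup.2 ⟨z - π n z, a1 n _ (by
      rw [map_sub, n3 n _ (a2 n z), sub_self]; exact zero_mem _), π n z, a2 n z, by simp⟩)⟩) with e | e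
  · exact p0 (le_bot_iff.1 (e ▸ c1))
  · exact q0 (le_bot_iff.1 (e ▸ d1))

open CategoryTheory

/-- unbundling -/
def toAct (I : FI ⥤ ModuleCat.{v} k) : Act k fun n => I.obj ⟨n⟩ where
  mp {m n} f := (I.map (X := ⟨m⟩) (Y := ⟨n⟩) f).hom
  mp_id n x := by
    have := I.map_id ⟨n⟩
    exact (congrArg (fun g => g.hom x) this).trans rfl
  mp_comp {l m n} f g x := by
    have := I.map_comp (X := ⟨l⟩) (Y := ⟨m⟩) (Z := ⟨n⟩) f g
    exact (congrArg (fun g => g.hom x) this).trans rfl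

/-- the external sum of two submodules -/
noncomputable def sumF (I : FI ⥤ ModuleCat.{v} k) {c d : ∀ n, Submodule k (I.obj ⟨n⟩)}
    (hc : Stable (toAct I) c) (hd : Stable (toAct I) d) : FI ⥤ ModuleCat.{v} k where
  obj a := ModuleCat.of k (c a.n × d a.n)
  map {a b} f := ModuleCat.ofHom (LinearMap.prodMap
    (((toAct I).mp f).restrict (hc a.n b.n f)) (((toAct I).mp f).restrict (hd a.n b.n f)))
  map_id a := ModuleCat.hom_ext (LinearMap.ext fun x =>
    Prod.ext (Subtype.ext ((toAct I).mp_id _ _)) (Subtype.ext ((toAct I).mp_id _ _)))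
  map_comp f g := ModuleCat.hom_ext (LinearMap.ext fun x =>
    Prod.ext (Subtype.ext ((toAct I).mp_comp f g _)) (Subtype.ext ((toAct I).mp_comp f g _)))

theorem main (I : FI ⥤ ModuleCat.{v} k) [Injective I] (tf : TorsionFree I) (ind : Indec I)
    (a : FI) : Module.Finite k (I.obj a) := by
  obtain ⟨b, x, hx⟩ := ind.1
  refine finite_of_uniform (toAct I) (fun f => tf ⟨_⟩ ⟨_⟩ f) (uniform_of _ ?_ ?_) (n := b.n) hx a.n
  · intro c d hc hd h
    let i : sumF I hc hd ⟶ I :=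
      { app := fun a => ModuleCat.ofHom (LinearMap.coprod (c a.n).subtype (d a.n).subtype)
        naturality := fun a b f => ModuleCat.hom_ext (LinearMap.ext fun x =>
          (map_add ((toAct I).mp f) _ _).symm) }
    let g : sumF I hc hd ⟶ I :=
      { app := fun a => ModuleCat.ofHom ((d a.n).subtype ∘ₗ LinearMap.snd k _ _)
        naturality := fun a b f => ModuleCat.hom_ext (LinearMap.ext fun x => rfl) }
    haveI : ∀ a, Mono (i.app a) := fun a => (ModuleCat.mono_iff_injective _).2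
      ((injective_iff_map_eq_zero _).2 fun z hz => by
        have e : (z.1 : I.obj a) + z.2 = 0 := hz
        have e2 : (z.1 : I.obj a) = 0 := (congrFun h a.n).le
          ⟨z.1.2, eq_neg_of_add_eq_zero_left e ▸ neg_mem z.2.2⟩
        rw [e2, zero_add] at e
        exact Prod.ext (Subtype.ext e2) (Subtype.ext e))
    haveI : Mono i := NatTrans.mono_of_mono_app i
    have hπ := Injective.comp_factorThru g i
    have hπ' : ∀ n (z : c n × d n), ((Injective.factorThru g i).app ⟨n⟩).hom (z.1 + z.2) = z.2 :=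
      fun n z => congrArg (fun t => (t.app ⟨n⟩).hom z) hπ
    refine ⟨fun n => ((Injective.factorThru g i).app ⟨n⟩).hom, fun m n f z => ?_, fun n z hz => ?_,
      fun n z hz => ?_⟩
    · exact congrArg (fun t => t.hom z) ((Injective.factorThru g i).naturality (X := ⟨m⟩)
        (Y := ⟨n⟩) f)
    · simpa using hπ' n (⟨z, hz⟩, 0)
    · simpa using hπ' n (0, ⟨z, hz⟩)
  · intro c d hc hd h
    rcases ind.2 (fun a => c a.n) (fun a => d a.n) (fun a b f => hc a.n b.n f)
      (fun a b f => hd a.n b.n f) (fun a => h a.n) with e | e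
    · exact Or.inl (funext fun n => e ⟨n⟩)
    · exact Or.inr (funext fun n => e ⟨n⟩)

end Pool.Agent.H2.FIMod
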