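import Mathlib

namespace Pool.Agent.H2.Forest

open Finset

variable {α K : Type} [DecidableEq α] [Field K]

def U (f : Finset α → K) (s : Finset α) : K := ∑ v ∈ s, f (s.erase v)

def D (S : Finset α) (f : Finset α → K) (s : Finset α) : K := ∑ v ∈ S \ s, f (insert v s)

def Z (S : Finset α) (i : ℕ) (f : Finset α → K) : Prop := ∀ s ⊆ S, s.card = i → f s = 0

lemma comm1 {S t : Finset α} (h : t ⊆ S) (f : Finset α → K) :
    D S (U f) t = U (D S f) t + ((S.card : K) - 2 * t.card) * f t := by
  have h1 : D S (U f) t = ∑ v ∈ S \ t, (f t + ∑ w ∈ t, f (insert v (t.erase w))) := by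
    refine sum_congr rfl fun v hv => ?_
    have hv' := (mem_sdiff.1 hv).2
    rw [U, sum_insert hv', erase_insert hv']
    congr 1
    refine sum_congr rfl fun w hw => ?_
    rw [erase_insert_of_ne (by rintro rfl; exact hv' hw)]
  have h2 : U (D S f) t = ∑ w ∈ t, (f t + ∑ v ∈ S \ t, f (insert v (t.erase w))) := by
    refine sum_congr rfl fun w hw => ?_
    have : S \ t.erase w = insert w (S \ t) := by
      ext x; have := @h x; simp only [mem_sdiff, mem_erase, mem_insert]; grind
    rw [D, this, sum_insert (by simp [hw]), insert_erase hw]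
  rw [h1, h2, sum_add_distrib, sum_add_distrib, sum_comm, sum_const, sum_const, card_sdiff_of_subset h,
    nsmul_eq_mul, nsmul_eq_mul, Nat.cast_sub (card_le_card h)]
  ring

lemma comm (S : Finset α) (f : Finset α → K) (m : ℕ) : ∀ t ⊆ S, D S (U^[m + 1] f) t =
    U^[m + 1] (D S f) t + (m + 1 : K) * ((S.card : K) - 2 * t.card + m) * U^[m] f t := by
  induction m with
  | zero => intro t h; simpa using comm1 h f
  | succ m ih =>
    intro t h
    rw [Function.iterate_succ_apply' U (m + 1) f, comm1 h,
      Function.iterate_succ_apply' U (m + 1) (D S f)]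
    have : U (D S (U^[m + 1] f)) t = U (U^[m + 1] (D S f)) t +
        (m + 1 : K) * ((S.card : K) - 2 * (t.card - 1) + m) * U^[m + 1] f t := by
      conv_rhs => rw [Function.iterate_succ_apply' U m f]
      simp only [U]
      rw [mul_sum, ← sum_add_distrib]
      refine sum_congr rfl fun w hw => ?_
      rw [ih _ ((erase_subset _ _).trans h), card_erase_of_mem hw,
        Nat.cast_sub (card_pos.2 ⟨w, hw⟩), Nat.cast_one]
    rw [this]
    push_cast
    ring

lemma Z.up {S : Finset α} {i : ℕ} {f : Finset α → K} (h : Z S i f) : Z S (i + 1) (U f) := by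
  intro s hs hc
  exact sum_eq_zero fun v hv => h _ ((erase_subset _ _).trans hs) (by rw [card_erase_of_mem hv]; omega)

lemma Z.ups {S : Finset α} {i : ℕ} {f : Finset α → K} (h : Z S i f) (m : ℕ) :
    Z S (i + m) (U^[m] f) := by
  induction m with
  | zero => exact h
  | succ m ih => rw [Function.iterate_succ_apply']; exact ih.up

lemma low (S : Finset α) (f : Finset α → K) (m : ℕ) : Z S m (U^[m + 1] f) := by
  have : Z S 0 (U f) := fun s _ hc => by rw [card_eq_zero.1 hc]; simp [U]
  simpa using this.ups m

lemma U_inj [CharZero K] (S : Finset α) (i : ℕ) : ∀ (m : ℕ) (f : Finset α → K),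
    2 * i + m ≤ S.card → Z S (i + m) (U^[m] f) → Z S i f := by
  induction i using Nat.strong_induction_on with
  | _ i ih =>
  intro m
  induction m with
  | zero => exact fun f _ h => h
  | succ m ihm =>
    intro f hm h
    have hc : (m + 1 : K) * ((S.card : K) - 2 * (i + m : ℕ) + m) ≠ 0 := by
      obtain ⟨e, he⟩ := Nat.exists_eq_add_of_le hm
      refine mul_ne_zero (Nat.cast_add_one_ne_zero m) ?_
      rw [he, show ((2 * i + (m + 1) + e : ℕ) : K) - 2 * (i + m : ℕ) + m = e + 1 by push_cast; ring]
      exact Nat.cast_add_one_ne_zero e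
    have h1 : Z S (i + m) fun t => U^[m + 1] (D S f) t +
        (m + 1 : K) * ((S.card : K) - 2 * (i + m : ℕ) + m) * U^[m] f t := by
      intro t ht hc
      beta_reduce
      rw [← hc, ← comm S f m t ht]
      exact sum_eq_zero fun v hv => h _ (insert_subset (mem_sdiff.1 hv).1 ht)
        (by rw [card_insert_of_notMem (mem_sdiff.1 hv).2]; omega)
    have h2 : Z S (i + m) (U^[m + 1] (D S f)) := by
      cases i with
      | zero => simpa using low S (D S f) m
      | succ i =>
        have h3 : Z S (i + (m + 2)) (U^[m + 2] (D S f)) := by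
          intro s hs hc
          have h4 := h1.up s hs (by omega)
          have h5 := h s hs (by omega)
          rw [Function.iterate_succ_apply'] at h5
          rw [Function.iterate_succ_apply']
          simp only [U] at h4 h5 ⊢
          rwa [sum_add_distrib, ← mul_sum, h5, mul_zero, add_zero] at h4
        have := (ih i (by omega) (m + 2) _ (by omega) h3).ups (m + 1)
        rwa [show i + (m + 1) = i + 1 + m by omega] at this
    refine ihm f (by omega) fun t ht htc => ?_
    have h3 := h1 t ht htc
    simp only at h3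
    rw [h2 t ht htc, zero_add] at h3
    exact (mul_eq_zero.1 h3).resolve_left hc

lemma U_compl (S : Finset α) (f : Finset α → K) (m : ℕ) :
    ∀ s ⊆ S, U^[m] (fun t => f (S \ t)) s = (D S)^[m] f (S \ s) := by
  induction m with
  | zero => intro s _; rfl
  | succ m ih =>
    intro s hs
    rw [Function.iterate_succ_apply', Function.iterate_succ_apply', U, D,
      Finset.sdiff_sdiff_eq_self hs]
    refine sum_congr rfl fun v hv => ?_
    rw [ih _ ((erase_subset _ _).trans hs), sdiff_erase (hs hv)]

lemma D_inj [CharZero K] (S : Finset α) (i m : ℕ) (f : Finset α → K)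
    (h : S.card ≤ 2 * i + m) (hz : Z S i ((D S)^[m] f)) : Z S (i + m) f := by
  intro s hs hc
  have hle := card_le_card hs
  have := U_inj S (S.card - (i + m)) m (fun t => f (S \ t)) (by omega) (fun t ht htc => by
    rw [U_compl S f m t ht]
    exact hz _ sdiff_subset (by rw [card_sdiff_of_subset ht]; omega)) (S \ s) sdiff_subset
    (by rw [card_sdiff_of_subset hs]; omega)
  simpa [Finset.sdiff_sdiff_eq_self hs] using this

end Pool.Agent.H2.Forest
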