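import Mathlib

namespace Pool.Agent.H2.Forest

variable {n : ℕ}

/-- `F` is a leaf of the complex generated by the facets in `T`. -/
def IsLeaf (T : Finset (Finset (Fin n))) (F : Finset (Fin n)) : Prop :=
  F ∈ T ∧ (T = {F} ∨ ∃ G ∈ T, G ≠ F ∧ ∀ F' ∈ T, F' ≠ F → F ∩ F' ⊆ F ∩ G)

/-- Two facets lie in the same connected component of the complex with facet set `T`. -/
def Conn (T : Finset (Finset (Fin n))) : Finset (Fin n) → Finset (Fin n) → Prop :=
  Relation.EqvGen fun F G => F ∈ T ∧ G ∈ T ∧ (F ∩ G).Nonempty

/-- The complex with facet set `T` is a simplicial forest: every nonempty set of facets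
taken from one connected component generates a complex with a leaf. -/
def IsForest (T : Finset (Finset (Fin n))) : Prop :=
  ∀ U ⊆ T, U.Nonempty → (∀ F ∈ U, ∀ G ∈ U, Conn T F G) → ∃ F, IsLeaf U F

/-- The faces of the complex with facet set `T`. -/
def faces (T : Finset (Finset (Fin n))) : Set (Finset (Fin n)) := {s | ∃ F ∈ T, s ⊆ F}

end Pool.Agent.H2.Forest
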