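import Mathlib

open Set Metric

namespace Pool.Agent.H2.GH3

section Defs
variable {X Y : Type} [MetricSpace X] [MetricSpace Y]

/-- a correspondence -/
def IsCorr (S : Set (X × Y)) : Prop := (∀ x, ∃ y, (x, y) ∈ S) ∧ ∀ y, ∃ x, (x, y) ∈ S

/-- distortion -/
noncomputable def dis (S : Set (X × Y)) : ℝ :=
  sSup {r | ∃ p ∈ S, ∃ q ∈ S, r = |dist p.1 q.1 - dist p.2 q.2|}

/-- Gromov-Hausdorff distance through correspondences -/
noncomputable def dGH (X Y : Type) [MetricSpace X] [MetricSpace Y] : ℝ :=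
  1 / 2 * sInf {r | ∃ S : Set (X × Y), IsCorr S ∧ r = dis S}

def Optimal (S : Set (X × Y)) : Prop := IsCorr S ∧ dis S = 2 * dGH X Y

end Defs

/-- property (C) for one triple -/
def CC (X₁ X₂ X₃ : Type) [MetricSpace X₁] [MetricSpace X₂] [MetricSpace X₃] : Prop :=
  ∃ R : Set (X₁ × X₂ × X₃), Optimal ((fun r => (r.1, r.2.1)) '' R) ∧
    Optimal ((fun r => (r.1, r.2.2)) '' R) ∧ Optimal ((fun r => (r.2.1, r.2.2)) '' R)

/-- three spaces embed in a compact space with Hausdorff distances a, b, c -/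
def Real3 (X₁ X₂ X₃ : Type) [MetricSpace X₁] [MetricSpace X₂] [MetricSpace X₃] (a b c : ℝ) : Prop :=
  ∃ (Z : Type) (_ : MetricSpace Z) (_ : CompactSpace Z) (φ₁ : X₁ → Z) (φ₂ : X₂ → Z) (φ₃ : X₃ → Z),
    Isometry φ₁ ∧ Isometry φ₂ ∧ Isometry φ₃ ∧ hausdorffDist (range φ₁) (range φ₂) = a ∧
    hausdorffDist (range φ₁) (range φ₃) = b ∧ hausdorffDist (range φ₂) (range φ₃) = c

structure NM (n : ℕ) where
  d : Fin (n + 1) → Fin (n + 1) → ℕ
  ok : ∀ x y z, d x x = 0 ∧ d x y = d y x ∧ d x z ≤ d x y + d y z ∧ (d x y = 0 → x = y)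

def NM.X {n : ℕ} (_ : NM n) : Type := Fin (n + 1)

instance {n : ℕ} (M : NM n) : Fintype M.X := inferInstanceAs (Fintype (Fin (n + 1)))
instance {n : ℕ} (M : NM n) : Nonempty M.X := inferInstanceAs (Nonempty (Fin (n + 1)))

instance {n : ℕ} (M : NM n) : MetricSpace M.X where
  dist x y := M.d x y
  dist_self x := by simp [(M.ok x x x).1]
  dist_comm x y := by simp [(M.ok x y x).2.1]
  dist_triangle x y z := by exact_mod_cast (M.ok x y z).2.2.1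
  eq_of_dist_eq_zero {x y} h := (M.ok x y x).2.2.2 (by exact_mod_cast h)

lemma dist_eq {n : ℕ} (M : NM n) (x y : M.X) : dist x y = M.d x y := rfl

/-- f changes distances by at most k -/
def Near {n : ℕ} (M N : NM n) (k : ℕ) (f : Fin (n + 1) → Fin (n + 1)) : Prop :=
  ∀ x y, M.d x y ≤ N.d (f x) (f y) + k ∧ N.d (f x) (f y) ≤ M.d x y + k

instance {n : ℕ} (M N : NM n) (k : ℕ) (f : Fin (n + 1) → Fin (n + 1)) : Decidable (Near M N k f) :=
  by unfold Near; infer_instance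

lemma near_of {n : ℕ} {M N : NM n} {S : Set (M.X × N.X)} (hS : ∀ x, ∃ y, (x, y) ∈ S) (k : ℕ)
    (h : ∀ p ∈ S, ∀ q ∈ S, |dist p.1 q.1 - dist p.2 q.2| < k + 1) (x : M.X) :
    ∀ y, (x, y) ∈ S → ∃ f, Near M N k f ∧ f x = y := by
  classical
  intro y hy
  choose g hg using hS
  obtain ⟨f, m, e⟩ : ∃ f : M.X → N.X, (∀ a, (a, f a) ∈ S) ∧ f x = y := by
    refine ⟨Function.update g x y, fun a => ?_, Function.update_self ..⟩
    by_cases ha : a = x
    · subst ha; simpa using hy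
    · rw [Function.update_of_ne ha]; exact hg a
  refine ⟨f, fun a b => ?_, e⟩
  have := abs_lt.1 (h _ (m a) _ (m b))
  simp only [dist_eq] at this
  have h1 : (M.d a b : ℝ) < (N.d (f a) (f b) + k + 1 : ℕ) := by push_cast; linarith [this.2]
  have h2 : (N.d (f a) (f b) : ℝ) < (M.d a b + k + 1 : ℕ) := by push_cast; linarith [this.1]
  exact ⟨Nat.lt_succ_iff.1 (Nat.cast_lt.1 h1), Nat.lt_succ_iff.1 (Nat.cast_lt.1 h2)⟩

lemma le_dis {n : ℕ} {M N : NM n} {S : Set (M.X × N.X)} {p q} (hp : p ∈ S) (hq : q ∈ S) :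
    |dist p.1 q.1 - dist p.2 q.2| ≤ dis S := by
  refine le_csSup ?_ ⟨p, hp, q, hq, rfl⟩
  refine ((finite_range fun z : (M.X × N.X) × (M.X × N.X) =>
    |dist z.1.1 z.2.1 - dist z.1.2 z.2.2|).subset ?_).bddAbove
  rintro r ⟨p, -, q, -, rfl⟩
  exact ⟨(p, q), rfl⟩

lemma dis_nonneg {X Y : Type} [MetricSpace X] [MetricSpace Y] (S : Set (X × Y)) : 0 ≤ dis S :=
  Real.sSup_nonneg (by rintro r ⟨p, -, q, -, rfl⟩; exact abs_nonneg _)

lemma near_abs {n : ℕ} {M N : NM n} {k : ℕ} {f} (h : Near M N k f) (x y : M.X) :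
    |dist x y - dist (α := N.X) (f x) (f y)| ≤ k := by
  have a : (M.d x y : ℝ) ≤ N.d (f x) (f y) + k := by exact_mod_cast (h x y).1
  have b : (N.d (f x) (f y) : ℝ) ≤ M.d x y + k := by exact_mod_cast (h x y).2
  rw [dist_eq, dist_eq, abs_le]; constructor <;> linarith

lemma graph {n : ℕ} {M N : NM n} {k : ℕ} {f} (h : Near M N k f) (hf : Function.Surjective f) :
    IsCorr {p : M.X × N.X | p.2 = f p.1} ∧ dis {p : M.X × N.X | p.2 = f p.1} ≤ k := by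
  refine ⟨⟨fun x => ⟨f x, rfl⟩, fun y => (hf y).imp fun x hx => hx.symm⟩, ?_⟩
  apply Real.sSup_le _ (by positivity)
  rintro r ⟨⟨a, b⟩, hp, ⟨c, e⟩, hq, rfl⟩
  obtain rfl : b = f a := hp
  obtain rfl : e = f c := hq
  exact near_abs h a c

lemma dGH_le {n : ℕ} {M N : NM n} {k : ℕ} {f} (h : Near M N k f) (hf : Function.Surjective f) :
    2 * dGH M.X N.X ≤ k := by
  have := csInf_le (s := {r | ∃ S : Set (M.X × N.X), IsCorr S ∧ r = dis S})
    ⟨0, by rintro r ⟨S, -, rfl⟩; exact dis_nonneg S⟩ ⟨_, (graph h hf).1, rfl⟩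
  unfold dGH; linarith [(graph h hf).2]

lemma ghDist_le {n : ℕ} {M N : NM n} {k : ℕ} {f} (h : Near M N k f) (hf : Function.Surjective f) :
    2 * GromovHausdorff.ghDist M.X N.X ≤ k := by
  have := GromovHausdorff.ghDist_le_of_approx_subsets (X := M.X) (Y := N.X) (s := univ)
    (fun x => f x.1) (ε₁ := 0) (ε₂ := k) (ε₃ := 0) (fun x => ⟨x, trivial, by simp⟩)
    (fun y => by obtain ⟨x, rfl⟩ := hf y; exact ⟨⟨x, trivial⟩, by simp⟩)
    (fun x y => near_abs h x y)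
  linarith

lemma opt_eq {n : ℕ} {M N : NM n} {σ} (h : Near M N 1 σ) (hf : Function.Surjective σ)
    (hu : ∀ f, Near M N 1 f → f = σ) {S : Set (M.X × N.X)} (hS : Optimal S) {x y}
    (hxy : (x, y) ∈ S) : y = σ x := by
  obtain ⟨f, h1, rfl⟩ := near_of hS.1.1 1 (fun p hp q hq => by
    have := le_dis hp hq
    have := dGH_le h hf
    rw [hS.2] at *
    push_cast at *; linarith) x y hxy
  rw [hu f h1]

lemma opt_id {n : ℕ} {M N : NM n} (h : Near M N 1 id) (hu : ∀ f, ¬ Near M N 0 f)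
    {S : Set (M.X × N.X)} (hS : S = {p : M.X × N.X | p.2 = id p.1}) : Optimal S := by
  have g := graph h Function.surjective_id
  have low : ∀ T : Set (M.X × N.X), IsCorr T → 1 ≤ dis T := by
    intro T hT
    by_contra hlt
    obtain ⟨y, hy⟩ := hT.1 (0 : Fin (n + 1))
    obtain ⟨f, hf, -⟩ := near_of hT.1 0 (fun p hp q hq => by
      have := le_dis hp hq; push_cast; linarith) _ y hy
    exact hu f hf
  have h1 : 1 ≤ sInf {r | ∃ S : Set (M.X × N.X), IsCorr S ∧ r = dis S} :=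
    le_csInf ⟨_, _, g.1, rfl⟩ (by rintro r ⟨T, hT, rfl⟩; exact low T hT)
  have h2 := dGH_le h Function.surjective_id
  subst hS
  refine ⟨g.1, ?_⟩
  have h3 := low _ g.1
  have h4 := g.2
  rw [Nat.cast_one] at h2 h4
  have h5 : 1 ≤ 2 * dGH M.X N.X := by unfold dGH; linarith
  exact (le_antisymm h4 h3).trans (le_antisymm h5 h2)

lemma close {n : ℕ} {M N : NM n} (hu : ∀ f, Near M N 1 f → f = id) {Z : Type} [MetricSpace Z]
    {φ : M.X → Z} {ψ : N.X → Z} (hφ : Isometry φ) (hψ : Isometry ψ)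
    (h : 2 * hausdorffDist (range φ) (range ψ) ≤ (1 : ℕ)) (x : Fin (n + 1)) :
    dist (φ x) (ψ x) < 3 / 5 := by
  have tot : ∀ x : M.X, ∃ y : N.X, (x, y) ∈ {p : M.X × N.X | dist (φ p.1) (ψ p.2) < 3 / 5} := by
    intro x
    obtain ⟨_, ⟨y, rfl⟩, hy⟩ := exists_dist_lt_of_hausdorffDist_lt (r := 3 / 5) (mem_range_self x)
      (by push_cast at h; linarith) (hausdorffEDist_ne_top_of_nonempty_of_bounded
        (range_nonempty φ) (range_nonempty ψ) (finite_range φ).isBounded (finite_range ψ).isBounded)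
    exact ⟨y, hy⟩
  obtain ⟨y, hy⟩ := tot x
  obtain ⟨f, hf, rfl⟩ := near_of tot 1 (fun p hp q hq => by
    have a := dist_triangle4 (φ p.1) (ψ p.2) (ψ q.2) (φ q.1)
    have b := dist_triangle4 (ψ p.2) (φ p.1) (φ q.1) (ψ q.2)
    rw [hφ.dist_eq, hψ.dist_eq] at a b
    rw [dist_comm (ψ q.2)] at a
    rw [dist_comm (ψ p.2)] at b
    simp only [mem_ofPred_eq] at hp hq
    rw [abs_lt]; push_cast; constructor <;> linarith) x y hy
  rw [hu f hf] at hy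
  exact hy

def A₁ : NM 3 := ⟨![![0, 5, 6, 5], ![5, 0, 4, 4], ![6, 4, 0, 7], ![5, 4, 7, 0]], by decide⟩
def A₂ : NM 3 := ⟨![![0, 7, 5, 6], ![7, 0, 5, 4], ![5, 5, 0, 6], ![6, 4, 6, 0]], by decide⟩
def A₃ : NM 3 := ⟨![![0, 7, 4, 7], ![7, 0, 6, 6], ![4, 6, 0, 5], ![7, 6, 5, 0]], by decide⟩

lemma not_CC : ¬ CC A₁.X A₂.X A₃.X := by
  rintro ⟨R, h1, h2, h3⟩
  obtain ⟨y, ⟨r, hr, e⟩⟩ := h1.1.1 (0 : Fin 4)
  have a := opt_eq (σ := ![3, 2, 0, 1]) (by decide) (by decide) (by decide +kernel) h1 ⟨r, hr, rfl⟩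
  have b := opt_eq (σ := ![1, 2, 0, 3]) (by decide) (by decide) (by decide +kernel) h2 ⟨r, hr, rfl⟩
  have c := opt_eq (σ := ![1, 2, 3, 0]) (by decide) (by decide) (by decide +kernel) h3 ⟨r, hr, rfl⟩
  have e' : r.1 = (0 : Fin 4) := congrArg Prod.fst e
  rw [b, a, e'] at c
  exact absurd (show (1 : Fin 4) = 0 from c) (by decide)

def B₁ : NM 2 := ⟨![![0, 4, 12], ![4, 0, 8], ![12, 8, 0]], by decide⟩
def B₂ : NM 2 := ⟨![![0, 3, 11], ![3, 0, 8], ![11, 8, 0]], by decide⟩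
def B₃ : NM 2 := ⟨![![0, 4, 11], ![4, 0, 7], ![11, 7, 0]], by decide⟩

lemma B_CC : CC B₁.X B₂.X B₃.X := by
  refine ⟨range fun x : Fin 3 => (x, x, x), ?_, ?_, ?_⟩ <;>
    refine opt_id (by decide) (by decide) ?_ <;> ext ⟨x, y⟩ <;> constructor
  all_goals first
    | (rintro ⟨_, ⟨z, rfl⟩, h⟩; cases h; rfl)
    | (intro h; obtain rfl : y = x := h; exact ⟨_, ⟨y, rfl⟩, rfl⟩)

lemma B_not {a b c : ℝ} (ha : 2 * a ≤ (1 : ℕ)) (hb : 2 * b ≤ (1 : ℕ)) (hc : 2 * c ≤ (1 : ℕ)) :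
    ¬ Real3 B₁.X B₂.X B₃.X a b c := by
  rintro ⟨Z, _, _, φ₁, φ₂, φ₃, i1, i2, i3, rfl, rfl, rfl⟩
  have a := close (by decide) i1 i2 ha 0
  have b := close (by decide) i1 i3 hb 2
  have c := close (by decide) i2 i3 hc 1
  have t1 := dist_triangle4 (φ₁ (0 : Fin 3)) (φ₂ (0 : Fin 3)) (φ₂ (1 : Fin 3)) (φ₃ (1 : Fin 3))
  have t2 := dist_triangle4 (φ₁ (0 : Fin 3)) (φ₃ (1 : Fin 3)) (φ₃ (2 : Fin 3)) (φ₁ (2 : Fin 3))
  rw [i2.dist_eq] at t1
  rw [i1.dist_eq, i3.dist_eq, dist_comm (φ₃ _)] at t2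
  have e1 : dist (α := B₂.X) (0 : Fin 3) (1 : Fin 3) = 3 := rfl
  have e2 : dist (α := B₁.X) (0 : Fin 3) (2 : Fin 3) = 12 := rfl
  have e3 : dist (α := B₃.X) (1 : Fin 3) (2 : Fin 3) = 7 := rfl
  linarith

end Pool.Agent.H2.GH3
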