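import Mathlib

namespace Pool.Agent.H2.Greedy

/-- The least cost of a representation of `k` by elements of `S`. -/
noncomputable def minCost (S : Finset ℕ) (k : ℕ) : ℕ :=
  sInf {c | ∃ a : ℕ → ℕ, ∑ s ∈ S, a s * s = k ∧ ∑ s ∈ S, a s = c}

/-- The greedy procedure run through the list `l`. -/
noncomputable def run (S : Finset ℕ) : List ℕ → ℕ → ℕ
  | [], _ => 0
  | s :: l, k =>
    sSup {q | q * s ≤ k ∧ k - q * s ∈ AddSubmonoid.closure (S : Set ℕ)} +
      run S l (k - sSup {q | q * s ≤ k ∧ k - q * s ∈ AddSubmonoid.closure (S : Set ℕ)} * s)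

/-- The cost of the greedy representation: the elements of `S` are visited in decreasing order. -/
noncomputable def greedyCost (S : Finset ℕ) (k : ℕ) : ℕ := run S (S.sort (· ≥ ·)) k

/-- Greedy sets. -/
def IsGreedy (S : Finset ℕ) : Prop :=
  ∀ k ∈ AddSubmonoid.closure (S : Set ℕ), greedyCost S k = minCost S k

end Pool.Agent.H2.Greedy
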