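import Mathlib

set_option autoImplicit false

namespace Pool.Agent.H2.Hru

open Finset

abbrev HG := Set (Finset ℕ)

open Classical in
/-- blocks inside `Y` -/
noncomputable def bl (R : HG) (Y : Finset ℕ) : Finset (Finset ℕ) := Y.powerset.filter (· ∈ R)

lemma mem_bl {R : HG} {Y b : Finset ℕ} : b ∈ bl R Y ↔ b ⊆ Y ∧ b ∈ R := by simp [bl]

/-- predimension -/
noncomputable def dl (R : HG) (Y : Finset ℕ) : ℤ := Y.card - (bl R Y).card

/-- number of points (even numbers; odd numbers are colours) -/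
def pts (Y : Finset ℕ) : ℕ := (Y.filter Even).card

def Closed (R : HG) (A : Finset ℕ) : Prop := ∀ Y, A ⊆ Y → dl R A ≤ dl R Y

def Supp (R : HG) (D : Finset ℕ) : Prop := ∀ b ∈ R, b ⊆ D

def KK (R : HG) : Prop := (∀ b ∈ R, b.card = 4 ∧ pts b = 3) ∧
  (∀ b ∈ R, ∀ b' ∈ R, 3 ≤ (b ∩ b').card → b = b') ∧ ∀ Y, min 4 (pts Y : ℤ) ≤ dl R Y

def Emb (R' R : HG) (f : ℕ → ℕ) (A : Finset ℕ) : Prop :=
  Set.InjOn f A ∧ (∀ x ∈ A, Even (f x) ↔ Even x) ∧ ∀ b ⊆ A, b ∈ R' ↔ b.image f ∈ R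

def Agree (R R' : HG) (D : Finset ℕ) : Prop := ∀ b ⊆ D, b ∈ R ↔ b ∈ R'

variable {R R' : HG}

lemma dl_sub (R : HG) (A B : Finset ℕ) : dl R (A ∪ B) + dl R (A ∩ B) ≤ dl R A + dl R B := by
  have h1 := card_union_add_card_inter A B
  have h2 := card_union_add_card_inter (bl R A) (bl R B)
  have h3 : (bl R A ∪ bl R B).card ≤ (bl R (A ∪ B)).card := card_le_card fun b hb => by
    rcases mem_union.1 hb with h | h <;> rw [mem_bl] at h ⊢
    · exact ⟨h.1.trans subset_union_left, h.2⟩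
    · exact ⟨h.1.trans subset_union_right, h.2⟩
  have h4 : bl R A ∩ bl R B = bl R (A ∩ B) := by
    ext b; simp only [mem_inter, mem_bl, subset_inter_iff]; tauto
  rw [h4] at h2
  simp only [dl]; omega

lemma Agree.dl {D Y : Finset ℕ} (h : Agree R R' D) (hY : Y ⊆ D) : dl R Y = dl R' Y := by
  have : bl R Y = bl R' Y := by
    ext b; simp only [mem_bl]; exact and_congr_right fun e => h b (e.trans hY)
  rw [Hru.dl, Hru.dl, this]

lemma Supp.bl {D : Finset ℕ} (h : Supp R D) (Y : Finset ℕ) : bl R Y = bl R (Y ∩ D) := by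
  ext b; simp only [mem_bl, subset_inter_iff]
  exact ⟨fun e => ⟨⟨e.1, h b e.2⟩, e.2⟩, fun e => ⟨e.1.1, e.2⟩⟩

lemma Supp.closed {D : Finset ℕ} (h : Supp R D) : Closed R D := by
  intro Y hY
  have := card_le_card hY
  rw [dl, dl, h.bl Y, inter_eq_right.2 hY]; omega

lemma Closed.trans {A D : Finset ℕ} (h : Closed R D) (hA : A ⊆ D)
    (h2 : ∀ Y, A ⊆ Y → Y ⊆ D → dl R A ≤ dl R Y) : Closed R A := by
  intro Y hY
  have a1 := dl_sub R Y D
  have a2 := h (Y ∪ D) subset_union_right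
  have a3 := h2 (Y ∩ D) (subset_inter hY hA) inter_subset_right
  omega

lemma Closed.up {A D : Finset ℕ} (h : Closed R D) (hA : A ⊆ D) (e : Agree R' R D)
    (h2 : Closed R' A) : Closed R A :=
  h.trans hA fun Y h3 h4 => by rw [← e.dl hA, ← e.dl h4]; exact h2 Y h3

lemma img_inj {f : ℕ → ℕ} {A b c : Finset ℕ} (h : Set.InjOn f A) (hb : b ⊆ A) (hc : c ⊆ A)
    (e : b.image f = c.image f) : b = c := by
  have key : ∀ {b c : Finset ℕ}, b ⊆ A → c ⊆ A → b.image f = c.image f → b ⊆ c := by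
    intro b c hb hc e x hx
    obtain ⟨y, hy, e2⟩ := mem_image.1 (e ▸ mem_image_of_mem f hx)
    rwa [← h (hc hy) (hb hx) e2]
  exact Subset.antisymm (key hb hc e) (key hc hb e.symm)

lemma Emb.mono {f : ℕ → ℕ} {A B : Finset ℕ} (h : Emb R' R f A) (hB : B ⊆ A) : Emb R' R f B :=
  ⟨h.1.mono hB, fun x hx => h.2.1 x (hB hx), fun b hb => h.2.2 b (hb.trans hB)⟩

lemma Emb.dl {f : ℕ → ℕ} {A : Finset ℕ} (h : Emb R' R f A) : dl R (A.image f) = dl R' A := by
  have : bl R (A.image f) = (bl R' A).image (image f) := by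
    ext b
    simp only [mem_image, mem_bl]
    constructor
    · rintro ⟨h1, h2⟩
      obtain ⟨c, hc, rfl⟩ := subset_image_iff.1 h1
      exact ⟨c, ⟨hc, (h.2.2 c hc).2 h2⟩, rfl⟩
    · rintro ⟨c, ⟨hc, h2⟩, rfl⟩
      exact ⟨image_subset_image hc, (h.2.2 c hc).1 h2⟩
  rw [Hru.dl, Hru.dl, this, card_image_of_injOn h.1, card_image_of_injOn]
  exact fun b hb c hc e => img_inj h.1 (mem_bl.1 hb).1 (mem_bl.1 hc).1 e

lemma Emb.pts {f : ℕ → ℕ} {A : Finset ℕ} (h : Emb R' R f A) : pts (A.image f) = pts A := by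
  rw [Hru.pts, Hru.pts, filter_image, filter_congr h.2.1,
    card_image_of_injOn (h.1.mono (coe_subset.2 (filter_subset _ _)))]

lemma Emb.inv {f : ℕ → ℕ} {A : Finset ℕ} (h : Emb R' R f A) :
    ∃ g, Emb R R' g (A.image f) ∧ ∀ x ∈ A, g (f x) = x := by
  have hg : ∀ x ∈ A, Function.invFunOn f A (f x) = x := fun x hx => h.1.leftInvOn_invFunOn hx
  refine ⟨Function.invFunOn f A, ⟨?_, ?_, ?_⟩, hg⟩
  · intro x hx y hy e
    obtain ⟨x', hx', rfl⟩ := mem_image.1 hx
    obtain ⟨y', hy', rfl⟩ := mem_image.1 hy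
    rw [hg x' hx', hg y' hy'] at e; rw [e]
  · intro x hx
    obtain ⟨x', hx', rfl⟩ := mem_image.1 hx
    rw [hg x' hx', h.2.1 x' hx']
  · intro b hb
    obtain ⟨c, hc, rfl⟩ := subset_image_iff.1 hb
    rw [image_image, image_congr (f := Function.invFunOn f A ∘ f) (g := id) fun x hx => hg x (hc hx), image_id, h.2.2 c hc]

lemma one_point {A b0 : Finset ℕ} {z : ℕ} (h : Closed R A) (hz : z ∉ A) (h0 : b0 ∈ R)
    (h1 : b0 ⊆ insert z A) (h2 : z ∈ b0) :
    Closed R (insert z A) ∧ ∀ b ∈ R, b ⊆ insert z A → z ∈ b → b = b0 := by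
  have key : ∀ S : Finset (Finset ℕ), (∀ b ∈ S, b ∈ R ∧ b ⊆ insert z A ∧ z ∈ b) →
      dl R (insert z A) + S.card ≤ dl R A + 1 := by
    intro S hS
    have a1 : Disjoint (bl R A) S := disjoint_left.2 fun b hb hb' =>
      hz ((mem_bl.1 hb).1 (hS b hb').2.2)
    have a2 : (bl R A ∪ S).card ≤ (bl R (insert z A)).card := card_le_card fun b hb => by
      rcases mem_union.1 hb with e | e
      · exact mem_bl.2 ⟨(mem_bl.1 e).1.trans (subset_insert _ _), (mem_bl.1 e).2⟩
      · exact mem_bl.2 ⟨(hS b e).2.1, (hS b e).1⟩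
    rw [card_union_of_disjoint a1] at a2
    simp only [dl, card_insert_of_notMem hz]; omega
  refine ⟨fun Y hY => ?_, fun b hb hb1 hb2 => ?_⟩
  · have a1 := key {b0} (by simp [h0, h1, h2])
    have a2 := h Y ((subset_insert _ _).trans hY)
    simp only [card_singleton] at a1; omega
  · by_contra hne
    have a1 := key {b, b0} (by simp [h0, h1, h2, hb, hb1, hb2])
    have a2 := h _ (subset_insert z A)
    rw [card_pair hne] at a1; omega

lemma few_blocks (h1 : ∀ b ∈ R, b.card = 4 ∧ pts b = 3)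
    (h2 : ∀ b ∈ R, ∀ b' ∈ R, 3 ≤ (b ∩ b').card → b = b') (Y : Finset ℕ) (h : (bl R Y).card ≤ 2) :
    min 4 (pts Y : ℤ) ≤ dl R Y := by
  have p0 := card_filter_add_card_filter_not (s := Y) Even
  rw [dl, pts]
  rcases (by omega : (bl R Y).card = 0 ∨ (bl R Y).card = 1 ∨ (bl R Y).card = 2) with e | e | e
  · omega
  · obtain ⟨b, hb⟩ := card_pos.1 (by omega : 0 < (bl R Y).card)
    have a1 := card_filter_add_card_filter_not (s := b) Even
    have a2 := h1 b (mem_bl.1 hb).2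
    have a3 := card_le_card (filter_subset_filter (fun x => ¬ Even x) (mem_bl.1 hb).1)
    rw [pts] at a2; omega
  · obtain ⟨b, hb, c, hc, hne⟩ := one_lt_card.1 (by omega : 1 < (bl R Y).card)
    rw [mem_bl] at hb hc
    have a1 := card_union_add_card_inter b c
    have a2 := mt (h2 b hb.2 c hc.2) hne
    have a3 := card_le_card (union_subset hb.1 hc.1)
    have := (h1 b hb.2).1
    have := (h1 c hc.2).1
    omega

lemma KK.few (h : KK R) {Y : Finset ℕ} (hY : pts Y ≤ 3) : (bl R Y).card ≤ 1 := by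
  refine card_le_one.2 fun b hb c hc => ?_
  rw [mem_bl] at hb hc
  have key : ∀ b, b ⊆ Y ∧ b ∈ R → Y.filter Even ⊆ b := fun b hb => by
    rw [← eq_of_subset_of_card_le (filter_subset_filter Even hb.1)
      (hY.trans (h.1 b hb.2).2.ge)]
    exact filter_subset _ _
  refine h.2.1 b hb.2 c hc.2 (le_trans ?_ (card_le_card (subset_inter (key b hb) (key c hc))))
  exact (h.1 b hb.2).2.ge.trans (card_le_card (filter_subset_filter Even hb.1))

lemma free_le {D B : Finset ℕ} (s1 : Supp R D) (s2 : Supp R' B) (e : Agree R R' (D ∩ B))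
    (c : Closed R' (D ∩ B)) (Y : Finset ℕ) : dl R (Y \ (B \ D)) ≤ dl (R ∪ R') Y := by
  have a1 : bl (R ∪ R') Y = bl R Y ∪ bl R' Y := by
    ext b; simp only [mem_union, mem_bl, Set.mem_union]; tauto
  have a2 : bl R Y ∩ bl R' Y = bl R' (Y ∩ B ∩ (D ∩ B)) := by
    ext b
    simp only [mem_inter, mem_bl, subset_inter_iff]
    exact ⟨fun h => ⟨⟨⟨h.1.1, s2 b h.2.2⟩, s1 b h.1.2, s2 b h.2.2⟩, h.2.2⟩,
      fun h => ⟨⟨h.1.1.1, (e b (subset_inter h.1.2.1 h.1.2.2)).2 h.2⟩, h.1.1.1, h.2⟩⟩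
  have a3 := card_union_add_card_inter (bl R Y) (bl R' Y)
  have a4 : bl R (Y \ (B \ D)) = bl R Y := by
    rw [s1.bl, s1.bl Y]; congr 1; ext x; simp only [mem_inter, mem_sdiff]; tauto
  have a5 := dl_sub R' (Y ∩ B) (D ∩ B)
  have a6 := c _ (subset_union_right (s₁ := Y ∩ B))
  have a7 := card_sdiff_add_card_inter Y (B \ D)
  have a8 := card_sdiff_add_card_inter (Y ∩ B) (D ∩ B)
  have a9 : (Y ∩ B) \ (D ∩ B) = Y ∩ (B \ D) := by
    ext x; simp only [mem_inter, mem_sdiff]; tauto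
  rw [a2] at a3
  rw [a9] at a8
  simp only [dl] at *
  rw [a1, a4]
  rw [← s2.bl Y] at a5
  omega

lemma free_amalg {D B : Finset ℕ} (k1 : KK R) (k2 : KK R') (s1 : Supp R D) (s2 : Supp R' B)
    (e : Agree R R' (D ∩ B)) (c1 : Closed R (D ∩ B)) (c2 : Closed R' (D ∩ B))
    (nc : ∀ b ∈ R, ∀ b' ∈ R', 3 ≤ (b ∩ b').card → b = b') :
    KK (R ∪ R') ∧ Agree R (R ∪ R') D ∧ Closed (R ∪ R') D := by
  have l1 := free_le s1 s2 e c2
  have l2 := free_le s2 s1 (inter_comm D B ▸ fun b hb => (e b hb).symm) (inter_comm D B ▸ c1)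
  rw [Set.union_comm] at l2
  have h1 : ∀ b ∈ R ∪ R', b.card = 4 ∧ pts b = 3 := fun b hb => hb.elim (k1.1 b) (k2.1 b)
  have h2 : ∀ b ∈ R ∪ R', ∀ b' ∈ R ∪ R', 3 ≤ (b ∩ b').card → b = b' := by
    rintro b (hb | hb) c (hc | hc) h
    · exact k1.2.1 b hb c hc h
    · exact nc b hb c hc h
    · exact (nc c hc b hb (inter_comm b c ▸ h)).symm
    · exact k2.2.1 b hb c hc h
  have ag : Agree R (R ∪ R') D := fun b hb =>
    ⟨Or.inl, fun h => h.elim id fun h => (e b (subset_inter hb (s2 b h))).2 h⟩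
  refine ⟨⟨h1, h2, fun Y => ?_⟩, ag, fun Y hY => ?_⟩
  · have a1 := (k1.2.2 _).trans (l1 Y)
    have a2 := (k2.2.2 _).trans (l2 Y)
    by_cases p1 : pts (Y \ (B \ D)) ≤ 3
    swap; · omega
    by_cases p2 : pts (Y \ (D \ B)) ≤ 3
    swap; · omega
    refine few_blocks h1 h2 Y (le_trans (card_le_card (t := bl R (Y \ (B \ D)) ∪
      bl R' (Y \ (D \ B))) fun b hb => ?_) ((card_union_le _ _).trans
        (add_le_add (k1.few p1) (k2.few p2))))
    rw [mem_bl] at hb
    rcases hb.2 with h | h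
    · exact mem_union_left _ (mem_bl.2 ⟨fun x hx => mem_sdiff.2 ⟨hb.1 hx, fun k =>
        (mem_sdiff.1 k).2 (s1 b h hx)⟩, h⟩)
    · exact mem_union_right _ (mem_bl.2 ⟨fun x hx => mem_sdiff.2 ⟨hb.1 hx, fun k =>
        (mem_sdiff.1 k).2 (s2 b h hx)⟩, h⟩)
  · rw [← ag.dl Subset.rfl]
    exact (s1.closed _ fun x hx => mem_sdiff.2 ⟨hY hx, fun k => (mem_sdiff.1 k).2 hx⟩).trans (l1 Y)

lemma transport {B : Finset ℕ} {g : ℕ → ℕ} (k : KK R') (s : Supp R' B) (hg : Set.InjOn g B)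
    (hp : ∀ x ∈ B, Even (g x) ↔ Even x) :
    KK (image g '' R') ∧ Supp (image g '' R') (B.image g) ∧ Emb R' (image g '' R') g B := by
  have e : Emb R' (image g '' R') g B := ⟨hg, hp, fun b hb => ⟨fun h => ⟨b, h, rfl⟩,
    fun ⟨c, hc, h⟩ => img_inj hg (s c hc) hb h ▸ hc⟩⟩
  have s' : Supp (image g '' R') (B.image g) := by
    rintro _ ⟨b, hb, rfl⟩; exact image_subset_image (s b hb)
  refine ⟨⟨?_, ?_, fun Y => ?_⟩, s', e⟩
  · rintro _ ⟨b, hb, rfl⟩
    rw [card_image_of_injOn (hg.mono (s b hb)), (e.mono (s b hb)).pts]; exact k.1 b hb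
  · rintro _ ⟨b, hb, rfl⟩ _ ⟨c, hc, rfl⟩ h
    rw [← image_inter_of_injOn b c (hg.mono (Set.union_subset (s b hb) (s c hc)))] at h
    rw [k.2.1 b hb c hc (h.trans card_image_le)]
  · obtain ⟨Z, hZ, e2⟩ := subset_image_iff.1 (inter_subset_right (s₁ := Y) (s₂ := B.image g))
    have a1 := (e.mono hZ).dl
    have a2 := (e.mono hZ).pts
    have a3 := k.2.2 Z
    have a4 := card_sdiff_add_card_inter Y (B.image g)
    have a5 : pts Y ≤ (Y \ B.image g).card + pts (Y ∩ B.image g) := by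
      refine le_trans (card_le_card fun x hx => ?_) (card_union_le _ _)
      simp only [mem_filter, mem_union, mem_sdiff, mem_inter] at hx ⊢; tauto
    rw [e2] at a1 a2
    rw [dl] at a1
    rw [dl, s'.bl]; omega

theorem amalg {D B : Finset ℕ} (k1 : KK R) (k2 : KK R') (s1 : Supp R D) (s2 : Supp R' B) (n : ℕ) :
    ∀ (A : Finset ℕ) (f : ℕ → ℕ), (B \ A).card = n → A ⊆ B → Closed R' A → Emb R' R f A →
      A.image f ⊆ D → Closed R (A.image f) →
      ∃ (R2 : HG) (D2 : Finset ℕ) (g : ℕ → ℕ), KK R2 ∧ Supp R2 D2 ∧ D ⊆ D2 ∧ Agree R R2 D ∧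
        Closed R2 D ∧ (∀ x ∈ A, g x = f x) ∧ Emb R' R2 g B ∧ B.image g ⊆ D2 ∧
        Closed R2 (B.image g) := by
  induction n using Nat.strong_induction_on with
  | _ n ih =>
  intro A f hn hAB c2 he hD c1
  by_cases cf : ∃ b' ∈ R', ∃ b ∈ R, ¬ b' ⊆ A ∧ ¬ b ⊆ A.image f ∧
      3 ≤ ((b' ∩ A).image f ∩ b).card
  · obtain ⟨b', hb', b, hb, n1, n2, h3⟩ := cf
    obtain ⟨z', z1, z2⟩ := not_subset.1 n1
    obtain ⟨z, z3, z4⟩ := not_subset.1 n2
    have z5 : z' ∉ b' ∩ A := fun h => z2 (mem_inter.1 h).2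
    have z6 : z ∉ (b' ∩ A).image f := fun h => z4 (image_subset_image inter_subset_right h)
    have q1 : insert z' (b' ∩ A) ⊆ b' := insert_subset z1 inter_subset_left
    have q2 := card_le_card q1
    have q3 := card_image_of_injOn (he.mono (inter_subset_right (s₁ := b'))).1
    have q4 := card_le_card (inter_subset_left (s₁ := (b' ∩ A).image f) (s₂ := b))
    rw [card_insert_of_notMem z5, (k2.1 b' hb').1] at q2
    have q5 : (b' ∩ A).image f ⊆ b := inter_eq_left.1 (eq_of_subset_of_card_le inter_subset_left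
      (by omega))
    have e1 : insert z' (b' ∩ A) = b' := eq_of_subset_of_card_le q1 (by
      rw [card_insert_of_notMem z5, (k2.1 b' hb').1]; omega)
    have e2 : insert z ((b' ∩ A).image f) = b := eq_of_subset_of_card_le (insert_subset z3 q5) (by
      rw [card_insert_of_notMem z6, (k1.1 b hb).1]; omega)
    have par : Even z ↔ Even z' := by
      have a1 := (k2.1 b' hb').2
      have a2 := (k1.1 b hb).2
      have a3 := (he.mono (inter_subset_right (s₁ := b'))).pts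
      rw [← e1] at a1
      rw [← e2] at a2
      rw [pts, filter_insert] at a1 a2
      rw [pts, pts] at a3
      split_ifs at a1 a2 with p q q
      · tauto
      · rw [card_insert_of_notMem fun h => z5 (mem_filter.1 h).1] at a1; omega
      · rw [card_insert_of_notMem fun h => z6 (mem_filter.1 h).1] at a2; omega
      · tauto
    obtain ⟨o1, o2⟩ := one_point c2 z2 hb' (e1 ▸ insert_subset_insert _ inter_subset_right) z1
    obtain ⟨o3, o4⟩ := one_point c1 z4 hb
      (e2 ▸ insert_subset_insert _ (image_subset_image inter_subset_right)) z3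
    have u1 : ∀ x ∈ A, Function.update f z' z x = f x := fun x hx =>
      Function.update_of_ne (fun e : x = z' => z2 (e ▸ hx)) _ _
    have u2 : ∀ c ⊆ A, c.image (Function.update f z' z) = c.image f := fun c hc =>
      image_congr fun x hx => u1 x (hc hx)
    have u3 : (insert z' A).image (Function.update f z' z) = insert z (A.image f) := by
      rw [image_insert, Function.update_self, u2 A Subset.rfl]
    have u4 : b'.image (Function.update f z' z) = b := by
      rw [← e1, image_insert, Function.update_self, u2 _ inter_subset_right, e2]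
    have u5 : Set.InjOn (Function.update f z' z) (insert z' A : Finset ℕ) :=
      card_image_iff.1 (by rw [u3, card_insert_of_notMem z4, card_insert_of_notMem z2,
        card_image_of_injOn he.1])
    obtain ⟨R2, D2, g, r1, r2, r3, r4, r5, r6, r7⟩ := ih _ (by
        rw [← hn]
        exact card_lt_card ⟨sdiff_subset_sdiff Subset.rfl (subset_insert z' A), fun h => by
          simpa using h (mem_sdiff.2 ⟨s2 b' hb' z1, z2⟩)⟩)
      (insert z' A) (Function.update f z' z) rfl (insert_subset (s2 b' hb' z1) hAB) o1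
      ⟨u5, fun x hx => by
        rcases mem_insert.1 hx with rfl | hx
        · rw [Function.update_self, par]
        · rw [u1 x hx, he.2.1 x hx], fun c hc => by
        by_cases p : z' ∈ c
        · refine ⟨fun h => o2 c h hc p ▸ u4 ▸ hb, fun h => ?_⟩
          have := o4 _ h (u3 ▸ image_subset_image hc) (mem_image.2 ⟨z', p, by simp⟩)
          rw [img_inj u5 hc (e1 ▸ insert_subset_insert _ inter_subset_right) (this.trans u4.symm)]
          exact hb'
        · have : c ⊆ A := (subset_insert_iff_of_notMem p).1 hc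
          rw [u2 c this, he.2.2 c this]⟩
      (u3 ▸ insert_subset (s1 b hb z3) hD) (u3 ▸ o3)
    exact ⟨R2, D2, g, r1, r2, r3, r4, r5,
      fun x hx => (r6 x (mem_insert_of_mem hx)).trans (u1 x hx), r7⟩
  · obtain ⟨N, hN⟩ : ∃ N, ∀ x ∈ D, x < N := ⟨D.sup id + 1, fun x hx =>
      Nat.lt_succ_of_le (le_sup (f := id) hx)⟩
    let g : ℕ → ℕ := fun x => if x ∈ A then f x else x + 2 * N
    have g1 : ∀ x ∈ A, g x = f x := fun x hx => if_pos hx
    have g2 : ∀ x, x ∉ A → g x = x + 2 * N := fun x hx => if_neg hx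
    have g3 : ∀ x, g x ∈ D ↔ x ∈ A := fun x => ⟨fun h => by
      by_contra p
      have := hN _ h
      rw [g2 x p] at this; omega, fun h => g1 x h ▸ hD (mem_image_of_mem f h)⟩
    have g4 : ∀ c ⊆ A, c.image g = c.image f := fun c hc => image_congr fun x hx => g1 x (hc hx)
    have g5 : Function.Injective g := by
      intro x y e
      by_cases p : x ∈ A
      · have q : y ∈ A := (g3 y).1 (e ▸ (g3 x).2 p)
        exact he.1 p q (by rwa [g1 x p, g1 y q] at e)
      · have q : y ∉ A := fun q => p ((g3 x).1 (e ▸ (g3 y).2 q))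
        rw [g2 x p, g2 y q] at e; omega
    obtain ⟨t1, t2, t3⟩ := transport k2 s2 g5.injOn fun x _ => by
      by_cases p : x ∈ A
      · rw [g1 x p, he.2.1 x p]
      · rw [g2 x p]; simp [Nat.even_add]
    have g6 : ∀ c : Finset ℕ, D ∩ c.image g = (c ∩ A).image f := by
      intro c
      rw [← g4 _ inter_subset_right]
      ext y
      simp only [mem_inter, mem_image]
      exact ⟨fun ⟨h, x, hx, e⟩ => ⟨x, ⟨hx, (g3 x).1 (e ▸ h)⟩, e⟩,
        fun ⟨x, hx, e⟩ => ⟨e ▸ (g3 x).2 hx.2, x, hx.1, e⟩⟩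
    have g7 : D ∩ B.image g = A.image f := by rw [g6, inter_eq_right.2 hAB]
    have ag : Agree R (image g '' R') (D ∩ B.image g) := by
      rw [g7]
      intro b hb
      obtain ⟨c, hc, rfl⟩ := subset_image_iff.1 hb
      rw [← he.2.2 c hc, ← g4 c hc, t3.2.2 c (hc.trans hAB)]
    have c3 : Closed (image g '' R') (D ∩ B.image g) := by
      refine t2.closed.trans inter_subset_right fun Y h1 h2 => ?_
      obtain ⟨Z, hZ, rfl⟩ := subset_image_iff.1 h2
      rw [g7, ← g4 A Subset.rfl] at h1 ⊢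
      rw [(t3.mono hAB).dl, (t3.mono hZ).dl]
      exact c2 Z ((image_subset_image_iff g5).1 h1)
    have nc : ∀ b ∈ R, ∀ b' ∈ image g '' R', 3 ≤ (b ∩ b').card → b = b' := by
      rintro b hb _ ⟨c, hc, rfl⟩ h
      by_cases p : c ⊆ A
      · exact k1.2.1 b hb _ (g4 c p ▸ (he.2.2 c p).1 hc) h
      by_cases q : b ⊆ A.image f
      · exact t1.2.1 b ((ag b (g7 ▸ q)).1 hb) _ ⟨c, hc, rfl⟩ h
      refine absurd ⟨c, hc, b, hb, p, q, h.trans (card_le_card fun y hy => ?_)⟩ cf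
      rw [← g6]
      rw [mem_inter] at hy
      exact mem_inter.2 ⟨mem_inter.2 ⟨s1 b hb hy.1, hy.2⟩, hy.1⟩
    obtain ⟨f1, f2, f3⟩ := free_amalg k1 t1 s1 t2 ag (g7 ▸ c1) c3 nc
    obtain ⟨-, f4, f5⟩ := free_amalg t1 k1 t2 s1 (inter_comm D _ ▸ fun b hb => (ag b hb).symm)
      (inter_comm D _ ▸ c3) (inter_comm D _ ▸ g7 ▸ c1)
      fun b hb b' hb' h => (nc b' hb' b hb (inter_comm b b' ▸ h)).symm
    rw [Set.union_comm] at f4 f5
    exact ⟨_, D ∪ B.image g, g, f1, fun b hb => hb.elim (fun h => (s1 b h).trans subset_union_left)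
      fun h => (t2 b h).trans subset_union_right, subset_union_left, f2, f3, g1,
      ⟨t3.1, t3.2.1, fun b hb => (t3.2.2 b hb).trans (f4 _ (image_subset_image hb))⟩,
      subset_union_right, f5⟩

end Pool.Agent.H2.Hru
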