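import Pool.Agent.H2.Hru1

set_option autoImplicit false

namespace Pool.Agent.H2.Hru

open Finset

lemma generic {P ι : Type} [Countable ι] [Nonempty ι] (le : P → P → Prop) (rf : ∀ p, le p p)
    (tr : ∀ p q r, le p q → le q r → le p r) (Q : ι → P → Prop) (hQ : ∀ i p, ∃ q, le p q ∧ Q i q)
    (p0 : P) : ∃ s : ℕ → P, s 0 = p0 ∧ (∀ m n, m ≤ n → le (s m) (s n)) ∧ ∀ i, ∃ n, Q i (s n) := by
  obtain ⟨e, he⟩ := exists_surjective_nat ι
  choose F h1 h2 using hQ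
  refine ⟨fun n => Nat.rec p0 (fun n p => F (e n) p) n, rfl, fun m n h => ?_, fun i => ?_⟩
  · induction n, h using Nat.le_induction with
    | base => exact rf _
    | succ n _ ih => exact tr _ _ _ ih (h1 _ _)
  · obtain ⟨n, rfl⟩ := he i
    exact ⟨n + 1, h2 _ _⟩

/-- finite approximations -/
structure Cond where
  D : Finset ℕ
  R : HG
  k : KK R
  s : Supp R D

def Cond.le (p q : Cond) : Prop := p.D ⊆ q.D ∧ Agree p.R q.R p.D ∧ Closed q.R p.D

/-- the extension property -/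
def Rich (R : HG) : Prop := ∀ (A B : Finset ℕ) (f : ℕ → ℕ), A ⊆ B → Closed R A → Emb R R f A →
  Closed R (A.image f) → ∃ g, (∀ x ∈ A, g x = f x) ∧ Emb R R g B ∧ Closed R (B.image g)

lemma Closed.down {R R' : HG} {A D : Finset ℕ} (h : Closed R A) (hA : A ⊆ D) (s : Supp R' D)
    (e : Agree R' R D) : Closed R' A :=
  s.closed.trans hA fun Y h1 h2 => by rw [e.dl hA, e.dl h2]; exact h Y h1

lemma KK.restrict {R : HG} (h : KK R) (B : Finset ℕ) : KK (bl R B : Set (Finset ℕ)) := by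
  refine ⟨fun b hb => h.1 b (mem_bl.1 hb).2,
    fun b hb c hc => h.2.1 b (mem_bl.1 hb).2 c (mem_bl.1 hc).2, fun Y => (h.2.2 Y).trans ?_⟩
  have : (bl (bl R B : Set (Finset ℕ)) Y).card ≤ (bl R Y).card := card_le_card fun b hb =>
    mem_bl.2 ⟨(mem_bl.1 hb).1, (mem_bl.1 (mem_bl.1 hb).2).2⟩
  simp only [dl]; omega

theorem exists_rich (p0 : Cond) : ∃ R : HG, KK R ∧ Rich R ∧ p0.R ⊆ R := by
  let ext : (A : Finset ℕ) → (A → ℕ) → ℕ → ℕ := fun A φ x => if h : x ∈ A then φ ⟨x, h⟩ else 0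
  obtain ⟨s, s0, s1, s2⟩ := generic
    (ι := Σ A : Finset ℕ, (A → ℕ) × Finset ℕ × Finset (Finset ℕ)) Cond.le
    (fun p => ⟨Subset.rfl, fun _ _ => Iff.rfl, p.s.closed⟩)
    (fun p q r h1 h2 => ⟨h1.1.trans h2.1, fun b hb => (h1.2.1 b hb).trans
      (h2.2.1 b (hb.trans h1.1)), h2.2.2.up h1.1 h2.2.1 h1.2.2⟩)
    (fun τ q => τ.1.image (ext τ.1 τ.2.1) ∪ τ.2.2.1 ⊆ q.D ∧
      (KK (τ.2.2.2 : HG) → Supp τ.2.2.2 τ.2.2.1 → τ.1 ⊆ τ.2.2.1 → Closed τ.2.2.2 τ.1 →
        Emb τ.2.2.2 q.R (ext τ.1 τ.2.1) τ.1 → Closed q.R (τ.1.image (ext τ.1 τ.2.1)) →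
        ∃ g, (∀ x ∈ τ.1, g x = ext τ.1 τ.2.1 x) ∧ Emb τ.2.2.2 q.R g τ.2.2.1 ∧
          τ.2.2.1.image g ⊆ q.D ∧ Closed q.R (τ.2.2.1.image g)))
    (by
      rintro ⟨A, φ, B, R'⟩ p
      dsimp only
      generalize ext A φ = f
      let p1 : Cond := ⟨p.D ∪ (A.image f ∪ B), p.R, p.k,
        fun b hb => (p.s b hb).trans subset_union_left⟩
      by_cases h : KK (R' : HG) ∧ Supp R' B ∧ A ⊆ B ∧ Closed R' A ∧ Emb R' p.R f A ∧
          Closed p.R (A.image f)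
      · obtain ⟨h1, h2, h3, h4, h5, h6⟩ := h
        obtain ⟨R2, D2, g, r1, r2, r3, r4, r5, r6⟩ := amalg p1.k h1 p1.s h2 _ A f rfl h3 h4 h5
          (subset_union_left.trans subset_union_right) h6
        exact ⟨⟨D2, R2, r1, r2⟩, ⟨subset_union_left.trans r3,
          fun b hb => r4 b (hb.trans subset_union_left), r5.up subset_union_left r4 p.s.closed⟩,
          subset_union_right.trans r3, fun _ _ _ _ _ _ => ⟨g, r6⟩⟩
      · exact ⟨p1, ⟨subset_union_left, fun _ _ => Iff.rfl, p.s.closed⟩, subset_union_right,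
          fun h1 h2 h3 h4 h5 h6 => absurd ⟨h1, h2, h3, h4, h5, h6⟩ h⟩) p0
  have cov : ∀ (Y : Finset ℕ) (m : ℕ), ∃ n, m ≤ n ∧ Y ⊆ (s n).D := by
    intro Y m
    obtain ⟨n, hn, -⟩ := s2 ⟨∅, fun _ => 0, Y, ∅⟩
    exact ⟨max m n, le_max_left _ _,
      (subset_union_right.trans hn).trans (s1 n _ (le_max_right _ _)).1⟩
  have ag : ∀ n, Agree (s n).R (⋃ m, (s m).R) (s n).D := by
    intro n b hb
    refine ⟨fun h => Set.mem_iUnion.2 ⟨n, h⟩, fun h => ?_⟩
    obtain ⟨m, hm⟩ := Set.mem_iUnion.1 h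
    rcases le_total m n with e | e
    · exact ((s1 m n e).2.1 b ((s m).s b hm)).1 hm
    · exact ((s1 n m e).2.1 b hb).2 hm
  have cl : ∀ n, Closed (⋃ m, (s m).R) (s n).D := by
    intro n Y hY
    obtain ⟨m, h1, h2⟩ := cov Y n
    rw [← (ag m).dl h2, ← (ag m).dl (hY.trans h2)]
    exact (s1 n m h1).2.2 Y hY
  have kk : KK (⋃ m, (s m).R) := by
    refine ⟨fun b hb => ?_, fun b hb c hc => ?_, fun Y => ?_⟩
    · obtain ⟨m, hm⟩ := Set.mem_iUnion.1 hb
      exact (s m).k.1 b hm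
    · obtain ⟨m, -, hm⟩ := cov (b ∪ c) 0
      exact (s m).k.2.1 b ((ag m b (subset_union_left.trans hm)).2 hb) c
        ((ag m c (subset_union_right.trans hm)).2 hc)
    · obtain ⟨m, -, hm⟩ := cov Y 0
      rw [← (ag m).dl hm]; exact (s m).k.2.2 Y
  refine ⟨⋃ m, (s m).R, kk, fun A B f h1 h2 h3 h4 => ?_, s0 ▸ Set.subset_iUnion (fun m => (s m).R) 0⟩
  generalize (⋃ m, (s m).R) = R at *
  obtain ⟨n, q1, q2⟩ := s2 ⟨A, fun x => f x, B, bl R B⟩
  dsimp only at q1 q2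
  have e1 : ∀ x ∈ A, ext A (fun x => f x) x = f x := fun x hx => dif_pos hx
  have e2 : ∀ c ⊆ A, c.image (ext A fun x => f x) = c.image f := fun c hc =>
    image_congr fun x hx => e1 x (hc hx)
  have e3 : Agree (bl R B : Set (Finset ℕ)) R B := fun b hb => by simp [mem_bl, hb]
  have e4 : Supp (bl R B : Set (Finset ℕ)) B := fun b hb => (mem_bl.1 hb).1
  rw [e2 A Subset.rfl] at q1 q2
  have q3 := subset_union_left.trans q1
  obtain ⟨g, g1, g2, g3, g4⟩ := q2 (kk.restrict B) e4 h1 (h2.down h1 e4 e3)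
    ⟨fun x hx y hy e => h3.1 hx hy (by rwa [e1 x hx, e1 y hy] at e),
      fun x hx => by rw [e1 x hx, h3.2.1 x hx], fun b hb => by
        rw [e2 b hb, e3 b (hb.trans h1), h3.2.2 b hb, ag n _ ((image_subset_image hb).trans q3)]⟩
    (h4.down q3 (s n).s (ag n))
  exact ⟨g, fun x hx => (g1 x hx).trans (e1 x hx), ⟨g2.1, g2.2.1, fun b hb => by
    rw [← e3 b hb, g2.2.2 b hb, ag n _ ((image_subset_image hb).trans g3)]⟩,
    (cl n).up g3 (ag n) g4⟩

lemma exists_closure {R : HG} (k : KK R) (S : Finset ℕ) : ∃ B, S ⊆ B ∧ Closed R B := by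
  have nn : ∀ Y, 0 ≤ dl R Y := fun Y => le_trans (by positivity) (k.2.2 Y)
  have : ∃ d : ℕ, ∃ B, S ⊆ B ∧ dl R B = d := ⟨(dl R S).toNat, S, Subset.rfl,
    (Int.toNat_of_nonneg (nn S)).symm⟩
  classical
  obtain ⟨B, h1, h2⟩ := Nat.find_spec this
  refine ⟨B, h1, fun Y hY => ?_⟩
  have a := Nat.find_min' this ⟨Y, h1.trans hY, (Int.toNat_of_nonneg (nn Y)).symm⟩
  have := nn Y
  omega

/-- automorphisms -/
def IsAut (R : HG) (σ : Equiv.Perm ℕ) : Prop :=
  (∀ x, Even (σ x) ↔ Even x) ∧ ∀ b : Finset ℕ, b ∈ R ↔ b.image σ ∈ R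

theorem exists_aut {R : HG} (k : KK R) (r : Rich R) {A : Finset ℕ} {f : ℕ → ℕ} (h1 : Closed R A)
    (h2 : Emb R R f A) (h3 : Closed R (A.image f)) : ∃ σ, IsAut R σ ∧ ∀ x ∈ A, σ x = f x := by
  obtain ⟨s, s0, s1, s2⟩ := generic (ι := ℕ)
    (P := {p : Finset ℕ × (ℕ → ℕ) // Closed R p.1 ∧ Emb R R p.2 p.1 ∧ Closed R (p.1.image p.2)})
    (fun p q => p.1.1 ⊆ q.1.1 ∧ ∀ x ∈ p.1.1, q.1.2 x = p.1.2 x) (fun p => ⟨Subset.rfl, fun _ _ => rfl⟩)
    (fun p q r a b => ⟨a.1.trans b.1, fun x hx => (b.2 x (a.1 hx)).trans (a.2 x hx)⟩)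
    (fun x q => x ∈ q.1.1 ∧ x ∈ q.1.1.image q.1.2)
    (by
      rintro x ⟨⟨A, f⟩, a1, a2, a3⟩
      obtain ⟨B, b1, b2⟩ := exists_closure k (insert x A)
      obtain ⟨g, g1, g2, g3⟩ := r A B f ((subset_insert _ _).trans b1) a1 a2 a3
      obtain ⟨g', i1, i2⟩ := g2.inv
      obtain ⟨C, c1, c2⟩ := exists_closure k (insert x (B.image g))
      have e : ∀ {B : Finset ℕ} {g g' : ℕ → ℕ}, (∀ x ∈ B, g' (g x) = x) →
          (B.image g).image g' = B := fun {B g g'} h => by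
        rw [image_image, image_congr (f := g' ∘ g) (g := id) h, image_id]
      obtain ⟨h, j1, j2, j3⟩ := r _ C g' ((subset_insert _ _).trans c1) g3 i1 ((e i2).symm ▸ b2)
      obtain ⟨h', l1, l2⟩ := j2.inv
      have m1 : ∀ y ∈ B, h (g y) = y := fun y hy =>
        (j1 _ (mem_image_of_mem g hy)).trans (i2 y hy)
      have m2 : ∀ y ∈ B, g y ∈ C := fun y hy => c1 (mem_insert_of_mem (mem_image_of_mem g hy))
      have m3 : B ⊆ C.image h := fun y hy => mem_image.2 ⟨g y, m2 y hy, m1 y hy⟩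
      refine ⟨⟨(C.image h, h'), j3, l1, (e l2).symm ▸ c2⟩,
        ⟨((subset_insert _ _).trans b1).trans m3, fun y hy => ?_⟩, m3 (b1 (mem_insert_self _ _)), ?_⟩
      · have hy' := b1 (mem_insert_of_mem hy)
        have := l2 _ (m2 y hy')
        rw [m1 y hy'] at this
        exact this.trans (g1 y hy)
      · dsimp only
        rw [e l2]; exact c1 (mem_insert_self _ _)) ⟨(A, f), h1, h2, h3⟩
  choose n hn hn' using s2
  have key : ∀ m, ∀ x ∈ (s m).1.1, (s (n x)).1.2 x = (s m).1.2 x := by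
    intro m x hx
    rcases le_total m (n x) with e | e
    · exact (s1 _ _ e).2 x hx
    · exact ((s1 _ _ e).2 x (hn x)).symm
  have cov : ∀ b : Finset ℕ, ∃ m, b ⊆ (s m).1.1 := fun b =>
    ⟨b.sup n, fun x hx => (s1 _ _ (le_sup hx)).1 (hn x)⟩
  refine ⟨Equiv.ofBijective (fun x => (s (n x)).1.2 x) ⟨fun x y e => ?_, fun y => ?_⟩,
    ⟨fun x => (s (n x)).2.2.1.2.1 x (hn x), fun b => ?_⟩, fun x hx => ?_⟩
  · obtain ⟨m, hm⟩ := cov {x, y}
    have a1 := hm (mem_insert_self _ _)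
    have a2 := hm (mem_insert_of_mem (mem_singleton_self y))
    exact (s m).2.2.1.1 a1 a2 ((key m x a1).symm.trans (e.trans (key m y a2)))
  · obtain ⟨x, hx, e⟩ := mem_image.1 (hn' y)
    exact ⟨x, (key _ x hx).trans e⟩
  · obtain ⟨m, hm⟩ := cov b
    rw [(s m).2.2.1.2.2 b hm, ← image_congr (g := (s m).1.2) fun x hx => key m x (hm hx)]
    rfl
  · have := key 0 x (by rwa [s0])
    rwa [s0] at this

/-- the starting configuration -/
def start : Cond where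
  D := {0, 1, 2, 4, 6, 8}
  R := {{0, 2, 4, 1}, {0, 6, 8, 1}}
  k := by
    have h1 : ∀ b ∈ ({{0, 2, 4, 1}, {0, 6, 8, 1}} : HG), b.card = 4 ∧ pts b = 3 := by
      rintro b (rfl | rfl) <;> decide
    have h2 : ∀ b ∈ ({{0, 2, 4, 1}, {0, 6, 8, 1}} : HG), ∀ b' ∈ ({{0, 2, 4, 1}, {0, 6, 8, 1}} : HG),
        3 ≤ (b ∩ b').card → b = b' := by
      rintro b (rfl | rfl) c (rfl | rfl) <;> decide
    exact ⟨h1, h2, fun Y => few_blocks h1 h2 Y ((card_le_card (t := {{0, 2, 4, 1}, {0, 6, 8, 1}})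
      fun b hb => by simpa using (mem_bl.1 hb).2).trans card_le_two)⟩
  s := by rintro b (rfl | rfl) <;> decide

/-- the permutations of the points induced by automorphisms -/
def grp (R : HG) : Subgroup (Equiv.Perm ℕ) where
  carrier := {g | ∃ σ, IsAut R σ ∧ ∀ x, σ (2 * x) = 2 * g x}
  one_mem' := ⟨1, ⟨fun _ => Iff.rfl, fun b => by simp⟩, fun _ => rfl⟩
  mul_mem' := by
    rintro g h ⟨σ, a1, a2⟩ ⟨τ, b1, b2⟩
    refine ⟨σ * τ, ⟨fun x => (a1.1 _).trans (b1.1 x), fun b => ?_⟩, fun x => by simp [a2, b2]⟩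
    rw [b1.2 b, a1.2, image_image]; rfl
  inv_mem' := by
    rintro g ⟨σ, a1, a2⟩
    refine ⟨σ⁻¹, ⟨fun x => by rw [← a1.1]; simp, fun b => ?_⟩, fun x => ?_⟩
    · rw [a1.2 (b.image _), image_image]; simp
    · rw [Equiv.Perm.inv_eq_iff_eq, a2]; simp

lemma four_trans {R : HG} (k : KK R) (r : Rich R) (x y : Fin 4 ↪ ℕ) :
    ∃ g ∈ grp R, ∀ i, g (x i) = y i := by
  have base : ∀ x : Fin 4 ↪ ℕ, Closed R (univ.image fun i => 2 * x i) ∧
      ∀ b ⊆ univ.image fun i => 2 * x i, b ∉ R := by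
    intro x
    have ev : ∀ z ∈ univ.image fun i => 2 * x i, Even z := fun z hz => by
      obtain ⟨i, -, rfl⟩ := mem_image.1 hz
      exact even_two_mul _
    have cd : (univ.image fun i => 2 * x i).card = 4 := by
      rw [card_image_of_injective _ fun i j e => x.injective (by omega)]; simp
    refine ⟨fun Y hY => ?_, fun b hb h => ?_⟩
    · have a1 := k.2.2 Y
      have a2 := card_le_card (filter_subset_filter Even hY)
      rw [filter_true_of_mem ev, cd] at a2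
      rw [pts] at a1
      rw [dl, cd]; omega
    · have := k.1 b h
      rw [pts, filter_true_of_mem fun z hz => ev z (hb hz)] at this
      omega
  let f : ℕ → ℕ := Function.extend (fun i => 2 * x i) (fun i => 2 * y i) id
  have hf : ∀ i, f (2 * x i) = 2 * y i := fun i =>
    Function.Injective.extend_apply (fun i j e => x.injective (by omega)) _ _ i
  have im : (univ.image fun i => 2 * x i).image f = univ.image fun i => 2 * y i := by
    rw [image_image]; exact image_congr fun i _ => hf i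
  obtain ⟨σ, a1, a2⟩ := exists_aut k r (f := f) (base x).1 ⟨fun a ha b hb e => by
      obtain ⟨i, -, rfl⟩ := mem_image.1 ha
      obtain ⟨j, -, rfl⟩ := mem_image.1 hb
      rw [hf, hf] at e
      rw [y.injective (by omega : y i = y j)], fun a ha => by
      obtain ⟨i, -, rfl⟩ := mem_image.1 ha
      rw [hf]; simp, fun b hb => iff_of_false ((base x).2 b hb)
      ((base y).2 _ (im ▸ image_subset_image hb))⟩ (im ▸ (base y).1)
  have h1 : ∀ z, 2 * (σ (2 * z) / 2) = σ (2 * z) := fun z =>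
    Nat.two_mul_div_two_of_even ((a1.1 _).2 (even_two_mul z))
  refine ⟨Equiv.ofBijective (fun z => σ (2 * z) / 2) ⟨fun a b e => ?_, fun z => ?_⟩,
    ⟨σ, a1, fun z => (h1 z).symm⟩, fun i => ?_⟩
  · have : σ (2 * a) = σ (2 * b) := by rw [← h1 a, ← h1 b]; exact congrArg _ e
    have := σ.injective this
    omega
  · obtain ⟨w, hw⟩ : Even (σ.symm (2 * z)) := (a1.1 _).1 (by simp)
    refine ⟨w, ?_⟩
    show σ (2 * w) / 2 = z
    rw [two_mul, ← hw]; simp
  · show σ (2 * x i) / 2 = y i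
    rw [a2 _ (mem_image_of_mem _ (mem_univ i)), hf]; simp

end Pool.Agent.H2.Hru
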