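import Mathlib

namespace Pool.Agent.H2.Id

open Finset Real Filter Classical

def sg (b : Bool) : ℝ := if b then 1 else -1

lemma sg_sq (b : Bool) : sg b * sg b = 1 := by cases b <;> simp [sg]
lemma abs_sg (b : Bool) : |sg b| = 1 := by cases b <;> simp [sg]

lemma to_sign {V : Type} [Fintype V] (c β : V → ℝ) (h : ∀ a, |β a| ≤ 1) :
    ∃ s : V → Bool, ∑ a, c a * β a ≤ ∑ a, c a * sg (s a) :=
  ⟨fun a => decide (0 ≤ c a), sum_le_sum fun a _ => by
    have := abs_le.1 (h a)
    by_cases k : 0 ≤ c a <;> simp [sg, k] <;> nlinarith⟩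

lemma signs {V : Type} [Fintype V] (w : V → V → ℝ) {t : ℝ} (ht : 0 < t) :
    ∃ s : V × V → Bool, ∀ α β : V → ℝ, (∀ a, |α a| ≤ 1) → (∀ a, |β a| ≤ 1) →
      ∑ a, ∑ b, sg (s (a, b)) * w a b * α a * β b ≤
        2 * Fintype.card V / t + t * (∑ a, ∑ b, w a b ^ 2) / 2 := by
  set m := ∑ a, ∑ b, w a b ^ 2
  obtain ⟨s, -, hs⟩ := exists_le_of_sum_le (s := univ) univ_nonempty
    (f := fun s : V × V → Bool => ∑ q : (V → Bool) × (V → Bool),
      ∏ e : V × V, exp (sg (s e) * (t * w e.1 e.2 * sg (q.1 e.1) * sg (q.2 e.2))))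
    (g := fun _ => ∑ _q : (V → Bool) × (V → Bool), exp (t ^ 2 * m / 2)) (by
      refine sum_comm.trans_le (le_trans (sum_le_sum fun q _ => ?_) sum_comm.le)
      rw [← Fintype.prod_sum fun (e : V × V) (b : Bool) => exp (sg b * (t * w e.1 e.2 * sg (q.1 e.1) * sg (q.2 e.2)))]
      calc _ ≤ ∏ e : V × V, (2 * exp (t ^ 2 * w e.1 e.2 ^ 2 / 2)) := by
            refine prod_le_prod (fun _ _ => by positivity) fun e _ => ?_
            have := cosh_le_exp_half_sq (t * w e.1 e.2 * sg (q.1 e.1) * sg (q.2 e.2))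
            rw [cosh_eq, mul_pow, mul_pow, mul_pow, sq (sg _), sq (sg _), sg_sq, sg_sq, mul_one,
              mul_one] at this
            simp only [Fintype.univ_bool, mem_singleton, Bool.true_eq_false, not_false_eq_true,
              sum_insert, sum_singleton, sg.eq_1 true, sg.eq_1 false, if_true, if_false, one_mul,
              neg_mul, Bool.false_eq_true]
            linarith
        _ = _ := by
            rw [prod_mul_distrib, ← exp_sum, ← sum_div, ← mul_sum, Fintype.sum_prod_type]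
            simp [m])
  refine ⟨s, fun α β hα hβ => ?_⟩
  obtain ⟨y, hy⟩ := to_sign (fun b => ∑ a, sg (s (a, b)) * w a b * α a) β hβ
  obtain ⟨x, hx⟩ := to_sign (fun a => ∑ b, sg (s (a, b)) * w a b * sg (y b)) α hα
  have h1 := (single_le_sum (fun _ _ => by positivity) (mem_univ (x, y))).trans hs
  have h2 : (2 : ℝ) ^ Fintype.card V ≤ exp (Fintype.card V) := by
    rw [← exp_one_pow]; gcongr; linarith [add_one_le_exp 1]
  rw [← exp_sum] at h1
  have h3 := h1.trans (b := _) (c := exp (Fintype.card V + Fintype.card V + t ^ 2 * m / 2)) (by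
    simp only [sum_const, card_univ, Fintype.card_prod, Fintype.card_fun, Fintype.card_bool,
      nsmul_eq_mul, exp_add]
    push_cast; gcongr)
  rw [exp_le_exp, Fintype.sum_prod_type] at h3
  simp only [sum_mul] at hx hy
  rw [sum_comm] at hy
  refine hy.trans ?_
  rw [sum_comm]
  refine le_trans (le_of_eq ?_) (hx.trans ?_)
  · exact sum_congr rfl fun _ _ => sum_congr rfl fun _ _ => by ring
  · rw [div_add' _ _ _ ht.ne', le_div_iff₀ ht]
    refine le_trans (le_of_eq ?_) (h3.trans (le_of_eq (by ring)))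
    simp only [sum_mul]
    exact sum_congr rfl fun _ _ => sum_congr rfl fun _ _ => by ring

variable {K r : ℕ}

noncomputable def v (s : Fin r → Bool) (A : Fin K → Fin r × Bool) : ZMod 2 :=
  if ∀ i, s (A i).1 = (A i).2 then 1 else 0

lemma isolate (hr : 0 < r) (s0 : Fin r → Bool) (L : Finset (Fin r → Bool)) (h : L.card ≤ K) :
    ∃ A : Fin K → Fin r × Bool, v s0 A = 1 ∧ ∀ s ∈ L, s ≠ s0 → v s A = 0 := by
  obtain ⟨j⟩ := Function.Embedding.nonempty_of_card_le (α := L) (β := Fin K) (by simpa using h)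
  have : ∀ s : Fin r → Bool, ∃ i, s ≠ s0 → s i ≠ s0 i := fun s => by
    by_cases c : s = s0
    · exact ⟨⟨0, hr⟩, fun h => absurd c h⟩
    · exact (Function.ne_iff.1 c).imp fun _ h _ => h
  choose f hf using this
  let g := Function.extend j Subtype.val fun _ => s0
  refine ⟨fun i => (f (g i), s0 (f (g i))), if_pos fun _ => rfl, fun s hs e => if_neg fun c => ?_⟩
  have := c (j ⟨s, hs⟩)
  simp only [g, j.injective.extend_apply] at this
  exact hf s e this

lemma v_inj (hr : 0 < r) (hK : 0 < K) : Function.Injective (v (K := K) (r := r)) := fun s s' e => by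
  by_contra c
  obtain ⟨A, h1, h2⟩ := isolate (K := K) hr s' {s} (by simpa)
  rw [← e, h2 s (by simp) c] at h1
  exact zero_ne_one h1

lemma mindeg (hr : 0 < r) (hK : 0 < K) (d : ℕ) : ∀ W : Finset ((Fin K → Fin r × Bool) → ZMod 2),
    W.Nonempty → W.card * W.card ≤ K → (∀ a ∈ W, d ≤ #{b ∈ W | ∃ s, b = a + v s}) → 2 ^ d ≤ #W := by
  induction d with
  | zero => exact fun W h _ _ => h.card_pos
  | succ d ih =>
    rintro W ⟨a, ha⟩ h1 h2
    obtain ⟨b, hb⟩ := card_pos.1 (d.succ_pos.trans_le (h2 a ha))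
    obtain ⟨hb, s0, rfl⟩ := mem_filter.1 hb
    obtain ⟨A, a1, a2⟩ := isolate (K := K) hr s0 ((W ×ˢ W).image fun q =>
      Function.invFun (v (K := K)) (q.2 - q.1)) (card_image_le.trans (by simpa))
    have k : ∀ P : ZMod 2 → Prop, ∀ u ∈ W, P (u A) → 2 ^ d ≤ #{u ∈ W | P (u A)} := fun P u hu hP =>
      ih _ ⟨u, mem_filter.2 ⟨hu, hP⟩⟩
        ((Nat.mul_le_mul (card_filter_le _ _) (card_filter_le _ _)).trans h1) fun x hx => by
          obtain ⟨x1, x2⟩ := mem_filter.1 hx
          refine Nat.le_of_succ_le_succ ((h2 x x1).trans ((card_le_card fun y hy => ?_).trans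
            (card_insert_le (x + v s0) _)))
          obtain ⟨y1, s, rfl⟩ := mem_filter.1 hy
          by_cases c : s = s0
          · rw [c]; exact mem_insert_self _ _
          refine mem_insert_of_mem (mem_filter.2 ⟨mem_filter.2 ⟨y1, ?_⟩, s, rfl⟩)
          rwa [Pi.add_apply, a2 s (mem_image.2 ⟨(x, x + v s), mem_product.2 ⟨x1, y1⟩, by
            simpa using Function.leftInverse_invFun (v_inj hr hK) s⟩) c, add_zero]
    have k1 := k (· = a A) a ha rfl
    have k2 := k (¬ · = a A) _ hb (by simp [a1])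
    rw [pow_succ, mul_two, ← card_filter_add_card_filter_not (s := W) fun u => u A = a A]
    exact Nat.add_le_add (by convert k1) (by convert k2)

lemma block (k n : ℕ) : ∃ (V : Type) (_ : Fintype V) (g : V → V → ℝ) (c : ℕ),
    (∀ a b, g a b * g a b = |g a b|) ∧ (∀ a b, |g a b| ≤ 1) ∧ (∀ a b, g a b ≠ 0 → g b a ≠ 0) ∧
    k < c ∧ 2 * Fintype.card V ≤ 2 ^ c ∧ 0 < ∑ a, ∑ b, |g a b| ∧
    (∀ d (W : Finset V), W.Nonempty → #W ≤ k → (∀ a ∈ W, d ≤ #{b ∈ W | g a b ≠ 0}) → 2 ^ d ≤ #W) ∧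
    ∀ α β : V → ℝ, (∀ a, |α a| ≤ 1) → (∀ a, |β a| ≤ 1) →
      (n + 1) * c * ∑ a, ∑ b, g a b * α a * β b ≤ ∑ a, ∑ b, |g a b| := by
  obtain ⟨K, hK⟩ : ∃ K, K = k * k + 1 := ⟨_, rfl⟩
  obtain ⟨r, r1, r2⟩ := (((tendsto_pow_const_div_const_pow_of_one_lt (2 * K) one_lt_two).const_mul
    (4 * ((n + 1) * ((k + 2) * 2 ^ K)) ^ 2 : ℝ)).eventually (gt_mem_nhds (by simp : _ < (1 : ℝ)))).and
    (eventually_gt_atTop 0) |>.exists
  let V := (Fin K → Fin r × Bool) → ZMod 2
  let w : V → V → ℝ := fun a b => if ∃ s, b = a + v s then 1 else 0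
  set c := k + (r * 2) ^ K + 1 with hc
  have c0 : (0 : ℝ) < (n + 1) * c := by positivity
  obtain ⟨s, hs⟩ := signs w (t := 1 / ((n + 1) * c)) (by positivity)
  have e1 : ∀ a b, |sg (s (a, b)) * w a b| = w a b := fun a b => by
    rw [abs_mul, abs_sg]; simp only [w]; split_ifs <;> simp
  have e2 : ∀ a b, sg (s (a, b)) * w a b ≠ 0 ↔ ∃ s, b = a + v s := fun a b => by
    rw [← abs_ne_zero, e1]; simp [w]
  have e3 : ∀ a b, w a b ^ 2 = w a b := fun a b => by simp [w]
  have e4 : ∑ a, ∑ b, w a b = Fintype.card V * 2 ^ r := by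
    rw [sum_congr rfl fun a _ => show ∑ b, w a b = 2 ^ r by
      rw [sum_boole, show ({b | ∃ s, b = a + v s} : Finset V) = univ.image fun s => a + v s by
        ext; simp [eq_comm], card_image_of_injective (f := fun s => a + v s) _
        ((add_right_injective a).comp (v_inj r2 (by omega)))]
      simp]
    simp
  have N0 : (0 : ℝ) < Fintype.card V := by exact_mod_cast Fintype.card_pos
  refine ⟨V, inferInstance, fun a b => sg (s (a, b)) * w a b, c, fun a b => ?_, fun a b => ?_,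
    fun a b => ?_, by omega, ?_, ?_, fun d W h1 h2 h3 => ?_, fun α β h1 h2 => ?_⟩
  · rw [e1, mul_mul_mul_comm, sg_sq, one_mul, ← sq, e3]
  · rw [e1]; simp only [w]; split_ifs <;> simp
  · rw [e2, e2]
    rintro ⟨s, rfl⟩
    exact ⟨s, funext fun A => by
      show a A = a A + v s A + v s A
      rw [add_assoc, CharTwo.add_self_eq_zero, add_zero]⟩
  · simp only [V, Fintype.card_fun, ZMod.card, Fintype.card_prod, Fintype.card_fin,
      Fintype.card_bool, ← pow_succ']
    exact Nat.pow_le_pow_right two_pos (by omega)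
  · simp only [e1, e4]; positivity
  · refine mindeg r2 (by omega) d W h1 (by nlinarith) fun a ha => ?_
    simpa only [e2] using h3 a ha
  · refine (mul_le_mul_of_nonneg_left (hs α β h1 h2) c0.le).trans ?_
    simp only [e1, e3, e4]
    have c1 : (c : ℝ) ≤ (k + 2) * 2 ^ K * r ^ K := by
      have : 1 ≤ (r * 2) ^ K := Nat.one_le_pow _ _ (by omega)
      have : c ≤ (k + 2) * (r * 2) ^ K := by nlinarith
      rw [mul_assoc, ← mul_pow, mul_comm (2 : ℝ) r]
      exact_mod_cast this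
    rw [← mul_div_assoc, div_lt_one (by positivity)] at r1
    have c2 : 4 * ((n + 1) * (c : ℝ)) ^ 2 ≤ 2 ^ r := by
      refine le_trans ?_ r1.le
      rw [mul_assoc, pow_mul', ← mul_pow, mul_assoc]
      gcongr
    generalize ((n : ℝ) + 1) * c = x at *
    field_simp
    nlinarith

lemma orient {I : Type} {adj : I → I → Prop} {c : ℕ} (W : Finset I) :
    (∀ W' ⊆ W, W'.Nonempty → ∃ a ∈ W', #{b ∈ W' | adj a b} ≤ c) → ∃ o : I → I → Prop,
      (∀ a ∈ W, ∀ b ∈ W, o a b ∨ o b a) ∧ ∀ a ∈ W, #{b ∈ W | adj a b ∧ o a b} ≤ c := by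
  induction W using Finset.strongInduction with
  | H W ih =>
    intro h
    rcases W.eq_empty_or_nonempty with rfl | hW
    · exact ⟨adj, by simp, by simp⟩
    obtain ⟨a, ha, h1⟩ := h W subset_rfl hW
    obtain ⟨o, o1, o2⟩ := ih _ (erase_ssubset ha) fun W' k => h W' (k.trans (erase_subset _ _))
    refine ⟨fun u w => u = a ∨ (w ≠ a ∧ o u w), fun u hu w hw => ?_, fun u hu => ?_⟩
    · by_cases c1 : u = a
      · exact .inl (.inl c1)
      by_cases c2 : w = a
      · exact .inr (.inl c2)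
      exact (o1 u (mem_erase.2 ⟨c1, hu⟩) w (mem_erase.2 ⟨c2, hw⟩)).imp (fun k => .inr ⟨c2, k⟩)
        fun k => .inr ⟨c1, k⟩
    · by_cases c1 : u = a
      · exact (card_le_card fun w hw => by simp only [mem_filter] at hw ⊢; grind).trans h1
      · exact (card_le_card fun w hw => by simp only [mem_filter, mem_erase] at hw ⊢; grind).trans
          (o2 u (mem_erase.2 ⟨c1, hu⟩))

lemma orth {I : Type} {W : Finset I} {b b' : I} (h : b ∈ W) :
    ∑ A ∈ W.powerset, sg (decide (b ∈ A)) * sg (decide (b' ∈ A)) =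
      if b = b' then 2 ^ #W else 0 := by
  split_ifs with c
  · simp [c, sg_sq]
  rw [← insert_erase h, sum_powerset_insert (notMem_erase _ _), ← sum_add_distrib]
  refine sum_eq_zero fun A hA => ?_
  have : b ∉ A := fun k => notMem_erase _ _ (mem_powerset.1 hA k)
  by_cases k : b' ∈ A <;> simp [sg, this, Ne.symm c, k]

lemma rows {X I : Type} [Fintype X] {Λ : X → X → ℝ} {κ c : ℝ} (hc : 0 < c)
    (h : ∀ α β : X → ℝ, (∀ a, |α a| ≤ 1) → (∀ a, |β a| ≤ 1) → ∑ a, ∑ b, Λ a b * α a * β b ≤ κ)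
    {W : Finset I} {q : X → I} (hq : ∀ y, q y ∈ W) {u : X → I → ℝ} (hu : ∀ x, ∑ b ∈ W, |u x b| ≤ c)
    {τ : X → ℝ} (hτ : ∀ y, |τ y| ≤ 1) : ∑ x, ∑ y, Λ x y * u x (q y) * τ y ≤ c * κ := by
  have := sum_le_sum (s := W.powerset) fun A _ => h
    (fun x => (∑ b ∈ W, u x b * sg (decide (b ∈ A))) / c) (fun y => sg (decide (q y ∈ A)) * τ y)
    (fun x => by
      rw [abs_div, abs_of_pos hc, div_le_one hc]
      exact (abs_sum_le_sum_abs _ _).trans (by simpa [abs_mul, abs_sg] using hu x))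
    fun y => by simpa [abs_mul, abs_sg] using hτ y
  rw [sum_comm, sum_congr rfl fun x _ => sum_comm.trans (sum_congr rfl fun y _ =>
    show _ = 2 ^ #W / c * (Λ x y * u x (q y) * τ y) by
      calc _ = Λ x y * τ y / c * ∑ b ∈ W, u x b *
            ∑ A ∈ W.powerset, sg (decide (b ∈ A)) * sg (decide (q y ∈ A)) := by
            simp only [mul_sum, sum_div, sum_mul]
            rw [sum_comm]
            exact sum_congr rfl fun _ _ => sum_congr rfl fun _ _ => by ring
        _ = _ := by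
            rw [sum_congr rfl fun b hb => by rw [orth hb]]
            simp [hq]; ring)] at this
  simp only [← mul_sum, sum_const, card_powerset, nsmul_eq_mul] at this
  push_cast at this
  rw [div_mul_eq_mul_div, div_le_iff₀ hc, mul_assoc] at this
  rw [mul_comm]
  exact le_of_mul_le_mul_left this (by positivity)

end Pool.Agent.H2.Id
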