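import Pool.Agent.H2.Id1

namespace Pool.Agent.H2.Id

open Finset Filter Classical Topology
open scoped ZeroAtInfty

lemma cnt {I : Type} {W : Finset I} {f : I → ℝ} {P : I → Prop} {c : ℕ} (h1 : ∀ b, |f b| ≤ 1)
    (h2 : ∀ b ∈ W, f b ≠ 0 → P b) (h3 : #{b ∈ W | P b} ≤ c) : ∑ b ∈ W, |f b| ≤ c := by
  rw [← sum_filter_of_ne (p := P) fun b hb h => h2 b hb (abs_ne_zero.1 h)]
  refine (sum_le_card_nsmul _ _ 1 fun b _ => h1 b).trans ?_
  simpa using h3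

lemma key {X I : Type} [Fintype X] {Λ : X → X → ℝ} {κ : ℝ} {c : ℕ} (hc : 0 < c)
    (h : ∀ α β : X → ℝ, (∀ a, |α a| ≤ 1) → (∀ a, |β a| ≤ 1) → ∑ a, ∑ b, Λ a b * α a * β b ≤ κ)
    {G : I → I → ℝ} (G1 : ∀ a b, |G a b| ≤ 1) (G2 : ∀ a b, G a b ≠ 0 → G b a ≠ 0)
    (G3 : ∀ W : Finset I, W.Nonempty → #W ≤ 2 * Fintype.card X → ∃ a ∈ W, #{b ∈ W | G a b ≠ 0} ≤ c)
    (p q : X → I) {σ τ : X → ℝ} (hσ : ∀ y, |σ y| ≤ 1) (hτ : ∀ y, |τ y| ≤ 1) :
    ∑ x, ∑ y, Λ x y * σ x * τ y * G (p x) (q y) ≤ 2 * (c * κ) := by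
  set W := univ.image p ∪ univ.image q
  have hp : ∀ x, p x ∈ W := fun x => by simp [W]
  have hq : ∀ x, q x ∈ W := fun x => by simp [W]
  obtain ⟨o, o1, o2⟩ := orient (adj := fun a b => G a b ≠ 0) (c := c) W fun W' k k' => by
    convert G3 W' k' ((card_le_card k).trans ((card_union_le _ _).trans (by
      rw [two_mul]; exact add_le_add card_image_le card_image_le)))
  have m : ∀ s a : ℝ, |s| ≤ 1 → |a| ≤ 1 → |s * a| ≤ 1 := fun s a h h' => by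
    rw [abs_mul]; exact mul_le_one₀ h (abs_nonneg _) h'
  have k1 := rows (c := c) (by exact_mod_cast hc) h hq
    (u := fun x b => σ x * if o (p x) b then G (p x) b else 0) (fun x => cnt
      (P := fun b => G (p x) b ≠ 0 ∧ o (p x) b)
      (fun b => m _ _ (hσ x) (by split_ifs <;> simp [G1])) (fun b _ k =>
        ⟨fun z => k (by simp [z]), by_contra fun z => k (by simp [z])⟩) (by convert o2 _ (hp x))) hτ
  have k2 := rows (Λ := fun y x => Λ x y) (κ := κ) (c := c) (by exact_mod_cast hc) (fun α β a b => by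
      rw [sum_comm]; simpa only [mul_right_comm] using h β α b a) hp
    (u := fun y a => τ y * if o a (q y) then 0 else G a (q y)) (fun y => cnt
      (P := fun a => G (q y) a ≠ 0 ∧ o (q y) a)
      (fun b => m _ _ (hτ y) (by split_ifs <;> simp [G1]))
      (fun b hb k => by
        by_cases e : o b (q y)
        · simp [e] at k
        · exact ⟨G2 _ _ fun z => k (by simp [z]), (o1 b hb _ (hq y)).resolve_left e⟩)
      (by convert o2 _ (hq y))) hσ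
  rw [sum_comm] at k2
  rw [two_mul]
  refine le_trans (le_of_eq ?_) (add_le_add k1 k2)
  simp only [← sum_add_distrib]
  exact sum_congr rfl fun x _ => sum_congr rfl fun y _ => by split_ifs <;> ring

noncomputable abbrev L1 := lp (fun _ : ℕ => ℝ) 1

noncomputable abbrev ee (i : ℕ) : L1 := lp.single 1 i 1

lemma ev_le (z : C₀(ℕ, ℝ)) (j : ℕ) : |z j| ≤ ‖z‖ := z.toBCF.norm_coe_le_norm j

lemma c0_le {z : C₀(ℕ, ℝ)} {C : ℝ} (h : ∀ j, |z j| ≤ C) : ‖z‖ ≤ C :=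
  (BoundedContinuousFunction.norm_le_of_nonempty (f := z.toBCF)).2 h

noncomputable def ev (j : ℕ) : C₀(ℕ, ℝ) →L[ℝ] ℝ :=
  LinearMap.mkContinuous ⟨⟨fun z => z j, fun _ _ => rfl⟩, fun _ _ => rfl⟩ 1 fun z => by
    rw [one_mul]; exact ev_le z j

lemma ev_apply (j : ℕ) (z : C₀(ℕ, ℝ)) : ev j z = z j := rfl

lemma sgn (a : ℝ) : ∃ s, |s| ≤ 1 ∧ |a| = s * a := by
  rcases abs_choice a with h | h
  exacts [⟨1, by simp, by simp [h]⟩, ⟨-1, by simp, by simp [h]⟩]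

lemma c0_pt (z : C₀(ℕ, ℝ)) : ∃ j s, |s| ≤ 1 ∧ ‖z‖ ≤ 2 * (s * z j) := by
  by_contra! h
  have k : ∀ j, |z j| < ‖z‖ / 2 := fun j => by
    obtain ⟨s, h1, h2⟩ := sgn (z j)
    linarith [h j s h1]
  linarith [c0_le fun j => (k j).le, k 0, abs_nonneg (z 0)]

lemma l1_pt (φ : L1 →L[ℝ] ℝ) (b : L1) : ∃ i s, |s| ≤ 1 ∧ |φ b| ≤ 2 * ‖b‖ * (s * φ (ee i)) ∧
    0 ≤ s * φ (ee i) := by
  by_contra! h
  have k : ∀ i, 2 * ‖b‖ * |φ (ee i)| < |φ b| := fun i => by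
    obtain ⟨s, h1, h2⟩ := sgn (φ (ee i))
    by_contra! c
    exact (h i s h1 (h2 ▸ c)).not_ge (h2 ▸ abs_nonneg _)
  have b0 : 0 < ‖b‖ := norm_pos_iff.2 fun e => by simpa [e] using k 0
  have h1 := (lp.hasSum_single (by norm_num) b).mapL φ
  have h2 := (lp.hasSum_norm (by norm_num) b).mul_right (|φ b| / (2 * ‖b‖))
  have := h1.norm_le_of_bounded h2 fun i => by
    rw [show lp.single 1 i (b i) = b i • ee i by rw [← lp.single_smul]; simp, map_smul, norm_smul]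
    simp only [ENNReal.toReal_one, Real.rpow_one]
    gcongr
    rw [le_div_iff₀' (by positivity)]
    exact (k i).le
  simp only [ENNReal.toReal_one, Real.rpow_one, Real.norm_eq_abs] at this
  rw [show ‖b‖ * (|φ b| / (2 * ‖b‖)) = |φ b| / 2 by field_simp] at this
  have := (by positivity : 0 ≤ 2 * ‖b‖ * |φ (ee 0)|).trans_lt (k 0)
  linarith

lemma est {X : Type} [Fintype X] {Λ : X → X → ℝ} {η : ℝ} {T : L1 →L[ℝ] C₀(ℕ, ℝ)}
    (h : ∀ (p q : X → ℕ) (σ τ : X → ℝ), (∀ y, |σ y| ≤ 1) → (∀ y, |τ y| ≤ 1) →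
      ∑ x, ∑ y, Λ x y * σ x * τ y * T (ee (p x)) (q y) ≤ η) (ι : X → ℕ) (A : L1 →L[ℝ] L1)
    (B : C₀(ℕ, ℝ) →L[ℝ] C₀(ℕ, ℝ)) :
    |∑ x, ∑ y, Λ x y * (B ∘L T ∘L A) (ee (ι x)) (ι y)| ≤ 2 * ‖A‖ * (‖B‖ * (2 * η)) := by
  choose p σ h1 h2 h3 using fun x => l1_pt (∑ y, Λ x y • ev (ι y) ∘L B ∘L T) (A (ee (ι x)))
  choose q τ k1 k2 using fun y => c0_pt (∑ x, (σ x * Λ x y) • T (ee (p x)))
  simp only [ContinuousLinearMap.sum_apply, ContinuousLinearMap.smul_apply,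
    ContinuousLinearMap.comp_apply, ev_apply, smul_eq_mul] at h2 h3 ⊢
  refine (abs_sum_le_sum_abs _ _).trans ((sum_le_sum fun x _ => (h2 x).trans
    (mul_le_mul_of_nonneg_right (c := 2 * ‖A‖) ?_ (h3 x))).trans ?_)
  · gcongr
    exact (A.le_opNorm _).trans (by simp [lp.norm_single])
  rw [← mul_sum]
  gcongr
  calc _ = ∑ y, ev (ι y) (B (∑ x, (σ x * Λ x y) • T (ee (p x)))) := by
        simp only [map_sum, map_smul, ev_apply, smul_eq_mul, mul_sum, mul_assoc]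
        exact sum_comm
    _ ≤ ∑ y, ‖B‖ * (2 * (τ y * ev (q y) (∑ x, (σ x * Λ x y) • T (ee (p x))))) :=
        sum_le_sum fun y _ => (le_abs_self _).trans ((ev_le _ _).trans ((B.le_opNorm _).trans
          (mul_le_mul_of_nonneg_left (k2 y) (norm_nonneg _))))
    _ ≤ _ := by
        rw [← mul_sum, ← mul_sum]
        gcongr
        refine le_trans (le_of_eq ?_) (h p q σ τ h1 k1)
        simp only [map_sum, map_smul, ev_apply, smul_eq_mul, mul_sum]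
        rw [sum_comm]
        exact sum_congr rfl fun x _ => sum_congr rfl fun y _ => by ring

lemma op (G : ℕ → ℕ → ℝ) (h1 : ∀ i j, |G i j| ≤ 1) (h2 : ∀ i, {j | G i j ≠ 0}.Finite) :
    ∃ T : L1 →L[ℝ] C₀(ℕ, ℝ), ∀ i j, T (ee i) j = G i j := by
  let col : ℕ → C₀(ℕ, ℝ) := fun i => ⟨⟨G i, continuous_of_discreteTopology⟩, by
    rw [cocompact_eq_cofinite]
    exact tendsto_const_nhds.congr' ((h2 i).eventually_cofinite_notMem.mono fun j h =>
      (not_not.1 h).symm)⟩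
  refine ⟨lp.tsumCLM ℝ ℕ _ ∘L lp.mapCLM 1 (fun i => ContinuousLinearMap.toSpanSingleton ℝ (col i))
    zero_le_one fun i => ?_, fun i j => ?_⟩
  · rw [ContinuousLinearMap.norm_toSpanSingleton]; exact c0_le (h1 i)
  · show (∑' k, ee i k • col k) j = _
    rw [tsum_eq_single i fun k hk => by rw [lp.single_apply_ne _ _ _ hk, zero_smul]]
    simp [col]

lemma seq : ∃ (V : ℕ → Type) (_ : ∀ n, Fintype (V n)) (g : ∀ n, V n → V n → ℝ) (c : ℕ → ℕ),
    (∀ n a b, g n a b * g n a b = |g n a b|) ∧ (∀ n a b, |g n a b| ≤ 1) ∧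
    (∀ n a b, g n a b ≠ 0 → g n b a ≠ 0) ∧ (∀ n, 0 < c n) ∧ (∀ n, 0 < ∑ a, ∑ b, |g n a b|) ∧
    (∀ n m, m ≠ n → ∀ W : Finset (V m), W.Nonempty → #W ≤ 2 * Fintype.card (V n) →
      ∃ a ∈ W, #{b ∈ W | g m a b ≠ 0} ≤ c n) ∧
    ∀ n (α β : V n → ℝ), (∀ a, |α a| ≤ 1) → (∀ a, |β a| ≤ 1) →
      (n + 1) * c n * ∑ a, ∑ b, g n a b * α a * β b ≤ ∑ a, ∑ b, |g n a b| := by
  choose V inst g c h1 h2 h3 h4 h5 h6 h7 h8 using block
  let k : ℕ → ℕ := fun n => Nat.rec 0 (fun n k => k + 2 * Fintype.card (V k n)) n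
  have k1 : Monotone k := monotone_nat_of_le_succ fun n => Nat.le_add_right _ _
  have k2 : ∀ m n, m < n → 2 * Fintype.card (V (k m) m) ≤ k n := fun m n h =>
    (Nat.le_add_left _ _).trans (k1 h)
  refine ⟨fun n => V (k n) n, fun n => inst _ _, fun n => g _ _, fun n => c (k n) n,
    fun n => h1 _ _, fun n => h2 _ _, fun n => h3 _ _, fun n => (Nat.zero_le _).trans_lt (h4 _ _),
    fun n => h6 _ _, fun n m h W w1 w2 => ?_, fun n => h8 _ _⟩
  rcases lt_or_gt_of_ne h with h | h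
  · refine w1.imp fun a ha => ⟨ha, (card_le_univ _).trans ?_⟩
    exact ((Nat.le_mul_of_pos_left _ two_pos).trans (k2 m n h)).trans (h4 (k n) n).le
  · by_contra! e
    have := (h7 _ _ _ W w1 (w2.trans (k2 n m h)) e).trans (w2.trans (h5 _ _))
    exact absurd (Nat.pow_le_pow_iff_right one_lt_two |>.1 this) (by omega)

lemma ops : ∃ (T : Set ℕ → L1 →L[ℝ] C₀(ℕ, ℝ)) (F : ℕ → (L1 →L[ℝ] C₀(ℕ, ℝ)) →ₗ[ℝ] ℝ),
    (∀ n S, |F n S| ≤ ‖S‖) ∧ (∀ M, ∀ n ∈ M, F n (T M) = 1) ∧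
    ∀ M, ∀ n ∉ M, ∀ A B, |F n (B ∘L T M ∘L A)| ≤ 8 * ‖A‖ * ‖B‖ / (n + 1) := by
  obtain ⟨V, _, g, c, h1, h2, h3, h4, h5, h6, h7⟩ := seq
  have : ∀ n, Nonempty (V n) := fun n => by
    by_contra! e
    simpa using h5 n
  obtain ⟨e⟩ : Nonempty ((Σ n, V n) ≃ ℕ) := inferInstance
  let G : Set ℕ → (Σ n, V n) → (Σ n, V n) → ℝ := fun M u v =>
    if u.1 ∈ M then Function.extend (Sigma.mk u.1) (g u.1 u.2) 0 v else 0
  have g1 : ∀ M, ∀ n ∈ M, ∀ a b, G M ⟨n, a⟩ ⟨n, b⟩ = g n a b := fun M n h a b => by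
    simp only [G, if_pos h, sigma_mk_injective.extend_apply]
  have g2 : ∀ M n a v, G M ⟨n, a⟩ v ≠ 0 → n ∈ M ∧ ∃ b, ⟨n, b⟩ = v := fun M n a v h => by
    by_contra c
    by_cases k : n ∈ M
    · exact h (by simp only [G, if_pos k]; exact Function.extend_apply' _ _ _ fun z => c ⟨k, z⟩)
    · exact h (if_neg k)
  have g3 : ∀ M u v, |G M u v| ≤ 1 := fun M ⟨n, a⟩ v => by
    by_cases h : G M ⟨n, a⟩ v = 0
    · simp [h]
    obtain ⟨k, b, rfl⟩ := g2 _ _ _ _ h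
    rw [g1 _ _ k]; exact h2 _ _ _
  choose T hT using fun M => op (fun i j => G M (e.symm i) (e.symm j)) (fun _ _ => g3 _ _ _)
    fun i => ((Set.finite_range (Sigma.mk (e.symm i).1)).preimage e.symm.injective.injOn).subset
      fun j h => (g2 _ _ _ _ h).2
  refine ⟨T, fun n => ⟨⟨fun S => (∑ x, ∑ y, g n x y * S (ee (e ⟨n, x⟩)) (e ⟨n, y⟩)) /
    ∑ x, ∑ y, |g n x y|, fun S S' => ?_⟩, fun z S => ?_⟩, fun n S => ?_, fun M n h => ?_,
    fun M n h A B => ?_⟩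
  · simp [mul_add, sum_add_distrib, add_div]
  · simp [mul_sum, mul_left_comm, mul_div_assoc']
  · simp only [LinearMap.coe_mk, AddHom.coe_mk]
    rw [abs_div, abs_of_pos (h5 n), div_le_iff₀ (h5 n), mul_sum]
    refine (abs_sum_le_sum_abs _ _).trans (sum_le_sum fun x _ => ?_)
    rw [mul_sum]
    refine (abs_sum_le_sum_abs _ _).trans (sum_le_sum fun y _ => ?_)
    rw [abs_mul, mul_comm]
    gcongr
    exact (ev_le _ _).trans ((S.le_opNorm _).trans (by simp [lp.norm_single]))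
  · simp only [LinearMap.coe_mk, AddHom.coe_mk, hT, e.symm_apply_apply, g1 _ _ h, h1]
    exact div_self (h5 n).ne'
  · simp only [LinearMap.coe_mk, AddHom.coe_mk]
    have c0 : (0 : ℝ) < c n := by exact_mod_cast h4 n
    rw [abs_div, abs_of_pos (h5 n), div_le_iff₀ (h5 n)]
    refine (est (T := T M) (fun p q σ τ hσ hτ => ?_) (fun x => e ⟨n, x⟩) A B
      (η := 2 * (c n * ((∑ x, ∑ y, |g n x y|) / ((n + 1) * c n))))).trans (le_of_eq ?_)
    · simp only [hT]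
      refine key (h4 n) (fun α β a b => ?_) (g3 M) ?_ (fun W ⟨⟨m, a⟩, ha⟩ w => ?_) _ _ hσ hτ
      · rw [le_div_iff₀' (by positivity)]
        exact h7 n α β a b
      · rintro ⟨m, a⟩ v k
        obtain ⟨k', b, rfl⟩ := g2 _ _ _ _ k
        rw [g1 _ _ k'] at k ⊢
        exact h3 _ _ _ k
      by_cases k : m ∈ M
      · obtain ⟨b, b1, b2⟩ := h6 n m (fun z => h (z ▸ k))
          (W.preimage (Sigma.mk m) sigma_mk_injective.injOn) ⟨a, mem_preimage.2 ha⟩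
          ((card_le_card_of_injOn (Sigma.mk m) (fun x hx => mem_preimage.1 hx)
            sigma_mk_injective.injOn).trans w)
        refine ⟨_, mem_preimage.1 b1, le_trans (le_trans (card_le_card fun v hv => ?_)
          (card_image_le (f := Sigma.mk m))) b2⟩
        obtain ⟨v1, v2⟩ := mem_filter.1 hv
        obtain ⟨-, x, rfl⟩ := g2 _ _ _ _ v2
        exact mem_image_of_mem _ (mem_filter.2 ⟨mem_preimage.2 v1, g1 _ _ k _ _ ▸ v2⟩)
      · exact ⟨_, ha, by simp [G, k]⟩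
    · field_simp; ring

end Pool.Agent.H2.Id
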