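import Pool.Agent.H2.JorDefs

namespace Pool.Agent.H2.Jor

open Module IsLocalRing

lemma sum_le_take (Q : List ℕ) (hQ : Q.Pairwise (· ≥ ·)) : ∀ (s : Multiset ℕ) (d : ℕ),
    s ≤ Q → s.card ≤ d → s.sum ≤ (Q.take d).sum := by
  induction Q with
  | nil => intro s d h _; simp at h; simp [h]
  | cons a l ih =>
    intro s d h hd
    rw [List.pairwise_cons] at hQ
    by_cases h0 : s = 0
    · simp [h0]
    obtain ⟨b, hb⟩ := Multiset.exists_mem_of_ne_zero h0
    obtain ⟨d, rfl⟩ : ∃ e, d = e + 1 := ⟨d - 1, by have := Multiset.card_pos.2 h0; omega⟩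
    rw [List.take_succ_cons, List.sum_cons]
    rw [← Multiset.cons_coe] at h
    by_cases ha : a ∈ s
    · obtain ⟨s, rfl⟩ := Multiset.exists_cons_of_mem ha
      rw [Multiset.sum_cons]
      have := ih hQ.2 s d ((Multiset.cons_le_cons_iff a).1 h) (by simpa using hd)
      omega
    · have h1 := (Multiset.le_cons_of_notMem ha).1 h
      have h2 := hQ.1 b (Multiset.mem_coe.1 (Multiset.mem_of_le h1 hb))
      obtain ⟨s, rfl⟩ := Multiset.exists_cons_of_mem hb
      rw [Multiset.sum_cons]
      have := ih hQ.2 s d ((Multiset.le_cons_self s b).trans h1) (by simpa using hd)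
      omega

lemma eq_of_take (P : List ℕ) : ∀ Q : List ℕ, (∀ p ∈ P, 0 < p) → (∀ p ∈ Q, 0 < p) →
    (∀ d, (P.take d).sum = (Q.take d).sum) → P = Q := by
  induction P with
  | nil =>
    intro Q _ hQ h
    cases Q with
    | nil => rfl
    | cons b l => have := h 1; have := hQ b (by simp); simp at *; omega
  | cons a l ih =>
    intro Q hP hQ h
    cases Q with
    | nil => have := h 1; have := hP a (by simp); simp at *; omega
    | cons b l' =>
      have e : a = b := by simpa using h 1
      subst e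
      rw [ih l' (fun p hp => hP p (by simp [hp])) (fun p hp => hQ p (by simp [hp])) fun d => by
        simpa using h (d + 1)]

def Contig (h : ℕ → ℕ) (t : ℕ) : Prop :=
  ∀ i j k, i ≤ j → j ≤ k → t ≤ h i → t ≤ h k → t ≤ h j

section comb
variable {h : ℕ → ℕ} {N : ℕ} (hN : ∀ i, N ≤ i → h i = 0)
include hN

lemma run_fin : {x | IsRun h x}.Finite := by
  refine Set.Finite.subset (Finset.range ((Finset.range N).sup h + 1) ×ˢ Finset.range N ×ˢ
    Finset.range N).finite_toSet ?_
  rintro ⟨t, a, b⟩ ⟨h1, h2, h3, -⟩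
  have k1 := h3 b h2 le_rfl
  simp only at h1 h2 k1
  have k2 : b < N := by
    by_contra hb
    rw [hN b (by omega)] at k1
    omega
  have k3 := Finset.le_sup (f := h) (Finset.mem_range.2 k2)
  simp only [Finset.coe_product, Set.mem_prod, Finset.mem_coe, Finset.mem_range]
  omega

lemma Pc_pos : ∀ p ∈ Pc h, 0 < p := by
  intro p hp
  rw [Pc, dif_pos (run_fin hN), Multiset.mem_sort, Multiset.mem_map] at hp
  obtain ⟨x, hx, rfl⟩ := hp
  have := ((run_fin hN).mem_toFinset.1 hx).2.1
  omega

lemma min_le_Pc (d : ℕ) (hc : ∀ t ≤ d, Contig h t) :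
    ∑ i ∈ Finset.range N, min (h i) d ≤ ((Pc h).take d).sum := by
  classical
  have ex : ∀ t, ∃ ab : ℕ × ℕ, 1 ≤ t → t ≤ d → ((Finset.range N).filter (t ≤ h ·)).Nonempty →
      IsRun h (t, ab) ∧ ((Finset.range N).filter (t ≤ h ·)).card ≤ ab.2 + 1 - ab.1 := by
    intro t
    by_cases hne : ((Finset.range N).filter (t ≤ h ·)).Nonempty
    swap
    · exact ⟨0, fun _ _ h => absurd h hne⟩
    set s := (Finset.range N).filter (t ≤ h ·) with hs
    refine ⟨(s.min' hne, s.max' hne), fun h1 h2 _ => ⟨⟨h1, s.min'_le_max' hne, fun i hi hi' => ?_,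
      ?_, ?_⟩, ?_⟩⟩
    · exact hc t h2 _ _ _ hi hi' (Finset.mem_filter.1 (s.min'_mem hne)).2
        (Finset.mem_filter.1 (s.max'_mem hne)).2
    · by_cases h0 : s.min' hne = 0
      · exact Or.inl h0
      · right
        by_contra hx
        have h3 := Finset.mem_range.1 (Finset.mem_filter.1 (s.min'_mem hne)).1
        have := s.min'_le (s.min' hne - 1)
          (Finset.mem_filter.2 ⟨Finset.mem_range.2 (by omega), not_lt.1 hx⟩)
        omega
    · by_contra hx
      have hx' : t ≤ h (s.max' hne + 1) := not_lt.1 hx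
      have h3 : s.max' hne + 1 < N := by
        by_contra h4
        rw [hN _ (by omega)] at hx'
        omega
      have := s.le_max' (s.max' hne + 1) (Finset.mem_filter.2 ⟨Finset.mem_range.2 h3, hx'⟩)
      omega
    · rw [← Nat.card_Icc]
      exact Finset.card_le_card fun i hi => Finset.mem_Icc.2 ⟨s.min'_le i hi, s.le_max' i hi⟩
  choose ab hab using ex
  let T := (Finset.Icc 1 d).filter fun t => ((Finset.range N).filter (t ≤ h ·)).Nonempty
  have hT : ∀ t ∈ T, IsRun h (t, ab t) ∧
      ((Finset.range N).filter (t ≤ h ·)).card ≤ (ab t).2 + 1 - (ab t).1 := fun t ht =>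
    hab t (Finset.mem_Icc.1 (Finset.mem_filter.1 ht).1).1
      (Finset.mem_Icc.1 (Finset.mem_filter.1 ht).1).2 (Finset.mem_filter.1 ht).2
  let e : ℕ ↪ ℕ × ℕ × ℕ := ⟨fun t => (t, ab t), fun a b h => congrArg Prod.fst h⟩
  have h1 : ∑ i ∈ Finset.range N, min (h i) d =
      ∑ t ∈ T, ((Finset.range N).filter (t ≤ h ·)).card := by
    rw [Finset.sum_filter_of_ne fun t _ ht => Finset.card_ne_zero.1 ht]
    simp only [Finset.card_filter]
    rw [Finset.sum_comm]
    refine Finset.sum_congr rfl fun i _ => ?_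
    rw [← Finset.card_filter, show (Finset.Icc 1 d).filter (· ≤ h i) = Finset.Icc 1 (min (h i) d) by
      ext t; simp; omega]
    simp
  rw [h1]
  refine (Finset.sum_le_sum fun t ht => (hT t ht).2).trans ?_
  have h2 := sum_le_take (Pc h) (by rw [Pc, dif_pos (run_fin hN)]; exact Multiset.pairwise_sort _ _)
    ((T.map e).val.map fun x => x.2.2 + 1 - x.2.1) d (by
      rw [Pc, dif_pos (run_fin hN), Multiset.sort_eq]
      refine Multiset.map_le_map (Finset.val_le_iff.2 fun x hx => ?_)
      obtain ⟨t, ht, rfl⟩ := Finset.mem_map.1 hx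
      exact (run_fin hN).mem_toFinset.2 (hT t ht).1) (by
      rw [Multiset.card_map, Finset.card_val, Finset.card_map]
      exact (Finset.card_filter_le _ _).trans (by simp))
  rw [← Finset.sum_eq_multiset_sum, Finset.sum_map] at h2
  exact h2

lemma unimodal (hc : ∀ t, Contig h t) : Unimodal h := by
  obtain ⟨j, -, hj⟩ := Finset.exists_max_image (Finset.range (N + 1)) h ⟨0, by simp⟩
  have hj' : ∀ i, h i ≤ h j := fun i => by
    by_cases hi : i < N + 1
    · exact hj i (Finset.mem_range.2 hi)
    · rw [hN i (by omega)]; omega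
  exact ⟨j, fun i hi => hc _ i _ j (by omega) hi le_rfl (hj' i),
    fun i hi => hc _ j _ (i + 1) hi (by omega) (hj' _) le_rfl⟩

end comb

section alg
variable {k A : Type} [Field k] [CommRing A] [Algebra k A] [IsLocalRing A] [Module.Finite k A]

noncomputable def M (k A : Type) [Field k] [CommRing A] [Algebra k A] [IsLocalRing A] (i : ℕ) :
    Submodule k A := (maximalIdeal A ^ i : Ideal A).restrictScalars k

omit [Module.Finite k A] in
lemma M_anti (i : ℕ) : M k A (i + 1) ≤ M k A i := Ideal.pow_le_pow_right (Nat.le_succ i)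

omit [Module.Finite k A] in
lemma hf_eq (i : ℕ) : hf k A i = finrank k (M k A i) - finrank k (M k A (i + 1)) := rfl

lemma rank_le (L : A →ₗ[k] A) {U W : Submodule k A} (h : U ≤ W) :
    finrank k U + finrank k (W.map L) ≤ finrank k W + finrank k (U.map L) := by
  have key : ∀ V : Submodule k A, finrank k (V.map L) + finrank k (V ⊓ LinearMap.ker L : Submodule k A)
      = finrank k V := by
    intro V
    have := (L.domRestrict V).finrank_range_add_finrank_ker
    rw [LinearMap.range_domRestrict, LinearMap.ker_domRestrict] at this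
    rw [← this, ← Submodule.finrank_map_subtype_eq V, Submodule.map_comap_subtype]
  have h1 := key U
  have h2 := key W
  have h3 := Submodule.finrank_mono (inf_le_inf_right (LinearMap.ker L) h)
  omega

lemma desc {l : A} (hl : l ∈ maximalIdeal A) (j : ℕ)
    (h : M k A (j + 1) ≤ (M k A j).map (LinearMap.mulLeft k l) ⊔ M k A (j + 2)) (i : ℕ) (hi : j ≤ i) :
    hf k A (i + 1) ≤ hf k A i := by
  have h1 : M k A (i + 1) ≤ (M k A i).map (LinearMap.mulLeft k l) ⊔ M k A (i + 2) := by
    induction i, hi using Nat.le_induction with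
    | base => exact h
    | succ i _ ih =>
      intro x hx
      have hx' : x ∈ maximalIdeal A ^ (i + 1) * maximalIdeal A := by rw [← pow_succ]; exact hx
      refine Submodule.mul_induction_on hx' (fun a ha b hb => ?_) fun a b ha hb => add_mem ha hb
      obtain ⟨_, ⟨u, hu, rfl⟩, w, hw, rfl⟩ := Submodule.mem_sup.1 (ih ha)
      rw [add_mul]
      refine add_mem (Submodule.mem_sup_left ⟨u * b, ?_, by simp [mul_assoc]⟩)
        (Submodule.mem_sup_right ?_)
      · exact (pow_succ (maximalIdeal A) i).ge (Ideal.mul_mem_mul hu hb)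
      · exact (pow_succ (maximalIdeal A) (i + 2)).ge (Ideal.mul_mem_mul hw hb)
  have h2 : (M k A (i + 1)).map (LinearMap.mulLeft k l) ≤
      (M k A i).map (LinearMap.mulLeft k l) ⊓ M k A (i + 2) := by
    refine le_inf (Submodule.map_mono (M_anti i)) ?_
    rintro _ ⟨u, hu, rfl⟩
    exact (pow_succ' (maximalIdeal A) (i + 1)).ge (Ideal.mul_mem_mul hl hu)
  have h3 := Submodule.finrank_mono h1
  have h4 := Submodule.finrank_mono h2
  have h5 := Submodule.finrank_sup_add_finrank_inf_eq ((M k A i).map (LinearMap.mulLeft k l))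
    (M k A (i + 2))
  have h6 := rank_le (LinearMap.mulLeft k l) (M_anti (k := k) (A := A) i)
  rw [hf_eq, hf_eq]
  change finrank k (M k A (i + 1)) - finrank k (M k A (i + 2)) ≤ _
  omega

lemma core {l : A} (hl : l ∈ maximalIdeal A) {N : ℕ} (hN : M k A N = ⊥) (W : Submodule k A) (d : ℕ)
    (h2 : finrank k W ≤ finrank k (W.map (LinearMap.mulLeft k l)) + d)
    (h1 : W.map (LinearMap.mulLeft k l) ≤ W) :
    finrank k W ≤ ∑ i ∈ Finset.range N, min (hf k A i) d ∧
    (∑ i ∈ Finset.range N, min (hf k A i) d ≤ finrank k W → ∀ j, j + 1 < N → d ≤ hf k A j →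
      hf k A (j + 1) ≤ d → ∀ i, j ≤ i → hf k A (i + 1) ≤ hf k A i) := by
  let w : ℕ → ℕ := fun j => finrank k (W ⊓ M k A j : Submodule k A)
  have a0 : ∀ j, (W ⊓ M k A j).map (LinearMap.mulLeft k l) ≤ W ⊓ M k A (j + 1) := by
    rintro j _ ⟨u, hu, rfl⟩
    exact ⟨h1 ⟨u, hu.1, rfl⟩, (pow_succ' (maximalIdeal A) j).ge (Ideal.mul_mem_mul hl hu.2)⟩
  have a1 : ∀ j, w j ≤ finrank k ((W ⊓ M k A j).map (LinearMap.mulLeft k l)) + d := fun j => by
    have := rank_le (LinearMap.mulLeft k l) (inf_le_left : W ⊓ M k A j ≤ W)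
    simp only [w]
    omega
  have a2 : ∀ j, finrank k ((W ⊓ M k A j) ⊔ M k A (j + 1) : Submodule k A) + w (j + 1) =
      w j + finrank k (M k A (j + 1)) := fun j => by
    have := Submodule.finrank_sup_add_finrank_inf_eq (W ⊓ M k A j) (M k A (j + 1))
    rwa [inf_assoc, inf_eq_right.2 (M_anti j)] at this
  have a3 : ∀ j, (W ⊓ M k A j) ⊔ M k A (j + 1) ≤ M k A j := fun j => sup_le inf_le_right (M_anti j)
  have a4 : ∀ j, w (j + 1) ≤ w j := fun j => Submodule.finrank_mono (inf_le_inf_left _ (M_anti j))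
  have a5 : ∀ j ∈ Finset.range N, w j - w (j + 1) ≤ min (hf k A j) d := fun j _ => by
    have b1 := a1 j
    have b2 := a2 j
    have b3 := Submodule.finrank_mono (a3 j)
    have b4 : _ ≤ w (j + 1) := Submodule.finrank_mono (a0 j)
    rw [hf_eq]
    omega
  have a6 : ∀ n, ∑ j ∈ Finset.range n, (w j - w (j + 1)) + w n = finrank k W := by
    intro n
    induction n with
    | zero =>
      have : M k A 0 = ⊤ := by simp [M]
      simp only [w, Finset.range_zero, Finset.sum_empty, zero_add]
      rw [this, inf_top_eq]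
    | succ n ih => rw [Finset.sum_range_succ]; have := a4 n; omega
  have a7 := a6 N
  have a8 : w N = 0 := by simp only [w]; rw [hN, inf_bot_eq, finrank_bot]
  have a9 := Finset.sum_le_sum a5
  refine ⟨by omega, fun h j hj hd hd' => desc hl j ?_⟩
  have b := (Finset.sum_eq_sum_iff_of_le a5).1 (by omega)
  have b1 := b j (Finset.mem_range.2 (by omega))
  have b2 := b (j + 1) (Finset.mem_range.2 hj)
  have c1 := Submodule.eq_of_le_of_finrank_le (a0 j) (by
    have := a1 j
    have := a4 j
    change w (j + 1) ≤ _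
    omega)
  have c2 := Submodule.eq_of_le_of_finrank_le (a3 (j + 1)) (by
    have := a2 (j + 1)
    have := a4 (j + 1)
    have := hf_eq (k := k) (A := A) (j + 1)
    omega)
  rw [← c2, ← c1]
  exact sup_le_sup_right (Submodule.map_mono inf_le_right) _

lemma sum_take (P : List ℕ) : ∀ d, ∑ i : Fin P.length, (if (i : ℕ) < d then P.get i else 0) =
    (P.take d).sum := by
  induction P with
  | nil => simp
  | cons a l ih =>
    intro d
    cases d with
    | zero => simp
    | succ d =>
      rw [List.take_succ_cons, List.sum_cons, ← ih d]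
      erw [Fin.sum_univ_succ]
      simp

omit [IsLocalRing A] in
lemma strings {l : A} {P : List ℕ} (h : IsJordanType k l P) (d : ℕ) : ∃ W : Submodule k A,
    (P.take d).sum ≤ finrank k W ∧ finrank k W ≤ finrank k (W.map (LinearMap.mulLeft k l)) + d ∧
    W.map (LinearMap.mulLeft k l) ≤ W := by
  classical
  obtain ⟨-, -, v, h0, hli, -⟩ := h
  let s : Finset (Σ i : Fin P.length, Fin (P.get i)) :=
    (Finset.univ.filter fun i : Fin P.length => (i : ℕ) < d).sigma fun _ => Finset.univ
  have hs : ∀ x, x ∈ s ↔ (x.1 : ℕ) < d := by simp [s]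
  refine ⟨Submodule.span k (Set.range fun x : s => l ^ (x.1.2 : ℕ) * v x.1.1), ?_, ?_, ?_⟩
  · have := finrank_span_eq_card (hli.comp (fun x : s => x.1) Subtype.val_injective)
    erw [this]
    rw [Fintype.card_coe, Finset.card_sigma, ← sum_take, Finset.sum_filter]
    simp
  · set W := Submodule.span k (Set.range fun x : s => l ^ (x.1.2 : ℕ) * v x.1.1) with hW
    let u : Fin d → A := fun i => if hi : (i : ℕ) < P.length then v ⟨i, hi⟩ else 0
    have h1 : W ≤ W.map (LinearMap.mulLeft k l) ⊔ Submodule.span k (Set.range u) := by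
      rw [hW, Submodule.span_le]
      rintro _ ⟨⟨⟨i, j, hj⟩, hx⟩, rfl⟩
      cases j with
      | zero =>
        exact Submodule.mem_sup_right (Submodule.subset_span ⟨⟨i, (hs _).1 hx⟩, by simp [u]⟩)
      | succ j =>
        exact Submodule.mem_sup_left ⟨_, Submodule.subset_span
          ⟨⟨⟨i, j, by omega⟩, (hs _).2 ((hs ⟨i, j + 1, hj⟩).1 hx)⟩, rfl⟩, by simp [pow_succ', mul_assoc]⟩
    have h2 := Submodule.finrank_mono h1
    have h3 := Submodule.finrank_add_le_finrank_add_finrank (W.map (LinearMap.mulLeft k l))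
      (Submodule.span k (Set.range u))
    have h4 : finrank k (Submodule.span k (Set.range u)) ≤ d :=
      (finrank_range_le_card u).trans (by simp)
    omega
  · rw [Submodule.map_span, Submodule.span_le]
    rintro _ ⟨_, ⟨⟨⟨i, j, hj⟩, hx⟩, rfl⟩, rfl⟩
    simp only [LinearMap.mulLeft_apply, ← mul_assoc, ← pow_succ']
    by_cases h : j + 1 < P.get i
    · exact Submodule.subset_span ⟨⟨⟨i, j + 1, h⟩, (hs _).2 ((hs ⟨i, j, hj⟩).1 hx)⟩, rfl⟩
    · rw [show j + 1 = P.get i by omega, h0]
      exact zero_mem _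

theorem main {l : A} (hl : l ∈ maximalIdeal A) {P : List ℕ} (h : IsJordanType k l P)
    (hD : Dominates P (Pc (hf k A))) : Unimodal (hf k A) ∧ P = Pc (hf k A) := by
  have : IsArtinianRing A := IsArtinianRing.of_finite k A
  obtain ⟨N, hN⟩ := IsArtinianRing.isNilpotent_jacobson_bot (R := A)
  rw [IsLocalRing.jacobson_eq_maximalIdeal _ bot_ne_top] at hN
  have hM : M k A N = ⊥ := by simp [M, hN]
  have hz : ∀ i, N ≤ i → hf k A i = 0 := fun i hi => by
    have : M k A i = ⊥ := le_bot_iff.1 (hM ▸ (Ideal.pow_le_pow_right hi : M k A i ≤ M k A N))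
    rw [hf_eq, this, finrank_bot, Nat.zero_sub]
  have hc : ∀ d, ∀ t ≤ d, Contig (hf k A) t := by
    intro d
    induction d with
    | zero => intro t ht i j m _ _ _ _; omega
    | succ d ih =>
      intro t ht
      rcases Nat.lt_or_eq_of_le ht with ht | rfl
      · exact ih t (by omega)
      intro i j m hij hjm hi hm
      by_contra hj
      obtain ⟨W, w1, w2, w3⟩ := strings h d
      have k1 := (core hl hM W d w2 w3).2 ((min_le_Pc hz d ih).trans ((hD d).trans w1))
      have ex : ∃ n, hf k A (i + n + 1) ≤ d := ⟨j - i - 1, by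
        have : i ≠ j := fun e => hj (e ▸ hi)
        rw [show i + (j - i - 1) + 1 = j by omega]; omega⟩
      classical
      have k2 := Nat.find_spec ex
      have k3 : i + Nat.find ex + 1 ≤ j := by
        have : i ≠ j := fun e => hj (e ▸ hi)
        have := Nat.find_min' ex (m := j - i - 1) (by
          rw [show i + (j - i - 1) + 1 = j by omega]; omega)
        omega
      have k4 : d ≤ hf k A (i + Nat.find ex) := by
        rcases Nat.eq_zero_or_pos (Nat.find ex) with e | e
        · rw [e, add_zero]; omega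
        · have := Nat.find_min ex (m := Nat.find ex - 1) (by omega)
          rw [show i + (Nat.find ex - 1) + 1 = i + Nat.find ex by omega] at this
          omega
      have k5 : m < N := by
        by_contra h5
        rw [hz m (by omega)] at hm
        omega
      have k6 := k1 _ (by omega) k4 k2
      have k7 : ∀ n, i + Nat.find ex + 1 ≤ n → hf k A n ≤ d := by
        intro n hn
        induction n, hn using Nat.le_induction with
        | base => exact k2
        | succ n hn ih => exact (k6 n (by omega)).trans ih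
      have := k7 m (by omega)
      omega
  refine ⟨unimodal hz fun t => hc t t le_rfl, eq_of_take _ _ h.2.1 (Pc_pos hz) fun d =>
    le_antisymm ?_ (hD d)⟩
  obtain ⟨W, w1, w2, w3⟩ := strings h d
  exact w1.trans ((core hl hM W d w2 w3).1.trans (min_le_Pc hz d (hc d)))

end alg

end Pool.Agent.H2.Jor
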