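import Mathlib

namespace Pool.Agent.H2.Jor

open Module IsLocalRing

/-- The Hilbert function `h_i = dim m^i / m^(i+1)` of a finite-dimensional local algebra. -/
noncomputable def hf (k A : Type) [Field k] [CommRing A] [Algebra k A] [IsLocalRing A] (i : ℕ) : ℕ :=
  finrank k (maximalIdeal A ^ i : Ideal A) - finrank k (maximalIdeal A ^ (i + 1) : Ideal A)

/-- The partition `P` (a non-increasing list of positive integers) is the Jordan type of
multiplication by `l`: there are elements `v_i` with `l^(P_i) v_i = 0` such that the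
`l^j v_i`, `j < P_i`, form a basis of `A`. -/
def IsJordanType (k : Type) {A : Type} [Field k] [CommRing A] [Algebra k A] (l : A)
    (P : List ℕ) : Prop :=
  P.Pairwise (· ≥ ·) ∧ (∀ p ∈ P, 0 < p) ∧ ∃ v : Fin P.length → A,
    (∀ i, l ^ P.get i * v i = 0) ∧
    LinearIndependent k (fun x : (Σ i : Fin P.length, Fin (P.get i)) => l ^ (x.2 : ℕ) * v x.1) ∧
    Submodule.span k
      (Set.range fun x : (Σ i : Fin P.length, Fin (P.get i)) => l ^ (x.2 : ℕ) * v x.1) = ⊤

/-- `(t, a, b)` is a maximal run: `t ≥ 1` and `[a, b]` is a maximal interval of columns `i`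
with `h i ≥ t`. -/
def IsRun (h : ℕ → ℕ) (x : ℕ × ℕ × ℕ) : Prop :=
  1 ≤ x.1 ∧ x.2.1 ≤ x.2.2 ∧ (∀ i, x.2.1 ≤ i → i ≤ x.2.2 → x.1 ≤ h i) ∧
    (x.2.1 = 0 ∨ h (x.2.1 - 1) < x.1) ∧ h (x.2.2 + 1) < x.1

open Classical in
/-- The contiguous partition: the lengths of all maximal runs, in non-increasing order. -/
noncomputable def Pc (h : ℕ → ℕ) : List ℕ :=
  if H : {x | IsRun h x}.Finite then
    (H.toFinset.val.map fun x => x.2.2 + 1 - x.2.1).sort (· ≥ ·) else []

/-- `P` dominates `Q`: every initial partial sum of `P` is at least that of `Q`. -/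
def Dominates (P Q : List ℕ) : Prop := ∀ d, (Q.take d).sum ≤ (P.take d).sum

/-- `h` weakly increases and then weakly decreases. -/
def Unimodal (h : ℕ → ℕ) : Prop :=
  ∃ j, (∀ i < j, h i ≤ h (i + 1)) ∧ ∀ i, j ≤ i → h (i + 1) ≤ h i

end Pool.Agent.H2.Jor
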