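import Pool.Agent.H2.KLDefs

namespace Pool.Agent.H2.KL

open MvPolynomial Finset

def wt (x : Fin 5 × Fin 5) : ℕ := (if x.1 = 3 then 100 else 0) + x.1.val * x.2.val

def Syn : Type := Fin 5 × Fin 5 →₀ ℕ

noncomputable instance : AddCommMonoid Syn := inferInstanceAs (AddCommMonoid (Fin 5 × Fin 5 →₀ ℕ))

noncomputable def key (f : Fin 5 × Fin 5 →₀ ℕ) : ℕ ×ₗ ℕ ×ₗ Lex (Fin (5 * 5) →₀ ℕ) :=
  toLex (f.degree, toLex (Finsupp.weight wt f, toLex (Finsupp.domCongr finProdFinEquiv f)))

lemma key_inj : Function.Injective key := fun a b h => by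
  have := congrArg (fun x => ofLex (ofLex (ofLex x).2).2) h
  exact (Finsupp.domCongr finProdFinEquiv).injective this

lemma key_add (a b : Fin 5 × Fin 5 →₀ ℕ) : key (a + b) = key a + key b := by
  simp only [key, map_add]
  rfl

noncomputable instance : LinearOrder Syn := LinearOrder.lift' (key : Syn → _) key_inj

lemma key_lt_deg {a b : Fin 5 × Fin 5 →₀ ℕ} (h : a.degree < b.degree) : key a < key b :=
  Prod.Lex.toLex_lt_toLex.2 (Or.inl h)

lemma key_lt_wt {a b : Fin 5 × Fin 5 →₀ ℕ} (h : a.degree = b.degree)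
    (h2 : Finsupp.weight wt a < Finsupp.weight wt b) : key a < key b :=
  Prod.Lex.toLex_lt_toLex.2 (Or.inr ⟨h, Prod.Lex.toLex_lt_toLex.2 (Or.inl h2)⟩)

lemma key_add_le (a b c : Fin 5 × Fin 5 →₀ ℕ) (h : key a ≤ key b) : key (a + c) ≤ key (b + c) := by
  rw [key_add, key_add]
  exact add_le_add_left h _

noncomputable def ord : MonomialOrder (Fin 5 × Fin 5) where
  syn := Syn
  isOrderedAddMonoid_syn := { add_le_add_left := fun a b h c => key_add_le a b c h }
  toSyn := AddEquiv.refl _
  toSyn_monotone := fun a b h => by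
    obtain ⟨c, rfl⟩ := exists_add_of_le h
    show key a ≤ key (a + c)
    by_cases hc : c = 0
    · simp [hc]
    · refine (key_lt_deg ?_).le
      rw [map_add]
      have : c.degree ≠ 0 := fun h => hc ((Finsupp.degree_eq_zero_iff c).1 h)
      omega
  wellFoundedLT_syn := StrictMono.wellFoundedLT (f := (key : Syn → _)) fun _ _ h => h

lemma ord_lt {a b : Fin 5 × Fin 5 →₀ ℕ} : ord.toSyn a < ord.toSyn b ↔ key a < key b := Iff.rfl

lemma ord_graded : Graded ord := fun _ _ h => ord_lt.2 (key_lt_deg h)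

variable {k : Type} [Field k]

lemma ord_diag : Diagonal k ord := by
  intro s row col hr hc
  let mono : Equiv.Perm (Fin s) → (Fin 5 × Fin 5 →₀ ℕ) :=
    fun π => ∑ a, Finsupp.single (row (π a), col a) 1
  have hprod : ∀ π : Equiv.Perm (Fin s),
      ∏ a, (X (row (π a), col a) : MvPolynomial _ k) = monomial (mono π) 1 := by
    intro π
    simp only [mono, monomial_sum_one]
    rfl
  have hlt : ∀ π : Equiv.Perm (Fin s), π ≠ 1 → key (mono π) < key (mono 1) := by
    intro π hπ
    refine key_lt_wt (by simp [mono, map_sum]) ?_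
    simp only [mono, map_sum, Finsupp.weight_single, one_smul, wt, sum_add_distrib,
      Equiv.Perm.one_apply]
    rw [Equiv.sum_comp π (fun a => if row a = 3 then 100 else 0)]
    refine Nat.add_lt_add_left ?_ _
    have hm : Monovary (fun a => (row a).val) (fun a => (col a).val) :=
      Monotone.monovary (fun a b h => hr.monotone h) (fun a b h => hc.monotone h)
    refine (hm.sum_comp_perm_mul_lt_sum_mul_iff (σ := π)).2 fun h => hπ ?_
    have h2 : Monotone π := by
      intro a b hab
      rcases hab.eq_or_lt with rfl | hab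
      · exact le_rfl
      · exact hr.le_iff_le.1 (h (show (col a).val < (col b).val from hc hab))
    exact (Equiv.Perm.monotone_iff π).1 h2
  rw [Matrix.det_apply', ← add_sum_erase _ _ (mem_univ (1 : Equiv.Perm (Fin s)))]
  simp only [Matrix.of_apply, hprod, Equiv.Perm.sign_one, Units.val_one, Int.cast_one, one_mul]
  have h1 : ∏ a, (X (row a, col a) : MvPolynomial _ k) = monomial (mono 1) 1 := hprod 1
  rw [h1]
  by_cases hs : (univ.erase (1 : Equiv.Perm (Fin s))) = ∅
  · rw [hs, sum_empty, add_zero, MonomialOrder.leadingTerm]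
    classical
    simp [MonomialOrder.degree_monomial]
  obtain ⟨π0, hπ0⟩ := nonempty_iff_ne_empty.2 hs
  have hpos : ord.toSyn 0 < ord.toSyn (mono 1) :=
    lt_of_le_of_lt (ord.toSyn_monotone bot_le) (ord_lt.2 (hlt π0 (ne_of_mem_erase hπ0)))
  have hd : ord.degree (monomial (mono 1) (1:k)) = mono 1 := by
    classical
    simp [MonomialOrder.degree_monomial]
  have h2 : ord.toSyn (ord.degree (∑ π ∈ univ.erase (1 : Equiv.Perm (Fin s)),
      ((Equiv.Perm.sign π : ℤ) : MvPolynomial _ k) * monomial (mono π) 1)) <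
      ord.toSyn (ord.degree (monomial (mono 1) (1:k))) := by
    rw [hd]
    refine lt_of_le_of_lt ord.degree_sum_le ?_
    rw [Finset.sup_lt_iff (by simpa using hpos)]
    intro π hπ
    refine lt_of_le_of_lt ?_ (ord_lt.2 (hlt π (ne_of_mem_erase hπ)))
    rw [← map_intCast (C : k →+* MvPolynomial _ k), C_mul_monomial]
    exact ord.degree_monomial_le _
  rw [MonomialOrder.leadingTerm, ord.degree_add_of_lt h2, ord.leadingCoeff_add_of_lt h2, hd]
  simp

end Pool.Agent.H2.KL
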