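import Pool.Agent.H2.KL1

namespace Pool.Agent.H2.KL

open MvPolynomial Finset

def uu : Equiv.Perm (Fin 5) := Equiv.swap 1 3
def vv : Equiv.Perm (Fin 5) := ⟨![2,3,4,0,1], ![3,4,0,1,2], by decide, by decide⟩

lemma bruhat : Bruhat uu vv := by
  refine Relation.ReflTransGen.tail (b := uu * Equiv.swap 0 3 * Equiv.swap 0 2)
    (Relation.ReflTransGen.tail (b := uu * Equiv.swap 0 3)
      (Relation.ReflTransGen.single ⟨0, 3, by decide, by decide, rfl⟩)
      ⟨0, 2, by decide, by decide, rfl⟩) ⟨2, 4, by decide, by decide, by decide⟩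

variable {k : Type} [Field k]

noncomputable def Zb (k : Type) [Field k] : Matrix (Fin 5) (Fin 5) (MvPolynomial (Fin 5 × Fin 5) k) :=
  !![1, 0, 0, 0, 0; X (1,0), 0, 0, 1, 0; X (2,0), 0, 1, 0, 0; X (3,0), 1, 0, 0, 0;
    X (4,0), X (4,1), X (4,2), X (4,3), 1]

lemma Z_map (i j : Fin 5) : rename Subtype.val (Z k uu i j) = Zb k i j := by
  unfold Z
  fin_cases i <;> fin_cases j <;>
    first
    | (rw [if_pos (by decide)]; simp [Zb])
    | (rw [if_neg (by decide), dif_pos (by decide)]; simp [Zb])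
    | (rw [if_neg (by decide), dif_neg (by decide)]; simp [Zb])

lemma det_map {s : ℕ} (row col : Fin s → Fin 5) :
    rename Subtype.val ((Z k uu).submatrix row col).det = ((Zb k).submatrix row col).det := by
  rw [AlgHom.map_det]
  congr 1
  refine Matrix.ext fun a b => ?_
  exact Z_map (k := k) _ _

lemma card_row {s : ℕ} {row : Fin s → Fin 5} (h : StrictMono row) {p : Fin 5}
    (hp : ∀ a, p ≤ row a) : s + p.val ≤ 5 := by
  have := card_le_card_of_injOn (s := univ) (t := Ici p) row (fun a _ => by simpa using hp a)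
    h.injective.injOn
  simp at this
  omega

lemma card_col {s : ℕ} {col : Fin s → Fin 5} (h : StrictMono col) {q : Fin 5}
    (hq : ∀ a, col a ≤ q) : s ≤ q.val + 1 := by
  have := card_le_card_of_injOn (s := univ) (t := Iic q) col (fun a _ => by simpa using hq a)
    h.injective.injOn
  simpa using this

lemma feas : ∀ p q : Fin 5, rk vv p q + 1 + p.val ≤ 5 → rk vv p q + 1 ≤ q.val + 1 →
    (rk vv p q = 3 ∧ p = 1 ∧ q = 3) ∨ (rk vv p q = 1 ∧ p = 3 ∧ q = 1) ∨
    (rk vv p q = 0 ∧ (p = 3 ∧ q = 0 ∨ p = 4 ∧ q ≤ 1)) := by decide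

noncomputable def mo (a b : Fin 5 × Fin 5) : Fin 5 × Fin 5 →₀ ℕ :=
  Finsupp.single a 1 + Finsupp.single b 1

lemma XX (a b : Fin 5 × Fin 5) :
    (X a * X b : MvPolynomial (Fin 5 × Fin 5) k) = monomial (mo a b) 1 := by
  simp [X, monomial_mul, mo]

lemma lt1 : ord.toSyn (Finsupp.single (4,0) 1) < ord.toSyn (mo (3,0) (4,1)) :=
  ord_graded _ _ (by simp [mo])
lemma lt2 : ord.toSyn (mo (2,0) (4,2)) < ord.toSyn (mo (3,0) (4,1)) :=
  ord_lt.2 (key_lt_wt (by simp [mo]) (by simp [mo, Finsupp.weight_single, wt]))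
lemma lt3 : ord.toSyn (mo (1,0) (4,3)) < ord.toSyn (mo (3,0) (4,1)) :=
  ord_lt.2 (key_lt_wt (by simp [mo]) (by simp [mo, Finsupp.weight_single, wt]))

lemma deg_mono (d : Fin 5 × Fin 5 →₀ ℕ) :
    ord.degree (monomial d (1:k)) = d := by
  classical
  simp [MonomialOrder.degree_monomial]

lemma lm_dets {g : MvPolynomial (Var uu) k} (hg : g ∈ dets k uu vv) :
    0 < lm ord g (3,0) + lm ord g (4,0) + lm ord g (4,1) := by
  obtain ⟨p, q, s, row, col, hs, hr, hc, hp, hq, rfl⟩ := hg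
  rw [lm, det_map]
  rcases feas p q (hs ▸ card_row hr hp) (hs ▸ card_col hc hq) with
    ⟨h, rfl, rfl⟩ | ⟨h, rfl, rfl⟩ | ⟨h, h2⟩
  · rw [h] at hs
    subst hs
    have e1 : ∀ row : Fin 4 → Fin 5, StrictMono row → (∀ a, 1 ≤ row a) → row = ![1,2,3,4] := by
      decide +kernel
    have e2 : ∀ col : Fin 4 → Fin 5, StrictMono col → (∀ a, col a ≤ 3) → col = ![0,1,2,3] := by
      decide +kernel
    rw [e1 row hr hp, e2 col hc hq]
    have : ((Zb k).submatrix ![1,2,3,4] ![0,1,2,3]).det = - (X (3,0) * X (4,1) +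
        (-X (4,0) + (X (2,0) * X (4,2) + X (1,0) * X (4,3)))) := by
      simp [Zb, Matrix.det_succ_row_zero, Fin.sum_univ_succ, Fin.succAbove]
      ring
    rw [this, ord.degree_neg, XX, XX, XX, ord.degree_add_of_lt, deg_mono]
    · simp [mo]
    · rw [deg_mono]
      refine lt_of_le_of_lt ord.degree_add_le (max_lt ?_ (lt_of_le_of_lt ord.degree_add_le
        (max_lt ?_ ?_)))
      · rw [ord.degree_neg, ord.degree_X]; exact lt1
      · rw [deg_mono]; exact lt2
      · rw [deg_mono]; exact lt3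
  · rw [h] at hs
    subst hs
    have e1 : ∀ row : Fin 2 → Fin 5, StrictMono row → (∀ a, 3 ≤ row a) → row = ![3,4] := by
      decide +kernel
    have e2 : ∀ col : Fin 2 → Fin 5, StrictMono col → (∀ a, col a ≤ 1) → col = ![0,1] := by
      decide +kernel
    rw [e1 row hr hp, e2 col hc hq]
    have : ((Zb k).submatrix ![3,4] ![0,1]).det = X (3,0) * X (4,1) + -X (4,0) := by
      simp [Zb, Matrix.det_fin_two]
      ring
    rw [this, XX, ord.degree_add_of_lt, deg_mono]
    · simp [mo]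
    · rw [deg_mono, ord.degree_neg, ord.degree_X]; exact lt1
  · rw [h] at hs
    subst hs
    rw [Matrix.det_fin_one, Matrix.submatrix_apply]
    have h1 := hp 0
    have h3 := hq 0
    generalize row 0 = i at h1 ⊢
    generalize col 0 = j at h3 ⊢
    have : (i = 3 ∧ j = 0) ∨ (i = 4 ∧ j = 0) ∨ (i = 4 ∧ j = 1) := by
      clear hp hq h
      revert p q i j
      decide
    rcases this with ⟨rfl, rfl⟩ | ⟨rfl, rfl⟩ | ⟨rfl, rfl⟩ <;> simp [Zb, ord.degree_X]

theorem not_GB : ¬ IsGB ord (dets k uu vv) := by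
  intro h
  have g4 : ((Z k uu).submatrix ![1,2,3,4] ![0,1,2,3]).det ∈ dets k uu vv :=
    ⟨1, 3, 4, _, _, by decide, by decide, by decide, by decide, by decide, rfl⟩
  have g2 : ((Z k uu).submatrix ![3,4] ![0,1]).det ∈ dets k uu vv :=
    ⟨3, 1, 2, _, _, by decide, by decide, by decide, by decide, by decide, rfl⟩
  have hf : rename Subtype.val (-(((Z k uu).submatrix ![1,2,3,4] ![0,1,2,3]).det +
      ((Z k uu).submatrix ![3,4] ![0,1]).det)) =
      monomial (mo (1,0) (4,3)) 1 + monomial (mo (2,0) (4,2)) 1 := by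
    rw [map_neg, map_add, det_map, det_map, ← XX, ← XX]
    simp [Zb, Matrix.det_succ_row_zero, Fin.sum_univ_succ, Fin.succAbove]
    ring
  have hlt : ord.toSyn (ord.degree (monomial (mo (2,0) (4,2)) (1:k))) <
      ord.toSyn (ord.degree (monomial (mo (1,0) (4,3)) (1:k))) := by
    rw [deg_mono, deg_mono]
    exact ord_lt.2 (key_lt_wt (by simp [mo]) (by simp [mo, Finsupp.weight_single, wt]))
  have hd := congrArg ord.degree hf
  rw [ord.degree_add_of_lt hlt, deg_mono] at hd
  obtain ⟨g, hg, -, hle⟩ := h _ (neg_mem (add_mem (Ideal.subset_span g4) (Ideal.subset_span g2)))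
    (by
      intro h0
      rw [h0] at hd
      have := DFunLike.congr_fun hd (1,0)
      simp [mo] at this)
  have h1 := lm_dets hg
  rw [lm, lm, hd] at hle
  have a1 := hle (3,0)
  have a2 := hle (4,0)
  have a3 := hle (4,1)
  simp [mo] at a1 a2 a3
  simp [lm, a1, a2, a3] at h1

end Pool.Agent.H2.KL
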