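import Mathlib

namespace Pool.Agent.H2.KL

open MvPolynomial

variable {n : ℕ}

/-- `r^v_{pq} = #{j ≤ q : v j ≥ p}` (indices are 0-based). -/
def rk (v : Equiv.Perm (Fin n)) (p q : Fin n) : ℕ :=
  (Finset.univ.filter fun j => j ≤ q ∧ p ≤ v j).card

/-- Bruhat order: generated by `u < u * (i j)` for `i < j` with `u i < u j`. -/
def Bruhat (u v : Equiv.Perm (Fin n)) : Prop :=
  Relation.ReflTransGen (fun a b : Equiv.Perm (Fin n) =>
    ∃ i j, i < j ∧ a i < a j ∧ b = a * Equiv.swap i j) u v

/-- Positions `(i,j)` of the indeterminates of `Z^(u)`: `i > u j` and `j < u⁻¹ i`. -/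
abbrev Var (u : Equiv.Perm (Fin n)) : Type :=
  {x : Fin n × Fin n // u x.2 < x.1 ∧ x.2 < u.symm x.1}

/-- The matrix `Z^(u)` over `k[x^(u)]`. -/
noncomputable def Z (k : Type) [Field k] (u : Equiv.Perm (Fin n)) :
    Matrix (Fin n) (Fin n) (MvPolynomial (Var u) k) := fun i j =>
  if u j = i then 1 else if h : u j < i ∧ j < u.symm i then X ⟨(i, j), h⟩ else 0

/-- The defining determinants of `I_{u,v}`: minors of size `r^v_{pq}+1` in rows `≥ p` and
columns `≤ q`. -/
def dets (k : Type) [Field k] (u v : Equiv.Perm (Fin n)) : Set (MvPolynomial (Var u) k) :=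
  {g | ∃ (p q : Fin n) (s : ℕ) (row col : Fin s → Fin n), s = rk v p q + 1 ∧ StrictMono row ∧
    StrictMono col ∧ (∀ a, p ≤ row a) ∧ (∀ a, col a ≤ q) ∧ g = ((Z k u).submatrix row col).det}

/-- The term order refines total degree. -/
def Graded (m : MonomialOrder (Fin n × Fin n)) : Prop :=
  ∀ a b : Fin n × Fin n →₀ ℕ, a.degree < b.degree → m.toSyn a < m.toSyn b

/-- The leading term of every minor of the generic matrix is its diagonal term. -/
def Diagonal (k : Type) [Field k] (m : MonomialOrder (Fin n × Fin n)) : Prop :=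
  ∀ (s : ℕ) (row col : Fin s → Fin n), StrictMono row → StrictMono col →
    m.leadingTerm (Matrix.of fun a b => (X (row a, col b) : MvPolynomial _ k)).det =
      ∏ a, X (row a, col a)

/-- Leading monomial of an element of `k[x^(u)]` for the restricted term order. -/
noncomputable def lm {k : Type} [Field k] {u : Equiv.Perm (Fin n)}
    (m : MonomialOrder (Fin n × Fin n)) (f : MvPolynomial (Var u) k) : Fin n × Fin n →₀ ℕ :=
  m.degree (rename Subtype.val f)

/-- `G` is a Groebner basis of the ideal it generates: the leading monomial of each nonzero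
element of the ideal is divisible by the leading monomial of a nonzero element of `G`. -/
def IsGB {k : Type} [Field k] {u : Equiv.Perm (Fin n)} (m : MonomialOrder (Fin n × Fin n))
    (G : Set (MvPolynomial (Var u) k)) : Prop :=
  ∀ f ∈ Ideal.span G, f ≠ 0 → ∃ g ∈ G, g ≠ 0 ∧ lm m g ≤ lm m f

end Pool.Agent.H2.KL
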