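import Pool.Agent.H2.KSDefs

/-! Upper bounds for Kolmogorov-Sinai entropy. -/

set_option autoImplicit false

namespace Pool.Agent.H2.KS

open MeasureTheory Filter Finset Topology

variable {X : Type} [MeasurableSpace X]

lemma gibbs {α : Type} [Fintype α] [MeasurableSpace α] [MeasurableSingletonClass α]
    (ν : Measure X) [IsProbabilityMeasure ν] (U : X → α) (hU : Measurable U) (Q : α → ℝ)
    (h0 : ∀ a, 0 ≤ Q a) (h1 : ∑ a, Q a ≤ 1) (κ : X → ℝ) (hκ : Integrable κ ν)
    (h : ∀ᵐ x ∂ν, Real.exp (-κ x) ≤ Q (U x)) :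
    ∑ a, Real.negMulLog (ν.real (U ⁻¹' {a})) ≤ ∫ x, κ x ∂ν := by
  haveI : IsProbabilityMeasure (ν.map U) := Measure.isProbabilityMeasure_map hU.aemeasurable
  have e : ∀ g : α → ℝ, ∫ x, g (U x) ∂ν = ∑ a, ν.real (U ⁻¹' {a}) * g a := fun g => by
    rw [← integral_map hU.aemeasurable (measurable_of_finite g).aestronglyMeasurable,
      integral_fintype .of_finite]
    simp only [map_measureReal_apply hU (measurableSet_singleton _), smul_eq_mul]
  have e1 : ∑ a, ν.real (U ⁻¹' {a}) = 1 := by simpa using (e fun _ => 1).symm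
  have h2 : ∀ a, Real.negMulLog (ν.real (U ⁻¹' {a})) ≤
      ν.real (U ⁻¹' {a}) * -Real.log (Q a) + (Q a - ν.real (U ⁻¹' {a})) := by
    intro a
    rcases (measureReal_nonneg (μ := ν) (s := U ⁻¹' {a})).eq_or_lt with hp | hp
    · rw [← hp]; simpa using h0 a
    · have hQ : 0 < Q a := by
        by_contra hQ
        refine hp.ne' ((measureReal_eq_zero_iff (measure_ne_top _ _)).2
          (measure_mono_null (fun x hx => ?_) (ae_iff.1 h)))
        have hx : U x = a := hx
        refine fun hx' => hQ ?_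
        exact hx ▸ (Real.exp_pos _).trans_le hx'
      set p := ν.real (U ⁻¹' {a})
      have := mul_le_mul_of_nonneg_left (Real.log_le_sub_one_of_pos (div_pos hQ hp)) hp.le
      rw [Real.log_div hQ.ne' hp.ne', mul_sub p (Q a / p), mul_div_cancel₀ _ hp.ne'] at this
      rw [Real.negMulLog]
      linarith
  refine (sum_le_sum fun a _ => h2 a).trans ?_
  rw [sum_add_distrib, sum_sub_distrib, e1, ← e]
  have : ∫ x, -Real.log (Q (U x)) ∂ν ≤ ∫ x, κ x ∂ν := by
    refine integral_mono_ae ((Integrable.of_finite (μ := ν.map U)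
      (f := fun a => -Real.log (Q a))).comp_measurable hU) hκ (h.mono fun x hx => ?_)
    have := (Real.le_log_iff_exp_le ((Real.exp_pos _).trans_le hx)).2 hx
    simp only
    linarith
  linarith

lemma markov {ι : Type} [Fintype ι] [Nonempty ι] {m : ℕ} (s : ι → Fin m → ℝ) (t : ι → ι → ℝ)
    (hs0 : ∀ a w, 0 ≤ s a w) (ht0 : ∀ a b, 0 ≤ t a b) (hs : ∀ a, ∑ w, s a w ≤ 1)
    (ht : ∀ a, ∑ b, t a b ≤ 1) (n : ℕ) :
    ∃ q : ι → (Fin n → Fin m) → ℝ, (∀ a w, 0 ≤ q a w) ∧ ∑ w, ∑ a, q a w ≤ 1 ∧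
      ∀ (v : ℕ → ι) (w : ℕ → Fin m), (Fintype.card ι : ℝ)⁻¹ *
        ∏ i ∈ range n, s (v i) (w i) * t (v i) (v (i + 1)) ≤ q (v n) fun i => w i := by
  induction n with
  | zero => exact ⟨fun _ _ => (Fintype.card ι : ℝ)⁻¹, fun _ _ => by positivity, by simp, by simp⟩
  | succ n ih =>
    obtain ⟨q, h0, h1, h2⟩ := ih
    have p : ∀ a b u w, 0 ≤ q a w * (s a u * t a b) := fun a b u w =>
      mul_nonneg (h0 _ _) (mul_nonneg (hs0 _ _) (ht0 _ _))
    refine ⟨fun b w => ∑ a, q a (Fin.init w) * (s a (w (Fin.last n)) * t a b),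
      fun b w => sum_nonneg fun a _ => p _ _ _ _, ?_, fun v w => ?_⟩
    · rw [← (Fin.snocEquiv fun _ => Fin m).sum_comp, Fintype.sum_prod_type_right]
      refine le_trans (sum_le_sum fun w _ => ?_) h1
      simp only [Fin.snocEquiv, Equiv.coe_fn_mk, Fin.init_snoc, Fin.snoc_last]
      have : ∀ u, ∑ b, ∑ a, q a w * (s a u * t a b) ≤ ∑ a, q a w * s a u := fun u => by
        rw [sum_comm]
        refine sum_le_sum fun a _ => ?_
        rw [← mul_sum, ← mul_sum]
        exact mul_le_mul_of_nonneg_left (mul_le_of_le_one_right (hs0 _ _) (ht a)) (h0 _ _)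
      refine (sum_le_sum fun u _ => this u).trans ?_
      rw [sum_comm]
      refine sum_le_sum fun a _ => ?_
      rw [← mul_sum]
      exact mul_le_of_le_one_right (h0 _ _) (hs a)
    · rw [prod_range_succ, ← mul_assoc]
      refine le_trans (mul_le_mul_of_nonneg_right (h2 v w) (mul_nonneg (hs0 _ _) (ht0 _ _))) ?_
      exact single_le_sum (f := fun a => q a (fun i => w i) * (s a (w n) * t a (v (n + 1))))
        (fun a _ => p _ _ _ _) (mem_univ (v n))

lemma ent_bound {ι : Type} [Fintype ι] [Nonempty ι] {m : ℕ} {f : X → X} {ν : Measure X}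
    (hν : Inv f ν) (V : X → ι) {W : X → Fin m} (hW : Measurable W) (s : ι → Fin m → ℝ)
    (t : ι → ι → ℝ) (hs0 : ∀ a w, 0 ≤ s a w) (ht0 : ∀ a b, 0 ≤ t a b) (hs : ∀ a, ∑ w, s a w ≤ 1)
    (ht : ∀ a, ∑ b, t a b ≤ 1) (κ : X → ℝ) (hκ : Integrable κ ν)
    (h : ∀ᵐ x ∂ν, Real.exp (-κ x) ≤ s (V x) (W x) * t (V x) (V (f x))) :
    limsup (fun n : ℕ => ENNReal.ofReal (blockEnt f ν W n / n)) atTop ≤
      ENNReal.ofReal (∫ x, κ x ∂ν) := by
  obtain ⟨_, hf⟩ := hν
  have hc : (0 : ℝ) < Fintype.card ι := Nat.cast_pos.2 Fintype.card_pos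
  have key : ∀ n, blockEnt f ν W n ≤ Real.log (Fintype.card ι) + n * ∫ x, κ x ∂ν := by
    intro n
    obtain ⟨q, h0, h1, h2⟩ := markov s t hs0 ht0 hs ht n
    have hi : ∀ i, Integrable (fun x => κ (f^[i] x)) ν := fun i =>
      (hf.iterate i).integrable_comp_of_integrable hκ
    have := gibbs ν (fun x (i : Fin n) => W (f^[i] x))
      (measurable_pi_lambda _ fun i => hW.comp (hf.measurable.iterate i)) (fun w => ∑ a, q a w)
      (fun w => sum_nonneg fun a _ => h0 a w) h1
      (fun x => Real.log (Fintype.card ι) + ∑ i ∈ range n, κ (f^[i] x))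
      ((integrable_const _).add (integrable_finsetSum _ fun i _ => hi i)) (by
        filter_upwards [ae_all_iff.2 fun i => (hf.iterate i).quasiMeasurePreserving.ae h] with x hx
        refine le_trans ?_ ((h2 (fun i => V (f^[i] x)) fun i => W (f^[i] x)).trans
          (single_le_sum (f := fun a => q a fun i => W (f^[i] x)) (fun a _ => h0 _ _) (mem_univ _)))
        rw [neg_add, Real.exp_add, Real.exp_neg, Real.exp_log hc, ← sum_neg_distrib, Real.exp_sum]
        refine mul_le_mul_of_nonneg_left (prod_le_prod (fun i _ => (Real.exp_pos _).le)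
          fun i _ => ?_) (by positivity)
        rw [Function.iterate_succ_apply']
        exact hx i)
    rw [integral_add (integrable_const _) (integrable_finsetSum _ fun i _ => hi i),
      integral_finsetSum _ fun i _ => hi i] at this
    have e : ∀ i, ∫ x, κ (f^[i] x) ∂ν = ∫ x, κ x ∂ν := fun i => by
      rw [← integral_map (hf.measurable.iterate i).aemeasurable, (hf.iterate i).map_eq]
      rw [(hf.iterate i).map_eq]; exact hκ.aestronglyMeasurable
    simp only [e, integral_const, probReal_univ, one_smul, sum_const, card_range,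
      nsmul_eq_mul] at this
    refine le_trans (le_of_eq (sum_congr rfl fun w _ => ?_)) this
    congr 2
    ext x
    simp [funext_iff]
  have lim : Tendsto (fun n : ℕ => ENNReal.ofReal (Real.log (Fintype.card ι) / n + ∫ x, κ x ∂ν))
      atTop (𝓝 (ENNReal.ofReal (∫ x, κ x ∂ν))) := by
    refine ENNReal.tendsto_ofReal ?_
    simpa using (tendsto_const_div_atTop_nhds_zero_nat (Real.log (Fintype.card ι))).add_const
      (∫ x, κ x ∂ν)
  rw [← lim.limsup_eq]
  refine limsup_le_limsup ((eventually_gt_atTop 0).mono fun n hn => ENNReal.ofReal_le_ofReal ?_)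
  have hn : (0 : ℝ) < n := Nat.cast_pos.2 hn
  rw [div_le_iff₀ hn, add_mul, div_mul_cancel₀ _ hn.ne', mul_comm _ (n : ℝ)]
  exact key n

def co (z : ℂ × ℂ) : Fin 4 → ℝ := ![z.1.re, z.1.im, z.2.re, z.2.im]

lemma co_sub (z w : ℂ × ℂ) (i : Fin 4) : co (z - w) i = co z i - co w i := by
  fin_cases i <;> simp [co]

lemma co_le (z : ℂ × ℂ) (i : Fin 4) : |co z i| ≤ ‖z‖ := by
  fin_cases i
  · exact (Complex.abs_re_le_norm _).trans (norm_fst_le z)
  · exact (Complex.abs_im_le_norm _).trans (norm_fst_le z)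
  · exact (Complex.abs_re_le_norm _).trans (norm_snd_le z)
  · exact (Complex.abs_im_le_norm _).trans (norm_snd_le z)

lemma le_co {z : ℂ × ℂ} {ε : ℝ} (h : ∀ i, |co z i| ≤ ε) : ‖z‖ ≤ 2 * ε := by
  have h0 : |z.1.re| ≤ ε := h 0
  have h1 : |z.1.im| ≤ ε := h 1
  have h2 : |z.2.re| ≤ ε := h 2
  have h3 : |z.2.im| ≤ ε := h 3
  have := Complex.norm_le_abs_re_add_abs_im z.1
  have := Complex.norm_le_abs_re_add_abs_im z.2
  exact max_le (by linarith) (by linarith)

lemma grid (R : ℝ) {ε : ℝ} (hε : 0 < ε) : ∃ (ι : Type) (_ : Fintype ι) (c : ℂ × ℂ → ι)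
    (e : ι → Fin 4 → ℤ), Function.Injective e ∧ ∀ z, ‖z‖ ≤ R → ∀ i, e (c z) i = ⌊co z i / ε⌋ := by
  set N : ℕ := ⌈R / ε⌉₊ with hN
  have h : -(N : ℤ) ≤ N := by omega
  refine ⟨Fin 4 → Set.Icc (-(N : ℤ)) N, inferInstance,
    fun z i => Set.projIcc _ _ h ⌊co z i / ε⌋, fun c i => c i,
    fun c c' e => funext fun i => Subtype.ext (congrFun e i), fun z hz i => ?_⟩
  have h1 : |co z i / ε| ≤ N := by
    rw [abs_div, abs_of_pos hε]
    exact (div_le_div_of_nonneg_right ((co_le z i).trans hz) hε.le).trans (Nat.le_ceil _)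
  rw [abs_le] at h1
  simp only
  rw [Set.projIcc_of_mem h ⟨Int.le_floor.2 (by exact_mod_cast h1.1),
    by exact_mod_cast (Int.floor_le _).trans h1.2⟩]

lemma floor_close {a b ε K : ℝ} (hε : 0 < ε) (h : |a - b| ≤ K * ε) :
    ⌊a / ε⌋ ∈ Icc (⌊b / ε⌋ - (⌈K⌉₊ + 1)) (⌊b / ε⌋ + (⌈K⌉₊ + 1)) := by
  have h1 : |a / ε - b / ε| ≤ ⌈K⌉₊ := by
    rw [← sub_div, abs_div, abs_of_pos hε, div_le_iff₀ hε]
    exact h.trans (mul_le_mul_of_nonneg_right (Nat.le_ceil _) hε.le)
  rw [abs_le] at h1
  have := Int.floor_le (a / ε)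
  have := Int.floor_le (b / ε)
  have := Int.lt_floor_add_one (a / ε)
  have := Int.lt_floor_add_one (b / ε)
  rw [mem_Icc]
  constructor <;> (apply Int.cast_le (R := ℝ).1; push_cast; linarith)

lemma floor_eq {a b ε : ℝ} (hε : 0 < ε) (h : ⌊a / ε⌋ = ⌊b / ε⌋) : |a - b| ≤ ε := by
  have := (Int.abs_sub_lt_one_of_floor_eq_floor h).le
  rwa [← sub_div, abs_div, abs_of_pos hε, div_le_one hε] at this

lemma ks_le {f : ℂ × ℂ → ℂ × ℂ} (hd : ContDiff ℝ 1 f) (R : ℝ) : ∃ C : ℝ, 0 ≤ C ∧
    ∀ ν, Inv f ν → (∀ᵐ z ∂ν, ‖z‖ ≤ R) → ∀ F, MeasurableSet F → (∀ z ∈ F, f z = z) →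
      ks f ν ≤ ENNReal.ofReal (C * ν.real Fᶜ) := by
  classical
  obtain ⟨L, hL⟩ := hd.contDiffOn.exists_lipschitzOnWith one_ne_zero (convex_closedBall 0 R)
    (isCompact_closedBall 0 R)
  set k : ℕ := ⌈(L : ℝ) * 2⌉₊ with hk
  set M : ℝ := (2 * (k + 1) + 1) ^ 4 * 2 with hM
  have hM1 : 1 ≤ M := by
    have : (1 : ℝ) ≤ (2 * (k + 1) + 1) ^ 4 := one_le_pow₀ (by linarith [k.cast_nonneg (α := ℝ)])
    linarith
  have hC := Real.log_nonneg hM1
  refine ⟨Real.log M, hC, fun ν hν hR F hF hfix => ?_⟩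
  haveI := hν.1
  refine iSup_le fun m => iSup_le fun W => iSup_le fun hW =>
    ENNReal.le_of_forall_pos_le_add fun η hη _ => ?_
  have hm : (0 : ℝ) < m := Nat.cast_pos.2 (W 0).pos
  set δ := 1 - Real.exp (-(η / 2)) with hδ
  have hη' : (0 : ℝ) < η := hη
  have hδ0 : 0 < δ := sub_pos.2 (Real.exp_lt_one_iff.2 (by linarith))
  set A := |Real.log (δ / m)| with hA
  have hA0 : 0 ≤ A := abs_nonneg _
  set θ : ℝ := η / 2 / (A + 1) / m with hθ
  have hθ0 : 0 < θ := by positivity
  choose K hK1 hK2 hK3 using fun j => (hW (measurableSet_singleton j)).exists_isCompact_sdiff_lt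
    (μ := ν) (measure_ne_top _ _) (ENNReal.ofReal_pos.2 hθ0).ne'
  obtain ⟨ρ, hρ, hρ0⟩ : ∃ ρ : ℝ, (∀ i j, i ≠ j → ∀ x ∈ K i, ∀ y ∈ K j, ρ < dist x y) ∧ 0 < ρ := by
    refine ((eventually_all.2 fun i => eventually_all.2 fun j => ?_).and
      (self_mem_nhdsWithin (a := (0 : ℝ)) (s := Set.Ioi 0))).exists
    by_cases e : i = j
    · simp [e]
    obtain ⟨r, r0, hr⟩ := Metric.exists_pos_forall_lt_edist (hK2 i) (hK2 j).isClosed
      (Set.disjoint_left.2 fun x h1 h2 => e ((hK1 i h1).symm.trans (hK1 j h2)))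
    filter_upwards [nhdsWithin_le_nhds (Iio_mem_nhds (show (0 : ℝ) < r from r0))] with ρ h _ x hx y hy
    have := hr x hx y hy
    rw [edist_nndist, ENNReal.coe_lt_coe] at this
    exact lt_trans h this
  have hε : 0 < ρ / 2 := by positivity
  obtain ⟨ι, _, c, e, he, hc⟩ := grid R hε
  haveI : Nonempty ι := ⟨c 0⟩
  have near : ∀ z w, ‖z‖ ≤ R → ‖w‖ ≤ R → c z = c w → ‖z - w‖ ≤ 2 * (ρ / 2) := fun z w hz hw h =>
    le_co fun i => by
      rw [co_sub]; exact floor_eq hε (by rw [← hc z hz, ← hc w hw, h])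
  set KK := ⋃ j, K j with hKK
  have hKm : MeasurableSet KK := MeasurableSet.iUnion fun j => (hK2 j).measurableSet
  have hKc : ν.real KKᶜ ≤ η / 2 / (A + 1) := by
    have : KKᶜ ⊆ ⋃ j, W ⁻¹' {j} \ K j := fun x hx =>
      Set.mem_iUnion.2 ⟨W x, rfl, fun h => hx (Set.mem_iUnion.2 ⟨_, h⟩)⟩
    refine (measureReal_mono this).trans ((measureReal_iUnion_fintype_le _).trans ?_)
    refine (sum_le_card_nsmul _ _ θ fun j _ => ENNReal.toReal_le_of_le_ofReal hθ0.le (hK3 j).le).trans ?_
    simp only [card_univ, Fintype.card_fin, nsmul_eq_mul, hθ]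
    rw [mul_div_cancel₀ _ hm.ne']
  set g : ι → Fin m := fun a => W (Classical.epsilon fun x => x ∈ KK ∧ ‖x‖ ≤ R ∧ c x = a) with hg
  set z : ι → ℂ × ℂ := fun a => Classical.epsilon fun x => ‖x‖ ≤ R ∧ c x = a with hz
  set T : ι → Finset (Fin 4 → ℤ) := fun a => Fintype.piFinset fun i =>
    Icc (⌊co (f (z a)) i / (ρ / 2)⌋ - (k + 1)) (⌊co (f (z a)) i / (ρ / 2)⌋ + (k + 1)) with hT
  have i1 : Integrable (Fᶜ.indicator fun _ => Real.log M) ν := (integrable_const _).indicator hF.compl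
  have i2 : Integrable (KKᶜ.indicator fun _ => A) ν := (integrable_const _).indicator hKm.compl
  refine (ent_bound hν (fun x => (c x, decide (x ∈ F))) hW
    (fun a w => (if w = g a.1 then 1 - δ else 0) + δ / m)
    (fun a b => if a.2 then (if b = a then 1 else 0) else if e b.1 ∈ T a.1 then M⁻¹ else 0)
    (fun a w => by
      have : 0 ≤ 1 - δ := by simp [hδ, (Real.exp_pos _).le]
      positivity) (fun a b => by positivity) (fun a => ?_) (fun a => ?_)
    (fun x => η / 2 + KKᶜ.indicator (fun _ => A) x + Fᶜ.indicator (fun _ => Real.log M) x)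
    (((integrable_const _).add i2).add i1) ?_).trans ?_
  · simp only [sum_add_distrib, sum_ite_eq', mem_univ, if_true, sum_const, card_univ,
      Fintype.card_fin, nsmul_eq_mul, mul_div_cancel₀ _ hm.ne']
    linarith
  · split_ifs
    · simp
    · rw [← sum_filter, sum_const, nsmul_eq_mul, mul_inv_le_iff₀ (by linarith), one_mul]
      have : (univ.filter fun b : ι × Bool => e b.1 ∈ T a.1).card ≤ (T a.1 ×ˢ (univ : Finset Bool)).card :=
        card_le_card_of_injOn (fun b => (e b.1, b.2)) (fun b hb => by simpa using hb)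
          fun b _ b' _ h => Prod.ext (he (Prod.ext_iff.1 h).1) (Prod.ext_iff.1 h).2
      refine (Nat.cast_le.2 this).trans (le_of_eq ?_)
      have e2 : ∀ u : ℤ, (u + (k + 1) + 1 - (u - (k + 1))).toNat = 2 * (k + 1) + 1 := fun u => by omega
      simp only [hT, card_product, Fintype.card_piFinset, Int.card_Icc, e2, prod_const, card_univ,
        Fintype.card_fin, Fintype.card_bool, hM]
      push_cast; rfl
  · filter_upwards [hR, hν.2.quasiMeasurePreserving.ae hR] with x h1 h2
    rw [neg_add, Real.exp_add]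
    refine mul_le_mul ?_ ?_ (Real.exp_pos _).le (by
      have : 0 ≤ 1 - δ := by simp [hδ, (Real.exp_pos _).le]
      positivity)
    · by_cases hx : x ∈ KK
      · have := Classical.epsilon_spec (p := fun y => y ∈ KK ∧ ‖y‖ ≤ R ∧ c y = c x) ⟨x, hx, h1, rfl⟩
        have e3 : W x = g (c x) := by
          obtain ⟨i, hi⟩ := Set.mem_iUnion.1 hx
          obtain ⟨j, hj⟩ := Set.mem_iUnion.1 this.1
          by_contra ne
          have h3 := hρ i j (fun e => ne ((hK1 i hi).trans (e.trans (hK1 j hj).symm))) _ hi _ hj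
          have h4 := near _ _ h1 this.2.1 this.2.2.symm
          rw [dist_eq_norm] at h3
          linarith
        have : 0 ≤ δ / m := by positivity
        simp only [e3, if_true, Set.indicator_of_notMem (Set.notMem_compl_iff.2 hx), add_zero]
        linarith
      · rw [Set.indicator_of_mem (Set.mem_compl hx)]
        have h3 : Real.exp (-(η / 2 + A)) ≤ δ / m := by
          rw [← Real.exp_log (show 0 < δ / m by positivity)]
          exact Real.exp_le_exp.2 (by linarith [neg_abs_le (Real.log (δ / m))])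
        have : 0 ≤ 1 - δ := by simp [hδ, (Real.exp_pos _).le]
        refine h3.trans (le_add_of_nonneg_left (by positivity))
    · by_cases hx : x ∈ F
      · simp [hx, hfix x hx]
      · have := Classical.epsilon_spec (p := fun y => ‖y‖ ≤ R ∧ c y = c x) ⟨x, h1, rfl⟩
        have h3 : e (c (f x)) ∈ T (c x) := Fintype.mem_piFinset.2 fun i => by
          rw [hc _ h2]
          refine floor_close hε ?_
          rw [← co_sub]
          refine (co_le _ _).trans ?_
          have h4 := hL.dist_le_mul x (mem_closedBall_zero_iff.2 h1) _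
            (mem_closedBall_zero_iff.2 this.1)
          rw [dist_eq_norm, dist_eq_norm] at h4
          refine h4.trans ?_
          rw [mul_assoc]
          exact mul_le_mul_of_nonneg_left (near _ _ h1 this.1 this.2.symm) L.2
        simp [hx, h3, Real.exp_neg, Real.exp_log (show 0 < M by linarith)]
  · rw [integral_add (f := fun x => η / 2 + KKᶜ.indicator (fun _ => A) x)
      ((integrable_const _).add i2) i1, integral_add (integrable_const _) i2,
      integral_indicator_const _ hF.compl, integral_indicator_const _ hKm.compl, add_comm,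
      ← ENNReal.ofReal_coe_nnreal, ← ENNReal.ofReal_add (by positivity) hη'.le]
    refine ENNReal.ofReal_le_ofReal ?_
    simp only [integral_const, probReal_univ, smul_eq_mul, one_mul]
    have : ν.real KKᶜ * A ≤ η / 2 := by
      refine (mul_le_mul hKc (le_add_of_nonneg_right zero_le_one) hA0 (by positivity)).trans ?_
      rw [div_mul_cancel₀ _ (by positivity)]
    linarith

end Pool.Agent.H2.KS
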