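import Pool.Agent.H2.KS1

/-! Equilibrium states concentrated on sinks; a cubic Henon map with two sinks. -/

set_option autoImplicit false

namespace Pool.Agent.H2.KS

open MeasureTheory Filter Topology

def Rec (f : ℂ × ℂ → ℂ × ℂ) (z : ℂ × ℂ) : Prop := ∀ s ∈ 𝓝 z, ∃ᶠ n in atTop, f^[n] z ∈ s

lemma Rec.ex {f : ℂ × ℂ → ℂ × ℂ} {z : ℂ × ℂ} (h : Rec f z) {s : Set (ℂ × ℂ)} (hs : IsOpen s)
    (hz : z ∈ s) : ∃ n, f^[n + 1] z ∈ s := by
  obtain ⟨n, h1, h2⟩ := ((h s (hs.mem_nhds hz)).and_eventually (eventually_gt_atTop 0)).exists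
  exact ⟨n - 1, by rwa [Nat.sub_add_cancel h2]⟩

theorem eq_iff {f : ℂ × ℂ → ℂ × ℂ} (hd : ContDiff ℝ 1 f) {R r : ℝ} (hr : 0 < r)
    (hR : ∀ z, Rec f z → ‖z‖ ≤ R) {F : Set (ℂ × ℂ)} (hF : MeasurableSet F) {c : ℂ × ℂ} (hc : c ∈ F)
    (hfix : ∀ z ∈ F, f z = z) (hs : ∀ z, Rec f z → Metric.infDist z F < r → z ∈ F) :
    ∃ φ : ℂ × ℂ → ℝ, Continuous φ ∧ Holder φ ∧ pressure f φ = 0 ∧
      ∀ ν, IsEq f φ ν ↔ IsProbabilityMeasure ν ∧ ν Fᶜ = 0 := by
  obtain ⟨C, hC, h⟩ := ks_le hd R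
  set φ : ℂ × ℂ → ℝ := fun z => -((C + 1) / r) * min (Metric.infDist z F) r with hφ
  have rc : ∀ ν, Inv f ν → ∀ᵐ z ∂ν, Rec f z := fun ν hν => by
    haveI := hν.1
    exact hν.2.conservative.ae_frequently_mem_of_mem_nhds
  have hi : ∀ ν, Inv f ν → ∫ z, φ z ∂ν = -(C + 1) * ν.real Fᶜ := fun ν hν => by
    rw [mul_comm, ← smul_eq_mul, ← integral_indicator_const _ hF.compl]
    refine integral_congr_ae ((rc ν hν).mono fun z hz => ?_)
    by_cases e : z ∈ F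
    · simp [hφ, e, Metric.infDist_zero_of_mem e, hr.le]
    · simp only [hφ, min_eq_right (not_lt.1 fun h => e (hs z hz h)),
        Set.indicator_of_mem (Set.mem_compl e)]
      field_simp
  have h1 : ∀ ν, Inv f ν → free f φ ν ≤ (-ν.real Fᶜ : ℝ) := fun ν hν => by
    have := EReal.coe_ennreal_le_coe_ennreal_iff.2
      (h ν hν ((rc ν hν).mono hR) F hF hfix)
    rw [EReal.coe_ennreal_ofReal, max_eq_left (by positivity)] at this
    rw [free, hi ν hν]
    refine (add_le_add_left this _).trans (le_of_eq ?_)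
    rw [← EReal.coe_add]
    congr 1; ring
  have h2 : ∀ ν, Inv f ν → free f φ ν ≤ 0 := fun ν hν =>
    (h1 ν hν).trans (EReal.coe_nonpos.2 (neg_nonpos.2 measureReal_nonneg))
  have h3 : ∀ ν, IsProbabilityMeasure ν → ν Fᶜ = 0 → Inv f ν ∧ free f φ ν = 0 := fun ν a b => by
    have i : Inv f ν := ⟨a, hd.continuous.measurable, by
      rw [Measure.map_congr (g := id) (measure_mono_null (fun z hz hz' => hz (hfix z hz')) b),
        Measure.map_id]⟩
    refine ⟨i, (h2 ν i).antisymm ?_⟩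
    rw [free, hi ν i]
    simp [Measure.real, b, EReal.coe_ennreal_nonneg]
  have h4 : pressure f φ = 0 := by
    have := h3 (Measure.dirac c) inferInstance (by simp [hF.compl, hc])
    exact (iSup₂_le h2).antisymm (this.2.ge.trans (le_iSup₂ (f := fun ν (_ : Inv f ν) => free f φ ν) _ this.1))
  refine ⟨φ, continuous_const.mul ((Metric.continuous_infDist_pt F).min continuous_const),
    ⟨(C + 1) / r, 1, one_pos, le_rfl, fun z w => ?_⟩, h4, fun ν => ⟨fun e => ⟨e.1.1, ?_⟩,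
      fun e => ⟨(h3 ν e.1 e.2).1, (h3 ν e.1 e.2).2.trans h4.symm⟩⟩⟩
  · simp only [hφ, Real.rpow_one]
    rw [← mul_sub, abs_mul, abs_neg, abs_of_pos (by positivity)]
    refine mul_le_mul_of_nonneg_left ?_ (by positivity)
    refine (abs_min_sub_min_le_max _ _ _ _).trans (max_le ?_ (by simp))
    have := (Metric.lipschitz_infDist_pt F).dist_le_mul z w
    rw [Real.dist_eq, NNReal.coe_one, one_mul, dist_eq_norm] at this
    exact this.trans (max_le (Real.le_sqrt_of_sq_le (le_add_of_nonneg_right (by positivity)))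
      (Real.le_sqrt_of_sq_le (le_add_of_nonneg_left (by positivity))))
  · haveI := e.1.1
    have := h1 ν e.1
    rw [e.2, h4] at this
    have := EReal.coe_nonneg.1 this
    exact (measureReal_eq_zero_iff (measure_ne_top _ _)).1
      (le_antisymm (by linarith) measureReal_nonneg)

noncomputable def pp : Polynomial ℂ :=
  Polynomial.C (-1 / 2) * Polynomial.X ^ 3 + Polynomial.C (151 / 100) * Polynomial.X

lemma pp_deg : 2 ≤ pp.natDegree := by
  have : pp.natDegree = 3 := by unfold pp; compute_degree!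
  omega

noncomputable def hf (z : ℂ × ℂ) : ℂ × ℂ := (pp.eval z.1 - 1 / 100 * z.2, z.1)

noncomputable def hg (z : ℂ × ℂ) : ℂ × ℂ := (z.2, pp.eval z.2 - 1 / 100 * z.1)

lemma pp_eval (x : ℂ) : pp.eval x = -1 / 2 * x ^ 3 + 151 / 100 * x := by simp [pp]

lemma hf_diff : ContDiff ℝ 1 hf := by
  unfold hf; simp only [pp_eval]; fun_prop

lemma hg_diff : ContDiff ℝ 1 hg := by
  unfold hg; simp only [pp_eval]; fun_prop

lemma hg_iter (n : ℕ) (z : ℂ × ℂ) : (hg^[n] z).swap = hf^[n] z.swap :=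
  (show Function.Semiconj Prod.swap hg hf from fun _ => rfl).iterate_right n z

lemma Rec.swap {z : ℂ × ℂ} (h : Rec hg z) : Rec hf z.swap := fun s hs => by
  simp only [← hg_iter]
  exact h (Prod.swap ⁻¹' s) (continuous_swap.continuousAt hs)

lemma pp_big {x : ℂ} (h : 10 < ‖x‖) : 48 * ‖x‖ ≤ ‖pp.eval x‖ := by
  have := norm_sub_le (pp.eval x) (151 / 100 * x)
  rw [show pp.eval x - 151 / 100 * x = -1 / 2 * x ^ 3 by rw [pp_eval]; ring] at this
  simp only [norm_mul, norm_div, norm_neg, norm_one, Complex.norm_ofNat, norm_pow] at this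
  nlinarith [mul_pos (sub_pos.2 h) (show 0 < ‖x‖ * (‖x‖ + 10) by positivity)]

lemma rec_le {z : ℂ × ℂ} (h : Rec hf z) : ‖z‖ ≤ 10 := by
  have e : ∀ z : ℂ × ℂ, ‖pp.eval z.1‖ ≤ ‖(hf z).1‖ + 1 / 100 * ‖z.2‖ := fun z => by
    have := norm_add_le (hf z).1 (1 / 100 * z.2)
    simpa [hf] using this
  by_contra hz
  rcases le_or_gt ‖z.2‖ ‖z.1‖ with c | c
  · have h1 : 10 < ‖z.1‖ := by rw [Prod.norm_def, max_eq_left c] at hz; linarith
    have : ∀ n, ‖(hf^[n + 1] z).2‖ ≤ ‖(hf^[n + 1] z).1‖ ∧ 2 * ‖z.1‖ ≤ ‖(hf^[n + 1] z).1‖ := by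
      intro n
      induction n with
      | zero =>
        have := e z
        have := pp_big h1
        exact ⟨show ‖z.1‖ ≤ ‖(hf z).1‖ by linarith, show 2 * ‖z.1‖ ≤ ‖(hf z).1‖ by linarith⟩
      | succ n ih =>
        rw [Function.iterate_succ_apply' _ (n + 1)]
        have := e (hf^[n + 1] z)
        have := pp_big (x := (hf^[n + 1] z).1) (by linarith)
        exact ⟨show ‖(hf^[n + 1] z).1‖ ≤ _ by linarith, by linarith⟩
    obtain ⟨n, hn⟩ := h.ex (s := {w | ‖w.1‖ < 2 * ‖z.1‖}) (isOpen_lt (by fun_prop) (by fun_prop))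
      (show ‖z.1‖ < _ by linarith)
    exact absurd (this n).2 (not_le.2 hn)
  · have h1 : 10 < ‖z.2‖ := by rw [Prod.norm_def, max_eq_right c.le] at hz; linarith
    have : ∀ n (z : ℂ × ℂ), ‖(hf^[n + 1] z).1‖ < ‖(hf^[n + 1] z).2‖ → 10 < ‖(hf^[n + 1] z).2‖ →
        ‖z.1‖ < ‖z.2‖ ∧ 2 * ‖(hf^[n + 1] z).2‖ ≤ ‖z.2‖ := by
      have s : ∀ z : ℂ × ℂ, ‖(hf z).1‖ < ‖(hf z).2‖ → 10 < ‖(hf z).2‖ →
          ‖z.1‖ < ‖z.2‖ ∧ 2 * ‖(hf z).2‖ ≤ ‖z.2‖ := fun z a b => by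
        have := e z
        change _ < ‖z.1‖ at a b
        have := pp_big b
        exact ⟨by linarith, show 2 * ‖z.1‖ ≤ _ by linarith⟩
      intro n
      induction n with
      | zero => exact s
      | succ n ih =>
        intro z a b
        rw [Function.iterate_succ_apply _ (n + 1)] at a b ⊢
        have h2 := ih _ a b
        have h3 := s z h2.1 (by linarith)
        exact ⟨h3.1, by linarith⟩
    obtain ⟨n, a, b, d⟩ := h.ex (s := {w | ‖w.1‖ < ‖w.2‖} ∩ ({w | 10 < ‖w.2‖} ∩ {w | ‖z.2‖ < 2 * ‖w.2‖}))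
      ((isOpen_lt (by fun_prop) (by fun_prop)).inter ((isOpen_lt (by fun_prop) (by fun_prop)).inter
        (isOpen_lt (by fun_prop) (by fun_prop)))) ⟨c, h1, show ‖z.2‖ < _ by linarith⟩
    exact absurd (this n z a b).2 (not_le.2 d)

noncomputable def NN (σ : ℂ) (z : ℂ × ℂ) : ℝ := ‖z.1 - σ‖ + ‖z.2 - σ‖ / 4

lemma sink_step {σ : ℂ} (hσ : σ = 1 ∨ σ = -1) {z : ℂ × ℂ} (h : NN σ z ≤ 1 / 8) :
    NN σ (hf z) ≤ NN σ z / 2 := by
  have e : (hf z).1 - σ = (z.1 - σ) * (-3 / 2 * σ * (z.1 - σ) + -1 / 2 * (z.1 - σ) ^ 2 + 1 / 100) +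
      -1 / 100 * (z.2 - σ) := by
    simp only [hf, pp_eval]
    rcases hσ with rfl | rfl <;> ring
  have n1 : ‖σ‖ = 1 := by rcases hσ with rfl | rfl <;> simp
  have a1 := norm_add₃_le (a := -3 / 2 * σ * (z.1 - σ)) (b := -1 / 2 * (z.1 - σ) ^ 2) (c := 1 / 100)
  have a2 := norm_add_le ((z.1 - σ) * (-3 / 2 * σ * (z.1 - σ) + -1 / 2 * (z.1 - σ) ^ 2 + 1 / 100))
    (-1 / 100 * (z.2 - σ))
  rw [← e] at a2
  simp only [norm_mul, norm_div, norm_neg, norm_one, Complex.norm_ofNat, norm_pow, n1] at a1 a2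
  simp only [NN] at h ⊢
  change _ + ‖z.1 - σ‖ / 4 ≤ _
  have p1 := norm_nonneg (z.1 - σ)
  have p2 := norm_nonneg (z.2 - σ)
  have a3 : ‖-3 / 2 * σ * (z.1 - σ) + -1 / 2 * (z.1 - σ) ^ 2 + 1 / 100‖ ≤ 1 / 4 := by nlinarith
  nlinarith [mul_le_mul_of_nonneg_left a3 p1]

lemma sink_iter {σ : ℂ} (hσ : σ = 1 ∨ σ = -1) {z : ℂ × ℂ} (h : NN σ z ≤ 1 / 8) (n : ℕ) :
    NN σ (hf^[n + 1] z) ≤ NN σ z / 2 := by
  induction n with
  | zero => exact sink_step hσ h
  | succ n ih =>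
    rw [Function.iterate_succ_apply' _ (n + 1)]
    have := sink_step hσ (z := hf^[n + 1] z) (by linarith)
    have : 0 ≤ NN σ z := by unfold NN; positivity
    linarith

lemma NN_le {σ : ℂ} {z : ℂ × ℂ} (h : dist z (σ, σ) < 1 / 10) : NN σ z ≤ 1 / 8 := by
  rw [dist_eq_norm] at h
  have a : ‖z.1 - σ‖ ≤ _ := norm_fst_le (z - (σ, σ))
  have b : ‖z.2 - σ‖ ≤ _ := norm_snd_le (z - (σ, σ))
  unfold NN; linarith

lemma NN_zero {σ : ℂ} {z : ℂ × ℂ} (h : NN σ z ≤ 0) : z = (σ, σ) := by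
  unfold NN at h
  have p1 := norm_nonneg (z.1 - σ)
  have p2 := norm_nonneg (z.2 - σ)
  exact Prod.ext (sub_eq_zero.1 (norm_le_zero_iff.1 (by linarith)))
    (sub_eq_zero.1 (norm_le_zero_iff.1 (by linarith)))

lemma rec_sink {σ : ℂ} (hσ : σ = 1 ∨ σ = -1) {z : ℂ × ℂ} (h : Rec hf z)
    (hz : dist z (σ, σ) < 1 / 10) : z = (σ, σ) := by
  refine NN_zero (not_lt.1 fun c => ?_)
  obtain ⟨n, hn⟩ := h.ex (s := {w | NN σ z / 2 < NN σ w})
    (isOpen_lt continuous_const (by unfold NN; fun_prop)) (show _ < NN σ z by linarith)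
  exact absurd (sink_iter hσ (NN_le hz) n) (not_le.2 hn)

lemma far {n : ℕ} {x : ℂ × ℂ} (hx : x ∈ SP hg n) : 1 / 10 ≤ dist x (1, 1) := by
  obtain ⟨h1, l, -, hl, -, he, -⟩ := hx
  by_contra c
  set A : ℂ × ℂ →L[ℂ] ℂ × ℂ := (ContinuousLinearMap.snd ℂ ℂ ℂ).prod
    ((1 / 100 : ℂ) • ContinuousLinearMap.snd ℂ ℂ ℂ - (1 / 100 : ℂ) • ContinuousLinearMap.fst ℂ ℂ ℂ)
    with hA
  have hD : fderiv ℂ hg^[n] x = A ^ n := by
    cases n with
    | zero => simp; rfl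
    | succ n =>
      have a := sink_iter (.inl rfl) (z := x.swap) (NN_le (by
        rw [not_le] at c
        rwa [Prod.dist_eq, max_comm] at c)) n
      rw [← hg_iter, h1] at a
      have b : x.swap = (1, 1) := NN_zero (by linarith)
      obtain rfl : x = (1, 1) := by simpa using congrArg Prod.swap b
      refine (HasFDerivAt.iterate ?_ (by simp [hg, pp_eval]; norm_num) _).fderiv
      have d := (pp.hasDerivAt (1 : ℂ)).comp_hasFDerivAt (f := Prod.snd) ((1, 1) : ℂ × ℂ)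
        (hasFDerivAt_snd (𝕜 := ℂ))
      rw [show pp.derivative.eval 1 = 1 / 100 by simp [pp]; norm_num] at d
      exact hasFDerivAt_snd.prodMk (d.sub (hasFDerivAt_fst.const_smul (1 / 100 : ℂ)))
  have key : ∀ (n : ℕ) (v : ℂ × ℂ), NN 0 ((A ^ n) v).swap ≤ NN 0 v.swap := by
    intro n
    induction n with
    | zero => simp
    | succ n ih =>
      intro v
      rw [pow_succ]
      refine (ih (A v)).trans ?_
      have := norm_sub_le (1 / 100 * v.2) (1 / 100 * v.1)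
      simp only [norm_mul, norm_div, norm_one, Complex.norm_ofNat] at this
      have p1 := norm_nonneg v.1
      have p2 := norm_nonneg v.2
      change ‖1 / 100 * v.2 - 1 / 100 * v.1 - 0‖ + ‖v.2 - 0‖ / 4 ≤ ‖v.2 - 0‖ + ‖v.1 - 0‖ / 4
      simp only [sub_zero]
      linarith
  obtain ⟨v, hv⟩ := he.exists_hasEigenvector
  have e : (A ^ n) v = l • v := by rw [← hD]; exact hv.apply_eq_smul
  have := key n v
  rw [e] at this
  simp only [NN, Prod.fst_swap, Prod.snd_swap, Prod.smul_fst, Prod.smul_snd, sub_zero, norm_smul]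
    at this
  have b : v.swap = (0, 0) := NN_zero (by
    simp only [NN, Prod.fst_swap, Prod.snd_swap, sub_zero]
    nlinarith [norm_nonneg v.1, norm_nonneg v.2])
  exact hv.2 (congrArg Prod.swap b)

end Pool.Agent.H2.KS
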