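import Mathlib

set_option autoImplicit false

namespace Pool.Agent.H2.KS

open MeasureTheory Filter

variable {X : Type} [MeasurableSpace X]

/-- entropy of the join of the partitions `W ∘ f^[i]`, `i < n` -/
noncomputable def blockEnt (f : X → X) (ν : Measure X) {m : ℕ} (W : X → Fin m) (n : ℕ) : ℝ :=
  ∑ w : Fin n → Fin m, Real.negMulLog (ν.real {x | ∀ i : Fin n, W (f^[i] x) = w i})

/-- Kolmogorov-Sinai entropy -/
noncomputable def ks (f : X → X) (ν : Measure X) : ENNReal :=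
  ⨆ (m : ℕ) (W : X → Fin m) (_ : Measurable W),
    limsup (fun n : ℕ => ENNReal.ofReal (blockEnt f ν W n / n)) atTop

/-- invariant probability measure -/
def Inv (f : X → X) (ν : Measure X) : Prop := IsProbabilityMeasure ν ∧ MeasurePreserving f ν ν

/-- free energy -/
noncomputable def free (f : X → X) (φ : X → ℝ) (ν : Measure X) : EReal :=
  (ks f ν : EReal) + (∫ x, φ x ∂ν : ℝ)

noncomputable def pressure (f : X → X) (φ : X → ℝ) : EReal :=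
  ⨆ (ν : Measure X) (_ : Inv f ν), free f φ ν

/-- equilibrium state -/
def IsEq (f : X → X) (φ : X → ℝ) (ν : Measure X) : Prop := Inv f ν ∧ free f φ ν = pressure f φ

/-- Holder continuity for the Euclidean metric -/
def Holder (φ : ℂ × ℂ → ℝ) : Prop :=
  ∃ C α : ℝ, 0 < α ∧ α ≤ 1 ∧ ∀ z w, |φ z - φ w| ≤ C * √(‖z.1 - w.1‖ ^ 2 + ‖z.2 - w.2‖ ^ 2) ^ α

/-- saddle points fixed by `f^[n]` -/
def SP (f : ℂ × ℂ → ℂ × ℂ) (n : ℕ) : Set (ℂ × ℂ) :=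
  {x | f^[n] x = x ∧ ∃ l₁ l₂ : ℂ, 1 < ‖l₁‖ ∧ ‖l₂‖ < 1 ∧
    Module.End.HasEigenvalue (fderiv ℂ f^[n] x : ℂ × ℂ →ₗ[ℂ] ℂ × ℂ) l₁ ∧
    Module.End.HasEigenvalue (fderiv ℂ f^[n] x : ℂ × ℂ →ₗ[ℂ] ℂ × ℂ) l₂}

end Pool.Agent.H2.KS
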