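import Mathlib

set_option maxHeartbeats 200000

namespace Pool.Agent.H2.Lens

/-- number of exponent vectors of total degree `k` and weight `r` -/
def A : List (ZMod 56) → ℕ → ZMod 56 → ℕ
  | [], k, r => if k = 0 ∧ r = 0 then 1 else 0
  | w :: L, k, r => ∑ i ∈ Finset.range (k + 1), A L (k - i) (r - i * w)

theorem A_zero (w : ZMod 56) (L : List (ZMod 56)) (r : ZMod 56) : A (w :: L) 0 r = A L 0 r := by
  simp [A]

theorem A_succ (w : ZMod 56) (L : List (ZMod 56)) (k : ℕ) (r : ZMod 56) :
    A (w :: L) (k + 1) r = A L (k + 1) r + A (w :: L) k (r - w) := by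
  rw [A, Finset.sum_range_succ', add_comm]
  congr 1
  · simp
  · rw [A]
    refine Finset.sum_congr rfl fun i _ => ?_
    congr 1
    · omega
    · push_cast; ring

theorem A_add (w : ZMod 56) (L : List (ZMod 56)) (m k : ℕ) (r : ZMod 56) :
    A (w :: L) (k + m) r =
      ∑ i ∈ Finset.range m, A L (k + m - i) (r - i * w) + A (w :: L) k (r - m * w) := by
  induction m generalizing r with
  | zero => simp
  | succ m ih =>
    rw [← add_assoc, A_succ, ih, Finset.sum_range_succ', ← add_assoc]
    congr 1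
    · rw [add_comm]
      congr 1
      · refine Finset.sum_congr rfl fun i _ => ?_
        congr 1
        · omega
        · push_cast; ring
      · simp
    · congr 1; push_cast; ring

def Z : ℕ → (ℕ → ℤ) → Prop
  | 0, f => ∀ k, f k = 0
  | n + 1, f => Z n fun k => f (k + 56) - f k

theorem Z.add : ∀ {n : ℕ} {f g : ℕ → ℤ}, Z n f → Z n g → Z n fun k => f k + g k
  | 0, f, g, hf, hg => fun k => by simp [hf k, hg k]
  | n + 1, f, g, hf, hg => by
    have := Z.add (n := n) hf hg
    simp only [Z]
    convert this using 2; ring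

theorem Z.neg : ∀ {n : ℕ} {f : ℕ → ℤ}, Z n f → Z n fun k => - f k
  | 0, f, hf => fun k => by simp [hf k]
  | n + 1, f, hf => by
    have := Z.neg (n := n) hf
    simp only [Z]
    convert this using 2; ring

theorem Z.shift (m : ℕ) : ∀ {n : ℕ} {f : ℕ → ℤ}, Z n f → Z n fun k => f (k + m)
  | 0, f, hf => fun k => hf _
  | n + 1, f, hf => by
    have := Z.shift m (n := n) hf
    simp only [Z]
    convert this using 3; ring_nf

theorem Z.zero : ∀ {n : ℕ}, Z n fun _ => 0
  | 0 => fun _ => rfl
  | n + 1 => by simpa [Z] using Z.zero (n := n)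

theorem Z.sum {n : ℕ} {ι : Type*} (s : Finset ι) (f : ι → ℕ → ℤ) (h : ∀ i ∈ s, Z n (f i)) :
    Z n fun k => ∑ i ∈ s, f i k := by
  classical
  induction s using Finset.induction_on with
  | empty => simpa using Z.zero
  | insert a s ha ih =>
    simp only [Finset.sum_insert ha]
    exact (h a (Finset.mem_insert_self _ _)).add
      (ih fun i hi => h i (Finset.mem_insert_of_mem hi))

theorem Z.eq_zero : ∀ {n : ℕ} {f : ℕ → ℤ}, Z n f → (∀ k < 56 * n, f k = 0) → ∀ k, f k = 0
  | 0, f, hf, _ => hf
  | n + 1, f, hf, h => by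
    have h1 := Z.eq_zero (n := n) hf (fun k hk => by
      rw [h k (by omega), h (k + 56) (by omega)]; simp)
    intro k
    induction k using Nat.strong_induction_on with
    | _ k ih =>
      by_cases hk : k < 56
      · exact h k (by omega)
      · obtain ⟨j, rfl⟩ : ∃ j, k = j + 56 := ⟨k - 56, by omega⟩
        have := h1 j
        have := ih j (by omega)
        linarith

theorem Z_A : ∀ (L : List (ZMod 56)) (r : ZMod 56), Z L.length fun k => (A L (k + 1) r : ℤ)
  | [], r => fun k => by simp [A]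
  | w :: L, r => by
    have h := Z.sum (Finset.range 56) (fun i k => (A L (k + (56 - i) + 1) (r - i * w) : ℤ))
      (fun i _ => (Z_A L (r - i * w)).shift (56 - i))
    simp only [List.length_cons, Z]
    convert h using 2 with k
    have h56 : ((56 : ℕ) : ZMod 56) = 0 := by decide
    rw [show k + 56 + 1 = (k + 1) + 56 by ring, A_add, h56, zero_mul, sub_zero]
    push_cast
    rw [add_sub_cancel_right]
    refine Finset.sum_congr rfl fun i hi => ?_
    have := Finset.mem_range.1 hi
    congr 2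
    omega

theorem A_le : ∀ (L : List (ZMod 56)) (k : ℕ) (r : ZMod 56), A L k r ≤ (k + 1) ^ L.length
  | [], k, r => by simp only [A]; split_ifs <;> simp
  | w :: L, k, r => by
    rw [A, List.length_cons, pow_succ']
    calc _ ≤ ∑ i ∈ Finset.range (k + 1), (k + 1) ^ L.length :=
          Finset.sum_le_sum fun i _ => (A_le L _ _).trans (Nat.pow_le_pow_left (by omega) _)
      _ = _ := by simp

def enc (X : ℕ) (f : ZMod 56 → ℕ) : ℕ := ∑ r : ZMod 56, f r * X ^ r.val

def force {α : Type} (n : ℕ) (k : ℕ → α) : α :=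
  match n with
  | 0 => k 0
  | m + 1 => k (m + 1)

theorem force_eq {α : Type} (n : ℕ) (k : ℕ → α) : force n k = k n := by cases n <;> rfl

def go (M Y : ℕ) : ℕ → List ℕ → List ℕ
  | _, [] => []
  | p, c :: cs => force ((c + Y * p) % M) fun d => d :: go M Y d cs

def tab (M X K : ℕ) : List (ZMod 56) → List ℕ
  | [] => 1 % M :: List.replicate K 0
  | w :: L => force (X ^ w.val) fun Y => go M Y 0 (tab M X K L)

theorem enc_rot {M X : ℕ} (hX : (X : ZMod M) ^ 56 = 1) (f : ZMod 56 → ℕ) (w : ZMod 56) :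
    (enc X (fun r => f (r - w)) : ZMod M) = (X : ZMod M) ^ w.val * enc X f := by
  simp only [enc]
  push_cast
  rw [Finset.mul_sum, ← Equiv.sum_comp (Equiv.addRight w)]
  refine Finset.sum_congr rfl fun r _ => ?_
  simp only [Equiv.coe_addRight, add_sub_cancel_right]
  rw [ZMod.val_add, ← pow_eq_pow_mod _ hX, pow_add]
  ring

theorem step {M X : ℕ} (hX : (X : ZMod M) ^ 56 = 1) (w : ZMod 56) (L : List (ZMod 56)) (j : ℕ) :
    (enc X (A L (j + 1)) % M + X ^ w.val * (enc X (A (w :: L) j) % M)) % M =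
      enc X (A (w :: L) (j + 1)) % M := by
  rw [← ZMod.natCast_eq_natCast_iff']
  push_cast
  simp only [ZMod.natCast_mod]
  rw [← enc_rot hX]
  simp only [enc, A_succ]
  push_cast
  rw [← Finset.sum_add_distrib]
  refine Finset.sum_congr rfl fun r _ => by ring

theorem go_spec {M X : ℕ} (hX : (X : ZMod M) ^ 56 = 1) (w : ZMod 56) (L : List (ZMod 56))
    (m j : ℕ) :
    go M (X ^ w.val) (enc X (A (w :: L) j) % M)
        ((List.range' (j + 1) m).map fun k => enc X (A L k) % M) =
      (List.range' (j + 1) m).map fun k => enc X (A (w :: L) k) % M := by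
  induction m generalizing j with
  | zero => rfl
  | succ m ih =>
    rw [List.range'_succ, List.map_cons, List.map_cons, go, force_eq, step hX, ih]

theorem tab_spec {M X : ℕ} (hX : (X : ZMod M) ^ 56 = 1) (K : ℕ) (L : List (ZMod 56)) :
    tab M X K L = (List.range' 0 (K + 1)).map fun k => enc X (A L k) % M := by
  induction L with
  | nil =>
    rw [tab, List.range'_succ, List.map_cons]
    refine congrArg₂ List.cons ?_ ?_
    · have : enc X (A [] 0) = 1 := by
        rw [enc, Finset.sum_eq_single 0]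
        · simp [A]
        · intro r _ hr; simp [A, hr]
        · simp
      rw [this]
    · symm
      rw [List.eq_replicate_iff]
      refine ⟨by simp, fun b hb => ?_⟩
      obtain ⟨k, hk, rfl⟩ := List.mem_map.1 hb
      have : k ≠ 0 := by have := (List.mem_range'_1.1 hk).1; omega
      have h2 : enc X (A [] k) = 0 := Finset.sum_eq_zero fun r _ => by simp [A, this]
      rw [h2, Nat.zero_mod]
  | cons w L ih =>
    rw [tab, force_eq, ih, List.range'_succ, List.map_cons, List.map_cons, go, force_eq]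
    have : (enc X (A L 0) % M + X ^ w.val * 0) % M = enc X (A (w :: L) 0) % M := by
      have : A (w :: L) 0 = A L 0 := funext (A_zero w L)
      rw [this]; simp
    rw [this, go_spec hX]

theorem geo (Y n : ℕ) : ∑ i ∈ Finset.range n, Y * (Y + 1) ^ i + 1 = (Y + 1) ^ n := by
  induction n with
  | zero => simp
  | succ n ih => rw [Finset.sum_range_succ, pow_succ, ← ih]; ring

theorem enc_mod (Y M : ℕ) (hM : M + 1 = (Y + 1) ^ 56) (f : ZMod 56 → ℕ) (hf : ∀ r, f r < Y) :
    enc (Y + 1) f % M % (Y + 1) = f 0 := by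
  have h1 : enc (Y + 1) f < M := by
    have h3 : ∑ r : ZMod 56, Y * (Y + 1) ^ r.val = ∑ i ∈ Finset.range 56, Y * (Y + 1) ^ i :=
      Fin.sum_univ_eq_sum_range (fun i => Y * (Y + 1) ^ i) 56
    have h2 : ∑ r : ZMod 56, Y * (Y + 1) ^ r.val = M := by
      rw [h3]
      exact Nat.add_right_cancel ((geo Y 56).trans hM.symm)
    have h4 : ∑ r : ZMod 56, f r * (Y + 1) ^ r.val < ∑ r : ZMod 56, Y * (Y + 1) ^ r.val := by
      refine Finset.sum_lt_sum_of_nonempty ⟨0, Finset.mem_univ _⟩ ?_
      intro r _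
      exact Nat.mul_lt_mul_of_pos_right (hf r) (Nat.pow_pos (Nat.succ_pos Y))
    rw [h2] at h4
    rw [enc]
    exact h4
  rw [Nat.mod_eq_of_lt h1, ← Nat.mod_eq_of_lt (show f 0 < Y + 1 from (hf 0).trans (by omega)),
    ← ZMod.natCast_eq_natCast_iff', enc]
  rw [Nat.cast_sum, Finset.sum_eq_single 0]
  · simp
  · intro r _ hr
    have : r.val ≠ 0 := by rwa [Ne, ZMod.val_eq_zero]
    rw [Nat.cast_mul, Nat.cast_pow, ZMod.natCast_self, zero_pow this, mul_zero]
  · simp

theorem A_eq (L L' : List (ZMod 56)) (n Y M : ℕ) (h1 : L.length = n) (h2 : L'.length = n)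
    (hY : (56 * n + 1) ^ n < Y) (hM : M + 1 = (Y + 1) ^ 56)
    (h : (tab M (Y + 1) (56 * n) L).map (· % (Y + 1)) =
      (tab M (Y + 1) (56 * n) L').map (· % (Y + 1))) (k : ℕ) :
    A L k 0 = A L' k 0 := by
  have hX : ((Y + 1 : ℕ) : ZMod M) ^ 56 = 1 := by
    rw [← Nat.cast_pow, ← hM, Nat.cast_add, ZMod.natCast_self, zero_add, Nat.cast_one]
  rw [tab_spec hX, tab_spec hX, List.map_map, List.map_map, List.map_inj_left] at h
  have hb : ∀ L : List (ZMod 56), L.length = n → ∀ k ≤ 56 * n, ∀ r, A L k r < Y := by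
    intro L hL k hk r
    have h3 := A_le L k r
    rw [hL] at h3
    exact h3.trans_lt ((Nat.pow_le_pow_left (by omega) _).trans_lt hY)
  have h0 : ∀ k ≤ 56 * n, A L k 0 = A L' k 0 := by
    intro k hk
    have h3 : enc (Y + 1) (A L k) % M % (Y + 1) = enc (Y + 1) (A L' k) % M % (Y + 1) :=
      h k (List.mem_range'_1.2 ⟨by omega, by omega⟩)
    rwa [enc_mod Y M hM _ (hb L h1 k hk), enc_mod Y M hM _ (hb L' h2 k hk)] at h3
  rcases k with _ | k
  · exact h0 0 (by omega)
  · have z1 := Z_A L 0
    have z2 := Z_A L' 0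
    rw [h1] at z1
    rw [h2] at z2
    have := (z1.add z2.neg).eq_zero (fun k hk => by rw [h0 (k + 1) (by omega)]; ring) k
    omega

end Pool.Agent.H2.Lens
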