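import Pool.Agent.H2.Lens1

namespace Pool.Agent.H2.Lens

def L1 : List (ZMod 56) :=
  [1, 1, 3, 9, 13, 15, 15, 17, 17, 23, 25, 55, 55, 53, 47, 43, 41, 41, 39, 39, 33, 31]
def L2 : List (ZMod 56) :=
  [1, 1, 3, 9, 27, 15, 15, 17, 17, 23, 25, 55, 55, 53, 47, 29, 41, 41, 39, 39, 33, 31]

noncomputable def goA (M Y : ℕ) (l : List ℕ) : ℕ → List ℕ → List ℕ :=
  List.rec (fun _ acc => acc)
    (fun c _ ih p acc => force (Nat.mod (Nat.add c (Nat.mul Y p)) M) fun d => ih d (d :: acc)) l

noncomputable def rev (l : List ℕ) : List ℕ → List ℕ :=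
  List.rec (fun acc => acc) (fun c _ ih acc => ih (c :: acc)) l

theorem rev_eq (l acc : List ℕ) : rev l acc = l.reverse ++ acc := by
  induction l generalizing acc with
  | nil => rfl
  | cons c l ih =>
    show rev l (c :: acc) = _
    rw [ih]; simp

theorem goA_eq (M Y : ℕ) (l : List ℕ) (p : ℕ) (acc : List ℕ) :
    goA M Y l p acc = (go M Y p l).reverse ++ acc := by
  induction l generalizing p acc with
  | nil => rfl
  | cons c l ih =>
    show force ((c + Y * p) % M) (fun d => goA M Y l d (d :: acc)) = _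
    rw [force_eq, ih, go, force_eq]; simp

noncomputable def tabN (M X K : ℕ) (L : List ℕ) : List ℕ :=
  List.rec (Nat.mod 1 M :: List.replicate K 0)
    (fun w _ ih => force (Nat.pow X w) fun Y => rev (goA M Y ih 0 []) []) L

theorem tabN_eq (M X K : ℕ) (L : List (ZMod 56)) : tabN M X K (L.map ZMod.val) = tab M X K L := by
  induction L with
  | nil => rfl
  | cons w L ih =>
    show force (X ^ w.val) (fun Y => rev (goA M Y (tabN M X K (L.map ZMod.val)) 0 []) []) = _
    rw [force_eq, ih, rev_eq, goA_eq, tab, force_eq]; simp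

noncomputable def eqm (X : ℕ) (l : List ℕ) : List ℕ → Bool :=
  List.rec (fun l' => List.rec true (fun _ _ _ => false) l')
    (fun a _ ih l' => List.rec false
      (fun b t _ => Bool.rec false (ih t) (Nat.beq (Nat.mod a X) (Nat.mod b X))) l') l

theorem eqm_spec (X : ℕ) (l l' : List ℕ) (h : eqm X l l' = true) :
    l.map (· % X) = l'.map (· % X) := by
  induction l generalizing l' with
  | nil => cases l' with
    | nil => rfl
    | cons b t => exact absurd h (by simp [eqm])
  | cons a l ih => cases l' with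
    | nil => exact absurd h (by simp [eqm])
    | cons b t =>
      have h' : (Bool.rec false (eqm X l t) (Nat.beq (a % X) (b % X)) : Bool) = true := h
      cases hb : Nat.beq (a % X) (b % X) with
      | false => rw [hb] at h'; exact absurd h' (by simp)
      | true =>
        rw [hb] at h'
        rw [List.map_cons, List.map_cons, ih t h', Nat.eq_of_beq_eq_true hb]

noncomputable def chk (K : ℕ) : Bool :=
  force (Nat.pow 3 147) fun X => force (Nat.sub (Nat.pow X 56) 1) fun M =>
    eqm X (tabN M X K
      [1, 1, 3, 9, 13, 15, 15, 17, 17, 23, 25, 55, 55, 53, 47, 43, 41, 41, 39, 39, 33, 31])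
      (tabN M X K
      [1, 1, 3, 9, 27, 15, 15, 17, 17, 23, 25, 55, 55, 53, 47, 29, 41, 41, 39, 39, 33, 31])

set_option maxRecDepth 1000000 in
theorem check0 : chk (56 * 22) = true := by decide +kernel

theorem A_L (k : ℕ) : A L1 k 0 = A L2 k 0 := by
  have h := check0
  rw [chk, force_eq, force_eq] at h
  have e1 : [1, 1, 3, 9, 13, 15, 15, 17, 17, 23, 25, 55, 55, 53, 47, 43, 41, 41, 39, 39, 33, 31] =
    L1.map ZMod.val := by decide +kernel
  have e2 : [1, 1, 3, 9, 27, 15, 15, 17, 17, 23, 25, 55, 55, 53, 47, 29, 41, 41, 39, 39, 33, 31] =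
    L2.map ZMod.val := by decide +kernel
  rw [e1, e2, tabN_eq, tabN_eq] at h
  have hX : Nat.pow 3 147 = (Nat.pow 3 147 - 1) + 1 := by decide +kernel
  have hM : Nat.sub (Nat.pow (Nat.pow 3 147) 56) 1 + 1 = ((Nat.pow 3 147 - 1) + 1) ^ 56 := by
    decide +kernel
  have hY : (56 * 22 + 1) ^ 22 < Nat.pow 3 147 - 1 := by decide +kernel
  generalize Nat.sub (Nat.pow (Nat.pow 3 147) 56) 1 = M at h hM
  generalize Nat.pow 3 147 - 1 = Y at hX hM hY
  rw [hX] at h
  exact A_eq L1 L2 22 Y M rfl rfl hY hM (eqm_spec _ _ _ h) k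

open Finset in
theorem card_eq_A : ∀ (m : ℕ) (w : Fin m → ZMod 56) (k : ℕ) (r : ZMod 56),
    ((Finset.Nat.antidiagonalTuple m k).filter fun e => ∑ j, (e j : ZMod 56) * w j = r).card =
      A (List.ofFn w) k r
  | 0, w, k, r => by
    rcases k with _ | k
    · by_cases h : r = 0
      · simp [A, h]
      · simp [A, h, Ne.symm h]
    · simp [A]
  | m + 1, w, k, r => by
    rw [List.ofFn_succ, A, Finset.card_eq_sum_card_fiberwise (f := fun e => e 0)
      (t := Finset.range (k + 1))]
    · refine Finset.sum_congr rfl fun i hi => ?_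
      have hi' := Finset.mem_range.1 hi
      rw [← card_eq_A m]
      refine Finset.card_nbij' (fun e => Fin.tail e) (fun e => Fin.cons i e) ?_ ?_ ?_ ?_
      · intro e he
        simp only [coe_filter, mem_filter, Finset.Nat.mem_antidiagonalTuple, Set.mem_setOf_eq,
          Fin.sum_univ_succ] at he ⊢
        obtain ⟨⟨h1, h2⟩, h3⟩ := he
        rw [h3] at h1 h2
        refine ⟨?_, ?_⟩
        · simp only [Fin.tail]; omega
        · simp only [Fin.tail]; rw [← h2]; ring
      · intro e he
        simp only [coe_filter, mem_filter, Finset.Nat.mem_antidiagonalTuple, Set.mem_setOf_eq,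
          Fin.sum_univ_succ, Fin.cons_zero, Fin.cons_succ] at he ⊢
        obtain ⟨h1, h2⟩ := he
        refine ⟨⟨by omega, ?_⟩, trivial⟩
        rw [h2]; ring
      · intro e he
        simp only [coe_filter, Set.mem_setOf_eq] at he
        rw [← he.2]
        exact Fin.cons_self_tail e
      · intro e _
        simp
    · intro e he
      simp only [coe_filter, Finset.Nat.mem_antidiagonalTuple, Set.mem_setOf_eq,
        Fin.sum_univ_succ, coe_range, Set.mem_Iio] at he ⊢
      omega

end Pool.Agent.H2.Lens
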