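import Mathlib

set_option maxHeartbeats 400000

namespace Pool.Agent.H2.Lens

open MvPolynomial

abbrev P (n : ℕ) := MvPolynomial (Fin n ⊕ Fin n) ℂ

noncomputable def lap (n : ℕ) : P n →ₗ[ℂ] P n :=
  ∑ j : Fin n, (pderiv (Sum.inl j)).toLinearMap ∘ₗ (pderiv (Sum.inr j)).toLinearMap

noncomputable def act (ξ : ℂ) {n : ℕ} (s : Fin n → ℤ) : P n →ₐ[ℂ] P n :=
  aeval (Sum.elim (fun j => C (ξ ^ s j) * X (Sum.inl j)) fun j => C (ξ ^ (-s j)) * X (Sum.inr j))

def W {n : ℕ} (s : Fin n → ℤ) (m : Fin n ⊕ Fin n →₀ ℕ) : ℤ :=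
  ∑ j, s j * ((m (Sum.inl j) : ℤ) - m (Sum.inr j))

def S (q : ℕ) {n : ℕ} (s : Fin n → ℤ) (k : ℕ) : Set (Fin n ⊕ Fin n →₀ ℕ) :=
  {m | ∑ j, m (Sum.inl j) + ∑ j, m (Sum.inr j) = k ∧ (q : ℤ) ∣ W s m}

theorem zpow_sum' {ξ : ℂ} (h : ξ ≠ 0) {ι : Type*} (t : Finset ι) (f : ι → ℤ) :
    ξ ^ (∑ i ∈ t, f i) = ∏ i ∈ t, ξ ^ f i := by
  classical
  induction t using Finset.induction_on with
  | empty => simp
  | insert a t ha ih => rw [Finset.sum_insert ha, Finset.prod_insert ha, zpow_add₀ h, ih]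

theorem act_monomial {ξ : ℂ} (h : ξ ≠ 0) {n : ℕ} (s : Fin n → ℤ) (u : Fin n ⊕ Fin n →₀ ℕ) (a : ℂ) :
    act ξ s (monomial u a) = monomial u (ξ ^ W s u * a) := by
  rw [act, aeval_monomial, monomial_eq, Finsupp.prod_fintype _ _ (by simp),
    Finsupp.prod_fintype _ _ (by simp), Fintype.prod_sum_type, Fintype.prod_sum_type]
  simp only [Sum.elim_inl, Sum.elim_inr, mul_pow, Finset.prod_mul_distrib, algebraMap_eq,
    ← C_pow, ← map_prod, map_mul]
  have : ξ ^ W s u = (∏ j, (ξ ^ s j) ^ u (Sum.inl j)) * ∏ j, (ξ ^ (-s j)) ^ u (Sum.inr j) := by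
    rw [W, zpow_sum' h, ← Finset.prod_mul_distrib]
    refine Finset.prod_congr rfl fun j _ => ?_
    rw [← zpow_natCast, ← zpow_natCast, ← zpow_mul, ← zpow_mul, ← zpow_add₀ h]
    congr 1; ring
  rw [this, map_mul]
  ring

theorem coeff_act {ξ : ℂ} (h : ξ ≠ 0) {n : ℕ} (s : Fin n → ℤ) (p : P n) (m : Fin n ⊕ Fin n →₀ ℕ) :
    coeff m (act ξ s p) = ξ ^ W s m * coeff m p := by
  classical
  induction p using MvPolynomial.induction_on' with
  | monomial u a =>
    rw [act_monomial h, coeff_monomial, coeff_monomial]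
    split_ifs with e
    · rw [e]
    · simp
  | add p q hp hq => rw [map_add, coeff_add, coeff_add, hp, hq, mul_add]

theorem V_eq {ξ : ℂ} {q : ℕ} (hq : q ≠ 0) (h : IsPrimitiveRoot ξ q) {n : ℕ} (s : Fin n → ℤ) (k : ℕ) :
    homogeneousSubmodule (Fin n ⊕ Fin n) ℂ k ⊓
      LinearMap.eqLocus (act ξ s).toLinearMap LinearMap.id = restrictSupport ℂ (S q s k) := by
  have h0 : ξ ≠ 0 := h.ne_zero hq
  have w1 : ∀ m : Fin n ⊕ Fin n →₀ ℕ, Finsupp.weight (1 : Fin n ⊕ Fin n → ℕ) m =
      ∑ j, m (Sum.inl j) + ∑ j, m (Sum.inr j) := by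
    intro m
    rw [Finsupp.weight_apply, Finsupp.sum_fintype _ _ (by simp), Fintype.sum_sum_type]
    simp
  ext p
  rw [Submodule.mem_inf, mem_homogeneousSubmodule, LinearMap.mem_eqLocus, mem_restrictSupport_iff]
  constructor
  · rintro ⟨h1, h2⟩ m hm
    have hm' : coeff m p ≠ 0 := mem_support_iff.1 hm
    refine ⟨by rw [← w1]; exact h1 hm', ?_⟩
    have h3 : coeff m (act ξ s p) = coeff m p := congrArg (coeff m) h2
    rw [coeff_act h0] at h3
    rw [← h.zpow_eq_one_iff_dvd]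
    exact mul_right_cancel₀ hm' (by rw [h3, one_mul])
  · intro hp
    refine ⟨fun m hm => by rw [w1]; exact (hp (mem_support_iff.2 hm)).1, ?_⟩
    ext m
    show coeff m (act ξ s p) = coeff m p
    rw [coeff_act h0]
    by_cases hm : coeff m p = 0
    · rw [hm, mul_zero]
    · rw [(h.zpow_eq_one_iff_dvd _).2 (hp (mem_support_iff.2 hm)).2, one_mul]

theorem lap_monomial {n : ℕ} (u : Fin n ⊕ Fin n →₀ ℕ) (a : ℂ) : lap n (monomial u a) =
    ∑ j, monomial (u - Finsupp.single (Sum.inr j) 1 - Finsupp.single (Sum.inl j) 1)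
      (a * u (Sum.inr j) * u (Sum.inl j)) := by
  rw [lap, LinearMap.sum_apply]
  refine Finset.sum_congr rfl fun j _ => ?_
  simp [pderiv_monomial]

theorem S_add {q n : ℕ} (s : Fin n → ℤ) (k : ℕ) (m : Fin n ⊕ Fin n →₀ ℕ) (j : Fin n) :
    m + Finsupp.single (Sum.inl j) 1 + Finsupp.single (Sum.inr j) 1 ∈ S q s (k + 2) ↔
      m ∈ S q s k := by
  classical
  have hW : W s (m + Finsupp.single (Sum.inl j) 1 + Finsupp.single (Sum.inr j) 1) = W s m := by
    refine Finset.sum_congr rfl fun i _ => ?_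
    simp [Finsupp.single_apply]
  simp only [S, Set.mem_setOf_eq, hW]
  refine and_congr ?_ Iff.rfl
  simp [Finsupp.single_apply, Finset.sum_add_distrib]
  omega

theorem sub_add {n : ℕ} (u : Fin n ⊕ Fin n →₀ ℕ) (j : Fin n) (h1 : u (Sum.inl j) ≠ 0)
    (h2 : u (Sum.inr j) ≠ 0) : u - Finsupp.single (Sum.inr j) 1 - Finsupp.single (Sum.inl j) 1 +
      Finsupp.single (Sum.inl j) 1 + Finsupp.single (Sum.inr j) 1 = u := by
  classical
  ext i
  simp only [Finsupp.coe_add, Finsupp.coe_tsub, Pi.add_apply, Pi.sub_apply, Finsupp.single_apply]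
  split_ifs with a b b
  · rw [← a] at b; exact absurd b (by simp)
  · subst a; omega
  · subst b; omega
  · omega

theorem mono_mem {σ : Type*} {T : Set (σ →₀ ℕ)} {m : σ →₀ ℕ} (h : m ∈ T) (a : ℂ) :
    monomial m a ∈ restrictSupport ℂ T := by
  classical
  rw [mem_restrictSupport_iff]
  intro x hx
  have := support_monomial_subset hx
  rw [Finset.mem_singleton] at this
  rwa [this]

theorem le_of_mono {σ : Type*} {T : Set (σ →₀ ℕ)} {R : Submodule ℂ (MvPolynomial σ ℂ)}
    (h : ∀ m ∈ T, ∀ a, monomial m a ∈ R) : restrictSupport ℂ T ≤ R := by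
  intro p hp
  rw [mem_restrictSupport_iff] at hp
  rw [p.as_sum]
  exact R.sum_mem fun m hm => h m (hp hm) _

theorem map_lap {q n : ℕ} (s : Fin (n + 1) → ℤ) (k : ℕ) :
    (restrictSupport ℂ (S q s (k + 2))).map (lap (n + 1)) = restrictSupport ℂ (S q s k) := by
  classical
  apply le_antisymm
  · rw [Submodule.map_le_iff_le_comap]
    refine le_of_mono fun u hu a => ?_
    rw [Submodule.mem_comap, lap_monomial]
    refine Submodule.sum_mem _ fun j _ => ?_
    by_cases h1 : u (Sum.inl j) = 0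
    · simp [h1]
    by_cases h2 : u (Sum.inr j) = 0
    · simp [h2]
    exact mono_mem ((S_add s k _ j).1 (by rwa [sub_add u j h1 h2])) _
  · refine le_of_mono fun m hm => ?_
    generalize hd : k - m (Sum.inl 0) = d
    induction d using Nat.strong_induction_on generalizing m with
    | _ d ih =>
      intro a
      set u := m + Finsupp.single (Sum.inl 0) 1 + Finsupp.single (Sum.inr 0) 1 with hu
      have hu1 : u (Sum.inl 0) = m (Sum.inl 0) + 1 := by simp [hu]
      have hu2 : u (Sum.inr 0) = m (Sum.inr 0) + 1 := by simp [hu]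
      have huS : u ∈ S q s (k + 2) := (S_add s k m 0).2 hm
      have c1 : ((u (Sum.inl 0) : ℕ) : ℂ) ≠ 0 := by rw [hu1]; exact Nat.cast_ne_zero.2 (by omega)
      have c2 : ((u (Sum.inr 0) : ℕ) : ℂ) ≠ 0 := by rw [hu2]; exact Nat.cast_ne_zero.2 (by omega)
      have h1 := Submodule.mem_map_of_mem (f := lap (n + 1))
        (mono_mem huS (a / u (Sum.inr 0) / u (Sum.inl 0)))
      rw [lap_monomial, Fin.sum_univ_succ] at h1
      have e0 : u - Finsupp.single (Sum.inr 0) 1 - Finsupp.single (Sum.inl 0) 1 = m := by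
        rw [hu, add_tsub_cancel_right, add_tsub_cancel_right]
      have e1 : a / u (Sum.inr 0) / u (Sum.inl 0) * u (Sum.inr 0) * u (Sum.inl 0) = a := by
        field_simp
      rw [e0, e1] at h1
      refine (Submodule.add_mem_iff_left _ (Submodule.sum_mem _ fun j _ => ?_)).1 h1
      by_cases g1 : u (Sum.inl j.succ) = 0
      · simp [g1]
      by_cases g2 : u (Sum.inr j.succ) = 0
      · simp [g2]
      have hS := (S_add s k _ j.succ).1 (by rw [sub_add u j.succ g1 g2]; exact huS)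
      have hv : (u - Finsupp.single (Sum.inr j.succ) 1 - Finsupp.single (Sum.inl j.succ) 1 :
          Fin (n + 1) ⊕ Fin (n + 1) →₀ ℕ) (Sum.inl 0) = m (Sum.inl 0) + 1 := by
        rw [← hu1]
        simp [Finsupp.single_apply, Fin.succ_ne_zero]
      have hle := hS.1
      rw [Fin.sum_univ_succ, hv] at hle
      exact ih _ (by rw [hv]; omega) _ hS rfl _

theorem S_finite (q : ℕ) {n : ℕ} (s : Fin n → ℤ) (k : ℕ) : (S q s k).Finite := by
  refine (Finsupp.finite_of_degree_le k).subset fun m hm => ?_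
  have := hm.1
  simp only [Set.mem_setOf_eq, Finsupp.degree_eq_sum, Fintype.sum_sum_type]
  omega

theorem rank_harm {q n : ℕ} (s : Fin n → ℤ) (k : ℕ) :
    Module.finrank ℂ ((restrictSupport ℂ (S q s k)).map (lap n)) +
      Module.finrank ℂ ↥(restrictSupport ℂ (S q s k) ⊓ LinearMap.ker (lap n)) =
        Nat.card (S q s k) := by
  haveI := (S_finite q s k).to_subtype
  haveI := Module.Finite.of_basis (basisRestrictSupport ℂ (S q s k))
  rw [← Module.finrank_eq_nat_card_basis (basisRestrictSupport ℂ (S q s k)),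
    ← LinearMap.finrank_range_add_finrank_ker ((lap n).domRestrict (restrictSupport ℂ (S q s k))),
    LinearMap.range_domRestrict, LinearMap.ker_domRestrict,
    ← Submodule.finrank_map_subtype_eq, Submodule.map_comap_subtype]

theorem map_lap_small {q n : ℕ} (s : Fin n → ℤ) (k : ℕ) (hk : k < 2) :
    (restrictSupport ℂ (S q s k)).map (lap n) = ⊥ := by
  rw [eq_bot_iff, Submodule.map_le_iff_le_comap]
  refine le_of_mono fun u hu a => ?_
  rw [Submodule.mem_comap, lap_monomial]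
  refine Submodule.sum_mem _ fun j _ => ?_
  by_cases h1 : u (Sum.inl j) = 0
  · simp [h1]
  by_cases h2 : u (Sum.inr j) = 0
  · simp [h2]
  have a1 := Finset.single_le_sum (f := fun j => u (Sum.inl j)) (fun _ _ => Nat.zero_le _)
    (Finset.mem_univ j)
  have a2 := Finset.single_le_sum (f := fun j => u (Sum.inr j)) (fun _ _ => Nat.zero_le _)
    (Finset.mem_univ j)
  have := hu.1
  omega

theorem harm_eq {q n : ℕ} (s s' : Fin (n + 1) → ℤ)
    (h : ∀ k, Nat.card (S q s k) = Nat.card (S q s' k)) (k : ℕ) :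
    Module.finrank ℂ ↥(restrictSupport ℂ (S q s k) ⊓ LinearMap.ker (lap (n + 1))) =
      Module.finrank ℂ ↥(restrictSupport ℂ (S q s' k) ⊓ LinearMap.ker (lap (n + 1))) := by
  have a := rank_harm (q := q) s k
  have b := rank_harm (q := q) s' k
  by_cases hk : k < 2
  · rw [map_lap_small _ _ hk] at a b
    have := h k
    omega
  · obtain ⟨j, rfl⟩ : ∃ j, k = j + 2 := ⟨k - 2, by omega⟩
    rw [map_lap, Module.finrank_eq_nat_card_basis (basisRestrictSupport ℂ _)] at a b
    have := h (j + 2)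
    have := h j
    omega

end Pool.Agent.H2.Lens
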