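import Pool.Agent.H2.MonDefs

open MvPolynomial

namespace Pool.Agent.H2.Mon

variable {n : ℕ} {K : Type} [Field K]

/-- the prime generated by a set of variables -/
noncomputable abbrev PX (K : Type) [Field K] (T : Finset (Fin n)) :
    Ideal (MvPolynomial (Fin n) K) := Ideal.span (X '' (T : Set (Fin n)))

lemma X_mem_PX {T : Finset (Fin n)} {i : Fin n} :
    (X i : MvPolynomial (Fin n) K) ∈ PX K T ↔ i ∈ T := by
  refine ⟨fun h => ?_, fun h => Ideal.subset_span ⟨i, h, rfl⟩⟩
  obtain ⟨j, hj, h⟩ := mem_ideal_span_X_image.1 h (Finsupp.single i 1) (by simp [support_X])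
  have : i = j := by
    by_contra e
    simp [e] at h
  exact this ▸ hj

lemma PX_prime (T : Finset (Fin n)) : (PX K T).IsPrime := by
  let φ : MvPolynomial (Fin n) K →ₐ[K] MvPolynomial (Fin n) K :=
    aeval fun i => if i ∈ T then 0 else X i
  have : PX K T = RingHom.ker φ := by
    apply le_antisymm
    · rw [Ideal.span_le]
      rintro _ ⟨i, hi, rfl⟩
      have : i ∈ T := hi
      simp [φ, this]
    · intro p hp
      have e : (Ideal.Quotient.mkₐ K (PX K T)).comp φ = Ideal.Quotient.mkₐ K (PX K T) := by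
        refine MvPolynomial.algHom_ext fun i => ?_
        by_cases h : i ∈ T
        · simp only [φ, AlgHom.comp_apply, aeval_X, h, if_true, map_zero, Ideal.Quotient.mkₐ_eq_mk]
          exact (Ideal.Quotient.eq_zero_iff_mem.2 (X_mem_PX.2 h)).symm
        · simp [φ, h]
      have := congrArg (fun f : MvPolynomial (Fin n) K →ₐ[K] _ => f p) e
      simp only [AlgHom.comp_apply, (RingHom.mem_ker).1 hp, map_zero] at this
      exact Ideal.Quotient.eq_zero_iff_mem.1 this.symm
  rw [this]
  exact RingHom.ker_isPrime _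

lemma mem_symb {S : Type} [CommRing S] (I : Ideal S) (k : ℕ) (f : S) :
    f ∈ symb I k ↔ ∀ P ∈ associatedPrimes S (S ⧸ I), ∃ s ∉ P, s * f ∈ I ^ k := by
  simp only [symb, Submodule.mem_iInf, Ideal.mem_comap, Subtype.forall]
  refine forall₂_congr fun P hP => ?_
  have : P.IsPrime := hP.isPrime
  exact IsLocalization.algebraMap_mem_map_algebraMap_iff P.primeCompl _ _ _

lemma mem_ass {S : Type} [CommRing S] [IsNoetherianRing S] (I P : Ideal S) :
    P ∈ associatedPrimes S (S ⧸ I) ↔ P.IsPrime ∧ ∃ x, ∀ r, r ∈ P ↔ r * x ∈ I := by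
  rw [AssociatedPrimes.mem_iff, isAssociatedPrime_iff]
  refine and_congr_right fun _ => ⟨?_, ?_⟩
  · rintro ⟨x, rfl⟩
    obtain ⟨x, rfl⟩ := Ideal.Quotient.mk_surjective x
    refine ⟨x, fun r => ?_⟩
    rw [Submodule.mem_colon_singleton, Submodule.mem_bot, ← Ideal.Quotient.eq_zero_iff_mem]
    rfl
  · rintro ⟨x, hx⟩
    refine ⟨Ideal.Quotient.mk I x, Ideal.ext fun r => ?_⟩
    rw [hx, Submodule.mem_colon_singleton, Submodule.mem_bot, ← Ideal.Quotient.eq_zero_iff_mem]
    rfl

lemma pderiv_sq {P : Ideal (MvPolynomial (Fin n) K)} {g : MvPolynomial (Fin n) K}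
    (hg : g ∈ P ^ 2) (i : Fin n) : pderiv i g ∈ P := by
  rw [pow_two] at hg
  refine Submodule.mul_induction_on hg (fun x hx y hy => ?_) fun x y hx hy => ?_
  · rw [Derivation.leibniz]
    exact add_mem (P.mul_mem_right _ hx) (P.mul_mem_right _ hy)
  · rw [map_add]; exact add_mem hx hy

lemma weight_two {T : Finset (Fin n)} {s f : MvPolynomial (Fin n) K} (hs : s ∉ PX K T)
    (h : s * f ∈ PX K T ^ 2) : ∀ m ∈ f.support, 2 ≤ ∑ i ∈ T, m i := by
  have hP := PX_prime (K := K) T
  have h1 : f ∈ PX K T := (hP.mem_or_mem (Ideal.pow_le_self two_ne_zero h)).resolve_left hs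
  have h2 : ∀ i, pderiv i f ∈ PX K T := fun i => by
    have := pderiv_sq h i
    rw [Derivation.leibniz, smul_eq_mul, smul_eq_mul,
      Ideal.add_mem_iff_left _ (Ideal.mul_mem_right _ _ h1)] at this
    exact (hP.mem_or_mem this).resolve_left hs
  intro m hm
  obtain ⟨i, hi, hi'⟩ := mem_ideal_span_X_image.1 h1 m hm
  have hi : i ∈ T := hi
  have e1 := Finset.add_sum_erase T (fun j => m j) hi
  by_cases e : m i = 1
  · have e2 : m - Finsupp.single i 1 + Finsupp.single i 1 = m :=
      tsub_add_cancel_of_le (by simp [e])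
    obtain ⟨j, hj, hj'⟩ := mem_ideal_span_X_image.1 (h2 i) (m - Finsupp.single i 1) (by
      rw [mem_support_iff, coeff_pderiv, e2]
      simpa [e] using hm)
    have hji : j ≠ i := by
      rintro rfl
      simp [e] at hj'
    have h3 : m j ≤ ∑ j ∈ T.erase i, m j :=
      Finset.single_le_sum (f := fun j => m j) (fun _ _ => Nat.zero_le _)
        (Finset.mem_erase.2 ⟨hji, hj⟩)
    have h4 : m j ≠ 0 := by
      intro e'
      simp [e'] at hj'
    omega
  · omega

/-- monomial with a given exponent vector -/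
noncomputable def mon (K : Type) [Field K] (w : Fin n → ℕ) : MvPolynomial (Fin n) K :=
  monomial (Finsupp.equivFunOnFinite.symm w) 1

lemma mon_add (u v : Fin n → ℕ) : mon K (u + v) = mon K u * mon K v := by
  rw [mon, mon, mon, monomial_mul, one_mul]
  congr 2
  ext; simp

lemma mon_single (i : Fin n) : mon K (Pi.single i 1) = X i := by
  rw [mon, X]
  congr 2
  ext j; simp [Finsupp.single_eq_pi_single]

lemma mon_mem_PX {T : Finset (Fin n)} {w : Fin n → ℕ} : mon K w ∈ PX K T ↔ ∃ i ∈ T, w i ≠ 0 := by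
  classical
  rw [mem_ideal_span_X_image, mon, support_monomial]
  simp

lemma mon_hom (w : Fin n → ℕ) : (mon K w).IsHomogeneous (∑ i, w i) :=
  isHomogeneous_monomial _ (by simp [Finsupp.degree_eq_sum])

lemma hom_sum {f : MvPolynomial (Fin n) K} {d : ℕ} (hf : f.IsHomogeneous d) {m : Fin n →₀ ℕ}
    (hm : m ∈ f.support) : ∑ i, m i = d := by
  rw [← Finsupp.degree_eq_sum]
  by_contra h
  exact mem_support_iff.1 hm (hf.coeff_eq_zero h)

end Pool.Agent.H2.Mon
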