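import Pool.Agent.H2.Mon1

open MvPolynomial

namespace Pool.Agent.H2.Mon.K4

variable {K : Type} [Field K]

/-- spanning trees of `K_4`, edges ordered 12, 34, 13, 24, 14, 23 -/
def Bl : List (Fin 6 → ℕ) :=
  [![1,1,1,0,0,0], ![1,1,0,1,0,0], ![1,1,0,0,1,0], ![1,1,0,0,0,1], ![1,0,1,1,0,0],
   ![1,0,1,0,1,0], ![1,0,0,1,0,1], ![1,0,0,0,1,1], ![0,1,1,1,0,0], ![0,1,1,0,0,1],
   ![0,1,0,1,1,0], ![0,1,0,0,1,1], ![0,0,1,1,1,0], ![0,0,1,1,0,1], ![0,0,1,0,1,1],
   ![0,0,0,1,1,1]]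

/-- the cocircuits -/
def CL : List (Finset (Fin 6)) :=
  [{0, 2, 4}, {0, 3, 5}, {1, 2, 5}, {1, 3, 4}, {2, 3, 4, 5}, {0, 1, 4, 5}, {0, 1, 2, 3}]

def B : Set (Fin 6 →₀ ℕ) := {u | (u : Fin 6 → ℕ) ∈ Bl}

lemma isPoly : IsPolymatroid B := by
  refine ⟨Set.Finite.preimage (f := fun u : Fin 6 →₀ ℕ => (u : Fin 6 → ℕ))
    DFunLike.coe_injective.injOn (List.finite_toSet Bl),
    ⟨Finsupp.equivFunOnFinite.symm ![1,1,1,0,0,0], by simp [B, Bl]⟩, ⟨3, fun u hu => ?_⟩,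
    fun u hu v hv i h => ?_⟩
  · have : ∀ u ∈ Bl, ∑ i, u i = 3 := by decide
    exact this _ hu
  · have : ∀ u ∈ Bl, ∀ v ∈ Bl, ∀ i, v i < u i →
        ∃ j, u j < v j ∧ u - Pi.single i 1 + Pi.single j 1 ∈ Bl := by decide +kernel
    obtain ⟨j, h1, h2⟩ := this _ hu _ hv i h
    exact ⟨j, h1, by simpa [B, Finsupp.single_eq_pi_single] using h2⟩

lemma mem_I {f : MvPolynomial (Fin 6) K} : f ∈ monI K B ↔ ∀ C ∈ CL, f ∈ PX K C := by
  rw [monI, mem_ideal_span_monomial_image]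
  simp only [mem_ideal_span_X_image]
  constructor
  · intro h C hC m hm
    obtain ⟨u, hu, hle⟩ := h m hm
    have : ∀ C ∈ CL, ∀ u ∈ Bl, ∃ i ∈ C, u i ≠ 0 := by decide +kernel
    obtain ⟨i, hi, h⟩ := this C hC _ hu
    exact ⟨i, hi, fun e => h (by have := hle i; omega)⟩
  · intro h m hm
    have : ∀ σ : Fin 6 → Bool, (∀ C ∈ CL, ∃ i ∈ C, σ i = true) →
        ∃ u ∈ Bl, ∀ i, u i ≤ if σ i = true then 1 else 0 := by decide +kernel
    obtain ⟨u, hu, hle⟩ := this (fun i => decide (m i ≠ 0)) fun C hC => by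
      simpa using h C hC m hm
    refine ⟨Finsupp.equivFunOnFinite.symm u, by simpa [B] using hu, fun i => ?_⟩
    have := hle i
    by_cases e : m i = 0
    · simpa [e] using this
    · simp [e] at this ⊢; omega

lemma ass_PX {C : Finset (Fin 6)} (hC : C ∈ CL) : PX K C ∈
    associatedPrimes (MvPolynomial (Fin 6) K) (MvPolynomial (Fin 6) K ⧸ monI K B) := by
  refine (mem_ass _ _).2 ⟨PX_prime C, mon K (fun i => if i ∈ C then 0 else 1), fun r => ⟨?_, ?_⟩⟩
  · intro hr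
    have : PX K C ≤ (monI K B).colon {mon K (fun i => if i ∈ C then 0 else 1)} := by
      rw [Ideal.span_le]
      rintro _ ⟨i, hi, rfl⟩
      rw [SetLike.mem_coe, Submodule.mem_colon_singleton, smul_eq_mul, ← mon_single, ← mon_add,
        mem_I]
      intro D hD
      rw [mon_mem_PX]
      have : ∀ C ∈ CL, ∀ D ∈ CL, ∀ i ∈ C, ∃ j ∈ D,
          (Pi.single i 1 + fun i => if i ∈ C then 0 else 1 : Fin 6 → ℕ) j ≠ 0 := by decide +kernel
      exact this C hC D hD i hi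
    exact Submodule.mem_colon_singleton.1 (this hr)
  · intro hr
    refine ((PX_prime C).mem_or_mem (mem_I.1 hr C hC)).resolve_right ?_
    rw [mon_mem_PX]
    rintro ⟨i, hi, h⟩
    simp [hi] at h

lemma mon_mem {u : Fin 6 → ℕ} (hu : u ∈ Bl) : mon K u ∈ monI K B :=
  Ideal.subset_span ⟨_, by simpa [B] using hu, rfl⟩

lemma cyc_mem {w : Fin 6 → ℕ} (hw : w ∈ [![0,0,1,1,1,1], ![1,1,0,0,1,1]]) :
    mon K w ∈ comp (symb (monI K B) 2) 4 := by
  refine Ideal.subset_span ⟨(mem_symb _ _ _).2 fun P hP => ?_, ?_⟩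
  · obtain ⟨hp, x, hx⟩ := (mem_ass _ _).1 hP
    have h1 : x ∉ monI K B := fun h => hp.ne_top ((Ideal.eq_top_iff_one _).2
      ((hx 1).2 (by simpa using h)))
    rw [mem_I] at h1
    push Not at h1
    obtain ⟨C, hC, h1⟩ := h1
    have h2 : ∀ i, i ∉ C → X i ∉ P := fun i hi h => hi (X_mem_PX.1
      (((PX_prime C).mem_or_mem (mem_I.1 ((hx _).1 h) C hC)).resolve_right h1))
    have h3 : ∀ C ∈ CL, ∀ w ∈ [![0,0,1,1,1,1], ![1,1,0,0,1,1]], ∃ i ∉ C, ∃ j ∉ C, ∃ u ∈ Bl,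
        ∃ v ∈ Bl, Pi.single i 1 + Pi.single j 1 + w = u + v := by decide +kernel
    obtain ⟨i, hi, j, hj, u, hu, v, hv, e⟩ := h3 C hC w hw
    refine ⟨X i * X j, fun h => (hp.mem_or_mem h).elim (h2 i hi) (h2 j hj), ?_⟩
    rw [← mon_single, ← mon_single, ← mon_add, ← mon_add, e, mon_add, pow_two]
    exact Ideal.mul_mem_mul (mon_mem hu) (mon_mem hv)
  · have : ∀ w ∈ [![0,0,1,1,1,1], ![1,1,0,0,1,1]], ∑ i, w i = 4 := by decide
    rw [← this w hw]
    exact mon_hom w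

lemma supp_comp {g : MvPolynomial (Fin 6) K} (hg : g ∈ comp (symb (monI K B) 2) 4) :
    ∀ m ∈ g.support, ∃ u : Fin 6 →₀ ℕ, ((u : Fin 6 → ℕ) = ![0,0,1,1,1,1] ∨
      (u : Fin 6 → ℕ) = ![1,1,0,0,1,1] ∨ (u : Fin 6 → ℕ) = ![1,1,1,1,0,0]) ∧ u ≤ m := by
  have : comp (symb (monI K B) 2) 4 ≤ monI K {u | (u : Fin 6 → ℕ) = ![0,0,1,1,1,1] ∨
      (u : Fin 6 → ℕ) = ![1,1,0,0,1,1] ∨ (u : Fin 6 → ℕ) = ![1,1,1,1,0,0]} := by
    rw [comp, Ideal.span_le]
    rintro f ⟨hf, hf'⟩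
    refine mem_ideal_span_monomial_image.2 fun m hm => ⟨m, ?_, le_rfl⟩
    have h1 : ∀ C ∈ CL, 2 ≤ ∑ i ∈ C, m i := fun C hC => by
      obtain ⟨s, hs, h⟩ := (mem_symb _ _ _).1 hf _ (ass_PX hC)
      exact weight_two hs (Ideal.pow_right_mono (fun _ h => mem_I.1 h C hC) 2 h) m hm
    have h2 := hom_sum hf' hm
    simp [CL] at h1
    simp only [Fin.sum_univ_six] at h2
    simp only [Set.mem_ofPred_eq, funext_iff, Fin.forall_fin_succ]
    simp
    omega
  exact mem_ideal_span_monomial_image.1 (this hg)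

lemma decomp {g : MvPolynomial (Fin 6) K} (hg : g ∈ comp (symb (monI K B) 2) 4)
    (h4 : g.IsHomogeneous 4) :
    ∃ α : K, g - C α * mon K ![0,0,1,1,1,1] ∈ Ideal.span {mon K ![1,1,0,0,0,0]} := by
  classical
  refine ⟨coeff (Finsupp.equivFunOnFinite.symm ![0,0,1,1,1,1]) g, ?_⟩
  rw [mon, mon, ← Set.image_singleton (f := fun u => monomial u (1 : K)),
    mem_ideal_span_monomial_image]
  intro m hm
  refine ⟨_, rfl, ?_⟩
  rw [mem_support_iff, coeff_sub, coeff_C_mul, coeff_monomial] at hm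
  split_ifs at hm with e
  · simp [e] at hm
  · have hm' : m ∈ g.support := by simpa using hm
    obtain ⟨u, hu, hle⟩ := supp_comp hg m hm'
    have h2 := hom_sum h4 hm'
    simp only [Fin.sum_univ_six] at h2
    have h0 := hle 0
    have h1 := hle 1
    have h3 := hle 2
    have h5 := hle 3
    have h6 := hle 4
    have h7 := hle 5
    rcases hu with hu | hu | hu
    · refine (e ?_).elim
      simp [hu] at h0 h1 h3 h5 h6 h7
      ext i
      fin_cases i <;> simp <;> omega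
    all_goals
      simp [hu] at h0 h1
      intro i
      fin_cases i <;> simp <;> omega

theorem not_lin : ¬ HasLinRes (comp (symb (monI K B) 2) 4) 4 := by
  rintro ⟨b, g, A, hg, hA, hs, h0, -⟩
  have hm : ∀ k, g k ∈ comp (symb (monI K B) 2) 4 := fun k =>
    hs ▸ Ideal.subset_span ⟨k, rfl⟩
  choose α hα using fun k => decomp (hm k) (hg k)
  have key : ∀ (v : Fin (b 0) → MvPolynomial (Fin 6) K) (i : Fin 6), i = 0 ∨ i = 1 →
      ∑ k, v k * g k - (∑ k, C (α k) * v k) * mon K ![0,0,1,1,1,1] ∈ PX K {i} := by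
    intro v i hi
    rw [Finset.sum_mul, ← Finset.sum_sub_distrib]
    refine sum_mem fun k _ => ?_
    have h1 : Ideal.span {mon K ![1,1,0,0,0,0]} ≤ PX K {i} := by
      rw [Ideal.span_singleton_le_iff_mem, mon_mem_PX]
      rcases hi with rfl | rfl <;> simp
    convert Ideal.mul_mem_left _ (v k) (h1 (hα k)) using 1
    ring
  have nm : ∀ i : Fin 6, i = 0 ∨ i = 1 → mon K ![0,0,1,1,1,1] ∉ PX K {i} := by
    intro i hi
    rw [mon_mem_PX]
    rcases hi with rfl | rfl <;> simp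
  have col : ∀ c, ∑ k, C (α k) * A 0 k c = 0 := by
    intro c
    have h1 := (h0 fun k => A 0 k c).2 ⟨Pi.single c 1, by ext1 k; simp⟩
    have h2 : ∀ i : Fin 6, i = 0 ∨ i = 1 → ∑ k, C (α k) * A 0 k c ∈ PX K {i} := fun i hi => by
      have := key (fun k => A 0 k c) i hi
      rw [h1, zero_sub, neg_mem_iff] at this
      exact ((PX_prime _).mem_or_mem this).resolve_right (nm i hi)
    have h3 : (∑ k, C (α k) * A 0 k c).IsHomogeneous 1 :=
      IsHomogeneous.sum _ _ _ fun k _ => (hA 0 k c).C_mul _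
    by_contra hne
    obtain ⟨m, hm⟩ := support_nonempty.2 hne
    have h4 := hom_sum h3 hm
    have h5 := mem_ideal_span_X_image.1 (h2 0 (by simp)) m hm
    have h6 := mem_ideal_span_X_image.1 (h2 1 (by simp)) m hm
    simp [Fin.sum_univ_six] at h4 h5 h6
    omega
  have hp := cyc_mem (K := K) (w := ![0,0,1,1,1,1]) (by simp)
  have hq := cyc_mem (K := K) (w := ![1,1,0,0,1,1]) (by simp)
  rw [← hs] at hp hq
  obtain ⟨p, hp⟩ := Ideal.mem_span_range_iff_exists_fun.1 hp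
  obtain ⟨q, hq⟩ := Ideal.mem_span_range_iff_exists_fun.1 hq
  have e : mon K ![1,1,0,0,0,0] * mon K ![0,0,1,1,1,1] =
      mon K ![0,0,1,1,0,0] * mon K ![1,1,0,0,1,1] := by
    rw [← mon_add, ← mon_add]; congr 1; decide
  obtain ⟨w, hw⟩ := (h0 fun k => mon K ![1,1,0,0,0,0] * p k - mon K ![0,0,1,1,0,0] * q k).1 (by
    simp only [sub_mul, mul_assoc, Finset.sum_sub_distrib, ← Finset.mul_sum, hp, hq, e, sub_self])
  have h1 : mon K ![1,1,0,0,0,0] * ∑ k, C (α k) * p k =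
      mon K ![0,0,1,1,0,0] * ∑ k, C (α k) * q k := by
    have : ∑ k, C (α k) * (A 0).mulVec w k = 0 := by
      simp only [Matrix.mulVec, dotProduct, Finset.mul_sum, ← mul_assoc]
      rw [Finset.sum_comm]
      simp only [← Finset.sum_mul, col, zero_mul, Finset.sum_const_zero]
    rw [hw] at this
    rw [← sub_eq_zero, ← this, Finset.mul_sum, Finset.mul_sum, ← Finset.sum_sub_distrib]
    exact Finset.sum_congr rfl fun k _ => by ring
  have h2 : ∑ k, C (α k) * p k ∈ PX K {2} := by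
    have h5 : mon K ![0,0,1,1,0,0] ∈ PX K ({2} : Finset (Fin 6)) := by simp [mon_mem_PX]
    have h6 : mon K ![1,1,0,0,0,0] ∉ PX K ({2} : Finset (Fin 6)) := by simp [mon_mem_PX]
    have h7 := Ideal.mul_mem_right (∑ k, C (α k) * q k) _ h5
    rw [← h1] at h7
    exact ((PX_prime _).mem_or_mem h7).resolve_left h6
  have h3 : 1 - ∑ k, C (α k) * p k ∈ PX K {0} := by
    have := key p 0 (by simp)
    rw [hp, ← one_sub_mul] at this
    exact ((PX_prime _).mem_or_mem this).resolve_right (nm 0 (by simp))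
  have h4 : (1 : MvPolynomial (Fin 6) K) ∈ PX K {0, 2} := by
    have := add_mem (Ideal.span_mono (Set.image_mono (by simp)) h3 : _ ∈ PX K {0, 2})
      (Ideal.span_mono (Set.image_mono (by simp)) h2 : _ ∈ PX K {0, 2})
    rwa [sub_add_cancel] at this
  exact (PX_prime _).ne_top ((Ideal.eq_top_iff_one _).2 h4)

end Pool.Agent.H2.Mon.K4
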