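import Mathlib

open MvPolynomial

namespace Pool.Agent.H2.Mon

variable {n : ℕ}

/-- `B` is the set of bases of a discrete polymatroid. -/
def IsPolymatroid (B : Set (Fin n →₀ ℕ)) : Prop :=
  B.Finite ∧ B.Nonempty ∧ (∃ d, ∀ u ∈ B, ∑ i, u i = d) ∧
    ∀ u ∈ B, ∀ v ∈ B, ∀ i, v i < u i →
      ∃ j, u j < v j ∧ u - Finsupp.single i 1 + Finsupp.single j 1 ∈ B

/-- The monomial ideal generated by the monomials `x^u`, `u ∈ B`. -/
noncomputable def monI (K : Type) [Field K] (B : Set (Fin n →₀ ℕ)) :
    Ideal (MvPolynomial (Fin n) K) :=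
  Ideal.span ((fun u => monomial u (1 : K)) '' B)

/-- The symbolic power: the intersection over the associated primes `P` of `I` of the
contractions of `I^k S_P`. -/
noncomputable def symb {S : Type} [CommRing S] (I : Ideal S) (k : ℕ) : Ideal S :=
  ⨅ P : associatedPrimes S (S ⧸ I),
    ((I ^ k).map (algebraMap S (Localization.AtPrime P.1))).comap
      (algebraMap S (Localization.AtPrime P.1))

variable {K : Type} [Field K]

/-- The ideal generated by the homogeneous elements of degree `j` of `J`. -/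
noncomputable def comp (J : Ideal (MvPolynomial (Fin n) K)) (j : ℕ) : Ideal (MvPolynomial (Fin n) K) :=
  Ideal.span {f | f ∈ J ∧ f.IsHomogeneous j}

/-- `J` has a `d`-linear free resolution: generators of degree `d`, and all the matrices of the
resolution have linear forms as entries. -/
def HasLinRes (J : Ideal (MvPolynomial (Fin n) K)) (d : ℕ) : Prop :=
  ∃ (b : ℕ → ℕ) (g : Fin (b 0) → MvPolynomial (Fin n) K)
    (A : (i : ℕ) → Matrix (Fin (b i)) (Fin (b (i + 1))) (MvPolynomial (Fin n) K)),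
    (∀ j, (g j).IsHomogeneous d) ∧ (∀ i a c, (A i a c).IsHomogeneous 1) ∧
    Ideal.span (Set.range g) = J ∧
    (∀ v : Fin (b 0) → MvPolynomial (Fin n) K,
      ∑ j, v j * g j = 0 ↔ ∃ w, (A 0).mulVec w = v) ∧
    (∀ (i : ℕ) (v : Fin (b (i + 1)) → MvPolynomial (Fin n) K),
      (A i).mulVec v = 0 ↔ ∃ w, (A (i + 1)).mulVec w = v)

/-- Componentwise linear ideals. -/
def CompLinear (J : Ideal (MvPolynomial (Fin n) K)) : Prop := ∀ j, HasLinRes (comp J j) j

end Pool.Agent.H2.Mon
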