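import Pool.Agent.H2.OIDefs

open MvPolynomial

namespace Pool.Agent.H2.OI

variable {K : Type} [Field K] {n : ℕ}

/-- the skew sign matrix -/
def sg (K : Type) [Field K] {n : ℕ} (j i : Fin n) : K :=
  if i < j then 1 else if j < i then -1 else 0

/-- the skew sign matrix applied to a vector -/
def av (c : Fin n → K) (j : Fin n) : K := ∑ i, sg K j i * c i

/-- kill all the variables but one -/
noncomputable def ev (K : Type) [Field K] {n : ℕ} (j : Fin n) :
    MvPolynomial (Fin n) K →ₐ[K] Polynomial K :=
  aeval fun i => if i = j then Polynomial.X else 0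

/-- the underlying space -/
def Ex (K : Type) [Field K] (n : ℕ) : Type := (Fin n → K) × (Fin n → Polynomial K)

noncomputable instance : AddCommGroup (Ex K n) :=
  inferInstanceAs (AddCommGroup ((Fin n → K) × (Fin n → Polynomial K)))

noncomputable instance : Module K (Ex K n) :=
  inferInstanceAs (Module K ((Fin n → K) × (Fin n → Polynomial K)))

noncomputable def Phi (u : Ex K n) (j : Fin n) : Polynomial K :=
  Polynomial.C (av u.1 j) + Polynomial.X * u.2 j

lemma av_add (c d : Fin n → K) (j : Fin n) : av (c + d) j = av c j + av d j := by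
  simp [av, mul_add, Finset.sum_add_distrib]

lemma av_smul (a : K) (c : Fin n → K) (j : Fin n) : av (a • c) j = a * av c j := by
  simp [av, Finset.mul_sum, mul_left_comm]

@[simp] lemma av_zero (j : Fin n) : av (0 : Fin n → K) j = 0 := by simp [av]

@[simp] lemma fst_add (u v : Ex K n) : (u + v).1 = u.1 + v.1 := rfl
@[simp] lemma snd_add (u v : Ex K n) : (u + v).2 = u.2 + v.2 := rfl
@[simp] lemma fst_zero : (0 : Ex K n).1 = 0 := rfl
@[simp] lemma snd_zero : (0 : Ex K n).2 = 0 := rfl
@[simp] lemma fst_ksmul (a : K) (u : Ex K n) : (a • u).1 = a • u.1 := rfl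
@[simp] lemma snd_ksmul (a : K) (u : Ex K n) : (a • u).2 = a • u.2 := rfl

/-- constructor -/
def mkE (c : Fin n → K) (h : Fin n → Polynomial K) : Ex K n := (c, h)
@[simp] lemma mkE_fst (c : Fin n → K) (h : Fin n → Polynomial K) : (mkE c h).1 = c := rfl
@[simp] lemma mkE_snd (c : Fin n → K) (h : Fin n → Polynomial K) : (mkE c h).2 = h := rfl
lemma extE {u v : Ex K n} (h1 : u.1 = v.1) (h2 : u.2 = v.2) : u = v := Prod.ext h1 h2

lemma Phi_add (u v : Ex K n) (j : Fin n) : Phi (u + v) j = Phi u j + Phi v j := by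
  simp only [Phi, fst_add, snd_add, av_add, map_add, Pi.add_apply]
  ring

@[simp] lemma Phi_zero (j : Fin n) : Phi (0 : Ex K n) j = 0 := by simp [Phi]

lemma Phi_ksmul (a : K) (u : Ex K n) (j : Fin n) :
    Phi (a • u) j = Polynomial.C a * Phi u j := by
  simp only [Phi, fst_ksmul, snd_ksmul, av_smul, map_mul, Pi.smul_apply, Polynomial.smul_eq_C_mul]
  ring

lemma ext_Phi {u v : Ex K n} (h1 : u.1 = v.1) (h2 : ∀ j, Phi u j = Phi v j) : u = v := by
  refine Prod.ext h1 (funext fun j => ?_)
  have := h2 j
  simp only [Phi, h1, add_right_inj] at this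
  exact mul_left_cancel₀ Polynomial.X_ne_zero this

lemma ev_coeff_zero (j : Fin n) (p : MvPolynomial (Fin n) K) :
    (ev K j p).coeff 0 = constantCoeff p := by
  have : (Polynomial.constantCoeff : Polynomial K →+* K).comp (ev K j).toRingHom =
      constantCoeff := by
    refine MvPolynomial.ringHom_ext (fun a => by simp [ev]) fun i => ?_
    by_cases h : i = j <;> simp [ev, h]
  exact congrArg (fun f : MvPolynomial (Fin n) K →+* K => f p) this

noncomputable instance : SMul (MvPolynomial (Fin n) K) (Ex K n) :=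
  ⟨fun p u => (constantCoeff p • u.1,
    fun j => ev K j p * u.2 j + Polynomial.C (av u.1 j) * (ev K j p).divX)⟩

lemma fst_smul (p : MvPolynomial (Fin n) K) (u : Ex K n) :
    (p • u).1 = constantCoeff p • u.1 := rfl

lemma snd_smul (p : MvPolynomial (Fin n) K) (u : Ex K n) (j : Fin n) :
    (p • u).2 j = ev K j p * u.2 j + Polynomial.C (av u.1 j) * (ev K j p).divX := rfl

lemma Phi_smul (p : MvPolynomial (Fin n) K) (u : Ex K n) (j : Fin n) :
    Phi (p • u) j = ev K j p * Phi u j := by
  have h := Polynomial.X_mul_divX_add (ev K j p)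
  rw [ev_coeff_zero] at h
  simp only [Phi, fst_smul, snd_smul, av_smul, map_mul]
  linear_combination Polynomial.C (av u.1 j) * h

noncomputable instance : Module (MvPolynomial (Fin n) K) (Ex K n) :=
  Module.ofMinimalAxioms
    (fun p u v => ext_Phi (by simp [fst_smul]) fun j => by simp [Phi_smul, Phi_add, mul_add])
    (fun p q u => ext_Phi (by simp [fst_smul, add_smul]) fun j => by
      simp [Phi_smul, Phi_add, add_mul])
    (fun p q u => ext_Phi (by simp [fst_smul, mul_smul]) fun j => by
      simp [Phi_smul, mul_assoc])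
    (fun u => ext_Phi (by simp [fst_smul]) fun j => by simp [Phi_smul])

instance : IsScalarTower K (MvPolynomial (Fin n) K) (Ex K n) :=
  ⟨fun a p u => ext_Phi (by simp [fst_smul, mul_smul]) fun j => by
    simp [Phi_smul, Phi_ksmul, Polynomial.smul_eq_C_mul, mul_assoc]⟩

lemma ev_X (j i : Fin n) : ev K j (X i) = if i = j then Polynomial.X else 0 := by simp [ev]

/-- extension by zero -/
noncomputable def push {m : ℕ} (ε : Fin m → Fin n) : Ex K m →ₗ[K] Ex K n where
  toFun u := (fun k => ∑ i, if ε i = k then u.1 i else 0,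
    fun k => ∑ i, if ε i = k then u.2 i else 0)
  map_add' u v := by
    refine Prod.ext (funext fun k => ?_) (funext fun k => ?_) <;>
    simp only [fst_add, snd_add, Pi.add_apply, ← Finset.sum_add_distrib] <;>
    refine Finset.sum_congr rfl fun i _ => ?_ <;> split_ifs <;> simp
  map_smul' a u := by
    refine Prod.ext (funext fun k => ?_) (funext fun k => ?_) <;>
    simp only [fst_ksmul, snd_ksmul, Pi.smul_apply, Finset.smul_sum, RingHom.id_apply] <;>
    refine Finset.sum_congr rfl fun i _ => ?_ <;> split_ifs <;> simp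

lemma push_fst {m : ℕ} (ε : Fin m → Fin n) (u : Ex K m) (k : Fin n) :
    (push ε u).1 k = ∑ i, if ε i = k then u.1 i else 0 := rfl

lemma push_snd {m : ℕ} (ε : Fin m → Fin n) (u : Ex K m) (k : Fin n) :
    (push ε u).2 k = ∑ i, if ε i = k then u.2 i else 0 := rfl

lemma Adm.inj {fi : Bool} {m : ℕ} {ε : Fin m → Fin n} (h : Adm fi ε) : Function.Injective ε := by
  unfold Adm at h
  split_ifs at h
  · exact h
  · exact h.injective

lemma Adm.sg {fi : Bool} (h2 : fi = true → (2 : K) = 0) {m : ℕ} {ε : Fin m → Fin n}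
    (h : Adm fi ε) (j i : Fin m) : sg K (ε j) (ε i) = sg K j i := by
  have hi := h.inj
  unfold Adm at h
  split_ifs at h with hf
  · have e : (-1 : K) = 1 := by linear_combination -(h2 hf)
    have key : ∀ {r : ℕ} (a b : Fin r), OI.sg K a b = if a = b then 0 else 1 := by
      intro r a b
      rcases lt_trichotomy a b with h | h | h
      · simp [OI.sg, h, h.ne, h.not_gt, e]
      · simp [OI.sg, h]
      · simp [OI.sg, h, h.ne']
    simp [key, hi.eq_iff]
  · simp [OI.sg, h.lt_iff_lt]

lemma sum_hit {A : Type} [AddCommMonoid A] {m : ℕ} {ε : Fin m → Fin n}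
    (hi : Function.Injective ε) (c : Fin m → A) (j : Fin m) :
    (∑ i, if ε i = ε j then c i else 0) = c j := by
  simp [hi.eq_iff]

lemma av_push {fi : Bool} (h2 : fi = true → (2 : K) = 0) {m : ℕ} {ε : Fin m → Fin n}
    (h : Adm fi ε) (u : Ex K m) (j : Fin m) : av (push ε u).1 (ε j) = av u.1 j := by
  simp only [av, push_fst, Finset.mul_sum, mul_ite, mul_zero]
  rw [Finset.sum_comm]
  refine Finset.sum_congr rfl fun i _ => ?_
  simp [h.sg h2]

lemma push_X {fi : Bool} (h2 : fi = true → (2 : K) = 0) {m : ℕ} {ε : Fin m → Fin n}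
    (h : Adm fi ε) (j : Fin m) (u : Ex K m) :
    push ε ((X j : MvPolynomial (Fin m) K) • u) =
      (X (ε j) : MvPolynomial (Fin n) K) • push ε u := by
  refine Prod.ext (funext fun k => ?_) (funext fun k => ?_)
  · simp [push_fst, fst_smul]
  · rw [snd_smul, ev_X, push_snd]
    by_cases hk : ε j = k
    · subst hk
      rw [sum_hit h.inj, av_push h2 h, push_snd, sum_hit h.inj, snd_smul, ev_X]
      simp
    · simp only [hk, if_false, zero_mul, Polynomial.divX_zero, mul_zero, add_zero]
      refine Finset.sum_eq_zero fun i _ => ?_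
      split_ifs with hi
      · have : j ≠ i := fun e => hk (e ▸ hi)
        simp [snd_smul, ev_X, this]
      · rfl

lemma C_smul (a : K) (u : Ex K n) : (C a : MvPolynomial (Fin n) K) • u = a • u := by
  rw [← algebraMap_eq, algebraMap_smul]

lemma push_smul {fi : Bool} (h2 : fi = true → (2 : K) = 0) {m : ℕ} {ε : Fin m → Fin n}
    (h : Adm fi ε) (p : MvPolynomial (Fin m) K) :
    ∀ u : Ex K m, push ε (p • u) = rename ε p • push ε u := by
  induction p using MvPolynomial.induction_on with
  | C a => intro u; rw [rename_C, C_smul, C_smul, map_smul]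
  | add p q hp hq => intro u; rw [add_smul, map_add, hp, hq, map_add, add_smul]
  | mul_X p j hp => intro u; rw [mul_smul, hp, push_X h2 h, map_mul, rename_X, mul_smul]

/-- the example -/
noncomputable def exMod (K : Type) [Field K] (fi : Bool) (h2 : fi = true → (2 : K) = 0) :
    Mod K fi where
  obj := Ex K
  map ε _ := push ε
  map_id n _ u := Prod.ext (funext fun k => by simp [push_fst]) (funext fun k => by simp [push_snd])
  map_comp ε δ _ _ _ u := by
    refine Prod.ext (funext fun k => ?_) (funext fun k => ?_)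
    · simp only [push_fst, Function.comp]
      simp only [Finset.ite_sum_zero]
      rw [Finset.sum_comm]
      refine Finset.sum_congr rfl fun i _ => ?_
      rw [Finset.sum_eq_single (ε i)] <;> simp +contextual [eq_comm]
    · simp only [push_snd, Function.comp]
      simp only [Finset.ite_sum_zero]
      rw [Finset.sum_comm]
      refine Finset.sum_congr rfl fun i _ => ?_
      rw [Finset.sum_eq_single (ε i)] <;> simp +contextual [eq_comm]
  map_smul ε h p u := push_smul h2 h p u

/-- the grading -/
def gr (K : Type) [Field K] (n : ℕ) (d : ℤ) : Submodule K (Ex K n) where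
  carrier := {u | (d ≠ 0 → u.1 = 0) ∧ ∀ j (k : ℕ), (k : ℤ) + 1 ≠ d → (u.2 j).coeff k = 0}
  add_mem' := by
    rintro u v ⟨hu, hu'⟩ ⟨hv, hv'⟩
    exact ⟨fun h => by simp [hu h, hv h], fun j k h => by simp [hu' j k h, hv' j k h]⟩
  zero_mem' := ⟨fun _ => rfl, fun j k _ => by simp⟩
  smul_mem' := by
    rintro a u ⟨hu, hu'⟩
    exact ⟨fun h => by simp [hu h], fun j k h => by simp [hu' j k h]⟩

lemma mem_gr {d : ℤ} {u : Ex K n} : u ∈ gr K n d ↔
    (d ≠ 0 → u.1 = 0) ∧ ∀ j (k : ℕ), (k : ℤ) + 1 ≠ d → (u.2 j).coeff k = 0 := Iff.rfl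

/-- generators -/
noncomputable def fgen (i : Fin n) : Ex K n := mkE (Pi.single i 1) 0
noncomputable def ggen (j : Fin n) : Ex K n := mkE 0 (Pi.single j 1)

lemma fgen_mem (i : Fin n) : (fgen i : Ex K n) ∈ gr K n 0 :=
  ⟨fun h => (h rfl).elim, fun j k _ => by simp [fgen]⟩

lemma ggen_mem (i : Fin n) : (ggen i : Ex K n) ∈ gr K n 1 :=
  ⟨fun _ => rfl, fun j k h => by
    have : k ≠ 0 := by omega
    by_cases e : j = i
    · subst e; simp [ggen, Polynomial.coeff_one, this]
    · simp [ggen, e]⟩

lemma X_pow_ggen (j : Fin n) (k : ℕ) : (X j ^ k : MvPolynomial (Fin n) K) • (ggen j : Ex K n) =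
    mkE 0 (Pi.single j (Polynomial.X ^ k)) := by
  refine extE (by simp [fst_smul, ggen]) (funext fun i => ?_)
  rw [snd_smul, map_pow, ev_X]
  by_cases e : j = i
  · subst e; simp [ggen]
  · simp [ggen, Ne.symm e]

/-- a `K`-subspace containing the basis is everything -/
lemma eq_top_of (N : Submodule K (Ex K n)) (hf : ∀ i, fgen i ∈ N)
    (hg : ∀ j k, mkE 0 (Pi.single j (Polynomial.X ^ k)) ∈ N) : N = ⊤ := by
  rw [eq_top_iff]
  rintro u -
  have h1 : ∀ j (p : Polynomial K), mkE 0 (Pi.single j p) ∈ N := by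
    intro j p
    induction p using Polynomial.induction_on' with
    | add p q hp hq =>
      have := N.add_mem hp hq
      convert this using 1
      exact extE (by simp) (by simp [Pi.single_add])
    | monomial k a =>
      have := N.smul_mem a (hg j k)
      convert this using 1
      refine extE (by simp) ?_
      rw [snd_ksmul, mkE_snd, mkE_snd, ← Pi.single_smul, Polynomial.smul_X_eq_monomial]
  let f1 : (Fin n → K) →+ Ex K n := AddMonoidHom.mk' (fun c => mkE c 0) fun c d =>
    extE (by simp) (by simp)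
  let f2 : (Fin n → Polynomial K) →+ Ex K n := AddMonoidHom.mk' (fun c => mkE 0 c) fun c d =>
    extE (by simp) (by simp)
  have e : u = f1 u.1 + f2 u.2 := extE (by simp [f1, f2]) (by simp [f1, f2])
  rw [e]
  refine N.add_mem ?_ ?_
  · rw [← Finset.univ_sum_single u.1, map_sum]
    refine N.sum_mem fun i _ => ?_
    have := N.smul_mem (u.1 i) (hf i)
    convert this using 1
    refine extE ?_ (by simp [f1, fgen])
    simp [f1, fgen, ← Pi.single_smul]
  · rw [← Finset.univ_sum_single u.2, map_sum]
    exact N.sum_mem fun j _ => h1 j _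

lemma adm_const (fi : Bool) (i : Fin n) : Adm fi (fun _ : Fin 1 => i) := by
  unfold Adm
  split_ifs
  · exact Function.injective_of_subsingleton _
  · exact Subsingleton.strictMono _

lemma push_fgen (i : Fin n) : push (fun _ : Fin 1 => i) (fgen 0 : Ex K 1) = fgen i :=
  Prod.ext (funext fun k => by simp [push_fst, fgen, Pi.single_apply, eq_comm])
    (funext fun k => by simp [push_snd, fgen])

lemma push_ggen (i : Fin n) : push (fun _ : Fin 1 => i) (ggen 0 : Ex K 1) = ggen i :=
  Prod.ext (funext fun k => by simp [push_fst, ggen])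
    (funext fun k => by simp [push_snd, ggen, Pi.single_apply, eq_comm])

lemma eq_top_of' (N : Submodule (MvPolynomial (Fin n) K) (Ex K n)) (hf : ∀ i, fgen i ∈ N)
    (hg : ∀ j, ggen j ∈ N) : N = ⊤ := by
  have := eq_top_of (N.restrictScalars K) hf fun j k => by
    rw [← X_pow_ggen]; exact N.smul_mem _ (hg j)
  rwa [Submodule.restrictScalars_eq_top_iff] at this

lemma exFG (fi : Bool) (h2 : fi = true → (2 : K) = 0) : (exMod K fi h2).FG := by
  refine ⟨{⟨1, fgen 0⟩, ⟨1, ggen 0⟩}, by simp, fun N hN hs m => ?_⟩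
  refine eq_top_of' (N m) (fun i => ?_) fun i => ?_
  · rw [← push_fgen]
    exact hN _ (adm_const fi i) _ (hs ⟨1, fgen 0⟩ (by simp))
  · rw [← push_ggen]
    exact hN _ (adm_const fi i) _ (hs ⟨1, ggen 0⟩ (by simp))

lemma exGrFG (fi : Bool) (h2 : fi = true → (2 : K) = 0) : (exMod K fi h2).GrFG (gr K) := by
  refine ⟨{⟨1, fgen 0⟩, ⟨1, ggen 0⟩}, by simp, ?_, fun m => ?_⟩
  · rintro q (rfl | rfl)
    · exact ⟨0, fgen_mem 0⟩
    · exact ⟨1, ggen_mem 0⟩
  · have key : ∀ S : Set (Ex K m), (∀ i, fgen i ∈ S) → (∀ i, ggen i ∈ S) →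
        Submodule.span (MvPolynomial (Fin m) K) S = ⊤ := fun S h1 h2 =>
      eq_top_of' _ (fun i => Submodule.subset_span (h1 i)) fun i => Submodule.subset_span (h2 i)
    refine key _ (fun i => ?_) fun i => ?_
    · exact ⟨⟨1, fgen 0⟩, by simp, _, adm_const fi i, (push_fgen i).symm⟩
    · exact ⟨⟨1, ggen 0⟩, by simp, _, adm_const fi i, (push_ggen i).symm⟩

/-- projection on a degree -/
noncomputable def prj (d : ℤ) : Ex K n →ₗ[K] Ex K n where
  toFun u := (if d = 0 then u.1 else 0,
    fun j => if 1 ≤ d then Polynomial.monomial (d - 1).toNat ((u.2 j).coeff (d - 1).toNat) else 0)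
  map_add' u v := Prod.ext (by split_ifs <;> simp) (funext fun j => by
    simp only [snd_add, Pi.add_apply]; split_ifs <;> simp)
  map_smul' a u := Prod.ext (by split_ifs <;> simp) (funext fun j => by
    simp only [snd_ksmul, Pi.smul_apply, RingHom.id_apply]
    split_ifs <;> simp [Polynomial.smul_monomial])

lemma prj_same {d : ℤ} {u : Ex K n} (h : u ∈ gr K n d) : prj d u = u := by
  refine Prod.ext ?_ (funext fun j => ?_)
  · change (if d = 0 then u.1 else 0) = u.1
    split_ifs with e
    · rfl
    · exact (h.1 e).symm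
  · change (if 1 ≤ d then Polynomial.monomial (d - 1).toNat ((u.2 j).coeff (d - 1).toNat) else 0) =
      u.2 j
    ext k
    split_ifs with e
    · rw [Polynomial.coeff_monomial]
      split_ifs with e'
      · rw [e']
      · exact (h.2 j k (by omega)).symm
    · exact (h.2 j k (by omega)).symm

lemma prj_ne {d e : ℤ} (hde : e ≠ d) {u : Ex K n} (h : u ∈ gr K n e) : prj d u = 0 := by
  refine Prod.ext ?_ (funext fun j => ?_)
  · change (if d = 0 then u.1 else 0) = 0
    split_ifs with e'
    · exact h.1 (by omega)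
    · rfl
  · change (if 1 ≤ d then Polynomial.monomial (d - 1).toNat ((u.2 j).coeff (d - 1).toNat) else 0) =
      0
    split_ifs with e'
    · rw [h.2 j _ (by omega)]; simp
    · rfl

lemma gr_internal : DirectSum.IsInternal (gr K n) := by
  rw [DirectSum.isInternal_submodule_iff_iSupIndep_and_iSup_eq_top]
  constructor
  · intro d
    rw [Submodule.disjoint_def]
    intro u hu hu'
    have : (⨆ e, ⨆ _ : e ≠ d, gr K n e) ≤ LinearMap.ker (prj d) :=
      iSup₂_le fun e he v hv => prj_ne he hv
    rw [← prj_same hu]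
    exact this hu'
  · refine eq_top_of _ (fun i => Submodule.mem_iSup_of_mem 0 (fgen_mem i)) fun j k =>
      Submodule.mem_iSup_of_mem ((k : ℤ) + 1) ⟨fun _ => rfl, fun i l h => ?_⟩
    have : l ≠ k := by omega
    by_cases e : i = j
    · subst e; simp [Polynomial.coeff_X_pow, this]
    · simp [e]

lemma gr_X (i : Fin n) (d : ℤ) (u : Ex K n) (hu : u ∈ gr K n d) :
    (X i : MvPolynomial (Fin n) K) • u ∈ gr K n (d + 1) := by
  refine ⟨fun _ => by simp [fst_smul], fun j k h => ?_⟩
  rw [snd_smul, ev_X]
  split_ifs with e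
  · cases k with
    | zero =>
      have : d ≠ 0 := by omega
      simp [hu.1 this]
    | succ k =>
      have := hu.2 j k (by omega)
      simp [Polynomial.coeff_X_mul, this, Polynomial.coeff_X]
  · simp

lemma gr_push {m : ℕ} (ε : Fin m → Fin n) (d : ℤ) (u : Ex K m) (hu : u ∈ gr K m d) :
    push ε u ∈ gr K n d := by
  refine ⟨fun h => funext fun k => ?_, fun j k h => ?_⟩
  · simp [push_fst, hu.1 h]
  · rw [push_snd, Polynomial.finsetSum_coeff]
    refine Finset.sum_eq_zero fun i _ => ?_
    split_ifs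
    · exact hu.2 i k h
    · simp

lemma exGrading (fi : Bool) (h2 : fi = true → (2 : K) = 0) :
    (exMod K fi h2).IsGrading (gr K) where
  internal _ := gr_internal
  X_smul _ i d u hu := gr_X i d u hu
  map_mem ε _ d u hu := gr_push ε d u hu

end Pool.Agent.H2.OI
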