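import Pool.Agent.H2.PD2
import Pool.Agent.Lead.POG2

open MvPolynomial RingTheory.Sequence Pool.Agent.Lead.POG

namespace Pool.Agent.H2.Pdim

variable {K : Type} [Field K]

lemma X_reg (n : ℕ) : IsWeaklyRegular (MvPolynomial (Fin n) K)
    (List.ofFn (X : Fin n → MvPolynomial (Fin n) K)) := by
  rw [isWeaklyRegular_iff_Fin]
  intro i
  have hi : i.1 < n := by simpa using i.2
  have e : Ideal.ofList ((List.ofFn (X : Fin n → MvPolynomial (Fin n) K)).take i) •
      (⊤ : Submodule (MvPolynomial (Fin n) K) (MvPolynomial (Fin n) K)) =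
      Ideal.span (X '' {j : Fin n | j.1 < i.1}) := by
    rw [smul_eq_mul, Ideal.mul_top, Ideal.ofList]
    congr 1
    ext r
    simp only [Set.mem_setOf_eq, List.mem_take_iff_getElem, List.getElem_ofFn, Set.mem_image,
      List.length_ofFn]
    constructor
    · rintro ⟨j, hj, rfl⟩
      exact ⟨⟨j, by omega⟩, by simp only; omega, rfl⟩
    · rintro ⟨j, hj, rfl⟩
      exact ⟨j.1, by omega, rfl⟩
  rw [e, isSMulRegular_quotient_iff_mem_of_smul_mem]
  intro g hg
  have e2 : (List.ofFn (X : Fin n → MvPolynomial (Fin n) K))[i] = X ⟨i.1, hi⟩ := by simp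
  rw [e2, smul_eq_mul, mem_ideal_span_X_image] at hg
  rw [mem_ideal_span_X_image]
  intro m hm
  obtain ⟨j, hj, h⟩ := hg (Finsupp.single ⟨i.1, hi⟩ 1 + m) (by
    rw [mem_support_iff, coeff_X_mul]; exact mem_support_iff.1 hm)
  refine ⟨j, hj, ?_⟩
  have : (⟨i.1, hi⟩ : Fin n) ≠ j := by
    rintro rfl
    simp at hj
  simpa [Finsupp.single_apply, this] using h

/-- vanishing for the variables -/
abbrev VX (K : Type) [Field K] (p : ℕ) (M : Type) [AddCommGroup M]
    [Module (MvPolynomial (Fin 5) K) M] : Prop :=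
  V (X : Fin 5 → MvPolynomial (Fin 5) K) p M

lemma VX_pd {M : Type} [AddCommGroup M] [Module (MvPolynomial (Fin 5) K) M] {k : ℕ} (h : PD (MvPolynomial (Fin 5) K) (k + 1) M) (p : ℕ)
    (hp : p + k < 5) : VX K p M :=
  V_pd X _ (by simp [List.mem_ofFn']) (X_reg 5) k M h p (by simpa using hp)

/-- the eight lines -/
def Z (s : ℤ) : Fin 8 → Fin 3 → ℤ :=
  ![![0, 1, 0], ![1, 0, 0], ![1, 0, -2], ![0, 1, s], ![1, 1, 1], ![0, 1, 3], ![1, s, s], ![1, 1, s]]

/-- lift of a vector -/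
def up (c : Fin 3 → K) : Fin 5 → K := ![0, 0, c 0, c 1, c 2]

/-- the arrangement -/
def arr (K : Type) [Field K] (s : ℤ) : Fin 11 → Fin 5 → K :=
  Fin.cons ![1, 0, 0, 0, 0] (Fin.cons ![0, 1, 0, 0, 0] (Fin.cons ![0, 1, 0, 0, 1]
    fun j => up (cst K (Z s j))))

/-- application of a coefficient vector -/
noncomputable def ap (c : Fin 3 → ℤ) (f : Fin 3 → (MvPolynomial (Fin 5) K)) : (MvPolynomial (Fin 5) K) :=
  (c 0 : (MvPolynomial (Fin 5) K)) * f 0 + (c 1 : (MvPolynomial (Fin 5) K)) * f 1 + (c 2 : (MvPolynomial (Fin 5) K)) * f 2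

/-- the three variables -/
noncomputable def xyz (K : Type) [Field K] : Fin 3 → MvPolynomial (Fin 5) K := ![X 2, X 3, X 4]

lemma lin_up (c : Fin 3 → ℤ) : lin (up (cst K c)) = ap c (xyz K) := by
  simp [lin, up, cst, ap, xyz, Fin.sum_univ_five]

lemma prime_ap [CharZero K] (c : Fin 3 → ℤ) (hc : c ≠ 0) : Prime (ap c (xyz K)) := by
  rw [← lin_up]
  apply lin_prime
  intro h
  apply cst_ne_zero (K := K) c hc
  funext i
  fin_cases i
  · exact congrFun h 2
  · exact congrFun h 3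
  · exact congrFun h 4

/-- derivations of the eight lines -/
def Dp (K : Type) [Field K] (s : ℤ) :
    Submodule (MvPolynomial (Fin 5) K) (Fin 3 → MvPolynomial (Fin 5) K) where
  carrier := {f | ∀ j, ap (Z s j) (xyz K) ∣ ap (Z s j) f}
  add_mem' := fun {f g} h₁ h₂ j => by
    have : ap (Z s j) (f + g) = ap (Z s j) f + ap (Z s j) g := by simp [ap]; ring
    rw [this]; exact dvd_add (h₁ j) (h₂ j)
  zero_mem' := fun j => by simp [ap]
  smul_mem' := fun c f h j => by
    have : ap (Z s j) (c • f) = c * ap (Z s j) f := by simp [ap]; ring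
    rw [this]; exact Dvd.dvd.mul_left (h j) c

lemma Z_ne (s : ℤ) (j : Fin 8) : Z s j ≠ 0 := by
  intro h
  have h0 := congrFun h 0
  have h1 := congrFun h 1
  fin_cases j <;> simp [Z] at h0 h1

/-- presentation matrix -/
noncomputable def mat (s : ℤ) {R : Type} [CommRing R] (v : Fin 3 → R) :
    Matrix (Fin 8) (Fin 3 ⊕ Fin 8) R :=
  fun j => Sum.elim (fun k => (Z s j k : R))
    fun i => if j = i then -((Z s j 0 : R) * v 0 + (Z s j 1 : R) * v 1 + (Z s j 2 : R) * v 2) else 0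

lemma pd_Dp [CharZero K] (s : ℤ) : PD (MvPolynomial (Fin 5) K) 2 (Dp K s) := by
  have h3 : PD (MvPolynomial (Fin 3) K) 2
      (LinearMap.ker (mat s (X : Fin 3 → MvPolynomial (Fin 3) K)).mulVecLin) :=
    PD.syz2 (n := 1) _ (syzygy K 3 _)
  have h5 := PD.kerMap _ (RingHom.Flat.comp (flat_rename_succ K 3) (flat_rename_succ K 4)) _ 1 h3
  have e : (mat s (X : Fin 3 → MvPolynomial (Fin 3) K)).map
      ((rename (R := K) (Fin.succ : Fin 4 → Fin 5)).toRingHom.comp
        (rename (R := K) (Fin.succ : Fin 3 → Fin 4)).toRingHom) = mat s (xyz K) := by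
    ext1 j k
    rcases k with k | k
    · simp [mat]
    · simp only [mat, Matrix.map_apply, Sum.elim_inr]
      split_ifs
      · simp [xyz]
      · simp
  rw [e] at h5
  have hm : ∀ (u : Fin 3 ⊕ Fin 8 → (MvPolynomial (Fin 5) K)) (j : Fin 8), (mat s (xyz K)).mulVecLin u j =
      ap (Z s j) (fun k => u (Sum.inl k)) - ap (Z s j) (xyz K) * u (Sum.inr j) := by
    intro u j
    simp [mat, Matrix.mulVec, dotProduct, Fintype.sum_sum_type, Fin.sum_univ_three, ap]
    ring
  let π : LinearMap.ker (mat s (xyz K)).mulVecLin →ₗ[(MvPolynomial (Fin 5) K)] Dp K s :=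
    LinearMap.codRestrict (Dp K s)
      ((LinearMap.funLeft (MvPolynomial (Fin 5) K) (MvPolynomial (Fin 5) K) Sum.inl) ∘ₗ (LinearMap.ker (mat s (xyz K)).mulVecLin).subtype)
      fun u j => ⟨u.1 (Sum.inr j), by
        have := congrFun (LinearMap.mem_ker.1 u.2) j
        rw [hm, Pi.zero_apply, sub_eq_zero] at this
        exact this⟩
  refine h5.equiv (LinearEquiv.ofBijective π ⟨?_, ?_⟩)
  · rw [injective_iff_map_eq_zero]
    intro u hu
    have h1 : ∀ k, u.1 (Sum.inl k) = 0 := fun k => congrFun (congrArg Subtype.val hu) k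
    ext1
    funext k
    rcases k with k | k
    · exact h1 k
    · have := congrFun (LinearMap.mem_ker.1 u.2) k
      rw [hm, Pi.zero_apply] at this
      simp only [h1, ap, mul_zero, add_zero, zero_sub, neg_eq_zero] at this
      exact (mul_eq_zero.1 this).resolve_left (prime_ap _ (Z_ne s k)).ne_zero
  · rintro ⟨f, hf⟩
    have hf' : ∀ j, ∃ g, ap (Z s j) f = ap (Z s j) (xyz K) * g := hf
    choose g hg using hf'
    refine ⟨⟨Sum.elim f g, LinearMap.mem_ker.2 (funext fun j => ?_)⟩, rfl⟩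
    rw [hm]
    simp [hg j]

/-- the ideal `(z, w)` -/
noncomputable abbrev J (K : Type) [Field K] : Ideal (MvPolynomial (Fin 5) K) :=
  Ideal.span {X 4, X 1}

lemma pd_T : PD (MvPolynomial (Fin 5) K) 3 ((MvPolynomial (Fin 5) K) ⧸ J K) := by
  let g : ((MvPolynomial (Fin 5) K) × (MvPolynomial (Fin 5) K)) →ₗ[(MvPolynomial (Fin 5) K)] (MvPolynomial (Fin 5) K) := (LinearMap.toSpanSingleton (MvPolynomial (Fin 5) K) (MvPolynomial (Fin 5) K) (X 4)).coprod
    (LinearMap.toSpanSingleton (MvPolynomial (Fin 5) K) (MvPolynomial (Fin 5) K) (X 1))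
  let f : (MvPolynomial (Fin 5) K) →ₗ[(MvPolynomial (Fin 5) K)] ((MvPolynomial (Fin 5) K) × (MvPolynomial (Fin 5) K)) := LinearMap.toSpanSingleton (MvPolynomial (Fin 5) K) ((MvPolynomial (Fin 5) K) × (MvPolynomial (Fin 5) K)) (X 1, -X 4)
  have hr : LinearMap.range g = J K := by
    ext p
    simp only [LinearMap.mem_range, Ideal.mem_span_pair, Prod.exists, g, LinearMap.coprod_apply,
      LinearMap.toSpanSingleton_apply, smul_eq_mul]
  have h2 : PD (MvPolynomial (Fin 5) K) 2 (LinearMap.range g) := by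
    refine PD.x3 f g.rangeRestrict ?_ g.surjective_rangeRestrict ?_ (pd_proj 0) (pd_proj 1)
    · rw [injective_iff_map_eq_zero]
      intro a ha
      have := congrArg Prod.fst ha
      simpa [f, X_ne_zero] using this
    · rintro ⟨a, b⟩
      rw [Subtype.ext_iff]
      simp only [LinearMap.codRestrict_apply, g, LinearMap.coprod_apply,
        LinearMap.toSpanSingleton_apply, smul_eq_mul, ZeroMemClass.coe_zero, Set.mem_range, f,
        Prod.smul_mk, Prod.mk.injEq]
      constructor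
      · intro h
        have hd : (X 1 : (MvPolynomial (Fin 5) K)) ∣ a * X 4 := ⟨-b, by linear_combination h⟩
        rcases Prime.dvd_or_dvd MvPolynomial.X_prime hd with ⟨c, hc⟩ | hc
        · refine ⟨c, by rw [hc, mul_comm], ?_⟩
          apply mul_left_cancel₀ (X_ne_zero (R := K) (1 : Fin 5))
          rw [hc] at h
          linear_combination -h
        · rw [X_dvd_X] at hc
          exact absurd hc (by decide)
      · rintro ⟨c, rfl, rfl⟩
        ring
  rw [hr] at h2
  exact PD.x3 (J K).subtype (J K).mkQ (Submodule.injective_subtype _) (Submodule.mkQ_surjective _)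
    (LinearMap.exact_subtype_mkQ _) h2 (pd_proj 2)

/-- kill a set of variables -/
noncomputable def kill (K : Type) [Field K] (A : Finset (Fin 5)) :
    MvPolynomial (Fin 5) K →ₐ[K] MvPolynomial (Fin 5) K :=
  aeval fun i => if i ∈ A then 0 else X i

lemma kill_X (A : Finset (Fin 5)) (i : Fin 5) :
    kill K A (X i) = if i ∈ A then 0 else X i := by simp [kill]

lemma sub_kill (A : Finset (Fin 5)) (I : Ideal (MvPolynomial (Fin 5) K)) (hI : ∀ i ∈ A, X i ∈ I) (p : (MvPolynomial (Fin 5) K)) :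
    p - kill K A p ∈ I := by
  induction p using MvPolynomial.induction_on with
  | C r => simp [kill]
  | add p q hp hq =>
    have : p + q - kill K A (p + q) = (p - kill K A p) + (q - kill K A q) := by rw [map_add]; ring
    rw [this]; exact add_mem hp hq
  | mul_X p j hp =>
    have : p * X j - kill K A (p * X j) =
        (p - kill K A p) * X j + kill K A p * (if j ∈ A then X j else 0) := by
      rw [map_mul]; simp only [kill, aeval_X]; split_ifs <;> ring
    rw [this]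
    refine add_mem (I.mul_mem_right _ hp) (I.mul_mem_left _ ?_)
    split_ifs with h
    · exact hI j h
    · exact zero_mem _

lemma mem_J (p : (MvPolynomial (Fin 5) K)) : p ∈ J K ↔ kill K {4, 1} p = 0 := by
  constructor
  · intro h
    obtain ⟨a, b, rfl⟩ := Ideal.mem_span_pair.1 h
    simp [kill]
  · intro h
    have := sub_kill {4, 1} (J K) (by
      intro i hi
      simp only [Finset.mem_insert, Finset.mem_singleton] at hi
      rcases hi with rfl | rfl <;> exact Ideal.subset_span (by simp)) p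
    rwa [h, sub_zero] at this

/-- the polynomial `B` -/
noncomputable def Bp (K : Type) [Field K] : MvPolynomial (Fin 5) K := X 2 * (X 2 + X 3) * X 3 ^ 2

lemma mul_dvd_of_pt {p q η : (MvPolynomial (Fin 5) K)} (hp : Prime p) (pt : Fin 5 → K) (h1 : eval pt p = 0)
    (h2 : eval pt q ≠ 0) (hpη : p ∣ η) (hqη : q ∣ η) : p * q ∣ η := by
  obtain ⟨r, rfl⟩ := hqη
  rcases hp.dvd_or_dvd hpη with ⟨c, hc⟩ | ⟨c, hc⟩
  · exact absurd (by rw [hc, map_mul, h1, zero_mul]) h2
  · exact ⟨c, by rw [hc]; ring⟩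

lemma fz [CharZero K] (s : ℤ) (h0 : (s : K) ≠ 0) (h1 : (s : K) ≠ 1) (h3 : (s : K) ≠ 3)
    (f : Fin 3 → (MvPolynomial (Fin 5) K)) (hf : f ∈ Dp K s) : ∃ g, f 2 - Bp K * g ∈ J K := by
  have P := fun j => prime_ap (K := K) (Z s j) (Z_ne s j)
  have P0 := P 0
  have P1 := P 1
  have P3 := P 3
  have P4 := P 4
  have Q0 := hf 0
  have Q1 := hf 1
  have Q2 := hf 2
  have Q3 := hf 3
  have Q4 := hf 4
  have Q5 := hf 5
  have Q7 := hf 7
  have P9 := prime_ap (K := K) ![1, 1, 0] (by decide)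
  simp [Z, ap, xyz] at P0 P1 P3 P4 Q0 Q1 Q2 Q3 Q4 Q5 Q7 P9
  have hx : (X 2 : (MvPolynomial (Fin 5) K)) ∣ kill K {4, 1} (f 2) := by
    have a1 : (X 2 : (MvPolynomial (Fin 5) K)) ∣ X 4 * f 0 - X 2 * f 2 := by
      obtain ⟨c, hc⟩ := Q1
      exact ⟨X 4 * c - f 2, by rw [hc]; ring⟩
    have a2 : (X 2 + -(2 * X 4) : (MvPolynomial (Fin 5) K)) ∣ X 4 * f 0 - X 2 * f 2 := by
      obtain ⟨c, hc⟩ := Q2
      exact ⟨X 4 * c - f 2, by linear_combination X 4 * hc⟩
    obtain ⟨c, hc⟩ := mul_dvd_of_pt P1 ![0, 0, 0, 0, 1] (by simp) (by simp) a1 a2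
    have := congrArg (kill K {4, 1}) hc
    simp only [map_sub, map_mul, map_add, map_neg, map_ofNat] at this
    simp only [kill_X] at this
    simp at this
    refine ⟨-kill K {4, 1} c, mul_left_cancel₀ P1.ne_zero ?_⟩
    linear_combination -this
  have hxy : (X 2 + X 3 : (MvPolynomial (Fin 5) K)) ∣ kill K {4, 1} (f 2) := by
    have a1 : (X 2 + X 3 + X 4 : (MvPolynomial (Fin 5) K)) ∣ X 4 * (f 0 + f 1) - (X 2 + X 3) * f 2 := by
      obtain ⟨c, hc⟩ := Q4
      exact ⟨X 4 * c - f 2, by linear_combination X 4 * hc⟩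
    have a2 : (X 2 + X 3 + (s : (MvPolynomial (Fin 5) K)) * X 4 : (MvPolynomial (Fin 5) K)) ∣ X 4 * (f 0 + f 1) - (X 2 + X 3) * f 2 := by
      obtain ⟨c, hc⟩ := Q7
      exact ⟨X 4 * c - f 2, by linear_combination X 4 * hc⟩
    obtain ⟨c, hc⟩ := mul_dvd_of_pt P4 ![0, 0, 0, -1, 1] (by simp)
      (by simpa [neg_add_eq_zero] using h1.symm) a1 a2
    have := congrArg (kill K {4, 1}) hc
    simp only [map_sub, map_mul, map_add, map_intCast] at this
    simp only [kill_X] at this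
    simp at this
    refine ⟨-kill K {4, 1} c, mul_left_cancel₀ P9.ne_zero ?_⟩
    linear_combination -this
  have hy : (X 3 : (MvPolynomial (Fin 5) K)) ^ 2 ∣ kill K {4, 1} (f 2) := by
    have a1 : (X 3 : (MvPolynomial (Fin 5) K)) ∣ X 4 * f 1 - X 3 * f 2 := by
      obtain ⟨c, hc⟩ := Q0
      exact ⟨X 4 * c - f 2, by rw [hc]; ring⟩
    have a2 : (X 3 + (s : (MvPolynomial (Fin 5) K)) * X 4 : (MvPolynomial (Fin 5) K)) ∣ X 4 * f 1 - X 3 * f 2 := by
      obtain ⟨c, hc⟩ := Q3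
      exact ⟨X 4 * c - f 2, by linear_combination X 4 * hc⟩
    have a3 : (X 3 + 3 * X 4 : (MvPolynomial (Fin 5) K)) ∣ X 4 * f 1 - X 3 * f 2 := by
      obtain ⟨c, hc⟩ := Q5
      exact ⟨X 4 * c - f 2, by linear_combination X 4 * hc⟩
    have a4 := mul_dvd_of_pt P3 ![0, 0, 0, -s, 1] (by simp)
      (by simpa [neg_add_eq_zero] using h3) a2 a3
    obtain ⟨c, hc⟩ := mul_dvd_of_pt P0 ![0, 0, 0, 0, 1] (by simp) (by simpa using h0) a1 a4
    have := congrArg (kill K {4, 1}) hc
    simp only [map_sub, map_mul, map_add, map_intCast, map_ofNat] at this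
    simp only [kill_X] at this
    simp at this
    refine ⟨-kill K {4, 1} c, mul_left_cancel₀ P0.ne_zero ?_⟩
    linear_combination -this
  have b1 := mul_dvd_of_pt P9 ![0, 0, -1, 1, 0] (by simp) (by simp) hxy hy
  obtain ⟨g, hg⟩ := mul_dvd_of_pt P1 ![0, 0, 0, 1, 0] (by simp) (by simp) hx b1
  refine ⟨g, ?_⟩
  have := sub_kill {4, 1} (J K) (by
    intro i hi
    simp only [Finset.mem_insert, Finset.mem_singleton] at hi
    rcases hi with rfl | rfl <;> exact Ideal.subset_span (by simp)) (f 2)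
  rwa [hg, ← mul_assoc] at this

lemma Bp_reg [CharZero K] (g : (MvPolynomial (Fin 5) K)) (h : Bp K * g ∈ J K) : g ∈ J K := by
  rw [mem_J] at h ⊢
  have P9 := prime_ap (K := K) ![1, 1, 0] (by decide)
  simp [ap, xyz] at P9
  have e : kill K {4, 1} (Bp K) = Bp K := by simp [kill, Bp]
  rw [map_mul, e] at h
  refine (mul_eq_zero.1 h).resolve_left ?_
  simp [Bp, X_ne_zero, P9.ne_zero]

lemma exists_psi [CharZero K] (s : ℤ) (h0 : (s : K) ≠ 0) (h1 : (s : K) ≠ 1) (h3 : (s : K) ≠ 3) :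
    ∃ ψ : Dp K s →ₗ[(MvPolynomial (Fin 5) K)] (MvPolynomial (Fin 5) K) ⧸ J K, ∀ f g, ψ f = (J K).mkQ g ↔ f.1 2 - Bp K * g ∈ J K := by
  have hinj : Function.Injective (LinearMap.lsmul (MvPolynomial (Fin 5) K) ((MvPolynomial (Fin 5) K) ⧸ J K) (Bp K)) := by
    rw [injective_iff_map_eq_zero]
    intro a ha
    obtain ⟨g, rfl⟩ := (J K).mkQ_surjective a
    rw [LinearMap.lsmul_apply, ← map_smul, Submodule.mkQ_apply, Submodule.Quotient.mk_eq_zero] at ha
    rw [Submodule.mkQ_apply, Submodule.Quotient.mk_eq_zero]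
    exact Bp_reg g ha
  let φ : Dp K s →ₗ[(MvPolynomial (Fin 5) K)] (MvPolynomial (Fin 5) K) ⧸ J K := (J K).mkQ ∘ₗ LinearMap.proj 2 ∘ₗ (Dp K s).subtype
  have hφ : ∀ f, φ f ∈ LinearMap.range (LinearMap.lsmul (MvPolynomial (Fin 5) K) ((MvPolynomial (Fin 5) K) ⧸ J K) (Bp K)) := by
    intro f
    obtain ⟨g, hg⟩ := fz s h0 h1 h3 f.1 f.2
    refine ⟨(J K).mkQ g, ?_⟩
    rw [LinearMap.lsmul_apply, ← map_smul, eq_comm]
    exact (Submodule.Quotient.eq _).2 hg
  refine ⟨LinearMap.codRestrictOfInjective φ _ hinj hφ, fun f g => ?_⟩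
  rw [← hinj.eq_iff, LinearMap.codRestrictOfInjective_comp_apply, LinearMap.lsmul_apply,
    ← map_smul]
  exact Submodule.Quotient.eq _

end Pool.Agent.H2.Pdim
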