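import Pool.Agent.H2.OI1
import Pool.Agent.H2.PD3

open MvPolynomial Pool.Agent.H2.Pdim CategoryTheory

namespace Pool.Agent.H2.OI

variable {K : Type} [Field K] {n : ℕ}

lemma sg_skew (j i : Fin n) : sg K j i = - sg K i j := by
  rcases lt_trichotomy i j with h | h | h
  · simp [sg, h, h.not_gt]
  · simp [sg, h]
  · simp [sg, h, h.not_gt]

lemma av_step (c : Fin n → K) (j : ℕ) (h : j + 1 < n) :
    av c ⟨j + 1, h⟩ = av c ⟨j, by omega⟩ + c ⟨j, by omega⟩ + c ⟨j + 1, h⟩ := by
  have : ∀ i : Fin n, sg K ⟨j + 1, h⟩ i * c i = sg K ⟨j, by omega⟩ i * c i +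
      (if i = ⟨j, by omega⟩ then c i else 0) + (if i = ⟨j + 1, h⟩ then c i else 0) := by
    intro i
    simp only [sg, Fin.lt_def, Fin.ext_iff]
    split_ifs <;> first | omega | ring
  simp [av, this, Finset.sum_add_distrib]

/-- the alternating vector -/
def alt (K : Type) [Field K] (n : ℕ) : Fin n → K := fun i => (-1) ^ (i : ℕ)

lemma av_alt (j : Fin n) : av (alt K n) j = if Even n then 1 else 0 := by
  obtain ⟨j, hj⟩ := j
  induction j with
  | zero =>
    have : ∀ i : Fin n, sg K ⟨0, hj⟩ i * alt K n i =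
        (if i = ⟨0, hj⟩ then alt K n i else 0) - alt K n i := by
      intro i
      simp only [sg, Fin.lt_def, Fin.ext_iff]
      split_ifs <;> first | omega | ring
    simp only [av, this, Finset.sum_sub_distrib, Finset.sum_ite_eq', Finset.mem_univ, if_true]
    simp only [alt]
    rw [Fin.sum_univ_eq_sum_range (fun i => (-1 : K) ^ i), neg_one_geom_sum]
    split_ifs <;> simp
  | succ j ih =>
    rw [av_step, ih]
    simp [alt, pow_succ]

lemma av_inj (hn : Even n) (c : Fin n → K) (h : ∀ j, av c j = 0) : c = 0 := by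
  funext k
  have h0 : 0 < n := k.pos
  have e : c = c ⟨0, h0⟩ • alt K n := by
    funext ⟨j, hj⟩
    induction j with
    | zero => simp [alt]
    | succ j ih =>
      have h1 := av_step c j hj
      have h2 := ih (by omega)
      rw [h, h] at h1
      simp only [alt, Pi.smul_apply, smul_eq_mul, pow_succ] at h2 ⊢
      linear_combination -h1 - h2
  have h1 := h k
  rw [e, av_smul, av_alt, if_pos hn, mul_one] at h1
  rw [e, h1, zero_smul]

lemma av_surj (hn : Even n) (t : Fin n → K) : ∃ c, ∀ j, av c j = t j := by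
  let L : (Fin n → K) →ₗ[K] (Fin n → K) :=
    { toFun := av, map_add' := fun c d => funext (av_add c d),
      map_smul' := fun a c => funext (av_smul a c) }
  have hi : Function.Injective L := by
    rw [injective_iff_map_eq_zero]
    exact fun c hc => av_inj hn c (congrFun hc)
  obtain ⟨c, hc⟩ := LinearMap.injective_iff_surjective.1 hi t
  exact ⟨c, congrFun hc⟩

lemma alt_av (hn : Odd n) (c : Fin n → K) : ∑ k, alt K n k * av c k = 0 := by
  simp only [av, Finset.mul_sum]
  rw [Finset.sum_comm]
  refine Finset.sum_eq_zero fun i _ => ?_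
  have h := av_alt (K := K) i
  rw [if_neg (Nat.not_even_iff_odd.2 hn), av] at h
  have : ∀ k, alt K n k * (sg K k i * c i) = -c i * (sg K i k * alt K n k) := by
    intro k; rw [sg_skew k i]; ring
  simp only [this, ← Finset.mul_sum, h, mul_zero]

lemma not_pd_odd (hn : Odd n) : ¬ PD (MvPolynomial (Fin n) K) n (Ex K n) := by
  obtain ⟨k, rfl⟩ : ∃ k, n = k + 1 := ⟨n - 1, by have := hn.pos; omega⟩
  intro h
  refine not_V_zero (X : Fin (k + 1) → MvPolynomial (Fin (k + 1)) K)
    (mkE (alt K (k + 1)) 0 : Ex K (k + 1)) ?_ (fun i => ⟨1, ?_⟩)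
    (V_pd X _ (by simp [List.mem_ofFn']) (X_reg (k + 1)) k _ h 0 (by simp))
  · intro e
    have := congrFun (congrArg Prod.fst e) 0
    simp [alt] at this
  · refine ext_Phi (by simp [fst_smul]) fun j => ?_
    rw [Phi_smul]
    simp [Phi, av_alt, Nat.not_even_iff_odd.2 hn]

lemma pd_coord (T : Finset (Fin n)) : PD (MvPolynomial (Fin n) K) (T.card + 1)
    (MvPolynomial (Fin n) K ⧸ Ideal.span (X '' (T : Set (Fin n)) : Set (MvPolynomial (Fin n) K))) := by
  induction T using Finset.induction_on with
  | empty =>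
    refine PD.equiv (Submodule.quotEquivOfEqBot _ (by simp)).symm (pd_proj _)
  | insert i T hi ih =>
    have hle : Ideal.span (X '' (T : Set (Fin n)) : Set (MvPolynomial (Fin n) K)) ≤
        Ideal.span (X '' ((insert i T : Finset (Fin n)) : Set (Fin n))) :=
      Ideal.span_mono (Set.image_mono (by simp))
    rw [Finset.card_insert_of_notMem hi]
    refine PD.x3 (LinearMap.lsmul _ _ (X i)) (Submodule.factor hle) ?_
      (Submodule.factor_surjective hle) ?_ ih (ih.mono (by omega))
    · refine (isSMulRegular_quotient_iff_mem_of_smul_mem _ _).2 fun g hg => ?_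
      rw [smul_eq_mul, mem_ideal_span_X_image] at hg
      rw [mem_ideal_span_X_image]
      intro m hm
      obtain ⟨j, hj, h⟩ := hg (Finsupp.single i 1 + m) (by
        rw [mem_support_iff, coeff_X_mul]; exact mem_support_iff.1 hm)
      refine ⟨j, hj, ?_⟩
      have : i ≠ j := by
        rintro rfl
        exact hi hj
      simpa [Finsupp.single_apply, this] using h
    · intro y
      obtain ⟨y, rfl⟩ := Submodule.mkQ_surjective _ y
      rw [Submodule.factor_mk, Submodule.mkQ_apply, Submodule.Quotient.mk_eq_zero,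
        Finset.coe_insert, Set.image_insert_eq, Ideal.mem_span_insert']
      constructor
      · rintro ⟨a, ha⟩
        refine ⟨Submodule.Quotient.mk (-a), ?_⟩
        rw [LinearMap.lsmul_apply, ← Submodule.Quotient.mk_smul, Submodule.mkQ_apply, eq_comm,
          Submodule.Quotient.eq]
        convert ha using 1
        simp only [smul_eq_mul]; ring
      · rintro ⟨a, ha⟩
        obtain ⟨a, rfl⟩ := Submodule.Quotient.mk_surjective _ a
        rw [LinearMap.lsmul_apply, ← Submodule.Quotient.mk_smul, Submodule.mkQ_apply, eq_comm,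
          Submodule.Quotient.eq] at ha
        refine ⟨-a, ?_⟩
        convert ha using 1
        simp only [smul_eq_mul]; ring

lemma pd_pi {R : Type} [CommRing R] (k : ℕ) (m : ℕ) : ∀ (N : Fin m → Type)
    [∀ i, AddCommGroup (N i)] [∀ i, Module R (N i)], (∀ i, PD R k (N i)) → PD R k (∀ i, N i) := by
  induction m with
  | zero =>
    intro N _ _ _
    have : PD R 0 (∀ i, N i) :=
      (ModuleCat.isZero_of_subsingleton (ModuleCat.of R (∀ i, N i))).hasProjectiveDimensionLT_zero
    exact this.mono (by omega)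
  | succ m ih =>
    intro N _ _ h
    refine PD.equiv (Fin.consLinearEquiv R N) ?_
    exact PD.x2 (LinearMap.inl R _ _) (LinearMap.snd R _ _) LinearMap.inl_injective
      LinearMap.snd_surjective (Function.Exact.inl_snd) (h 0) (ih _ fun i => h i.succ)

/-- the ideal of the `j`-th coordinate axis -/
noncomputable abbrev axis (K : Type) [Field K] {n : ℕ} (j : Fin n) :
    Ideal (MvPolynomial (Fin n) K) :=
  Ideal.span (X '' ((Finset.univ.erase j : Finset (Fin n)) : Set (Fin n)))

lemma mk_ev (j : Fin n) (p : MvPolynomial (Fin n) K) :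
    Ideal.Quotient.mk (axis K j) (Polynomial.aeval (X j : MvPolynomial (Fin n) K) (ev K j p)) =
      Ideal.Quotient.mk (axis K j) p := by
  have : (Ideal.Quotient.mkₐ K (axis K j)).comp
      ((Polynomial.aeval (X j : MvPolynomial (Fin n) K)).comp (ev K j)) =
      Ideal.Quotient.mkₐ K (axis K j) := by
    refine MvPolynomial.algHom_ext fun i => ?_
    by_cases h : i = j
    · simp [ev_X, h]
    · simp only [AlgHom.comp_apply, ev_X, h, if_false, map_zero, Ideal.Quotient.mkₐ_eq_mk]
      have : (X i : MvPolynomial (Fin n) K) ∈ axis K j :=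
        Ideal.subset_span (Set.mem_image_of_mem _ (by simpa using h))
      exact (Ideal.Quotient.eq_zero_iff_mem.2 this).symm
  exact congrArg (fun f : MvPolynomial (Fin n) K →ₐ[K] _ => f p) this

lemma ev_axis (j : Fin n) (φ : Polynomial K)
    (h : Polynomial.aeval (X j : MvPolynomial (Fin n) K) φ ∈ axis K j) : φ = 0 := by
  have h1 : axis K j ≤ RingHom.ker (ev K j) := by
    rw [Ideal.span_le]
    rintro _ ⟨i, hi, rfl⟩
    have : i ≠ j := by simpa using hi
    simp [ev_X, this]
  have h2 := h1 h
  rw [RingHom.mem_ker, ← Polynomial.aeval_algHom_apply, ev_X, if_pos rfl] at h2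
  simpa using h2

/-- the embedding -/
noncomputable def emb (K : Type) [Field K] (n : ℕ) : Ex K n →ₗ[MvPolynomial (Fin n) K]
    ∀ j : Fin n, MvPolynomial (Fin n) K ⧸ axis K j where
  toFun u j := Ideal.Quotient.mk _ (Polynomial.aeval (X j : MvPolynomial (Fin n) K) (Phi u j))
  map_add' u v := funext fun j => by simp [Phi_add]
  map_smul' p u := funext fun j => by
    simp only [Phi_smul, map_mul, mk_ev, RingHom.id_apply, Pi.smul_apply]
    rfl

lemma Phi_inj (hn : Even n) (u : Ex K n) (h1 : ∀ j, Phi u j = 0) : u = 0 := by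
  refine ext_Phi (av_inj hn _ fun j => ?_) fun j => by simp [h1]
  have := congrArg (fun p => Polynomial.coeff p 0) (h1 j)
  simpa [Phi] using this

lemma pd_even (hn : Even n) : PD (MvPolynomial (Fin n) K) n (Ex K n) := by
  have hi : Function.Injective (emb K n) := by
    rw [injective_iff_map_eq_zero]
    intro u hu
    exact Phi_inj hn u fun j => ev_axis j _ (Ideal.Quotient.eq_zero_iff_mem.1 (congrFun hu j))
  refine PD.x1 (emb K n) (LinearMap.range (emb K n)).mkQ hi (Submodule.mkQ_surjective _)
    (LinearMap.exact_map_mkQ_range _) (pd_pi _ _ _ fun j => ?_) (syzygy K n _)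
  have := pd_coord (K := K) (Finset.univ.erase j)
  rwa [Finset.card_erase_of_mem (Finset.mem_univ j), Finset.card_univ, Fintype.card_fin,
    Nat.sub_add_cancel j.pos] at this

lemma pdim_odd (hn : Odd n) :
    projectiveDimension (ModuleCat.of (MvPolynomial (Fin n) K) (Ex K n)) = n := by
  apply le_antisymm
  · exact (projectiveDimension_le_iff _ _).2 (syzygy K n _)
  · exact (projectiveDimension_ge_iff _ _).2 (not_pd_odd hn)

lemma not_pd_even (k : ℕ) (hn : Even (k + 1)) :
    ¬ PD (MvPolynomial (Fin (k + 1)) K) k (Ex K (k + 1)) := by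
  intro h
  let l : MvPolynomial (Fin (k + 1)) K := ∑ i, X i
  have hl : ∀ j, ev K j l = Polynomial.X := fun j => by simp [l, ev_X]
  let f := LinearMap.lsmul (MvPolynomial (Fin (k + 1)) K) (Ex K (k + 1)) l
  have hf : Function.Injective f := by
    rw [injective_iff_map_eq_zero]
    intro u hu
    refine Phi_inj hn u fun j => ?_
    have := congrArg (fun v => Phi v j) hu
    simpa [f, Phi_smul, hl] using this
  have h1 := PD.x3 f (LinearMap.range f).mkQ hf (Submodule.mkQ_surjective _)
    (LinearMap.exact_map_mkQ_range _) h (h.mono (Nat.le_succ k))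
  refine not_V_zero (X : Fin (k + 1) → MvPolynomial (Fin (k + 1)) K)
    ((LinearMap.range f).mkQ (fgen 0)) ?_ (fun i => ⟨2, ?_⟩)
    (V_pd X _ (by simp [List.mem_ofFn']) (X_reg (k + 1)) k _ h1 0 (by simp))
  · intro e
    obtain ⟨u, hu⟩ := (Submodule.Quotient.mk_eq_zero _).1 e
    have := congrFun (congrArg Prod.fst hu) 0
    have h0 : constantCoeff l = 0 := by simp [l]
    rw [LinearMap.lsmul_apply, fst_smul, h0] at this
    simp [fgen] at this
  · rw [← map_smul]
    refine (Submodule.Quotient.mk_eq_zero _).2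
      ⟨(X i : MvPolynomial (Fin (k + 1)) K) • fgen 0, ext_Phi ?_ fun j => ?_⟩
    · simp [f, fst_smul]
    · simp only [f, LinearMap.lsmul_apply, Phi_smul, hl, map_pow, ev_X]
      split_ifs
      · ring
      · simp

lemma pdim_even (k : ℕ) (hn : Even (k + 1)) :
    projectiveDimension (ModuleCat.of (MvPolynomial (Fin (k + 1)) K) (Ex K (k + 1))) = k := by
  apply le_antisymm
  · exact (projectiveDimension_le_iff _ _).2 (pd_even hn)
  · exact (projectiveDimension_ge_iff _ _).2 (not_pd_even k hn)

end Pool.Agent.H2.OI
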