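import Pool.Agent.H2.OI2

open MvPolynomial

namespace Pool.Agent.H2.OI

variable {K : Type} [Field K] {n : ℕ}

/-- the Koszul sign -/
noncomputable def ksg (K : Type) [Field K] {n : ℕ} (J : Finset (Fin n)) (b : Fin n) :
    Polynomial K := (-1) ^ (J.filter (fun c => c < b)).card

lemma ksg_sq (J : Finset (Fin n)) (b : Fin n) : ksg K J b * ksg K J b = 1 := by
  rw [ksg, ← mul_pow]; simp

lemma ksg_ne (J : Finset (Fin n)) (b : Fin n) : ksg K J b ≠ 0 := by
  intro h
  have := ksg_sq (K := K) J b
  rw [h] at this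
  simp at this

lemma kos_fst (f : Finset (Fin n) → Ex K n) (J : Finset (Fin n)) : (kos K f J).1 = 0 := by
  let π : Ex K n →+ (Fin n → K) := AddMonoidHom.mk' (fun u => u.1) fun _ _ => rfl
  change π (kos K f J) = 0
  rw [kos, map_sum]
  refine Finset.sum_eq_zero fun b _ => ?_
  simp [π, fst_smul]

lemma kos_Phi (f : Finset (Fin n) → Ex K n) (J : Finset (Fin n)) (k : Fin n) :
    Phi (kos K f J) k =
      if k ∈ J then 0 else ksg K J k * Polynomial.X * Phi (f (insert k J)) k := by
  let π : Ex K n →+ Polynomial K := AddMonoidHom.mk' (fun u => Phi u k) fun u v => Phi_add u v k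
  change π (kos K f J) = _
  rw [kos, map_sum]
  have : ∀ b, π (((-1 : MvPolynomial (Fin n) K) ^ (J.filter (fun c => c < b)).card * X b) •
      f (insert b J)) =
      if b = k then ksg K J k * Polynomial.X * Phi (f (insert k J)) k else 0 := by
    intro b
    simp only [π, AddMonoidHom.mk'_apply, Phi_smul, map_mul, map_pow, map_neg, map_one, ev_X]
    split_ifs with h
    · subst h; rfl
    · simp
  simp only [this, Finset.sum_ite_eq', Finset.mem_compl]
  split_ifs <;> rfl

lemma ksg_coeff (J : Finset (Fin n)) (b : Fin n) (p : Polynomial K) (m : ℕ)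
    (h : p.coeff m = 0) : (ksg K J b * p).coeff m = 0 := by
  rw [ksg]
  rcases neg_one_pow_eq_or (Polynomial K) (J.filter (fun c => c < b)).card with e | e <;>
    simp [e, h]

lemma exists_Phi {e : ℤ} (he : 2 ≤ e ∨ (e = 1 ∧ Even n)) (t : Fin n → Polynomial K)
    (ht : ∀ k (m : ℕ), (m : ℤ) + 1 ≠ e → (t k).coeff m = 0) :
    ∃ u ∈ gr K n (e - 1), ∀ k, Phi u k = t k := by
  rcases he with he | ⟨rfl, hn⟩
  · refine ⟨mkE 0 fun k => (t k).divX, ⟨fun _ => rfl, fun k m h => ?_⟩, fun k => ?_⟩
    · rw [mkE_snd, Polynomial.coeff_divX]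
      exact ht k _ (by push_cast; omega)
    · have := Polynomial.X_mul_divX_add (t k)
      rw [ht k 0 (by omega)] at this
      simpa [Phi] using this
  · obtain ⟨c, hc⟩ := av_surj hn fun k => (t k).coeff 0
    refine ⟨mkE c 0, ⟨fun h => (h (by norm_num)).elim, fun k m _ => by simp⟩, fun k => ?_⟩
    simp only [Phi, mkE_fst, mkE_snd, hc, Pi.zero_apply, mul_zero, add_zero]
    ext m
    rw [Polynomial.coeff_C]
    split_ifs with h
    · rw [h]
    · exact (ht k m (by omega)).symm

lemma not_betti {i : ℕ} {j : ℤ} (he : 2 ≤ j - i ∨ (j - i = 1 ∧ Even n)) :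
    ¬ BettiNe n (gr K n) i j := by
  rintro ⟨f, hf, hc, hb⟩
  apply hb
  have h1 : ∀ I, (f I).1 = 0 := fun I => (hf I).1.1 (by omega)
  have hP : ∀ I k, Phi (f I) k = Polynomial.X * (f I).2 k := fun I k => by simp [Phi, h1]
  have h2 : ∀ I, ∀ k ∈ I, Phi (f I) k = 0 := by
    intro I k hk
    have := kos_Phi f (I.erase k) k
    rw [hc, if_neg (Finset.notMem_erase k I), Finset.insert_erase hk] at this
    simpa [ksg_ne] using this
  choose u hu hu' using fun I : Finset (Fin n) => exists_Phi he
    (fun k => ksg K (I.erase k) k * (f (I.erase k)).2 k)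
    (fun k m h => ksg_coeff _ _ _ _ ((hf _).1.2 k m h))
  refine ⟨fun I => if I.card = i + 1 then u I else 0, fun I => ⟨?_, fun h => if_neg h⟩,
    funext fun J => ext_Phi (by rw [kos_fst, h1]) fun k => ?_⟩
  · dsimp only
    split_ifs
    · convert hu I using 2
      push_cast; ring
    · exact zero_mem _
  · rw [kos_Phi]
    split_ifs with hk hJ
    · exact (h2 J k hk).symm
    · rw [hu', Finset.erase_insert hk, hP]
      linear_combination (Polynomial.X * (f J).2 k) * ksg_sq (K := K) J k
    · rw [Finset.card_insert_of_notMem hk] at hJ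
      rw [(hf J).2 (by omega)]
      simp

lemma betti_zero (hn : 0 < n) : BettiNe n (gr K n) 0 0 := by
  refine ⟨fun I => if I = ∅ then fgen ⟨0, hn⟩ else 0, fun I => ⟨?_, fun h => ?_⟩, ?_, ?_⟩
  · dsimp only
    split_ifs
    · exact fgen_mem _
    · exact zero_mem _
  · exact if_neg (by simpa using h)
  · funext J
    simp [kos]
  · rintro ⟨g, -, hg⟩
    have := kos_fst g ∅
    rw [hg] at this
    simpa [fgen] using congrFun this ⟨0, hn⟩

lemma betti_odd (m : ℕ) (hn : Odd (m + 1)) : BettiNe (m + 1) (gr K (m + 1)) m (m + 1) := by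
  have hg0 : ∀ k : Fin (m + 1), Phi (ggen 0 : Ex K (m + 1)) k =
      if k = 0 then Polynomial.X else 0 := by
    intro k
    by_cases h : k = 0 <;> simp [Phi, ggen, h]
  refine ⟨fun I => if I = Finset.univ.erase 0 then ggen 0 else 0, fun I => ⟨?_, fun h => ?_⟩,
    funext fun J => ext_Phi (kos_fst _ _) fun k => ?_, ?_⟩
  · dsimp only
    split_ifs
    · convert ggen_mem (K := K) (0 : Fin (m + 1)) using 2
      ring
    · exact zero_mem _
  · refine if_neg ?_
    rintro rfl
    simp at h
  · rw [kos_Phi]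
    split_ifs with hk hJ
    · simp
    · have : k ≠ 0 := by
        have : k ∈ Finset.univ.erase (0 : Fin (m + 1)) := hJ ▸ Finset.mem_insert_self k J
        simpa using this
      simp [hg0, this]
    · simp
  · rintro ⟨g, hg, e⟩
    have h1 : ∀ k, (g Finset.univ).2 k = 0 := fun k => by
      ext l
      exact (hg Finset.univ).1.2 k l (by push_cast; omega)
    have h2 : ∀ k, ksg K (Finset.univ.erase k) k * Polynomial.X *
        Polynomial.C (av (g Finset.univ).1 k) = if k = 0 then Polynomial.X else 0 := by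
      intro k
      have := kos_Phi g (Finset.univ.erase k) k
      rw [e, if_neg (Finset.notMem_erase k _), Finset.insert_erase (Finset.mem_univ k)] at this
      simp only [Phi, h1, mul_zero, add_zero] at this
      rw [← this]
      by_cases h : k = 0
      · subst h
        simp [ggen]
      · have : Finset.univ.erase k ≠ Finset.univ.erase (0 : Fin (m + 1)) := fun e' =>
          h (Finset.erase_injOn _ (by simp) (by simp) e')
        simp [this, h]
    have h3 := alt_av hn (g Finset.univ).1
    rw [Finset.sum_eq_single 0 (fun k _ hk => ?_) (by simp)] at h3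
    · have h4 := h2 0
      have : av (g Finset.univ).1 0 = 0 := by simpa [alt] using h3
      simp [this, Polynomial.X_ne_zero.symm] at h4
    · have := h2 k
      have : av (g Finset.univ).1 k = 0 := by simpa [hk, ksg_ne] using this
      simp [this]

lemma reg_even (hn : Even n) (h : 0 < n) : IsReg n (gr K n) 0 := by
  refine ⟨⟨0, 0, betti_zero h, by simp⟩, ?_⟩
  rintro _ ⟨i, j, hb, rfl⟩
  by_contra hh
  exact not_betti (by
    rcases (by omega : 2 ≤ j - i ∨ j - i = 1) with h | h
    · exact Or.inl h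
    · exact Or.inr ⟨h, hn⟩) hb

lemma reg_odd (hn : Odd n) : IsReg n (gr K n) 1 := by
  obtain ⟨m, rfl⟩ : ∃ m, n = m + 1 := ⟨n - 1, by have := hn.pos; omega⟩
  refine ⟨⟨m, m + 1, betti_odd m hn, by simp⟩, ?_⟩
  rintro _ ⟨i, j, hb, rfl⟩
  by_contra hh
  exact not_betti (Or.inl (by omega)) hb

end Pool.Agent.H2.OI
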