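import Mathlib

open MvPolynomial

namespace Pool.Agent.H2.OI

/-- The morphisms `[m] → [n]`: injective maps for FI (`fi = true`), strictly increasing maps for
OI (`fi = false`). -/
def Adm (fi : Bool) {m n : ℕ} (ε : Fin m → Fin n) : Prop :=
  if fi = true then Function.Injective ε else StrictMono ε

/-- An OI-module (`fi = false`) or FI-module (`fi = true`) over the polynomial algebra
`P n = K[x_1, …, x_n]` (the case `c = 1`): a functor to `K`-vector spaces whose values are
`P n`-modules, the maps being semilinear over `x_j ↦ x_{ε j}`. -/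
structure Mod (K : Type) [Field K] (fi : Bool) where
  obj : ℕ → Type
  [acg : ∀ n, AddCommGroup (obj n)]
  [modK : ∀ n, Module K (obj n)]
  [modP : ∀ n, Module (MvPolynomial (Fin n) K) (obj n)]
  [tower : ∀ n, IsScalarTower K (MvPolynomial (Fin n) K) (obj n)]
  map : ∀ {m n : ℕ} (ε : Fin m → Fin n), Adm fi ε → obj m →ₗ[K] obj n
  map_id : ∀ (n : ℕ) (h : Adm fi (id : Fin n → Fin n)) (u : obj n), map id h u = u
  map_comp : ∀ {l m n : ℕ} (ε : Fin l → Fin m) (δ : Fin m → Fin n) (hε : Adm fi ε)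
    (hδ : Adm fi δ) (h : Adm fi (δ ∘ ε)) (u : obj l), map (δ ∘ ε) h u = map δ hδ (map ε hε u)
  map_smul : ∀ {m n : ℕ} (ε : Fin m → Fin n) (h : Adm fi ε) (p : MvPolynomial (Fin m) K)
    (u : obj m), map ε h (p • u) = rename ε p • map ε h u

attribute [instance] Mod.acg Mod.modK Mod.modP Mod.tower

variable {K : Type} [Field K] {fi : Bool}

/-- Finitely generated: some finite subset of the disjoint union of the `M n` lies in no proper
submodule (a family of `P n`-submodules stable under all the maps). -/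
def Mod.FG (M : Mod K fi) : Prop :=
  ∃ s : Set (Σ n, M.obj n), s.Finite ∧
    ∀ N : ∀ n, Submodule (MvPolynomial (Fin n) K) (M.obj n),
      (∀ {m n : ℕ} (ε : Fin m → Fin n) (h : Adm fi ε), ∀ u ∈ N m, M.map ε h u ∈ N n) →
      (∀ q ∈ s, q.2 ∈ N q.1) → ∀ n, N n = ⊤

/-- A grading of `M`: every `M n` is the direct sum of the subspaces `G n d`, the variables raise
the degree by one and the maps preserve the degree. -/
structure Mod.IsGrading (M : Mod K fi) (G : ∀ n, ℤ → Submodule K (M.obj n)) : Prop where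
  internal : ∀ n, DirectSum.IsInternal (G n)
  X_smul : ∀ (n : ℕ) (i : Fin n) (d : ℤ), ∀ u ∈ G n d,
    (X i : MvPolynomial (Fin n) K) • u ∈ G n (d + 1)
  map_mem : ∀ {m n : ℕ} (ε : Fin m → Fin n) (h : Adm fi ε) (d : ℤ), ∀ u ∈ G m d,
    M.map ε h u ∈ G n d

/-- Finitely generated as a graded module: finitely many homogeneous elements whose images under
the maps generate every `M n` as a `P n`-module. -/
def Mod.GrFG (M : Mod K fi) (G : ∀ n, ℤ → Submodule K (M.obj n)) : Prop :=
  ∃ s : Set (Σ n, M.obj n), s.Finite ∧ (∀ q ∈ s, ∃ d, q.2 ∈ G q.1 d) ∧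
    ∀ n, Submodule.span (MvPolynomial (Fin n) K)
      {u : M.obj n | ∃ q ∈ s, ∃ (ε : Fin q.1 → Fin n) (h : Adm fi ε), u = M.map ε h q.2} = ⊤

section koszul
variable {n : ℕ} {N : Type} [AddCommGroup N] [Module K N] [Module (MvPolynomial (Fin n) K) N]

/-- The Koszul differential of the variables `x_1, …, x_n` with coefficients in `N`: the family
`f` stands for the sum of the `f I ⊗ e_I`. -/
noncomputable def kos (K : Type) [Field K] [Module (MvPolynomial (Fin n) K) N]
    (f : Finset (Fin n) → N) (J : Finset (Fin n)) : N :=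
  ∑ b ∈ Jᶜ, ((-1 : MvPolynomial (Fin n) K) ^ (J.filter (fun c => c < b)).card * X b) •
    f (insert b J)

/-- `f` is a Koszul chain of homological degree `i` and internal degree `j`. -/
def IsChain (G : ℤ → Submodule K N) (i : ℕ) (j : ℤ) (f : Finset (Fin n) → N) : Prop :=
  ∀ I : Finset (Fin n), f I ∈ G (j - i) ∧ (I.card ≠ i → f I = 0)

/-- The graded Betti number `β_{i,j}(N) = dim H_i(x_1, …, x_n; N)_j = dim Tor_i(K, N)_j` is not
zero: some Koszul cycle of bidegree `(i, j)` is not a boundary. -/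
def BettiNe (n : ℕ) [Module (MvPolynomial (Fin n) K) N] (G : ℤ → Submodule K N) (i : ℕ) (j : ℤ) :
    Prop :=
  ∃ f : Finset (Fin n) → N, IsChain G i j f ∧ kos K f = 0 ∧
    ¬ ∃ g : Finset (Fin n) → N, IsChain G (i + 1) j g ∧ kos K g = f

/-- The Castelnuovo-Mumford regularity `max {j - i : β_{i,j} ≠ 0}` equals `r`. -/
def IsReg (n : ℕ) [Module (MvPolynomial (Fin n) K) N] (G : ℤ → Submodule K N) (r : ℤ) : Prop :=
  IsGreatest {e : ℤ | ∃ (i : ℕ) (j : ℤ), BettiNe n G i j ∧ e = j - i} r

end koszul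

end Pool.Agent.H2.OI
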