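import Mathlib

namespace Pool.Agent.H2.OM

variable {E : Type}

/-- composition of sign vectors -/
def comp (X Y : E → SignType) : E → SignType := fun e => if X e ≠ 0 then X e else Y e

/-- The covector axioms of an oriented matroid on `E`. -/
structure IsOM (L : Set (E → SignType)) : Prop where
  zero : (0 : E → SignType) ∈ L
  neg : ∀ X ∈ L, -X ∈ L
  comp_mem : ∀ X ∈ L, ∀ Y ∈ L, comp X Y ∈ L
  elim : ∀ X ∈ L, ∀ Y ∈ L, ∀ e, X e = -Y e → X e ≠ 0 →
    ∃ Z ∈ L, Z e = 0 ∧ ∀ f, ¬ (X f = -Y f ∧ X f ≠ 0) → Z f = comp X Y f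

theorem isOM_of_submodule [Finite E] (V : Submodule ℝ (E → ℝ)) :
    IsOM {X | ∃ y ∈ V, X = fun e => SignType.sign (y e)} := by
  refine ⟨⟨0, V.zero_mem, by ext e; simp⟩, ?_, ?_, ?_⟩
  · rintro X ⟨y, hy, rfl⟩
    exact ⟨-y, V.neg_mem hy, by ext e; simp [Left.sign_neg]⟩
  · rintro X ⟨x, hx, rfl⟩ Y ⟨y, hy, rfl⟩
    have key : ∀ f, ∀ᶠ ε in nhdsWithin (0 : ℝ) (Set.Ioi 0), SignType.sign (x f + ε * y f) =
        comp (fun e => SignType.sign (x e)) (fun e => SignType.sign (y e)) f := by
      intro f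
      have hc : Filter.Tendsto (fun ε : ℝ => x f + ε * y f) (nhdsWithin 0 (Set.Ioi 0))
          (nhds (x f)) := by
        have : Continuous (fun ε : ℝ => x f + ε * y f) := by fun_prop
        have h := this.tendsto 0
        simp only [zero_mul, add_zero] at h
        exact h.mono_left nhdsWithin_le_nhds
      rcases lt_trichotomy (x f) 0 with h | h | h
      · filter_upwards [hc.eventually (gt_mem_nhds h)] with ε hε
        simp [comp, sign_neg hε, sign_neg h]
      · filter_upwards [self_mem_nhdsWithin] with ε hε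
        have : (0 : ℝ) < ε := hε
        simp [comp, h, sign_mul, sign_pos this]
      · filter_upwards [hc.eventually (lt_mem_nhds h)] with ε hε
        simp [comp, sign_pos hε, sign_pos h]
    obtain ⟨ε, hε⟩ := (Filter.eventually_all.2 key).exists
    exact ⟨x + ε • y, V.add_mem hx (V.smul_mem _ hy), by ext f; simp [← hε f]⟩
  · rintro X ⟨x, hx, rfl⟩ Y ⟨y, hy, rfl⟩ e h1 h2
    simp only at h1 h2
    have hx0 : x e ≠ 0 := by simpa using h2
    have hy0 : y e ≠ 0 := by
      intro h; rw [h] at h1; simp at h1; exact hx0 h1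
    have ha : 0 < |y e| := abs_pos.2 hy0
    have hb : 0 < |x e| := abs_pos.2 hx0
    refine ⟨_, ⟨|y e| • x + |x e| • y, V.add_mem (V.smul_mem _ hx) (V.smul_mem _ hy), rfl⟩, ?_, ?_⟩
    · simp only [Pi.add_apply, Pi.smul_apply, smul_eq_mul, sign_eq_zero_iff]
      rcases lt_or_gt_of_ne hx0 with h | h <;> rcases lt_or_gt_of_ne hy0 with h' | h'
      · rw [sign_neg h, sign_neg h'] at h1; exact absurd h1 (by decide)
      · rw [abs_of_neg h, abs_of_pos h']; ring
      · rw [abs_of_pos h, abs_of_neg h']; ring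
      · rw [sign_pos h, sign_pos h'] at h1; exact absurd h1 (by decide)
    · intro f hf
      simp only [Pi.add_apply, Pi.smul_apply, smul_eq_mul, comp] at hf ⊢
      rcases lt_trichotomy (x f) 0 with h | h | h <;> rcases lt_trichotomy (y f) 0 with h' | h' | h'
      · rw [sign_neg h, sign_neg (by nlinarith)]; simp
      · rw [sign_neg h, h', sign_neg (by nlinarith)]; simp
      · rw [sign_neg h, sign_pos h'] at hf; exact absurd ⟨by decide, by decide⟩ hf
      · rw [h, sign_neg h', sign_neg (by nlinarith)]; simp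
      · simp [h, h']
      · rw [h, sign_pos h', sign_pos (by nlinarith)]; simp
      · rw [sign_pos h, sign_neg h'] at hf; exact absurd ⟨by decide, by decide⟩ hf
      · rw [sign_pos h, h', sign_pos (by nlinarith)]; simp
      · rw [sign_pos h, sign_pos (by nlinarith)]; simp

end Pool.Agent.H2.OM
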