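import Mathlib

/-! omega-primality in submonoids of `ℕ`: definition and reduction to bullets. -/

namespace Pool.Agent.H2.Om

/-- `x ∣_Γ y`: `y - x ∈ Γ` -/
def Dv (Γ : AddSubmonoid ℕ) (x y : ℕ) : Prop := ∃ g ∈ Γ, y = x + g

/-- the defining property of `ω(x) ≤ N`: whenever `a_1, …, a_r ∈ Γ` and `x ∣_Γ a_1 + ⋯ + a_r`,
some `T` with `|T| ≤ N` has `x ∣_Γ ∑_{j ∈ T} a_j` -/
def OmP (Γ : AddSubmonoid ℕ) (x N : ℕ) : Prop :=
  ∀ (r : ℕ) (a : Fin r → ℕ), (∀ i, a i ∈ Γ) → Dv Γ x (∑ i, a i) →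
    ∃ T : Finset (Fin r), T.card ≤ N ∧ Dv Γ x (∑ i ∈ T, a i)

def OmM (Γ : AddSubmonoid ℕ) (G : Set ℕ) (x N : ℕ) : Prop :=
  ∀ s : Multiset ℕ, (∀ a ∈ s, a ∈ G) → Dv Γ x s.sum → ∃ t ≤ s, t.card ≤ N ∧ Dv Γ x t.sum

lemma Dv.trans {Γ : AddSubmonoid ℕ} {x y z : ℕ} (h : Dv Γ x y) (h' : Dv Γ y z) : Dv Γ x z := by
  obtain ⟨g, hg, rfl⟩ := h
  obtain ⟨g', hg', rfl⟩ := h'
  exact ⟨g + g', add_mem hg hg', add_assoc _ _ _⟩

lemma exists_le_map {ι : Type} (a : ι → ℕ) (t : Multiset ℕ) :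
    ∀ u : Multiset ι, t ≤ u.map a → ∃ v ≤ u, v.map a = t := by
  classical
  induction t using Multiset.induction_on with
  | empty => exact fun u _ => ⟨0, zero_le, rfl⟩
  | cons b t ih =>
    intro u hu
    obtain ⟨i, hi, rfl⟩ := Multiset.mem_map.mp (Multiset.mem_of_le hu (Multiset.mem_cons_self _ _))
    obtain ⟨u', rfl⟩ := Multiset.exists_cons_of_mem hi
    rw [Multiset.map_cons, Multiset.cons_le_cons_iff] at hu
    obtain ⟨v, hv, rfl⟩ := ih u' hu
    exact ⟨i ::ₘ v, Multiset.cons_le_cons _ hv, Multiset.map_cons _ _ _⟩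

lemma omP_iff_omM (Γ : AddSubmonoid ℕ) (x N : ℕ) : OmP Γ x N ↔ OmM Γ Γ x N := by
  constructor
  · intro h s hs hx
    induction s using Quotient.inductionOn with
    | _ l =>
    have e : (Finset.univ.val.map l.get : Multiset ℕ) = (l : Multiset ℕ) := by
      rw [Fin.univ_val_map, List.ofFn_get]
    obtain ⟨T, hT, hd⟩ := h l.length l.get (fun i => hs _ (List.get_mem l i))
      (by rw [Finset.sum, e]; exact hx)
    refine ⟨T.val.map l.get, ?_, by simpa using hT, hd⟩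
    exact (Multiset.map_le_map (Finset.val_le_iff.mpr (Finset.subset_univ T))).trans e.le
  · intro h r a ha hx
    obtain ⟨t, ht, hc, hd⟩ := h (Finset.univ.val.map a) (fun b hb => by
      obtain ⟨i, -, rfl⟩ := Multiset.mem_map.mp hb; exact ha i) hx
    obtain ⟨v, hv, rfl⟩ := exists_le_map a t _ ht
    exact ⟨⟨v, Multiset.nodup_of_le hv Finset.univ.nodup⟩, by simpa using hc, hd⟩

lemma sum_mem {G : Set ℕ} {s : Multiset ℕ} (hs : ∀ a ∈ s, a ∈ G) :
    s.sum ∈ AddSubmonoid.closure G :=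
  AddSubmonoid.multiset_sum_mem _ _ fun a ha => AddSubmonoid.subset_closure (hs a ha)

lemma dv_of_le {G : Set ℕ} {s t : Multiset ℕ} (hs : ∀ a ∈ s, a ∈ G) (h : t ≤ s) :
    Dv (AddSubmonoid.closure G) t.sum s.sum := by
  obtain ⟨u, rfl⟩ := Multiset.le_iff_exists_add.mp h
  exact ⟨u.sum, sum_mem fun a ha => hs a (by simp [ha]), Multiset.sum_add _ _⟩

lemma refine_atoms (G : Set ℕ) (s : Multiset ℕ) (hs : ∀ a ∈ s, a ∈ AddSubmonoid.closure G) :
    ∃ u : Multiset ℕ, (∀ a ∈ u, a ∈ G) ∧ u.sum = s.sum ∧ ∀ v ≤ u, ∃ t ≤ s, t.card ≤ v.card ∧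
      Dv (AddSubmonoid.closure G) v.sum t.sum := by
  induction s using Multiset.induction_on with
  | empty =>
    refine ⟨0, by simp, rfl, fun v hv => ⟨0, le_rfl, by simp, ?_⟩⟩
    rw [le_zero_iff.mp hv]
    exact ⟨0, zero_mem _, rfl⟩
  | cons b s ih =>
    obtain ⟨u, hu, e, H⟩ := ih fun a ha => hs a (Multiset.mem_cons_of_mem ha)
    obtain ⟨w, hw, ew⟩ := AddSubmonoid.exists_multiset_of_mem_closure
      (hs b (Multiset.mem_cons_self _ _))
    refine ⟨w + u, fun a ha => (Multiset.mem_add.mp ha).elim (hw a) (hu a), by simp [e, ew],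
      fun v hv => ?_⟩
    by_cases h : v ≤ u
    · obtain ⟨t, ht, hc, hd⟩ := H v h
      exact ⟨t, ht.trans (Multiset.le_cons_self _ _), hc, hd⟩
    · obtain ⟨t, ht, hc, g, hg, hd⟩ := H (v ∩ u) Multiset.inter_le_right
      have h1 : v - u ≤ w := Multiset.sub_le_iff_le_add.mpr hv
      have h2 : v - u + v ∩ u = v := Multiset.sub_add_inter v u
      have h3 : v - u ≠ 0 := fun h0 => h (tsub_eq_zero_iff_le.mp h0)
      have h4 : 0 < (v - u).card := Multiset.card_pos.mpr h3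
      have h5 := congrArg Multiset.card h2
      rw [Multiset.card_add] at h5
      obtain ⟨g', hg', e'⟩ := dv_of_le hw h1
      refine ⟨b ::ₘ t, Multiset.cons_le_cons _ ht, by simp; omega, g + g', add_mem hg hg', ?_⟩
      have h6 := congrArg Multiset.sum h2
      rw [Multiset.sum_add] at h6
      rw [Multiset.sum_cons]
      omega

/-- a bullet: a minimal multiset of generators whose sum is divisible by `x` -/
def Bullet (G : Set ℕ) (x : ℕ) (s : Multiset ℕ) : Prop :=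
  (∀ a ∈ s, a ∈ G) ∧ Dv (AddSubmonoid.closure G) x s.sum ∧
    ∀ a ∈ s, ∀ R, s.sum = R + a → ¬ Dv (AddSubmonoid.closure G) x R

theorem omP_iff (G : Set ℕ) (x N : ℕ) :
    OmP (AddSubmonoid.closure G) x N ↔ ∀ s, Bullet G x s → s.card ≤ N := by
  rw [omP_iff_omM]
  constructor
  · rintro h s ⟨h1, h2, h3⟩
    obtain ⟨t, ht, hc, hd⟩ := h s (fun a ha => AddSubmonoid.subset_closure (h1 a ha)) h2
    rcases ht.eq_or_lt with rfl | hlt
    · exact hc
    · obtain ⟨a, ha⟩ := Multiset.lt_iff_cons_le.mp hlt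
      have has : a ∈ s := Multiset.mem_of_le ha (Multiset.mem_cons_self _ _)
      obtain ⟨s', rfl⟩ := Multiset.exists_cons_of_mem has
      rw [Multiset.cons_le_cons_iff] at ha
      refine absurd (hd.trans (dv_of_le (fun b hb => h1 b (Multiset.mem_cons_of_mem hb)) ha))
        (h3 a has _ ?_)
      rw [Multiset.sum_cons, add_comm]
  · intro h
    have key : OmM (AddSubmonoid.closure G) G x N := by
      intro s
      induction s using Multiset.strongInductionOn with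
      | _ s ih =>
      intro hs hx
      by_cases hb : Bullet G x s
      · exact ⟨s, le_rfl, h s hb, hx⟩
      · simp only [Bullet, not_and, not_forall, not_not] at hb
        obtain ⟨a, ha, R, hR, hd⟩ := hb hs hx
        obtain ⟨s', rfl⟩ := Multiset.exists_cons_of_mem ha
        rw [Multiset.sum_cons] at hR
        obtain ⟨t, ht, hc, hd'⟩ := ih s' (Multiset.lt_cons_self _ _)
          (fun b hb => hs b (Multiset.mem_cons_of_mem hb)) (by rwa [show s'.sum = R by omega])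
        exact ⟨t, ht.trans (Multiset.le_cons_self _ _), hc, hd'⟩
    intro s hs hx
    obtain ⟨u, hu, e, H⟩ := refine_atoms G s hs
    obtain ⟨v, hv, hc, hd⟩ := key u hu (e ▸ hx)
    obtain ⟨t, ht, hc', hd'⟩ := H v hv
    exact ⟨t, ht, hc'.trans hc, hd.trans hd'⟩

end Pool.Agent.H2.Om
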