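import Mathlib

set_option maxHeartbeats 400000

namespace Pool.Agent.H2.Orb

open MvPolynomial

abbrev P := MvPolynomial (Fin 4) ℝ
abbrev Mo := Fin 4 →₀ ℕ

noncomputable def lap : P →ₗ[ℝ] P :=
  ∑ i : Fin 4, (pderiv i).toLinearMap ∘ₗ (pderiv i).toLinearMap

noncomputable def sp (e : Fin 4 → ℤ) (π : Equiv.Perm (Fin 4)) : P →ₐ[ℝ] P :=
  aeval fun i => C (e i : ℝ) * X (π i)

theorem sp_monomial (e : Fin 4 → ℤ) (π : Equiv.Perm (Fin 4)) (u : Mo) (a : ℝ) :
    sp e π (monomial u a) = monomial (u.equivMapDomain π) ((∏ i, (e i : ℝ) ^ u i) * a) := by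
  rw [sp, aeval_monomial, monomial_eq, Finsupp.prod_fintype _ _ (by simp),
    Finsupp.prod_fintype _ _ (by simp), ← Equiv.prod_comp π (fun i => X i ^ u.equivMapDomain π i)]
  simp only [mul_pow, Finset.prod_mul_distrib, algebraMap_eq, ← C_pow, ← map_prod, map_mul,
    Finsupp.equivMapDomain_apply, Equiv.symm_apply_apply]
  ring

theorem coeff_sp (e : Fin 4 → ℤ) (π : Equiv.Perm (Fin 4)) (p : P) (m : Mo) :
    coeff (m.equivMapDomain π) (sp e π p) = (∏ i, (e i : ℝ) ^ m i) * coeff m p := by
  classical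
  induction p using MvPolynomial.induction_on' with
  | monomial u a =>
    rw [sp_monomial, coeff_monomial, coeff_monomial]
    by_cases h : u = m
    · simp [h]
    · rw [if_neg h, if_neg, mul_zero]
      exact fun h' => h ((Finsupp.equivCongrLeft π).injective h')
  | add p q hp hq => rw [map_add, coeff_add, coeff_add, hp, hq, mul_add]

theorem pd_sp (e : Fin 4 → ℤ) (π : Equiv.Perm (Fin 4)) (i : Fin 4) (p : P) :
    pderiv (π i) (sp e π p) = (e i : ℝ) • sp e π (pderiv i p) := by
  classical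
  induction p using MvPolynomial.induction_on with
  | C a => simp [sp]
  | add p q hp hq => simp only [map_add, hp, hq, smul_add]
  | mul_X p j hp =>
    have hX : sp e π (X j) = C (e j : ℝ) * X (π j) := by simp [sp]
    simp only [map_mul, Derivation.leibniz, hp, hX, map_add, smul_eq_mul, pderiv_X, pderiv_C,
      Pi.single_apply, EmbeddingLike.apply_eq_iff_eq, smul_eq_C_mul]
    split_ifs with h
    · subst h; simp; ring
    · simp; ring

theorem lap_sp (e : Fin 4 → ℤ) (he : ∀ i, e i * e i = 1) (π : Equiv.Perm (Fin 4)) (p : P) :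
    lap (sp e π p) = sp e π (lap p) := by
  rw [lap, LinearMap.sum_apply, LinearMap.sum_apply, map_sum, ← Equiv.sum_comp π]
  refine Finset.sum_congr rfl fun i _ => ?_
  have : (e i : ℝ) * e i = 1 := by exact_mod_cast he i
  simp only [LinearMap.comp_apply, Derivation.coeFn_coe, pd_sp, Derivation.map_smul, smul_smul, this,
    one_smul]

def S (Q : Mo → Prop) (k : ℕ) : Set Mo := {m | m 0 + m 1 + m 2 + m 3 = k ∧ Q m}

theorem lap_monomial (u : Mo) (a : ℝ) : lap (monomial u a) =
    ∑ j, monomial (u - Finsupp.single j 2) (a * u j * (u j - 1 : ℕ)) := by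
  rw [lap, LinearMap.sum_apply]
  refine Finset.sum_congr rfl fun j _ => ?_
  simp only [LinearMap.comp_apply, Derivation.coeFn_coe, pderiv_monomial]
  rw [tsub_tsub, ← Finsupp.single_add]
  simp

theorem mono_mem {T : Set Mo} {m : Mo} (h : m ∈ T) (a : ℝ) :
    monomial m a ∈ restrictSupport ℝ T := by
  classical
  rw [mem_restrictSupport_iff]
  intro x hx
  have := support_monomial_subset hx
  rw [Finset.mem_singleton] at this
  rwa [this]

theorem le_of_mono {T : Set Mo} {R : Submodule ℝ P}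
    (h : ∀ m ∈ T, ∀ a, monomial m a ∈ R) : restrictSupport ℝ T ≤ R := by
  intro p hp
  rw [mem_restrictSupport_iff] at hp
  rw [p.as_sum]
  exact R.sum_mem fun m hm => h m (hp hm) _

theorem sub_add (u : Mo) (j : Fin 4) (h : 2 ≤ u j) :
    u - Finsupp.single j 2 + Finsupp.single j 2 = u :=
  tsub_add_cancel_of_le (Finsupp.single_le_iff.2 h)

theorem S_add {Q : Mo → Prop} (hQ : ∀ m j, Q (m + Finsupp.single j 2) ↔ Q m) (k : ℕ) (m : Mo)
    (j : Fin 4) : m + Finsupp.single j 2 ∈ S Q (k + 2) ↔ m ∈ S Q k := by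
  simp only [S, Set.mem_setOf_eq, hQ]
  refine and_congr ?_ Iff.rfl
  fin_cases j <;> simp <;> omega

theorem zero_term (u : Mo) (j : Fin 4) (h : ¬ 2 ≤ u j) (a : ℝ) (w : Mo) :
    (monomial w (a * u j * (u j - 1 : ℕ)) : P) = 0 := by
  have : u j = 0 ∨ u j = 1 := by omega
  rcases this with h | h <;> simp [h]

theorem map_lap {Q : Mo → Prop} (hQ : ∀ m j, Q (m + Finsupp.single j 2) ↔ Q m) (k : ℕ) :
    (restrictSupport ℝ (S Q (k + 2))).map lap = restrictSupport ℝ (S Q k) := by
  classical
  apply le_antisymm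
  · rw [Submodule.map_le_iff_le_comap]
    refine le_of_mono fun u hu a => ?_
    rw [Submodule.mem_comap, lap_monomial]
    refine Submodule.sum_mem _ fun j _ => ?_
    by_cases h1 : 2 ≤ u j
    · exact mono_mem ((S_add hQ k _ j).1 (by rwa [sub_add u j h1])) _
    · rw [zero_term u j h1]; exact Submodule.zero_mem _
  · refine le_of_mono fun m hm => ?_
    generalize hd : k - m 0 = d
    induction d using Nat.strong_induction_on generalizing m with
    | _ d ih =>
      intro a
      set u := m + Finsupp.single 0 2 with hu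
      have hu1 : u 0 = m 0 + 2 := by simp [hu]
      have huS : u ∈ S Q (k + 2) := (S_add hQ k m 0).2 hm
      have c1 : ((u 0 : ℕ) : ℝ) ≠ 0 := Nat.cast_ne_zero.2 (by omega)
      have c2 : ((u 0 - 1 : ℕ) : ℝ) ≠ 0 := Nat.cast_ne_zero.2 (by omega)
      have h1 := Submodule.mem_map_of_mem (f := lap) (mono_mem huS (a / u 0 / (u 0 - 1 : ℕ)))
      rw [lap_monomial, Fin.sum_univ_succ] at h1
      have e0 : u - Finsupp.single 0 2 = m := by rw [hu, add_tsub_cancel_right]
      have e1 : a / u 0 / (u 0 - 1 : ℕ) * u 0 * (u 0 - 1 : ℕ) = a := by field_simp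
      rw [e0, e1] at h1
      refine (Submodule.add_mem_iff_left _ (Submodule.sum_mem _ fun j _ => ?_)).1 h1
      by_cases g1 : 2 ≤ u j.succ
      swap
      · rw [zero_term u _ g1]; exact Submodule.zero_mem _
      have hS := (S_add hQ k _ j.succ).1 (by rw [sub_add u j.succ g1]; exact huS)
      have hv : (u - Finsupp.single j.succ 2 : Mo) 0 = m 0 + 2 := by
        rw [← hu1]
        simp [Finsupp.single_apply, Fin.succ_ne_zero]
      have hle := hS.1
      rw [hv] at hle
      exact ih _ (by rw [hv]; omega) _ hS rfl _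

theorem map_lap_small (Q : Mo → Prop) (k : ℕ) (hk : k < 2) :
    (restrictSupport ℝ (S Q k)).map lap = ⊥ := by
  rw [eq_bot_iff, Submodule.map_le_iff_le_comap]
  refine le_of_mono fun u hu a => ?_
  rw [Submodule.mem_comap, lap_monomial]
  refine Submodule.sum_mem _ fun j _ => ?_
  rw [zero_term u j]
  · exact Submodule.zero_mem _
  · have := hu.1
    fin_cases j <;> simp <;> omega

instance S_finite (Q : Mo → Prop) (k : ℕ) : Finite (S Q k) := by
  refine ((Finsupp.finite_of_degree_le k).subset fun m hm => ?_).to_subtype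
  have := hm.1
  simp only [Set.mem_setOf_eq, Finsupp.degree_eq_sum, Fin.sum_univ_four]
  omega

instance RS_fin (Q : Mo → Prop) (k : ℕ) : Module.Finite ℝ (restrictSupport ℝ (S Q k)) :=
  Module.Finite.of_basis (basisRestrictSupport ℝ (S Q k))

theorem rank_harm (V : Submodule ℝ P) [Module.Finite ℝ V] :
    Module.finrank ℝ (V.map lap) + Module.finrank ℝ ↥(V ⊓ LinearMap.ker lap) =
      Module.finrank ℝ V := by
  rw [← LinearMap.finrank_range_add_finrank_ker (lap.domRestrict V),
    LinearMap.range_domRestrict, LinearMap.ker_domRestrict,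
    ← Submodule.finrank_map_subtype_eq, Submodule.map_comap_subtype]

theorem harm_eq (V V' : ℕ → Submodule ℝ P) [∀ k, Module.Finite ℝ (V k)]
    [∀ k, Module.Finite ℝ (V' k)] (h1 : ∀ k, (V (k + 2)).map lap = V k)
    (h1' : ∀ k, (V' (k + 2)).map lap = V' k) (h2 : ∀ k < 2, (V k).map lap = ⊥)
    (h2' : ∀ k < 2, (V' k).map lap = ⊥)
    (h : ∀ k, Module.finrank ℝ (V k) = Module.finrank ℝ (V' k)) (k : ℕ) :
    Module.finrank ℝ ↥(V k ⊓ LinearMap.ker lap) = Module.finrank ℝ ↥(V' k ⊓ LinearMap.ker lap) := by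
  have a := rank_harm (V k)
  have b := rank_harm (V' k)
  by_cases hk : k < 2
  · rw [h2 k hk] at a
    rw [h2' k hk] at b
    have := h k
    omega
  · obtain ⟨j, rfl⟩ : ∃ j, k = j + 2 := ⟨k - 2, by omega⟩
    rw [h1] at a
    rw [h1'] at b
    have := h (j + 2)
    have := h j
    omega

end Pool.Agent.H2.Orb
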