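import Pool.Agent.H2.Orb1

set_option maxHeartbeats 400000

namespace Pool.Agent.H2.Orb

open MvPolynomial

def QT (m : Mo) : Prop := (m 0 + m 1) % 2 = 0 ∧ (m 2 + m 3) % 2 = 0
def QP (m : Mo) : Prop := m 0 % 2 = m 1 % 2 ∧ m 0 % 2 = m 2 % 2 ∧ m 0 % 2 = m 3 % 2
def QU (m : Mo) : Prop := QT m ∧ (m 3 < m 2 ∨ (m 2 = m 3 ∧ m 3 % 2 = 0))

theorem hQT : ∀ m j, QT (m + Finsupp.single j 2) ↔ QT m := by
  intro m j
  fin_cases j <;> simp [QT] <;> omega

theorem hQP : ∀ m j, QP (m + Finsupp.single j 2) ↔ QP m := by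
  intro m j
  fin_cases j <;> simp [QP]

def τ : Equiv.Perm (Fin 4) := Equiv.swap 2 3
def eρ : Fin 4 → ℤ := ![1, 1, 1, -1]
noncomputable abbrev ρ : P →ₐ[ℝ] P := sp eρ τ
noncomputable abbrev sw (m : Mo) : Mo := m.equivMapDomain τ

theorem sw0 (m : Mo) : sw m 0 = m 0 := rfl
theorem sw1 (m : Mo) : sw m 1 = m 1 := rfl
theorem sw2 (m : Mo) : sw m 2 = m 3 := rfl
theorem sw3 (m : Mo) : sw m 3 = m 2 := rfl
theorem sw_sw (m : Mo) : sw (sw m) = m := by
  ext i; fin_cases i <;> rfl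

theorem coeff_rho (p : P) (m : Mo) : coeff m (ρ p) = (-1) ^ m 2 * coeff (sw m) p := by
  have := coeff_sp eρ τ p (sw m)
  rw [show (sw m).equivMapDomain τ = m from sw_sw m] at this
  rw [this, Fin.prod_univ_four, sw3]
  simp [eρ]

theorem sw_S {k : ℕ} {m : Mo} : sw m ∈ S QT k ↔ m ∈ S QT k := by
  simp only [S, QT, Set.mem_setOf_eq, sw0, sw1, sw2, sw3]
  omega

theorem mem_RS {T : Set Mo} {p : P} : p ∈ restrictSupport ℝ T ↔ ∀ m, m ∉ T → coeff m p = 0 := by
  rw [mem_restrictSupport_iff]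
  exact ⟨fun h m hm => by_contra fun h' => hm (h (mem_support_iff.2 h')),
    fun h m hm => by_contra fun h' => mem_support_iff.1 hm (h m h')⟩

theorem rho_mem {k : ℕ} {p : P} (hp : p ∈ restrictSupport ℝ (S QT k)) :
    ρ p ∈ restrictSupport ℝ (S QT k) :=
  mem_RS.2 fun m hm => by rw [coeff_rho, mem_RS.1 hp _ (mt sw_S.1 hm), mul_zero]

theorem rho_rho {k : ℕ} {p : P} (hp : p ∈ restrictSupport ℝ (S QT k)) : ρ (ρ p) = p := by
  ext m
  rw [coeff_rho, coeff_rho, sw_sw, sw2, ← mul_assoc, ← pow_add]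
  by_cases hm : m ∈ S QT k
  · rw [Even.neg_one_pow (Nat.even_iff.2 hm.2.2), one_mul]
  · rw [mem_RS.1 hp m hm, mul_zero]

noncomputable def V1 (k : ℕ) : Submodule ℝ P :=
  restrictSupport ℝ (S QT k) ⊓ LinearMap.eqLocus ρ.toLinearMap LinearMap.id

theorem mem_V1 {k : ℕ} {p : P} : p ∈ V1 k ↔ p ∈ restrictSupport ℝ (S QT k) ∧ ρ p = p := Iff.rfl

instance (k : ℕ) : Module.Finite ℝ (V1 k) := Submodule.finiteDimensional_inf_left _ _

theorem lap_rho (p : P) : lap (ρ p) = ρ (lap p) := lap_sp eρ (by decide) τ p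

theorem V1_map (k : ℕ) : (V1 (k + 2)).map lap = V1 k := by
  apply le_antisymm
  · rintro _ ⟨q, hq, rfl⟩
    have hq' := mem_V1.1 hq
    refine mem_V1.2 ⟨?_, by rw [← lap_rho, hq'.2]⟩
    rw [← map_lap hQT]
    exact Submodule.mem_map_of_mem hq'.1
  · intro p hp
    obtain ⟨h1, h2⟩ := mem_V1.1 hp
    rw [← map_lap hQT] at h1
    obtain ⟨q, hq, rfl⟩ := h1
    refine ⟨(1 / 2 : ℝ) • (q + ρ q), mem_V1.2 ⟨Submodule.smul_mem _ _
      (Submodule.add_mem _ hq (rho_mem hq)), ?_⟩, ?_⟩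
    · rw [map_smul, map_add, rho_rho hq, add_comm]
    · rw [map_smul, map_add, lap_rho, h2, ← two_smul ℝ, smul_smul]; norm_num

theorem V1_small (k : ℕ) (hk : k < 2) : (V1 k).map lap = ⊥ :=
  le_bot_iff.1 ((Submodule.map_mono inf_le_left).trans (map_lap_small QT k hk).le)

theorem V1_rank (k : ℕ) : Module.finrank ℝ (V1 k) = Nat.card (S QU k) := by
  have hsub : restrictSupport ℝ (S QU k) ≤ restrictSupport ℝ (S QT k) := fun p hp =>
    mem_RS.2 fun m hm => mem_RS.1 hp m fun h => hm ⟨h.1, h.2.1⟩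
  apply le_antisymm
  · haveI := Fintype.ofFinite (S QU k)
    let F : V1 k →ₗ[ℝ] (S QU k → ℝ) := LinearMap.pi fun m => (lcoeff ℝ m.1) ∘ₗ (V1 k).subtype
    have hF : Function.Injective F := by
      rw [injective_iff_map_eq_zero]
      rintro ⟨p, hp⟩ h
      obtain ⟨h1, h2⟩ := mem_V1.1 hp
      have h3 : ∀ m ∈ S QU k, coeff m p = 0 := fun m hm => congrFun h ⟨m, hm⟩
      ext m
      show coeff m p = 0
      by_cases hm : m ∈ S QT k
      swap
      · exact mem_RS.1 h1 m hm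
      by_cases hU : m ∈ S QU k
      · exact h3 m hU
      have h4 := coeff_rho p m
      rw [h2] at h4
      by_cases h5 : m 2 < m 3
      · rw [h4, h3 (sw m) ⟨(sw_S.2 hm).1, (sw_S.2 hm).2, Or.inl h5⟩, mul_zero]
      · have h6 : ¬ (m 3 < m 2 ∨ (m 2 = m 3 ∧ m 3 % 2 = 0)) := fun h => hU ⟨hm.1, hm.2, h⟩
        have h7 : sw m = m := by
          ext i; fin_cases i
          · rfl
          · rfl
          · show m 3 = m 2; omega
          · show m 2 = m 3; omega
        rw [h7, Odd.neg_one_pow (Nat.odd_iff.2 (by omega))] at h4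
        linarith
    have := LinearMap.finrank_le_finrank_of_injective hF
    rwa [Module.finrank_fintype_fun_eq_card, ← Nat.card_eq_fintype_card] at this
  · let G : restrictSupport ℝ (S QU k) →ₗ[ℝ] V1 k := LinearMap.codRestrict _
      ((LinearMap.id + ρ.toLinearMap) ∘ₗ (restrictSupport ℝ (S QU k)).subtype) (fun p => by
        have hp := hsub p.2
        refine mem_V1.2 ⟨Submodule.add_mem _ hp (rho_mem hp), ?_⟩
        show ρ (p.1 + ρ p.1) = p.1 + ρ p.1
        rw [map_add, rho_rho hp, add_comm])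
    have hG : Function.Injective G := by
      rw [injective_iff_map_eq_zero]
      rintro ⟨p, hp⟩ h
      have h1 : p + ρ p = 0 := congrArg Subtype.val h
      ext m
      show coeff m p = 0
      by_cases hU : m ∈ S QU k
      swap
      · exact mem_RS.1 hp m hU
      have h4 := congrArg (coeff m) h1
      rw [coeff_add, coeff_rho, coeff_zero] at h4
      rcases hU.2.2 with h5 | h5
      · rw [mem_RS.1 hp (sw m) (fun h => by
          have := h.2.2
          rw [sw2, sw3] at this; omega)] at h4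
        linarith
      · have h7 : sw m = m := by
          ext i; fin_cases i
          · rfl
          · rfl
          · show m 3 = m 2; omega
          · show m 2 = m 3; omega
        rw [h7, Even.neg_one_pow (Nat.even_iff.2 (by omega))] at h4
        linarith
    have := LinearMap.finrank_le_finrank_of_injective hG
    rwa [Module.finrank_eq_nat_card_basis (basisRestrictSupport ℝ _)] at this

noncomputable def mk4 (a b c d : ℕ) : Mo := Finsupp.equivFunOnFinite.symm ![a, b, c, d]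

theorem card_eq (k : ℕ) : Nat.card (S QU k) = Nat.card (S QP k) := by
  refine Nat.card_congr ⟨fun m => ⟨mk4 (m.1 0 - m.1 0 % 2 + m.1 3 % 2) (m.1 1 - m.1 0 % 2 + m.1 3 % 2)
      (m.1 2 - m.1 3 - m.1 3 % 2) (2 * (m.1 3 - m.1 3 % 2) + 2 * (m.1 0 % 2) + m.1 3 % 2), ?_⟩,
    fun n => ⟨mk4 (n.1 0 - n.1 0 % 2 + n.1 3 / 2 % 2) (n.1 1 - n.1 0 % 2 + n.1 3 / 2 % 2)
      (2 * (n.1 3 / 4) + 2 * (n.1 0 % 2) + n.1 2) (2 * (n.1 3 / 4) + n.1 0 % 2), ?_⟩, ?_, ?_⟩
  · obtain ⟨m, h1, ⟨h2, h3⟩, h4⟩ := m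
    simp [S, QP, mk4]
    omega
  · obtain ⟨m, h1, h2, h3, h4⟩ := n
    simp [S, QU, QT, mk4]
    omega
  · rintro ⟨m, h1, ⟨h2, h3⟩, h4⟩
    ext i
    fin_cases i <;> simp [mk4] <;> omega
  · rintro ⟨m, h1, h2, h3, h4⟩
    ext i
    fin_cases i <;> simp [mk4] <;> omega

theorem main_eq (k : ℕ) : Module.finrank ℝ ↥(V1 k ⊓ LinearMap.ker lap) =
    Module.finrank ℝ ↥(restrictSupport ℝ (S QP k) ⊓ LinearMap.ker lap) :=
  harm_eq V1 (fun k => restrictSupport ℝ (S QP k)) V1_map (map_lap hQP) V1_small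
    (map_lap_small QP) (fun k => by
      rw [V1_rank, card_eq, Module.finrank_eq_nat_card_basis (basisRestrictSupport ℝ _)]) k

end Pool.Agent.H2.Orb
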