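import Pool.Agent.H2.Orb2

set_option maxHeartbeats 400000

namespace Pool.Agent.H2.Orb

open MvPolynomial Matrix

abbrev SP := (Fin 4 → ℤ) × Equiv.Perm (Fin 4)

def mk (x : SP) : Matrix (Fin 4) (Fin 4) ℤ := Matrix.of fun i j => if j = x.2 i then x.1 i else 0

def cst (A : Matrix (Fin 4) (Fin 4) ℤ) : Matrix (Fin 4) (Fin 4) ℝ := (Int.castRingHom ℝ).mapMatrix A

def Good (L : List SP) : Prop := (∃ x ∈ L, mk x = 1) ∧
  (∀ x ∈ L, ∀ y ∈ L, ∃ z ∈ L, mk x * mk y = mk z) ∧ (∀ x ∈ L, ∃ z ∈ L, (mk x)ᵀ = mk z) ∧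
  ∀ x ∈ L, mk x * (mk x)ᵀ = 1

theorem cst_T (A : Matrix (Fin 4) (Fin 4) ℤ) : star (cst A) = cst Aᵀ := by
  ext i j; simp [cst]

theorem cst_mul (A B : Matrix (Fin 4) (Fin 4) ℤ) : cst (A * B) = cst A * cst B := map_mul _ _ _

theorem cst_one : cst 1 = 1 := map_one _

def grp (L : List SP) (h : Good L) : Subgroup (Matrix.orthogonalGroup (Fin 4) ℝ) where
  carrier := {g | ∃ x ∈ L, g.1 = cst (mk x)}
  one_mem' := by
    obtain ⟨x, hx, e⟩ := h.1
    exact ⟨x, hx, by rw [e, cst_one]; rfl⟩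
  mul_mem' := by
    rintro a b ⟨x, hx, ea⟩ ⟨y, hy, eb⟩
    obtain ⟨z, hz, e⟩ := h.2.1 x hx y hy
    exact ⟨z, hz, by rw [← e, cst_mul, ← ea, ← eb]; rfl⟩
  inv_mem' := by
    rintro a ⟨x, hx, ea⟩
    obtain ⟨z, hz, e⟩ := h.2.2.1 x hx
    exact ⟨z, hz, by rw [← e, ← cst_T, ← ea]; rfl⟩

def el (L : List SP) (h : Good L) (x : SP) (hx : x ∈ L) : Matrix.orthogonalGroup (Fin 4) ℝ :=
  ⟨cst (mk x), Matrix.mem_unitaryGroup_iff.2 (by rw [cst_T, ← cst_mul, h.2.2.2 x hx, cst_one])⟩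

theorem grp_finite (L : List SP) (h : Good L) : Finite (grp L h) := by
  have h1 : ((fun x => cst (mk x)) '' {x | x ∈ L}).Finite := (List.finite_toSet L).image _
  have h2 := h1.preimage (f := (Subtype.val : Matrix.orthogonalGroup (Fin 4) ℝ → _))
    Subtype.val_injective.injOn
  refine (h2.subset ?_).to_subtype
  rintro g ⟨x, hx, e⟩
  exact ⟨x, hx, e.symm⟩

theorem act_mk (x : SP) : (aeval (fun i : Fin 4 => ∑ j : Fin 4, C (cst (mk x) i j) * X j) :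
    P →ₐ[ℝ] P) = sp x.1 x.2 := by
  rw [sp]
  congr 1
  funext i
  rw [Finset.sum_eq_single (x.2 i)]
  · simp [cst, mk]
  · intro j _ hj; simp [cst, mk, hj]
  · simp

theorem mem_fix (L : List SP) (h : Good L) (p : P) :
    p ∈ (⨅ g ∈ grp L h, LinearMap.ker ((aeval (fun i : Fin 4 =>
      ∑ j : Fin 4, C (g.1 i j) * X j) : P →ₐ[ℝ] P).toLinearMap - LinearMap.id)) ↔
      ∀ x ∈ L, sp x.1 x.2 p = p := by
  simp only [Submodule.mem_iInf, LinearMap.mem_ker, LinearMap.sub_apply, sub_eq_zero,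
    AlgHom.toLinearMap_apply, LinearMap.id_apply]
  constructor
  · intro H x hx
    rw [← act_mk]
    exact H (el L h x hx) ⟨x, hx, rfl⟩
  · rintro H g ⟨x, hx, e⟩
    rw [e, act_mk]
    exact H x hx

theorem fix_diag (e : Fin 4 → ℤ) (p : P) : sp e 1 p = p ↔
    ∀ m, coeff m p ≠ 0 → (e 0 : ℝ) ^ m 0 * e 1 ^ m 1 * e 2 ^ m 2 * e 3 ^ m 3 = 1 := by
  have hc : ∀ m : Mo, coeff m (sp e 1 p) =
      ((e 0 : ℝ) ^ m 0 * e 1 ^ m 1 * e 2 ^ m 2 * e 3 ^ m 3) * coeff m p := by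
    intro m
    have := coeff_sp e 1 p m
    rw [show m.equivMapDomain (1 : Equiv.Perm (Fin 4)) = m from Finsupp.equivMapDomain_refl m,
      Fin.prod_univ_four] at this
    exact this
  constructor
  · intro h m hm
    have := hc m
    rw [h] at this
    exact mul_right_cancel₀ hm (by rw [← this, one_mul])
  · intro h
    ext m
    rw [hc]
    by_cases hm : coeff m p = 0
    · rw [hm, mul_zero]
    · rw [h m hm, one_mul]

theorem hom_iff (k : ℕ) (p : P) : p ∈ homogeneousSubmodule (Fin 4) ℝ k ↔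
    ∀ m, coeff m p ≠ 0 → m 0 + m 1 + m 2 + m 3 = k := by
  have w1 : ∀ m : Mo, Finsupp.weight (1 : Fin 4 → ℕ) m = m 0 + m 1 + m 2 + m 3 := by
    intro m
    rw [Finsupp.weight_apply, Finsupp.sum_fintype _ _ (by simp), Fin.sum_univ_four]
    simp
  rw [mem_homogeneousSubmodule]
  exact ⟨fun h m hm => by rw [← w1]; exact h hm, fun h m hm => by rw [w1]; exact h m hm⟩

theorem mem_S {Q : Mo → Prop} {k : ℕ} {p : P} : p ∈ restrictSupport ℝ (S Q k) ↔
    ∀ m, coeff m p ≠ 0 → m 0 + m 1 + m 2 + m 3 = k ∧ Q m := by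
  rw [mem_RS]
  exact ⟨fun h m hm => by_contra fun h' => hm (h m h'), fun h m hm => by_contra fun h' => hm (h m h')⟩

theorem neg_pow_eq (a b : ℕ) : (-1 : ℝ) ^ a * (-1) ^ b = 1 ↔ (a + b) % 2 = 0 := by
  rw [← pow_add, neg_one_pow_eq_one_iff_even (by norm_num), Nat.even_iff]

def LA : List SP := [(![1, 1, 1, 1], 1), (![-1, -1, 1, 1], 1), (![1, 1, -1, -1], 1),
  (![-1, -1, -1, -1], 1), (![1, 1, 1, -1], τ), (![-1, -1, 1, -1], τ), (![1, 1, -1, 1], τ),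
  (![-1, -1, -1, 1], τ)]

def LB : List SP := [(![1, 1, 1, 1], 1), (![-1, -1, 1, 1], 1), (![1, 1, -1, -1], 1),
  (![-1, -1, -1, -1], 1), (![1, -1, 1, -1], 1), (![-1, 1, 1, -1], 1), (![1, -1, -1, 1], 1),
  (![-1, 1, -1, 1], 1)]

theorem gA : Good LA := by unfold Good; decide +kernel
theorem gB : Good LB := by unfold Good; decide +kernel

theorem pw (a : ℕ) : (-1 : ℝ) ^ a = if a % 2 = 0 then 1 else -1 := by
  rw [neg_one_pow_eq_ite]; simp [Nat.even_iff]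

theorem fixB (k : ℕ) (p : P) : (p ∈ homogeneousSubmodule (Fin 4) ℝ k ∧
    ∀ x ∈ LB, sp x.1 x.2 p = p) ↔ p ∈ restrictSupport ℝ (S QP k) := by
  rw [hom_iff, mem_S]
  constructor
  · rintro ⟨h1, h2⟩ m hm
    have a := (fix_diag _ p).1 (h2 (![-1, -1, 1, 1], 1) (by simp [LB])) m hm
    have b := (fix_diag _ p).1 (h2 (![1, 1, -1, -1], 1) (by simp [LB])) m hm
    have c := (fix_diag _ p).1 (h2 (![1, -1, 1, -1], 1) (by simp [LB])) m hm
    simp [neg_pow_eq] at a b c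
    refine ⟨h1 m hm, ?_⟩
    unfold QP
    omega
  · intro h
    refine ⟨fun m hm => (h m hm).1, fun x hx => ?_⟩
    simp only [LB, List.mem_cons, List.not_mem_nil, or_false] at hx
    rcases hx with rfl | rfl | rfl | rfl | rfl | rfl | rfl | rfl <;>
    · refine (fix_diag _ p).2 fun m hm => ?_
      obtain ⟨a, b, c⟩ := (h m hm).2
      simp [pw, ← a, ← b, ← c]
      try (split_ifs <;> simp)

theorem fixA (k : ℕ) (p : P) : (p ∈ homogeneousSubmodule (Fin 4) ℝ k ∧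
    ∀ x ∈ LA, sp x.1 x.2 p = p) ↔ p ∈ V1 k := by
  rw [hom_iff, mem_V1, mem_S]
  constructor
  · rintro ⟨h1, h2⟩
    refine ⟨fun m hm => ?_, h2 (![1, 1, 1, -1], τ) (by simp [LA])⟩
    have a := (fix_diag _ p).1 (h2 (![-1, -1, 1, 1], 1) (by simp [LA])) m hm
    have b := (fix_diag _ p).1 (h2 (![1, 1, -1, -1], 1) (by simp [LA])) m hm
    simp [neg_pow_eq] at a b
    exact ⟨h1 m hm, a, b⟩
  · rintro ⟨h, hr⟩
    refine ⟨fun m hm => (h m hm).1, fun x hx => ?_⟩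
    have key : ∀ e : Fin 4 → ℤ, (∀ m : Mo, QT m → (∏ i, (e i : ℝ) ^ m i) = ∏ i, (eρ i : ℝ) ^ m i) →
        sp e τ p = p := by
      intro e he
      conv_rhs => rw [← hr]
      ext m
      rw [← sw_sw m, coeff_sp, coeff_sp]
      by_cases hm : coeff (sw m) p = 0
      · rw [hm, mul_zero, mul_zero]
      · rw [he _ (h _ hm).2]
    simp only [LA, List.mem_cons, List.not_mem_nil, or_false] at hx
    rcases hx with rfl | rfl | rfl | rfl | rfl | rfl | rfl | rfl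
    iterate 4
      refine (fix_diag _ p).2 fun m hm => ?_
      obtain ⟨a, b⟩ := (h m hm).2
      have a' : m 1 % 2 = m 0 % 2 := by omega
      have b' : m 3 % 2 = m 2 % 2 := by omega
      simp [pw, a', b']
      try (split_ifs <;> simp)
    iterate 4
      refine key _ fun m hm => ?_
      obtain ⟨a, b⟩ := hm
      have a' : m 1 % 2 = m 0 % 2 := by omega
      have b' : m 3 % 2 = m 2 % 2 := by omega
      simp [Fin.prod_univ_four, eρ, pw, a', b']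
      try (split_ifs <;> simp)

theorem not_conj : ¬ ∃ h : Matrix.orthogonalGroup (Fin 4) ℝ,
    ∀ g, g ∈ grp LA gA ↔ h * g * h⁻¹ ∈ grp LB gB := by
  rintro ⟨h, H⟩
  have hx : ((![1, 1, 1, -1], τ) : SP) ∈ LA := by simp [LA]
  obtain ⟨y, hy, e⟩ := (H (el LA gA _ hx)).1 ⟨_, hx, rfl⟩
  have sq : ∀ y ∈ LB, mk y * mk y = 1 := by decide +kernel
  have h1 : (h * el LA gA _ hx * h⁻¹) * (h * el LA gA _ hx * h⁻¹) = 1 := by
    apply Subtype.ext
    show (h * el LA gA _ hx * h⁻¹).1 * (h * el LA gA _ hx * h⁻¹).1 = 1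
    rw [e, ← cst_mul, sq y hy, cst_one]
  have h2 : el LA gA _ hx * el LA gA _ hx = 1 := by
    have : el LA gA _ hx * el LA gA _ hx =
        h⁻¹ * ((h * el LA gA _ hx * h⁻¹) * (h * el LA gA _ hx * h⁻¹)) * h := by group
    rw [this, h1]; group
  have h3 : cst (mk (![1, 1, 1, -1], τ) * mk (![1, 1, 1, -1], τ)) = 1 := by
    rw [cst_mul]; exact congrArg Subtype.val h2
  have h4 : (mk (![1, 1, 1, -1], τ) * mk (![1, 1, 1, -1], τ)) 2 2 = -1 := by decide +kernel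
  have h5 := congrFun (congrFun h3 2) 2
  simp [cst, h4] at h5
  norm_num at h5

theorem key (L : List SP) (h : Good L) (k : ℕ) (V : Submodule ℝ P)
    (hV : ∀ p : P, (p ∈ homogeneousSubmodule (Fin 4) ℝ k ∧ ∀ x ∈ L, sp x.1 x.2 p = p) ↔ p ∈ V) :
    homogeneousSubmodule (Fin 4) ℝ k ⊓ LinearMap.ker lap ⊓
      (⨅ g ∈ grp L h, LinearMap.ker ((aeval (fun i : Fin 4 =>
      ∑ j : Fin 4, C (g.1 i j) * X j) : P →ₐ[ℝ] P).toLinearMap - LinearMap.id)) =
      V ⊓ LinearMap.ker lap := by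
  ext p
  rw [Submodule.mem_inf, Submodule.mem_inf, Submodule.mem_inf, ← hV, mem_fix]
  exact and_right_comm

theorem final (k : ℕ) : Module.finrank ℝ ↥(homogeneousSubmodule (Fin 4) ℝ k ⊓ LinearMap.ker lap ⊓
      (⨅ g ∈ grp LA gA, LinearMap.ker ((aeval (fun i : Fin 4 =>
      ∑ j : Fin 4, C (g.1 i j) * X j) : P →ₐ[ℝ] P).toLinearMap - LinearMap.id))) =
    Module.finrank ℝ ↥(homogeneousSubmodule (Fin 4) ℝ k ⊓ LinearMap.ker lap ⊓
      (⨅ g ∈ grp LB gB, LinearMap.ker ((aeval (fun i : Fin 4 =>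
      ∑ j : Fin 4, C (g.1 i j) * X j) : P →ₐ[ℝ] P).toLinearMap - LinearMap.id))) := by
  rw [key LA gA k _ (fixA k), key LB gB k _ (fixB k)]
  exact main_eq k

end Pool.Agent.H2.Orb
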