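import Mathlib

open CategoryTheory TensorProduct Polynomial

namespace Pool.Agent.H2.Pdim

/-- projective dimension `< n` -/
def PD (R : Type) [CommRing R] (n : ℕ) (M : Type) [AddCommGroup M] [Module R M] : Prop :=
  HasProjectiveDimensionLT (ModuleCat.of R M) n

section basic
variable {R : Type} [CommRing R] {A B C : Type} [AddCommGroup A] [Module R A]
  [AddCommGroup B] [Module R B] [AddCommGroup C] [Module R C]

lemma ses (f : A →ₗ[R] B) (g : B →ₗ[R] C) (hf : Function.Injective f)
    (hg : Function.Surjective g) (h : Function.Exact f g) :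
    (ModuleCat.shortComplexOfCompEqZero f g h.linearMap_comp_eq_zero).ShortExact :=
  ModuleCat.shortComplex_shortExact _ h hf hg

lemma PD.x1 {n : ℕ} (f : A →ₗ[R] B) (g : B →ₗ[R] C) (hf : Function.Injective f)
    (hg : Function.Surjective g) (h : Function.Exact f g) (hB : PD R n B) (hC : PD R (n + 1) C) :
    PD R n A := (ses f g hf hg h).hasProjectiveDimensionLT_X₁ n hB hC

lemma PD.x2 {n : ℕ} (f : A →ₗ[R] B) (g : B →ₗ[R] C) (hf : Function.Injective f)
    (hg : Function.Surjective g) (h : Function.Exact f g) (hA : PD R n A) (hC : PD R n C) :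
    PD R n B := (ses f g hf hg h).hasProjectiveDimensionLT_X₂ n hA hC

lemma PD.x3 {n : ℕ} (f : A →ₗ[R] B) (g : B →ₗ[R] C) (hf : Function.Injective f)
    (hg : Function.Surjective g) (h : Function.Exact f g) (hA : PD R n A) (hB : PD R (n + 1) B) :
    PD R (n + 1) C := (ses f g hf hg h).hasProjectiveDimensionLT_X₃ n hA hB

lemma PD.mono {n m : ℕ} (h : PD R n A) (hnm : n ≤ m) : PD R m A := by
  unfold PD at *
  exact hasProjectiveDimensionLT_of_ge _ n m hnm

lemma pd_one_iff : PD R 1 A ↔ Module.Projective R A := by
  unfold PD
  rw [← projective_iff_hasProjectiveDimensionLT_one, ← IsProjective.iff_projective]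

lemma pd_proj [Module.Projective R A] (n : ℕ) : PD R (n + 1) A :=
  (pd_one_iff.2 inferInstance).mono (by omega)

lemma PD.equiv {n : ℕ} (e : A ≃ₗ[R] B) (h : PD R n A) : PD R n B := by
  unfold PD at *
  exact hasProjectiveDimensionLT_of_iso e.toModuleIso n

lemma PD.ker {n : ℕ} (g : B →ₗ[R] C) (hg : Function.Surjective g) (hB : PD R n B)
    (hC : PD R (n + 1) C) : PD R n (LinearMap.ker g) :=
  PD.x1 (LinearMap.ker g).subtype g (Submodule.injective_subtype _) hg
    (LinearMap.exact_subtype_ker_map g) hB hC

lemma PD.sub {n : ℕ} (N : Submodule R B) (hB : PD R n B)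
    (hC : PD R (n + 1) (B ⧸ N)) : PD R n N :=
  PD.x1 N.subtype N.mkQ (Submodule.injective_subtype _) (Submodule.mkQ_surjective N)
    (LinearMap.exact_subtype_mkQ N) hB hC

/-- second syzygies -/
lemma PD.syz2 {n : ℕ} [Module.Projective R A] [Module.Projective R B] (f : A →ₗ[R] B)
    (h : PD R (n + 3) (B ⧸ LinearMap.range f)) : PD R (n + 1) (LinearMap.ker f) := by
  have h1 : PD R (n + 2) (LinearMap.range f) := PD.sub _ (pd_proj _) h
  have h2 := PD.ker f.rangeRestrict f.surjective_rangeRestrict (pd_proj n) h1
  rw [LinearMap.ker_rangeRestrict] at h2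
  exact h2

end basic

lemma bc_exact {R S : Type} [CommRing R] [CommRing S] [Algebra R S] {B C : Type}
    [AddCommGroup B] [Module R B] [AddCommGroup C] [Module R C] (g : B →ₗ[R] C)
    (hg : Function.Surjective g) :
    Function.Exact ((LinearMap.ker g).subtype.baseChange S) (g.baseChange S) :=
  lTensor_exact S (LinearMap.exact_subtype_ker_map g) hg

/-- flat base change -/
lemma PD.baseChange {R S : Type} [CommRing R] [CommRing S] [Algebra R S] [Module.Flat R S]
    (n : ℕ) : ∀ (M : Type) [AddCommGroup M] [Module R M], PD R (n + 1) M →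
      PD S (n + 1) (S ⊗[R] M) := by
  induction n with
  | zero =>
    intro M _ _ h
    have := pd_one_iff.1 h
    exact pd_proj 0
  | succ n ih =>
    intro M _ _ h
    let g : (M →₀ R) →ₗ[R] M := Finsupp.linearCombination R id
    have hg : Function.Surjective g := Finsupp.linearCombination_surjective R Function.surjective_id
    have hk : PD R (n + 1) (LinearMap.ker g) := PD.ker g hg (pd_proj n) h
    have h1 := ih _ hk
    refine PD.x3 ((LinearMap.ker g).subtype.baseChange S) (g.baseChange S) ?_ ?_ ?_ h1 (pd_proj _)
    · exact Module.Flat.lTensor_preserves_injective_linearMap _ (Submodule.injective_subtype _)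
    · exact LinearMap.lTensor_surjective S hg
    · exact bc_exact g hg

lemma PD.poly {R : Type} [CommRing R] (n : ℕ) (M : Type) [AddCommGroup M] [Module R M]
    [Module R[X] M] [IsScalarTower R R[X] M] (h : PD R (n + 1) M) : PD R[X] (n + 2) M := by
  have h1 := PD.baseChange (S := R[X]) n M h
  let μ : M →ₗ[R] M := (LinearMap.lsmul R[X] M X).restrictScalars R
  let π : R[X] ⊗[R] M →ₗ[R[X]] M := LinearMap.liftBaseChange R[X] LinearMap.id
  let δ : R[X] ⊗[R] M →ₗ[R[X]] R[X] ⊗[R] M :=
    LinearMap.lsmul R[X] _ X - μ.baseChange R[X]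
  have hδ : ∀ (p : R[X]) (m : M), δ (p ⊗ₜ m) = (X * p) ⊗ₜ m - p ⊗ₜ ((X : R[X]) • m) := by
    intro p m
    simp [δ, μ, smul_tmul']
  have hπ : ∀ (p : R[X]) (m : M), π (p ⊗ₜ m) = p • m := by
    intro p m
    simp [π]
  refine PD.x3 δ π ?_ ?_ ?_ h1 (h1.mono (by omega))
  · let e := PolynomialModule.polynomialTensorProductLEquivPolynomialModule R M
    have he : ∀ (p : R[X]) (m : M), e (p ⊗ₜ m) = p • PolynomialModule.single R 0 m := by
      intro p m
      simp [e, PolynomialModule.polynomialTensorProductLEquivPolynomialModule]
      rfl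
    have key : ∀ z, e (δ z) = (X : R[X]) • e z - PolynomialModule.map R μ (e z) := by
      intro z
      induction z with
      | zero => simp
      | add a b ha hb => simp only [map_add, ha, hb, smul_add]; abel
      | tmul p m =>
        rw [hδ, map_sub, he, he, he, PolynomialModule.map_smul, PolynomialModule.map_single,
          mul_smul]
        simp [μ]
    rw [injective_iff_map_eq_zero]
    intro z hz
    have h0 := key z
    rw [hz, map_zero] at h0
    have hrec : ∀ k, (e z).coeff k = (X : R[X]) • (e z).coeff (k + 1) := by
      intro k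
      have h2 : ((X : R[X]) • e z).coeff (k + 1) =
          (PolynomialModule.map R μ (e z)).coeff (k + 1) := by
        rw [sub_eq_zero.1 h0.symm]
      rw [← monomial_one_one_eq_X, PolynomialModule.monomial_smul_apply] at h2
      simp only [le_add_iff_nonneg_left, zero_le, ↓reduceIte, add_tsub_cancel_right,
        one_smul] at h2
      rw [h2]
      simp [PolynomialModule.map, μ]
    have hpow : ∀ j k, (e z).coeff k = (X : R[X]) ^ j • (e z).coeff (k + j) := by
      intro j
      induction j with
      | zero => simp
      | succ j ihj =>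
        intro k
        rw [ihj k, hrec (k + j), ← mul_smul, ← pow_succ, add_assoc]
    have hz0 : e z = 0 := by
      rw [← PolynomialModule.coeff_eq_zero]
      ext k
      obtain ⟨N, hN⟩ := (e z).coeff.support.bddAbove
      have : (e z).coeff (k + (N + 1)) = 0 := by
        by_contra hne
        have := hN (Finsupp.mem_support_iff.2 hne)
        omega
      rw [hpow (N + 1) k, this]
      simp
    exact e.injective (by rw [hz0, map_zero])
  · intro m
    exact ⟨1 ⊗ₜ m, by simp [hπ]⟩
  · have key : ∀ z, z - 1 ⊗ₜ (π z) ∈ LinearMap.range δ := by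
      intro z
      induction z with
      | zero => simp
      | add a b ha hb =>
        have := add_mem ha hb
        rw [map_add, tmul_add]
        convert this using 1
        abel
      | tmul p m =>
        rw [hπ]
        induction p using Polynomial.induction_on generalizing m with
        | C a =>
          have : (Polynomial.C a : R[X]) ⊗ₜ[R] m = 1 ⊗ₜ[R] ((Polynomial.C a : R[X]) • m) := by
            have e1 : (Polynomial.C a : R[X]) • m = a • m := by
              rw [← Polynomial.algebraMap_eq, algebraMap_smul]
            rw [e1, ← smul_tmul, ← Polynomial.algebraMap_eq, Algebra.algebraMap_eq_smul_one]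
          rw [this]; simp
        | add p q hp hq =>
          have := add_mem (hp m) (hq m)
          rw [add_tmul, add_smul, tmul_add]
          convert this using 1
          abel
        | monomial k a ih =>
          have h2 := ih ((X : R[X]) • m)
          have h3 : δ ((Polynomial.C a * X ^ k) ⊗ₜ m) ∈ LinearMap.range δ := ⟨_, rfl⟩
          have := add_mem h2 h3
          rw [hδ] at this
          convert this using 1
          have e1 : X * (Polynomial.C a * X ^ k) = Polynomial.C a * X ^ (k + 1) := by ring
          have e2 : (Polynomial.C a * X ^ k : R[X]) • (X : R[X]) • m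
              = (Polynomial.C a * X ^ (k + 1) : R[X]) • m := by
            rw [← mul_smul]; congr 1; ring
          rw [e1, e2]
          abel
    intro z
    constructor
    · intro hz
      have := key z
      rw [hz] at this
      simpa using this
    · rintro ⟨y, rfl⟩
      induction y with
      | zero => simp
      | add a b ha hb => rw [map_add, map_add, ha, hb, add_zero]
      | tmul p m =>
        rw [hδ, map_sub, hπ, hπ, ← mul_smul, mul_comm, sub_self]

/-- Hilbert's syzygy theorem -/
theorem syzygy (K : Type) [Field K] (n : ℕ) : ∀ (M : Type) [AddCommGroup M]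
    [Module (MvPolynomial (Fin n) K) M], PD (MvPolynomial (Fin n) K) (n + 1) M := by
  induction n with
  | zero =>
    intro M _ _
    let e := (MvPolynomial.isEmptyRingEquiv K (Fin 0))
    have hf : IsField (MvPolynomial (Fin 0) K) :=
      MulEquiv.isField (Field.toIsField K) e.toMulEquiv
    letI := hf.toField
    exact pd_proj 0
  | succ n ih =>
    intro M _ _
    let e : (MvPolynomial (Fin n) K)[X] ≃+* MvPolynomial (Fin (n + 1)) K :=
      (MvPolynomial.finSuccEquiv K n).symm.toRingEquiv
    letI i1 : Module (MvPolynomial (Fin n) K)[X] M := Module.compHom M e.toRingHom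
    letI i2 : Module (MvPolynomial (Fin n) K) M :=
      Module.compHom M (algebraMap (MvPolynomial (Fin n) K) (MvPolynomial (Fin n) K)[X])
    haveI : IsScalarTower (MvPolynomial (Fin n) K) (MvPolynomial (Fin n) K)[X] M :=
      ⟨fun a p m => by
        rw [Algebra.smul_def, mul_smul]
        rfl⟩
    have h := PD.poly n M (ih M)
    unfold PD at h ⊢
    haveI : HasProjectiveDimensionLE (ModuleCat.of (MvPolynomial (Fin n) K)[X] M) (n + 1) := h
    letI := RingHomInvPair.of_ringEquiv e
    letI := RingHomInvPair.of_ringEquiv_symm e
    exact ModuleCat.hasProjectiveDimensionLE_of_semiLinearEquiv.{0, 0} e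
      (M := ModuleCat.of (MvPolynomial (Fin n) K)[X] M)
      (N := ModuleCat.of (MvPolynomial (Fin (n + 1)) K) M)
      { toFun := id, invFun := id, map_add' := fun _ _ => rfl, map_smul' := fun _ _ => rfl,
        left_inv := fun _ => rfl, right_inv := fun _ => rfl } (n + 1)

/-- kernels of matrices under flat base change -/
lemma PD.kerMap {R S : Type} [CommRing R] [CommRing S] (φ : R →+* S) (hφ : φ.Flat)
    {m n : Type} [Fintype m] [Fintype n] [DecidableEq m] [DecidableEq n] (A : Matrix m n R)
    (k : ℕ) (h : PD R (k + 1) (LinearMap.ker A.mulVecLin)) :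
    PD S (k + 1) (LinearMap.ker (A.map φ).mulVecLin) := by
  algebraize [φ]
  have h1 := PD.baseChange (S := S) k _ h
  have comm : (A.map φ).mulVecLin ∘ₗ (piScalarRight R S S n).toLinearMap =
      (piScalarRight R S S m).toLinearMap ∘ₗ AlgebraTensorModule.lTensor S S A.mulVecLin := by
    apply LinearMap.ext
    intro z
    induction z with
    | zero => simp
    | add a b ha hb => simp only [map_add, ha, hb]
    | tmul s v =>
      funext i
      simp [Matrix.mulVec, dotProduct, Algebra.smul_def, Finset.sum_mul, mul_assoc,
        RingHom.algebraMap_toAlgebra]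
  refine h1.equiv ((LinearMap.tensorKerEquiv S S A.mulVecLin).trans
    ((piScalarRight R S S n).ofSubmodules _ _ ?_))
  ext y
  constructor
  · rintro ⟨z, hz, rfl⟩
    have := LinearMap.congr_fun comm z
    simp only [LinearMap.comp_apply] at this
    rw [LinearMap.mem_ker, this, (LinearMap.mem_ker.1 hz), map_zero]
  · intro hy
    obtain ⟨z, rfl⟩ := (piScalarRight R S S n).surjective y
    refine ⟨z, ?_, rfl⟩
    have := LinearMap.congr_fun comm z
    simp only [LinearMap.comp_apply] at this
    have h3 := LinearMap.mem_ker.1 hy
    have h4 : (piScalarRight R S S m) (AlgebraTensorModule.lTensor S S A.mulVecLin z) = 0 := by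
      rw [← h3]; exact this.symm
    exact LinearMap.mem_ker.2 ((piScalarRight R S S m).injective (by rw [h4, map_zero]))

lemma flat_rename_succ (K : Type) [Field K] (n : ℕ) :
    (MvPolynomial.rename (R := K) (Fin.succ : Fin n → Fin (n + 1))).toRingHom.Flat := by
  have h1 : (algebraMap (MvPolynomial (Fin n) K) (MvPolynomial (Fin n) K)[X]).Flat :=
    RingHom.flat_algebraMap_iff.2 inferInstance
  have h2 : ((MvPolynomial.finSuccEquiv K n).symm.toRingEquiv.toRingHom).Flat :=
    RingHom.Flat.of_bijective (MvPolynomial.finSuccEquiv K n).symm.bijective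
  have h3 := RingHom.Flat.comp h1 h2
  have : (MvPolynomial.rename (R := K) (Fin.succ : Fin n → Fin (n + 1))).toRingHom =
      ((MvPolynomial.finSuccEquiv K n).symm.toRingEquiv.toRingHom).comp
        (algebraMap (MvPolynomial (Fin n) K) (MvPolynomial (Fin n) K)[X]) := by
    apply MvPolynomial.ringHom_ext
    · intro r
      apply (MvPolynomial.finSuccEquiv K n).injective
      simp [MvPolynomial.finSuccEquiv_apply]
    · intro i
      apply (MvPolynomial.finSuccEquiv K n).injective
      simp [MvPolynomial.finSuccEquiv_X_succ]
  rw [this]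
  exact h3

end Pool.Agent.H2.Pdim
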