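import Pool.Agent.H2.PDDefs
import Pool.Agent.H2.PD1

open LocalizedModule RingTheory.Sequence

namespace Pool.Agent.H2.Pdim

variable {R : Type} [CommRing R] {ι : Type} (x : ι → R)
variable {A B C : Type} [AddCommGroup A] [Module R A] [AddCommGroup B] [Module R B]
  [AddCommGroup C] [Module R C]

lemma lift_mk {S T : Submonoid R} (h : S ≤ T) (m : A) (s : S) :
    LocalizedModule.liftOfLE S T h (mk m s) = mk m ⟨s.1, h s.2⟩ := by
  rw [IsLocalizedModule.mk_eq_mk', IsLocalizedModule.mk_eq_mk', IsLocalizedModule.liftOfLE_mk']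

open Classical in
/-- total version of the restriction -/
noncomputable def ev {p q : ℕ} (c : Cochain x A p) (ρ : Fin q → ι) (σ : Fin p → ι) :
    LocalizedModule (mulSet x ρ) A :=
  if h : mulSet x σ ≤ mulSet x ρ then LocalizedModule.liftOfLE _ _ h (c σ) else 0

lemma ev_eq {p q : ℕ} (c : Cochain x A p) (ρ : Fin q → ι) (σ : Fin p → ι)
    (h : mulSet x σ ≤ mulSet x ρ) : ev x c ρ σ = LocalizedModule.liftOfLE _ _ h (c σ) := by
  rw [ev, dif_pos h]

lemma d_apply {p : ℕ} (c : Cochain x A p) (τ : Fin (p + 1) → ι) :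
    cechD x A p c τ = ∑ j : Fin (p + 1), (-1 : R) ^ (j : ℕ) • ev x c τ (τ ∘ j.succAbove) := by
  simp only [cechD, LinearMap.pi_apply, LinearMap.sum_apply, LinearMap.smul_apply,
    LinearMap.comp_apply, LinearMap.proj_apply]
  refine Finset.sum_congr rfl fun j _ => ?_
  rw [ev_eq x c τ _ (mulSet_le x τ j.succAbove)]

lemma lift_lift {S T U : Submonoid R} (h : S ≤ T) (h' : T ≤ U) (y : LocalizedModule S A) :
    LocalizedModule.liftOfLE T U h' (LocalizedModule.liftOfLE S T h y) =
      LocalizedModule.liftOfLE S U (h.trans h') y := by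
  induction y using LocalizedModule.induction_on with
  | h m s => simp only [lift_mk]

lemma lift_ev {p q r : ℕ} (c : Cochain x A p) (ρ : Fin q → ι) (π : Fin r → ι) (σ : Fin p → ι)
    (h : mulSet x σ ≤ mulSet x ρ) (h' : mulSet x ρ ≤ mulSet x π) :
    LocalizedModule.liftOfLE _ _ h' (ev x c ρ σ) = ev x c π σ := by
  rw [ev_eq x c ρ σ h, ev_eq x c π σ (h.trans h'), lift_lift]

lemma d_d {p : ℕ} (c : Cochain x A p) : cechD x A (p + 1) (cechD x A p c) = 0 := by
  funext ρ
  rw [d_apply]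
  have h1 : ∀ j : Fin (p + 2), ev x (cechD x A p c) ρ (ρ ∘ j.succAbove) =
      ∑ k : Fin (p + 1), (-1 : R) ^ (k : ℕ) • ev x c ρ (ρ ∘ j.succAbove ∘ k.succAbove) := by
    intro j
    rw [ev_eq x _ ρ _ (mulSet_le x ρ j.succAbove), d_apply, map_sum]
    refine Finset.sum_congr rfl fun k _ => ?_
    rw [map_smul, lift_ev x c _ ρ _ (mulSet_le x _ k.succAbove)]
    rfl
  simp only [h1, Finset.smul_sum, ← mul_smul, ← pow_add]
  rw [← Finset.sum_product']
  refine Finset.sum_involution (fun q _ => (q.1.succAbove q.2, q.2.predAbove q.1)) ?_ ?_ ?_ ?_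
  · rintro ⟨i, j⟩ _
    have e : (i.succAbove j).succAbove ∘ (j.predAbove i).succAbove = i.succAbove ∘ j.succAbove :=
      funext fun k => Fin.succAbove_succAbove_succAbove_predAbove i j k
    simp only [e, Fin.neg_one_pow_succAbove_add_predAbove, neg_smul, add_neg_cancel]
  · rintro ⟨i, j⟩ _ _ h
    exact Fin.succAbove_ne i j (congrArg Prod.fst h)
  · intro q _
    simp
  · rintro ⟨i, j⟩ _
    simp [Fin.succAbove_succAbove_predAbove, Fin.predAbove_predAbove_succAbove]

/-- functoriality -/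
noncomputable def cmap (f : A →ₗ[R] B) (p : ℕ) : Cochain x A p →ₗ[R] Cochain x B p :=
  LinearMap.pi fun σ => IsLocalizedModule.map (mulSet x σ) (mkLinearMap _ A) (mkLinearMap _ B) f
    ∘ₗ LinearMap.proj σ

lemma cmap_apply (f : A →ₗ[R] B) {p : ℕ} (c : Cochain x A p) (σ : Fin p → ι) :
    cmap x f p c σ =
      IsLocalizedModule.map (mulSet x σ) (mkLinearMap _ A) (mkLinearMap _ B) f (c σ) := rfl

lemma map_lift (f : A →ₗ[R] B) {S T : Submonoid R} (h : S ≤ T) (y : LocalizedModule S A) :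
    IsLocalizedModule.map T (mkLinearMap _ A) (mkLinearMap _ B) f
      (LocalizedModule.liftOfLE S T h y) =
    LocalizedModule.liftOfLE S T h
      (IsLocalizedModule.map S (mkLinearMap _ A) (mkLinearMap _ B) f y) := by
  induction y using LocalizedModule.induction_on with
  | h m s => simp only [lift_mk, IsLocalizedModule.map_LocalizedModules]

lemma cmap_d (f : A →ₗ[R] B) {p : ℕ} (c : Cochain x A p) :
    cmap x f (p + 1) (cechD x A p c) = cechD x B p (cmap x f p c) := by
  funext τ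
  rw [cmap_apply, d_apply, d_apply, map_sum]
  refine Finset.sum_congr rfl fun j _ => ?_
  rw [map_smul, ev_eq x _ τ _ (mulSet_le x τ j.succAbove),
    ev_eq x _ τ _ (mulSet_le x τ j.succAbove), map_lift, cmap_apply]

lemma cmap_inj (f : A →ₗ[R] B) (hf : Function.Injective f) (p : ℕ) :
    Function.Injective (cmap x f p) := by
  intro a b h
  funext σ
  exact IsLocalizedModule.map_injective _ _ _ f hf (congrFun h σ)

lemma cmap_surj (f : A →ₗ[R] B) (hf : Function.Surjective f) (p : ℕ) :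
    Function.Surjective (cmap x f p) := by
  intro b
  choose a ha using fun σ => IsLocalizedModule.map_surjective (mulSet x σ)
    (mkLinearMap (mulSet x σ) A) (mkLinearMap (mulSet x σ) B) f hf (b σ)
  exact ⟨a, funext ha⟩

lemma cmap_exact (f : A →ₗ[R] B) (g : B →ₗ[R] C) (h : Function.Exact f g) (p : ℕ) :
    Function.Exact (cmap x f p) (cmap x g p) := by
  intro b
  constructor
  · intro hb
    choose a ha using fun σ => (LocalizedModule.map_exact (mulSet x σ) f g h (b σ)).1
      (congrFun hb σ)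
    exact ⟨a, funext ha⟩
  · rintro ⟨a, rfl⟩
    funext σ
    exact (LocalizedModule.map_exact (mulSet x σ) f g h _).2 ⟨a σ, rfl⟩

lemma cmap_lsmul (r : R) {p : ℕ} (c : Cochain x A p) :
    cmap x (LinearMap.lsmul R A r) p c = r • c := by
  funext σ
  rw [cmap_apply, Pi.smul_apply]
  induction c σ using LocalizedModule.induction_on with
  | h m s => simp only [IsLocalizedModule.map_LocalizedModules, LinearMap.lsmul_apply, smul'_mk]

/-- coboundaries -/
noncomputable def Bd (A : Type) [AddCommGroup A] [Module R A] :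
    (p : ℕ) → Submodule R (Cochain x A p)
  | 0 => ⊥
  | p + 1 => LinearMap.range (cechD x A p)

lemma d_Bd {p : ℕ} {c : Cochain x A p} (h : c ∈ Bd x A p) : cechD x A p c = 0 := by
  cases p with
  | zero => rw [(Submodule.mem_bot R).1 h, map_zero]
  | succ p => obtain ⟨b, rfl⟩ := h; exact d_d x b

lemma cmap_Bd (f : A →ₗ[R] B) {p : ℕ} {c : Cochain x A p} (h : c ∈ Bd x A p) :
    cmap x f p c ∈ Bd x B p := by
  cases p with
  | zero => rw [(Submodule.mem_bot R).1 h, map_zero]; exact zero_mem _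
  | succ p => obtain ⟨b, rfl⟩ := h; exact ⟨_, (cmap_d x f b).symm⟩

lemma Bd_surj (f : A →ₗ[R] B) (hf : Function.Surjective f) {p : ℕ} {c : Cochain x B p}
    (h : c ∈ Bd x B p) : ∃ a ∈ Bd x A p, cmap x f p a = c := by
  cases p with
  | zero => exact ⟨0, zero_mem _, by rw [(Submodule.mem_bot R).1 h, map_zero]⟩
  | succ p =>
    obtain ⟨b, rfl⟩ := h
    obtain ⟨a, rfl⟩ := cmap_surj x f hf p b
    exact ⟨_, ⟨a, rfl⟩, cmap_d x f a⟩

/-- vanishing of the `p`-th cohomology of the extended complex -/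
def V (p : ℕ) (A : Type) [AddCommGroup A] [Module R A] : Prop :=
  ∀ c : Cochain x A p, cechD x A p c = 0 → c ∈ Bd x A p

lemma V_iff (p : ℕ) : V x (p + 1) A ↔ Function.Exact (cechD x A p) (cechD x A (p + 1)) := by
  constructor
  · intro h c
    exact ⟨h c, fun hc => d_Bd x (p := p + 1) hc⟩
  · intro h c hc
    exact (h c).1 hc

section ses
variable {x} (f : A →ₗ[R] B) (g : B →ₗ[R] C) (hf : Function.Injective f)
  (hg : Function.Surjective g) (h : Function.Exact f g)
include hf hg h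

lemma x1' {p : ℕ} (hC : V x p C) (a : Cochain x A (p + 1))
    (ha : cmap x f (p + 1) a ∈ Bd x B (p + 1)) : a ∈ Bd x A (p + 1) := by
  obtain ⟨b, hb⟩ := ha
  have h1 : cechD x C p (cmap x g p b) = 0 := by
    rw [← cmap_d, hb]
    exact (cmap_exact x f g h (p + 1) _).2 ⟨a, rfl⟩
  obtain ⟨b', hb', e⟩ := Bd_surj x g hg (hC _ h1)
  obtain ⟨a', ha'⟩ := (cmap_exact x f g h p (b - b')).1 (by rw [map_sub, e, sub_self])
  refine ⟨a', cmap_inj x f hf (p + 1) ?_⟩
  rw [cmap_d, ha', map_sub, d_Bd x hb', sub_zero, hb]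

lemma V.x1 {p : ℕ} (hC : V x p C) (hB : V x (p + 1) B) : V x (p + 1) A := by
  intro a ha
  refine x1' f g hf hg h hC a (hB _ ?_)
  rw [← cmap_d, ha, map_zero]

lemma V.x2 {p : ℕ} (hA : V x p A) (hC : V x p C) : V x p B := by
  intro b hb
  have h1 : cechD x C p (cmap x g p b) = 0 := by rw [← cmap_d, hb, map_zero]
  obtain ⟨b', hb', e⟩ := Bd_surj x g hg (hC _ h1)
  obtain ⟨a', ha'⟩ := (cmap_exact x f g h p (b - b')).1 (by rw [map_sub, e, sub_self])
  have h2 : cechD x A p a' = 0 := by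
    apply cmap_inj x f hf (p + 1)
    rw [cmap_d, ha', map_sub, hb, d_Bd x hb', sub_zero, map_zero]
  have h3 := cmap_Bd x f (hA _ h2)
  rw [ha'] at h3
  simpa using add_mem h3 hb'

lemma V.x3 {p : ℕ} (hB : V x p B) (hA : V x (p + 1) A) : V x p C := by
  intro c hc
  obtain ⟨b, rfl⟩ := cmap_surj x g hg p c
  obtain ⟨a, ha⟩ := (cmap_exact x f g h (p + 1) (cechD x B p b)).1 (by rw [cmap_d, hc])
  have h2 : cechD x A (p + 1) a = 0 := by
    apply cmap_inj x f hf (p + 2)
    rw [cmap_d, ha, d_d, map_zero]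
  obtain ⟨a', rfl⟩ := hA _ h2
  have h3 : cechD x B p (b - cmap x f p a') = 0 := by
    rw [map_sub, ← cmap_d, ha, sub_self]
  have h4 := cmap_Bd x g (hB _ h3)
  rwa [map_sub, (cmap_exact x f g h p _).2 ⟨a', rfl⟩, sub_zero] at h4

end ses

lemma V.equiv {x : ι → R} {p : ℕ} (e : A ≃ₗ[R] B) (hA : V x p A) : V x p B := by
  intro b hb
  obtain ⟨a, rfl⟩ := cmap_surj x e.toLinearMap e.surjective p b
  refine cmap_Bd x _ (hA a ?_)
  apply cmap_inj x e.toLinearMap e.injective (p + 1)
  rw [cmap_d, hb, map_zero]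

lemma mem_cons {p : ℕ} (i : ι) (σ : Fin p → ι) (u : R)
    (hu : u ∈ mulSet x (Fin.cons i σ : Fin (p + 1) → ι)) :
    ∃ (k : ℕ) (s : R), s ∈ mulSet x σ ∧ u = x i ^ k * s := by
  induction hu using Submonoid.closure_induction with
  | mem y hy =>
    obtain ⟨j, rfl⟩ := hy
    refine Fin.cases ?_ (fun j => ?_) j
    · exact ⟨1, 1, one_mem _, by simp⟩
    · exact ⟨0, x (σ j), Submonoid.subset_closure ⟨j, rfl⟩, by simp⟩
  | one => exact ⟨0, 1, one_mem _, by simp⟩
  | mul a b _ _ ha hb =>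
    obtain ⟨k, s, hs, rfl⟩ := ha
    obtain ⟨k', s', hs', rfl⟩ := hb
    exact ⟨k + k', s * s', mul_mem hs hs', by ring⟩

lemma le_cons {p : ℕ} (i : ι) (σ : Fin p → ι) :
    mulSet x σ ≤ mulSet x (Fin.cons i σ : Fin (p + 1) → ι) :=
  mulSet_le x (Fin.cons i σ : Fin (p + 1) → ι) Fin.succ

lemma res_surj {p : ℕ} (i : ι) (σ : Fin p → ι)
    (c : LocalizedModule (mulSet x (Fin.cons i σ : Fin (p + 1) → ι)) A) :
    ∃ k : ℕ, ∀ N, k ≤ N → ∃ b, x i ^ N • c = LocalizedModule.liftOfLE _ _ (le_cons x i σ) b := by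
  induction c using LocalizedModule.induction_on with
  | h m u =>
    obtain ⟨k, s, hs, e⟩ := mem_cons x i σ u.1 u.2
    refine ⟨k, fun N hN => ⟨mk (x i ^ (N - k) • m) ⟨s, hs⟩, ?_⟩⟩
    rw [lift_mk, smul'_mk, mk_eq]
    refine ⟨1, ?_⟩
    simp only [one_smul, Submonoid.smul_def, e, ← mul_smul]
    congr 1
    have : x i ^ N = x i ^ k * x i ^ (N - k) := by rw [← pow_add]; congr 1; omega
    rw [this]; ring

lemma res_ker {p : ℕ} (i : ι) (σ : Fin p → ι) (b : LocalizedModule (mulSet x σ) A)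
    (hb : LocalizedModule.liftOfLE _ _ (le_cons x i σ) b = 0) :
    ∃ k : ℕ, ∀ N, k ≤ N → x i ^ N • b = 0 := by
  induction b using LocalizedModule.induction_on with
  | h m u =>
    rw [lift_mk, ← zero_mk 1, mk_eq] at hb
    obtain ⟨v, hv⟩ := hb
    obtain ⟨k, s, hs, e⟩ := mem_cons x i σ v.1 v.2
    refine ⟨k, fun N hN => ?_⟩
    rw [smul'_mk, ← zero_mk 1, mk_eq]
    refine ⟨⟨s, hs⟩, ?_⟩
    simp only [one_smul, Submonoid.smul_def, e, smul_zero] at hv ⊢
    have : x i ^ N = x i ^ k * x i ^ (N - k) := by rw [← pow_add]; congr 1; omega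
    rw [this, ← mul_smul, show s * (x i ^ k * x i ^ (N - k)) = x i ^ (N - k) * (x i ^ k * s) by ring,
      mul_smul, hv, smul_zero]

lemma unif {α : Type} [Finite α] (P : α → ℕ → Prop) (h : ∀ a, ∃ k, ∀ N, k ≤ N → P a N) :
    ∃ N, ∀ a, P a N := by
  choose k hk using h
  obtain ⟨N, hN⟩ := (Set.finite_range k).bddAbove
  exact ⟨N, fun a => hk a N (hN ⟨a, rfl⟩)⟩

lemma torsion [Finite ι] {p : ℕ} (i : ι) (c : Cochain x A p) (hc : cechD x A p c = 0) :
    ∃ N : ℕ, x i ^ N • c ∈ Bd x A p := by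
  have h0 : ∀ τ : Fin p → ι, (Fin.cons i τ : Fin (p + 1) → ι) ∘ (0 : Fin (p + 1)).succAbove = τ :=
    fun τ => funext fun j => by simp
  cases p with
  | zero =>
    obtain ⟨N, hN⟩ := unif (fun σ N => x i ^ N • c σ = 0) fun σ => res_ker x i σ (c σ) (by
      have := congrFun hc (Fin.cons i σ)
      rw [d_apply, Fin.sum_univ_succ, h0, ev_eq x c _ σ (le_cons x i σ)] at this
      simpa using this)
    exact ⟨N, (Submodule.mem_bot R).2 (funext hN)⟩
  | succ p =>
    obtain ⟨k, hk⟩ := unif _ fun σ : Fin p → ι => res_surj x i σ (c (Fin.cons i σ))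
    choose b hb using hk
    obtain ⟨N, hN⟩ := unif (fun τ N => x i ^ N • (x i ^ k • c τ - cechD x A p b τ) = 0)
      fun τ => res_ker x i τ _ (by
        have := congrFun hc (Fin.cons i τ)
        rw [d_apply, Fin.sum_univ_succ, h0, ev_eq x c _ τ (le_cons x i τ)] at this
        simp only [Fin.val_zero, pow_zero, one_smul, Pi.zero_apply] at this
        rw [map_sub, map_smul, eq_neg_of_add_eq_zero_left this, d_apply, map_sum, smul_neg,
          Finset.smul_sum, ← neg_add', ← Finset.sum_add_distrib, neg_eq_zero]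
        refine Finset.sum_eq_zero fun j _ => ?_
        have e : (Fin.cons i τ : Fin (p + 2) → ι) ∘ (j.succ).succAbove =
            Fin.cons i (τ ∘ j.succAbove) := by
          funext m
          refine Fin.cases ?_ (fun m => ?_) m <;> simp
        have hle : mulSet x (Fin.cons i (τ ∘ j.succAbove) : Fin (p + 1) → ι) ≤
            mulSet x (Fin.cons i τ : Fin (p + 2) → ι) := by
          rw [← e]; exact mulSet_le x _ _
        rw [e, map_smul, lift_ev x b _ _ _ (mulSet_le x τ j.succAbove), ev_eq x c _ _ hle,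
          smul_comm (x i ^ k), ← map_smul, hb, lift_lift, ← ev_eq x b, Fin.val_succ, pow_succ,
          mul_neg_one, neg_smul, neg_add_cancel])
    refine ⟨N + k, x i ^ N • b, ?_⟩
    funext τ
    have := hN τ
    rw [smul_sub, sub_eq_zero] at this
    rw [map_smul, Pi.smul_apply, ← this, Pi.smul_apply, pow_add, mul_smul]

open Pointwise in
lemma exact_quot (r : R) : Function.Exact (LinearMap.lsmul R A r)
    (Submodule.mkQ (r • (⊤ : Submodule R A))) := by
  intro y
  simp only [Submodule.mkQ_apply, Submodule.Quotient.mk_eq_zero, Set.mem_range,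
    LinearMap.lsmul_apply, Submodule.mem_smul_pointwise_iff_exists, Submodule.mem_top, true_and]

lemma V_step [Finite ι] (i : ι) (hr : IsSMulRegular A (x i)) :
    V x 0 A ∧ ∀ p, V x p (QuotSMulTop (x i) A) → V x (p + 1) A := by
  have hinj : Function.Injective (LinearMap.lsmul R A (x i)) := hr
  have gen : ∀ p, (∀ c : Cochain x A p, x i • c ∈ Bd x A p → c ∈ Bd x A p) → V x p A := by
    intro p hp c hc
    obtain ⟨N, hN⟩ := torsion x i c hc
    induction N with
    | zero => simpa using hN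
    | succ N ih => exact ih (hp _ (by rwa [← mul_smul, ← pow_succ']))
  refine ⟨gen 0 fun c hc => ?_, fun p hp => gen (p + 1) fun c hc => ?_⟩
  · rw [← cmap_lsmul] at hc
    exact (Submodule.mem_bot R).2 (cmap_inj x _ hinj 0
      (by rw [(Submodule.mem_bot R).1 hc, map_zero]))
  · rw [← cmap_lsmul] at hc
    exact x1' _ _ hinj (Submodule.mkQ_surjective _) (exact_quot (x i)) hp c hc

lemma V_reg [Finite ι] (rs : List R) (hrs : ∀ r ∈ rs, r ∈ Set.range x) :
    ∀ (A : Type) [AddCommGroup A] [Module R A], IsWeaklyRegular A rs →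
      ∀ p < rs.length, V x p A := by
  induction rs with
  | nil => intro A _ _ _ p hp; simp at hp
  | cons r rs ih =>
    intro A _ _ h p hp
    obtain ⟨i, rfl⟩ := hrs r (by simp)
    rw [isWeaklyRegular_cons_iff] at h
    cases p with
    | zero => exact (V_step x i h.1).1
    | succ p =>
      exact (V_step x i h.1).2 p (ih (fun r hr => hrs r (by simp [hr])) _ h.2 p (by simpa using hp))

lemma V_pd [Finite ι] (rs : List R) (hrs : ∀ r ∈ rs, r ∈ Set.range x)
    (hreg : IsWeaklyRegular R rs) (k : ℕ) : ∀ (A : Type) [AddCommGroup A] [Module R A],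
      PD R (k + 1) A → ∀ p, p + k < rs.length → V x p A := by
  induction k with
  | zero =>
    intro A _ _ h p hp
    have := pd_one_iff.1 h
    have h2 := (TensorProduct.rid R A).isWeaklyRegular_congr rs |>.1
      (hreg.isWeaklyRegular_lTensor (M₂ := A))
    exact V_reg x rs hrs A h2 p hp
  | succ k ih =>
    intro A _ _ h p hp
    let g : (A →₀ R) →ₗ[R] A := Finsupp.linearCombination R id
    have hg : Function.Surjective g := Finsupp.linearCombination_surjective R Function.surjective_id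
    have hk : PD R (k + 1) (LinearMap.ker g) := PD.ker g hg (pd_proj k) h
    exact V.x3 (LinearMap.ker g).subtype g (Submodule.injective_subtype _) hg
      (LinearMap.exact_subtype_ker_map g) (ih _ (pd_proj k) p (by omega))
      (ih _ hk (p + 1) (by omega))

lemma not_V_zero (m : A) (hm : m ≠ 0) (h : ∀ i, ∃ N : ℕ, x i ^ N • m = 0) : ¬ V x 0 A := by
  intro hV
  have h1 := hV (fun σ => mk m 1) (by
    funext ρ
    rw [d_apply, Fin.sum_univ_succ, ev_eq x _ _ _ (mulSet_le x ρ _), lift_mk]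
    obtain ⟨N, hN⟩ := h (ρ 0)
    have : (mk m ⟨_, mulSet_le x ρ (Fin.succAbove 0) (one_mem _)⟩ :
        LocalizedModule (mulSet x ρ) A) = 0 := by
      rw [← zero_mk 1, mk_eq]
      have hmem : x (ρ 0) ∈ mulSet x ρ := Submonoid.subset_closure (Set.mem_range_self 0)
      exact ⟨⟨x (ρ 0) ^ N, pow_mem hmem N⟩, by
        simp [Submonoid.smul_def, hN]⟩
    simpa using this)
  have h2 := congrFun ((Submodule.mem_bot R).1 h1) Fin.elim0
  rw [Pi.zero_apply, ← zero_mk 1, mk_eq] at h2
  obtain ⟨u, hu⟩ := h2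
  have : u.1 = 1 := by
    have := u.2
    simpa [mulSet] using this
  simp [Submonoid.smul_def, this] at hu
  exact hm hu

end Pool.Agent.H2.Pdim
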