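import Pool.Agent.H2.PD3

open MvPolynomial RingTheory.Sequence Pool.Agent.Lead.POG

namespace Pool.Agent.H2.Pdim

variable {K : Type} [Field K]

lemma der_ap (θ : Derivation K (MvPolynomial (Fin 5) K) (MvPolynomial (Fin 5) K)) (c : Fin 3 → ℤ) :
    θ (ap c (xyz K)) = ap c ![θ (X 2), θ (X 3), θ (X 4)] := by
  have : ∀ (z : ℤ) (p : (MvPolynomial (Fin 5) K)), θ ((z : (MvPolynomial (Fin 5) K)) * p) = (z : (MvPolynomial (Fin 5) K)) * θ p := by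
    intro z p
    rw [← zsmul_eq_mul, map_zsmul, zsmul_eq_mul]
  simp only [ap, xyz, map_add, this]
  simp

lemma mem_der (s : ℤ) (θ : Derivation K (MvPolynomial (Fin 5) K) (MvPolynomial (Fin 5) K)) : θ ∈ derMod (arr K s) ↔
    X 0 ∣ θ (X 0) ∧ X 1 ∣ θ (X 1) ∧ X 1 + X 4 ∣ θ (X 1) + θ (X 4) ∧
      ![θ (X 2), θ (X 3), θ (X 4)] ∈ Dp K s := by
  change (∀ j, lin (arr K s j) ∣ θ (lin (arr K s j))) ↔ _
  have e0 : lin (![1, 0, 0, 0, 0] : Fin 5 → K) = X 0 := by simp [lin, Fin.sum_univ_five]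
  have e1 : lin (![0, 1, 0, 0, 0] : Fin 5 → K) = X 1 := by simp [lin, Fin.sum_univ_five]
  have e2 : lin (![0, 1, 0, 0, 1] : Fin 5 → K) = X 1 + X 4 := by simp [lin, Fin.sum_univ_five]
  rw [Fin.forall_fin_succ, Fin.forall_fin_succ, Fin.forall_fin_succ]
  simp only [arr, Fin.cons_zero, Fin.cons_succ, e0, e1, e2, lin_up, der_ap, map_add]
  rfl

lemma ses_D [CharZero K] (s : ℤ) (ψ : Dp K s →ₗ[(MvPolynomial (Fin 5) K)] (MvPolynomial (Fin 5) K) ⧸ J K)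
    (hψ : ∀ f g, ψ f = (J K).mkQ g ↔ f.1 2 - Bp K * g ∈ J K) :
    ∃ (f : ((MvPolynomial (Fin 5) K) × (MvPolynomial (Fin 5) K)) →ₗ[(MvPolynomial (Fin 5) K)] derMod (arr K s)) (g : derMod (arr K s) →ₗ[(MvPolynomial (Fin 5) K)] LinearMap.ker ψ),
      Function.Injective f ∧ Function.Surjective g ∧ Function.Exact f g := by
  have hker : ∀ f, f ∈ LinearMap.ker ψ ↔ f.1 2 ∈ J K := by
    intro f
    have := hψ f 0
    simpa using this
  have z3 : (![0, 0, 0] : Fin 3 → (MvPolynomial (Fin 5) K)) ∈ Dp K s := by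
    have : (![0, 0, 0] : Fin 3 → (MvPolynomial (Fin 5) K)) = 0 := by ext1 i; fin_cases i <;> rfl
    rw [this]; exact zero_mem _
  let θt : derMod (arr K s) := ⟨mkDerivation K ![X 0, 0, 0, 0, 0], by
    rw [mem_der]; simp [mkDerivation_X, z3]⟩
  let θw : derMod (arr K s) := ⟨mkDerivation K ![0, X 1 * (X 1 + X 4), 0, 0, 0], by
    rw [mem_der]; simp [mkDerivation_X, z3]⟩
  let f : ((MvPolynomial (Fin 5) K) × (MvPolynomial (Fin 5) K)) →ₗ[(MvPolynomial (Fin 5) K)] derMod (arr K s) :=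
    (LinearMap.toSpanSingleton (MvPolynomial (Fin 5) K) _ θt).coprod (LinearMap.toSpanSingleton (MvPolynomial (Fin 5) K) _ θw)
  have hf : ∀ a b i, (f (a, b)).1 (X i) = ![a * X 0, b * (X 1 * (X 1 + X 4)), 0, 0, 0] i := by
    intro a b i
    fin_cases i <;> simp [f, θt, θw, mkDerivation_X]
  let g0 : derMod (arr K s) →ₗ[(MvPolynomial (Fin 5) K)] Dp K s :=
    { toFun := fun θ => ⟨![θ.1 (X 2), θ.1 (X 3), θ.1 (X 4)], ((mem_der s θ.1).1 θ.2).2.2.2⟩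
      map_add' := fun a b => by
        ext1; ext1 i; fin_cases i <;> simp
      map_smul' := fun c a => by
        ext1; ext1 i; fin_cases i <;> simp }
  have hg0 : ∀ θ, (g0 θ).1 = ![θ.1 (X 2), θ.1 (X 3), θ.1 (X 4)] := fun θ => rfl
  have hmem : ∀ θ, g0 θ ∈ LinearMap.ker ψ := by
    intro θ
    rw [hker, hg0]
    obtain ⟨-, ⟨a, ha⟩, ⟨b, hb⟩, -⟩ := (mem_der s θ.1).1 θ.2
    exact Ideal.mem_span_pair.2 ⟨b, b - a, by
      simp only [Matrix.cons_val]; linear_combination ha - hb⟩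
  have P14 : Prime (X 1 + X 4 : (MvPolynomial (Fin 5) K)) := by
    have := lin_prime (![0, 1, 0, 0, 1] : Fin 5 → K) (fun h => by simpa using congrFun h 1)
    simpa [lin, Fin.sum_univ_five] using this
  refine ⟨f, LinearMap.codRestrict _ g0 hmem, ?_, ?_, ?_⟩
  · rw [injective_iff_map_eq_zero]
    rintro ⟨a, b⟩ h
    have h0 := hf a b 0
    have h1 := hf a b 1
    rw [h] at h0 h1
    simp [X_ne_zero, P14.ne_zero] at h0 h1
    rw [h0, h1]; rfl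
  · rintro ⟨u, hu⟩
    obtain ⟨a, b, hab⟩ := Ideal.mem_span_pair.1 ((hker u).1 hu)
    have e : ![u.1 0, u.1 1, u.1 2] = u.1 := by ext1 i; fin_cases i <;> rfl
    refine ⟨⟨mkDerivation K ![0, X 1 * (a - b), u.1 0, u.1 1, u.1 2], ?_⟩, ?_⟩
    · rw [mem_der]
      simp only [mkDerivation_X, Matrix.cons_val, dvd_zero, dvd_mul_right, true_and, e]
      exact ⟨⟨a, by rw [← hab]; ring⟩, u.2⟩
    · ext1; ext1
      rw [LinearMap.codRestrict_apply, hg0]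
      simp only [mkDerivation_X, Matrix.cons_val, e]
  · intro θ
    rw [Subtype.ext_iff, Subtype.ext_iff, LinearMap.codRestrict_apply, hg0]
    constructor
    · intro h
      have h2 : θ.1 (X 2) = 0 := congrFun h 0
      have h3 : θ.1 (X 3) = 0 := congrFun h 1
      have h4 : θ.1 (X 4) = 0 := congrFun h 2
      obtain ⟨⟨a, ha⟩, hb, hc, -⟩ := (mem_der s θ.1).1 θ.2
      rw [h4, add_zero] at hc
      obtain ⟨b, hb⟩ := mul_dvd_of_pt X_prime ![0, 0, 0, 0, 1] (by simp) (by simp) hb hc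
      refine ⟨(a, b), Subtype.ext (derivation_ext fun i => ?_)⟩
      rw [hf]
      fin_cases i <;> simp [ha, hb, h2, h3, h4, mul_comm]
    · rintro ⟨⟨a, b⟩, rfl⟩
      simp only [hf]
      ext1 i; fin_cases i <;> rfl

lemma der_prod {l : ℕ} {ι : Type} (θ : Derivation K (MvPolynomial (Fin l) K)
    (MvPolynomial (Fin l) K)) (L c : ι → MvPolynomial (Fin l) K) (h : ∀ j, θ (L j) = L j * c j)
    (T : Finset ι) : θ (∏ j ∈ T, L j) = (∏ j ∈ T, L j) * ∑ j ∈ T, c j := by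
  classical
  induction T using Finset.induction_on with
  | empty => simp
  | insert a T ha ih =>
    rw [Finset.prod_insert ha, Finset.sum_insert ha, Derivation.leibniz, ih, h]
    simp only [smul_eq_mul]
    ring

lemma ses_D0 [CharZero K] {l d : ℕ} (a : Fin (d + 1) → Fin l → K) (ha : ∀ j, a j ≠ 0) :
    ∃ (f : derMod0 a →ₗ[MvPolynomial (Fin l) K] derMod a)
      (g : derMod a →ₗ[MvPolynomial (Fin l) K] MvPolynomial (Fin l) K),
      Function.Injective f ∧ Function.Surjective g ∧ Function.Exact f g := by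
  have hQ : (∏ j, lin (a j)) ≠ 0 := Finset.prod_ne_zero_iff.2 fun j _ => lin_ne_zero _ (ha j)
  have hinj : Function.Injective (LinearMap.lsmul (MvPolynomial (Fin l) K)
      (MvPolynomial (Fin l) K) (∏ j, lin (a j))) := fun x y h => mul_left_cancel₀ hQ h
  let φ : derMod a →ₗ[MvPolynomial (Fin l) K] MvPolynomial (Fin l) K :=
    { toFun := fun θ => θ.1 (∏ j, lin (a j))
      map_add' := fun _ _ => by simp
      map_smul' := fun _ _ => by simp }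
  have hφ : ∀ θ, φ θ ∈ LinearMap.range (LinearMap.lsmul (MvPolynomial (Fin l) K)
      (MvPolynomial (Fin l) K) (∏ j, lin (a j))) := by
    intro θ
    have h : ∀ j, ∃ c, θ.1 (lin (a j)) = lin (a j) * c := θ.2
    choose c hc using h
    exact ⟨_, (der_prod θ.1 _ c hc Finset.univ).symm⟩
  have hg := LinearMap.codRestrictOfInjective_comp_apply φ _ hinj hφ
  refine ⟨Submodule.inclusion fun θ h => h.1, LinearMap.codRestrictOfInjective φ _ hinj hφ,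
    Submodule.inclusion_injective _, ?_, ?_⟩
  · have hE : ∀ j, mkDerivation K (X : Fin l → MvPolynomial (Fin l) K) (lin (a j)) =
        lin (a j) * 1 := by
      intro j
      simp [lin, map_sum, mkDerivation_X]
    let θE : derMod a := ⟨mkDerivation K X, fun j => ⟨1, hE j⟩⟩
    intro y
    refine ⟨(y * C ((d + 1 : ℕ) : K)⁻¹) • θE, hinj ?_⟩
    rw [hg, map_smul]
    change _ * mkDerivation K X (∏ j, lin (a j)) = _
    rw [der_prod _ _ _ hE]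
    have : (C ((d + 1 : ℕ) : K)⁻¹ : MvPolynomial (Fin l) K) * ((d + 1 : ℕ) : _) = 1 := by
      rw [← map_natCast C, ← map_mul, inv_mul_cancel₀ (Nat.cast_ne_zero.2 (by omega)), map_one]
    simp only [Finset.sum_const, Finset.card_univ, Fintype.card_fin, nsmul_eq_mul, mul_one,
      LinearMap.lsmul_apply, smul_eq_mul]
    linear_combination (y * ∏ j, lin (a j)) * this
  · intro θ
    rw [← hinj.eq_iff, hg, map_zero]
    constructor
    · intro h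
      exact ⟨⟨θ.1, θ.2, h⟩, rfl⟩
    · rintro ⟨η, rfl⟩
      exact η.2.2

/-- the extra derivation for the first arrangement -/
noncomputable def th (K : Type) [Field K] : Fin 3 → MvPolynomial (Fin 5) K :=
  ![3 * X 2 ^ 4 + (-1) * X 2 ^ 3 * X 3 + 3 * X 2 ^ 3 * X 4 + (-3) * X 2 ^ 2 * X 3 ^ 2
      + (-12) * X 2 ^ 2 * X 4 ^ 2 + 6 * X 2 * X 3 ^ 3 + 18 * X 2 * X 3 ^ 2 * X 4
      + 4 * X 2 * X 3 * X 4 ^ 2 + (-12) * X 2 * X 4 ^ 3,
    (-15) * X 2 ^ 2 * X 3 ^ 2 + (-18) * X 2 ^ 2 * X 3 * X 4 + (-18) * X 2 * X 3 ^ 3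
      + (-33) * X 2 * X 3 ^ 2 * X 4 + (-18) * X 2 * X 3 * X 4 ^ 2 + 2 * X 3 ^ 4
      + 12 * X 3 ^ 3 * X 4 + 22 * X 3 ^ 2 * X 4 ^ 2 + 12 * X 3 * X 4 ^ 3,
    3 * X 2 ^ 2 * X 3 ^ 2 + 3 * X 2 * X 3 ^ 3]

lemma th_mem : th K ∈ Dp K 2 := by
  intro j
  fin_cases j
  · exact ⟨(-15) * X 2 ^ 2 * X 3 + (-18) * X 2 ^ 2 * X 4 + (-18) * X 2 * X 3 ^ 2
      + (-33) * X 2 * X 3 * X 4 + (-18) * X 2 * X 4 ^ 2 + 2 * X 3 ^ 3 + 12 * X 3 ^ 2 * X 4
      + 22 * X 3 * X 4 ^ 2 + 12 * X 4 ^ 3, by simp [ap, Z, th, xyz]; ring⟩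
  · exact ⟨3 * X 2 ^ 3 + (-1) * X 2 ^ 2 * X 3 + 3 * X 2 ^ 2 * X 4 + (-3) * X 2 * X 3 ^ 2
      + (-12) * X 2 * X 4 ^ 2 + 6 * X 3 ^ 3 + 18 * X 3 ^ 2 * X 4 + 4 * X 3 * X 4 ^ 2
      + (-12) * X 4 ^ 3, by simp [ap, Z, th, xyz]; ring⟩
  · exact ⟨3 * X 2 ^ 3 + (-1) * X 2 ^ 2 * X 3 + 9 * X 2 ^ 2 * X 4 + (-9) * X 2 * X 3 ^ 2
      + (-2) * X 2 * X 3 * X 4 + 6 * X 2 * X 4 ^ 2, by simp [ap, Z, th, xyz]; ring⟩
  · exact ⟨(-9) * X 2 ^ 2 * X 3 + (-12) * X 2 * X 3 ^ 2 + (-9) * X 2 * X 3 * X 4 + 2 * X 3 ^ 3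
      + 8 * X 3 ^ 2 * X 4 + 6 * X 3 * X 4 ^ 2, by simp [ap, Z, th, xyz]; ring⟩
  · exact ⟨3 * X 2 ^ 3 + (-4) * X 2 ^ 2 * X 3 + (-11) * X 2 * X 3 ^ 2 + (-14) * X 2 * X 3 * X 4
      + (-12) * X 2 * X 4 ^ 2 + 2 * X 3 ^ 3 + 10 * X 3 ^ 2 * X 4 + 12 * X 3 * X 4 ^ 2,
      by simp [ap, Z, th, xyz]; ring⟩
  · exact ⟨(-6) * X 2 ^ 2 * X 3 + (-9) * X 2 * X 3 ^ 2 + (-6) * X 2 * X 3 * X 4 + 2 * X 3 ^ 3
      + 6 * X 3 ^ 2 * X 4 + 4 * X 3 * X 4 ^ 2, by simp [ap, Z, th, xyz]; ring⟩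
  · exact ⟨3 * X 2 ^ 3 + (-7) * X 2 ^ 2 * X 3 + (-3) * X 2 ^ 2 * X 4 + (-13) * X 2 * X 3 ^ 2
      + (-16) * X 2 * X 3 * X 4 + (-6) * X 2 * X 4 ^ 2 + 2 * X 3 ^ 3 + 10 * X 3 ^ 2 * X 4
      + 12 * X 3 * X 4 ^ 2, by simp [ap, Z, th, xyz]; ring⟩
  · exact ⟨3 * X 2 ^ 3 + (-4) * X 2 ^ 2 * X 3 + (-3) * X 2 ^ 2 * X 4 + (-8) * X 2 * X 3 ^ 2
      + (-7) * X 2 * X 3 * X 4 + (-6) * X 2 * X 4 ^ 2 + 2 * X 3 ^ 3 + 8 * X 3 ^ 2 * X 4
      + 6 * X 3 * X 4 ^ 2, by simp [ap, Z, th, xyz]; ring⟩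

theorem pd_one [CharZero K] : PD (MvPolynomial (Fin 5) K) 2 (derMod (arr K 2)) := by
  obtain ⟨ψ, hψ⟩ := exists_psi (K := K) 2 (by norm_num) (by norm_num) (by norm_num)
  obtain ⟨f, g, hf, hg, h⟩ := ses_D 2 ψ hψ
  have hs : Function.Surjective ψ := by
    intro y
    obtain ⟨p, rfl⟩ := (J K).mkQ_surjective y
    refine ⟨(p * C (3 : K)⁻¹) • ⟨th K, th_mem⟩, (hψ _ _).2 ?_⟩
    have : (C (3 : K)⁻¹ : (MvPolynomial (Fin 5) K)) * 3 = 1 := by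
      rw [← map_ofNat C 3, ← map_mul, inv_mul_cancel₀ (by norm_num), map_one]
    have e : ((p * C (3 : K)⁻¹) • (⟨th K, th_mem⟩ : Dp K 2)).1 2 - Bp K * p = 0 := by
      simp only [SetLike.val_smul, Pi.smul_apply, smul_eq_mul, th, Matrix.cons_val, Bp]
      linear_combination (p * X 2 * (X 2 + X 3) * X 3 ^ 2) * this
    rw [e]; exact zero_mem _
  exact PD.x2 f g hf hg h (pd_proj 1) (PD.ker ψ hs (pd_Dp 2) pd_T)

end Pool.Agent.H2.Pdim
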