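import Pool.Agent.H2.PD4

open MvPolynomial RingTheory.Sequence Pool.Agent.Lead.POG

namespace Pool.Agent.H2.Pdim

variable {K : Type} [Field K]

/-- evaluation along a line through the origin -/
noncomputable def evl (K : Type) [Field K] (q : Fin 3 → ℤ) :
    MvPolynomial (Fin 5) K →ₐ[K] Polynomial K :=
  aeval fun i => Polynomial.C (up (cst K q) i) * Polynomial.X

lemma evl_mono (q : Fin 3 → ℤ) (m : Fin 5 →₀ ℕ) (a : K) :
    (evl K q (monomial m a)).coeff 4 =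
      a * ((if m 0 = 0 ∧ m 1 = 0 ∧ m 2 + m 3 + m 4 = 4 then q 0 ^ m 2 * q 1 ^ m 3 * q 2 ^ m 4
        else 0 : ℤ) : K) := by
  have e : evl K q (monomial m a) = Polynomial.C (a * (0 ^ m 0 * 0 ^ m 1 * (q 0 : K) ^ m 2 *
      (q 1 : K) ^ m 3 * (q 2 : K) ^ m 4)) * Polynomial.X ^ (m 0 + m 1 + m 2 + m 3 + m 4) := by
    rw [evl, aeval_monomial, Finsupp.prod_fintype _ _ (by simp), Fin.prod_univ_five]
    simp only [up, cst, Matrix.cons_val, mul_pow, map_mul, map_pow, Polynomial.algebraMap_eq]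
    ring
  rw [e, Polynomial.coeff_C_mul_X_pow]
  by_cases h0 : m 0 = 0
  · by_cases h1 : m 1 = 0
    · simp only [h0, h1, pow_zero, one_mul, zero_add, true_and]
      by_cases h : m 2 + m 3 + m 4 = 4
      · rw [if_pos h.symm, if_pos h]; push_cast; ring
      · rw [if_neg (fun hh => h hh.symm), if_neg h]; simp
    · simp [h1]
  · simp [h0]

/-- certificate: lines -/
def cj : Fin 28 → Fin 8 :=
  ![0, 0, 1, 1, 1, 2, 2, 2, 2, 3, 3, 3, 4, 4, 4, 4, 4, 5, 5, 6, 6, 6, 6, 6, 7, 7, 7, 7]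

/-- certificate: points -/
def cq : Fin 28 → Fin 3 → ℤ :=
  ![![0, 0, 1], ![1, 0, 2], ![0, 1, 0], ![0, 1, 2], ![0, 2, -1], ![0, 1, 0], ![2, -3, 1], ![2,
    -1, 1], ![2, 1, 1], ![0, 1, 1], ![1, -1, -1], ![1, 0, 0], ![0, 1, -1], ![1, -2, 1], ![1, 1,
    -2], ![1, 2, -3], ![2, -1, -1], ![2, 3, -1], ![3, -3, 1], ![0, 1, -1], ![1, -1, 2], ![1, 0,
    1], ![1, 2, -1], ![2, 1, 1], ![0, 1, 1], ![1, -2, -1], ![1, 1, 2], ![2, -1, 1]]

/-- certificate: coefficients -/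
def cc : Fin 28 → ℤ :=
  ![2880, -360, 5940, 36, -216, -4320, 45, 270, -90, 540, -180, 1080, 8775, -575, 820, -261,
    -134, 9, 36, 495, -60, -1170, 30, 75, -1710, 160, 160, -110]

lemma cert1 : ∀ i, Z (-1) (cj i) 0 * cq i 0 + Z (-1) (cj i) 1 * cq i 1 +
    Z (-1) (cj i) 2 * cq i 2 = 0 := by decide +kernel

lemma cert2 : ∀ (k : Fin 3) (a b c : Fin 5), a.1 + b.1 + c.1 = 4 →
    ∑ i, cc i * Z (-1) (cj i) k * (cq i 0 ^ a.1 * cq i 1 ^ b.1 * cq i 2 ^ c.1) =
      if k = 2 then 360 * (1 ^ a.1 * 2 ^ b.1 * 0 ^ c.1) else 0 := by decide +kernel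

lemma cert3 (k : Fin 3) (F : (MvPolynomial (Fin 5) K)) :
    ∑ i, ((cc i * Z (-1) (cj i) k : ℤ) : K) * (evl K (cq i) F).coeff 4 =
      if k = 2 then 360 * (evl K ![1, 2, 0] F).coeff 4 else 0 := by
  induction F using MvPolynomial.induction_on' with
  | monomial m a =>
    simp only [evl_mono]
    by_cases h : m 0 = 0 ∧ m 1 = 0 ∧ m 2 + m 3 + m 4 = 4
    · simp only [if_pos h]
      have := cert2 k ⟨m 2, by omega⟩ ⟨m 3, by omega⟩ ⟨m 4, by omega⟩ h.2.2
      have h2 := congrArg (fun z : ℤ => a * (z : K)) this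
      simp only [Int.cast_sum, Finset.mul_sum] at h2
      refine Eq.trans (Finset.sum_congr rfl fun i _ => ?_) (h2.trans ?_)
      · push_cast; ring
      · split_ifs
        · simp only [Matrix.cons_val]; push_cast; ring
        · simp
    · simp [if_neg h]
  | add p q hp hq =>
    simp only [map_add, Polynomial.coeff_add, mul_add, Finset.sum_add_distrib, hp, hq]
    split_ifs <;> simp

lemma evl_ap (q c : Fin 3 → ℤ) (f : Fin 3 → (MvPolynomial (Fin 5) K)) : (evl K q (ap c f)).coeff 4 =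
    c 0 * (evl K q (f 0)).coeff 4 + c 1 * (evl K q (f 1)).coeff 4 +
      c 2 * (evl K q (f 2)).coeff 4 := by
  simp [ap]

lemma no_lift [CharZero K] (f : Fin 3 → (MvPolynomial (Fin 5) K)) (hf : f ∈ Dp K (-1)) (g : (MvPolynomial (Fin 5) K)) :
    f 2 - Bp K * (1 - X 0 * g) ∉ J K := by
  intro h
  have h1 : ∀ i, (evl K (cq i) (ap (Z (-1) (cj i)) f)).coeff 4 = 0 := by
    intro i
    obtain ⟨u, hu⟩ := hf (cj i)
    have e : evl K (cq i) (ap (Z (-1) (cj i)) (xyz K)) = 0 := by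
      have := congrArg (fun z : ℤ => (z : Polynomial K) * Polynomial.X) (cert1 i)
      simp only [ap, xyz, evl, map_add, map_mul, map_intCast, Matrix.cons_val, aeval_X, up, cst]
      push_cast at this
      linear_combination this
    rw [hu, map_mul, e, zero_mul, Polynomial.coeff_zero]
  have h2 : ∑ i, (cc i : K) * (evl K (cq i) (ap (Z (-1) (cj i)) f)).coeff 4 = 0 := by
    simp [h1]
  have h3 : (360 : K) * (evl K ![1, 2, 0] (f 2)).coeff 4 = 0 := by
    have a0 := cert3 (K := K) 0 (f 0)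
    have a1 := cert3 (K := K) 1 (f 1)
    have a2 := cert3 (K := K) 2 (f 2)
    rw [if_neg (by decide)] at a0 a1
    rw [if_pos rfl] at a2
    rw [← a2, ← h2, ← zero_add (∑ i, _ * (evl K (cq i) (f 2)).coeff 4), ← zero_add 0]
    nth_rewrite 1 [← a0]
    nth_rewrite 1 [← a1]
    rw [← Finset.sum_add_distrib, ← Finset.sum_add_distrib]
    refine Finset.sum_congr rfl fun i _ => ?_
    rw [evl_ap]; push_cast; ring
  obtain ⟨a, b, hab⟩ := Ideal.mem_span_pair.1 h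
  have h4 : evl K ![1, 2, 0] (f 2) = Polynomial.C 12 * Polynomial.X ^ 4 := by
    have : f 2 = Bp K * (1 - X 0 * g) + (a * X 4 + b * X 1) := by rw [hab]; ring
    rw [this]
    simp [evl, Bp, up, cst, map_ofNat]
    ring
  rw [h4, Polynomial.coeff_C_mul_X_pow] at h3
  norm_num at h3

lemma prod_mem (s : ℤ) (j0 : Fin 8) (v : Fin 3 → ℤ)
    (hv : Z s j0 0 * v 0 + Z s j0 1 * v 1 + Z s j0 2 * v 2 = 0) :
    (fun k => (∏ j, if j = j0 then 1 else ap (Z s j) (xyz K)) * (v k : (MvPolynomial (Fin 5) K))) ∈ Dp K s := by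
  intro j
  have e : ap (Z s j) (fun k => (∏ j, if j = j0 then 1 else ap (Z s j) (xyz K)) * (v k : (MvPolynomial (Fin 5) K))) =
      (∏ j, if j = j0 then 1 else ap (Z s j) (xyz K)) *
        ((Z s j 0 * v 0 + Z s j 1 * v 1 + Z s j 2 * v 2 : ℤ) : (MvPolynomial (Fin 5) K)) := by
    rw [ap]; push_cast; ring
  rw [e]
  by_cases h : j = j0
  · subst h
    rw [hv]; simp
  · refine Dvd.dvd.mul_right ?_ _
    have := Finset.dvd_prod_of_mem (fun j => if j = j0 then 1 else ap (Z s j) (xyz K))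
      (Finset.mem_univ j)
    rwa [if_neg h] at this

lemma t_reg [CharZero K] (s : ℤ) (f : Fin 3 → (MvPolynomial (Fin 5) K)) (hf : f ∈ Dp K s) (g : (MvPolynomial (Fin 5) K))
    (h : f 2 - Bp K * (X 0 * g) ∈ J K) : ∃ f' ∈ Dp K s, f' 2 - Bp K * g ∈ J K := by
  have hk : ∀ p : (MvPolynomial (Fin 5) K), ∃ p', p - kill K {0} p = X 0 * p' := fun p =>
    Ideal.mem_span_singleton.1 (sub_kill {0} (Ideal.span {X 0}) (by
      intro i hi
      rw [Finset.mem_singleton.1 hi]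
      exact Ideal.subset_span rfl) p)
  choose D hD using hk
  refine ⟨fun k => D (f k), fun j => ?_, ?_⟩
  · obtain ⟨u, hu⟩ := hf j
    have e1 : kill K {0} (ap (Z s j) (xyz K)) = ap (Z s j) (xyz K) := by
      simp [ap, xyz, kill_X]
    have e2 := congrArg (kill K {0}) hu
    rw [map_mul, e1] at e2
    have hd : ap (Z s j) (xyz K) ∣ X 0 * ap (Z s j) fun k => D (f k) := by
      refine ⟨u - kill K {0} u, ?_⟩
      rw [mul_sub, ← hu, ← e2]
      simp only [ap, map_add, map_mul, map_intCast]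
      linear_combination -(Z s j 0 : (MvPolynomial (Fin 5) K)) * hD (f 0) - (Z s j 1 : (MvPolynomial (Fin 5) K)) * hD (f 1)
        - (Z s j 2 : (MvPolynomial (Fin 5) K)) * hD (f 2)
    rcases (prime_ap _ (Z_ne s j)).dvd_or_dvd hd with ⟨c, hc⟩ | hc
    · have := congrArg (eval ![1, 0, 0, 0, 0]) hc
      simp [ap, xyz] at this
    · exact hc
  · obtain ⟨a, b, hab⟩ := Ideal.mem_span_pair.1 h
    have e := congrArg (kill K {0}) hab
    simp only [map_add, map_mul, map_sub, kill_X] at e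
    simp at e
    refine Ideal.mem_span_pair.2 ⟨D a, D b, mul_left_cancel₀ (X_ne_zero (R := K) (0 : Fin 5)) ?_⟩
    linear_combination hab - e - X 4 * hD a - X 1 * hD b + hD (f 2)

theorem not_V_two [CharZero K] : ¬ VX K 3 (derMod (arr K (-1))) := by
  intro hV
  obtain ⟨ψ, hψ⟩ := exists_psi (K := K) (-1) (by norm_num) (by norm_num) (by norm_num)
  obtain ⟨f, g, hf, hg, h⟩ := ses_D (-1) ψ hψ
  have h1 : VX K 3 (LinearMap.ker ψ) := V.x3 f g hf hg h hV (VX_pd (pd_proj 0) 4 (by norm_num))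
  have h2 : VX K 2 (LinearMap.range ψ) := by
    refine V.x3 (LinearMap.ker ψ).subtype ψ.rangeRestrict (Submodule.injective_subtype _)
      ψ.surjective_rangeRestrict ?_ (VX_pd (pd_Dp (-1)) 2 (by norm_num)) h1
    intro y
    rw [Subtype.ext_iff]
    simp
  have h3 : VX K 1 (((MvPolynomial (Fin 5) K) ⧸ J K) ⧸ LinearMap.range ψ) :=
    V.x3 (LinearMap.range ψ).subtype (LinearMap.range ψ).mkQ (Submodule.injective_subtype _)
      (Submodule.mkQ_surjective _) (LinearMap.exact_subtype_mkQ _)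
      (VX_pd pd_T 1 (by norm_num)) h2
  have hr : IsSMulRegular (((MvPolynomial (Fin 5) K) ⧸ J K) ⧸ LinearMap.range ψ) (X 0 : (MvPolynomial (Fin 5) K)) := by
    rw [isSMulRegular_quotient_iff_mem_of_smul_mem]
    rintro y ⟨u, hu⟩
    obtain ⟨p, rfl⟩ := (J K).mkQ_surjective y
    rw [← map_smul, hψ] at hu
    obtain ⟨f', hf', h'⟩ := t_reg (-1) u.1 u.2 p hu
    exact ⟨⟨f', hf'⟩, (hψ _ _).2 h'⟩
  have h4 : VX K 0 (QuotSMulTop (X 0 : (MvPolynomial (Fin 5) K)) (((MvPolynomial (Fin 5) K) ⧸ J K) ⧸ LinearMap.range ψ)) :=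
    V.x3 (LinearMap.lsmul (MvPolynomial (Fin 5) K) _ (X 0)) _ hr (Submodule.mkQ_surjective _) (exact_quot (X 0 : (MvPolynomial (Fin 5) K)))
      (V_step X 0 hr).1 h3
  have hz : ∀ p : (MvPolynomial (Fin 5) K), (J K).mkQ p ∈ LinearMap.range ψ → p • (Submodule.Quotient.mk
      ((LinearMap.range ψ).mkQ ((J K).mkQ 1)) :
        QuotSMulTop (X 0 : (MvPolynomial (Fin 5) K)) (((MvPolynomial (Fin 5) K) ⧸ J K) ⧸ LinearMap.range ψ)) = 0 := by
    intro p hp
    rw [← Submodule.Quotient.mk_smul, ← map_smul, ← map_smul, smul_eq_mul, mul_one,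
      Submodule.mkQ_apply, (Submodule.Quotient.mk_eq_zero _).2 hp, Submodule.Quotient.mk_zero]
  have g0 : (J K).mkQ (X 2 * (X 2 + X 3) * (X 2 - X 3)) ∈ LinearMap.range ψ :=
    ⟨⟨_, prod_mem (-1) 0 ![0, 0, 1] (by decide)⟩, (hψ _ _).2 (by
      rw [mem_J]; simp [Fin.prod_univ_eight, Z, ap, xyz, Bp, kill_X]; ring)⟩
  have g1 : (J K).mkQ (X 3 * (X 2 + X 3) * (X 2 - X 3)) ∈ LinearMap.range ψ :=
    ⟨⟨_, prod_mem (-1) 1 ![0, 0, 1] (by decide)⟩, (hψ _ _).2 (by
      rw [mem_J]; simp [Fin.prod_univ_eight, Z, ap, xyz, Bp, kill_X]; ring)⟩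
  have g4 : (J K).mkQ (X 2 * X 3 * (X 2 - X 3)) ∈ LinearMap.range ψ :=
    ⟨⟨_, prod_mem (-1) 4 ![-1, 0, 1] (by decide)⟩, (hψ _ _).2 (by
      rw [mem_J]; simp [Fin.prod_univ_eight, Z, ap, xyz, Bp, kill_X]; ring)⟩
  have g6 : (J K).mkQ (X 2 * X 3 * (X 2 + X 3)) ∈ LinearMap.range ψ :=
    ⟨⟨_, prod_mem (-1) 6 ![1, 0, 1] (by decide)⟩, (hψ _ _).2 (by
      rw [mem_J]; simp [Fin.prod_univ_eight, Z, ap, xyz, Bp, kill_X]; ring)⟩
  have h2inv : (C (2 : K)⁻¹ : (MvPolynomial (Fin 5) K)) * 2 = 1 := by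
    rw [← map_ofNat C 2, ← map_mul, inv_mul_cancel₀ (by norm_num), map_one]
  refine not_V_zero X (Submodule.Quotient.mk ((LinearMap.range ψ).mkQ ((J K).mkQ 1))) ?_ ?_ h4
  · intro h0
    rw [Submodule.Quotient.mk_eq_zero, Submodule.mem_smul_pointwise_iff_exists] at h0
    obtain ⟨y, -, hy⟩ := h0
    obtain ⟨y, rfl⟩ := (LinearMap.range ψ).mkQ_surjective y
    obtain ⟨p, rfl⟩ := (J K).mkQ_surjective y
    rw [← map_smul, ← map_smul, eq_comm, ← sub_eq_zero, ← map_sub, ← map_sub, Submodule.mkQ_apply,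
      Submodule.Quotient.mk_eq_zero] at hy
    obtain ⟨u, hu⟩ := hy
    exact no_lift u.1 u.2 p ((hψ _ _).1 hu)
  · have hJ : ∀ p ∈ J K, (J K).mkQ p ∈ LinearMap.range ψ := by
      intro p hp
      rw [Submodule.mkQ_apply, (Submodule.Quotient.mk_eq_zero _).2 hp]
      exact zero_mem _
    intro i
    fin_cases i
    · refine ⟨1, ?_⟩
      rw [pow_one, ← Submodule.Quotient.mk_smul, Submodule.Quotient.mk_eq_zero]
      exact Submodule.smul_mem_pointwise_smul _ _ _ trivial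
    · exact ⟨1, hz _ (hJ _ (by rw [mem_J]; simp [kill_X]))⟩
    · refine ⟨3, hz _ ?_⟩
      have := add_mem g0 (Submodule.smul_mem _ (C (2 : K)⁻¹) (sub_mem g6 g4))
      rw [← map_sub, ← map_smul, ← map_add] at this
      have e : (X 2 : (MvPolynomial (Fin 5) K)) ^ 3 = X 2 * (X 2 + X 3) * (X 2 - X 3) + (C (2 : K)⁻¹ : (MvPolynomial (Fin 5) K)) •
          (X 2 * X 3 * (X 2 + X 3) - X 2 * X 3 * (X 2 - X 3)) := by
        rw [smul_eq_mul]; linear_combination (-X 2 * X 3 ^ 2) * h2inv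
      rw [← e] at this
      exact this
    · refine ⟨3, hz _ ?_⟩
      have := sub_mem (Submodule.smul_mem _ (C (2 : K)⁻¹) (add_mem g6 g4)) g1
      rw [← map_add, ← map_smul, ← map_sub] at this
      have e : (X 3 : (MvPolynomial (Fin 5) K)) ^ 3 = (C (2 : K)⁻¹ : (MvPolynomial (Fin 5) K)) •
          (X 2 * X 3 * (X 2 + X 3) + X 2 * X 3 * (X 2 - X 3)) -
            X 3 * (X 2 + X 3) * (X 2 - X 3) := by
        rw [smul_eq_mul]; linear_combination (-X 2 ^ 2 * X 3) * h2inv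
      rw [← e] at this
      exact this
    · exact ⟨1, hz _ (hJ _ (by rw [mem_J]; simp [kill_X]))⟩

end Pool.Agent.H2.Pdim
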