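import Pool.Agent.H2.PD5

open MvPolynomial Pool.Agent.Lead.POG

namespace Pool.Agent.H2.Pdim

variable {K : Type} [Field K]

/-- the nine lines -/
def Bl (s : ℤ) : Fin 9 → Fin 3 → ℤ := Fin.cons ![0, 0, 1] (Z s)

/-- closure relation of the nine lines -/
def Cl (K : Type) [Field K] (s : ℤ) (T : Set (Fin 9)) (j : Fin 9) : Prop :=
  (⨅ i ∈ T, hyp (cst K (Bl s i))) ≤ hyp (cst K (Bl s j))

lemma Cl_same [CharZero K] (T : Set (Fin 9)) (j : Fin 9) : Cl K 2 T j ↔ Cl K (-1) T j := by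
  have a1 : ∀ i, Bl 2 i ≠ 0 := by decide
  have a2 : ∀ i, Bl (-1) i ≠ 0 := by decide
  have b1 : ∀ i j, cross (Bl 2 i) (Bl 2 j) = 0 → i = j := by decide +kernel
  have b2 : ∀ i j, cross (Bl (-1) i) (Bl (-1) j) = 0 → i = j := by decide +kernel
  have c : ∀ i j k, det3 (Bl 2 i) (Bl 2 j) (Bl 2 k) = 0 ↔
      det3 (Bl (-1) i) (Bl (-1) j) (Bl (-1) k) = 0 := by decide +kernel
  rw [Cl, Cl, le_iff_closure (fun i => cst K (Bl 2 i)) (fun i => cst_ne_zero _ (a1 i))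
      (fun i j h => b1 i j (cross_cst _ _ h)),
    le_iff_closure (fun i => cst K (Bl (-1) i)) (fun i => cst_ne_zero _ (a2 i))
      (fun i j h => b2 i j (cross_cst _ _ h))]
  simp only [ne_eq, det3_cst, c]

/-- value of a form -/
def fv (c : Fin 3 → ℤ) (a b d : K) : K := c 0 * a + c 1 * b + c 2 * d

lemma Cl_iff (s : ℤ) (T : Set (Fin 9)) (j : Fin 9) : Cl K s T j ↔
    ∀ a b d : K, (0 ∈ T → d = 0) → (∀ i : Fin 8, i.succ ∈ T → fv (Z s i) a b d = 0) →
      fv (Bl s j) a b d = 0 := by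
  have key : ∀ v : Fin 3 → K, v ∈ (⨅ i ∈ T, hyp (cst K (Bl s i))) ↔
      (0 ∈ T → v 2 = 0) ∧ ∀ i : Fin 8, i.succ ∈ T → fv (Z s i) (v 0) (v 1) (v 2) = 0 := by
    intro v
    simp only [Submodule.mem_iInf, mem_hyp3]
    rw [Fin.forall_fin_succ]
    simp [Bl, cst, fv]
  constructor
  · intro h a b d h1 h2
    have := h ((key ![a, b, d]).2 ⟨h1, h2⟩)
    rw [mem_hyp3] at this
    exact this
  · intro h v hv
    rw [mem_hyp3]
    exact h _ _ _ ((key v).1 hv).1 ((key v).1 hv).2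

lemma mem_inf (s : ℤ) (T : Set (Fin 11)) (v : Fin 5 → K) :
    v ∈ (⨅ i ∈ T, hyp (arr K s i)) ↔ (0 ∈ T → v 0 = 0) ∧ (1 ∈ T → v 1 = 0) ∧
      (2 ∈ T → v 1 + v 4 = 0) ∧
      ∀ i : Fin 8, i.succ.succ.succ ∈ T → fv (Z s i) (v 2) (v 3) (v 4) = 0 := by
  simp only [Submodule.mem_iInf, mem_hyp]
  rw [Fin.forall_fin_succ, Fin.forall_fin_succ, Fin.forall_fin_succ]
  simp only [arr, Fin.cons_zero, Fin.cons_succ, Fin.sum_univ_five]
  simp [up, cst, fv]

/-- index sets -/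
def tr (P : Prop) (T : Set (Fin 11)) : Set (Fin 9) :=
  {i | Fin.cases P (fun k : Fin 8 => k.succ.succ.succ ∈ T) i}

lemma le0 (s : ℤ) (T : Set (Fin 11)) :
    (⨅ i ∈ T, hyp (arr K s i)) ≤ hyp (arr K s 0) ↔ 0 ∈ T := by
  constructor
  · intro h
    by_contra h0
    have := h ((mem_inf s T ![1, 0, 0, 0, 0]).2 (by simp [h0, fv]))
    simp [mem_hyp, arr, Fin.sum_univ_five] at this
  · intro h
    exact biInf_le _ h

lemma le1 (s : ℤ) (T : Set (Fin 11)) :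
    (⨅ i ∈ T, hyp (arr K s i)) ≤ hyp (arr K s 1) ↔ 1 ∈ T ∨ (2 ∈ T ∧ Cl K s (tr False T) 0) := by
  have e : ∀ v : Fin 5 → K, v ∈ hyp (arr K s 1) ↔ v 1 = 0 := by
    intro v; simp [mem_hyp, arr, Fin.sum_univ_five]
  constructor
  · intro h
    by_cases h1 : 1 ∈ T
    · exact Or.inl h1
    by_cases h2 : 2 ∈ T
    · refine Or.inr ⟨h2, (Cl_iff s _ _).2 fun a b d _ hv => ?_⟩
      have := (e _).1 (h ((mem_inf s T ![0, -d, a, b, d]).2 ⟨by simp, by simp [h1], by simp, hv⟩))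
      simpa [fv, Bl] using this
    · have := (e _).1 (h ((mem_inf s T ![0, 1, 0, 0, 0]).2 (by simp [h1, h2, fv])))
      simp at this
  · rintro (h | ⟨h2, h⟩)
    · exact biInf_le _ h
    · intro v hv
      obtain ⟨-, -, a2, a3⟩ := (mem_inf s T v).1 hv
      have := (Cl_iff s _ _).1 h (v 2) (v 3) (v 4) (fun hh => hh.elim) a3
      simp [fv, Bl] at this
      rw [e]
      simpa [this] using a2 h2

lemma le2 (s : ℤ) (T : Set (Fin 11)) :
    (⨅ i ∈ T, hyp (arr K s i)) ≤ hyp (arr K s 2) ↔ 2 ∈ T ∨ (1 ∈ T ∧ Cl K s (tr False T) 0) := by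
  have e : ∀ v : Fin 5 → K, v ∈ hyp (arr K s 2) ↔ v 1 + v 4 = 0 := by
    intro v
    have : arr K s 2 = ![0, 1, 0, 0, 1] := rfl
    simp [mem_hyp, this, Fin.sum_univ_five]
  constructor
  · intro h
    by_cases h2 : 2 ∈ T
    · exact Or.inl h2
    by_cases h1 : 1 ∈ T
    · refine Or.inr ⟨h1, (Cl_iff s _ _).2 fun a b d _ hv => ?_⟩
      have := (e _).1 (h ((mem_inf s T ![0, 0, a, b, d]).2 ⟨by simp, by simp, by simp [h2], hv⟩))
      simpa [fv, Bl] using this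
    · have := (e _).1 (h ((mem_inf s T ![0, 1, 0, 0, 0]).2 (by simp [h1, h2, fv])))
      simp at this
  · rintro (h | ⟨h1, h⟩)
    · exact biInf_le _ h
    · intro v hv
      obtain ⟨-, a1, -, a3⟩ := (mem_inf s T v).1 hv
      have := (Cl_iff s _ _).1 h (v 2) (v 3) (v 4) (fun hh => hh.elim) a3
      simp [fv, Bl] at this
      rw [e, this, a1 h1, add_zero]

lemma le3 (s : ℤ) (T : Set (Fin 11)) (j : Fin 8) :
    (⨅ i ∈ T, hyp (arr K s i)) ≤ hyp (arr K s j.succ.succ.succ) ↔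
      Cl K s (tr (1 ∈ T ∧ 2 ∈ T) T) j.succ := by
  have e : ∀ v : Fin 5 → K, v ∈ hyp (arr K s j.succ.succ.succ) ↔
      fv (Z s j) (v 2) (v 3) (v 4) = 0 := by
    intro v
    simp only [mem_hyp, arr, Fin.cons_succ, Fin.sum_univ_five]
    simp [up, cst, fv]
  rw [Cl_iff]
  constructor
  · intro h a b d h0 hv
    by_cases h1 : 1 ∈ T
    · exact (e _).1 (h ((mem_inf s T ![0, 0, a, b, d]).2
        ⟨by simp, by simp, fun h2 => by simpa using h0 ⟨h1, h2⟩, hv⟩))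
    · exact (e _).1 (h ((mem_inf s T ![0, -d, a, b, d]).2 ⟨by simp, by simp [h1], by simp, hv⟩))
  · intro h v hv
    obtain ⟨-, a1, a2, a3⟩ := (mem_inf s T v).1 hv
    rw [e]
    refine h _ _ _ (fun hh => ?_) a3
    have := a2 hh.2
    rwa [a1 hh.1, zero_add] at this

theorem lat_iso [CharZero K] : Nonempty (lattice (arr K 2) ≃o lattice (arr K (-1))) := by
  apply lattice_iso
  intro T j
  refine Fin.cases ?_ (fun j => Fin.cases ?_ (fun j => Fin.cases ?_ (fun j => ?_) j) j) j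
  · rw [le0, le0]
  · exact (le1 2 T).trans ((by rw [Cl_same]) : _ ↔ _) |>.trans (le1 (-1) T).symm
  · exact (le2 2 T).trans ((by rw [Cl_same]) : _ ↔ _) |>.trans (le2 (-1) T).symm
  · rw [le3, le3, Cl_same]

/-- integer form of the arrangement -/
def arrZ (s : ℤ) : Fin 11 → Fin 5 → ℤ :=
  Fin.cons ![1, 0, 0, 0, 0] (Fin.cons ![0, 1, 0, 0, 0] (Fin.cons ![0, 1, 0, 0, 1]
    fun j => ![0, 0, Z s j 0, Z s j 1, Z s j 2]))

lemma arr_eq (s : ℤ) (j : Fin 11) (k : Fin 5) : arr K s j k = (arrZ s j k : K) := by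
  refine Fin.cases ?_ (fun j => Fin.cases ?_ (fun j => Fin.cases ?_ (fun j => ?_) j) j) j <;>
    simp only [arr, arrZ, Fin.cons_zero, Fin.cons_succ] <;> fin_cases k <;> simp [up, cst]

lemma isArr [CharZero K] (s : ℤ) (h1 : ∀ j, ∃ k, arrZ s j k ≠ 0)
    (h2 : ∀ i j, (∀ k m, arrZ s i k * arrZ s j m = arrZ s i m * arrZ s j k) → i = j) :
    IsArr (arr K s) := by
  have hne : ∀ j, arr K s j ≠ 0 := by
    intro j h
    obtain ⟨k, hk⟩ := h1 j
    have := congrFun h k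
    rw [arr_eq, Pi.zero_apply] at this
    exact hk (by exact_mod_cast this)
  refine ⟨hne, fun i j h => h2 i j fun k m => ?_⟩
  obtain ⟨c, hc⟩ := prop_of_hyp_le (arr K s i) (arr K s j) (hne j) (le_of_eq h.symm)
  have e1 := congrFun hc k
  have e2 := congrFun hc m
  simp only [Pi.smul_apply, smul_eq_mul, arr_eq] at e1 e2
  have : ((arrZ s i k * arrZ s j m : ℤ) : K) = ((arrZ s i m * arrZ s j k : ℤ) : K) := by
    push_cast; rw [e1, e2]; ring
  exact_mod_cast this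

lemma isArr_one [CharZero K] : IsArr (arr K 2) := isArr 2 (by decide +kernel) (by decide +kernel)
lemma isArr_two [CharZero K] : IsArr (arr K (-1)) :=
  isArr (-1) (by decide +kernel) (by decide +kernel)

lemma essential (s : ℤ) : (⨅ j, hyp (arr K s j)) = ⊥ := by
  rw [eq_bot_iff]
  intro v hv
  have : v ∈ ⨅ i ∈ (Set.univ : Set (Fin 11)), hyp (arr K s i) := by simpa using hv
  obtain ⟨a0, a1, a2, a3⟩ := (mem_inf s _ v).1 this
  have b0 := a3 0 trivial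
  have b1 := a3 1 trivial
  simp [fv, Z] at b0 b1
  have c1 := a1 trivial
  have c2 := a2 trivial
  rw [c1, zero_add] at c2
  rw [Submodule.mem_bot]
  funext i
  fin_cases i
  exacts [a0 trivial, c1, b1, b0, c2]

theorem not_pd_two [CharZero K] : ¬ PD (MvPolynomial (Fin 5) K) 2 (derMod (arr K (-1))) :=
  fun h => not_V_two (VX_pd h 3 (by norm_num))

lemma stably_iff [CharZero K] {d : ℕ} (a : Fin (d + 1) → Fin 5 → K) (ha : ∀ j, a j ≠ 0) :
    StablyFree (n := 4) a ↔ VX K 3 (derMod a) := by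
  obtain ⟨f, g, hf, hg, h⟩ := ses_D0 a ha
  constructor
  · intro hs
    exact V.x2 f g hf hg h ((V_iff _ 2).2 (hs 2 le_rfl le_rfl)) (VX_pd (pd_proj 0) 3 (by norm_num))
  · intro hV i h1 h2
    obtain rfl : i = 2 := by omega
    exact (V_iff _ 2).1 (V.x1 f g hf hg h (VX_pd (pd_proj 0) 2 (by norm_num)) hV)

end Pool.Agent.H2.Pdim
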