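import Pool.Agent.Lead.POGDefs

open MvPolynomial

namespace Pool.Agent.H2.Pdim

section Cech

variable {R : Type} [CommRing R] {ι : Type} (x : ι → R)

/-- The multiplicative set generated by `x (σ 0), ..., x (σ (p - 1))`. -/
def mulSet {p : ℕ} (σ : Fin p → ι) : Submonoid R :=
  Submonoid.closure (Set.range fun j => x (σ j))

lemma mulSet_le {p q : ℕ} (τ : Fin q → ι) (f : Fin p → Fin q) :
    mulSet x (τ ∘ f) ≤ mulSet x τ :=
  Submonoid.closure_mono (by rintro _ ⟨j, rfl⟩; exact ⟨f j, rfl⟩)

variable (M : Type) [AddCommGroup M] [Module R M]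

/-- Families `c σ` in `M` localized at `x (σ 0), ..., x (σ (p - 1))`, over all `p`-tuples of
indices: the Cech `(p - 1)`-cochains of the cover by the sets `x i ≠ 0`. -/
abbrev Cochain (p : ℕ) : Type :=
  (σ : Fin p → ι) → LocalizedModule (mulSet x σ) M

/-- The Cech differential `(d c) τ = ∑ j, (-1) ^ j * c (τ with the j-th index removed)`. -/
noncomputable def cechD (p : ℕ) : Cochain x M p →ₗ[R] Cochain x M (p + 1) :=
  LinearMap.pi fun τ => ∑ j : Fin (p + 1), (-1 : R) ^ (j : ℕ) •
    (LocalizedModule.liftOfLE _ _ (mulSet_le x τ j.succAbove) ∘ₗ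
      LinearMap.proj (τ ∘ j.succAbove))

end Cech

open Pool.Agent.Lead.POG

variable {K : Type} [Field K] {l d : ℕ}

/-- For `i ≥ 1` and a graded module `M` over `S = K[x_0, ..., x_n]`, `l = n + 1`: the Cech
complex `C^(i-1) → C^i → C^(i+1)` of `M` for the standard affine cover of projective space, taken
over all twists at once, is exact at `C^i`; that is, `H^i_*` of the sheaf of `M` vanishes. -/
def HStarVanishes (M : Type) [AddCommGroup M] [Module (MvPolynomial (Fin l) K) M] (i : ℕ) : Prop :=
  Function.Exact (cechD (X : Fin l → MvPolynomial (Fin l) K) M i)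
    (cechD (X : Fin l → MvPolynomial (Fin l) K) M (i + 1))

/-- `d` distinct hyperplanes, given by nonzero coefficient vectors. -/
def IsArr (a : Fin d → Fin l → K) : Prop :=
  (∀ j, a j ≠ 0) ∧ Function.Injective fun j => hyp (a j)

/-- The intersection lattice of the arrangement. -/
def lattice (a : Fin d → Fin l → K) : Set (Submodule K (Fin l → K)) :=
  interLattice (Set.range fun j => hyp (a j))

/-- The module `D(A)` of logarithmic derivations. -/
def derMod (a : Fin d → Fin l → K) : Submodule (MvPolynomial (Fin l) K)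
    (Derivation K (MvPolynomial (Fin l) K) (MvPolynomial (Fin l) K)) where
  carrier := {θ | ∀ j, lin (a j) ∣ θ (lin (a j))}
  add_mem' := fun h₁ h₂ j => by simpa using dvd_add (h₁ j) (h₂ j)
  zero_mem' := fun j => by simp
  smul_mem' := fun c θ h j => by simpa using Dvd.dvd.mul_left (h j) c

/-- The module `D_0(A)` of logarithmic derivations killing `Q`, the product of the forms. -/
def derMod0 (a : Fin d → Fin l → K) : Submodule (MvPolynomial (Fin l) K)
    (Derivation K (MvPolynomial (Fin l) K) (MvPolynomial (Fin l) K)) where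
  carrier := {θ | θ ∈ derMod a ∧ θ (∏ j, lin (a j)) = 0}
  add_mem' := fun h₁ h₂ => ⟨add_mem h₁.1 h₂.1, by simp [h₁.2, h₂.2]⟩
  zero_mem' := ⟨zero_mem _, by simp⟩
  smul_mem' := fun c θ h => ⟨Submodule.smul_mem _ c h.1, by simp [h.2]⟩

/-- Stable freeness of an arrangement in `P^n`. -/
def StablyFree {n : ℕ} (a : Fin d → Fin (n + 1) → K) : Prop :=
  ∀ i, 2 ≤ i → i + 2 ≤ n → HStarVanishes (K := K) (l := n + 1) (derMod0 a) i

end Pool.Agent.H2.Pdim
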