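import Mathlib

set_option autoImplicit false

namespace Pool.Agent.H2.Perc

open Finset Filter Topology
open scoped Pointwise

variable {V : Type} [DecidableEq V]

/-- weight of the open set `ω` inside `A` -/
def wt (q : ℝ) (A ω : Finset V) : ℝ := ∏ s ∈ A, if s ∈ ω then q else 1 - q

/-- expectation over a random subset of `A` -/
def Ex (q : ℝ) (A : Finset V) (F : Finset V → ℝ) : ℝ := ∑ ω ∈ A.powerset, wt q A ω * F ω

variable {q : ℝ}

lemma wt_nonneg (h : q ∈ Set.Icc (0:ℝ) 1) (A ω : Finset V) : 0 ≤ wt q A ω :=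
  prod_nonneg fun s _ => by split_ifs <;> linarith [h.1, h.2]

@[simp] lemma Ex_empty (F : Finset V → ℝ) : Ex q ∅ F = F ∅ := by simp [Ex, wt]

lemma Ex_insert {A : Finset V} {y : V} (hy : y ∉ A) (F : Finset V → ℝ) :
    Ex q (insert y A) F = q * Ex q A (fun ω => F (insert y ω)) + (1 - q) * Ex q A F := by
  rw [Ex, sum_powerset_insert hy, Ex, Ex, mul_sum, mul_sum, add_comm]
  congr 1
  · refine sum_congr rfl fun ω _ => ?_
    rw [wt, prod_insert hy, if_pos (mem_insert_self _ _), mul_assoc, wt]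
    congr 2
    refine prod_congr rfl fun s hs => ?_
    have : s ≠ y := fun e => hy (e ▸ hs)
    simp [this]
  · refine sum_congr rfl fun ω hω => ?_
    rw [wt, prod_insert hy, if_neg fun e => hy (mem_powerset.1 hω e), mul_assoc, wt]

lemma Ex_congr {A : Finset V} {F G : Finset V → ℝ} (h : ∀ ω ⊆ A, F ω = G ω) :
    Ex q A F = Ex q A G :=
  sum_congr rfl fun ω hω => by rw [h ω (mem_powerset.1 hω)]

lemma Ex_mono (hq : q ∈ Set.Icc (0:ℝ) 1) {A : Finset V} {F G : Finset V → ℝ}
    (h : ∀ ω ⊆ A, F ω ≤ G ω) : Ex q A F ≤ Ex q A G :=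
  sum_le_sum fun ω hω => mul_le_mul_of_nonneg_left (h ω (mem_powerset.1 hω)) (wt_nonneg hq _ _)

lemma Ex_const (A : Finset V) (c : ℝ) : Ex q A (fun _ => c) = c := by
  induction A using Finset.induction_on with
  | empty => simp
  | insert y A hy ih => rw [Ex_insert hy, ih]; ring

lemma Ex_add (A : Finset V) (F G : Finset V → ℝ) :
    Ex q A (fun ω => F ω + G ω) = Ex q A F + Ex q A G := by
  simp only [Ex, mul_add, sum_add_distrib]

lemma Ex_mul (A : Finset V) (c : ℝ) (F : Finset V → ℝ) :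
    Ex q A (fun ω => c * F ω) = c * Ex q A F := by
  simp only [Ex, mul_sum]; exact sum_congr rfl fun _ _ => by ring

lemma Ex_union {A B : Finset V} (h : Disjoint A B) (F : Finset V → ℝ) :
    Ex q (A ∪ B) F = Ex q A fun a => Ex q B fun b => F (a ∪ b) := by
  induction A using Finset.induction_on generalizing F with
  | empty => simp
  | insert y A hy ih =>
    rw [disjoint_insert_left] at h
    rw [insert_union, Ex_insert (by simp [hy, h.1]), Ex_insert hy, ih h.2, ih h.2]
    simp only [insert_union]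

lemma Ex_ind (A : Finset V) (c : ℝ) :
    Ex q A (fun ω => if ω = ∅ then c else 0) = (1 - q) ^ A.card * c := by
  rw [Ex, sum_eq_single ∅ (fun ω _ h => by simp [h]) (by simp)]
  simp [wt]

lemma Ex_mono_q {q' : ℝ} (hq : q ∈ Set.Icc (0:ℝ) 1) (hq' : q' ∈ Set.Icc (0:ℝ) 1) (h : q ≤ q')
    (A : Finset V) {F : Finset V → ℝ} (hF : Monotone F) : Ex q A F ≤ Ex q' A F := by
  induction A using Finset.induction_on generalizing F with
  | empty => simp
  | insert y A hy ih =>
    rw [Ex_insert hy, Ex_insert hy]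
    have a1 := ih hF
    have a2 := ih (F := fun ω => F (insert y ω)) fun a b e => hF (insert_subset_insert y e)
    have a3 : Ex q' A F ≤ Ex q' A (fun ω => F (insert y ω)) :=
      Ex_mono hq' fun ω _ => hF (subset_insert y ω)
    nlinarith [mul_le_mul_of_nonneg_left a2 hq.1, mul_le_mul_of_nonneg_left a1 (sub_nonneg.2 hq.2),
      mul_le_mul_of_nonneg_left a3 (sub_nonneg.2 h)]

lemma Ex_image {e : V → V} (he : Function.Injective e) (A : Finset V) (F : Finset V → ℝ) :
    Ex q (A.image e) F = Ex q A fun ω => F (ω.image e) := by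
  induction A using Finset.induction_on generalizing F with
  | empty => simp
  | insert y A hy ih =>
    rw [image_insert, Ex_insert (by simpa [he.eq_iff] using hy), Ex_insert hy, ih, ih]
    simp only [image_insert]

variable [AddCommGroup V] (N : Finset V)

/-- one step of the dual Markov chain on finite sets -/
def LL (q : ℝ) : Module.End ℝ (Finset V → ℝ) where
  toFun f A := Ex q A fun ω => f (ω + N)
  map_add' f g := funext fun A => Ex_add A _ _
  map_smul' c f := funext fun A => Ex_mul A c _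

lemma LL_apply (f : Finset V → ℝ) (A : Finset V) : LL N q f A = Ex q A fun ω => f (ω + N) := rfl

lemma pow_succ_in (t : ℕ) (f : Finset V → ℝ) : (LL N q ^ (t + 1)) f = (LL N q ^ t) (LL N q f) := by
  rw [pow_succ]; rfl

lemma pow_succ_out (t : ℕ) (f : Finset V → ℝ) : (LL N q ^ (t + 1)) f = LL N q ((LL N q ^ t) f) := by
  rw [pow_succ']; rfl

lemma pow_ind {P : (Finset V → ℝ) → Prop} (h : ∀ f, P f → P (LL N q f)) {f : Finset V → ℝ}
    (hf : P f) (t : ℕ) : P ((LL N q ^ t) f) := by
  induction t with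
  | zero => exact hf
  | succ t ih => rw [pow_succ_out]; exact h _ ih

lemma LL_le (hq : q ∈ Set.Icc (0:ℝ) 1) {f g : Finset V → ℝ} (h : f ≤ g) : LL N q f ≤ LL N q g :=
  fun _ => Ex_mono hq fun _ _ => h _

lemma pow_le (hq : q ∈ Set.Icc (0:ℝ) 1) {f g : Finset V → ℝ} (h : f ≤ g) (t : ℕ) :
    (LL N q ^ t) f ≤ (LL N q ^ t) g := by
  induction t with
  | zero => exact h
  | succ t ih => rw [pow_succ_out, pow_succ_out]; exact LL_le N hq ih

lemma pow_const (c : ℝ) (t : ℕ) : (LL N q ^ t) (fun _ => c) = fun _ => c :=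
  pow_ind N (P := fun f => f = fun _ => c) (by rintro _ rfl; exact funext fun A => Ex_const A c) rfl t

lemma pow_empty (f : Finset V → ℝ) (t : ℕ) : (LL N q ^ t) f ∅ = f ∅ :=
  pow_ind N (P := fun g => g ∅ = f ∅) (fun g hg => by simpa [LL_apply] using hg) rfl t

lemma LL_split (f : Finset V → ℝ) {A B : Finset V} (h : Disjoint A B) :
    LL N q f (A ∪ B) = Ex q A fun a => Ex q B fun b => f ((a + N) ∪ (b + N)) := by
  rw [LL_apply, Ex_union h]; simp only [union_add]

lemma LL_monotone (hq : q ∈ Set.Icc (0:ℝ) 1) (f : Finset V → ℝ) (hf : Monotone f) :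
    Monotone (LL N q f) := by
  intro A B h
  rw [← union_sdiff_of_subset h, LL_split N f disjoint_sdiff]
  refine Ex_mono hq fun a _ => ?_
  rw [← Ex_const (q := q) (B \ A) (f (a + N))]
  exact Ex_mono hq fun b _ => hf subset_union_left

lemma LL_antitone (hq : q ∈ Set.Icc (0:ℝ) 1) (f : Finset V → ℝ) (hf : Antitone f) :
    Antitone (LL N q f) := by
  have := LL_monotone N hq (-f) hf.neg
  rw [map_neg] at this
  simpa using this.neg

lemma pow_mono_q {q' : ℝ} (hq : q ∈ Set.Icc (0:ℝ) 1) (hq' : q' ∈ Set.Icc (0:ℝ) 1) (h : q ≤ q')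
    {f : Finset V → ℝ} (hf : Monotone f) (t : ℕ) : (LL N q ^ t) f ≤ (LL N q' ^ t) f := by
  induction t with
  | zero => rfl
  | succ t ih =>
    rw [pow_succ_out, pow_succ_out]
    refine (LL_le N hq ih).trans fun A => Ex_mono_q hq hq' h A fun a b e => ?_
    exact pow_ind N (LL_monotone N hq') hf t (add_subset_add_right e)

/-- translation invariance -/
def TI (f : Finset V → ℝ) : Prop := ∀ (a : V) (A : Finset V), f (A.image (a + ·)) = f A

lemma LL_TI (f : Finset V → ℝ) (hf : TI f) : TI (LL N q f) := by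
  intro a A
  rw [LL_apply, Ex_image (add_right_injective a), LL_apply]
  refine Ex_congr fun ω _ => ?_
  rw [← hf a (ω + N)]
  congr 1
  ext x
  simp only [Finset.mem_add, mem_image]
  constructor
  · rintro ⟨_, ⟨y, hy, rfl⟩, z, hz, rfl⟩
    exact ⟨_, ⟨y, hy, z, hz, rfl⟩, (add_assoc _ _ _).symm⟩
  · rintro ⟨_, ⟨y, hy, z, hz, rfl⟩, rfl⟩
    exact ⟨_, ⟨y, hy, rfl⟩, z, hz, add_assoc _ _ _⟩

lemma TI.single {f : Finset V → ℝ} (hf : TI f) (a : V) : f {a} = f {0} := by
  simpa using hf a {0}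

/-- monotone and subadditive -/
def Sub (f : Finset V → ℝ) : Prop := Monotone f ∧ ∀ A B, f (A ∪ B) ≤ f A + f B

lemma LL_Sub (hq : q ∈ Set.Icc (0:ℝ) 1) (f : Finset V → ℝ) (hf : Sub f) : Sub (LL N q f) := by
  refine ⟨LL_monotone N hq f hf.1, fun A B => ?_⟩
  have := LL_monotone N hq f hf.1 (sdiff_subset (s := B) (t := A))
  rw [← union_sdiff_self_eq_union, LL_split N f disjoint_sdiff]
  refine le_trans ?_ (add_le_add le_rfl this)
  rw [LL_apply, ← Ex_const (q := q) A (LL N q f (B \ A)), ← Ex_add]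
  refine Ex_mono hq fun a _ => ?_
  rw [LL_apply, ← Ex_const (q := q) (B \ A) (f (a + N)), ← Ex_add]
  exact Ex_mono hq fun b _ => hf.2 _ _

/-- nonnegative, antitone and supermultiplicative -/
def Sup (f : Finset V → ℝ) : Prop := 0 ≤ f ∧ Antitone f ∧ ∀ A B, f A * f B ≤ f (A ∪ B)

lemma LL_nonneg (hq : q ∈ Set.Icc (0:ℝ) 1) (f : Finset V → ℝ) (hf : 0 ≤ f) : 0 ≤ LL N q f := by
  simpa using LL_le N hq hf

lemma LL_Sup (hq : q ∈ Set.Icc (0:ℝ) 1) (f : Finset V → ℝ) (hf : Sup f) : Sup (LL N q f) := by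
  have h0 := LL_nonneg N hq f hf.1
  refine ⟨h0, LL_antitone N hq f hf.2.1, fun A B => ?_⟩
  have := LL_antitone N hq f hf.2.1 (sdiff_subset (s := B) (t := A))
  rw [← union_sdiff_self_eq_union, LL_split N f disjoint_sdiff]
  refine le_trans (mul_le_mul_of_nonneg_left this (h0 A)) ?_
  rw [mul_comm, LL_apply N f A, ← Ex_mul]
  refine Ex_mono hq fun a _ => ?_
  rw [mul_comm, LL_apply, ← Ex_mul]
  exact Ex_mono hq fun b _ => hf.2.2 _ _

/-- cardinality -/
def cd : Finset V → ℝ := fun A => A.card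

/-- indicator of the empty set -/
def em : Finset V → ℝ := fun A => if A = ∅ then 1 else 0

/-- expected number of reached sites -/
def MM (q : ℝ) (t : ℕ) : ℝ := (LL N q ^ t) cd {0}

/-- probability of extinction -/
def HH (q : ℝ) (t : ℕ) : ℝ := (LL N q ^ t) em {0}

omit [AddCommGroup V] in
lemma cd_Sub : Sub (cd : Finset V → ℝ) :=
  ⟨fun A B h => by simp only [cd]; exact_mod_cast card_le_card h,
    fun A B => by simp only [cd]; exact_mod_cast card_union_le A B⟩

lemma cd_le (hq : q ∈ Set.Icc (0:ℝ) 1) (t : ℕ) (A : Finset V) :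
    (LL N q ^ t) cd A ≤ A.card * MM N q t := by
  have h1 := pow_ind N (LL_Sub N hq) cd_Sub t
  have h2 : TI ((LL N q ^ t) cd) := pow_ind N (LL_TI N)
    (fun a A => by simp only [cd, card_image_of_injective _ (add_right_injective a)]) t
  induction A using Finset.induction_on with
  | empty => simp [pow_empty, cd]
  | insert y A hy ih =>
    have := h1.2 {y} A
    rw [← insert_eq, h2.single] at this
    rw [card_insert_of_notMem hy]; push_cast
    rw [MM] at *; linarith

omit [AddCommGroup V] in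
lemma em_Sup : Sup (em : Finset V → ℝ) := by
  refine ⟨fun A => by simp only [em]; positivity, fun A B h => ?_, fun A B => ?_⟩
  · simp only [em]
    split_ifs with p r
    · rfl
    · exact absurd (subset_empty.1 (p ▸ h)) r
    all_goals norm_num
  · simp only [em, union_eq_empty]
    by_cases p : A = ∅ <;> by_cases r : B = ∅ <;> simp [p, r]

lemma em_ge (hq : q ∈ Set.Icc (0:ℝ) 1) (t : ℕ) (A : Finset V) :
    HH N q t ^ A.card ≤ (LL N q ^ t) em A := by
  have h1 := pow_ind N (LL_Sup N hq) em_Sup t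
  have h2 : TI ((LL N q ^ t) em) := pow_ind N (LL_TI N) (fun a A => by simp only [em, image_eq_empty]) t
  induction A using Finset.induction_on with
  | empty => simp [pow_empty, em]
  | insert y A hy ih =>
    have := h1.2.2 {y} A
    rw [← insert_eq, h2.single] at this
    rw [card_insert_of_notMem hy, pow_succ']
    exact le_trans (mul_le_mul_of_nonneg_left ih (h1.1 _)) this

lemma HH_mem (hq : q ∈ Set.Icc (0:ℝ) 1) (t : ℕ) : HH N q t ∈ Set.Icc (0:ℝ) 1 := by
  refine ⟨(pow_ind N (LL_Sup N hq) em_Sup t).1 _, ?_⟩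
  have := pow_le N hq (f := em) (g := fun _ => 1)
    (fun A => by simp only [em]; split_ifs <;> norm_num) t {0}
  rwa [pow_const] at this

lemma HH_mono (hq : q ∈ Set.Icc (0:ℝ) 1) : Monotone (HH N q) := by
  refine monotone_nat_of_le_succ fun t => ?_
  rw [HH, HH, pow_succ_in]
  refine pow_le N hq (fun A => ?_) t _
  by_cases h : A = ∅
  · subst h; simp [LL_apply]
  · have := LL_nonneg N hq em em_Sup.1 A
    simpa [em, h] using this

/-- the map on densities -/
def FF (q : ℝ) (T : ℕ) (p : ℝ) : ℝ := (LL N q ^ T) (fun A => p ^ A.card) {0}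

lemma FF_mem (hq : q ∈ Set.Icc (0:ℝ) 1) (T : ℕ) {p : ℝ} (hp : p ∈ Set.Icc (0:ℝ) 1) :
    FF N q T p ∈ Set.Icc (0:ℝ) 1 := by
  constructor
  · exact pow_ind N (LL_nonneg N hq) (fun A => pow_nonneg hp.1 _) T _
  · have := pow_le N hq (f := fun A => p ^ A.card) (g := fun _ => 1)
      (fun A => pow_le_one₀ hp.1 hp.2) T {0}
    rwa [pow_const] at this

lemma iter_mem (hq : q ∈ Set.Icc (0:ℝ) 1) (T k : ℕ) : (FF N q T)^[k] 0 ∈ Set.Icc (0:ℝ) 1 := by
  induction k with
  | zero => simp
  | succ k ih => rw [Function.iterate_succ_apply']; exact FF_mem N hq T ih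

lemma iter_le (hq : q ∈ Set.Icc (0:ℝ) 1) (T k : ℕ) : (FF N q T)^[k] 0 ≤ HH N q (T * k) := by
  induction k with
  | zero => exact (HH_mem N hq _).1
  | succ k ih =>
    rw [Function.iterate_succ_apply', HH, mul_add, mul_one, add_comm, pow_add]
    exact pow_le N hq (fun A => (pow_le_pow_left₀ (iter_mem N hq T k).1 ih _).trans
      (em_ge N hq _ A)) T _

lemma HH_of_iter (hq : q ∈ Set.Icc (0:ℝ) 1) {T : ℕ}
    (h : Tendsto (fun k => (FF N q T)^[k] 0) atTop (𝓝 1)) : Tendsto (HH N q) atTop (𝓝 1) := by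
  refine tendsto_order.2 ⟨fun a ha => ?_, fun a ha => Eventually.of_forall fun t =>
    (HH_mem N hq t).2.trans_lt ha⟩
  obtain ⟨k, hk⟩ := ((tendsto_order.1 h).1 a ha).exists
  filter_upwards [eventually_ge_atTop (T * k)] with t ht
  exact hk.trans_le ((iter_le N hq T k).trans (HH_mono N hq ht))

lemma MM_nonneg (hq : q ∈ Set.Icc (0:ℝ) 1) (t : ℕ) : 0 ≤ MM N q t :=
  pow_ind N (LL_nonneg N hq) (fun A => by simp [cd]) t _

lemma iter_of_MM (hq : q ∈ Set.Icc (0:ℝ) 1) {T : ℕ} (h : MM N q T < 1) :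
    Tendsto (fun k => (FF N q T)^[k] 0) atTop (𝓝 1) := by
  have step : ∀ p ∈ Set.Icc (0:ℝ) 1, 1 - MM N q T * (1 - p) ≤ FF N q T p := by
    intro p hp
    have := pow_le N hq (f := (fun _ => (1:ℝ)) - (1 - p) • cd) (g := fun A => p ^ A.card)
      (fun A => by
        have := one_add_mul_le_pow (a := p - 1) (by linarith [hp.1]) A.card
        simp only [Pi.sub_apply, Pi.smul_apply, cd, smul_eq_mul]
        rw [add_sub_cancel] at this; linarith) T {0}
    rw [map_sub, map_smul, pow_const] at this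
    simp only [Pi.sub_apply, Pi.smul_apply, smul_eq_mul] at this
    rw [MM, FF]; linarith
  have h0 := MM_nonneg N hq T
  have key : ∀ k, 1 - MM N q T ^ k ≤ (FF N q T)^[k] 0 := by
    intro k
    induction k with
    | zero => simp
    | succ k ih =>
      rw [Function.iterate_succ_apply', pow_succ']
      refine le_trans ?_ (step _ (iter_mem N hq T k))
      nlinarith
  have lim : Tendsto (fun k => 1 - MM N q T ^ k) atTop (𝓝 (1 - 0)) :=
    tendsto_const_nhds.sub (tendsto_pow_atTop_nhds_zero_of_lt_one h0 h)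
  rw [sub_zero] at lim
  exact tendsto_of_tendsto_of_tendsto_of_le_of_le lim tendsto_const_nhds key
    fun k => (iter_mem N hq T k).2

/-- one step with killing and counting on `u` -/
def LK (q : ℝ) (u : Finset V) (g : Finset V → ℝ) : Finset V → ℝ :=
  fun A => (A ∩ u).card + LL N q g (A \ u)

lemma kill_le (hq : q ∈ Set.Icc (0:ℝ) 1) {a : ℝ} (ha : 0 ≤ a) (j : ℕ) (K : List (Finset V))
    (h : ∀ i, j ≤ i → i ≤ K.length + j → MM N q i ≤ a) :
    (LL N q ^ (K.length + j)) cd ≤ a • K.foldr (LK N q) cd := by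
  induction K with
  | nil =>
    intro A
    have := cd_le N hq j A
    have := mul_le_mul_of_nonneg_left (h j le_rfl (by simp)) (Nat.cast_nonneg (α := ℝ) A.card)
    simp only [List.length_nil, zero_add, List.foldr_nil, Pi.smul_apply, cd, smul_eq_mul] at *
    linarith
  | cons u K ih =>
    intro A
    simp only [List.length_cons] at h
    have a1 := (pow_ind N (LL_Sub N hq) cd_Sub (K.length + 1 + j)).2 (A \ u) (A ∩ u)
    have a2 := cd_le N hq (K.length + 1 + j) (A ∩ u)
    have a3 := mul_le_mul_of_nonneg_left (h _ (by omega) le_rfl)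
      (Nat.cast_nonneg (α := ℝ) (A ∩ u).card)
    have a4 := LL_le N hq (ih fun i h1 h2 => h i h1 (by omega)) (A \ u)
    rw [← pow_succ_out, map_smul, show K.length + j + 1 = K.length + 1 + j by ring] at a4
    rw [sdiff_union_inter] at a1
    simp only [List.length_cons, List.foldr_cons, Pi.smul_apply, smul_eq_mul, LK] at *
    linarith

lemma kill_nonneg (hq : q ∈ Set.Icc (0:ℝ) 1) (K : List (Finset V)) : 0 ≤ K.foldr (LK N q) cd := by
  induction K with
  | nil => exact fun A => by simp [cd]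
  | cons u K ih => exact fun A => add_nonneg (by positivity) (LL_nonneg N hq _ ih _)

lemma MM_small (hq : q ∈ Set.Icc (0:ℝ) 1) (K : List (Finset V))
    (h : K.foldr (LK N q) cd {0} < 1) : ∀ᶠ T in atTop, MM N q T < 1 := by
  have p0 := kill_nonneg N hq K {0}
  cases K with
  | nil => simp [cd] at h
  | cons u K =>
    have hu : (0 : V) ∉ u := by
      intro e
      have := LL_nonneg N hq _ (kill_nonneg N hq K) ({0} \ u)
      simp only [List.foldr_cons, LK, singleton_inter_of_mem e, card_singleton] at h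
      simp only [Pi.zero_apply] at this
      push_cast at h; linarith
    have e1 : (u :: K).foldr (LK N q) cd {0} = LL N q (K.foldr (LK N q) cd) {0} := by
      simp [LK, singleton_inter_of_notMem hu, sdiff_eq_self_of_disjoint, hu]
    rw [e1] at h p0
    generalize hψ : LL N q (K.foldr (LK N q) cd) {0} = ψ at h p0
    have step : ∀ a, 0 ≤ a → ∀ j, (∀ i, j ≤ i → i ≤ K.length + j → MM N q i ≤ a) →
        MM N q (K.length + j + 1) ≤ a * ψ := by
      intro a ha j hj
      have := LL_le N hq (kill_le N hq ha j K hj) {0}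
      rw [← pow_succ_out, map_smul] at this
      rw [← hψ]; exact this
    obtain ⟨b, b0, hb⟩ : ∃ b, 0 ≤ b ∧ ∀ i ≤ K.length, MM N q i ≤ b :=
      ⟨∑ i ∈ range (K.length + 1), MM N q i, sum_nonneg fun i _ => MM_nonneg N hq i,
        fun i hi => single_le_sum (fun i _ => MM_nonneg N hq i) (mem_range.2 (by omega))⟩
    have all : ∀ i, MM N q i ≤ b := by
      intro i
      induction i using Nat.strong_induction_on with
      | _ i ih =>
        by_cases hi : i ≤ K.length
        · exact hb i hi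
        · obtain ⟨j, rfl⟩ : ∃ j, i = K.length + j + 1 := ⟨i - K.length - 1, by omega⟩
          exact (step b b0 j fun l _ hl => ih l (by omega)).trans (by nlinarith)
    have geo : ∀ k, ∀ i, k * (K.length + 1) ≤ i → MM N q i ≤ b * ψ ^ k := by
      intro k
      induction k with
      | zero => intro i _; simpa using all i
      | succ k ih =>
        intro i hi
        rw [add_mul, one_mul] at hi
        obtain ⟨j, rfl⟩ : ∃ j, i = K.length + j + 1 := ⟨i - K.length - 1, by omega⟩
        rw [pow_succ, ← mul_assoc]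
        exact step _ (mul_nonneg b0 (pow_nonneg p0 _)) j fun l hl _ => ih l (by omega)
    have lim : Tendsto (fun k => b * ψ ^ k) atTop (𝓝 (b * 0)) :=
      (tendsto_pow_atTop_nhds_zero_of_lt_one p0 h).const_mul b
    obtain ⟨k, hk⟩ := ((tendsto_order.1 lim).2 1 (by simp)).exists
    filter_upwards [eventually_ge_atTop (k * (K.length + 1))] with T hT
    exact (geo k T hT).trans_lt hk

/-- indicator of missing `B` -/
def dis (B : Finset V) : Finset V → ℝ := fun A => if Disjoint A B then 1 else 0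

omit [AddCommGroup V] in
lemma Ex_dis (r : ℝ) (u A : Finset V) :
    ∑ ω ∈ u.powerset, wt r u ω * dis ω A = (1 - r) ^ (A ∩ u).card := by
  have := Ex_union (q := r) (disjoint_sdiff_inter u A).symm fun ω => dis ω A
  rw [union_comm, sdiff_union_inter] at this
  rw [← Ex, this, inter_comm A u, ← mul_one (_ ^ _), ← Ex_ind]
  refine Ex_congr fun a ha => ?_
  rw [← Ex_const (q := r) (u \ A) (if a = ∅ then 1 else 0)]
  refine Ex_congr fun b hb => if_congr ?_ rfl rfl
  rw [disjoint_union_right, and_iff_left (disjoint_sdiff.mono_right hb)]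
  rw [disjoint_comm]
  exact disjoint_of_le_iff_left_eq_bot (ha.trans inter_subset_right)

lemma LL_dis (r : ℝ) (B A : Finset V) (g : Finset V → ℝ) :
    LL N r (dis B * g) A = (1 - r) ^ (A ∩ (B - N)).card * LL N r g (A \ (B - N)) := by
  have := LL_split N (q := r) (dis B * g) (disjoint_sdiff_inter A (B - N)).symm
  rw [union_comm, sdiff_union_inter] at this
  rw [this, ← Ex_ind]
  refine Ex_congr fun a ha => ?_
  split_ifs with h
  · subst h
    refine Ex_congr fun b hb => ?_
    have : Disjoint (b + N) B := by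
      rw [disjoint_left]
      intro x hx hx'
      obtain ⟨y, hy, z, hz, rfl⟩ := Finset.mem_add.1 hx
      exact (mem_sdiff.1 (hb hy)).2 (Finset.mem_sub.2 ⟨_, hx', z, hz, by simp⟩)
    simp [dis, this]
  · rw [← Ex_const (q := r) (A \ (B - N)) 0]
    refine Ex_congr fun b _ => ?_
    obtain ⟨y, hy⟩ := nonempty_iff_ne_empty.2 h
    obtain ⟨x, hx, z, hz, e⟩ := Finset.mem_sub.1 (mem_inter.1 (ha hy)).2
    have : ¬ Disjoint ((a + N) ∪ (b + N)) B := not_disjoint_iff.2
      ⟨x, mem_union_left _ (Finset.mem_add.2 ⟨y, hy, z, hz, by rw [← e]; simp⟩), hx⟩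
    simp only [Pi.mul_apply, dis, if_neg this, zero_mul]

lemma russo (hq : q ∈ Set.Icc (0:ℝ) 1) (m : ℕ) : ∀ (B : Finset V) (g : Finset V → ℝ),
    (∀ K : List (Finset V), K.length = m → 1 ≤ K.foldr (LK N q) g {0}) →
    ∃ D, HasDerivAt (fun r => (LL N r ^ m) (dis B) {0}) D q ∧
      (LL N q ^ m) (dis B) {0} ≤ -(1 - q) * D + (LL N q ^ m) (dis B * g) {0} := by
  induction m with
  | zero =>
    intro B g h
    refine ⟨0, hasDerivAt_const _ _, ?_⟩
    have := h [] rfl
    simp only [pow_zero, Module.End.one_apply, Pi.mul_apply, dis, List.foldr_nil] at *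
    split_ifs <;> linarith
  | succ m ih =>
    intro B g h
    obtain ⟨u, hu⟩ : ∃ u, u = B - N := ⟨_, rfl⟩
    choose D hD hD' using fun ω => ih ω (LK N q u g) fun K hK => by
      have := h (K ++ [u]) (by simp [hK])
      rwa [List.foldr_append] at this
    have hw : ∀ ω, HasDerivAt (fun r => wt r u ω) (deriv (fun r => wt r u ω) q) q := by
      intro ω
      refine DifferentiableAt.hasDerivAt ?_
      refine DifferentiableAt.fun_finsetProd fun s _ => ?_
      split_ifs <;> fun_prop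
    generalize hw' : (fun ω => deriv (fun r => wt r u ω) q) = w'
    have hw2 : ∀ ω, HasDerivAt (fun r => wt r u ω) (w' ω) q := fun ω => hw' ▸ hw ω
    have e1 : ∀ r, LL N r (dis B) = ∑ ω ∈ u.powerset, wt r u ω • dis ω := by
      intro r
      funext A
      have := LL_dis N r B A 1
      have e : LL N r (1 : Finset V → ℝ) (A \ (B - N)) = 1 := Ex_const _ 1
      rw [mul_one, e, mul_one, ← hu, ← Ex_dis] at this
      rw [this, Finset.sum_apply]; rfl
    have e2 : ∀ r, (LL N r ^ (m + 1)) (dis B) {0} =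
        ∑ ω ∈ u.powerset, wt r u ω * (LL N r ^ m) (dis ω) {0} := by
      intro r
      rw [pow_succ_in, e1, map_sum, Finset.sum_apply]
      simp only [map_smul, Pi.smul_apply, smul_eq_mul]
    have e3 : ∀ A, -(1 - q) * ∑ ω ∈ u.powerset, w' ω * dis ω A =
        (A ∩ u).card * (1 - q) ^ (A ∩ u).card := by
      intro A
      have a1 : HasDerivAt (fun r => ∑ ω ∈ u.powerset, wt r u ω * dis ω A)
          (∑ ω ∈ u.powerset, w' ω * dis ω A) q :=
        HasDerivAt.fun_sum fun ω _ => (hw2 ω).mul_const _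
      simp only [Ex_dis] at a1
      rw [a1.unique (((hasDerivAt_id q).const_sub 1).fun_pow (A ∩ u).card)]
      cases (A ∩ u).card with
      | zero => simp
      | succ k => simp only [id, Nat.add_sub_cancel, pow_succ]; ring
    have e4 : (-(1 - q)) • ∑ ω ∈ u.powerset, w' ω • dis ω + LL N q (dis B * g) =
        ∑ ω ∈ u.powerset, wt q u ω • (dis ω * LK N q u g) := by
      funext A
      simp only [Pi.add_apply, Pi.smul_apply, Finset.sum_apply, smul_eq_mul, Pi.mul_apply, ← mul_assoc,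
        ← sum_mul, Ex_dis, e3, LL_dis, ← hu, LK]
      ring
    have e5 := congrFun (congrArg (LL N q ^ m) e4) {0}
    rw [map_add, map_smul, map_sum, map_sum, ← pow_succ_in] at e5
    simp only [map_smul, Pi.add_apply, Pi.smul_apply, Finset.sum_apply, smul_eq_mul] at e5
    refine ⟨∑ ω ∈ u.powerset, (w' ω * (LL N q ^ m) (dis ω) {0} + wt q u ω * D ω), ?_, ?_⟩
    · simp only [e2]
      exact HasDerivAt.fun_sum fun ω _ => (hw2 ω).fun_mul (hD ω)
    · have a1 := sum_le_sum (s := u.powerset) fun ω _ =>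
        mul_le_mul_of_nonneg_left (hD' ω) (wt_nonneg hq u ω)
      have a2 : ∑ ω ∈ u.powerset, wt q u ω * (-(1 - q) * D ω) =
          -(1 - q) * ∑ ω ∈ u.powerset, wt q u ω * D ω := by
        rw [mul_sum]; exact sum_congr rfl fun _ _ => by ring
      simp only [mul_add, sum_add_distrib, a2] at a1
      rw [e2, sum_add_distrib, mul_add]
      linarith

lemma exists_cone (t : ℕ) : ∀ A : Finset V, ∃ B : Finset V, ∀ f g : Finset V → ℝ,
    (∀ C ⊆ B, f C = g C) → ∀ r, ∀ A' ⊆ A, (LL N r ^ t) f A' = (LL N r ^ t) g A' := by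
  induction t with
  | zero => exact fun A => ⟨A, fun f g h _ => h⟩
  | succ t ih =>
    intro A
    obtain ⟨B, hB⟩ := ih (A + N)
    refine ⟨B, fun f g h r A' hA => ?_⟩
    rw [pow_succ_out, pow_succ_out]
    exact Ex_congr fun ω hω => hB f g h r _ (add_subset_add_right (hω.trans hA))

/-- sharpness of the phase transition -/
theorem sharp {q0 q1 : ℝ} (h0 : 0 ≤ q0) (h01 : q0 < q1) (h1 : q1 ≤ 1)
    (h : Tendsto (HH N q1) atTop (𝓝 1)) : ∀ᶠ T in atTop, MM N q0 T < 1 := by
  have sub : ∀ r ∈ Set.Icc q0 q1, r ∈ Set.Icc (0:ℝ) 1 := fun r hr => ⟨h0.trans hr.1, hr.2.trans h1⟩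
  by_cases hc : ∃ r ∈ Set.Icc q0 q1, ∃ K : List (Finset V), K.foldr (LK N r) cd {0} < 1
  · obtain ⟨r, hr, K, hK⟩ := hc
    filter_upwards [MM_small N (sub r hr) K hK] with T hT
    exact lt_of_le_of_lt (pow_mono_q N (sub q0 ⟨le_rfl, h01.le⟩) (sub r hr) hr.1 cd_Sub.1 T _) hT
  exfalso
  push Not at hc
  have key : ∀ n, HH N q1 n * Real.exp q1 ≤ Real.exp q0 := by
    intro n
    obtain ⟨B, hB⟩ := exists_cone N n {0}
    have e1 : (fun r => (LL N r ^ n) (dis B) {0}) = fun r => HH N r n := funext fun r =>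
      hB _ _ (fun C hC => if_congr (disjoint_of_le_iff_left_eq_bot hC) rfl rfl) r _ Subset.rfl
    have e2 : ∀ r, (LL N r ^ n) (dis B * cd) {0} = 0 := fun r => by
      rw [hB _ (fun _ => 0) (fun C hC => ?_) r _ Subset.rfl, pow_const]
      by_cases e : C = ∅
      · simp [e, cd]
      · have : ¬ Disjoint C B := fun k => e ((disjoint_of_le_iff_left_eq_bot hC).1 k)
        simp [dis, this]
    have der : ∀ r ∈ Set.Icc q0 q1, ∃ D, HasDerivAt (fun r => HH N r n * Real.exp r) D r ∧
        (r < 1 → D ≤ 0) := by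
      intro r hr
      obtain ⟨D, d1, d2⟩ := russo N (sub r hr) n B cd fun K _ => hc r hr K
      rw [e2, congrFun e1 r] at d2
      rw [e1] at d1
      refine ⟨_, d1.fun_mul (Real.hasDerivAt_exp r), fun hr1 => ?_⟩
      have a1 := (HH_mem N (sub r hr) n).1
      have a2 : D ≤ 0 := by
        by_contra k
        nlinarith [mul_pos (sub_pos.2 hr1) (not_le.1 k)]
      have a3 : D + HH N r n ≤ 0 := by nlinarith [(sub r hr).1]
      nlinarith [Real.exp_pos r]
    have anti : AntitoneOn (fun r => HH N r n * Real.exp r) (Set.Icc q0 q1) := by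
      refine antitoneOn_of_deriv_nonpos (convex_Icc _ _) (fun r hr => ?_) (fun r hr => ?_)
        fun r hr => ?_
      · obtain ⟨D, d, -⟩ := der r hr
        exact d.continuousAt.continuousWithinAt
      · obtain ⟨D, d, -⟩ := der r (interior_subset hr)
        exact d.differentiableAt.differentiableWithinAt
      · obtain ⟨D, d, d2⟩ := der r (interior_subset hr)
        rw [interior_Icc] at hr
        rw [d.deriv]; exact d2 (hr.2.trans_le h1)
    have := anti ⟨le_rfl, h01.le⟩ ⟨h01.le, le_rfl⟩ h01.le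
    have a1 := (HH_mem N (sub q0 ⟨le_rfl, h01.le⟩) n).2
    nlinarith [Real.exp_pos q0]
  have := le_of_tendsto' (h.mul_const (Real.exp q1)) key
  rw [one_mul, Real.exp_le_exp] at this
  linarith

lemma MM_zero {T : ℕ} (hT : 1 ≤ T) : MM N 0 T < 1 := by
  obtain ⟨t, rfl⟩ : ∃ t, T = t + 1 := ⟨T - 1, by omega⟩
  rw [MM, pow_succ_out, LL_apply, ← insert_empty_eq, Ex_insert (by simp)]
  simp [pow_empty, cd]

/-- the critical points of the approximations converge -/
theorem main : Tendsto (fun T => sInf {θ | θ ∈ Set.Icc (0:ℝ) 1 ∧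
      Tendsto (fun k => (FF N (1 - θ) T)^[k] 0) atTop (𝓝 1)}) atTop
    (𝓝 (sInf {θ | θ ∈ Set.Icc (0:ℝ) 1 ∧ Tendsto (HH N (1 - θ)) atTop (𝓝 1)})) := by
  have fl : ∀ θ ∈ Set.Icc (0:ℝ) 1, 1 - θ ∈ Set.Icc (0:ℝ) 1 := fun θ h =>
    ⟨by linarith [h.2], by linarith [h.1]⟩
  have one : ∀ T, 1 ≤ T → (1:ℝ) ∈ {θ | θ ∈ Set.Icc (0:ℝ) 1 ∧
      Tendsto (fun k => (FF N (1 - θ) T)^[k] 0) atTop (𝓝 1)} := fun T hT =>
    ⟨by simp, by rw [sub_self]; exact iter_of_MM N (by simp) (MM_zero N hT)⟩
  refine tendsto_order.2 ⟨fun a ha => ?_, fun a ha => ?_⟩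
  · filter_upwards [eventually_ge_atTop 1] with T hT
    exact ha.trans_le (csInf_le_csInf ⟨0, fun θ h => h.1.1⟩ ⟨1, one T hT⟩
      fun θ h => ⟨h.1, HH_of_iter N (fl θ h.1) h.2⟩)
  · have ne : {θ | θ ∈ Set.Icc (0:ℝ) 1 ∧ Tendsto (HH N (1 - θ)) atTop (𝓝 1)}.Nonempty :=
      ⟨1, (one 1 le_rfl).1, HH_of_iter N (by simp) (one 1 le_rfl).2⟩
    obtain ⟨θ, ⟨h1, h2⟩, h3⟩ := exists_lt_of_csInf_lt ne ha
    rcases h1.2.eq_or_lt with e | e
    · filter_upwards [eventually_ge_atTop 1] with T hT
      exact (csInf_le ⟨0, fun θ h => h.1.1⟩ (one T hT)).trans_lt (e ▸ h3)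
    · obtain ⟨η, k1, k2⟩ := exists_between (lt_min h3 e)
      have k3 : η ∈ Set.Icc (0:ℝ) 1 := ⟨h1.1.trans k1.le, k2.le.trans (min_le_right _ _)⟩
      filter_upwards [sharp N (fl η k3).1 (by linarith) (fl θ h1).2 h2] with T hT
      refine lt_of_le_of_lt (csInf_le ⟨0, fun θ h => h.1.1⟩ ?_) (k2.trans_le (min_le_left _ _))
      exact ⟨k3, iter_of_MM N (fl η k3) hT⟩

end Pool.Agent.H2.Perc
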