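import Mathlib

set_option autoImplicit false

namespace Pool.Agent.H2.Perc

open MeasureTheory Filter Topology

/-- configurations in `{0,1}^(Z^d)`, with `true` for one -/
abbrev Conf (d : ℕ) := (Fin d → ℤ) → Bool

/-- the law of a bit that equals one with probability `p` -/
noncomputable def coin (p : ℝ) : Measure Bool :=
  ENNReal.ofReal p • Measure.dirac true + ENNReal.ofReal (1 - p) • Measure.dirac false

/-- the Bernoulli product measure with density `p` -/
noncomputable def bern (d : ℕ) (p : ℝ) : Measure (Conf d) := Measure.infinitePi fun _ => coin p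

/-- the percolation operator: `y s` is one if the noise bit at `s` is one, and otherwise the
minimum of the `x (s + v i)` -/
noncomputable def perc {d n : ℕ} (v : Fin n → Fin d → ℤ) (θ : ℝ) (μ : Measure (Conf d)) :
    Measure (Conf d) :=
  (μ.prod (bern d θ)).map fun z s => z.2 s || decide (∀ i, z.1 (s + v i) = true)

/-- weak convergence to the point mass on all ones -/
def ToOnes {d : ℕ} (μ : ℕ → Measure (Conf d)) : Prop :=
  ∀ f : BoundedContinuousFunction (Conf d) ℝ,
    Tendsto (fun t => ∫ x, f x ∂μ t) atTop (𝓝 (f fun _ => true))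

/-- the critical value -/
noncomputable def crit {d n : ℕ} (v : Fin n → Fin d → ℤ) : ℝ :=
  sInf {θ | θ ∈ Set.Icc (0:ℝ) 1 ∧
    ToOnes fun t => (perc v θ)^[t] (Measure.dirac fun _ => false)}

/-- the density of ones after `T` steps from the Bernoulli measure with density `p` -/
noncomputable def dens {d n : ℕ} (v : Fin n → Fin d → ℤ) (θ : ℝ) (T : ℕ) (p : ℝ) : ℝ :=
  ((perc v θ)^[T] (bern d p)).real {x | x 0 = true}

/-- the critical point of the chaos approximation of the `T`-th power -/
noncomputable def critChaos {d n : ℕ} (v : Fin n → Fin d → ℤ) (T : ℕ) : ℝ :=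
  sInf {θ | θ ∈ Set.Icc (0:ℝ) 1 ∧ Tendsto (fun k => (dens v θ T)^[k] 0) atTop (𝓝 1)}

end Pool.Agent.H2.Perc
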