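import Pool.Agent.H2.Perc1
import Pool.Agent.H2.PercDefs

set_option autoImplicit false

namespace Pool.Agent.H2.Perc

open MeasureTheory Filter Topology Finset
open scoped Pointwise

variable {d n : ℕ}

lemma coin_prob {p : ℝ} (hp : p ∈ Set.Icc (0:ℝ) 1) : IsProbabilityMeasure (coin p) := by
  constructor
  simp only [coin, Measure.coe_add, Measure.coe_smul, Pi.add_apply, Pi.smul_apply, measure_univ,
    smul_eq_mul, mul_one]
  rw [← ENNReal.ofReal_add hp.1 (by linarith [hp.2])]; simp

lemma bern_prob {p : ℝ} (hp : p ∈ Set.Icc (0:ℝ) 1) : IsProbabilityMeasure (bern d p) := by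
  haveI := coin_prob hp
  unfold bern; infer_instance

/-- all ones on `A` -/
def ones (A : Finset (Fin d → ℤ)) : Set (Conf d) := {x | ∀ s ∈ A, x s = true}

/-- the pattern with zeroes exactly on `ω` inside `A` -/
def pat (A ω : Finset (Fin d → ℤ)) : Set (Conf d) := {x | ∀ s ∈ A, x s = decide (s ∉ ω)}

lemma pat_eq (A ω : Finset (Fin d → ℤ)) :
    pat A ω = Set.pi (A : Set (Fin d → ℤ)) fun s => {decide (s ∉ ω)} := by
  ext x; simp [pat]

lemma meas_pat (A ω : Finset (Fin d → ℤ)) : MeasurableSet (pat A ω) := by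
  rw [pat_eq]; exact MeasurableSet.pi A.countable_toSet fun _ _ => MeasurableSet.of_discrete

lemma ones_eq (A : Finset (Fin d → ℤ)) : ones A = pat A ∅ := by simp [ones, pat]

lemma meas_ones (A : Finset (Fin d → ℤ)) : MeasurableSet (ones A) := ones_eq A ▸ meas_pat A ∅

lemma bern_pat {p : ℝ} (hp : p ∈ Set.Icc (0:ℝ) 1) (A ω : Finset (Fin d → ℤ)) :
    (bern d p).real (pat A ω) = wt (1 - p) A ω := by
  haveI := coin_prob hp
  rw [Measure.real, pat_eq, bern, Measure.infinitePi_pi _ fun _ _ => MeasurableSet.of_discrete,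
    ENNReal.toReal_prod, wt]
  refine prod_congr rfl fun s _ => ?_
  by_cases h : s ∈ ω
  · simp [h, coin, hp.2]
  · simp [h, coin, hp.1]

lemma meas_step (v : Fin n → Fin d → ℤ) : Measurable fun (z : Conf d × Conf d) (s : Fin d → ℤ) =>
    z.2 s || decide (∀ i, z.1 (s + v i) = true) := by
  refine measurable_pi_lambda _ fun s => ?_
  have h : Measurable fun z : Conf d × Conf d => (z.2 s, fun i => z.1 (s + v i)) := by fun_prop
  exact (Measurable.of_discrete (f := fun w : Bool × (Fin n → Bool) =>
    w.1 || decide (∀ i, w.2 i = true))).comp h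

lemma perc_prob (v : Fin n → Fin d → ℤ) {θ : ℝ} (hθ : θ ∈ Set.Icc (0:ℝ) 1) (μ : Measure (Conf d))
    [IsProbabilityMeasure μ] : IsProbabilityMeasure (perc v θ μ) := by
  haveI := bern_prob (d := d) hθ
  exact Measure.isProbabilityMeasure_map (meas_step v).aemeasurable

lemma perc_ones (v : Fin n → Fin d → ℤ) {θ : ℝ} (hθ : θ ∈ Set.Icc (0:ℝ) 1) (μ : Measure (Conf d))
    [IsProbabilityMeasure μ] (A : Finset (Fin d → ℤ)) :
    (perc v θ μ).real (ones A) = LL (univ.image v) (1 - θ) (fun B => μ.real (ones B)) A := by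
  haveI := bern_prob (d := d) hθ
  have e : (fun (z : Conf d × Conf d) (s : Fin d → ℤ) =>
      z.2 s || decide (∀ i, z.1 (s + v i) = true)) ⁻¹' ones A =
      ⋃ ω ∈ A.powerset, ones (ω + univ.image v) ×ˢ pat A ω := by
    ext ⟨x, ξ⟩
    simp only [ones, pat, Set.mem_preimage, Set.mem_setOf_eq, Set.mem_iUnion, Set.mem_prod,
      Bool.or_eq_true, decide_eq_true_eq, exists_prop, mem_powerset]
    constructor
    · intro h
      refine ⟨A.filter (fun s => ξ s = false), filter_subset _ _, ?_, ?_⟩
      · intro s hs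
        obtain ⟨y, hy, z, hz, rfl⟩ := Finset.mem_add.1 hs
        obtain ⟨i, -, rfl⟩ := mem_image.1 hz
        have := mem_filter.1 hy
        exact (h y this.1).resolve_left (by simp [this.2]) i
      · intro s hs
        cases hx : ξ s <;> simp [hs, hx]
    · rintro ⟨ω, -, h1, h2⟩ s hs
      by_cases k : s ∈ ω
      · exact Or.inr fun i => h1 _ (Finset.add_mem_add k (mem_image_of_mem _ (mem_univ i)))
      · exact Or.inl (by simp [h2 s hs, k])
  rw [perc, map_measureReal_apply (meas_step v) (meas_ones A), e, measureReal_biUnion_finset]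
  · refine sum_congr rfl fun ω _ => ?_
    rw [measureReal_prod_prod, bern_pat hθ, mul_comm]
  · intro a ha b hb hab
    refine Set.disjoint_left.2 fun z h1 h2 => hab ?_
    ext s
    by_cases k : s ∈ A
    · have := (h1.2 s k).symm.trans (h2.2 s k)
      simpa [not_iff_not] using this
    · exact iff_of_false (fun j => k (mem_powerset.1 ha j)) fun j => k (mem_powerset.1 hb j)
  · exact fun ω _ => (meas_ones _).prod (meas_pat _ _)

lemma iter_ones (v : Fin n → Fin d → ℤ) {θ : ℝ} (hθ : θ ∈ Set.Icc (0:ℝ) 1) (μ : Measure (Conf d))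
    [IsProbabilityMeasure μ] (t : ℕ) : IsProbabilityMeasure ((perc v θ)^[t] μ) ∧
    (fun A => ((perc v θ)^[t] μ).real (ones A)) =
      (LL (univ.image v) (1 - θ) ^ t) fun B => μ.real (ones B) := by
  induction t with
  | zero => exact ⟨inferInstanceAs (IsProbabilityMeasure μ), rfl⟩
  | succ t ih =>
    haveI := ih.1
    rw [Function.iterate_succ_apply', pow_succ_out, ← ih.2]
    exact ⟨perc_prob v hθ _, funext fun A => perc_ones v hθ _ A⟩

lemma ones_zero : ones ({0} : Finset (Fin d → ℤ)) = {x | x 0 = true} := by simp [ones]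

lemma dens_eq (v : Fin n → Fin d → ℤ) {θ : ℝ} (hθ : θ ∈ Set.Icc (0:ℝ) 1) (T : ℕ) {p : ℝ}
    (hp : p ∈ Set.Icc (0:ℝ) 1) : dens v θ T p = FF (univ.image v) (1 - θ) T p := by
  haveI := bern_prob (d := d) hp
  have := congrFun (iter_ones v hθ (bern d p) T).2 {0}
  rw [ones_zero] at this
  rw [dens, this, FF]
  refine congrFun (congrArg _ (funext fun B => ?_)) _
  rw [ones_eq, bern_pat hp]; simp [wt]

lemma flip_mem {θ : ℝ} (h : θ ∈ Set.Icc (0:ℝ) 1) : 1 - θ ∈ Set.Icc (0:ℝ) 1 :=
  ⟨by linarith [h.2], by linarith [h.1]⟩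

lemma dens_iter (v : Fin n → Fin d → ℤ) {θ : ℝ} (hθ : θ ∈ Set.Icc (0:ℝ) 1) (T k : ℕ) :
    (dens v θ T)^[k] 0 = (FF (univ.image v) (1 - θ) T)^[k] 0 := by
  induction k with
  | zero => rfl
  | succ k ih =>
    rw [Function.iterate_succ_apply', Function.iterate_succ_apply', ih,
      dens_eq v hθ T (iter_mem _ (flip_mem hθ) T k)]

lemma toOnes_iff (μ : ℕ → Measure (Conf d)) [∀ t, IsProbabilityMeasure (μ t)] :
    ToOnes μ ↔ ∀ A, Tendsto (fun t => (μ t).real (ones A)) atTop (𝓝 1) := by
  constructor
  · intro h A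
    have hc : IsClopen (ones A) := by
      have : ones A = ⋂ s ∈ A, (fun x : Conf d => x s) ⁻¹' {true} := by ext x; simp [ones]
      rw [this]
      exact isClopen_biInter_finset fun s _ => (isClopen_discrete _).preimage (continuous_apply s)
    have := h (BoundedContinuousFunction.indicator (ones A) hc)
    simp only [BoundedContinuousFunction.indicator_apply] at this
    rw [Set.indicator_of_mem (by simp [ones])] at this
    simpa [integral_indicator (meas_ones A)] using this
  · intro h f
    refine Metric.tendsto_nhds.2 fun ε hε => ?_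
    obtain ⟨I, t, hI, ht⟩ := isOpen_pi_iff.1 ((Metric.isOpen_ball (x := f fun _ => true)
      (ε := ε / 2)).preimage f.continuous) (fun _ => true) (by simp [hε])
    have lim : Tendsto (fun t => ε / 2 + 2 * ‖f‖ * (1 - (μ t).real (ones I))) atTop
        (𝓝 (ε / 2 + 2 * ‖f‖ * (1 - 1))) :=
      (((h I).const_sub 1).const_mul _).const_add _
    filter_upwards [(tendsto_order.1 lim).2 ε (by simp [hε])] with k hk
    refine lt_of_le_of_lt ?_ hk
    have i1 : Integrable f (μ k) := f.integrable _
    have e : ∫ x, f x ∂μ k - (f fun _ => true) = ∫ x, (f x - f fun _ => true) ∂μ k := by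
      rw [integral_sub i1 (integrable_const _)]; simp
    have e2 : ∫ x, (ε / 2 + (ones I)ᶜ.indicator (fun _ => 2 * ‖f‖) x) ∂μ k =
        ε / 2 + 2 * ‖f‖ * (1 - (μ k).real (ones I)) := by
      rw [integral_add (integrable_const _) ((integrable_const _).indicator (meas_ones I).compl),
        integral_indicator (meas_ones I).compl]
      simp [probReal_compl_eq_one_sub (meas_ones I), mul_comm]
    rw [dist_eq_norm, e, ← e2]
    refine norm_integral_le_of_norm_le
      ((integrable_const _).add ((integrable_const _).indicator (meas_ones I).compl))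
      (Eventually.of_forall fun x => ?_)
    by_cases hx : x ∈ ones I
    · rw [Set.indicator_of_notMem (by simpa using hx), add_zero, ← dist_eq_norm]
      exact (ht fun s hs => by rw [hx s hs]; exact (hI s hs).2).le
    · rw [Set.indicator_of_mem (by simpa using hx)]
      have := norm_sub_le (f x) (f fun _ => true)
      have := f.norm_coe_le_norm x
      have := f.norm_coe_le_norm fun _ => true
      linarith

lemma ergodic_iff (v : Fin n → Fin d → ℤ) {θ : ℝ} (hθ : θ ∈ Set.Icc (0:ℝ) 1) :
    (ToOnes fun t => (perc v θ)^[t] (Measure.dirac fun _ => false)) ↔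
      Tendsto (HH (univ.image v) (1 - θ)) atTop (𝓝 1) := by
  haveI := fun t => (iter_ones v hθ (Measure.dirac fun _ => false) t).1
  have e : ∀ t A, ((perc v θ)^[t] (Measure.dirac fun _ => false)).real (ones A) =
      (LL (univ.image v) (1 - θ) ^ t) em A := by
    intro t A
    rw [congrFun (iter_ones v hθ (Measure.dirac fun _ => false) t).2 A]
    refine congrFun (congrArg _ (funext fun B => ?_)) _
    rw [Measure.real, Measure.dirac_apply' _ (meas_ones B), em]
    split_ifs with h
    · rw [Set.indicator_of_mem (by simp [ones, h])]; simp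
    · obtain ⟨s, hs⟩ := nonempty_iff_ne_empty.2 h
      rw [Set.indicator_of_notMem fun k => by simpa using k s hs]; simp
  rw [toOnes_iff]
  constructor
  · intro h
    have := h {0}
    simp only [e] at this
    exact this
  · intro h A
    have := h.pow A.card
    rw [one_pow] at this
    refine tendsto_of_tendsto_of_tendsto_of_le_of_le this tendsto_const_nhds (fun t => ?_)
      fun t => measureReal_le_one
    rw [e]; exact em_ge _ (flip_mem hθ) t A

theorem chaos_tendsto (v : Fin n → Fin d → ℤ) : Tendsto (critChaos v) atTop (𝓝 (crit v)) := by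
  have := main (univ.image v)
  convert this using 2 with T
  · rw [critChaos]
    congr 1
    ext θ
    exact and_congr_right fun h => by simp only [dens_iter v h]
  · rw [crit]
    congr 1
    ext θ
    exact and_congr_right fun h => ergodic_iff v h

end Pool.Agent.H2.Perc
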