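import Pool.Agent.H2.PD3

namespace Pool.Agent.H2.Pow

open MvPolynomial Pool.Agent.H2.Pdim

section gen
variable {R : Type} [CommRing R]

lemma step [IsDomain R] (I : Ideal R) (u g : R) (hg : g ≠ 0) (h : ∀ f, f * u ∈ I ↔ g ∣ f)
    (hI : PD R 2 I) : PD R 2 (I ⊔ Ideal.span {u} : Ideal R) := by
  have hB : PD R 2 (I × R) :=
    PD.x2 (LinearMap.inl R I R) (LinearMap.snd R I R) LinearMap.inl_injective
      LinearMap.snd_surjective (Function.Exact.inl_snd) hI (pd_proj 1)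
  let f : R →ₗ[R] I × R := LinearMap.toSpanSingleton R _ (⟨-(g * u), neg_mem ((h g).2 dvd_rfl)⟩, g)
  let p : I × R →ₗ[R] (I ⊔ Ideal.span {u} : Ideal R) :=
    (Submodule.inclusion le_sup_left).coprod (LinearMap.toSpanSingleton R _
      ⟨u, Ideal.mem_sup_right (Ideal.mem_span_singleton_self u)⟩)
  refine PD.x3 (n := 1) f p ?_ ?_ ?_ (pd_proj 0) hB
  · intro a b hab
    have := congrArg Prod.snd hab
    simpa [f, hg] using this
  · rintro ⟨x, hx⟩
    obtain ⟨a, ha, b, hb, rfl⟩ := Submodule.mem_sup.1 hx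
    obtain ⟨c, rfl⟩ := Ideal.mem_span_singleton'.1 hb
    exact ⟨(⟨a, ha⟩, c), Subtype.ext (by simp [p])⟩
  · rintro ⟨⟨a, ha⟩, c⟩
    constructor
    · intro h0
      have h1 : a + c * u = 0 := by simpa [p] using congrArg Subtype.val h0
      have h2 : c * u ∈ I := by
        rw [show c * u = -a by linear_combination h1]; exact neg_mem ha
      obtain ⟨r, rfl⟩ := (h c).1 h2
      refine ⟨r, Prod.ext (Subtype.ext ?_) ?_⟩
      · simp only [f, LinearMap.toSpanSingleton_apply, Prod.smul_mk, SetLike.mk_smul_mk,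
          smul_eq_mul]
        linear_combination -h1
      · simp [f, mul_comm]
    · rintro ⟨r, hr⟩
      rw [← hr]
      apply Subtype.ext
      simp [f, p]
      ring

lemma chain [IsDomain R] (z : R) (hz : Prime z) (w : ℕ → R) (c : ℕ → ℕ)
    (hw : ∀ i, w i ∣ w (i + 1)) (hc : ∀ i, c (i + 1) ≤ c i) (hn : ∀ i, ¬ z ∣ w i) (n : ℕ) :
    PD R 2 (Ideal.span {x | ∃ i < n, x = w i * z ^ c i}) := by
  induction n with
  | zero =>
    have : Ideal.span {x | ∃ i < 0, x = w i * z ^ c i} = ⊥ := by simp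
    rw [this]
    exact pd_proj 1
  | succ n ih =>
    have e : Ideal.span {x | ∃ i < n + 1, x = w i * z ^ c i} =
        Ideal.span {x | ∃ i < n, x = w i * z ^ c i} ⊔ Ideal.span {w n * z ^ c n} := by
      rw [← Ideal.span_union]
      congr 1
      ext x
      simp only [Set.mem_setOf_eq, Set.mem_union, Set.mem_singleton_iff]
      constructor
      · rintro ⟨i, hi, rfl⟩
        rcases Nat.lt_succ_iff_lt_or_eq.1 hi with h | rfl
        · exact Or.inl ⟨i, h, rfl⟩
        · exact Or.inr rfl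
      · rintro (⟨i, hi, rfl⟩ | rfl)
        · exact ⟨i, by omega, rfl⟩
        · exact ⟨n, by omega, rfl⟩
    rw [e]
    cases n with
    | zero =>
      have : Ideal.span {x | ∃ i < 0, x = w i * z ^ c i} = ⊥ := by simp
      rw [this, bot_sup_eq]
      have h0 : w 0 * z ^ c 0 ≠ 0 :=
        mul_ne_zero (fun h => hn 0 (h ▸ dvd_zero z)) (pow_ne_zero _ hz.ne_zero)
      exact PD.equiv (LinearEquiv.toSpanNonzeroSingleton R R _ h0) (pd_proj 1)
    | succ n =>
      obtain ⟨d, hd⟩ := Nat.exists_eq_add_of_le (hc n)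
      refine step _ _ (z ^ d) (pow_ne_zero _ hz.ne_zero) (fun f => ⟨fun h => ?_, ?_⟩) ih
      · have h1 : Ideal.span {x | ∃ i < n + 1, x = w i * z ^ c i} ≤ Ideal.span {z ^ c n} := by
          rw [Ideal.span_le]
          rintro _ ⟨i, hi, rfl⟩
          exact Ideal.mem_span_singleton.2 (Dvd.dvd.mul_left
            (pow_dvd_pow z (antitone_nat_of_succ_le hc (by omega : i ≤ n))) _)
        have h2 := Ideal.mem_span_singleton.1 (h1 h)
        rw [hd, pow_add, mul_comm, ← mul_assoc,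
          mul_dvd_mul_iff_right (pow_ne_zero _ hz.ne_zero)] at h2
        exact hz.pow_dvd_of_dvd_mul_right d (hn _) (by rwa [mul_comm] at h2)
      · rintro ⟨r, rfl⟩
        obtain ⟨v, hv⟩ := hw n
        have : z ^ d * r * (w (n + 1) * z ^ c (n + 1)) = (r * v) * (w n * z ^ c n) := by
          rw [hv, hd]; ring
        rw [this]
        exact Ideal.mul_mem_left _ _ (Ideal.subset_span ⟨n, by omega, rfl⟩)

lemma not_proj [IsDomain R] (I : Ideal R) (hI : I ≠ ⊤) (z v : R) (hz : Prime z) (k : ℕ)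
    (hu : z ^ k ∈ I) (hv : v ∈ I) (hzv : ¬ z ∣ v) : ¬ Module.Projective R I := by
  intro h
  obtain ⟨s, hs⟩ := Module.projective_def.1 h
  have h1 : ∀ a, ∃ r, s ⟨z ^ k, hu⟩ a = z ^ k * r := by
    intro a
    have e : v • (⟨z ^ k, hu⟩ : I) = z ^ k • (⟨v, hv⟩ : I) := Subtype.ext (mul_comm _ _)
    have e2 := congrArg (fun y => s y a) e
    simp only [map_smul, Finsupp.smul_apply, smul_eq_mul] at e2
    exact hz.pow_dvd_of_dvd_mul_left k hzv ⟨_, e2⟩
  choose r hr using h1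
  have h2 := congrArg Subtype.val (hs ⟨z ^ k, hu⟩)
  rw [Finsupp.linearCombination_apply, Finsupp.sum] at h2
  simp only [hr, id, AddSubmonoidClass.coe_finsetSum, SetLike.val_smul, smul_eq_mul, mul_assoc,
    ← Finset.mul_sum] at h2
  apply hI
  rw [Ideal.eq_top_iff_one]
  rw [← mul_left_cancel₀ (pow_ne_zero k hz.ne_zero) (h2.trans (mul_one _).symm)]
  exact Ideal.sum_mem _ fun a _ => Ideal.mul_mem_left _ _ a.2

lemma cover [IsNoetherianRing R] (I : Ideal R) (h : PD R 2 I) :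
    ∃ (m : ℕ) (f : (Fin m → R) →ₗ[R] I), Function.Surjective f ∧
      Module.Projective R (LinearMap.ker f) := by
  obtain ⟨m, f, hf⟩ := Module.Finite.exists_fin' R I
  exact ⟨m, f, hf, pd_one_iff.1 (PD.ker f hf (pd_proj 0) h)⟩

lemma of_cover (I : Ideal R) (h : ∃ (m : ℕ) (f : (Fin m → R) →ₗ[R] I), Function.Surjective f ∧
      Module.Projective R (LinearMap.ker f)) : PD R 3 (R ⧸ I) := by
  obtain ⟨m, f, hf, hp⟩ := h
  have h1 : PD R 2 I := PD.x3 (n := 1) (LinearMap.ker f).subtype f (Submodule.injective_subtype _)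
    hf (LinearMap.exact_subtype_ker_map f) (pd_proj 0) (pd_proj 1)
  exact PD.x3 (n := 2) I.subtype I.mkQ (Submodule.injective_subtype _) (Submodule.mkQ_surjective I)
    (LinearMap.exact_subtype_mkQ I) h1 (pd_proj 2)

end gen

abbrev S := MvPolynomial (Fin 3) ℚ

noncomputable def m3 (a b c : ℕ) : S := X 0 ^ a * X 1 ^ b * X 2 ^ c

lemma m3_mul (a b c a' b' c' : ℕ) : m3 a b c * m3 a' b' c' = m3 (a + a') (b + b') (c + c') := by
  simp only [m3]; ring

lemma m3_dvd {a b c a' b' c' : ℕ} (h1 : a ≤ a') (h2 : b ≤ b') (h3 : c ≤ c') :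
    m3 a b c ∣ m3 a' b' c' :=
  mul_dvd_mul (mul_dvd_mul (pow_dvd_pow _ h1) (pow_dvd_pow _ h2)) (pow_dvd_pow _ h3)

def A : ℕ → ℕ
  | 0 => 0
  | 1 => 1
  | 2 => 4
  | 3 => 5
  | _ => 6

noncomputable def Q : Ideal S := Ideal.span {x | ∃ i < 5, x = m3 (A i) (A i - 5) (6 - A i)}

noncomputable def J (t : ℕ) : Ideal S :=
  Ideal.span {x | ∃ i < 6 * t + 1, x = m3 i (i - 5 * t) (6 * t - i)}

lemma Q_hom : ∃ s : Set S, (∀ p ∈ s, ∃ d : ℕ, IsHomogeneous p d) ∧ Q = Ideal.span s := by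
  refine ⟨_, ?_, rfl⟩
  rintro _ ⟨i, _, rfl⟩
  exact ⟨_, (((isHomogeneous_X ℚ 0).pow _).mul ((isHomogeneous_X ℚ 1).pow _)).mul
    ((isHomogeneous_X ℚ 2).pow _)⟩

lemma z_ndvd (a b : ℕ) : ¬ (X 2 : S) ∣ X 0 ^ a * X 1 ^ b := by
  rintro ⟨r, hr⟩
  have := congrArg (eval ![1, 1, 0]) hr
  simp at this

lemma z_prime : Prime (X 2 : S) := X_prime

lemma A_mono (i : ℕ) : A i ≤ A (i + 1) := by
  match i with
  | 0 => decide
  | 1 => decide
  | 2 => decide
  | 3 => decide
  | _ + 4 => exact le_rfl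

lemma A_le (i : ℕ) : A i ≤ 6 := by
  match i with
  | 0 => decide
  | 1 => decide
  | 2 => decide
  | 3 => decide
  | _ + 4 => exact le_rfl

lemma pd_Q : PD S 2 Q :=
  chain (X 2) z_prime (fun i => X 0 ^ A i * X 1 ^ (A i - 5)) (fun i => 6 - A i)
    (fun i => mul_dvd_mul (pow_dvd_pow _ (A_mono i))
      (pow_dvd_pow _ (by have := A_mono i; omega)))
    (fun i => by have := A_mono i; omega) (fun _ => z_ndvd _ _) 5

lemma pd_J (t : ℕ) : PD S 2 (J t) :=
  chain (X 2) z_prime (fun i => X 0 ^ i * X 1 ^ (i - 5 * t)) (fun i => 6 * t - i)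
    (fun i => mul_dvd_mul (pow_dvd_pow _ (by omega)) (pow_dvd_pow _ (by omega)))
    (fun i => by omega) (fun _ => z_ndvd _ _) _

lemma memQ (i : ℕ) (hi : i < 5) : m3 (A i) (A i - 5) (6 - A i) ∈ Q :=
  Ideal.subset_span ⟨i, hi, rfl⟩

lemma pow_le (t : ℕ) : Q ^ t ≤ J t := by
  induction t with
  | zero =>
    rw [pow_zero, Ideal.one_eq_top, top_le_iff, Ideal.eq_top_iff_one]
    exact Ideal.subset_span ⟨0, by omega, by simp [m3]⟩
  | succ t ih =>
    rw [pow_succ]
    refine (Ideal.mul_mono_left ih).trans ?_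
    rw [J, Q, Ideal.span_mul_span', Ideal.span_le]
    rintro _ ⟨_, ⟨i, hi, rfl⟩, _, ⟨j, _, rfl⟩, rfl⟩
    have := A_le j
    simp only [m3_mul]
    exact Ideal.mem_of_dvd _ (m3_dvd le_rfl (by omega) (by omega))
      (Ideal.subset_span ⟨i + A j, by omega, rfl⟩)

lemma base : ∀ i < 19, ∃ a < 5, ∃ b < 5, ∃ c < 5, A a + A b + A c = i ∧
    (A a - 5) + (A b - 5) + (A c - 5) = i - 15 := by decide

lemma le_pow (t : ℕ) (ht : 3 ≤ t) : ∀ i < 6 * t + 1, m3 i (i - 5 * t) (6 * t - i) ∈ Q ^ t := by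
  induction t, ht using Nat.le_induction with
  | base =>
    intro i hi
    obtain ⟨a, ha, b, hb, c, hc, h1, h2⟩ := base i hi
    have := Ideal.mul_mem_mul (Ideal.mul_mem_mul (memQ a ha) (memQ b hb)) (memQ c hc)
    rw [m3_mul, m3_mul, h1, h2] at this
    have ha := A_le a
    have hb := A_le b
    have hc := A_le c
    rw [pow_three', show 6 * 3 - i = 6 - A a + (6 - A b) + (6 - A c) by omega]
    exact this
  | succ t ht ih =>
    intro i hi
    rw [pow_succ]
    have key : ∀ j < 5, A j ≤ i → i - A j < 6 * t + 1 →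
        (i - A j - 5 * t) + (A j - 5) = i - 5 * (t + 1) →
        m3 i (i - 5 * (t + 1)) (6 * (t + 1) - i) ∈ Q ^ t * Q := by
      intro j hj h1 h2 h3
      have := Ideal.mul_mem_mul (ih _ h2) (memQ j hj)
      have hj := A_le j
      rwa [m3_mul, h3, show i - A j + A j = i by omega,
        show 6 * t - (i - A j) + (6 - A j) = 6 * (t + 1) - i by omega] at this
    have a0 : A 0 = 0 := rfl
    have a3 : A 3 = 5 := rfl
    have a4 : A 4 = 6 := rfl
    by_cases h1 : i ≤ 5 * t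
    · exact key 0 (by omega) (by omega) (by omega) (by omega)
    by_cases h2 : i ≤ 5 * t + 5
    · exact key 3 (by omega) (by omega) (by omega) (by omega)
    · exact key 4 (by omega) (by omega) (by omega) (by omega)

lemma pow_eq (t : ℕ) (ht : 3 ≤ t) : Q ^ t = J t := by
  refine le_antisymm (pow_le t) ?_
  rw [J, Ideal.span_le]
  rintro _ ⟨i, hi, rfl⟩
  exact le_pow t ht i hi

lemma np (t : ℕ) (ht : 1 ≤ t) : ¬ Module.Projective S (Q ^ t : Ideal S) := by
  refine not_proj _ ?_ (X 2) ((X 0 ^ 6 * X 1) ^ t) z_prime (6 * t) ?_ ?_ ?_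
  · intro h
    have h1 : Q ≤ RingHom.ker (constantCoeff : S →+* ℚ) := by
      rw [Q, Ideal.span_le]
      rintro _ ⟨i, hi, rfl⟩
      interval_cases i <;> simp [m3, A]
    have h2 := (Ideal.pow_le_self (by omega : t ≠ 0)).trans h1
    rw [h] at h2
    simpa using h2 (Submodule.mem_top (x := (1 : S)))
  · rw [pow_mul]
    exact Ideal.pow_mem_pow (by simpa [m3, A] using memQ 0 (by omega)) t
  · exact Ideal.pow_mem_pow (by simpa [m3, A] using memQ 4 (by omega)) t
  · rw [mul_pow, ← pow_mul]; exact z_ndvd _ _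

lemma one : (∃ (m : ℕ) (f : (Fin m → S) →ₗ[S] Q), Function.Surjective f ∧
    Module.Projective S (LinearMap.ker f)) ∧ ¬ Module.Projective S Q :=
  ⟨cover _ pd_Q, by have := np 1 le_rfl; rwa [pow_one] at this⟩

lemma big (t : ℕ) (ht : 3 ≤ t) : (∃ (m : ℕ) (f : (Fin m → S) →ₗ[S] (Q ^ t : Ideal S)),
    Function.Surjective f ∧ Module.Projective S (LinearMap.ker f)) ∧
      ¬ Module.Projective S (Q ^ t : Ideal S) :=
  ⟨cover _ (by rw [pow_eq t ht]; exact pd_J t), np t (by omega)⟩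

noncomputable def ex (a b c : ℕ) : Fin 3 →₀ ℕ :=
  Finsupp.single 0 a + Finsupp.single 1 b + Finsupp.single 2 c

lemma m3_eq (a b c : ℕ) : m3 a b c = monomial (ex a b c) 1 := by
  simp [m3, ex, X_pow_eq_monomial, monomial_mul]

noncomputable def Km (m : Fin 3 →₀ ℕ) : Ideal S where
  carrier := {p | ∀ d ≤ m, coeff d p = 0}
  add_mem' := fun {p q} hp hq d hd => by rw [coeff_add, hp d hd, hq d hd, add_zero]
  zero_mem' := fun d _ => coeff_zero d
  smul_mem' := fun f p hp d hd => by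
    rw [smul_eq_mul, coeff_mul]
    refine Finset.sum_eq_zero fun x hx => ?_
    rw [hp x.2 (le_trans (by rw [← Finset.HasAntidiagonal.mem_antidiagonal.1 hx]; exact le_add_self) hd), mul_zero]

lemma m3_Km (a b c : ℕ) (h : 7 < a ∨ 0 < b ∨ 5 < c) : m3 a b c ∈ Km (ex 7 0 5) := by
  intro d hd
  rw [m3_eq, coeff_monomial, if_neg]
  rintro rfl
  have h0 := hd 0
  have h1 := hd 1
  have h2 := hd 2
  simp [ex] at h0 h1 h2
  omega

lemma not_two : ¬ ∃ (m : ℕ) (f : (Fin m → S) →ₗ[S] (Q ^ 2 : Ideal S)),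
    Function.Surjective f ∧ Module.Projective S (LinearMap.ker f) := by
  intro h
  refine not_V_zero (X : Fin 3 → S) ((Q ^ 2).mkQ (m3 7 0 5)) ?_ (fun i => ⟨1, ?_⟩)
    (V_pd X _ (by simp [List.mem_ofFn']) (X_reg 3) 2 _ (of_cover _ h) 0 (by simp))
  · rw [Submodule.mkQ_apply, Ne, Submodule.Quotient.mk_eq_zero]
    intro h1
    have h2 : Q ^ 2 ≤ Km (ex 7 0 5) := by
      rw [pow_two, Q, Ideal.span_mul_span', Ideal.span_le]
      rintro _ ⟨_, ⟨i, hi, rfl⟩, _, ⟨j, hj, rfl⟩, rfl⟩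
      simp only [m3_mul]
      apply m3_Km
      interval_cases i <;> interval_cases j <;> decide
    have h3 := h2 h1 _ le_rfl
    rw [m3_eq, coeff_monomial, if_pos rfl] at h3
    exact one_ne_zero h3
  · rw [← map_smul, Submodule.mkQ_apply, Submodule.Quotient.mk_eq_zero, pow_two]
    have k1 := Ideal.mul_mem_mul (memQ 2 (by omega)) (memQ 2 (by omega))
    have k2 := Ideal.mul_mem_mul (memQ 1 (by omega)) (memQ 4 (by omega))
    have k3 := Ideal.mul_mem_mul (memQ 1 (by omega)) (memQ 3 (by omega))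
    fin_cases i
    · exact Ideal.mem_of_dvd _ ⟨X 2, by simp [m3, A]; ring⟩ k1
    · exact Ideal.mem_of_dvd _ ⟨1, by simp [m3, A]; ring⟩ k2
    · exact Ideal.mem_of_dvd _ ⟨X 0, by simp [m3, A]; ring⟩ k3

end Pool.Agent.H2.Pow
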