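import Mathlib

set_option autoImplicit false

namespace Pool.Agent.H2.QT

open FreeGroup

abbrev Lt := Bool × Bool
abbrev G := FreeGroup Bool

/-- weighted length of a word -/
def len (w : Bool → ℝ) (L : List Lt) : ℝ := (L.map fun a => w a.1).sum

/-- longest common prefix -/
def lcp {α : Type} [DecidableEq α] : List α → List α → List α
  | a :: l, b :: m => if a = b then a :: lcp l m else []
  | [], _ => []
  | _ :: _, [] => []

section lcp
variable {α : Type} [DecidableEq α]

@[simp] lemma lcp_nil_left (m : List α) : lcp [] m = [] := by cases m <;> rfl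
@[simp] lemma lcp_nil_right (l : List α) : lcp l [] = [] := by cases l <;> rfl
lemma lcp_cons (a b : α) (l m : List α) :
    lcp (a :: l) (b :: m) = if a = b then a :: lcp l m else [] := rfl

lemma lcp_comm : ∀ l m : List α, lcp l m = lcp m l
  | [], m => by simp
  | _ :: _, [] => by simp
  | a :: l, b :: m => by
    rw [lcp_cons, lcp_cons]
    by_cases h : a = b
    · subst h; simp [lcp_comm l m]
    · simp [h, Ne.symm h]

lemma lcp_prefix : ∀ l m : List α, lcp l m <+: l
  | [], m => by simp
  | _ :: _, [] => by simp
  | a :: l, b :: m => by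
    rw [lcp_cons]
    split_ifs with h
    · exact (List.prefix_cons_inj a).2 (lcp_prefix l m)
    · simp

lemma lcp_prefix' (l m : List α) : lcp l m <+: m := by rw [lcp_comm]; exact lcp_prefix m l

lemma prefix_lcp : ∀ {p l m : List α}, p <+: l → p <+: m → p <+: lcp l m
  | [], _, _, _, _ => List.nil_prefix
  | a :: p, [], _, h, _ => by simp at h
  | a :: p, _ :: _, [], _, h => by simp at h
  | a :: p, b :: l, c :: m, h1, h2 => by
    rw [List.cons_prefix_cons] at h1 h2
    obtain ⟨rfl, h1⟩ := h1
    obtain ⟨rfl, h2⟩ := h2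
    rw [lcp_cons, if_pos rfl]
    exact (List.prefix_cons_inj a).2 (prefix_lcp h1 h2)

lemma lcp_eq_left {l m : List α} (h : l <+: m) : lcp l m = l :=
  (lcp_prefix l m).eq_of_length_le (prefix_lcp List.prefix_rfl h).length_le

lemma lcp_decomp : ∀ l m : List α, ∃ l' m', l = lcp l m ++ l' ∧ m = lcp l m ++ m' ∧
    ∀ a ∈ l'.head?, ∀ b ∈ m'.head?, a ≠ b
  | [], m => ⟨[], m, by simp, by simp, by simp⟩
  | a :: l, [] => ⟨a :: l, [], by simp, by simp, by simp⟩
  | a :: l, b :: m => by
    rw [lcp_cons]
    split_ifs with h
    · obtain ⟨l', m', h1, h2, h3⟩ := lcp_decomp l m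
      subst h
      exact ⟨l', m', by rw [List.cons_append, ← h1], by rw [List.cons_append, ← h2], h3⟩
    · exact ⟨a :: l, b :: m, by simp, by simp, by simpa using h⟩

end lcp

variable {w : Bool → ℝ}

@[simp] lemma len_nil : len w [] = 0 := by simp [len]
@[simp] lemma len_cons (a : Lt) (l : List Lt) : len w (a :: l) = w a.1 + len w l := by simp [len]
@[simp] lemma len_append (l m : List Lt) : len w (l ++ m) = len w l + len w m := by simp [len]

lemma len_invRev (l : List Lt) : len w (invRev l) = len w l := by
  induction l with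
  | nil => simp
  | cons a l ih => rw [invRev_cons, len_append, ih]; simp [invRev]; ring

lemma len_nonneg (hw : ∀ b, 0 < w b) (l : List Lt) : 0 ≤ len w l := by
  induction l with
  | nil => simp
  | cons a l ih => have := hw a.1; simp only [len_cons]; linarith

lemma len_ge {m : ℝ} (hm : ∀ b, m ≤ w b) (l : List Lt) : m * l.length ≤ len w l := by
  induction l with
  | nil => simp
  | cons a l ih => have := hm a.1; simp only [len_cons, List.length_cons]; push_cast; linarith

lemma len_mono (hw : ∀ b, 0 < w b) {l m : List Lt} (h : l <+: m) : len w l ≤ len w m := by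
  obtain ⟨t, rfl⟩ := h
  have := len_nonneg hw t
  simp only [len_append]; linarith

lemma prefix_of_len_le (hw : ∀ b, 0 < w b) {p q u : List Lt} (hp : p <+: u) (hq : q <+: u)
    (h : len w p ≤ len w q) : p <+: q := by
  rcases List.prefix_or_prefix_of_prefix hp hq with h1 | h1
  · exact h1
  · obtain ⟨t, rfl⟩ := h1
    cases t with
    | nil => simp
    | cons a t =>
      have := len_nonneg hw t
      have := hw a.1
      simp only [len_append, len_cons] at h; linarith

lemma lcp_ultra (hw : ∀ b, 0 < w b) (x y z : List Lt) :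
    min (len w (lcp x y)) (len w (lcp y z)) ≤ len w (lcp x z) := by
  rcases List.prefix_or_prefix_of_prefix (lcp_prefix' x y) (lcp_prefix y z) with h | h
  · exact (min_le_left _ _).trans
      (len_mono hw (prefix_lcp (lcp_prefix x y) (h.trans (lcp_prefix' y z))))
  · exact (min_le_right _ _).trans
      (len_mono hw (prefix_lcp (h.trans (lcp_prefix x y)) (lcp_prefix' y z)))

lemma red_right {p l : List Lt} (h : IsReduced (p ++ l)) : IsReduced l :=
  (List.isChain_append.1 h).2.1

lemma isReduced_invRev {l : List Lt} (h : IsReduced l) : IsReduced (invRev l) := by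
  have h1 : (mk l)⁻¹.toWord = invRev l := by rw [toWord_inv, toWord_mk, h.reduce_eq]
  rw [← h1]; exact isReduced_toWord

/-- the weighted word metric on the free group -/
def d (w : Bool → ℝ) (g h : G) : ℝ := len w (g⁻¹ * h).toWord

lemma d_mul (k g h : G) : d w (k * g) (k * h) = d w g h := by
  simp [d, mul_assoc]

@[simp] lemma d_self (g : G) : d w g g = 0 := by simp [d]

lemma d_comm (g h : G) : d w g h = d w h g := by
  have : h⁻¹ * g = (g⁻¹ * h)⁻¹ := by simp
  rw [d, d, this, toWord_inv, len_invRev]

lemma d_nonneg (hw : ∀ b, 0 < w b) (g h : G) : 0 ≤ d w g h := len_nonneg hw _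

lemma d_mk {l m : List Lt} (hl : IsReduced l) (hm : IsReduced m) :
    d w (mk l) (mk m) = len w l + len w m - 2 * len w (lcp l m) := by
  obtain ⟨l', m', h1, h2, h3⟩ := lcp_decomp l m
  generalize lcp l m = p at h1 h2
  subst h1 h2
  have hl' : IsReduced l' := red_right hl
  have hm' : IsReduced m' := red_right hm
  have e : (mk (p ++ l'))⁻¹ * mk (p ++ m') = mk (invRev l' ++ m') := by
    rw [← mul_mk, ← mul_mk, ← mul_mk, ← inv_mk]; group
  have hr : IsReduced (invRev l' ++ m') := by
    refine List.isChain_append.2 ⟨isReduced_invRev hl', hm', ?_⟩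
    intro x hx y hy hxy
    cases l' with
    | nil => simp at hx
    | cons a l' =>
      have hx' : x = (a.1, !a.2) := by
        rw [invRev_cons] at hx
        simp [invRev] at hx
        exact hx.symm
      have hne := h3 a (by simp) y hy
      subst hx'
      obtain ⟨a1, a2⟩ := a
      obtain ⟨y1, y2⟩ := y
      simp only at hxy ⊢
      subst hxy
      cases a2 <;> cases y2 <;> simp_all
  rw [d, e, toWord_mk, hr.reduce_eq]
  simp only [len_append, len_invRev]; ring

lemma d_word (g h : G) :
    d w g h = len w g.toWord + len w h.toWord - 2 * len w (lcp g.toWord h.toWord) := by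
  rw [← d_mk isReduced_toWord isReduced_toWord, mk_toWord, mk_toWord]

lemma d_one (g : G) : d w 1 g = len w g.toWord := by simp [d]

lemma gromov (x y z : G) : (d w x z + d w y z - d w x y) / 2 =
    len w (lcp (z⁻¹ * x).toWord (z⁻¹ * y).toWord) := by
  rw [← d_mul z⁻¹ x y, d_word (z⁻¹ * x), d_comm x z, d_comm y z, d, d]; ring

lemma d_triangle (hw : ∀ b, 0 < w b) (x y z : G) : d w x z ≤ d w x y + d w y z := by
  have h := gromov (w := w) x z y
  have h2 := len_nonneg hw (lcp (y⁻¹ * x).toWord (y⁻¹ * z).toWord)
  rw [d_comm z y] at h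
  linarith

lemma d_four (hw : ∀ b, 0 < w b) (x y z u : G) :
    min ((d w x u + d w y u - d w x y) / 2) ((d w y u + d w z u - d w y z) / 2)
      ≤ (d w x u + d w z u - d w x z) / 2 := by
  rw [gromov, gromov, gromov]; exact lcp_ultra hw _ _ _

lemma eq_of_d (hw : ∀ b, 0 < w b) {g h : G} (e : d w g h ≤ 0) : g = h := by
  have : (g⁻¹ * h).toWord = [] := by
    rw [d] at e
    cases hh : (g⁻¹ * h).toWord with
    | nil => rfl
    | cons a t =>
      rw [hh, len_cons] at e
      have := len_nonneg hw t
      have := hw a.1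
      linarith
  rw [toWord_eq_nil_iff] at this
  exact inv_mul_eq_one.1 this

lemma d_edge (g : G) (a : Lt) : d w g (g * mk [a]) = w a.1 := by
  rw [d, inv_mul_cancel_left, toWord_mk, IsReduced.singleton.reduce_eq]; simp

lemma d_edge' (g u : G) (a : Lt) :
    d w (g * mk [a]) u = d w g u + w a.1 ∨ d w (g * mk [a]) u = d w g u - w a.1 := by
  have e : d w (g * mk [a]) u = d w (mk [a]) (mk (g⁻¹ * u).toWord) := by
    rw [mk_toWord, ← d_mul g⁻¹, inv_mul_cancel_left]
  rw [e, d_mk IsReduced.singleton isReduced_toWord, d]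
  generalize (g⁻¹ * u).toWord = m
  cases m with
  | nil => left; simp
  | cons b m =>
    rw [lcp_cons]
    split_ifs with h
    · right; subst h; simp; ring
    · left; simp; ring

lemma d_mk_right (g : G) {l : List Lt} (hl : IsReduced l) : d w g (g * mk l) = len w l := by
  rw [d, inv_mul_cancel_left, toWord_mk, hl.reduce_eq]

lemma ball_finite (hw : ∀ b, 0 < w b) (R : ℝ) : {g : G | d w 1 g ≤ R}.Finite := by
  have hm : 0 < min (w true) (w false) := lt_min (hw _) (hw _)
  have hm' : ∀ b, min (w true) (w false) ≤ w b := by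
    intro b; cases b
    · exact min_le_right _ _
    · exact min_le_left _ _
  obtain ⟨n, hn⟩ := exists_nat_ge (R / min (w true) (w false))
  refine Set.Finite.subset ((List.finite_length_le Lt n).preimage
    (toWord_injective.injOn)) ?_
  intro g hg
  have h1 := len_ge hm' g.toWord
  simp only [Set.mem_setOf_eq, d_one] at hg
  rw [div_le_iff₀ hm] at hn
  have : (g.toWord.length : ℝ) ≤ n := by
    by_contra hc
    push Not at hc
    nlinarith
  simpa using this

end Pool.Agent.H2.QT
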