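import Pool.Agent.H2.QT1

set_option autoImplicit false

namespace Pool.Agent.H2.QT

open FreeGroup Set

/-- there is a geodesic from `x` to `y` -/
def Geo {X : Type} [MetricSpace X] (x y : X) : Prop :=
  ∃ γ : ℝ → X, γ 0 = x ∧ γ (dist x y) = y ∧
    ∀ s ∈ Icc (0:ℝ) (dist x y), ∀ t ∈ Icc (0:ℝ) (dist x y), dist (γ s) (γ t) = |s - t|

section geo
variable {X : Type} [MetricSpace X]

lemma Geo.refl (x : X) : Geo x x := by
  refine ⟨fun _ => x, rfl, rfl, ?_⟩
  intro s hs t ht
  simp only [dist_self, mem_Icc] at *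
  rw [show s - t = 0 by linarith]; simp

lemma Geo.symm {x y : X} (h : Geo x y) : Geo y x := by
  obtain ⟨γ, h0, h1, h2⟩ := h
  refine ⟨fun s => γ (dist x y - s), by simpa using h1, by simpa [dist_comm y x] using h0, ?_⟩
  intro s hs t ht
  rw [dist_comm y x] at hs ht
  rw [h2 _ ⟨by linarith [hs.2], by linarith [hs.1]⟩ _ ⟨by linarith [ht.2], by linarith [ht.1]⟩,
    ← abs_neg]
  congr 1; ring

lemma Geo.trans {x y z : X} (h : Geo x y) (h' : Geo y z) (e : dist x z = dist x y + dist y z) :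
    Geo x z := by
  obtain ⟨γ, h0, h1, h2⟩ := h
  obtain ⟨η, k0, k1, k2⟩ := h'
  have ha : 0 ≤ dist x y := dist_nonneg
  have hb : 0 ≤ dist y z := dist_nonneg
  have key : ∀ s ∈ Icc (0:ℝ) (dist x y), ∀ t ∈ Icc (0:ℝ) (dist y z),
      dist (γ s) (η t) = dist x y - s + t := by
    intro s hs t ht
    have a1 := h2 s hs (dist x y) ⟨ha, le_rfl⟩
    have a2 := h2 0 ⟨le_rfl, ha⟩ s hs
    have a3 := k2 0 ⟨le_rfl, hb⟩ t ht
    have a4 := k2 t ht (dist y z) ⟨hb, le_rfl⟩
    rw [h1, abs_of_nonpos (by linarith [hs.2])] at a1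
    rw [h0, abs_of_nonpos (by linarith [hs.1])] at a2
    rw [k0, abs_of_nonpos (by linarith [ht.1])] at a3
    rw [k1, abs_of_nonpos (by linarith [ht.2])] at a4
    have t1 := dist_triangle (γ s) y (η t)
    have t2 := dist_triangle4 x (γ s) (η t) z
    linarith
  refine ⟨fun s => if s ≤ dist x y then γ s else η (s - dist x y), by simp [h0], ?_, ?_⟩
  · dsimp only
    split_ifs with h
    · have : dist y z = 0 := by linarith
      rw [dist_eq_zero] at this
      subst this; exact h1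
    · rw [e, add_sub_cancel_left, k1]
  · intro s hs t ht
    rw [e] at hs ht
    dsimp only
    split_ifs with p q q
    · exact h2 s ⟨hs.1, p⟩ t ⟨ht.1, q⟩
    · rw [key s ⟨hs.1, p⟩ _ ⟨by linarith, by linarith [ht.2]⟩, abs_of_nonpos (by linarith)]; ring
    · rw [dist_comm, key t ⟨ht.1, q⟩ _ ⟨by linarith, by linarith [hs.2]⟩,
        abs_of_nonneg (by linarith)]; ring
    · rw [k2 _ ⟨by linarith, by linarith [hs.2]⟩ _ ⟨by linarith, by linarith [ht.2]⟩]
      congr 1; ring

end geo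

/-- positive edge lengths -/
structure Wt where
  w : Bool → ℝ
  pos : ∀ b, 0 < w b

/-- adjacency in the Cayley tree -/
def Adj (g h : G) : Prop := ∃ a : Lt, h = g * mk [a]

lemma Adj.symm {g h : G} (e : Adj g h) : Adj h g := by
  obtain ⟨a, rfl⟩ := e
  refine ⟨(a.1, !a.2), ?_⟩
  have : mk [(a.1, !a.2)] = (mk [a])⁻¹ := by rw [inv_mk]; simp [invRev]
  rw [this, mul_inv_cancel_right]

lemma Adj.mul {g h : G} (e : Adj g h) (k : G) : Adj (k * g) (k * h) := by
  obtain ⟨a, rfl⟩ := e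
  exact ⟨a, by rw [mul_assoc]⟩

variable (W : Wt)

lemma Adj.edge {g h : G} (e : Adj g h) (u : G) :
    d W.w h u = d W.w g u + d W.w g h ∨ d W.w h u = d W.w g u - d W.w g h := by
  obtain ⟨a, rfl⟩ := e
  rw [d_edge]; exact d_edge' g u a

lemma Adj.pos {g h : G} (e : Adj g h) : 0 < d W.w g h := by
  obtain ⟨a, rfl⟩ := e
  rw [d_edge]; exact W.pos _

/-- the maximal edge length -/
def Wt.mx : ℝ := max (W.w true) (W.w false)

lemma Wt.le_mx (b : Bool) : W.w b ≤ W.mx := by
  cases b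
  · exact le_max_right _ _
  · exact le_max_left _ _

lemma Adj.le {g h : G} (e : Adj g h) : d W.w g h ≤ W.mx := by
  obtain ⟨a, rfl⟩ := e
  rw [d_edge]; exact W.le_mx _

/-- a point of an edge, recorded by its distances to all vertices -/
def fn (g h : G) (t : ℝ) : G → ℝ := fun u => (1 - t) * d W.w g u + t * d W.w h u

/-- the Cayley tree as a metric space -/
def T : Type := {f : G → ℝ // ∃ g h : G, Adj g h ∧ ∃ t ∈ Icc (0:ℝ) 1, f = fn W g h t}

lemma fn_sub {g h : G} (t : ℝ) (ht : t ∈ Icc (0:ℝ) 1) (u : G) :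
    |fn W g h t u - d W.w g u| ≤ t * d W.w g h := by
  have h1 := d_triangle W.pos g h u
  have h2 := d_triangle W.pos h g u
  rw [d_comm h g] at h2
  have : fn W g h t u - d W.w g u = t * (d W.w h u - d W.w g u) := by simp only [fn]; ring
  rw [this, abs_mul, abs_of_nonneg ht.1]
  exact mul_le_mul_of_nonneg_left (abs_le.2 ⟨by linarith, by linarith⟩) ht.1

lemma bdd (x y : T W) : BddAbove (range fun u => |x.1 u - y.1 u|) := by
  obtain ⟨x, g, h, -, t, ht, rfl⟩ := x
  obtain ⟨y, g', h', -, t', ht', rfl⟩ := y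
  refine ⟨t * d W.w g h + t' * d W.w g' h' + d W.w g g', ?_⟩
  rintro _ ⟨u, rfl⟩
  have a1 := abs_le.1 (fn_sub W (g := g) (h := h) t ht u)
  have a2 := abs_le.1 (fn_sub W (g := g') (h := h') t' ht' u)
  have h1 := d_triangle W.pos g g' u
  have h2 := d_triangle W.pos g' g u
  rw [d_comm g' g] at h2
  exact abs_le.2 ⟨by dsimp only; linarith, by dsimp only; linarith⟩

noncomputable instance : MetricSpace (T W) where
  dist x y := ⨆ u, |x.1 u - y.1 u|
  dist_self x := by simp
  dist_comm x y := by simp only [abs_sub_comm]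
  dist_triangle x y z := ciSup_le fun u => (abs_sub_le _ (y.1 u) _).trans
    (add_le_add (le_ciSup (bdd W x y) u) (le_ciSup (bdd W y z) u))
  eq_of_dist_eq_zero {x y} h := by
    refine Subtype.ext (funext fun u => ?_)
    have := le_ciSup (bdd W x y) u
    rw [h] at this
    exact sub_eq_zero.1 (abs_nonpos_iff.1 this)

lemma le_dist (x y : T W) (u : G) : |x.1 u - y.1 u| ≤ dist x y := le_ciSup (bdd W x y) u

lemma dist_le {x y : T W} {c : ℝ} (h : ∀ u, |x.1 u - y.1 u| ≤ c) : dist x y ≤ c := ciSup_le h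

/-- clamp -/
def cl (t : ℝ) : ℝ := max 0 (min t 1)

lemma cl_mem (t : ℝ) : cl t ∈ Icc (0:ℝ) 1 :=
  ⟨le_max_left _ _, max_le zero_le_one (min_le_right _ _)⟩

lemma cl_eq {t : ℝ} (h : t ∈ Icc (0:ℝ) 1) : cl t = t := by
  rw [cl, min_eq_left h.2, max_eq_right h.1]

/-- the point at parameter `t` on the edge from `g` to `h` -/
def pt {g h : G} (e : Adj g h) (t : ℝ) : T W := ⟨fn W g h (cl t), g, h, e, cl t, cl_mem t, rfl⟩

lemma pt_val {g h : G} (e : Adj g h) {t : ℝ} (ht : t ∈ Icc (0:ℝ) 1) (u : G) :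
    (pt W e t).1 u = (1 - t) * d W.w g u + t * d W.w h u := by
  simp only [pt, cl_eq ht, fn]

lemma exists_pt (x : T W) : ∃ g h : G, ∃ e : Adj g h, ∃ t ∈ Icc (0:ℝ) 1, x = pt W e t := by
  obtain ⟨x, g, h, e, t, ht, rfl⟩ := x
  exact ⟨g, h, e, t, ht, Subtype.ext (by simp only [pt, cl_eq ht])⟩

/-- a vertex -/
def vx (g : G) : T W := pt W (g := g) (h := g * mk [(true, true)]) ⟨_, rfl⟩ 0

lemma vx_val (g u : G) : (vx W g).1 u = d W.w g u := by
  rw [vx, pt_val W _ ⟨le_rfl, zero_le_one⟩]; ring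

lemma pt_zero {g h : G} (e : Adj g h) : pt W e 0 = vx W g :=
  Subtype.ext (funext fun u => by rw [vx_val, pt_val W _ ⟨le_rfl, zero_le_one⟩]; ring)

lemma pt_one {g h : G} (e : Adj g h) : pt W e 1 = vx W h :=
  Subtype.ext (funext fun u => by rw [vx_val, pt_val W _ ⟨zero_le_one, le_rfl⟩]; ring)

lemma one_sub_mem {t : ℝ} (ht : t ∈ Icc (0:ℝ) 1) : 1 - t ∈ Icc (0:ℝ) 1 :=
  ⟨by linarith [ht.2], by linarith [ht.1]⟩

lemma pt_symm {g h : G} (e : Adj g h) {t : ℝ} (ht : t ∈ Icc (0:ℝ) 1) :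
    pt W e t = pt W e.symm (1 - t) :=
  Subtype.ext (funext fun u => by rw [pt_val W _ ht, pt_val W _ (one_sub_mem ht)]; ring)

lemma dist_vx (g h : G) : dist (vx W g) (vx W h) = d W.w g h := by
  refine le_antisymm (dist_le W fun u => ?_) ?_
  · have h1 := d_triangle W.pos g h u
    have h2 := d_triangle W.pos h g u
    rw [d_comm h g] at h2
    rw [vx_val, vx_val]
    exact abs_le.2 ⟨by linarith, by linarith⟩
  · have := le_dist W (vx W g) (vx W h) h
    rw [vx_val, vx_val, d_self, sub_zero] at this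
    exact (le_abs_self _).trans this

lemma dist_pt {g h : G} (e : Adj g h) {s t : ℝ} (hs : s ∈ Icc (0:ℝ) 1) (ht : t ∈ Icc (0:ℝ) 1) :
    dist (pt W e s) (pt W e t) = |s - t| * d W.w g h := by
  have k : ∀ u, |(pt W e s).1 u - (pt W e t).1 u| = |s - t| * d W.w g h := by
    intro u
    rw [pt_val W _ hs, pt_val W _ ht, ← abs_of_pos (e.pos W), ← abs_mul]
    rcases e.edge W u with h1 | h1 <;> rw [h1]
    · congr 1; ring
    · rw [← abs_neg]; congr 1; ring
  refine le_antisymm (dist_le W fun u => (k u).le) ?_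
  rw [← k 1]; exact le_dist W _ _ _

lemma geo_pt_le {g h : G} (e : Adj g h) {s t : ℝ} (hs : s ∈ Icc (0:ℝ) 1) (ht : t ∈ Icc (0:ℝ) 1)
    (hst : s ≤ t) : Geo (pt W e s) (pt W e t) := by
  have hp := e.pos W
  have hd : dist (pt W e s) (pt W e t) = (t - s) * d W.w g h := by
    rw [dist_pt W e hs ht, abs_sub_comm, abs_of_nonneg (by linarith)]
  have hm : ∀ r ∈ Icc (0:ℝ) (dist (pt W e s) (pt W e t)), s + r / d W.w g h ∈ Icc (0:ℝ) 1 := by
    intro r hr
    rw [hd] at hr
    have a1 : 0 ≤ r / d W.w g h := div_nonneg hr.1 hp.le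
    have a2 : r / d W.w g h ≤ t - s := (div_le_iff₀ hp).2 hr.2
    exact ⟨by linarith [hs.1], by linarith [ht.2]⟩
  refine ⟨fun r => pt W e (s + r / d W.w g h), by simp, ?_, ?_⟩
  · dsimp only
    rw [hd, mul_div_cancel_right₀ _ hp.ne']; congr 1; ring
  · intro r hr r' hr'
    rw [dist_pt W e (hm r hr) (hm r' hr'), ← abs_of_pos hp, ← abs_mul, abs_of_pos hp]
    congr 1; field_simp; ring

lemma geo_pt {g h : G} (e : Adj g h) {s t : ℝ} (hs : s ∈ Icc (0:ℝ) 1) (ht : t ∈ Icc (0:ℝ) 1) :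
    Geo (pt W e s) (pt W e t) := by
  rcases le_total s t with h | h
  · exact geo_pt_le W e hs ht h
  · exact (geo_pt_le W e ht hs h).symm

lemma dist_pt_vx {g h : G} (e : Adj g h) {t : ℝ} (ht : t ∈ Icc (0:ℝ) 1) :
    dist (pt W e t) (vx W g) = t * d W.w g h := by
  rw [← pt_zero W e, dist_pt W e ht ⟨le_rfl, zero_le_one⟩, sub_zero, abs_of_nonneg ht.1]

lemma geo_word (l : List Lt) : ∀ g : G, IsReduced l → Geo (vx W g) (vx W (g * mk l)) := by
  induction l with
  | nil => intro g _; rw [← one_eq_mk, mul_one]; exact Geo.refl _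
  | cons a l ih =>
    intro g hl
    have hl' : IsReduced l := red_right (p := [a]) hl
    have e : Adj g (g * mk [a]) := ⟨a, rfl⟩
    have h1 : Geo (vx W g) (vx W (g * mk [a])) := by
      rw [← pt_zero W e, ← pt_one W e]
      exact geo_pt W e ⟨le_rfl, zero_le_one⟩ ⟨zero_le_one, le_rfl⟩
    have h2 := ih (g * mk [a]) hl'
    have e2 : g * mk (a :: l) = g * mk [a] * mk l := by rw [mul_assoc, mul_mk]; rfl
    have h3 := d_mk_right (w := W.w) g hl
    rw [e2] at h3 ⊢
    refine h1.trans h2 ?_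
    rw [dist_vx, dist_vx, dist_vx, h3, d_edge, d_mk_right _ hl', len_cons]

lemma geo_vx (g h : G) : Geo (vx W g) (vx W h) := by
  have := geo_word W (g⁻¹ * h).toWord g isReduced_toWord
  rwa [mk_toWord, mul_inv_cancel_left] at this

lemma geo_core {g g' h h' : G} (e : Adj g g') (f : Adj h h') {s t : ℝ} (hs : s ∈ Icc (0:ℝ) 1)
    (ht : t ∈ Icc (0:ℝ) 1) (m1 : d W.w g h ≤ d W.w g' h) (m2 : d W.w g h ≤ d W.w g h')
    (m3 : d W.w g h ≤ d W.w g' h') : Geo (pt W e s) (pt W f t) := by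
  have pe := e.pos W
  have pf := f.pos W
  have a1 : d W.w g' h = d W.w g h + d W.w g g' := by
    rcases e.edge W h with k | k <;> linarith
  have a2 : d W.w g h' = d W.w g h + d W.w h h' := by
    have := f.edge W g
    rw [d_comm h' g, d_comm h g] at this
    rcases this with k | k <;> linarith
  rcases e.edge W h' with k | k
  · have b1 := dist_pt_vx W e hs
    have b2 := dist_pt_vx W f ht
    have b3 := dist_vx W g h
    have b4 := le_dist W (pt W e s) (pt W f t) h'
    rw [pt_val W _ hs, pt_val W _ ht, k, a2, d_self] at b4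
    have b5 : s * d W.w g g' + d W.w g h + t * d W.w h h' ≤ dist (pt W e s) (pt W f t) := by
      refine le_trans (le_of_eq ?_) ((le_abs_self _).trans b4)
      ring
    have t1 := dist_triangle (pt W e s) (vx W h) (pt W f t)
    have t2 := dist_triangle (pt W e s) (vx W g) (vx W h)
    rw [dist_comm] at b2
    have g1 : Geo (pt W e s) (vx W g) := by
      rw [← pt_zero W e]; exact geo_pt W e hs ⟨le_rfl, zero_le_one⟩
    have g2 : Geo (vx W h) (pt W f t) := by
      rw [← pt_zero W f]; exact geo_pt W f ⟨le_rfl, zero_le_one⟩ ht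
    exact (g1.trans (geo_vx W g h) (by linarith)).trans g2 (by linarith)
  · have c1 := f.edge W g'
    rw [d_comm h' g', d_comm h g'] at c1
    have c2 := d_four W.pos g h' g' h
    rw [d_comm h' h, d_comm h' g'] at c2
    have c3 : d W.w g g' = d W.w h h' ∧ d W.w g' h' = d W.w g h := by
      rcases c1 with c | c
      · exfalso; linarith
      · constructor <;> linarith
    have c4 : d W.w g h ≤ 0 := by
      have c5 := d_four W.pos g g' h' h
      have c6 := d_four W.pos g' g h' h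
      rw [d_comm h' h] at c5 c6
      rw [d_comm g' g] at c6
      rcases min_le_iff.1 c5 with c | c <;> linarith
    have c5 : g = h := eq_of_d W.pos c4
    have c6 : g' = h' := eq_of_d W.pos (by linarith [c3.2])
    subst c5 c6
    exact geo_pt W e hs ht

lemma geo_all (x y : T W) : Geo x y := by
  obtain ⟨g, g', e, s, hs, rfl⟩ := exists_pt W x
  obtain ⟨h, h', f, t, ht, rfl⟩ := exists_pt W y
  by_cases c1 : d W.w g h ≤ d W.w g' h ∧ d W.w g h ≤ d W.w g h' ∧ d W.w g h ≤ d W.w g' h'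
  · exact geo_core W e f hs ht c1.1 c1.2.1 c1.2.2
  by_cases c2 : d W.w g' h ≤ d W.w g h ∧ d W.w g' h ≤ d W.w g' h' ∧ d W.w g' h ≤ d W.w g h'
  · rw [pt_symm W e hs]; exact geo_core W e.symm f (one_sub_mem hs) ht c2.1 c2.2.1 c2.2.2
  by_cases c3 : d W.w g h' ≤ d W.w g' h' ∧ d W.w g h' ≤ d W.w g h ∧ d W.w g h' ≤ d W.w g' h
  · rw [pt_symm W f ht]; exact geo_core W e f.symm hs (one_sub_mem ht) c3.1 c3.2.1 c3.2.2
  rw [pt_symm W e hs, pt_symm W f ht]
  simp only [not_and_or, not_le] at c1 c2 c3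
  refine geo_core W e.symm f.symm (one_sub_mem hs) (one_sub_mem ht) ?_ ?_ ?_ <;>
    rcases c1 with c1 | c1 | c1 <;> rcases c2 with c2 | c2 | c2 <;>
    rcases c3 with c3 | c3 | c3 <;> linarith

instance : MulAction G (T W) where
  smul k x := ⟨fun u => x.1 (k⁻¹ * u), by
    obtain ⟨x, g, h, e, t, ht, rfl⟩ := x
    refine ⟨k * g, k * h, e.mul k, t, ht, funext fun u => ?_⟩
    simp only [fn]
    rw [← d_mul k g, ← d_mul k h, mul_inv_cancel_left]⟩
  one_smul x := Subtype.ext (funext fun u => by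
    show x.1 (1⁻¹ * u) = x.1 u
    simp)
  mul_smul a b x := Subtype.ext (funext fun u => by
    show x.1 ((a * b)⁻¹ * u) = x.1 (b⁻¹ * (a⁻¹ * u))
    simp [mul_assoc])

lemma smul_val (k : G) (x : T W) (u : G) : (k • x).1 u = x.1 (k⁻¹ * u) := rfl

lemma dist_smul_le' (k : G) (x y : T W) : dist (k • x) (k • y) ≤ dist x y :=
  dist_le W fun _ => le_dist W x y _

instance : IsIsometricSMul G (T W) where
  isometry_smul k := Isometry.of_dist_eq fun x y => le_antisymm (dist_smul_le' W k x y) (by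
    have := dist_smul_le' W k⁻¹ (k • x) (k • y)
    simpa using this)

lemma smul_vx (k g : G) : k • vx W g = vx W (k * g) :=
  Subtype.ext (funext fun u => by
    rw [smul_val, vx_val, vx_val, ← d_mul k g, mul_inv_cancel_left])

lemma exists_vx (x : T W) : ∃ g, dist x (vx W g) ≤ W.mx := by
  obtain ⟨g, g', e, s, hs, rfl⟩ := exists_pt W x
  refine ⟨g, ?_⟩
  rw [dist_pt_vx W e hs]
  have := e.le W
  have := e.pos W
  nlinarith [hs.1, hs.2]

instance : Nonempty (T W) := ⟨vx W 1⟩

instance : ProperSpace (T W) where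
  isCompact_closedBall x r := by
    have hf := (ball_finite W.pos (dist (vx W 1) x + r + W.mx)).prod (Set.finite_univ (α := Lt))
    have hc : IsCompact (⋃ p ∈ {g : G | d W.w 1 g ≤ dist (vx W 1) x + r + W.mx} ×ˢ (univ : Set Lt),
        pt W (g := p.1) (h := p.1 * mk [p.2]) ⟨_, rfl⟩ '' Icc 0 1) := by
      refine hf.isCompact_biUnion fun p _ => isCompact_Icc.image_of_continuousOn ?_
      refine (LipschitzOnWith.of_dist_le' (K := d W.w p.1 (p.1 * mk [p.2])) ?_).continuousOn
      intro s hs t ht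
      rw [dist_pt W _ hs ht, Real.dist_eq, mul_comm]
    refine hc.of_isClosed_subset Metric.isClosed_closedBall fun y hy => ?_
    obtain ⟨g, g', e, s, hs, rfl⟩ := exists_pt W y
    have h1 := dist_pt_vx W e hs
    have h2 := e.le W
    have h3 := e.pos W
    have h4 := dist_triangle4 (vx W 1) x (pt W e s) (vx W g)
    rw [Metric.mem_closedBall, dist_comm] at hy
    rw [dist_vx] at h4
    obtain ⟨a, rfl⟩ := e
    simp only [mem_iUnion]
    refine ⟨(g, a), ⟨?_, mem_univ _⟩, s, hs, rfl⟩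
    simp only [mem_setOf_eq]
    nlinarith [hs.1, hs.2]

instance : ProperlyDiscontinuousSMul G (T W) where
  finite_disjoint_inter_image {K L} hK hL := by
    obtain ⟨R, hR⟩ := (hK.union hL).isBounded.subset_closedBall (vx W 1)
    refine (ball_finite W.pos (R + R)).subset ?_
    rintro k ⟨_, ⟨x, hx, rfl⟩, hy⟩
    have h1 := Metric.mem_closedBall.1 (hR (Or.inl hx))
    have h2 := Metric.mem_closedBall.1 (hR (Or.inr hy))
    have h3 := dist_smul k x (vx W 1)
    have h4 := dist_triangle (vx W 1) (k • x) (k • vx W 1)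
    rw [smul_vx, mul_one] at h3
    rw [smul_vx, mul_one, dist_vx, dist_comm] at h4
    simp only [mem_setOf_eq]
    dsimp only at h2
    linarith

lemma cocompact : ∃ K : Set (T W), IsCompact K ∧ ∀ x : T W, ∃ g : G, g • x ∈ K := by
  refine ⟨Metric.closedBall (vx W 1) W.mx, isCompact_closedBall _ _, fun x => ?_⟩
  obtain ⟨g, hg⟩ := exists_vx W x
  refine ⟨g⁻¹, ?_⟩
  rw [Metric.mem_closedBall, ← dist_smul g, smul_inv_smul, smul_vx, mul_one]
  exact hg

lemma dist_near {x y : T W} {g h : G} (hx : dist x (vx W g) ≤ W.mx) (hy : dist y (vx W h) ≤ W.mx) :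
    dist x y ≤ d W.w g h + 2 * W.mx ∧ d W.w g h ≤ dist x y + 2 * W.mx := by
  have h1 := dist_triangle4 x (vx W g) (vx W h) y
  have h2 := dist_triangle4 (vx W g) x y (vx W h)
  rw [dist_vx, dist_comm (vx W h) y] at h1
  rw [dist_vx, dist_comm (vx W g) x] at h2
  constructor <;> linarith

lemma hyperbolic : ∃ δ : ℝ, ∀ x y z u : T W,
    min ((dist x u + dist y u - dist x y) / 2) ((dist y u + dist z u - dist y z) / 2) - δ
      ≤ (dist x u + dist z u - dist x z) / 2 := by
  refine ⟨6 * W.mx, fun x y z u => ?_⟩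
  obtain ⟨a, ha⟩ := exists_vx W x
  obtain ⟨b, hb⟩ := exists_vx W y
  obtain ⟨c, hc⟩ := exists_vx W z
  obtain ⟨e, he⟩ := exists_vx W u
  have h := d_four W.pos a b c e
  have := dist_near W ha hb
  have := dist_near W ha hc
  have := dist_near W ha he
  have := dist_near W hb hc
  have := dist_near W hb he
  have := dist_near W hc he
  have m1 := min_le_left ((dist x u + dist y u - dist x y) / 2) ((dist y u + dist z u - dist y z) / 2)
  have m2 := min_le_right ((dist x u + dist y u - dist x y) / 2) ((dist y u + dist z u - dist y z) / 2)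
  rcases min_le_iff.1 h with k | k <;> casesm* _ ∧ _ <;> linarith

end Pool.Agent.H2.QT
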