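import Pool.Agent.H2.QT2

set_option autoImplicit false

namespace Pool.Agent.H2.QT

open FreeGroup Finset

/-- the three letters that may follow `t` in a reduced word -/
def child (t : Lt) : Fin 3 → Lt := ![t, (!t.1, true), (!t.1, false)]

def lst (v : List Lt) : Lt := v.getLastD (true, true)

def ch (v : List Lt) (i : Fin 3) : List Lt := v ++ [child (lst v) i]

lemma child_inj (t : Lt) : Function.Injective (child t) := by revert t; decide

lemma child_ok : ∀ (t : Lt) (i : Fin 3), t.1 = (child t i).1 → t.2 = (child t i).2 := by decide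

lemma child_ex : ∀ t s : Lt, (t.1 = s.1 → t.2 = s.2) → ∃ i, child t i = s := by decide

@[simp] lemma lst_concat (v : List Lt) (a : Lt) : lst (v ++ [a]) = a := by simp [lst]

lemma prefix_ch (v : List Lt) (i : Fin 3) : v <+: ch v i := List.prefix_append _ _

lemma ch_ne (v : List Lt) (i : Fin 3) : ch v i ≠ v := by simp [ch]

lemma ch_ne_nil (v : List Lt) (i : Fin 3) : ch v i ≠ [] := by simp [ch]

lemma ch_red {v : List Lt} (h : IsReduced v) (i : Fin 3) : IsReduced (ch v i) := by
  refine List.isChain_append.2 ⟨h, IsReduced.singleton, ?_⟩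
  intro x hx y hy
  have e1 : lst v = x := by
    rw [lst, List.getLastD_eq_getLast?, Option.mem_def.1 hx]; rfl
  have e2 : child (lst v) i = y := by simpa using hy
  rw [← e2, e1]; exact child_ok x i

lemma ch_ex {v u : List Lt} (hv : v ≠ []) (hu : IsReduced u) (h : v <+: u) (hne : u ≠ v) :
    ∃ i, ch v i <+: u := by
  obtain ⟨t, rfl⟩ := h
  obtain ⟨v', a, rfl⟩ : ∃ v' a, v = v' ++ [a] :=
    ⟨v.dropLast, v.getLast hv, (List.dropLast_append_getLast hv).symm⟩
  cases t with
  | nil => simp at hne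
  | cons b t =>
    have h1 : IsReduced (a :: b :: t) := red_right (p := v') (by simpa using hu)
    obtain ⟨i, hi⟩ := child_ex a b (isReduced_cons_cons.1 h1).1
    exact ⟨i, t, by simp [ch, hi]⟩

lemma ch_uniq {v u : List Lt} {i j : Fin 3} (hi : ch v i <+: u) (hj : ch v j <+: u) : i = j := by
  have h : ch v i = ch v j :=
    (List.prefix_of_prefix_length_le hi hj (by simp [ch])).eq_of_length (by simp [ch])
  exact child_inj (lst v) (by simpa [ch] using h)

variable (W : Wt)

noncomputable def hh (t : Lt) : ℝ := 1 / (1 + Real.exp (-W.w t.1))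

/-- Patterson-Sullivan mass of the shadow of a word -/
noncomputable def mu (v : List Lt) : ℝ := Real.exp (-len W.w v) * hh W (lst v)

/-- the tree has volume entropy one -/
def Ent : Prop := 2 * (Real.exp (-W.w true) / (1 + Real.exp (-W.w true))) +
  2 * (Real.exp (-W.w false) / (1 + Real.exp (-W.w false))) = 1

lemma hh_bd (t : Lt) : 1 / 2 ≤ hh W t ∧ hh W t ≤ 1 := by
  have h1 := Real.exp_pos (-W.w t.1)
  have h2 : Real.exp (-W.w t.1) ≤ 1 := Real.exp_le_one_iff.2 (by linarith [W.pos t.1])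
  constructor
  · exact one_div_le_one_div_of_le (by linarith) (by linarith)
  · rw [hh, div_le_one (by linarith)]; linarith

lemma mu_bd (v : List Lt) :
    Real.exp (-len W.w v) / 2 ≤ mu W v ∧ mu W v ≤ Real.exp (-len W.w v) := by
  have h1 := Real.exp_pos (-len W.w v)
  have h2 := hh_bd W (lst v)
  rw [mu]
  constructor <;> nlinarith [h2.1, h2.2]

lemma mu_pos (v : List Lt) : 0 < mu W v :=
  lt_of_lt_of_le (by positivity) (mu_bd W v).1

lemma len_ch (v : List Lt) (i : Fin 3) :
    len W.w (ch v i) = len W.w v + W.w (child (lst v) i).1 := by simp [ch]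

lemma mu_ch (v : List Lt) (i : Fin 3) : mu W (ch v i) =
    Real.exp (-len W.w v) * (Real.exp (-W.w (child (lst v) i).1) * hh W (child (lst v) i)) := by
  rw [mu, len_ch, ch, lst_concat, neg_add, Real.exp_add, mul_assoc]

lemma mu_sum (hE : Ent W) (v : List Lt) : ∑ i, mu W (ch v i) = mu W v := by
  simp only [mu_ch, ← mul_sum]
  rw [mu]
  congr 1
  have h1 := Real.exp_pos (-W.w true)
  have h2 := Real.exp_pos (-W.w false)
  have k1 : 1 / (1 + Real.exp (-W.w true)) =
      1 - Real.exp (-W.w true) / (1 + Real.exp (-W.w true)) := by field_simp; ring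
  have k2 : 1 / (1 + Real.exp (-W.w false)) =
      1 - Real.exp (-W.w false) / (1 + Real.exp (-W.w false)) := by field_simp; ring
  rw [Ent] at hE
  obtain ⟨a, b⟩ := lst v
  rw [Fin.sum_univ_three]
  cases a
  · show Real.exp (-W.w false) * (1 / (1 + Real.exp (-W.w false))) +
      Real.exp (-W.w true) * (1 / (1 + Real.exp (-W.w true))) +
      Real.exp (-W.w true) * (1 / (1 + Real.exp (-W.w true))) = 1 / (1 + Real.exp (-W.w false))
    rw [mul_one_div, mul_one_div]; linarith
  · show Real.exp (-W.w true) * (1 / (1 + Real.exp (-W.w true))) +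
      Real.exp (-W.w false) * (1 / (1 + Real.exp (-W.w false))) +
      Real.exp (-W.w false) * (1 / (1 + Real.exp (-W.w false))) = 1 / (1 + Real.exp (-W.w true))
    rw [mul_one_div, mul_one_div]; linarith

lemma exists_split (hE : Ent W) {v : List Lt} (hv : v ≠ []) (hr : IsReduced v) (j : ℕ) :
    ∃ S : Finset (List Lt), S.card = 2 * j + 1 ∧ (∀ x ∈ S, IsReduced x ∧ v <+: x) ∧
      (∀ x ∈ S, ∀ y ∈ S, x <+: y → x = y) ∧
      (∀ u, IsReduced u → v <+: u → ∃ x ∈ S, x <+: u ∨ u <+: x) ∧
      ∑ x ∈ S, mu W x = mu W v ∧ ∀ x ∈ S, ∀ y ∈ S, len W.w x ≤ len W.w y + W.mx := by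
  have hmx : 0 < W.mx := (W.pos true).trans_le (W.le_mx true)
  induction j with
  | zero =>
    refine ⟨{v}, by simp, by simp [hr], by simp, fun u _ h => ⟨v, by simp, Or.inl h⟩, by simp, ?_⟩
    simp [hmx.le]
  | succ j ih =>
    obtain ⟨S, h1, h2, h3, h4, h5, h6⟩ := ih
    obtain ⟨x, hx, hm⟩ := S.exists_min_image (len W.w) (card_pos.1 (by omega))
    have hx0 : x ≠ [] := by
      rintro rfl
      exact hv (List.prefix_nil.1 (h2 _ hx).2)
    have hinj : Function.Injective (ch x) := fun i k e => ch_uniq (u := ch x k) (e ▸ List.prefix_rfl)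
      List.prefix_rfl
    have hdis : Disjoint (S.erase x) (univ.image (ch x)) := by
      rw [disjoint_right]
      intro y hy hy'
      obtain ⟨i, -, rfl⟩ := mem_image.1 hy
      exact ch_ne x i (h3 x hx _ (mem_of_mem_erase hy') (prefix_ch x i)).symm
    have hmem : ∀ y, y ∈ S.erase x ∪ univ.image (ch x) → (y ∈ S ∧ y ≠ x) ∨ ∃ i, y = ch x i := by
      intro y hy
      rcases mem_union.1 hy with h | h
      · exact Or.inl ⟨mem_of_mem_erase h, ne_of_mem_erase h⟩
      · obtain ⟨i, -, rfl⟩ := mem_image.1 h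
        exact Or.inr ⟨i, rfl⟩
    refine ⟨S.erase x ∪ univ.image (ch x), ?_, ?_, ?_, ?_, ?_, ?_⟩
    · rw [card_union_of_disjoint hdis, card_erase_of_mem hx, card_image_of_injective _ hinj]
      simp only [card_univ, Fintype.card_fin]; omega
    · intro y hy
      rcases hmem y hy with h | ⟨i, rfl⟩
      · exact h2 y h.1
      · exact ⟨ch_red (h2 x hx).1 i, (h2 x hx).2.trans (prefix_ch x i)⟩
    · intro y hy z hz e
      rcases hmem y hy with h | ⟨i, rfl⟩ <;> rcases hmem z hz with k | ⟨l, rfl⟩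
      · exact h3 y h.1 z k.1 e
      · rcases List.prefix_concat_iff.1 e with e | e
        · exact e
        · exact absurd (h3 y h.1 x hx e) h.2
      · exact absurd (h3 x hx z k.1 ((prefix_ch x i).trans e)).symm k.2
      · rw [ch_uniq e List.prefix_rfl]
    · intro u hu hvu
      obtain ⟨y, hy, e⟩ := h4 u hu hvu
      by_cases hyx : y = x
      · subst hyx
        by_cases e2 : u <+: y
        · exact ⟨ch y 0, mem_union_right _ (mem_image_of_mem _ (mem_univ _)),
            Or.inr (e2.trans (prefix_ch y 0))⟩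
        · obtain ⟨i, hi⟩ := ch_ex hx0 hu (e.resolve_right e2) (by rintro rfl; exact e2 List.prefix_rfl)
          exact ⟨ch y i, mem_union_right _ (mem_image_of_mem _ (mem_univ _)), Or.inl hi⟩
      · exact ⟨y, mem_union_left _ (mem_erase.2 ⟨hyx, hy⟩), e⟩
    · rw [sum_union hdis, sum_image (fun a _ b _ e => hinj e), mu_sum W hE, ← h5,
        sum_erase_add _ _ hx]
    · intro y hy z hz
      have a1 : len W.w y ≤ len W.w x + W.mx := by
        rcases hmem y hy with h | ⟨i, rfl⟩
        · exact h6 y h.1 x hx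
        · rw [len_ch]; linarith [W.le_mx (child (lst x) i).1]
      have a2 : len W.w x ≤ len W.w z := by
        rcases hmem z hz with h | ⟨i, rfl⟩
        · exact hm z h.1
        · exact len_mono W.pos (prefix_ch x i)
      linarith

/-- `c v` is a complete prefix code below `v` with nearly constant depth -/
def Code {N : ℕ} (D C : ℝ) (c : List Lt → Fin N → List Lt) : Prop :=
  ∀ v, v ≠ [] → IsReduced v →
    (∀ i, IsReduced (c v i) ∧ v <+: c v i ∧ D - C ≤ len W.w (c v i) - len W.w v ∧
      len W.w (c v i) - len W.w v ≤ D + C) ∧ (∀ i j, c v i <+: c v j → i = j) ∧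
    ∀ u, IsReduced u → v <+: u → ∃ i, c v i <+: u ∨ u <+: c v i

lemma exists_code (hE : Ent W) (j : ℕ) {C : ℝ} (hC : W.mx + Real.log 2 ≤ C) :
    ∃ c : List Lt → Fin (2 * j + 1) → List Lt, Code W (Real.log (2 * j + 1 : ℕ)) C c := by
  have key : ∀ v : List Lt, ∃ c : Fin (2 * j + 1) → List Lt, v ≠ [] → IsReduced v →
      (∀ i, IsReduced (c i) ∧ v <+: c i ∧ Real.log (2 * j + 1 : ℕ) - C ≤ len W.w (c i) - len W.w v ∧
      len W.w (c i) - len W.w v ≤ Real.log (2 * j + 1 : ℕ) + C) ∧ (∀ i j, c i <+: c j → i = j) ∧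
      ∀ u, IsReduced u → v <+: u → ∃ i, c i <+: u ∨ u <+: c i := by
    intro v
    by_cases hv : v ≠ [] ∧ IsReduced v
    swap
    · exact ⟨fun _ => [], fun h1 h2 => absurd ⟨h1, h2⟩ hv⟩
    obtain ⟨S, h1, h2, h3, h4, h5, h6⟩ := exists_split W hE hv.1 hv.2 j
    let e := (S.equivFinOfCardEq h1).symm
    have hN : (0 : ℝ) < (2 * j + 1 : ℕ) := by positivity
    refine ⟨fun i => e i, fun _ _ => ⟨fun i => ⟨(h2 _ (e i).2).1, (h2 _ (e i).2).2, ?_, ?_⟩, ?_, ?_⟩⟩
    · have a1 : S.card • (Real.exp (-len W.w (e i) - W.mx) / 2) ≤ ∑ x ∈ S, mu W x :=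
        card_nsmul_le_sum _ _ _ fun y hy => le_trans (by
          have := h6 y hy _ (e i).2
          gcongr; linarith) (mu_bd W y).1
      rw [h5, h1, nsmul_eq_mul] at a1
      have a2 := Real.log_le_log (by positivity) (a1.trans (mu_bd W v).2)
      rw [Real.log_mul hN.ne' (by positivity), Real.log_div (by positivity) (by norm_num),
        Real.log_exp, Real.log_exp] at a2
      linarith
    · have a1 : ∑ x ∈ S, mu W x ≤ S.card • Real.exp (-len W.w (e i) + W.mx) :=
        sum_le_card_nsmul _ _ _ fun y hy => le_trans (mu_bd W y).2 (by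
          have := h6 _ (e i).2 y hy
          gcongr; linarith)
      rw [h5, h1, nsmul_eq_mul] at a1
      have a2 := Real.log_le_log (by positivity) ((mu_bd W v).1.trans a1)
      rw [Real.log_mul hN.ne' (by positivity), Real.log_div (by positivity) (by norm_num),
        Real.log_exp, Real.log_exp] at a2
      linarith
    · intro i k h
      exact e.injective (Subtype.ext (h3 _ (e i).2 _ (e k).2 h))
    · intro u hu hvu
      obtain ⟨x, hx, h⟩ := h4 u hu hvu
      exact ⟨e.symm ⟨x, hx⟩, by simpa using h⟩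
  choose c hc using key
  exact ⟨c, hc⟩

/-- iterate the codes -/
def phi {N : ℕ} (c : List Lt → Fin N → List Lt) : List Lt → List (Fin N) → List Lt
  | v, [] => v
  | v, i :: l => phi c (c v i) l

/-- distance in the free monoid tree -/
def rho {α : Type} [DecidableEq α] (l m : List α) : ℝ :=
  l.length + m.length - 2 * (lcp l m).length

lemma rho_nonneg {α : Type} [DecidableEq α] (l m : List α) : 0 ≤ rho l m := by
  have h1 : ((lcp l m).length : ℝ) ≤ l.length := by exact_mod_cast (lcp_prefix l m).length_le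
  have h2 : ((lcp l m).length : ℝ) ≤ m.length := by exact_mod_cast (lcp_prefix' l m).length_le
  rw [rho]; linarith

variable {W} {N : ℕ} {D C : ℝ} {c : List Lt → Fin N → List Lt}

lemma ne_nil_of_prefix {v u : List Lt} (hv : v ≠ []) (h : v <+: u) : u ≠ [] := by
  rintro rfl; exact hv (List.prefix_nil.1 h)

lemma phi_good (hc : Code W D C c) (l : List (Fin N)) : ∀ v, v ≠ [] → IsReduced v →
    IsReduced (phi c v l) ∧ v <+: phi c v l ∧
      l.length * (D - C) ≤ len W.w (phi c v l) - len W.w v ∧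
      len W.w (phi c v l) - len W.w v ≤ l.length * (D + C) := by
  induction l with
  | nil => intro v _ h; simp [phi, h]
  | cons i l ih =>
    intro v hv hr
    obtain ⟨a1, a2, a3, a4⟩ := (hc v hv hr).1 i
    obtain ⟨b1, b2, b3, b4⟩ := ih (c v i) (ne_nil_of_prefix hv a2) a1
    refine ⟨b1, a2.trans b2, ?_, ?_⟩ <;> simp only [phi, List.length_cons] <;> push_cast <;> linarith

lemma phi_dist (hc : Code W D C c) (h0 : 0 ≤ D + C) (l : List (Fin N)) :
    ∀ (m : List (Fin N)) v, v ≠ [] → IsReduced v →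
    (D - C) * rho l m - 2 * (D + C) ≤ d W.w (mk (phi c v l)) (mk (phi c v m)) ∧
      d W.w (mk (phi c v l)) (mk (phi c v m)) ≤ (D + C) * rho l m := by
  induction l with
  | nil =>
    intro m v hv hr
    obtain ⟨b1, b2, b3, b4⟩ := phi_good hc m v hv hr
    rw [phi, d_mk hr b1, lcp_eq_left b2, rho]
    simp only [List.length_nil, lcp_nil_left]
    push_cast
    constructor <;> linarith
  | cons i l ih =>
    intro m v hv hr
    obtain ⟨b1, b2, b3, b4⟩ := phi_good hc (i :: l) v hv hr
    cases m with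
    | nil =>
      rw [d_comm, show phi c v [] = v from rfl, d_mk hr b1, lcp_eq_left b2, rho]
      simp only [List.length_nil, lcp_nil_right]
      push_cast at *
      constructor <;> linarith
    | cons k m =>
      obtain ⟨a1, a2, a3, a4⟩ := (hc v hv hr).1 i
      by_cases e : i = k
      · subst e
        have := ih m (c v i) (ne_nil_of_prefix hv a2) a1
        have e2 : rho (i :: l) (i :: m) = rho l m := by
          simp only [rho, lcp_cons, if_true, List.length_cons]; push_cast; ring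
        rw [e2]; exact this
      · obtain ⟨c1, c2, c3, c4⟩ := phi_good hc (k :: m) v hv hr
        obtain ⟨d1, d2, -⟩ := (hc v hv hr).1 k
        have p1 : c v i <+: phi c v (i :: l) := (phi_good hc l _ (ne_nil_of_prefix hv a2) a1).2.1
        have p2 : c v k <+: phi c v (k :: m) := (phi_good hc m _ (ne_nil_of_prefix hv d2) d1).2.1
        have q1 := len_mono W.pos (prefix_lcp b2 c2)
        have q2 : len W.w (lcp (phi c v (i :: l)) (phi c v (k :: m))) ≤ len W.w (c v i) := by
          rcases List.prefix_or_prefix_of_prefix (lcp_prefix _ (phi c v (k :: m))) p1 with h | h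
          · exact len_mono W.pos h
          · exfalso
            rcases List.prefix_or_prefix_of_prefix (h.trans (lcp_prefix' _ _)) p2 with h | h
            · exact e ((hc v hv hr).2.1 _ _ h)
            · exact e ((hc v hv hr).2.1 _ _ h).symm
        rw [d_mk b1 c1, rho, lcp_cons, if_neg e]
        simp only [List.length_nil]
        push_cast at *
        constructor <;> linarith

lemma phi_onto (hc : Code W D C c) (h0 : 0 < D - C) {u : List Lt} (hu : IsReduced u) (n : ℕ) :
    ∀ v, v ≠ [] → IsReduced v → v <+: u → u.length ≤ v.length + n →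
      ∃ l, d W.w (mk (phi c v l)) (mk u) ≤ D + C := by
  have base : ∀ v, v ≠ [] → IsReduced v → v <+: u → (∃ l, d W.w (mk (phi c v l)) (mk u) ≤ D + C) ∨
      ∃ i, c v i <+: u ∧ v.length < (c v i).length := by
    intro v hv hr hp
    obtain ⟨i, hi⟩ := (hc v hv hr).2.2 u hu hp
    obtain ⟨a1, a2, a3, a4⟩ := (hc v hv hr).1 i
    rcases hi with hi | hi
    · refine Or.inr ⟨i, hi, lt_of_le_of_ne a2.length_le fun e => ?_⟩
      rw [← a2.eq_of_length e] at a3; linarith
    · refine Or.inl ⟨[], ?_⟩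
      rw [phi, d_mk hr hu, lcp_eq_left hp]
      have := len_mono W.pos hi
      linarith
  induction n with
  | zero =>
    intro v hv hr hp hl
    rcases base v hv hr hp with h | ⟨i, h1, h2⟩
    · exact h
    · have := h1.length_le; omega
  | succ n ih =>
    intro v hv hr hp hl
    rcases base v hv hr hp with h | ⟨i, h1, h2⟩
    · exact h
    · obtain ⟨a1, a2, -⟩ := (hc v hv hr).1 i
      obtain ⟨l, hl⟩ := ih (c v i) (ne_nil_of_prefix hv a2) a1 h1 (by omega)
      exact ⟨i :: l, hl⟩

/-- the model distance -/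
def rhoA (a b : Lt × List (Fin N)) : ℝ :=
  if a.1 = b.1 then rho a.2 b.2 else a.2.length + b.2.length

lemma rhoA_nonneg (a b : Lt × List (Fin N)) : 0 ≤ rhoA a b := by
  rw [rhoA]; split_ifs
  · exact rho_nonneg _ _
  · positivity

lemma exists_model (hc : Code W D C c) (h0 : 0 < D - C) (h1 : 0 ≤ C) {K : ℝ}
    (hK : 2 * (D + C) + 2 * W.mx ≤ K) : ∃ Φ : Lt × List (Fin N) → T W,
    (∀ a b, (D - C) * rhoA a b - K ≤ dist (Φ a) (Φ b) ∧ dist (Φ a) (Φ b) ≤ (D + C) * rhoA a b + K) ∧
      ∀ z, ∃ a, dist (Φ a) z ≤ K := by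
  have hmx : 0 < W.mx := (W.pos true).trans_le (W.le_mx true)
  refine ⟨fun a => vx W (mk (phi c [a.1] a.2)), ?_, ?_⟩
  · rintro ⟨s, l⟩ ⟨t, m⟩
    rw [dist_vx, rhoA]
    dsimp only
    split_ifs with e
    · subst e
      have := phi_dist hc (by linarith) l m [s] (by simp) IsReduced.singleton
      constructor <;> linarith [this.1, this.2]
    · obtain ⟨a1, ⟨x, a2⟩, a3, a4⟩ := phi_good hc l [s] (by simp) IsReduced.singleton
      obtain ⟨b1, ⟨y, b2⟩, b3, b4⟩ := phi_good hc m [t] (by simp) IsReduced.singleton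
      have e2 : lcp (phi c [s] l) (phi c [t] m) = [] := by
        rw [← a2, ← b2]; simp [lcp_cons, e]
      rw [d_mk a1 b1, e2]
      have := W.le_mx s.1
      have := W.le_mx t.1
      have := W.pos s.1
      have := W.pos t.1
      simp only [len_cons, len_nil] at *
      constructor <;> linarith
  · intro z
    obtain ⟨g, hg⟩ := exists_vx W z
    have key : ∃ a : Lt × List (Fin N), d W.w (mk (phi c [a.1] a.2)) g ≤ D + C + W.mx := by
      rw [← mk_toWord (x := g)]
      have hr : IsReduced g.toWord := isReduced_toWord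
      generalize g.toWord = u at hr
      cases u with
      | nil =>
        refine ⟨((true, true), []), ?_⟩
        rw [phi, d_mk IsReduced.singleton IsReduced.nil]
        have := W.le_mx true
        simp only [len_cons, len_nil, lcp_nil_right]; linarith
      | cons s u =>
        obtain ⟨l, hl⟩ := phi_onto hc h0 hr u.length [s] (by simp) IsReduced.singleton
          (by simp) (by simp)
        exact ⟨(s, l), by dsimp only; linarith⟩
    obtain ⟨a, ha⟩ := key
    refine ⟨a, ?_⟩
    have := dist_triangle (vx W (mk (phi c [a.1] a.2))) (vx W g) z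
    rw [dist_vx, dist_comm (vx W g) z] at this
    linarith

/-- trees of entropy one are quasi-isometric with multiplicative constant close to one -/
theorem exists_qi {W₀ W₁ : Wt} (h₀ : Ent W₀) (h₁ : Ent W₁) {L : ℝ} (hL : 1 < L) :
    ∃ f : T W₀ → T W₁, ∃ c : ℝ,
      (∀ x y, dist x y / L - c ≤ dist (f x) (f y) ∧ dist (f x) (f y) ≤ L * dist x y + c) ∧
      ∀ z, ∃ x, dist (f x) z ≤ c := by
  have m0 : 0 < W₀.mx := (W₀.pos true).trans_le (W₀.le_mx true)
  have m1 : 0 < W₁.mx := (W₁.pos true).trans_le (W₁.le_mx true)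
  have l2 : 0 < Real.log 2 := Real.log_pos (by norm_num)
  obtain ⟨C, hC⟩ : ∃ C, C = W₀.mx + W₁.mx + Real.log 2 := ⟨_, rfl⟩
  have C0 : 0 < C := by linarith
  obtain ⟨j, hj⟩ := exists_nat_ge (Real.exp (C * (L + 1) / (L - 1)))
  have hD : C * (L + 1) / (L - 1) ≤ Real.log (2 * j + 1 : ℕ) := by
    rw [Real.le_log_iff_exp_le (by positivity)]
    push_cast
    have : (0 : ℝ) ≤ j := by positivity
    linarith
  obtain ⟨c₀, k₀⟩ := exists_code W₀ h₀ j (C := C) (by linarith)
  obtain ⟨c₁, k₁⟩ := exists_code W₁ h₁ j (C := C) (by linarith)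
  generalize Real.log (2 * j + 1 : ℕ) = D at hD k₀ k₁
  rw [div_le_iff₀ (by linarith)] at hD
  have e1 : D + C ≤ L * (D - C) := by linarith
  have e2 : 0 < D - C := by
    by_contra h
    have : D * (L - 1) ≤ C * (L - 1) := mul_le_mul_of_nonneg_right (by linarith) (by linarith)
    nlinarith
  obtain ⟨K, hK⟩ : ∃ K, K = 2 * (D + C) + 2 * W₀.mx + 2 * W₁.mx := ⟨_, rfl⟩
  have K0 : 0 < K := by linarith
  obtain ⟨Φ₀, p₀, q₀⟩ := exists_model k₀ e2 C0.le (K := K) (by linarith)
  obtain ⟨Φ₁, p₁, q₁⟩ := exists_model k₁ e2 C0.le (K := K) (by linarith)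
  choose ψ hψ using q₀
  have LK : K ≤ L * K := by nlinarith
  have cmp : ∀ a b, dist (Φ₁ a) (Φ₁ b) ≤ L * (dist (Φ₀ a) (Φ₀ b) + K) + K ∧
      dist (Φ₀ a) (Φ₀ b) ≤ L * (dist (Φ₁ a) (Φ₁ b) + K) + K := by
    intro a b
    have r := mul_le_mul_of_nonneg_right e1 (rhoA_nonneg a b)
    have s0 : L * ((D - C) * rhoA a b) ≤ L * (dist (Φ₀ a) (Φ₀ b) + K) :=
      mul_le_mul_of_nonneg_left (by linarith [(p₀ a b).1]) (by linarith)
    have s1 : L * ((D - C) * rhoA a b) ≤ L * (dist (Φ₁ a) (Φ₁ b) + K) :=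
      mul_le_mul_of_nonneg_left (by linarith [(p₁ a b).1]) (by linarith)
    constructor <;> linarith [(p₀ a b).2, (p₁ a b).2]
  refine ⟨fun x => Φ₁ (ψ x), 4 * (L * K), fun x y => ?_, fun z => ?_⟩
  · have t1 := dist_triangle4 x (Φ₀ (ψ x)) (Φ₀ (ψ y)) y
    have t2 := dist_triangle4 (Φ₀ (ψ x)) x y (Φ₀ (ψ y))
    rw [dist_comm x (Φ₀ (ψ x))] at t1
    rw [dist_comm y (Φ₀ (ψ y))] at t2
    have hx := hψ x
    have hy := hψ y
    obtain ⟨u1, u2⟩ := cmp (ψ x) (ψ y)
    constructor
    · rw [sub_le_iff_le_add, div_le_iff₀ (by linarith)]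
      have : L * K ≤ L * K * L := by nlinarith
      nlinarith
    · have : L * (dist (Φ₀ (ψ x)) (Φ₀ (ψ y)) + K) ≤ L * (dist x y + 3 * K) :=
        mul_le_mul_of_nonneg_left (by linarith) (by linarith)
      linarith
  · obtain ⟨a, ha⟩ := q₁ z
    refine ⟨Φ₀ a, ?_⟩
    have t := dist_triangle (Φ₁ (ψ (Φ₀ a))) (Φ₁ a) z
    have u := (cmp (ψ (Φ₀ a)) a).1
    have : L * (dist (Φ₀ (ψ (Φ₀ a))) (Φ₀ a) + K) ≤ L * (K + K) :=
      mul_le_mul_of_nonneg_left (by linarith [hψ (Φ₀ a)]) (by linarith)
    linarith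

end Pool.Agent.H2.QT
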