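import Pool.Agent.H2.QT3

set_option autoImplicit false

namespace Pool.Agent.H2.QT

open FreeGroup Finset

/-- all edges of length `log 3` -/
noncomputable def W0 : Wt := ⟨fun _ => Real.log 3, fun _ => Real.log_pos (by norm_num)⟩

/-- edges of length `log 2` and `log 5` -/
noncomputable def W1 : Wt := ⟨fun b => if b then Real.log 2 else Real.log 5, fun b => by
  cases b <;> exact Real.log_pos (by norm_num)⟩

lemma exp_neg_log {x : ℝ} (hx : 0 < x) : Real.exp (-Real.log x) = 1 / x := by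
  rw [Real.exp_neg, Real.exp_log hx, one_div]

lemma ent0 : Ent W0 := by
  show 2 * (Real.exp (-Real.log 3) / (1 + Real.exp (-Real.log 3))) +
    2 * (Real.exp (-Real.log 3) / (1 + Real.exp (-Real.log 3))) = 1
  rw [exp_neg_log (by norm_num)]; norm_num

lemma ent1 : Ent W1 := by
  show 2 * (Real.exp (-Real.log 2) / (1 + Real.exp (-Real.log 2))) +
    2 * (Real.exp (-Real.log 5) / (1 + Real.exp (-Real.log 5))) = 1
  rw [exp_neg_log (by norm_num), exp_neg_log (by norm_num)]; norm_num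

lemma w1_le (b : Bool) : W1.w b ≤ 2 * Real.log 3 := by
  have h : 2 * Real.log 3 = Real.log 9 := by
    rw [show (9 : ℝ) = 3 ^ 2 by norm_num, Real.log_pow]; norm_num
  rw [h]
  cases b <;> exact Real.log_le_log (by norm_num) (by norm_num)

/-- words of length `k` -/
def lev (k : ℕ) : Finset (List (Fin 3)) :=
  (univ : Finset (List.Vector (Fin 3) k)).map ⟨List.Vector.toList, List.Vector.toList_injective⟩

lemma mem_lev {k : ℕ} {l : List (Fin 3)} : l ∈ lev k ↔ l.length = k := by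
  constructor
  · intro h
    obtain ⟨x, -, rfl⟩ := mem_map.1 h
    exact x.2
  · intro h
    exact mem_map.2 ⟨(⟨l, h⟩ : List.Vector (Fin 3) k), mem_univ _, rfl⟩

lemma card_lev (k : ℕ) : (lev k).card = 3 ^ k := by
  rw [lev, card_map, card_univ, card_vector, Fintype.card_fin]

lemma sum_lev (k : ℕ) (f : List (Fin 3) → ℕ) :
    ∑ l ∈ lev (k + 1), f l = ∑ l ∈ lev k, ∑ i, f (l ++ [i]) := by
  rw [← sum_product']
  symm
  refine sum_bij (fun p _ => p.1 ++ [p.2]) ?_ ?_ ?_ (fun _ _ => rfl)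
  · intro p hp
    simp [mem_lev, mem_lev.1 (mem_product.1 hp).1]
  · intro p _ q _ e
    have := List.append_inj' e rfl
    exact Prod.ext this.1 (by simpa using this.2)
  · intro l hl
    have h1 := mem_lev.1 hl
    have h0 : l ≠ [] := by rintro rfl; simp at h1
    exact ⟨(l.dropLast, l.getLast h0), mem_product.2 ⟨by simp [mem_lev, h1], mem_univ _⟩,
      List.dropLast_append_getLast h0⟩

/-- `Φ` preserves Gromov products up to `K` -/
def Hyp (Φ : List (Fin 3) → List Lt) (K : ℝ) : Prop :=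
  (∀ l, IsReduced (Φ l)) ∧ ∀ l m, Real.log 3 * (lcp l m).length - K ≤ len W1.w (lcp (Φ l) (Φ m)) ∧
    len W1.w (lcp (Φ l) (Φ m)) ≤ Real.log 3 * (lcp l m).length + K

def cnt (Φ : List (Fin 3) → List Lt) (v : List Lt) (k : ℕ) : ℕ :=
  ∑ l ∈ lev k, if v <+: Φ l then 1 else 0

variable {Φ : List (Fin 3) → List Lt} {K : ℝ}

lemma cnt_succ (H : Hyp Φ K) {v : List Lt} {k : ℕ} (hk : len W1.w v + K ≤ Real.log 3 * k) :
    cnt Φ v (k + 1) = 3 * cnt Φ v k := by
  rw [cnt, sum_lev, cnt, mul_sum]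
  refine sum_congr rfl fun l hl => ?_
  have key : ∀ i, v <+: Φ (l ++ [i]) ↔ v <+: Φ l := by
    intro i
    have h := (H.2 l (l ++ [i])).1
    rw [lcp_eq_left (List.prefix_append _ _), mem_lev.1 hl] at h
    constructor
    · intro e
      exact (prefix_of_len_le W1.pos e (lcp_prefix' _ _) (by linarith)).trans (lcp_prefix (Φ l) _)
    · intro e
      exact (prefix_of_len_le W1.pos e (lcp_prefix _ _) (by linarith)).trans
        (lcp_prefix' _ (Φ (l ++ [i])))
  simp only [key]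
  split_ifs <;> simp

lemma len_phi (H : Hyp Φ K) (l : List (Fin 3)) : Real.log 3 * l.length - K ≤ len W1.w (Φ l) := by
  have h := (H.2 l l).1
  rwa [lcp_eq_left List.prefix_rfl, lcp_eq_left List.prefix_rfl] at h

lemma cnt_add (H : Hyp Φ K) {v : List Lt} (hv : v ≠ []) {k : ℕ}
    (hk : len W1.w v + K < Real.log 3 * k) : cnt Φ v k = ∑ i, cnt Φ (ch v i) k := by
  simp only [cnt]
  rw [sum_comm]
  refine sum_congr rfl fun l hl => ?_
  split_ifs with e
  · have h := len_phi H l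
    rw [mem_lev.1 hl] at h
    obtain ⟨i, hi⟩ := ch_ex hv (H.1 l) e (fun e2 => by rw [e2] at h; linarith)
    rw [sum_eq_single i (fun j _ hj => if_neg fun e2 => hj (ch_uniq e2 hi)) (by simp), if_pos hi]
  · exact (sum_eq_zero fun i _ => if_neg fun e2 => e ((prefix_ch v i).trans e2)).symm

lemma cnt_le (H : Hyp Φ K) {v : List Lt} {k k0 : ℕ}
    (hk : Real.log 3 * k + K ≤ len W1.w v + Real.log 3 * k0) : cnt Φ v k ≤ 3 ^ k0 := by
  have l3 : 0 < Real.log 3 := Real.log_pos (by norm_num)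
  rw [cnt, ← card_filter]
  refine le_trans (card_le_card_of_injOn (t := lev (k - (k - k0))) (fun l => l.drop (k - k0))
    ?_ ?_) ?_
  · intro l hl
    have := mem_lev.1 (mem_filter.1 hl).1
    simp [mem_lev, this]
  · intro l hl m hm e
    have a1 := (mem_filter.1 hl).2
    have a2 := (mem_filter.1 hm).2
    have a3 := len_mono W1.pos (prefix_lcp a1 a2)
    have a4 := (H.2 l m).2
    have a5 : (k : ℝ) ≤ (lcp l m).length + k0 := by
      by_contra hc
      have := mul_lt_mul_of_pos_left (not_le.1 hc) l3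
      linarith
    have a6 : k - k0 ≤ (lcp l m).length := by
      have : k ≤ (lcp l m).length + k0 := by exact_mod_cast a5
      omega
    obtain ⟨x, hx⟩ := lcp_prefix l m
    obtain ⟨y, hy⟩ := lcp_prefix' l m
    have a7 : l.take (k - k0) = m.take (k - k0) := by
      rw [← hx, List.take_append_of_le_length a6]
      conv_rhs => rw [← hy, List.take_append_of_le_length a6]
    rw [← List.take_append_drop (k - k0) l, ← List.take_append_drop (k - k0) m, a7]
    exact congrArg _ e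
  · rw [card_lev]
    exact Nat.pow_le_pow_right (by norm_num) (by omega)

/-- a level from which on the counts stabilise -/
noncomputable def lv (K : ℝ) (v : List Lt) : ℕ := ⌈(len W1.w v + K) / Real.log 3⌉₊ + 1

/-- pushed forward measure of a shadow -/
noncomputable def nu (Φ : List (Fin 3) → List Lt) (K : ℝ) (v : List Lt) : ℝ :=
  cnt Φ v (lv K v) / 3 ^ lv K v

lemma lv_lt {v : List Lt} {k : ℕ} (hk : lv K v ≤ k) : len W1.w v + K < Real.log 3 * k := by
  have l3 : 0 < Real.log 3 := Real.log_pos (by norm_num)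
  have h1 := Nat.le_ceil ((len W1.w v + K) / Real.log 3)
  have h2 : ((⌈(len W1.w v + K) / Real.log 3⌉₊ + 1 : ℕ) : ℝ) ≤ k := by exact_mod_cast hk
  push_cast at h2
  rw [mul_comm, ← div_lt_iff₀ l3]; linarith

lemma nu_eq (H : Hyp Φ K) {v : List Lt} {k : ℕ} (hk : lv K v ≤ k) :
    nu Φ K v = cnt Φ v k / 3 ^ k := by
  induction k, hk using Nat.le_induction with
  | base => rfl
  | succ k hk ih => rw [ih, cnt_succ H (lv_lt hk).le]; push_cast; field_simp; ring

lemma lv_ch (v : List Lt) (i : Fin 3) : lv K (ch v i) ≤ lv K v + 2 := by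
  have l3 : 0 < Real.log 3 := Real.log_pos (by norm_num)
  have h1 := lv_lt (K := K) (v := v) le_rfl
  have h2 := w1_le (child (lst v) i).1
  have h3 := Nat.le_ceil ((len W1.w v + K) / Real.log 3)
  rw [div_le_iff₀ l3] at h3
  have : ⌈(len W1.w (ch v i) + K) / Real.log 3⌉₊ ≤ ⌈(len W1.w v + K) / Real.log 3⌉₊ + 2 := by
    rw [Nat.ceil_le, div_le_iff₀ l3, len_ch]; push_cast; linarith
  simp only [lv]; omega

lemma nu_add (H : Hyp Φ K) {v : List Lt} (hv : v ≠ []) : nu Φ K v = ∑ i, nu Φ K (ch v i) := by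
  rw [nu_eq H (k := lv K v + 2) (by omega), cnt_add H hv (lv_lt (by omega))]
  push_cast
  rw [sum_div]
  exact sum_congr rfl fun i _ => (nu_eq H (lv_ch v i)).symm

lemma K_nonneg (H : Hyp Φ K) : 0 ≤ K := by
  have := H.2 [] []
  linarith [this.1, this.2]

lemma exists_bd (H : Hyp Φ K) : ∃ B : ℕ, ∀ v, cnt Φ v (lv K v + 2) ≤ B := by
  have l3 : 0 < Real.log 3 := Real.log_pos (by norm_num)
  obtain ⟨k0, hk0⟩ := exists_nat_ge (2 * K / Real.log 3 + 4)
  refine ⟨3 ^ k0, fun v => cnt_le H ?_⟩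
  have h0 := len_nonneg W1.pos v
  have hK := K_nonneg H
  have h1 := Nat.ceil_lt_add_one (a := (len W1.w v + K) / Real.log 3) (by positivity)
  have h2 := mul_lt_mul_of_pos_left h1 l3
  have h3 := mul_le_mul_of_nonneg_left hk0 l3.le
  rw [mul_add, mul_div_cancel₀ _ l3.ne'] at h2 h3
  simp only [lv]; push_cast; linarith

lemma exists_gap (s : Finset ℝ) : ∃ η : ℝ, 1 < η ∧ ∀ x ∈ s, 1 < x → η ≤ x := by
  induction s using Finset.induction_on with
  | empty => exact ⟨2, by norm_num, by simp⟩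
  | insert a s _ ih =>
    obtain ⟨η, h1, h2⟩ := ih
    by_cases ha : 1 < a
    · refine ⟨min η a, lt_min h1 ha, fun x hx h => ?_⟩
      rcases mem_insert.1 hx with rfl | hx
      · exact min_le_right _ _
      · exact (min_le_left _ _).trans (h2 x hx h)
    · refine ⟨η, h1, fun x hx h => ?_⟩
      rcases mem_insert.1 hx with rfl | hx
      · exact absurd h ha
      · exact h2 x hx h

/-- density of the pushed forward measure -/
noncomputable def RR (Φ : List (Fin 3) → List Lt) (K : ℝ) (v : List Lt) : ℝ := nu Φ K v / mu W1 v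

lemma exists_gap' (H : Hyp Φ K) : ∃ η : ℝ, 1 < η ∧ ∀ v i, 0 < RR Φ K v →
    RR Φ K (ch v i) < η * RR Φ K v → RR Φ K (ch v i) ≤ RR Φ K v := by
  obtain ⟨B, hB⟩ := exists_bd H
  obtain ⟨η, h1, h2⟩ := exists_gap (((range (B + 1) ×ˢ range (B + 1)) ×ˢ
    ((univ : Finset Lt) ×ˢ (univ : Finset Lt))).image fun p =>
      ((p.1.1 : ℝ) / p.1.2) * (hh W1 p.2.1 / (Real.exp (-W1.w p.2.2.1) * hh W1 p.2.2)))
  refine ⟨η, h1, fun v i h3 h4 => ?_⟩
  have e1 := nu_eq H (v := v) (k := lv K v + 2) (by omega)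
  have e2 := nu_eq H (lv_ch v i)
  have e3 : cnt Φ (ch v i) (lv K v + 2) ≤ cnt Φ v (lv K v + 2) := by
    refine sum_le_sum fun l _ => ?_
    split_ifs with p q
    · rfl
    · exact absurd ((prefix_ch v i).trans p) q
    all_goals simp
  have e4 := hB v
  have e5 : (cnt Φ v (lv K v + 2) : ℝ) ≠ 0 := by
    intro h
    rw [RR, e1, h] at h3; simp at h3
  have p1 := (hh_bd W1 (lst v)).1
  have p2 := (hh_bd W1 (child (lst v) i)).1
  have e6 : RR Φ K (ch v i) / RR Φ K v = ((cnt Φ (ch v i) (lv K v + 2) : ℝ) / cnt Φ v (lv K v + 2)) *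
      (hh W1 (lst v) / (Real.exp (-W1.w (child (lst v) i).1) * hh W1 (child (lst v) i))) := by
    have : hh W1 (lst v) ≠ 0 := by linarith
    have : hh W1 (child (lst v) i) ≠ 0 := by linarith
    rw [RR, RR, e1, e2, mu_ch, mu]; field_simp
  by_contra hc
  have := h2 _ (mem_image.2 ⟨((cnt Φ (ch v i) (lv K v + 2), cnt Φ v (lv K v + 2)),
    (lst v, child (lst v) i)), by simp; omega, e6.symm⟩) ((one_lt_div h3).2 (not_le.1 hc))
  rw [le_div_iff₀ h3] at this
  linarith

lemma RR_bd (H : Hyp Φ K) : ∃ M, ∀ v, RR Φ K v ≤ M := by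
  obtain ⟨B, hB⟩ := exists_bd H
  refine ⟨2 * B, fun v => ?_⟩
  have e1 := nu_eq H (v := v) (k := lv K v + 2) (by omega)
  have e2 := lv_lt (K := K) (v := v) (k := lv K v + 2) (by omega)
  have hK := K_nonneg H
  have e3 : Real.exp (len W1.w v) ≤ 3 ^ (lv K v + 2) := by
    rw [← Real.exp_log (show (0 : ℝ) < 3 by norm_num), ← Real.exp_nat_mul]
    exact Real.exp_le_exp.2 (by linarith)
  have e4 : (cnt Φ v (lv K v + 2) : ℝ) ≤ B := by exact_mod_cast hB v
  have e5 := (mu_bd W1 v).1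
  rw [RR, div_le_iff₀ (mu_pos W1 v), e1]
  calc (cnt Φ v (lv K v + 2) : ℝ) / 3 ^ (lv K v + 2) ≤ B / Real.exp (len W1.w v) := by gcongr
    _ = 2 * B * (Real.exp (-len W1.w v) / 2) := by rw [Real.exp_neg]; field_simp
    _ ≤ _ := by gcongr

lemma RR_pos (H : Hyp Φ K) : ∃ v, v ≠ [] ∧ 0 < RR Φ K v := by
  have l3 : 0 < Real.log 3 := Real.log_pos (by norm_num)
  obtain ⟨k, hk⟩ : ∃ k, ∀ s : Lt, lv K [s] ≤ k :=
    ⟨univ.sup fun s : Lt => lv K [s], fun s => le_sup (f := fun s : Lt => lv K [s]) (mem_univ s)⟩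
  have h1 := len_phi H (List.replicate k 0)
  have h2 := lv_lt (hk (true, true))
  have h3 := len_nonneg W1.pos [(true, true)]
  rw [List.length_replicate] at h1
  cases e : Φ (List.replicate k 0) with
  | nil => rw [e, len_nil] at h1; linarith
  | cons s t =>
    refine ⟨[s], by simp, div_pos ?_ (mu_pos W1 _)⟩
    rw [nu_eq H (hk s)]
    have : 1 ≤ cnt Φ [s] k := by
      refine le_trans ?_ (single_le_sum (f := fun l => if [s] <+: Φ l then 1 else 0)
        (fun _ _ => Nat.zero_le _) (mem_lev.2 (List.length_replicate (a := (0 : Fin 3)))))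
      simp [e]
    have : (0 : ℝ) < cnt Φ [s] k := by exact_mod_cast this
    positivity

theorem not_hyp (H : Hyp Φ K) : False := by
  obtain ⟨η, h1, h2⟩ := exists_gap' H
  obtain ⟨M0, hM0⟩ := RR_bd H
  obtain ⟨v0, hv0, p0⟩ := RR_pos H
  have bd : BddAbove (RR Φ K '' {v | v ≠ []}) := ⟨M0, by rintro _ ⟨v, -, rfl⟩; exact hM0 v⟩
  have hle : ∀ v, v ≠ [] → RR Φ K v ≤ sSup (RR Φ K '' {v | v ≠ []}) :=
    fun v hv => le_csSup bd ⟨v, hv, rfl⟩
  have hex : ∀ b < sSup (RR Φ K '' {v | v ≠ []}), ∃ v, v ≠ [] ∧ b < RR Φ K v := by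
    intro b hb
    obtain ⟨_, ⟨v, hv, rfl⟩, h⟩ := exists_lt_of_lt_csSup (Set.Nonempty.image _ ⟨v0, hv0⟩) hb
    exact ⟨v, hv, h⟩
  generalize sSup (RR Φ K '' {v | v ≠ []}) = M at hle hex
  have M0 : 0 < M := p0.trans_le (hle v0 hv0)
  have M1 : 0 < M / η := div_pos M0 (by linarith)
  have step : ∀ v, v ≠ [] → M / η < RR Φ K v → ∀ i, RR Φ K (ch v i) = RR Φ K v := by
    intro v hv h
    have a1 : ∀ i, RR Φ K (ch v i) ≤ RR Φ K v := fun i => h2 v i (M1.trans h) (by
      rw [div_lt_iff₀ (by linarith)] at h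
      linarith [hle _ (ch_ne_nil v i)])
    have a2 : ∀ u, mu W1 u * RR Φ K u = nu Φ K u := fun u => mul_div_cancel₀ _ (mu_pos W1 u).ne'
    have a3 : ∑ i, mu W1 (ch v i) * (RR Φ K v - RR Φ K (ch v i)) = 0 := by
      simp only [mul_sub, sum_sub_distrib, a2, ← sum_mul, mu_sum W1 ent1, ← nu_add H hv, sub_self]
    intro i
    have := (sum_eq_zero_iff_of_nonneg fun j _ =>
      mul_nonneg (mu_pos W1 _).le (sub_nonneg.2 (a1 j))).1 a3 i (mem_univ _)
    have := (mul_eq_zero.1 this).resolve_left (mu_pos W1 _).ne'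
    linarith
  obtain ⟨v, hv, h⟩ := hex (M / η) (div_lt_self M0 h1)
  obtain ⟨x, hx, hx1, hx2⟩ : ∃ x, x ≠ [] ∧ M / η < RR Φ K x ∧ (lst x).1 = true := by
    cases e : (lst v).1
    · exact ⟨ch v 1, ch_ne_nil _ _, by rwa [step v hv h], by simp [ch, child, e]⟩
    · exact ⟨v, hv, h, e⟩
  have iter : ∀ m : ℕ, ∃ y, y ≠ [] ∧ RR Φ K y = RR Φ K x ∧ (lst y).1 = true ∧
      mu W1 y * 2 ^ m = mu W1 x := by
    intro m
    induction m with
    | zero => exact ⟨x, hx, rfl, hx2, by simp⟩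
    | succ m ih =>
      obtain ⟨y, a1, a2, a3, a4⟩ := ih
      refine ⟨ch y 0, ch_ne_nil _ _, by rw [step y a1 (by rwa [a2]), a2], by simpa [ch, child], ?_⟩
      have e : child (lst y) 0 = lst y := rfl
      have e2 : Real.exp (-W1.w true) = 1 / 2 := exp_neg_log (by norm_num)
      rw [← a4, mu_ch, mu, e, a3, e2]; ring
  have n0 : cnt Φ x (lv K x) ≠ 0 := by
    intro e
    rw [RR, nu, e] at hx1; simp at hx1; linarith
  obtain ⟨y, -, a2, -, a4⟩ := iter (cnt Φ x (lv K x))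
  have a5 : nu Φ K y * 2 ^ cnt Φ x (lv K x) = nu Φ K x := by
    rw [RR, RR, div_eq_div_iff (mu_pos W1 _).ne' (mu_pos W1 _).ne', ← a4] at a2
    apply mul_right_cancel₀ (mu_pos W1 y).ne'
    linarith
  have a6 : cnt Φ y (lv K y) * 3 ^ lv K x * 2 ^ cnt Φ x (lv K x) = cnt Φ x (lv K x) * 3 ^ lv K y := by
    rw [nu, nu] at a5
    field_simp at a5
    have : ((cnt Φ y (lv K y) * 3 ^ lv K x * 2 ^ cnt Φ x (lv K x) : ℕ) : ℝ) =
        (cnt Φ x (lv K x) * 3 ^ lv K y : ℕ) := by push_cast; linarith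
    exact_mod_cast this
  have a7 : 2 ^ cnt Φ x (lv K x) ∣ cnt Φ x (lv K x) :=
    (Nat.Coprime.pow _ _ (by norm_num : Nat.Coprime 2 3)).dvd_of_dvd_mul_right
      (a6 ▸ Dvd.intro_left _ rfl)
  exact absurd (Nat.le_of_dvd (Nat.pos_of_ne_zero n0) a7) (not_le.2 Nat.lt_two_pow_self)

lemma code0 : Code W0 (Real.log 3) 0 ch := by
  intro v hv hr
  refine ⟨fun i => ⟨ch_red hr i, prefix_ch v i, ?_, ?_⟩, fun i j h => ch_uniq h List.prefix_rfl, ?_⟩
  · rw [len_ch]; show _ ≤ _ + Real.log 3 - _; linarith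
  · rw [len_ch]; show _ + Real.log 3 - _ ≤ _; linarith
  · intro u hu h
    by_cases e : u = v
    · exact ⟨0, Or.inr (e ▸ prefix_ch _ 0)⟩
    · obtain ⟨i, hi⟩ := ch_ex hv hu h e
      exact ⟨i, Or.inl hi⟩

/-- there is no rough isometric embedding of the first tree into the second -/
theorem no_rough (f : T W0 → T W1) (c : ℝ) :
    ¬ ∀ x y, dist x y - c ≤ dist (f x) (f y) ∧ dist (f x) (f y) ≤ dist x y + c := by
  intro h
  have l3 : 0 < Real.log 3 := Real.log_pos (by norm_num)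
  choose n hn using exists_vx W1
  let F : G → G := fun g => (n (f (vx W0 1)))⁻¹ * n (f (vx W0 g))
  have F1 : F 1 = 1 := inv_mul_cancel _
  have hF : ∀ g k, d W0.w g k - (c + 2 * W1.mx) ≤ d W1.w (F g) (F k) ∧
      d W1.w (F g) (F k) ≤ d W0.w g k + (c + 2 * W1.mx) := by
    intro g k
    have a1 := h (vx W0 g) (vx W0 k)
    have a2 := dist_near W1 (hn (f (vx W0 g))) (hn (f (vx W0 k)))
    rw [dist_vx] at a1
    rw [d_mul]
    constructor <;> linarith [a1.1, a1.2, a2.1, a2.2]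
  let E : List (Fin 3) → G := fun l => mk (phi ch [(true, true)] l)
  have hE : ∀ l, d W0.w 1 (E l) = Real.log 3 * (l.length + 1) := by
    intro l
    obtain ⟨a1, -, a3, a4⟩ := phi_good code0 l [(true, true)] (by simp) IsReduced.singleton
    rw [d_one, toWord_mk, a1.reduce_eq]
    have : len W0.w [(true, true)] = Real.log 3 := by simp [W0]
    linarith
  refine not_hyp (Φ := fun l => (F (E l)).toWord) (K := 2 * Real.log 3 + 3 * (c + 2 * W1.mx) / 2)
    ⟨fun l => isReduced_toWord, fun l m => ?_⟩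
  have a1 := d_word (w := W1.w) (F (E l)) (F (E m))
  have a2 := hF 1 (E l)
  have a3 := hF 1 (E m)
  have a4 := hF (E l) (E m)
  have a5 := phi_dist code0 (by linarith) l m [(true, true)] (by simp) IsReduced.singleton
  rw [F1, d_one (w := W1.w), hE] at a2 a3
  rw [rho] at a5
  change _ ≤ d W0.w (E l) (E m) ∧ d W0.w (E l) (E m) ≤ _ at a5
  constructor <;> linarith [a2.1, a2.2, a3.1, a3.2, a4.1, a4.2, a5.1, a5.2]

end Pool.Agent.H2.QT
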