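import Mathlib

namespace Pool.Agent.H2.Roe

/-- Uniformly locally finite metric spaces. -/
def ULF (X : Type) [MetricSpace X] : Prop :=
  ∀ r : ℝ, ∃ N : ℕ, ∀ x : X, (Metric.closedBall x r).Finite ∧ (Metric.closedBall x r).ncard ≤ N

/-- Property A. -/
def PropA (Y : Type) [MetricSpace Y] : Prop :=
  ∀ R > (0 : ℝ), ∀ ε > (0 : ℝ), ∃ S > (0 : ℝ), ∃ ξ : Y → lp (fun _ : Y => ℝ) 1,
    (∀ x y, 0 ≤ ξ x y) ∧ (∀ x, ‖ξ x‖ = 1) ∧ (∀ x y, ξ x y ≠ 0 → dist x y ≤ S) ∧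
      ∀ x y, dist x y ≤ R → ‖ξ x - ξ y‖ ≤ ε

/-- The uniform Roe algebra of `X`, acting on a Hilbert space with orthonormal basis `b`. -/
def Roe {X E : Type} [MetricSpace X] [NormedAddCommGroup E] [InnerProductSpace ℂ E]
    (b : HilbertBasis X ℂ E) : Set (E →L[ℂ] E) :=
  closure {a | ∃ r : ℝ, ∀ x y, inner ℂ (b x) (a (b y)) ≠ 0 → dist x y ≤ r}

/-- `Φ` restricts to an injective `*`-homomorphism from `S` to `T`. -/
def IsEmb {A B : Type} [Ring A] [Module ℂ A] [Star A] [Ring B] [Module ℂ B] [Star B]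
    (S : Set A) (T : Set B) (Φ : A → B) : Prop :=
  Set.MapsTo Φ S T ∧ Set.InjOn Φ S ∧
    (∀ a ∈ S, ∀ b ∈ S, Φ (a + b) = Φ a + Φ b ∧ Φ (a * b) = Φ a * Φ b) ∧
    ∀ a ∈ S, Φ (star a) = star (Φ a) ∧ ∀ z : ℂ, Φ (z • a) = z • Φ a

/-- Rank one operators. -/
def RankOne {E : Type} [NormedAddCommGroup E] [InnerProductSpace ℂ E] (q : E →L[ℂ] E) : Prop :=
  Module.finrank ℂ q.range = 1

/-- Compact operators. -/
def Cpt {E : Type} [NormedAddCommGroup E] [InnerProductSpace ℂ E] (a : E →L[ℂ] E) : Prop :=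
  IsCompactOperator a

/-- Every injective cut-down of `Φ` by a projection of `T` commuting with `Φ(S)` sends some
projection of `S` satisfying `R` to an element not satisfying `K`. -/
def BadCuts {A B : Type} [Mul A] [Star A] [Mul B] [Star B] (S : Set A) (T : Set B) (Φ : A → B)
    (R : A → Prop) (K : B → Prop) : Prop :=
  ∀ p ∈ T, IsStarProjection p → (∀ a ∈ S, Commute p (Φ a)) →
    Set.InjOn (fun a => p * Φ a * p) S → ∃ q ∈ S, IsStarProjection q ∧ R q ∧ ¬ K (p * Φ q * p)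

end Pool.Agent.H2.Roe
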