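import Pool.Agent.H2.BT5
import Pool.Agent.H2.RoeDefs

namespace Pool.Agent.H2.Roe

open Pool.Agent.H2.BT Filter Topology

def N : Type := ℕ

instance : DecidableEq N := inferInstanceAs (DecidableEq ℕ)

noncomputable instance : MetricSpace N :=
  MetricSpace.induced (fun n : ℕ => (n : ℝ) ^ 2)
    (fun a b h => by exact_mod_cast (pow_left_inj₀ (by positivity) (by positivity) two_ne_zero).1 h)
    inferInstance

lemma dist_N (n m : ℕ) : dist (α := N) n m = |(n : ℝ) ^ 2 - (m : ℝ) ^ 2| := rfl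

lemma far {n m : ℕ} {r : ℝ} (h : dist (α := N) n m ≤ r) : n = m ∨ (n ≤ r ∧ m ≤ r) := by
  rw [dist_N, abs_le] at h
  have h0 : (0 : ℝ) ≤ n := by positivity
  have h1 : (0 : ℝ) ≤ m := by positivity
  rcases lt_trichotomy n m with c | c | c
  · have : (n : ℝ) + 1 ≤ m := by exact_mod_cast c
    exact .inr ⟨by nlinarith, by nlinarith⟩
  · exact .inl c
  · have : (m : ℝ) + 1 ≤ n := by exact_mod_cast c
    exact .inr ⟨by nlinarith, by nlinarith⟩

lemma close {n m : ℕ} {r : ℝ} (h : n ≤ r) (h' : m ≤ r) : dist (α := N) n m ≤ r ^ 2 := by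
  have h0 : (0 : ℝ) ≤ n := by positivity
  have h1 : (0 : ℝ) ≤ m := by positivity
  rw [dist_N, abs_le]
  constructor <;> nlinarith

lemma ulf_N : ULF N := fun r => ⟨⌊r⌋₊ + 2, fun x => by
  have : Metric.closedBall x r ⊆ (show Set ℕ from
      ((insert (α := ℕ) x (Finset.range (⌊r⌋₊ + 1)) : Finset ℕ) : Set ℕ)) := fun y hy => by
      rcases far hy with h | h
      · exact Finset.mem_insert.2 (.inl h)
      · exact Finset.mem_insert_of_mem (Finset.mem_range.2 (Nat.lt_succ_of_le (Nat.le_floor h.1)))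
  refine ⟨(Finset.finite_toSet _).subset this,
    (Set.ncard_le_ncard this (Finset.finite_toSet _)).trans ?_⟩
  exact (Set.ncard_coe_finset _).trans_le ((Finset.card_insert_le _ _).trans
    (Nat.succ_le_succ (Finset.card_range _).le))⟩

lemma ulf_NN : ULF (N × N) := fun r => by
  obtain ⟨k, hk⟩ := ulf_N r
  refine ⟨k * k, fun x => ?_⟩
  rw [← closedBall_prod_same, Set.ncard_prod]
  exact ⟨(hk _).1.prod (hk _).1, Nat.mul_le_mul (hk _).2 (hk _).2⟩

lemma propA_NN : PropA (N × N) := fun R hR ε hε => by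
  classical
  let π : ℕ → ℕ := fun n => if (n : ℝ) ≤ R then 0 else n
  have h1 : ∀ n : ℕ, dist (α := N) n (π n) ≤ R ^ 2 := fun n => by
    by_cases h : (n : ℝ) ≤ R
    · simp only [π, if_pos h]; exact close h (by simpa using hR.le)
    · simp only [π, if_neg h, dist_self]; positivity
  have h2 : ∀ n m : ℕ, dist (α := N) n m ≤ R → π n = π m := fun n m h => by
    rcases far h with rfl | h
    · rfl
    · simp only [π, if_pos h.1, if_pos h.2]
  refine ⟨R ^ 2, by positivity, fun x => lp.single 1 (π x.1, π x.2) 1, fun x y => ?_,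
    fun x => by rw [lp.norm_single one_pos, norm_one], fun x y h => ?_, fun x y h => ?_⟩
  · rw [lp.single_apply, Pi.single_apply]; split_ifs <;> norm_num
  · obtain rfl : y = (π x.1, π x.2) := by
      by_contra e
      exact h (lp.single_apply_ne _ _ _ e)
    exact max_le (h1 _) (h1 _)
  · simp only [h2 _ _ ((le_max_left _ _).trans h), h2 _ _ ((le_max_right _ _).trans h), sub_self,
      norm_zero, hε.le]

noncomputable abbrev FF := lp (fun _ : ℕ => l2) 2

noncomputable def Ph (a : l2 →L[ℂ] l2) : FF →L[ℂ] FF :=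
  lp.mapCLM 2 (fun _ => a) (norm_nonneg a) fun _ => le_rfl

lemma Ph_apply (a : l2 →L[ℂ] l2) (f : FF) (n : ℕ) : Ph a f n = a (f n) := rfl

lemma Ph_mul (a b : l2 →L[ℂ] l2) : Ph (a * b) = Ph a * Ph b := rfl

noncomputable def PhL : (l2 →L[ℂ] l2) →L[ℂ] (FF →L[ℂ] FF) :=
  LinearMap.mkContinuous ⟨⟨Ph, fun _ _ => rfl⟩, fun _ _ => rfl⟩ 1 fun a => by
    rw [one_mul]; exact lp.norm_mapCLM_le _ _ (norm_nonneg a) fun _ => le_rfl

lemma Ph_star (a : l2 →L[ℂ] l2) : Ph (star a) = star (Ph a) := by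
  rw [ContinuousLinearMap.star_eq_adjoint (Ph a), ContinuousLinearMap.eq_adjoint_iff]
  intro f g
  simp only [lp.inner_eq_tsum (G := fun _ : ℕ => l2), Ph_apply, inner_star, star_star]

noncomputable def w (x n : ℕ) : FF := lp.single 2 n (dl x)

lemma Ph_single (a : l2 →L[ℂ] l2) (n : ℕ) (f : l2) : Ph a (lp.single 2 n f) = lp.single 2 n (a f) :=
  lp.ext (funext fun m => by
    rw [Ph_apply, lp.single_apply, lp.single_apply, Pi.single_apply, Pi.single_apply]
    split_ifs <;> simp)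

lemma ww (a : l2 →L[ℂ] l2) (x n y m : ℕ) : inner ℂ (w x n) (Ph a (w y m)) =
    inner ℂ (dl x) (a (dl y)) * if n = m then 1 else 0 := by
  rw [w, w, Ph_single, lp.inner_single_left, lp.single_apply, Pi.single_apply]
  split_ifs <;> simp

def ii (x : ℕ) : ℕ := x.unpair.1
def jj (x : ℕ) : ℕ := x.unpair.1 + x.unpair.2 + 1

noncomputable def cc (x n : ℕ) : ℂ := (if n = ii x then 1 else 0) - 2 * if n = jj x then 1 else 0

lemma ij (x : ℕ) : ii x ≠ jj x := by unfold ii jj; omega

lemma cc_i (x : ℕ) : cc x (ii x) = 1 := by simp [cc, ij]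
lemma cc_j (x : ℕ) : cc x (jj x) = -2 := by simp [cc, (ij x).symm]
lemma cc_conj (x n : ℕ) : (starRingEnd ℂ) (cc x n) = cc x n := by
  unfold cc; split_ifs <;> simp [map_ofNat]

lemma cc_le {x n : ℕ} (h : cc x n ≠ 0) : n ≤ x + 1 := by
  by_contra c
  have := Nat.unpair_add_le x
  exact h (by rw [cc, if_neg (by unfold ii; omega), if_neg (by unfold jj; omega)]; simp)

noncomputable def v (x n : ℕ) : FF := w x n - (2 / 5 * cc x n) • (w x (ii x) - (2 : ℂ) • w x (jj x))

lemma inner_v (x n : ℕ) (f : FF) : inner ℂ (v x n) f = inner ℂ (w x n) f -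
    2 / 5 * cc x n * (inner ℂ (w x (ii x)) f - 2 * inner ℂ (w x (jj x)) f) := by
  simp only [v, inner_sub_left, inner_smul_left, map_mul, cc_conj, map_div₀, map_ofNat]

lemma vv (a : l2 →L[ℂ] l2) (x n y m : ℕ) : inner ℂ (v x n) (Ph a (v y m)) =
    inner ℂ (dl x) (a (dl y)) * ((if n = m then 1 else 0) - 2 / 5 * cc y m * cc y n -
      2 / 5 * cc x n * (cc x m - 2 / 5 * cc y m * (cc y (ii x) - 2 * cc y (jj x)))) := by
  have e : cc x m = (if ii x = m then 1 else 0) - 2 * if jj x = m then 1 else 0 := by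
    simp only [cc, eq_comm]
  have k : ∀ n, inner ℂ (w x n) (Ph a (v y m)) =
      inner ℂ (dl x) (a (dl y)) * ((if n = m then 1 else 0) - 2 / 5 * cc y m * cc y n) := fun n => by
    simp only [v, map_sub, map_smul, inner_sub_right, inner_smul_right, ww]
    rw [cc.eq_1 y n]; ring
  rw [inner_v, k, k, k, e]; ring

lemma vv_same (a : l2 →L[ℂ] l2) (x n m : ℕ) : inner ℂ (v x n) (Ph a (v x m)) =
    inner ℂ (dl x) (a (dl x)) * if n = m then 1 else 0 := by
  rw [vv, cc_i, cc_j]; ring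

lemma w_ext {f : FF} (h : ∀ x n, inner ℂ (w x n) f = 0) : f = 0 :=
  lp.ext (funext fun n => b0.repr.injective (lp.ext (funext fun x => by
    have := h x n
    rw [w, lp.inner_single_left] at this
    rw [b0.repr_apply_apply, b0_apply, this]
    simp)))

lemma v_on (x n y m : ℕ) : inner ℂ (v x n) (v y m) = if (x, n) = (y, m) then 1 else 0 := by
  by_cases h : x = y
  · subst h
    refine (vv_same 1 x n m).trans ?_
    simp only [one_apply_eq_self, inner_dl, if_true, one_mul, Prod.mk.injEq, true_and]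
  · refine (vv 1 x n y m).trans ?_
    rw [one_apply_eq_self, inner_dl, if_neg h, zero_mul, if_neg fun e => h (congrArg Prod.fst e)]

lemma prop_Ph {a : l2 →L[ℂ] l2} {r : ℝ} {x n y m : ℕ} (h1 : dist (α := N) x y ≤ r)
    (h : inner ℂ (v x n) (Ph a (v y m)) ≠ 0) : dist (α := N) n m ≤ (r + 1) ^ 2 := by
  by_cases e : n = m
  · rw [e, dist_N]; simp [sq_nonneg]
  rcases far h1 with rfl | h2
  · rw [vv_same, if_neg e, mul_zero] at h
    exact absurd rfl h
  have k : ∀ {x n : ℕ}, (x : ℝ) ≤ r → cc x n ≠ 0 → (n : ℝ) ≤ r + 1 := fun hx hc =>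
    (Nat.cast_le.2 (cc_le hc)).trans (by push_cast; linarith)
  rw [vv, if_neg e] at h
  refine close ?_ ?_ <;> by_contra c
  · exact h (by rw [not_not.1 (mt (k h2.1) c), not_not.1 (mt (k h2.2) c)]; ring)
  · exact h (by rw [not_not.1 (mt (k h2.1) c), not_not.1 (mt (k h2.2) c)]; ring)

noncomputable def cY : HilbertBasis (N × N) ℂ FF :=
  HilbertBasis.mkOfOrthogonalEqBot (v := fun y : ℕ × ℕ => v y.1 y.2)
    ((orthonormal_iff_ite (ι := ℕ × ℕ)).2 fun y z => v_on y.1 y.2 z.1 z.2)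
    (by
      rw [Submodule.eq_bot_iff]
      intro f hf
      have h : ∀ x n, inner ℂ (v x n) f = 0 := fun x n =>
        hf _ (Submodule.subset_span ⟨(x, n), rfl⟩)
      refine w_ext fun x n => ?_
      have h1 := h x (ii x)
      have h2 := h x (jj x)
      have h3 := h x n
      rw [inner_v] at h1 h2 h3
      rw [cc_i] at h1
      rw [cc_j] at h2
      linear_combination h3 - 2 / 5 * cc x n * (h1 - 2 * h2))

lemma cY_apply (x n : ℕ) : cY (x, n) = v x n :=
  congrFun (HilbertBasis.coe_mkOfOrthogonalEqBot (ι := ℕ × ℕ) _ _) (x, n)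

noncomputable def bX : HilbertBasis N ℂ l2 := b0

lemma bX_apply (x : ℕ) : bX x = dl x := b0_apply x

lemma emb : IsEmb (Roe bX) (Roe cY) Ph := by
  refine ⟨?_, fun a _ b _ h => ext_ent fun x y => ?_, fun a _ b _ => ⟨rfl, rfl⟩,
    fun a _ => ⟨Ph_star a, fun _ => rfl⟩⟩
  · refine Set.MapsTo.closure ?_ PhL.continuous
    rintro a ⟨r, hr⟩
    refine ⟨max r ((r + 1) ^ 2), fun ⟨x, n⟩ ⟨y, m⟩ h => ?_⟩
    have h' : inner ℂ (v x n) (Ph a (v y m)) ≠ 0 := cY_apply x n ▸ cY_apply y m ▸ h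
    have h1 := hr x y (bX_apply x ▸ bX_apply y ▸ left_ne_zero_of_mul (vv a x n y m ▸ h'))
    exact max_le_max h1 (prop_Ph h1 h')
  · simpa only [ww, if_true, mul_one] using congrArg (fun T => inner ℂ (w x 0) (T (w y 0))) h

lemma compact_null {E : Type*} [NormedAddCommGroup E] [InnerProductSpace ℂ E] [CompleteSpace E]
    {k : E →L[ℂ] E} (hk : IsCompactOperator k) {e : ℕ → E} (he : Orthonormal ℂ e) :
    Tendsto (fun n => k (e n)) atTop (𝓝 0) := by
  obtain ⟨K, hK, h⟩ := hk.image_closedBall_subset_compact (f := k.toLinearMap) 1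
  refine hK.tendsto_nhds_of_unique_mapClusterPt (.of_forall fun n => h ⟨e n, by
    simp [he.1 n], rfl⟩) fun x _ hx => ?_
  have t : Tendsto (fun n => inner ℂ (k (e n)) x) atTop (𝓝 0) := by
    simp only [inner_star]
    rw [tendsto_zero_iff_norm_tendsto_zero]
    simpa using (he.inner_products_summable (star k x)).tendsto_atTop_zero.sqrt
  have := (hx.continuousAt_comp (f := fun y => inner ℂ y x) (by fun_prop)).clusterPt
  exact inner_self_eq_zero.1 (eq_of_nhds_neBot (this.mono t))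

end Pool.Agent.H2.Roe
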