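import Mathlib

namespace Pool.Agent.H2.SL1

open scoped RealInnerProductSpace
open Finset

variable {H : Type} [NormedAddCommGroup H] [InnerProductSpace ℝ H]

def body (h : H → ℝ) : Set H := {y | ∀ z, ⟪y, z⟫ ≤ h z}

structure Sup (h : H → ℝ) (C : ℝ) : Prop where
  att : ∀ x, x ≠ 0 → ∃ y ∈ body h, ⟪y, x⟫ = h x
  cont : Continuous h
  bd : ∀ x, |h x| ≤ C * ‖x‖

theorem body_convex (h : H → ℝ) : Convex ℝ (body h) := by
  intro x hx y hy a b ha hb hab z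
  rw [inner_add_left, real_inner_smul_left, real_inner_smul_left]
  have := mul_le_mul_of_nonneg_left (hx z) ha
  have := mul_le_mul_of_nonneg_left (hy z) hb
  calc _ ≤ a * h z + b * h z := by linarith
    _ = h z := by rw [← add_mul, hab, one_mul]

theorem body_closed (h : H → ℝ) : IsClosed (body h) := by
  have : body h = ⋂ z, {y | ⟪y, z⟫ ≤ h z} := by ext; simp [body]
  rw [this]
  exact isClosed_iInter fun z => isClosed_le (by fun_prop) continuous_const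

theorem Sup.sub {h : H → ℝ} {C : ℝ} (hC : 0 ≤ C) (s : Sup h C) :
    body h ⊆ Metric.closedBall 0 C := fun y hy => by
  have := (hy y).trans ((le_abs_self _).trans (s.bd y))
  rw [real_inner_self_eq_norm_sq] at this
  rw [mem_closedBall_zero_iff]
  by_contra hc
  push Not at hc
  nlinarith

theorem quad (u v : H) (t : ℝ) (ht : 0 < t) (hu : 0 < ‖u‖) :
    ‖v‖ - ⟪u, v⟫ / ‖u‖ ≤ ‖v - t • u‖ ^ 2 / (2 * t * ‖u‖) := by
  rw [norm_sub_sq_real, real_inner_smul_right, norm_smul, Real.norm_eq_abs, abs_of_pos ht,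
    real_inner_comm, le_div_iff₀ (by positivity)]
  have : (‖v‖ - ⟪v, u⟫ / ‖u‖) * (2 * t * ‖u‖) = 2 * t * ‖u‖ * ‖v‖ - 2 * t * ⟪v, u⟫ := by
    field_simp
  rw [this]; nlinarith [sq_nonneg (‖v‖ - t * ‖u‖)]

theorem cs (u v : H) : ⟪u, v⟫ / ‖u‖ ≤ ‖v‖ :=
  div_le_of_le_mul₀ (norm_nonneg _) (norm_nonneg _) (by rw [mul_comm]; exact real_inner_le_norm u v)

theorem self (u : H) : ⟪u, u⟫ / ‖u‖ = ‖u‖ := by
  rw [real_inner_self_eq_norm_sq, sq, mul_self_div_self]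

variable [CompleteSpace H]

noncomputable def gr (A : H →L[ℝ] H) (x : H) : H := (‖A x‖)⁻¹ • (ContinuousLinearMap.adjoint A) (A x)

theorem gr_inner (A : H →L[ℝ] H) (x z : H) : ⟪gr A x, z⟫ = ⟪A x, A z⟫ / ‖A x‖ := by
  rw [gr, real_inner_smul_left, ContinuousLinearMap.adjoint_inner_left, inv_mul_eq_div]

theorem supD (D : H →L[ℝ] H) (hD : ∀ x, ‖D x‖ ≤ ‖x‖) : Sup (fun x => ‖D x‖) 3 :=
  ⟨fun x _ => ⟨gr D x, fun z => by rw [gr_inner]; exact cs _ _, by rw [gr_inner, self]⟩,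
    by fun_prop, fun x => by
      rw [abs_norm]; linarith [hD x, norm_nonneg x]⟩

noncomputable def hf {κ : Type} [Fintype κ] (D : H →L[ℝ] H) (T : κ → H →L[ℝ] H) (k0 : κ)
    (x : H) : ℝ := ‖D x‖ - (Fintype.card κ : ℝ)⁻¹ * ∑ k, ‖T k x‖ + ‖T k0 x‖

theorem supT {κ : Type} [Fintype κ] (D : H →L[ℝ] H) (T : κ → H →L[ℝ] H) (k0 : κ)
    (inj : ∀ x, D x = 0 → x = 0) (hD : ∀ x, ‖D x‖ ≤ ‖x‖) (hT : ∀ k x, ‖T k x‖ ≤ ‖x‖)
    (ha : ∀ k x, ‖D x‖ ≤ 2 * ‖T k x‖)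
    (hb : ∀ w, ∑ k, ‖T k w‖ ^ 2 ≤ Fintype.card κ * ‖D w‖ ^ 2 / 2) : Sup (hf D T k0) 3 := by
  have K0 : (0 : ℝ) < Fintype.card κ := by exact_mod_cast Fintype.card_pos_iff.2 ⟨k0⟩
  refine ⟨fun x hx => ⟨gr D x - (Fintype.card κ : ℝ)⁻¹ • ∑ k, gr (T k) x + gr (T k0) x,
    fun z => ?_, ?_⟩, by unfold hf; fun_prop, fun x => ?_⟩
  · by_cases hz : z = 0
    · simp [hz, hf]
    have nx : 0 < ‖D x‖ := norm_pos_iff.2 fun h => hx (inj x h)
    have nz : 0 < ‖D z‖ := norm_pos_iff.2 fun h => hz (inj z h)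
    simp only [inner_add_left, inner_sub_left, real_inner_smul_left, sum_inner, gr_inner, hf]
    set t := ‖D z‖ / ‖D x‖ with ht
    have t0 : 0 < t := div_pos nz nx
    have e : t * ‖D x‖ = ‖D z‖ := by rw [ht]; field_simp
    have h1 : ∀ k, ‖T k z‖ - ⟪T k x, T k z⟫ / ‖T k x‖ ≤ ‖T k (z - t • x)‖ ^ 2 / ‖D z‖ := fun k => by
      refine (quad _ _ t t0 (by linarith [ha k x])).trans ?_
      rw [map_sub, map_smul]
      apply div_le_div_of_nonneg_left (by positivity) nz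
      nlinarith [ha k x]
    have h2 := Finset.sum_le_sum fun k (_ : k ∈ univ) => h1 k
    rw [Finset.sum_sub_distrib, ← Finset.sum_div] at h2
    have h3 := h2.trans (div_le_div_of_nonneg_right (hb _) nz.le)
    have h4 : ‖D (z - t • x)‖ ^ 2 = 2 * ‖D z‖ * (‖D z‖ - ⟪D x, D z⟫ / ‖D x‖) := by
      rw [map_sub, map_smul, norm_sub_sq_real, real_inner_smul_right, norm_smul, Real.norm_eq_abs,
        abs_of_pos t0, e, real_inner_comm, ht]
      ring
    rw [h4, show (Fintype.card κ : ℝ) * (2 * ‖D z‖ * (‖D z‖ - ⟪D x, D z⟫ / ‖D x‖)) / 2 / ‖D z‖ =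
      Fintype.card κ * (‖D z‖ - ⟪D x, D z⟫ / ‖D x‖) by field_simp, ← inv_mul_le_iff₀ K0, mul_sub] at h3
    linarith [cs (T k0 x) (T k0 z)]
  · simp only [inner_add_left, inner_sub_left, real_inner_smul_left, sum_inner, gr_inner, hf, self]
  · have s1 : 0 ≤ (Fintype.card κ : ℝ)⁻¹ * ∑ k, ‖T k x‖ := by positivity
    have s2 : (Fintype.card κ : ℝ)⁻¹ * ∑ k, ‖T k x‖ ≤ ‖x‖ := by
      rw [inv_mul_le_iff₀ K0]
      simpa using Finset.sum_le_sum fun k (_ : k ∈ univ) => hT k x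
    rw [hf, abs_le]
    constructor <;> linarith [hD x, hT k0 x, norm_nonneg (D x), norm_nonneg (T k0 x), norm_nonneg x]

/-- the support function as an element of `Z(X)` -/
noncomputable def Sup.bcf {h : H → ℝ} {C : ℝ} (s : Sup h C) :
    BoundedContinuousFunction (Metric.sphere (0 : StrongDual ℝ H) 1) ℝ :=
  BoundedContinuousFunction.ofNormedAddCommGroup
    (fun φ => h ((InnerProductSpace.toDual ℝ H).symm φ.1))
    (s.cont.comp ((InnerProductSpace.toDual ℝ H).symm.continuous.comp continuous_subtype_val)) C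
    fun φ => by
      have := s.bd ((InnerProductSpace.toDual ℝ H).symm φ.1)
      rwa [LinearIsometryEquiv.norm_map, mem_sphere_zero_iff_norm.1 φ.2, mul_one] at this

theorem Sup.isLUB {h : H → ℝ} {C : ℝ} (s : Sup h C) (φ : Metric.sphere (0 : StrongDual ℝ H) 1) :
    IsLUB (φ.1 '' body h) (s.bcf φ) := by
  have e : ∀ y, φ.1 y = ⟪y, (InnerProductSpace.toDual ℝ H).symm φ.1⟫ := fun y => by
    rw [real_inner_comm, InnerProductSpace.toDual_symm_apply]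
  have hne : (InnerProductSpace.toDual ℝ H).symm φ.1 ≠ 0 := by
    rw [← norm_ne_zero_iff, LinearIsometryEquiv.norm_map, mem_sphere_zero_iff_norm.1 φ.2]; simp
  obtain ⟨y, hy, hy'⟩ := s.att _ hne
  refine IsGreatest.isLUB ⟨⟨y, hy, by rw [e, hy']; rfl⟩, ?_⟩
  rintro _ ⟨z, hz, rfl⟩
  rw [e]; exact hz _

end Pool.Agent.H2.SL1
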