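import Mathlib
import Pool.Agent.H2.SL1

namespace Pool.Agent.H2.SL2

open scoped RealInnerProductSpace
open Finset Pool.Agent.H2.SL1

def K (i : ℕ) : ℕ := 16 * (i + 1) ^ 2

instance (i : ℕ) : Nonempty (Fin (K i)) := ⟨⟨0, by unfold K; positivity⟩⟩

/-- countable index set -/
abbrev I : Type := Σ N : ℕ, ∀ i : Fin N, Fin (K i)

abbrev X : Type := lp (fun _ : I => ℝ) 2

noncomputable def mul (m : I → ℝ) (hm : ∀ σ, |m σ| ≤ 1) : X →L[ℝ] X :=
  lp.mapCLM 2 (fun σ => m σ • ContinuousLinearMap.id ℝ ℝ) zero_le_one fun σ => by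
    rw [norm_smul, ContinuousLinearMap.norm_id, mul_one]; exact hm σ

theorem mul_apply (m : I → ℝ) (hm : ∀ σ, |m σ| ≤ 1) (x : X) (σ : I) : mul m hm x σ = m σ * x σ := rfl

theorem hs (x : X) : HasSum (fun σ => x σ ^ 2) (‖x‖ ^ 2) := by
  have := lp.hasSum_inner (𝕜 := ℝ) x x
  rw [real_inner_self_eq_norm_sq] at this
  simpa [sq] using this

theorem norm_le {x y : X} {c : ℝ} (hc : 0 ≤ c) (h : ∀ σ, x σ ^ 2 ≤ c ^ 2 * y σ ^ 2) :
    ‖x‖ ≤ c * ‖y‖ := by
  have := hasSum_le h (hs x) ((hs y).mul_left (c ^ 2))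
  rw [← mul_pow] at this
  exact (pow_le_pow_iff_left₀ (by positivity) (by positivity) two_ne_zero).1 this

noncomputable def d (σ : I) : ℝ := 1 / ((σ.1 : ℝ) + 1)

theorem d_pos (σ : I) : 0 < d σ := by unfold d; positivity

theorem d_le (σ : I) : d σ ≤ 1 := by
  unfold d; rw [div_le_one (by positivity)]; have : (0 : ℝ) ≤ σ.1 := by positivity
  linarith

def cond (i : ℕ) (k : Fin (K i)) (σ : I) : Prop := ∃ h : i < σ.1, σ.1 ≤ 2 * i + 1 ∧ σ.2 ⟨i, h⟩ = k

open Classical in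
noncomputable def m (i : ℕ) (k : Fin (K i)) (σ : I) : ℝ := if cond i k σ then 1 else d σ / 2

theorem m_ge (i k σ) : d σ / 2 ≤ m i k σ := by
  unfold m; split_ifs
  · linarith [d_le σ]
  · exact le_rfl

theorem m_abs (i k σ) : |m i k σ| ≤ 1 := by
  rw [abs_of_pos (by linarith [m_ge i k σ, d_pos σ])]
  unfold m; split_ifs
  · exact le_rfl
  · linarith [d_le σ]

noncomputable def D : X →L[ℝ] X := mul d fun σ => by rw [abs_of_pos (d_pos σ)]; exact d_le σ

noncomputable def T (i : ℕ) (k : Fin (K i)) : X →L[ℝ] X := mul (m i k) (m_abs i k)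

theorem mul_le (m : I → ℝ) (hm : ∀ σ, |m σ| ≤ 1) (x : X) : ‖mul m hm x‖ ≤ ‖x‖ := by
  have := norm_le (x := mul m hm x) (y := x) zero_le_one fun σ => by
    rw [mul_apply, mul_pow]
    exact mul_le_mul_of_nonneg_right (by rw [one_pow, sq_le_one_iff_abs_le_one]; exact hm σ)
      (sq_nonneg _)
  simpa using this

theorem sum_m (i : ℕ) (σ : I) (g : ℝ → ℝ) (k0 : Fin (K i)) (h : cond i k0 σ) :
    ∑ k, g (m i k σ) = g 1 + ((K i : ℝ) - 1) * g (d σ / 2) := by
  have e : ∀ k, g (m i k σ) = g (d σ / 2) + if k = k0 then g 1 - g (d σ / 2) else 0 := fun k => by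
    by_cases hk : k = k0
    · subst hk; simp [m, h]
    · have : ¬ cond i k σ := fun h' => hk (by
        obtain ⟨_, _, a⟩ := h; obtain ⟨_, _, b⟩ := h'; rw [← a, ← b])
      simp [m, this, hk]
  simp only [e, Finset.sum_add_distrib, Finset.sum_ite_eq', mem_univ, if_true, sum_const, card_univ,
    Fintype.card_fin, nsmul_eq_mul]
  ring

theorem sum_m' (i : ℕ) (σ : I) (g : ℝ → ℝ) (h : ∀ k, ¬ cond i k σ) :
    ∑ k, g (m i k σ) = (K i : ℝ) * g (d σ / 2) := by simp [m, h]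

theorem sup_T (i : ℕ) (k0 : Fin (K i)) : Sup (hf D (T i) k0) 3 := by
  refine supT D (T i) k0 (fun x hx => ?_) (mul_le _ _) (fun k => mul_le _ _) (fun k x => ?_) fun w => ?_
  · ext σ
    have : D x σ = 0 := by rw [hx]; rfl
    exact (mul_eq_zero.1 this).resolve_left (d_pos σ).ne'
  · refine norm_le (by norm_num) fun σ => ?_
    rw [D, T, mul_apply, mul_apply, mul_pow, mul_pow, ← mul_assoc]
    refine mul_le_mul_of_nonneg_right ?_ (sq_nonneg _)
    nlinarith [m_ge i k σ, d_pos σ]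
  · have a := hasSum_sum fun k (_ : k ∈ univ) => hs (T i k w)
    have b := ((hs (D w)).mul_left (Fintype.card (Fin (K i)) : ℝ)).div_const 2
    refine hasSum_le (fun σ => ?_) a b
    simp only [D, T, mul_apply, mul_pow, ← Finset.sum_mul, Fintype.card_fin]
    rw [← mul_assoc, mul_div_right_comm]
    refine mul_le_mul_of_nonneg_right ?_ (sq_nonneg _)
    have K0 : (0 : ℝ) ≤ K i := by positivity
    by_cases h : ∃ k, cond i k σ
    · obtain ⟨k, hk⟩ := h
      rw [sum_m i σ (fun t => t ^ 2) k hk]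
      obtain ⟨_, hN, _⟩ := hk
      have hN' : (σ.1 : ℝ) + 1 ≤ 2 * (i + 1) := by
        have : (σ.1 : ℝ) ≤ 2 * i + 1 := by exact_mod_cast hN
        linarith
      have e : 1 ≤ 2 * (i + 1) * d σ := by
        rw [d, mul_one_div, le_div_iff₀ (by positivity)]; linarith
      have : 4 ≤ (K i : ℝ) * d σ ^ 2 := by
        unfold K; push_cast; nlinarith
      nlinarith [sq_nonneg (d σ)]
    · rw [sum_m' i σ (fun t => t ^ 2) fun k hk => h ⟨k, hk⟩]
      nlinarith [mul_nonneg K0 (sq_nonneg (d σ))]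

theorem sup_D : Sup (fun x => ‖D x‖) 3 := supD D (mul_le _ _)

open Classical in
noncomputable def e (σ : I) : X := lp.single 2 σ 1

theorem e_norm (σ : I) : ‖e σ‖ = 1 := by
  classical
  rw [e, lp.norm_single (by norm_num)]; simp

theorem mul_e (m : I → ℝ) (hm : ∀ σ, |m σ| ≤ 1) (σ : I) (h : 0 ≤ m σ) : ‖mul m hm (e σ)‖ = m σ := by
  have : mul m hm (e σ) = m σ • e σ := by
    ext τ
    rw [mul_apply, lp.coeFn_smul, Pi.smul_apply, smul_eq_mul]
    by_cases hτ : τ = σ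
    · rw [hτ]
    · rw [e, lp.single_apply_ne _ _ _ hτ]; simp
  rw [this, norm_smul, e_norm, mul_one, Real.norm_eq_abs, abs_of_nonneg h]

theorem gap (N : ℕ) (ω : ∀ i, Fin (K i)) (i : ℕ) (hi : i < N) :
    ‖D (e ⟨N, fun j => ω j⟩)‖ + (if N ≤ 2 * i + 1 then 1 / 4 else 0) ≤
      hf D (T i) (ω i) (e ⟨N, fun j => ω j⟩) := by
  set σ : I := ⟨N, fun j => ω j⟩
  have K0 : (16 : ℝ) ≤ K i := by
    unfold K; push_cast; have : (0 : ℝ) ≤ i := by positivity
    nlinarith
  have hT : ∀ k, ‖T i k (e σ)‖ = m i k σ := fun k =>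
    mul_e _ _ σ (by linarith [m_ge i k σ, d_pos σ])
  simp only [hf, hT, Fintype.card_fin]
  split_ifs with h
  · have hc : cond i (ω i) σ := ⟨hi, h, rfl⟩
    rw [sum_m i σ (fun t => t) _ hc]
    have : m i (ω i) σ = 1 := by simp [m, hc]
    have b : (K i : ℝ)⁻¹ * (1 + ((K i : ℝ) - 1) * (d σ / 2)) ≤ 3 / 4 := by
      rw [inv_mul_le_iff₀ (by linarith)]; nlinarith [d_le σ, d_pos σ]
    linarith
  · have hc : ∀ k, ¬ cond i k σ := fun k hk => h hk.2.1
    rw [sum_m' i σ (fun t => t) hc, ← mul_assoc, inv_mul_cancel₀ (by linarith), one_mul]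
    have : m i (ω i) σ = d σ / 2 := by simp [m, hc]
    linarith

theorem count (N : ℕ) :
    (N : ℝ) / 8 ≤ ∑ i ∈ range N, (if N ≤ 2 * i + 1 then (1 / 4 : ℝ) else 0) := by
  rw [← Finset.sum_filter, sum_const, nsmul_eq_mul]
  have : (range N).filter (fun i => N ≤ 2 * i + 1) = Ico (N / 2) N := by
    ext i; simp only [mem_filter, mem_range, mem_Ico]; omega
  rw [this, Nat.card_Ico]
  have : N ≤ 2 * (N - N / 2) := by omega
  have : (N : ℝ) ≤ 2 * ((N - N / 2 : ℕ) : ℝ) := by exact_mod_cast this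
  linarith

theorem compact_U : IsCompact (body fun x => ‖D x‖) := by
  classical
  refine TotallyBounded.isCompact_of_isClosed ?_ (body_closed _)
  refine Metric.totallyBounded_iff.2 fun ε hε => ?_
  obtain ⟨n, hn⟩ := exists_nat_one_div_lt (half_pos hε)
  let F : Finset I := (range n).sigma fun _ => univ
  let g : (F → ℝ) → X := fun a => ∑ σ : F, a σ • e σ
  have gc : Continuous g := by fun_prop
  obtain ⟨t, ht, hc⟩ := Metric.totallyBounded_iff.1
    ((isCompact_closedBall (0 : F → ℝ) 3).image gc).totallyBounded _ (half_pos hε)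
  refine ⟨t, ht, fun y hy => ?_⟩
  have hy3 := mem_closedBall_zero_iff.1 (sup_D.sub (by norm_num) hy)
  have mem : g (fun σ => y σ) ∈ g '' Metric.closedBall 0 3 := ⟨_, by
    rw [mem_closedBall_zero_iff, pi_norm_le_iff_of_nonneg (by norm_num)]
    exact fun σ => (lp.norm_apply_le_norm (by norm_num) y _).trans hy3, rfl⟩
  obtain ⟨c, hct, hb⟩ := Set.mem_iUnion₂.1 (hc mem)
  refine Set.mem_iUnion₂.2 ⟨c, hct, ?_⟩
  set z := y - g (fun σ => y σ) with hz
  have zc : ∀ τ, z τ = if τ ∈ F then 0 else y τ := fun τ => by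
    have : g (fun σ => y σ) τ = if τ ∈ F then y τ else 0 := by
      simp only [g, lp.coeFn_sum, Finset.sum_apply, lp.coeFn_smul, Pi.smul_apply, e, lp.single_apply,
        Pi.single_apply, smul_eq_mul, mul_ite, mul_one, mul_zero]
      rw [Finset.sum_coe_sort F fun σ => if τ = σ then y σ else 0, Finset.sum_ite_eq]
    rw [hz, lp.coeFn_sub, Pi.sub_apply, this]; split_ifs <;> simp
  have i1 : ⟪y, z⟫ = ‖z‖ ^ 2 := by
    refine (lp.hasSum_inner (𝕜 := ℝ) y z).unique ?_
    have : (fun τ => ⟪y τ, z τ⟫) = fun τ => z τ ^ 2 := by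
      funext τ; rw [zc]; split_ifs <;> simp [sq]
    rw [this]; exact hs z
  have i2 : ‖D z‖ ≤ 1 / ((n : ℝ) + 1) * ‖z‖ := norm_le (by positivity) fun τ => by
    rw [D, mul_apply, mul_pow, zc]
    split_ifs with h
    · simp
    · refine mul_le_mul_of_nonneg_right (pow_le_pow_left₀ (d_pos τ).le ?_ 2) (sq_nonneg _)
      have : n ≤ τ.1 := by simpa [F] using h
      have : (n : ℝ) ≤ τ.1 := by exact_mod_cast this
      exact one_div_le_one_div_of_le (by positivity) (by linarith)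
  have i3 : ‖z‖ ≤ 1 / ((n : ℝ) + 1) := by
    have := (hy z).trans i2
    rw [i1] at this
    by_contra hc
    push Not at hc
    have : (0 : ℝ) < 1 / ((n : ℝ) + 1) := by positivity
    nlinarith
  rw [Metric.mem_ball] at hb ⊢
  have := dist_triangle y (g fun σ => y σ) c
  rw [dist_eq_norm y (g fun σ => y σ), ← hz] at this
  linarith

end Pool.Agent.H2.SL2
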