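import Mathlib
import Pool.Agent.H2.SL2

namespace Pool.Agent.H2.SL3

open MeasureTheory ProbabilityTheory Finset Pool.Agent.H2.SL1 Pool.Agent.H2.SL2
open scoped Pointwise RealInnerProductSpace

section Defs
variable (Y : Type) [NormedAddCommGroup Y] [NormedSpace ℝ Y]

/-- B-convexity (Beck's definition with signs). -/
def BConvex : Prop := ∃ k : ℕ, 2 ≤ k ∧ ∃ ε : ℝ, 0 < ε ∧ ∀ x : Fin k → Y, (∀ i, ‖x i‖ ≤ 1) →
  ∃ s : Fin k → ℝ, (∀ i, s i = 1 ∨ s i = -1) ∧ ‖∑ i, s i • x i‖ ≤ k * (1 - ε)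

/-- `Z(Y)`: bounded continuous real functions on the dual unit sphere. -/
abbrev Z : Type := BoundedContinuousFunction (Metric.sphere (0 : StrongDual ℝ Y) 1) ℝ

variable {Y}

/-- `A` is nonempty, bounded and convex, and `r` is its Radstrom image. -/
def IsR (A : Set Y) (r : Z Y) : Prop :=
  A.Nonempty ∧ Bornology.IsBounded A ∧ Convex ℝ A ∧ ∀ φ, IsLUB (φ.1 '' A) (r φ)

/-- `Ψ` is a uniformly bounded independent sequence of random sets with common expectation `U`. -/
def Seq {Ω : Type} [MeasurableSpace Ω] (μ : Measure Ω) (Ψ : ℕ → Ω → Set Y) (U : Set Y) : Prop :=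
  letI : MeasurableSpace (Z Y) := borel (Z Y)
  ∃ (r : ℕ → Ω → Z Y) (rU : Z Y), IsR U rU ∧ (∀ n ω, IsR (Ψ n ω) (r n ω)) ∧
    (∃ ρ : ℝ, ∀ n ω, Ψ n ω ⊆ Metric.closedBall 0 ρ) ∧
    (∀ n, Measurable (r n) ∧ Integrable (r n) μ ∧ ∫ ω, r n ω ∂μ = rU) ∧ iIndepFun r μ

/-- The Minkowski average of the first `N` sets. -/
def avg {Ω : Type} (Ψ : ℕ → Ω → Set Y) (N : ℕ) (ω : Ω) : Set Y :=
  (N : ℝ)⁻¹ • ∑ i ∈ range N, Ψ i ω

end Defs

theorem bconvex : BConvex X := by
  refine ⟨2, le_rfl, 1 / 4, by norm_num, fun x hx => ?_⟩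
  have h0 := hx 0; have h1 := hx 1
  have n0 := norm_nonneg (x 0); have n1 := norm_nonneg (x 1)
  rcases le_total ⟪x 0, x 1⟫ 0 with h | h
  · refine ⟨![1, 1], fun i => by fin_cases i <;> simp, ?_⟩
    have := norm_add_sq_real (x 0) (x 1)
    simp only [Fin.sum_univ_two, Matrix.cons_val_zero, Matrix.cons_val_one, one_smul]
    push_cast
    exact (pow_le_pow_iff_left₀ (norm_nonneg _) (by norm_num) two_ne_zero).1 (by nlinarith)
  · refine ⟨![1, -1], fun i => by fin_cases i <;> simp, ?_⟩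
    have := norm_sub_sq_real (x 0) (x 1)
    simp only [Fin.sum_univ_two, Matrix.cons_val_zero, Matrix.cons_val_one, one_smul, neg_smul,
      ← sub_eq_add_neg]
    push_cast
    exact (pow_le_pow_iff_left₀ (norm_nonneg _) (by norm_num) two_ne_zero).1 (by nlinarith)

theorem e_ne (σ : I) : e σ ≠ 0 := by rw [← norm_ne_zero_iff, e_norm]; simp

theorem isR {h : X → ℝ} (s : Sup h 3) : IsR (body h) s.bcf :=
  ⟨(s.att _ (e_ne ⟨0, fun i => i.elim0⟩)).imp fun _ h => h.1,
    Metric.isBounded_closedBall.subset (s.sub (by norm_num)), body_convex h, s.isLUB⟩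

theorem main : ∃ (Ω : Type) (_ : MeasurableSpace Ω) (μ : Measure Ω) (_ : IsProbabilityMeasure μ)
    (Ψ : ℕ → Ω → Set X) (U : Set X), IsCompact U ∧ Seq μ Ψ U ∧
      ∀ ω N, 1 ≤ N → ENNReal.ofReal (1 / 8) ≤ Metric.hausdorffEDist (avg Ψ N ω) U := by
  letI : MeasurableSpace (Z X) := borel (Z X)
  haveI : BorelSpace (Z X) := ⟨rfl⟩
  let ν : ∀ i, Measure (Fin (K i)) := fun i => (PMF.uniformOfFintype (Fin (K i))).toMeasure
  refine ⟨∀ i, Fin (K i), inferInstance, Measure.infinitePi ν, inferInstance,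
    fun i ω => body (hf D (T i) (ω i)), body fun x => ‖D x‖, compact_U,
    ⟨fun i ω => (sup_T i (ω i)).bcf, sup_D.bcf, isR sup_D, fun n ω => isR _,
      ⟨3, fun n ω => (sup_T n _).sub (by norm_num)⟩, fun n => ?_,
      iIndepFun_infinitePi (X := fun i k => (sup_T i k).bcf) fun i => measurable_of_countable _⟩,
    fun ω N hN => ?_⟩
  · have mp := measurePreserving_eval_infinitePi ν n
    have hi : Integrable (fun k => (sup_T n k).bcf) (ν n) := Integrable.of_finite
    refine ⟨(measurable_of_countable fun k => (sup_T n k).bcf).comp mp.measurable,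
      mp.integrable_comp_of_integrable hi, ?_⟩
    have : ∫ ω, (sup_T n (ω n)).bcf ∂Measure.infinitePi ν = ∫ k, (sup_T n k).bcf ∂ν n := by
      rw [← mp.map_eq, integral_map mp.measurable.aemeasurable (by
        rw [mp.map_eq]; exact hi.aestronglyMeasurable)]
    rw [this, PMF.integral_eq_sum]
    ext φ
    have K0 : (K n : ℝ) ≠ 0 := by unfold K; positivity
    simp only [PMF.uniformOfFintype_apply, Fintype.card_fin, ENNReal.toReal_inv, ENNReal.toReal_natCast,
      BoundedContinuousFunction.coe_sum, Finset.sum_apply, BoundedContinuousFunction.coe_smul,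
      smul_eq_mul, Sup.bcf, BoundedContinuousFunction.coe_ofNormedAddCommGroup, hf,
      ← Finset.mul_sum, Finset.sum_add_distrib, sum_const, card_univ, nsmul_eq_mul]
    field_simp
    ring
  · set σ : I := ⟨N, fun j => ω j⟩
    choose y hy hy' using fun i => (sup_T i (ω i)).att (e σ) (e_ne σ)
    have mem : (N : ℝ)⁻¹ • ∑ i ∈ range N, y i ∈
        avg (fun i (ω : ∀ i, Fin (K i)) => body (hf D (T i) (ω i))) N ω :=
      Set.smul_mem_smul_set (Set.finsetSum_mem_finsetSum _ _ _ fun i _ => hy i)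
    refine le_trans (Metric.le_infEDist.2 fun u hu => ?_) (Metric.infEDist_le_hausdorffEDist_of_mem mem)
    rw [edist_dist, dist_eq_norm]
    refine ENNReal.ofReal_le_ofReal ?_
    have N0 : (0 : ℝ) < N := by exact_mod_cast hN
    have a := real_inner_le_norm ((N : ℝ)⁻¹ • ∑ i ∈ range N, y i - u) (e σ)
    rw [e_norm, mul_one, inner_sub_left, real_inner_smul_left, sum_inner] at a
    have b := Finset.sum_le_sum fun i (hi : i ∈ range N) => gap N ω i (mem_range.1 hi)
    rw [Finset.sum_add_distrib, sum_const, card_range, nsmul_eq_mul] at b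
    simp only [hy'] at a
    have c : ‖D (e σ)‖ + 1 / 8 ≤ (N : ℝ)⁻¹ * ∑ i ∈ range N, hf D (T i) (ω i) (e σ) := by
      rw [le_inv_mul_iff₀ N0]; linarith [count N]
    linarith [hu (e σ)]

end Pool.Agent.H2.SL3
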