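import Mathlib
import Pool.Agent.H2.SL3

namespace Pool.Agent.H2.SL4

open scoped RealInnerProductSpace Pointwise
open Finset MeasureTheory ProbabilityTheory Filter Pool.Agent.H2.SL1 Pool.Agent.H2.SL3
open Pool.Agent.H2.SL2 (K I X mul mul_apply hs norm_le mul_le e e_norm mul_e)

variable (M : ℕ)

noncomputable def d (σ : I) : ℝ := 1 / ((σ.1 : ℝ) + M + 1)

theorem d_pos (σ : I) : 0 < (d M) σ := by unfold d; positivity

theorem d_le (σ : I) : (d M) σ ≤ 1 := by
  unfold d; rw [div_le_one (by positivity)]; have : (0 : ℝ) ≤ σ.1 + M := by positivity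
  linarith

def cond (i : ℕ) (k : Fin (K i)) (σ : I) : Prop := ∃ h : i < σ.1, σ.1 + M ≤ 2 * i + 1 ∧ σ.2 ⟨i, h⟩ = k

open Classical in
noncomputable def m (i : ℕ) (k : Fin (K i)) (σ : I) : ℝ := if (cond M) i k σ then 1 else (d M) σ / 2

theorem m_ge (i k σ) : (d M) σ / 2 ≤ (m M) i k σ := by
  unfold m; split_ifs
  · linarith [(d_le M) σ]
  · exact le_rfl

theorem m_abs (i k σ) : |(m M) i k σ| ≤ 1 := by
  rw [abs_of_pos (by linarith [(m_ge M) i k σ, (d_pos M) σ])]
  unfold m; split_ifs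
  · exact le_rfl
  · linarith [(d_le M) σ]

noncomputable def D : X →L[ℝ] X := mul (d M) fun σ => by rw [abs_of_pos ((d_pos M) σ)]; exact (d_le M) σ

noncomputable def T (i : ℕ) (k : Fin (K i)) : X →L[ℝ] X := mul ((m M) i k) ((m_abs M) i k)

theorem sum_m (i : ℕ) (σ : I) (g : ℝ → ℝ) (k0 : Fin (K i)) (h : (cond M) i k0 σ) :
    ∑ k, g ((m M) i k σ) = g 1 + ((K i : ℝ) - 1) * g ((d M) σ / 2) := by
  have e : ∀ k, g ((m M) i k σ) = g ((d M) σ / 2) + if k = k0 then g 1 - g ((d M) σ / 2) else 0 := fun k => by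
    by_cases hk : k = k0
    · subst hk; simp [m, h]
    · have : ¬ (cond M) i k σ := fun h' => hk (by
        obtain ⟨_, _, a⟩ := h; obtain ⟨_, _, b⟩ := h'; rw [← a, ← b])
      simp [m, this, hk]
  simp only [e, Finset.sum_add_distrib, Finset.sum_ite_eq', mem_univ, if_true, sum_const, card_univ,
    Fintype.card_fin, nsmul_eq_mul]
  ring

theorem sum_m' (i : ℕ) (σ : I) (g : ℝ → ℝ) (h : ∀ k, ¬ (cond M) i k σ) :
    ∑ k, g ((m M) i k σ) = (K i : ℝ) * g ((d M) σ / 2) := by simp [m, h]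

theorem sup_T (i : ℕ) (k0 : Fin (K i)) : Sup (hf (D M) ((T M) i) k0) 3 := by
  refine supT (D M) ((T M) i) k0 (fun x hx => ?_) (mul_le _ _) (fun k => mul_le _ _) (fun k x => ?_) fun w => ?_
  · ext σ
    have : (D M) x σ = 0 := by rw [hx]; rfl
    exact (mul_eq_zero.1 this).resolve_left ((d_pos M) σ).ne'
  · refine norm_le (by norm_num) fun σ => ?_
    rw [D, T, mul_apply, mul_apply, mul_pow, mul_pow, ← mul_assoc]
    refine mul_le_mul_of_nonneg_right ?_ (sq_nonneg _)
    nlinarith [(m_ge M) i k σ, (d_pos M) σ]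
  · have a := hasSum_sum fun k (_ : k ∈ univ) => hs ((T M) i k w)
    have b := ((hs ((D M) w)).mul_left (Fintype.card (Fin (K i)) : ℝ)).div_const 2
    refine hasSum_le (fun σ => ?_) a b
    simp only [D, T, mul_apply, mul_pow, ← Finset.sum_mul, Fintype.card_fin]
    rw [← mul_assoc, mul_div_right_comm]
    refine mul_le_mul_of_nonneg_right ?_ (sq_nonneg _)
    have K0 : (0 : ℝ) ≤ K i := by positivity
    by_cases h : ∃ k, (cond M) i k σ
    · obtain ⟨k, hk⟩ := h
      rw [(sum_m M) i σ (fun t => t ^ 2) k hk]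
      obtain ⟨_, hN, _⟩ := hk
      have hN' : (σ.1 : ℝ) + M + 1 ≤ 2 * (i + 1) := by
        have : (σ.1 : ℝ) + M ≤ 2 * i + 1 := by exact_mod_cast hN
        linarith
      have e : 1 ≤ 2 * (i + 1) * (d M) σ := by
        rw [d, mul_one_div, le_div_iff₀ (by positivity)]; linarith
      have : 4 ≤ (K i : ℝ) * (d M) σ ^ 2 := by
        unfold K; push_cast; nlinarith
      nlinarith [sq_nonneg ((d M) σ)]
    · rw [(sum_m' M) i σ (fun t => t ^ 2) fun k hk => h ⟨k, hk⟩]
      nlinarith [mul_nonneg K0 (sq_nonneg ((d M) σ))]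

theorem sup_D : Sup (fun x => ‖(D M) x‖) 3 := supD (D M) (mul_le _ _)

theorem gap (N : ℕ) (ω : ∀ i, Fin (K i)) (i : ℕ) (hi : i < N) :
    ‖(D M) (e ⟨N, fun j => ω j⟩)‖ + (if N + M ≤ 2 * i + 1 then 1 / 4 else 0) ≤
      hf (D M) ((T M) i) (ω i) (e ⟨N, fun j => ω j⟩) := by
  set σ : I := ⟨N, fun j => ω j⟩
  have K0 : (16 : ℝ) ≤ K i := by
    unfold K; push_cast; have : (0 : ℝ) ≤ i := by positivity
    nlinarith
  have hT : ∀ k, ‖(T M) i k (e σ)‖ = (m M) i k σ := fun k =>
    mul_e _ _ σ (by linarith [(m_ge M) i k σ, (d_pos M) σ])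
  simp only [hf, hT, Fintype.card_fin]
  split_ifs with h
  · have hc : (cond M) i (ω i) σ := ⟨hi, h, rfl⟩
    rw [(sum_m M) i σ (fun t => t) _ hc]
    have : (m M) i (ω i) σ = 1 := by simp [m, hc]
    have b : (K i : ℝ)⁻¹ * (1 + ((K i : ℝ) - 1) * ((d M) σ / 2)) ≤ 3 / 4 := by
      rw [inv_mul_le_iff₀ (by linarith)]; nlinarith [(d_le M) σ, (d_pos M) σ]
    linarith
  · have hc : ∀ k, ¬ (cond M) i k σ := fun k hk => h hk.2.1
    rw [(sum_m' M) i σ (fun t => t) hc, ← mul_assoc, inv_mul_cancel₀ (by linarith), one_mul]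
    have : (m M) i (ω i) σ = (d M) σ / 2 := by simp [m, hc]
    linarith

theorem count (N : ℕ) (h : 2 * M ≤ N) :
    (N : ℝ) / 16 ≤ ∑ i ∈ range N, (if N + M ≤ 2 * i + 1 then (1 / 4 : ℝ) else 0) := by
  rw [← Finset.sum_filter, sum_const, nsmul_eq_mul]
  have : (range N).filter (fun i => N + M ≤ 2 * i + 1) = Ico ((N + M) / 2) N := by
    ext i; simp only [mem_filter, mem_range, mem_Ico]; omega
  rw [this, Nat.card_Ico]
  have : N ≤ 4 * (N - (N + M) / 2) := by omega
  have : (N : ℝ) ≤ 4 * ((N - (N + M) / 2 : ℕ) : ℝ) := by exact_mod_cast this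
  linarith

theorem third {h : X → ℝ} (s : Sup h 3) : Sup (fun x => h x / 3) 1 := by
  refine ⟨fun x hx => ?_, s.cont.div_const 3, fun x => ?_⟩
  · obtain ⟨y, hy, hy'⟩ := s.att x hx
    refine ⟨(1 / 3 : ℝ) • y, fun z => ?_, ?_⟩
    · rw [real_inner_smul_left]; linarith [hy z]
    · rw [real_inner_smul_left, hy']; ring
  · rw [abs_div, abs_of_pos (by norm_num : (0 : ℝ) < 3)]; linarith [s.bd x]

theorem isR {h : X → ℝ} (s : Sup h 1) : IsR (body h) s.bcf :=
  ⟨(s.att _ (e_ne ⟨0, fun i => i.elim0⟩)).imp fun _ h => h.1,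
    Metric.isBounded_closedBall.subset (s.sub (by norm_num)), body_convex h, s.isLUB⟩

theorem small : Sup (fun x => ‖D M x‖ / 3) (1 / ((M : ℝ) + 1)) := by
  refine ⟨(third (sup_D M)).att, (third (sup_D M)).cont, fun x => ?_⟩
  have : ‖D M x‖ ≤ 1 / ((M : ℝ) + 1) * ‖x‖ := norm_le (by positivity) fun τ => by
    rw [D, mul_apply, mul_pow]
    refine mul_le_mul_of_nonneg_right (pow_le_pow_left₀ (d_pos M τ).le ?_ 2) (sq_nonneg _)
    have : (0 : ℝ) ≤ τ.1 := by positivity
    exact one_div_le_one_div_of_le (by positivity) (by linarith)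
  rw [abs_of_nonneg (by positivity)]; linarith [norm_nonneg (D M x)]

theorem main (δ : ℝ) (hδ : 0 < δ) : ∃ (Ω : Type) (_ : MeasurableSpace Ω) (μ : Measure Ω)
    (_ : IsProbabilityMeasure μ) (Ψ : ℕ → Ω → Set X) (U : Set X), Seq μ Ψ U ∧
      U ⊆ Metric.closedBall 0 δ ∧ (∀ n ω, Ψ n ω ⊆ Metric.closedBall 0 1) ∧
      ∀ ω, ∀ᶠ N in atTop, ∃ a ∈ avg Ψ N ω, 1 / 48 ≤ ‖a‖ := by
  obtain ⟨M, hM⟩ := exists_nat_one_div_lt hδ
  letI : MeasurableSpace (Z X) := borel (Z X)
  haveI : BorelSpace (Z X) := ⟨rfl⟩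
  let ν : ∀ i, Measure (Fin (K i)) := fun i => (PMF.uniformOfFintype (Fin (K i))).toMeasure
  refine ⟨∀ i, Fin (K i), inferInstance, Measure.infinitePi ν, inferInstance,
    fun i ω => body fun x => hf (D M) (T M i) (ω i) x / 3, body fun x => ‖D M x‖ / 3,
    ⟨fun i ω => (third (sup_T M i (ω i))).bcf, (third (sup_D M)).bcf, isR _, fun n ω => isR _,
      ⟨1, fun n ω => (third (sup_T M n _)).sub (by norm_num)⟩, fun n => ?_,
      iIndepFun_infinitePi (X := fun i k => (third (sup_T M i k)).bcf)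
        fun i => measurable_of_countable _⟩,
    ((small M).sub (by positivity)).trans (Metric.closedBall_subset_closedBall hM.le),
    fun n ω => (third (sup_T M n _)).sub (by norm_num), fun ω => ?_⟩
  · have mp := measurePreserving_eval_infinitePi ν n
    have hi : Integrable (fun k => (third (sup_T M n k)).bcf) (ν n) := Integrable.of_finite
    refine ⟨(measurable_of_countable fun k => (third (sup_T M n k)).bcf).comp mp.measurable,
      mp.integrable_comp_of_integrable hi, ?_⟩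
    have : ∫ ω, (third (sup_T M n (ω n))).bcf ∂Measure.infinitePi ν =
        ∫ k, (third (sup_T M n k)).bcf ∂ν n := by
      rw [← mp.map_eq, integral_map mp.measurable.aemeasurable (by
        rw [mp.map_eq]; exact hi.aestronglyMeasurable)]
    rw [this, PMF.integral_eq_sum]
    ext φ
    have K0 : (K n : ℝ) ≠ 0 := by unfold K; positivity
    simp only [PMF.uniformOfFintype_apply, Fintype.card_fin, ENNReal.toReal_inv, ENNReal.toReal_natCast,
      BoundedContinuousFunction.coe_sum, Finset.sum_apply, BoundedContinuousFunction.coe_smul,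
      smul_eq_mul, Sup.bcf, BoundedContinuousFunction.coe_ofNormedAddCommGroup, hf,
      ← Finset.mul_sum, ← Finset.sum_div, Finset.sum_add_distrib, sum_const, card_univ, nsmul_eq_mul]
    field_simp
    ring
  · filter_upwards [eventually_ge_atTop (2 * M + 1)] with N hN
    set σ : I := ⟨N, fun j => ω j⟩
    choose y hy hy' using fun i => (third (sup_T M i (ω i))).att (e σ) (e_ne σ)
    refine ⟨(N : ℝ)⁻¹ • ∑ i ∈ range N, y i,
      Set.smul_mem_smul_set (Set.finsetSum_mem_finsetSum _ _ _ fun i _ => hy i), ?_⟩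
    have N0 : (0 : ℝ) < N := by exact_mod_cast (by omega : 0 < N)
    have a := real_inner_le_norm ((N : ℝ)⁻¹ • ∑ i ∈ range N, y i) (e σ)
    rw [e_norm, mul_one, real_inner_smul_left, sum_inner] at a
    have b := Finset.sum_le_sum fun i (hi : i ∈ range N) => gap M N ω i (mem_range.1 hi)
    rw [Finset.sum_add_distrib, sum_const, card_range, nsmul_eq_mul] at b
    simp only [hy', ← Finset.sum_div] at a
    refine le_trans ?_ a
    rw [le_inv_mul_iff₀ N0]
    have := mul_nonneg N0.le (norm_nonneg (D M (e σ)))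
    linarith [count M N (by omega)]

end Pool.Agent.H2.SL4
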