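import Pool.Agent.H2.ScaleDefs

namespace Pool.Agent.H2.Scale

open Filter Topology SimpleGraph

variable {V : Type}

lemma lip {G : SimpleGraph V} {ψ : V → ℤ} (h : ∀ u v, G.Adj u v → ψ v ≤ ψ u + 1) {u v : V}
    (p : G.Walk u v) : ψ v ≤ ψ u + p.length := by
  induction p with
  | nil => simp
  | cons a p ih => have := h _ _ a; simp; omega

lemma lip' {G : SimpleGraph V} {ψ : V → ℤ} (h : ∀ u v, G.Adj u v → ψ v ≤ ψ u + 1) {u v : V}
    (r : G.Reachable u v) : ψ v ≤ ψ u + G.dist u v := by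
  obtain ⟨p, hp⟩ := r.exists_walk_length_eq_dist
  exact hp ▸ lip h p

lemma chain {G : SimpleGraph V} {f : ℤ → V} (h : ∀ n, G.Adj (f n) (f (n + 1))) (x y : ℤ) :
    G.Reachable (f x) (f y) ∧ (G.dist (f x) (f y) : ℤ) ≤ |x - y| := by
  have k : ∀ x (n : ℕ), ∃ p : G.Walk (f x) (f (x + n)), p.length = n := fun x n => by
    induction n with
    | zero => exact ⟨Walk.nil.copy rfl (by simp), by simp⟩
    | succ n ih =>
      obtain ⟨p, hp⟩ := ih
      exact ⟨(p.concat (h _)).copy rfl (by push_cast; rw [add_assoc]), by simp [hp]⟩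
  wlog c : x ≤ y
  · rw [G.dist_comm, abs_sub_comm]
    exact (this h y x k (by omega)).imp_left Reachable.symm
  obtain ⟨n, rfl⟩ := Int.le.dest c
  obtain ⟨p, hp⟩ := k x n
  exact ⟨⟨p⟩, by have := dist_le p; simp; omega⟩

def P : SimpleGraph ℤ where
  Adj a b := a + 1 = b ∨ b + 1 = a
  symm := ⟨fun _ _ => Or.symm⟩
  loopless := ⟨fun _ h => by omega⟩

lemma P_conn : P.Connected := ⟨fun x y => (chain (G := P) (f := id) (fun _ => .inl rfl) x y).1⟩

lemma P_dist (x y : ℤ) : (P.dist x y : ℤ) = |x - y| := by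
  have h : ∀ u v, P.Adj u v → id v ≤ id u + 1 := fun u v h => by rcases h with h | h <;> simp <;> omega
  have h1 : y ≤ x + P.dist x y := lip' h (P_conn x y)
  have h2 : x ≤ y + P.dist y x := lip' h (P_conn y x)
  rw [P.dist_comm] at h2
  have : |x - y| ≤ P.dist x y := abs_le.2 (by omega)
  exact (chain (G := P) (f := id) (fun _ => .inl rfl) x y).2.antisymm this

lemma dense {k : ℕ} {N : Set ℤ} (h : IsNet P k N) (hk : 1 ≤ k) (x : ℤ) : ∃ u ∈ N, |u - x| < k := by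
  by_contra! c
  have := h.2 (y := insert x N) (h.1.insert fun u hu _ => by
    have := c u hu
    zify
    rw [P_dist, P_dist, abs_sub_comm x]
    exact ⟨this, this⟩) (Set.subset_insert _ _) (Set.mem_insert _ _)
  have := c x this
  simp at this; omega

lemma ray {k : ℕ} {N : Set ℤ} (h : ∀ x, ∃ u ∈ N, |u - x| < k) {o : ℤ} (ho : o ∈ N) :
    ∃ g : ℕ → ℤ, g 0 = o ∧ ∀ n, g n ∈ N ∧ g n < g (n + 1) ∧ g (n + 1) ≤ g n + 2 * k ∧
      ∀ v ∈ N, v ≤ g n + 2 * k → v ≤ g (n + 1) := by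
  have : ∀ u : ℤ, ∃ w, (w ∈ N ∧ w ≤ u + 2 * k) ∧ ∀ v, v ∈ N ∧ v ≤ u + 2 * k → v ≤ w := fun u =>
    Int.exists_greatest_of_bdd ⟨_, fun _ h => h.2⟩ ((h u).imp fun w h =>
      ⟨h.1, by have := abs_lt.1 h.2; omega⟩)
  choose s h1 h2 using this
  refine ⟨fun n => s^[n] o, rfl, fun n => ?_⟩
  simp only [Function.iterate_succ_apply']
  refine ⟨by cases n <;> simp only [Function.iterate_succ_apply', h1, Function.iterate_zero, id, ho],
    ?_, (h1 _).2, fun v a b => h2 _ v ⟨a, b⟩⟩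
  obtain ⟨w, a, b⟩ := h (s^[n] o + k)
  have := abs_lt.1 b
  have := h2 (s^[n] o) w ⟨a, by omega⟩
  omega

lemma idx {g : ℕ → ℤ} (h : ∀ n, g n < g (n + 1)) :
    ∃ i : ℤ → ℕ, (∀ u n, i u ≤ n ↔ u ≤ g n) ∧ ∀ n, i (g n) = n := by
  have m := strictMono_nat_of_lt_succ h
  have e : ∀ u, ∃ n, u ≤ g n := fun u => ⟨(u - g 0).toNat, by
    have : ∀ n : ℕ, g 0 + n ≤ g n := fun n => by
      induction n with
      | zero => simp
      | succ n ih => have := h n; omega
    have := this (u - g 0).toNat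
    omega⟩
  have k : ∀ u n, Nat.find (e u) ≤ n ↔ u ≤ g n := fun u n =>
    (Nat.find_le_iff _ _).trans ⟨fun ⟨a, b, c⟩ => c.trans (m.monotone b), fun h => ⟨n, le_rfl, h⟩⟩
  exact ⟨_, k, fun n => eq_of_forall_ge_iff fun j => (k _ _).trans m.le_iff_le⟩

lemma main {k : ℕ} {N : Set ℤ} (h : IsNet P k N) (hk : 1 ≤ k) :
    (netGraph P k N).Connected ∧ ∀ C > 1, Rough P (netGraph P k N) C := by
  have d := dense h hk
  obtain ⟨o, ho, -⟩ := d 0
  obtain ⟨g, g0, hg⟩ := ray d ho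
  obtain ⟨g', g0', hg'⟩ := ray (k := k) (N := {x | -x ∈ N}) (fun x => by
    obtain ⟨u, a, b⟩ := d (-x)
    exact ⟨-u, by simpa, by rw [abs_lt] at b ⊢; omega⟩) (o := -o) (by simpa)
  obtain ⟨i, i1, i2⟩ := idx fun n => (hg n).2.1
  obtain ⟨j, j1, j2⟩ := idx fun n => (hg' n).2.1
  have A : ∀ u v : N, (netGraph P k N).Adj u v ↔ u.1 ≠ v ∧ |u.1 - v| ≤ 2 * k := fun u v => by
    simp only [netGraph]; zify; rw [P_dist, abs_pos, sub_ne_zero]
  obtain ⟨f, f1, f2⟩ : ∃ f : ℤ → N, (∀ n : ℕ, f n = g n) ∧ ∀ n : ℕ, f (-n) = -g' n :=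
    ⟨fun z => if 0 ≤ z then ⟨_, (hg z.toNat).1⟩ else ⟨_, (hg' (-z).toNat).1⟩, by simp, fun n => by
      cases n
      · simp [g0, g0']
      · beta_reduce; rw [if_neg (by omega)]; simp⟩
  have st : ∀ z, (f z).1 < f (z + 1) ∧ (f (z + 1)).1 ≤ f z + 2 * k := fun z => by
    rcases le_or_gt 0 z with c | c
    · lift z to ℕ using c
      rw [← Nat.cast_succ, f1, f1]; exact ⟨(hg z).2.1, (hg z).2.2.1⟩
    · obtain ⟨n, rfl⟩ : ∃ n : ℕ, z = -(n + 1 : ℕ) := ⟨(-z - 1).toNat, by omega⟩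
      rw [show (-(n + 1 : ℕ) + 1 : ℤ) = -n by omega, f2, f2]
      have := hg' n
      omega
  have ch := chain (G := netGraph P k N) (f := f) fun z => (A _ _).2 (by
    have := st z; rw [abs_le]; omega)
  have nr : ∀ u : N, ∃ z, f z = u ∨ (netGraph P k N).Adj (f z) u := fun u => by
    have m := strictMono_int_of_lt_succ fun z => (st z).1
    obtain ⟨z, a, b⟩ := Int.exists_greatest_of_bdd (P := fun z => (f z).1 ≤ u)
      ⟨i u, fun z a => m.le_iff_le.1 (a.trans (f1 _ ▸ (i1 _ _).1 le_rfl))⟩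
      ⟨-j (-u), by rw [f2, neg_le]; exact (j1 _ _).1 le_rfl⟩
    have := mt (b (z + 1)) (by omega)
    have := st z
    exact ⟨z, or_iff_not_imp_left.2 fun e => (A _ _).2 ⟨fun c => e (Subtype.ext c), by
      rw [abs_le]; omega⟩⟩
  have cn : ∀ u : N, (netGraph P k N).Reachable (f 0) u := fun u => by
    obtain ⟨z, rfl | a⟩ := nr u
    exacts [(ch _ _).1, (ch _ _).1.trans a.reachable]
  let ψ : N → ℤ := fun u => if o < u then i u else 1 - j (-u)
  have l : ∀ u v, (netGraph P k N).Adj u v → ψ v ≤ ψ u + 1 := fun u v a => by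
    have := abs_le.1 ((A _ _).1 a).2
    have a1 := (i1 v (i u + 1)).2 ((hg _).2.2.2 v v.2 (by have := (i1 u _).1 le_rfl; omega))
    have a2 := (j1 (-u) (j (-v) + 1)).2 ((hg' _).2.2.2 (-u) (by simp)
      (by have := (j1 (-v) _).1 le_rfl; omega))
    have a3 := i1 u 0
    have a4 := j1 (-u) 0
    have a5 := j1 (-v) 0
    simp only [ψ]
    split_ifs <;> omega
  have e : ∀ z, ψ (f z) = if 0 < z then z else 1 + z := fun z => by
    have m := strictMono_int_of_lt_succ fun z => (st z).1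
    have : o < f z ↔ 0 < z := by rw [← g0, ← f1]; exact m.lt_iff_lt
    simp only [ψ, this]
    split_ifs with c
    · lift z to ℕ using c.le
      rw [f1, i2]
    · obtain ⟨n, rfl⟩ : ∃ n : ℕ, z = -n := ⟨(-z).toNat, by omega⟩
      rw [f2, neg_neg, j2]; ring
  refine ⟨(connected_iff_exists_forall_reachable _).2 ⟨_, cn⟩, fun C hC => ⟨f, fun x y => ?_, fun u => ?_⟩⟩
  · have a1 := (ch x y).2
    have a2 := lip' l (ch x y).1
    have a3 := lip' l (ch y x).1
    rw [SimpleGraph.dist_comm, e, e] at a3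
    rw [e, e] at a2
    have a4 : |x - y| ≤ (netGraph P k N).dist (f x) (f y) + 1 := by
      rw [abs_le]; split_ifs at a2 a3 <;> omega
    rw [← P_dist] at a1 a4
    have a1 : ((netGraph P k N).dist (f x) (f y) : ℝ) ≤ P.dist x y := by exact_mod_cast a1
    have a4 : (P.dist x y : ℝ) ≤ (netGraph P k N).dist (f x) (f y) + 1 := by exact_mod_cast a4
    have a5 : (0 : ℝ) ≤ (netGraph P k N).dist (f x) (f y) := by positivity
    have a6 := inv_le_one_of_one_le₀ hC.le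
    constructor <;> nlinarith
  · obtain ⟨z, rfl | a⟩ := nr u
    · exact ⟨z, by simpa using one_pos.trans hC⟩
    · exact ⟨z, by rw [dist_eq_one_iff_adj.2 a]; simpa⟩

lemma low {W : Type} {H : SimpleGraph W} {C : ℝ} (h0 : 0 < C) (h : Rough P H C) : 1 ≤ C := by
  by_contra! c
  obtain ⟨f, h, -⟩ := h
  have c2 : 0 < 1 - C ^ 2 := by nlinarith
  obtain ⟨n, hn⟩ := exists_nat_gt (2 / (1 - C ^ 2))
  obtain ⟨a, b⟩ := h n 0
  have : P.dist n 0 = n := by zify; rw [P_dist]; simp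
  rw [this] at a b
  rw [sub_le_iff_le_add, inv_mul_le_iff₀ h0] at a
  rw [div_lt_iff₀ c2] at hn
  nlinarith [mul_le_mul_of_nonneg_left a h0.le, mul_pos h0 c2]

end Pool.Agent.H2.Scale
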