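import Mathlib

namespace Pool.Agent.H2.Scale

open Filter Topology

variable {V W : Type}

/-- `N` is a `k`-net: maximal among the `k`-separated vertex sets. -/
def IsNet (G : SimpleGraph V) (k : ℕ) (N : Set V) : Prop :=
  Maximal (fun S : Set V => S.Pairwise fun u v => k ≤ G.dist u v) N

/-- The `k`-net graph on `N`. -/
def netGraph (G : SimpleGraph V) (k : ℕ) (N : Set V) : SimpleGraph N where
  Adj u v := 0 < G.dist u v ∧ G.dist u v ≤ 2 * k
  symm := ⟨fun _ _ h => by rwa [G.dist_comm]⟩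
  loopless := ⟨fun _ h => by simp at h⟩

/-- There is a `C`-rough isometry from `G` to `H`. -/
def Rough (G : SimpleGraph V) (H : SimpleGraph W) (C : ℝ) : Prop :=
  ∃ f : V → W, (∀ x y, C⁻¹ * H.dist (f x) (f y) - C ≤ G.dist x y ∧
    (G.dist x y : ℝ) ≤ C * H.dist (f x) (f y) + C) ∧ ∀ y, ∃ x, (H.dist (f x) y : ℝ) < C

/-- For every choice of nets, the net graphs are connected, roughly isometric to `G`, and the
optimal constants `C_k` tend to `1`. -/
def SubScaleInvariant (G : SimpleGraph V) : Prop :=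
  ∀ N : ℕ → Set V, (∀ k ≥ 1, IsNet G k (N k)) →
    (∀ k ≥ 1, (netGraph G k (N k)).Connected ∧ ∃ C > 0, Rough G (netGraph G k (N k)) C) ∧
      Tendsto (fun k => sInf {C | 0 < C ∧ Rough G (netGraph G k (N k)) C}) atTop (𝓝 1)

/-- Vertex transitive graphs. -/
def VertexTransitive (G : SimpleGraph V) : Prop := ∀ u v, ∃ φ : G ≃g G, φ u = v

end Pool.Agent.H2.Scale
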