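import Mathlib

namespace Pool.Agent.H2.Scarf

open MvPolynomial

section general

variable (k : Type) [Field k] {V : Type} {N : ℕ}

/-- For monomials m_i = x^(g i), i in Fin N: the exponent vector of m_s = lcm (m_i : i in s)
(the componentwise maximum; the empty face has label 1). -/
noncomputable def lab (g : Fin N → (V →₀ ℕ)) (s : Finset (Fin N)) : V →₀ ℕ := s.sup g

/-- s is a face of the Scarf complex: no other face of the Taylor simplex has the same label. -/
def IsScarf (g : Fin N → (V →₀ ℕ)) (s : Finset (Fin N)) : Prop :=
  ∀ t : Finset (Fin N), lab g t = lab g s → t = s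

/-- The homogenized differential: e_s maps to the sum over vertices v of s of
(-1)^(number of vertices of s before v) (m_s / m_(s minus v)) e_(s minus v).
On vertices this is the augmentation e_i maps to m_i (e_empty has label 1). -/
noncomputable def dif (g : Fin N → (V →₀ ℕ)) :
    (Finset (Fin N) →₀ MvPolynomial V k) →ₗ[MvPolynomial V k]
      (Finset (Fin N) →₀ MvPolynomial V k) :=
  Finsupp.linearCombination (MvPolynomial V k) fun s =>
    ∑ v ∈ s, Finsupp.single (s.erase v)
      ((-1) ^ (s.filter (· < v)).card * monomial (lab g s - lab g (s.erase v)) (1 : k))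

/-- The free module on the faces of X with j vertices. -/
noncomputable def chains (X : Set (Finset (Fin N))) (j : ℕ) :
    Submodule (MvPolynomial V k) (Finset (Fin N) →₀ MvPolynomial V k) :=
  Finsupp.supported (MvPolynomial V k) (MvPolynomial V k) {s | s ∈ X ∧ s.card = j}

/-- The homogenized chain complex of X, augmented by e_i maps to m_i, is exact at the free
module on the faces with j vertices, for every j at least 1. -/
def Exact (g : Fin N → (V →₀ ℕ)) (X : Set (Finset (Fin N))) : Prop :=
  ∀ j, 1 ≤ j → ∀ c ∈ chains k (V := V) X j, dif k g c = 0 →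
    ∃ c' ∈ chains k (V := V) X (j + 1), dif k g c' = c

end general

/-- The variables x_A, A a nonempty subset of [q]. -/
abbrev Var (q : ℕ) := {A : Finset (Fin q) // A.Nonempty}

/-- The exponent vector of epsilon_i, the product of the x_A over the A containing i. -/
noncomputable def epsExp {q : ℕ} (i : Fin q) : Var q →₀ ℕ :=
  ∑ A : Var q with i ∈ A.1, Finsupp.single A 1

/-- The vectors a in N^q with a_1 + ... + a_q = r. -/
abbrev Gen (q r : ℕ) := {a : Fin q → ℕ // ∑ i, a i = r}

/-- The exponent vector of epsilon^a = epsilon_1^(a_1) ... epsilon_q^(a_q). -/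
noncomputable def genExp {q r : ℕ} (a : Gen q r) : Var q →₀ ℕ := ∑ i, a.1 i • epsExp i

end Pool.Agent.H2.Scarf
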