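import Pool.Agent.H26.BFP

/-! A degree-one parametrisation of the boundary of the cube and the resulting obstruction. -/

namespace Pool.Agent.H2.Sink

open Set Metric

noncomputable def rr (x : Fin 3 → ℝ) : ℝ := max |x 0| |x 1|

noncomputable def ww (x : Fin 3 → ℝ) : Fin 3 → ℝ :=
  ![(1 - rr x) * x 0 - (2 * rr x - 1), (1 - rr x) * x 1 - (2 * rr x - 1), -(2 * rr x - 1)]

noncomputable def ss (x : Fin 3 → ℝ) (i : Fin 3) : ℝ := 1 / 2 + ww x i / (2 * ‖ww x‖)

lemma rr_cont : Continuous rr := by unfold rr; fun_prop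

lemma ww_cont : Continuous ww := by
  have := rr_cont
  refine continuous_pi fun i => ?_
  fin_cases i <;> simp [ww] <;> fun_prop

lemma ww_pos (x : Fin 3 → ℝ) : 0 < ‖ww x‖ := by
  rw [norm_pos_iff]
  intro h
  have h0 := congrFun h 0
  have h1 := congrFun h 1
  have h2 := congrFun h 2
  simp only [ww, Matrix.cons_val_zero, Matrix.cons_val_one, Matrix.cons_val_two, Matrix.head_cons,
    Matrix.tail_cons, Pi.zero_apply] at h0 h1 h2
  have hr : rr x = 1 / 2 := by linarith
  rw [hr] at h0 h1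
  have e0 : x 0 = 0 := by linarith
  have e1 : x 1 = 0 := by linarith
  simp [rr, e0, e1] at hr

lemma ss_cont (i : Fin 3) : Continuous fun x => ss x i := by
  have := ww_cont
  unfold ss
  refine continuous_const.add (Continuous.div (by fun_prop) (by fun_prop) fun x => ?_)
  have := ww_pos x
  positivity

lemma ss_mem (x : Fin 3 → ℝ) (i : Fin 3) : ss x i ∈ Icc (0 : ℝ) 1 := by
  have h := ww_pos x
  have h1 : |ww x i| ≤ ‖ww x‖ := norm_le_pi_norm (ww x) i
  rw [abs_le] at h1
  have h2 : -(1 / 2) ≤ ww x i / (2 * ‖ww x‖) := by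
    rw [le_div_iff₀ (by positivity)]; linarith
  have h3 : ww x i / (2 * ‖ww x‖) ≤ 1 / 2 := by
    rw [div_le_iff₀ (by positivity)]; linarith
  constructor <;> simp only [ss] <;> linarith

lemma ss_face (x : Fin 3 → ℝ) : ∃ k, ss x k = 0 ∨ ss x k = 1 := by
  have h := ww_pos x
  obtain ⟨k, hk⟩ : ∃ k, ‖ww x‖ ≤ |ww x k| := by
    by_contra hc
    push Not at hc
    exact lt_irrefl _ ((pi_norm_lt_iff h).mpr hc)
  have h1 : |ww x k| = ‖ww x‖ := le_antisymm (norm_le_pi_norm (ww x) k) hk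
  refine ⟨k, ?_⟩
  rcases (abs_eq h.le).mp h1 with e | e
  · right; rw [ss, e]; field_simp; norm_num
  · left; rw [ss, e]; field_simp; norm_num

lemma ss_bdry {x : Fin 3 → ℝ} (h : rr x = 1) (i : Fin 3) : ss x i = 0 := by
  have e : ww x = fun _ => -1 := by
    funext j
    fin_cases j <;> simp [ww, h] <;> norm_num
  rw [ss, e]
  simp only [pi_norm_const, norm_neg, norm_one]
  norm_num

lemma mem_ball_iff {x : Fin 3 → ℝ} : x ∈ closedBall (0 : Fin 3 → ℝ) 1 ↔ ∀ i, |x i| ≤ 1 := by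
  rw [mem_closedBall_zero_iff, pi_norm_le_iff_of_nonneg zero_le_one]
  rfl

theorem core (K : Fin 3 → C(Fin 3 → ℝ, AddCircle (1 : ℝ))) (hz : ∀ x, ∃ k, K k x = 0)
    (hb : ∀ x ∈ closedBall (0 : Fin 3 → ℝ) 1, x 2 = -1 → ∀ i, K i x = (ss x i : ℝ))
    (ho : ∀ x ∈ closedBall (0 : Fin 3 → ℝ) 1, (rr x = 1 ∨ x 2 = 1) → ∀ i, K i x = 0) :
    False := by
  have cov := AddCircle.isCoveringMap_coe (1 : ℝ)
  have pm : ∀ ε δ : ℝ, |ε| = 1 → |δ| = 1 → ![ε, ε, δ] ∈ closedBall (0 : Fin 3 → ℝ) 1 ∧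
      rr ![ε, ε, δ] = 1 := by
    intro ε δ h1 h2
    refine ⟨mem_ball_iff.mpr fun i => ?_, by simp [rr, h1]⟩
    fin_cases i <;> simp [h1, h2]
  have hx0 := pm (-1) (-1) (by simp) (by simp)
  have hl : ∀ i, ∃ L : C(Fin 3 → ℝ, ℝ), L ![-1, -1, -1] = 0 ∧
      ((↑) : ℝ → AddCircle (1 : ℝ)) ∘ L = K i := fun i =>
    (cov.existsUnique_continuousMap_lifts (K i) ![-1, -1, -1] 0
      (by rw [ho _ hx0.1 (Or.inl hx0.2)]; rfl)).exists
  choose L L0 hL using hl
  have face : ∀ (i j : Fin 3) (c : ℝ) (g : (Fin 3 → ℝ) → ℝ), Continuous g →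
      (∀ x ∈ closedBall (0 : Fin 3 → ℝ) 1, x j = c → K i x = (g x : ℝ)) →
      ∀ p ∈ closedBall (0 : Fin 3 → ℝ) 1, p j = c → L i p = g p →
      ∀ x ∈ closedBall (0 : Fin 3 → ℝ) 1, x j = c → L i x = g x := by
    intro i j c g hg hK p hp hpj hLp x hx hxj
    have hconv : Convex ℝ (closedBall (0 : Fin 3 → ℝ) 1 ∩ {x | x j = c}) :=
      (convex_closedBall _ _).inter (convex_hyperplane (f := fun x : Fin 3 → ℝ => x j)
        ⟨fun _ _ => rfl, fun _ _ => rfl⟩ c)
    exact cov.eqOn_of_comp_eqOn hconv.isPreconnected (L i).continuous.continuousOn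
      hg.continuousOn (fun y hy => by rw [hL]; exact hK y hy.1 hy.2) ⟨hp, hpj⟩ hLp ⟨hx, hxj⟩
  have bot : ∀ i, ∀ x ∈ closedBall (0 : Fin 3 → ℝ) 1, x 2 = -1 → L i x = ss x i := fun i =>
    face i 2 (-1) _ (ss_cont i) (fun x hx h => hb x hx h i) _ hx0.1 rfl
      (by rw [L0, ss_bdry hx0.2])
  have side : ∀ i, ∀ x ∈ closedBall (0 : Fin 3 → ℝ) 1, rr x = 1 → L i x = 0 := by
    intro i x hx hr
    have aux : ∀ j : Fin 3, (j = 0 ∨ j = 1) → |x j| = 1 → L i x = 0 := by
      intro j hj hxj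
      have hp := pm (x j) (-1) hxj (by simp)
      refine face i j (x j) (fun _ => 0) continuous_const (fun y hy h => ?_) _ hp.1 ?_ ?_ x hx rfl
      · refine ho y hy (Or.inl ?_) i
        have := mem_ball_iff.mp hy
        apply le_antisymm (max_le (this 0) (this 1))
        rcases hj with rfl | rfl
        · exact le_max_of_le_left (by rw [h, hxj])
        · exact le_max_of_le_right (by rw [h, hxj])
      · rcases hj with rfl | rfl <;> rfl
      · rw [bot i _ hp.1 rfl, ss_bdry hp.2]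
    rcases max_choice |x 0| |x 1| with h | h
    · exact aux 0 (Or.inl rfl) (h.symm.trans hr)
    · exact aux 1 (Or.inr rfl) (h.symm.trans hr)
  have top : ∀ i, ∀ x ∈ closedBall (0 : Fin 3 → ℝ) 1, x 2 = 1 → L i x = 0 := fun i =>
    face i 2 1 (fun _ => 0) continuous_const (fun y hy h => ho y hy (Or.inr h) i) _
      (pm 1 1 (by simp) (by simp)).1 rfl (side i _ (pm 1 1 (by simp) (by simp)).1
        (pm 1 1 (by simp) (by simp)).2)
  let g : (Fin 3 → ℝ) → Fin 3 → ℝ := fun x => ![L 0 x - L 2 x, L 1 x - L 2 x, 1 / 2 - L 2 x]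
  have gc : Continuous g := by
    refine continuous_pi fun i => ?_
    fin_cases i <;> simp [g] <;> fun_prop
  have gpos : ∀ x, 0 < ‖g x‖ := by
    intro x
    rw [norm_pos_iff]
    intro h
    have h0 := congrFun h 0
    have h1 := congrFun h 1
    have h2 := congrFun h 2
    simp only [g, Matrix.cons_val_zero, Matrix.cons_val_one, Matrix.cons_val_two,
      Matrix.head_cons, Matrix.tail_cons, Pi.zero_apply] at h0 h1 h2
    obtain ⟨k, hk⟩ := hz x
    have e : L k x = 1 / 2 := by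
      fin_cases k <;> simp only [Fin.reduceFinMk, Fin.zero_eta, Fin.mk_one] <;> linarith
    rw [← hL, Function.comp, e, AddCircle.coe_eq_zero_iff] at hk
    obtain ⟨n, hn⟩ := hk
    simp only [zsmul_eq_mul, mul_one] at hn
    have : ((2 * n : ℤ) : ℝ) = (1 : ℤ) := by push_cast; linarith
    have : 2 * n = 1 := by exact_mod_cast this
    omega
  have hn : ∀ x, ‖-(‖g x‖⁻¹ • g x)‖ = 1 := fun x => by
    rw [norm_neg, norm_smul, norm_inv, norm_norm, inv_mul_cancel₀ (gpos x).ne']
  obtain ⟨x, hx, hfix⟩ := Pool.Agent.H26.BFP.brouwer_cube (fun x => -(‖g x‖⁻¹ • g x))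
    (((gc.norm.inv₀ fun x => (gpos x).ne').smul gc).neg.continuousOn)
    fun x _ => mem_closedBall_zero_iff.mpr (hn x).le
  have hx1 : ‖x‖ = 1 := by rw [← hfix]; exact hn x
  have hp := gpos x
  have hg : ∀ i, g x i = -(‖g x‖ * x i) := by
    intro i
    have := congrFun hfix i
    simp only [Pi.neg_apply, Pi.smul_apply, smul_eq_mul] at this
    rw [← this]; field_simp
  have h0 := hg 0
  have h1 := hg 1
  have h2 := hg 2
  set N := ‖g x‖
  simp only [g, Matrix.cons_val_zero, Matrix.cons_val_one, Matrix.cons_val_two,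
    Matrix.head_cons, Matrix.tail_cons] at h0 h1 h2
  have hle := mem_ball_iff.mp hx
  have out : (∀ i, L i x = 0) → x 0 = 0 ∧ x 1 = 0 ∧ x 2 < 0 := by
    intro h
    rw [h, h] at h0 h1
    rw [h] at h2
    refine ⟨?_, ?_, ?_⟩
    · have : N * x 0 = 0 := by linarith
      exact (mul_eq_zero.mp this).resolve_left hp.ne'
    · have : N * x 1 = 0 := by linarith
      exact (mul_eq_zero.mp this).resolve_left hp.ne'
    · by_contra hc
      have := mul_nonneg hp.le (not_lt.mp hc)
      linarith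
  by_cases hr : rr x = 1
  · obtain ⟨a, b, -⟩ := out fun i => side i x hx hr
    simp [rr, a, b] at hr
  have hr1 : rr x < 1 := lt_of_le_of_ne (max_le (hle 0) (hle 1)) hr
  have h2' : |x 2| = 1 := by
    by_contra hc
    have : ‖x‖ < 1 := by
      rw [pi_norm_lt_iff one_pos]
      intro i
      fin_cases i
      · exact (le_max_left _ _).trans_lt hr1
      · exact (le_max_right _ _).trans_lt hr1
      · exact lt_of_le_of_ne (hle 2) hc
    linarith
  rcases (abs_eq zero_le_one).mp h2' with e | e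
  · obtain ⟨-, -, c⟩ := out fun i => top i x hx e
    linarith
  · rw [bot _ x hx e, bot _ x hx e] at h0 h1
    rw [bot _ x hx e, e] at h2
    have hw := ww_pos x
    simp only [ss] at h0 h1 h2
    set M := ‖ww x‖
    simp only [ww, Matrix.cons_val_zero, Matrix.cons_val_one, Matrix.cons_val_two,
      Matrix.head_cons, Matrix.tail_cons] at h0 h1 h2
    field_simp at h0 h1 h2
    have hpos : 0 < 1 - rr x + 2 * M * N := by positivity
    have a : x 0 = 0 := by
      have : (1 - rr x + 2 * M * N) * x 0 = 0 := by linarith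
      exact (mul_eq_zero.mp this).resolve_left hpos.ne'
    have b : x 1 = 0 := by
      have : (1 - rr x + 2 * M * N) * x 1 = 0 := by linarith
      exact (mul_eq_zero.mp this).resolve_left hpos.ne'
    have c : rr x = 0 := by simp [rr, a, b]
    rw [c] at h2
    have := mul_pos hw hp
    linarith

end Pool.Agent.H2.Sink
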