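import Pool.Agent.H2.SosDefs

set_option autoImplicit false

namespace Pool.Agent.H2.Sos

open Finset SimpleGraph Filter

lemma kst {δ : ℝ} (h0 : 0 < δ) (h1 : δ ≤ 1) (t : ℕ) {A V : Type} [Fintype V] [DecidableEq V]
    (S : Finset A) (R : A → V → Prop) [∀ a v, Decidable (R a v)]
    (hV : 4 * (t + 1) ≤ δ * Fintype.card V)
    (h : δ * S.card * Fintype.card V ≤ ∑ a ∈ S, ((univ.filter (R a)).card : ℝ)) :
    ∃ Z : Finset V, Z.card = t ∧
      δ / 2 * (δ / 4) ^ t * S.card ≤ (S.filter fun a => ∀ z ∈ Z, R a z).card := by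
  set N : ℝ := (Fintype.card V : ℝ) with hN
  have ht : (0 : ℝ) ≤ t := by positivity
  have hN0 : 0 ≤ N := by positivity
  have hN1 : 4 * (t + 1) ≤ N := by nlinarith
  set S₀ := S.filter fun a => δ / 2 * N ≤ (univ.filter (R a)).card with hS₀
  have e1 : δ / 2 * S.card ≤ S₀.card := by
    have : ∑ a ∈ S, ((univ.filter (R a)).card : ℝ) ≤
        ∑ a ∈ S, ((if δ / 2 * N ≤ (univ.filter (R a)).card then N else 0) + δ / 2 * N) :=
      sum_le_sum fun a _ => by
        split_ifs with c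
        · have : ((univ.filter (R a)).card : ℝ) ≤ N := Nat.cast_le.2 (card_le_univ _)
          nlinarith
        · linarith
    rw [sum_add_distrib, ← sum_filter, sum_const, sum_const, nsmul_eq_mul, nsmul_eq_mul] at this
    refine le_of_mul_le_mul_right ?_ (show 0 < N by linarith)
    linarith
  have key : ∀ k ≤ t, ∃ Z : Finset V, Z.card = k ∧
      (δ / 4) ^ k * S₀.card ≤ (S₀.filter fun a => ∀ z ∈ Z, R a z).card := by
    intro k
    induction k with
    | zero => exact fun _ => ⟨∅, rfl, by simp⟩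
    | succ k ih =>
      intro hk
      obtain ⟨Z, hZ, h2⟩ := ih (by omega)
      set B := S₀.filter fun a => ∀ z ∈ Z, R a z with hB
      have hk' : (k : ℝ) ≤ t := by exact_mod_cast (by omega : k ≤ t)
      have c1 : ((univ \ Z).card : ℝ) ≤ N := Nat.cast_le.2 (card_le_univ _)
      obtain ⟨z, hz, h3⟩ := exists_le_of_sum_le (s := univ \ Z) (f := fun _ => δ / 4 * B.card)
        (g := fun z => ((B.filter fun a => R a z).card : ℝ)) (by
          rw [sdiff_nonempty]
          intro hc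
          have : N ≤ k := by rw [← hZ]; exact Nat.cast_le.2 (card_le_card hc)
          linarith) (by
          have : ∑ z ∈ univ \ Z, ((B.filter fun a => R a z).card : ℝ) =
              ∑ a ∈ B, (((univ \ Z).filter (R a)).card : ℝ) := by
            simp only [card_filter]; push_cast; exact sum_comm
          rw [this, sum_const, nsmul_eq_mul]
          refine le_trans ?_ (card_nsmul_le_sum B _ (δ / 4 * N) fun a ha => ?_)
          · rw [nsmul_eq_mul]
            nlinarith [mul_le_mul_of_nonneg_right c1 (show 0 ≤ δ / 4 * B.card by positivity)]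
          · have a1 := (mem_filter.1 (mem_filter.1 ha).1).2
            have a2 : (univ.filter (R a)).card ≤ ((univ \ Z).filter (R a)).card + k := by
              rw [← hZ]
              exact (card_le_card fun v hv => by
                by_cases c : v ∈ Z <;> simp_all).trans (card_union_le _ _)
            have a2 : ((univ.filter (R a)).card : ℝ) ≤ ((univ \ Z).filter (R a)).card + k := by
              exact_mod_cast a2
            linarith)
      refine ⟨insert z Z, by rw [card_insert_of_notMem (mem_sdiff.1 hz).2, hZ], ?_⟩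
      have : (S₀.filter fun a => ∀ y ∈ insert z Z, R a y) = B.filter fun a => R a z := by
        ext a; simp only [hB, mem_filter, forall_mem_insert]; tauto
      rw [this, pow_succ]
      nlinarith
  obtain ⟨Z, hZ, h2⟩ := key t le_rfl
  refine ⟨Z, hZ, ?_⟩
  have : ((S₀.filter fun a => ∀ z ∈ Z, R a z).card : ℝ) ≤ (S.filter fun a => ∀ z ∈ Z, R a z).card :=
    Nat.cast_le.2 (card_le_card (filter_subset_filter _ (filter_subset _ _)))
  have p : 0 ≤ (δ / 4) ^ t := by positivity
  nlinarith [mul_le_mul_of_nonneg_left e1 p]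

lemma supersat {W : Type} [Fintype W] {H : SimpleGraph W} (hH : H.Colorable 3) {δ : ℝ}
    (h0 : 0 < δ) : ∃ N : ℕ, ∀ (V : Type) [Fintype V] [DecidableEq V] (G : SimpleGraph V)
      [DecidableRel G.Adj], N ≤ Fintype.card V →
      δ * Fintype.card V ^ 3 ≤ (G.cliqueFinset 3).card → H ⊑ G := by
  wlog h1 : δ ≤ 1 generalizing δ
  · obtain ⟨N, hN⟩ := this one_pos le_rfl
    exact ⟨N, fun V _ _ G _ a b => hN V G a (le_trans (by gcongr; linarith) b)⟩
  set t := Fintype.card W with ht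
  have sm : ∀ δ : ℝ, 0 < δ → δ ≤ 1 → 0 < δ / 2 * (δ / 4) ^ t ∧ δ / 2 * (δ / 4) ^ t ≤ δ := by
    intro δ a b
    have : (δ / 4) ^ t ≤ 1 := pow_le_one₀ (by positivity) (by linarith)
    exact ⟨by positivity, by nlinarith⟩
  set δ₁ := δ / 2 * (δ / 4) ^ t with hδ₁
  obtain ⟨a1, b1⟩ := sm δ h0 h1
  set δ₂ := δ₁ / 2 * (δ₁ / 4) ^ t with hδ₂
  obtain ⟨a2, b2⟩ := sm δ₁ a1 (b1.trans h1)
  refine ⟨⌈4 * (t + 1) / δ₂⌉₊, fun V _ _ G _ hN h => ?_⟩
  set N : ℝ := (Fintype.card V : ℝ) with hN'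
  have hN0 : 0 ≤ N := by positivity
  have n2 : 4 * (t + 1) ≤ δ₂ * N := by
    have := Nat.ceil_le.1 hN
    rwa [div_le_iff₀' a2] at this
  have n1 : 4 * (t + 1) ≤ δ₁ * N := n2.trans (mul_le_mul_of_nonneg_right b2 hN0)
  obtain ⟨Z, hZ, h2⟩ := kst h0 h1 t (univ : Finset (V × V))
    (fun p z => G.Adj p.1 p.2 ∧ G.Adj p.1 z ∧ G.Adj p.2 z)
    (n1.trans (mul_le_mul_of_nonneg_right b1 hN0)) (by
      have e : (G.cliqueFinset 3).card ≤ ((univ : Finset (V × V)).sigma fun p =>
          univ.filter fun z => G.Adj p.1 p.2 ∧ G.Adj p.1 z ∧ G.Adj p.2 z).card :=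
        card_le_card_of_surjOn (fun q => {q.1.1, q.1.2, q.2}) fun s hs => by
          obtain ⟨a, b, c, x1, x2, x3, rfl⟩ := is3Clique_iff.1 (mem_cliqueFinset_iff.1 hs)
          exact ⟨⟨(a, b), c⟩, by simp [x1, x2, x3], rfl⟩
      rw [card_sigma] at e
      have e : ((G.cliqueFinset 3).card : ℝ) ≤ _ := Nat.cast_le.2 e
      rw [Nat.cast_sum] at e
      refine le_trans (le_of_eq ?_) (h.trans e)
      simp only [card_univ, Fintype.card_prod]; push_cast; ring)
  obtain ⟨Y, hY, h3⟩ := kst a1 (b1.trans h1) t (univ : Finset V)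
    (fun x y => ∀ z ∈ Z, G.Adj x y ∧ G.Adj x z ∧ G.Adj y z) n1 (by
      refine le_trans (le_of_eq ?_) (h2.trans (le_of_eq ?_))
      · simp only [card_univ, Fintype.card_prod]; push_cast; ring
      · simp only [card_filter]; push_cast; exact Fintype.sum_prod_type _)
  obtain ⟨X, hX1, hX⟩ := exists_subset_card_eq (s := univ.filter fun x => ∀ y ∈ Y, ∀ z ∈ Z,
    G.Adj x y ∧ G.Adj x z ∧ G.Adj y z) (n := t) (by
      rw [card_univ] at h3
      refine Nat.cast_le (α := ℝ).1 (le_trans ?_ (n2.trans h3))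
      linarith [t.cast_nonneg (α := ℝ)])
  obtain ⟨c⟩ := hH
  have em : ∀ T : Finset V, T.card = t → ∃ g : W → V, g.Injective ∧ ∀ w, g w ∈ T := fun T hT =>
    ⟨fun w => (Fintype.equivOfCardEq (by simp [hT, ht]) : W ≃ T) w,
      Subtype.val_injective.comp (Equiv.injective _), fun w => Subtype.prop _⟩
  obtain ⟨x, x1, x2⟩ := em X hX
  obtain ⟨y, y1, y2⟩ := em Y hY
  obtain ⟨z, z1, z2⟩ := em Z hZ
  have k : ∀ a b d, G.Adj (x a) (y b) ∧ G.Adj (x a) (z d) ∧ G.Adj (y b) (z d) := fun a b d =>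
    (mem_filter.1 (hX1 (x2 a))).2 _ (y2 b) _ (z2 d)
  have adj : ∀ i j : Fin 3, i ≠ j → ∀ a b, G.Adj (![x, y, z] i a) (![x, y, z] j b) := by
    intro i j hij a b
    fin_cases i <;> fin_cases j <;> first
      | exact absurd rfl hij
      | exact (k a b a).1
      | exact (k a a b).2.1
      | exact (k a a b).2.2
      | exact (k b a a).1.symm
      | exact (k b a a).2.1.symm
      | exact (k b b a).2.2.symm
  refine ⟨⟨⟨fun w => ![x, y, z] (c w) w, fun {a b} hab => adj _ _ (c.valid hab) a b⟩,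
    fun a b e => ?_⟩⟩
  by_cases hc : c a = c b
  · have e : ![x, y, z] (c a) a = ![x, y, z] (c b) b := e
    rw [hc] at e
    have : ∀ i, (![x, y, z] i).Injective := fun i => by fin_cases i <;> assumption
    exact this _ e
  · exact absurd e (adj _ _ hc a b).ne

lemma removal {W : Type} [Fintype W] {H : SimpleGraph W} (hH : H.Colorable 3) {η : ℝ}
    (h0 : 0 < η) : ∃ K : ℝ, 0 ≤ K ∧ ∀ (V : Type) [Fintype V] (G : SimpleGraph V), ¬ H ⊑ G →
      ∃ G' ≤ G, G'.CliqueFree 3 ∧
        ((G.edgeSet \ G'.edgeSet).ncard : ℝ) ≤ η * Fintype.card V ^ 2 + K := by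
  classical
  obtain ⟨N, hN⟩ := supersat hH (triangleRemovalBound_pos h0)
  refine ⟨N ^ 2, by positivity, fun V _ G hG => ?_⟩
  by_cases c : N ≤ Fintype.card V
  · obtain ⟨G', h1, _, h2, h3⟩ := triangle_removal (G := G) (ε := η) (not_le.1 fun h => hG (hN V G c h))
    refine ⟨G', h1, h3, ?_⟩
    rw [Set.ncard_diff (edgeSet_mono h1), Nat.cast_sub (Set.ncard_le_ncard (edgeSet_mono h1)),
      ← coe_edgeFinset, ← coe_edgeFinset, Set.ncard_coe_finset, Set.ncard_coe_finset]
    push_cast at h2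
    have : (0 : ℝ) ≤ N ^ 2 := by positivity
    linarith
  · refine ⟨⊥, bot_le, cliqueFree_bot (by norm_num), ?_⟩
    have e : (G.edgeSet \ (⊥ : SimpleGraph V).edgeSet).ncard ≤ N ^ 2 := by
      rw [edgeSet_bot, Set.diff_empty, ← coe_edgeFinset, Set.ncard_coe_finset]
      exact card_edgeFinset_le_card_choose_two.trans ((Nat.choose_le_pow _ _).trans
        (Nat.pow_le_pow_left (by omega) _))
    have e : ((G.edgeSet \ (⊥ : SimpleGraph V).edgeSet).ncard : ℝ) ≤ N ^ 2 := by exact_mod_cast e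
    have : 0 ≤ η * Fintype.card V ^ 2 := by positivity
    linarith

lemma edges_le (n r : ℕ) : (cyc n r).edgeSet.ncard ≤ 2 * (r * n) := by
  classical
  have hd : ∀ v, (cyc n r).degree v ≤ 4 * r := fun v => by
    rw [← card_neighborFinset_eq_degree]
    refine (card_le_card_of_injOn (t := (Ico (v - r) v ∪ Ioc v (v + r)) ∪ (range r ∪ Ico (n - r) n))
      Fin.val (fun w hw => ?_) Fin.val_injective.injOn).trans ?_
    · obtain ⟨a, b⟩ : (cyc n r).Adj v w := by simpa using hw
      have := v.2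
      have := w.2
      have := Fin.val_injective.ne a
      simp only [Nat.dist] at b
      simp only [coe_union, coe_Ico, coe_Ioc, coe_range, Set.mem_union, Set.mem_Ico, Set.mem_Ioc,
        Set.mem_Iio]
      omega
    · refine (card_union_le _ _).trans ((add_le_add (card_union_le _ _) (card_union_le _ _)).trans ?_)
      simp only [Nat.card_Ico, Nat.card_Ioc, card_range]
      omega
  have := (cyc n r).sum_degrees_eq_twice_card_edges
  have h2 := sum_le_card_nsmul univ _ _ fun v _ => hd v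
  rw [← coe_edgeFinset, Set.ncard_coe_finset]
  simp only [card_univ, Fintype.card_fin, smul_eq_mul] at h2
  nlinarith

lemma thr_spec (n r : ℕ) : thr n r ≤ 2 * (r * n) + 1 ∧
    ∀ F ≤ cyc n r, F.CliqueFree 3 → F.edgeSet.ncard < thr n r := by
  have h : 2 * (r * n) + 1 ∈ {m | ∀ F ≤ cyc n r, F.edgeSet.ncard = m → ¬ F.CliqueFree 3} :=
    fun F hF e => by
      have := (Set.ncard_le_ncard (edgeSet_mono hF)).trans (edges_le n r)
      omega
  refine ⟨Nat.sInf_le h, fun F hF hc => not_le.1 fun hl => ?_⟩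
  obtain ⟨s, h1, h2⟩ := Set.exists_subset_card_eq hl
  have e : fromEdgeSet s ≤ F := by
    rw [← fromEdgeSet_edgeSet F]; exact fromEdgeSet_mono h1
  refine Nat.sInf_mem ⟨_, h⟩ (fromEdgeSet s) (e.trans hF) ?_ (hc.anti e)
  rw [edgeSet_fromEdgeSet, Disjoint.sdiff_eq_left, h2]
  · rfl
  · exact Set.disjoint_left.2 fun x hx => F.not_isDiag_of_mem_edgeSet (h1 hx)

lemma thr_ev {ε : ℝ} (h : 0 < ε) :
    ∀ᶠ r : ℕ in atTop, ∀ᶠ n : ℕ in atTop, (thr n r : ℝ) ≤ (cc + ε) * (r * n) := by
  have b : ∀ r n : ℕ, (thr n r : ℝ) / (r * n) ≤ 3 := fun r n => by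
    rcases Nat.eq_zero_or_pos (r * n) with c | c
    · rw [← Nat.cast_mul, c]; simp
    · have c' : (0 : ℝ) < r * n := by exact_mod_cast c
      rw [div_le_iff₀ c']
      have := (thr_spec n r).1
      exact_mod_cast (by omega : thr n r ≤ 3 * (r * n))
  have b2 : ∀ r : ℕ, limsup (fun n : ℕ => (thr n r : ℝ) / (r * n)) atTop ≤ 3 := fun r =>
    limsup_le_of_le (isCoboundedUnder_le_of_le atTop (x := 0) fun n => by positivity)
      (.of_forall (b r))
  filter_upwards [eventually_lt_of_limsup_lt (lt_add_of_pos_right cc h)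
    (isBoundedUnder_of ⟨3, b2⟩), eventually_gt_atTop 0] with r h1 h2
  filter_upwards [eventually_lt_of_limsup_lt h1 (isBoundedUnder_of ⟨3, b r⟩),
    eventually_gt_atTop 0] with n h3 h4
  exact ((div_lt_iff₀ (by positivity)).1 h3).le

lemma windows {W : Type} [Fintype W] {H : SimpleGraph W} (hH : H.Colorable 3) {η : ℝ}
    (h0 : 0 < η) : ∃ K : ℝ, 0 ≤ K ∧ ∀ n r : ℕ, 0 < r → ∀ F ≤ cyc n r, ¬ H ⊑ F →
      (F.edgeSet.ncard : ℝ) ≤ thr n r + (r ^ 2 + (n / r + 1) * (η * (2 * r) ^ 2 + K)) := by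
  classical
  obtain ⟨K, hK, h⟩ := removal hH h0
  refine ⟨K, hK, fun n r hr F hF hHF => ?_⟩
  set T : ℕ → Set (Fin n) := fun j => {x | j * r ≤ x ∧ (x : ℕ) < j * r + 2 * r} with hT
  choose G' g1 g2 g3 using fun j => h (T j) (F.induce (T j))
    fun c => hHF (c.trans ⟨Copy.induce F _⟩)
  set D : ℕ → Set (Sym2 (Fin n)) := fun j =>
    Sym2.map Subtype.val '' ((F.induce (T j)).edgeSet \ (G' j).edgeSet) with hD
  set E : Set (Sym2 (Fin n)) := (fun p : Fin n × Fin n => s(p.1, p.2)) ''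
    {p | (p.1 : ℕ) < r ∧ n - r ≤ p.2} with hE
  set U := E ∪ ⋃ j ∈ range (n / r + 1), D j with hU
  have c1 : (F.deleteEdges U).CliqueFree 3 := by
    intro s hs
    obtain ⟨a, b, c, x1, x2, x3, -⟩ := is3Clique_iff.1 hs
    have nr : ∀ {a b}, (F.deleteEdges U).Adj a b → Nat.dist a b ≤ r := fun {a b} hab => by
      rw [deleteEdges_adj] at hab
      by_contra c
      have h1 := (hF hab.1).2.resolve_left c
      have := a.2
      have := b.2
      simp only [Nat.dist] at c h1
      rcases le_total (a : ℕ) b with l | l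
      · exact hab.2 (.inl ⟨(a, b), ⟨by simp only; omega, by simp only; omega⟩, rfl⟩)
      · exact hab.2 (.inl ⟨(b, a), ⟨by simp only; omega, by simp only; omega⟩, Sym2.eq_swap⟩)
    have d1 := nr x1
    have d2 := nr x2
    have d3 := nr x3
    simp only [Nat.dist] at d1 d2 d3
    set m : ℕ := min (a : ℕ) (min b c) with hm
    have m1 := Nat.div_mul_le_self m r
    have m2 := Nat.lt_div_mul_add (a := m) hr
    have hj : m / r ∈ range (n / r + 1) :=
      mem_range.2 (Nat.lt_succ_of_le (Nat.div_le_div_right (by have := a.2; omega)))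
    have ha : a ∈ T (m / r) := ⟨by omega, by omega⟩
    have hb : b ∈ T (m / r) := ⟨by omega, by omega⟩
    have hc : c ∈ T (m / r) := ⟨by omega, by omega⟩
    have up : ∀ {a b} (ha : a ∈ T (m / r)) (hb : b ∈ T (m / r)), (F.deleteEdges U).Adj a b →
        (G' (m / r)).Adj ⟨a, ha⟩ ⟨b, hb⟩ := fun {a b} ha hb hab => by
      rw [deleteEdges_adj] at hab
      by_contra c
      exact hab.2 (.inr (Set.mem_biUnion hj ⟨s(⟨a, ha⟩, ⟨b, hb⟩), ⟨hab.1, c⟩, rfl⟩))
    exact g2 _ _ (is3Clique_triple_iff.2 ⟨up ha hb x1, up ha hc x2, up hb hc x3⟩)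
  have c2 := (thr_spec n r).2 _ ((deleteEdges_le U).trans hF) c1
  have c3 : F.edgeSet.ncard ≤ (F.deleteEdges U).edgeSet.ncard + U.ncard := by
    rw [edgeSet_deleteEdges]
    exact Set.ncard_le_ncard_diff_add_ncard _ _
  have c4 : E.ncard ≤ r ^ 2 := by
    refine (Set.ncard_image_le (Set.toFinite _)).trans ?_
    refine (Set.ncard_le_ncard_of_injOn (t := ↑(range r ×ˢ Ico (n - r) n))
      (fun p => ((p.1 : ℕ), (p.2 : ℕ))) (fun p hp => by simpa using hp)
      (fun p _ q _ e => Prod.ext (Fin.ext (Prod.ext_iff.1 e).1) (Fin.ext (Prod.ext_iff.1 e).2))).trans ?_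
    rw [Set.ncard_coe_finset, card_product, card_range, Nat.card_Ico, sq]
    exact Nat.mul_le_mul_left _ (by omega)
  have c5 : ∀ j, ((D j).ncard : ℝ) ≤ η * (2 * r) ^ 2 + K := fun j => by
    refine (Nat.cast_le.2 (Set.ncard_image_le (Set.toFinite _))).trans ((g3 j).trans ?_)
    have : Fintype.card (T j) ≤ 2 * r := by
      rw [← Set.toFinset_card]
      refine (card_le_card_of_injOn (t := Ico (j * r) (j * r + 2 * r)) Fin.val
        (fun x hx => by simpa [hT] using hx) Fin.val_injective.injOn).trans (by simp)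
    have : (Fintype.card (T j) : ℝ) ≤ 2 * r := by exact_mod_cast this
    gcongr
  have c6 : ((⋃ j ∈ range (n / r + 1), D j).ncard : ℝ) ≤ (n / r + 1) * (η * (2 * r) ^ 2 + K) := by
    refine (Nat.cast_le.2 (Finset.set_ncard_biUnion_le _ _)).trans ?_
    rw [Nat.cast_sum]
    refine (sum_le_card_nsmul _ _ _ fun j _ => c5 j).trans ?_
    rw [card_range, nsmul_eq_mul]
    push_cast
    gcongr
    exact Nat.cast_div_le
  have c7 : (U.ncard : ℝ) ≤ E.ncard + (⋃ j ∈ range (n / r + 1), D j).ncard := by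
    exact_mod_cast Set.ncard_union_le _ _
  have c2 : ((F.deleteEdges U).edgeSet.ncard : ℝ) ≤ thr n r := by exact_mod_cast c2.le
  have c3 : (F.edgeSet.ncard : ℝ) ≤ (F.deleteEdges U).edgeSet.ncard + U.ncard := by exact_mod_cast c3
  have c4 : (E.ncard : ℝ) ≤ r ^ 2 := by exact_mod_cast c4
  linarith

end Pool.Agent.H2.Sos
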