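import Mathlib

set_option autoImplicit false

namespace Pool.Agent.H2.Sos

open Filter

/-- the `r`-th power of the cycle on `Fin n` -/
def cyc (n r : ℕ) : SimpleGraph (Fin n) where
  Adj x y := x ≠ y ∧ (Nat.dist x y ≤ r ∨ n ≤ Nat.dist x y + r)
  symm := ⟨fun x y h => ⟨h.1.symm, by rw [Nat.dist_comm]; exact h.2⟩⟩
  loopless := ⟨fun _ h => h.1 rfl⟩

/-- least `m` such that every subgraph with `m` edges contains a triangle -/
noncomputable def thr (n r : ℕ) : ℕ :=
  sInf {m | ∀ F ≤ cyc n r, F.edgeSet.ncard = m → ¬ F.CliqueFree 3}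

/-- the constant `c` -/
noncomputable def cc : ℝ :=
  limsup (fun r : ℕ => limsup (fun n : ℕ => (thr n r : ℝ) / (r * n)) atTop) atTop

end Pool.Agent.H2.Sos
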