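import Pool.Agent.H2.SphDefs

namespace Pool.Agent.H2.Sph

variable {n d : ℕ} {ι : Type}

/-- the complex generated by the facets `f i` -/
def gen (f : ι → Fin d → Fin n) : Set (Finset (Fin n)) := {G | ∃ i, ∀ v ∈ G, ∃ k, f i k = v}

lemma gen_complex (f : ι → Fin d → Fin n) (h : ∀ v, ∃ i k, f i k = v) : IsComplex (gen f) := by
  refine ⟨fun v => ?_, ?_⟩
  · obtain ⟨i, k, e⟩ := h v
    exact ⟨i, by simpa using ⟨k, e⟩⟩
  · rintro F ⟨i, hi⟩ G hG
    exact ⟨i, fun v hv => hi v (hG hv)⟩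

lemma mem_real (f : ι → Fin d → Fin n) (t : Fin n → ℝ) : t ∈ realization (gen f) ↔
    (∀ v, 0 ≤ t v) ∧ ∑ v, t v = 1 ∧ ∃ i, ∀ v, (∀ k, f i k ≠ v) → t v = 0 := by
  refine and_congr_right fun _ => and_congr_right fun _ => ⟨?_, ?_⟩
  · rintro ⟨F, ⟨i, hi⟩, hF⟩
    refine ⟨i, fun v hv => ?_⟩
    by_contra h
    obtain ⟨k, hk⟩ := hi v ((hF v).2 h)
    exact hv k hk
  · rintro ⟨i, hi⟩
    refine ⟨Finset.univ.filter (fun v => t v ≠ 0), ⟨i, fun v hv => ?_⟩, by simp⟩
    by_contra h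
    push Not at h
    exact (Finset.mem_filter.1 hv).2 (hi v h)

/-- The boundary complex of a simplicial polytope with vertices `p v`, facets `f i` and facet
functionals `a i` is a sphere. -/
theorem polytope_sphere [Finite ι] [Nonempty ι] (f : ι → Fin d → Fin n) (p : Fin n → Fin d → ℝ)
    (a : ι → Fin d → ℝ) (h : ℝ) (h0 : 0 < h)
    (H1 : ∀ i v, a i ⬝ᵥ p v ≤ h) (H2 : ∀ i v, a i ⬝ᵥ p v = h → ∃ k, f i k = v)
    (H3 : ∀ i k, a i ⬝ᵥ p (f i k) = h)
    (H4 : ∀ i k, ∃ j, a j ⬝ᵥ p (f i k) < h ∧ ∀ k', k' ≠ k → a j ⬝ᵥ p (f i k') = h) :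
    Nonempty (realization (gen f) ≃ₜ Metric.sphere (0 : EuclideanSpace ℝ (Fin d)) 1) := by
  classical
  let π : (Fin n → ℝ) →ₗ[ℝ] (Fin d → ℝ) := Fintype.linearCombination ℝ p
  have hπ : ∀ (b : Fin d → ℝ) t, b ⬝ᵥ π t = ∑ v, t v * (b ⬝ᵥ p v) := by
    intro b t
    simp [π, Fintype.linearCombination_apply, dotProduct_sum]
  have hle : ∀ t ∈ realization (gen f), ∀ j, a j ⬝ᵥ π t ≤ h := by
    intro t ht j
    rw [hπ]
    calc _ ≤ ∑ v, t v * h := Finset.sum_le_sum fun v _ => mul_le_mul_of_nonneg_left (H1 j v) (ht.1 v)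
      _ = h := by rw [← Finset.sum_mul, ht.2.1, one_mul]
  have heq : ∀ t ∈ realization (gen f), ∃ i, a i ⬝ᵥ π t = h := by
    intro t ht
    obtain ⟨-, h1, i, hi⟩ := (mem_real f t).1 ht
    refine ⟨i, ?_⟩
    rw [hπ]
    calc _ = ∑ v, t v * h := Finset.sum_congr rfl fun v _ => by
          by_cases hv : ∃ k, f i k = v
          · obtain ⟨k, rfl⟩ := hv; rw [H3]
          · push Not at hv; simp [hi v hv]
      _ = h := by rw [← Finset.sum_mul, h1, one_mul]
  have hsupp : ∀ t ∈ realization (gen f), ∀ i, a i ⬝ᵥ π t = h →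
      ∀ v, (∀ k, f i k ≠ v) → t v = 0 := by
    intro t ht i hi v hv
    have h1 : ∑ v, t v * (h - a i ⬝ᵥ p v) = 0 := by
      simp only [mul_sub, Finset.sum_sub_distrib, ← Finset.sum_mul, ht.2.1, ← hπ, hi]
      ring
    rw [Finset.sum_eq_zero_iff_of_nonneg fun v _ =>
      mul_nonneg (ht.1 v) (sub_nonneg.2 (H1 i v))] at h1
    rcases mul_eq_zero.1 (h1 v (Finset.mem_univ v)) with e | e
    · exact e
    · obtain ⟨k, hk⟩ := H2 i v (by linarith)
      exact (hv k hk).elim
  have hco : ∀ i k, ∃ j, a j ⬝ᵥ p (f i k) < h ∧ ∀ r : Fin d → ℝ,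
      a i ⬝ᵥ (∑ k', r k' • p (f i k')) - a j ⬝ᵥ (∑ k', r k' • p (f i k')) =
        r k * (h - a j ⬝ᵥ p (f i k)) := by
    intro i k
    obtain ⟨j, hj, hj'⟩ := H4 i k
    refine ⟨j, hj, fun r => ?_⟩
    simp only [dotProduct_sum, dotProduct_smul, smul_eq_mul, ← Finset.sum_sub_distrib, H3]
    rw [Finset.sum_eq_single k (fun k' _ hk => by rw [hj' k' hk, sub_self]) (by simp)]
    ring
  have hinj : ∀ i, Function.Injective (f i) := by
    intro i k k' e
    by_contra hk
    obtain ⟨j, hj, hj'⟩ := H4 i k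
    have := hj' k' (Ne.symm hk)
    rw [← e] at this
    linarith
  have hli : ∀ i, LinearIndependent ℝ (fun k => p (f i k)) := by
    intro i
    rw [Fintype.linearIndependent_iff]
    intro r hr k
    obtain ⟨j, hj, hj'⟩ := hco i k
    have := hj' r
    rw [hr] at this
    simp only [dotProduct_zero, sub_self] at this
    rcases mul_eq_zero.1 this.symm with e | e
    · exact e
    · linarith
  have hsum : ∀ i (u : Fin n → ℝ), (∀ v, (∀ k, f i k ≠ v) → u v = 0) →
      π u = ∑ k, u (f i k) • p (f i k) := by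
    intro i u hu
    simp only [π, Fintype.linearCombination_apply]
    exact (Fintype.sum_of_injective (f i) (hinj i) _ _
      (fun v hv => by rw [hu v fun k e => hv ⟨k, e⟩, zero_smul]) fun _ => rfl).symm
  have hne : ∀ t ∈ realization (gen f), (WithLp.toLp 2 (π t) : EuclideanSpace ℝ (Fin d)) ≠ 0 := by
    intro t ht e
    obtain ⟨i, hi⟩ := heq t ht
    have : π t = 0 := by simpa using e
    rw [this, dotProduct_zero] at hi
    exact h0.ne hi
  let g : realization (gen f) → Metric.sphere (0 : EuclideanSpace ℝ (Fin d)) 1 := fun t =>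
    ⟨‖(WithLp.toLp 2 (π t) : EuclideanSpace ℝ (Fin d))‖⁻¹ • WithLp.toLp 2 (π t), by
      rw [mem_sphere_zero_iff_norm, norm_smul, norm_inv, norm_norm,
        inv_mul_cancel₀ (norm_ne_zero_iff.2 (hne t t.2))]⟩
  have hc0 : Continuous fun t : realization (gen f) =>
      (WithLp.toLp 2 (π t) : EuclideanSpace ℝ (Fin d)) :=
    (PiLp.continuous_toLp 2 _).comp (π.continuous_of_finiteDimensional.comp continuous_subtype_val)
  have hc : Continuous g :=
    ((hc0.norm.inv₀ fun t => norm_ne_zero_iff.2 (hne t t.2)).smul hc0).subtype_mk _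
  have hgi : Function.Injective g := by
    rintro ⟨t, ht⟩ ⟨s, hs⟩ e
    have e1 := congrArg (fun x : Metric.sphere (0 : EuclideanSpace ℝ (Fin d)) 1 => x.1.ofLp) e
    simp only [g, WithLp.ofLp_smul] at e1
    have p1 := inv_pos.2 (norm_pos_iff.2 (hne t ht))
    have p2 := inv_pos.2 (norm_pos_iff.2 (hne s hs))
    generalize ‖(WithLp.toLp 2 (π t) : EuclideanSpace ℝ (Fin d))‖⁻¹ = x at e1 p1
    generalize ‖(WithLp.toLp 2 (π s) : EuclideanSpace ℝ (Fin d))‖⁻¹ = y at e1 p2
    obtain ⟨i, hi⟩ := heq t ht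
    obtain ⟨j, hj⟩ := heq s hs
    have q1 := congrArg (fun z => a i ⬝ᵥ z) e1
    have q2 := congrArg (fun z => a j ⬝ᵥ z) e1
    simp only [dotProduct_smul, smul_eq_mul, hi, hj] at q1 q2
    have r1 := mul_le_mul_of_nonneg_left (hle s hs i) p2.le
    have r2 := mul_le_mul_of_nonneg_left (hle t ht j) p1.le
    have hxy : x = y := by
      apply mul_right_cancel₀ h0.ne'
      linarith
    subst hxy
    have e2 : π t = π s := smul_right_injective _ p1.ne' e1
    have s1 := hsupp t ht i hi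
    have s2 := hsupp s hs i (e2 ▸ hi)
    have e3 := hsum i (t - s) fun v hv => by simp [s1 v hv, s2 v hv]
    rw [map_sub, e2, sub_self] at e3
    have e4 := Fintype.linearIndependent_iff.1 (hli i) _ e3.symm
    ext v
    by_cases hv : ∃ k, f i k = v
    · obtain ⟨k, rfl⟩ := hv
      simpa [sub_eq_zero] using e4 k
    · push Not at hv
      simp [s1 v hv, s2 v hv]
  have hgs : Function.Surjective g := by
    rintro ⟨x, hx⟩
    rw [mem_sphere_zero_iff_norm] at hx
    obtain ⟨i, hi⟩ := Finite.exists_max fun i => a i ⬝ᵥ x.ofLp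
    have hspan := (hli i).span_eq_top_of_card_eq_finrank' (by simp)
    obtain ⟨r, hr⟩ := (Submodule.mem_span_range_iff_exists_fun ℝ).1
      (hspan ▸ Submodule.mem_top : x.ofLp ∈ _)
    have hr0 : ∀ k, 0 ≤ r k := by
      intro k
      obtain ⟨j, hj, hj'⟩ := hco i k
      have h1 := hj' r
      rw [hr] at h1
      have h2 := hi j
      by_contra hn
      push Not at hn
      nlinarith
    have hs : 0 < ∑ k, r k := by
      rcases (Finset.sum_nonneg fun k _ => hr0 k).lt_or_eq with e | e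
      · exact e
      · have := (Finset.sum_eq_zero_iff_of_nonneg fun k _ => hr0 k).1 e.symm
        have h1 : x.ofLp = 0 := by
          rw [← hr]
          exact Finset.sum_eq_zero fun k hk => by rw [this k hk, zero_smul]
        have : x = 0 := by simpa using h1
        simp [this] at hx
    let t : Fin n → ℝ := fun v => ∑ k, if f i k = v then r k / ∑ k, r k else 0
    have ht0 : ∀ v, (∀ k, f i k ≠ v) → t v = 0 := fun v hv => by simp [t, hv]
    have ht1 : ∀ k, t (f i k) = r k / ∑ k, r k := fun k => by simp [t, (hinj i).eq_iff]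
    have ht : t ∈ realization (gen f) := by
      refine (mem_real f t).2 ⟨fun v => Finset.sum_nonneg fun k _ => ?_, ?_, i, ht0⟩
      · split_ifs
        · exact div_nonneg (hr0 k) hs.le
        · exact le_rfl
      · simp only [t]
        rw [Finset.sum_comm]
        simp only [Finset.sum_ite_eq, Finset.mem_univ, if_true]
        rw [← Finset.sum_div, div_self hs.ne']
    have e1 : (WithLp.toLp 2 (π t) : EuclideanSpace ℝ (Fin d)) = (∑ k, r k)⁻¹ • x := by
      rw [hsum i t ht0]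
      have : ∑ k, t (f i k) • p (f i k) = (∑ k, r k)⁻¹ • x.ofLp := by
        rw [← hr, Finset.smul_sum]
        refine Finset.sum_congr rfl fun k _ => ?_
        rw [ht1, smul_smul, div_eq_inv_mul]
      rw [this]
      rfl
    refine ⟨⟨t, ht⟩, Subtype.ext ?_⟩
    simp only [g, e1]
    rw [norm_smul, hx, mul_one, norm_inv, inv_inv, Real.norm_of_nonneg hs.le, smul_smul,
      mul_inv_cancel₀ hs.ne', one_smul]
  have hcomp : IsCompact (realization (gen f)) := by
    have : realization (gen f) = stdSimplex ℝ (Fin n) ∩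
        ⋃ i, ⋂ v, ⋂ _ : (∀ k, f i k ≠ v), {t : Fin n → ℝ | t v = 0} := by
      ext t
      simp [mem_real, stdSimplex, and_assoc]
    rw [this]
    refine (isCompact_stdSimplex ℝ (Fin n)).inter_right (isClosed_iUnion_of_finite fun i =>
      isClosed_iInter fun v => isClosed_iInter fun _ => ?_)
    exact isClosed_eq (continuous_apply v) continuous_const
  have : CompactSpace (realization (gen f)) := isCompact_iff_compactSpace.1 hcomp
  exact ⟨Continuous.homeoOfEquivCompactToT2 (f := Equiv.ofBijective g ⟨hgi, hgs⟩) hc⟩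

/-- integer version -/
theorem polytope_sphere_int [Finite ι] [Nonempty ι] (f : ι → Fin d → Fin n)
    (p : Fin n → Fin d → ℤ) (a : ι → Fin d → ℤ) (h : ℤ) (h0 : 0 < h)
    (H0 : ∀ v, ∃ i k, f i k = v)
    (H1 : ∀ i v, a i ⬝ᵥ p v < h ∨ ∃ k, f i k = v)
    (H3 : ∀ i k, a i ⬝ᵥ p (f i k) = h)
    (H4 : ∀ i k, ∃ j, (∀ k', f j k' ≠ f i k) ∧ ∀ k', k' ≠ k → ∃ l, f j l = f i k') :
    IsSphere d (gen f) := by
  have hc : ∀ i v, (fun k => (a i k : ℝ)) ⬝ᵥ (fun k => (p v k : ℝ)) = ((a i ⬝ᵥ p v : ℤ) : ℝ) := by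
    intro i v
    simp [dotProduct]
  refine ⟨gen_complex f H0, polytope_sphere f (fun v k => p v k) (fun i k => a i k) h
    (by exact_mod_cast h0) (fun i v => ?_) (fun i v => ?_) (fun i k => ?_) fun i k => ?_⟩
  · rw [hc]
    rcases H1 i v with e | ⟨k, rfl⟩
    · exact_mod_cast e.le
    · exact_mod_cast (H3 i k).le
  · rw [hc]
    intro e
    have e' : a i ⬝ᵥ p v = h := by exact_mod_cast e
    exact (H1 i v).resolve_left (by omega)
  · rw [hc, H3]
  · obtain ⟨j, hj, hj'⟩ := H4 i k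
    refine ⟨j, ?_, fun k' hk => ?_⟩
    · rw [hc]
      exact_mod_cast (H1 j _).resolve_right fun ⟨l, e⟩ => hj l e
    · obtain ⟨l, e⟩ := hj' k' hk
      rw [hc, ← e, H3]

end Pool.Agent.H2.Sph
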