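import Pool.Agent.H2.Sph2

open MvPolynomial

namespace Pool.Agent.H2.Sph.C24

variable (K : Type) [Field K]

noncomputable abbrev J : Ideal (MvPolynomial (Fin 50) K) := colIdeal K (gen f) col

noncomputable def y (v : Fin 50) : MvPolynomial (Fin 50) K ⧸ J K := Ideal.Quotient.mk _ (X v)

variable {K}

lemma y_nonface {u v : Fin 50} (huv : u ≠ v) (h : {u, v} ∉ gen f) : y K u * y K v = 0 := by
  rw [y, y, ← map_mul, Ideal.Quotient.eq_zero_iff_mem]
  exact Ideal.mem_sup_left (Ideal.subset_span ⟨_, h, by rw [Finset.prod_pair huv]⟩)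

lemma y_theta (k : Fin 5) : ∑ v ∈ Finset.univ.filter (fun v => col v = k), y K v = 0 := by
  simp only [y]
  rw [← map_sum, Ideal.Quotient.eq_zero_iff_mem]
  exact Ideal.mem_sup_right (Ideal.subset_span ⟨k, rfl⟩)

lemma y_same {u v : Fin 50} (h : col u = col v) : y K u * y K v = 0 := by
  have h1 : ∀ u v : Fin 50, u ≠ v → col u = col v → y K u * y K v = 0 := fun u v huv e =>
    y_nonface huv fun hf => coloring u v huv hf e
  by_cases huv : u = v
  · subst huv
    have h2 := congrArg (fun z => y K u * z) (y_theta (K := K) (col u))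
    simp only [Finset.mul_sum, mul_zero] at h2
    rwa [Finset.sum_eq_single u (fun w hw e => h1 u w (Ne.symm e)
      (Finset.mem_filter.1 hw).2.symm) (by simp)] at h2
  · exact h1 u v huv h

lemma col_ap (a : Fin 24) : col (ap a) = 0 := (col_zero _).2 ⟨a, rfl⟩

lemma y_sg0 (a : Fin 24) {p : Fin 50} (h0 : col p ≠ 0) (h4 : col p ≠ 4) (h : sg a p = 0) :
    y K (ap a) * y K p = 0 := by
  refine y_nonface (fun e => h0 (e ▸ col_ap a)) ?_
  rintro ⟨i, hi⟩
  obtain ⟨k, hk⟩ := hi (ap a) (by simp)
  obtain ⟨l, hl⟩ := hi p (by simp)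
  have h1 := f_col hk
  rw [col_ap] at h1
  have h2 := sg_face i a h1
  have h3 : col p = l := by rw [← hl, col_f]
  rw [h3] at h0 h4
  rw [← hl] at h
  fin_cases l <;> simp_all

lemma y_sg (a : Fin 24) {p : Fin 50} (h0 : col p ≠ 0) (h4 : col p ≠ 4) :
    y K (ap a) * y K p = sg a p • (y K (ap a) * y K (P a (col p) 0)) := by
  by_cases e0 : p = P a (col p) 0
  · rw [sg, if_pos e0, one_smul, ← e0]
  by_cases e1 : p = P a (col p) 1
  · rw [sg, if_neg e0, if_pos e1]
    have h2 := congrArg (fun z => y K (ap a) * z) (y_theta (K := K) (col p))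
    simp only [Finset.mul_sum, mul_zero] at h2
    rw [Finset.sum_eq_add_of_mem p (P a (col p) 0) (by simp)
      (by simp [(P_spec a _ h0 h4).1]) e0] at h2
    · rw [neg_smul, one_smul]
      exact eq_neg_of_add_eq_zero_left h2
    · intro w hw e
      have hc := (Finset.mem_filter.1 hw).2
      refine y_sg0 a (hc ▸ h0) (hc ▸ h4) ?_
      rw [sg, hc, if_neg e.2, if_neg (e1 ▸ e.1)]
  · have : sg a p = 0 := by rw [sg, if_neg e0, if_neg e1]
    rw [y_sg0 a h0 h4 this, this, zero_smul]

lemma sum_ap : ∑ a, y K (ap a) = 0 := by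
  rw [← y_theta (K := K) 0]
  refine Finset.sum_bij (fun a _ => ap a) (fun a _ => by simp [col_ap]) (fun a _ b _ e => ?_)
    (fun v hv => ?_) fun _ _ => rfl
  · exact Fin.ext (by simpa [ap] using e)
  · obtain ⟨a, ha⟩ := (col_zero v).1 (Finset.mem_filter.1 hv).2
    exact ⟨a, by simp, ha⟩

lemma y_two (a : Fin 24) {p q : Fin 50} (h0 : col p ≠ 0) (h4 : col p ≠ 4) (h0' : col q ≠ 0)
    (h4' : col q ≠ 4) : y K (ap a) * y K p * y K q =
      (sg a p * sg a q) • (y K (ap a) * y K (P a (col p) 0) * y K (P a (col q) 0)) := by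
  have h1 := y_sg (K := K) a h0 h4
  have h2 := y_sg (K := K) a h0' h4'
  simp only [zsmul_eq_mul, Int.cast_mul] at h1 h2 ⊢
  linear_combination y K q * h1 + (sg a p : MvPolynomial (Fin 50) K ⧸ J K) *
    y K (P a (col p) 0) * h2

variable (K) in
noncomputable def m (l : Fin 3) (a : Fin 24) : MvPolynomial (Fin 50) K ⧸ J K :=
  y K (ap a) * y K (P a (c1 l) 0) * y K (P a (c2 l) 0)

variable (K) in
noncomputable def W : Submodule K (MvPolynomial (Fin 50) K ⧸ J K) :=
  Submodule.span K (Set.range fun x : Fin 3 × Fin 7 => m K x.1 (base x.1 x.2))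

lemma m_mem (l : Fin 3) (a : Fin 24) : m K l a ∈ W K := by
  have hc : c1 l ≠ 0 ∧ c1 l ≠ 4 ∧ c2 l ≠ 0 ∧ c2 l ≠ 4 := by revert l; decide
  induction h : rk l a using Nat.strong_induction_on generalizing a with
  | _ r ih =>
    rcases rk_spec l a with ⟨s, rfl⟩ | ⟨h1, h2, h3, h4⟩
    · exact Submodule.subset_span ⟨(l, s), rfl⟩
    have h5 : ∑ b, (sg b (E l a 0) * sg b (E l a 1)) • m K l b = 0 := by
      have := congrArg (fun z => z * y K (E l a 0) * y K (E l a 1)) (sum_ap (K := K))
      simp only [Finset.sum_mul, zero_mul] at this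
      rw [← this]
      refine Finset.sum_congr rfl fun b _ => ?_
      rw [y_two b (h1 ▸ hc.1) (h1 ▸ hc.2.1) (h2 ▸ hc.2.2.1) (h2 ▸ hc.2.2.2), h1, h2, m]
    rw [← Finset.add_sum_erase _ _ (Finset.mem_univ a), add_eq_zero_iff_eq_neg] at h5
    have h6 : (sg a (E l a 0) * sg a (E l a 1)) • m K l a ∈ W K := by
      rw [h5]
      refine neg_mem (sum_mem fun b hb => ?_)
      rcases h4 b (Finset.ne_of_mem_erase hb) with e | e
      · rw [e, zero_smul]; exact zero_mem _
      · exact zsmul_mem (ih _ (h ▸ e) b rfl) _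
    have h7 := zsmul_mem h6 (sg a (E l a 0) * sg a (E l a 1))
    rwa [smul_smul, h3, one_smul] at h7

lemma triple_mem (a : Fin 24) {p q : Fin 50} (hp : col p ≠ 4) (hq : col q ≠ 4) :
    y K (ap a) * y K p * y K q ∈ W K := by
  by_cases h0 : col p = 0
  · rw [y_same ((col_ap a).trans h0.symm), zero_mul]; exact zero_mem _
  by_cases h0' : col q = 0
  · rw [mul_right_comm, y_same ((col_ap a).trans h0'.symm), zero_mul]; exact zero_mem _
  by_cases e : col p = col q
  · rw [mul_assoc, y_same e, mul_zero]; exact zero_mem _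
  rw [y_two a h0 hp h0' hq]
  refine zsmul_mem ?_ _
  have : ∀ j k : Fin 5, j ≠ 0 → j ≠ 4 → k ≠ 0 → k ≠ 4 → j ≠ k →
      ∃ l, (c1 l = j ∧ c2 l = k) ∨ (c1 l = k ∧ c2 l = j) := by decide
  obtain ⟨l, ⟨h1, h2⟩ | ⟨h1, h2⟩⟩ := this _ _ h0 hp h0' hq e
  · rw [← h1, ← h2]; exact m_mem l a
  · rw [← h1, ← h2, mul_right_comm]; exact m_mem l a

/-- exponent vector of a facet -/
noncomputable def ind (i : Fin 384) : Fin 50 →₀ ℕ := ∑ k, Finsupp.single (f i k) 1

lemma mem_ind (i : Fin 384) (v : Fin 50) : v ∈ (ind i).support ↔ f i (col v) = v := by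
  simp only [ind, Finsupp.mem_support_iff, Finsupp.coe_finsetSum, Finset.sum_apply, ne_eq,
    Finset.sum_eq_zero_iff, Finset.mem_univ, true_imp_iff, not_forall, Finsupp.single_apply]
  constructor
  · rintro ⟨k, hk⟩
    exact f_col (k := k) (by by_contra e; simp [e] at hk)
  · intro h
    exact ⟨col v, by simp [h]⟩

variable (K) in
/-- the fundamental class -/
noncomputable def D : MvPolynomial (Fin 50) K →ₗ[K] K := ∑ i, (eps i : K) • lcoeff K (ind i)

lemma D_apply (g : MvPolynomial (Fin 50) K) : D K g = ∑ i, (eps i : K) * coeff (ind i) g := by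
  simp [D, LinearMap.sum_apply]

/-- the largest ideal in the kernel of a functional -/
def annI {R : Type} [CommRing R] [Algebra K R] (φ : R →ₗ[K] K) : Ideal R where
  carrier := {g | ∀ s, φ (g * s) = 0}
  add_mem' ha hb s := by rw [add_mul, map_add, ha s, hb s, add_zero]
  zero_mem' s := by rw [zero_mul, map_zero]
  smul_mem' c g hg s := by
    rw [smul_eq_mul, mul_comm c, mul_assoc]; exact hg _

lemma D_J {g : MvPolynomial (Fin 50) K} (hg : g ∈ J K) : D K g = 0 := by
  have : J K ≤ annI (D K) := by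
    refine sup_le (Ideal.span_le.2 ?_) (Ideal.span_le.2 ?_)
    · rintro _ ⟨F, hF, rfl⟩ s
      rw [D_apply]
      refine Finset.sum_eq_zero fun i _ => ?_
      have : ∃ v ∈ F, ∀ k, f i k ≠ v := by
        by_contra hc
        push Not at hc
        exact hF ⟨i, hc⟩
      obtain ⟨v, hv, hv'⟩ := this
      rw [← Finset.mul_prod_erase _ _ hv, mul_assoc, coeff_X_mul', if_neg, mul_zero]
      rw [mem_ind]
      exact hv' _
    · rintro _ ⟨k, rfl⟩ s
      rw [D_apply]
      have : ∀ i, coeff (ind i) (theta K col k * s) =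
          coeff (∑ l ∈ Finset.univ.erase k, Finsupp.single (f i l) 1) s := by
        intro i
        rw [theta, Finset.sum_mul, coeff_sum, Finset.sum_eq_single (f i k) ?_
          (by simp [col_f]), coeff_X_mul', if_pos ((mem_ind _ _).2 (by rw [col_f])), ind,
          ← Finset.add_sum_erase _ _ (Finset.mem_univ k), add_tsub_cancel_left]
        intro v hv e
        rw [coeff_X_mul', if_neg]
        rw [mem_ind, (Finset.mem_filter.1 hv).2]
        exact Ne.symm e
      simp only [this]
      refine Finset.sum_ninvolution (fun i => nb i k) (fun i => ?_) (fun i _ e => ?_)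
        (fun _ => Finset.mem_univ _) fun i => (nb_spec i k).2.2.1
      · rw [(nb_spec i k).2.2.2, Finset.sum_congr rfl (fun l hl => by
          rw [(nb_spec i k).2.1 l (Finset.ne_of_mem_erase hl)] :
            ∀ l ∈ Finset.univ.erase k, Finsupp.single (f (nb i k) l) 1 = Finsupp.single (f i l) 1)]
        simp
      · exact (nb_spec i k).1 (by rw [e])
  simpa using this hg 1

lemma facet_ne (i : Fin 384) : ∏ k, y K (f i k) ≠ 0 := by
  simp only [y]
  rw [← map_prod, Ne, Ideal.Quotient.eq_zero_iff_mem]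
  intro h
  have h1 := D_J h
  have h2 : ∏ k, (X (f i k) : MvPolynomial (Fin 50) K) = monomial (ind i) 1 := by
    rw [ind, monomial_sum_one]; rfl
  rw [h2, D_apply, Finset.sum_eq_single i ?_ (by simp)] at h1
  · simp only [coeff_monomial, if_true, mul_one, eps] at h1
    split_ifs at h1 <;> simp at h1
  · intro j _ e
    rw [coeff_monomial, if_neg, mul_zero]
    intro e'
    refine e (f_inj (funext fun k => ?_))
    have := (mem_ind i (f i k)).2 (by rw [col_f])
    rwa [e', mem_ind, col_f] at this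

lemma star {t : Fin 24 → K} (t0 : t 0 = 0)
    (h : ∀ p q r, y K 48 * (∑ a, t a • y K (ap a)) * (y K p * y K q * y K r) = 0) : t = 0 := by
  have key : ∀ a, a ≠ 0 → t a = t (dn a) := by
    intro a ha
    obtain ⟨h1, h2, h3, h4⟩ := par_spec a ha
    have hne : a ≠ dn a := fun e => by rw [← e] at h3; exact lt_irrefl _ h3
    set r := y K 48 * (y K (f (par a) 1) * y K (f (par a) 2) * y K (f (par a) 3)) with hr
    have hz : ∀ b, b ≠ a ∧ b ≠ dn a → y K (ap b) * r = 0 := by
      intro b hb
      rcases h4 b hb.1 hb.2 with e | e | e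
      · have := y_sg0 (K := K) b (by simp [col_f]) (by simp [col_f]) e
        rw [hr]; linear_combination (y K 48 * y K (f (par a) 2) * y K (f (par a) 3)) * this
      · have := y_sg0 (K := K) b (by simp [col_f]) (by simp [col_f]) e
        rw [hr]; linear_combination (y K 48 * y K (f (par a) 1) * y K (f (par a) 3)) * this
      · have := y_sg0 (K := K) b (by simp [col_f]) (by simp [col_f]) e
        rw [hr]; linear_combination (y K 48 * y K (f (par a) 1) * y K (f (par a) 2)) * this
    have e1 := congrArg (fun z => z * r) (sum_ap (K := K))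
    simp only [Finset.sum_mul, zero_mul] at e1
    rw [Finset.sum_eq_add_of_mem a (dn a) (by simp) (by simp) hne fun b _ hb => hz b hb] at e1
    have e2 : (∑ a, t a • y K (ap a)) * r = 0 := by
      rw [hr]; linear_combination h (f (par a) 1) (f (par a) 2) (f (par a) 3)
    simp only [Finset.sum_mul, smul_mul_assoc] at e2
    rw [Finset.sum_eq_add_of_mem a (dn a) (by simp) (by simp) hne fun b _ hb => by
      rw [hz b hb, smul_zero], eq_neg_of_add_eq_zero_right e1, smul_neg, ← sub_eq_add_neg,
      ← sub_smul] at e2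
    have e3 : y K (ap a) * r ≠ 0 := by
      have := facet_ne (K := K) (par a)
      rw [Fin.prod_univ_five, h1, h2] at this
      intro e
      apply this
      rw [hr] at e
      linear_combination e
    exact sub_eq_zero.1 ((smul_eq_zero.1 e2).resolve_right e3)
  funext a
  induction h : trk a using Nat.strong_induction_on generalizing a with
  | _ r ih =>
    by_cases ha : a = 0
    · rw [ha]; exact t0
    · rw [key a ha]
      exact ih _ (h ▸ (par_spec a ha).2.2.1) _ rfl

theorem not_maxRank (l : MvPolynomial (Fin 50) K) (hl : l.IsHomogeneous 1) :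
    ¬ MaxRank (J K) l 2 3 := by
  have hl' : l ∈ homogeneousSubmodule (Fin 50) K 1 := hl
  rw [homogeneousSubmodule_one_eq_span_X] at hl'
  obtain ⟨c, rfl⟩ := (Submodule.mem_span_range_iff_exists_fun K).1 hl'
  let π := Ideal.Quotient.mkₐ K (J K)
  have hπ : ∀ v, π (X v) = y K v := fun _ => rfl
  have hπ0 : ∀ g, π g = 0 ↔ g ∈ J K := fun g => Ideal.Quotient.eq_zero_iff_mem
  let l0 : MvPolynomial (Fin 50) K := ∑ v ∈ Finset.univ.filter (fun v => col v ≠ 4), c v • X v
  have f4 : Finset.univ.filter (fun v : Fin 50 => col v = 4) = {48, 49} := by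
    ext v; simp [col_four]
  have h49 : y K 49 = - y K 48 := by
    have := y_theta (K := K) 4
    rw [f4, Finset.sum_pair (by decide)] at this
    exact eq_neg_of_add_eq_zero_right this
  have hxx : y K 48 * y K 48 = 0 := y_same rfl
  let e : MvPolynomial (Fin 50) K ⧸ J K := π (C (c 48 - c 49))
  have hL : π (∑ v, c v • X v) = π l0 + e * y K 48 := by
    have : ∑ v, c v • X v = C (c 48) * X 48 + C (c 49) * X 49 + l0 := by
      rw [← Finset.sum_filter_add_sum_filter_not Finset.univ (fun v => col v = 4), f4,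
        Finset.sum_pair (by decide), smul_eq_C_mul, smul_eq_C_mul]
    rw [this]
    simp only [e, map_add, map_mul, map_sub, hπ, h49]
    ring
  have hW : ∀ a, y K (ap a) * π l0 * π l0 ∈ W K := by
    intro a
    simp only [l0, map_sum, map_smul, hπ, Finset.mul_sum, Finset.sum_mul, mul_smul_comm,
      smul_mul_assoc]
    exact sum_mem fun p hp => Submodule.smul_mem _ _ (sum_mem fun q hq => Submodule.smul_mem _ _
      (triple_mem a (Finset.mem_filter.1 hq).2 (Finset.mem_filter.1 hp).2))
  let T : (Fin 24 → K) →ₗ[K] W K × K :=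
    (Fintype.linearCombination K fun a => (⟨_, hW a⟩ : W K)).prod (LinearMap.proj 0)
  have : Module.Finite K (W K) := Module.Finite.span_of_finite K (Set.finite_range _)
  have hrk : Module.finrank K (W K) ≤ 21 := (finrank_range_le_card _).trans (by simp)
  obtain ⟨t, ht, ht0⟩ := Submodule.exists_mem_ne_zero_of_ne_bot
    (LinearMap.ker_ne_bot_of_finrank_lt (f := T) (by
      rw [Module.finrank_prod, Module.finrank_self, Module.finrank_fin_fun]; omega))
  have t0 : t 0 = 0 := congrArg Prod.snd ht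
  let V : MvPolynomial (Fin 50) K := ∑ a, t a • X (ap a)
  have hV : π V = ∑ a, t a • y K (ap a) := by simp only [V, map_sum, map_smul, hπ]
  have t1 : π V * π l0 * π l0 = 0 := by
    have : (Fintype.linearCombination K (fun a => (⟨_, hW a⟩ : W K)) t).1 = 0 :=
      congrArg (fun z : W K × K => z.1.1) ht
    simp only [Fintype.linearCombination_apply, Submodule.coe_sum, Submodule.coe_smul] at this
    rw [hV, Finset.sum_mul, Finset.sum_mul, ← this]
    simp only [smul_mul_assoc]
  have hX : ∀ v, (X v : MvPolynomial (Fin 50) K) ∈ homogeneousSubmodule (Fin 50) K 1 :=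
    fun v => isHomogeneous_X K v
  have hV1 : V.IsHomogeneous 1 :=
    (homogeneousSubmodule (Fin 50) K 1).sum_mem fun a _ => Submodule.smul_mem _ _ (hX _)
  have hl1 : (l0 - (c 48 - c 49) • X 48).IsHomogeneous 1 :=
    (homogeneousSubmodule (Fin 50) K 1).sub_mem
      (Submodule.sum_mem _ fun a _ => Submodule.smul_mem _ _ (hX _))
      (Submodule.smul_mem _ _ (hX _))
  have hw : π ((l0 - (c 48 - c 49) • X 48) * V) = (π l0 - e * y K 48) * π V := by
    rw [smul_eq_C_mul, map_mul, map_sub, map_mul, hπ]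
  have hLw : (π l0 + e * y K 48) * ((π l0 - e * y K 48) * π V) = 0 := by
    linear_combination t1 - e * e * π V * hxx
  intro hm
  refine ht0 (star t0 fun p q r => ?_)
  rw [← hV]
  rcases hm with hi | hs
  · have h1 := (hπ0 _).2 (hi _ (hl1.mul hV1) ((hπ0 _).1 (by rw [map_mul, hL, hw, hLw])))
    rw [hw] at h1
    have h2 := (hπ0 _).2 (hi _ ((isHomogeneous_X K 48).mul hV1) ((hπ0 _).1 (by
      rw [map_mul, hL, map_mul, hπ]
      linear_combination y K 48 * h1 + 2 * e * π V * hxx)))
    rw [map_mul, hπ] at h2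
    rw [h2, zero_mul]
  · obtain ⟨u, hu, h1⟩ := hs _ (((isHomogeneous_X K p).mul (isHomogeneous_X K q)).mul
      (isHomogeneous_X K r))
    obtain ⟨u', -, h2⟩ := hs _ ((isHomogeneous_X K 48).mul hu)
    have h3 := (hπ0 _).2 h1
    have h4 := (hπ0 _).2 h2
    simp only [map_sub, map_mul, hL, hπ] at h3 h4
    linear_combination (y K 48 * π V) * h3 + ((π l0 - e * y K 48) * π V) * h4 + π u' * hLw +
      2 * e * π V * π u * hxx

end Pool.Agent.H2.Sph.C24
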