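import Pool.Agent.H2.StairDefs

set_option autoImplicit false

namespace Pool.Agent.H2.Stair

open MeasureTheory Filter Topology ENNReal

def st (n : ℕ) : ℕ × ℕ := (n / 2 + n % 2 + 1, n / 2 + 1)

lemma st_inj : Function.Injective st := fun a b h => by
  simp only [st, Prod.mk.injEq] at h; omega

lemma fwd_st (n : ℕ) : fwd (st n) = st (n + 1) := by
  unfold fwd st; split_ifs with h <;> simp only [Prod.mk.injEq] at * <;> omega

lemma bwd_st (n : ℕ) : bwd (st (n + 1)) = st n := by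
  unfold bwd st; split_ifs with h <;> simp only [Prod.mk.injEq] at * <;> omega

lemma wt_st (n : ℕ) : wt (st n) = 1 / ((n / 2 : ℕ) + 1 : ℝ) ^ 2 := by
  unfold wt st; rw [if_pos (by simp only; omega)]; simp

lemma wt_pos (n : ℕ) : 0 < wt (st n) := by rw [wt_st]; positivity

lemma down_zero (σ a : ℝ) : down σ a (st 0) = 0 := by simp [down, st, bwd, wt]

noncomputable def ac (n : ℕ) : ℝ := wt (st (n + 1)) / (wt (st (n + 1)) + wt (st n))

lemma ac_pos (n : ℕ) : 0 < ac n := div_pos (wt_pos _) (add_pos (wt_pos _) (wt_pos _))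

lemma ac_le (n : ℕ) : ac n ≤ 1 := (div_le_one (add_pos (wt_pos _) (wt_pos _))).2
  (le_add_of_nonneg_right (wt_pos _).le)

lemma up_st (σ a : ℝ) (n : ℕ) : up σ a (st n) = pf σ a (st n) * ac n := by rw [up, fwd_st, ac]

lemma down_st (σ a : ℝ) (n : ℕ) :
    down σ a (st (n + 1)) = (1 - pf σ a (st (n + 1))) * (1 - ac n) := by
  rw [down, bwd_st, ac]
  have := wt_pos n
  have := wt_pos (n + 1)
  congr 1; field_simp; ring

lemma ac_lim : Tendsto ac atTop (𝓝 (1 / 2)) := by
  have h : Tendsto (fun n : ℕ => 1 / (((n / 2 : ℕ) : ℝ) + 1)) atTop (𝓝 0) :=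
    tendsto_one_div_add_atTop_nhds_zero_nat.comp (Nat.tendsto_div_const_atTop two_ne_zero)
  refine tendsto_of_tendsto_of_tendsto_of_le_of_le (by simpa only [sub_zero] using h.const_sub (1 / 2))
    tendsto_const_nhds (fun n => ?_) fun n => ?_
  all_goals
    simp only [ac, wt_st]
    obtain e | e : (n + 1) / 2 = n / 2 ∨ (n + 1) / 2 = n / 2 + 1 := by omega
    all_goals
      rw [e]
      have : (0 : ℝ) ≤ (n / 2 : ℕ) := by positivity
      generalize ((n / 2 : ℕ)) = j at *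
      push_cast
      field_simp
      nlinarith [sq_nonneg (j : ℝ), pow_nonneg this 3]

variable {σ a : ℝ}

lemma pf_mem (hσ : |σ| ≤ 1) (ha : 8 ≤ a) (x : ℕ × ℕ) : 0 ≤ pf σ a x ∧ pf σ a x ≤ 1 := by
  have h1 : 4 / a ≤ 1 / 2 := by rw [div_le_iff₀ (by linarith)]; linarith
  have h2 : 0 ≤ 4 / a := by positivity
  rw [abs_le] at hσ
  unfold pf; split_ifs <;> constructor <;> nlinarith

lemma rates (hσ : |σ| ≤ 1) (ha : 8 ≤ a) (n : ℕ) : 0 ≤ up σ a (st n) ∧ 0 ≤ down σ a (st n) ∧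
    0 ≤ 1 - up σ a (st n) - down σ a (st n) := by
  have := pf_mem hσ ha (st n)
  have h1 := ac_pos n
  have h2 := ac_le n
  rw [up_st]
  cases n with
  | zero => rw [down_zero]; exact ⟨by nlinarith, le_rfl, by nlinarith⟩
  | succ n =>
    have := ac_pos n
    have := ac_le n
    rw [down_st]; exact ⟨by nlinarith, by nlinarith, by nlinarith⟩

/-- kernel on indices -/
noncomputable def kk (σ a : ℝ) (m n : ℕ) : ℝ≥0∞ := ENNReal.ofReal (ker σ a (st m) (st n))

noncomputable def ev (σ a : ℝ) (ν : ℕ → ℝ≥0∞) (n : ℕ) : ℝ≥0∞ := ∑' m, ν m * kk σ a m n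

lemma ker_st (σ a : ℝ) (m : ℕ) (y : ℕ × ℕ) : ker σ a (st m) y =
    (if y = st (m + 1) then up σ a (st m) else 0) + (if y = st (m - 1) then down σ a (st m) else 0) +
      (if y = st m then 1 - up σ a (st m) - down σ a (st m) else 0) := by
  cases m with
  | zero => simp [ker, fwd_st, down_zero]
  | succ m => simp [ker, fwd_st, bwd_st]

lemma kk_sum (hσ : |σ| ≤ 1) (ha : 8 ≤ a) (m : ℕ) {H : ℕ → ℝ} (hH : ∀ n, 0 ≤ H n) :
    ∑' n, kk σ a m n * ENNReal.ofReal (H n) = ENNReal.ofReal (up σ a (st m) * H (m + 1) +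
      down σ a (st m) * H (m - 1) + (1 - up σ a (st m) - down σ a (st m)) * H m) := by
  obtain ⟨h1, h2, h3⟩ := rates hσ ha m
  have e : ∀ n, kk σ a m n * ENNReal.ofReal (H n) =
      (if n = m + 1 then ENNReal.ofReal (up σ a (st m) * H (m + 1)) else 0) +
      (if n = m - 1 then ENNReal.ofReal (down σ a (st m) * H (m - 1)) else 0) +
      (if n = m then ENNReal.ofReal ((1 - up σ a (st m) - down σ a (st m)) * H m) else 0) := by
    intro n
    rw [kk, ker_st, ofReal_add (by positivity) (by positivity), ofReal_add (by positivity) (by positivity),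
      add_mul, add_mul]
    simp only [st_inj.eq_iff]
    congr 1
    · congr 1 <;> split_ifs with c <;> simp [c, ofReal_mul, h1, h2]
    · split_ifs with c <;> simp [c, ofReal_mul, h3]
  have := hH (m + 1)
  have := hH (m - 1)
  have := hH m
  simp only [e, ENNReal.tsum_add, tsum_ite_eq]
  rw [ofReal_add (by positivity) (by positivity), ofReal_add (by positivity) (by positivity)]

lemma ev_pair (ν h : ℕ → ℝ≥0∞) : ∑' n, ev σ a ν n * h n = ∑' m, ν m * ∑' n, kk σ a m n * h n := by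
  simp only [ev, ← ENNReal.tsum_mul_right, ← ENNReal.tsum_mul_left, mul_assoc]
  exact ENNReal.tsum_comm

lemma ev_mass (hσ : |σ| ≤ 1) (ha : 8 ≤ a) (ν : ℕ → ℝ≥0∞) : ∑' n, ev σ a ν n = ∑' n, ν n := by
  have := ev_pair (σ := σ) (a := a) ν fun _ => ENNReal.ofReal 1
  simpa [kk_sum hσ ha _ (H := fun _ => 1) fun _ => zero_le_one, -ofReal_one] using
    (by simpa only [ofReal_one, mul_one] using this : ∑' n, ev σ a ν n = _).trans
      (tsum_congr fun m => by
        have := kk_sum hσ ha m (H := fun _ => 1) fun _ => zero_le_one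
        simp only [ofReal_one, mul_one] at this
        rw [this, show up σ a (st m) + down σ a (st m) + (1 - up σ a (st m) - down σ a (st m)) = 1 by
          ring, ofReal_one, mul_one])

lemma iter_mass (hσ : |σ| ≤ 1) (ha : 8 ≤ a) (ν : ℕ → ℝ≥0∞) (k : ℕ) :
    ∑' n, (ev σ a)^[k] ν n = ∑' n, ν n := by
  induction k with
  | zero => rfl
  | succ k ih => rw [Function.iterate_succ_apply', ev_mass hσ ha, ih]

lemma marg (hσ : |σ| ≤ 1) {a : ℕ → ℝ} {Ω : Type} [MeasurableSpace Ω] {P : Measure Ω}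
    {X : ℕ → Ω → ℕ × ℕ} (h : IsWalk σ a P X) :
    (∀ t y, y ∉ Set.range st → P {ω | X t ω = y} = 0) ∧
    (∀ n, P {ω | X 0 ω = st n} = if n = 0 then 1 else 0) ∧
    ∀ t n, P {ω | X (t + 1) ω = st n} = ev σ (a (t + 1)) (fun m => P {ω | X t ω = st m}) n := by
  obtain ⟨_, h1, h2, h3⟩ := h
  have m : ∀ t y, MeasurableSet {ω | X t ω = y} := fun t y => h1 t (measurableSet_singleton y)
  have e : ∀ t y, P {ω | X (t + 1) ω = y} =
      ∑' x, P {ω | X t ω = x} * ENNReal.ofReal (ker σ (a (t + 1)) x y) := fun t y => by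
    simp only [← h3]
    rw [← measure_iUnion (f := fun x => {ω | X t ω = x ∧ X (t + 1) ω = y})
      (fun x x' c => Set.disjoint_left.2 fun ω a b => c (a.1.symm.trans b.1))
      fun x => (m t x).inter (m _ y)]
    congr 1; ext ω; simp
  have z : ∀ y, y ≠ (1, 1) → P {ω | X 0 ω = y} = 0 := fun y hy =>
    measure_mono_null (fun ω a b => hy (a.symm.trans b)) ((prob_compl_eq_zero_iff (m 0 _)).2 h2)
  have o : ∀ t y, y ∉ Set.range st → P {ω | X t ω = y} = 0 := by
    intro t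
    induction t with
    | zero => exact fun y hy => z y fun c => hy ⟨0, c.symm⟩
    | succ t ih =>
      intro y hy
      rw [e, ENNReal.tsum_eq_zero]
      intro x
      by_cases c : x ∈ Set.range st
      · obtain ⟨n, rfl⟩ := c
        have : ∀ k, y ≠ st k := fun k c => hy ⟨k, c.symm⟩
        simp [ker_st, this]
      · simp [ih x c]
  refine ⟨o, fun n => ?_, fun t n => ?_⟩
  · split_ifs with c
    · rw [c]; exact h2
    · exact z _ fun c' => c (st_inj c')
  · rw [e, ev, ← st_inj.tsum_eq (f := fun x => P {ω | X t ω = x} *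
      ENNReal.ofReal (ker σ (a (t + 1)) x (st n))) fun x hx => by
        by_contra c
        exact hx (by simp [o t x c])]
    rfl

lemma lyap (ha : 8 ≤ a) : ∃ H g : ℕ → ℝ, (∀ n, 0 ≤ H n) ∧ (∀ n, H n ≤ H 0) ∧ (∀ n, 0 < g n) ∧
    Tendsto H atTop (𝓝 0) ∧ ∀ m, up 1 a (st m) * H (m + 1) + down 1 a (st m) * H (m - 1) +
      (1 - up 1 a (st m) - down 1 a (st m)) * H m + g m = H m := by
  have p : ∀ x, pf 1 a x = 1 / 2 + 4 / a := fun x => by simp [pf]
  have b0 : 0 < 4 / a := by positivity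
  have u0 : ∀ n, 0 < up 1 a (st n) := fun n => by
    rw [up_st, p]; exact mul_pos (by linarith) (ac_pos n)
  set q : ℕ → ℝ := fun n => down 1 a (st (n + 1)) / up 1 a (st (n + 1)) with hq
  have q0 : ∀ n, 0 ≤ q n := fun n => div_nonneg (rates (by simp) ha _).2.1 (u0 _).le
  set θ := (1 - (1 / 2 + 4 / a)) * (1 - 1 / 2) / ((1 / 2 + 4 / a) * (1 / 2)) with hθ
  have θ1 : θ < 1 := (div_lt_one (by positivity)).2 (by linarith)
  have ql : Tendsto q atTop (𝓝 θ) := by
    simp only [hq, up_st, down_st, p]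
    exact ((ac_lim.const_sub 1).const_mul _).div ((ac_lim.comp (tendsto_add_atTop_nat 1)).const_mul _)
      (by positivity)
  set D : ℕ → ℝ := fun n => ∏ i ∈ Finset.range n, (q i + (1 - θ) / 2) with hD
  have D0 : ∀ n, 0 < D n := fun n => Finset.prod_pos fun i _ => by linarith [q0 i]
  have Ds : ∀ n, D (n + 1) = D n * (q n + (1 - θ) / 2) := fun n => Finset.prod_range_succ _ _
  have sm : Summable D := by
    refine summable_of_ratio_norm_eventually_le (r := (3 + θ) / 4) (by linarith) ?_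
    filter_upwards [ql.eventually (gt_mem_nhds (show θ < θ + (1 - θ) / 4 by linarith))] with n hn
    rw [Real.norm_of_nonneg (D0 _).le, Real.norm_of_nonneg (D0 _).le, Ds, mul_comm]
    exact mul_le_mul_of_nonneg_right (by linarith) (D0 _).le
  set H : ℕ → ℝ := fun n => ∑' i, D (i + n) with hH
  have Hs : ∀ n, H n = D n + H (n + 1) := fun n => by
    simp only [hH]
    rw [((summable_nat_add_iff n).2 sm).tsum_eq_zero_add, zero_add]
    simp only [add_assoc, add_comm 1 n]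
  refine ⟨H, fun m => up 1 a (st m) * D m - down 1 a (st m) * (H (m - 1) - H m),
    fun n => tsum_nonneg fun i => (D0 _).le,
    fun n => antitone_nat_of_succ_le (fun n => by linarith [Hs n, D0 n]) n.zero_le, fun m => ?_,
    tendsto_sum_nat_add D, fun m => by linear_combination (-up 1 a (st m)) * Hs m⟩
  cases m with
  | zero => simpa using mul_pos (u0 0) (D0 0)
  | succ m =>
    simp only [Nat.add_sub_cancel]
    rw [Hs m, Ds, add_sub_cancel_right]
    have : down 1 a (st (m + 1)) = q m * up 1 a (st (m + 1)) := (div_mul_cancel₀ _ (u0 _).ne').symm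
    rw [this]
    nlinarith [mul_pos (u0 (m + 1)) (mul_pos (D0 m) (sub_pos.2 θ1))]

lemma green (ha : 8 ≤ a) : ∃ H : ℕ → ℝ, (∀ n, H n ≤ H 0) ∧ Tendsto H atTop (𝓝 0) ∧
    ∀ x, ∃ C : ℝ≥0∞, C ≠ ⊤ ∧ ∀ ν : ℕ → ℝ≥0∞,
      ∑' k, (ev 1 a)^[k] ν x ≤ C * ∑' n, ν n * ENNReal.ofReal (H n) := by
  obtain ⟨H, g, h0, h1, h2, h3, h4⟩ := lyap ha
  refine ⟨H, h1, h3, fun x => ⟨(ENNReal.ofReal (g x))⁻¹, by simpa using h2 x, fun ν => ?_⟩⟩
  have s : ∀ ν : ℕ → ℝ≥0∞, ν x * ENNReal.ofReal (g x) + ∑' n, ev 1 a ν n * ENNReal.ofReal (H n) ≤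
      ∑' n, ν n * ENNReal.ofReal (H n) := fun ν => by
    rw [ev_pair]
    refine (add_le_add_left (ENNReal.le_tsum (f := fun n => ν n * ENNReal.ofReal (g n)) x) _).trans ?_
    rw [← ENNReal.tsum_add]
    refine le_of_eq (tsum_congr fun m => ?_)
    obtain ⟨r1, r2, r3⟩ := rates (σ := 1) (by simp) ha m
    have := h0 (m + 1)
    have := h0 (m - 1)
    have := h0 m
    rw [kk_sum (by simp) ha m h0, ← mul_add, ← ofReal_add (h2 m).le (by positivity), add_comm, h4]
  have s2 : ∀ K, ∑ k ∈ Finset.range K, (ev 1 a)^[k] ν x * ENNReal.ofReal (g x) +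
      ∑' n, (ev 1 a)^[K] ν n * ENNReal.ofReal (H n) ≤ ∑' n, ν n * ENNReal.ofReal (H n) := by
    intro K
    induction K with
    | zero => simp
    | succ K ih =>
      rw [Finset.sum_range_succ, add_assoc, Function.iterate_succ_apply']
      exact (add_le_add_right (s _) _).trans ih
  rw [mul_comm, ← div_eq_mul_inv, ENNReal.le_div_iff_mul_le (.inl (by simpa using h2 x)) (.inl (by simp)),
    ← ENNReal.tsum_mul_right]
  exact ENNReal.tsum_le_of_sum_range_le fun K => le_self_add.trans (s2 K)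

lemma green_fin (ha : 8 ≤ a) {ν : ℕ → ℝ≥0∞} (hν : ∑' n, ν n ≤ 1) (x : ℕ) :
    ∑' k, (ev 1 a)^[k] ν x ≠ ⊤ := by
  obtain ⟨H, h1, -, h3⟩ := green ha
  obtain ⟨C, hC, h⟩ := h3 x
  refine ne_top_of_le_ne_top (mul_ne_top hC (ne_top_of_le_ne_top (b := 1 * ENNReal.ofReal (H 0))
    (by simp) ?_)) (h ν)
  refine le_trans (ENNReal.tsum_le_tsum fun n => mul_le_mul_right (ofReal_le_ofReal (h1 n)) _) ?_
  rw [ENNReal.tsum_mul_right]
  exact mul_le_mul_left hν _

lemma epoch {b : ℝ} (ha : 8 ≤ a) (hb : 8 ≤ b) {ν : ℕ → ℝ≥0∞} (hν : ∑' n, ν n ≤ 1) (m : ℕ)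
    {ε : ℝ≥0∞} (hε : 0 < ε) : ∃ N, 0 < N ∧ ∀ x ≤ m, ∑' k, (ev 1 b)^[k] ((ev 1 a)^[N] ν) x ≤ ε := by
  obtain ⟨H, h1, h2, h3⟩ := green hb
  have l : Tendsto (fun N => ∑' n, (ev 1 a)^[N] ν n * ENNReal.ofReal (H n)) atTop (𝓝 0) := by
    refine ENNReal.tendsto_nhds_zero.2 fun δ hδ => ?_
    have hδ2 := ENNReal.half_pos hδ.ne'
    obtain ⟨M, hM⟩ := eventually_atTop.1 (ENNReal.tendsto_nhds_zero.1
      (by simpa using ENNReal.tendsto_ofReal h2) _ hδ2)
    have : Tendsto (fun N => ∑ n ∈ Finset.range M, (ev 1 a)^[N] ν n * ENNReal.ofReal (H n)) atTop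
        (𝓝 0) := by
      simpa using tendsto_finsetSum (Finset.range M) fun n _ => ENNReal.Tendsto.mul_const
        (b := ENNReal.ofReal (H n)) (ENNReal.tendsto_atTop_zero_of_tsum_ne_top (green_fin ha hν n))
        (.inr ofReal_ne_top)
    filter_upwards [ENNReal.tendsto_nhds_zero.1 this _ hδ2] with N hN
    rw [← ENNReal.sum_add_tsum_compl (Finset.range M), ← ENNReal.add_halves δ]
    refine add_le_add hN (le_trans (ENNReal.tsum_le_tsum fun n =>
      mul_le_mul_right (hM n (by simpa using n.2)) _) ?_)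
    rw [ENNReal.tsum_mul_right]
    refine mul_le_of_le_one_left' (le_trans ?_ ((iter_mass (σ := 1) (by simp) ha ν N).trans_le hν))
    exact ENNReal.tsum_comp_le_tsum_of_injective Subtype.val_injective _
  refine ((eventually_gt_atTop 0).and ((eventually_all_finite (Set.finite_Iic m)).2 fun x _ => ?_)).exists
  obtain ⟨C, hC, h⟩ := h3 x
  filter_upwards [ENNReal.tendsto_nhds_zero.1
    (by simpa using ENNReal.Tendsto.const_mul l (.inr hC)) ε hε] with N hN
  exact (h _).trans hN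

theorem exists_seq : ∃ a, Adm a ∧ ∀ μ : ℕ → ℕ → ℝ≥0∞, (∀ n, μ 0 n = if n = 0 then 1 else 0) →
    (∀ t, μ (t + 1) = ev 1 (a (t + 1)) (μ t)) → ∀ x, ∑' t, μ t x ≠ ⊤ := by
  have b8 : ∀ k : ℕ, (8 : ℝ) ≤ 8 + k := fun k => le_add_of_nonneg_right k.cast_nonneg
  choose! N N0 hN using fun (k : ℕ) (ν : ℕ → ℝ≥0∞) (hν : ∑' n, ν n ≤ 1) =>
    epoch (b8 k) (b8 (k + 1)) hν k (ENNReal.pow_pos (ENNReal.inv_pos.2 ofNat_ne_top : (0 : ℝ≥0∞) < 2⁻¹) k)
  let ν : ℕ → ℕ → ℝ≥0∞ := fun k => Nat.rec (fun n => if n = 0 then 1 else 0)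
    (fun k ν => (ev 1 (8 + k))^[N k ν] ν) k
  have νs : ∀ k, ν (k + 1) = (ev 1 (8 + k))^[N k (ν k)] (ν k) := fun k => rfl
  have ν1 : ∀ k, ∑' n, ν k n ≤ 1 := fun k => by
    induction k with
    | zero => exact (tsum_ite_eq 0 _).le
    | succ k ih => rw [νs, iter_mass (by simp) (b8 k)]; exact ih
  let s : ℕ → ℕ × ℕ := fun t => Nat.rec (0, 0)
    (fun _ p => if p.2 + 1 < N p.1 (ν p.1) then (p.1, p.2 + 1) else (p.1 + 1, 0)) t
  have ss : ∀ t, s (t + 1) =
      if (s t).2 + 1 < N (s t).1 (ν (s t).1) then ((s t).1, (s t).2 + 1) else ((s t).1 + 1, 0) :=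
    fun t => rfl
  have s1 : ∀ t, (s t).2 < N (s t).1 (ν (s t).1) := fun t => by
    cases t with
    | zero => exact N0 0 _ (ν1 0)
    | succ t => rw [ss]; split_ifs with c; exacts [c, N0 _ _ (ν1 ((s t).1 + 1))]
  have sm : StrictMono fun t => toLex (s t) := strictMono_nat_of_lt_succ fun t => by
    rw [ss]; split_ifs <;> simp [Prod.Lex.toLex_lt_toLex]
  have si : Function.Injective s := fun a b h => sm.injective (congrArg toLex h)
  have mono : Monotone fun t => (s t).1 := monotone_nat_of_le_succ fun t => by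
    rw [ss]; split_ifs <;> simp
  have unb : ∀ k, ∃ t, k ≤ (s t).1 := fun k => by
    by_contra! c
    refine Set.infinite_range_of_injective si (((Finset.range k).sigma fun j =>
      Finset.range (N j (ν j))).finite_toSet.image (fun p => (p.1, p.2)) |>.subset ?_)
    rintro _ ⟨t, rfl⟩
    exact ⟨⟨(s t).1, (s t).2⟩, by simp [c t, s1 t], rfl⟩
  refine ⟨fun t => 8 + ((s (t - 1)).1 : ℝ), ⟨fun t t' h => by
    simpa using mono (Nat.sub_le_sub_right h 1), fun t => b8 _, tendsto_atTop_add_const_left _ _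
      (tendsto_natCast_atTop_atTop.comp ((tendsto_atTop_atTop_of_monotone mono unb).comp
        (tendsto_sub_atTop_nat 1)))⟩, fun μ h0 h1 x => ?_⟩
  have e : ∀ t, μ t = (ev 1 (8 + ((s t).1 : ℝ)))^[(s t).2] (ν (s t).1) := fun t => by
    induction t with
    | zero => exact funext h0
    | succ t ih =>
      rw [h1]
      simp only [Nat.add_sub_cancel]
      rw [ss, ih, ← Function.iterate_succ_apply' (ev 1 _)]
      split_ifs with c
      · rfl
      · have := s1 t
        rw [show (s t).2.succ = N (s t).1 (ν (s t).1) by omega]; rfl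
  simp only [e]
  refine ne_top_of_le_ne_top ?_ (ENNReal.tsum_comp_le_tsum_of_injective si
    fun p => (ev 1 (8 + (p.1 : ℝ)))^[p.2] (ν p.1) x)
  rw [ENNReal.tsum_prod', ← Summable.sum_add_tsum_nat_add' (k := x + 1) ENNReal.summable]
  · refine add_ne_top.2 ⟨(ENNReal.sum_lt_top.2 fun k _ => (green_fin (b8 k) (ν1 k) x).lt_top).ne,
      ne_top_of_le_ne_top (b := ∑' k : ℕ, 2⁻¹ ^ k) (by simp) (ENNReal.tsum_le_tsum fun k => ?_)⟩
    refine (hN (k + x) _ (ν1 _) x (by omega)).trans ?_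
    exact pow_le_pow_right_of_le_one' (by simp) (by omega)

lemma ev_stat (ha : 8 ≤ a) {ν : ℕ → ℝ≥0∞} (h : ∀ n, ν n ≤ ENNReal.ofReal (wt (st n))) (n : ℕ) :
    ev (-1) a ν n ≤ ENNReal.ofReal (wt (st n)) := by
  have bal : ∀ m, wt (st m) * up (-1) a (st m) = wt (st (m + 1)) * down (-1) a (st (m + 1)) := by
    intro m
    have e : 1 - pf (-1) a (st (m + 1)) = pf (-1) a (st m) := by
      unfold pf st
      split_ifs <;> simp only at * <;> first | omega | ring
    have := wt_pos m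
    have := wt_pos (m + 1)
    rw [up_st, down_st, e, ac]; field_simp; ring
  have sym : ∀ m, ENNReal.ofReal (wt (st m)) * kk (-1) a m n =
      ENNReal.ofReal (wt (st n)) * (kk (-1) a n m * ENNReal.ofReal 1) := fun m => by
    rw [ofReal_one, mul_one, kk, kk, ← ofReal_mul (wt_pos _).le, ← ofReal_mul (wt_pos _).le]
    congr 1
    simp only [ker_st, st_inj.eq_iff]
    rcases lt_trichotomy m n with c | rfl | c
    · obtain ⟨n, rfl⟩ : ∃ k, n = k + 1 := ⟨n - 1, by omega⟩
      by_cases c2 : m = n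
      · subst c2; simp [bal, show m + 1 ≠ m - 1 by omega, show m ≠ m + 1 + 1 by omega]
      · simp [c2, Ne.symm c2, c.ne, c.ne', show n + 1 ≠ m - 1 by omega, show m ≠ n + 1 + 1 by omega]
    · rfl
    · obtain ⟨m, rfl⟩ : ∃ k, m = k + 1 := ⟨m - 1, by omega⟩
      by_cases c2 : n = m
      · subst c2; simp [bal, show n + 1 ≠ n - 1 by omega, show n ≠ n + 1 + 1 by omega]
      · simp [c2, Ne.symm c2, c.ne, c.ne', show m + 1 ≠ n - 1 by omega, show n ≠ m + 1 + 1 by omega]
  refine (ENNReal.tsum_le_tsum fun m => (mul_le_mul_left (h m) _).trans_eq (sym m)).trans_eq ?_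
  rw [ENNReal.tsum_mul_left, kk_sum (by simp) ha n fun _ => zero_le_one]
  simp

end Pool.Agent.H2.Stair
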