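import Mathlib

set_option autoImplicit false

namespace Pool.Agent.H2.Stair

open MeasureTheory Filter

/-- unnormalised weight of the target measure -/
noncomputable def wt (x : ℕ × ℕ) : ℝ :=
  if 1 ≤ x.2 ∧ (x.1 = x.2 ∨ x.1 = x.2 + 1) then 1 / (x.2 : ℝ) ^ 2 else 0

/-- forward neighbour -/
def fwd (x : ℕ × ℕ) : ℕ × ℕ := if x.1 = x.2 then (x.1 + 1, x.2) else (x.1, x.2 + 1)

/-- backward neighbour -/
def bwd (x : ℕ × ℕ) : ℕ × ℕ := if x.1 = x.2 then (x.1, x.2 - 1) else (x.1 - 1, x.2)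

/-- probability of proposing the forward neighbour -/
noncomputable def pf (σ a : ℝ) (x : ℕ × ℕ) : ℝ :=
  if x.1 = x.2 then 1 / 2 + 4 / a else 1 / 2 + σ * (4 / a)

/-- probability of moving forward -/
noncomputable def up (σ a : ℝ) (x : ℕ × ℕ) : ℝ := pf σ a x * (wt (fwd x) / (wt (fwd x) + wt x))

/-- probability of moving backward -/
noncomputable def down (σ a : ℝ) (x : ℕ × ℕ) : ℝ :=
  (1 - pf σ a x) * (wt (bwd x) / (wt (bwd x) + wt x))

/-- transition probability -/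
noncomputable def ker (σ a : ℝ) (x y : ℕ × ℕ) : ℝ :=
  (if y = fwd x then up σ a x else 0) + (if y = bwd x then down σ a x else 0) +
    (if y = x then 1 - up σ a x - down σ a x else 0)

/-- admissible parameter sequences (only `a t`, `t ≥ 1`, is used) -/
def Adm (a : ℕ → ℝ) : Prop := Monotone a ∧ (∀ t, 8 ≤ a t) ∧ Tendsto a atTop atTop

/-- a process started at `(1,1)` whose step `t + 1` has transition probabilities `ker σ (a (t+1))` -/
def IsWalk (σ : ℝ) (a : ℕ → ℝ) {Ω : Type} [MeasurableSpace Ω] (P : Measure Ω)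
    (X : ℕ → Ω → ℕ × ℕ) : Prop :=
  IsProbabilityMeasure P ∧ (∀ t, Measurable (X t)) ∧ P {ω | X 0 ω = (1, 1)} = 1 ∧
    ∀ t x y, P {ω | X t ω = x ∧ X (t + 1) ω = y} =
      P {ω | X t ω = x} * ENNReal.ofReal (ker σ (a (t + 1)) x y)

end Pool.Agent.H2.Stair
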