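import Pool.Agent.H2.TokenDefs

namespace Pool.Agent.H2.Token

open Finset

variable {V : Type} [DecidableEq V] (G : SimpleGraph V)

/-- colours on the tokens sitting in `R` -/
def cols (A : List V → ℕ) (R : Finset V) : List V → Finset ℕ
  | [] => ∅
  | v :: l => if v ∈ R then insert (A (v :: l)) (cols A R l) else cols A R l

lemma mem_cols (A : List V → ℕ) (R : Finset V) (l : List V) (c : ℕ) :
    c ∈ cols A R l ↔ ∃ i : ℕ, ∃ hi : i < l.length, l[i] ∈ R ∧ c = A (l.drop i) := by
  induction l with
  | nil => simp [cols]
  | cons v l ih =>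
    constructor
    · intro h
      unfold cols at h
      split_ifs at h with hv
      · rcases mem_insert.1 h with h | h
        · exact ⟨0, by simp, by simpa using hv, by simpa using h⟩
        · obtain ⟨i, hi, h1, h2⟩ := ih.1 h
          exact ⟨i+1, by simpa using hi, by simpa using h1, by simpa using h2⟩
      · obtain ⟨i, hi, h1, h2⟩ := ih.1 h
        exact ⟨i+1, by simpa using hi, by simpa using h1, by simpa using h2⟩
    · rintro ⟨i, hi, h1, h2⟩
      unfold cols
      cases i with
      | zero =>
        have hv : v ∈ R := by simpa using h1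
        rw [if_pos hv]
        exact mem_insert.2 (Or.inl (by simpa using h2))
      | succ i =>
        have : c ∈ cols A R l := ih.2 ⟨i, by simpa using hi, by simpa using h1, by simpa using h2⟩
        split_ifs
        · exact mem_insert_of_mem this
        · exact this

lemma cols_cons_mono (A : List V → ℕ) (R : Finset V) (v : V) (l : List V) :
    cols A R l ⊆ cols A R (v :: l) := by
  intro c hc
  conv => rhs; skip
  unfold cols
  split_ifs
  · exact mem_insert_of_mem hc
  · exact hc

lemma cols_append_mono (A : List V → ℕ) (R : Finset V) (m l : List V) :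
    cols A R l ⊆ cols A R (m ++ l) := by
  induction m with
  | nil => simp
  | cons v m ih => exact ih.trans (cols_cons_mono A R v (m ++ l))

lemma cols_mono (A : List V → ℕ) {R S : Finset V} (h : R ⊆ S) (l : List V) :
    cols A R l ⊆ cols A S l := by
  intro c hc
  obtain ⟨i, hi, h1, h2⟩ := (mem_cols A R l c).1 hc
  exact (mem_cols A S l c).2 ⟨i, hi, h h1, h2⟩

variable {G}

lemma card_cols_le {w N : ℕ} {A : List V → ℕ} (hW : Wins G w A N) {l : List V}
    (hl : (tokenGraph G l).Colorable w) (R : Finset V) : (cols A R l).card ≤ N := by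
  refine le_trans (card_le_card ?_) (hW l hl).2
  intro c hc
  obtain ⟨i, hi, -, h2⟩ := (mem_cols A R l c).1 hc
  exact mem_image.2 ⟨⟨i, hi⟩, mem_univ _, h2.symm⟩

lemma new_not_mem {w N : ℕ} {A : List V → ℕ} (hW : Wins G w A N) {v : V} {l : List V}
    (hl : (tokenGraph G (v :: l)).Colorable w) (R : Finset V)
    (hR : ∀ u ∈ R, v = u ∨ G.Adj v u) : A (v :: l) ∉ cols A R l := by
  intro hc
  obtain ⟨i, hi, h1, h2⟩ := (mem_cols A R l _).1 hc
  refine (hW _ hl).1 ⟨0, by simp⟩ ⟨i+1, by simpa using hi⟩ ⟨?_, ?_⟩ ?_
  · intro h
    have := congrArg Fin.val h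
    simp at this
  · simpa using hR _ h1
  · simpa [colour] using h2

omit [DecidableEq V] in
lemma count_drop_lt [DecidableEq V] (l : List V) (i j : ℕ) (hj : j < l.length) (hij : i < j) :
    (l.drop (j+1)).count l[j] < (l.drop (i+1)).count l[j] := by
  have h1 : l.drop j = l[j] :: l.drop (j+1) := by simp
  have h2 : (l.drop j).Sublist (l.drop (i+1)) := by
    have : l.drop j = (l.drop (i+1)).drop (j - (i+1)) := by
      rw [List.drop_drop]; congr 1; omega
    rw [this]; exact List.drop_sublist _ _
  have h3 := h2.count_le l[j]
  have h4 : (l.drop j).count l[j] = (l.drop (j+1)).count l[j] + 1 := by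
    rw [h1, List.count_cons_self]
  omega

lemma colorable_of {w h : ℕ} (hw : 2 * h ≤ w) (l : List V) (σ : V → Bool)
    (hσ : ∀ u ∈ l, ∀ v ∈ l, G.Adj u v → σ u ≠ σ v) (hc : ∀ v, l.count v ≤ h) :
    (tokenGraph G l).Colorable w := by
  have key : ∀ i : Fin l.length, (l.drop (i+1)).count (l.get i) < h := by
    intro i
    have h1 : l.drop i = l[i.val] :: l.drop (i+1) := by simp
    have h2 := (List.drop_sublist i l).count_le l[i.val]
    have h4 : (l.drop i).count l[i.val] = (l.drop (i+1)).count l[i.val] + 1 := by
      rw [h1, List.count_cons_self]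
    have := hc l[i.val]
    simp only [List.get_eq_getElem]
    omega
  let C : (tokenGraph G l).Coloring (Bool × Fin h) :=
    SimpleGraph.Coloring.mk (fun i => (σ (l.get i), ⟨_, key i⟩)) (by
      rintro i j ⟨hij, h | h⟩ he
      · have he2 := congrArg (fun p => p.2.val) he
        simp only at he2
        rcases lt_or_gt_of_ne (Fin.val_ne_of_ne hij) with hlt | hlt
        · have := count_drop_lt l i j j.2 hlt
          simp only [List.get_eq_getElem] at h he2
          rw [h] at he2
          omega
        · have := count_drop_lt l j i i.2 hlt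
          simp only [List.get_eq_getElem] at h he2
          rw [← h] at he2
          omega
      · exact hσ _ (List.get_mem _ _) _ (List.get_mem _ _) h (congrArg Prod.fst he))
  refine C.colorable.mono ?_
  simpa using hw

end Pool.Agent.H2.Token
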