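import Pool.Agent.H2.Token1

namespace Pool.Agent.H2.Token

open Finset

variable {V : Type} [DecidableEq V] {G : SimpleGraph V}

def Proper (G : SimpleGraph V) (σ : V → Bool) (l : List V) : Prop :=
  ∀ u ∈ l, ∀ v ∈ l, G.Adj u v → σ u ≠ σ v

lemma count_batch {h k : ℕ} (hk : k ≤ h) {l : List V} {v : V} (hv : v ∉ l)
    (hc : ∀ u, l.count u ≤ h) (u : V) : (List.replicate k v ++ l).count u ≤ h := by
  rw [List.count_append, List.count_replicate]
  by_cases huv : v = u
  · subst huv
    rw [List.count_eq_zero_of_not_mem hv]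
    simpa using hk
  · have := hc u
    simpa [huv] using this

lemma batch {w N h : ℕ} {A : List V → ℕ} (hW : Wins G w A N) (hw : 2 * h ≤ w) {l : List V}
    {v : V} (hv : v ∉ l) (hc : ∀ u, l.count u ≤ h) {σ : V → Bool} (hσ : Proper G σ (v :: l))
    (R : Finset V) (hR : ∀ u ∈ R, G.Adj v u) (k : ℕ) (hk : k ≤ h) :
    k ≤ (cols A {v} (List.replicate k v ++ l)).card ∧
      Disjoint (cols A {v} (List.replicate k v ++ l)) (cols A R l) := by
  induction k with
  | zero =>
    refine ⟨Nat.zero_le _, ?_⟩
    rw [Finset.disjoint_left]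
    intro c hc1 _
    obtain ⟨i, hi, h1, -⟩ := (mem_cols A _ _ c).1 hc1
    simp only [List.replicate_zero, List.nil_append, mem_singleton] at h1 hi
    exact hv (h1 ▸ List.getElem_mem _)
  | succ k ih =>
    obtain ⟨ih1, ih2⟩ := ih (by omega)
    have hleg : (tokenGraph G (v :: (List.replicate k v ++ l))).Colorable w := by
      refine colorable_of hw _ σ ?_ (count_batch hk hv hc)
      intro a ha b hb
      refine hσ a ?_ b ?_
      · simp only [List.mem_cons, List.mem_append, List.mem_replicate] at ha ⊢
        tauto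
      · simp only [List.mem_cons, List.mem_append, List.mem_replicate] at hb ⊢
        tauto
    have h1 := new_not_mem hW hleg {v} (by intro u hu; left; exact (mem_singleton.1 hu).symm)
    have h2 := new_not_mem hW hleg R (by intro u hu; right; exact hR u hu)
    have e : cols A {v} (List.replicate (k+1) v ++ l) =
        insert (A (v :: (List.replicate k v ++ l))) (cols A {v} (List.replicate k v ++ l)) := by
      rw [List.replicate_succ, List.cons_append, cols, if_pos (mem_singleton_self v)]
    rw [e]
    refine ⟨by rw [card_insert_of_notMem h1]; omega, ?_⟩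
    rw [Finset.disjoint_insert_left]
    exact ⟨fun hc' => h2 (cols_append_mono A R _ l hc'), ih2⟩

def steps : ℕ → ℕ
  | 0 => 1
  | j+1 => 2 * steps j + 1

lemma count_ineq {U1 U2 W : Finset ℕ} {h s : ℕ} (h1 : s ≤ 2 * U1.card) (h2 : s ≤ 2 * U2.card)
    (hW : h ≤ W.card) (hd : Disjoint W U1) (hu : 2 * (U1 ∪ U2).card < s + h) :
    s + h ≤ 2 * (W ∪ U2).card := by
  have e1 := Finset.card_union_add_card_inter W U2
  have e2 : (W ∩ U2).card ≤ (U2 \ U1).card := by
    refine card_le_card ?_
    intro c hc
    rw [mem_inter] at hc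
    exact mem_sdiff.2 ⟨hc.2, fun h' => (Finset.disjoint_left.1 hd) hc.1 h'⟩
  have e3 := Finset.card_sdiff_add_card U2 U1
  rw [union_comm] at e3
  omega

theorem claim {w N h T : ℕ} {A : List V → ℕ} (hW : Wins G w A N) (hw : 2 * h ≤ w)
    (Low : ℕ → V → Prop) (hmono : ∀ s t u, s ≤ t → Low s u → Low t u)
    (hext : ∀ t < T, ∀ R : Finset V, ∃ v, ¬ Low t v ∧ Low (t+1) v ∧
      ∀ u, Low t u → (G.Adj v u ↔ u ∈ R)) (j : ℕ) :
    ∀ (t : ℕ) (l : List V) (σ : V → Bool), t + steps j ≤ T → (∀ u ∈ l, Low t u) →
      (∀ u, l.count u ≤ h) → Proper G σ l →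
      ∃ (m : List V) (R : Finset V) (σ' : V → Bool),
        (∀ u ∈ m, ¬ Low t u ∧ Low (t + steps j) u) ∧ (∀ u, (m ++ l).count u ≤ h) ∧
        Proper G σ' (m ++ l) ∧ (∀ u ∈ l, σ' u = σ u) ∧ (∀ u ∈ R, u ∈ m ∧ σ' u = true) ∧
        (∀ u ∈ m, ∀ v ∈ l, ¬ G.Adj u v) ∧ (j+1) * h ≤ 2 * (cols A R (m ++ l)).card := by
  induction j with
  | zero =>
    intro t l σ ht hl hc hσ
    simp only [steps] at ht ⊢
    obtain ⟨v, hv1, hv2, hv3⟩ := hext t (by omega) ∅
    have hvl : v ∉ l := fun h' => hv1 (hl v h')
    have hna : ∀ u ∈ l, ¬ G.Adj v u := fun u hu h' => by simpa using (hv3 u (hl u hu)).1 h'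
    let σ' : V → Bool := fun u => if u = v then true else σ u
    have hs : ∀ u ∈ l, σ' u = σ u := fun u hu => if_neg (fun h' : u = v => hvl (h' ▸ hu))
    have hp : Proper G σ' (v :: l) := by
      intro a ha b hb hab
      replace ha := List.mem_cons.1 ha
      replace hb := List.mem_cons.1 hb
      rcases ha with rfl | ha <;> rcases hb with rfl | hb
      · exact absurd hab (G.irrefl)
      · exact absurd hab (hna b hb)
      · exact absurd hab.symm (hna a ha)
      · rw [hs a ha, hs b hb]; exact hσ a ha b hb hab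
    have hb := batch hW hw hvl hc hp ∅ (by simp) h le_rfl
    by_cases hh : h = 0
    · exact ⟨[], ∅, σ, by simp, by simpa using hc, by simpa using hσ, by simp, by simp, by simp,
        by simp [hh]⟩
    refine ⟨List.replicate h v, {v}, σ', ?_, count_batch le_rfl hvl hc, ?_, hs, ?_, ?_, ?_⟩
    · intro u hu
      rw [(List.mem_replicate.1 hu).2]; exact ⟨hv1, hv2⟩
    · intro a ha b hb
      refine hp a ?_ b ?_
      · simp only [List.mem_cons, List.mem_append, List.mem_replicate] at ha ⊢
        tauto
      · simp only [List.mem_cons, List.mem_append, List.mem_replicate] at hb ⊢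
        tauto
    · intro u hu
      rw [mem_singleton.1 hu]
      exact ⟨List.mem_replicate.2 ⟨hh, rfl⟩, by simp [σ']⟩
    · intro u hu
      rw [(List.mem_replicate.1 hu).2]; exact hna
    · have := hb.1
      omega
  | succ j ih =>
    intro t l σ ht hl hc hσ
    simp only [steps] at ht ⊢
    obtain ⟨m1, R1, σ1, a1, b1, c1, d1, e1, f1, g1⟩ := ih t l σ (by omega) hl hc hσ
    have hl1 : ∀ u ∈ m1 ++ l, Low (t + steps j) u := by
      intro u hu
      rcases List.mem_append.1 hu with hu | hu
      · exact (a1 u hu).2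
      · exact hmono _ _ _ (by omega) (hl u hu)
    obtain ⟨m2, R2, σ2, a2, b2, c2, d2, e2, f2, g2⟩ :=
      ih (t + steps j) (m1 ++ l) σ1 (by omega) hl1 b1 c1
    have g1' : (j+1) * h ≤ 2 * (cols A R1 (m2 ++ (m1 ++ l))).card :=
      g1.trans (Nat.mul_le_mul_left _ (card_le_card (cols_append_mono A R1 m2 _)))
    have hlow : ∀ u ∈ m2 ++ m1, ¬ Low t u ∧ Low (t + steps j + steps j) u := by
      intro u hu
      rcases List.mem_append.1 hu with hu | hu
      · exact ⟨fun h' => (a2 u hu).1 (hmono _ _ _ (by omega) h'), (a2 u hu).2⟩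
      · exact ⟨(a1 u hu).1, hmono _ _ _ (by omega) (a1 u hu).2⟩
    have hna : ∀ u ∈ m2 ++ m1, ∀ v ∈ l, ¬ G.Adj u v := by
      intro u hu v hv
      rcases List.mem_append.1 hu with hu | hu
      · exact f2 u hu v (List.mem_append_right _ hv)
      · exact f1 u hu v hv
    by_cases hcase : (j+1) * h + h ≤
        2 * (cols A R1 (m2 ++ (m1 ++ l)) ∪ cols A R2 (m2 ++ (m1 ++ l))).card
    · refine ⟨m2 ++ m1, R1 ∪ R2, σ2, ?_, by rw [List.append_assoc]; exact b2,
        by rw [List.append_assoc]; exact c2, ?_, ?_, hna, ?_⟩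
      · intro u hu
        exact ⟨(hlow u hu).1, hmono _ _ _ (by omega) (hlow u hu).2⟩
      · intro u hu
        rw [d2 u (List.mem_append_right _ hu), d1 u hu]
      · intro u hu
        rcases mem_union.1 hu with hu | hu
        · exact ⟨List.mem_append_right _ (e1 u hu).1, by
            rw [d2 u (List.mem_append_left _ (e1 u hu).1), (e1 u hu).2]⟩
        · exact ⟨List.mem_append_left _ (e2 u hu).1, (e2 u hu).2⟩
      · rw [List.append_assoc]
        have : cols A R1 (m2 ++ (m1 ++ l)) ∪ cols A R2 (m2 ++ (m1 ++ l)) ⊆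
            cols A (R1 ∪ R2) (m2 ++ (m1 ++ l)) :=
          union_subset (cols_mono A subset_union_left _) (cols_mono A subset_union_right _)
        have := card_le_card this
        nlinarith
    · obtain ⟨v, hv1, hv2, hv3⟩ := hext (t + steps j + steps j) (by omega) R1
      have hl2 : ∀ u ∈ m2 ++ (m1 ++ l), Low (t + steps j + steps j) u := by
        intro u hu
        rcases List.mem_append.1 hu with hu | hu
        · exact (a2 u hu).2
        · exact hmono _ _ _ (by omega) (hl1 u hu)
      have hvl : v ∉ m2 ++ (m1 ++ l) := fun h' => hv1 (hl2 v h')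
      let σ' : V → Bool := fun u => if u = v then true else if u ∈ m1 then !σ2 u else σ2 u
      have hsv : σ' v = true := by simp [σ']
      have hs1 : ∀ u ∈ m1, σ' u = !σ2 u := by
        intro u hu
        have : u ≠ v := fun h' => hvl (h' ▸ List.mem_append_right _ (List.mem_append_left _ hu))
        simp [σ', this, hu]
      have hs2 : ∀ u ∈ m2 ++ (m1 ++ l), u ∉ m1 → σ' u = σ2 u := by
        intro u hu hu1
        have : u ≠ v := fun h' => hvl (h' ▸ hu)
        simp [σ', this, hu1]
      have hsep : ∀ a ∈ m1, ∀ b ∈ m2 ++ (m1 ++ l), b ∉ m1 → ¬ G.Adj a b := by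
        intro a ha b hb hb1 hab
        rcases List.mem_append.1 hb with hb | hb
        · exact f2 b hb a (List.mem_append_left _ ha) hab.symm
        · rcases List.mem_append.1 hb with hb | hb
          · exact hb1 hb
          · exact f1 a ha b hb hab
      have hvadj : ∀ b ∈ m2 ++ (m1 ++ l), G.Adj v b → σ' b = false := by
        intro b hb hab
        have hbR := (hv3 b (hl2 b hb)).1 hab
        rw [hs1 b (e1 b hbR).1, d2 b (List.mem_append_left _ (e1 b hbR).1), (e1 b hbR).2]
        rfl
      have hp : Proper G σ' (v :: (m2 ++ (m1 ++ l))) := by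
        intro a ha b hb hab
        replace ha := List.mem_cons.1 ha
        replace hb := List.mem_cons.1 hb
        rcases ha with rfl | ha <;> rcases hb with rfl | hb
        · exact absurd hab (G.irrefl)
        · rw [hsv, hvadj b hb hab]; simp
        · rw [hsv, hvadj a ha hab.symm]; simp
        · by_cases ha1 : a ∈ m1 <;> by_cases hb1 : b ∈ m1
          · rw [hs1 a ha1, hs1 b hb1]
            have := c2 a ha b hb hab
            simpa using this
          · exact absurd hab (hsep a ha1 b hb hb1)
          · exact absurd hab.symm (hsep b hb1 a ha ha1)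
          · rw [hs2 a ha ha1, hs2 b hb hb1]; exact c2 a ha b hb hab
      have hR1 : ∀ u ∈ R1, G.Adj v u := fun u hu =>
        (hv3 u (hl2 u (List.mem_append_right _ (List.mem_append_left _ (e1 u hu).1)))).2 hu
      have hb := batch hW hw hvl b2 hp R1 hR1 h le_rfl
      have hh : h ≠ 0 := by
        rintro rfl
        simp at hcase
      have eapp : List.replicate h v ++ (m2 ++ m1) ++ l =
          List.replicate h v ++ (m2 ++ (m1 ++ l)) := by simp only [List.append_assoc]
      refine ⟨List.replicate h v ++ (m2 ++ m1), {v} ∪ R2, σ', ?_, ?_, ?_, ?_, ?_, ?_, ?_⟩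
      · intro u hu
        rcases List.mem_append.1 hu with hu | hu
        · rw [(List.mem_replicate.1 hu).2]
          exact ⟨fun h' => hv1 (hmono _ _ _ (by omega) h'), hmono _ _ _ (by omega) hv2⟩
        · exact ⟨(hlow u hu).1, hmono _ _ _ (by omega) (hlow u hu).2⟩
      · rw [eapp]; exact count_batch le_rfl hvl b2
      · rw [eapp]
        intro a ha b hb
        refine hp a ?_ b ?_
        · rcases List.mem_append.1 ha with ha | ha
          · rw [(List.mem_replicate.1 ha).2]; exact List.mem_cons_self
          · exact List.mem_cons_of_mem _ ha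
        · rcases List.mem_append.1 hb with hb | hb
          · rw [(List.mem_replicate.1 hb).2]; exact List.mem_cons_self
          · exact List.mem_cons_of_mem _ hb
      · intro u hu
        have hu1 : u ∉ m1 := fun h' => (a1 u h').1 (hl u hu)
        rw [hs2 u (List.mem_append_right _ (List.mem_append_right _ hu)) hu1,
          d2 u (List.mem_append_right _ hu), d1 u hu]
      · intro u hu
        rcases mem_union.1 hu with hu | hu
        · rw [mem_singleton.1 hu]
          exact ⟨List.mem_append_left _ (List.mem_replicate.2 ⟨hh, rfl⟩), hsv⟩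
        · have hu2 := (e2 u hu).1
          have hu1 : u ∉ m1 := fun h' => (a2 u hu2).1 (a1 u h').2
          exact ⟨List.mem_append_right _ (List.mem_append_left _ hu2), by
            rw [hs2 u (List.mem_append_left _ hu2) hu1, (e2 u hu).2]⟩
      · intro u hu x hx
        rcases List.mem_append.1 hu with hu | hu
        · rw [(List.mem_replicate.1 hu).2]
          intro hab
          have hxR := (hv3 x (hmono _ _ _ (by omega) (hl x hx))).1 hab
          exact (a1 x (e1 x hxR).1).1 (hl x hx)
        · exact hna u hu x hx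
      · rw [eapp]
        have h1 := count_ineq g1' g2 hb.1 hb.2 (by omega)
        have : cols A {v} (List.replicate h v ++ (m2 ++ (m1 ++ l))) ∪
            cols A R2 (m2 ++ (m1 ++ l)) ⊆
            cols A ({v} ∪ R2) (List.replicate h v ++ (m2 ++ (m1 ++ l))) :=
          union_subset (cols_mono A subset_union_left _)
            ((cols_append_mono A R2 _ _).trans (cols_mono A subset_union_right _))
        have := card_le_card this
        nlinarith

end Pool.Agent.H2.Token
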