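import Pool.Agent.H2.Token2

namespace Pool.Agent.H2.Token

open Finset

/-- the bit graph on `Fin B` -/
def bitGraph (B : ℕ) : SimpleGraph (Fin B) where
  Adj u v := (u < v ∧ v.val.testBit u.val) ∨ (v < u ∧ u.val.testBit v.val)
  symm := ⟨fun _ _ h => h.symm⟩
  loopless := ⟨fun _ h => by rcases h with h | h <;> exact lt_irrefl _ h.1⟩

def tower : ℕ → ℕ
  | 0 => 0
  | t+1 => 2 ^ (tower t + 1)

lemma tower_mono : Monotone tower := by
  refine monotone_nat_of_le_succ fun t => ?_
  have : tower t + 1 < 2 ^ (tower t + 1) := Nat.lt_two_pow_self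
  simp only [tower]; omega

lemma bit_ext (T : ℕ) : ∀ t < T, ∀ R : Finset (Fin (tower T)), ∃ v : Fin (tower T),
    ¬ v.val < tower t ∧ v.val < tower (t+1) ∧
      ∀ u : Fin (tower T), u.val < tower t → ((bitGraph (tower T)).Adj v u ↔ u ∈ R) := by
  intro t ht R
  let f : Fin (tower t) → Bool := fun i => decide (∃ u ∈ R, u.val = i.val)
  have hlt : Nat.ofBits f < 2 ^ tower t := Nat.ofBits_lt_two_pow f
  have h1 : 2 ^ tower t + Nat.ofBits f < tower (t+1) := by
    simp only [tower]; rw [pow_succ]; omega
  have h2 : tower (t+1) ≤ tower T := tower_mono ht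
  have h3 : tower t < 2 ^ tower t := Nat.lt_two_pow_self
  refine ⟨⟨2 ^ tower t + Nat.ofBits f, by omega⟩, by simp only; omega, h1, ?_⟩
  intro u hu
  have hb : (2 ^ tower t + Nat.ofBits f).testBit u.val = decide (∃ x ∈ R, x.val = u.val) := by
    rw [Nat.testBit_two_pow_add_gt hu, Nat.testBit_ofBits_lt _ _ hu]
  constructor
  · rintro (⟨h, -⟩ | ⟨-, h⟩)
    · exfalso
      have : 2 ^ tower t + Nat.ofBits f < u.val := h
      omega
    · simp only at h
      rw [hb] at h
      obtain ⟨x, hx, hxu⟩ := of_decide_eq_true h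
      exact (Fin.ext hxu) ▸ hx
  · intro h
    right
    refine ⟨?_, ?_⟩
    · show u.val < 2 ^ tower t + Nat.ofBits f
      omega
    · simp only
      rw [hb]
      exact decide_eq_true ⟨u, h, rfl⟩

lemma wins_exists {V : Type} [Fintype V] [DecidableEq V] (G : SimpleGraph V) (w : ℕ) :
    Wins G w (fun l => l.length) (Fintype.card V * w) := by
  intro l hl
  refine ⟨?_, ?_⟩
  · intro i j hij he
    simp only [colour, List.length_drop] at he
    have := Fin.val_ne_of_ne hij.1
    omega
  · obtain ⟨C⟩ := hl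
    refine le_trans card_image_le ?_
    have hinj : Function.Injective (fun i : Fin l.length => (l.get i, C i)) := by
      intro i j he
      by_contra hne
      exact C.valid (show (tokenGraph G l).Adj i j from ⟨hne, Or.inl (congrArg Prod.fst he)⟩)
        (congrArg Prod.snd he)
    have := Fintype.card_le_of_injective _ hinj
    simpa using this

theorem lower (j w : ℕ) :
    (j+1) * (w / 2) ≤ 2 * value (bitGraph (tower (steps j))) w := by
  have hne : {N | ∃ A, Wins (bitGraph (tower (steps j))) w A N}.Nonempty :=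
    ⟨_, _, wins_exists _ w⟩
  obtain ⟨A, hA⟩ := Nat.sInf_mem hne
  have hw : 2 * (w / 2) ≤ w := by omega
  obtain ⟨m, R, σ, -, b, c, -, -, -, g⟩ := claim hA hw (fun t u => u.val < tower t)
    (fun s t u hst hu => lt_of_lt_of_le hu (tower_mono hst)) (bit_ext (steps j)) j 0 []
    (fun _ => true) (by simp) (by simp) (by simp) (by simp [Proper])
  have := card_cols_le hA (colorable_of hw _ σ c b) R
  unfold value
  omega

end Pool.Agent.H2.Token
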