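import Mathlib

namespace Pool.Agent.H2.Token

/-- A position of the game is the list `l` of the vertices of `G` on which the tokens were
placed, most recent token first.  The token graph: tokens are the positions of the list, two
distinct tokens are adjacent when they sit on the same vertex or on adjacent vertices. -/
def tokenGraph {V : Type} (G : SimpleGraph V) (l : List V) : SimpleGraph (Fin l.length) where
  Adj i j := i ≠ j ∧ (l.get i = l.get j ∨ G.Adj (l.get i) (l.get j))
  symm := ⟨fun _ _ h => ⟨h.1.symm, h.2.imp Eq.symm (fun a => a.symm)⟩⟩
  loopless := ⟨fun _ h => h.1 rfl⟩

/-- A strategy of Algorithm is a map `A` giving, for each history `l` (most recent token first),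
the colour `A l` of the most recent token (earlier colours are determined by `A` and `l`).
The colour of token `i` in the position `l` is the one it got when it was placed, that is
when the history was `l.drop i`. -/
def colour {V : Type} (A : List V → ℕ) (l : List V) (i : Fin l.length) : ℕ := A (l.drop i)

/-- The strategy `A` never uses more than `N` colours and keeps the colouring proper, in
every position Spoiler may reach (those whose token graph has chromatic number at most `w`;
all earlier positions of such a play have it too, being induced subgraphs). -/
def Wins {V : Type} (G : SimpleGraph V) (w : ℕ) (A : List V → ℕ) (N : ℕ) : Prop :=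
  ∀ l : List V, (tokenGraph G l).Colorable w →
    (∀ i j, (tokenGraph G l).Adj i j → colour A l i ≠ colour A l j) ∧
      (Finset.univ.image (colour A l)).card ≤ N

/-- The value `f(w,G)`: the least `N` such that Algorithm has a strategy using at most `N`
colours. -/
noncomputable def value {V : Type} (G : SimpleGraph V) (w : ℕ) : ℕ :=
  sInf {N | ∃ A : List V → ℕ, Wins G w A N}

end Pool.Agent.H2.Token
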