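import Mathlib

set_option autoImplicit false

open Filter Topology Set

namespace Pool.Agent.H2.Tori

lemma exists_line {E : Type*} [NormedAddCommGroup E] [NormedSpace ℝ E] [FiniteDimensional ℝ E]
    (C : AddSubgroup E) (hC : IsClosed (C : Set E)) (W : Submodule ℝ E)
    (h : ∀ δ : ℝ, 0 < δ → ∃ w ∈ C, w ∈ W ∧ w ≠ 0 ∧ ‖w‖ < δ) :
    ∃ v ∈ W, v ≠ 0 ∧ ∀ t : ℝ, t • v ∈ C := by
  choose w hwC hwW hw0 hwδ using fun n : ℕ => h (1 / ((n:ℝ) + 1)) (by positivity)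
  have hpos : ∀ n, 0 < ‖w n‖ := fun n => norm_pos_iff.2 (hw0 n)
  have hu : ∀ n, ‖w n‖⁻¹ • w n ∈ Metric.sphere (0:E) 1 := fun n => by
    simp [norm_smul, (hpos n).ne']
  obtain ⟨v, hv, φ, hφ, hlim⟩ := (isCompact_sphere (0:E) 1).tendsto_subseq hu
  have hn0 : Tendsto (fun n => ‖w (φ n)‖) atTop (𝓝 0) :=
    (squeeze_zero (fun n => norm_nonneg _) (fun n => (hwδ n).le)
      tendsto_one_div_add_atTop_nhds_zero_nat).comp hφ.tendsto_atTop
  refine ⟨v, ?_, ?_, fun t => ?_⟩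
  · exact W.closed_of_finiteDimensional.mem_of_tendsto hlim
      (Eventually.of_forall fun n => W.smul_mem _ (hwW _))
  · rintro rfl; simp at hv
  · have h1 : Tendsto (fun n => (⌊t / ‖w (φ n)‖⌋ : ℝ) * ‖w (φ n)‖) atTop (𝓝 t) := by
      have lo : Tendsto (fun n => t - ‖w (φ n)‖) atTop (𝓝 t) := by simpa using hn0.const_sub t
      refine tendsto_of_tendsto_of_tendsto_of_le_of_le lo tendsto_const_nhds (fun n => ?_)
        (fun n => ?_)
      · have a := (Int.sub_one_lt_floor (t / ‖w (φ n)‖)).le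
        have := mul_le_mul_of_nonneg_right a (hpos (φ n)).le
        rwa [sub_mul, div_mul_cancel₀ _ (hpos _).ne', one_mul] at this
      · have a := Int.floor_le (t / ‖w (φ n)‖)
        have := mul_le_mul_of_nonneg_right a (hpos (φ n)).le
        rwa [div_mul_cancel₀ _ (hpos _).ne'] at this
    refine hC.mem_of_tendsto (h1.smul hlim) (Eventually.of_forall fun n => ?_)
    have : ((⌊t / ‖w (φ n)‖⌋ : ℝ) * ‖w (φ n)‖) • ((fun n => ‖w n‖⁻¹ • w n) ∘ φ) n =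
        ⌊t / ‖w (φ n)‖⌋ • w (φ n) := by
      simp only [Function.comp_apply, smul_smul]
      rw [mul_assoc, mul_inv_cancel₀ (hpos _).ne', mul_one, Int.cast_smul_eq_zsmul]
    rw [this]
    exact C.zsmul_mem (hwC _) _

lemma dirichlet (κ : Fin 3 → Fin 3 → ℝ) {δ : ℝ} (hδ : 0 < δ) :
    ∃ q : ℕ, 1 ≤ q ∧ ∃ n : Fin 3 → Fin 3 → ℤ,
      ‖(fun a b => (n a b : ℝ)) - (q:ℝ) • κ‖ < δ := by
  have hu : ∀ q : ℕ, (fun a b => Int.fract ((q:ℝ) * κ a b)) ∈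
      Metric.closedBall (0 : Fin 3 → Fin 3 → ℝ) 1 := fun q => by
    rw [mem_closedBall_zero_iff, pi_norm_le_iff_of_nonneg zero_le_one]
    intro a
    rw [pi_norm_le_iff_of_nonneg zero_le_one]
    intro b
    rw [Real.norm_of_nonneg (Int.fract_nonneg _)]
    exact (Int.fract_lt_one _).le
  obtain ⟨v, -, φ, hφ, hlim⟩ := (isCompact_closedBall (0 : Fin 3 → Fin 3 → ℝ) 1).tendsto_subseq hu
  obtain ⟨N, hN⟩ := Metric.cauchySeq_iff.1 hlim.cauchySeq δ hδ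
  have h1 := hN N le_rfl (N+1) (Nat.le_succ N)
  have h2 : φ N < φ (N+1) := hφ (Nat.lt_succ_self N)
  refine ⟨φ (N+1) - φ N, by omega,
    fun a b => ⌊(φ (N+1) : ℝ) * κ a b⌋ - ⌊(φ N : ℝ) * κ a b⌋, ?_⟩
  rw [dist_eq_norm] at h1
  refine lt_of_eq_of_lt (congrArg _ ?_) h1
  funext a b
  simp only [Pi.sub_apply, Pi.smul_apply, smul_eq_mul, Function.comp_apply, Int.fract,
    Nat.cast_sub h2.le]
  push_cast
  ring

/-- exponent pattern: symmetric upper block, free last row -/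
def Nmap {R : Type*} (m : Fin 3 → Fin 3 → R) : Fin 4 → Fin 3 → R :=
  ![![m 0 0, m 0 1, m 0 2], ![m 0 1, m 1 1, m 1 2], ![m 0 2, m 1 2, m 2 2], ![m 1 0, m 2 0, m 2 1]]

lemma Nmap_cast (n : Fin 3 → Fin 3 → ℤ) (k : Fin 4) (i : Fin 3) :
    Nmap (fun a b => (n a b : ℝ)) k i = (Nmap n k i : ℤ) := by
  fin_cases k <;> fin_cases i <;> simp [Nmap]

lemma Nmap_add {R : Type*} [Add R] (m n : Fin 3 → Fin 3 → R) (k : Fin 4) (i : Fin 3) :
    Nmap (m + n) k i = Nmap m k i + Nmap n k i := by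
  fin_cases k <;> fin_cases i <;> simp [Nmap]

lemma Nmap_smul (c : ℝ) (m : Fin 3 → Fin 3 → ℝ) (k : Fin 4) (i : Fin 3) :
    Nmap (c • m) k i = c * Nmap m k i := by
  fin_cases k <;> fin_cases i <;> simp [Nmap]

noncomputable def phi (ℓ : Fin 4 → Fin 3 → ℝ) :
    (Fin 3 → Fin 3 → ℝ) →ₗ[ℝ] (Fin 3 → Fin 3 → ℝ) where
  toFun m := fun i j => ∑ k, Nmap m k i * ℓ k j
  map_add' m n := by
    funext i j
    simp [Nmap_add, add_mul, Finset.sum_add_distrib]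
  map_smul' c m := by
    funext i j
    simp [Nmap_smul, Finset.mul_sum, mul_assoc]

noncomputable def psi (y : Fin 3 → ℤ) (k : Fin 4) : (Fin 3 → Fin 3 → ℝ) →ₗ[ℝ] ℝ where
  toFun m := ∑ i, (y i : ℝ) * Nmap m k i
  map_add' m n := by simp [Nmap_add, mul_add, Finset.sum_add_distrib]
  map_smul' c m := by simp [Nmap_smul, Finset.mul_sum, mul_left_comm]

lemma sum_phi (ℓ : Fin 4 → Fin 3 → ℝ) (y : Fin 3 → ℤ) (m : Fin 3 → Fin 3 → ℝ) (j : Fin 3) :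
    ∑ i, (y i : ℝ) * phi ℓ m i j = ∑ k, psi y k m * ℓ k j := by
  simp only [phi, psi, LinearMap.coe_mk, AddHom.coe_mk, Finset.mul_sum, Finset.sum_mul]
  rw [Finset.sum_comm]
  simp [mul_assoc]

lemma exists_xi (ℓ : Fin 4 → Fin 3 → ℝ) :
    ∃ ξ : Fin 4 → ℝ, ξ ≠ 0 ∧ ∀ j, ∑ k, ξ k * ℓ k j = 0 := by
  have h : ¬ LinearIndependent ℝ ℓ := fun h => by
    have := h.fintype_card_le_finrank
    simp at this
  rw [Fintype.not_linearIndependent_iff] at h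
  obtain ⟨g, hg, i, hi⟩ := h
  refine ⟨g, fun h => hi (by simp [h]), fun j => ?_⟩
  simpa using congrFun hg j

lemma phi_not_surj (ℓ : Fin 4 → Fin 3 → ℝ) : ¬ Function.Surjective (phi ℓ) := by
  intro hs
  have hi := LinearMap.injective_iff_surjective.2 hs
  obtain ⟨ξ, hξ, h0⟩ := exists_xi ℓ
  have key : ∀ y : Fin 3 → ℝ, ξ 0 * y 1 = ξ 1 * y 0 → ξ 0 * y 2 = ξ 2 * y 0 →
      ξ 1 * y 2 = ξ 2 * y 1 → ∀ k i, ξ k * y i = 0 := by
    intro y h01 h02 h12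
    set κ : Fin 3 → Fin 3 → ℝ := ![![ξ 0 * y 0, ξ 0 * y 1, ξ 0 * y 2],
      ![ξ 3 * y 0, ξ 1 * y 1, ξ 1 * y 2], ![ξ 3 * y 1, ξ 3 * y 2, ξ 2 * y 2]] with hκ
    have hN : ∀ k i, Nmap κ k i = ξ k * y i := by
      intro k i
      fin_cases k <;> fin_cases i <;> simp [Nmap, hκ, h01, h02, h12]
    have : phi ℓ κ = phi ℓ 0 := by
      rw [map_zero]
      funext i j
      simp only [phi, LinearMap.coe_mk, AddHom.coe_mk, hN, Pi.zero_apply]
      have := congrArg (y i * ·) (h0 j)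
      simp only [Finset.mul_sum, mul_zero] at this
      rw [← this]
      exact Finset.sum_congr rfl fun k _ => by ring
    intro k i
    rw [← hN, hi this]
    fin_cases k <;> fin_cases i <;> simp [Nmap]
  have k1 := key ![ξ 0, ξ 1, ξ 2] (by simp [mul_comm]) (by simp [mul_comm]) (by simp [mul_comm])
  have z0 : ξ 0 = 0 := by simpa using k1 0 0
  have z1 : ξ 1 = 0 := by simpa using k1 1 1
  have z2 : ξ 2 = 0 := by simpa using k1 2 2
  have z3 : ξ 3 = 0 := by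
    simpa using key ![1, 1, 1] (by simp [z0, z1]) (by simp [z0, z2]) (by simp [z1, z2]) 3 0
  apply hξ
  funext k
  fin_cases k <;> simp [z0, z1, z2, z3]

lemma exists_kappa (ξ : Fin 4 → ℝ) (Y : Set (Fin 3 → ℤ)) {y0 : Fin 3 → ℤ} (hy : y0 ∈ Y)
    (h0 : y0 ≠ 0) : ∃ (κ : Fin 3 → Fin 3 → ℝ) (lam : (Fin 3 → ℤ) → ℝ),
      (∀ y ∈ Y, ∀ k, psi y k κ = lam y * ξ k) ∧ ∃ y ∈ Y, lam y ≠ 0 := by
  by_cases h : ∃ y ∈ Y, (y 0 : ℝ) * ξ 0 + y 1 * ξ 1 + y 2 * ξ 2 ≠ 0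
  · refine ⟨![![ξ 0 * ξ 0, ξ 0 * ξ 1, ξ 0 * ξ 2],
      ![ξ 3 * ξ 0, ξ 1 * ξ 1, ξ 1 * ξ 2], ![ξ 3 * ξ 1, ξ 3 * ξ 2, ξ 2 * ξ 2]],
      fun y => (y 0 : ℝ) * ξ 0 + y 1 * ξ 1 + y 2 * ξ 2, fun y _ k => ?_, h⟩
    fin_cases k <;> simp [psi, Nmap, Fin.sum_univ_three] <;> ring
  · push Not at h
    refine ⟨![![2 * ξ 0 * y0 0, ξ 0 * y0 1 + ξ 1 * y0 0, ξ 0 * y0 2 + ξ 2 * y0 0],
      ![ξ 3 * y0 0, 2 * ξ 1 * y0 1, ξ 1 * y0 2 + ξ 2 * y0 1],
      ![ξ 3 * y0 1, ξ 3 * y0 2, 2 * ξ 2 * y0 2]],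
      fun y => (y 0 : ℝ) * y0 0 + y 1 * y0 1 + y 2 * y0 2, fun y hy k => ?_, y0, hy, ?_⟩
    · have := h y hy
      fin_cases k <;> simp [psi, Nmap, Fin.sum_univ_three]
      · linear_combination (y0 0 : ℝ) * this
      · linear_combination (y0 1 : ℝ) * this
      · linear_combination (y0 2 : ℝ) * this
      · ring
    · intro hz
      apply h0
      have b0 := mul_self_nonneg ((y0 0 : ℤ) : ℝ)
      have b1 := mul_self_nonneg ((y0 1 : ℤ) : ℝ)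
      have b2 := mul_self_nonneg ((y0 2 : ℤ) : ℝ)
      beta_reduce at hz
      have a0 : ((y0 0 : ℤ) : ℝ) = 0 := mul_self_eq_zero.1 (by linarith)
      have a1 : ((y0 1 : ℤ) : ℝ) = 0 := mul_self_eq_zero.1 (by linarith)
      have a2 : ((y0 2 : ℤ) : ℝ) = 0 := mul_self_eq_zero.1 (by linarith)
      funext i
      fin_cases i
      · exact_mod_cast a0
      · exact_mod_cast a1
      · exact_mod_cast a2

theorem main_linear (ℓ : Fin 4 → Fin 3 → ℝ)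
    (hind : ∀ m : Fin 4 → ℤ, (∀ j, ∑ k, (m k : ℝ) * ℓ k j = 0) → m = 0)
    (C : AddSubgroup (Fin 3 → Fin 3 → ℝ)) (hC : IsClosed (C : Set (Fin 3 → Fin 3 → ℝ)))
    (hint : ∀ n : Fin 3 → Fin 3 → ℤ, phi ℓ (fun a b => (n a b : ℝ)) ∈ C)
    (hran : ∀ x ∈ C, x ∈ LinearMap.range (phi ℓ))
    (H : Submodule ℝ (Fin 3 → Fin 3 → ℝ)) (hHC : ∀ x ∈ H, x ∈ C)
    (hline : ∀ v, (∀ t : ℝ, t • v ∈ C) → v ∈ H)
    (hcol : ∀ x ∈ H, ∀ l j : Fin 3, (fun i j' => if j' = j then x i l else 0) ∈ H)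
    (hrat : ∀ x, (∀ z : Fin 3 → Fin 3 → ℤ, (∀ h ∈ H, ∑ i, ∑ j, (z i j : ℝ) * h i j = 0) →
      ∑ i, ∑ j, (z i j : ℝ) * x i j = 0) → x ∈ H) : False := by
  set Y : Set (Fin 3 → ℤ) := {y | ∀ h ∈ H, ∀ j, ∑ i, (y i : ℝ) * h i j = 0} with hY
  have hmem : ∀ x : Fin 3 → Fin 3 → ℝ,
      (∀ y ∈ Y, ∀ j, ∑ i, (y i : ℝ) * x i j = 0) → x ∈ H := by
    intro x hx
    refine hrat x fun z hz => ?_
    rw [Finset.sum_comm]
    refine Finset.sum_eq_zero fun j _ => hx (fun i => z i j) (fun h hh l => ?_) j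
    simpa using hz _ (hcol h hh l j)
  by_cases hY0 : ∃ y0 ∈ Y, y0 ≠ 0
  swap
  · push Not at hY0
    refine phi_not_surj ℓ fun x => hran x (hHC x (hmem x fun y hy j => ?_))
    simp [hY0 y hy]
  obtain ⟨y0, hy0, h0⟩ := hY0
  obtain ⟨ξ, hξ, hξ0⟩ := exists_xi ℓ
  obtain ⟨κ, lam, hκ, y1, hy1, hlam⟩ := exists_kappa ξ Y hy0 h0
  obtain ⟨k0, hk0⟩ := Function.ne_iff.1 hξ
  have hκH : phi ℓ κ ∈ H := hmem _ fun y hy j => by
    rw [sum_phi]
    simp only [hκ y hy, mul_assoc]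
    rw [← Finset.mul_sum, hξ0, mul_zero]
  obtain ⟨W, hW⟩ := H.exists_isCompl
  set π := W.projection H hW.symm with hπ
  have hπH : ∀ x ∈ H, π x = 0 := fun x hx =>
    (Submodule.projection_apply_eq_zero_iff hW.symm).2 hx
  have hπsub : ∀ x, x - π x ∈ H := fun x => by
    rw [hπ, ← Submodule.projection_eq_self_sub_projection]
    exact Submodule.projection_apply_mem _ _
  obtain ⟨v, hvW, hv0, hvC⟩ := exists_line C hC W fun δ hδ => by
    have c1 : ContinuousAt (π.comp (phi ℓ)) 0 :=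
      (LinearMap.continuous_of_finiteDimensional _).continuousAt
    have c2 : ContinuousAt (psi y1 k0) 0 :=
      (LinearMap.continuous_of_finiteDimensional _).continuousAt
    have hp : 0 < |lam y1 * ξ k0| := abs_pos.2 (mul_ne_zero hlam hk0)
    obtain ⟨δ1, hδ1, b1⟩ := Metric.continuousAt_iff.1 c1 δ hδ
    obtain ⟨δ2, hδ2, b2⟩ := Metric.continuousAt_iff.1 c2 _ hp
    obtain ⟨q, hq, n, hn⟩ := dirichlet κ (lt_min hδ1 hδ2)
    set nR : Fin 3 → Fin 3 → ℝ := fun a b => (n a b : ℝ) with hnR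
    have d1 := b1 (x := nR - (q:ℝ) • κ) (by rw [dist_zero_right]; exact hn.trans_le (min_le_left _ _))
    have d2 := b2 (x := nR - (q:ℝ) • κ) (by rw [dist_zero_right]; exact hn.trans_le (min_le_right _ _))
    rw [map_zero, dist_zero_right] at d1 d2
    rw [LinearMap.comp_apply, map_sub, map_sub, map_smul, map_smul, hπH _ hκH, smul_zero,
      sub_zero] at d1
    refine ⟨π (phi ℓ nR), ?_, Submodule.projection_apply_mem _ _, fun hz => ?_, d1⟩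
    · have := C.sub_mem (hint n : phi ℓ nR ∈ C) (hHC _ (hπsub (phi ℓ nR)))
      rwa [sub_sub_cancel] at this
    · have hH : phi ℓ nR ∈ H := by simpa [hz] using hπsub (phi ℓ nR)
      have hcast : ∀ k, psi y1 k nR = ((∑ i, y1 i * Nmap n k i : ℤ) : ℝ) := fun k => by
        simp [psi, hnR, Nmap_cast]
      have := hind (fun k => ∑ i, y1 i * Nmap n k i) fun j => by
        have := hy1 _ hH j
        rw [sum_phi] at this
        simpa only [hcast] using this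
      have z : psi y1 k0 nR = 0 := by rw [hcast, congrFun this k0]; simp
      rw [map_sub, map_smul, z, hκ y1 hy1, zero_sub, norm_neg, norm_smul, Real.norm_eq_abs,
        Real.norm_eq_abs] at d2
      have hq' : (1:ℝ) ≤ |(q:ℝ)| := by rw [Nat.abs_cast]; exact_mod_cast hq
      nlinarith
  exact hv0 ((Submodule.disjoint_def.1 hW.disjoint) v (hline v hvC) hvW)

end Pool.Agent.H2.Tori
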