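import Mathlib

set_option autoImplicit false
set_option linter.unusedSectionVars false

open Polynomial

namespace Pool.Agent.H2.Tori

noncomputable def gZ : ℤ[X] := X ^ 6 - 10 * X ^ 4 + 18 * X ^ 2 - 6

noncomputable def qZ : ℤ[X] := X ^ 4 - 36 * X ^ 2 - 48 * X + 84

lemma gZ_monic : gZ.Monic := by unfold gZ; monicity!

lemma qZ_monic : qZ.Monic := by unfold qZ; monicity!

lemma gZ_natDegree : gZ.natDegree = 6 := by unfold gZ; compute_degree!

lemma qZ_natDegree : qZ.natDegree = 4 := by unfold qZ; compute_degree!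

lemma gZ_irred : Irreducible (gZ.map (algebraMap ℤ ℚ)) := by
  rw [← gZ_monic.irreducible_iff_irreducible_map_fraction_map]
  have hd : gZ.degree = 6 := by rw [degree_eq_natDegree gZ_monic.ne_zero, gZ_natDegree]; rfl
  refine irreducible_of_eisenstein_criterion (P := Ideal.span {(2:ℤ)})
    ((Ideal.span_singleton_prime (by norm_num)).2 Int.prime_two) ?_ ?_ (by rw [hd]; norm_num) ?_
    gZ_monic.isPrimitive
  · rw [gZ_monic.leadingCoeff, Ideal.mem_span_singleton]; norm_num
  · intro n hn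
    rw [hd] at hn
    have : n < 6 := by exact_mod_cast hn
    rw [Ideal.mem_span_singleton]
    interval_cases n <;> simp [gZ, coeff_X_pow, coeff_ofNat_succ]
  · rw [Ideal.span_singleton_pow, Ideal.mem_span_singleton]
    simp [gZ]

lemma qZ_irred : Irreducible (qZ.map (algebraMap ℤ ℚ)) := by
  rw [← qZ_monic.irreducible_iff_irreducible_map_fraction_map]
  have hd : qZ.degree = 4 := by rw [degree_eq_natDegree qZ_monic.ne_zero, qZ_natDegree]; rfl
  refine irreducible_of_eisenstein_criterion (P := Ideal.span {(3:ℤ)})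
    ((Ideal.span_singleton_prime (by norm_num)).2 Int.prime_three) ?_ ?_ (by rw [hd]; norm_num) ?_
    qZ_monic.isPrimitive
  · rw [qZ_monic.leadingCoeff, Ideal.mem_span_singleton]; norm_num
  · intro n hn
    rw [hd] at hn
    have : n < 4 := by exact_mod_cast hn
    rw [Ideal.mem_span_singleton]
    interval_cases n <;> simp [qZ, coeff_X_pow, coeff_X, coeff_ofNat_succ]
  · rw [Ideal.span_singleton_pow, Ideal.mem_span_singleton]
    simp [qZ]

lemma minpoly_of_root {K : Type*} [Field K] [CharZero K] {p : ℤ[X]} (hm : p.Monic)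
    (hi : Irreducible (p.map (algebraMap ℤ ℚ))) {x : K} (hx : aeval x p = 0) :
    minpoly ℚ x = p.map (algebraMap ℤ ℚ) :=
  (minpoly.eq_of_irreducible_of_monic hi (by rw [aeval_map_algebraMap]; exact hx)
    (hm.map _)).symm

structure Data (K : Type*) [Field K] (ι : K →+* ℝ) (s : Fin 3 → K) : Prop where
  e1 : s 0 ^ 2 + s 1 ^ 2 + s 2 ^ 2 = 10
  e2 : s 0 ^ 2 * s 1 ^ 2 + s 0 ^ 2 * s 2 ^ 2 + s 1 ^ 2 * s 2 ^ 2 = 18
  e3 : s 0 ^ 2 * s 1 ^ 2 * s 2 ^ 2 = 6
  inj : ∀ i j, s i ^ 2 = s j ^ 2 → i = j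
  bd : ∀ i, |ι (s i)| < 3

variable {K : Type*} [Field K] [NumberField K] {ι : K →+* ℝ} {s : Fin 3 → K}

lemma Data.aeval_g (D : Data K ι s) (x : K) :
    aeval x gZ = (x ^ 2 - s 0 ^ 2) * (x ^ 2 - s 1 ^ 2) * (x ^ 2 - s 2 ^ 2) := by
  simp only [gZ, map_sub, map_add, map_mul, map_pow, aeval_X, map_ofNat]
  linear_combination (x ^ 4) * D.e1 - (x ^ 2) * D.e2 + D.e3

lemma Data.root (D : Data K ι s) (i : Fin 3) : aeval (s i) gZ = 0 := by
  rw [D.aeval_g]
  fin_cases i <;> simp

lemma Data.ne_zero (D : Data K ι s) (i : Fin 3) : s i ≠ 0 := by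
  intro h
  have := D.root i
  rw [h] at this
  simp only [gZ, map_sub, map_add, map_mul, map_pow, aeval_X, map_ofNat] at this
  norm_num at this

lemma Data.perm (D : Data K ι s) (σ : K ≃ₐ[ℚ] K) (i : Fin 3) :
    ∃ j, σ (s i) ^ 2 = s j ^ 2 := by
  have h : aeval (σ (s i)) gZ = 0 := by
    have := aeval_algHom_apply (σ.toRingEquiv.toRingHom.toIntAlgHom) (s i) gZ
    rw [D.root, map_zero] at this
    exact this
  rw [D.aeval_g, mul_eq_zero, mul_eq_zero, sub_eq_zero, sub_eq_zero, sub_eq_zero] at h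
  rcases h with (h | h) | h
  exacts [⟨0, h⟩, ⟨1, h⟩, ⟨2, h⟩]

lemma Data.trans [IsGalois ℚ K] (D : Data K ι s) (i j : Fin 3) :
    ∃ σ : K ≃ₐ[ℚ] K, σ (s i) = s j := by
  have h : minpoly ℚ (s j) = minpoly ℚ (s i) := by
    rw [minpoly_of_root gZ_monic gZ_irred (D.root i), minpoly_of_root gZ_monic gZ_irred (D.root j)]
  exact (Normal.minpoly_eq_iff_mem_orbit K).1 h

lemma Data.diag [IsGalois ℚ K] (D : Data K ι s) :
    ∃ d : K ≃ₐ[ℚ] K, (∀ i, d (s i) ^ 2 = s i ^ 2) ∧
      d (s 0 * s 1 + s 0 * s 2 + s 1 * s 2) ≠ s 0 * s 1 + s 0 * s 2 + s 1 * s 2 := by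
  by_contra hcon
  push Not at hcon
  choose π hπ using D.perm
  let _ : MulAction (K ≃ₐ[ℚ] K) (Fin 3) :=
    { smul := π
      one_smul := fun i => D.inj _ _ (by have := hπ 1 i; exact this.symm)
      mul_smul := fun σ τ i => D.inj _ _ (by
        have a := hπ (σ * τ) i
        have b := hπ τ i
        have c := hπ σ (π τ i)
        change s (π (σ * τ) i) ^ 2 = s (π σ (π τ i)) ^ 2
        rw [← a, ← c, ← map_pow, ← map_pow, ← b, ← map_pow]
        rfl) }
  set a := s 0 * s 1 + s 0 * s 2 + s 1 * s 2 with ha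
  have hle : (MulAction.toPermHom (K ≃ₐ[ℚ] K) (Fin 3)).ker ≤
      MulAction.stabilizer (K ≃ₐ[ℚ] K) a := by
    intro d hd
    rw [MonoidHom.mem_ker] at hd
    refine hcon d fun i => ?_
    have : π d i = i := congrArg (fun e : Equiv.Perm (Fin 3) => e i) hd
    rw [hπ, this]
  have h1 := Subgroup.index_dvd_of_le hle
  rw [Subgroup.index_ker, MulAction.index_stabilizer] at h1
  have h2 := h1.trans (Subgroup.card_subgroup_dvd_card _)
  have hq : aeval a qZ = 0 := by
    simp only [qZ, map_sub, map_add, map_mul, map_pow, aeval_X, map_ofNat]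
    have k1 : a ^ 2 - 18 = 2 * (s 0 * s 1 * s 2) * (s 0 + s 1 + s 2) := by
      rw [ha]; linear_combination D.e2
    have k2 : (s 0 + s 1 + s 2) ^ 2 = 10 + 2 * a := by rw [ha]; linear_combination D.e1
    have k3 : (s 0 * s 1 * s 2) ^ 2 = 6 := by linear_combination D.e3
    have k4 : (a ^ 2 - 18) ^ 2 = 4 * 6 * (10 + 2 * a) := by
      rw [k1, ← k2, ← k3]; ring
    linear_combination k4
  have hmin := minpoly_of_root qZ_monic qZ_irred hq
  have horb : MulAction.orbit (K ≃ₐ[ℚ] K) a = (minpoly ℚ a).rootSet K := by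
    ext y
    rw [← Normal.minpoly_eq_iff_mem_orbit K]
    exact (isConjRoot_iff_mem_minpoly_rootSet (Algebra.IsIntegral.isIntegral a)).symm.trans
      (by rw [isConjRoot_def, eq_comm]) |>.symm
  have hc : (MulAction.orbit (K ≃ₐ[ℚ] K) a).ncard = 4 := by
    rw [horb, ← Nat.card_coe_set_eq, Nat.card_eq_fintype_card,
      card_rootSet_eq_natDegree (Algebra.IsSeparable.isSeparable ℚ a) (Normal.splits inferInstance a),
      hmin, qZ_monic.natDegree_map, qZ_natDegree]
  rw [hc, Nat.card_eq_fintype_card, Fintype.card_perm] at h2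
  simp [Nat.factorial] at h2


lemma exists_cubic_roots : ∃ a b c : ℝ, 0 < a ∧ a < 1 ∧ 1 < b ∧ b < 2 ∧ 7 < c ∧ c < 8 ∧
    a + b + c = 10 ∧ a * b + a * c + b * c = 18 ∧ a * b * c = 6 := by
  set f : ℝ → ℝ := fun x => x ^ 3 - 10 * x ^ 2 + 18 * x - 6 with hf
  have hc : Continuous f := by fun_prop
  obtain ⟨a, ⟨a0, a1⟩, ha⟩ := intermediate_value_Ioo (zero_le_one' ℝ) hc.continuousOn
    (show (0:ℝ) ∈ Set.Ioo (f 0) (f 1) by simp only [hf]; norm_num)
  obtain ⟨b, ⟨b0, b1⟩, hb⟩ := intermediate_value_Ioo' (one_le_two (α := ℝ)) hc.continuousOn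
    (show (0:ℝ) ∈ Set.Ioo (f 2) (f 1) by simp only [hf]; norm_num)
  obtain ⟨c, ⟨c0, c1⟩, hc'⟩ := intermediate_value_Ioo (by norm_num : (7:ℝ) ≤ 8) hc.continuousOn
    (show (0:ℝ) ∈ Set.Ioo (f 7) (f 8) by simp only [hf]; norm_num)
  simp only [hf] at ha hb hc'
  have h1 : a ^ 2 + a * b + b ^ 2 - 10 * (a + b) + 18 = 0 :=
    mul_left_cancel₀ (by linarith : a - b ≠ 0) (by linear_combination ha - hb)
  have h2 : a ^ 2 + a * c + c ^ 2 - 10 * (a + c) + 18 = 0 :=
    mul_left_cancel₀ (by linarith : a - c ≠ 0) (by linear_combination ha - hc')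
  have h3 : a + b + c = 10 :=
    mul_left_cancel₀ (by linarith : b - c ≠ 0) (by linear_combination h1 - h2)
  have h4 : a * b + a * c + b * c = 18 := by linear_combination (a + b) * h3 - h1
  refine ⟨a, b, c, a0, a1, b0, b1, c0, c1, h3, h4, ?_⟩
  linear_combination ha + a * h4 - a ^ 2 * h3

theorem exists_data : ∃ (K : Type) (_ : Field K) (_ : NumberField K) (_ : IsGalois ℚ K)
    (ι : K →+* ℝ) (s : Fin 3 → K), Data K ι s := by
  obtain ⟨a, b, c, a0, a1, b0, b1, c0, c1, e1, e2, e3⟩ := exists_cubic_roots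
  set r : Fin 3 → ℝ := ![√a, √b, √c] with hr
  have r0 : r 0 ^ 2 = a := Real.sq_sqrt a0.le
  have r1 : r 1 ^ 2 = b := Real.sq_sqrt (by linarith)
  have r2 : r 2 ^ 2 = c := Real.sq_sqrt (by linarith)
  set g := gZ.map (algebraMap ℤ ℚ) with hg
  have hfac : g.map (algebraMap ℚ ℝ) = ((X - C (r 0)) * (X - C (-r 0))) *
      ((X - C (r 1)) * (X - C (-r 1))) * ((X - C (r 2)) * (X - C (-r 2))) := by
    apply Polynomial.funext
    intro x
    simp only [hg, gZ, Polynomial.map_sub, Polynomial.map_add, Polynomial.map_mul,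
      Polynomial.map_pow, map_X, Polynomial.map_ofNat, eval_sub, eval_add, eval_mul, eval_pow,
      eval_X, eval_ofNat, eval_C]
    have : (x - r 0) * (x - -r 0) * ((x - r 1) * (x - -r 1)) * ((x - r 2) * (x - -r 2)) =
        (x ^ 2 - r 0 ^ 2) * (x ^ 2 - r 1 ^ 2) * (x ^ 2 - r 2 ^ 2) := by ring
    rw [this, r0, r1, r2]
    linear_combination (x ^ 4) * e1 - (x ^ 2) * e2 + e3
  have hsp : (g.map (algebraMap ℚ ℝ)).Splits := by
    rw [hfac]
    exact (((Splits.X_sub_C _).mul (Splits.X_sub_C _)).mul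
      ((Splits.X_sub_C _).mul (Splits.X_sub_C _))).mul ((Splits.X_sub_C _).mul (Splits.X_sub_C _))
  have hroot : ∀ i, r i ∈ g.rootSet ℝ := by
    intro i
    rw [mem_rootSet_of_ne gZ_irred.ne_zero, ← eval_map_algebraMap, hfac]
    fin_cases i <;> simp
  set K := IntermediateField.adjoin ℚ (g.rootSet ℝ) with hK
  have hsf : g.IsSplittingField ℚ K := IntermediateField.adjoin_rootSet_isSplittingField hsp
  have hfd : FiniteDimensional ℚ K := IsSplittingField.finiteDimensional K g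
  have hgal : IsGalois ℚ K := IsGalois.of_separable_splitting_field gZ_irred.separable
  have hnf : NumberField K := { to_charZero := inferInstance, to_finiteDimensional := hfd }
  refine ⟨K, inferInstance, hnf, hgal, K.val.toRingHom,
    fun i => ⟨r i, IntermediateField.subset_adjoin ℚ _ (hroot i)⟩, ?_, ?_, ?_, ?_, ?_⟩
  · apply Subtype.ext
    push_cast
    rw [r0, r1, r2]; exact e1
  · apply Subtype.ext
    push_cast
    rw [r0, r1, r2]; exact e2
  · apply Subtype.ext
    push_cast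
    rw [r0, r1, r2]; exact e3
  · intro i j h
    have h' : r i ^ 2 = r j ^ 2 := by
      have := congrArg Subtype.val h
      push_cast at this
      exact this
    fin_cases i <;> fin_cases j <;> simp only [Fin.zero_eta, Fin.mk_one, Fin.reduceFinMk,
      r0, r1, r2] at h' ⊢ <;> linarith
  · intro i
    change |r i| < 3
    refine abs_lt_of_sq_lt_sq ?_ (by norm_num)
    fin_cases i <;> simp only [Fin.zero_eta, Fin.mk_one, Fin.reduceFinMk, r0, r1, r2] <;> linarith

end Pool.Agent.H2.Tori
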