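import Mathlib
import Pool.Agent.H2.Tori1
import Pool.Agent.H2.Tori2

set_option autoImplicit false
set_option linter.unusedSectionVars false

namespace Pool.Agent.H2.Tori

lemma transfer {K G : Type*} [Field K] [Fintype G] (ι : K →+* ℝ) (P : MvPolynomial G K)
    (Hs : AddSubgroup (G → ℝ))
    (hP : ∀ h ∈ Hs, MvPolynomial.eval₂Hom ι (fun σ => Real.exp (h σ)) P = 0) (h' : G → ℝ)
    (hh' : ∀ m : G → ℤ, (∀ h ∈ Hs, ∑ σ, (m σ : ℝ) * h σ = 0) → ∑ σ, (m σ : ℝ) * h' σ = 0)
    (φ : K →+* ℝ) : MvPolynomial.eval₂Hom φ (fun σ => Real.exp (h' σ)) P = 0 := by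
  classical
  have ev : ∀ (ψ : K →+* ℝ) (h : G → ℝ),
      MvPolynomial.eval₂Hom ψ (fun σ => Real.exp (h σ)) P =
        ∑ d ∈ P.support, ψ (P.coeff d) * Real.exp (∑ σ, (d σ : ℝ) * h σ) := by
    intro ψ h
    rw [MvPolynomial.coe_eval₂Hom, MvPolynomial.eval₂_eq']
    refine Finset.sum_congr rfl fun d _ => ?_
    rw [Real.exp_sum]
    simp only [Real.exp_nat_mul]
  let χ : (G →₀ ℕ) → (Multiplicative Hs →* ℝ) := fun d =>
    { toFun := fun h => Real.exp (∑ σ, (d σ : ℝ) * (h.toAdd : G → ℝ) σ)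
      map_one' := by simp
      map_mul' := fun a b => by
        rw [← Real.exp_add, ← Finset.sum_add_distrib]
        simp [mul_add] }
  have hχ : ∀ d (h : Multiplicative Hs),
      χ d h = Real.exp (∑ σ, (d σ : ℝ) * (h.toAdd : G → ℝ) σ) := fun _ _ => rfl
  have li := linearIndependent_iff'.1 (linearIndependent_monoidHom (Multiplicative Hs) ℝ)
    (P.support.image χ) (fun c => ι (∑ d ∈ P.support with χ d = c, P.coeff d)) (by
      funext h
      have := hP _ h.toAdd.2
      rw [ev, ← Finset.sum_fiberwise_of_maps_to (fun d hd => Finset.mem_image_of_mem χ hd)] at this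
      rw [Finset.sum_apply, Pi.zero_apply, ← this]
      refine Finset.sum_congr rfl fun c _ => ?_
      rw [Pi.smul_apply, smul_eq_mul, map_sum, Finset.sum_mul]
      refine Finset.sum_congr rfl fun d hd => ?_
      rw [← (Finset.mem_filter.1 hd).2, hχ])
  rw [ev, ← Finset.sum_fiberwise_of_maps_to (fun d hd => Finset.mem_image_of_mem χ hd)]
  refine Finset.sum_eq_zero fun c hc => ?_
  have z : ∑ d ∈ P.support with χ d = c, P.coeff d = 0 := (map_eq_zero ι).1 (li c hc)
  obtain ⟨d0, -, rfl⟩ := Finset.mem_image.1 hc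
  have e : ∀ d ∈ P.support.filter (fun d => χ d = χ d0),
      φ (P.coeff d) * Real.exp (∑ σ, (d σ : ℝ) * h' σ) =
        φ (P.coeff d) * Real.exp (∑ σ, (d0 σ : ℝ) * h' σ) := by
    intro d hd
    have hd := (Finset.mem_filter.1 hd).2
    have := hh' (fun σ => (d σ : ℤ) - d0 σ) fun h hh => by
      have a := DFunLike.congr_fun hd (Multiplicative.ofAdd ⟨h, hh⟩)
      rw [hχ, hχ, Real.exp_eq_exp] at a
      simp only [toAdd_ofAdd] at a
      push_cast
      simp only [sub_mul, Finset.sum_sub_distrib]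
      linarith
    push_cast at this
    simp only [sub_mul, Finset.sum_sub_distrib] at this
    rw [sub_eq_zero.1 this]
  rw [Finset.sum_congr rfl e, ← Finset.sum_mul, ← map_sum, z, map_zero, zero_mul]

variable {K : Type*} [Field K] [NumberField K] {ι : K →+* ℝ} {s : Fin 3 → K}

open Classical in
noncomputable def Amat (s : Fin 3 → K) (σ : K ≃ₐ[ℚ] K) (i j : Fin 3) : ℤ :=
  if σ (s i) = s j then 1 else if σ (s i) = -s j then -1 else 0

lemma Data.A_of (D : Data K ι s) {σ : K ≃ₐ[ℚ] K} {i j0 : Fin 3} {ε : ℤ} (hε : ε = 1 ∨ ε = -1)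
    (h : σ (s i) = ε * s j0) (j : Fin 3) : Amat s σ i j = if j = j0 then ε else 0 := by
  have hsq : σ (s i) ^ 2 = s j0 ^ 2 := by rcases hε with rfl | rfl <;> simp [h]
  have hne : ∀ j, s j ≠ -s j := fun j hj =>
    D.ne_zero j (by linear_combination (1 / 2 : K) * hj)
  unfold Amat
  by_cases hj : j = j0
  · subst hj
    rcases hε with rfl | rfl
    · simp [h]
    · simp [h, (hne j).symm]
  · have n1 : σ (s i) ≠ s j := fun e => hj (D.inj _ _ (by rw [← hsq, e]))
    have n2 : σ (s i) ≠ -s j := fun e => hj (D.inj _ _ (by rw [← hsq, e]; ring))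
    simp [n1, n2, hj]

lemma Data.exists_sign (D : Data K ι s) (σ : K ≃ₐ[ℚ] K) (i : Fin 3) :
    ∃ (j : Fin 3) (ε : ℤ), (ε = 1 ∨ ε = -1) ∧ σ (s i) = ε * s j := by
  obtain ⟨j, hj⟩ := D.perm σ i
  rcases sq_eq_sq_iff_eq_or_eq_neg.1 hj with h | h
  · exact ⟨j, 1, Or.inl rfl, by simpa using h⟩
  · exact ⟨j, -1, Or.inr rfl, by simpa using h⟩

lemma Data.A_mul (D : Data K ι s) (τ σ : K ≃ₐ[ℚ] K) (i l : Fin 3) :
    Amat s (τ * σ) i l = ∑ j, Amat s σ i j * Amat s τ j l := by
  obtain ⟨j, ε, hε, h⟩ := D.exists_sign σ i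
  obtain ⟨j', ε', hε', h'⟩ := D.exists_sign τ j
  have h2 : (τ * σ) (s i) = ((ε * ε' : ℤ) : K) * s j' := by
    rw [AlgEquiv.mul_apply, h, map_mul, map_intCast, h']; push_cast; ring
  have hε2 : ε * ε' = 1 ∨ ε * ε' = -1 := by
    rcases hε with rfl | rfl <;> rcases hε' with rfl | rfl <;> simp
  rw [D.A_of hε2 h2]
  simp only [D.A_of hε h, ite_mul, zero_mul, Finset.sum_ite_eq', Finset.mem_univ, if_true,
    D.A_of hε' h', mul_ite, mul_zero]

lemma Data.unit_matrix [IsGalois ℚ K] (D : Data K ι s) (i l : Fin 3) :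
    ∃ (σ1 σ2 : K ≃ₐ[ℚ] K) (c : ℤ), ∀ a b,
      Amat s σ1 a b + c * Amat s σ2 a b = if a = i ∧ b = l then 2 else 0 := by
  obtain ⟨d, hd, hne⟩ := D.diag
  have h1 : ∀ a, ∃ ε : ℤ, (ε = 1 ∨ ε = -1) ∧ d (s a) = ε * s a := fun a => by
    rcases sq_eq_sq_iff_eq_or_eq_neg.1 (hd a) with h | h
    · exact ⟨1, Or.inl rfl, by simpa using h⟩
    · exact ⟨-1, Or.inr rfl, by simpa using h⟩
  choose ε hε hdε using h1
  have h2 : ∃ j : Fin 3, ∀ a, a ≠ j → ε a = -ε j := by
    rcases hε 0 with a0 | a0 <;> rcases hε 1 with a1 | a1 <;> rcases hε 2 with a2 | a2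
    · exact absurd (by simp [hdε, a0, a1, a2]) hne
    · exact ⟨2, fun a => by fin_cases a <;> simp [a0, a1, a2]⟩
    · exact ⟨1, fun a => by fin_cases a <;> simp [a0, a1, a2]⟩
    · exact ⟨0, fun a => by fin_cases a <;> simp [a0, a1, a2]⟩
    · exact ⟨0, fun a => by fin_cases a <;> simp [a0, a1, a2]⟩
    · exact ⟨1, fun a => by fin_cases a <;> simp [a0, a1, a2]⟩
    · exact ⟨2, fun a => by fin_cases a <;> simp [a0, a1, a2]⟩
    · exact absurd (by simp [hdε, a0, a1, a2]) hne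
  obtain ⟨j, hj⟩ := h2
  obtain ⟨g, hg⟩ := D.trans i j
  obtain ⟨h, hh⟩ := D.trans j l
  refine ⟨h * g, h * (d * g), ε j, fun a b => ?_⟩
  obtain ⟨j', e, he, hge⟩ := D.exists_sign g a
  have hεj : ε j * ε j = 1 := by rcases hε j with x | x <;> simp [x]
  have hdg : (d * g) (s a) = ((e * ε j' : ℤ) : K) * s j' := by
    rw [AlgEquiv.mul_apply, hge, map_mul, map_intCast, hdε]; push_cast; ring
  have he2 : e * ε j' = 1 ∨ e * ε j' = -1 := by
    rcases he with rfl | rfl <;> rcases hε j' with x | x <;> simp [x]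
  rw [D.A_mul, D.A_mul]
  simp only [D.A_of he hge, D.A_of he2 hdg, ite_mul, zero_mul,
    Finset.sum_ite_eq', Finset.mem_univ, if_true]
  by_cases ha : a = i
  · subst ha
    have hj' : j' = j := D.inj _ _ (by
      rw [← hg, hge]; rcases he with rfl | rfl <;> simp)
    subst hj'
    have he1 : e = 1 := by
      rcases he with rfl | rfl
      · rfl
      · exfalso
        rw [hg] at hge
        exact D.ne_zero j' (by push_cast at hge; linear_combination (1 / 2 : K) * hge)
    subst he1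
    rw [D.A_of (Or.inl rfl) (by simpa using hh : h (s j') = ((1:ℤ):K) * s l)]
    by_cases hb : b = l
    · simp [hb, hεj]
    · simp [hb]
  · have hj' : j' ≠ j := by
      rintro rfl
      apply ha
      apply D.inj
      apply g.injective
      rw [map_pow, map_pow, hg, hge]
      rcases he with rfl | rfl <;> simp
    rw [hj j' hj', if_neg (fun x => ha x.1)]
    linear_combination (-(e * Amat s h j' b)) * hεj

def cc : Fin 4 → ℤ := ![4, 5, 6, 7]

def pp : Fin 4 → ℕ := ![101, 1091, 59, 6301]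

open Polynomial in
lemma Data.indep_aux (D : Data K ι s) (a b : Fin 4 → ℕ) (hab : ∀ k, a k = 0 ∨ b k = 0)
    (h : ∏ k, ((cc k + s 0) ^ a k * (cc k - s 0) ^ b k) =
      ∏ k, ((cc k - s 0) ^ a k * (cc k + s 0) ^ b k)) (k0 : Fin 4) : a k0 = 0 := by
  by_contra ha
  have hb : b k0 = 0 := (hab k0).resolve_left ha
  set P : ℤ[X] := ∏ k, ((C (cc k) + X) ^ a k * (C (cc k) - X) ^ b k) -
    ∏ k, ((C (cc k) - X) ^ a k * (C (cc k) + X) ^ b k) with hP
  have h1 : aeval (s 0) P = 0 := by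
    simp only [hP, map_sub, map_prod, map_mul, map_pow, map_add, aeval_X,
      eq_intCast, map_intCast]
    exact sub_eq_zero.2 h
  have h2 : gZ ∣ P := by
    rw [← map_dvd_map (algebraMap ℤ ℚ) (RingHom.injective_int _) gZ_monic,
      ← minpoly_of_root gZ_monic gZ_irred (D.root 0)]
    exact minpoly.dvd ℚ _ (by rw [aeval_map_algebraMap]; exact h1)
  have h3 : (pp k0 : ℤ) ∣ gZ.eval (cc k0) := by
    fin_cases k0 <;> simp [pp, cc, gZ]
  have h4 := h3.trans (eval_dvd h2)
  have h5 : P.eval (cc k0) = ∏ k, ((cc k + cc k0) ^ a k * (cc k - cc k0) ^ b k) := by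
    simp only [hP, eval_sub, eval_prod, eval_mul, eval_pow, eval_add, eval_X, eval_C]
    rw [sub_eq_self]
    exact Finset.prod_eq_zero (Finset.mem_univ k0) (by simp [ha])
  have hpr : Prime (pp k0 : ℤ) := by
    rw [← Nat.prime_iff_prime_int]
    fin_cases k0 <;> simp only [pp] <;> norm_num
  rw [h5] at h4
  obtain ⟨k, -, hk⟩ := (Prime.dvd_finsetProd_iff hpr _).1 h4
  rcases hpr.dvd_or_dvd hk with x | x
  · have := hpr.dvd_of_dvd_pow x
    fin_cases k <;> fin_cases k0 <;> simp [pp, cc] at this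
  · by_cases hk : k = k0
    · subst hk
      rw [hb, pow_zero] at x
      exact hpr.not_dvd_one x
    · have := hpr.dvd_of_dvd_pow x
      fin_cases k <;> fin_cases k0 <;> simp [pp, cc] at this hk

lemma Data.pos (D : Data K ι s) (k : Fin 4) (i : Fin 3) :
    0 < ι (cc k + s i) ∧ 0 < ι (cc k - s i) := by
  have h := abs_lt.1 (D.bd i)
  have : (4:ℝ) ≤ cc k := by fin_cases k <;> simp [cc] <;> norm_num
  simp only [map_add, map_sub, map_intCast]
  constructor <;> linarith [h.1, h.2]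

noncomputable def ell (ι : K →+* ℝ) (s : Fin 3 → K) (k : Fin 4) (j : Fin 3) : ℝ :=
  Real.log (ι (cc k + s j)) - Real.log (ι (cc k - s j))

lemma Data.indep (D : Data K ι s) (m : Fin 4 → ℤ)
    (h : ∀ j, ∑ k, (m k : ℝ) * ell ι s k j = 0) : m = 0 := by
  have key : ∀ m : Fin 4 → ℤ, ∑ k, (m k : ℝ) * ell ι s k 0 = 0 → ∀ k, (m k).toNat = 0 := by
    intro m hm
    refine D.indep_aux (fun k => (m k).toNat) (fun k => (-m k).toNat) (fun k => by omega) ?_
    apply ι.injective
    have p1 := fun k => (D.pos k 0).1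
    have p2 := fun k => (D.pos k 0).2
    simp only [map_prod, map_mul, map_pow]
    apply Real.log_injOn_pos
      (Finset.prod_pos fun k _ => mul_pos (pow_pos (p1 k) _) (pow_pos (p2 k) _))
      (Finset.prod_pos fun k _ => mul_pos (pow_pos (p2 k) _) (pow_pos (p1 k) _))
    rw [Real.log_prod fun k _ => (mul_pos (pow_pos (p1 k) _) (pow_pos (p2 k) _)).ne',
      Real.log_prod fun k _ => (mul_pos (pow_pos (p2 k) _) (pow_pos (p1 k) _)).ne',
      ← sub_eq_zero, ← Finset.sum_sub_distrib, ← hm]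
    refine Finset.sum_congr rfl fun k _ => ?_
    rw [Real.log_mul (pow_pos (p1 k) _).ne' (pow_pos (p2 k) _).ne',
      Real.log_mul (pow_pos (p2 k) _).ne' (pow_pos (p1 k) _).ne']
    simp only [Real.log_pow, ell]
    have : (m k : ℝ) = ((m k).toNat : ℝ) - ((-m k).toNat : ℝ) := by
      have := Int.toNat_sub_toNat_neg (m k)
      exact_mod_cast this.symm
    rw [this]; ring
  funext k
  have a := key m (h 0) k
  have b := key (-m) (by simpa using h 0) k
  simp only [Pi.neg_apply] at b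
  simp only [Pi.zero_apply]
  omega

end Pool.Agent.H2.Tori
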