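import Mathlib
import Pool.Agent.H2.Tori3

set_option autoImplicit false
set_option linter.unusedSectionVars false

open NumberField NumberField.mixedEmbedding NumberField.InfinitePlace

namespace Pool.Agent.H2.Tori

variable {K : Type*} [Field K] [NumberField K] {ι : K →+* ℝ} {s : Fin 3 → K}

lemma isReal_comp (φ : K →+* ℝ) : ComplexEmbedding.IsReal (Complex.ofRealHom.comp φ) := by
  rw [ComplexEmbedding.isReal_iff]
  ext x
  simp

noncomputable def wpl (ι : K →+* ℝ) (σ : K ≃ₐ[ℚ] K) : {w : InfinitePlace K // w.IsReal} :=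
  ⟨InfinitePlace.mk (Complex.ofRealHom.comp (ι.comp (σ : K →+* K))), ⟨_, isReal_comp _, rfl⟩⟩

lemma emb_wpl (σ : K ≃ₐ[ℚ] K) (x : K) : (mixedEmbedding K x).1 (wpl ι σ) = ι (σ x) := by
  rw [mixedEmbedding_apply_isReal]
  apply Complex.ofReal_injective
  rw [embedding_of_isReal_apply]
  simp only [wpl]
  rw [embedding_mk_eq_of_isReal (isReal_comp _)]
  simp

lemma place_eq [IsGalois ℚ K] (w : InfinitePlace K) : ∃ σ, (wpl ι σ).1 = w := by
  let _ : Algebra K ℂ := (Complex.ofRealHom.comp ι).toAlgebra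
  obtain ⟨σ, hσ⟩ := (Normal.algHomEquivAut ℚ ℂ K).symm.surjective w.embedding.toRatAlgHom
  refine ⟨σ, ?_⟩
  rw [← mk_embedding w]
  simp only [wpl]
  congr 1
  ext x
  exact DFunLike.congr_fun hσ x

lemma wpl_bij [IsGalois ℚ K] : Function.Bijective (wpl ι) := by
  refine ⟨fun σ τ h => ?_, fun w => ?_⟩
  · ext x
    apply ι.injective
    rw [← emb_wpl, ← emb_wpl, h]
  · obtain ⟨σ, h⟩ := place_eq (ι := ι) w.1
    exact ⟨σ, Subtype.ext h⟩

lemma mixed_ext [IsGalois ℚ K] {x y : mixedSpace K}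
    (h : ∀ σ, x.1 (wpl ι σ) = y.1 (wpl ι σ)) : x = y := by
  refine Prod.ext (funext fun w => ?_) (funext fun w => ?_)
  · obtain ⟨σ, rfl⟩ := (wpl_bij (ι := ι)).2 w
    exact h σ
  · obtain ⟨σ, hσ⟩ := place_eq (ι := ι) w.1
    exact absurd (hσ ▸ (wpl ι σ).2) (not_isReal_iff_isComplex.2 w.2)

noncomputable def Emap [IsGalois ℚ K] (ι : K →+* ℝ) (h : (K ≃ₐ[ℚ] K) → ℝ) : (mixedSpace K)ˣ where
  val := (fun w => Real.exp (h ((Equiv.ofBijective _ (wpl_bij (ι := ι))).symm w)), 1)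
  inv := (fun w => Real.exp (-h ((Equiv.ofBijective _ (wpl_bij (ι := ι))).symm w)), 1)
  val_inv := by
    refine Prod.ext (funext fun w => ?_) (by simp)
    simp [← Real.exp_add]
  inv_val := by
    refine Prod.ext (funext fun w => ?_) (by simp)
    simp [← Real.exp_add]

lemma Emap_val [IsGalois ℚ K] (h : (K ≃ₐ[ℚ] K) → ℝ) (σ : K ≃ₐ[ℚ] K) :
    (Emap ι h : mixedSpace K).1 (wpl ι σ) = Real.exp (h σ) := by
  simp [Emap]

lemma Emap_cont [IsGalois ℚ K] : Continuous (Emap ι) := by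
  rw [Units.continuous_iff]
  constructor
  · refine Continuous.prodMk ?_ continuous_const
    fun_prop
  · refine Continuous.prodMk ?_ continuous_const
    fun_prop

lemma Emap_add [IsGalois ℚ K] (h h' : (K ≃ₐ[ℚ] K) → ℝ) :
    Emap ι (h + h') = Emap ι h * Emap ι h' := by
  refine Units.ext (mixed_ext (ι := ι) fun σ => ?_)
  rw [Units.val_mul, Prod.fst_mul, Pi.mul_apply, Emap_val, Emap_val, Emap_val, Pi.add_apply,
    Real.exp_add]

lemma Emap_zero [IsGalois ℚ K] : Emap ι 0 = 1 := by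
  refine Units.ext (mixed_ext (ι := ι) fun σ => ?_)
  rw [Emap_val]; simp

lemma Emap_neg [IsGalois ℚ K] (h : (K ≃ₐ[ℚ] K) → ℝ) : Emap ι (-h) = (Emap ι h)⁻¹ := by
  rw [eq_inv_iff_mul_eq_one, ← Emap_add, neg_add_cancel, Emap_zero]

lemma Emap_nsmul [IsGalois ℚ K] (h : (K ≃ₐ[ℚ] K) → ℝ) (n : ℕ) :
    Emap ι (n • h) = Emap ι h ^ n := by
  induction n with
  | zero => simp [Emap_zero]
  | succ n ih => rw [succ_nsmul, Emap_add, ih, pow_succ]

noncomputable def Lg (ι : K →+* ℝ) (x : (mixedSpace K)ˣ) (σ : K ≃ₐ[ℚ] K) : ℝ :=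
  Real.log ((x : mixedSpace K).1 (wpl ι σ))

lemma Lg_Emap [IsGalois ℚ K] (h : (K ≃ₐ[ℚ] K) → ℝ) : Lg ι (Emap ι h) = h := by
  funext σ
  rw [Lg, Emap_val, Real.log_exp]

lemma Lg_cont : Continuous (Lg ι) := by
  refine continuous_pi fun σ => Continuous.log (by fun_prop) fun x => ?_
  have : (x : mixedSpace K).1 (wpl ι σ) * ((x⁻¹ : (mixedSpace K)ˣ) : mixedSpace K).1 (wpl ι σ)
      = 1 := by
    rw [← Pi.mul_apply, ← Prod.fst_mul, Units.mul_inv]; rfl
  exact left_ne_zero_of_mul_eq_one this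

open Classical in
lemma coord_eq [IsGalois ℚ K] (x : mixedSpace K) (i : Module.Free.ChooseBasisIndex ℤ (𝓞 K)) :
    (latticeBasis K).repr x i =
      ∑ σ : K ≃ₐ[ℚ] K, ι (σ ((integralBasis K).traceDual i)) * x.1 (wpl ι σ) := by
  let f : mixedSpace K →ₗ[ℝ] ℝ :=
    { toFun := fun x => ∑ σ : K ≃ₐ[ℚ] K, ι (σ ((integralBasis K).traceDual i)) * x.1 (wpl ι σ)
      map_add' := fun x y => by simp [mul_add, Finset.sum_add_distrib]
      map_smul' := fun c x => by simp [Finset.mul_sum, mul_left_comm] }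
  have : (latticeBasis K).coord i = f := by
    refine (latticeBasis K).ext fun j => ?_
    have e : f (latticeBasis K j) =
        ι (∑ σ : K ≃ₐ[ℚ] K, σ ((integralBasis K).traceDual i * integralBasis K j)) := by
      simp only [f, LinearMap.coe_mk, AddHom.coe_mk, latticeBasis_apply, emb_wpl, map_sum, map_mul]
    rw [e, ← trace_eq_sum_automorphisms, Module.Basis.trace_traceDual_mul,
      Module.Basis.coord_apply, Module.Basis.repr_self, Finsupp.single_apply]
    split_ifs <;> simp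
  exact DFunLike.congr_fun this x

open Classical in
lemma poly_transfer [IsGalois ℚ K] (p : MvPolynomial (Module.Free.ChooseBasisIndex ℤ (𝓞 K)) ℚ)
    (Hs : AddSubgroup ((K ≃ₐ[ℚ] K) → ℝ))
    (hp : ∀ h ∈ Hs, MvPolynomial.aeval
      (fun i => (latticeBasis K).repr (Emap ι h : mixedSpace K) i) p = 0)
    (h' : (K ≃ₐ[ℚ] K) → ℝ)
    (hh' : ∀ m : (K ≃ₐ[ℚ] K) → ℤ, (∀ h ∈ Hs, ∑ σ, (m σ : ℝ) * h σ = 0) →
      ∑ σ, (m σ : ℝ) * h' σ = 0) (τ : K ≃ₐ[ℚ] K) :
    MvPolynomial.aeval (fun i => (latticeBasis K).repr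
      (Emap ι (fun σ => h' (τ * σ)) : mixedSpace K) i) p = 0 := by
  set P : MvPolynomial (K ≃ₐ[ℚ] K) K := MvPolynomial.aeval (fun i => ∑ σ : K ≃ₐ[ℚ] K,
    MvPolynomial.C (σ ((integralBasis K).traceDual i)) * MvPolynomial.X σ) p with hP
  have ev : ∀ (φ : K →+* ℝ) (y : (K ≃ₐ[ℚ] K) → ℝ), MvPolynomial.eval₂Hom φ y P =
      MvPolynomial.aeval (fun i => ∑ σ : K ≃ₐ[ℚ] K,
        φ (σ ((integralBasis K).traceDual i)) * y σ) p := by
    intro φ y
    have := MvPolynomial.comp_aeval_apply (MvPolynomial.eval₂Hom φ y).toRatAlgHom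
      (f := fun i => ∑ σ : K ≃ₐ[ℚ] K,
        MvPolynomial.C (σ ((integralBasis K).traceDual i)) * MvPolynomial.X σ) p
    simpa [hP] using this
  have key := transfer ι P Hs (fun h hh => by
    rw [ev, ← hp h hh]
    simp only [coord_eq (ι := ι), Emap_val]) h' hh' (ι.comp ((τ⁻¹ : K ≃ₐ[ℚ] K) : K →+* K))
  rw [ev] at key
  rw [← key]
  simp only [coord_eq (ι := ι), Emap_val]
  congr 2
  funext i
  refine Fintype.sum_equiv (Equiv.mulLeft τ) _ _ fun σ => ?_
  simp

lemma Data.u_ne (D : Data K ι s) (k : Fin 4) (i : Fin 3) :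
    ((cc k : K) + s i) / (cc k - s i) ≠ 0 :=
  div_ne_zero (fun h => (D.pos k i).1.ne' (by rw [h, map_zero]))
    (fun h => (D.pos k i).2.ne' (by rw [h, map_zero]))

noncomputable def Data.Psi (D : Data K ι s) : Multiplicative (Fin 3 → Fin 3 → ℤ) →* Kˣ where
  toFun n := ∏ k, ∏ i, Units.mk0 _ (D.u_ne k i) ^ Nmap n.toAdd k i
  map_one' := by
    refine Finset.prod_eq_one fun k _ => Finset.prod_eq_one fun i _ => ?_
    have : Nmap (Multiplicative.toAdd (1 : Multiplicative (Fin 3 → Fin 3 → ℤ))) k i = 0 := by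
      fin_cases k <;> fin_cases i <;> simp [Nmap]
    rw [this, zpow_zero]
  map_mul' a b := by
    simp only [toAdd_mul, Nmap_add, zpow_add, Finset.prod_mul_distrib]

noncomputable def Fmap (s : Fin 3 → K) : (Fin 3 → Fin 3 → ℝ) →ₗ[ℝ] ((K ≃ₐ[ℚ] K) → ℝ) where
  toFun x := fun σ => ∑ i, ∑ j, (Amat s σ i j : ℝ) * x i j
  map_add' x y := by
    funext σ
    simp [mul_add, Finset.sum_add_distrib]
  map_smul' c x := by
    funext σ
    simp [Finset.mul_sum, mul_left_comm]

lemma Fmap_apply (x : Fin 3 → Fin 3 → ℝ) (σ : K ≃ₐ[ℚ] K) :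
    Fmap s x σ = ∑ i, ∑ j, (Amat s σ i j : ℝ) * x i j := rfl

lemma Data.u_exp (D : Data K ι s) (σ : K ≃ₐ[ℚ] K) (k : Fin 4) (i : Fin 3) :
    ι (σ (((cc k : K) + s i) / (cc k - s i))) =
      Real.exp (∑ j, (Amat s σ i j : ℝ) * ell ι s k j) := by
  obtain ⟨j, ε, hε, h⟩ := D.exists_sign σ i
  have p1 := (D.pos k j).1
  have p2 := (D.pos k j).2
  simp only [D.A_of hε h, Int.cast_ite, Int.cast_zero, ite_mul, zero_mul, Finset.sum_ite_eq',
    Finset.mem_univ, if_true, ell]
  rw [map_div₀, map_add, map_sub, map_intCast, h]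
  rcases hε with rfl | rfl
  · rw [Int.cast_one, Int.cast_one, one_mul, one_mul, Real.exp_sub, Real.exp_log p1,
      Real.exp_log p2, map_div₀]
  · rw [Int.cast_neg, Int.cast_neg, Int.cast_one, Int.cast_one, neg_one_mul, neg_one_mul, neg_sub,
      Real.exp_sub, Real.exp_log p1, Real.exp_log p2, map_div₀, sub_neg_eq_add, ← sub_eq_add_neg]

lemma Data.Psi_eq [IsGalois ℚ K] (D : Data K ι s) (n : Multiplicative (Fin 3 → Fin 3 → ℤ)) :
    Units.map (mixedEmbedding K : K →* mixedSpace K) (D.Psi n) =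
      Emap ι (Fmap s (phi (ell ι s) fun a b => (n.toAdd a b : ℝ))) := by
  refine Units.ext (mixed_ext (ι := ι) fun σ => ?_)
  rw [Emap_val, Units.coe_map, MonoidHom.coe_coe, emb_wpl]
  simp only [Data.Psi, MonoidHom.coe_mk, OneHom.coe_mk, Units.coe_prod, Units.val_zpow_eq_zpow_val,
    Units.val_mk0, map_prod, map_zpow₀, D.u_exp]
  simp only [← Real.rpow_intCast, ← Real.exp_mul, ← Real.exp_sum]
  congr 1
  simp only [Fmap_apply, phi, LinearMap.coe_mk, AddHom.coe_mk, Nmap_cast, Finset.sum_mul,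
    Finset.mul_sum]
  rw [Finset.sum_comm]
  refine Finset.sum_congr rfl fun i _ => ?_
  rw [Finset.sum_comm]
  refine Finset.sum_congr rfl fun j _ => Finset.sum_congr rfl fun k _ => by ring

lemma Data.F_inj [IsGalois ℚ K] (D : Data K ι s) : Function.Injective (Fmap s) := by
  rw [injective_iff_map_eq_zero]
  intro x hx
  funext i l
  obtain ⟨σ1, σ2, c, h⟩ := D.unit_matrix i l
  have h1 : Fmap s x σ1 + c * Fmap s x σ2 = 0 := by simp [hx]
  have h2 : Fmap s x σ1 + c * Fmap s x σ2 = 2 * x i l := by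
    simp only [Fmap_apply, Finset.mul_sum, ← Finset.sum_add_distrib]
    have : ∀ a b, (Amat s σ1 a b : ℝ) * x a b + c * (Amat s σ2 a b * x a b) =
        if b = l then (if a = i then 2 * x a b else 0) else 0 := by
      intro a b
      have := congrArg (Int.cast : ℤ → ℝ) (h a b)
      push_cast at this
      rw [← mul_assoc, ← add_mul, this]
      by_cases ha : a = i <;> by_cases hb : b = l <;> simp [ha, hb]
    simp [this]
  simp only [Pi.zero_apply]
  linarith

lemma Data.F_mul (D : Data K ι s) (x : Fin 3 → Fin 3 → ℝ) (τ σ : K ≃ₐ[ℚ] K) :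
    Fmap s x (τ * σ) = Fmap s (fun i j => ∑ l, (Amat s τ j l : ℝ) * x i l) σ := by
  simp only [Fmap_apply, D.A_mul, Int.cast_sum, Int.cast_mul, Finset.sum_mul, Finset.mul_sum]
  refine Finset.sum_congr rfl fun i _ => ?_
  rw [Finset.sum_comm]
  simp [mul_assoc]

theorem Data.no_subgroup [IsGalois ℚ K] (D : Data K ι s)
    (S : Set (MvPolynomial (Module.Free.ChooseBasisIndex ℤ (𝓞 K)) ℚ))
    (B Lb : Subgroup (mixedSpace K)ˣ)
    (hLb : Lb = (D.Psi.range.map
      (Units.map (mixedEmbedding K : K →* mixedSpace K))).topologicalClosure)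
    (hB : ∀ x : (mixedSpace K)ˣ, x ∈ B ↔ ∀ p ∈ S,
      MvPolynomial.aeval (fun i => (latticeBasis K).repr (x : mixedSpace K) i) p = 0)
    (hle : (Subgroup.connectedComponentOfOne Lb).map Lb.subtype ≤ B)
    (hfin : (((Subgroup.connectedComponentOfOne Lb).map Lb.subtype).subgroupOf B).FiniteIndex) :
    False := by
  set H0 := (Subgroup.connectedComponentOfOne Lb).map Lb.subtype with hH0
  have hLc : IsClosed (Lb : Set (mixedSpace K)ˣ) := by
    rw [hLb]; exact Subgroup.isClosed_topologicalClosure _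
  let pull : Subgroup (mixedSpace K)ˣ → AddSubgroup ((K ≃ₐ[ℚ] K) → ℝ) := fun T =>
    { carrier := {h | Emap ι h ∈ T}
      add_mem' := fun {a b} ha hb => by
        change Emap ι (a + b) ∈ T
        rw [Emap_add]; exact T.mul_mem ha hb
      zero_mem' := by
        change Emap ι 0 ∈ T
        rw [Emap_zero]; exact T.one_mem
      neg_mem' := fun {a} ha => by
        change Emap ι (-a) ∈ T
        rw [Emap_neg]; exact T.inv_mem ha }
  have hpull : ∀ T h, h ∈ pull T ↔ Emap ι h ∈ T := fun _ _ => Iff.rfl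
  have hull : ∀ h' : (K ≃ₐ[ℚ] K) → ℝ, (∀ m : (K ≃ₐ[ℚ] K) → ℤ,
      (∀ h ∈ pull H0, ∑ σ, (m σ : ℝ) * h σ = 0) → ∑ σ, (m σ : ℝ) * h' σ = 0) →
      ∀ τ : K ≃ₐ[ℚ] K, (fun σ => h' (τ * σ)) ∈ pull H0 := by
    intro h' hh' τ
    set N := (H0.subgroupOf B).index with hN
    have hN0 : (N:ℝ) ≠ 0 := Nat.cast_ne_zero.2 hfin.index_ne_zero
    have hb : Emap ι (fun σ => ((N:ℝ)⁻¹ • h') (τ * σ)) ∈ B := by
      refine (hB _).2 fun p hp => poly_transfer p (pull H0)
        (fun h hh => (hB _).1 (hle hh) p hp) _ (fun m hm => ?_) τ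
      have := congrArg ((N:ℝ)⁻¹ * ·) (hh' m hm)
      simp only [Finset.mul_sum, mul_zero] at this
      rw [← this]
      exact Finset.sum_congr rfl fun σ _ => by simp [mul_left_comm]
    have := Subgroup.pow_index_mem (H := H0.subgroupOf B) ⟨_, hb⟩
    rw [Subgroup.mem_subgroupOf, Subgroup.coe_pow, ← Emap_nsmul] at this
    rw [hpull]
    convert this using 2
    funext σ
    simp [← hN, ← mul_assoc, mul_inv_cancel₀ hN0]
  let Hx : Submodule ℝ (Fin 3 → Fin 3 → ℝ) :=
    { carrier := {x | Fmap s x ∈ pull H0}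
      add_mem' := fun {a b} ha hb => by
        change Fmap s (a + b) ∈ pull H0
        rw [map_add]; exact (pull H0).add_mem ha hb
      zero_mem' := by
        change Fmap s 0 ∈ pull H0
        rw [map_zero]; exact (pull H0).zero_mem
      smul_mem' := fun c x hx => by
        change Fmap s (c • x) ∈ pull H0
        have := hull (Fmap s (c • x)) (fun m hm => by
          have := congrArg (c * ·) (hm _ hx)
          simp only [Finset.mul_sum, mul_zero] at this
          rw [← this, map_smul]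
          exact Finset.sum_congr rfl fun σ _ => by simp [mul_left_comm]) 1
        simp only [one_mul] at this
        exact this }
  have hHx : ∀ x, x ∈ Hx ↔ Fmap s x ∈ pull H0 := fun _ => Iff.rfl
  have hsub : ∀ h ∈ pull Lb, h ∈ LinearMap.range ((Fmap s).comp (phi (ell ι s))) := by
    intro h hh
    rw [hpull, hLb] at hh
    have h1 : Lg ι (Emap ι h) ∈ closure (Lg ι '' (D.Psi.range.map
      (Units.map (mixedEmbedding K : K →* mixedSpace K)))) :=
      image_closure_subset_closure_image Lg_cont ⟨_, hh, rfl⟩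
    rw [Lg_Emap] at h1
    refine closure_minimal ?_ (Submodule.closed_of_finiteDimensional _) h1
    rintro _ ⟨_, ⟨_, ⟨n, rfl⟩, rfl⟩, rfl⟩
    rw [D.Psi_eq, Lg_Emap]
    exact ⟨_, rfl⟩
  have hH0L : H0 ≤ Lb := by
    rintro _ ⟨x, -, rfl⟩
    exact x.2
  refine main_linear (ell ι s) D.indep ((pull Lb).comap (Fmap s).toAddMonoidHom) ?_ ?_ ?_ Hx
    (fun x hx => hH0L hx) ?_ ?_ ?_
  · exact hLc.preimage (Emap_cont.comp (LinearMap.continuous_of_finiteDimensional (Fmap s)))
  · intro n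
    change Emap ι (Fmap s _) ∈ Lb
    have := D.Psi_eq (Multiplicative.ofAdd n)
    simp only [toAdd_ofAdd] at this
    rw [← this, hLb]
    exact Subgroup.le_topologicalClosure _ ⟨_, ⟨_, rfl⟩, rfl⟩
  · intro x hx
    obtain ⟨m, hm⟩ := hsub _ hx
    exact ⟨m, D.F_inj hm⟩
  · intro v hv
    let γ : ℝ → Lb := fun t => ⟨Emap ι (Fmap s (t • v)), hv t⟩
    have hγ : Continuous γ := by
      refine Continuous.subtype_mk (Emap_cont.comp
        ((LinearMap.continuous_of_finiteDimensional (Fmap s)).comp (by fun_prop))) _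
    have h0 : γ 0 = 1 := by
      apply Subtype.ext
      simp [γ, Emap_zero]
    have := (isPreconnected_range hγ).subset_connectedComponent ⟨0, h0⟩ ⟨1, rfl⟩
    exact ⟨γ 1, this, by simp [γ]⟩
  · intro x hx l j
    have cl : ∀ τ : K ≃ₐ[ℚ] K, (fun i j => ∑ l, (Amat s τ j l : ℝ) * x i l) ∈ Hx := by
      intro τ
      have := hull (Fmap s x) (fun m hm => hm _ hx) τ
      simp only [D.F_mul] at this
      exact this
    obtain ⟨σ1, σ2, c, h⟩ := D.unit_matrix j l
    have := Hx.smul_mem (1/2) (Hx.add_mem (cl σ1) (Hx.smul_mem c (cl σ2)))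
    convert this using 1
    funext i j'
    simp only [Pi.smul_apply, Pi.add_apply, smul_eq_mul, Finset.mul_sum, ← Finset.sum_add_distrib]
    have : ∀ b, 1 / 2 * ((Amat s σ1 j' b : ℝ) * x i b + c * (Amat s σ2 j' b * x i b)) =
        if b = l then (if j' = j then x i b else 0) else 0 := by
      intro b
      have := congrArg (Int.cast : ℤ → ℝ) (h j' b)
      push_cast at this
      rw [← mul_assoc, ← add_mul, this]
      by_cases ha : j' = j <;> by_cases hb : b = l <;> simp [ha, hb]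
    simp only [this]
    simp
  · intro x hx
    have sw : ∀ (m : (K ≃ₐ[ℚ] K) → ℤ) (y : Fin 3 → Fin 3 → ℝ), ∑ σ, (m σ : ℝ) * Fmap s y σ =
        ∑ i, ∑ j, ((∑ σ, m σ * Amat s σ i j : ℤ) : ℝ) * y i j := by
      intro m y
      simp only [Fmap_apply, Int.cast_sum, Int.cast_mul, Finset.sum_mul, Finset.mul_sum]
      rw [Finset.sum_comm]
      refine Finset.sum_congr rfl fun i _ => ?_
      rw [Finset.sum_comm]
      simp [mul_assoc]
    have := hull (Fmap s x) (fun m hm => by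
      rw [sw]
      exact hx _ fun h hh => by rw [← sw]; exact hm _ hh) 1
    simp only [one_mul] at this
    exact this

end Pool.Agent.H2.Tori
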