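import Pool.Agent.H2.PDDefs

open MvPolynomial Pool.Agent.Lead.POG

namespace Pool.Agent.H2.Univ

variable {K : Type} [Field K] {l d : ℕ}

/-- `D(A, m)`. -/
def multiDer (a : Fin d → Fin l → K) (m : Fin d → ℕ) :
    Set (Derivation K (MvPolynomial (Fin l) K) (MvPolynomial (Fin l) K)) :=
  {θ | ∀ j, lin (a j) ^ m j ∣ θ (lin (a j))}

/-- `∇_φ θ = ∑ φ(θ(x_i)) ∂_i`. -/
noncomputable def nabla (φ θ : Derivation K (MvPolynomial (Fin l) K) (MvPolynomial (Fin l) K)) :
    Derivation K (MvPolynomial (Fin l) K) (MvPolynomial (Fin l) K) :=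
  mkDerivation K fun i => φ (θ (X i))

/-- A universal derivation for `(A, μ)`: homogeneous, in `D(A, μ)`, and the `S`-linear map
`φ ↦ ∇_φ θ` is a bijection from all derivations onto `D(A, μ - 1)`. -/
def IsUniversal (a : Fin d → Fin l → K) (μ : Fin d → ℕ)
    (θ : Derivation K (MvPolynomial (Fin l) K) (MvPolynomial (Fin l) K)) : Prop :=
  (∃ e, ∀ i, (θ (X i)).IsHomogeneous e) ∧ θ ∈ multiDer a μ ∧
    Set.BijOn (fun φ => nabla φ θ) Set.univ (multiDer a fun j => μ j - 1)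

/-- `(b, ν)` is the localization of `(a, μ)` at `Y`, written in the coordinates on `V / Y` given by
a linear surjection `π : V → K^r` with kernel `Y`. -/
def IsLocalizationAt (a : Fin d → Fin l → K) (μ : Fin d → ℕ) (Y : Submodule K (Fin l → K))
    {r e : ℕ} (b : Fin e → Fin r → K) (ν : Fin e → ℕ) : Prop :=
  ∃ (π : (Fin l → K) →ₗ[K] (Fin r → K)) (ι : Fin e → Fin d), Function.Surjective π ∧
    LinearMap.ker π = Y ∧ Function.Injective ι ∧ Set.range ι = {j | Y ≤ hyp (a j)} ∧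
    (∀ j v, ∑ i, b j i * π v i = ∑ i, a (ι j) i * v i) ∧ ∀ j, ν j = μ (ι j)

end Pool.Agent.H2.Univ
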