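import Mathlib

namespace Pool.Agent.H2.VH

open Set

variable {E : Type*} [NormedAddCommGroup E] [NormedSpace ℝ E] [FiniteDimensional ℝ E]

/-- functionals with zero partial sum have a common kernel vector -/
theorem exists_ker {n : ℕ} (hn : Module.finrank ℝ E = n) (χ : Fin n → E →ₗ[ℝ] ℝ)
    (I : Finset (Fin n)) (hI : I.Nonempty) (h : ∀ v, ∑ i ∈ I, χ i v = 0) :
    ∃ v : E, v ≠ 0 ∧ ∀ i, χ i v = 0 := by
  let Φ : E →ₗ[ℝ] (Fin n → ℝ) := LinearMap.pi χ
  have hns : ¬ Function.Surjective Φ := by
    intro hs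
    obtain ⟨v, hv⟩ := hs (fun _ => 1)
    have h1 := h v
    have h2 : ∀ i, χ i v = 1 := fun i => congrFun hv i
    simp only [h2, Finset.sum_const, nsmul_eq_mul, mul_one, Nat.cast_eq_zero,
      Finset.card_eq_zero] at h1
    exact hI.ne_empty h1
  have hni : ¬ Function.Injective Φ := by
    rwa [LinearMap.injective_iff_surjective_of_finrank_eq_finrank (by simp [hn])]
  rw [← LinearMap.ker_eq_bot] at hni
  obtain ⟨v, hv, hv0⟩ := Submodule.exists_mem_ne_zero_of_ne_bot hni
  exact ⟨v, hv0, fun i => congrFun (LinearMap.mem_ker.1 hv) i⟩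

/-- common ray, compact case -/
theorem ray_compact {n : ℕ} (hn : Module.finrank ℝ E = n) (hn1 : 1 ≤ n) (T : Fin n → Set E)
    (hc : ∀ i, IsCompact (T i)) (hv : ∀ i, Convex ℝ (T i)) (hne : ∀ i, (T i).Nonempty)
    (h0 : ∀ i, (0 : E) ∉ T i) (hl : ∀ v : E, v ≠ 0 → ∃ i, ∃ t : ℝ, t • v ∈ T i) :
    ∃ v : E, ∀ i, ∃ a : ℝ, 0 < a ∧ a • v ∈ T i := by
  classical
  let F : (Fin n → ℝ) × (Fin n → E) → (Fin n → E) := fun z i => z.1 i • z.2 i
  let K : Set (Fin n → E) := F '' (stdSimplex ℝ (Fin n) ×ˢ Set.pi univ T)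
  have hF : Continuous F := by
    refine continuous_pi fun i => ?_
    exact ((continuous_apply i).comp continuous_fst).smul ((continuous_apply i).comp continuous_snd)
  have hK : IsCompact K :=
    ((isCompact_stdSimplex ℝ (Fin n)).prod (isCompact_univ_pi hc)).image hF
  have hKc : Convex ℝ K := by
    rintro _ ⟨⟨l, p⟩, ⟨hl1, hp⟩, rfl⟩ _ ⟨⟨m, q⟩, ⟨hm1, hq⟩, rfl⟩ a b ha hb hab
    refine ⟨⟨a • l + b • m, fun i => if a * l i + b * m i = 0 then p i else
      (a * l i / (a * l i + b * m i)) • p i + (b * m i / (a * l i + b * m i)) • q i⟩,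
      ⟨convex_stdSimplex ℝ (Fin n) hl1 hm1 ha hb hab, fun i _ => ?_⟩, ?_⟩
    · have h1 : 0 ≤ a * l i := mul_nonneg ha (hl1.1 i)
      have h2 : 0 ≤ b * m i := mul_nonneg hb (hm1.1 i)
      dsimp only
      split_ifs with h
      · exact hp i trivial
      · refine hv i (hp i trivial) (hq i trivial) (by positivity) (by positivity) ?_
        field_simp
    · funext i
      have h1 : 0 ≤ a * l i := mul_nonneg ha (hl1.1 i)
      have h2 : 0 ≤ b * m i := mul_nonneg hb (hm1.1 i)
      simp only [F, Pi.add_apply, Pi.smul_apply, smul_eq_mul]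
      split_ifs with h
      · have h3 : a * l i = 0 := by linarith
        have h4 : b * m i = 0 := by linarith
        rw [h, smul_smul, smul_smul, h3, h4]; simp
      · rw [smul_add, smul_smul, smul_smul, smul_smul, smul_smul]
        congr 2 <;> field_simp
  let D : Set (Fin n → E) := {z | ∀ i j, z i = z j}
  have hD : IsClosed D := by
    simp only [D, setOf_forall]
    exact isClosed_iInter fun i => isClosed_iInter fun j =>
      isClosed_eq (continuous_apply i) (continuous_apply j)
  have hDc : Convex ℝ D := by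
    intro x hx y hy a b _ _ _ i j
    simp only [Pi.add_apply, Pi.smul_apply, hx i j, hy i j]
  by_cases hd : Disjoint K D
  · exfalso
    obtain ⟨f, u, w, hf1, huw, hf2⟩ := geometric_hahn_banach_compact_closed hKc hK hDc hD hd
    have hw : w < 0 := by simpa using hf2 0 (fun _ _ => rfl)
    have hz : ∀ v : E, f (fun _ => v) = 0 := by
      intro v
      by_contra hne0
      have h1 := hf2 (fun _ => (w / f (fun _ => v)) • v) (fun _ _ => rfl)
      have h2 : (fun _ : Fin n => (w / f (fun _ => v)) • v) =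
          (w / f (fun _ => v)) • (fun _ : Fin n => v) := rfl
      rw [h2, map_smul, smul_eq_mul, div_mul_cancel₀ _ hne0] at h1
      exact lt_irrefl _ h1
    let χ : Fin n → E →ₗ[ℝ] ℝ := fun i => f.toLinearMap ∘ₗ LinearMap.single ℝ (fun _ => E) i
    have hχ : ∀ i v, χ i v = f (Pi.single i v) := fun i v => rfl
    haveI : Nonempty (Fin n) := ⟨⟨0, hn1⟩⟩
    obtain ⟨v, hv0, hv1⟩ := exists_ker hn χ Finset.univ Finset.univ_nonempty (by
      intro v
      simp only [hχ]
      rw [← map_sum, ← hz v]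
      congr 1
      funext j
      simp [Finset.sum_apply, Pi.single_apply])
    obtain ⟨i, t, ht⟩ := hl v hv0
    choose p hp using hne
    have hmem : (Pi.single i (t • v) : Fin n → E) ∈ K := by
      refine ⟨⟨Pi.single i 1, Function.update p i (t • v)⟩,
        ⟨single_mem_stdSimplex ℝ i, fun j _ => ?_⟩, ?_⟩
      · by_cases hj : j = i
        · subst hj; simpa using ht
        · simpa [Function.update_of_ne hj] using hp j
      · funext j
        by_cases hj : j = i
        · subst hj; simp [F]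
        · simp [F, Pi.single_eq_of_ne hj]
    have h1 := hf1 _ hmem
    rw [← hχ, map_smul, hv1, smul_zero] at h1
    linarith
  · rw [Set.not_disjoint_iff] at hd
    obtain ⟨_, ⟨⟨l, p⟩, ⟨hl1, hp⟩, rfl⟩, hz⟩ := hd
    have hex : ∃ k, l k ≠ 0 := by
      by_contra hcon
      push Not at hcon
      have := hl1.2
      simp [hcon] at this
    obtain ⟨k, hk⟩ := hex
    have hpk : p k ≠ 0 := fun h => h0 k (h ▸ hp k trivial)
    have hvk : l k • p k ≠ 0 := smul_ne_zero hk hpk
    refine ⟨l k • p k, fun i => ?_⟩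
    have hik : l i • p i = l k • p k := hz i k
    have hli : l i ≠ 0 := by
      intro h
      rw [h, zero_smul] at hik
      exact hvk hik.symm
    have hpos : 0 < l i := lt_of_le_of_ne (hl1.1 i) (Ne.symm hli)
    refine ⟨(l i)⁻¹, inv_pos.2 hpos, ?_⟩
    rw [← hik, smul_smul, inv_mul_cancel₀ hli, one_smul]
    exact hp i trivial

end Pool.Agent.H2.VH
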