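import Mathlib

namespace Pool.Agent.H2.VH

open Set

abbrev E3 := EuclideanSpace ℝ (Fin 3)

def S1 : Set E3 := {p | 0 ≤ p 0 ∧ 0 ≤ p 1 ∧ 0 ≤ p 2 ∧ (0 < p 0 ∨ p 1 < p 2) ∧
  10 ≤ p 0 + p 1 + p 2 ∧ p 0 + p 1 + p 2 ≤ 20}
def S2 : Set E3 := {p | 0 < p 1 ∧ p 0 < p 1 ∧ p 2 ≤ 0 ∧ (p 2 < 0 ∨ p 0 ≤ 0) ∧
  1 ≤ -p 0 + 2 * p 1 - p 2 ∧ -p 0 + 2 * p 1 - p 2 ≤ 2}
def S3 : Set E3 := {p | p 0 ≤ 0 ∧ p 0 ≤ p 1 ∧ 0 < p 2 ∧ (p 0 < 0 ∨ p 2 ≤ p 1) ∧
  100 ≤ -2 * p 0 + p 1 + p 2 ∧ -2 * p 0 + p 1 + p 2 ≤ 200}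

def Hull (x : E3) : Prop :=
  ∀ v : E3, v ≠ 0 → ∃ t : ℝ, x + t • v ∈ S1 ∨ x + t • v ∈ S2 ∨ x + t • v ∈ S3

theorem vec_ne (a b c : ℝ) (h : a ≠ 0 ∨ b ≠ 0 ∨ c ≠ 0) : (!₂[a, b, c] : E3) ≠ 0 := by
  intro h0
  have h1 := congrArg (fun p : E3 => p 0) h0
  have h2 := congrArg (fun p : E3 => p 1) h0
  have h3 := congrArg (fun p : E3 => p 2) h0
  simp at h1 h2 h3
  tauto

theorem hull_line {x : E3} (hx : Hull x) (a b c : ℝ) (h : a ≠ 0 ∨ b ≠ 0 ∨ c ≠ 0) :
    ∃ t : ℝ, ∃ p : E3, p 0 = x 0 + t * a ∧ p 1 = x 1 + t * b ∧ p 2 = x 2 + t * c ∧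
      (p ∈ S1 ∨ p ∈ S2 ∨ p ∈ S3) := by
  obtain ⟨t, ht⟩ := hx _ (vec_ne a b c h)
  exact ⟨t, _, by simp, by simp, by simp, ht⟩

theorem not_g3 {x : E3} (hx : Hull x) : -2 * x 0 + x 1 + x 2 ≠ 50 := by
  intro h
  obtain ⟨t, p, h0, h1, h2, hp⟩ := hull_line hx 1 2 0 (by simp)
  rcases hp with hp | hp | hp <;> obtain ⟨a1, a2, a3, a4, a5, a6⟩ := hp <;> linarith

theorem not_g1 {x : E3} (hx : Hull x) (h3 : -2 * x 0 + x 1 + x 2 < 50) :
    x 0 + x 1 + x 2 ≠ 7 := by
  intro h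
  obtain ⟨t, p, h0, h1, h2, hp⟩ := hull_line hx 0 1 (-1) (by simp)
  rcases hp with hp | hp | hp <;> obtain ⟨a1, a2, a3, a4, a5, a6⟩ := hp <;> linarith

theorem isolated {x : E3} (hx : Hull x) (ha : |x 0| < 1 / 10) (hb : |x 1| < 1 / 10)
    (hc : |x 2| < 1 / 10) : x = 0 := by
  rw [abs_lt] at ha hb hc
  obtain ⟨ha1, ha2⟩ := ha
  obtain ⟨hb1, hb2⟩ := hb
  obtain ⟨hc1, hc2⟩ := hc
  have hz : x 2 = 0 := by
    rcases lt_trichotomy (x 2) 0 with h | h | h
    · exfalso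
      obtain ⟨t, p, h0, h1, h2, hp⟩ := hull_line hx 2 1 0 (by simp)
      rcases hp with hp | hp | hp <;> obtain ⟨a1, a2, a3, a4, a5, a6⟩ := hp <;> linarith
    · exact h
    · exfalso
      obtain ⟨t, p, h0, h1, h2, hp⟩ := hull_line hx 1 2 (-x 2) (by simp)
      rcases hp with hp | hp | hp <;> obtain ⟨a1, a2, a3, a4, a5, a6⟩ := hp
      · have ht : t ≤ 1 := by by_contra hh; nlinarith
        have ht0 : -1 ≤ t := by linarith
        nlinarith
      · have ht : 1 ≤ t := by by_contra hh; nlinarith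
        linarith
      · have ht : t ≤ 1 := by by_contra hh; nlinarith
        have ht0 : -1 ≤ t := by linarith
        nlinarith
  have hy : 0 ≤ x 1 := by
    by_contra h
    obtain ⟨t, p, h0, h1, h2, hp⟩ := hull_line hx 1 0 1 (by simp)
    rcases hp with hp | hp | hp <;> obtain ⟨a1, a2, a3, a4, a5, a6⟩ := hp <;> linarith
  have hx0 : x 0 = 0 := by
    rcases lt_trichotomy (x 0) 0 with h | h | h
    · exfalso
      obtain ⟨t, p, h0, h1, h2, hp⟩ := hull_line hx (-x 0 / 15) 1 1 (by simp)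
      rcases hp with hp | hp | hp <;> obtain ⟨a1, a2, a3, a4, a5, a6⟩ := hp
      · have ht : 15 ≤ t := by by_contra hh; nlinarith
        linarith
      · have ht : t ≤ 0 := by linarith
        have ht0 : -1 / 10 ≤ t := by linarith
        nlinarith
      · have ht : t ≤ 15 := by by_contra hh; nlinarith
        have ht0 : 0 ≤ t := by linarith
        nlinarith
    · exact h
    · exfalso
      obtain ⟨t, p, h0, h1, h2, hp⟩ := hull_line hx (-x 0 / 2) 1 0 (by simp)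
      rcases hp with hp | hp | hp <;> obtain ⟨a1, a2, a3, a4, a5, a6⟩ := hp
      · have ht : t ≤ 2 := by by_contra hh; nlinarith
        have ht0 : -1 ≤ t := by linarith
        nlinarith
      · have hp0 : p 0 ≤ 0 := by rcases a4 with a4 | a4 <;> linarith
        have ht : 2 ≤ t := by by_contra hh; nlinarith
        linarith
      · linarith
  have hx1 : x 1 = 0 := by
    by_contra h
    have h' : 0 < x 1 := lt_of_le_of_ne hy (Ne.symm h)
    obtain ⟨t, p, h0, h1, h2, hp⟩ := hull_line hx 0 1 (1 + x 1 / 15) (by simp)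
    rcases hp with hp | hp | hp <;> obtain ⟨a1, a2, a3, a4, a5, a6⟩ := hp
    · have hp0 : p 1 < p 2 := by rcases a4 with a4 | a4 <;> linarith
      have ht : 15 ≤ t := by by_contra hh; nlinarith
      linarith
    · have ht : t ≤ 0 := by by_contra hh; nlinarith
      have ht0 : -1 / 10 ≤ t := by linarith
      nlinarith
    · have hp0 : p 2 ≤ p 1 := by rcases a4 with a4 | a4 <;> linarith
      have ht : t ≤ 15 := by by_contra hh; nlinarith
      linarith
  ext i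
  fin_cases i
  · exact hx0
  · exact hx1
  · exact hz

theorem ray1 (v : E3) (h0 : 0 ≤ v 0) (h1 : 0 ≤ v 1) (h2 : 0 ≤ v 2) (h : 0 < v 0 ∨ v 1 < v 2) :
    ∃ t : ℝ, t • v ∈ S1 := by
  have hg : 0 < v 0 + v 1 + v 2 := by rcases h with h | h <;> linarith
  have ht : 0 < 15 / (v 0 + v 1 + v 2) := by positivity
  have he : 15 / (v 0 + v 1 + v 2) * (v 0 + v 1 + v 2) = 15 := by field_simp
  refine ⟨15 / (v 0 + v 1 + v 2), ?_⟩
  generalize 15 / (v 0 + v 1 + v 2) = t at ht he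
  simp only [S1, mem_setOf_eq, PiLp.smul_apply, smul_eq_mul]
  refine ⟨by positivity, by positivity, by positivity, ?_, by linarith, by linarith⟩
  rcases h with h | h
  · left; positivity
  · right; exact mul_lt_mul_of_pos_left h ht

theorem ray2 (v : E3) (h0 : 0 < v 1) (h1 : v 0 < v 1) (h2 : v 2 ≤ 0) (h : v 2 < 0 ∨ v 0 ≤ 0) :
    ∃ t : ℝ, t • v ∈ S2 := by
  have hg : 0 < -v 0 + 2 * v 1 - v 2 := by linarith
  have ht : 0 < 1 / (-v 0 + 2 * v 1 - v 2) := by positivity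
  have he : 1 / (-v 0 + 2 * v 1 - v 2) * (-v 0 + 2 * v 1 - v 2) = 1 := by field_simp
  refine ⟨1 / (-v 0 + 2 * v 1 - v 2), ?_⟩
  generalize 1 / (-v 0 + 2 * v 1 - v 2) = t at ht he
  simp only [S2, mem_setOf_eq, PiLp.smul_apply, smul_eq_mul]
  refine ⟨by positivity, mul_lt_mul_of_pos_left h1 ht, by nlinarith, ?_, by linarith, by linarith⟩
  rcases h with h | h
  · left; nlinarith
  · right; nlinarith

theorem ray3 (v : E3) (h0 : v 0 ≤ 0) (h1 : v 0 ≤ v 1) (h2 : 0 < v 2) (h : v 0 < 0 ∨ v 2 ≤ v 1) :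
    ∃ t : ℝ, t • v ∈ S3 := by
  have hg : 0 < -2 * v 0 + v 1 + v 2 := by linarith
  have ht : 0 < 150 / (-2 * v 0 + v 1 + v 2) := by positivity
  have he : 150 / (-2 * v 0 + v 1 + v 2) * (-2 * v 0 + v 1 + v 2) = 150 := div_mul_cancel₀ _ hg.ne'
  refine ⟨150 / (-2 * v 0 + v 1 + v 2), ?_⟩
  generalize 150 / (-2 * v 0 + v 1 + v 2) = t at ht he
  simp only [S3, mem_setOf_eq, PiLp.smul_apply, smul_eq_mul]
  refine ⟨by nlinarith, by nlinarith, by positivity, ?_, by linarith, by linarith⟩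
  rcases h with h | h
  · left; nlinarith
  · right; nlinarith

def Cov (v : E3) : Prop := ∃ t : ℝ, t • v ∈ S1 ∨ t • v ∈ S2 ∨ t • v ∈ S3

theorem Cov.neg {v : E3} (h : Cov (-v)) : Cov v := by
  obtain ⟨t, ht⟩ := h
  exact ⟨-t, by simpa using ht⟩

theorem cov1 {v : E3} (h : ∃ t : ℝ, t • v ∈ S1) : Cov v := h.imp fun _ h => Or.inl h
theorem cov2 {v : E3} (h : ∃ t : ℝ, t • v ∈ S2) : Cov v := h.imp fun _ h => Or.inr (Or.inl h)
theorem cov3 {v : E3} (h : ∃ t : ℝ, t • v ∈ S3) : Cov v := h.imp fun _ h => Or.inr (Or.inr h)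

theorem cov_up (v : E3) (h : 0 < v 2) : Cov v := by
  by_cases h1 : v 1 < 0 ∧ v 1 < v 0
  · refine Cov.neg (cov2 (ray2 _ ?_ ?_ ?_ (Or.inl ?_))) <;> simp only [PiLp.neg_apply] <;>
      linarith [h1.1, h1.2]
  · rcases lt_trichotomy (v 0) 0 with h0 | h0 | h0
    · exact cov3 (ray3 _ h0.le (by by_contra hh; exact h1 ⟨by linarith, by linarith⟩) h (Or.inl h0))
    · have hy : 0 ≤ v 1 := by by_contra hh; exact h1 ⟨by linarith, by linarith⟩
      by_cases h2 : v 1 < v 2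
      · exact cov1 (ray1 _ h0.ge hy h.le (Or.inr h2))
      · exact cov3 (ray3 _ h0.le (by linarith) h (Or.inr (by linarith)))
    · have hy : 0 ≤ v 1 := by by_contra hh; exact h1 ⟨by linarith, by linarith⟩
      exact cov1 (ray1 _ h0.le hy h.le (Or.inl h0))

theorem cov_flat (v : E3) (h : v 2 = 0) (h1 : 0 < v 1 ∨ (v 1 = 0 ∧ 0 < v 0)) : Cov v := by
  by_cases h0 : 0 < v 0
  · exact cov1 (ray1 _ h0.le (by rcases h1 with h1 | h1 <;> [linarith; linarith [h1.1]]) h.ge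
      (Or.inl h0))
  · have hy : 0 < v 1 := by rcases h1 with h1 | h1; exacts [h1, absurd h1.2 h0]
    exact cov2 (ray2 _ hy (by linarith) h.le (Or.inr (by linarith)))

theorem hull_zero : Hull 0 := by
  intro v hv
  have : Cov v := by
    rcases lt_trichotomy (v 2) 0 with h | h | h
    · exact Cov.neg (cov_up _ (by simpa using h))
    · rcases lt_trichotomy (v 1) 0 with h1 | h1 | h1
      · exact Cov.neg (cov_flat _ (by simpa using h) (Or.inl (by simpa using h1)))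
      · rcases lt_trichotomy (v 0) 0 with h0 | h0 | h0
        · exact Cov.neg (cov_flat _ (by simpa using h)
            (Or.inr ⟨by simpa using h1, by simpa using h0⟩))
        · exfalso; apply hv; ext i; fin_cases i; exacts [h0, h1, h]
        · exact cov_flat _ h (Or.inr ⟨h1, h0⟩)
      · exact cov_flat _ h (Or.inl h1)
    · exact cov_up _ h
  simpa [Cov] using this

theorem conv1 : Convex ℝ S1 := by
  rintro x ⟨a1, a2, a3, a4, a5, a6⟩ y ⟨b1, b2, b3, b4, b5, b6⟩ a b ha hb hab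
  simp only [S1, mem_setOf_eq, PiLp.add_apply, PiLp.smul_apply, smul_eq_mul]
  refine ⟨by positivity, by positivity, by positivity, ?_, by nlinarith, by nlinarith⟩
  rcases ha.eq_or_lt with rfl | ha'
  · have : b = 1 := by linarith
    subst this; simpa using b4
  rcases hb.eq_or_lt with rfl | hb'
  · have : a = 1 := by linarith
    subst this; simpa using a4
  rcases a4 with a4 | a4
  · left; positivity
  rcases b4 with b4 | b4
  · left; positivity
  · right; nlinarith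

theorem conv2 : Convex ℝ S2 := by
  rintro x ⟨a1, a2, a3, a4, a5, a6⟩ y ⟨b1, b2, b3, b4, b5, b6⟩ a b ha hb hab
  simp only [S2, mem_setOf_eq, PiLp.add_apply, PiLp.smul_apply, smul_eq_mul]
  rcases ha.eq_or_lt with rfl | ha'
  · have : b = 1 := by linarith
    subst this; simpa using ⟨b1, b2, b3, b4, by linarith, by linarith⟩
  rcases hb.eq_or_lt with rfl | hb'
  · have : a = 1 := by linarith
    subst this; simpa using ⟨a1, a2, a3, a4, by linarith, by linarith⟩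
  refine ⟨by positivity, by nlinarith, by nlinarith, ?_, by nlinarith, by nlinarith⟩
  rcases a4 with a4 | a4
  · left; nlinarith
  rcases b4 with b4 | b4
  · left; nlinarith
  · right; nlinarith

theorem conv3 : Convex ℝ S3 := by
  rintro x ⟨a1, a2, a3, a4, a5, a6⟩ y ⟨b1, b2, b3, b4, b5, b6⟩ a b ha hb hab
  simp only [S3, mem_setOf_eq, PiLp.add_apply, PiLp.smul_apply, smul_eq_mul]
  rcases ha.eq_or_lt with rfl | ha'
  · have : b = 1 := by linarith
    subst this; simpa using ⟨b1, b2, b3, b4, by linarith, by linarith⟩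
  rcases hb.eq_or_lt with rfl | hb'
  · have : a = 1 := by linarith
    subst this; simpa using ⟨a1, a2, a3, a4, by linarith, by linarith⟩
  refine ⟨by nlinarith, by nlinarith, by positivity, ?_, by nlinarith, by nlinarith⟩
  rcases a4 with a4 | a4
  · left; nlinarith
  rcases b4 with b4 | b4
  · left; nlinarith
  · right; nlinarith

end Pool.Agent.H2.VH
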