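import Pool.Agent.H2.VNDefs
import Pool.Agent.H2.Mon1

open MvPolynomial Pool.Agent.H2.Mon

namespace Pool.Agent.H2.VN

variable {n : ℕ} {K : Type} [Field K]

/-- the monomial ideal of an upward closed set of exponents -/
def UI (K : Type) [Field K] (U : (Fin n → ℕ) → Prop) (hU : ∀ u v, U u → U (u + v)) :
    Ideal (MvPolynomial (Fin n) K) where
  carrier := {f | ∀ m ∈ f.support, U m}
  add_mem' := by
    classical
    intro f g hf hg m hm
    rcases Finset.mem_union.1 (support_add hm) with h | h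
    exacts [hf m h, hg m h]
  zero_mem' := by simp
  smul_mem' := by
    classical
    intro c f hf m hm
    obtain ⟨a, -, b, hb, rfl⟩ := Finset.mem_add.1 (support_mul _ _ hm)
    have := hU _ a (hf b hb)
    rwa [add_comm] at this

lemma mem_UI {U : (Fin n → ℕ) → Prop} {hU} {f : MvPolynomial (Fin n) K} :
    f ∈ UI K U hU ↔ ∀ m ∈ f.support, U m := Iff.rfl

lemma mon_UI {U : (Fin n → ℕ) → Prop} {hU} {w : Fin n → ℕ} : mon K w ∈ UI K U hU ↔ U w := by
  classical
  rw [mem_UI, mon, support_monomial]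
  simp

lemma mon_ne (w : Fin n → ℕ) : mon K w ≠ 0 := by simp [mon]

lemma le_of_mon {U : (Fin n → ℕ) → Prop} {hU} {J : Ideal (MvPolynomial (Fin n) K)}
    (h : ∀ w, U w → mon K w ∈ J) : UI K U hU ≤ J := by
  intro f hf
  rw [f.as_sum]
  refine Ideal.sum_mem _ fun m hm => ?_
  have := Ideal.mul_mem_left _ (C (coeff m f)) (h m (hf m hm))
  rwa [mon, C_mul_monomial, mul_one, Finsupp.equivFunOnFinite_symm_coe] at this

lemma mul_UI {U V W : (Fin n → ℕ) → Prop} {hU hV hW} (h : ∀ u v, U u → V v → W (u + v)) :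
    UI K U hU * UI K V hV ≤ UI K W hW := by
  classical
  refine Ideal.mul_le.2 fun f hf g hg m hm => ?_
  obtain ⟨a, ha, b, hb, rfl⟩ := Finset.mem_add.1 (support_mul _ _ hm)
  exact h _ _ (hf a ha) (hg b hb)

lemma mon_mul_UI {U : (Fin n → ℕ) → Prop} {hU} {f : MvPolynomial (Fin n) K} {w : Fin n → ℕ} :
    mon K w * f ∈ UI K U hU ↔ ∀ m ∈ f.support, U (w + m) := by
  constructor
  · intro h m hm
    have := h (Finsupp.equivFunOnFinite.symm w + m) (by
      rw [mem_support_iff, mon, coeff_monomial_mul, one_mul]; exact mem_support_iff.1 hm)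
    simpa using this
  · classical
    intro h m hm
    obtain ⟨a, ha, b, hb, rfl⟩ := Finset.mem_add.1 (support_mul _ _ hm)
    rw [mon, support_monomial] at ha
    simp at ha
    subst ha
    simpa using h b hb

lemma X_mul_UI {U : (Fin n → ℕ) → Prop} {hU} {f : MvPolynomial (Fin n) K} {i : Fin n} :
    X i * f ∈ UI K U hU ↔ ∀ m ∈ f.support, U ((Pi.single i 1 : Fin n → ℕ) + (m : Fin n → ℕ)) := by
  rw [← mon_single, mon_mul_UI]

lemma colon_ass {J : Ideal (MvPolynomial (Fin n) K)} {f : MvPolynomial (Fin n) K}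
    (h : (J.colon {f}).IsPrime) : J.colon {f} ∈ Ass J :=
  (mem_ass _ _).2 ⟨h, f, fun _ => Submodule.mem_colon_singleton⟩

lemma PX_max : (PX K (Finset.univ : Finset (Fin n))).IsMaximal := by
  have : PX K (Finset.univ : Finset (Fin n)) = RingHom.ker constantCoeff := by
    ext f
    rw [mem_ideal_span_X_image, RingHom.mem_ker, constantCoeff_eq]
    constructor
    · intro h
      by_contra e
      simpa using h 0 (mem_support_iff.2 e)
    · intro h m hm
      by_contra e
      have : m = 0 := by ext i; simpa using fun h => e ⟨i, by simp, h⟩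
      exact mem_support_iff.1 hm (this ▸ h)
  rw [this]
  exact RingHom.ker_isMaximal_of_surjective _ fun a => ⟨C a, by simp⟩

/-- the colon of a monomial ideal by a monomial -/
lemma colon_eq {U : (Fin n → ℕ) → Prop} {hU} {w : Fin n → ℕ} {T : Finset (Fin n)}
    (h : ∀ m, U (w + m) ↔ ∃ i ∈ T, m i ≠ 0) : (UI K U hU).colon {mon K w} = PX K T := by
  ext r
  rw [Submodule.mem_colon_singleton, smul_eq_mul, mul_comm, mon_mul_UI, mem_ideal_span_X_image]
  exact forall₂_congr fun m _ => h m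

lemma sInf_eq {s : Set ℕ} {a : ℕ} (h1 : a ∈ s) (h2 : ∀ b ∈ s, a ≤ b) : sInf s = a :=
  IsLeast.csInf_eq ⟨h1, h2⟩

lemma hom_monI (B : Set (Fin n → ℕ)) : IsHom (Ideal.span (mon K '' B)) :=
  ⟨_, by rintro _ ⟨w, -, rfl⟩; exact ⟨_, mon_hom w⟩, rfl⟩

lemma mon_dvd {u v : Fin n → ℕ} (h : ∀ i, u i ≤ v i) : mon K u ∣ mon K v :=
  ⟨mon K (v - u), by rw [← mon_add]; congr 1; ext i; have := h i; simp; omega⟩

end Pool.Agent.H2.VN
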