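import Pool.Agent.H2.VN1

open MvPolynomial Pool.Agent.H2.Mon

namespace Pool.Agent.H2.VN.Ex1

variable {K : Type} [Field K]

/-- The ideal `(xy, xz, yz, x^5, y^5, z^5)`. -/
noncomputable def I (K : Type) [Field K] : Ideal (MvPolynomial (Fin 3) K) :=
  Ideal.span {X 0 * X 1, X 0 * X 2, X 1 * X 2, X 0 ^ 5, X 1 ^ 5, X 2 ^ 5}

def U (w : Fin 3 → ℕ) : Prop :=
  (1 ≤ w 0 ∧ 1 ≤ w 1) ∨ (1 ≤ w 0 ∧ 1 ≤ w 2) ∨ (1 ≤ w 1 ∧ 1 ≤ w 2) ∨ 5 ≤ w 0 ∨ 5 ≤ w 1 ∨ 5 ≤ w 2

lemma hU : ∀ u v, U u → U (u + v) := fun u v h => by simp only [U, Pi.add_apply] at h ⊢; omega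

lemma mon3 (w : Fin 3 → ℕ) : mon K w = X 0 ^ w 0 * X 1 ^ w 1 * X 2 ^ w 2 := by
  rw [mon, monomial_eq, Finsupp.prod_fintype _ _ (by simp)]
  simp [Fin.prod_univ_three]

lemma mem {w : Fin 3 → ℕ} (h : U w) : mon K w ∈ I K := by
  have key : ∀ u : Fin 3 → ℕ, mon K u ∈ I K → (∀ i, u i ≤ w i) → mon K w ∈ I K :=
    fun u hu h => Ideal.mem_of_dvd _ (mon_dvd h) hu
  rcases h with h | h | h | h | h | h
  · exact key ![1, 1, 0] (Ideal.subset_span (by simp [mon3])) (by simp [Fin.forall_fin_succ, h])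
  · exact key ![1, 0, 1] (Ideal.subset_span (by simp [mon3])) (by simp [Fin.forall_fin_succ, h])
  · exact key ![0, 1, 1] (Ideal.subset_span (by simp [mon3])) (by simp [Fin.forall_fin_succ, h])
  · exact key ![5, 0, 0] (Ideal.subset_span (by simp [mon3])) (by simp [Fin.forall_fin_succ, h])
  · exact key ![0, 5, 0] (Ideal.subset_span (by simp [mon3])) (by simp [Fin.forall_fin_succ, h])
  · exact key ![0, 0, 5] (Ideal.subset_span (by simp [mon3])) (by simp [Fin.forall_fin_succ, h])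

lemma I_eq : I K = UI K U hU := by
  refine le_antisymm (Ideal.span_le.2 fun f hf => ?_) (le_of_mon fun _ => mem)
  have key : ∀ w : Fin 3 → ℕ, U w → f = mon K w → f ∈ UI K U hU := fun w h e => e ▸ mon_UI.2 h
  rcases hf with rfl | rfl | rfl | rfl | rfl | rfl
  · exact key ![1, 1, 0] (by simp [U]) (by simp [mon3])
  · exact key ![1, 0, 1] (by simp [U]) (by simp [mon3])
  · exact key ![0, 1, 1] (by simp [U]) (by simp [mon3])
  · exact key ![5, 0, 0] (by simp [U]) (by simp [mon3])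
  · exact key ![0, 5, 0] (by simp [U]) (by simp [mon3])
  · exact key ![0, 0, 5] (by simp [U]) (by simp [mon3])

lemma hom : IsHom (I K) := by
  refine ⟨_, ?_, rfl⟩
  rintro f (rfl | rfl | rfl | rfl | rfl | rfl)
  iterate 3 exact ⟨_, (isHomogeneous_X _ _).mul (isHomogeneous_X _ _)⟩
  iterate 3 exact ⟨_, (isHomogeneous_X _ _).pow 5⟩

lemma X5 (i : Fin 3) : (X i : MvPolynomial (Fin 3) K) ^ 5 ∈ I K := by
  fin_cases i <;> exact Ideal.subset_span (by simp)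

lemma ne_top : I K ≠ ⊤ := by
  rw [I_eq, Ne, Ideal.eq_top_iff_one]
  intro h
  simpa [U] using h 0 (by simp)

lemma ne_bot : I K ≠ ⊥ := fun h => by
  have := X5 (K := K) 0
  simp [h] at this

lemma X_mem {k : ℕ} {P : Ideal (MvPolynomial (Fin 3) K)} (hP : P.IsPrime) (h : I K ^ k ≤ P)
    (i : Fin 3) : X i ∈ P :=
  hP.mem_of_pow_mem 5 (hP.mem_of_pow_mem k (h (Ideal.pow_mem_pow (X5 i) k)))

lemma le_col (J : Ideal (MvPolynomial (Fin 3) K)) (f : MvPolynomial (Fin 3) K) :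
    J ≤ J.colon {f} := fun _ h => Submodule.mem_colon_singleton.2 (J.mul_mem_right _ h)

lemma ass (k : ℕ) (hk : 1 ≤ k) : Ass (I K ^ k) = {PX K Finset.univ} := by
  have h1 : ∀ P ∈ Ass (I K ^ k), P = PX K Finset.univ := fun P hP => by
    obtain ⟨hp, x, hx⟩ := (mem_ass _ _).1 hP
    refine (PX_max.eq_of_le hp.ne_top (Ideal.span_le.2 ?_)).symm
    rintro _ ⟨i, -, rfl⟩
    exact X_mem hp (fun r hr => (hx r).2 (Ideal.mul_mem_right _ _ hr)) i
  have : Nontrivial (MvPolynomial (Fin 3) K ⧸ I K ^ k) := Ideal.Quotient.nontrivial_iff.2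
    fun h => ne_top (top_le_iff.1 (h ▸ Ideal.pow_le_self (by omega)))
  obtain ⟨P, hP⟩ := associatedPrimes.nonempty (MvPolynomial (Fin 3) K)
    (MvPolynomial (Fin 3) K ⧸ I K ^ k)
  exact Set.eq_singleton_iff_unique_mem.2 ⟨h1 P hP ▸ hP, h1⟩

lemma up1 : (I K ^ 1).colon {mon K ![4, 0, 0]} = PX K Finset.univ := by
  rw [pow_one, I_eq]
  refine colon_eq fun m => ?_
  simp [U, Fin.exists_fin_succ]
  omega

lemma low1 {f : MvPolynomial (Fin 3) K} {d : ℕ} (hf : f.IsHomogeneous d)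
    (h : ((I K ^ 1).colon {f}).IsPrime) : 4 ≤ d := by
  have h1 := fun i => Submodule.mem_colon_singleton.1 (X_mem h (le_col _ f) i)
  have h2 : f ∉ I K ^ 1 := fun e => h.ne_top ((Ideal.eq_top_iff_one _).2
    (Submodule.mem_colon_singleton.2 (by simpa using e)))
  simp only [pow_one, I_eq, smul_eq_mul, X_mul_UI] at h1
  simp only [pow_one, I_eq, mem_UI] at h2
  push Not at h2
  obtain ⟨m, hm, h2⟩ := h2
  have a0 := h1 0 m hm
  have a1 := h1 1 m hm
  have a2 := h1 2 m hm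
  have := hom_sum hf hm
  simp [U, Fin.sum_univ_three] at a0 a1 a2 h2 this
  omega

lemma sq_le : I K ^ 2 ≤ UI K (fun w => 4 ≤ w 0 + w 1 + w 2)
    (fun u v h => by simp only [Pi.add_apply]; omega) := by
  rw [pow_two, I_eq]
  exact mul_UI fun u v hu hv => by simp only [U, Pi.add_apply] at *; omega

lemma up2 : (I K ^ 2).colon {mon K ![1, 1, 1]} = PX K Finset.univ := by
  refine (PX_max.eq_of_le (fun h => ?_) (Ideal.span_le.2 ?_)).symm
  · have := Submodule.mem_colon_singleton.1 ((Ideal.eq_top_iff_one _).1 h)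
    rw [one_smul] at this
    simpa using mon_UI.1 (sq_le this)
  · rintro _ ⟨i, -, rfl⟩
    have key : ∀ u v, U u → U v → Pi.single i 1 + ![1, 1, 1] = u + v →
        X i ∈ (I K ^ 2).colon {mon K ![1, 1, 1]} := fun u v hu hv e => by
      rw [Submodule.mem_colon_singleton, smul_eq_mul, ← mon_single, ← mon_add, e, mon_add, pow_two]
      exact Ideal.mul_mem_mul (mem hu) (mem hv)
    fin_cases i
    · exact key ![1, 1, 0] ![1, 0, 1] (by simp [U]) (by simp [U]) (by decide)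
    · exact key ![1, 1, 0] ![0, 1, 1] (by simp [U]) (by simp [U]) (by decide)
    · exact key ![1, 0, 1] ![0, 1, 1] (by simp [U]) (by simp [U]) (by decide)

lemma low2 {f : MvPolynomial (Fin 3) K} {d : ℕ} (hf : f.IsHomogeneous d)
    (h : ((I K ^ 2).colon {f}).IsPrime) : 3 ≤ d := by
  have h1 := sq_le (Submodule.mem_colon_singleton.1 (X_mem h (le_col _ f) 0))
  have h2 : f ≠ 0 := fun e => h.ne_top ((Ideal.eq_top_iff_one _).2
    (Submodule.mem_colon_singleton.2 (by simp [e])))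
  obtain ⟨m, hm⟩ := support_nonempty.2 h2
  rw [smul_eq_mul, X_mul_UI] at h1
  have a0 := h1 m hm
  have := hom_sum hf hm
  simp [Fin.sum_univ_three] at a0 this
  omega

lemma vnum1 : vnum (I K ^ 1) = 4 :=
  sInf_eq ⟨_, mon_hom ![4, 0, 0], colon_ass (by rw [up1]; exact PX_prime _)⟩
    fun _ ⟨_, h1, h2⟩ => low1 h1 h2.isPrime

lemma vnum2 : vnum (I K ^ 2) = 3 :=
  sInf_eq ⟨_, mon_hom ![1, 1, 1], colon_ass (by rw [up2]; exact PX_prime _)⟩
    fun _ ⟨_, h1, h2⟩ => low2 h1 h2.isPrime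

lemma vloc1 : vloc (I K ^ 1) (PX K Finset.univ) = 4 :=
  sInf_eq ⟨_, mon_hom ![4, 0, 0], up1⟩ fun _ ⟨_, h1, h2⟩ => low1 h1 (h2 ▸ PX_prime _)

lemma vloc2 : vloc (I K ^ 2) (PX K Finset.univ) = 3 :=
  sInf_eq ⟨_, mon_hom ![1, 1, 1], up2⟩ fun _ ⟨_, h1, h2⟩ => low2 h1 (h2 ▸ PX_prime _)

end Pool.Agent.H2.VN.Ex1
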