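import Pool.Agent.H2.VN1

open MvPolynomial Pool.Agent.H2.Mon

namespace Pool.Agent.H2.VN

variable {n : ℕ} {K : Type} [Field K]

lemma split (p : (Fin n →₀ ℕ) → Prop) (f : MvPolynomial (Fin n) K) : ∃ g h, f = g + h ∧
    (∀ m ∈ g.support, p m ∧ m ∈ f.support) ∧ ∀ m ∈ h.support, ¬ p m ∧ m ∈ f.support := by
  classical
  have key : ∀ (q : (Fin n →₀ ℕ) → Prop) (m), m ∈ (∑ m ∈ f.support with q m,
      monomial m (coeff m f)).support → q m ∧ m ∈ f.support := fun q m hm => by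
    obtain ⟨a, ha, h⟩ := Finset.mem_biUnion.1 (support_sum hm)
    obtain rfl := Finset.mem_singleton.1 (support_monomial_subset h)
    exact (Finset.mem_filter.1 ha).symm
  refine ⟨_, _, ?_, key p, fun m hm => by
    have := key (fun m => ¬ p m) m (by convert hm); exact this⟩
  rw [Finset.sum_filter_add_sum_filter_not]
  exact f.as_sum

lemma le_col (J : Ideal (MvPolynomial (Fin n) K)) (f : MvPolynomial (Fin n) K) :
    J ≤ J.colon {f} := fun _ h => Submodule.mem_colon_singleton.2 (J.mul_mem_right _ h)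

namespace Ex2

/-- The ideal `(xy, xz^2, yw^2)`. -/
noncomputable def I (K : Type) [Field K] : Ideal (MvPolynomial (Fin 4) K) :=
  Ideal.span {X 0 * X 1, X 0 * X 2 ^ 2, X 1 * X 3 ^ 2}

def U (k : ℕ) (w : Fin 4 → ℕ) : Prop :=
  k ≤ w 0 + w 1 ∧ 2 * k ≤ 2 * w 0 + w 3 ∧ 2 * k ≤ 2 * w 1 + w 2

lemma hU (k : ℕ) : ∀ u v, U k u → U k (u + v) :=
  fun u v h => by simp only [U, Pi.add_apply] at h ⊢; omega

lemma mon4 (w : Fin 4 → ℕ) : mon K w = X 0 ^ w 0 * X 1 ^ w 1 * X 2 ^ w 2 * X 3 ^ w 3 := by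
  rw [mon, monomial_eq, Finsupp.prod_fintype _ _ (by simp)]
  simp [Fin.prod_univ_four]

lemma I_le : I K ≤ UI K (U 1) (hU 1) := by
  refine Ideal.span_le.2 fun f hf => ?_
  have key : ∀ w : Fin 4 → ℕ, U 1 w → f = mon K w → f ∈ UI K (U 1) (hU 1) :=
    fun w h e => e ▸ mon_UI.2 h
  rcases hf with rfl | rfl | rfl
  · exact key ![1, 1, 0, 0] (by simp [U]) (by simp [mon4])
  · exact key ![1, 0, 2, 0] (by simp [U]) (by simp [mon4])
  · exact key ![0, 1, 0, 2] (by simp [U]) (by simp [mon4])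

lemma pow_eq (k : ℕ) : I K ^ k = UI K (U k) (hU k) := by
  refine le_antisymm ?_ (le_of_mon fun w hw => ?_)
  · induction k with
    | zero => intro f _ m _; simp [U]
    | succ k ih =>
      rw [pow_succ]
      exact (Ideal.mul_mono ih I_le).trans
        (mul_UI fun u v hu hv => by simp only [U, Pi.add_apply] at *; omega)
  · obtain ⟨i, j, l, h, h0, h1, h2, h3⟩ : ∃ i j l, i + j + l = k ∧ i + j ≤ w 0 ∧ i + l ≤ w 1 ∧
        2 * j ≤ w 2 ∧ 2 * l ≤ w 3 := by
      refine ⟨k - min (w 0) (min (w 2 / 2) k) - min (w 1) (min (w 3 / 2)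
        (k - min (w 0) (min (w 2 / 2) k))), min (w 0) (min (w 2 / 2) k),
        min (w 1) (min (w 3 / 2) (k - min (w 0) (min (w 2 / 2) k))), ?_⟩
      simp only [U] at hw
      omega
    refine Ideal.mem_of_dvd _ (mon_dvd (u := ![i + j, i + l, 2 * j, 2 * l])
      (by simp [Fin.forall_fin_succ, *])) ?_
    have e : mon K ![i + j, i + l, 2 * j, 2 * l] =
        (X 0 * X 1) ^ i * (X 0 * X 2 ^ 2) ^ j * (X 1 * X 3 ^ 2) ^ l := by
      simp [mon4]; ring
    rw [e, ← h, pow_add, pow_add]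
    refine Ideal.mul_mem_mul (Ideal.mul_mem_mul ?_ ?_) ?_ <;>
      exact Ideal.pow_mem_pow (Ideal.subset_span (by simp)) _

lemma hom : IsHom (I K) := by
  refine ⟨_, ?_, rfl⟩
  rintro f (rfl | rfl | rfl)
  · exact ⟨_, (isHomogeneous_X _ _).mul (isHomogeneous_X _ _)⟩
  iterate 2 exact ⟨_, (isHomogeneous_X _ _).mul ((isHomogeneous_X _ _).pow 2)⟩

lemma ne_top : I K ≠ ⊤ := fun h => by
  simpa [U] using I_le ((Ideal.eq_top_iff_one _).1 h) 0 (by simp)

lemma xy : (X 0 * X 1 : MvPolynomial (Fin 4) K) ∈ I K := Ideal.subset_span (by simp)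

lemma ne_bot : I K ≠ ⊥ := fun h => by
  have := xy (K := K)
  simp [h] at this

lemma alpha_eq : alpha (I K) = 2 := by
  refine sInf_eq ⟨_, xy, by simp, (isHomogeneous_X _ _).mul (isHomogeneous_X _ _)⟩ ?_
  rintro d ⟨f, h1, h2, h3⟩
  obtain ⟨m, hm⟩ := support_nonempty.2 h2
  have a := I_le h1 m hm
  have := hom_sum h3 hm
  simp only [U, Fin.sum_univ_four] at a this
  omega

lemma up (k : ℕ) : (I K ^ (k + 1)).colon {mon K ![k, 0, 2 * k + 2, 2]} = PX K {0, 1} := by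
  rw [pow_eq]
  refine colon_eq fun m => ?_
  simp [U]
  omega

lemma vloc_eq (k : ℕ) : vloc (I K ^ (k + 1)) (PX K {0, 1}) = 3 * (k + 1) + 1 := by
  refine sInf_eq ⟨_, ?_, up k⟩ ?_
  · convert mon_hom (K := K) ![k, 0, 2 * k + 2, 2] using 1
    simp [Fin.sum_univ_four]; omega
  · rintro d ⟨f, hf, h⟩
    have h1 : ∀ i ∈ ({0, 1} : Finset (Fin 4)), X i * f ∈ I K ^ (k + 1) := fun i hi =>
      Submodule.mem_colon_singleton.1 (h ▸ X_mem_PX.2 hi)
    have h2 : f ∉ I K ^ (k + 1) := fun e => (PX_prime (K := K) {0, 1}).ne_top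
      ((Ideal.eq_top_iff_one _).2 (h ▸ Submodule.mem_colon_singleton.2 (by simpa using e)))
    simp only [pow_eq, X_mul_UI] at h1
    simp only [pow_eq, mem_UI] at h2
    push Not at h2
    obtain ⟨m, hm, h2⟩ := h2
    have a0 := h1 0 (by simp) m hm
    have a1 := h1 1 (by simp) m hm
    have := hom_sum hf hm
    simp [U, Fin.sum_univ_four] at a0 a1 h2 this
    omega

lemma ass (k : ℕ) : PX K {0, 1} ∈ Ass (I K ^ (k + 1)) := by
  rw [← up k]
  exact colon_ass (by rw [up]; exact PX_prime _)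

lemma max (k : ℕ) {P : Ideal (MvPolynomial (Fin 4) K)} (hP : P ∈ Ass (I K ^ (k + 1)))
    (h : PX K {0, 1} ≤ P) : P = PX K {0, 1} := by
  classical
  obtain ⟨hp, f, hf⟩ := (mem_ass _ _).1 hP
  refine le_antisymm (fun r hr => ?_) h
  have h1 : ∀ i ∈ ({0, 1} : Finset (Fin 4)), X i * f ∈ I K ^ (k + 1) := fun i hi =>
    (hf _).1 (h (X_mem_PX.2 hi))
  have h2 : f ∉ I K ^ (k + 1) := fun e => hp.ne_top
    ((Ideal.eq_top_iff_one _).2 ((hf 1).2 (by simpa using e)))
  have h3 := (hf r).1 hr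
  rw [pow_eq] at h2 h3
  simp only [pow_eq, X_mul_UI] at h1
  obtain ⟨g, g', rfl, hg, hg'⟩ := split (fun m => m 0 + m 1 = k) f
  obtain ⟨s, s', rfl, hs, hs'⟩ := split (fun m => m 0 + m 1 = 0) r
  have b1 : g' ∈ UI K (U (k + 1)) (hU _) := fun m hm => by
    obtain ⟨a, hm⟩ := hg' m hm
    have a0 := h1 0 (by simp) m hm
    have a1 := h1 1 (by simp) m hm
    simp [U] at a0 a1 ⊢
    omega
  have b2 : s' ∈ PX K {0, 1} := mem_ideal_span_X_image.2 fun m hm => by
    have := (hs' m hm).1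
    simp
    omega
  have b3 : s' * g ∈ UI K (U (k + 1)) (hU _) := fun m hm => by
    obtain ⟨a, ha, b, hb, rfl⟩ := Finset.mem_add.1 (support_mul _ _ hm)
    have c := (hs' a ha).1
    obtain ⟨c', hm⟩ := hg b hb
    have a0 := h1 0 (by simp) b hm
    have a1 := h1 1 (by simp) b hm
    simp [U] at a0 a1 ⊢
    omega
  have b4 : s * g ∈ UI K (U (k + 1)) (hU _) := by
    have := sub_mem (sub_mem h3 b3) (Ideal.mul_mem_left _ (s + s') b1)
    convert this using 1; ring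
  have b5 : s * g = 0 := by
    by_contra e
    obtain ⟨m, hm⟩ := support_nonempty.2 e
    have c0 := b4 m hm
    obtain ⟨a, ha, b, hb, rfl⟩ := Finset.mem_add.1 (support_mul _ _ hm)
    have c := (hs a ha).1
    have c' := (hg b hb).1
    simp [U] at c0
    omega
  rcases mul_eq_zero.1 b5 with rfl | rfl
  · rwa [zero_add]
  · exact absurd (by rwa [zero_add]) h2

end Ex2

end Pool.Agent.H2.VN
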