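import Pool.Agent.H2.VNDefs
import Pool.Agent.H2.OIDefs

open MvPolynomial

namespace Pool.Agent.H2.VN

variable {n : ℕ} {K : Type} [Field K]

/-- The grading of an ideal `J`: the elements all of whose monomials have degree `d`. -/
def grI (J : Ideal (MvPolynomial (Fin n) K)) (d : ℤ) : Submodule K J where
  carrier := {u | ∀ m, coeff m (u : MvPolynomial (Fin n) K) ≠ 0 → ∑ i, (m i : ℤ) = d}
  add_mem' := fun {u v} hu hv m hm => by
    by_cases h : coeff m (u : MvPolynomial (Fin n) K) = 0
    · exact hv m (by simpa [h] using hm)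
    · exact hu m h
  zero_mem' := by simp
  smul_mem' := fun c u hu m hm => hu m fun h => hm (by simp [h])

/-- Some proper monomial ideal `I` in some polynomial ring over `K` has `v(I^k) = a k + b` and
`reg(I^k) = c k + d` for all large `k`. -/
def Realizable (K : Type) [Field K] (a b c d : ℤ) : Prop :=
  ∃ (n : ℕ) (I : Ideal (MvPolynomial (Fin n) K)), IsMon I ∧ I ≠ ⊤ ∧ ∃ N : ℕ, ∀ k ≥ N,
    (vnum (I ^ k) : ℤ) = a * k + b ∧ OI.IsReg n (grI (I ^ k)) (c * k + d)

end Pool.Agent.H2.VN
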