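import Pool.Agent.H2.VN1
import Pool.Agent.H2.VNDefs2

open MvPolynomial Pool.Agent.H2.Mon Pool.Agent.H2.OI

namespace Pool.Agent.H2.VN

variable {n : ℕ} {K : Type} [Field K]

lemma le_UI {B : Set (Fin n →₀ ℕ)} {U : (Fin n → ℕ) → Prop} {hU} (h : ∀ u ∈ B, U u) :
    Ideal.span ((fun u => monomial u (1 : K)) '' B) ≤ UI K U hU := by
  refine Ideal.span_le.2 ?_
  rintro _ ⟨u, hu, rfl⟩ m hm
  obtain rfl := Finset.mem_singleton.1 (support_monomial_subset hm)
  exact h _ hu

lemma mon_coe (u : Fin n →₀ ℕ) : mon K u = monomial u 1 := by simp [mon]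

lemma pow_mon {I : Ideal (MvPolynomial (Fin n) K)} (hI : IsMon I) (k : ℕ) :
    I ^ k ≤ UI K (fun w => mon K w ∈ I ^ k)
      (fun u v h => by rw [mon_add]; exact Ideal.mul_mem_right _ _ h) := by
  induction k with
  | zero => intro f _ m _; simp
  | succ k ih =>
    obtain ⟨B, hB⟩ := hI
    have h1 : I ≤ UI K (fun w => mon K w ∈ I)
        (fun u v h => by rw [mon_add]; exact Ideal.mul_mem_right _ _ h) :=
      hB.le.trans (le_UI fun u hu => hB ▸ Ideal.subset_span ⟨u, hu, (mon_coe u).symm⟩)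
    refine (pow_succ I k).le.trans ((Ideal.mul_mono ih h1).trans (mul_UI fun u v hu hv => ?_))
    rw [mon_add, pow_succ]
    exact Ideal.mul_mem_mul hu hv

lemma betti0 {I : Ideal (MvPolynomial (Fin n) K)} (hI : IsMon I) (k : ℕ) (w : Fin n → ℕ)
    (hw : mon K w ∈ I ^ k) (hm : ∀ b v, w = Pi.single b 1 + v → mon K v ∉ I ^ k) :
    BettiNe n (grI (I ^ k)) 0 ((∑ i, w i : ℕ) : ℤ) := by
  classical
  refine ⟨fun T => if T = ∅ then ⟨_, hw⟩ else 0, fun T => ⟨?_, fun h => ?_⟩, ?_, ?_⟩
  · beta_reduce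
    split_ifs
    · intro m h
      have := hom_sum (mon_hom (K := K) w) (mem_support_iff.2 h)
      simp [← this]
    · exact zero_mem _
  · exact if_neg fun e => h (by simp [e])
  · ext T
    simp [kos]
  · rintro ⟨g, -, hg⟩
    have h1 := congrArg (fun u : Finset (Fin n) → (I ^ k : Ideal (MvPolynomial (Fin n) K)) =>
      coeff (Finsupp.equivFunOnFinite.symm w) (u ∅ : MvPolynomial (Fin n) K)) hg
    simp only [kos, Finset.filter_empty, Finset.card_empty, pow_zero, one_mul, if_true, mon,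
      coeff_monomial, Submodule.coe_sum, coeff_sum] at h1
    obtain ⟨b, -, hb⟩ := Finset.exists_ne_zero_of_sum_ne_zero (h1 ▸ one_ne_zero)
    obtain ⟨a, ha, c, hc, e⟩ := Finset.mem_add.1 (support_mul _ _ (mem_support_iff.2 hb))
    rw [support_X, Finset.mem_singleton] at ha
    refine hm b c ?_ (pow_mon hI k (g _).2 c hc)
    have := congrArg (fun u : Fin n →₀ ℕ => (u : Fin n → ℕ)) e
    simpa [ha, Finsupp.single_eq_pi_single] using this.symm

lemma PX_pow (T : Finset (Fin n)) (k : ℕ) : PX K T ^ k ≤ UI K (fun w => k ≤ ∑ i ∈ T, w i)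
    (fun u v h => by simp only [Pi.add_apply, Finset.sum_add_distrib]; omega) := by
  induction k with
  | zero => intro f _ m _; simp
  | succ k ih =>
    have h1 : PX K T ≤ UI K (fun w => 1 ≤ ∑ i ∈ T, w i)
        (fun u v h => by simp only [Pi.add_apply, Finset.sum_add_distrib]; omega) :=
      fun f hf m hm => by
        obtain ⟨i, hi, h⟩ := mem_ideal_span_X_image.1 hf m hm
        have := Finset.single_le_sum (f := fun j => m j) (fun _ _ => Nat.zero_le _) hi
        show 1 ≤ ∑ j ∈ T, m j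
        omega
    refine (pow_succ _ k).le.trans ((Ideal.mul_mono ih h1).trans (mul_UI fun u v hu hv => ?_))
    simp only [Pi.add_apply, Finset.sum_add_distrib]
    omega

lemma vnum_PX (T : Finset (Fin n)) (k : ℕ) : vnum (PX K T ^ (k + 1)) ≤ k := by
  rcases T.eq_empty_or_nonempty with rfl | ⟨i, hi⟩
  · refine le_trans (Nat.sInf_le ⟨1, isHomogeneous_one _ _, colon_ass ?_⟩) (Nat.zero_le _)
    convert Ideal.isPrime_bot (α := MvPolynomial (Fin n) K)
    ext r
    simp [Submodule.mem_colon_singleton, PX]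
  · have e : mon K (Pi.single i k) = X i ^ k := by
      rw [mon, X_pow_eq_monomial]; congr 2; ext j; simp [Finsupp.single_eq_pi_single]
    refine Nat.sInf_le ⟨X i ^ k, by simpa using (isHomogeneous_X K i).pow k, colon_ass ?_⟩
    convert PX_prime (K := K) T
    ext r
    rw [Submodule.mem_colon_singleton, smul_eq_mul]
    refine ⟨fun h => mem_ideal_span_X_image.2 fun m hm => ?_, fun h => ?_⟩
    · have h := PX_pow T _ h
      rw [mul_comm, ← e, mon_mul_UI] at h
      have := h m hm
      simp only [Pi.add_apply, Finset.sum_add_distrib, Finset.sum_pi_single', hi, if_true] at this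
      exact Finset.exists_ne_zero_of_sum_ne_zero (f := fun j => m j) (by omega)
    · rw [pow_succ']
      exact Ideal.mul_mem_mul h (Ideal.pow_mem_pow (X_mem_PX.2 hi) k)

theorem not_real (b d : ℤ) (hb : 0 ≤ b) : ¬ Realizable K 1 b 1 d := by
  classical
  rintro ⟨n, I, hI, ht, N, hN⟩
  let T : Finset (Fin n) := Finset.univ.filter fun i => X i ∈ I
  by_cases h : I ≤ PX K T
  · have e : I = PX K T := le_antisymm h (Ideal.span_le.2 (by
      rintro _ ⟨i, hi, rfl⟩; exact (Finset.mem_filter.1 hi).2))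
    have h1 := (hN (N + 1) (by omega)).1
    have h2 := vnum_PX (K := K) T N
    rw [← e] at h2
    push_cast at h1
    omega
  · obtain ⟨B, hB⟩ := id hI
    have h1 : I ≤ UI K (fun w => (∃ i ∈ T, w i ≠ 0) ∨ 2 ≤ ∑ i, w i) (fun u v h => by
        simp only [Pi.add_apply, Finset.sum_add_distrib]
        exact h.imp (fun ⟨i, hi, h⟩ => ⟨i, hi, by omega⟩) (by omega)) := by
      refine hB.le.trans (le_UI fun u hu => ?_)
      have hu' : monomial u 1 ∈ I := hB ▸ Ideal.subset_span ⟨u, hu, rfl⟩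
      by_contra e
      push Not at e
      rcases (show ∑ i, u i = 0 ∨ ∑ i, u i = 1 by omega) with h0 | h0
      · obtain rfl : u = 0 := by
          ext i; exact Finset.sum_eq_zero_iff.1 h0 i (Finset.mem_univ _)
        exact ht ((Ideal.eq_top_iff_one _).2 hu')
      · obtain ⟨i, rfl⟩ : u ∈ Set.range (fun a : Fin n => Finsupp.single a 1) := by
          rw [Finsupp.range_single_one]
          exact (Finsupp.degree_eq_sum u).trans h0
        simpa using e.1 i (Finset.mem_filter.2 ⟨Finset.mem_univ _, hu'⟩)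
    have h2 : ∀ k, I ^ k ≤ UI K (fun w => (∃ i ∈ T, w i ≠ 0) ∨ 2 * k ≤ ∑ i, w i) (fun u v h => by
        simp only [Pi.add_apply, Finset.sum_add_distrib]
        exact h.imp (fun ⟨i, hi, h⟩ => ⟨i, hi, by omega⟩) (by omega)) := fun k => by
      induction k with
      | zero => intro f _ m _; simp
      | succ k ih =>
        refine (pow_succ _ k).le.trans ((Ideal.mul_mono ih h1).trans (mul_UI fun u v hu hv => ?_))
        simp only [Pi.add_apply, Finset.sum_add_distrib]
        rcases hu with ⟨i, hi, h⟩ | hu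
        · exact .inl ⟨i, hi, by omega⟩
        · exact hv.imp (fun ⟨i, hi, h⟩ => ⟨i, hi, by omega⟩) (by omega)
    obtain ⟨u, hu, h3⟩ : ∃ u ∈ B, ∀ i ∈ T, u i = 0 := by
      by_contra e
      push Not at e
      refine h (hB.le.trans (Ideal.span_le.2 ?_))
      rintro _ ⟨u, hu, rfl⟩
      have := (mon_mem_PX (K := K)).2 (e u hu)
      rwa [mon_coe] at this
    set k := N + d.toNat + 1 with hk
    have h4 : ∃ s, ∃ w : Fin n → ℕ, mon K w ∈ I ^ k ∧ (∀ i ∈ T, w i = 0) ∧ ∑ i, w i = s := by
      refine ⟨_, (k • u : Fin n →₀ ℕ), ?_, fun i hi => by simp [h3 i hi], rfl⟩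
      have : monomial u 1 ∈ I := hB ▸ Ideal.subset_span ⟨u, hu, rfl⟩
      rw [mon_coe]
      simpa [monomial_pow] using Ideal.pow_mem_pow this k
    obtain ⟨w, w1, w2, w3⟩ := Nat.find_spec h4
    have h5 := (hN k (by omega)).2.2 ⟨0, _, betti0 hI k w w1 fun c v e hv =>
      Nat.find_min h4 (m := ∑ i, v i) (by
        rw [← w3, e]; simp [Finset.sum_add_distrib]) ⟨v, hv, fun i hi => by
          have := w2 i hi; rw [e, Pi.add_apply] at this; omega, rfl⟩, rfl⟩
    have h6 := (mon_UI.1 (h2 k w1)).resolve_left fun ⟨i, hi, h⟩ => h (w2 i hi)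
    omega

end Pool.Agent.H2.VN
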