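import Pool.Agent.H2.VN3

open MvPolynomial Pool.Agent.H2.Mon RingTheory.Sequence

namespace Pool.Agent.H2.VN

lemma reg_pair {R : Type} [CommRing R] (I : Ideal R) (a b : R) (l : List R)
    (H : IsWeaklyRegular (R ⧸ I) (a :: b :: l)) :
      (∀ g, a * g ∈ I → g ∈ I) ∧ ∀ g h, b * g - a * h ∈ I → ∃ k, g - a * k ∈ I := by
  rw [isWeaklyRegular_cons_iff, isWeaklyRegular_cons_iff,
    isSMulRegular_quotient_iff_mem_of_smul_mem, isSMulRegular_quotient_iff_mem_of_smul_mem] at H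
  refine ⟨H.1, fun g h hg => ?_⟩
  obtain ⟨z, -, hz⟩ := (Submodule.mem_smul_pointwise_iff_exists _ _ _).1
    (H.2.1 (I.mkQ g) ((Submodule.mem_smul_pointwise_iff_exists _ _ _).2 ⟨I.mkQ h, trivial, by
      rw [← map_smul, ← map_smul, eq_comm]; exact (Submodule.Quotient.eq _).2 hg⟩))
  obtain ⟨k, rfl⟩ := I.mkQ_surjective z
  rw [← map_smul, eq_comm] at hz
  exact ⟨k, (Submodule.Quotient.eq _).1 hz⟩

namespace Ex3

variable {K : Type} [Field K]

def U (w : Fin 6 → ℕ) : Prop :=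
  (1 ≤ w 0 ∧ 1 ≤ w 1 ∧ 1 ≤ w 2) ∨ (1 ≤ w 3 ∧ 1 ≤ w 4 ∧ 1 ≤ w 5) ∨
    (1 ≤ w 0 + w 1 + w 2 ∧ 1 ≤ w 3 + w 4 + w 5)

lemma hU : ∀ u v, U u → U (u + v) := fun u v h => by simp only [U, Pi.add_apply] at h ⊢; omega

lemma prod_eq (T : Finset (Fin 6)) :
    ∏ i ∈ T, X i = mon K fun i => if i ∈ T then 1 else 0 := by
  rw [mon, monomial_eq, Finsupp.prod_fintype _ _ (by simp)]
  simp [Finset.prod_ite_mem]

lemma sq : IsSqMon (UI K U hU) := by
  refine ⟨{T | U fun i => if i ∈ T then 1 else 0}, le_antisymm (le_of_mon fun w hw => ?_)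
    (Ideal.span_le.2 ?_)⟩
  · refine Ideal.mem_of_dvd _ (mon_dvd (u := fun i =>
      if i ∈ Finset.univ.filter (fun i => w i ≠ 0) then 1 else 0) fun i => ?_)
      (Ideal.subset_span ⟨_, ?_, prod_eq _⟩)
    · simp; split_ifs <;> omega
    · simp only [U, Set.mem_ofPred_eq, Finset.mem_filter, Finset.mem_univ, true_and] at hw ⊢
      split_ifs <;> omega
  · rintro _ ⟨T, hT, rfl⟩
    have := (mon_UI (K := K) (hU := hU) (w := fun i => if i ∈ T then 1 else 0)).2 hT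
    rwa [← prod_eq] at this

lemma up1 : (UI K U hU).colon {mon K ![1, 1, 0, 0, 0, 0]} = PX K {2, 3, 4, 5} :=
  colon_eq fun m => by simp [U]; omega

lemma up2 : (UI K U hU).colon {mon K ![0, 0, 0, 1, 1, 0]} = PX K {0, 1, 2, 5} :=
  colon_eq fun m => by simp [U]; omega

lemma ne_top : UI K U hU ≠ ⊤ := fun h => by
  simpa [U] using (Ideal.eq_top_iff_one _).1 h 0 (by simp)

lemma vnum_eq : vnum (UI K U hU) = 2 := by
  refine sInf_eq ⟨_, mon_hom ![1, 1, 0, 0, 0, 0], colon_ass (by rw [up1]; exact PX_prime _)⟩ ?_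
  rintro d ⟨f, hf, h⟩
  have h := h.isPrime
  have key : ∀ T : Finset (Fin 6), U (fun i => if i ∈ T then 1 else 0) →
      ∃ i ∈ T, X i * f ∈ UI K U hU := fun T hT => by
    have := le_col _ f ((mon_UI (K := K) (hU := hU)).2 hT)
    rw [← prod_eq, Ideal.IsPrime.prod_mem_iff] at this
    simpa only [Submodule.mem_colon_singleton, smul_eq_mul] using this
  obtain ⟨i, hi, h1⟩ := key {0, 1, 2} (by simp [U])
  obtain ⟨j, hj, h2⟩ := key {3, 4, 5} (by simp [U])
  have h3 : f ∉ UI K U hU := fun e => h.ne_top ((Ideal.eq_top_iff_one _).2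
    (Submodule.mem_colon_singleton.2 (by simpa using e)))
  rw [mem_UI] at h3
  push Not at h3
  obtain ⟨m, hm, h3⟩ := h3
  have a0 := X_mul_UI.1 h1 m hm
  have a1 := X_mul_UI.1 h2 m hm
  have := hom_sum hf hm
  simp only [Finset.mem_insert, Finset.mem_singleton] at hi hj
  rcases hi with rfl | rfl | rfl <;> rcases hj with rfl | rfl | rfl <;>
    simp [U, Fin.sum_univ_six] at a0 a1 h3 this <;> omega

lemma spl {a : MvPolynomial (Fin 6) K}
    (ha : a ∈ Ideal.span (Set.range (X : Fin 6 → MvPolynomial (Fin 6) K))) :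
    ∃ g h, a = g + h ∧ (∀ m ∈ g.support, 1 ≤ m 0 + m 1 + m 2) ∧
      ∀ m ∈ h.support, 1 ≤ m 3 + m 4 + m 5 := by
  obtain ⟨g, h, e, hg, hh⟩ := split (fun m => m 3 + m 4 + m 5 = 0) a
  refine ⟨g, h, e, fun m hm => ?_, fun m hm => by have := (hh m hm).1; omega⟩
  rw [← Set.image_univ, mem_ideal_span_X_image] at ha
  obtain ⟨i, -, hi⟩ := ha m (hg m hm).2
  have := (hg m hm).1
  fin_cases i <;> simp at hi <;> omega

lemma depth_le : depth (UI K U hU) ≤ 1 := by
  classical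
  refine iSup₂_le fun rs ⟨hm, hr⟩ => ?_
  rcases rs with _ | ⟨a, _ | ⟨b, l⟩⟩
  · simp
  · simp
  exfalso
  obtain ⟨r1, r2⟩ := reg_pair _ a b l hr.toIsWeaklyRegular
  obtain ⟨a1, a2, ea, ha1, ha2⟩ := spl (hm a (by simp))
  obtain ⟨b1, b2, eb, hb1, hb2⟩ := spl (hm b (by simp))
  have mul : ∀ g h : MvPolynomial (Fin 6) K, (∀ m ∈ g.support, 1 ≤ m 0 + m 1 + m 2) →
      (∀ m ∈ h.support, 1 ≤ m 3 + m 4 + m 5) → g * h ∈ UI K U hU := fun g h hg hh m hm => by
    obtain ⟨u, hu, v, hv, rfl⟩ := Finset.mem_add.1 (support_mul _ _ hm)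
    have := hg u hu
    have := hh v hv
    simp [U]
    omega
  obtain ⟨k, hk⟩ := r2 a1 b1 (by
    have := sub_mem (mul _ _ ha1 hb2) (mul _ _ hb1 ha2)
    convert this using 1
    rw [ea, eb]; ring)
  have n1 : a ∉ PX K {2, 3, 4, 5} := fun h => by
    rw [← up1, Submodule.mem_colon_singleton] at h
    simpa [U] using mon_UI.1 (r1 _ h)
  have n2 : a ∉ PX K {0, 1, 2, 5} := fun h => by
    rw [← up2, Submodule.mem_colon_singleton] at h
    simpa [U] using mon_UI.1 (r1 _ h)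
  have c1 : a2 ∈ PX K {2, 3, 4, 5} := mem_ideal_span_X_image.2 fun m hm => by
    have := ha2 m hm; simp; omega
  have c2 : a1 ∈ PX K {0, 1, 2, 5} := mem_ideal_span_X_image.2 fun m hm => by
    have := ha1 m hm; simp; omega
  have d1 : a * (1 - k) ∈ PX K {2, 3, 4, 5} := by
    have := add_mem (up1 (K := K) ▸ le_col _ _ hk) c1
    convert this using 1
    rw [ea]; ring
  have d2 : a * k ∈ PX K {0, 1, 2, 5} := by
    have := sub_mem c2 (up2 (K := K) ▸ le_col _ _ hk)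
    convert this using 1
    ring
  have le : ∀ T : Finset (Fin 6), PX K T ≤ PX K Finset.univ := fun T =>
    Ideal.span_mono (Set.image_mono (by simp))
  have := add_mem (le _ (((PX_prime _).mem_or_mem d1).resolve_left n1))
    (le _ (((PX_prime _).mem_or_mem d2).resolve_left n2))
  rw [sub_add_cancel] at this
  exact (PX_prime _).ne_top ((Ideal.eq_top_iff_one _).2 this)

end Ex3

end Pool.Agent.H2.VN
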