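import Mathlib

open MvPolynomial

namespace Pool.Agent.H2.VN

variable {n : ℕ} {K : Type} [Field K]

/-- Homogeneous ideals: generated by homogeneous polynomials. -/
def IsHom (J : Ideal (MvPolynomial (Fin n) K)) : Prop :=
  ∃ s : Set (MvPolynomial (Fin n) K), (∀ f ∈ s, ∃ d, f.IsHomogeneous d) ∧ J = Ideal.span s

/-- Monomial ideals: generated by monomials. -/
def IsMon (J : Ideal (MvPolynomial (Fin n) K)) : Prop :=
  ∃ B : Set (Fin n →₀ ℕ), J = Ideal.span ((fun u => monomial u (1 : K)) '' B)

/-- Squarefree monomial ideals: generated by squarefree monomials. -/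
def IsSqMon (J : Ideal (MvPolynomial (Fin n) K)) : Prop :=
  ∃ B : Set (Finset (Fin n)), J = Ideal.span ((fun T => ∏ i ∈ T, X i) '' B)

/-- The associated primes of `S / J`. -/
abbrev Ass (J : Ideal (MvPolynomial (Fin n) K)) : Set (Ideal (MvPolynomial (Fin n) K)) :=
  associatedPrimes (MvPolynomial (Fin n) K) (MvPolynomial (Fin n) K ⧸ J)

/-- The local v-number: the least degree of a homogeneous `f` with `(J : f) = p`. -/
noncomputable def vloc (J p : Ideal (MvPolynomial (Fin n) K)) : ℕ :=
  sInf {d | ∃ f : MvPolynomial (Fin n) K, f.IsHomogeneous d ∧ J.colon {f} = p}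

/-- The v-number: the least degree of a homogeneous `f` with `(J : f)` associated to `J`. -/
noncomputable def vnum (J : Ideal (MvPolynomial (Fin n) K)) : ℕ :=
  sInf {d | ∃ f : MvPolynomial (Fin n) K, f.IsHomogeneous d ∧ J.colon {f} ∈ Ass J}

/-- The initial degree. -/
noncomputable def alpha (J : Ideal (MvPolynomial (Fin n) K)) : ℕ :=
  sInf {d | ∃ f ∈ J, f ≠ 0 ∧ f.IsHomogeneous d}

/-- The stable associated primes of the powers. -/
def AssInf (I : Ideal (MvPolynomial (Fin n) K)) : Set (Ideal (MvPolynomial (Fin n) K)) :=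
  {p | ∃ N, ∀ k ≥ N, p ∈ Ass (I ^ k)}

/-- The depth of `S / J` with respect to `(x_1, ..., x_n)`: the supremum of the lengths of the
regular sequences on `S / J` contained in that ideal. -/
noncomputable def depth (J : Ideal (MvPolynomial (Fin n) K)) : ℕ∞ :=
  ⨆ (rs : List (MvPolynomial (Fin n) K))
    (_ : (∀ a ∈ rs, a ∈ Ideal.span (Set.range (X : Fin n → MvPolynomial (Fin n) K))) ∧
      RingTheory.Sequence.IsRegular (MvPolynomial (Fin n) K ⧸ J) rs), (rs.length : ℕ∞)

end Pool.Agent.H2.VN
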