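import Mathlib

open MvPolynomial

namespace Pool.Agent.H2.Vis

abbrev E := EuclideanSpace ℝ (Fin 2)

lemma mem_hull {n : ℕ} (p : Fin n → E) (S : Finset (Fin n)) (y : E) :
    y ∈ convexHull ℝ (p '' (S : Set (Fin n))) ↔ ∃ w : Fin n → ℝ, (∀ i, 0 ≤ w i) ∧
      (∀ i ∉ S, w i = 0) ∧ ∑ i, w i = 1 ∧ ∑ i, w i • p i = y := by
  constructor
  · intro h
    refine convexHull_min (t := {y | ∃ w : Fin n → ℝ, (∀ i, 0 ≤ w i) ∧
      (∀ i ∉ S, w i = 0) ∧ ∑ i, w i = 1 ∧ ∑ i, w i • p i = y}) ?_ ?_ h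
    · rintro _ ⟨j, hj, rfl⟩
      refine ⟨Pi.single j 1, fun i => ?_, fun i hi => ?_, by simp, by simp [Pi.single_apply]⟩
      · by_cases e : i = j <;> simp [e]
      · have : i ≠ j := fun e => hi (e ▸ hj)
        simp [this]
    · rintro _ ⟨w, h0, h1, h2, rfl⟩ _ ⟨v, g0, g1, g2, rfl⟩ a b ha hb hab
      refine ⟨fun i => a * w i + b * v i, fun i => add_nonneg (mul_nonneg ha (h0 i))
        (mul_nonneg hb (g0 i)), fun i hi => by simp [h1 i hi, g1 i hi], ?_, ?_⟩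
      · simp [Finset.sum_add_distrib, ← Finset.mul_sum, h2, g2, hab]
      · simp [add_smul, mul_smul, Finset.sum_add_distrib, Finset.smul_sum]
  · rintro ⟨w, h0, h1, h2, rfl⟩
    rw [← Finset.sum_subset (Finset.subset_univ S) fun i _ hi => h1 i hi] at h2
    rw [← Finset.sum_subset (Finset.subset_univ S) fun i _ hi => by rw [h1 i hi, zero_smul]]
    exact (convex_convexHull ℝ _).sum_mem (fun i _ => h0 i) h2 fun i hi =>
      subset_convexHull ℝ _ ⟨i, hi, rfl⟩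

lemma indep {n : ℕ} (p : Fin n → E) (S : Finset (Fin n))
    (h : ∀ w : Fin n → ℝ, (∀ i ∉ S, w i = 0) → ∑ i, w i = 0 → ∑ i, w i • p i = 0 → w = 0) :
    AffineIndependent ℝ (fun i : (S : Set (Fin n)) => p i) := by
  rw [affineIndependent_iff_of_fintype]
  intro w h1 h2 i
  rw [Finset.weightedVSub_eq_linear_combination _ h1] at h2
  have e : ∀ {M : Type} [AddCommMonoid M] (g : Fin n → M), (∀ j ∉ S, g j = 0) →
      ∑ j, g j = ∑ j : (S : Set (Fin n)), g j := fun g hg => by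
    rw [← Finset.sum_subset (Finset.subset_univ S) fun j _ hj => hg j hj]
    exact (Finset.sum_coe_sort S g).symm
  have := h (fun j => if hj : j ∈ S then w ⟨j, hj⟩ else 0) (fun j hj => dif_neg hj) ?_ ?_
  · simpa using congrFun this i
  · rw [e _ fun j hj => dif_neg hj, ← h1]
    exact Finset.sum_congr rfl fun j _ => by simp
  · rw [e _ fun j hj => by simp [hj], ← h2]
    exact Finset.sum_congr rfl fun j _ => by simp

/-- orientation determinant -/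
def D (u v z : E) : ℝ := (v 0 - u 0) * (z 1 - u 1) - (v 1 - u 1) * (z 0 - u 0)

lemma mem_line {u v : E} (h : u 0 ≠ v 0 ∨ u 1 ≠ v 1) (z : E) :
    z ∈ line[ℝ, u, v] ↔ D u v z = 0 := by
  rw [mem_affineSpan_pair_iff_exists_lineMap_eq]
  constructor
  · rintro ⟨r, rfl⟩
    simp [D, AffineMap.lineMap_apply]
    ring
  · intro hz
    rcases h with h | h
    · have h' := sub_ne_zero.2 h.symm
      refine ⟨(z 0 - u 0) / (v 0 - u 0), ?_⟩
      ext i
      fin_cases i <;> simp [AffineMap.lineMap_apply] <;> field_simp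
      · ring
      · unfold D at hz; linarith
    · have h' := sub_ne_zero.2 h.symm
      refine ⟨(z 1 - u 1) / (v 1 - u 1), ?_⟩
      ext i
      fin_cases i <;> simp [AffineMap.lineMap_apply] <;> field_simp
      · unfold D at hz; linarith
      · ring

lemma D_line (u v x y : E) (t : ℝ) :
    D u v (AffineMap.lineMap x y t) = (1 - t) * D u v x + t * D u v y := by
  simp [D, AffineMap.lineMap_apply]
  ring

lemma opp_iff {u v : E} (h : u 0 ≠ v 0 ∨ u 1 ≠ v 1) (x y : E) :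
    (line[ℝ, u, v]).SOppSide x y ↔ D u v x * D u v y < 0 := by
  rw [AffineSubspace.SOppSide, AffineSubspace.wOppSide_iff_exists_wbtw, mem_line h, mem_line h]
  constructor
  · rintro ⟨⟨_, hz, t, ⟨h0, h1⟩, rfl⟩, hx, hy⟩
    rw [mem_line h, D_line] at hz
    by_contra hc
    have h2 : 0 < D u v x * D u v y := lt_of_le_of_ne (not_lt.1 hc) (mul_ne_zero hx hy).symm
    have h3 := mul_self_pos.2 hx
    have h4 : (1 - t) * (D u v x * D u v x) + t * (D u v x * D u v y) = 0 := by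
      linear_combination D u v x * hz
    rcases h0.lt_or_eq with h0 | h0
    · nlinarith [mul_nonneg (sub_nonneg.2 h1) h3.le, mul_pos h0 h2]
    · subst h0; linarith
  · intro hc
    have hx : D u v x ≠ 0 := by rintro e; simp [e] at hc
    have hy : D u v y ≠ 0 := by rintro e; simp [e] at hc
    have h3 := mul_self_pos.2 hx
    have h5 : 0 < D u v x * D u v x - D u v x * D u v y := by linarith
    refine ⟨⟨_, ?_, D u v x * D u v x / (D u v x * D u v x - D u v x * D u v y),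
      ⟨by positivity, ?_⟩, rfl⟩, hx, hy⟩
    · rw [mem_line h, D_line]
      have h6 := h5.ne'
      rw [one_sub_div h6, div_mul_eq_mul_div, div_mul_eq_mul_div, ← add_div, div_eq_zero_iff]
      left; ring
    · rw [div_le_one h5]; linarith

def px : Fin 6 → ℝ := ![0, 9, 0, 1, 6, 2]
def py : Fin 6 → ℝ := ![0, 0, 9, 2, 1, 6]
noncomputable def p (i : Fin 6) : E := !₂[px i, py i]
noncomputable def x : E := !₂[3, 3]

def Fac : List (Finset (Fin 6)) :=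
  [{3, 4, 5}, {0, 1, 3}, {1, 2, 4}, {0, 2, 5}, {1, 3, 4}, {2, 4, 5}, {0, 3, 5}]

def Δ : Finset (Finset (Fin 6)) := Finset.univ.filter fun S => ∃ F ∈ Fac, S ⊆ F

lemma mem_Δ {S : Finset (Fin 6)} : S ∈ Δ ↔ ∃ F ∈ Fac, S ⊆ F := by simp [Δ]

lemma sum_eq (w : Fin 6 → ℝ) (y : E) : ∑ i, w i • p i = y ↔
    9 * w 1 + w 3 + 6 * w 4 + 2 * w 5 = y 0 ∧ 9 * w 2 + 2 * w 3 + w 4 + 6 * w 5 = y 1 := by
  rw [PiLp.ext_iff, Fin.forall_fin_two]
  simp [Fin.sum_univ_six, p, px, py]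
  constructor <;> rintro ⟨h1, h2⟩ <;> constructor <;> linarith

lemma supp {F : Finset (Fin 6)} (hF : F ∈ Fac) {w : Fin 6 → ℝ} (h : ∀ i ∉ F, w i = 0) :
    (w 0 = 0 ∧ w 1 = 0 ∧ w 2 = 0) ∨ (w 2 = 0 ∧ w 4 = 0 ∧ w 5 = 0) ∨
    (w 0 = 0 ∧ w 3 = 0 ∧ w 5 = 0) ∨ (w 1 = 0 ∧ w 3 = 0 ∧ w 4 = 0) ∨
    (w 0 = 0 ∧ w 2 = 0 ∧ w 5 = 0) ∨ (w 0 = 0 ∧ w 1 = 0 ∧ w 3 = 0) ∨
    (w 1 = 0 ∧ w 2 = 0 ∧ w 4 = 0) := by
  simp only [Fac, List.mem_cons, List.not_mem_nil, or_false] at hF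
  rcases hF with rfl | rfl | rfl | rfl | rfl | rfl | rfl <;> simp [Fin.forall_fin_succ] at h <;>
    simp_all

lemma hindep : ∀ S ∈ Δ, AffineIndependent ℝ (fun i : (S : Set (Fin 6)) => p i) := by
  intro S hS
  obtain ⟨F, hF, hSF⟩ := mem_Δ.1 hS
  refine indep p S fun w h0 h1 h2 => ?_
  rw [sum_eq] at h2
  simp only [Fin.sum_univ_six, PiLp.zero_apply] at h1 h2
  obtain ⟨h2, h3⟩ := h2
  funext i
  rcases supp hF fun i hi => h0 i fun h => hi (hSF h) with h | h | h | h | h | h | h <;>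
    obtain ⟨a, b, c⟩ := h <;> fin_cases i <;> simp <;> linarith

lemma uniq {F G : Finset (Fin 6)} (hF : F ∈ Fac) (hG : G ∈ Fac) {w v : Fin 6 → ℝ}
    (w0 : ∀ i, 0 ≤ w i) (v0 : ∀ i, 0 ≤ v i) (hw : ∀ i ∉ F, w i = 0) (hv : ∀ i ∉ G, v i = 0)
    (w1 : ∑ i, w i = 1) (v1 : ∑ i, v i = 1) (e : ∑ i, w i • p i = ∑ i, v i • p i) : w = v := by
  obtain ⟨e1, e2⟩ := (sum_eq w _).1 e
  obtain ⟨e3, e4⟩ := (sum_eq v _).1 rfl
  rw [← e3] at e1
  rw [← e4] at e2
  simp only [Fin.sum_univ_six] at w1 v1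
  have := w0 0; have := w0 1; have := w0 2; have := w0 3; have := w0 4; have := w0 5
  have := v0 0; have := v0 1; have := v0 2; have := v0 3; have := v0 4; have := v0 5
  have key : w 0 = v 0 ∧ w 1 = v 1 ∧ w 2 = v 2 ∧ w 3 = v 3 ∧ w 4 = v 4 ∧ w 5 = v 5 := by
    clear e e3 e4
    rcases supp hF hw with h | h | h | h | h | h | h <;> obtain ⟨a, b, c⟩ := h <;>
      rcases supp hG hv with h | h | h | h | h | h | h <;> obtain ⟨a', b', c'⟩ := h <;>
      refine ⟨?_, ?_, ?_, ?_, ?_, ?_⟩ <;> linarith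
  funext i
  fin_cases i <;> simp [key]

lemma hinter : ∀ S ∈ Δ, ∀ T ∈ Δ,
    convexHull ℝ (p '' (S : Set (Fin 6))) ∩ convexHull ℝ (p '' (T : Set (Fin 6))) =
      convexHull ℝ (p '' ((S ∩ T : Finset (Fin 6)) : Set (Fin 6))) := by
  intro S hS T hT
  obtain ⟨F, hF, hSF⟩ := mem_Δ.1 hS
  obtain ⟨G, hG, hTG⟩ := mem_Δ.1 hT
  ext y
  simp only [Set.mem_inter_iff, mem_hull]
  constructor
  · rintro ⟨⟨w, w0, hw, w1, rfl⟩, v, v0, hv, v1, e⟩
    have := uniq hF hG w0 v0 (fun i hi => hw i fun h => hi (hSF h))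
      (fun i hi => hv i fun h => hi (hTG h)) w1 v1 e.symm
    subst this
    refine ⟨w, w0, fun i hi => ?_, w1, rfl⟩
    by_cases h : i ∈ S
    · exact hv i fun h' => hi (Finset.mem_inter.2 ⟨h, h'⟩)
    · exact hw i h
  · rintro ⟨w, w0, hw, w1, rfl⟩
    exact ⟨⟨w, w0, fun i hi => hw i fun h => hi (Finset.mem_inter.1 h).1, w1, rfl⟩,
      w, w0, fun i hi => hw i fun h => hi (Finset.mem_inter.1 h).2, w1, rfl⟩

lemma mem_of (F : Finset (Fin 6)) (hF : F ∈ Fac) (y : E) (w : Fin 6 → ℝ) (w0 : ∀ i, 0 ≤ w i)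
    (hw : ∀ i ∉ F, w i = 0) (w1 : ∑ i, w i = 1)
    (e : 9 * w 1 + w 3 + 6 * w 4 + 2 * w 5 = y 0 ∧ 9 * w 2 + 2 * w 3 + w 4 + 6 * w 5 = y 1) :
    y ∈ ⋃ S ∈ Δ, convexHull ℝ (p '' (S : Set (Fin 6))) :=
  Set.mem_biUnion (mem_Δ.2 ⟨F, hF, le_rfl⟩) ((mem_hull _ _ _).2 ⟨w, w0, hw, w1, (sum_eq _ _).2 e⟩)

lemma union_eq : (⋃ S ∈ Δ, convexHull ℝ (p '' (S : Set (Fin 6)))) =
    {y : E | 0 ≤ y 0 ∧ 0 ≤ y 1 ∧ y 0 + y 1 ≤ 9} := by
  ext y
  constructor
  · intro h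
    obtain ⟨S, -, h⟩ := Set.mem_iUnion₂.1 h
    obtain ⟨w, w0, -, w1, e⟩ := (mem_hull _ _ _).1 h
    obtain ⟨e1, e2⟩ := (sum_eq _ _).1 e
    simp only [Fin.sum_univ_six] at w1
    have := w0 0; have := w0 1; have := w0 2; have := w0 3; have := w0 4; have := w0 5
    refine ⟨?_, ?_, ?_⟩ <;> linarith
  · rintro ⟨h0, h1, h2⟩
    have key : (0 ≤ (-5) * y 0 + (-4) * y 1 + (34) ∧ 0 ≤ (4) * y 0 + (-1) * y 1 + (-2) ∧ 0 ≤ (1) * y 0 + (5) * y 1 + (-11)) ∨
      (0 ≤ (-2) * y 0 + (-8) * y 1 + (18) ∧ 0 ≤ (2) * y 0 + (-1) * y 1 + (0) ∧ 0 ≤ (0) * y 0 + (9) * y 1 + (0)) ∨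
      (0 ≤ (8) * y 0 + (6) * y 1 + (-54) ∧ 0 ≤ (1) * y 0 + (3) * y 1 + (-9) ∧ 0 ≤ (-9) * y 0 + (-9) * y 1 + (81)) ∨
      (0 ≤ (-3) * y 0 + (-2) * y 1 + (18) ∧ 0 ≤ (-6) * y 0 + (2) * y 1 + (0) ∧ 0 ≤ (9) * y 0 + (0) * y 1 + (0)) ∨
      (0 ≤ (-1) * y 0 + (-5) * y 1 + (11) ∧ 0 ≤ (-1) * y 0 + (-3) * y 1 + (9) ∧ 0 ≤ (2) * y 0 + (8) * y 1 + (-18)) ∨
      (0 ≤ (5) * y 0 + (4) * y 1 + (-34) ∧ 0 ≤ (3) * y 0 + (2) * y 1 + (-18) ∧ 0 ≤ (-8) * y 0 + (-6) * y 1 + (54)) ∨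
      (0 ≤ (-4) * y 0 + (1) * y 1 + (2) ∧ 0 ≤ (6) * y 0 + (-2) * y 1 + (0) ∧ 0 ≤ (-2) * y 0 + (1) * y 1 + (0)) := by
      by_contra hc
      simp only [not_or, not_and_or, not_le] at hc
      obtain ⟨c1, c2, c3, c4, c5, c6, c7⟩ := hc
      rcases c2 with c2 | c2 | c2 <;> try linarith
      all_goals rcases c3 with c3 | c3 | c3 <;> try linarith
      all_goals rcases c4 with c4 | c4 | c4 <;> try linarith
      all_goals rcases c5 with c5 | c5 | c5 <;> try linarith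
      all_goals rcases c6 with c6 | c6 | c6 <;> try linarith
      all_goals rcases c7 with c7 | c7 | c7 <;> try linarith
      all_goals rcases c1 with c1 | c1 | c1 <;> linarith
    rcases key with ⟨a, b, c⟩ | ⟨a, b, c⟩ | ⟨a, b, c⟩ | ⟨a, b, c⟩ | ⟨a, b, c⟩ | ⟨a, b, c⟩ | ⟨a, b, c⟩
    · exact mem_of {3, 4, 5} (by simp [Fac]) y
        ![0, 0, 0, ((-5) * y 0 + (-4) * y 1 + (34)) / 21, ((4) * y 0 + (-1) * y 1 + (-2)) / 21, ((1) * y 0 + (5) * y 1 + (-11)) / 21]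
        (fun i => by fin_cases i <;> simp <;> linarith) (fun i => by fin_cases i <;> simp)
        (by simp [Fin.sum_univ_six]; ring) (by simp; constructor <;> ring)
    · exact mem_of {0, 1, 3} (by simp [Fac]) y
        ![((-2) * y 0 + (-8) * y 1 + (18)) / 18, ((2) * y 0 + (-1) * y 1 + (0)) / 18, 0, ((0) * y 0 + (9) * y 1 + (0)) / 18, 0, 0]
        (fun i => by fin_cases i <;> simp <;> linarith) (fun i => by fin_cases i <;> simp)
        (by simp [Fin.sum_univ_six]; ring) (by simp; constructor <;> ring)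
    · exact mem_of {1, 2, 4} (by simp [Fac]) y
        ![0, ((8) * y 0 + (6) * y 1 + (-54)) / 18, ((1) * y 0 + (3) * y 1 + (-9)) / 18, 0, ((-9) * y 0 + (-9) * y 1 + (81)) / 18, 0]
        (fun i => by fin_cases i <;> simp <;> linarith) (fun i => by fin_cases i <;> simp)
        (by simp [Fin.sum_univ_six]; ring) (by simp; constructor <;> ring)
    · exact mem_of {0, 2, 5} (by simp [Fac]) y
        ![((-3) * y 0 + (-2) * y 1 + (18)) / 18, 0, ((-6) * y 0 + (2) * y 1 + (0)) / 18, 0, 0, ((9) * y 0 + (0) * y 1 + (0)) / 18]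
        (fun i => by fin_cases i <;> simp <;> linarith) (fun i => by fin_cases i <;> simp)
        (by simp [Fin.sum_univ_six]; ring) (by simp; constructor <;> ring)
    · exact mem_of {1, 3, 4} (by simp [Fac]) y
        ![0, ((-1) * y 0 + (-5) * y 1 + (11)) / 2, 0, ((-1) * y 0 + (-3) * y 1 + (9)) / 2, ((2) * y 0 + (8) * y 1 + (-18)) / 2, 0]
        (fun i => by fin_cases i <;> simp <;> linarith) (fun i => by fin_cases i <;> simp)
        (by simp [Fin.sum_univ_six]; ring) (by simp; constructor <;> ring)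
    · exact mem_of {2, 4, 5} (by simp [Fac]) y
        ![0, 0, ((5) * y 0 + (4) * y 1 + (-34)) / 2, 0, ((3) * y 0 + (2) * y 1 + (-18)) / 2, ((-8) * y 0 + (-6) * y 1 + (54)) / 2]
        (fun i => by fin_cases i <;> simp <;> linarith) (fun i => by fin_cases i <;> simp)
        (by simp [Fin.sum_univ_six]; ring) (by simp; constructor <;> ring)
    · exact mem_of {0, 3, 5} (by simp [Fac]) y
        ![((-4) * y 0 + (1) * y 1 + (2)) / 2, 0, 0, ((6) * y 0 + (-2) * y 1 + (0)) / 2, 0, ((-2) * y 0 + (1) * y 1 + (0)) / 2]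
        (fun i => by fin_cases i <;> simp <;> linarith) (fun i => by fin_cases i <;> simp)
        (by simp [Fin.sum_univ_six]; ring) (by simp; constructor <;> ring)

lemma hconv : Convex ℝ (⋃ S ∈ Δ, convexHull ℝ (p '' (S : Set (Fin 6)))) := by
  rw [union_eq]
  rintro y ⟨y0, y1, y2⟩ z ⟨z0, z1, z2⟩ a b ha hb hab
  simp only [Set.mem_ofPred_eq, PiLp.add_apply, PiLp.smul_apply, smul_eq_mul]
  refine ⟨by positivity, by positivity, ?_⟩
  nlinarith [mul_le_mul_of_nonneg_left y2 ha, mul_le_mul_of_nonneg_left z2 hb]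

lemma hx : x ∈ ⋃ S ∈ Δ, convexHull ℝ (p '' (S : Set (Fin 6))) := by
  rw [union_eq]
  simp [x]
  norm_num

lemma span_pair (H : Finset (Fin 6)) (i j : Fin 6) (h : H = {i, j}) :
    affineSpan ℝ (p '' (H : Set (Fin 6))) = line[ℝ, p i, p j] := by
  rw [h, Finset.coe_pair, Set.image_pair]

lemma p_ne {i j : Fin 6} (h : i ≠ j) : p i 0 ≠ p j 0 ∨ p i 1 ≠ p j 1 := by
  fin_cases i <;> fin_cases j <;> simp_all [p, px, py]

lemma hgen : ∀ H ∈ Δ, H.card + 1 = 3 → x ∉ affineSpan ℝ (p '' (H : Set (Fin 6))) := by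
  intro H hH hc
  obtain ⟨i, j, hij, rfl⟩ := Finset.card_eq_two.1 (by omega : H.card = 2)
  rw [span_pair _ i j rfl, mem_line (p_ne hij)]
  fin_cases i <;> fin_cases j <;> simp [D, p, px, py, x] at hij ⊢ <;> norm_num

lemma opp (F : Finset (Fin 6)) (v i j : Fin 6) (h : F.erase v = {i, j}) (hij : i ≠ j) :
    (affineSpan ℝ (p '' ((F.erase v : Finset (Fin 6)) : Set (Fin 6)))).SOppSide x (p v) ↔
      D (p i) (p j) x * D (p i) (p j) (p v) < 0 := by
  rw [span_pair _ i j h, opp_iff (p_ne hij)]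

lemma vis (a b c : Fin 6) (hab : a ≠ b) (hac : a ≠ c) (hbc : b ≠ c)
    (h1 : D (p b) (p c) x * D (p b) (p c) (p a) < 0)
    (h2 : D (p a) (p c) x * D (p a) (p c) (p b) < 0)
    (h3 : 0 ≤ D (p a) (p b) x * D (p a) (p b) (p c)) (F : Finset (Fin 6)) (hF : F = {a, b, c})
    (v : Fin 6) : (v ∈ F ∧ (affineSpan ℝ (p '' ((F.erase v : Finset (Fin 6)) :
      Set (Fin 6)))).SOppSide x (p v)) ↔ v ∈ ({a, b} : Finset (Fin 6)) := by
  subst hF
  by_cases ha : v = a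
  · subst ha
    rw [opp _ _ b c (by ext; simp; grind) hbc]
    simp [h1]
  by_cases hb : v = b
  · subst hb
    rw [opp _ _ a c (by ext; simp; grind) hac]
    simp [h2]
  by_cases hc : v = c
  · subst hc
    rw [opp _ _ a b (by ext; simp; grind) hab]
    simp [ha, hb, h3]
  · simp [ha, hb, hc]

noncomputable def θ : Fin 3 → MvPolynomial (Fin 6) ℚ :=
  ![X 3 - X 1 + X 2, X 4 + X 0 - X 2, X 5 - X 0 + X 1]

lemma θ_hom (i : Fin 3) : (θ i).IsHomogeneous 1 := by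
  have := isHomogeneous_X (σ := Fin 6) ℚ
  fin_cases i
  · exact ((this 3).sub (this 1)).add (this 2)
  · exact ((this 4).add (this 0)).sub (this 2)
  · exact ((this 5).sub (this 0)).add (this 1)

noncomputable def J : Ideal (MvPolynomial (Fin 6) ℚ) :=
  Ideal.span ((fun S : Finset (Fin 6) => ∏ i ∈ S, (X i : MvPolynomial (Fin 6) ℚ)) ''
    {S : Finset (Fin 6) | S ∉ Δ}) ⊔ Ideal.span (Set.range θ)

noncomputable def y (i : Fin 6) : MvPolynomial (Fin 6) ℚ ⧸ J := Ideal.Quotient.mk J (X i)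

lemma nf (S : Finset (Fin 6)) (h : S ∉ Δ) : ∏ i ∈ S, y i = 0 := by
  simp only [y]
  rw [← map_prod, Ideal.Quotient.eq_zero_iff_mem]
  exact Ideal.mem_sup_left (Ideal.subset_span ⟨S, h, rfl⟩)

lemma rels : y 3 - y 1 + y 2 = 0 ∧ y 4 + y 0 - y 2 = 0 ∧ y 5 - y 0 + y 1 = 0 ∧
    y 0 * y 4 = 0 ∧ y 1 * y 5 = 0 ∧ y 2 * y 3 = 0 ∧ y 0 * (y 1 * y 2) = 0 := by
  have h : ∀ i, Ideal.Quotient.mk J (θ i) = 0 := fun i =>
    Ideal.Quotient.eq_zero_iff_mem.2 (Ideal.mem_sup_right (Ideal.subset_span ⟨i, rfl⟩))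
  refine ⟨h 0, h 1, h 2, ?_, ?_, ?_, ?_⟩
  · simpa using nf {0, 4} (by decide)
  · simpa using nf {1, 5} (by decide)
  · simpa using nf {2, 3} (by decide)
  · simpa using nf {0, 1, 2} (by decide)

lemma hfin : Module.Finite ℚ (MvPolynomial (Fin 6) ℚ ⧸ J) := by
  obtain ⟨r1, r2, r3, r4, r5, r6, r7⟩ := rels
  have nil : ∀ z : MvPolynomial (Fin 6) ℚ ⧸ J, z ^ 3 = 0 → IsIntegral ℚ z := fun z hz =>
    ⟨Polynomial.X ^ 3, Polynomial.monic_X_pow 3, by simpa using hz⟩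
  have a1 : y 0 * y 0 = y 0 * y 2 := by linear_combination y 0 * r2 - r4
  have a2 : y 1 * y 1 = y 0 * y 1 := by linear_combination y 1 * r3 - r5
  have a3 : y 2 * y 2 = y 1 * y 2 := by linear_combination y 2 * r1 - r6
  have i0 := nil (y 0) (by linear_combination (y 0 + y 2) * a1 + y 0 * a3 + r7)
  have i1 := nil (y 1) (by linear_combination (y 0 + y 1) * a2 + y 1 * a1 + r7)
  have i2 := nil (y 2) (by linear_combination (y 1 + y 2) * a3 + y 2 * a2 + r7)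
  have hy : ∀ i, IsIntegral ℚ (y i) := by
    intro i
    fin_cases i
    · exact i0
    · exact i1
    · exact i2
    · exact (show y 1 - y 2 = y 3 by linear_combination -r1) ▸ i1.sub i2
    · exact (show y 2 - y 0 = y 4 by linear_combination -r2) ▸ i2.sub i0
    · exact (show y 0 - y 1 = y 5 by linear_combination -r3) ▸ i0.sub i1
  have : Algebra.IsIntegral ℚ (MvPolynomial (Fin 6) ℚ ⧸ J) := ⟨fun z => by
    obtain ⟨z, rfl⟩ := Ideal.Quotient.mk_surjective z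
    induction z using MvPolynomial.induction_on with
    | C a => exact isIntegral_algebraMap
    | add p q hp hq => rw [map_add]; exact hp.add hq
    | mul_X p i hp => rw [map_mul]; exact hp.mul (hy i)⟩
  exact Algebra.IsIntegral.finite

lemma dep : y 0 * y 5 + y 1 * y 3 + y 2 * y 4 = 0 := by
  obtain ⟨r1, r2, r3, r4, r5, r6, -⟩ := rels
  linear_combination (y 0 + y 1) * r3 + (y 1 + y 2) * r1 + (y 2 + y 0) * r2 - r4 - r5 - r6

end Pool.Agent.H2.Vis
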